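import Pool.Agent.GA.Hn

/-!
# The finite support iteration of Hechler forcing

A condition of the iteration of length `κ` is a finite function `p` on a subset of `κ` with values
`p(c) = (s, τ)`, where `s` is a finite sequence of natural numbers and `τ` is a nice name of a function
from omega to omega over the iteration of length `c`; `p ≤ q` iff for all `c ∈ dom q`, with
`q(c) = (s', τ')`: `c ∈ dom p`, `p(c) = (s, τ)`, `s' ⊆ s`, `p|c ⊩ τ' ≤ τ`, and `p|c ⊩ τ'(n) ≤ s(n)`
for all `n ∈ dom s` outside of `dom s'`.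
-/

universe u

namespace GA

variable {M : Type u} [SetStr M] [IsZF M]

/-- The set of finite sequences of natural numbers. -/
noncomputable def fseq : M := sUn (img (fun n => funs n om) om)

/-- MODULE ha -/
theorem mem_fseq {s : M} : SetStr.mem s fseq ↔ ∃ n, SetStr.mem n om ∧ Fn s n ∧ ∀ x, SetStr.mem x n → SetStr.mem (app s x) om := by
  unfold fseq
  rw [mem_sUn]
  constructor
  · rintro ⟨y, hy, hs⟩
    obtain ⟨n, hn, rfl⟩ := (mem_img (F := fun n => funs n om) (by (repeat' (with_reducible first | apply pf_mxn | apply pd_NLeV | apply pd_NLe | apply pd_RName | apply pd_FV | apply pd_PreO | apply pf_p2 | apply pf_p1 | apply DD.pf_lv | apply DD.pf_nd | apply DD.pd_Clo | apply DD.pf_dl | apply DD.pf_prs | apply DD.pd_Fork | apply DD.pd_V | apply pd_maxR | apply pd_WOd | apply pf_pfin | apply pd_Fun1 | apply pf_hh | apply pd_Spr | apply pd_Inj | apply pf_har | apply pd_Le | apply pf_fins | apply pf_card | apply pd_Bij | apply pd_Fini | apply pd_Big | apply pd_Ord | apply pd_Tr | apply pd_Ind | apply pf_succ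 | apply pf_funs | apply pf_prod | apply pf_lam | apply pd_Fn | apply pf_app | apply pf_ran | apply pf_dom | apply PF.img | apply PF.pow | apply PD.sub | apply PF.adj | apply PF.un | apply PF.sUn | apply PF.op | apply PF.pr | apply PF.sep | exact PF.var _ | exact PF.const _ | apply PD.eq | apply PD.mem | apply PD.not | apply PD.iff | apply PD.or | apply PD.and | apply PD.imp | apply PD.ex | apply PD.all | exact PD.const _ | assumption | refine PF.comp1 (F := _) (by assumption) ?_ | refine PF.comp2 (F := _) (by assumption) ?_ ?_ | refine PF.comp3 (F := _) (by assumption) ?_ ?_ ?_ | refine PD.app1 (R := _) (by assumption) ?_ | refine PD.app2 (R := _) (by assumption) ?_ ?_ | refine PD.app3 (R := _) (by assumption) ?_ ?_ ?_ | refine PD.app4 (R := _) (by assumption) ?_ ?_ ?_ ?_)))).1 hy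
    exact ⟨n, hn, mem_funs.1 hs⟩
  · rintro ⟨n, hn, hs⟩
    exact ⟨funs n om, (mem_img (F := fun n => funs n om) (by (repeat' (with_reducible first | apply pf_mxn | apply pd_NLeV | apply pd_NLe | apply pd_RName | apply pd_FV | apply pd_PreO | apply pf_p2 | apply pf_p1 | apply DD.pf_lv | apply DD.pf_nd | apply DD.pd_Clo | apply DD.pf_dl | apply DD.pf_prs | apply DD.pd_Fork | apply DD.pd_V | apply pd_maxR | apply pd_WOd | apply pf_pfin | apply pd_Fun1 | apply pf_hh | apply pd_Spr | apply pd_Inj | apply pf_har | apply pd_Le | apply pf_fins | apply pf_card | apply pd_Bij | apply pd_Fini | apply pd_Big | apply pd_Ord | apply pd_Tr | apply pd_Ind | apply pf_succ | apply pf_funs | apply pf_prod | apply pf_lam | apply pd_Fn | apply pf_app | apply pf_ran | apply pf_dom | apply PF.img | apply PF.pow | apply PD.sub | apply PF.adj | apply PF.un | apply PF.sUn | apply PF.op | apply PF.pr | apply PF.sep | exact PF.var _ | exact PF.const _ | apply PD.eq | apply PD.mem | apply PD.not | apply PD.iff | apply PD.or | apply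 PD.and | apply PD.imp | apply PD.ex | apply PD.all | exact PD.const _ | assumption | refine PF.comp1 (F := _) (by assumption) ?_ | refine PF.comp2 (F := _) (by assumption) ?_ ?_ | refine PF.comp3 (F := _) (by assumption) ?_ ?_ ?_ | refine PD.app1 (R := _) (by assumption) ?_ | refine PD.app2 (R := _) (by assumption) ?_ ?_ | refine PD.app3 (R := _) (by assumption) ?_ ?_ ?_ | refine PD.app4 (R := _) (by assumption) ?_ ?_ ?_ ?_)))).2 ⟨n, hn, rfl⟩, mem_funs.2 hs⟩

/-- The conditions with domain contained in `c`. -/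
noncomputable def below (P c : M) : M :=
  sep P (fun q => ∀ z, SetStr.mem z q → ∃ b y, SetStr.mem b c ∧ z = op b y)

theorem mem_below {P c q : M} :
    SetStr.mem q (below P c) ↔ SetStr.mem q P ∧ ∀ z, SetStr.mem z q → ∃ b y, SetStr.mem b c ∧ z = op b y := by
  unfold below
  rw [mem_sep (by (repeat' (with_reducible first | apply pf_mxn | apply pd_NLeV | apply pd_NLe | apply pd_RName | apply pd_FV | apply pd_PreO | apply pf_p2 | apply pf_p1 | apply DD.pf_lv | apply DD.pf_nd | apply DD.pd_Clo | apply DD.pf_dl | apply DD.pf_prs | apply DD.pd_Fork | apply DD.pd_V | apply pd_maxR | apply pd_WOd | apply pf_pfin | apply pd_Fun1 | apply pf_hh | apply pd_Spr | apply pd_Inj | apply pf_har | apply pd_Le | apply pf_fins | apply pf_card | apply pd_Bij | apply pd_Fini | apply pd_Big | apply pd_Ord | apply pd_Tr | apply pd_Ind | apply pf_succ | apply pf_funs | apply pf_prod | apply pf_lam | apply pd_Fn | apply pf_app | apply pf_ran | apply pf_dom | apply PF.img | apply PF.pow | apply PD.sub | apply PF.adj | apply PF.un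 | apply PF.sUn | apply PF.op | apply PF.pr | apply PF.sep | exact PF.var _ | exact PF.const _ | apply PD.eq | apply PD.mem | apply PD.not | apply PD.iff | apply PD.or | apply PD.and | apply PD.imp | apply PD.ex | apply PD.all | exact PD.const _ | assumption | refine PF.comp1 (F := _) (by assumption) ?_ | refine PF.comp2 (F := _) (by assumption) ?_ ?_ | refine PF.comp3 (F := _) (by assumption) ?_ ?_ ?_ | refine PD.app1 (R := _) (by assumption) ?_ | refine PD.app2 (R := _) (by assumption) ?_ ?_ | refine PD.app3 (R := _) (by assumption) ?_ ?_ ?_ | refine PD.app4 (R := _) (by assumption) ?_ ?_ ?_ ?_)))]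

theorem pf_below {f g : (ℕ → M) → M} (hf : PF f) (hg : PF g) : PF (fun v => below (f v) (g v)) :=
  PF.comp2 (F := fun x y => below x y) (by unfold below; (repeat' (with_reducible first | apply pf_mxn | apply pd_NLeV | apply pd_NLe | apply pd_RName | apply pd_FV | apply pd_PreO | apply pf_p2 | apply pf_p1 | apply DD.pf_lv | apply DD.pf_nd | apply DD.pd_Clo | apply DD.pf_dl | apply DD.pf_prs | apply DD.pd_Fork | apply DD.pd_V | apply pd_maxR | apply pd_WOd | apply pf_pfin | apply pd_Fun1 | apply pf_hh | apply pd_Spr | apply pd_Inj | apply pf_har | apply pd_Le | apply pf_fins | apply pf_card | apply pd_Bij | apply pd_Fini | apply pd_Big | apply pd_Ord | apply pd_Tr | apply pd_Ind | apply pf_succ | apply pf_funs | apply pf_prod | apply pf_lam | apply pd_Fn | apply pf_app | apply pf_ran | apply pf_dom | apply PF.img | apply PF.pow | apply PD.sub | apply PF.adj | apply PF.un | apply PF.sUn | apply PF.op | apply PF.pr | apply PF.sep | exact PF.var _ | exact PF.const _ | apply PD.eq | apply PD.mem | apply PD.not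 | apply PD.iff | apply PD.or | apply PD.and | apply PD.imp | apply PD.ex | apply PD.all | exact PD.const _ | assumption | refine PF.comp1 (F := _) (by assumption) ?_ | refine PF.comp2 (F := _) (by assumption) ?_ ?_ | refine PF.comp3 (F := _) (by assumption) ?_ ?_ ?_ | refine PD.app1 (R := _) (by assumption) ?_ | refine PD.app2 (R := _) (by assumption) ?_ ?_ | refine PD.app3 (R := _) (by assumption) ?_ ?_ ?_ | refine PD.app4 (R := _) (by assumption) ?_ ?_ ?_ ?_))) hf hg


/-- The restriction of `p` to `c`. -/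
noncomputable def res (p c : M) : M := sep p (fun z => ∃ b y, SetStr.mem b c ∧ z = op b y)

theorem mem_res {p c z : M} : SetStr.mem z (res p c) ↔ SetStr.mem z p ∧ ∃ b y, SetStr.mem b c ∧ z = op b y := by
  unfold res
  rw [mem_sep (by (repeat' (with_reducible first | apply pf_below | apply pf_mxn | apply pd_NLeV | apply pd_NLe | apply pd_RName | apply pd_FV | apply pd_PreO | apply pf_p2 | apply pf_p1 | apply DD.pf_lv | apply DD.pf_nd | apply DD.pd_Clo | apply DD.pf_dl | apply DD.pf_prs | apply DD.pd_Fork | apply DD.pd_V | apply pd_maxR | apply pd_WOd | apply pf_pfin | apply pd_Fun1 | apply pf_hh | apply pd_Spr | apply pd_Inj | apply pf_har | apply pd_Le | apply pf_fins | apply pf_card | apply pd_Bij | apply pd_Fini | apply pd_Big | apply pd_Ord | apply pd_Tr | apply pd_Ind | apply pf_succ | apply pf_funs | apply pf_prod | apply pf_lam | apply pd_Fn | apply pf_app | apply pf_ran | apply pf_dom | apply PF.img | apply PF.pow | apply PD.sub | apply PF.adj | apply PF.un | apply PF.sUn | apply PF.op | apply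 PF.pr | apply PF.sep | exact PF.var _ | exact PF.const _ | apply PD.eq | apply PD.mem | apply PD.not | apply PD.iff | apply PD.or | apply PD.and | apply PD.imp | apply PD.ex | apply PD.all | exact PD.const _ | assumption | refine PF.comp1 (F := _) (by assumption) ?_ | refine PF.comp2 (F := _) (by assumption) ?_ ?_ | refine PF.comp3 (F := _) (by assumption) ?_ ?_ ?_ | refine PD.app1 (R := _) (by assumption) ?_ | refine PD.app2 (R := _) (by assumption) ?_ ?_ | refine PD.app3 (R := _) (by assumption) ?_ ?_ ?_ | refine PD.app4 (R := _) (by assumption) ?_ ?_ ?_ ?_)))]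

theorem pf_res {f g : (ℕ → M) → M} (hf : PF f) (hg : PF g) : PF (fun v => res (f v) (g v)) :=
  PF.comp2 (F := fun x y => res x y) (by unfold res; (repeat' (with_reducible first | apply pf_below | apply pf_mxn | apply pd_NLeV | apply pd_NLe | apply pd_RName | apply pd_FV | apply pd_PreO | apply pf_p2 | apply pf_p1 | apply DD.pf_lv | apply DD.pf_nd | apply DD.pd_Clo | apply DD.pf_dl | apply DD.pf_prs | apply DD.pd_Fork | apply DD.pd_V | apply pd_maxR | apply pd_WOd | apply pf_pfin | apply pd_Fun1 | apply pf_hh | apply pd_Spr | apply pd_Inj | apply pf_har | apply pd_Le | apply pf_fins | apply pf_card | apply pd_Bij | apply pd_Fini | apply pd_Big | apply pd_Ord | apply pd_Tr | apply pd_Ind | apply pf_succ | apply pf_funs | apply pf_prod | apply pf_lam | apply pd_Fn | apply pf_app | apply pf_ran | apply pf_dom | apply PF.img | apply PF.pow | apply PD.sub | apply PF.adj | apply PF.un | apply PF.sUn | apply PF.op | apply PF.pr | apply PF.sep | exact PF.var _ | exact PF.const _ | apply PD.eq | apply PD.mem |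 apply PD.not | apply PD.iff | apply PD.or | apply PD.and | apply PD.imp | apply PD.ex | apply PD.all | exact PD.const _ | assumption | refine PF.comp1 (F := _) (by assumption) ?_ | refine PF.comp2 (F := _) (by assumption) ?_ ?_ | refine PF.comp3 (F := _) (by assumption) ?_ ?_ ?_ | refine PD.app1 (R := _) (by assumption) ?_ | refine PD.app2 (R := _) (by assumption) ?_ ?_ | refine PD.app3 (R := _) (by assumption) ?_ ?_ ?_ | refine PD.app4 (R := _) (by assumption) ?_ ?_ ?_ ?_))) hf hg


/-- The clause for `p ≤ q`, with `Q c` the iteration of length `c` and `L` the order. -/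
def HLe (P L p q : M) : Prop :=
  ∀ c s' τ', SetStr.mem (op c (op s' τ')) q → ∃ s τ, SetStr.mem (op c (op s τ)) p ∧ GA.sub s' s ∧
    NLe (below P c) L (res p c) τ' τ ∧
      ∀ n k, SetStr.mem (op n k) s → ¬ SetStr.mem (op n k) s' → NLeV (below P c) L (res p c) τ' n k

theorem pd_HLe {P L p q : (ℕ → M) → M} (hP : PF P) (hL : PF L) (hp : PF p) (hq : PF q) :
    PD (fun v => HLe (P v) (L v) (p v) (q v)) :=
  PD.app4 (R := fun P L p q => HLe P L p q) (by unfold HLe; (repeat' (with_reducible first | apply pf_res | apply pf_below | apply pf_mxn | apply pd_NLeV | apply pd_NLe | apply pd_RName | apply pd_FV | apply pd_PreO | apply pf_p2 | apply pf_p1 | apply DD.pf_lv | apply DD.pf_nd | apply DD.pd_Clo | apply DD.pf_dl | apply DD.pf_prs | apply DD.pd_Fork | apply DD.pd_V | apply pd_maxR | apply pd_WOd | apply pf_pfin | apply pd_Fun1 | apply pf_hh | apply pd_Spr | apply pd_Inj | apply pf_har | apply pd_Le | apply pf_fins | apply pf_card | apply pd_Bij | apply pd_Fini | apply pd_Big | apply pd_Ord | apply pd_Tr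 | apply pd_Ind | apply pf_succ | apply pf_funs | apply pf_prod | apply pf_lam | apply pd_Fn | apply pf_app | apply pf_ran | apply pf_dom | apply PF.img | apply PF.pow | apply PD.sub | apply PF.adj | apply PF.un | apply PF.sUn | apply PF.op | apply PF.pr | apply PF.sep | exact PF.var _ | exact PF.const _ | apply PD.eq | apply PD.mem | apply PD.not | apply PD.iff | apply PD.or | apply PD.and | apply PD.imp | apply PD.ex | apply PD.all | exact PD.const _ | assumption | refine PF.comp1 (F := _) (by assumption) ?_ | refine PF.comp2 (F := _) (by assumption) ?_ ?_ | refine PF.comp3 (F := _) (by assumption) ?_ ?_ ?_ | refine PD.app1 (R := _) (by assumption) ?_ | refine PD.app2 (R := _) (by assumption) ?_ ?_ | refine PD.app3 (R := _) (by assumption) ?_ ?_ ?_ | refine PD.app4 (R := _) (by assumption) ?_ ?_ ?_ ?_))) hP hL hp hq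


/-- `(P, L)` is the finite support iteration of Hechler forcing of length `κ`. -/
structure IsHec (κ P L : M) : Prop where
  cond : ∀ p, SetStr.mem p P ↔ Fini p ∧ Fun1 p ∧ ∀ z, SetStr.mem z p → ∃ c s τ, z = op c (op s τ) ∧ SetStr.mem c κ ∧
    SetStr.mem s fseq ∧ RName (below P c) L τ
  rel : ∀ z, SetStr.mem z L → ∃ p q, z = op p q
  le : ∀ p q, SetStr.mem (op p q) L ↔ SetStr.mem p P ∧ SetStr.mem q P ∧ HLe P L p q

section

variable {κ P L : M}

private theorem hb_res_sub (p c : M) : GA.sub (res p c) p := fun _ hz => (mem_res.1 hz).1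

private theorem hb_op_mem_res {p c b y : M} : SetStr.mem (op b y) (res p c) ↔ SetStr.mem (op b y) p ∧ SetStr.mem b c := by
  rw [mem_res]
  constructor
  · rintro ⟨h1, b', y', h2, h3⟩
    rw [op_inj] at h3
    exact ⟨h1, by rw [h3.1]; exact h2⟩
  · rintro ⟨h1, h2⟩
    exact ⟨h1, b, y, h2, rfl⟩

private theorem hb_below_mem {P c q b y : M} (hq : SetStr.mem q (below P c)) (h : SetStr.mem (op b y) q) : SetStr.mem b c := by
  obtain ⟨b', y', h1, h2⟩ := (mem_below.1 hq).2 _ h
  rw [op_inj] at h2
  rw [h2.1]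
  exact h1

private theorem hb_cond (h : IsHec κ P L) {p c s τ : M} (hp : SetStr.mem p P) (hc : SetStr.mem (op c (op s τ)) p) :
    SetStr.mem c κ ∧ SetStr.mem s fseq ∧ RName (below P c) L τ := by
  obtain ⟨c', s', τ', h1, h2⟩ := ((h.cond p).1 hp).2.2 _ hc
  rw [op_inj, op_inj] at h1
  rw [h1.1, h1.2.1, h1.2.2]
  exact h2

/-- MODULE hb -/
theorem IsHec.emp_mem (h : IsHec κ P L) : SetStr.mem emp P := by
  rw [h.cond]
  exact ⟨Fini.emp, fun x y z hy => absurd hy (not_mem_emp _), fun z hz => absurd hz (not_mem_emp z)⟩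

/-- MODULE hb -/
theorem IsHec.le_emp (h : IsHec κ P L) {p : M} (hp : SetStr.mem p P) : SetStr.mem (op p emp) L := by
  rw [h.le]
  exact ⟨hp, h.emp_mem, fun c s' τ' hc => absurd hc (not_mem_emp _)⟩

/-- MODULE hb -/
theorem IsHec.sub_mem (h : IsHec κ P L) {p q : M} (hp : SetStr.mem p P) (hq : GA.sub q p) : SetStr.mem q P := by
  rw [h.cond] at hp ⊢
  exact ⟨hp.1.sub hq, fun x y z hy hz => hp.2.1 x y z (hq _ hy) (hq _ hz), fun z hz => hp.2.2 z (hq z hz)⟩

/-- MODULE hb -/
theorem IsHec.res_mem (h : IsHec κ P L) {p : M} (hp : SetStr.mem p P) (c : M) : SetStr.mem (res p c) (below P c) := by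
  rw [mem_below]
  exact ⟨h.sub_mem hp (hb_res_sub p c), fun z hz => (mem_res.1 hz).2⟩

/-- MODULE hb -/
theorem res_eq_self {q c : M} (hq : SetStr.mem q (below P c)) : res q c = q := by
  refine ext (fun z => ?_)
  rw [mem_res]
  exact ⟨fun h => h.1, fun h => ⟨h, (mem_below.1 hq).2 z h⟩⟩

/-- MODULE hb -/
theorem res_res {p c b : M} (hbc : GA.sub b c) : res (res p c) b = res p b := by
  refine ext (fun z => ?_)
  rw [mem_res, mem_res, mem_res]
  constructor
  · rintro ⟨⟨h1, -⟩, h2⟩
    exact ⟨h1, h2⟩
  · rintro ⟨h1, b', y, h2, h3⟩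
    exact ⟨⟨h1, b', y, hbc _ h2, h3⟩, b', y, h2, h3⟩

/-- MODULE hb -/
theorem below_mono {b c : M} (h : GA.sub b c) : GA.sub (below P b) (below P c) := by
  intro q hq
  rw [mem_below] at hq ⊢
  refine ⟨hq.1, fun z hz => ?_⟩
  obtain ⟨b', y, h1, h2⟩ := hq.2 z hz
  exact ⟨b', y, h _ h1, h2⟩

/-- MODULE hc.  Restriction is monotone. -/
theorem IsHec.res_le (h : IsHec κ P L) (hκ : Ord κ) {p q c : M} (hpq : SetStr.mem (op p q) L)
    (hc : SetStr.mem c κ ∨ c = κ) : SetStr.mem (op (res p c) (res q c)) L := by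
  have hcO : Ord c := by
    rcases hc with hc | hc
    · exact hκ.mem hc
    · rw [hc]
      exact hκ
  obtain ⟨hp, hq, hle⟩ := (h.le p q).1 hpq
  rw [h.le]
  refine ⟨h.sub_mem hp (hb_res_sub p c), h.sub_mem hq (hb_res_sub q c), ?_⟩
  intro b s' τ' hb
  rw [hb_op_mem_res] at hb
  obtain ⟨s, τ, h1, h2, h3, h4⟩ := hle b s' τ' hb.1
  have hbc : GA.sub b c := fun z hz => hcO.trans hb.2 hz
  refine ⟨s, τ, hb_op_mem_res.2 ⟨h1, hb.2⟩, h2, ?_, ?_⟩
  · rw [res_res hbc]
    exact h3
  · intro n k hn hn'
    rw [res_res hbc]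
    exact h4 n k hn hn'

/-- MODULE hc -/
theorem IsHec.refl (h : IsHec κ P L) {p : M} (hp : SetStr.mem p P) : SetStr.mem (op p p) L := by
  rw [h.le]
  refine ⟨hp, hp, ?_⟩
  intro c s' τ' hc
  exact ⟨s', τ', hc, fun _ hz => hz, NLe.refl (hb_cond h hp hc).2.2, fun n k h1 h2 => absurd h1 h2⟩

/-- MODULE hd.  (Induction on `c` with `Ord.ind`: for `c ⊆ κ` the order is transitive on `below P c`;
`NLe.trans`, `NLe.mono`, `NLe.trans_val`, `NLeV.mono` for `(below P b, L)`, `b ∈ c`.) -/
theorem IsHec.preO_below (h : IsHec κ P L) (hκ : Ord κ) {c : M} (hc : SetStr.mem c κ ∨ c = κ) :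
    PreO (below P c) L := by
  have key : ∀ c, Ord c → (SetStr.mem c κ ∨ c = κ) → PreO (below P c) L := by
    refine Ord.ind (P := fun c => (SetStr.mem c κ ∨ c = κ) → PreO (below P c) L) (by (repeat' (with_reducible first | apply pd_HLe | apply pf_res | apply pf_below | apply pf_mxn | apply pd_NLeV | apply pd_NLe | apply pd_RName | apply pd_FV | apply pd_PreO | apply pf_p2 | apply pf_p1 | apply DD.pf_lv | apply DD.pf_nd | apply DD.pd_Clo | apply DD.pf_dl | apply DD.pf_prs | apply DD.pd_Fork | apply DD.pd_V | apply pd_maxR | apply pd_WOd | apply pf_pfin | apply pd_Fun1 | apply pf_hh | apply pd_Spr | apply pd_Inj | apply pf_har | apply pd_Le | apply pf_fins | apply pf_card | apply pd_Bij | apply pd_Fini | apply pd_Big | apply pd_Ord | apply pd_Tr | apply pd_Ind | apply pf_succ | apply pf_funs | apply pf_prod | apply pf_lam | apply pd_Fn | apply pf_app | apply pf_ran | apply pf_dom | apply PF.img | apply PF.pow | apply PD.sub | apply PF.adj | apply PF.un | apply PF.sUn | apply PF.op | apply PF.pr | apply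 PF.sep | exact PF.var _ | exact PF.const _ | apply PD.eq | apply PD.mem | apply PD.not | apply PD.iff | apply PD.or | apply PD.and | apply PD.imp | apply PD.ex | apply PD.all | exact PD.const _ | assumption | refine PF.comp1 (F := _) (by assumption) ?_ | refine PF.comp2 (F := _) (by assumption) ?_ ?_ | refine PF.comp3 (F := _) (by assumption) ?_ ?_ ?_ | refine PD.app1 (R := _) (by assumption) ?_ | refine PD.app2 (R := _) (by assumption) ?_ ?_ | refine PD.app3 (R := _) (by assumption) ?_ ?_ ?_ | refine PD.app4 (R := _) (by assumption) ?_ ?_ ?_ ?_))) ?_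
    intro c hcO ih hc
    refine ⟨fun p hp => h.refl (mem_below.1 hp).1, ?_⟩
    intro p q r hp hq hr hpq hqr
    have hpP := (mem_below.1 hp).1
    have hqP := (mem_below.1 hq).1
    have hrP := (mem_below.1 hr).1
    have hpq' := ((h.le p q).1 hpq).2.2
    have hqr' := ((h.le q r).1 hqr).2.2
    rw [h.le]
    refine ⟨hpP, hrP, ?_⟩
    intro b s2 τ2 hb
    have hbc := hb_below_mem hr hb
    have hbκ : SetStr.mem b κ := (hb_cond h hrP hb).1
    have hpre : PreO (below P b) L := ih b hbc (Or.inl hbκ)
    obtain ⟨s1, τ1, h1, h2, h3, h4⟩ := hqr' b s2 τ2 hb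
    obtain ⟨s, τ, h5, h6, h7, h8⟩ := hpq' b s1 τ1 h1
    have hr2 : RName (below P b) L τ2 := (hb_cond h hrP hb).2.2
    have hr1 : RName (below P b) L τ1 := (hb_cond h hqP h1).2.2
    have hu : SetStr.mem (res q b) (below P b) := h.res_mem hqP b
    have hv : SetStr.mem (res p b) (below P b) := h.res_mem hpP b
    have hvu : SetStr.mem (op (res p b) (res q b)) L := h.res_le hκ hpq (Or.inl hbκ)
    have h3' : NLe (below P b) L (res p b) τ2 τ1 := NLe.mono hpre hu hv hvu h3
    refine ⟨s, τ, h5, fun z hz => h6 z (h2 z hz), NLe.trans hpre hv hr2 hr1 h3' h7, ?_⟩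
    intro n k hn hn'
    by_cases hn1 : SetStr.mem (op n k) s1
    · exact NLeV.mono hpre hu hv hvu (h4 n k hn1 hn')
    · exact NLe.trans_val hpre hv hr2 hr1 h3' (h8 n k hn hn1)
  have hcO : Ord c := by
    rcases hc with hc | hc
    · exact hκ.mem hc
    · rw [hc]
      exact hκ
  exact key c hcO hc

/-- MODULE he -/
theorem IsHec.below_self (h : IsHec κ P L) : below P κ = P := by
  refine ext (fun q => ?_)
  rw [mem_below]
  refine ⟨fun h1 => h1.1, fun h1 => ⟨h1, fun z hz => ?_⟩⟩
  obtain ⟨c, s, τ, rfl, h2, -⟩ := ((h.cond q).1 h1).2.2 z hz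
  exact ⟨c, _, h2, rfl⟩

/-- MODULE he -/
theorem IsHec.preO (h : IsHec κ P L) (hκ : Ord κ) : PreO P L := by
  have h1 := h.preO_below hκ (c := κ) (Or.inr rfl)
  rwa [h.below_self] at h1

/-- MODULE he -/
theorem IsHec.trans (h : IsHec κ P L) (hκ : Ord κ) {p q r : M} (h1 : SetStr.mem (op p q) L)
    (h2 : SetStr.mem (op q r) L) : SetStr.mem (op p r) L := by
  have h3 := (h.le p q).1 h1
  have h4 := (h.le q r).1 h2
  exact (h.preO hκ).2 p q r h3.1 h3.2.1 h4.2.1 h1 h2

/-- MODULE hf.  Change of a condition below `c`. -/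
theorem IsHec.amalgam (h : IsHec κ P L) (hκ : Ord κ) {p r c : M} (hp : SetStr.mem p P) (hc : SetStr.mem c κ)
    (hr : SetStr.mem r (below P c)) (hrp : SetStr.mem (op r (res p c)) L) :
    ∃ q, SetStr.mem q P ∧ SetStr.mem (op q p) L ∧ SetStr.mem (op q r) L ∧ res q c = r ∧
      ∀ b y, ¬ SetStr.mem b c → (SetStr.mem (op b y) q ↔ SetStr.mem (op b y) p) := by
  have hcO : Ord c := hκ.mem hc
  have hrP := (mem_below.1 hr).1
  have hD : PD (fun v : ℕ → M => (fun z => ∀ b y, z = op b y → ¬ SetStr.mem b c) (v 0)) := by (repeat' (with_reducible first | apply pd_HLe | apply pf_res | apply pf_below | apply pf_mxn | apply pd_NLeV | apply pd_NLe | apply pd_RName | apply pd_FV | apply pd_PreO | apply pf_p2 | apply pf_p1 | apply DD.pf_lv | apply DD.pf_nd | apply DD.pd_Clo | apply DD.pf_dl | apply DD.pf_prs | apply DD.pd_Fork | apply DD.pd_V | apply pd_maxR | apply pd_WOd | apply pf_pfin | apply pd_Fun1 | apply pf_hh | apply pd_Spr | apply pd_Inj | apply pf_har | apply pd_Le | apply pf_fins | apply pf_card | apply pd_Bij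 | apply pd_Fini | apply pd_Big | apply pd_Ord | apply pd_Tr | apply pd_Ind | apply pf_succ | apply pf_funs | apply pf_prod | apply pf_lam | apply pd_Fn | apply pf_app | apply pf_ran | apply pf_dom | apply PF.img | apply PF.pow | apply PD.sub | apply PF.adj | apply PF.un | apply PF.sUn | apply PF.op | apply PF.pr | apply PF.sep | exact PF.var _ | exact PF.const _ | apply PD.eq | apply PD.mem | apply PD.not | apply PD.iff | apply PD.or | apply PD.and | apply PD.imp | apply PD.ex | apply PD.all | exact PD.const _ | assumption | refine PF.comp1 (F := _) (by assumption) ?_ | refine PF.comp2 (F := _) (by assumption) ?_ ?_ | refine PF.comp3 (F := _) (by assumption) ?_ ?_ ?_ | refine PD.app1 (R := _) (by assumption) ?_ | refine PD.app2 (R := _) (by assumption) ?_ ?_ | refine PD.app3 (R := _) (by assumption) ?_ ?_ ?_ | refine PD.app4 (R := _) (by assumption) ?_ ?_ ?_ ?_))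
  set q := un r (sep p (fun z => ∀ b y, z = op b y → ¬ SetStr.mem b c)) with hq
  have hmem : ∀ b y, SetStr.mem (op b y) q ↔ SetStr.mem (op b y) r ∨ (SetStr.mem (op b y) p ∧ ¬ SetStr.mem b c) := by
    intro b y
    rw [hq, mem_un, mem_sep hD]
    constructor
    · rintro (h1 | ⟨h1, h2⟩)
      · exact Or.inl h1
      · exact Or.inr ⟨h1, h2 b y rfl⟩
    · rintro (h1 | ⟨h1, h2⟩)
      · exact Or.inl h1
      · refine Or.inr ⟨h1, fun b' y' h3 => ?_⟩
        rw [op_inj] at h3
        rw [← h3.1]
        exact h2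
  have hqP : SetStr.mem q P := by
    have h1 := (h.cond r).1 hrP
    have h2 := (h.cond p).1 hp
    rw [h.cond]
    refine ⟨Fini.un h1.1 (h2.1.sub fun z hz => ((mem_sep hD).1 hz).1), ?_, ?_⟩
    · intro x y z hy hz
      rw [hmem] at hy hz
      rcases hy with hy | hy <;> rcases hz with hz | hz
      · exact h1.2.1 x y z hy hz
      · exact absurd (hb_below_mem hr hy) hz.2
      · exact absurd (hb_below_mem hr hz) hy.2
      · exact h2.2.1 x y z hy.1 hz.1
    · intro z hz
      rw [hq, mem_un, mem_sep hD] at hz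
      rcases hz with hz | hz
      · exact h1.2.2 z hz
      · exact h2.2.2 z hz.1
  have hres : res q c = r := by
    refine ext (fun z => ?_)
    rw [mem_res]
    constructor
    · rintro ⟨h1, b, y, h2, rfl⟩
      rw [hmem] at h1
      rcases h1 with h1 | h1
      · exact h1
      · exact absurd h2 h1.2
    · intro h1
      obtain ⟨b, y, h2, rfl⟩ := (mem_below.1 hr).2 z h1
      exact ⟨(hmem b y).2 (Or.inl h1), b, y, h2, rfl⟩
  have hle := ((h.le r (res p c)).1 hrp).2.2
  refine ⟨q, hqP, ?_, ?_, hres, ?_⟩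
  · rw [h.le]
    refine ⟨hqP, hp, ?_⟩
    intro b s' τ' hb
    by_cases hbc : SetStr.mem b c
    · have hb' : SetStr.mem (op b (op s' τ')) (res p c) := hb_op_mem_res.2 ⟨hb, hbc⟩
      obtain ⟨s, τ, h1, h2, h3, h4⟩ := hle b s' τ' hb'
      have hsub : GA.sub b c := fun z hz => hcO.trans hbc hz
      have e : res q b = res r b := by rw [← hres, res_res hsub]
      rw [e]
      exact ⟨s, τ, (hmem _ _).2 (Or.inl h1), h2, h3, h4⟩
    · exact ⟨s', τ', (hmem _ _).2 (Or.inr ⟨hb, hbc⟩), fun _ hz => hz, NLe.refl (hb_cond h hp hb).2.2,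
        fun n k h1 h2 => absurd h1 h2⟩
  · rw [h.le]
    refine ⟨hqP, hrP, ?_⟩
    intro b s' τ' hb
    exact ⟨s', τ', (hmem _ _).2 (Or.inl hb), fun _ hz => hz, NLe.refl (hb_cond h hrP hb).2.2,
      fun n k h1 h2 => absurd h1 h2⟩
  · intro b y hb
    rw [hmem]
    constructor
    · rintro (h1 | h1)
      · exact absurd (hb_below_mem hr h1) hb
      · exact h1.1
    · exact fun h1 => Or.inr ⟨h1, hb⟩

/-- The type of a condition: the function of its stems. -/
noncomputable def stems (p : M) : M := img (fun z => op (p1 z) (p1 (p2 z))) p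

theorem pf_stems {f : (ℕ → M) → M} (hf : PF f) : PF (fun v => stems (f v)) :=
  PF.comp1 (F := fun x => stems x) (by unfold stems; (repeat' (with_reducible first | apply pd_HLe | apply pf_res | apply pf_below | apply pf_mxn | apply pd_NLeV | apply pd_NLe | apply pd_RName | apply pd_FV | apply pd_PreO | apply pf_p2 | apply pf_p1 | apply DD.pf_lv | apply DD.pf_nd | apply DD.pd_Clo | apply DD.pf_dl | apply DD.pf_prs | apply DD.pd_Fork | apply DD.pd_V | apply pd_maxR | apply pd_WOd | apply pf_pfin | apply pd_Fun1 | apply pf_hh | apply pd_Spr | apply pd_Inj | apply pf_har | apply pd_Le | apply pf_fins | apply pf_card | apply pd_Bij | apply pd_Fini | apply pd_Big | apply pd_Ord | apply pd_Tr | apply pd_Ind | apply pf_succ | apply pf_funs | apply pf_prod | apply pf_lam | apply pd_Fn | apply pf_app | apply pf_ran | apply pf_dom | apply PF.img | apply PF.pow | apply PD.sub | apply PF.adj | apply PF.un | apply PF.sUn | apply PF.op | apply PF.pr | apply PF.sep | exact PF.var _ | exact PF.const _ | apply PD.eq |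 apply PD.mem | apply PD.not | apply PD.iff | apply PD.or | apply PD.and | apply PD.imp | apply PD.ex | apply PD.all | exact PD.const _ | assumption | refine PF.comp1 (F := _) (by assumption) ?_ | refine PF.comp2 (F := _) (by assumption) ?_ ?_ | refine PF.comp3 (F := _) (by assumption) ?_ ?_ ?_ | refine PD.app1 (R := _) (by assumption) ?_ | refine PD.app2 (R := _) (by assumption) ?_ ?_ | refine PD.app3 (R := _) (by assumption) ?_ ?_ ?_ | refine PD.app4 (R := _) (by assumption) ?_ ?_ ?_ ?_))) hf


/-- MODULE hg -/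
theorem IsHec.mem_stems (h : IsHec κ P L) {p c s : M} (hp : SetStr.mem p P) :
    SetStr.mem (op c s) (stems p) ↔ ∃ τ, SetStr.mem (op c (op s τ)) p := by
  unfold stems
  rw [mem_img (F := fun z => op (p1 z) (p1 (p2 z))) (by (repeat' (with_reducible first | apply pf_stems | apply pd_HLe | apply pf_res | apply pf_below | apply pf_mxn | apply pd_NLeV | apply pd_NLe | apply pd_RName | apply pd_FV | apply pd_PreO | apply pf_p2 | apply pf_p1 | apply DD.pf_lv | apply DD.pf_nd | apply DD.pd_Clo | apply DD.pf_dl | apply DD.pf_prs | apply DD.pd_Fork | apply DD.pd_V | apply pd_maxR | apply pd_WOd | apply pf_pfin | apply pd_Fun1 | apply pf_hh | apply pd_Spr | apply pd_Inj | apply pf_har | apply pd_Le | apply pf_fins | apply pf_card | apply pd_Bij | apply pd_Fini | apply pd_Big | apply pd_Ord | apply pd_Tr | apply pd_Ind | apply pf_succ | apply pf_funs | apply pf_prod | apply pf_lam | apply pd_Fn | apply pf_app | apply pf_ran | apply pf_dom | apply PF.img | apply PF.pow | apply PD.sub | apply PF.adj | apply PF.un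 | apply PF.sUn | apply PF.op | apply PF.pr | apply PF.sep | exact PF.var _ | exact PF.const _ | apply PD.eq | apply PD.mem | apply PD.not | apply PD.iff | apply PD.or | apply PD.and | apply PD.imp | apply PD.ex | apply PD.all | exact PD.const _ | assumption | refine PF.comp1 (F := _) (by assumption) ?_ | refine PF.comp2 (F := _) (by assumption) ?_ ?_ | refine PF.comp3 (F := _) (by assumption) ?_ ?_ ?_ | refine PD.app1 (R := _) (by assumption) ?_ | refine PD.app2 (R := _) (by assumption) ?_ ?_ | refine PD.app3 (R := _) (by assumption) ?_ ?_ ?_ | refine PD.app4 (R := _) (by assumption) ?_ ?_ ?_ ?_)))]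
  constructor
  · rintro ⟨z, hz, h1⟩
    obtain ⟨c', s', τ', rfl, -⟩ := ((h.cond p).1 hp).2.2 z hz
    rw [p2_op, p1_op, p1_op, op_inj] at h1
    rw [h1.1, h1.2]
    exact ⟨τ', hz⟩
  · rintro ⟨τ, hτ⟩
    exact ⟨_, hτ, by rw [p2_op, p1_op, p1_op]⟩

/-- MODULE hg -/
theorem IsHec.stems_mem (h : IsHec κ P L) {p : M} (hp : SetStr.mem p P) : SetStr.mem (stems p) (pfin κ fseq) := by
  have hc := (h.cond p).1 hp
  rw [mem_pfin]
  refine ⟨?_, ?_, ?_⟩
  · intro z hz
    have hz' := hz
    unfold stems at hz'
    obtain ⟨w, hw, h1⟩ := (mem_img (F := fun z => op (p1 z) (p1 (p2 z))) (by (repeat' (with_reducible first | apply pf_stems | apply pd_HLe | apply pf_res | apply pf_below | apply pf_mxn | apply pd_NLeV | apply pd_NLe | apply pd_RName | apply pd_FV | apply pd_PreO | apply pf_p2 | apply pf_p1 | apply DD.pf_lv | apply DD.pf_nd | apply DD.pd_Clo | apply DD.pf_dl | apply DD.pf_prs | apply DD.pd_Fork | apply DD.pd_V | apply pd_maxR | apply pd_WOd | apply pf_pfin | apply pd_Fun1 | apply pf_hh | apply pd_Spr | apply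 pd_Inj | apply pf_har | apply pd_Le | apply pf_fins | apply pf_card | apply pd_Bij | apply pd_Fini | apply pd_Big | apply pd_Ord | apply pd_Tr | apply pd_Ind | apply pf_succ | apply pf_funs | apply pf_prod | apply pf_lam | apply pd_Fn | apply pf_app | apply pf_ran | apply pf_dom | apply PF.img | apply PF.pow | apply PD.sub | apply PF.adj | apply PF.un | apply PF.sUn | apply PF.op | apply PF.pr | apply PF.sep | exact PF.var _ | exact PF.const _ | apply PD.eq | apply PD.mem | apply PD.not | apply PD.iff | apply PD.or | apply PD.and | apply PD.imp | apply PD.ex | apply PD.all | exact PD.const _ | assumption | refine PF.comp1 (F := _) (by assumption) ?_ | refine PF.comp2 (F := _) (by assumption) ?_ ?_ | refine PF.comp3 (F := _) (by assumption) ?_ ?_ ?_ | refine PD.app1 (R := _) (by assumption) ?_ | refine PD.app2 (R := _) (by assumption) ?_ ?_ | refine PD.app3 (R := _) (by assumption) ?_ ?_ ?_ | refine PD.app4 (R := _) (by assumption) ?_ ?_ ?_ ?_)))).1 hz'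
    obtain ⟨c', s', τ', rfl, h2, h3, -⟩ := hc.2.2 w hw
    rw [p2_op, p1_op, p1_op] at h1
    rw [h1, op_mem_prod]
    exact ⟨h2, h3⟩
  · unfold stems
    exact Fini.img hc.1 (by (repeat' (with_reducible first | apply pf_stems | apply pd_HLe | apply pf_res | apply pf_below | apply pf_mxn | apply pd_NLeV | apply pd_NLe | apply pd_RName | apply pd_FV | apply pd_PreO | apply pf_p2 | apply pf_p1 | apply DD.pf_lv | apply DD.pf_nd | apply DD.pd_Clo | apply DD.pf_dl | apply DD.pf_prs | apply DD.pd_Fork | apply DD.pd_V | apply pd_maxR | apply pd_WOd | apply pf_pfin | apply pd_Fun1 | apply pf_hh | apply pd_Spr | apply pd_Inj | apply pf_har | apply pd_Le | apply pf_fins | apply pf_card | apply pd_Bij | apply pd_Fini | apply pd_Big | apply pd_Ord | apply pd_Tr | apply pd_Ind | apply pf_succ | apply pf_funs | apply pf_prod | apply pf_lam | apply pd_Fn | apply pf_app | apply pf_ran | apply pf_dom | apply PF.img | apply PF.pow | apply PD.sub | apply PF.adj | apply PF.un | apply PF.sUn | apply PF.op | apply PF.pr | apply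 PF.sep | exact PF.var _ | exact PF.const _ | apply PD.eq | apply PD.mem | apply PD.not | apply PD.iff | apply PD.or | apply PD.and | apply PD.imp | apply PD.ex | apply PD.all | exact PD.const _ | assumption | refine PF.comp1 (F := _) (by assumption) ?_ | refine PF.comp2 (F := _) (by assumption) ?_ ?_ | refine PF.comp3 (F := _) (by assumption) ?_ ?_ ?_ | refine PD.app1 (R := _) (by assumption) ?_ | refine PD.app2 (R := _) (by assumption) ?_ ?_ | refine PD.app3 (R := _) (by assumption) ?_ ?_ ?_ | refine PD.app4 (R := _) (by assumption) ?_ ?_ ?_ ?_)))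
  · intro x y z hy hz
    obtain ⟨τ, hτ⟩ := (h.mem_stems hp).1 hy
    obtain ⟨τ', hτ'⟩ := (h.mem_stems hp).1 hz
    exact (op_inj.1 (hc.2.1 x _ _ hτ hτ')).1

/-- The common extension of two conditions with the same stems on the common part of the domains. -/
noncomputable def amax (P L p q : M) : M :=
  un (sep p (fun z => ∀ y, ¬ SetStr.mem (op (p1 z) y) q))
    (un (sep q (fun z => ∀ y, ¬ SetStr.mem (op (p1 z) y) p))
      (sUn (img (fun z => img (fun w => op (p1 z) (op (p1 (p2 z))
        (mxn (below P (p1 z)) L (p2 (p2 z)) (p2 (p2 w)))))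
          (sep q (fun w => p1 w = p1 z))) p)))

/-- MODULE hh -/
theorem IsHec.mem_amax (h : IsHec κ P L) {p q c s τ : M} (hp : SetStr.mem p P) (hq : SetStr.mem q P)
    (hu : Fun1 (un (stems p) (stems q))) :
    SetStr.mem (op c (op s τ)) (amax P L p q) ↔ (SetStr.mem (op c (op s τ)) p ∧ ∀ y, ¬ SetStr.mem (op c y) q) ∨
      (SetStr.mem (op c (op s τ)) q ∧ ∀ y, ¬ SetStr.mem (op c y) p) ∨
      ∃ τ1 τ2, SetStr.mem (op c (op s τ1)) p ∧ SetStr.mem (op c (op s τ2)) q ∧ τ = mxn (below P c) L τ1 τ2 := by
  have hcp := (h.cond p).1 hp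
  have hcq := (h.cond q).1 hq
  unfold amax
  rw [mem_un, mem_un, mem_sep (by (repeat' (with_reducible first | apply pf_stems | apply pd_HLe | apply pf_res | apply pf_below | apply pf_mxn | apply pd_NLeV | apply pd_NLe | apply pd_RName | apply pd_FV | apply pd_PreO | apply pf_p2 | apply pf_p1 | apply DD.pf_lv | apply DD.pf_nd | apply DD.pd_Clo | apply DD.pf_dl | apply DD.pf_prs | apply DD.pd_Fork | apply DD.pd_V | apply pd_maxR | apply pd_WOd | apply pf_pfin | apply pd_Fun1 | apply pf_hh | apply pd_Spr | apply pd_Inj | apply pf_har | apply pd_Le | apply pf_fins | apply pf_card | apply pd_Bij | apply pd_Fini | apply pd_Big | apply pd_Ord | apply pd_Tr | apply pd_Ind | apply pf_succ | apply pf_funs | apply pf_prod | apply pf_lam | apply pd_Fn | apply pf_app | apply pf_ran | apply pf_dom | apply PF.img | apply PF.pow | apply PD.sub | apply PF.adj | apply PF.un | apply PF.sUn | apply PF.op | apply PF.pr | apply PF.sep | exact PF.var _ | exact PF.const _ | apply PD.eq | apply PD.mem | apply PD.not | apply PD.iff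 | apply PD.or | apply PD.and | apply PD.imp | apply PD.ex | apply PD.all | exact PD.const _ | assumption | refine PF.comp1 (F := _) (by assumption) ?_ | refine PF.comp2 (F := _) (by assumption) ?_ ?_ | refine PF.comp3 (F := _) (by assumption) ?_ ?_ ?_ | refine PD.app1 (R := _) (by assumption) ?_ | refine PD.app2 (R := _) (by assumption) ?_ ?_ | refine PD.app3 (R := _) (by assumption) ?_ ?_ ?_ | refine PD.app4 (R := _) (by assumption) ?_ ?_ ?_ ?_))), mem_sep (by (repeat' (with_reducible first | apply pf_stems | apply pd_HLe | apply pf_res | apply pf_below | apply pf_mxn | apply pd_NLeV | apply pd_NLe | apply pd_RName | apply pd_FV | apply pd_PreO | apply pf_p2 | apply pf_p1 | apply DD.pf_lv | apply DD.pf_nd | apply DD.pd_Clo | apply DD.pf_dl | apply DD.pf_prs | apply DD.pd_Fork | apply DD.pd_V | apply pd_maxR | apply pd_WOd | apply pf_pfin | apply pd_Fun1 | apply pf_hh | apply pd_Spr | apply pd_Inj | apply pf_har | apply pd_Le | apply pf_fins | apply pf_card | apply pd_Bij | apply pd_Fini | apply pd_Big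 | apply pd_Ord | apply pd_Tr | apply pd_Ind | apply pf_succ | apply pf_funs | apply pf_prod | apply pf_lam | apply pd_Fn | apply pf_app | apply pf_ran | apply pf_dom | apply PF.img | apply PF.pow | apply PD.sub | apply PF.adj | apply PF.un | apply PF.sUn | apply PF.op | apply PF.pr | apply PF.sep | exact PF.var _ | exact PF.const _ | apply PD.eq | apply PD.mem | apply PD.not | apply PD.iff | apply PD.or | apply PD.and | apply PD.imp | apply PD.ex | apply PD.all | exact PD.const _ | assumption | refine PF.comp1 (F := _) (by assumption) ?_ | refine PF.comp2 (F := _) (by assumption) ?_ ?_ | refine PF.comp3 (F := _) (by assumption) ?_ ?_ ?_ | refine PD.app1 (R := _) (by assumption) ?_ | refine PD.app2 (R := _) (by assumption) ?_ ?_ | refine PD.app3 (R := _) (by assumption) ?_ ?_ ?_ | refine PD.app4 (R := _) (by assumption) ?_ ?_ ?_ ?_))), mem_sUn]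
  rw [p1_op]
  refine or_congr Iff.rfl (or_congr Iff.rfl ?_)
  constructor
  · rintro ⟨W, hW, hmem⟩
    obtain ⟨z, hz, rfl⟩ := (mem_img (by (repeat' (with_reducible first | apply pf_stems | apply pd_HLe | apply pf_res | apply pf_below | apply pf_mxn | apply pd_NLeV | apply pd_NLe | apply pd_RName | apply pd_FV | apply pd_PreO | apply pf_p2 | apply pf_p1 | apply DD.pf_lv | apply DD.pf_nd | apply DD.pd_Clo | apply DD.pf_dl | apply DD.pf_prs | apply DD.pd_Fork | apply DD.pd_V | apply pd_maxR | apply pd_WOd | apply pf_pfin | apply pd_Fun1 | apply pf_hh | apply pd_Spr | apply pd_Inj | apply pf_har | apply pd_Le | apply pf_fins | apply pf_card | apply pd_Bij | apply pd_Fini | apply pd_Big | apply pd_Ord | apply pd_Tr | apply pd_Ind | apply pf_succ | apply pf_funs | apply pf_prod | apply pf_lam | apply pd_Fn | apply pf_app | apply pf_ran | apply pf_dom | apply PF.img | apply PF.pow | apply PD.sub | apply PF.adj | apply PF.un | apply PF.sUn | apply PF.op | apply PF.pr | apply PF.sep | exact PF.var _ | exact PF.const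 _ | apply PD.eq | apply PD.mem | apply PD.not | apply PD.iff | apply PD.or | apply PD.and | apply PD.imp | apply PD.ex | apply PD.all | exact PD.const _ | assumption | refine PF.comp1 (F := _) (by assumption) ?_ | refine PF.comp2 (F := _) (by assumption) ?_ ?_ | refine PF.comp3 (F := _) (by assumption) ?_ ?_ ?_ | refine PD.app1 (R := _) (by assumption) ?_ | refine PD.app2 (R := _) (by assumption) ?_ ?_ | refine PD.app3 (R := _) (by assumption) ?_ ?_ ?_ | refine PD.app4 (R := _) (by assumption) ?_ ?_ ?_ ?_)))).1 hW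
    obtain ⟨w, hw, h1⟩ := (mem_img (by (repeat' (with_reducible first | apply pf_stems | apply pd_HLe | apply pf_res | apply pf_below | apply pf_mxn | apply pd_NLeV | apply pd_NLe | apply pd_RName | apply pd_FV | apply pd_PreO | apply pf_p2 | apply pf_p1 | apply DD.pf_lv | apply DD.pf_nd | apply DD.pd_Clo | apply DD.pf_dl | apply DD.pf_prs | apply DD.pd_Fork | apply DD.pd_V | apply pd_maxR | apply pd_WOd | apply pf_pfin | apply pd_Fun1 | apply pf_hh | apply pd_Spr | apply pd_Inj | apply pf_har | apply pd_Le | apply pf_fins | apply pf_card | apply pd_Bij | apply pd_Fini | apply pd_Big | apply pd_Ord | apply pd_Tr | apply pd_Ind | apply pf_succ | apply pf_funs | apply pf_prod | apply pf_lam | apply pd_Fn | apply pf_app | apply pf_ran | apply pf_dom | apply PF.img | apply PF.pow | apply PD.sub | apply PF.adj | apply PF.un | apply PF.sUn | apply PF.op | apply PF.pr | apply PF.sep | exact PF.var _ | exact PF.const _ | apply PD.eq | apply PD.mem | apply PD.not | apply PD.iff | apply PD.or | apply PD.and | apply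 PD.imp | apply PD.ex | apply PD.all | exact PD.const _ | assumption | refine PF.comp1 (F := _) (by assumption) ?_ | refine PF.comp2 (F := _) (by assumption) ?_ ?_ | refine PF.comp3 (F := _) (by assumption) ?_ ?_ ?_ | refine PD.app1 (R := _) (by assumption) ?_ | refine PD.app2 (R := _) (by assumption) ?_ ?_ | refine PD.app3 (R := _) (by assumption) ?_ ?_ ?_ | refine PD.app4 (R := _) (by assumption) ?_ ?_ ?_ ?_)))).1 hmem
    rw [mem_sep (by (repeat' (with_reducible first | apply pf_stems | apply pd_HLe | apply pf_res | apply pf_below | apply pf_mxn | apply pd_NLeV | apply pd_NLe | apply pd_RName | apply pd_FV | apply pd_PreO | apply pf_p2 | apply pf_p1 | apply DD.pf_lv | apply DD.pf_nd | apply DD.pd_Clo | apply DD.pf_dl | apply DD.pf_prs | apply DD.pd_Fork | apply DD.pd_V | apply pd_maxR | apply pd_WOd | apply pf_pfin | apply pd_Fun1 | apply pf_hh | apply pd_Spr | apply pd_Inj | apply pf_har | apply pd_Le | apply pf_fins | apply pf_card | apply pd_Bij | apply pd_Fini | apply pd_Big | apply pd_Ord | apply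 pd_Tr | apply pd_Ind | apply pf_succ | apply pf_funs | apply pf_prod | apply pf_lam | apply pd_Fn | apply pf_app | apply pf_ran | apply pf_dom | apply PF.img | apply PF.pow | apply PD.sub | apply PF.adj | apply PF.un | apply PF.sUn | apply PF.op | apply PF.pr | apply PF.sep | exact PF.var _ | exact PF.const _ | apply PD.eq | apply PD.mem | apply PD.not | apply PD.iff | apply PD.or | apply PD.and | apply PD.imp | apply PD.ex | apply PD.all | exact PD.const _ | assumption | refine PF.comp1 (F := _) (by assumption) ?_ | refine PF.comp2 (F := _) (by assumption) ?_ ?_ | refine PF.comp3 (F := _) (by assumption) ?_ ?_ ?_ | refine PD.app1 (R := _) (by assumption) ?_ | refine PD.app2 (R := _) (by assumption) ?_ ?_ | refine PD.app3 (R := _) (by assumption) ?_ ?_ ?_ | refine PD.app4 (R := _) (by assumption) ?_ ?_ ?_ ?_)))] at hw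
    obtain ⟨c1, s1, τ1, rfl, -⟩ := hcp.2.2 z hz
    obtain ⟨c2, s2, τ2, rfl, -⟩ := hcq.2.2 w hw.1
    have h2 := hw.2
    rw [p1_op, p1_op] at h2
    simp only [p1_op, p2_op] at h1
    rw [op_inj, op_inj] at h1
    obtain ⟨rfl, rfl, rfl⟩ := h1
    subst h2
    have h3 : s = s2 := hu c2 s s2 (mem_un.2 (Or.inl ((h.mem_stems hp).2 ⟨τ1, hz⟩)))
      (mem_un.2 (Or.inr ((h.mem_stems hq).2 ⟨τ2, hw.1⟩)))
    exact ⟨τ1, τ2, hz, by rw [h3]; exact hw.1, rfl⟩
  · rintro ⟨τ1, τ2, h1, h2, rfl⟩
    refine ⟨_, (mem_img (by (repeat' (with_reducible first | apply pf_stems | apply pd_HLe | apply pf_res | apply pf_below | apply pf_mxn | apply pd_NLeV | apply pd_NLe | apply pd_RName | apply pd_FV | apply pd_PreO | apply pf_p2 | apply pf_p1 | apply DD.pf_lv | apply DD.pf_nd | apply DD.pd_Clo | apply DD.pf_dl | apply DD.pf_prs | apply DD.pd_Fork | apply DD.pd_V | apply pd_maxR | apply pd_WOd | apply pf_pfin | apply pd_Fun1 | apply pf_hh | apply pd_Spr | apply pd_Inj | apply pf_har | apply pd_Le | apply pf_fins | apply pf_card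 | apply pd_Bij | apply pd_Fini | apply pd_Big | apply pd_Ord | apply pd_Tr | apply pd_Ind | apply pf_succ | apply pf_funs | apply pf_prod | apply pf_lam | apply pd_Fn | apply pf_app | apply pf_ran | apply pf_dom | apply PF.img | apply PF.pow | apply PD.sub | apply PF.adj | apply PF.un | apply PF.sUn | apply PF.op | apply PF.pr | apply PF.sep | exact PF.var _ | exact PF.const _ | apply PD.eq | apply PD.mem | apply PD.not | apply PD.iff | apply PD.or | apply PD.and | apply PD.imp | apply PD.ex | apply PD.all | exact PD.const _ | assumption | refine PF.comp1 (F := _) (by assumption) ?_ | refine PF.comp2 (F := _) (by assumption) ?_ ?_ | refine PF.comp3 (F := _) (by assumption) ?_ ?_ ?_ | refine PD.app1 (R := _) (by assumption) ?_ | refine PD.app2 (R := _) (by assumption) ?_ ?_ | refine PD.app3 (R := _) (by assumption) ?_ ?_ ?_ | refine PD.app4 (R := _) (by assumption) ?_ ?_ ?_ ?_)))).2 ⟨_, h1, rfl⟩, ?_⟩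
    rw [mem_img (by (repeat' (with_reducible first | apply pf_stems | apply pd_HLe | apply pf_res | apply pf_below | apply pf_mxn | apply pd_NLeV | apply pd_NLe | apply pd_RName | apply pd_FV | apply pd_PreO | apply pf_p2 | apply pf_p1 | apply DD.pf_lv | apply DD.pf_nd | apply DD.pd_Clo | apply DD.pf_dl | apply DD.pf_prs | apply DD.pd_Fork | apply DD.pd_V | apply pd_maxR | apply pd_WOd | apply pf_pfin | apply pd_Fun1 | apply pf_hh | apply pd_Spr | apply pd_Inj | apply pf_har | apply pd_Le | apply pf_fins | apply pf_card | apply pd_Bij | apply pd_Fini | apply pd_Big | apply pd_Ord | apply pd_Tr | apply pd_Ind | apply pf_succ | apply pf_funs | apply pf_prod | apply pf_lam | apply pd_Fn | apply pf_app | apply pf_ran | apply pf_dom | apply PF.img | apply PF.pow | apply PD.sub | apply PF.adj | apply PF.un | apply PF.sUn | apply PF.op | apply PF.pr | apply PF.sep | exact PF.var _ | exact PF.const _ | apply PD.eq | apply PD.mem | apply PD.not | apply PD.iff | apply PD.or | apply PD.and | apply PD.imp | apply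 PD.ex | apply PD.all | exact PD.const _ | assumption | refine PF.comp1 (F := _) (by assumption) ?_ | refine PF.comp2 (F := _) (by assumption) ?_ ?_ | refine PF.comp3 (F := _) (by assumption) ?_ ?_ ?_ | refine PD.app1 (R := _) (by assumption) ?_ | refine PD.app2 (R := _) (by assumption) ?_ ?_ | refine PD.app3 (R := _) (by assumption) ?_ ?_ ?_ | refine PD.app4 (R := _) (by assumption) ?_ ?_ ?_ ?_)))]
    refine ⟨op c (op s τ2), ?_, ?_⟩
    · rw [mem_sep (by (repeat' (with_reducible first | apply pf_stems | apply pd_HLe | apply pf_res | apply pf_below | apply pf_mxn | apply pd_NLeV | apply pd_NLe | apply pd_RName | apply pd_FV | apply pd_PreO | apply pf_p2 | apply pf_p1 | apply DD.pf_lv | apply DD.pf_nd | apply DD.pd_Clo | apply DD.pf_dl | apply DD.pf_prs | apply DD.pd_Fork | apply DD.pd_V | apply pd_maxR | apply pd_WOd | apply pf_pfin | apply pd_Fun1 | apply pf_hh | apply pd_Spr | apply pd_Inj | apply pf_har | apply pd_Le | apply pf_fins | apply pf_card | apply pd_Bij | apply pd_Fini | apply pd_Big | apply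 pd_Ord | apply pd_Tr | apply pd_Ind | apply pf_succ | apply pf_funs | apply pf_prod | apply pf_lam | apply pd_Fn | apply pf_app | apply pf_ran | apply pf_dom | apply PF.img | apply PF.pow | apply PD.sub | apply PF.adj | apply PF.un | apply PF.sUn | apply PF.op | apply PF.pr | apply PF.sep | exact PF.var _ | exact PF.const _ | apply PD.eq | apply PD.mem | apply PD.not | apply PD.iff | apply PD.or | apply PD.and | apply PD.imp | apply PD.ex | apply PD.all | exact PD.const _ | assumption | refine PF.comp1 (F := _) (by assumption) ?_ | refine PF.comp2 (F := _) (by assumption) ?_ ?_ | refine PF.comp3 (F := _) (by assumption) ?_ ?_ ?_ | refine PD.app1 (R := _) (by assumption) ?_ | refine PD.app2 (R := _) (by assumption) ?_ ?_ | refine PD.app3 (R := _) (by assumption) ?_ ?_ ?_ | refine PD.app4 (R := _) (by assumption) ?_ ?_ ?_ ?_)))]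
      exact ⟨h2, by rw [p1_op, p1_op]⟩
    · simp only [p1_op, p2_op]

/-- MODULE hi -/
theorem IsHec.amax_mem (h : IsHec κ P L) (hκ : Ord κ) {p q : M} (hp : SetStr.mem p P) (hq : SetStr.mem q P)
    (hu : Fun1 (un (stems p) (stems q))) : SetStr.mem (amax P L p q) P := by

  have hK : ∀ {c : M}, SetStr.mem c κ → SetStr.mem c κ ∨ c = κ := fun h => Or.inl h
  obtain ⟨hpf, hp1, hpc⟩ := (h.cond p).1 hp
  obtain ⟨hqf, hq1, hqc⟩ := (h.cond q).1 hq
  have hform : ∀ z, SetStr.mem z (amax P L p q) → ∃ c s τ, z = op c (op s τ) := by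
    intro z hz
    unfold amax at hz
    rw [mem_un, mem_un, mem_sep (by (repeat' (with_reducible first | apply pf_stems | apply pd_HLe | apply pf_res | apply pf_below | apply pf_mxn | apply pd_NLeV | apply pd_NLe | apply pd_RName | apply pd_FV | apply pd_PreO | apply pf_p2 | apply pf_p1 | apply DD.pf_lv | apply DD.pf_nd | apply DD.pd_Clo | apply DD.pf_dl | apply DD.pf_prs | apply DD.pd_Fork | apply DD.pd_V | apply pd_maxR | apply pd_WOd | apply pf_pfin | apply pd_Fun1 | apply pf_hh | apply pd_Spr | apply pd_Inj | apply pf_har | apply pd_Le | apply pf_fins | apply pf_card | apply pd_Bij | apply pd_Fini | apply pd_Big | apply pd_Ord | apply pd_Tr | apply pd_Ind | apply pf_succ | apply pf_funs | apply pf_prod | apply pf_lam | apply pd_Fn | apply pf_app | apply pf_ran | apply pf_dom | apply PF.img | apply PF.pow | apply PD.sub | apply PF.adj | apply PF.un | apply PF.sUn | apply PF.op | apply PF.pr | apply PF.sep | exact PF.var _ | exact PF.const _ | apply PD.eq | apply PD.mem | apply PD.not | apply PD.iff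 | apply PD.or | apply PD.and | apply PD.imp | apply PD.ex | apply PD.all | exact PD.const _ | assumption | refine PF.comp1 (F := _) (by assumption) ?_ | refine PF.comp2 (F := _) (by assumption) ?_ ?_ | refine PF.comp3 (F := _) (by assumption) ?_ ?_ ?_ | refine PD.app1 (R := _) (by assumption) ?_ | refine PD.app2 (R := _) (by assumption) ?_ ?_ | refine PD.app3 (R := _) (by assumption) ?_ ?_ ?_ | refine PD.app4 (R := _) (by assumption) ?_ ?_ ?_ ?_))), mem_sep (by (repeat' (with_reducible first | apply pf_stems | apply pd_HLe | apply pf_res | apply pf_below | apply pf_mxn | apply pd_NLeV | apply pd_NLe | apply pd_RName | apply pd_FV | apply pd_PreO | apply pf_p2 | apply pf_p1 | apply DD.pf_lv | apply DD.pf_nd | apply DD.pd_Clo | apply DD.pf_dl | apply DD.pf_prs | apply DD.pd_Fork | apply DD.pd_V | apply pd_maxR | apply pd_WOd | apply pf_pfin | apply pd_Fun1 | apply pf_hh | apply pd_Spr | apply pd_Inj | apply pf_har | apply pd_Le | apply pf_fins | apply pf_card | apply pd_Bij | apply pd_Fini | apply pd_Big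 | apply pd_Ord | apply pd_Tr | apply pd_Ind | apply pf_succ | apply pf_funs | apply pf_prod | apply pf_lam | apply pd_Fn | apply pf_app | apply pf_ran | apply pf_dom | apply PF.img | apply PF.pow | apply PD.sub | apply PF.adj | apply PF.un | apply PF.sUn | apply PF.op | apply PF.pr | apply PF.sep | exact PF.var _ | exact PF.const _ | apply PD.eq | apply PD.mem | apply PD.not | apply PD.iff | apply PD.or | apply PD.and | apply PD.imp | apply PD.ex | apply PD.all | exact PD.const _ | assumption | refine PF.comp1 (F := _) (by assumption) ?_ | refine PF.comp2 (F := _) (by assumption) ?_ ?_ | refine PF.comp3 (F := _) (by assumption) ?_ ?_ ?_ | refine PD.app1 (R := _) (by assumption) ?_ | refine PD.app2 (R := _) (by assumption) ?_ ?_ | refine PD.app3 (R := _) (by assumption) ?_ ?_ ?_ | refine PD.app4 (R := _) (by assumption) ?_ ?_ ?_ ?_))), mem_sUn] at hz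
    rcases hz with hz | hz | ⟨w, hw, hz⟩
    · obtain ⟨c, s, τ, hh, -⟩ := hpc z hz.1
      exact ⟨c, s, τ, hh⟩
    · obtain ⟨c, s, τ, hh, -⟩ := hqc z hz.1
      exact ⟨c, s, τ, hh⟩
    · rw [mem_img (by (repeat' (with_reducible first | apply pf_stems | apply pd_HLe | apply pf_res | apply pf_below | apply pf_mxn | apply pd_NLeV | apply pd_NLe | apply pd_RName | apply pd_FV | apply pd_PreO | apply pf_p2 | apply pf_p1 | apply DD.pf_lv | apply DD.pf_nd | apply DD.pd_Clo | apply DD.pf_dl | apply DD.pf_prs | apply DD.pd_Fork | apply DD.pd_V | apply pd_maxR | apply pd_WOd | apply pf_pfin | apply pd_Fun1 | apply pf_hh | apply pd_Spr | apply pd_Inj | apply pf_har | apply pd_Le | apply pf_fins | apply pf_card | apply pd_Bij | apply pd_Fini | apply pd_Big | apply pd_Ord | apply pd_Tr | apply pd_Ind | apply pf_succ | apply pf_funs | apply pf_prod | apply pf_lam | apply pd_Fn | apply pf_app | apply pf_ran | apply pf_dom | apply PF.img | apply PF.pow | apply PD.sub | apply PF.adj | apply PF.un | apply PF.sUn | apply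 PF.op | apply PF.pr | apply PF.sep | exact PF.var _ | exact PF.const _ | apply PD.eq | apply PD.mem | apply PD.not | apply PD.iff | apply PD.or | apply PD.and | apply PD.imp | apply PD.ex | apply PD.all | exact PD.const _ | assumption | refine PF.comp1 (F := _) (by assumption) ?_ | refine PF.comp2 (F := _) (by assumption) ?_ ?_ | refine PF.comp3 (F := _) (by assumption) ?_ ?_ ?_ | refine PD.app1 (R := _) (by assumption) ?_ | refine PD.app2 (R := _) (by assumption) ?_ ?_ | refine PD.app3 (R := _) (by assumption) ?_ ?_ ?_ | refine PD.app4 (R := _) (by assumption) ?_ ?_ ?_ ?_)))] at hw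
      obtain ⟨z', hz', rfl⟩ := hw
      rw [mem_img (by (repeat' (with_reducible first | apply pf_stems | apply pd_HLe | apply pf_res | apply pf_below | apply pf_mxn | apply pd_NLeV | apply pd_NLe | apply pd_RName | apply pd_FV | apply pd_PreO | apply pf_p2 | apply pf_p1 | apply DD.pf_lv | apply DD.pf_nd | apply DD.pd_Clo | apply DD.pf_dl | apply DD.pf_prs | apply DD.pd_Fork | apply DD.pd_V | apply pd_maxR | apply pd_WOd | apply pf_pfin | apply pd_Fun1 | apply pf_hh | apply pd_Spr | apply pd_Inj | apply pf_har | apply pd_Le | apply pf_fins | apply pf_card | apply pd_Bij | apply pd_Fini | apply pd_Big | apply pd_Ord | apply pd_Tr | apply pd_Ind | apply pf_succ | apply pf_funs | apply pf_prod | apply pf_lam | apply pd_Fn | apply pf_app | apply pf_ran | apply pf_dom | apply PF.img | apply PF.pow | apply PD.sub | apply PF.adj | apply PF.un | apply PF.sUn | apply PF.op | apply PF.pr | apply PF.sep | exact PF.var _ | exact PF.const _ | apply PD.eq | apply PD.mem | apply PD.not | apply PD.iff | apply PD.or |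 apply PD.and | apply PD.imp | apply PD.ex | apply PD.all | exact PD.const _ | assumption | refine PF.comp1 (F := _) (by assumption) ?_ | refine PF.comp2 (F := _) (by assumption) ?_ ?_ | refine PF.comp3 (F := _) (by assumption) ?_ ?_ ?_ | refine PD.app1 (R := _) (by assumption) ?_ | refine PD.app2 (R := _) (by assumption) ?_ ?_ | refine PD.app3 (R := _) (by assumption) ?_ ?_ ?_ | refine PD.app4 (R := _) (by assumption) ?_ ?_ ?_ ?_)))] at hz
      obtain ⟨w', hw', rfl⟩ := hz
      exact ⟨_, _, _, rfl⟩
  refine (h.cond _).2 ⟨?_, ?_, ?_⟩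
  · unfold amax
    refine Fini.un (hpf.sub (fun z hz => ((mem_sep (by (repeat' (with_reducible first | apply pf_stems | apply pd_HLe | apply pf_res | apply pf_below | apply pf_mxn | apply pd_NLeV | apply pd_NLe | apply pd_RName | apply pd_FV | apply pd_PreO | apply pf_p2 | apply pf_p1 | apply DD.pf_lv | apply DD.pf_nd | apply DD.pd_Clo | apply DD.pf_dl | apply DD.pf_prs | apply DD.pd_Fork | apply DD.pd_V | apply pd_maxR | apply pd_WOd | apply pf_pfin | apply pd_Fun1 | apply pf_hh | apply pd_Spr | apply pd_Inj | apply pf_har | apply pd_Le | apply pf_fins | apply pf_card | apply pd_Bij | apply pd_Fini | apply pd_Big | apply pd_Ord | apply pd_Tr | apply pd_Ind | apply pf_succ | apply pf_funs | apply pf_prod | apply pf_lam | apply pd_Fn | apply pf_app | apply pf_ran | apply pf_dom | apply PF.img | apply PF.pow | apply PD.sub | apply PF.adj | apply PF.un | apply PF.sUn | apply PF.op | apply PF.pr | apply PF.sep | exact PF.var _ | exact PF.const _ | apply PD.eq | apply PD.mem | apply PD.not | apply PD.iff |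 apply PD.or | apply PD.and | apply PD.imp | apply PD.ex | apply PD.all | exact PD.const _ | assumption | refine PF.comp1 (F := _) (by assumption) ?_ | refine PF.comp2 (F := _) (by assumption) ?_ ?_ | refine PF.comp3 (F := _) (by assumption) ?_ ?_ ?_ | refine PD.app1 (R := _) (by assumption) ?_ | refine PD.app2 (R := _) (by assumption) ?_ ?_ | refine PD.app3 (R := _) (by assumption) ?_ ?_ ?_ | refine PD.app4 (R := _) (by assumption) ?_ ?_ ?_ ?_)))).1 hz).1))
      (Fini.un (hqf.sub (fun z hz => ((mem_sep (by (repeat' (with_reducible first | apply pf_stems | apply pd_HLe | apply pf_res | apply pf_below | apply pf_mxn | apply pd_NLeV | apply pd_NLe | apply pd_RName | apply pd_FV | apply pd_PreO | apply pf_p2 | apply pf_p1 | apply DD.pf_lv | apply DD.pf_nd | apply DD.pd_Clo | apply DD.pf_dl | apply DD.pf_prs | apply DD.pd_Fork | apply DD.pd_V | apply pd_maxR | apply pd_WOd | apply pf_pfin | apply pd_Fun1 | apply pf_hh | apply pd_Spr | apply pd_Inj | apply pf_har | apply pd_Le | apply pf_fins | apply pf_card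 | apply pd_Bij | apply pd_Fini | apply pd_Big | apply pd_Ord | apply pd_Tr | apply pd_Ind | apply pf_succ | apply pf_funs | apply pf_prod | apply pf_lam | apply pd_Fn | apply pf_app | apply pf_ran | apply pf_dom | apply PF.img | apply PF.pow | apply PD.sub | apply PF.adj | apply PF.un | apply PF.sUn | apply PF.op | apply PF.pr | apply PF.sep | exact PF.var _ | exact PF.const _ | apply PD.eq | apply PD.mem | apply PD.not | apply PD.iff | apply PD.or | apply PD.and | apply PD.imp | apply PD.ex | apply PD.all | exact PD.const _ | assumption | refine PF.comp1 (F := _) (by assumption) ?_ | refine PF.comp2 (F := _) (by assumption) ?_ ?_ | refine PF.comp3 (F := _) (by assumption) ?_ ?_ ?_ | refine PD.app1 (R := _) (by assumption) ?_ | refine PD.app2 (R := _) (by assumption) ?_ ?_ | refine PD.app3 (R := _) (by assumption) ?_ ?_ ?_ | refine PD.app4 (R := _) (by assumption) ?_ ?_ ?_ ?_)))).1 hz).1)) ?_)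
    refine Fini.sUn (Fini.img hpf (by (repeat' (with_reducible first | apply pf_stems | apply pd_HLe | apply pf_res | apply pf_below | apply pf_mxn | apply pd_NLeV | apply pd_NLe | apply pd_RName | apply pd_FV | apply pd_PreO | apply pf_p2 | apply pf_p1 | apply DD.pf_lv | apply DD.pf_nd | apply DD.pd_Clo | apply DD.pf_dl | apply DD.pf_prs | apply DD.pd_Fork | apply DD.pd_V | apply pd_maxR | apply pd_WOd | apply pf_pfin | apply pd_Fun1 | apply pf_hh | apply pd_Spr | apply pd_Inj | apply pf_har | apply pd_Le | apply pf_fins | apply pf_card | apply pd_Bij | apply pd_Fini | apply pd_Big | apply pd_Ord | apply pd_Tr | apply pd_Ind | apply pf_succ | apply pf_funs | apply pf_prod | apply pf_lam | apply pd_Fn | apply pf_app | apply pf_ran | apply pf_dom | apply PF.img | apply PF.pow | apply PD.sub | apply PF.adj | apply PF.un | apply PF.sUn | apply PF.op | apply PF.pr | apply PF.sep | exact PF.var _ | exact PF.const _ | apply PD.eq | apply PD.mem | apply PD.not | apply PD.iff | apply PD.or | apply PD.and | apply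 PD.imp | apply PD.ex | apply PD.all | exact PD.const _ | assumption | refine PF.comp1 (F := _) (by assumption) ?_ | refine PF.comp2 (F := _) (by assumption) ?_ ?_ | refine PF.comp3 (F := _) (by assumption) ?_ ?_ ?_ | refine PD.app1 (R := _) (by assumption) ?_ | refine PD.app2 (R := _) (by assumption) ?_ ?_ | refine PD.app3 (R := _) (by assumption) ?_ ?_ ?_ | refine PD.app4 (R := _) (by assumption) ?_ ?_ ?_ ?_)))) fun x hx => ?_
    rw [mem_img (by (repeat' (with_reducible first | apply pf_stems | apply pd_HLe | apply pf_res | apply pf_below | apply pf_mxn | apply pd_NLeV | apply pd_NLe | apply pd_RName | apply pd_FV | apply pd_PreO | apply pf_p2 | apply pf_p1 | apply DD.pf_lv | apply DD.pf_nd | apply DD.pd_Clo | apply DD.pf_dl | apply DD.pf_prs | apply DD.pd_Fork | apply DD.pd_V | apply pd_maxR | apply pd_WOd | apply pf_pfin | apply pd_Fun1 | apply pf_hh | apply pd_Spr | apply pd_Inj | apply pf_har | apply pd_Le | apply pf_fins | apply pf_card | apply pd_Bij | apply pd_Fini | apply pd_Big | apply pd_Ord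 | apply pd_Tr | apply pd_Ind | apply pf_succ | apply pf_funs | apply pf_prod | apply pf_lam | apply pd_Fn | apply pf_app | apply pf_ran | apply pf_dom | apply PF.img | apply PF.pow | apply PD.sub | apply PF.adj | apply PF.un | apply PF.sUn | apply PF.op | apply PF.pr | apply PF.sep | exact PF.var _ | exact PF.const _ | apply PD.eq | apply PD.mem | apply PD.not | apply PD.iff | apply PD.or | apply PD.and | apply PD.imp | apply PD.ex | apply PD.all | exact PD.const _ | assumption | refine PF.comp1 (F := _) (by assumption) ?_ | refine PF.comp2 (F := _) (by assumption) ?_ ?_ | refine PF.comp3 (F := _) (by assumption) ?_ ?_ ?_ | refine PD.app1 (R := _) (by assumption) ?_ | refine PD.app2 (R := _) (by assumption) ?_ ?_ | refine PD.app3 (R := _) (by assumption) ?_ ?_ ?_ | refine PD.app4 (R := _) (by assumption) ?_ ?_ ?_ ?_)))] at hx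
    obtain ⟨z', hz', rfl⟩ := hx
    exact Fini.img (hqf.sub (fun z hz => ((mem_sep (by (repeat' (with_reducible first | apply pf_stems | apply pd_HLe | apply pf_res | apply pf_below | apply pf_mxn | apply pd_NLeV | apply pd_NLe | apply pd_RName | apply pd_FV | apply pd_PreO | apply pf_p2 | apply pf_p1 | apply DD.pf_lv | apply DD.pf_nd | apply DD.pd_Clo | apply DD.pf_dl | apply DD.pf_prs | apply DD.pd_Fork | apply DD.pd_V | apply pd_maxR | apply pd_WOd | apply pf_pfin | apply pd_Fun1 | apply pf_hh | apply pd_Spr | apply pd_Inj | apply pf_har | apply pd_Le | apply pf_fins | apply pf_card | apply pd_Bij | apply pd_Fini | apply pd_Big | apply pd_Ord | apply pd_Tr | apply pd_Ind | apply pf_succ | apply pf_funs | apply pf_prod | apply pf_lam | apply pd_Fn | apply pf_app | apply pf_ran | apply pf_dom | apply PF.img | apply PF.pow | apply PD.sub | apply PF.adj | apply PF.un | apply PF.sUn | apply PF.op | apply PF.pr | apply PF.sep | exact PF.var _ | exact PF.const _ | apply PD.eq | apply PD.mem | apply PD.not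 | apply PD.iff | apply PD.or | apply PD.and | apply PD.imp | apply PD.ex | apply PD.all | exact PD.const _ | assumption | refine PF.comp1 (F := _) (by assumption) ?_ | refine PF.comp2 (F := _) (by assumption) ?_ ?_ | refine PF.comp3 (F := _) (by assumption) ?_ ?_ ?_ | refine PD.app1 (R := _) (by assumption) ?_ | refine PD.app2 (R := _) (by assumption) ?_ ?_ | refine PD.app3 (R := _) (by assumption) ?_ ?_ ?_ | refine PD.app4 (R := _) (by assumption) ?_ ?_ ?_ ?_)))).1 hz).1)) (by (repeat' (with_reducible first | apply pf_stems | apply pd_HLe | apply pf_res | apply pf_below | apply pf_mxn | apply pd_NLeV | apply pd_NLe | apply pd_RName | apply pd_FV | apply pd_PreO | apply pf_p2 | apply pf_p1 | apply DD.pf_lv | apply DD.pf_nd | apply DD.pd_Clo | apply DD.pf_dl | apply DD.pf_prs | apply DD.pd_Fork | apply DD.pd_V | apply pd_maxR | apply pd_WOd | apply pf_pfin | apply pd_Fun1 | apply pf_hh | apply pd_Spr | apply pd_Inj | apply pf_har | apply pd_Le | apply pf_fins | apply pf_card | apply pd_Bij | apply pd_Fini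 | apply pd_Big | apply pd_Ord | apply pd_Tr | apply pd_Ind | apply pf_succ | apply pf_funs | apply pf_prod | apply pf_lam | apply pd_Fn | apply pf_app | apply pf_ran | apply pf_dom | apply PF.img | apply PF.pow | apply PD.sub | apply PF.adj | apply PF.un | apply PF.sUn | apply PF.op | apply PF.pr | apply PF.sep | exact PF.var _ | exact PF.const _ | apply PD.eq | apply PD.mem | apply PD.not | apply PD.iff | apply PD.or | apply PD.and | apply PD.imp | apply PD.ex | apply PD.all | exact PD.const _ | assumption | refine PF.comp1 (F := _) (by assumption) ?_ | refine PF.comp2 (F := _) (by assumption) ?_ ?_ | refine PF.comp3 (F := _) (by assumption) ?_ ?_ ?_ | refine PD.app1 (R := _) (by assumption) ?_ | refine PD.app2 (R := _) (by assumption) ?_ ?_ | refine PD.app3 (R := _) (by assumption) ?_ ?_ ?_ | refine PD.app4 (R := _) (by assumption) ?_ ?_ ?_ ?_)))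
  · intro c y y' hy hy'
    obtain ⟨c1, s, τ, he⟩ := hform _ hy
    obtain ⟨c2, s', τ', he'⟩ := hform _ hy'
    rw [op_inj] at he he'
    obtain ⟨rfl, rfl⟩ := he
    obtain ⟨-, rfl⟩ := he'
    rw [h.mem_amax hp hq hu] at hy hy'
    rcases hy with ⟨ha, hb⟩ | ⟨ha, hb⟩ | ⟨t1, t2, ha, hb, rfl⟩
    · rcases hy' with ⟨ha', hb'⟩ | ⟨ha', hb'⟩ | ⟨t1', t2', ha', hb', rfl⟩
      · exact hp1 _ _ _ ha ha'
      · exact (hb _ ha').elim
      · exact (hb _ hb').elim
    · rcases hy' with ⟨ha', hb'⟩ | ⟨ha', hb'⟩ | ⟨t1', t2', ha', hb', rfl⟩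
      · exact (hb _ ha').elim
      · exact hq1 _ _ _ ha ha'
      · exact (hb _ ha').elim
    · rcases hy' with ⟨ha', hb'⟩ | ⟨ha', hb'⟩ | ⟨t1', t2', ha', hb', rfl⟩
      · exact (hb' _ hb).elim
      · exact (hb' _ ha).elim
      · have h1 := hp1 _ _ _ ha ha'
        have h2 := hq1 _ _ _ hb hb'
        rw [op_inj] at h1 h2
        rw [h1.1, h1.2, h2.2]
  · intro z hz
    obtain ⟨c, s, τ, rfl⟩ := hform z hz
    refine ⟨c, s, τ, rfl, ?_⟩
    rw [h.mem_amax hp hq hu] at hz
    rcases hz with ⟨ha, hb⟩ | ⟨ha, hb⟩ | ⟨t1, t2, ha, hb, rfl⟩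
    · obtain ⟨c', s', τ', he, h1, h2, h3⟩ := hpc _ ha
      rw [op_inj, op_inj] at he
      obtain ⟨rfl, rfl, rfl⟩ := he
      exact ⟨h1, h2, h3⟩
    · obtain ⟨c', s', τ', he, h1, h2, h3⟩ := hqc _ ha
      rw [op_inj, op_inj] at he
      obtain ⟨rfl, rfl, rfl⟩ := he
      exact ⟨h1, h2, h3⟩
    · obtain ⟨c', s', τ', he, h1, h2, h3⟩ := hpc _ ha
      rw [op_inj, op_inj] at he
      obtain ⟨rfl, rfl, rfl⟩ := he
      obtain ⟨c', s', τ', he, h1', h2', h3'⟩ := hqc _ hb
      rw [op_inj, op_inj] at he
      obtain ⟨rfl, rfl, rfl⟩ := he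
      exact ⟨h1, h2, mxn_RName (h.preO_below hκ (hK h1)) h3 h3'⟩

/-- MODULE hj -/
theorem IsHec.amax_le (h : IsHec κ P L) (hκ : Ord κ) {p q : M} (hp : SetStr.mem p P) (hq : SetStr.mem q P)
    (hu : Fun1 (un (stems p) (stems q))) :
    SetStr.mem (op (amax P L p q) p) L ∧ SetStr.mem (op (amax P L p q) q) L := by

  have hm := h.amax_mem hκ hp hq hu
  obtain ⟨hpf, hp1, hpc⟩ := (h.cond p).1 hp
  obtain ⟨hqf, hq1, hqc⟩ := (h.cond q).1 hq
  have hpd : ∀ c s τ, SetStr.mem (op c (op s τ)) p → SetStr.mem c κ ∧ RName (below P c) L τ := by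
    intro c s τ hc
    obtain ⟨c', s', τ', he, h1, h2, h3⟩ := hpc _ hc
    rw [op_inj, op_inj] at he
    obtain ⟨rfl, rfl, rfl⟩ := he
    exact ⟨h1, h3⟩
  have hqd : ∀ c s τ, SetStr.mem (op c (op s τ)) q → SetStr.mem c κ ∧ RName (below P c) L τ := by
    intro c s τ hc
    obtain ⟨c', s', τ', he, h1, h2, h3⟩ := hqc _ hc
    rw [op_inj, op_inj] at he
    obtain ⟨rfl, rfl, rfl⟩ := he
    exact ⟨h1, h3⟩
  refine ⟨(h.le _ _).2 ⟨hm, hp, ?_⟩, (h.le _ _).2 ⟨hm, hq, ?_⟩⟩
  · intro c s' τ' hc
    by_cases hy : ∃ y, SetStr.mem (op c y) q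
    · obtain ⟨y, hy⟩ := hy
      obtain ⟨c2, s2, τ2, he, -⟩ := hqc _ hy
      rw [op_inj] at he
      obtain ⟨rfl, rfl⟩ := he
      have h1 : SetStr.mem (op c s') (un (stems p) (stems q)) :=
        mem_un.2 (Or.inl ((h.mem_stems hp).2 ⟨τ', hc⟩))
      have h2 : SetStr.mem (op c s2) (un (stems p) (stems q)) :=
        mem_un.2 (Or.inr ((h.mem_stems hq).2 ⟨τ2, hy⟩))
      have h3 := hu _ _ _ h1 h2
      subst h3
      obtain ⟨hc1, hr1⟩ := hpd _ _ _ hc
      obtain ⟨-, hr2⟩ := hqd _ _ _ hy
      refine ⟨s', GA.mxn (below P c) L τ' τ2,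
        (h.mem_amax hp hq hu).2 (Or.inr (Or.inr ⟨τ', τ2, hc, hy, rfl⟩)), fun _ hz => hz, ?_, ?_⟩
      · exact NLe_mxn_left (h.preO_below hκ (Or.inl hc1)) hr1 hr2 (h.res_mem hm c)
      · intro n k hn hn'
        exact (hn' hn).elim
    · refine ⟨s', τ', (h.mem_amax hp hq hu).2 (Or.inl ⟨hc, fun y hy' => hy ⟨y, hy'⟩⟩),
        fun _ hz => hz, NLe.refl (hpd _ _ _ hc).2, ?_⟩
      intro n k hn hn'
      exact (hn' hn).elim
  · intro c s' τ' hc
    by_cases hy : ∃ y, SetStr.mem (op c y) p
    · obtain ⟨y, hy⟩ := hy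
      obtain ⟨c2, s2, τ2, he, -⟩ := hpc _ hy
      rw [op_inj] at he
      obtain ⟨rfl, rfl⟩ := he
      have h1 : SetStr.mem (op c s') (un (stems p) (stems q)) :=
        mem_un.2 (Or.inr ((h.mem_stems hq).2 ⟨τ', hc⟩))
      have h2 : SetStr.mem (op c s2) (un (stems p) (stems q)) :=
        mem_un.2 (Or.inl ((h.mem_stems hp).2 ⟨τ2, hy⟩))
      have h3 := hu _ _ _ h1 h2
      subst h3
      obtain ⟨hc1, hr1⟩ := hqd _ _ _ hc
      obtain ⟨-, hr2⟩ := hpd _ _ _ hy
      refine ⟨s', GA.mxn (below P c) L τ2 τ',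
        (h.mem_amax hp hq hu).2 (Or.inr (Or.inr ⟨τ2, τ', hy, hc, rfl⟩)), fun _ hz => hz, ?_, ?_⟩
      · exact NLe_mxn_right (h.preO_below hκ (Or.inl hc1)) hr2 hr1 (h.res_mem hm c)
      · intro n k hn hn'
        exact (hn' hn).elim
    · refine ⟨s', τ', (h.mem_amax hp hq hu).2 (Or.inr (Or.inl ⟨hc, fun y hy' => hy ⟨y, hy'⟩⟩)),
        fun _ hz => hz, NLe.refl (hqd _ _ _ hc).2, ?_⟩
      intro n k hn hn'
      exact (hn' hn).elim

private theorem hk_un {x y : M} (hx : SetStr.mem x om) (hy : SetStr.mem y om) : SetStr.mem (un x y) om := by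
  rcases Ord.sub_or_mem (Ord.of_mem_om hx) (Ord.of_mem_om hy) with h | h
  · have h1 : un x y = y := by
      refine ext fun z => ?_
      rw [mem_un]
      exact ⟨fun hz => hz.elim (fun hz => h z hz) id, Or.inr⟩
    rw [h1]
    exact hy
  · have h1 : un x y = x := by
      refine ext fun z => ?_
      rw [mem_un]
      exact ⟨fun hz => hz.elim id (fun hz => om_elt_trans hx h hz), Or.inl⟩
    rw [h1]
    exact hx

/-- MODULE hk -/
theorem Fini.pow {a : M} (ha : Fini a) : Fini (pow a) := by

  refine fini_ind (P := fun a => Fini (GA.pow a)) (by (repeat' (with_reducible first | apply pf_stems | apply pd_HLe | apply pf_res | apply pf_below | apply pf_mxn | apply pd_NLeV | apply pd_NLe | apply pd_RName | apply pd_FV | apply pd_PreO | apply pf_p2 | apply pf_p1 | apply DD.pf_lv | apply DD.pf_nd | apply DD.pd_Clo | apply DD.pf_dl | apply DD.pf_prs | apply DD.pd_Fork | apply DD.pd_V | apply pd_maxR | apply pd_WOd | apply pf_pfin | apply pd_Fun1 | apply pf_hh | apply pd_Spr | apply pd_Inj | apply pf_har | apply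 pd_Le | apply pf_fins | apply pf_card | apply pd_Bij | apply pd_Fini | apply pd_Big | apply pd_Ord | apply pd_Tr | apply pd_Ind | apply pf_succ | apply pf_funs | apply pf_prod | apply pf_lam | apply pd_Fn | apply pf_app | apply pf_ran | apply pf_dom | apply PF.img | apply PF.pow | apply PD.sub | apply PF.adj | apply PF.un | apply PF.sUn | apply PF.op | apply PF.pr | apply PF.sep | exact PF.var _ | exact PF.const _ | apply PD.eq | apply PD.mem | apply PD.not | apply PD.iff | apply PD.or | apply PD.and | apply PD.imp | apply PD.ex | apply PD.all | exact PD.const _ | assumption | refine PF.comp1 (F := _) (by assumption) ?_ | refine PF.comp2 (F := _) (by assumption) ?_ ?_ | refine PF.comp3 (F := _) (by assumption) ?_ ?_ ?_ | refine PD.app1 (R := _) (by assumption) ?_ | refine PD.app2 (R := _) (by assumption) ?_ ?_ | refine PD.app3 (R := _) (by assumption) ?_ ?_ ?_ | refine PD.app4 (R := _) (by assumption) ?_ ?_ ?_ ?_))) ?_ ?_ a ha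
  · have h : GA.pow (GA.emp : M) = GA.pr GA.emp GA.emp := by
      refine ext fun z => ?_
      rw [mem_pow, mem_pr]
      constructor
      · intro hz
        left
        exact ext fun w => ⟨fun hw => hz w hw, fun hw => (not_mem_emp w hw).elim⟩
      · rintro (rfl | rfl) <;> exact fun _ hw => hw
    rw [h]
    exact Fini.pr _ _
  · intro a y _ hP
    have h : GA.pow (GA.adj a y) = GA.un (GA.pow a) (GA.img (fun b => GA.adj b y) (GA.pow a)) := by
      refine ext fun z => ?_
      rw [mem_pow, mem_un, mem_pow, mem_img (by (repeat' (with_reducible first | apply pf_stems | apply pd_HLe | apply pf_res | apply pf_below | apply pf_mxn | apply pd_NLeV | apply pd_NLe | apply pd_RName | apply pd_FV | apply pd_PreO | apply pf_p2 | apply pf_p1 | apply DD.pf_lv | apply DD.pf_nd | apply DD.pd_Clo | apply DD.pf_dl | apply DD.pf_prs | apply DD.pd_Fork | apply DD.pd_V | apply pd_maxR | apply pd_WOd | apply pf_pfin | apply pd_Fun1 | apply pf_hh | apply pd_Spr | apply pd_Inj | apply pf_har | apply pd_Le | apply pf_fins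 | apply pf_card | apply pd_Bij | apply pd_Fini | apply pd_Big | apply pd_Ord | apply pd_Tr | apply pd_Ind | apply pf_succ | apply pf_funs | apply pf_prod | apply pf_lam | apply pd_Fn | apply pf_app | apply pf_ran | apply pf_dom | apply PF.img | apply PF.pow | apply PD.sub | apply PF.adj | apply PF.un | apply PF.sUn | apply PF.op | apply PF.pr | apply PF.sep | exact PF.var _ | exact PF.const _ | apply PD.eq | apply PD.mem | apply PD.not | apply PD.iff | apply PD.or | apply PD.and | apply PD.imp | apply PD.ex | apply PD.all | exact PD.const _ | assumption | refine PF.comp1 (F := _) (by assumption) ?_ | refine PF.comp2 (F := _) (by assumption) ?_ ?_ | refine PF.comp3 (F := _) (by assumption) ?_ ?_ ?_ | refine PD.app1 (R := _) (by assumption) ?_ | refine PD.app2 (R := _) (by assumption) ?_ ?_ | refine PD.app3 (R := _) (by assumption) ?_ ?_ ?_ | refine PD.app4 (R := _) (by assumption) ?_ ?_ ?_ ?_)))]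
      constructor
      · intro hz
        by_cases hy : SetStr.mem y z
        · right
          refine ⟨sep a (fun w => SetStr.mem w z), mem_pow.2 (fun w hw => ((mem_sep (by (repeat' (with_reducible first | apply pf_stems | apply pd_HLe | apply pf_res | apply pf_below | apply pf_mxn | apply pd_NLeV | apply pd_NLe | apply pd_RName | apply pd_FV | apply pd_PreO | apply pf_p2 | apply pf_p1 | apply DD.pf_lv | apply DD.pf_nd | apply DD.pd_Clo | apply DD.pf_dl | apply DD.pf_prs | apply DD.pd_Fork | apply DD.pd_V | apply pd_maxR | apply pd_WOd | apply pf_pfin | apply pd_Fun1 | apply pf_hh | apply pd_Spr | apply pd_Inj | apply pf_har | apply pd_Le | apply pf_fins | apply pf_card | apply pd_Bij | apply pd_Fini | apply pd_Big | apply pd_Ord | apply pd_Tr | apply pd_Ind | apply pf_succ | apply pf_funs | apply pf_prod | apply pf_lam | apply pd_Fn | apply pf_app | apply pf_ran | apply pf_dom | apply PF.img | apply PF.pow | apply PD.sub | apply PF.adj | apply PF.un | apply PF.sUn | apply PF.op | apply PF.pr | apply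 PF.sep | exact PF.var _ | exact PF.const _ | apply PD.eq | apply PD.mem | apply PD.not | apply PD.iff | apply PD.or | apply PD.and | apply PD.imp | apply PD.ex | apply PD.all | exact PD.const _ | assumption | refine PF.comp1 (F := _) (by assumption) ?_ | refine PF.comp2 (F := _) (by assumption) ?_ ?_ | refine PF.comp3 (F := _) (by assumption) ?_ ?_ ?_ | refine PD.app1 (R := _) (by assumption) ?_ | refine PD.app2 (R := _) (by assumption) ?_ ?_ | refine PD.app3 (R := _) (by assumption) ?_ ?_ ?_ | refine PD.app4 (R := _) (by assumption) ?_ ?_ ?_ ?_)))).1 hw).1), ?_⟩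
          refine ext fun w => ?_
          rw [mem_adj, mem_sep (by (repeat' (with_reducible first | apply pf_stems | apply pd_HLe | apply pf_res | apply pf_below | apply pf_mxn | apply pd_NLeV | apply pd_NLe | apply pd_RName | apply pd_FV | apply pd_PreO | apply pf_p2 | apply pf_p1 | apply DD.pf_lv | apply DD.pf_nd | apply DD.pd_Clo | apply DD.pf_dl | apply DD.pf_prs | apply DD.pd_Fork | apply DD.pd_V | apply pd_maxR | apply pd_WOd | apply pf_pfin | apply pd_Fun1 | apply pf_hh | apply pd_Spr | apply pd_Inj | apply pf_har | apply pd_Le | apply pf_fins | apply pf_card | apply pd_Bij | apply pd_Fini | apply pd_Big | apply pd_Ord | apply pd_Tr | apply pd_Ind | apply pf_succ | apply pf_funs | apply pf_prod | apply pf_lam | apply pd_Fn | apply pf_app | apply pf_ran | apply pf_dom | apply PF.img | apply PF.pow | apply PD.sub | apply PF.adj | apply PF.un | apply PF.sUn | apply PF.op | apply PF.pr | apply PF.sep | exact PF.var _ | exact PF.const _ | apply PD.eq | apply PD.mem | apply PD.not | apply PD.iff | apply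 PD.or | apply PD.and | apply PD.imp | apply PD.ex | apply PD.all | exact PD.const _ | assumption | refine PF.comp1 (F := _) (by assumption) ?_ | refine PF.comp2 (F := _) (by assumption) ?_ ?_ | refine PF.comp3 (F := _) (by assumption) ?_ ?_ ?_ | refine PD.app1 (R := _) (by assumption) ?_ | refine PD.app2 (R := _) (by assumption) ?_ ?_ | refine PD.app3 (R := _) (by assumption) ?_ ?_ ?_ | refine PD.app4 (R := _) (by assumption) ?_ ?_ ?_ ?_)))]
          constructor
          · intro hw
            rcases mem_adj.1 (hz w hw) with h | h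
            · exact Or.inl ⟨h, hw⟩
            · exact Or.inr h
          · rintro (h | rfl)
            · exact h.2
            · exact hy
        · left
          intro w hw
          rcases mem_adj.1 (hz w hw) with h | rfl
          · exact h
          · exact (hy hw).elim
      · rintro (hz | ⟨b, hb, rfl⟩)
        · exact fun w hw => mem_adj.2 (Or.inl (hz w hw))
        · intro w hw
          rcases mem_adj.1 hw with h | h
          · exact mem_adj.2 (Or.inl (mem_pow.1 hb w h))
          · exact mem_adj.2 (Or.inr h)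
    rw [h]
    exact hP.un (hP.img (by (repeat' (with_reducible first | apply pf_stems | apply pd_HLe | apply pf_res | apply pf_below | apply pf_mxn | apply pd_NLeV | apply pd_NLe | apply pd_RName | apply pd_FV | apply pd_PreO | apply pf_p2 | apply pf_p1 | apply DD.pf_lv | apply DD.pf_nd | apply DD.pd_Clo | apply DD.pf_dl | apply DD.pf_prs | apply DD.pd_Fork | apply DD.pd_V | apply pd_maxR | apply pd_WOd | apply pf_pfin | apply pd_Fun1 | apply pf_hh | apply pd_Spr | apply pd_Inj | apply pf_har | apply pd_Le | apply pf_fins | apply pf_card | apply pd_Bij | apply pd_Fini | apply pd_Big | apply pd_Ord | apply pd_Tr | apply pd_Ind | apply pf_succ | apply pf_funs | apply pf_prod | apply pf_lam | apply pd_Fn | apply pf_app | apply pf_ran | apply pf_dom | apply PF.img | apply PF.pow | apply PD.sub | apply PF.adj | apply PF.un | apply PF.sUn | apply PF.op | apply PF.pr | apply PF.sep | exact PF.var _ | exact PF.const _ | apply PD.eq | apply PD.mem | apply PD.not | apply PD.iff | apply PD.or | apply PD.and | apply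 PD.imp | apply PD.ex | apply PD.all | exact PD.const _ | assumption | refine PF.comp1 (F := _) (by assumption) ?_ | refine PF.comp2 (F := _) (by assumption) ?_ ?_ | refine PF.comp3 (F := _) (by assumption) ?_ ?_ ?_ | refine PD.app1 (R := _) (by assumption) ?_ | refine PD.app2 (R := _) (by assumption) ?_ ?_ | refine PD.app3 (R := _) (by assumption) ?_ ?_ ?_ | refine PD.app4 (R := _) (by assumption) ?_ ?_ ?_ ?_))))

/-- MODULE hk.  Finite sets of pairs of natural numbers are bounded. -/
theorem fini_bound {a : M} (ha : Fini a) (hs : GA.sub a (prod om om)) :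
    ∃ j, SetStr.mem j om ∧ GA.sub a (prod j j) := by

  refine fini_ind (P := fun a => GA.sub a (GA.prod om om) → ∃ j, SetStr.mem j om ∧ GA.sub a (GA.prod j j)) (by (repeat' (with_reducible first | apply pf_stems | apply pd_HLe | apply pf_res | apply pf_below | apply pf_mxn | apply pd_NLeV | apply pd_NLe | apply pd_RName | apply pd_FV | apply pd_PreO | apply pf_p2 | apply pf_p1 | apply DD.pf_lv | apply DD.pf_nd | apply DD.pd_Clo | apply DD.pf_dl | apply DD.pf_prs | apply DD.pd_Fork | apply DD.pd_V | apply pd_maxR | apply pd_WOd | apply pf_pfin | apply pd_Fun1 | apply pf_hh | apply pd_Spr | apply pd_Inj | apply pf_har | apply pd_Le | apply pf_fins | apply pf_card | apply pd_Bij | apply pd_Fini | apply pd_Big | apply pd_Ord | apply pd_Tr | apply pd_Ind | apply pf_succ | apply pf_funs | apply pf_prod | apply pf_lam | apply pd_Fn | apply pf_app | apply pf_ran | apply pf_dom | apply PF.img | apply PF.pow | apply PD.sub | apply PF.adj | apply PF.un | apply PF.sUn | apply PF.op | apply PF.pr | apply PF.sep |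 exact PF.var _ | exact PF.const _ | apply PD.eq | apply PD.mem | apply PD.not | apply PD.iff | apply PD.or | apply PD.and | apply PD.imp | apply PD.ex | apply PD.all | exact PD.const _ | assumption | refine PF.comp1 (F := _) (by assumption) ?_ | refine PF.comp2 (F := _) (by assumption) ?_ ?_ | refine PF.comp3 (F := _) (by assumption) ?_ ?_ ?_ | refine PD.app1 (R := _) (by assumption) ?_ | refine PD.app2 (R := _) (by assumption) ?_ ?_ | refine PD.app3 (R := _) (by assumption) ?_ ?_ ?_ | refine PD.app4 (R := _) (by assumption) ?_ ?_ ?_ ?_))) ?_ ?_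
    a ha hs
  · intro _
    exact ⟨GA.emp, emp_mem_om, fun z hz => (not_mem_emp z hz).elim⟩
  · intro a y _ hP hs
    obtain ⟨j, hj, haj⟩ := hP (fun z hz => hs z (mem_adj.2 (Or.inl hz)))
    obtain ⟨n, hn, m, hm, rfl⟩ := mem_prod.1 (hs y (mem_adj.2 (Or.inr rfl)))
    refine ⟨GA.un j (GA.un (succ n) (succ m)), hk_un hj (hk_un (succ_mem_om hn) (succ_mem_om hm)), ?_⟩
    intro z hz
    rcases mem_adj.1 hz with h | rfl
    · obtain ⟨a', ha', b', hb', rfl⟩ := mem_prod.1 (haj z h)
      exact op_mem_prod.2 ⟨mem_un.2 (Or.inl ha'), mem_un.2 (Or.inl hb')⟩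
    · exact op_mem_prod.2 ⟨mem_un.2 (Or.inr (mem_un.2 (Or.inl (mem_succ.2 (Or.inr rfl))))),
        mem_un.2 (Or.inr (mem_un.2 (Or.inr (mem_succ.2 (Or.inr rfl)))))⟩

/-- MODULE hl -/
theorem IsHec.typed (h : IsHec κ P L) (hκ : Ord κ) :
    Typed P L κ fseq (lam (fun p => stems p) P)
      (lam (fun j => sep fseq (fun s => GA.sub s (prod j j))) om) := by

  have hT : ∀ {p : M}, SetStr.mem p P → app (lam (fun p => stems p) P) p = stems p := fun hp =>
    app_lam (by (repeat' (with_reducible first | apply pf_stems | apply pd_HLe | apply pf_res | apply pf_below | apply pf_mxn | apply pd_NLeV | apply pd_NLe | apply pd_RName | apply pd_FV | apply pd_PreO | apply pf_p2 | apply pf_p1 | apply DD.pf_lv | apply DD.pf_nd | apply DD.pd_Clo | apply DD.pf_dl | apply DD.pf_prs | apply DD.pd_Fork | apply DD.pd_V | apply pd_maxR | apply pd_WOd | apply pf_pfin | apply pd_Fun1 | apply pf_hh | apply pd_Spr | apply pd_Inj | apply pf_har | apply pd_Le | apply pf_fins | apply pf_card | apply pd_Bij | apply pd_Fini | apply pd_Big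 | apply pd_Ord | apply pd_Tr | apply pd_Ind | apply pf_succ | apply pf_funs | apply pf_prod | apply pf_lam | apply pd_Fn | apply pf_app | apply pf_ran | apply pf_dom | apply PF.img | apply PF.pow | apply PD.sub | apply PF.adj | apply PF.un | apply PF.sUn | apply PF.op | apply PF.pr | apply PF.sep | exact PF.var _ | exact PF.const _ | apply PD.eq | apply PD.mem | apply PD.not | apply PD.iff | apply PD.or | apply PD.and | apply PD.imp | apply PD.ex | apply PD.all | exact PD.const _ | assumption | refine PF.comp1 (F := _) (by assumption) ?_ | refine PF.comp2 (F := _) (by assumption) ?_ ?_ | refine PF.comp3 (F := _) (by assumption) ?_ ?_ ?_ | refine PD.app1 (R := _) (by assumption) ?_ | refine PD.app2 (R := _) (by assumption) ?_ ?_ | refine PD.app3 (R := _) (by assumption) ?_ ?_ ?_ | refine PD.app4 (R := _) (by assumption) ?_ ?_ ?_ ?_))) hp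
  have hY : ∀ {j : M}, SetStr.mem j om →
      app (lam (fun j => sep GA.fseq (fun s => GA.sub s (GA.prod j j))) om) j =
        sep GA.fseq (fun s => GA.sub s (GA.prod j j)) := fun hj => app_lam (by (repeat' (with_reducible first | apply pf_stems | apply pd_HLe | apply pf_res | apply pf_below | apply pf_mxn | apply pd_NLeV | apply pd_NLe | apply pd_RName | apply pd_FV | apply pd_PreO | apply pf_p2 | apply pf_p1 | apply DD.pf_lv | apply DD.pf_nd | apply DD.pd_Clo | apply DD.pf_dl | apply DD.pf_prs | apply DD.pd_Fork | apply DD.pd_V | apply pd_maxR | apply pd_WOd | apply pf_pfin | apply pd_Fun1 | apply pf_hh | apply pd_Spr | apply pd_Inj | apply pf_har | apply pd_Le | apply pf_fins | apply pf_card | apply pd_Bij | apply pd_Fini | apply pd_Big | apply pd_Ord | apply pd_Tr | apply pd_Ind | apply pf_succ | apply pf_funs | apply pf_prod | apply pf_lam | apply pd_Fn | apply pf_app | apply pf_ran | apply pf_dom | apply PF.img | apply PF.pow | apply PD.sub | apply PF.adj | apply PF.un | apply PF.sUn | apply PF.op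 | apply PF.pr | apply PF.sep | exact PF.var _ | exact PF.const _ | apply PD.eq | apply PD.mem | apply PD.not | apply PD.iff | apply PD.or | apply PD.and | apply PD.imp | apply PD.ex | apply PD.all | exact PD.const _ | assumption | refine PF.comp1 (F := _) (by assumption) ?_ | refine PF.comp2 (F := _) (by assumption) ?_ ?_ | refine PF.comp3 (F := _) (by assumption) ?_ ?_ ?_ | refine PD.app1 (R := _) (by assumption) ?_ | refine PD.app2 (R := _) (by assumption) ?_ ?_ | refine PD.app3 (R := _) (by assumption) ?_ ?_ ?_ | refine PD.app4 (R := _) (by assumption) ?_ ?_ ?_ ?_))) hj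
  refine ⟨lam_Fn (by (repeat' (with_reducible first | apply pf_stems | apply pd_HLe | apply pf_res | apply pf_below | apply pf_mxn | apply pd_NLeV | apply pd_NLe | apply pd_RName | apply pd_FV | apply pd_PreO | apply pf_p2 | apply pf_p1 | apply DD.pf_lv | apply DD.pf_nd | apply DD.pd_Clo | apply DD.pf_dl | apply DD.pf_prs | apply DD.pd_Fork | apply DD.pd_V | apply pd_maxR | apply pd_WOd | apply pf_pfin | apply pd_Fun1 | apply pf_hh | apply pd_Spr | apply pd_Inj | apply pf_har | apply pd_Le | apply pf_fins | apply pf_card | apply pd_Bij | apply pd_Fini | apply pd_Big | apply pd_Ord | apply pd_Tr | apply pd_Ind | apply pf_succ | apply pf_funs | apply pf_prod | apply pf_lam | apply pd_Fn | apply pf_app | apply pf_ran | apply pf_dom | apply PF.img | apply PF.pow | apply PD.sub | apply PF.adj | apply PF.un | apply PF.sUn | apply PF.op | apply PF.pr | apply PF.sep | exact PF.var _ | exact PF.const _ | apply PD.eq | apply PD.mem | apply PD.not | apply PD.iff | apply PD.or | apply PD.and | apply PD.imp | apply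 PD.ex | apply PD.all | exact PD.const _ | assumption | refine PF.comp1 (F := _) (by assumption) ?_ | refine PF.comp2 (F := _) (by assumption) ?_ ?_ | refine PF.comp3 (F := _) (by assumption) ?_ ?_ ?_ | refine PD.app1 (R := _) (by assumption) ?_ | refine PD.app2 (R := _) (by assumption) ?_ ?_ | refine PD.app3 (R := _) (by assumption) ?_ ?_ ?_ | refine PD.app4 (R := _) (by assumption) ?_ ?_ ?_ ?_))) P, ?_, ?_, lam_Fn (by (repeat' (with_reducible first | apply pf_stems | apply pd_HLe | apply pf_res | apply pf_below | apply pf_mxn | apply pd_NLeV | apply pd_NLe | apply pd_RName | apply pd_FV | apply pd_PreO | apply pf_p2 | apply pf_p1 | apply DD.pf_lv | apply DD.pf_nd | apply DD.pd_Clo | apply DD.pf_dl | apply DD.pf_prs | apply DD.pd_Fork | apply DD.pd_V | apply pd_maxR | apply pd_WOd | apply pf_pfin | apply pd_Fun1 | apply pf_hh | apply pd_Spr | apply pd_Inj | apply pf_har | apply pd_Le | apply pf_fins | apply pf_card | apply pd_Bij | apply pd_Fini | apply pd_Big | apply pd_Ord | apply pd_Tr | apply pd_Ind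 | apply pf_succ | apply pf_funs | apply pf_prod | apply pf_lam | apply pd_Fn | apply pf_app | apply pf_ran | apply pf_dom | apply PF.img | apply PF.pow | apply PD.sub | apply PF.adj | apply PF.un | apply PF.sUn | apply PF.op | apply PF.pr | apply PF.sep | exact PF.var _ | exact PF.const _ | apply PD.eq | apply PD.mem | apply PD.not | apply PD.iff | apply PD.or | apply PD.and | apply PD.imp | apply PD.ex | apply PD.all | exact PD.const _ | assumption | refine PF.comp1 (F := _) (by assumption) ?_ | refine PF.comp2 (F := _) (by assumption) ?_ ?_ | refine PF.comp3 (F := _) (by assumption) ?_ ?_ ?_ | refine PD.app1 (R := _) (by assumption) ?_ | refine PD.app2 (R := _) (by assumption) ?_ ?_ | refine PD.app3 (R := _) (by assumption) ?_ ?_ ?_ | refine PD.app4 (R := _) (by assumption) ?_ ?_ ?_ ?_))) om, ?_, ?_, ?_⟩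
  · intro p hp
    rw [hT hp]
    exact h.stems_mem hp
  · intro p q hp hq hu
    rw [hT hp, hT hq] at hu
    exact ⟨amax P L p q, h.amax_le hκ hp hq hu⟩
  · intro j hj
    rw [hY hj]
    have h1 := Fini.of_mem_om hj
    refine (h1.prod h1).pow.sub fun z hz => ?_
    rw [mem_sep (by (repeat' (with_reducible first | apply pf_stems | apply pd_HLe | apply pf_res | apply pf_below | apply pf_mxn | apply pd_NLeV | apply pd_NLe | apply pd_RName | apply pd_FV | apply pd_PreO | apply pf_p2 | apply pf_p1 | apply DD.pf_lv | apply DD.pf_nd | apply DD.pd_Clo | apply DD.pf_dl | apply DD.pf_prs | apply DD.pd_Fork | apply DD.pd_V | apply pd_maxR | apply pd_WOd | apply pf_pfin | apply pd_Fun1 | apply pf_hh | apply pd_Spr | apply pd_Inj | apply pf_har | apply pd_Le | apply pf_fins | apply pf_card | apply pd_Bij | apply pd_Fini | apply pd_Big | apply pd_Ord | apply pd_Tr | apply pd_Ind | apply pf_succ | apply pf_funs | apply pf_prod | apply pf_lam | apply pd_Fn | apply pf_app | apply pf_ran | apply pf_dom | apply PF.img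 | apply PF.pow | apply PD.sub | apply PF.adj | apply PF.un | apply PF.sUn | apply PF.op | apply PF.pr | apply PF.sep | exact PF.var _ | exact PF.const _ | apply PD.eq | apply PD.mem | apply PD.not | apply PD.iff | apply PD.or | apply PD.and | apply PD.imp | apply PD.ex | apply PD.all | exact PD.const _ | assumption | refine PF.comp1 (F := _) (by assumption) ?_ | refine PF.comp2 (F := _) (by assumption) ?_ ?_ | refine PF.comp3 (F := _) (by assumption) ?_ ?_ ?_ | refine PD.app1 (R := _) (by assumption) ?_ | refine PD.app2 (R := _) (by assumption) ?_ ?_ | refine PD.app3 (R := _) (by assumption) ?_ ?_ ?_ | refine PD.app4 (R := _) (by assumption) ?_ ?_ ?_ ?_)))] at hz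
    exact mem_pow.2 hz.2
  · intro i j hj hi z hz
    rw [hY hj, mem_sep (by (repeat' (with_reducible first | apply pf_stems | apply pd_HLe | apply pf_res | apply pf_below | apply pf_mxn | apply pd_NLeV | apply pd_NLe | apply pd_RName | apply pd_FV | apply pd_PreO | apply pf_p2 | apply pf_p1 | apply DD.pf_lv | apply DD.pf_nd | apply DD.pd_Clo | apply DD.pf_dl | apply DD.pf_prs | apply DD.pd_Fork | apply DD.pd_V | apply pd_maxR | apply pd_WOd | apply pf_pfin | apply pd_Fun1 | apply pf_hh | apply pd_Spr | apply pd_Inj | apply pf_har | apply pd_Le | apply pf_fins | apply pf_card | apply pd_Bij | apply pd_Fini | apply pd_Big | apply pd_Ord | apply pd_Tr | apply pd_Ind | apply pf_succ | apply pf_funs | apply pf_prod | apply pf_lam | apply pd_Fn | apply pf_app | apply pf_ran | apply pf_dom | apply PF.img | apply PF.pow | apply PD.sub | apply PF.adj | apply PF.un | apply PF.sUn | apply PF.op | apply PF.pr | apply PF.sep | exact PF.var _ | exact PF.const _ | apply PD.eq | apply PD.mem | apply PD.not | apply PD.iff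 | apply PD.or | apply PD.and | apply PD.imp | apply PD.ex | apply PD.all | exact PD.const _ | assumption | refine PF.comp1 (F := _) (by assumption) ?_ | refine PF.comp2 (F := _) (by assumption) ?_ ?_ | refine PF.comp3 (F := _) (by assumption) ?_ ?_ ?_ | refine PD.app1 (R := _) (by assumption) ?_ | refine PD.app2 (R := _) (by assumption) ?_ ?_ | refine PD.app3 (R := _) (by assumption) ?_ ?_ ?_ | refine PD.app4 (R := _) (by assumption) ?_ ?_ ?_ ?_)))]
    rw [hY (om_trans hj hi), mem_sep (by (repeat' (with_reducible first | apply pf_stems | apply pd_HLe | apply pf_res | apply pf_below | apply pf_mxn | apply pd_NLeV | apply pd_NLe | apply pd_RName | apply pd_FV | apply pd_PreO | apply pf_p2 | apply pf_p1 | apply DD.pf_lv | apply DD.pf_nd | apply DD.pd_Clo | apply DD.pf_dl | apply DD.pf_prs | apply DD.pd_Fork | apply DD.pd_V | apply pd_maxR | apply pd_WOd | apply pf_pfin | apply pd_Fun1 | apply pf_hh | apply pd_Spr | apply pd_Inj | apply pf_har | apply pd_Le | apply pf_fins | apply pf_card | apply pd_Bij |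 apply pd_Fini | apply pd_Big | apply pd_Ord | apply pd_Tr | apply pd_Ind | apply pf_succ | apply pf_funs | apply pf_prod | apply pf_lam | apply pd_Fn | apply pf_app | apply pf_ran | apply pf_dom | apply PF.img | apply PF.pow | apply PD.sub | apply PF.adj | apply PF.un | apply PF.sUn | apply PF.op | apply PF.pr | apply PF.sep | exact PF.var _ | exact PF.const _ | apply PD.eq | apply PD.mem | apply PD.not | apply PD.iff | apply PD.or | apply PD.and | apply PD.imp | apply PD.ex | apply PD.all | exact PD.const _ | assumption | refine PF.comp1 (F := _) (by assumption) ?_ | refine PF.comp2 (F := _) (by assumption) ?_ ?_ | refine PF.comp3 (F := _) (by assumption) ?_ ?_ ?_ | refine PD.app1 (R := _) (by assumption) ?_ | refine PD.app2 (R := _) (by assumption) ?_ ?_ | refine PD.app3 (R := _) (by assumption) ?_ ?_ ?_ | refine PD.app4 (R := _) (by assumption) ?_ ?_ ?_ ?_)))] at hz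
    refine ⟨hz.1, fun w hw => ?_⟩
    obtain ⟨a', ha', b', hb', rfl⟩ := mem_prod.1 (hz.2 w hw)
    exact op_mem_prod.2 ⟨om_elt_trans hj hi ha', om_elt_trans hj hi hb'⟩
  · intro y
    constructor
    · intro hy
      obtain ⟨n, hn, hf, hv⟩ := mem_fseq.1 hy
      have h1 : Fini y := by
        rw [hf.eq_lam]
        exact (Fini.of_mem_om hn).img (by (repeat' (with_reducible first | apply pf_stems | apply pd_HLe | apply pf_res | apply pf_below | apply pf_mxn | apply pd_NLeV | apply pd_NLe | apply pd_RName | apply pd_FV | apply pd_PreO | apply pf_p2 | apply pf_p1 | apply DD.pf_lv | apply DD.pf_nd | apply DD.pd_Clo | apply DD.pf_dl | apply DD.pf_prs | apply DD.pd_Fork | apply DD.pd_V | apply pd_maxR | apply pd_WOd | apply pf_pfin | apply pd_Fun1 | apply pf_hh | apply pd_Spr | apply pd_Inj | apply pf_har | apply pd_Le | apply pf_fins | apply pf_card | apply pd_Bij | apply pd_Fini | apply pd_Big | apply pd_Ord | apply pd_Tr | apply pd_Ind | apply pf_succ | apply pf_funs | apply pf_prod | apply pf_lam | apply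 pd_Fn | apply pf_app | apply pf_ran | apply pf_dom | apply PF.img | apply PF.pow | apply PD.sub | apply PF.adj | apply PF.un | apply PF.sUn | apply PF.op | apply PF.pr | apply PF.sep | exact PF.var _ | exact PF.const _ | apply PD.eq | apply PD.mem | apply PD.not | apply PD.iff | apply PD.or | apply PD.and | apply PD.imp | apply PD.ex | apply PD.all | exact PD.const _ | assumption | refine PF.comp1 (F := _) (by assumption) ?_ | refine PF.comp2 (F := _) (by assumption) ?_ ?_ | refine PF.comp3 (F := _) (by assumption) ?_ ?_ ?_ | refine PD.app1 (R := _) (by assumption) ?_ | refine PD.app2 (R := _) (by assumption) ?_ ?_ | refine PD.app3 (R := _) (by assumption) ?_ ?_ ?_ | refine PD.app4 (R := _) (by assumption) ?_ ?_ ?_ ?_)))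
      have h2 : GA.sub y (GA.prod om om) := by
        intro z hz
        obtain ⟨x, hx, w, rfl⟩ := hf.1 z hz
        have h3 := (hf.mem_iff.1 hz).2
        rw [h3]
        exact op_mem_prod.2 ⟨om_trans hn hx, hv x hx⟩
      obtain ⟨j, hj, hyj⟩ := fini_bound h1 h2
      refine ⟨j, hj, ?_⟩
      rw [hY hj, mem_sep (by (repeat' (with_reducible first | apply pf_stems | apply pd_HLe | apply pf_res | apply pf_below | apply pf_mxn | apply pd_NLeV | apply pd_NLe | apply pd_RName | apply pd_FV | apply pd_PreO | apply pf_p2 | apply pf_p1 | apply DD.pf_lv | apply DD.pf_nd | apply DD.pd_Clo | apply DD.pf_dl | apply DD.pf_prs | apply DD.pd_Fork | apply DD.pd_V | apply pd_maxR | apply pd_WOd | apply pf_pfin | apply pd_Fun1 | apply pf_hh | apply pd_Spr | apply pd_Inj | apply pf_har | apply pd_Le | apply pf_fins | apply pf_card | apply pd_Bij | apply pd_Fini | apply pd_Big | apply pd_Ord | apply pd_Tr | apply pd_Ind | apply pf_succ | apply pf_funs | apply pf_prod | apply pf_lam | apply pd_Fn | apply pf_app | apply pf_ran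 | apply pf_dom | apply PF.img | apply PF.pow | apply PD.sub | apply PF.adj | apply PF.un | apply PF.sUn | apply PF.op | apply PF.pr | apply PF.sep | exact PF.var _ | exact PF.const _ | apply PD.eq | apply PD.mem | apply PD.not | apply PD.iff | apply PD.or | apply PD.and | apply PD.imp | apply PD.ex | apply PD.all | exact PD.const _ | assumption | refine PF.comp1 (F := _) (by assumption) ?_ | refine PF.comp2 (F := _) (by assumption) ?_ ?_ | refine PF.comp3 (F := _) (by assumption) ?_ ?_ ?_ | refine PD.app1 (R := _) (by assumption) ?_ | refine PD.app2 (R := _) (by assumption) ?_ ?_ | refine PD.app3 (R := _) (by assumption) ?_ ?_ ?_ | refine PD.app4 (R := _) (by assumption) ?_ ?_ ?_ ?_)))]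
      exact ⟨hy, hyj⟩
    · rintro ⟨j, hj, hy⟩
      rw [hY hj, mem_sep (by (repeat' (with_reducible first | apply pf_stems | apply pd_HLe | apply pf_res | apply pf_below | apply pf_mxn | apply pd_NLeV | apply pd_NLe | apply pd_RName | apply pd_FV | apply pd_PreO | apply pf_p2 | apply pf_p1 | apply DD.pf_lv | apply DD.pf_nd | apply DD.pd_Clo | apply DD.pf_dl | apply DD.pf_prs | apply DD.pd_Fork | apply DD.pd_V | apply pd_maxR | apply pd_WOd | apply pf_pfin | apply pd_Fun1 | apply pf_hh | apply pd_Spr | apply pd_Inj | apply pf_har | apply pd_Le | apply pf_fins | apply pf_card | apply pd_Bij | apply pd_Fini | apply pd_Big | apply pd_Ord | apply pd_Tr | apply pd_Ind | apply pf_succ | apply pf_funs | apply pf_prod | apply pf_lam | apply pd_Fn | apply pf_app | apply pf_ran | apply pf_dom | apply PF.img | apply PF.pow | apply PD.sub | apply PF.adj | apply PF.un | apply PF.sUn | apply PF.op | apply PF.pr | apply PF.sep | exact PF.var _ | exact PF.const _ | apply PD.eq | apply PD.mem | apply PD.not | apply PD.iff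 | apply PD.or | apply PD.and | apply PD.imp | apply PD.ex | apply PD.all | exact PD.const _ | assumption | refine PF.comp1 (F := _) (by assumption) ?_ | refine PF.comp2 (F := _) (by assumption) ?_ ?_ | refine PF.comp3 (F := _) (by assumption) ?_ ?_ ?_ | refine PD.app1 (R := _) (by assumption) ?_ | refine PD.app2 (R := _) (by assumption) ?_ ?_ | refine PD.app3 (R := _) (by assumption) ?_ ?_ ?_ | refine PD.app4 (R := _) (by assumption) ?_ ?_ ?_ ?_)))] at hy
      exact hy.1

private theorem hm_fseq : ∀ s, SetStr.mem s (GA.fseq : M) → SetStr.mem s (fins (prod om om)) := by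
  intro s hs
  obtain ⟨n, hn, hf, hv⟩ := mem_fseq.1 hs
  have hpf : PF (fun v : ℕ → M => op (v 0) (app s (v 0))) := by (repeat' (with_reducible first | apply pf_stems | apply pd_HLe | apply pf_res | apply pf_below | apply pf_mxn | apply pd_NLeV | apply pd_NLe | apply pd_RName | apply pd_FV | apply pd_PreO | apply pf_p2 | apply pf_p1 | apply DD.pf_lv | apply DD.pf_nd | apply DD.pd_Clo | apply DD.pf_dl | apply DD.pf_prs | apply DD.pd_Fork | apply DD.pd_V | apply pd_maxR | apply pd_WOd | apply pf_pfin | apply pd_Fun1 | apply pf_hh | apply pd_Spr | apply pd_Inj | apply pf_har | apply pd_Le | apply pf_fins | apply pf_card | apply pd_Bij | apply pd_Fini | apply pd_Big | apply pd_Ord | apply pd_Tr | apply pd_Ind | apply pf_succ | apply pf_funs | apply pf_prod | apply pf_lam | apply pd_Fn | apply pf_app | apply pf_ran | apply pf_dom | apply PF.img | apply PF.pow | apply PD.sub | apply PF.adj | apply PF.un | apply PF.sUn | apply PF.op | apply PF.pr | apply PF.sep | exact PF.var _ | exact PF.const _ | apply PD.eq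 | apply PD.mem | apply PD.not | apply PD.iff | apply PD.or | apply PD.and | apply PD.imp | apply PD.ex | apply PD.all | exact PD.const _ | assumption | refine PF.comp1 (F := _) (by assumption) ?_ | refine PF.comp2 (F := _) (by assumption) ?_ ?_ | refine PF.comp3 (F := _) (by assumption) ?_ ?_ ?_ | refine PD.app1 (R := _) (by assumption) ?_ | refine PD.app2 (R := _) (by assumption) ?_ ?_ | refine PD.app3 (R := _) (by assumption) ?_ ?_ ?_ | refine PD.app4 (R := _) (by assumption) ?_ ?_ ?_ ?_))
  rw [mem_fins]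
  constructor
  · intro z hz
    obtain ⟨x, hx, y, rfl⟩ := hf.1 z hz
    have hy := (hf.mem_iff.1 hz).2
    rw [op_mem_prod, hy]
    exact ⟨om_trans hn hx, hv x hx⟩
  · have h1 : s = img (fun x => op x (app s x)) n := by
      refine ext (fun z => ?_)
      rw [mem_img hpf]
      constructor
      · intro hz
        obtain ⟨x, hx, y, rfl⟩ := hf.1 z hz
        exact ⟨x, hx, by rw [← (hf.mem_iff.1 hz).2]⟩
      · rintro ⟨x, hx, rfl⟩
        exact hf.app_mem hx
    rw [h1]
    exact (Fini.of_mem_om hn).img hpf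

/-- MODULE hm -/
theorem Cd.fseq {κ : M} (hκ : Big κ) : Cd κ fseq :=
  Cd.of_le (Le.of_sub hm_fseq) (Cd.fins (Cd.prod (Cd.om hκ) (Cd.om hκ) hκ) hκ)

/-- MODULE hm -/
theorem IsHec.covP (h : IsHec κ P L) (hκ : Big κ) : CovP P L :=
  (h.typed hκ.1).covP (fun q p hqp => ⟨((h.le q p).1 hqp).1, ((h.le q p).1 hqp).2.1⟩)
    (fun _ _ _ h1 h2 => h.trans hκ.1 h1 h2) (fun _ hp => h.refl hp)
    (Cd.pfin (Cd.self hκ) (Cd.fseq hκ) hκ).1

/-- MODULE hm -/
theorem IsHec.upP (h : IsHec κ P L) (hκ : Big κ) : UpP P L κ :=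
  (h.typed hκ.1).upP (fun q p hqp => ⟨((h.le q p).1 hqp).1, ((h.le q p).1 hqp).2.1⟩)
    (fun _ _ _ h1 h2 => h.trans hκ.1 h1 h2) (fun _ hp => h.refl hp) hκ
    (Cd.pfin (Cd.self hκ) (Cd.fseq hκ) hκ)

private theorem hn_coord (h : IsHec κ P L) {p c s τ : M} (hp : SetStr.mem p P)
    (hc : SetStr.mem (op c (op s τ)) p) : SetStr.mem c κ ∧ SetStr.mem s fseq ∧ RName (below P c) L τ := by
  obtain ⟨c', s', τ', h1, h2, h3, h4⟩ := ((h.cond p).1 hp).2.2 _ hc
  simp only [op_inj] at h1
  obtain ⟨rfl, rfl, rfl⟩ := h1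
  exact ⟨h2, h3, h4⟩

private theorem hn_max {m k : M} (hm : SetStr.mem m (om : M)) (hk : SetStr.mem k om) :
    ∃ l, SetStr.mem l (om : M) ∧ GA.sub m l ∧ GA.sub k l := by
  rcases (Ord.of_mem_om hm).sub_or_mem (Ord.of_mem_om hk) with h1 | h1
  · exact ⟨k, hk, h1, fun _ h => h⟩
  · exact ⟨m, hm, fun _ h => h, fun _ h => (Ord.of_mem_om hm).trans h1 h⟩

private theorem hn_Fn_adj {s n m : M} (hs : Fn s n) : Fn (adj s (op n m)) (succ n) ∧
    app (adj s (op n m)) n = m ∧ ∀ x, SetStr.mem x n → app (adj s (op n m)) x = app s x := by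
  have h1 : ∀ x y, SetStr.mem (op x y) s → SetStr.mem x n := fun x y hx => (hs.mem_iff.1 hx).1
  have hF : Fn (adj s (op n m)) (succ n) := by
    constructor
    · intro z hz
      rw [mem_adj] at hz
      rcases hz with hz | rfl
      · obtain ⟨x, hx, y, rfl⟩ := hs.1 z hz
        exact ⟨x, mem_succ.2 (Or.inl hx), y, rfl⟩
      · exact ⟨n, mem_succ.2 (Or.inr rfl), m, rfl⟩
    · intro x hx
      rw [mem_succ] at hx
      rcases hx with hx | rfl
      · refine ⟨?_, fun y y' hy hy' => ?_⟩
        · obtain ⟨y, hy⟩ := (hs.2 x hx).1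
          exact ⟨y, mem_adj.2 (Or.inl hy)⟩
        · have key : ∀ y, SetStr.mem (op x y) (adj s (op n m)) → SetStr.mem (op x y) s := by
            intro y hy
            rcases mem_adj.1 hy with h | h
            · exact h
            · rw [op_inj] at h
              rw [h.1] at hx
              exact (not_mem_self n hx).elim
          exact (hs.2 x hx).2 y y' (key y hy) (key y' hy')
      · refine ⟨⟨m, mem_adj.2 (Or.inr rfl)⟩, fun y y' hy hy' => ?_⟩
        have key : ∀ y, SetStr.mem (op x y) (adj s (op x m)) → y = m := by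
          intro y hy
          rcases mem_adj.1 hy with h | h
          · exact (not_mem_self x (h1 x y h)).elim
          · exact (op_inj.1 h).2
        rw [key y hy, key y' hy']
  refine ⟨hF, ?_, fun x hx => ?_⟩
  · exact ((hF.mem_iff.1 (mem_adj.2 (Or.inr rfl))).2).symm
  · exact ((hF.mem_iff.1 (mem_adj.2 (Or.inl (hs.app_mem hx)))).2).symm

private theorem hn_fseq {s n m : M} (hs : Fn s n) (hsf : SetStr.mem s fseq) (hn : SetStr.mem n om) (hm : SetStr.mem m om) :
    SetStr.mem (adj s (op n m)) fseq := by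
  obtain ⟨n', hn', hs', hv⟩ := mem_fseq.1 hsf
  have hnn : n = n' := by rw [← hs.dom_eq, hs'.dom_eq]
  subst hnn
  obtain ⟨h1, h2, h3⟩ := hn_Fn_adj (m := m) hs
  refine mem_fseq.2 ⟨succ n, succ_mem_om hn, h1, fun x hx => ?_⟩
  rw [mem_succ] at hx
  rcases hx with hx | rfl
  · rw [h3 x hx]
    exact hv x hx
  · rw [h2]
    exact hm

/-- MODULE hn.  Extension of a stem by one value: decide `τ(n)` below `c` (`RName`), use `amalgam`,
then replace the value at `c` by `op (adj s (op n m')) τ`, `m'` a number containing `k` and the decided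
value. -/
theorem IsHec.stem_ext (h : IsHec κ P L) (hκ : Ord κ) {p c s τ n k : M} (hp : SetStr.mem p P)
    (hc : SetStr.mem (op c (op s τ)) p) (hs : Fn s n) (hn : SetStr.mem n om) (hk : SetStr.mem k om) :
    ∃ q m, SetStr.mem (op q p) L ∧ SetStr.mem m om ∧ GA.sub k m ∧ SetStr.mem (op c (op (adj s (op n m)) τ)) q ∧
      ∀ b y, SetStr.mem c b → (SetStr.mem (op b y) q ↔ SetStr.mem (op b y) p) := by
  obtain ⟨hcκ, hsf, hτ⟩ := hn_coord h hp hc
  have hQ := h.preO_below hκ (Or.inl hcκ)
  obtain ⟨v, m0, hv, hvp, hm0, hF⟩ := hτ.2.2 (res p c) n (h.res_mem hp c) hn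
  obtain ⟨q1, hq1, hq1p, -, hres, hrest⟩ := h.amalgam hκ hp hcκ hv hvp
  obtain ⟨m, hm, hm0m, hkm⟩ := hn_max hm0 hk
  have hc1 : SetStr.mem (op c (op s τ)) q1 := (hrest c _ (not_mem_self c)).2 hc
  obtain ⟨hf1, hf2, hf3⟩ := (h.cond q1).1 hq1
  have hs' : SetStr.mem (adj s (op n m)) fseq := hn_fseq hs hsf hn hm
  have hD : ∀ z, SetStr.mem z (sep q1 (fun z => z ≠ op c (op s τ))) ↔ SetStr.mem z q1 ∧ z ≠ op c (op s τ) := by
    intro z
    exact mem_sep (by unfold Ne; (repeat' (with_reducible first | apply pf_stems | apply pd_HLe | apply pf_res | apply pf_below | apply pf_mxn | apply pd_NLeV | apply pd_NLe | apply pd_RName | apply pd_FV | apply pd_PreO | apply pf_p2 | apply pf_p1 | apply DD.pf_lv | apply DD.pf_nd | apply DD.pd_Clo | apply DD.pf_dl | apply DD.pf_prs | apply DD.pd_Fork | apply DD.pd_V | apply pd_maxR | apply pd_WOd | apply pf_pfin | apply pd_Fun1 | apply pf_hh | apply pd_Spr | apply pd_Inj | apply pf_har | apply pd_Le | apply pf_fins | apply pf_card | apply pd_Bij | apply pd_Fini | apply pd_Big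 | apply pd_Ord | apply pd_Tr | apply pd_Ind | apply pf_succ | apply pf_funs | apply pf_prod | apply pf_lam | apply pd_Fn | apply pf_app | apply pf_ran | apply pf_dom | apply PF.img | apply PF.pow | apply PD.sub | apply PF.adj | apply PF.un | apply PF.sUn | apply PF.op | apply PF.pr | apply PF.sep | exact PF.var _ | exact PF.const _ | apply PD.eq | apply PD.mem | apply PD.not | apply PD.iff | apply PD.or | apply PD.and | apply PD.imp | apply PD.ex | apply PD.all | exact PD.const _ | assumption | refine PF.comp1 (F := _) (by assumption) ?_ | refine PF.comp2 (F := _) (by assumption) ?_ ?_ | refine PF.comp3 (F := _) (by assumption) ?_ ?_ ?_ | refine PD.app1 (R := _) (by assumption) ?_ | refine PD.app2 (R := _) (by assumption) ?_ ?_ | refine PD.app3 (R := _) (by assumption) ?_ ?_ ?_ | refine PD.app4 (R := _) (by assumption) ?_ ?_ ?_ ?_)))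
  let q : M := adj (sep q1 (fun z => z ≠ op c (op s τ))) (op c (op (adj s (op n m)) τ))
  have hq : ∀ z, SetStr.mem z q ↔ (SetStr.mem z q1 ∧ z ≠ op c (op s τ)) ∨ z = op c (op (adj s (op n m)) τ) := by
    intro z
    show SetStr.mem z (adj _ _) ↔ _
    rw [mem_adj, hD]
  have hother : ∀ b y, b ≠ c → (SetStr.mem (op b y) q ↔ SetStr.mem (op b y) q1) := by
    intro b y hb
    rw [hq]
    constructor
    · rintro (h' | h')
      · exact h'.1
      · rw [op_inj] at h'
        exact (hb h'.1).elim
    · intro h'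
      refine Or.inl ⟨h', fun he => ?_⟩
      rw [op_inj] at he
      exact hb he.1
  have hqc : ∀ y, SetStr.mem (op c y) q → y = op (adj s (op n m)) τ := by
    intro y hy
    rw [hq] at hy
    rcases hy with ⟨hy, hy'⟩ | hy
    · exact (hy' (by rw [hf2 c y _ hy hc1])).elim
    · exact (op_inj.1 hy).2
  have hqP : SetStr.mem q P := by
    rw [h.cond]
    refine ⟨(hf1.sub (fun z hz => ((hD z).1 hz).1)).adj _, ?_, ?_⟩
    · intro x y z hy hz
      by_cases hx : x = c
      · subst hx
        rw [hqc y hy, hqc z hz]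
      · exact hf2 x y z ((hother x y hx).1 hy) ((hother x z hx).1 hz)
    · intro z hz
      rw [hq] at hz
      rcases hz with hz | rfl
      · exact hf3 z hz.1
      · exact ⟨c, _, τ, rfl, hcκ, hs', hτ⟩
  have hresq : res q c = v := by
    rw [← hres]
    refine ext (fun z => ?_)
    rw [mem_res, mem_res]
    constructor
    · rintro ⟨h1, b, y, hb, rfl⟩
      have hbc : b ≠ c := by
        rintro rfl
        exact not_mem_self b hb
      exact ⟨(hother b y hbc).1 h1, b, y, hb, rfl⟩
    · rintro ⟨h1, b, y, hb, rfl⟩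
      have hbc : b ≠ c := by
        rintro rfl
        exact not_mem_self b hb
      exact ⟨(hother b y hbc).2 h1, b, y, hb, rfl⟩
  have hqq1 : SetStr.mem (op q q1) L := by
    rw [h.le]
    refine ⟨hqP, hq1, ?_⟩
    intro b s1 τ1 hb
    by_cases hbc : b = c
    · subst hbc
      have he := hf2 b _ _ hb hc1
      rw [op_inj] at he
      obtain ⟨rfl, rfl⟩ := he
      refine ⟨_, _, (hq _).2 (Or.inr rfl), fun z hz => mem_adj.2 (Or.inl hz), NLe.refl hτ, ?_⟩
      intro n' k' h1 h2
      rcases mem_adj.1 h1 with h3 | h3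
      · exact (h2 h3).elim
      · rw [op_inj] at h3
        obtain ⟨rfl, rfl⟩ := h3
        rw [hresq]
        exact NLeV.of_FV hQ hv hτ hF hm0m
    · obtain ⟨-, -, hτ1⟩ := hn_coord h hq1 hb
      exact ⟨s1, τ1, (hother b _ hbc).2 hb, fun _ h => h, NLe.refl hτ1,
        fun n' k' h1 h2 => (h2 h1).elim⟩
  refine ⟨q, m, h.trans hκ hqq1 hq1p, hm, hkm, (hq _).2 (Or.inr rfl), fun b y hb => ?_⟩
  have hbc : b ≠ c := by
    rintro rfl
    exact not_mem_self b hb
  rw [hother b y hbc]
  exact hrest b y (not_mem_mem hb)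

/-- MODULE ho.  Every coordinate can be added, with the empty stem. -/
theorem IsHec.add_coord (h : IsHec κ P L) (hκ : Ord κ) {p c : M} (hp : SetStr.mem p P) (hc : SetStr.mem c κ)
    (hn : ∀ y, ¬ SetStr.mem (op c y) p) :
    ∃ q τ, SetStr.mem (op q p) L ∧ SetStr.mem (op c (op emp τ)) q ∧ ∀ b y, SetStr.mem c b → (SetStr.mem (op b y) q ↔ SetStr.mem (op b y) p) := by
  have hQ := h.preO_below hκ (Or.inl hc)
  have he : SetStr.mem (emp : M) (below P c) :=
    mem_below.2 ⟨h.emp_mem, fun z hz => (not_mem_emp z hz).elim⟩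
  have hz : RName (below P c) L (zname emp) :=
    zname_RName hQ he (fun q hq => h.le_emp (mem_below.1 hq).1)
  obtain ⟨hf1, hf2, hf3⟩ := (h.cond p).1 hp
  have hef : SetStr.mem (emp : M) fseq := mem_fseq.2 ⟨emp, emp_mem_om,
    ⟨fun z hz => (not_mem_emp z hz).elim, fun x hx => (not_mem_emp x hx).elim⟩,
    fun x hx => (not_mem_emp x hx).elim⟩
  have hqP : SetStr.mem (adj p (op c (op emp (zname emp)))) P := by
    rw [h.cond]
    refine ⟨hf1.adj _, ?_, ?_⟩
    · intro x y z hy hz
      rw [mem_adj] at hy hz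
      rcases hy with hy | hy
      · rcases hz with hz | hz
        · exact hf2 x y z hy hz
        · rw [op_inj] at hz
          rw [hz.1] at hy
          exact (hn _ hy).elim
      · rw [op_inj] at hy
        rcases hz with hz | hz
        · rw [hy.1] at hz
          exact (hn _ hz).elim
        · rw [op_inj] at hz
          rw [hy.2, hz.2]
    · intro z hz'
      rw [mem_adj] at hz'
      rcases hz' with hz' | rfl
      · exact hf3 z hz'
      · exact ⟨c, _, _, rfl, hc, hef, hz⟩
  refine ⟨adj p (op c (op emp (zname emp))), zname emp, ?_, mem_adj.2 (Or.inr rfl), ?_⟩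
  · rw [h.le]
    refine ⟨hqP, hp, ?_⟩
    intro b s1 τ1 hb
    obtain ⟨-, -, hτ1⟩ := hn_coord h hp hb
    exact ⟨s1, τ1, mem_adj.2 (Or.inl hb), fun _ h => h, NLe.refl hτ1,
      fun n' k' h1 h2 => (h2 h1).elim⟩
  · intro b y hb
    rw [mem_adj]
    constructor
    · rintro (h' | h')
      · exact h'
      · rw [op_inj] at h'
        rw [h'.1] at hb
        exact (not_mem_self c hb).elim
    · exact fun h' => Or.inl h'

/-- MODULE hp.  Extension of the stem at `c` to length `n`. -/
theorem IsHec.stem_len (h : IsHec κ P L) (hκ : Ord κ) {c : M} (hc : SetStr.mem c κ) :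
    ∀ n, SetStr.mem n om → ∀ p, SetStr.mem p P → (∀ s τ m, SetStr.mem (op c (op s τ)) p → Fn s m → GA.sub m n) →
      ∃ q s τ, SetStr.mem (op q p) L ∧ SetStr.mem (op c (op s τ)) q ∧ Fn s n ∧
        ∀ b y, SetStr.mem c b → (SetStr.mem (op b y) q ↔ SetStr.mem (op b y) p) := by
  have hlen : ∀ p s τ m, SetStr.mem p P → SetStr.mem (op c (op s τ)) p → Fn s m → SetStr.mem m om := by
    intro p s τ m hp hz hs
    obtain ⟨-, hsf, -⟩ := hn_coord h hp hz
    obtain ⟨n', hn', hs', -⟩ := mem_fseq.1 hsf
    rw [← hs.dom_eq, hs'.dom_eq]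
    exact hn'
  refine om_ind (P := fun n => ∀ p, SetStr.mem p P → (∀ s τ m, SetStr.mem (op c (op s τ)) p → Fn s m → GA.sub m n) →
      ∃ q s τ, SetStr.mem (op q p) L ∧ SetStr.mem (op c (op s τ)) q ∧ Fn s n ∧
        ∀ b y, SetStr.mem c b → (SetStr.mem (op b y) q ↔ SetStr.mem (op b y) p)) (by (repeat' (with_reducible first | apply pf_stems | apply pd_HLe | apply pf_res | apply pf_below | apply pf_mxn | apply pd_NLeV | apply pd_NLe | apply pd_RName | apply pd_FV | apply pd_PreO | apply pf_p2 | apply pf_p1 | apply DD.pf_lv | apply DD.pf_nd | apply DD.pd_Clo | apply DD.pf_dl | apply DD.pf_prs | apply DD.pd_Fork | apply DD.pd_V | apply pd_maxR | apply pd_WOd | apply pf_pfin | apply pd_Fun1 | apply pf_hh | apply pd_Spr | apply pd_Inj | apply pf_har | apply pd_Le | apply pf_fins | apply pf_card | apply pd_Bij | apply pd_Fini | apply pd_Big | apply pd_Ord | apply pd_Tr | apply pd_Ind | apply pf_succ | apply pf_funs | apply pf_prod | apply pf_lam | apply pd_Fn | apply pf_app | apply pf_ran | apply pf_dom | apply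 PF.img | apply PF.pow | apply PD.sub | apply PF.adj | apply PF.un | apply PF.sUn | apply PF.op | apply PF.pr | apply PF.sep | exact PF.var _ | exact PF.const _ | apply PD.eq | apply PD.mem | apply PD.not | apply PD.iff | apply PD.or | apply PD.and | apply PD.imp | apply PD.ex | apply PD.all | exact PD.const _ | assumption | refine PF.comp1 (F := _) (by assumption) ?_ | refine PF.comp2 (F := _) (by assumption) ?_ ?_ | refine PF.comp3 (F := _) (by assumption) ?_ ?_ ?_ | refine PD.app1 (R := _) (by assumption) ?_ | refine PD.app2 (R := _) (by assumption) ?_ ?_ | refine PD.app3 (R := _) (by assumption) ?_ ?_ ?_ | refine PD.app4 (R := _) (by assumption) ?_ ?_ ?_ ?_))) ?_ ?_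
  · intro p hp hb
    by_cases hex : ∃ y, SetStr.mem (op c y) p
    · obtain ⟨y, hy⟩ := hex
      obtain ⟨c', s, τ, h1, h2, h3, h4⟩ := ((h.cond p).1 hp).2.2 _ hy
      rw [op_inj] at h1
      obtain ⟨rfl, rfl⟩ := h1
      obtain ⟨m, hm, hs, -⟩ := mem_fseq.1 h3
      have hm0 : m = emp := by
        refine ext (fun z => ⟨fun hz => hb s τ m hy hs z hz, fun hz => (not_mem_emp z hz).elim⟩)
      rw [hm0] at hs
      exact ⟨p, s, τ, h.refl hp, hy, hs, fun b y _ => Iff.rfl⟩
    · push Not at hex
      obtain ⟨q, τ, h1, h2, h3⟩ := h.add_coord hκ hp hc hex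
      exact ⟨q, emp, τ, h1, h2, ⟨fun z hz => (not_mem_emp z hz).elim,
        fun x hx => (not_mem_emp x hx).elim⟩, h3⟩
  · intro n hn ih p hp hb
    by_cases hex : ∃ s τ, SetStr.mem (op c (op s τ)) p ∧ Fn s (succ n)
    · obtain ⟨s, τ, h1, h2⟩ := hex
      exact ⟨p, s, τ, h.refl hp, h1, h2, fun b y _ => Iff.rfl⟩
    · have hb' : ∀ s τ m, SetStr.mem (op c (op s τ)) p → Fn s m → GA.sub m n := by
        intro s τ m hz hs
        have hm := hlen p s τ m hp hz hs
        rcases ((Ord.of_mem_om hm).sub_iff (Ord.of_mem_om (succ_mem_om hn))).1 (hb s τ m hz hs) with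
          h1 | h1
        · rw [mem_succ] at h1
          rcases h1 with h1 | rfl
          · exact fun z hz => (Ord.of_mem_om hn).trans h1 hz
          · exact fun z hz => hz
        · rw [h1] at hs
          exact (hex ⟨s, τ, hz, hs⟩).elim
      obtain ⟨q, s, τ, h1, h2, h3, h4⟩ := ih p hp hb'
      have hq : SetStr.mem q P := ((h.le q p).1 h1).1
      obtain ⟨q', m, h5, h6, -, h7, h8⟩ := h.stem_ext hκ hq h2 h3 hn emp_mem_om
      exact ⟨q', _, τ, h.trans hκ h5 h1, h7, (hn_Fn_adj h3).1,
        fun b y hb => (h8 b y hb).trans (h4 b y hb)⟩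

/-- MODULE hq.  The stem at `c` can be made to contain `n` in its domain. -/
theorem IsHec.stem_dom (h : IsHec κ P L) (hκ : Ord κ) {c n p : M} (hc : SetStr.mem c κ) (hn : SetStr.mem n om)
    (hp : SetStr.mem p P) : ∃ q s τ m, SetStr.mem (op q p) L ∧ SetStr.mem (op c (op s τ)) q ∧ SetStr.mem (op n m) s ∧ SetStr.mem m om ∧
      ∀ b y, SetStr.mem c b → (SetStr.mem (op b y) q ↔ SetStr.mem (op b y) p) := by
  have hval : ∀ q s τ m, SetStr.mem q P → SetStr.mem (op c (op s τ)) q → SetStr.mem (op n m) s → SetStr.mem m om := by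
    intro q s τ m hq hz hm
    obtain ⟨-, hsf, -⟩ := hn_coord h hq hz
    obtain ⟨n', hn', hs', hv⟩ := mem_fseq.1 hsf
    obtain ⟨h1, h2⟩ := hs'.mem_iff.1 hm
    rw [h2]
    exact hv n h1
  by_cases hex : ∃ s τ m, SetStr.mem (op c (op s τ)) p ∧ SetStr.mem (op n m) s
  · obtain ⟨s, τ, m, h1, h2⟩ := hex
    exact ⟨p, s, τ, m, h.refl hp, h1, h2, hval p s τ m hp h1 h2, fun b y _ => Iff.rfl⟩
  · have hb : ∀ s τ m, SetStr.mem (op c (op s τ)) p → Fn s m → GA.sub m (succ n) := by
      intro s τ m hz hs
      obtain ⟨-, hsf, -⟩ := hn_coord h hp hz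
      obtain ⟨n', hn', hs', -⟩ := mem_fseq.1 hsf
      have hm : SetStr.mem m om := by
        rw [← hs.dom_eq, hs'.dom_eq]
        exact hn'
      have hnm : ¬ SetStr.mem n m := fun hnm => hex ⟨s, τ, _, hz, hs.app_mem hnm⟩
      rcases (Ord.of_mem_om hm).sub_or_mem (Ord.of_mem_om hn) with h1 | h1
      · exact fun z hz => mem_succ.2 (Or.inl (h1 z hz))
      · exact (hnm h1).elim
    obtain ⟨q, s, τ, h1, h2, h3, h4⟩ := h.stem_len hκ hc (succ n) (succ_mem_om hn) p hp hb
    have hq : SetStr.mem q P := ((h.le q p).1 h1).1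
    have h5 := h3.app_mem (mem_succ.2 (Or.inr rfl) : SetStr.mem n (succ n))
    exact ⟨q, s, τ, _, h1, h2, h5, hval q s τ _ hq h2 h5, h4⟩

/-- The name of the sequence of the Hechler reals. -/
noncomputable def hecName (κ P : M) : M :=
  sep (prod P (prod (prod κ om) om)) (fun z => ∃ p c n m s τ, z = op p (op (op c n) m) ∧
    SetStr.mem (op c (op s τ)) p ∧ SetStr.mem (op n m) s)

/-- MODULE hr -/
theorem IsHec.mem_hecName (h : IsHec κ P L) {p x m : M} : SetStr.mem (op p (op x m)) (hecName κ P) ↔
    SetStr.mem p P ∧ ∃ c n s τ, x = op c n ∧ SetStr.mem (op c (op s τ)) p ∧ SetStr.mem (op n m) s := by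
  unfold hecName
  rw [mem_sep (by (repeat' (with_reducible first | apply pf_stems | apply pd_HLe | apply pf_res | apply pf_below | apply pf_mxn | apply pd_NLeV | apply pd_NLe | apply pd_RName | apply pd_FV | apply pd_PreO | apply pf_p2 | apply pf_p1 | apply DD.pf_lv | apply DD.pf_nd | apply DD.pd_Clo | apply DD.pf_dl | apply DD.pf_prs | apply DD.pd_Fork | apply DD.pd_V | apply pd_maxR | apply pd_WOd | apply pf_pfin | apply pd_Fun1 | apply pf_hh | apply pd_Spr | apply pd_Inj | apply pf_har | apply pd_Le | apply pf_fins | apply pf_card | apply pd_Bij | apply pd_Fini | apply pd_Big | apply pd_Ord | apply pd_Tr | apply pd_Ind | apply pf_succ | apply pf_funs | apply pf_prod | apply pf_lam | apply pd_Fn | apply pf_app | apply pf_ran | apply pf_dom | apply PF.img | apply PF.pow | apply PD.sub | apply PF.adj | apply PF.un | apply PF.sUn | apply PF.op | apply PF.pr | apply PF.sep | exact PF.var _ | exact PF.const _ | apply PD.eq | apply PD.mem | apply PD.not | apply PD.iff | apply PD.or | apply PD.and | apply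 PD.imp | apply PD.ex | apply PD.all | exact PD.const _ | assumption | refine PF.comp1 (F := _) (by assumption) ?_ | refine PF.comp2 (F := _) (by assumption) ?_ ?_ | refine PF.comp3 (F := _) (by assumption) ?_ ?_ ?_ | refine PD.app1 (R := _) (by assumption) ?_ | refine PD.app2 (R := _) (by assumption) ?_ ?_ | refine PD.app3 (R := _) (by assumption) ?_ ?_ ?_ | refine PD.app4 (R := _) (by assumption) ?_ ?_ ?_ ?_)))]
  constructor
  · rintro ⟨h1, p', c, n, m', s, τ, h2, h3, h4⟩
    rw [op_inj, op_inj] at h2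
    obtain ⟨rfl, rfl, rfl⟩ := h2
    exact ⟨(op_mem_prod.1 h1).1, c, n, s, τ, rfl, h3, h4⟩
  · rintro ⟨h1, c, n, s, τ, rfl, h2, h3⟩
    obtain ⟨c', s', τ', he, hc, hs, -⟩ := ((h.cond p).1 h1).2.2 _ h2
    rw [op_inj, op_inj] at he
    obtain ⟨rfl, rfl, rfl⟩ := he
    obtain ⟨j, hj, hf, hv⟩ := mem_fseq.1 hs
    have h4 := hf.mem_iff.1 h3
    refine ⟨op_mem_prod.2 ⟨h1, op_mem_prod.2 ⟨op_mem_prod.2 ⟨hc, om_trans hj h4.1⟩, ?_⟩⟩,
      p, c, n, m, s, τ, rfl, h2, h3⟩
    rw [h4.2]
    exact hv n h4.1

/-- MODULE hr.  The stem at `c` of a stronger condition is longer. -/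
theorem IsHec.stem_mono (h : IsHec κ P L) {p q c s τ : M} (hq : SetStr.mem (op q p) L)
    (hc : SetStr.mem (op c (op s τ)) p) : ∃ s' τ', SetStr.mem (op c (op s' τ')) q ∧ GA.sub s s' := by
  obtain ⟨s1, τ1, h1, h2, -⟩ := ((h.le q p).1 hq).2.2 c s τ hc
  exact ⟨s1, τ1, h1, h2⟩

private theorem hs_fun (h : IsHec κ P L) {p c s τ : M} (hp : SetStr.mem p P) (hc : SetStr.mem (op c (op s τ)) p) :
    ∃ k, SetStr.mem k om ∧ Fn s k ∧ ∀ x, SetStr.mem x k → SetStr.mem (app s x) om := by
  obtain ⟨-, hsf, -⟩ := hn_coord h hp hc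
  exact mem_fseq.1 hsf

private theorem hs_val (h : IsHec κ P L) {p c s τ n m : M} (hp : SetStr.mem p P)
    (hc : SetStr.mem (op c (op s τ)) p) (hm : SetStr.mem (op n m) s) : SetStr.mem n om ∧ SetStr.mem m om := by
  obtain ⟨k, hk, hs, hv⟩ := hs_fun h hp hc
  have h1 := hs.mem_iff.1 hm
  refine ⟨om_trans hk h1.1, ?_⟩
  rw [h1.2]
  exact hv n h1.1

private theorem hs_eq (h : IsHec κ P L) {p c s τ s' τ' n m m' : M} (hp : SetStr.mem p P)
    (hc : SetStr.mem (op c (op s τ)) p) (hc' : SetStr.mem (op c (op s' τ')) p) (hm : SetStr.mem (op n m) s)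
    (hm' : SetStr.mem (op n m') s') : m = m' := by
  have h1 := ((h.cond p).1 hp).2.1 c _ _ hc hc'
  rw [op_inj] at h1
  obtain ⟨rfl, rfl⟩ := h1
  obtain ⟨k, hk, hs, hv⟩ := hs_fun h hp hc
  rw [(hs.mem_iff.1 hm).2, (hs.mem_iff.1 hm').2]

/-- MODULE hs.  (`reg`: if `op c (op s τ) ∈ p`, `op n m ∈ s` fails for all `s, τ`, then either another
value at `n` is already decided by `p` or there is `q ≤ p` with the stem at `c` of length exactly `n`
(`stem_len`), and `stem_ext` with `k = succ m` gives an extension with another value at `n`.) -/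
theorem IsHec.hecName_FName (h : IsHec κ P L) (hκ : Ord κ) :
    FName P L emp (prod κ om) om (hecName κ P) := by
  refine ⟨h.emp_mem, ?_, ?_, ?_, ?_, ?_⟩
  · intro p x ξ hp
    obtain ⟨h1, c, n, s, τ, rfl, h2, h3⟩ := h.mem_hecName.1 hp
    have h4 := hs_val h h1 h2 h3
    exact ⟨h.le_emp h1, op_mem_prod.2 ⟨(hn_coord h h1 h2).1, h4.1⟩, h4.2⟩
  · intro p q x ξ hp hq
    obtain ⟨h1, c, n, s, τ, rfl, h2, h3⟩ := h.mem_hecName.1 hp
    obtain ⟨s', τ', h4, h5⟩ := h.stem_mono hq h2
    exact h.mem_hecName.2 ⟨((h.le q p).1 hq).1, c, n, s', τ', rfl, h4, h5 _ h3⟩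
  · intro p x ξ hp hd
    have hpP := ((h.le p emp).1 hp).1
    obtain ⟨r, hr, hr'⟩ := hd p (h.refl hpP)
    obtain ⟨hrP, c, n, s0, τ0, rfl, hr2, hr3⟩ := h.mem_hecName.1 hr'
    have hcκ := (hn_coord h hrP hr2).1
    have hnm := hs_val h hrP hr2 hr3
    by_cases hex : ∃ s τ m, SetStr.mem (op c (op s τ)) p ∧ SetStr.mem (op n m) s
    · obtain ⟨s, τ, m, h2, h3⟩ := hex
      obtain ⟨s', τ', h4, h5⟩ := h.stem_mono hr h2
      have h6 := hs_eq h hrP hr2 h4 hr3 (h5 _ h3)
      rw [h.mem_hecName]
      refine ⟨hpP, c, n, s, τ, rfl, h2, ?_⟩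
      rw [h6]
      exact h3
    · exfalso
      have hb : ∀ s τ m, SetStr.mem (op c (op s τ)) p → Fn s m → GA.sub m n := by
        intro s τ m hz hs
        obtain ⟨k, hk, hs', -⟩ := hs_fun h hpP hz
        have hm : SetStr.mem m om := by
          rw [← hs.dom_eq, hs'.dom_eq]
          exact hk
        rcases (Ord.of_mem_om hm).sub_or_mem (Ord.of_mem_om hnm.1) with h1 | h1
        · exact h1
        · exact (hex ⟨s, τ, _, hz, hs.app_mem h1⟩).elim
      obtain ⟨q, s, τ, h1, h2, h3, -⟩ := h.stem_len hκ hcκ n hnm.1 p hpP hb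
      have hqP := ((h.le q p).1 h1).1
      obtain ⟨q', m, h4, h5, h6, h7, -⟩ := h.stem_ext hκ hqP h2 h3 hnm.1 (succ_mem_om hnm.2)
      obtain ⟨r', g1, g2⟩ := hd q' (h.trans hκ h4 h1)
      obtain ⟨hrP', c', n', s1, τ1, e1, g3, g4⟩ := h.mem_hecName.1 g2
      rw [op_inj] at e1
      obtain ⟨rfl, rfl⟩ := e1
      obtain ⟨s2, τ2, g5, g6⟩ := h.stem_mono g1 h7
      have g7 := hs_eq h hrP' g3 g5 g4 (g6 _ (mem_adj.2 (Or.inr rfl)))
      rw [← g7] at h6
      exact not_mem_self ξ (h6 ξ (mem_succ.2 (Or.inr rfl)))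
  · intro p x ξ η h1 h2
    obtain ⟨hp, c, n, s, τ, rfl, h3, h4⟩ := h.mem_hecName.1 h1
    obtain ⟨-, c', n', s', τ', e, h5, h6⟩ := h.mem_hecName.1 h2
    rw [op_inj] at e
    obtain ⟨rfl, rfl⟩ := e
    exact hs_eq h hp h3 h5 h4 h6
  · intro p x hp hx
    have hpP := ((h.le p emp).1 hp).1
    obtain ⟨c, hc, n, hn, rfl⟩ := mem_prod.1 hx
    obtain ⟨q, s, τ, m, h1, h2, h3, h4, -⟩ := h.stem_dom hκ hc hn hpP
    exact ⟨q, m, h1, h.mem_hecName.2 ⟨((h.le q p).1 h1).1, c, n, s, τ, rfl, h2, h3⟩⟩

private theorem ht_main (h : IsHec κ P L) (hκ : Ord κ) {b c p : M} (hb : SetStr.mem b κ) (hc : SetStr.mem c κ)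
    (hbc : SetStr.mem b c) (hp : SetStr.mem p P) :
    ∃ q n m m', SetStr.mem (op q p) L ∧ SetStr.mem n om ∧ m ≠ m' ∧
      SetStr.mem (op q (op (op b n) m)) (hecName κ P) ∧ SetStr.mem (op q (op (op c n) m')) (hecName κ P) := by
  have hex : ∃ p0 s τ, SetStr.mem (op p0 p) L ∧ SetStr.mem (op c (op s τ)) p0 := by
    by_cases hex : ∃ y, SetStr.mem (op c y) p
    · obtain ⟨y, hy⟩ := hex
      obtain ⟨c', s, τ, h1, -⟩ := ((h.cond p).1 hp).2.2 _ hy
      rw [op_inj] at h1
      obtain ⟨rfl, rfl⟩ := h1
      exact ⟨p, s, τ, h.refl hp, hy⟩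
    · push Not at hex
      obtain ⟨q, τ, h1, h2, -⟩ := h.add_coord hκ hp hc hex
      exact ⟨q, emp, τ, h1, h2⟩
  obtain ⟨p0, s, τ, h1, h2⟩ := hex
  have hp0 := ((h.le p0 p).1 h1).1
  obtain ⟨n, hn, hs, -⟩ := hs_fun h hp0 h2
  obtain ⟨q1, sb, τb, m, h3, h4, h5, hm, h6⟩ := h.stem_dom hκ hb hn hp0
  have hq1 := ((h.le q1 p0).1 h3).1
  have h7 : SetStr.mem (op c (op s τ)) q1 := (h6 c _ hbc).2 h2
  obtain ⟨q2, m', h8, hm', hk, h9, -⟩ := h.stem_ext hκ hq1 h7 hs hn (succ_mem_om hm)
  have hq2 := ((h.le q2 q1).1 h8).1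
  obtain ⟨sb', τb', g1, g2⟩ := h.stem_mono h8 h4
  refine ⟨q2, n, m, m', h.trans hκ h8 (h.trans hκ h3 h1), hn, ?_, ?_, ?_⟩
  · rintro rfl
    exact not_mem_self m (hk m (mem_succ.2 (Or.inr rfl)))
  · exact h.mem_hecName.2 ⟨hq2, b, n, sb', τb', rfl, g1, g2 _ h5⟩
  · exact h.mem_hecName.2 ⟨hq2, c, n, _, τ, rfl, h9, mem_adj.2 (Or.inr rfl)⟩

/-- MODULE ht.  The Hechler reals are different. -/
theorem IsHec.lowP (h : IsHec κ P L) (hκ : Ord κ) : LowP P L emp κ := by
  refine ⟨hecName κ P, h.hecName_FName hκ, ?_⟩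
  intro b c hb hc hbc p hp
  rcases (hκ.mem hb).tri (hκ.mem hc) with h1 | h1 | h1
  · exact ht_main h hκ hb hc h1 hp
  · exact (hbc h1).elim
  · obtain ⟨q, n, m, m', h2, h3, h4, h5, h6⟩ := ht_main h hκ hc hb h1 hp
    exact ⟨q, n, m', m, h2, h3, h4.symm, h6, h5⟩

end

end GA
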