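import Pool.Agent.GA.Bridge
import Pool.Agent.GA.Hec

/-!
# Hechler iterations: the notions of the statement and of the library
-/

universe u

namespace GA.Dp

open FirstOrder FirstOrder.Language SetStr

variable {M : Type u} [SetStr M] [IsZF M]

theorem below_iff {P c q : M} : Below P c q ↔ SetStr.mem q (below P c) := by
  rw [mem_below]
  unfold Below
  simp only [isOp_iff]

theorem isRes_iff {r p c : M} : IsRes r p c ↔ r = res p c := by
  unfold IsRes
  simp only [isOp_iff]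
  constructor
  · intro h
    exact ext (fun z => by rw [mem_res]; exact h z)
  · rintro rfl z
    exact mem_res

theorem below_eq (P c : M) : Below P c = fun q => SetStr.mem q (below P c) := by
  funext q
  exact propext below_iff

theorem forcedVal_iff {Q L τ u n m : M} :
    ForcedVal (fun q => SetStr.mem q Q) L τ u n m ↔ FV Q L τ u n m := by
  unfold ForcedVal FV
  simp only [rel_iff, isOp_iff]
  refine forall_congr' (fun v => imp_congr_right (fun _ => imp_congr_right (fun _ => ?_)))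
  constructor
  · rintro ⟨w, w', k, h1, h2, h3, h4, rfl, h5⟩
    exact ⟨w, w', h1, h2, h3, h4, h5⟩
  · rintro ⟨w, w', h1, h2, h3, h4, h5⟩
    exact ⟨w, w', _, h1, h2, h3, h4, rfl, h5⟩

theorem isRealName_iff {Q L τ : M} :
    IsRealName (fun q => SetStr.mem q Q) L τ ↔ RName Q L τ := by
  unfold IsRealName RName
  simp only [forcedVal_iff, isOmega_iff, isOp_iff, rel_iff]
  refine and_congr ?_ (and_congr Iff.rfl ?_)
  · constructor
    · intro h z hz
      obtain ⟨w, n, m, k, u, rfl, hn, hm, rfl, hu, rfl⟩ := h z hz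
      exact op_mem_prod.2 ⟨op_mem_prod.2 ⟨hn, hm⟩, hu⟩
    · intro h z hz
      obtain ⟨k, hk, u, hu, rfl⟩ := mem_prod.1 (h z hz)
      obtain ⟨n, hn, m, hm, rfl⟩ := mem_prod.1 hk
      exact ⟨om, n, m, _, u, rfl, hn, hm, rfl, hu, rfl⟩
  · constructor
    · intro h u n hu hn
      obtain ⟨v, m, h1, h2, h3, h4⟩ := h om u n rfl hu hn
      exact ⟨v, m, h1, h2, h3, h4⟩
    · rintro h w u n rfl hu hn
      obtain ⟨v, m, h1, h2, h3, h4⟩ := h u n hu hn
      exact ⟨v, m, h1, h2, h3, h4⟩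

theorem forcedLe_iff {Q L u τ τ' : M} :
    ForcedLe (fun q => SetStr.mem q Q) L u τ τ' ↔ NLe Q L u τ τ' := by
  unfold ForcedLe NLe
  simp only [forcedVal_iff, rel_iff]
  exact Iff.rfl

theorem forcedValLe_iff {Q L u τ n k : M} :
    ForcedValLe (fun q => SetStr.mem q Q) L u τ n k ↔ NLeV Q L u τ n k := by
  unfold ForcedValLe NLeV
  simp only [forcedVal_iff, rel_iff]
  exact Iff.rfl

theorem isFinSeq_iff {s : M} : IsFinSeq s ↔ SetStr.mem s fseq := by
  rw [mem_fseq]
  unfold IsFinSeq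
  simp only [isOmega_iff, isFun_iff]
  constructor
  · rintro ⟨w, n, rfl, hn, h⟩
    exact ⟨n, hn, h⟩
  · rintro ⟨n, hn, h⟩
    exact ⟨om, n, rfl, hn, h⟩

theorem hechlerLe_iff {P L p q : M} : HechlerLe P L p q ↔ HLe P L p q := by
  unfold HechlerLe HLe
  simp only [isOp_iff, rel_iff, isRes_iff, below_eq, forcedLe_iff, forcedValLe_iff]
  constructor
  · intro h c s' τ' hc
    obtain ⟨_, s, τ, rfl, h1, h2, h3⟩ := h c _ s' τ' rfl hc
    obtain ⟨h4, h5⟩ := h3 _ rfl
    exact ⟨s, τ, h1, h2, h4, h5⟩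
  · rintro h c _ s' τ' rfl hc
    obtain ⟨s, τ, h1, h2, h3, h4⟩ := h c s' τ' hc
    refine ⟨_, s, τ, rfl, h1, h2, ?_⟩
    rintro _ rfl
    exact ⟨h3, h4⟩

theorem isHechler_iff {κ P L o : M} : IsHechler κ P L o ↔ IsHec κ P L ∧ o = emp := by
  unfold IsHechler
  rw [isEmp_iff]
  simp only [isFin_iff, rel_iff, isOp_iff, isFinSeq_iff, below_eq, isRealName_iff, hechlerLe_iff]
  constructor
  · rintro ⟨h1, h2, h3, h4⟩
    refine ⟨⟨fun p => ?_, fun z hz => ?_, h3⟩, h4⟩
    · refine (h1 p).trans (and_congr Iff.rfl (and_congr Iff.rfl ?_))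
      refine forall_congr' (fun z => imp_congr_right (fun _ => ?_))
      constructor
      · rintro ⟨c, _, s, τ, rfl, rfl, h5, h6, h7⟩
        exact ⟨c, s, τ, rfl, h5, h6, h7⟩
      · rintro ⟨c, s, τ, rfl, h5, h6, h7⟩
        exact ⟨c, _, s, τ, rfl, rfl, h5, h6, h7⟩
    · exact h2 z hz
  · rintro ⟨h, rfl⟩
    refine ⟨fun p => ?_, fun z hz => h.rel z hz, h.le, rfl⟩
    refine (h.cond p).trans (and_congr Iff.rfl (and_congr Iff.rfl ?_))
    refine forall_congr' (fun z => imp_congr_right (fun _ => ?_))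
    constructor
    · rintro ⟨c, s, τ, rfl, h5, h6, h7⟩
      exact ⟨c, _, s, τ, rfl, rfl, h5, h6, h7⟩
    · rintro ⟨c, _, s, τ, rfl, rfl, h5, h6, h7⟩
      exact ⟨c, s, τ, rfl, h5, h6, h7⟩

end GA.Dp
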