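import Pool.Agent.GA.Pair

/-!
# The two ordinals of the transfer theorem are cardinals
-/

universe u w

namespace GA

variable {M : Type u} [SetStr M] [IsZF M]

/-- `κ` is a cardinal: an ordinal that is not a surjective image of a smaller ordinal. -/
def IsCd (κ : M) : Prop :=
  Ord κ ∧ ∀ μ f, SetStr.mem μ κ → Fn f μ → ∃ y, SetStr.mem y κ ∧ ∀ x, SetStr.mem x μ → app f x ≠ y

/-- A surjection from an ordinal gives an injection in the other direction. -/
theorem le_of_surj {μ κ f : M} (hμ : Ord μ) (hs : ∀ y, SetStr.mem y κ → ∃ x, SetStr.mem x μ ∧ app f x = y) :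
    Le κ μ := by
  have hS : ∀ y x, SetStr.mem x (sep μ (fun x => app f x = y ∧ ∀ z, SetStr.mem z x → ¬ app f z = y)) ↔
      SetStr.mem x μ ∧ app f x = y ∧ ∀ z, SetStr.mem z x → ¬ app f z = y := fun y x => mem_sep (by (repeat' (with_reducible first | apply pf_hh | apply pd_Spr | apply pd_Inj | apply pf_har | apply pd_Le | apply pf_fins | apply pf_card | apply pd_Bij | apply pd_Fini | apply pd_Big | apply pd_Ord | apply pd_Tr | apply pd_Ind | apply pf_succ | apply pf_funs | apply pf_prod | apply pf_lam | apply pd_Fn | apply pf_app | apply pf_ran | apply pf_dom | apply PF.img | apply PF.pow | apply PD.sub | apply PF.adj | apply PF.un | apply PF.sUn | apply PF.op | apply PF.pr | apply PF.sep | exact PF.var _ | exact PF.const _ | apply PD.eq | apply PD.mem | apply PD.not | apply PD.iff | apply PD.or | apply PD.and | apply PD.imp | apply PD.ex | apply PD.all | exact PD.const _ | assumption | refine PF.comp1 (F := _) (by assumption) ?_ | refine PF.comp2 (F := _) (by assumption) ?_ ?_ | refine PF.comp3 (F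 := _) (by assumption) ?_ ?_ ?_ | refine PD.app1 (R := _) (by assumption) ?_ | refine PD.app2 (R := _) (by assumption) ?_ ?_ | refine PD.app3 (R := _) (by assumption) ?_ ?_ ?_ | refine PD.app4 (R := _) (by assumption) ?_ ?_ ?_ ?_)))
  have key : ∀ y, SetStr.mem y κ → ∃ x, SetStr.mem x μ ∧ app f x = y ∧
      sUn (sep μ (fun x => app f x = y ∧ ∀ z, SetStr.mem z x → ¬ app f z = y)) = x := by
    intro y hy
    obtain ⟨x0, hx0, he0⟩ := hs y hy
    obtain ⟨x, hx, ⟨hxμ, hxe⟩, hmin⟩ := Ord.least (P := fun x => SetStr.mem x μ ∧ app f x = y) (by (repeat' (with_reducible first | apply pf_hh | apply pd_Spr | apply pd_Inj | apply pf_har | apply pd_Le | apply pf_fins | apply pf_card | apply pd_Bij | apply pd_Fini | apply pd_Big | apply pd_Ord | apply pd_Tr | apply pd_Ind | apply pf_succ | apply pf_funs | apply pf_prod | apply pf_lam | apply pd_Fn | apply pf_app | apply pf_ran | apply pf_dom | apply PF.img | apply PF.pow | apply PD.sub | apply PF.adj | apply PF.un | apply PF.sUn | apply PF.op | apply PF.pr | apply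 PF.sep | exact PF.var _ | exact PF.const _ | apply PD.eq | apply PD.mem | apply PD.not | apply PD.iff | apply PD.or | apply PD.and | apply PD.imp | apply PD.ex | apply PD.all | exact PD.const _ | assumption | refine PF.comp1 (F := _) (by assumption) ?_ | refine PF.comp2 (F := _) (by assumption) ?_ ?_ | refine PF.comp3 (F := _) (by assumption) ?_ ?_ ?_ | refine PD.app1 (R := _) (by assumption) ?_ | refine PD.app2 (R := _) (by assumption) ?_ ?_ | refine PD.app3 (R := _) (by assumption) ?_ ?_ ?_ | refine PD.app4 (R := _) (by assumption) ?_ ?_ ?_ ?_)))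
      ⟨x0, hμ.mem hx0, hx0, he0⟩
    have hmin' : ∀ z, SetStr.mem z x → ¬ app f z = y := fun z hz he => hmin z hz ⟨hμ.trans hxμ hz, he⟩
    refine ⟨x, hxμ, hxe, ext (fun z => ?_)⟩
    rw [mem_sUn]
    constructor
    · rintro ⟨x', hx', hz⟩
      rw [hS] at hx'
      have : x' = x := by
        rcases (hμ.mem hx'.1).tri hx with h | h | h
        · exact (hmin' x' h hx'.2.1).elim
        · exact h
        · exact (hx'.2.2 x h hxe).elim
      rw [← this]
      exact hz
    · intro hz
      exact ⟨x, (hS y x).2 ⟨hxμ, hxe, hmin'⟩, hz⟩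
  refine Le.of_fun (F := fun y => sUn (sep μ (fun x => app f x = y ∧ ∀ z, SetStr.mem z x → ¬ app f z = y)))
    (by (repeat' (with_reducible first | apply pf_hh | apply pd_Spr | apply pd_Inj | apply pf_har | apply pd_Le | apply pf_fins | apply pf_card | apply pd_Bij | apply pd_Fini | apply pd_Big | apply pd_Ord | apply pd_Tr | apply pd_Ind | apply pf_succ | apply pf_funs | apply pf_prod | apply pf_lam | apply pd_Fn | apply pf_app | apply pf_ran | apply pf_dom | apply PF.img | apply PF.pow | apply PD.sub | apply PF.adj | apply PF.un | apply PF.sUn | apply PF.op | apply PF.pr | apply PF.sep | exact PF.var _ | exact PF.const _ | apply PD.eq | apply PD.mem | apply PD.not | apply PD.iff | apply PD.or | apply PD.and | apply PD.imp | apply PD.ex | apply PD.all | exact PD.const _ | assumption | refine PF.comp1 (F := _) (by assumption) ?_ | refine PF.comp2 (F := _) (by assumption) ?_ ?_ | refine PF.comp3 (F := _) (by assumption) ?_ ?_ ?_ | refine PD.app1 (R := _) (by assumption) ?_ | refine PD.app2 (R := _)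 (by assumption) ?_ ?_ | refine PD.app3 (R := _) (by assumption) ?_ ?_ ?_ | refine PD.app4 (R := _) (by assumption) ?_ ?_ ?_ ?_))) ?_ ?_
  · intro y hy
    obtain ⟨x, hx, -, he⟩ := key y hy
    rw [he]
    exact hx
  · intro y z hy hz he
    obtain ⟨x, -, h1, h2⟩ := key y hy
    obtain ⟨x', -, h3, h4⟩ := key z hz
    rw [← h1, ← h3, ← h2, ← h4, he]

theorem isCd_of_not_le {κ : M} (hκ : Ord κ) (h : ∀ μ, SetStr.mem μ κ → ¬ Le κ μ) : IsCd κ := by
  refine ⟨hκ, fun μ f hμ _ => ?_⟩
  by_contra hcon
  push Not at hcon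
  exact h μ hμ (le_of_surj (hκ.mem hμ) hcon)

/-- Hartogs numbers are cardinals. -/
theorem isCd_har (a : M) : IsCd (har a) := by
  refine isCd_of_not_le (Ord.har a) (fun μ hμ hle => ?_)
  rw [mem_har_iff ((Ord.har a).mem hμ)] at hμ
  exact not_le_har a (hle.trans hμ)

theorem isCd_hh (a : M) : IsCd (hh a) := isCd_har _

/-- Closure ordinals of `hh` are cardinals. -/
theorem isCd_closed {κ : M} (hκ : Big κ) (hη : SetStr.mem (hh om) κ) (hcl : ∀ l, Big l → SetStr.mem l κ → SetStr.mem (hh l) κ) :
    IsCd κ := by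
  have h0 : SetStr.mem (om : M) κ := by
    have := mem_hh_self (Ord.om (M := M))
    exact hκ.1.trans hη this
  refine isCd_of_not_le hκ.1 (fun μ hμ hle => ?_)
  have hμo := hκ.1.mem hμ
  have key : ∀ l, Big l → SetStr.mem l κ → ¬ Le κ l := by
    intro l hl hlκ h
    have h1 : GA.sub (hh l) κ := fun z hz => hκ.1.trans (hcl l hl hlκ) hz
    have h2 : Le (hh l) l := (Le.of_sub h1).trans h
    exact not_inj_hh l (h2.trans Inj.self)
  rcases Ord.om.sub_or_mem hμo with h1 | h1
  · exact key μ ⟨hμo, h1⟩ hμ hle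
  · refine key om Big.om h0 (hle.trans (Le.of_sub (fun z hz => ?_)))
    exact Ord.om.trans h1 hz

/-- THEOREM B with cardinals. -/
theorem exists_two_cd (M : Type u) [SetStr M] [IsZF M] : ∃ κa κb : M, Big κa ∧ Big κb ∧
    IsCd κa ∧ IsCd κb ∧
    (∀ (N : Type w) [SetStr N] [IsZF N] (j : M → N), Transfer j κa → Phi N) ∧
    ∀ (N : Type w) [SetStr N] [IsZF N] (j : M → N), Transfer j κb → ¬ Phi N := by
  obtain ⟨κb, hb, hη, hcl⟩ := exists_closed (M := M)
  exact ⟨hh (hh om), κb, Big.om.hh.hh, hb, isCd_hh _, isCd_closed hb hη hcl, fun N _ _ j h => h.phi,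
    fun N _ _ j h => Transfer.not_phi hb hη hcl h⟩

end GA
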