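import Pool.Agent.GA.Card

/-!
# Function names; the internal interface between forcing and the three classes of forcings

`P`, `L`, `o` as in `Fc.lean`: `L` is a set of ordered pairs, `op q p ∈ L` means `q ≤ p`.
-/

universe u

namespace GA

variable {M : Type u} [SetStr M] [IsZF M]

/-- `A` is a name of a function from `X` to `Lam` below the condition `p0`: a set of triples
`op p (op x ξ)` (read: `p ≤ p0` and `p ⊩ f(x) = ξ`). -/
structure FName (P L p0 X Lam A : M) : Prop where
  top : SetStr.mem p0 P
  fld : ∀ p x ξ, SetStr.mem (op p (op x ξ)) A → SetStr.mem (op p p0) L ∧ SetStr.mem x X ∧ SetStr.mem ξ Lam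
  mono : ∀ p q x ξ, SetStr.mem (op p (op x ξ)) A → SetStr.mem (op q p) L → SetStr.mem (op q (op x ξ)) A
  reg : ∀ p x ξ, SetStr.mem (op p p0) L →
    (∀ q, SetStr.mem (op q p) L → ∃ r, SetStr.mem (op r q) L ∧ SetStr.mem (op r (op x ξ)) A) → SetStr.mem (op p (op x ξ)) A
  uniq : ∀ p x ξ η, SetStr.mem (op p (op x ξ)) A → SetStr.mem (op p (op x η)) A → ξ = η
  tot : ∀ p x, SetStr.mem (op p p0) L → SetStr.mem x X → ∃ q ξ, SetStr.mem (op q p) L ∧ SetStr.mem (op q (op x ξ)) A

/-- Covering: the possible values of a function into the ordinal `l` lie in countable sets. -/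
def CovP (P L : M) : Prop :=
  ∀ p0 X l A, Ord l → FName P L p0 X l A →
    ∃ E, Fn E X ∧ (∀ x, SetStr.mem x X → SetStr.mem (app E x) (funs om l)) ∧
      ∀ p x ξ, SetStr.mem (op p (op x ξ)) A → SetStr.mem ξ (ran (app E x))

/-- Names of sequences of reals are coded by functions from omega to `κ`. -/
def UpP (P L κ : M) : Prop :=
  ∀ p0 ν A, FName P L p0 (prod ν om) om A →
    ∃ D, Fn D ν ∧ (∀ i, SetStr.mem i ν → SetStr.mem (app D i) (funs om κ)) ∧
      ∀ i j, SetStr.mem i ν → SetStr.mem j ν → app D i = app D j →
        ∀ p n m, SetStr.mem (op p (op (op i n) m)) A → SetStr.mem (op p (op (op j n) m)) A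

/-- There is a name of `κ` distinct reals. -/
def LowP (P L o κ : M) : Prop :=
  ∃ A, FName P L o (prod κ om) om A ∧
    ∀ b c, SetStr.mem b κ → SetStr.mem c κ → b ≠ c → ∀ p, SetStr.mem p P →
      ∃ q n m m', SetStr.mem (op q p) L ∧ SetStr.mem n om ∧ m ≠ m' ∧
        SetStr.mem (op q (op (op b n) m)) A ∧ SetStr.mem (op q (op (op c n) m')) A

/-- `f` is a functional relation. -/
def Fun1 (f : M) : Prop := ∀ x y z, SetStr.mem (op x y) f → SetStr.mem (op x z) f → y = z

theorem pd_Fun1 {f : (ℕ → M) → M} (hf : PF f) : PD (fun v => Fun1 (f v)) :=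
  PD.app1 (R := fun x => Fun1 x) (by unfold Fun1; (repeat' (with_reducible first | apply pf_hh | apply pd_Spr | apply pd_Inj | apply pf_har | apply pd_Le | apply pf_fins | apply pf_card | apply pd_Bij | apply pd_Fini | apply pd_Big | apply pd_Ord | apply pd_Tr | apply pd_Ind | apply pf_succ | apply pf_funs | apply pf_prod | apply pf_lam | apply pd_Fn | apply pf_app | apply pf_ran | apply pf_dom | apply PF.img | apply PF.pow | apply PD.sub | apply PF.adj | apply PF.un | apply PF.sUn | apply PF.op | apply PF.pr | apply PF.sep | exact PF.var _ | exact PF.const _ | apply PD.eq | apply PD.mem | apply PD.not | apply PD.iff | apply PD.or | apply PD.and | apply PD.imp | apply PD.ex | apply PD.all | exact PD.const _ | assumption | refine PF.comp1 (F := _) (by assumption) ?_ | refine PF.comp2 (F := _) (by assumption) ?_ ?_ | refine PF.comp3 (F := _) (by assumption) ?_ ?_ ?_ | refine PD.app1 (R := _) (by assumption) ?_ | refine PD.app2 (R := _) (by assumption) ?_ ?_ | refine PD.app3 (R := _) (by assumption) ?_ ?_ ?_ | refine PD.app4 (R := _) (by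 assumption) ?_ ?_ ?_ ?_))) hf


/-- The set of finite partial functions from `K` to `Y`. -/
noncomputable def pfin (K Y : M) : M := sep (fins (prod K Y)) (fun f => Fun1 f)

theorem mem_pfin {K Y f : M} : SetStr.mem f (pfin K Y) ↔ GA.sub f (prod K Y) ∧ Fini f ∧ Fun1 f := by
  unfold pfin
  rw [mem_sep (by (repeat' (with_reducible first | apply pd_Fun1 | apply pf_hh | apply pd_Spr | apply pd_Inj | apply pf_har | apply pd_Le | apply pf_fins | apply pf_card | apply pd_Bij | apply pd_Fini | apply pd_Big | apply pd_Ord | apply pd_Tr | apply pd_Ind | apply pf_succ | apply pf_funs | apply pf_prod | apply pf_lam | apply pd_Fn | apply pf_app | apply pf_ran | apply pf_dom | apply PF.img | apply PF.pow | apply PD.sub | apply PF.adj | apply PF.un | apply PF.sUn | apply PF.op | apply PF.pr | apply PF.sep | exact PF.var _ | exact PF.const _ | apply PD.eq | apply PD.mem | apply PD.not | apply PD.iff | apply PD.or | apply PD.and | apply PD.imp | apply PD.ex | apply PD.all | exact PD.const _ | assumption | refine PF.comp1 (F := _) (by assumption) ?_ |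 refine PF.comp2 (F := _) (by assumption) ?_ ?_ | refine PF.comp3 (F := _) (by assumption) ?_ ?_ ?_ | refine PD.app1 (R := _) (by assumption) ?_ | refine PD.app2 (R := _) (by assumption) ?_ ?_ | refine PD.app3 (R := _) (by assumption) ?_ ?_ ?_ | refine PD.app4 (R := _) (by assumption) ?_ ?_ ?_ ?_))), mem_fins]
  tauto

theorem pf_pfin {f g : (ℕ → M) → M} (hf : PF f) (hg : PF g) : PF (fun v => pfin (f v) (g v)) :=
  PF.comp2 (F := fun x y => pfin x y) (by unfold pfin; (repeat' (with_reducible first | apply pd_Fun1 | apply pf_hh | apply pd_Spr | apply pd_Inj | apply pf_har | apply pd_Le | apply pf_fins | apply pf_card | apply pd_Bij | apply pd_Fini | apply pd_Big | apply pd_Ord | apply pd_Tr | apply pd_Ind | apply pf_succ | apply pf_funs | apply pf_prod | apply pf_lam | apply pd_Fn | apply pf_app | apply pf_ran | apply pf_dom | apply PF.img | apply PF.pow | apply PD.sub | apply PF.adj | apply PF.un | apply PF.sUn | apply PF.op | apply PF.pr | apply PF.sep | exact PF.var _ | exact PF.const _ | apply PD.eq | apply PD.mem | apply PD.not |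 apply PD.iff | apply PD.or | apply PD.and | apply PD.imp | apply PD.ex | apply PD.all | exact PD.const _ | assumption | refine PF.comp1 (F := _) (by assumption) ?_ | refine PF.comp2 (F := _) (by assumption) ?_ ?_ | refine PF.comp3 (F := _) (by assumption) ?_ ?_ ?_ | refine PD.app1 (R := _) (by assumption) ?_ | refine PD.app2 (R := _) (by assumption) ?_ ?_ | refine PD.app3 (R := _) (by assumption) ?_ ?_ ?_ | refine PD.app4 (R := _) (by assumption) ?_ ?_ ?_ ?_))) hf hg


/-- `a` injects into an ordinal. -/
def WOd (a : M) : Prop := ∃ μ, Ord μ ∧ Le a μ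

theorem pd_WOd {f : (ℕ → M) → M} (hf : PF f) : PD (fun v => WOd (f v)) :=
  PD.app1 (R := fun x => WOd x) (by unfold WOd; (repeat' (with_reducible first | apply pf_pfin | apply pd_Fun1 | apply pf_hh | apply pd_Spr | apply pd_Inj | apply pf_har | apply pd_Le | apply pf_fins | apply pf_card | apply pd_Bij | apply pd_Fini | apply pd_Big | apply pd_Ord | apply pd_Tr | apply pd_Ind | apply pf_succ | apply pf_funs | apply pf_prod | apply pf_lam | apply pd_Fn | apply pf_app | apply pf_ran | apply pf_dom | apply PF.img | apply PF.pow | apply PD.sub | apply PF.adj | apply PF.un | apply PF.sUn | apply PF.op | apply PF.pr | apply PF.sep | exact PF.var _ | exact PF.const _ | apply PD.eq | apply PD.mem | apply PD.not | apply PD.iff | apply PD.or | apply PD.and | apply PD.imp | apply PD.ex | apply PD.all | exact PD.const _ | assumption | refine PF.comp1 (F := _) (by assumption) ?_ | refine PF.comp2 (F := _) (by assumption) ?_ ?_ | refine PF.comp3 (F := _) (by assumption) ?_ ?_ ?_ | refine PD.app1 (R := _) (by assumption) ?_ | refine PD.app2 (R :=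 _) (by assumption) ?_ ?_ | refine PD.app3 (R := _) (by assumption) ?_ ?_ ?_ | refine PD.app4 (R := _) (by assumption) ?_ ?_ ?_ ?_))) hf


/-- `a` injects into an ordinal and into the functions from omega to `κ`. -/
def Cd (κ a : M) : Prop := WOd a ∧ Le a (funs om κ)

end GA
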