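import Pool.Agent.GA.Om

/-!
# Forcing in a model of ZF: the forcing relation

`L` is a set of ordered pairs of the model `M`; `op q p ∈ L` means `q ≤ p`.  Every element `x` of `M`
is a name: only its elements of the form `op z s` (`z` a name, `s` a condition) matter.
-/

universe u

namespace GA

open FirstOrder FirstOrder.Language

variable {M : Type u} [SetStr M] [IsZF M]

/-- `P` with the relation `L` (a set of ordered pairs; `op q p ∈ L` means `q ≤ p`) and the largest
element `o` is a forcing notion. -/
structure IsForcing (P L o : M) : Prop where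
  fld : ∀ q p, SetStr.mem (op q p) L → SetStr.mem q P ∧ SetStr.mem p P
  refl : ∀ p, SetStr.mem p P → SetStr.mem (op p p) L
  trans : ∀ r q p, SetStr.mem (op r q) L → SetStr.mem (op q p) L → SetStr.mem (op r p) L
  top_mem : SetStr.mem o P
  le_top : ∀ p, SetStr.mem p P → SetStr.mem (op p o) L

/-- First half of the clause for `p ⊩ x = y`: below every `q ≤ p` which forces an element `z` of `x`
into `x` there is `r` which forces `z` to be equal to an element of `y`. -/
def Half (L : M) (R : M → M → M → Prop) (p x y : M) : Prop :=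
  ∀ z s q, SetStr.mem (op z s) x → SetStr.mem (op q p) L → SetStr.mem (op q s) L →
    ∃ r w s', SetStr.mem (op r q) L ∧ SetStr.mem (op w s') y ∧ SetStr.mem (op r s') L ∧ R r z w

/-- The clause for `p ⊩ x = y`, where `R r z w` stands for `r ⊩ z = w`: every element of `x` is forced
to be equal to an element of `y`, and vice versa. -/
def Clause (L : M) (R : M → M → M → Prop) (p x y : M) : Prop :=
  Half L R p x y ∧ Half L (fun r w z => R r z w) p y x

/-- `p ⊩ x = y`: the triple `(p, x, y)` belongs to a set `t` of `M` all of whose triples satisfy the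
clause with respect to `t`. -/
def Feq (L p x y : M) : Prop :=
  ∃ t, SetStr.mem (op p (op x y)) t ∧ ∀ p' x' y', SetStr.mem (op p' (op x' y')) t →
    Clause L (fun r z w => SetStr.mem (op r (op z w)) t) p' x' y'

/-- `p ⊩ x ∈ y`. -/
def Fmem (L p x y : M) : Prop :=
  ∀ q, SetStr.mem (op q p) L → ∃ r w s, SetStr.mem (op r q) L ∧ SetStr.mem (op w s) y ∧ SetStr.mem (op r s) L ∧ Feq L r x w

/-- Atomic formulas `x ∈ y`. -/
def Frel (L p : M) : {l : ℕ} → LST.Relations l → (Fin l → M) → Prop
  | _, .mem, v => Fmem L p (v 0) (v 1)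

/-- `p ⊩ φ`. -/
def Forces (L : M) {α : Type} : {n : ℕ} → LST.BoundedFormula α n → M → (α → M) → (Fin n → M) → Prop
  | _, .falsum, _, _, _ => False
  | _, .equal t₁ t₂, p, v, xs => Feq L p (t₁.realize (Sum.elim v xs)) (t₂.realize (Sum.elim v xs))
  | _, .rel R ts, p, v, xs => Frel L p R (fun i => (ts i).realize (Sum.elim v xs))
  | _, .imp φ ψ, p, v, xs => ∀ q, SetStr.mem (op q p) L → Forces L φ q v xs → Forces L ψ q v xs
  | _, .all φ, p, v, xs => ∀ x, Forces L φ p v (Fin.snoc xs x)

theorem Half.mono {L : M} {R S : M → M → M → Prop} (h : ∀ r z w, R r z w → S r z w) {p x y : M}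
    (hR : Half L R p x y) : Half L S p x y := by
  intro z s q h1 h2 h3
  obtain ⟨r, w, s', h4, h5, h6, h7⟩ := hR z s q h1 h2 h3
  exact ⟨r, w, s', h4, h5, h6, h _ _ _ h7⟩

theorem Clause.mono {L : M} {R S : M → M → M → Prop} (h : ∀ r z w, R r z w → S r z w) {p x y : M}
    (hR : Clause L R p x y) : Clause L S p x y :=
  ⟨hR.1.mono h, hR.2.mono (fun r z w => h r w z)⟩

theorem Feq.clause {L p x y : M} (h : Feq L p x y) : Clause L (Feq L) p x y := by
  obtain ⟨t, ht, h⟩ := h
  exact (h _ _ _ ht).mono (fun r z w hr => ⟨t, hr, h⟩)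

theorem pd_Half {R : M → M → M → Prop} (hR : PD (fun v => R (v 0) (v 1) (v 2)))
    {L p x y : (ℕ → M) → M} (hL : PF L) (hp : PF p) (hx : PF x) (hy : PF y) :
    PD (fun v => Half (L v) R (p v) (x v) (y v)) := by
  refine PD.app4 (R := fun L p x y => Half L R p x y) ?_ hL hp hx hy
  unfold Half
  refine PD.all (PD.all (PD.all (PD.imp (by (repeat' (with_reducible first | apply pd_Tr | apply pd_Ind | apply pf_succ | apply pf_funs | apply pf_prod | apply pf_lam | apply pd_Fn | apply pf_app | apply pf_ran | apply pf_dom | apply PF.img | apply PF.pow | apply PD.sub | apply PF.adj | apply PF.un | apply PF.sUn | apply PF.op | apply PF.pr | apply PF.sep | exact PF.var _ | exact PF.const _ | apply PD.eq | apply PD.mem | apply PD.not | apply PD.iff | apply PD.or | apply PD.and | apply PD.imp | apply PD.ex | apply PD.all | exact PD.const _ | assumption | refine PF.comp1 (F := _) (by assumption) ?_ | refine PF.comp2 (F := _) (by assumption) ?_ ?_ | refine PF.comp3 (F := _) (by assumption) ?_ ?_ ?_ | refine PD.app1 (R := _) (by assumption) ?_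 | refine PD.app2 (R := _) (by assumption) ?_ ?_ | refine PD.app3 (R := _) (by assumption) ?_ ?_ ?_ | refine PD.app4 (R := _) (by assumption) ?_ ?_ ?_ ?_))) (PD.imp (by (repeat' (with_reducible first | apply pd_Tr | apply pd_Ind | apply pf_succ | apply pf_funs | apply pf_prod | apply pf_lam | apply pd_Fn | apply pf_app | apply pf_ran | apply pf_dom | apply PF.img | apply PF.pow | apply PD.sub | apply PF.adj | apply PF.un | apply PF.sUn | apply PF.op | apply PF.pr | apply PF.sep | exact PF.var _ | exact PF.const _ | apply PD.eq | apply PD.mem | apply PD.not | apply PD.iff | apply PD.or | apply PD.and | apply PD.imp | apply PD.ex | apply PD.all | exact PD.const _ | assumption | refine PF.comp1 (F := _) (by assumption) ?_ | refine PF.comp2 (F := _) (by assumption) ?_ ?_ | refine PF.comp3 (F := _) (by assumption) ?_ ?_ ?_ | refine PD.app1 (R := _) (by assumption) ?_ | refine PD.app2 (R := _) (by assumption) ?_ ?_ | refine PD.app3 (R := _) (by assumption) ?_ ?_ ?_ | refine PD.app4 (R := _) (by assumption) ?_ ?_ ?_ ?_))) (PD.imp (by (repeat'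 (with_reducible first | apply pd_Tr | apply pd_Ind | apply pf_succ | apply pf_funs | apply pf_prod | apply pf_lam | apply pd_Fn | apply pf_app | apply pf_ran | apply pf_dom | apply PF.img | apply PF.pow | apply PD.sub | apply PF.adj | apply PF.un | apply PF.sUn | apply PF.op | apply PF.pr | apply PF.sep | exact PF.var _ | exact PF.const _ | apply PD.eq | apply PD.mem | apply PD.not | apply PD.iff | apply PD.or | apply PD.and | apply PD.imp | apply PD.ex | apply PD.all | exact PD.const _ | assumption | refine PF.comp1 (F := _) (by assumption) ?_ | refine PF.comp2 (F := _) (by assumption) ?_ ?_ | refine PF.comp3 (F := _) (by assumption) ?_ ?_ ?_ | refine PD.app1 (R := _) (by assumption) ?_ | refine PD.app2 (R := _) (by assumption) ?_ ?_ | refine PD.app3 (R := _) (by assumption) ?_ ?_ ?_ | refine PD.app4 (R := _) (by assumption) ?_ ?_ ?_ ?_))) ?_)))))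
  refine PD.ex (PD.ex (PD.ex (PD.and (by (repeat' (with_reducible first | apply pd_Tr | apply pd_Ind | apply pf_succ | apply pf_funs | apply pf_prod | apply pf_lam | apply pd_Fn | apply pf_app | apply pf_ran | apply pf_dom | apply PF.img | apply PF.pow | apply PD.sub | apply PF.adj | apply PF.un | apply PF.sUn | apply PF.op | apply PF.pr | apply PF.sep | exact PF.var _ | exact PF.const _ | apply PD.eq | apply PD.mem | apply PD.not | apply PD.iff | apply PD.or | apply PD.and | apply PD.imp | apply PD.ex | apply PD.all | exact PD.const _ | assumption | refine PF.comp1 (F := _) (by assumption) ?_ | refine PF.comp2 (F := _) (by assumption) ?_ ?_ | refine PF.comp3 (F := _) (by assumption) ?_ ?_ ?_ | refine PD.app1 (R := _) (by assumption) ?_ | refine PD.app2 (R := _) (by assumption) ?_ ?_ | refine PD.app3 (R := _) (by assumption) ?_ ?_ ?_ | refine PD.app4 (R := _) (by assumption) ?_ ?_ ?_ ?_))) (PD.and (by (repeat' (with_reducible first | apply pd_Tr | apply pd_Ind | apply pf_succ | apply pf_funs | apply pf_prod | apply pf_lam | apply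 pd_Fn | apply pf_app | apply pf_ran | apply pf_dom | apply PF.img | apply PF.pow | apply PD.sub | apply PF.adj | apply PF.un | apply PF.sUn | apply PF.op | apply PF.pr | apply PF.sep | exact PF.var _ | exact PF.const _ | apply PD.eq | apply PD.mem | apply PD.not | apply PD.iff | apply PD.or | apply PD.and | apply PD.imp | apply PD.ex | apply PD.all | exact PD.const _ | assumption | refine PF.comp1 (F := _) (by assumption) ?_ | refine PF.comp2 (F := _) (by assumption) ?_ ?_ | refine PF.comp3 (F := _) (by assumption) ?_ ?_ ?_ | refine PD.app1 (R := _) (by assumption) ?_ | refine PD.app2 (R := _) (by assumption) ?_ ?_ | refine PD.app3 (R := _) (by assumption) ?_ ?_ ?_ | refine PD.app4 (R := _) (by assumption) ?_ ?_ ?_ ?_))) (PD.and (by (repeat' (with_reducible first | apply pd_Tr | apply pd_Ind | apply pf_succ | apply pf_funs | apply pf_prod | apply pf_lam | apply pd_Fn | apply pf_app | apply pf_ran | apply pf_dom | apply PF.img | apply PF.pow | apply PD.sub | apply PF.adj | apply PF.un | apply PF.sUn | apply PF.op | apply PF.pr | apply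 PF.sep | exact PF.var _ | exact PF.const _ | apply PD.eq | apply PD.mem | apply PD.not | apply PD.iff | apply PD.or | apply PD.and | apply PD.imp | apply PD.ex | apply PD.all | exact PD.const _ | assumption | refine PF.comp1 (F := _) (by assumption) ?_ | refine PF.comp2 (F := _) (by assumption) ?_ ?_ | refine PF.comp3 (F := _) (by assumption) ?_ ?_ ?_ | refine PD.app1 (R := _) (by assumption) ?_ | refine PD.app2 (R := _) (by assumption) ?_ ?_ | refine PD.app3 (R := _) (by assumption) ?_ ?_ ?_ | refine PD.app4 (R := _) (by assumption) ?_ ?_ ?_ ?_))) ?_)))))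
  exact PD.app3 hR (by (repeat' (with_reducible first | apply pd_Tr | apply pd_Ind | apply pf_succ | apply pf_funs | apply pf_prod | apply pf_lam | apply pd_Fn | apply pf_app | apply pf_ran | apply pf_dom | apply PF.img | apply PF.pow | apply PD.sub | apply PF.adj | apply PF.un | apply PF.sUn | apply PF.op | apply PF.pr | apply PF.sep | exact PF.var _ | exact PF.const _ | apply PD.eq | apply PD.mem | apply PD.not | apply PD.iff | apply PD.or | apply PD.and | apply PD.imp | apply PD.ex | apply PD.all | exact PD.const _ | assumption | refine PF.comp1 (F := _) (by assumption) ?_ | refine PF.comp2 (F := _) (by assumption) ?_ ?_ | refine PF.comp3 (F := _) (by assumption) ?_ ?_ ?_ | refine PD.app1 (R := _) (by assumption) ?_ | refine PD.app2 (R := _) (by assumption) ?_ ?_ | refine PD.app3 (R := _) (by assumption) ?_ ?_ ?_ | refine PD.app4 (R := _) (by assumption) ?_ ?_ ?_ ?_))) (by (repeat' (with_reducible first | apply pd_Tr | apply pd_Ind | apply pf_succ | apply pf_funs | apply pf_prod | apply pf_lam | apply pd_Fn | apply pf_app | apply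 pf_ran | apply pf_dom | apply PF.img | apply PF.pow | apply PD.sub | apply PF.adj | apply PF.un | apply PF.sUn | apply PF.op | apply PF.pr | apply PF.sep | exact PF.var _ | exact PF.const _ | apply PD.eq | apply PD.mem | apply PD.not | apply PD.iff | apply PD.or | apply PD.and | apply PD.imp | apply PD.ex | apply PD.all | exact PD.const _ | assumption | refine PF.comp1 (F := _) (by assumption) ?_ | refine PF.comp2 (F := _) (by assumption) ?_ ?_ | refine PF.comp3 (F := _) (by assumption) ?_ ?_ ?_ | refine PD.app1 (R := _) (by assumption) ?_ | refine PD.app2 (R := _) (by assumption) ?_ ?_ | refine PD.app3 (R := _) (by assumption) ?_ ?_ ?_ | refine PD.app4 (R := _) (by assumption) ?_ ?_ ?_ ?_))) (by (repeat' (with_reducible first | apply pd_Tr | apply pd_Ind | apply pf_succ | apply pf_funs | apply pf_prod | apply pf_lam | apply pd_Fn | apply pf_app | apply pf_ran | apply pf_dom | apply PF.img | apply PF.pow | apply PD.sub | apply PF.adj | apply PF.un | apply PF.sUn | apply PF.op | apply PF.pr | apply PF.sep | exact PF.var _ | exact PF.const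 _ | apply PD.eq | apply PD.mem | apply PD.not | apply PD.iff | apply PD.or | apply PD.and | apply PD.imp | apply PD.ex | apply PD.all | exact PD.const _ | assumption | refine PF.comp1 (F := _) (by assumption) ?_ | refine PF.comp2 (F := _) (by assumption) ?_ ?_ | refine PF.comp3 (F := _) (by assumption) ?_ ?_ ?_ | refine PD.app1 (R := _) (by assumption) ?_ | refine PD.app2 (R := _) (by assumption) ?_ ?_ | refine PD.app3 (R := _) (by assumption) ?_ ?_ ?_ | refine PD.app4 (R := _) (by assumption) ?_ ?_ ?_ ?_)))

theorem pd_Clause {R : M → M → M → Prop} (hR : PD (fun v => R (v 0) (v 1) (v 2)))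
    {L p x y : (ℕ → M) → M} (hL : PF L) (hp : PF p) (hx : PF x) (hy : PF y) :
    PD (fun v => Clause (L v) R (p v) (x v) (y v)) := by
  refine PD.and (pd_Half hR hL hp hx hy) (pd_Half ?_ hL hp hy hx)
  exact PD.app3 (R := R) hR (PF.var 0) (PF.var 2) (PF.var 1)

theorem pd_Feq {L p x y : (ℕ → M) → M} (hL : PF L) (hp : PF p) (hx : PF x) (hy : PF y) :
    PD (fun v => Feq (L v) (p v) (x v) (y v)) := by
  refine PD.app4 (R := fun L p x y => Feq L p x y) ?_ hL hp hx hy
  unfold Feq Clause Half
  (repeat' (with_reducible first | apply pd_Tr | apply pd_Ind | apply pf_succ | apply pf_funs | apply pf_prod | apply pf_lam | apply pd_Fn | apply pf_app | apply pf_ran | apply pf_dom | apply PF.img | apply PF.pow | apply PD.sub | apply PF.adj | apply PF.un | apply PF.sUn | apply PF.op | apply PF.pr | apply PF.sep | exact PF.var _ | exact PF.const _ | apply PD.eq | apply PD.mem | apply PD.not | apply PD.iff | apply PD.or | apply PD.and | apply PD.imp | apply PD.ex | apply PD.all | exact PD.const _ | assumption | refine PF.comp1 (F := _) (by assumption)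 ?_ | refine PF.comp2 (F := _) (by assumption) ?_ ?_ | refine PF.comp3 (F := _) (by assumption) ?_ ?_ ?_ | refine PD.app1 (R := _) (by assumption) ?_ | refine PD.app2 (R := _) (by assumption) ?_ ?_ | refine PD.app3 (R := _) (by assumption) ?_ ?_ ?_ | refine PD.app4 (R := _) (by assumption) ?_ ?_ ?_ ?_))


theorem pd_Fmem {L p x y : (ℕ → M) → M} (hL : PF L) (hp : PF p) (hx : PF x) (hy : PF y) :
    PD (fun v => Fmem (L v) (p v) (x v) (y v)) := by
  refine PD.app4 (R := fun L p x y => Fmem L p x y) ?_ hL hp hx hy
  unfold Fmem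
  (repeat' (with_reducible first | apply pd_Feq | apply pd_Tr | apply pd_Ind | apply pf_succ | apply pf_funs | apply pf_prod | apply pf_lam | apply pd_Fn | apply pf_app | apply pf_ran | apply pf_dom | apply PF.img | apply PF.pow | apply PD.sub | apply PF.adj | apply PF.un | apply PF.sUn | apply PF.op | apply PF.pr | apply PF.sep | exact PF.var _ | exact PF.const _ | apply PD.eq | apply PD.mem | apply PD.not | apply PD.iff | apply PD.or | apply PD.and | apply PD.imp | apply PD.ex | apply PD.all | exact PD.const _ | assumption | refine PF.comp1 (F := _) (by assumption) ?_ | refine PF.comp2 (F := _) (by assumption) ?_ ?_ | refine PF.comp3 (F := _) (by assumption) ?_ ?_ ?_ | refine PD.app1 (R := _) (by assumption) ?_ | refine PD.app2 (R := _) (by assumption) ?_ ?_ | refine PD.app3 (R := _) (by assumption) ?_ ?_ ?_ | refine PD.app4 (R := _) (by assumption) ?_ ?_ ?_ ?_))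


/-- Every set is an element of a transitive set. -/
theorem exists_trans (x : M) : ∃ T, SetStr.mem x T ∧ ∀ y z, SetStr.mem y T → SetStr.mem z y → SetStr.mem z T := by
  obtain ⟨t, ht, hx⟩ := exists_tr (pr x x)
  exact ⟨t, hx x (by simp), fun y z hy hz => ht y hy z hz⟩

theorem mem_op_of {z s : M} : ∃ a, SetStr.mem a (op z s) ∧ SetStr.mem z a := ⟨pr z z, by simp [op], by simp⟩

theorem mem_op_of' {z s : M} : ∃ a, SetStr.mem a (op z s) ∧ SetStr.mem s a := ⟨pr z s, by simp [op], by simp⟩

/-- A definable relation which satisfies the clause with respect to itself implies forced equality. -/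
theorem Feq.coind {L : M} (R : M → M → M → Prop) (hR : PD (fun v => R (v 0) (v 1) (v 2)))
    (hC : ∀ p x y, R p x y → Clause L R p x y) {p x y : M} (h : R p x y) : Feq L p x y := by
  obtain ⟨T, hT, hT'⟩ := exists_trans (pr x y)
  have hx : SetStr.mem x T := hT' _ _ hT (by simp)
  have hy : SetStr.mem y T := hT' _ _ hT (by simp)
  have hz : ∀ u z s, SetStr.mem u T → SetStr.mem (op z s) u → SetStr.mem z T := by
    intro u z s hu h1
    have h2 := hT' _ _ hu h1
    exact hT' (pr z z) z (hT' (op z s) (pr z z) h2 (by simp [op])) (by simp)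
  have hm : ∀ u : M, SetStr.mem u (sep (prod (adj (dom L) p) (prod T T))
      (fun u => ∃ p' x' y', u = op p' (op x' y') ∧ R p' x' y')) ↔
      SetStr.mem u (prod (adj (dom L) p) (prod T T)) ∧ ∃ p' x' y', u = op p' (op x' y') ∧ R p' x' y' := by
    intro u
    refine mem_sep ?_
    refine PD.ex (PD.ex (PD.ex (PD.and (by (repeat' (with_reducible first | apply pd_Fmem | apply pd_Feq | apply pd_Tr | apply pd_Ind | apply pf_succ | apply pf_funs | apply pf_prod | apply pf_lam | apply pd_Fn | apply pf_app | apply pf_ran | apply pf_dom | apply PF.img | apply PF.pow | apply PD.sub | apply PF.adj | apply PF.un | apply PF.sUn | apply PF.op | apply PF.pr | apply PF.sep | exact PF.var _ | exact PF.const _ | apply PD.eq | apply PD.mem | apply PD.not | apply PD.iff | apply PD.or | apply PD.and | apply PD.imp | apply PD.ex | apply PD.all | exact PD.const _ | assumption | refine PF.comp1 (F := _) (by assumption) ?_ | refine PF.comp2 (F := _) (by assumption) ?_ ?_ | refine PF.comp3 (F := _) (by assumption) ?_ ?_ ?_ | refine PD.app1 (R := _) (by assumption)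 ?_ | refine PD.app2 (R := _) (by assumption) ?_ ?_ | refine PD.app3 (R := _) (by assumption) ?_ ?_ ?_ | refine PD.app4 (R := _) (by assumption) ?_ ?_ ?_ ?_))) ?_)))
    exact PD.app3 hR (by (repeat' (with_reducible first | apply pd_Fmem | apply pd_Feq | apply pd_Tr | apply pd_Ind | apply pf_succ | apply pf_funs | apply pf_prod | apply pf_lam | apply pd_Fn | apply pf_app | apply pf_ran | apply pf_dom | apply PF.img | apply PF.pow | apply PD.sub | apply PF.adj | apply PF.un | apply PF.sUn | apply PF.op | apply PF.pr | apply PF.sep | exact PF.var _ | exact PF.const _ | apply PD.eq | apply PD.mem | apply PD.not | apply PD.iff | apply PD.or | apply PD.and | apply PD.imp | apply PD.ex | apply PD.all | exact PD.const _ | assumption | refine PF.comp1 (F := _) (by assumption) ?_ | refine PF.comp2 (F := _) (by assumption) ?_ ?_ | refine PF.comp3 (F := _) (by assumption) ?_ ?_ ?_ | refine PD.app1 (R := _) (by assumption) ?_ | refine PD.app2 (R := _) (by assumption) ?_ ?_ | refine PD.app3 (R := _) (by assumption) ?_ ?_ ?_ | refine PD.app4 (R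 := _) (by assumption) ?_ ?_ ?_ ?_))) (by (repeat' (with_reducible first | apply pd_Fmem | apply pd_Feq | apply pd_Tr | apply pd_Ind | apply pf_succ | apply pf_funs | apply pf_prod | apply pf_lam | apply pd_Fn | apply pf_app | apply pf_ran | apply pf_dom | apply PF.img | apply PF.pow | apply PD.sub | apply PF.adj | apply PF.un | apply PF.sUn | apply PF.op | apply PF.pr | apply PF.sep | exact PF.var _ | exact PF.const _ | apply PD.eq | apply PD.mem | apply PD.not | apply PD.iff | apply PD.or | apply PD.and | apply PD.imp | apply PD.ex | apply PD.all | exact PD.const _ | assumption | refine PF.comp1 (F := _) (by assumption) ?_ | refine PF.comp2 (F := _) (by assumption) ?_ ?_ | refine PF.comp3 (F := _) (by assumption) ?_ ?_ ?_ | refine PD.app1 (R := _) (by assumption) ?_ | refine PD.app2 (R := _) (by assumption) ?_ ?_ | refine PD.app3 (R := _) (by assumption) ?_ ?_ ?_ | refine PD.app4 (R := _) (by assumption) ?_ ?_ ?_ ?_))) (by (repeat' (with_reducible first | apply pd_Fmem | apply pd_Feq | apply pd_Tr | apply pd_Ind | apply pf_succ |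 apply pf_funs | apply pf_prod | apply pf_lam | apply pd_Fn | apply pf_app | apply pf_ran | apply pf_dom | apply PF.img | apply PF.pow | apply PD.sub | apply PF.adj | apply PF.un | apply PF.sUn | apply PF.op | apply PF.pr | apply PF.sep | exact PF.var _ | exact PF.const _ | apply PD.eq | apply PD.mem | apply PD.not | apply PD.iff | apply PD.or | apply PD.and | apply PD.imp | apply PD.ex | apply PD.all | exact PD.const _ | assumption | refine PF.comp1 (F := _) (by assumption) ?_ | refine PF.comp2 (F := _) (by assumption) ?_ ?_ | refine PF.comp3 (F := _) (by assumption) ?_ ?_ ?_ | refine PD.app1 (R := _) (by assumption) ?_ | refine PD.app2 (R := _) (by assumption) ?_ ?_ | refine PD.app3 (R := _) (by assumption) ?_ ?_ ?_ | refine PD.app4 (R := _) (by assumption) ?_ ?_ ?_ ?_)))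
  have hm' : ∀ p' x' y' : M, SetStr.mem (op p' (op x' y')) (sep (prod (adj (dom L) p) (prod T T))
      (fun u => ∃ p' x' y', u = op p' (op x' y') ∧ R p' x' y')) ↔
      (SetStr.mem p' (adj (dom L) p) ∧ SetStr.mem x' T ∧ SetStr.mem y' T) ∧ R p' x' y' := by
    intro p' x' y'
    rw [hm, op_mem_prod, op_mem_prod]
    refine and_congr Iff.rfl ?_
    constructor
    · rintro ⟨p1, x1, y1, h1, h2⟩
      simp only [op_inj] at h1
      obtain ⟨rfl, rfl, rfl⟩ := h1
      exact h2
    · intro h2
      exact ⟨p', x', y', rfl, h2⟩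
  refine ⟨_, (hm' p x y).2 ⟨⟨by simp, hx, hy⟩, h⟩, ?_⟩
  intro p' x' y' h'
  rw [hm'] at h'
  obtain ⟨⟨-, hx', hy'⟩, hR'⟩ := h'
  obtain ⟨h1, h2⟩ := hC _ _ _ hR'
  refine ⟨?_, ?_⟩
  · intro z s q e1 e2 e3
    obtain ⟨r, w, s', e4, e5, e6, e7⟩ := h1 z s q e1 e2 e3
    refine ⟨r, w, s', e4, e5, e6, (hm' _ _ _).2 ⟨⟨?_, hz _ _ _ hx' e1, hz _ _ _ hy' e5⟩, e7⟩⟩
    rw [mem_adj, mem_dom]
    exact Or.inl ⟨_, e4⟩
  · intro w s q e1 e2 e3
    obtain ⟨r, z, s', e4, e5, e6, e7⟩ := h2 w s q e1 e2 e3
    refine ⟨r, z, s', e4, e5, e6, (hm' _ _ _).2 ⟨⟨?_, hz _ _ _ hx' e5, hz _ _ _ hy' e1⟩, e7⟩⟩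
    rw [mem_adj, mem_dom]
    exact Or.inl ⟨_, e4⟩

/-- The recursion equation of forced equality. -/
theorem Feq_iff {L p x y : M} : Feq L p x y ↔ Clause L (Feq L) p x y := by
  refine ⟨Feq.clause, fun h => ?_⟩
  refine Feq.coind (fun p x y => Clause L (Feq L) p x y) ?_ ?_ h
  · exact pd_Clause (by (repeat' (with_reducible first | apply pd_Fmem | apply pd_Feq | apply pd_Tr | apply pd_Ind | apply pf_succ | apply pf_funs | apply pf_prod | apply pf_lam | apply pd_Fn | apply pf_app | apply pf_ran | apply pf_dom | apply PF.img | apply PF.pow | apply PD.sub | apply PF.adj | apply PF.un | apply PF.sUn | apply PF.op | apply PF.pr | apply PF.sep | exact PF.var _ | exact PF.const _ | apply PD.eq | apply PD.mem | apply PD.not | apply PD.iff | apply PD.or | apply PD.and | apply PD.imp | apply PD.ex | apply PD.all | exact PD.const _ | assumption | refine PF.comp1 (F := _) (by assumption) ?_ | refine PF.comp2 (F := _) (by assumption) ?_ ?_ | refine PF.comp3 (F := _) (by assumption) ?_ ?_ ?_ | refine PD.app1 (R := _) (by assumption) ?_ | refine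 PD.app2 (R := _) (by assumption) ?_ ?_ | refine PD.app3 (R := _) (by assumption) ?_ ?_ ?_ | refine PD.app4 (R := _) (by assumption) ?_ ?_ ?_ ?_))) (by (repeat' (with_reducible first | apply pd_Fmem | apply pd_Feq | apply pd_Tr | apply pd_Ind | apply pf_succ | apply pf_funs | apply pf_prod | apply pf_lam | apply pd_Fn | apply pf_app | apply pf_ran | apply pf_dom | apply PF.img | apply PF.pow | apply PD.sub | apply PF.adj | apply PF.un | apply PF.sUn | apply PF.op | apply PF.pr | apply PF.sep | exact PF.var _ | exact PF.const _ | apply PD.eq | apply PD.mem | apply PD.not | apply PD.iff | apply PD.or | apply PD.and | apply PD.imp | apply PD.ex | apply PD.all | exact PD.const _ | assumption | refine PF.comp1 (F := _) (by assumption) ?_ | refine PF.comp2 (F := _) (by assumption) ?_ ?_ | refine PF.comp3 (F := _) (by assumption) ?_ ?_ ?_ | refine PD.app1 (R := _) (by assumption) ?_ | refine PD.app2 (R := _) (by assumption) ?_ ?_ | refine PD.app3 (R := _) (by assumption) ?_ ?_ ?_ | refine PD.app4 (R := _) (by assumption) ?_ ?_ ?_ ?_))) (by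 (repeat' (with_reducible first | apply pd_Fmem | apply pd_Feq | apply pd_Tr | apply pd_Ind | apply pf_succ | apply pf_funs | apply pf_prod | apply pf_lam | apply pd_Fn | apply pf_app | apply pf_ran | apply pf_dom | apply PF.img | apply PF.pow | apply PD.sub | apply PF.adj | apply PF.un | apply PF.sUn | apply PF.op | apply PF.pr | apply PF.sep | exact PF.var _ | exact PF.const _ | apply PD.eq | apply PD.mem | apply PD.not | apply PD.iff | apply PD.or | apply PD.and | apply PD.imp | apply PD.ex | apply PD.all | exact PD.const _ | assumption | refine PF.comp1 (F := _) (by assumption) ?_ | refine PF.comp2 (F := _) (by assumption) ?_ ?_ | refine PF.comp3 (F := _) (by assumption) ?_ ?_ ?_ | refine PD.app1 (R := _) (by assumption) ?_ | refine PD.app2 (R := _) (by assumption) ?_ ?_ | refine PD.app3 (R := _) (by assumption) ?_ ?_ ?_ | refine PD.app4 (R := _) (by assumption) ?_ ?_ ?_ ?_))) (by (repeat' (with_reducible first | apply pd_Fmem | apply pd_Feq | apply pd_Tr | apply pd_Ind | apply pf_succ | apply pf_funs | apply pf_prod | apply pf_lam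 | apply pd_Fn | apply pf_app | apply pf_ran | apply pf_dom | apply PF.img | apply PF.pow | apply PD.sub | apply PF.adj | apply PF.un | apply PF.sUn | apply PF.op | apply PF.pr | apply PF.sep | exact PF.var _ | exact PF.const _ | apply PD.eq | apply PD.mem | apply PD.not | apply PD.iff | apply PD.or | apply PD.and | apply PD.imp | apply PD.ex | apply PD.all | exact PD.const _ | assumption | refine PF.comp1 (F := _) (by assumption) ?_ | refine PF.comp2 (F := _) (by assumption) ?_ ?_ | refine PF.comp3 (F := _) (by assumption) ?_ ?_ ?_ | refine PD.app1 (R := _) (by assumption) ?_ | refine PD.app2 (R := _) (by assumption) ?_ ?_ | refine PD.app3 (R := _) (by assumption) ?_ ?_ ?_ | refine PD.app4 (R := _) (by assumption) ?_ ?_ ?_ ?_))) (by (repeat' (with_reducible first | apply pd_Fmem | apply pd_Feq | apply pd_Tr | apply pd_Ind | apply pf_succ | apply pf_funs | apply pf_prod | apply pf_lam | apply pd_Fn | apply pf_app | apply pf_ran | apply pf_dom | apply PF.img | apply PF.pow | apply PD.sub | apply PF.adj | apply PF.un | apply PF.sUn |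 apply PF.op | apply PF.pr | apply PF.sep | exact PF.var _ | exact PF.const _ | apply PD.eq | apply PD.mem | apply PD.not | apply PD.iff | apply PD.or | apply PD.and | apply PD.imp | apply PD.ex | apply PD.all | exact PD.const _ | assumption | refine PF.comp1 (F := _) (by assumption) ?_ | refine PF.comp2 (F := _) (by assumption) ?_ ?_ | refine PF.comp3 (F := _) (by assumption) ?_ ?_ ?_ | refine PD.app1 (R := _) (by assumption) ?_ | refine PD.app2 (R := _) (by assumption) ?_ ?_ | refine PD.app3 (R := _) (by assumption) ?_ ?_ ?_ | refine PD.app4 (R := _) (by assumption) ?_ ?_ ?_ ?_)))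
  · intro p x y h
    exact h.mono (fun r z w h' => h'.clause)

section laws

variable {P L o : M}

theorem Feq.mono (hF : IsForcing P L o) {p q x y : M} (hq : SetStr.mem (op q p) L) (h : Feq L p x y) :
    Feq L q x y := by
  rw [Feq_iff] at h ⊢
  refine ⟨fun z s q' h1 h2 h3 => ?_, fun z s q' h1 h2 h3 => ?_⟩
  · exact h.1 z s q' h1 (hF.trans _ _ _ h2 hq) h3
  · exact h.2 z s q' h1 (hF.trans _ _ _ h2 hq) h3

theorem Feq.refl (hF : IsForcing P L o) (p x : M) : Feq L p x x := by
  refine Feq.coind (fun p x y => x = y) (by (repeat' (with_reducible first | apply pd_Fmem | apply pd_Feq | apply pd_Tr | apply pd_Ind | apply pf_succ | apply pf_funs | apply pf_prod | apply pf_lam | apply pd_Fn | apply pf_app | apply pf_ran | apply pf_dom | apply PF.img | apply PF.pow | apply PD.sub | apply PF.adj | apply PF.un | apply PF.sUn | apply PF.op | apply PF.pr | apply PF.sep | exact PF.var _ | exact PF.const _ | apply PD.eq | apply PD.mem | apply PD.not | apply PD.iff | apply PD.or | apply PD.and | apply PD.imp | apply PD.ex | apply PD.all | exact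 PD.const _ | assumption | refine PF.comp1 (F := _) (by assumption) ?_ | refine PF.comp2 (F := _) (by assumption) ?_ ?_ | refine PF.comp3 (F := _) (by assumption) ?_ ?_ ?_ | refine PD.app1 (R := _) (by assumption) ?_ | refine PD.app2 (R := _) (by assumption) ?_ ?_ | refine PD.app3 (R := _) (by assumption) ?_ ?_ ?_ | refine PD.app4 (R := _) (by assumption) ?_ ?_ ?_ ?_))) ?_ rfl
  rintro p x _ rfl
  refine ⟨fun z s q h1 h2 h3 => ?_, fun z s q h1 h2 h3 => ?_⟩
  · exact ⟨q, z, s, hF.refl _ (hF.fld _ _ h2).1, h1, h3, rfl⟩
  · exact ⟨q, z, s, hF.refl _ (hF.fld _ _ h2).1, h1, h3, rfl⟩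

theorem Feq.symm {p x y : M} (h : Feq L p x y) : Feq L p y x := by
  refine Feq.coind (fun p x y => Feq L p y x) (by (repeat' (with_reducible first | apply pd_Fmem | apply pd_Feq | apply pd_Tr | apply pd_Ind | apply pf_succ | apply pf_funs | apply pf_prod | apply pf_lam | apply pd_Fn | apply pf_app | apply pf_ran | apply pf_dom | apply PF.img | apply PF.pow | apply PD.sub | apply PF.adj | apply PF.un | apply PF.sUn | apply PF.op | apply PF.pr | apply PF.sep | exact PF.var _ | exact PF.const _ | apply PD.eq | apply PD.mem | apply PD.not | apply PD.iff | apply PD.or | apply PD.and | apply PD.imp | apply PD.ex | apply PD.all | exact PD.const _ | assumption | refine PF.comp1 (F := _) (by assumption) ?_ | refine PF.comp2 (F := _) (by assumption) ?_ ?_ | refine PF.comp3 (F := _) (by assumption) ?_ ?_ ?_ | refine PD.app1 (R := _) (by assumption) ?_ | refine PD.app2 (R := _) (by assumption) ?_ ?_ | refine PD.app3 (R := _) (by assumption) ?_ ?_ ?_ | refine PD.app4 (R := _) (by assumption) ?_ ?_ ?_ ?_))) ?_ h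
  intro p x y h
  have := h.clause
  exact ⟨this.2, this.1⟩

theorem Feq.trans (hF : IsForcing P L o) {p x y z : M} (h1 : Feq L p x y) (h2 : Feq L p y z) :
    Feq L p x z := by
  refine Feq.coind (fun p x z => ∃ y, Feq L p x y ∧ Feq L p y z) (by (repeat' (with_reducible first | apply pd_Fmem | apply pd_Feq | apply pd_Tr | apply pd_Ind | apply pf_succ | apply pf_funs | apply pf_prod | apply pf_lam | apply pd_Fn | apply pf_app | apply pf_ran | apply pf_dom | apply PF.img | apply PF.pow | apply PD.sub | apply PF.adj | apply PF.un | apply PF.sUn | apply PF.op | apply PF.pr | apply PF.sep | exact PF.var _ | exact PF.const _ | apply PD.eq | apply PD.mem | apply PD.not | apply PD.iff | apply PD.or | apply PD.and | apply PD.imp | apply PD.ex | apply PD.all | exact PD.const _ | assumption | refine PF.comp1 (F := _) (by assumption) ?_ | refine PF.comp2 (F := _) (by assumption) ?_ ?_ | refine PF.comp3 (F := _) (by assumption) ?_ ?_ ?_ | refine PD.app1 (R := _) (by assumption) ?_ | refine PD.app2 (R := _) (by assumption) ?_ ?_ | refine PD.app3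 (R := _) (by assumption) ?_ ?_ ?_ | refine PD.app4 (R := _) (by assumption) ?_ ?_ ?_ ?_))) ?_ ⟨y, h1, h2⟩
  rintro p x z ⟨y, h1, h2⟩
  constructor
  · intro a s q e1 e2 e3
    obtain ⟨r, b, s', e4, e5, e6, e7⟩ := h1.clause.1 a s q e1 e2 e3
    obtain ⟨r', c, s'', f4, f5, f6, f7⟩ := h2.clause.1 b s' r e5 (hF.trans _ _ _ e4 e2) e6
    exact ⟨r', c, s'', hF.trans _ _ _ f4 e4, f5, f6, b, e7.mono hF f4, f7⟩
  · intro c s q e1 e2 e3
    obtain ⟨r, b, s', e4, e5, e6, e7⟩ := h2.clause.2 c s q e1 e2 e3
    obtain ⟨r', a, s'', f4, f5, f6, f7⟩ := h1.clause.2 b s' r e5 (hF.trans _ _ _ e4 e2) e6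
    exact ⟨r', a, s'', hF.trans _ _ _ f4 e4, f5, f6, b, f7, e7.mono hF f4⟩

theorem Feq.dense (hF : IsForcing P L o) {p x y : M}
    (h : ∀ q, SetStr.mem (op q p) L → ∃ r, SetStr.mem (op r q) L ∧ Feq L r x y) : Feq L p x y := by
  rw [Feq_iff]
  constructor
  · intro z s q e1 e2 e3
    obtain ⟨r, hr, h'⟩ := h q e2
    obtain ⟨r', w, s', f1, f2, f3, f4⟩ := h'.clause.1 z s r e1
      (hF.refl _ (hF.fld _ _ hr).1) (hF.trans _ _ _ hr e3)
    exact ⟨r', w, s', hF.trans _ _ _ f1 hr, f2, f3, f4⟩
  · intro z s q e1 e2 e3
    obtain ⟨r, hr, h'⟩ := h q e2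
    obtain ⟨r', w, s', f1, f2, f3, f4⟩ := h'.clause.2 z s r e1
      (hF.refl _ (hF.fld _ _ hr).1) (hF.trans _ _ _ hr e3)
    exact ⟨r', w, s', hF.trans _ _ _ f1 hr, f2, f3, f4⟩

theorem Fmem.mono (hF : IsForcing P L o) {p q x y : M} (hq : SetStr.mem (op q p) L) (h : Fmem L p x y) :
    Fmem L q x y := fun r hr => h r (hF.trans _ _ _ hr hq)

theorem Fmem.dense (hF : IsForcing P L o) {p x y : M}
    (h : ∀ q, SetStr.mem (op q p) L → ∃ r, SetStr.mem (op r q) L ∧ Fmem L r x y) : Fmem L p x y := by
  intro q hq
  obtain ⟨r, hr, h'⟩ := h q hq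
  obtain ⟨r', w, s, f1, f2, f3, f4⟩ := h' r (hF.refl _ (hF.fld _ _ hr).1)
  exact ⟨r', w, s, hF.trans _ _ _ f1 hr, f2, f3, f4⟩

theorem Fmem.subst_left (hF : IsForcing P L o) {p x x' y : M} (h : Feq L p x x')
    (h' : Fmem L p x y) : Fmem L p x' y := by
  intro q hq
  obtain ⟨r, w, s, f1, f2, f3, f4⟩ := h' q hq
  exact ⟨r, w, s, f1, f2, f3,
    ((h.mono hF (hF.trans _ _ _ f1 hq)).symm).trans hF f4⟩

theorem Fmem.subst_right (hF : IsForcing P L o) {p x y y' : M} (h : Feq L p y y')
    (h' : Fmem L p x y) : Fmem L p x y' := by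
  intro q hq
  obtain ⟨r, w, s, f1, f2, f3, f4⟩ := h' q hq
  obtain ⟨r', v, s', g1, g2, g3, g4⟩ := h.clause.1 w s r f2 (hF.trans _ _ _ f1 hq) f3
  exact ⟨r', v, s', hF.trans _ _ _ g1 f1, g2, g3, (f4.mono hF g1).trans hF g4⟩

/-- An element of a name, below its condition. -/
theorem Fmem.of_mem (hF : IsForcing P L o) {p x y s : M} (h : SetStr.mem (op x s) y) (hp : SetStr.mem (op p s) L) :
    Fmem L p x y := by
  intro q hq
  exact ⟨q, x, s, hF.refl _ (hF.fld _ _ hq).1, h, hF.trans _ _ _ hq hp, Feq.refl hF _ _⟩

/-- Every condition below which `x ∈ y` is forced has an extension which names the element. -/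
theorem Fmem.exists (hF : IsForcing P L o) {p x y : M} (hp : SetStr.mem p P) (h : Fmem L p x y) :
    ∃ q w s, SetStr.mem (op q p) L ∧ SetStr.mem (op w s) y ∧ SetStr.mem (op q s) L ∧ Feq L q x w :=
  h p (hF.refl p hp)

theorem Forces.mono (hF : IsForcing P L o) {α : Type} {n : ℕ} (φ : LST.BoundedFormula α n)
    {p q : M} (hq : SetStr.mem (op q p) L) (v : α → M) (xs : Fin n → M) (h : Forces L φ p v xs) :
    Forces L φ q v xs := by
  induction φ generalizing p q with
  | falsum => exact h
  | equal t₁ t₂ => exact Feq.mono hF hq h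
  | rel R ts =>
    cases R
    exact Fmem.mono hF hq h
  | imp φ ψ _ _ => exact fun r hr h' => h r (hF.trans _ _ _ hr hq) h'
  | all φ ih => exact fun x => ih hq _ (h x)

theorem Forces.dense (hF : IsForcing P L o) {α : Type} {n : ℕ} (φ : LST.BoundedFormula α n)
    {p : M} (hp : SetStr.mem p P) (v : α → M) (xs : Fin n → M)
    (h : ∀ q, SetStr.mem (op q p) L → ∃ r, SetStr.mem (op r q) L ∧ Forces L φ r v xs) : Forces L φ p v xs := by
  induction φ generalizing p with
  | falsum =>
    obtain ⟨r, -, hr⟩ := h p (hF.refl p hp)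
    exact hr
  | equal t₁ t₂ => exact Feq.dense hF h
  | rel R ts =>
    cases R
    exact Fmem.dense hF h
  | imp φ ψ _ ih =>
    intro q hq hφ
    refine ih (hF.fld _ _ hq).1 xs (fun r hr => ?_)
    obtain ⟨r', hr', h'⟩ := h r (hF.trans _ _ _ hr hq)
    exact ⟨r', hr', h' r' (hF.refl _ (hF.fld _ _ hr').1)
      (Forces.mono hF φ (hF.trans _ _ _ hr' hr) _ _ hφ)⟩
  | all φ ih =>
    intro x
    refine ih hp _ (fun q hq => ?_)
    obtain ⟨r, hr, h'⟩ := h q hq
    exact ⟨r, hr, h' x⟩

/-- No condition forces both a formula and its negation. -/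
theorem Forces.not_iff {α : Type} {n : ℕ} (φ : LST.BoundedFormula α n)
    {p : M} (v : α → M) (xs : Fin n → M) :
    Forces L φ.not p v xs ↔ ∀ q, SetStr.mem (op q p) L → ¬ Forces L φ q v xs := Iff.rfl

/-- If `p` does not force `φ`, some extension of `p` forces its negation. -/
theorem Forces.exists_not (hF : IsForcing P L o) {α : Type} {n : ℕ} (φ : LST.BoundedFormula α n)
    {p : M} (hp : SetStr.mem p P) (v : α → M) (xs : Fin n → M) (h : ¬ Forces L φ p v xs) :
    ∃ q, SetStr.mem (op q p) L ∧ Forces L φ.not q v xs := by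
  by_contra hcon
  push Not at hcon
  refine h (Forces.dense hF φ hp v xs (fun q hq => ?_))
  have := hcon q hq
  rw [Forces.not_iff] at this
  push Not at this
  exact this

end laws

/-- Uniqueness: every definable relation which satisfies the recursion equation of forced equality is
forced equality. -/
theorem Feq.unique {L : M} {R : M → M → M → Prop} (hR : PD (fun v => R (v 0) (v 1) (v 2)))
    (h : ∀ p x y, R p x y ↔ Clause L R p x y) (p x y : M) : R p x y ↔ Feq L p x y := by
  refine ⟨fun h' => Feq.coind R hR (fun p x y h' => (h p x y).1 h') h', fun h' => ?_⟩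
  have key : ∀ x : M, (∀ y p, Feq L p x y → R p x y) ∧
      (∀ a, SetStr.mem a x → ∀ y p, Feq L p a y → R p a y) ∧
      (∀ a, SetStr.mem a x → ∀ b, SetStr.mem b a → ∀ y p, Feq L p b y → R p b y) := by
    have hR' : PD (fun v : ℕ → M => ∀ y p, Feq L p (v 0) y → R p (v 0) y) := by
      refine PD.all (PD.all (PD.imp (by (repeat' (with_reducible first | apply pd_Fmem | apply pd_Feq | apply pd_Tr | apply pd_Ind | apply pf_succ | apply pf_funs | apply pf_prod | apply pf_lam | apply pd_Fn | apply pf_app | apply pf_ran | apply pf_dom | apply PF.img | apply PF.pow | apply PD.sub | apply PF.adj | apply PF.un | apply PF.sUn | apply PF.op | apply PF.pr | apply PF.sep | exact PF.var _ | exact PF.const _ | apply PD.eq | apply PD.mem | apply PD.not | apply PD.iff | apply PD.or | apply PD.and | apply PD.imp | apply PD.ex | apply PD.all | exact PD.const _ | assumption | refine PF.comp1 (F := _) (by assumption) ?_ | refine PF.comp2 (F := _) (by assumption) ?_ ?_ | refine PF.comp3 (F := _) (by assumption) ?_ ?_ ?_ | refine PD.app1 (R := _) (by assumption)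 ?_ | refine PD.app2 (R := _) (by assumption) ?_ ?_ | refine PD.app3 (R := _) (by assumption) ?_ ?_ ?_ | refine PD.app4 (R := _) (by assumption) ?_ ?_ ?_ ?_))) ?_))
      exact PD.app3 hR (by (repeat' (with_reducible first | apply pd_Fmem | apply pd_Feq | apply pd_Tr | apply pd_Ind | apply pf_succ | apply pf_funs | apply pf_prod | apply pf_lam | apply pd_Fn | apply pf_app | apply pf_ran | apply pf_dom | apply PF.img | apply PF.pow | apply PD.sub | apply PF.adj | apply PF.un | apply PF.sUn | apply PF.op | apply PF.pr | apply PF.sep | exact PF.var _ | exact PF.const _ | apply PD.eq | apply PD.mem | apply PD.not | apply PD.iff | apply PD.or | apply PD.and | apply PD.imp | apply PD.ex | apply PD.all | exact PD.const _ | assumption | refine PF.comp1 (F := _) (by assumption) ?_ | refine PF.comp2 (F := _) (by assumption) ?_ ?_ | refine PF.comp3 (F := _) (by assumption) ?_ ?_ ?_ | refine PD.app1 (R := _) (by assumption) ?_ | refine PD.app2 (R := _) (by assumption) ?_ ?_ | refine PD.app3 (R := _) (by assumption) ?_ ?_ ?_ | refine PD.app4 (R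 := _) (by assumption) ?_ ?_ ?_ ?_))) (by (repeat' (with_reducible first | apply pd_Fmem | apply pd_Feq | apply pd_Tr | apply pd_Ind | apply pf_succ | apply pf_funs | apply pf_prod | apply pf_lam | apply pd_Fn | apply pf_app | apply pf_ran | apply pf_dom | apply PF.img | apply PF.pow | apply PD.sub | apply PF.adj | apply PF.un | apply PF.sUn | apply PF.op | apply PF.pr | apply PF.sep | exact PF.var _ | exact PF.const _ | apply PD.eq | apply PD.mem | apply PD.not | apply PD.iff | apply PD.or | apply PD.and | apply PD.imp | apply PD.ex | apply PD.all | exact PD.const _ | assumption | refine PF.comp1 (F := _) (by assumption) ?_ | refine PF.comp2 (F := _) (by assumption) ?_ ?_ | refine PF.comp3 (F := _) (by assumption) ?_ ?_ ?_ | refine PD.app1 (R := _) (by assumption) ?_ | refine PD.app2 (R := _) (by assumption) ?_ ?_ | refine PD.app3 (R := _) (by assumption) ?_ ?_ ?_ | refine PD.app4 (R := _) (by assumption) ?_ ?_ ?_ ?_))) (by (repeat' (with_reducible first | apply pd_Fmem | apply pd_Feq | apply pd_Tr | apply pd_Ind | apply pf_succ |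 apply pf_funs | apply pf_prod | apply pf_lam | apply pd_Fn | apply pf_app | apply pf_ran | apply pf_dom | apply PF.img | apply PF.pow | apply PD.sub | apply PF.adj | apply PF.un | apply PF.sUn | apply PF.op | apply PF.pr | apply PF.sep | exact PF.var _ | exact PF.const _ | apply PD.eq | apply PD.mem | apply PD.not | apply PD.iff | apply PD.or | apply PD.and | apply PD.imp | apply PD.ex | apply PD.all | exact PD.const _ | assumption | refine PF.comp1 (F := _) (by assumption) ?_ | refine PF.comp2 (F := _) (by assumption) ?_ ?_ | refine PF.comp3 (F := _) (by assumption) ?_ ?_ ?_ | refine PD.app1 (R := _) (by assumption) ?_ | refine PD.app2 (R := _) (by assumption) ?_ ?_ | refine PD.app3 (R := _) (by assumption) ?_ ?_ ?_ | refine PD.app4 (R := _) (by assumption) ?_ ?_ ?_ ?_)))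
    refine mem_ind (P := fun x => (∀ y p, Feq L p x y → R p x y) ∧
      (∀ a, SetStr.mem a x → ∀ y p, Feq L p a y → R p a y) ∧
      (∀ a, SetStr.mem a x → ∀ b, SetStr.mem b a → ∀ y p, Feq L p b y → R p b y)) ?_ ?_
    · refine PD.and hR' (PD.and (PD.all (PD.imp (by (repeat' (with_reducible first | apply pd_Fmem | apply pd_Feq | apply pd_Tr | apply pd_Ind | apply pf_succ | apply pf_funs | apply pf_prod | apply pf_lam | apply pd_Fn | apply pf_app | apply pf_ran | apply pf_dom | apply PF.img | apply PF.pow | apply PD.sub | apply PF.adj | apply PF.un | apply PF.sUn | apply PF.op | apply PF.pr | apply PF.sep | exact PF.var _ | exact PF.const _ | apply PD.eq | apply PD.mem | apply PD.not | apply PD.iff | apply PD.or | apply PD.and | apply PD.imp | apply PD.ex | apply PD.all | exact PD.const _ | assumption | refine PF.comp1 (F := _) (by assumption) ?_ | refine PF.comp2 (F := _) (by assumption) ?_ ?_ | refine PF.comp3 (F := _) (by assumption) ?_ ?_ ?_ | refine PD.app1 (R := _) (by assumption) ?_ | refine PD.app2 (R := _) (by assumption)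 ?_ ?_ | refine PD.app3 (R := _) (by assumption) ?_ ?_ ?_ | refine PD.app4 (R := _) (by assumption) ?_ ?_ ?_ ?_))) ?_))
        (PD.all (PD.imp (by (repeat' (with_reducible first | apply pd_Fmem | apply pd_Feq | apply pd_Tr | apply pd_Ind | apply pf_succ | apply pf_funs | apply pf_prod | apply pf_lam | apply pd_Fn | apply pf_app | apply pf_ran | apply pf_dom | apply PF.img | apply PF.pow | apply PD.sub | apply PF.adj | apply PF.un | apply PF.sUn | apply PF.op | apply PF.pr | apply PF.sep | exact PF.var _ | exact PF.const _ | apply PD.eq | apply PD.mem | apply PD.not | apply PD.iff | apply PD.or | apply PD.and | apply PD.imp | apply PD.ex | apply PD.all | exact PD.const _ | assumption | refine PF.comp1 (F := _) (by assumption) ?_ | refine PF.comp2 (F := _) (by assumption) ?_ ?_ | refine PF.comp3 (F := _) (by assumption) ?_ ?_ ?_ | refine PD.app1 (R := _) (by assumption) ?_ | refine PD.app2 (R := _) (by assumption) ?_ ?_ | refine PD.app3 (R := _) (by assumption) ?_ ?_ ?_ | refine PD.app4 (R := _) (by assumption) ?_ ?_ ?_ ?_))) (PD.all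 (PD.imp (by (repeat' (with_reducible first | apply pd_Fmem | apply pd_Feq | apply pd_Tr | apply pd_Ind | apply pf_succ | apply pf_funs | apply pf_prod | apply pf_lam | apply pd_Fn | apply pf_app | apply pf_ran | apply pf_dom | apply PF.img | apply PF.pow | apply PD.sub | apply PF.adj | apply PF.un | apply PF.sUn | apply PF.op | apply PF.pr | apply PF.sep | exact PF.var _ | exact PF.const _ | apply PD.eq | apply PD.mem | apply PD.not | apply PD.iff | apply PD.or | apply PD.and | apply PD.imp | apply PD.ex | apply PD.all | exact PD.const _ | assumption | refine PF.comp1 (F := _) (by assumption) ?_ | refine PF.comp2 (F := _) (by assumption) ?_ ?_ | refine PF.comp3 (F := _) (by assumption) ?_ ?_ ?_ | refine PD.app1 (R := _) (by assumption) ?_ | refine PD.app2 (R := _) (by assumption) ?_ ?_ | refine PD.app3 (R := _) (by assumption) ?_ ?_ ?_ | refine PD.app4 (R := _) (by assumption) ?_ ?_ ?_ ?_))) ?_)))))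
      · exact PD.app1 (R := fun a => ∀ y p, Feq L p a y → R p a y) hR' (by (repeat' (with_reducible first | apply pd_Fmem | apply pd_Feq | apply pd_Tr | apply pd_Ind | apply pf_succ | apply pf_funs | apply pf_prod | apply pf_lam | apply pd_Fn | apply pf_app | apply pf_ran | apply pf_dom | apply PF.img | apply PF.pow | apply PD.sub | apply PF.adj | apply PF.un | apply PF.sUn | apply PF.op | apply PF.pr | apply PF.sep | exact PF.var _ | exact PF.const _ | apply PD.eq | apply PD.mem | apply PD.not | apply PD.iff | apply PD.or | apply PD.and | apply PD.imp | apply PD.ex | apply PD.all | exact PD.const _ | assumption | refine PF.comp1 (F := _) (by assumption) ?_ | refine PF.comp2 (F := _) (by assumption) ?_ ?_ | refine PF.comp3 (F := _) (by assumption) ?_ ?_ ?_ | refine PD.app1 (R := _) (by assumption) ?_ | refine PD.app2 (R := _) (by assumption) ?_ ?_ | refine PD.app3 (R := _) (by assumption) ?_ ?_ ?_ | refine PD.app4 (R := _) (by assumption) ?_ ?_ ?_ ?_)))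
      · exact PD.app1 (R := fun a => ∀ y p, Feq L p a y → R p a y) hR' (by (repeat' (with_reducible first | apply pd_Fmem | apply pd_Feq | apply pd_Tr | apply pd_Ind | apply pf_succ | apply pf_funs | apply pf_prod | apply pf_lam | apply pd_Fn | apply pf_app | apply pf_ran | apply pf_dom | apply PF.img | apply PF.pow | apply PD.sub | apply PF.adj | apply PF.un | apply PF.sUn | apply PF.op | apply PF.pr | apply PF.sep | exact PF.var _ | exact PF.const _ | apply PD.eq | apply PD.mem | apply PD.not | apply PD.iff | apply PD.or | apply PD.and | apply PD.imp | apply PD.ex | apply PD.all | exact PD.const _ | assumption | refine PF.comp1 (F := _) (by assumption) ?_ | refine PF.comp2 (F := _) (by assumption) ?_ ?_ | refine PF.comp3 (F := _) (by assumption) ?_ ?_ ?_ | refine PD.app1 (R := _) (by assumption) ?_ | refine PD.app2 (R := _) (by assumption) ?_ ?_ | refine PD.app3 (R := _) (by assumption) ?_ ?_ ?_ | refine PD.app4 (R := _) (by assumption) ?_ ?_ ?_ ?_)))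
    · intro x ih
      refine ⟨?_, fun a ha => (ih a ha).1, fun a ha => (ih a ha).2.1⟩
      intro y p hxy
      have hz : ∀ z s, SetStr.mem (op z s) x → ∀ w r, Feq L r z w → R r z w := by
        intro z s hzs
        exact (ih _ hzs).2.2 (pr z z) (by simp [op]) z (by simp)
      rw [h]
      obtain ⟨h1, h2⟩ := hxy.clause
      constructor
      · intro z s q e1 e2 e3
        obtain ⟨r, w, s', e4, e5, e6, e7⟩ := h1 z s q e1 e2 e3
        exact ⟨r, w, s', e4, e5, e6, hz z s e1 w r e7⟩
      · intro w s q e1 e2 e3
        obtain ⟨r, z, s', e4, e5, e6, e7⟩ := h2 w s q e1 e2 e3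
        exact ⟨r, z, s', e4, e5, e6, hz z s' e5 w r e7⟩
  exact (key x).1 y p h'

/-- The values of a term are definable. -/
theorem pf_term {α : Type} {n : ℕ} (t : LST.Term (α ⊕ Fin n)) {v : α → (ℕ → M) → M}
    {xs : Fin n → (ℕ → M) → M} (hv : ∀ a, PF (v a)) (hxs : ∀ i, PF (xs i)) :
    PF (fun e => t.realize (Sum.elim (fun a => v a e) (fun i => xs i e))) := by
  cases t with
  | var a =>
    cases a with
    | inl a => exact hv a
    | inr i => exact hxs i
  | func f ts => exact Empty.elim f

/-- Forcing is definable. -/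
theorem pd_Forces {α : Type} {n : ℕ} (φ : LST.BoundedFormula α n) {L p : (ℕ → M) → M}
    {v : α → (ℕ → M) → M} {xs : Fin n → (ℕ → M) → M} (hL : PF L) (hp : PF p) (hv : ∀ a, PF (v a))
    (hxs : ∀ i, PF (xs i)) :
    PD (fun e => Forces (L e) φ (p e) (fun a => v a e) (fun i => xs i e)) := by
  induction φ generalizing L p v with
  | falsum => exact PD.false
  | equal t₁ t₂ => exact pd_Feq hL hp (pf_term t₁ hv hxs) (pf_term t₂ hv hxs)
  | rel R ts =>
    cases R
    exact pd_Fmem hL hp (pf_term (ts 0) hv hxs) (pf_term (ts 1) hv hxs)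
  | imp φ ψ ih1 ih2 =>
    refine PD.all (P := fun q e => SetStr.mem (op q (p e)) (L e) → Forces (L e) φ q (fun a => v a e)
      (fun i => xs i e) → Forces (L e) ψ q (fun a => v a e) (fun i => xs i e)) ?_
    refine PD.imp (PD.mem (PF.op (PF.var 0) (hp.weaken 1)) (hL.weaken 1)) (PD.imp ?_ ?_)
    · exact ih1 (hL.weaken 1) (PF.var 0) (fun a => (hv a).weaken 1) (fun i => (hxs i).weaken 1)
    · exact ih2 (hL.weaken 1) (PF.var 0) (fun a => (hv a).weaken 1) (fun i => (hxs i).weaken 1)
  | all φ ih =>
    refine PD.all (P := fun x e => Forces (L e) φ (p e) (fun a => v a e)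
      (Fin.snoc (fun i => xs i e) x)) ?_
    have h := ih (L := fun e => L (fun i => e (i + 1))) (p := fun e => p (fun i => e (i + 1)))
      (v := fun a e => v a (fun i => e (i + 1)))
      (xs := Fin.snoc (α := fun _ => (ℕ → M) → M) (fun i e => xs i (fun i => e (i + 1)))
        (fun e => e 0)) (hL.weaken 1) (hp.weaken 1) (fun a => (hv a).weaken 1) (by
        intro i
        refine Fin.lastCases ?_ (fun i => ?_) i
        · simp only [Fin.snoc_last]
          exact PF.var 0
        · simp only [Fin.snoc_castSucc]
          exact (hxs i).weaken 1)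
    refine h.of_iff (fun e => ?_)
    have e1 : (fun i => (Fin.snoc (α := fun _ => (ℕ → M) → M) (fun i e => xs i (fun i => e (i + 1)))
        (fun e => e 0) : Fin _ → (ℕ → M) → M) i e) =
        Fin.snoc (fun i => xs i (fun i => e (i + 1))) (e 0) := by
      funext i
      refine Fin.lastCases ?_ (fun i => ?_) i
      · simp only [Fin.snoc_last]
      · simp only [Fin.snoc_castSucc]
    rw [e1]

end GA
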