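import Pool.Agent.GA.RmB
import Pool.Agent.GA.FName
import Pool.Agent.GA.Fc

/-!
# Random forcing, part C: the measure algebra of `2^I` as a forcing notion

Conditions are the Cauchy sequences of clopen subsets of `2^I` (with respect to the measure of the
symmetric difference) whose measures do not converge to `0`; `q ≤ p` if the measures of
`q(n) \ p(n)` converge to `0`.  This is the metric completion of the clopen algebra without `0`,
as a preorder.
-/

universe u

namespace GA

variable {M : Type u} [SetStr M] [IsZF M]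

/-- `s` is a sequence of clopen subsets of `2^I`. -/
def Sq (I s : M) : Prop := Fn s om ∧ ∀ n, SetStr.mem n om → Clo I (app s n)

theorem pd_Sq {f g : (ℕ → M) → M} (hf : PF f) (hg : PF g) : PD (fun v => Sq (f v) (g v)) :=
  PD.app2 (R := fun x y => Sq x y) (by unfold Sq; (repeat' (with_reducible first | apply pd_Fmem | apply pd_Feq | apply pd_WOd | apply pf_pfin | apply pd_Fun1 | apply pf_bit | apply pf_sd | apply pf_df | apply pf_it | apply pd_Sm | apply pf_trc | apply pd_Clo | apply pd_Dep | apply pf_rs | apply pf_hh | apply pd_Spr | apply pd_Inj | apply pf_har | apply pd_Le | apply pf_fins | apply pf_card | apply pd_Bij | apply pd_Fini | apply pd_Big | apply pd_Ord | apply pd_Tr | apply pd_Ind | apply pf_succ | apply pf_funs | apply pf_prod | apply pf_lam | apply pd_Fn | apply pf_app | apply pf_ran | apply pf_dom | apply PF.img | apply PF.pow | apply PD.sub | apply PF.adj | apply PF.un | apply PF.sUn | apply PF.op | apply PF.pr | apply PF.sep | exact PF.var _ | exact PF.const _ | apply PD.eq | apply PD.mem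 | apply PD.not | apply PD.iff | apply PD.or | apply PD.and | apply PD.imp | apply PD.ex | apply PD.all | exact PD.const _ | assumption | refine PF.comp1 (F := _) (by assumption) ?_ | refine PF.comp2 (F := _) (by assumption) ?_ ?_ | refine PF.comp3 (F := _) (by assumption) ?_ ?_ ?_ | refine PD.app1 (R := _) (by assumption) ?_ | refine PD.app2 (R := _) (by assumption) ?_ ?_ | refine PD.app3 (R := _) (by assumption) ?_ ?_ ?_ | refine PD.app4 (R := _) (by assumption) ?_ ?_ ?_ ?_))) hf hg


/-- Eventually the measure of `s(n)` is at most `2^-k`. -/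
def EvS (I k s : M) : Prop :=
  ∃ N, SetStr.mem N om ∧ ∀ n, SetStr.mem n om → GA.sub N n → Sm I k (app s n)

theorem pd_EvS {f g h : (ℕ → M) → M} (hf : PF f) (hg : PF g) (hh : PF h) :
    PD (fun v => EvS (f v) (g v) (h v)) :=
  PD.app3 (R := fun x y z => EvS x y z) (by unfold EvS; (repeat' (with_reducible first | apply pd_Sq | apply pd_Fmem | apply pd_Feq | apply pd_WOd | apply pf_pfin | apply pd_Fun1 | apply pf_bit | apply pf_sd | apply pf_df | apply pf_it | apply pd_Sm | apply pf_trc | apply pd_Clo | apply pd_Dep | apply pf_rs | apply pf_hh | apply pd_Spr | apply pd_Inj | apply pf_har | apply pd_Le | apply pf_fins | apply pf_card | apply pd_Bij | apply pd_Fini | apply pd_Big | apply pd_Ord | apply pd_Tr | apply pd_Ind | apply pf_succ | apply pf_funs | apply pf_prod | apply pf_lam | apply pd_Fn | apply pf_app | apply pf_ran | apply pf_dom | apply PF.img | apply PF.pow | apply PD.sub | apply PF.adj | apply PF.un | apply PF.sUn | apply PF.op | apply PF.pr | apply PF.sep | exact PF.var _ | exact PF.const _ |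 apply PD.eq | apply PD.mem | apply PD.not | apply PD.iff | apply PD.or | apply PD.and | apply PD.imp | apply PD.ex | apply PD.all | exact PD.const _ | assumption | refine PF.comp1 (F := _) (by assumption) ?_ | refine PF.comp2 (F := _) (by assumption) ?_ ?_ | refine PF.comp3 (F := _) (by assumption) ?_ ?_ ?_ | refine PD.app1 (R := _) (by assumption) ?_ | refine PD.app2 (R := _) (by assumption) ?_ ?_ | refine PD.app3 (R := _) (by assumption) ?_ ?_ ?_ | refine PD.app4 (R := _) (by assumption) ?_ ?_ ?_ ?_))) hf hg hh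


/-- Eventually the measure of `s(n)` is more than `2^-k`. -/
def EvB (I k s : M) : Prop :=
  ∃ N, SetStr.mem N om ∧ ∀ n, SetStr.mem n om → GA.sub N n → ¬ Sm I k (app s n)

theorem pd_EvB {f g h : (ℕ → M) → M} (hf : PF f) (hg : PF g) (hh : PF h) :
    PD (fun v => EvB (f v) (g v) (h v)) :=
  PD.app3 (R := fun x y z => EvB x y z) (by unfold EvB; (repeat' (with_reducible first | apply pd_EvS | apply pd_Sq | apply pd_Fmem | apply pd_Feq | apply pd_WOd | apply pf_pfin | apply pd_Fun1 | apply pf_bit | apply pf_sd | apply pf_df | apply pf_it | apply pd_Sm | apply pf_trc | apply pd_Clo | apply pd_Dep | apply pf_rs | apply pf_hh | apply pd_Spr | apply pd_Inj | apply pf_har | apply pd_Le | apply pf_fins | apply pf_card | apply pd_Bij | apply pd_Fini | apply pd_Big | apply pd_Ord | apply pd_Tr | apply pd_Ind | apply pf_succ | apply pf_funs | apply pf_prod | apply pf_lam | apply pd_Fn | apply pf_app | apply pf_ran | apply pf_dom | apply PF.img | apply PF.pow | apply PD.sub | apply PF.adj | apply PF.un | apply PF.sUn |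 apply PF.op | apply PF.pr | apply PF.sep | exact PF.var _ | exact PF.const _ | apply PD.eq | apply PD.mem | apply PD.not | apply PD.iff | apply PD.or | apply PD.and | apply PD.imp | apply PD.ex | apply PD.all | exact PD.const _ | assumption | refine PF.comp1 (F := _) (by assumption) ?_ | refine PF.comp2 (F := _) (by assumption) ?_ ?_ | refine PF.comp3 (F := _) (by assumption) ?_ ?_ ?_ | refine PD.app1 (R := _) (by assumption) ?_ | refine PD.app2 (R := _) (by assumption) ?_ ?_ | refine PD.app3 (R := _) (by assumption) ?_ ?_ ?_ | refine PD.app4 (R := _) (by assumption) ?_ ?_ ?_ ?_))) hf hg hh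


/-- `s` is a Cauchy sequence of clopen sets. -/
def Cau (I s : M) : Prop :=
  Sq I s ∧ ∀ k, SetStr.mem k om → ∃ N, SetStr.mem N om ∧ ∀ m n, SetStr.mem m om → SetStr.mem n om → GA.sub N m → GA.sub N n →
    Sm I k (sd (app s m) (app s n))

theorem pd_Cau {f g : (ℕ → M) → M} (hf : PF f) (hg : PF g) : PD (fun v => Cau (f v) (g v)) :=
  PD.app2 (R := fun x y => Cau x y) (by unfold Cau; (repeat' (with_reducible first | apply pd_EvB | apply pd_EvS | apply pd_Sq | apply pd_Fmem | apply pd_Feq | apply pd_WOd | apply pf_pfin | apply pd_Fun1 | apply pf_bit | apply pf_sd | apply pf_df | apply pf_it | apply pd_Sm | apply pf_trc | apply pd_Clo | apply pd_Dep | apply pf_rs | apply pf_hh | apply pd_Spr | apply pd_Inj | apply pf_har | apply pd_Le | apply pf_fins | apply pf_card | apply pd_Bij | apply pd_Fini | apply pd_Big | apply pd_Ord | apply pd_Tr | apply pd_Ind | apply pf_succ | apply pf_funs | apply pf_prod | apply pf_lam | apply pd_Fn | apply pf_app | apply pf_ran | apply pf_dom | apply PF.img | apply PF.pow | apply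 PD.sub | apply PF.adj | apply PF.un | apply PF.sUn | apply PF.op | apply PF.pr | apply PF.sep | exact PF.var _ | exact PF.const _ | apply PD.eq | apply PD.mem | apply PD.not | apply PD.iff | apply PD.or | apply PD.and | apply PD.imp | apply PD.ex | apply PD.all | exact PD.const _ | assumption | refine PF.comp1 (F := _) (by assumption) ?_ | refine PF.comp2 (F := _) (by assumption) ?_ ?_ | refine PF.comp3 (F := _) (by assumption) ?_ ?_ ?_ | refine PD.app1 (R := _) (by assumption) ?_ | refine PD.app2 (R := _) (by assumption) ?_ ?_ | refine PD.app3 (R := _) (by assumption) ?_ ?_ ?_ | refine PD.app4 (R := _) (by assumption) ?_ ?_ ?_ ?_))) hf hg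


/-- The measures of the sets `s(n)` converge to `0`. -/
def Nul (I s : M) : Prop := ∀ k, SetStr.mem k om → EvS I k s

theorem pd_Nul {f g : (ℕ → M) → M} (hf : PF f) (hg : PF g) : PD (fun v => Nul (f v) (g v)) :=
  PD.app2 (R := fun x y => Nul x y) (by unfold Nul; (repeat' (with_reducible first | apply pd_Cau | apply pd_EvB | apply pd_EvS | apply pd_Sq | apply pd_Fmem | apply pd_Feq | apply pd_WOd | apply pf_pfin | apply pd_Fun1 | apply pf_bit | apply pf_sd | apply pf_df | apply pf_it | apply pd_Sm | apply pf_trc | apply pd_Clo | apply pd_Dep | apply pf_rs | apply pf_hh | apply pd_Spr | apply pd_Inj | apply pf_har | apply pd_Le | apply pf_fins | apply pf_card | apply pd_Bij | apply pd_Fini | apply pd_Big | apply pd_Ord | apply pd_Tr | apply pd_Ind | apply pf_succ | apply pf_funs | apply pf_prod | apply pf_lam | apply pd_Fn | apply pf_app | apply pf_ran | apply pf_dom | apply PF.img | apply PF.pow | apply PD.sub | apply PF.adj | apply PF.un | apply PF.sUn | apply PF.op | apply PF.pr | apply PF.sep | exact PF.var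 _ | exact PF.const _ | apply PD.eq | apply PD.mem | apply PD.not | apply PD.iff | apply PD.or | apply PD.and | apply PD.imp | apply PD.ex | apply PD.all | exact PD.const _ | assumption | refine PF.comp1 (F := _) (by assumption) ?_ | refine PF.comp2 (F := _) (by assumption) ?_ ?_ | refine PF.comp3 (F := _) (by assumption) ?_ ?_ ?_ | refine PD.app1 (R := _) (by assumption) ?_ | refine PD.app2 (R := _) (by assumption) ?_ ?_ | refine PD.app3 (R := _) (by assumption) ?_ ?_ ?_ | refine PD.app4 (R := _) (by assumption) ?_ ?_ ?_ ?_))) hf hg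


/-- The sequence of intersections. -/
noncomputable def sit (p q : M) : M := lam (fun n => it (app p n) (app q n)) om

theorem pf_sit {f g : (ℕ → M) → M} (hf : PF f) (hg : PF g) : PF (fun v => sit (f v) (g v)) :=
  PF.comp2 (F := fun x y => sit x y) (by unfold sit; (repeat' (with_reducible first | apply pd_Nul | apply pd_Cau | apply pd_EvB | apply pd_EvS | apply pd_Sq | apply pd_Fmem | apply pd_Feq | apply pd_WOd | apply pf_pfin | apply pd_Fun1 | apply pf_bit | apply pf_sd | apply pf_df | apply pf_it | apply pd_Sm | apply pf_trc | apply pd_Clo | apply pd_Dep | apply pf_rs | apply pf_hh | apply pd_Spr | apply pd_Inj | apply pf_har | apply pd_Le | apply pf_fins | apply pf_card | apply pd_Bij | apply pd_Fini | apply pd_Big | apply pd_Ord | apply pd_Tr | apply pd_Ind | apply pf_succ | apply pf_funs | apply pf_prod | apply pf_lam | apply pd_Fn | apply pf_app | apply pf_ran | apply pf_dom | apply PF.img | apply PF.pow | apply PD.sub | apply PF.adj | apply PF.un | apply PF.sUn | apply PF.op | apply PF.pr | apply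 PF.sep | exact PF.var _ | exact PF.const _ | apply PD.eq | apply PD.mem | apply PD.not | apply PD.iff | apply PD.or | apply PD.and | apply PD.imp | apply PD.ex | apply PD.all | exact PD.const _ | assumption | refine PF.comp1 (F := _) (by assumption) ?_ | refine PF.comp2 (F := _) (by assumption) ?_ ?_ | refine PF.comp3 (F := _) (by assumption) ?_ ?_ ?_ | refine PD.app1 (R := _) (by assumption) ?_ | refine PD.app2 (R := _) (by assumption) ?_ ?_ | refine PD.app3 (R := _) (by assumption) ?_ ?_ ?_ | refine PD.app4 (R := _) (by assumption) ?_ ?_ ?_ ?_))) hf hg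


/-- The sequence of unions. -/
noncomputable def sun (p q : M) : M := lam (fun n => un (app p n) (app q n)) om

theorem pf_sun {f g : (ℕ → M) → M} (hf : PF f) (hg : PF g) : PF (fun v => sun (f v) (g v)) :=
  PF.comp2 (F := fun x y => sun x y) (by unfold sun; (repeat' (with_reducible first | apply pf_sit | apply pd_Nul | apply pd_Cau | apply pd_EvB | apply pd_EvS | apply pd_Sq | apply pd_Fmem | apply pd_Feq | apply pd_WOd | apply pf_pfin | apply pd_Fun1 | apply pf_bit | apply pf_sd | apply pf_df | apply pf_it | apply pd_Sm | apply pf_trc | apply pd_Clo | apply pd_Dep | apply pf_rs | apply pf_hh | apply pd_Spr | apply pd_Inj | apply pf_har | apply pd_Le | apply pf_fins | apply pf_card | apply pd_Bij | apply pd_Fini | apply pd_Big | apply pd_Ord | apply pd_Tr | apply pd_Ind | apply pf_succ | apply pf_funs | apply pf_prod | apply pf_lam | apply pd_Fn | apply pf_app | apply pf_ran | apply pf_dom | apply PF.img | apply PF.pow | apply PD.sub | apply PF.adj | apply PF.un | apply PF.sUn | apply PF.op | apply PF.pr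 | apply PF.sep | exact PF.var _ | exact PF.const _ | apply PD.eq | apply PD.mem | apply PD.not | apply PD.iff | apply PD.or | apply PD.and | apply PD.imp | apply PD.ex | apply PD.all | exact PD.const _ | assumption | refine PF.comp1 (F := _) (by assumption) ?_ | refine PF.comp2 (F := _) (by assumption) ?_ ?_ | refine PF.comp3 (F := _) (by assumption) ?_ ?_ ?_ | refine PD.app1 (R := _) (by assumption) ?_ | refine PD.app2 (R := _) (by assumption) ?_ ?_ | refine PD.app3 (R := _) (by assumption) ?_ ?_ ?_ | refine PD.app4 (R := _) (by assumption) ?_ ?_ ?_ ?_))) hf hg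


/-- The sequence of differences. -/
noncomputable def sdf (p q : M) : M := lam (fun n => df (app p n) (app q n)) om

theorem pf_sdf {f g : (ℕ → M) → M} (hf : PF f) (hg : PF g) : PF (fun v => sdf (f v) (g v)) :=
  PF.comp2 (F := fun x y => sdf x y) (by unfold sdf; (repeat' (with_reducible first | apply pf_sun | apply pf_sit | apply pd_Nul | apply pd_Cau | apply pd_EvB | apply pd_EvS | apply pd_Sq | apply pd_Fmem | apply pd_Feq | apply pd_WOd | apply pf_pfin | apply pd_Fun1 | apply pf_bit | apply pf_sd | apply pf_df | apply pf_it | apply pd_Sm | apply pf_trc | apply pd_Clo | apply pd_Dep | apply pf_rs | apply pf_hh | apply pd_Spr | apply pd_Inj | apply pf_har | apply pd_Le | apply pf_fins | apply pf_card | apply pd_Bij | apply pd_Fini | apply pd_Big | apply pd_Ord | apply pd_Tr | apply pd_Ind | apply pf_succ | apply pf_funs | apply pf_prod | apply pf_lam | apply pd_Fn | apply pf_app | apply pf_ran | apply pf_dom | apply PF.img | apply PF.pow | apply PD.sub | apply PF.adj | apply PF.un | apply PF.sUn | apply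 PF.op | apply PF.pr | apply PF.sep | exact PF.var _ | exact PF.const _ | apply PD.eq | apply PD.mem | apply PD.not | apply PD.iff | apply PD.or | apply PD.and | apply PD.imp | apply PD.ex | apply PD.all | exact PD.const _ | assumption | refine PF.comp1 (F := _) (by assumption) ?_ | refine PF.comp2 (F := _) (by assumption) ?_ ?_ | refine PF.comp3 (F := _) (by assumption) ?_ ?_ ?_ | refine PD.app1 (R := _) (by assumption) ?_ | refine PD.app2 (R := _) (by assumption) ?_ ?_ | refine PD.app3 (R := _) (by assumption) ?_ ?_ ?_ | refine PD.app4 (R := _) (by assumption) ?_ ?_ ?_ ?_))) hf hg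


/-- The constant sequence. -/
noncomputable def cst (c : M) : M := lam (fun _ => c) om

theorem pf_cst {f : (ℕ → M) → M} (hf : PF f) : PF (fun v => cst (f v)) :=
  PF.comp1 (F := fun x => cst x) (by unfold cst; (repeat' (with_reducible first | apply pf_sdf | apply pf_sun | apply pf_sit | apply pd_Nul | apply pd_Cau | apply pd_EvB | apply pd_EvS | apply pd_Sq | apply pd_Fmem | apply pd_Feq | apply pd_WOd | apply pf_pfin | apply pd_Fun1 | apply pf_bit | apply pf_sd | apply pf_df | apply pf_it | apply pd_Sm | apply pf_trc | apply pd_Clo | apply pd_Dep | apply pf_rs | apply pf_hh | apply pd_Spr | apply pd_Inj | apply pf_har | apply pd_Le | apply pf_fins | apply pf_card | apply pd_Bij | apply pd_Fini | apply pd_Big | apply pd_Ord | apply pd_Tr | apply pd_Ind | apply pf_succ | apply pf_funs | apply pf_prod | apply pf_lam | apply pd_Fn | apply pf_app | apply pf_ran | apply pf_dom | apply PF.img | apply PF.pow | apply PD.sub | apply PF.adj | apply PF.un | apply PF.sUn | apply PF.op | apply PF.pr | apply PF.sep | exact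 PF.var _ | exact PF.const _ | apply PD.eq | apply PD.mem | apply PD.not | apply PD.iff | apply PD.or | apply PD.and | apply PD.imp | apply PD.ex | apply PD.all | exact PD.const _ | assumption | refine PF.comp1 (F := _) (by assumption) ?_ | refine PF.comp2 (F := _) (by assumption) ?_ ?_ | refine PF.comp3 (F := _) (by assumption) ?_ ?_ ?_ | refine PD.app1 (R := _) (by assumption) ?_ | refine PD.app2 (R := _) (by assumption) ?_ ?_ | refine PD.app3 (R := _) (by assumption) ?_ ?_ ?_ | refine PD.app4 (R := _) (by assumption) ?_ ?_ ?_ ?_))) hf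


theorem app_sit {p q n : M} (hn : SetStr.mem n om) : app (sit p q) n = it (app p n) (app q n) :=
  app_lam (by (repeat' (with_reducible first | apply pf_cst | apply pf_sdf | apply pf_sun | apply pf_sit | apply pd_Nul | apply pd_Cau | apply pd_EvB | apply pd_EvS | apply pd_Sq | apply pd_Fmem | apply pd_Feq | apply pd_WOd | apply pf_pfin | apply pd_Fun1 | apply pf_bit | apply pf_sd | apply pf_df | apply pf_it | apply pd_Sm | apply pf_trc | apply pd_Clo | apply pd_Dep | apply pf_rs | apply pf_hh | apply pd_Spr | apply pd_Inj | apply pf_har | apply pd_Le | apply pf_fins | apply pf_card | apply pd_Bij | apply pd_Fini | apply pd_Big | apply pd_Ord | apply pd_Tr | apply pd_Ind | apply pf_succ | apply pf_funs | apply pf_prod | apply pf_lam | apply pd_Fn | apply pf_app | apply pf_ran | apply pf_dom | apply PF.img | apply PF.pow | apply PD.sub | apply PF.adj | apply PF.un | apply PF.sUn | apply PF.op | apply PF.pr | apply PF.sep | exact PF.var _ | exact PF.const _ | apply PD.eq | apply PD.mem | apply PD.not | apply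 PD.iff | apply PD.or | apply PD.and | apply PD.imp | apply PD.ex | apply PD.all | exact PD.const _ | assumption | refine PF.comp1 (F := _) (by assumption) ?_ | refine PF.comp2 (F := _) (by assumption) ?_ ?_ | refine PF.comp3 (F := _) (by assumption) ?_ ?_ ?_ | refine PD.app1 (R := _) (by assumption) ?_ | refine PD.app2 (R := _) (by assumption) ?_ ?_ | refine PD.app3 (R := _) (by assumption) ?_ ?_ ?_ | refine PD.app4 (R := _) (by assumption) ?_ ?_ ?_ ?_))) hn

theorem app_sun {p q n : M} (hn : SetStr.mem n om) : app (sun p q) n = un (app p n) (app q n) :=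
  app_lam (by (repeat' (with_reducible first | apply pf_cst | apply pf_sdf | apply pf_sun | apply pf_sit | apply pd_Nul | apply pd_Cau | apply pd_EvB | apply pd_EvS | apply pd_Sq | apply pd_Fmem | apply pd_Feq | apply pd_WOd | apply pf_pfin | apply pd_Fun1 | apply pf_bit | apply pf_sd | apply pf_df | apply pf_it | apply pd_Sm | apply pf_trc | apply pd_Clo | apply pd_Dep | apply pf_rs | apply pf_hh | apply pd_Spr | apply pd_Inj | apply pf_har | apply pd_Le | apply pf_fins | apply pf_card | apply pd_Bij | apply pd_Fini | apply pd_Big | apply pd_Ord | apply pd_Tr | apply pd_Ind | apply pf_succ | apply pf_funs | apply pf_prod | apply pf_lam | apply pd_Fn | apply pf_app | apply pf_ran | apply pf_dom | apply PF.img | apply PF.pow | apply PD.sub | apply PF.adj | apply PF.un | apply PF.sUn | apply PF.op | apply PF.pr | apply PF.sep | exact PF.var _ | exact PF.const _ | apply PD.eq | apply PD.mem | apply PD.not | apply PD.iff | apply PD.or | apply PD.and | apply PD.imp | apply PD.ex | apply PD.all | exact PD.const _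 | assumption | refine PF.comp1 (F := _) (by assumption) ?_ | refine PF.comp2 (F := _) (by assumption) ?_ ?_ | refine PF.comp3 (F := _) (by assumption) ?_ ?_ ?_ | refine PD.app1 (R := _) (by assumption) ?_ | refine PD.app2 (R := _) (by assumption) ?_ ?_ | refine PD.app3 (R := _) (by assumption) ?_ ?_ ?_ | refine PD.app4 (R := _) (by assumption) ?_ ?_ ?_ ?_))) hn

theorem app_sdf {p q n : M} (hn : SetStr.mem n om) : app (sdf p q) n = df (app p n) (app q n) :=
  app_lam (by (repeat' (with_reducible first | apply pf_cst | apply pf_sdf | apply pf_sun | apply pf_sit | apply pd_Nul | apply pd_Cau | apply pd_EvB | apply pd_EvS | apply pd_Sq | apply pd_Fmem | apply pd_Feq | apply pd_WOd | apply pf_pfin | apply pd_Fun1 | apply pf_bit | apply pf_sd | apply pf_df | apply pf_it | apply pd_Sm | apply pf_trc | apply pd_Clo | apply pd_Dep | apply pf_rs | apply pf_hh | apply pd_Spr | apply pd_Inj | apply pf_har | apply pd_Le | apply pf_fins | apply pf_card | apply pd_Bij | apply pd_Fini | apply pd_Big | apply pd_Ord | apply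 pd_Tr | apply pd_Ind | apply pf_succ | apply pf_funs | apply pf_prod | apply pf_lam | apply pd_Fn | apply pf_app | apply pf_ran | apply pf_dom | apply PF.img | apply PF.pow | apply PD.sub | apply PF.adj | apply PF.un | apply PF.sUn | apply PF.op | apply PF.pr | apply PF.sep | exact PF.var _ | exact PF.const _ | apply PD.eq | apply PD.mem | apply PD.not | apply PD.iff | apply PD.or | apply PD.and | apply PD.imp | apply PD.ex | apply PD.all | exact PD.const _ | assumption | refine PF.comp1 (F := _) (by assumption) ?_ | refine PF.comp2 (F := _) (by assumption) ?_ ?_ | refine PF.comp3 (F := _) (by assumption) ?_ ?_ ?_ | refine PD.app1 (R := _) (by assumption) ?_ | refine PD.app2 (R := _) (by assumption) ?_ ?_ | refine PD.app3 (R := _) (by assumption) ?_ ?_ ?_ | refine PD.app4 (R := _) (by assumption) ?_ ?_ ?_ ?_))) hn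

theorem app_cst {c n : M} (hn : SetStr.mem n om) : app (cst c) n = c :=
  app_lam (by (repeat' (with_reducible first | apply pf_cst | apply pf_sdf | apply pf_sun | apply pf_sit | apply pd_Nul | apply pd_Cau | apply pd_EvB | apply pd_EvS | apply pd_Sq | apply pd_Fmem | apply pd_Feq | apply pd_WOd | apply pf_pfin | apply pd_Fun1 | apply pf_bit | apply pf_sd | apply pf_df | apply pf_it | apply pd_Sm | apply pf_trc | apply pd_Clo | apply pd_Dep | apply pf_rs | apply pf_hh | apply pd_Spr | apply pd_Inj | apply pf_har | apply pd_Le | apply pf_fins | apply pf_card | apply pd_Bij | apply pd_Fini | apply pd_Big | apply pd_Ord | apply pd_Tr | apply pd_Ind | apply pf_succ | apply pf_funs | apply pf_prod | apply pf_lam | apply pd_Fn | apply pf_app | apply pf_ran | apply pf_dom | apply PF.img | apply PF.pow | apply PD.sub | apply PF.adj | apply PF.un | apply PF.sUn | apply PF.op | apply PF.pr | apply PF.sep | exact PF.var _ | exact PF.const _ | apply PD.eq | apply PD.mem | apply PD.not | apply PD.iff | apply PD.or | apply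 PD.and | apply PD.imp | apply PD.ex | apply PD.all | exact PD.const _ | assumption | refine PF.comp1 (F := _) (by assumption) ?_ | refine PF.comp2 (F := _) (by assumption) ?_ ?_ | refine PF.comp3 (F := _) (by assumption) ?_ ?_ ?_ | refine PD.app1 (R := _) (by assumption) ?_ | refine PD.app2 (R := _) (by assumption) ?_ ?_ | refine PD.app3 (R := _) (by assumption) ?_ ?_ ?_ | refine PD.app4 (R := _) (by assumption) ?_ ?_ ?_ ?_))) hn

/-- The set of clopen subsets of `2^I`. -/
noncomputable def cls (I : M) : M := sep (pow (funs I tw)) (fun c => Clo I c)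

theorem pf_cls {f : (ℕ → M) → M} (hf : PF f) : PF (fun v => cls (f v)) :=
  PF.comp1 (F := fun x => cls x) (by unfold cls; (repeat' (with_reducible first | apply pf_cst | apply pf_sdf | apply pf_sun | apply pf_sit | apply pd_Nul | apply pd_Cau | apply pd_EvB | apply pd_EvS | apply pd_Sq | apply pd_Fmem | apply pd_Feq | apply pd_WOd | apply pf_pfin | apply pd_Fun1 | apply pf_bit | apply pf_sd | apply pf_df | apply pf_it | apply pd_Sm | apply pf_trc | apply pd_Clo | apply pd_Dep | apply pf_rs | apply pf_hh | apply pd_Spr | apply pd_Inj | apply pf_har | apply pd_Le | apply pf_fins | apply pf_card | apply pd_Bij | apply pd_Fini | apply pd_Big | apply pd_Ord | apply pd_Tr | apply pd_Ind | apply pf_succ | apply pf_funs | apply pf_prod | apply pf_lam | apply pd_Fn | apply pf_app | apply pf_ran | apply pf_dom | apply PF.img | apply PF.pow | apply PD.sub | apply PF.adj | apply PF.un | apply PF.sUn | apply PF.op | apply PF.pr | apply PF.sep | exact PF.var _ | exact PF.const _ | apply PD.eq | apply PD.mem | apply PD.not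 | apply PD.iff | apply PD.or | apply PD.and | apply PD.imp | apply PD.ex | apply PD.all | exact PD.const _ | assumption | refine PF.comp1 (F := _) (by assumption) ?_ | refine PF.comp2 (F := _) (by assumption) ?_ ?_ | refine PF.comp3 (F := _) (by assumption) ?_ ?_ ?_ | refine PD.app1 (R := _) (by assumption) ?_ | refine PD.app2 (R := _) (by assumption) ?_ ?_ | refine PD.app3 (R := _) (by assumption) ?_ ?_ ?_ | refine PD.app4 (R := _) (by assumption) ?_ ?_ ?_ ?_))) hf


/-- The conditions. -/
noncomputable def rmP (I : M) : M := sep (funs om (cls I)) (fun s => Cau I s ∧ ¬ Nul I s)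

theorem pf_rmP {f : (ℕ → M) → M} (hf : PF f) : PF (fun v => rmP (f v)) :=
  PF.comp1 (F := fun x => rmP x) (by unfold rmP; (repeat' (with_reducible first | apply pf_cls | apply pf_cst | apply pf_sdf | apply pf_sun | apply pf_sit | apply pd_Nul | apply pd_Cau | apply pd_EvB | apply pd_EvS | apply pd_Sq | apply pd_Fmem | apply pd_Feq | apply pd_WOd | apply pf_pfin | apply pd_Fun1 | apply pf_bit | apply pf_sd | apply pf_df | apply pf_it | apply pd_Sm | apply pf_trc | apply pd_Clo | apply pd_Dep | apply pf_rs | apply pf_hh | apply pd_Spr | apply pd_Inj | apply pf_har | apply pd_Le | apply pf_fins | apply pf_card | apply pd_Bij | apply pd_Fini | apply pd_Big | apply pd_Ord | apply pd_Tr | apply pd_Ind | apply pf_succ | apply pf_funs | apply pf_prod | apply pf_lam | apply pd_Fn | apply pf_app | apply pf_ran | apply pf_dom | apply PF.img | apply PF.pow | apply PD.sub | apply PF.adj | apply PF.un | apply PF.sUn | apply PF.op | apply PF.pr | apply PF.sep | exact PF.var _ | exact PF.const _ | apply PD.eq | apply PD.mem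 | apply PD.not | apply PD.iff | apply PD.or | apply PD.and | apply PD.imp | apply PD.ex | apply PD.all | exact PD.const _ | assumption | refine PF.comp1 (F := _) (by assumption) ?_ | refine PF.comp2 (F := _) (by assumption) ?_ ?_ | refine PF.comp3 (F := _) (by assumption) ?_ ?_ ?_ | refine PD.app1 (R := _) (by assumption) ?_ | refine PD.app2 (R := _) (by assumption) ?_ ?_ | refine PD.app3 (R := _) (by assumption) ?_ ?_ ?_ | refine PD.app4 (R := _) (by assumption) ?_ ?_ ?_ ?_))) hf


/-- The order. -/
noncomputable def rmL (I : M) : M :=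
  sep (prod (rmP I) (rmP I)) (fun z => ∃ q p, z = op q p ∧ Nul I (sdf q p))

theorem pf_rmL {f : (ℕ → M) → M} (hf : PF f) : PF (fun v => rmL (f v)) :=
  PF.comp1 (F := fun x => rmL x) (by unfold rmL; (repeat' (with_reducible first | apply pf_rmP | apply pf_cls | apply pf_cst | apply pf_sdf | apply pf_sun | apply pf_sit | apply pd_Nul | apply pd_Cau | apply pd_EvB | apply pd_EvS | apply pd_Sq | apply pd_Fmem | apply pd_Feq | apply pd_WOd | apply pf_pfin | apply pd_Fun1 | apply pf_bit | apply pf_sd | apply pf_df | apply pf_it | apply pd_Sm | apply pf_trc | apply pd_Clo | apply pd_Dep | apply pf_rs | apply pf_hh | apply pd_Spr | apply pd_Inj | apply pf_har | apply pd_Le | apply pf_fins | apply pf_card | apply pd_Bij | apply pd_Fini | apply pd_Big | apply pd_Ord | apply pd_Tr | apply pd_Ind | apply pf_succ | apply pf_funs | apply pf_prod | apply pf_lam | apply pd_Fn | apply pf_app | apply pf_ran | apply pf_dom | apply PF.img | apply PF.pow | apply PD.sub | apply PF.adj | apply PF.un | apply PF.sUn | apply PF.op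 | apply PF.pr | apply PF.sep | exact PF.var _ | exact PF.const _ | apply PD.eq | apply PD.mem | apply PD.not | apply PD.iff | apply PD.or | apply PD.and | apply PD.imp | apply PD.ex | apply PD.all | exact PD.const _ | assumption | refine PF.comp1 (F := _) (by assumption) ?_ | refine PF.comp2 (F := _) (by assumption) ?_ ?_ | refine PF.comp3 (F := _) (by assumption) ?_ ?_ ?_ | refine PD.app1 (R := _) (by assumption) ?_ | refine PD.app2 (R := _) (by assumption) ?_ ?_ | refine PD.app3 (R := _) (by assumption) ?_ ?_ ?_ | refine PD.app4 (R := _) (by assumption) ?_ ?_ ?_ ?_))) hf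


/-- The largest condition: the constant sequence `2^I`. -/
noncomputable def rmO (I : M) : M := cst (funs I tw)

theorem pf_rmO {f : (ℕ → M) → M} (hf : PF f) : PF (fun v => rmO (f v)) :=
  PF.comp1 (F := fun x => rmO x) (by unfold rmO; (repeat' (with_reducible first | apply pf_rmL | apply pf_rmP | apply pf_cls | apply pf_cst | apply pf_sdf | apply pf_sun | apply pf_sit | apply pd_Nul | apply pd_Cau | apply pd_EvB | apply pd_EvS | apply pd_Sq | apply pd_Fmem | apply pd_Feq | apply pd_WOd | apply pf_pfin | apply pd_Fun1 | apply pf_bit | apply pf_sd | apply pf_df | apply pf_it | apply pd_Sm | apply pf_trc | apply pd_Clo | apply pd_Dep | apply pf_rs | apply pf_hh | apply pd_Spr | apply pd_Inj | apply pf_har | apply pd_Le | apply pf_fins | apply pf_card | apply pd_Bij | apply pd_Fini | apply pd_Big | apply pd_Ord | apply pd_Tr | apply pd_Ind | apply pf_succ | apply pf_funs | apply pf_prod | apply pf_lam | apply pd_Fn | apply pf_app | apply pf_ran | apply pf_dom | apply PF.img | apply PF.pow | apply PD.sub | apply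 PF.adj | apply PF.un | apply PF.sUn | apply PF.op | apply PF.pr | apply PF.sep | exact PF.var _ | exact PF.const _ | apply PD.eq | apply PD.mem | apply PD.not | apply PD.iff | apply PD.or | apply PD.and | apply PD.imp | apply PD.ex | apply PD.all | exact PD.const _ | assumption | refine PF.comp1 (F := _) (by assumption) ?_ | refine PF.comp2 (F := _) (by assumption) ?_ ?_ | refine PF.comp3 (F := _) (by assumption) ?_ ?_ ?_ | refine PD.app1 (R := _) (by assumption) ?_ | refine PD.app2 (R := _) (by assumption) ?_ ?_ | refine PD.app3 (R := _) (by assumption) ?_ ?_ ?_ | refine PD.app4 (R := _) (by assumption) ?_ ?_ ?_ ?_))) hf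


/-- MODULE c1 -/
theorem mem_cls {I c : M} : SetStr.mem c (cls I) ↔ Clo I c := by
  unfold cls
  rw [mem_sep (by (repeat' (with_reducible first | apply pf_rmO | apply pf_rmL | apply pf_rmP | apply pf_cls | apply pf_cst | apply pf_sdf | apply pf_sun | apply pf_sit | apply pd_Nul | apply pd_Cau | apply pd_EvB | apply pd_EvS | apply pd_Sq | apply pd_Fmem | apply pd_Feq | apply pd_WOd | apply pf_pfin | apply pd_Fun1 | apply pf_bit | apply pf_sd | apply pf_df | apply pf_it | apply pd_Sm | apply pf_trc | apply pd_Clo | apply pd_Dep | apply pf_rs | apply pf_hh | apply pd_Spr | apply pd_Inj | apply pf_har | apply pd_Le | apply pf_fins | apply pf_card | apply pd_Bij | apply pd_Fini | apply pd_Big | apply pd_Ord | apply pd_Tr | apply pd_Ind | apply pf_succ | apply pf_funs | apply pf_prod | apply pf_lam | apply pd_Fn | apply pf_app | apply pf_ran | apply pf_dom | apply PF.img | apply PF.pow | apply PD.sub | apply PF.adj | apply PF.un | apply PF.sUn | apply PF.op | apply PF.pr | apply PF.sep | exact PF.var _ | exact PF.const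 _ | apply PD.eq | apply PD.mem | apply PD.not | apply PD.iff | apply PD.or | apply PD.and | apply PD.imp | apply PD.ex | apply PD.all | exact PD.const _ | assumption | refine PF.comp1 (F := _) (by assumption) ?_ | refine PF.comp2 (F := _) (by assumption) ?_ ?_ | refine PF.comp3 (F := _) (by assumption) ?_ ?_ ?_ | refine PD.app1 (R := _) (by assumption) ?_ | refine PD.app2 (R := _) (by assumption) ?_ ?_ | refine PD.app3 (R := _) (by assumption) ?_ ?_ ?_ | refine PD.app4 (R := _) (by assumption) ?_ ?_ ?_ ?_))), mem_pow]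
  exact ⟨fun h => h.2, fun h => ⟨by obtain ⟨a, ha⟩ := h; exact ha.2.2.1, h⟩⟩

/-- MODULE c1 -/
theorem mem_rmP {I s : M} : SetStr.mem s (rmP I) ↔ Cau I s ∧ ¬ Nul I s := by
  unfold rmP
  rw [mem_sep (by (repeat' (with_reducible first | apply pf_rmO | apply pf_rmL | apply pf_rmP | apply pf_cls | apply pf_cst | apply pf_sdf | apply pf_sun | apply pf_sit | apply pd_Nul | apply pd_Cau | apply pd_EvB | apply pd_EvS | apply pd_Sq | apply pd_Fmem | apply pd_Feq | apply pd_WOd | apply pf_pfin | apply pd_Fun1 | apply pf_bit | apply pf_sd | apply pf_df | apply pf_it | apply pd_Sm | apply pf_trc | apply pd_Clo | apply pd_Dep | apply pf_rs | apply pf_hh | apply pd_Spr | apply pd_Inj | apply pf_har | apply pd_Le | apply pf_fins | apply pf_card | apply pd_Bij | apply pd_Fini | apply pd_Big | apply pd_Ord | apply pd_Tr | apply pd_Ind | apply pf_succ | apply pf_funs | apply pf_prod | apply pf_lam | apply pd_Fn | apply pf_app | apply pf_ran | apply pf_dom | apply PF.img | apply PF.pow | apply PD.sub | apply PF.adj | apply PF.un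 | apply PF.sUn | apply PF.op | apply PF.pr | apply PF.sep | exact PF.var _ | exact PF.const _ | apply PD.eq | apply PD.mem | apply PD.not | apply PD.iff | apply PD.or | apply PD.and | apply PD.imp | apply PD.ex | apply PD.all | exact PD.const _ | assumption | refine PF.comp1 (F := _) (by assumption) ?_ | refine PF.comp2 (F := _) (by assumption) ?_ ?_ | refine PF.comp3 (F := _) (by assumption) ?_ ?_ ?_ | refine PD.app1 (R := _) (by assumption) ?_ | refine PD.app2 (R := _) (by assumption) ?_ ?_ | refine PD.app3 (R := _) (by assumption) ?_ ?_ ?_ | refine PD.app4 (R := _) (by assumption) ?_ ?_ ?_ ?_))), mem_funs]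
  exact ⟨fun h => h.2, fun h => ⟨⟨h.1.1.1, fun n hn => mem_cls.2 (h.1.1.2 n hn)⟩, h⟩⟩

/-- MODULE c1 -/
theorem op_mem_rmL {I q p : M} : SetStr.mem (op q p) (rmL I) ↔ SetStr.mem q (rmP I) ∧ SetStr.mem p (rmP I) ∧ Nul I (sdf q p) := by
  unfold rmL
  rw [mem_sep (by (repeat' (with_reducible first | apply pf_rmO | apply pf_rmL | apply pf_rmP | apply pf_cls | apply pf_cst | apply pf_sdf | apply pf_sun | apply pf_sit | apply pd_Nul | apply pd_Cau | apply pd_EvB | apply pd_EvS | apply pd_Sq | apply pd_Fmem | apply pd_Feq | apply pd_WOd | apply pf_pfin | apply pd_Fun1 | apply pf_bit | apply pf_sd | apply pf_df | apply pf_it | apply pd_Sm | apply pf_trc | apply pd_Clo | apply pd_Dep | apply pf_rs | apply pf_hh | apply pd_Spr | apply pd_Inj | apply pf_har | apply pd_Le | apply pf_fins | apply pf_card | apply pd_Bij | apply pd_Fini | apply pd_Big | apply pd_Ord | apply pd_Tr | apply pd_Ind | apply pf_succ | apply pf_funs | apply pf_prod | apply pf_lam | apply pd_Fn | apply pf_app | apply pf_ran | apply pf_dom | apply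 PF.img | apply PF.pow | apply PD.sub | apply PF.adj | apply PF.un | apply PF.sUn | apply PF.op | apply PF.pr | apply PF.sep | exact PF.var _ | exact PF.const _ | apply PD.eq | apply PD.mem | apply PD.not | apply PD.iff | apply PD.or | apply PD.and | apply PD.imp | apply PD.ex | apply PD.all | exact PD.const _ | assumption | refine PF.comp1 (F := _) (by assumption) ?_ | refine PF.comp2 (F := _) (by assumption) ?_ ?_ | refine PF.comp3 (F := _) (by assumption) ?_ ?_ ?_ | refine PD.app1 (R := _) (by assumption) ?_ | refine PD.app2 (R := _) (by assumption) ?_ ?_ | refine PD.app3 (R := _) (by assumption) ?_ ?_ ?_ | refine PD.app4 (R := _) (by assumption) ?_ ?_ ?_ ?_))), op_mem_prod]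
  constructor
  · rintro ⟨⟨hq, hp⟩, q', p', e, h⟩
    rw [op_inj] at e
    obtain ⟨rfl, rfl⟩ := e
    exact ⟨hq, hp, h⟩
  · rintro ⟨hq, hp, h⟩
    exact ⟨⟨hq, hp⟩, q, p, rfl, h⟩

/-- MODULE c1 -/
theorem Sq.sit {I p q : M} (hp : Sq I p) (hq : Sq I q) : Sq I (sit p q) := by
  refine ⟨lam_Fn (by (repeat' (with_reducible first | apply pf_rmO | apply pf_rmL | apply pf_rmP | apply pf_cls | apply pf_cst | apply pf_sdf | apply pf_sun | apply pf_sit | apply pd_Nul | apply pd_Cau | apply pd_EvB | apply pd_EvS | apply pd_Sq | apply pd_Fmem | apply pd_Feq | apply pd_WOd | apply pf_pfin | apply pd_Fun1 | apply pf_bit | apply pf_sd | apply pf_df | apply pf_it | apply pd_Sm | apply pf_trc | apply pd_Clo | apply pd_Dep | apply pf_rs | apply pf_hh | apply pd_Spr | apply pd_Inj | apply pf_har | apply pd_Le | apply pf_fins | apply pf_card | apply pd_Bij | apply pd_Fini | apply pd_Big | apply pd_Ord | apply pd_Tr | apply pd_Ind | apply pf_succ | apply pf_funs | apply pf_prod | apply pf_lam | apply pd_Fn | apply pf_app | apply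 pf_ran | apply pf_dom | apply PF.img | apply PF.pow | apply PD.sub | apply PF.adj | apply PF.un | apply PF.sUn | apply PF.op | apply PF.pr | apply PF.sep | exact PF.var _ | exact PF.const _ | apply PD.eq | apply PD.mem | apply PD.not | apply PD.iff | apply PD.or | apply PD.and | apply PD.imp | apply PD.ex | apply PD.all | exact PD.const _ | assumption | refine PF.comp1 (F := _) (by assumption) ?_ | refine PF.comp2 (F := _) (by assumption) ?_ ?_ | refine PF.comp3 (F := _) (by assumption) ?_ ?_ ?_ | refine PD.app1 (R := _) (by assumption) ?_ | refine PD.app2 (R := _) (by assumption) ?_ ?_ | refine PD.app3 (R := _) (by assumption) ?_ ?_ ?_ | refine PD.app4 (R := _) (by assumption) ?_ ?_ ?_ ?_))) _, fun n hn => ?_⟩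
  rw [app_sit hn]
  exact Clo.it (hp.2 n hn) (hq.2 n hn)

/-- MODULE c1 -/
theorem Sq.sun {I p q : M} (hp : Sq I p) (hq : Sq I q) : Sq I (sun p q) := by
  refine ⟨lam_Fn (by (repeat' (with_reducible first | apply pf_rmO | apply pf_rmL | apply pf_rmP | apply pf_cls | apply pf_cst | apply pf_sdf | apply pf_sun | apply pf_sit | apply pd_Nul | apply pd_Cau | apply pd_EvB | apply pd_EvS | apply pd_Sq | apply pd_Fmem | apply pd_Feq | apply pd_WOd | apply pf_pfin | apply pd_Fun1 | apply pf_bit | apply pf_sd | apply pf_df | apply pf_it | apply pd_Sm | apply pf_trc | apply pd_Clo | apply pd_Dep | apply pf_rs | apply pf_hh | apply pd_Spr | apply pd_Inj | apply pf_har | apply pd_Le | apply pf_fins | apply pf_card | apply pd_Bij | apply pd_Fini | apply pd_Big | apply pd_Ord | apply pd_Tr | apply pd_Ind | apply pf_succ | apply pf_funs | apply pf_prod | apply pf_lam | apply pd_Fn | apply pf_app | apply pf_ran | apply pf_dom | apply PF.img | apply PF.pow | apply PD.sub | apply PF.adj | apply PF.un | apply PF.sUn | apply PF.op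 | apply PF.pr | apply PF.sep | exact PF.var _ | exact PF.const _ | apply PD.eq | apply PD.mem | apply PD.not | apply PD.iff | apply PD.or | apply PD.and | apply PD.imp | apply PD.ex | apply PD.all | exact PD.const _ | assumption | refine PF.comp1 (F := _) (by assumption) ?_ | refine PF.comp2 (F := _) (by assumption) ?_ ?_ | refine PF.comp3 (F := _) (by assumption) ?_ ?_ ?_ | refine PD.app1 (R := _) (by assumption) ?_ | refine PD.app2 (R := _) (by assumption) ?_ ?_ | refine PD.app3 (R := _) (by assumption) ?_ ?_ ?_ | refine PD.app4 (R := _) (by assumption) ?_ ?_ ?_ ?_))) _, fun n hn => ?_⟩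
  rw [app_sun hn]
  exact Clo.un (hp.2 n hn) (hq.2 n hn)

/-- MODULE c1 -/
theorem Sq.sdf {I p q : M} (hp : Sq I p) (hq : Sq I q) : Sq I (sdf p q) := by
  refine ⟨lam_Fn (by (repeat' (with_reducible first | apply pf_rmO | apply pf_rmL | apply pf_rmP | apply pf_cls | apply pf_cst | apply pf_sdf | apply pf_sun | apply pf_sit | apply pd_Nul | apply pd_Cau | apply pd_EvB | apply pd_EvS | apply pd_Sq | apply pd_Fmem | apply pd_Feq | apply pd_WOd | apply pf_pfin | apply pd_Fun1 | apply pf_bit | apply pf_sd | apply pf_df | apply pf_it | apply pd_Sm | apply pf_trc | apply pd_Clo | apply pd_Dep | apply pf_rs | apply pf_hh | apply pd_Spr | apply pd_Inj | apply pf_har | apply pd_Le | apply pf_fins | apply pf_card | apply pd_Bij | apply pd_Fini | apply pd_Big | apply pd_Ord | apply pd_Tr | apply pd_Ind | apply pf_succ | apply pf_funs | apply pf_prod | apply pf_lam | apply pd_Fn | apply pf_app | apply pf_ran | apply pf_dom | apply PF.img | apply PF.pow | apply PD.sub | apply PF.adj | apply PF.un | apply PF.sUn | apply PF.op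 | apply PF.pr | apply PF.sep | exact PF.var _ | exact PF.const _ | apply PD.eq | apply PD.mem | apply PD.not | apply PD.iff | apply PD.or | apply PD.and | apply PD.imp | apply PD.ex | apply PD.all | exact PD.const _ | assumption | refine PF.comp1 (F := _) (by assumption) ?_ | refine PF.comp2 (F := _) (by assumption) ?_ ?_ | refine PF.comp3 (F := _) (by assumption) ?_ ?_ ?_ | refine PD.app1 (R := _) (by assumption) ?_ | refine PD.app2 (R := _) (by assumption) ?_ ?_ | refine PD.app3 (R := _) (by assumption) ?_ ?_ ?_ | refine PD.app4 (R := _) (by assumption) ?_ ?_ ?_ ?_))) _, fun n hn => ?_⟩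
  rw [app_sdf hn]
  exact Clo.df (hp.2 n hn) (hq.2 n hn)

/-- MODULE c1 -/
theorem Sq.cst {I c : M} (hc : Clo I c) : Sq I (cst c) := by
  refine ⟨lam_Fn (by (repeat' (with_reducible first | apply pf_rmO | apply pf_rmL | apply pf_rmP | apply pf_cls | apply pf_cst | apply pf_sdf | apply pf_sun | apply pf_sit | apply pd_Nul | apply pd_Cau | apply pd_EvB | apply pd_EvS | apply pd_Sq | apply pd_Fmem | apply pd_Feq | apply pd_WOd | apply pf_pfin | apply pd_Fun1 | apply pf_bit | apply pf_sd | apply pf_df | apply pf_it | apply pd_Sm | apply pf_trc | apply pd_Clo | apply pd_Dep | apply pf_rs | apply pf_hh | apply pd_Spr | apply pd_Inj | apply pf_har | apply pd_Le | apply pf_fins | apply pf_card | apply pd_Bij | apply pd_Fini | apply pd_Big | apply pd_Ord | apply pd_Tr | apply pd_Ind | apply pf_succ | apply pf_funs | apply pf_prod | apply pf_lam | apply pd_Fn | apply pf_app | apply pf_ran | apply pf_dom | apply PF.img | apply PF.pow | apply PD.sub | apply PF.adj | apply PF.un | apply PF.sUn | apply PF.op | apply PF.pr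 | apply PF.sep | exact PF.var _ | exact PF.const _ | apply PD.eq | apply PD.mem | apply PD.not | apply PD.iff | apply PD.or | apply PD.and | apply PD.imp | apply PD.ex | apply PD.all | exact PD.const _ | assumption | refine PF.comp1 (F := _) (by assumption) ?_ | refine PF.comp2 (F := _) (by assumption) ?_ ?_ | refine PF.comp3 (F := _) (by assumption) ?_ ?_ ?_ | refine PD.app1 (R := _) (by assumption) ?_ | refine PD.app2 (R := _) (by assumption) ?_ ?_ | refine PD.app3 (R := _) (by assumption) ?_ ?_ ?_ | refine PD.app4 (R := _) (by assumption) ?_ ?_ ?_ ?_))) _, fun n hn => ?_⟩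
  rw [app_cst hn]
  exact hc

private theorem c2_max {a b : M} (ha : SetStr.mem a om) (hb : SetStr.mem b om) :
    ∃ N, SetStr.mem N om ∧ GA.sub a N ∧ GA.sub b N := by
  rcases (Ord.of_mem_om ha).sub_or_mem (Ord.of_mem_om hb) with h | h
  · exact ⟨b, hb, h, fun _ h => h⟩
  · exact ⟨a, ha, fun _ h => h, fun z hz => (Ord.of_mem_om ha).trans h hz⟩

private theorem c2_trans {a b c : M} (h : GA.sub a b) (h' : GA.sub b c) : GA.sub a c :=
  fun z hz => h' z (h z hz)

private theorem c2_comb {I p q r : M} (hp : Cau I p) (hq : Cau I q) (hr : Sq I r)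
    (h : ∀ m n, SetStr.mem m om → SetStr.mem n om → GA.sub (sd (app r m) (app r n)) (un (sd (app p m) (app p n)) (sd (app q m) (app q n)))) : Cau I r := by
  refine ⟨hr, fun k hk => ?_⟩
  obtain ⟨N1, hN1, h1⟩ := hp.2 _ (succ_mem_om hk)
  obtain ⟨N2, hN2, h2⟩ := hq.2 _ (succ_mem_om hk)
  obtain ⟨N, hN, hs1, hs2⟩ := c2_max hN1 hN2
  refine ⟨N, hN, fun m n hm hn hNm hNn => ?_⟩
  have e1 := h1 m n hm hn (c2_trans hs1 hNm) (c2_trans hs1 hNn)
  have e2 := h2 m n hm hn (c2_trans hs2 hNm) (c2_trans hs2 hNn)
  exact Sm.mono hk (Sm.un hk e1 e2) (Clo.sd (hr.2 m hm) (hr.2 n hn)) (h m n hm hn)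

/-- MODULE c2.  `sd` of two intersections is contained in the union of the two `sd`. -/
theorem Cau.sit {I p q : M} (hp : Cau I p) (hq : Cau I q) : Cau I (sit p q) := by
  refine c2_comb hp hq (Sq.sit hp.1 hq.1) (fun m n hm hn x hx => ?_)
  rw [app_sit hm, app_sit hn, mem_sd] at hx
  simp only [mem_it, mem_un, mem_sd] at hx ⊢
  tauto

/-- MODULE c2 -/
theorem Cau.sun {I p q : M} (hp : Cau I p) (hq : Cau I q) : Cau I (sun p q) := by
  refine c2_comb hp hq (Sq.sun hp.1 hq.1) (fun m n hm hn x hx => ?_)
  rw [app_sun hm, app_sun hn, mem_sd] at hx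
  simp only [mem_un, mem_sd] at hx ⊢
  tauto

/-- MODULE c2 -/
theorem Cau.sdf {I p q : M} (hp : Cau I p) (hq : Cau I q) : Cau I (sdf p q) := by
  refine c2_comb hp hq (Sq.sdf hp.1 hq.1) (fun m n hm hn x hx => ?_)
  rw [app_sdf hm, app_sdf hn, mem_sd] at hx
  simp only [mem_df, mem_un, mem_sd] at hx ⊢
  tauto

/-- MODULE c2 -/
theorem Cau.cst {I c : M} (hc : Clo I c) : Cau I (cst c) := by
  refine ⟨Sq.cst hc, fun k hk => ⟨emp, emp_mem_om, fun m n hm hn _ _ => ?_⟩⟩
  rw [app_cst hm, app_cst hn]
  refine Sm.mono hk (Sm.emp hk) (Clo.sd hc hc) (fun x hx => ?_)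
  rw [mem_sd] at hx
  tauto

/-- MODULE c3 -/
theorem EvS.mono {I k s t : M} (hk : SetStr.mem k om) (hs : Sq I s) (h : EvS I k t)
    (hst : ∀ n, SetStr.mem n om → GA.sub (app s n) (app t n)) : EvS I k s := by
  obtain ⟨N, hN, h⟩ := h
  exact ⟨N, hN, fun n hn hNn => Sm.mono hk (h n hn hNn) (hs.2 n hn) (hst n hn)⟩

/-- MODULE c3 -/
theorem EvS.anti {I k l s : M} (hk : SetStr.mem k om) (hl : SetStr.mem l om) (hkl : GA.sub k l) (h : EvS I l s) :
    EvS I k s := by
  obtain ⟨N, hN, h⟩ := h
  exact ⟨N, hN, fun n hn hNn => Sm.anti hk hl hkl (h n hn hNn)⟩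

/-- MODULE c3.  If `s(n)` is contained in the union of `t(n)` and `t'(n)`. -/
theorem EvS.un {I k s t t' : M} (hk : SetStr.mem k om) (hs : Sq I s) (h : EvS I (succ k) t)
    (h' : EvS I (succ k) t') (hst : ∀ n, SetStr.mem n om → GA.sub (app s n) (un (app t n) (app t' n))) :
    EvS I k s := by
  obtain ⟨N1, hN1, h1⟩ := h
  obtain ⟨N2, hN2, h2⟩ := h'
  obtain ⟨N, hN, hs1, hs2⟩ := c2_max hN1 hN2
  refine ⟨N, hN, fun n hn hNn => ?_⟩
  exact Sm.mono hk (Sm.un hk (h1 n hn (c2_trans hs1 hNn)) (h2 n hn (c2_trans hs2 hNn)))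
    (hs.2 n hn) (hst n hn)

/-- MODULE c3 -/
theorem EvB.anti {I k l s : M} (hk : SetStr.mem k om) (hl : SetStr.mem l om) (hkl : GA.sub k l) (h : EvB I k s) :
    EvB I l s := by
  obtain ⟨N, hN, h⟩ := h
  exact ⟨N, hN, fun n hn hNn h' => h n hn hNn (Sm.anti hk hl hkl h')⟩

/-- MODULE c3 -/
theorem EvB.not_evS {I k s : M} (h : EvB I k s) : ¬ EvS I k s := by
  rintro ⟨N2, hN2, h2⟩
  obtain ⟨N1, hN1, h1⟩ := h
  obtain ⟨N, hN, hs1, hs2⟩ := c2_max hN1 hN2
  exact h1 N hN hs1 (h2 N hN hs2)

/-- MODULE c3 -/
theorem Nul.mono {I s t : M} (hs : Sq I s) (h : Nul I t)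
    (hst : ∀ n, SetStr.mem n om → GA.sub (app s n) (app t n)) : Nul I s :=
  fun k hk => EvS.mono hk hs (h k hk) hst

/-- MODULE c3 -/
theorem Nul.un {I s t t' : M} (hs : Sq I s) (h : Nul I t) (h' : Nul I t')
    (hst : ∀ n, SetStr.mem n om → GA.sub (app s n) (un (app t n) (app t' n))) : Nul I s :=
  fun k hk => EvS.un hk hs (h _ (succ_mem_om hk)) (h' _ (succ_mem_om hk)) hst

/-- MODULE c4.  If some late `s(n)` had measure at most `2^-(k+1)`, all late ones had measure at most
`2^-k`. -/
theorem Cau.evB {I k s : M} (hk : SetStr.mem k om) (hs : Cau I s) (h : ¬ EvS I k s) :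
    EvB I (succ k) s := by
  obtain ⟨N, hN, h1⟩ := hs.2 _ (succ_mem_om hk)
  refine ⟨N, hN, fun n hn hNn h2 => h ⟨N, hN, fun m hm hNm => ?_⟩⟩
  refine Sm.mono hk (Sm.un hk h2 (h1 m n hm hn hNm hNn)) (hs.1.2 m hm) (fun x hx => ?_)
  rw [mem_un, mem_sd]
  tauto

/-- MODULE c4 -/
theorem Cau.pos {I s : M} (hs : Cau I s) (h : ¬ Nul I s) : ∃ k, SetStr.mem k om ∧ EvB I k s := by
  by_contra hcon
  refine h (fun k hk => ?_)
  by_contra h1
  exact hcon ⟨succ k, succ_mem_om hk, Cau.evB hk hs h1⟩

/-- MODULE c4 -/
theorem EvB.not_nul {I k s : M} (hk : SetStr.mem k om) (h : EvB I k s) : ¬ Nul I s :=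
  fun h' => EvB.not_evS h (h' k hk)

private theorem c5_nul {I s : M} (hs : Sq I s) (h : ∀ n x, SetStr.mem n om → ¬ SetStr.mem x (app s n)) :
    Nul I s :=
  fun _ hk => ⟨emp, emp_mem_om, fun n hn _ =>
    Sm.mono hk (Sm.emp hk) (hs.2 n hn) (fun x hx => (h n x hn hx).elim)⟩

private theorem c5_sq {I p : M} (h : SetStr.mem p (rmP I)) : Sq I p := (mem_rmP.1 h).1.1

private theorem c5_not_nul {I p : M} (h : SetStr.mem p (rmP I)) : ¬ Nul I p := (mem_rmP.1 h).2

private theorem c5_sub {I s t : M} (hs : Sq I s) (ht : Sq I t)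
    (h : ∀ n, SetStr.mem n om → GA.sub (app s n) (app t n)) : Nul I (sdf s t) := by
  refine c5_nul (Sq.sdf hs ht) (fun n x hn hx => ?_)
  rw [app_sdf hn, mem_df] at hx
  exact hx.2 (h n hn x hx.1)

/-- MODULE c5 -/
theorem isForcing_rm (I : M) : IsForcing (rmP I) (rmL I) (rmO I) := by
  have hO : SetStr.mem (rmO I) (rmP I) := by
    refine mem_rmP.2 ⟨Cau.cst (Clo.full I), fun h => ?_⟩
    obtain ⟨N, hN, h1⟩ := h (succ emp) (succ_mem_om emp_mem_om)
    have h2 := h1 N hN (fun _ hx => hx)
    unfold rmO at h2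
    rw [app_cst hN] at h2
    exact not_sm_full h2
  refine ⟨fun q p h => ?_, fun p hp => ?_, fun r q p h1 h2 => ?_, hO, fun p hp => ?_⟩
  · rw [op_mem_rmL] at h
    exact ⟨h.1, h.2.1⟩
  · exact op_mem_rmL.2 ⟨hp, hp, c5_sub (c5_sq hp) (c5_sq hp) (fun _ _ _ hx => hx)⟩
  · rw [op_mem_rmL] at h1 h2 ⊢
    refine ⟨h1.1, h2.2.1, Nul.un (Sq.sdf (c5_sq h1.1) (c5_sq h2.2.1)) h1.2.2 h2.2.2 ?_⟩
    intro n hn x hx
    rw [app_sdf hn] at hx
    rw [app_sdf hn, app_sdf hn]
    simp only [mem_df, mem_un] at hx ⊢
    tauto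
  · refine op_mem_rmL.2 ⟨hp, hO, c5_sub (c5_sq hp) (c5_sq hO) (fun n hn x hx => ?_)⟩
    unfold rmO
    rw [app_cst hn]
    obtain ⟨a, ha⟩ := (c5_sq hp).2 n hn
    exact ha.2.2.1 x hx

private theorem c6_le {I q p : M} (h : SetStr.mem (op q p) (rmL I)) : Nul I (sdf q p) :=
  (op_mem_rmL.1 h).2.2

private theorem c6_three {I r s t u : M} (hr : Sq I r) (hs : Sq I s) (ht : Sq I t)
    (ns : Nul I s) (nt : Nul I t) (nu : Nul I u)
    (h : ∀ n x, SetStr.mem n om → SetStr.mem x (app r n) → SetStr.mem x (app s n) ∨ SetStr.mem x (app t n) ∨ SetStr.mem x (app u n)) :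
    Nul I r := by
  have h1 : Nul I (sun s t) := by
    refine Nul.un (Sq.sun hs ht) ns nt (fun n hn x hx => ?_)
    rw [app_sun hn] at hx
    exact hx
  refine Nul.un hr h1 nu (fun n hn x hx => ?_)
  rw [app_sun hn, mem_un, mem_un]
  have := h n x hn hx
  tauto

/-- MODULE c6.  The intersection of two conditions, if it is a condition, is a common extension. -/
theorem rm_compat {I p q : M} (hp : SetStr.mem p (rmP I)) (hq : SetStr.mem q (rmP I)) (h : ¬ Nul I (sit p q)) :
    SetStr.mem (sit p q) (rmP I) ∧ SetStr.mem (op (sit p q) p) (rmL I) ∧ SetStr.mem (op (sit p q) q) (rmL I) := by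
  have h1 : SetStr.mem (sit p q) (rmP I) := mem_rmP.2 ⟨Cau.sit (mem_rmP.1 hp).1 (mem_rmP.1 hq).1, h⟩
  refine ⟨h1, op_mem_rmL.2 ⟨h1, hp, c5_sub (c5_sq h1) (c5_sq hp) ?_⟩,
    op_mem_rmL.2 ⟨h1, hq, c5_sub (c5_sq h1) (c5_sq hq) ?_⟩⟩
  · intro n hn x hx
    rw [app_sit hn, mem_it] at hx
    exact hx.1
  · intro n hn x hx
    rw [app_sit hn, mem_it] at hx
    exact hx.2

/-- MODULE c6 -/
theorem rm_compat' {I p q r : M} (hp : SetStr.mem (op r p) (rmL I)) (hq : SetStr.mem (op r q) (rmL I)) :
    ¬ Nul I (sit p q) := by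
  intro h
  obtain ⟨hr, hp', h1⟩ := op_mem_rmL.1 hp
  obtain ⟨_, hq', h2⟩ := op_mem_rmL.1 hq
  refine c5_not_nul hr (c6_three (c5_sq hr) (Sq.sdf (c5_sq hr) (c5_sq hp'))
    (Sq.sdf (c5_sq hr) (c5_sq hq')) h1 h2 h (fun n x hn hx => ?_))
  rw [app_sdf hn, app_sdf hn, app_sit hn, mem_df, mem_df, mem_it]
  tauto

/-- MODULE c6 -/
theorem rm_sun {I p q : M} (hp : SetStr.mem p (rmP I)) (hq : SetStr.mem q (rmP I)) :
    SetStr.mem (sun p q) (rmP I) ∧ SetStr.mem (op p (sun p q)) (rmL I) ∧ SetStr.mem (op q (sun p q)) (rmL I) := by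
  have h1 : SetStr.mem (sun p q) (rmP I) := by
    refine mem_rmP.2 ⟨Cau.sun (mem_rmP.1 hp).1 (mem_rmP.1 hq).1, fun h => c5_not_nul hp ?_⟩
    refine Nul.mono (c5_sq hp) h (fun n hn x hx => ?_)
    rw [app_sun hn, mem_un]
    exact Or.inl hx
  refine ⟨h1, op_mem_rmL.2 ⟨hp, h1, c5_sub (c5_sq hp) (c5_sq h1) ?_⟩,
    op_mem_rmL.2 ⟨hq, h1, c5_sub (c5_sq hq) (c5_sq h1) ?_⟩⟩
  · intro n hn x hx
    rw [app_sun hn, mem_un]
    exact Or.inl hx
  · intro n hn x hx
    rw [app_sun hn, mem_un]
    exact Or.inr hx

/-- MODULE c6 -/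
theorem rm_sun_le {I p q r : M} (hp : SetStr.mem (op p r) (rmL I)) (hq : SetStr.mem (op q r) (rmL I)) :
    SetStr.mem (op (sun p q) r) (rmL I) := by
  obtain ⟨hp', hr, h1⟩ := op_mem_rmL.1 hp
  obtain ⟨hq', _, h2⟩ := op_mem_rmL.1 hq
  have h3 := (rm_sun hp' hq').1
  refine op_mem_rmL.2 ⟨h3, hr, Nul.un (Sq.sdf (c5_sq h3) (c5_sq hr)) h1 h2 ?_⟩
  intro n hn x hx
  rw [app_sdf hn, app_sun hn] at hx
  rw [app_sdf hn, app_sdf hn]
  simp only [mem_df, mem_un] at hx ⊢
  tauto

/-- MODULE c6 -/
theorem rm_sun_cases {I p q r : M} (hp : SetStr.mem p (rmP I)) (hq : SetStr.mem q (rmP I))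
    (h : SetStr.mem (op r (sun p q)) (rmL I)) : ¬ Nul I (sit r p) ∨ ¬ Nul I (sit r q) := by
  by_contra hcon
  push Not at hcon
  obtain ⟨h1, h2⟩ := hcon
  obtain ⟨hr, hs, h3⟩ := op_mem_rmL.1 h
  refine c5_not_nul hr (c6_three (c5_sq hr) (Sq.sit (c5_sq hr) (c5_sq hp))
    (Sq.sit (c5_sq hr) (c5_sq hq)) h1 h2 h3 (fun n x hn hx => ?_))
  rw [app_sdf hn, app_sit hn, app_sit hn, app_sun hn, mem_df, mem_it, mem_it, mem_un]
  tauto

/-- MODULE c6 -/
theorem rm_sdf {I p q : M} (hp : SetStr.mem p (rmP I)) (hq : Cau I q) (h : ¬ Nul I (sdf p q)) :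
    SetStr.mem (sdf p q) (rmP I) ∧ SetStr.mem (op (sdf p q) p) (rmL I) := by
  have h1 : SetStr.mem (sdf p q) (rmP I) := mem_rmP.2 ⟨Cau.sdf (mem_rmP.1 hp).1 hq, h⟩
  refine ⟨h1, op_mem_rmL.2 ⟨h1, hp, c5_sub (c5_sq h1) (c5_sq hp) (fun n hn x hx => ?_)⟩⟩
  rw [app_sdf hn, mem_df] at hx
  exact hx.1

end GA
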