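import Pool.Agent.GA.BridgeH
import Pool.Agent.GA.RmC
import Pool.Agent.GA.CardK

/-!
# Random forcing and cardinals: the notions of the statement and of the library
-/

universe u

namespace GA.Dp

open FirstOrder FirstOrder.Language SetStr

variable {M : Type u} [SetStr M] [IsZF M]

theorem isTwo_iff {t : M} : IsTwo t ↔ t = tw := by
  unfold IsTwo tw succ
  simp only [isEmp_iff, isAdj_iff, isPr_iff]
  constructor
  · rintro ⟨_, _, rfl, rfl, h⟩
    exact h
  · intro h
    exact ⟨_, _, rfl, rfl, h⟩

theorem isBits_iff {x a : M} : IsBits x a ↔ SetStr.mem x (funs a tw) := by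
  unfold IsBits
  rw [mem_funs]
  simp only [isTwo_iff, isFun_iff]
  constructor
  · rintro ⟨_, rfl, h⟩
    exact h
  · intro h
    exact ⟨_, rfl, h⟩

theorem dependsOn_iff {κ c a : M} : DependsOn κ c a ↔ Dep κ c a := by
  unfold DependsOn Dep
  simp only [isFin_iff, isBits_iff, rel_iff]
  refine and_congr_right (fun ha => and_congr_right (fun _ => and_congr_right (fun hc => ?_)))
  refine forall_congr' (fun x => forall_congr' (fun y => imp_congr_right (fun hx =>
    imp_congr_right (fun hy => imp_congr ?_ Iff.rfl))))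
  have hx' := (mem_funs.1 (hc x hx)).1
  have hy' := (mem_funs.1 hy).1
  constructor
  · intro h i hi
    have h1 := (h i (app x i) hi).1 (hx'.app_mem (ha i hi))
    exact (hy'.mem_iff.1 h1).2
  · intro h i v hi
    rw [hx'.mem_iff, hy'.mem_iff, h i hi]

theorem isClopen_iff {κ c : M} : IsClopen κ c ↔ Clo κ c := by
  unfold IsClopen Clo
  simp only [dependsOn_iff]

theorem res_eq_rs {x a b : M} (hx : Fn x b) (hab : GA.sub a b) : res x a = rs x a := by
  refine ext (fun z => ?_)
  unfold rs
  rw [mem_res, mem_lam (by (repeat' (with_reducible first | apply pf_rmO | apply pf_rmL | apply pf_rmP | apply pf_cls | apply pf_cst | apply pf_sdf | apply pf_sun | apply pf_sit | apply pd_Nul | apply pd_Cau | apply pd_EvB | apply pd_EvS | apply pd_Sq | apply pf_bit | apply pf_sd | apply pf_df | apply pf_it | apply pd_Sm | apply pf_trc | apply pd_Clo | apply pd_Dep | apply pf_rs | apply pf_stems | apply pd_HLe | apply pf_res | apply pf_below | apply pf_mxn | apply pd_NLeV | apply pd_NLe | apply pd_RName | apply pd_FV | apply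 pd_PreO | apply pf_p2 | apply pf_p1 | apply DD.pf_lv | apply DD.pf_nd | apply DD.pd_Clo | apply DD.pf_dl | apply DD.pf_prs | apply DD.pd_Fork | apply DD.pd_V | apply pd_maxR | apply pd_WOd | apply pf_pfin | apply pd_Fun1 | apply pf_hh | apply pd_Spr | apply pd_Inj | apply pf_har | apply pd_Le | apply pf_fins | apply pf_card | apply pd_Bij | apply pd_Fini | apply pd_Big | apply pd_Ord | apply pd_Fmem | apply pd_Feq | apply pd_Tr | apply pd_Ind | apply pf_succ | apply pf_funs | apply pf_prod | apply pf_lam | apply pd_Fn | apply pf_app | apply pf_ran | apply pf_dom | apply PF.img | apply PF.pow | apply PD.sub | apply PF.adj | apply PF.un | apply PF.sUn | apply PF.op | apply PF.pr | apply PF.sep | exact PF.var _ | exact PF.const _ | apply PD.eq | apply PD.mem | apply PD.not | apply PD.iff | apply PD.or | apply PD.and | apply PD.imp | apply PD.ex | apply PD.all | exact PD.const _ | assumption | refine PF.comp1 (F := _) (by assumption) ?_ | refine PF.comp2 (F := _) (by assumption) ?_ ?_ | refine PF.comp3 (F := _)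 (by assumption) ?_ ?_ ?_ | refine PD.app1 (R := _) (by assumption) ?_ | refine PD.app2 (R := _) (by assumption) ?_ ?_ | refine PD.app3 (R := _) (by assumption) ?_ ?_ ?_ | refine PD.app4 (R := _) (by assumption) ?_ ?_ ?_ ?_)))]
  constructor
  · rintro ⟨hz, i, y, hi, rfl⟩
    exact ⟨i, hi, by rw [(hx.mem_iff.1 hz).2]⟩
  · rintro ⟨i, hi, rfl⟩
    exact ⟨hx.app_mem (hab i hi), i, _, hi, rfl⟩

theorem measureLe_iff {κ k c : M} : MeasureLe κ k c ↔ Sm κ k c := by
  unfold MeasureLe Sm Le
  simp only [dependsOn_iff, isRes_iff, isBits_iff, isOp_iff, isInj_iff]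
  have key : ∀ a, Dep κ c a → ∀ z, (SetStr.mem z (prod (trc c a) (funs k tw)) ↔
      ∃ x u t, mem x c ∧ u = res x a ∧ SetStr.mem t (funs k tw) ∧ z = op u t) := by
    intro a ha z
    rw [mem_prod]
    have h1 : ∀ x, mem x c → res x a = rs x a := fun x hx =>
      res_eq_rs (mem_funs.1 (ha.2.2.1 x hx)).1 ha.1
    constructor
    · rintro ⟨u, hu, t, ht, rfl⟩
      obtain ⟨x, hx, rfl⟩ := mem_trc.1 hu
      exact ⟨x, _, t, hx, (h1 x hx).symm, ht, rfl⟩
    · rintro ⟨x, u, t, hx, rfl, ht, rfl⟩
      exact ⟨_, mem_trc.2 ⟨x, hx, h1 x hx⟩, t, ht, rfl⟩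
  constructor
  · rintro ⟨a, A, B, f, ha, hA, hB, ⟨hf, hv⟩, hi⟩
    have eA : A = prod (trc c a) (funs k tw) := ext (fun z => (hA z).trans (key a ha z).symm)
    have eB : B = funs a tw := ext (fun z => hB z)
    subst eA eB
    exact ⟨a, ha, f, hf, hv, hi⟩
  · rintro ⟨a, ha, f, hf, hv, hi⟩
    exact ⟨a, _, _, f, ha, fun z => key a ha z, fun z => Iff.rfl, ⟨hf, hv⟩, hi⟩

theorem isClopenSeq_iff {κ s : M} : IsClopenSeq κ s ↔ Sq κ s := by
  unfold IsClopenSeq Sq
  simp only [isClopen_iff, isOmega_iff, isFun_iff]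
  constructor
  · rintro ⟨w, C, rfl, hC, hf, hv⟩
    exact ⟨hf, fun n hn => (hC _).1 (hv n hn)⟩
  · rintro ⟨hf, hv⟩
    exact ⟨om, cls κ, rfl, fun c => mem_cls, hf, fun n hn => mem_cls.2 (hv n hn)⟩

theorem isNull_iff {κ s : M} (hs : Sq κ s) : IsNull κ s ↔ Nul κ s := by
  unfold IsNull Nul EvS
  simp only [measureLe_iff, isOmega_iff, rel_iff]
  constructor
  · intro h k hk
    obtain ⟨N, hN, h1⟩ := h om k rfl hk
    exact ⟨N, hN, fun n hn hNn => h1 n _ hn hNn (hs.1.app_mem hn)⟩
  · rintro h w k rfl hk
    obtain ⟨N, hN, h1⟩ := h k hk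
    refine ⟨N, hN, fun n c hn hNn hc => ?_⟩
    rw [(hs.1.mem_iff.1 hc).2]
    exact h1 n hn hNn

theorem isDiff_iff {e c d : M} : IsDiff e c d ↔ e = df c d := by
  unfold IsDiff
  constructor
  · intro h
    exact ext (fun z => (h z).trans mem_df.symm)
  · rintro rfl x
    exact mem_df

theorem isSymDiff_iff {e c d : M} : IsSymDiff e c d ↔ e = sd c d := by
  unfold IsSymDiff
  constructor
  · intro h
    exact ext (fun z => (h z).trans mem_sd.symm)
  · rintro rfl x
    exact mem_sd

theorem isCauchy_iff {κ s : M} : IsCauchy κ s ↔ Cau κ s := by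
  unfold IsCauchy Cau
  rw [isClopenSeq_iff]
  refine and_congr_right (fun hs => ?_)
  simp only [measureLe_iff, isOmega_iff, rel_iff, isSymDiff_iff]
  constructor
  · intro h k hk
    obtain ⟨N, hN, h1⟩ := h om k rfl hk
    exact ⟨N, hN, fun m n hm hn hNm hNn =>
      h1 m n _ _ _ hm hn hNm hNn (hs.1.app_mem hm) (hs.1.app_mem hn) rfl⟩
  · rintro h w k rfl hk
    obtain ⟨N, hN, h1⟩ := h k hk
    refine ⟨N, hN, fun m n c d e hm hn hNm hNn hc hd he => ?_⟩
    subst he
    rw [(hs.1.mem_iff.1 hc).2, (hs.1.mem_iff.1 hd).2]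
    exact h1 m n hm hn hNm hNn

theorem nullDiff_iff {κ s t : M} (hs : Sq κ s) (ht : Sq κ t) :
    NullDiff κ s t ↔ Nul κ (sdf s t) := by
  unfold NullDiff Nul EvS
  simp only [measureLe_iff, isOmega_iff, rel_iff, isDiff_iff]
  constructor
  · intro h k hk
    obtain ⟨N, hN, h1⟩ := h om k rfl hk
    refine ⟨N, hN, fun n hn hNn => ?_⟩
    rw [app_sdf hn]
    exact h1 n _ _ _ hn hNn (hs.1.app_mem hn) (ht.1.app_mem hn) rfl
  · rintro h w k rfl hk
    obtain ⟨N, hN, h1⟩ := h k hk
    refine ⟨N, hN, fun n c d e hn hNn hc hd he => ?_⟩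
    subst he
    rw [(hs.1.mem_iff.1 hc).2, (ht.1.mem_iff.1 hd).2, ← app_sdf hn]
    exact h1 n hn hNn

theorem isRandom_iff {κ P L o : M} : IsRandom κ P L o ↔ P = rmP κ ∧ L = rmL κ ∧ o = rmO κ := by
  unfold IsRandom
  have h1 : ∀ s : M, (IsCauchy κ s ∧ ¬ IsNull κ s) ↔ SetStr.mem s (rmP κ) := by
    intro s
    rw [mem_rmP, isCauchy_iff]
    exact and_congr_right (fun hs => not_congr (isNull_iff hs.1))
  have h2 : ∀ z : M, SetStr.mem z (rmL κ) ↔
      ∃ s t, SetStr.mem s (rmP κ) ∧ SetStr.mem t (rmP κ) ∧ z = op s t ∧ NullDiff κ s t := by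
    intro z
    constructor
    · intro hz
      unfold rmL at hz
      rw [mem_sep (by (repeat' (with_reducible first | apply pf_rmO | apply pf_rmL | apply pf_rmP | apply pf_cls | apply pf_cst | apply pf_sdf | apply pf_sun | apply pf_sit | apply pd_Nul | apply pd_Cau | apply pd_EvB | apply pd_EvS | apply pd_Sq | apply pf_bit | apply pf_sd | apply pf_df | apply pf_it | apply pd_Sm | apply pf_trc | apply pd_Clo | apply pd_Dep | apply pf_rs | apply pf_stems | apply pd_HLe | apply pf_res | apply pf_below | apply pf_mxn | apply pd_NLeV | apply pd_NLe | apply pd_RName | apply pd_FV | apply pd_PreO | apply pf_p2 | apply pf_p1 | apply DD.pf_lv | apply DD.pf_nd | apply DD.pd_Clo | apply DD.pf_dl | apply DD.pf_prs | apply DD.pd_Fork | apply DD.pd_V | apply pd_maxR | apply pd_WOd | apply pf_pfin | apply pd_Fun1 | apply pf_hh | apply pd_Spr | apply pd_Inj | apply pf_har | apply pd_Le | apply pf_fins | apply pf_card | apply pd_Bij | apply pd_Fini | apply pd_Big | apply pd_Ord | apply pd_Fmem | apply pd_Feq | apply pd_Tr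 | apply pd_Ind | apply pf_succ | apply pf_funs | apply pf_prod | apply pf_lam | apply pd_Fn | apply pf_app | apply pf_ran | apply pf_dom | apply PF.img | apply PF.pow | apply PD.sub | apply PF.adj | apply PF.un | apply PF.sUn | apply PF.op | apply PF.pr | apply PF.sep | exact PF.var _ | exact PF.const _ | apply PD.eq | apply PD.mem | apply PD.not | apply PD.iff | apply PD.or | apply PD.and | apply PD.imp | apply PD.ex | apply PD.all | exact PD.const _ | assumption | refine PF.comp1 (F := _) (by assumption) ?_ | refine PF.comp2 (F := _) (by assumption) ?_ ?_ | refine PF.comp3 (F := _) (by assumption) ?_ ?_ ?_ | refine PD.app1 (R := _) (by assumption) ?_ | refine PD.app2 (R := _) (by assumption) ?_ ?_ | refine PD.app3 (R := _) (by assumption) ?_ ?_ ?_ | refine PD.app4 (R := _) (by assumption) ?_ ?_ ?_ ?_)))] at hz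
      obtain ⟨hz, s, t, rfl, hn⟩ := hz
      rw [op_mem_prod] at hz
      exact ⟨s, t, hz.1, hz.2, rfl,
        (nullDiff_iff (mem_rmP.1 hz.1).1.1 (mem_rmP.1 hz.2).1.1).2 hn⟩
    · rintro ⟨s, t, hs, ht, rfl, hn⟩
      exact op_mem_rmL.2 ⟨hs, ht, (nullDiff_iff (mem_rmP.1 hs).1.1 (mem_rmP.1 ht).1.1).1 hn⟩
  have h3 : ∀ z : M, SetStr.mem z (rmO κ) ↔
      ∃ w n c, w = om ∧ SetStr.mem n w ∧ (∀ x, SetStr.mem x c ↔ SetStr.mem x (funs κ tw)) ∧ z = op n c := by
    intro z
    unfold rmO cst
    rw [mem_lam (by (repeat' (with_reducible first | apply pf_rmO | apply pf_rmL | apply pf_rmP | apply pf_cls | apply pf_cst | apply pf_sdf | apply pf_sun | apply pf_sit | apply pd_Nul | apply pd_Cau | apply pd_EvB | apply pd_EvS | apply pd_Sq | apply pf_bit | apply pf_sd | apply pf_df | apply pf_it | apply pd_Sm | apply pf_trc | apply pd_Clo | apply pd_Dep | apply pf_rs | apply pf_stems | apply pd_HLe | apply pf_res | apply pf_below | apply pf_mxn | apply pd_NLeV | apply pd_NLe | apply pd_RName | apply pd_FV | apply pd_PreO |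 apply pf_p2 | apply pf_p1 | apply DD.pf_lv | apply DD.pf_nd | apply DD.pd_Clo | apply DD.pf_dl | apply DD.pf_prs | apply DD.pd_Fork | apply DD.pd_V | apply pd_maxR | apply pd_WOd | apply pf_pfin | apply pd_Fun1 | apply pf_hh | apply pd_Spr | apply pd_Inj | apply pf_har | apply pd_Le | apply pf_fins | apply pf_card | apply pd_Bij | apply pd_Fini | apply pd_Big | apply pd_Ord | apply pd_Fmem | apply pd_Feq | apply pd_Tr | apply pd_Ind | apply pf_succ | apply pf_funs | apply pf_prod | apply pf_lam | apply pd_Fn | apply pf_app | apply pf_ran | apply pf_dom | apply PF.img | apply PF.pow | apply PD.sub | apply PF.adj | apply PF.un | apply PF.sUn | apply PF.op | apply PF.pr | apply PF.sep | exact PF.var _ | exact PF.const _ | apply PD.eq | apply PD.mem | apply PD.not | apply PD.iff | apply PD.or | apply PD.and | apply PD.imp | apply PD.ex | apply PD.all | exact PD.const _ | assumption | refine PF.comp1 (F := _) (by assumption) ?_ | refine PF.comp2 (F := _) (by assumption) ?_ ?_ | refine PF.comp3 (F := _) (by assumption)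 ?_ ?_ ?_ | refine PD.app1 (R := _) (by assumption) ?_ | refine PD.app2 (R := _) (by assumption) ?_ ?_ | refine PD.app3 (R := _) (by assumption) ?_ ?_ ?_ | refine PD.app4 (R := _) (by assumption) ?_ ?_ ?_ ?_)))]
    constructor
    · rintro ⟨n, hn, rfl⟩
      exact ⟨om, n, _, rfl, hn, fun _ => Iff.rfl, rfl⟩
    · rintro ⟨w, n, c, rfl, hn, hc, rfl⟩
      exact ⟨n, hn, by rw [ext hc]⟩
  simp only [isOmega_iff, isBits_iff, isOp_iff]
  constructor
  · rintro ⟨h4, h5, h6⟩
    have hP : P = rmP κ := ext (fun s => (h4 s).trans (h1 s))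
    subst hP
    exact ⟨rfl, ext (fun z => (h5 z).trans (h2 z).symm), ext (fun z => (h6 z).trans (h3 z).symm)⟩
  · rintro ⟨rfl, rfl, rfl⟩
    exact ⟨fun s => (h1 s).symm, h2, h3⟩

theorem emp_mem_of_mem {κ μ : M} (hκ : Ord κ) (hμ : SetStr.mem μ κ) : SetStr.mem emp κ := by
  rcases hκ.tri (Ord.of_mem_om emp_mem_om) with h | h | h
  · exact (not_mem_emp _ h).elim
  · exact (not_mem_emp μ (h ▸ hμ)).elim
  · exact h

/-- Cardinals. -/
theorem isCard_iff {κ : M} : IsCard κ ↔ IsCd κ := by
  unfold IsCard IsCd
  refine and_congr_right (fun hO => ?_)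
  simp only [isFun_iff, rel_iff]
  constructor
  · intro hI μ f hμ hf
    have h := hI μ f hμ
    by_contra hc
    push Not at hc
    by_cases hv : ∀ x, SetStr.mem x μ → SetStr.mem (app f x) κ
    · exact h ⟨⟨hf, hv⟩, fun y hy => by
        obtain ⟨x, hx, rfl⟩ := hc y hy
        exact ⟨x, hf.app_mem hx⟩⟩
    · have hκ : Ord κ := hO
      have hin : ∀ x, SetStr.mem (app f x) κ → sUn (sep κ (fun y => y = app f x)) = app f x := by
        intro x hx
        refine ext (fun z => ?_)
        rw [mem_sUn]
        constructor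
        · rintro ⟨y, hy, hz⟩
          rw [mem_sep (by (repeat' (with_reducible first | apply pf_rmO | apply pf_rmL | apply pf_rmP | apply pf_cls | apply pf_cst | apply pf_sdf | apply pf_sun | apply pf_sit | apply pd_Nul | apply pd_Cau | apply pd_EvB | apply pd_EvS | apply pd_Sq | apply pf_bit | apply pf_sd | apply pf_df | apply pf_it | apply pd_Sm | apply pf_trc | apply pd_Clo | apply pd_Dep | apply pf_rs | apply pf_stems | apply pd_HLe | apply pf_res | apply pf_below | apply pf_mxn | apply pd_NLeV | apply pd_NLe | apply pd_RName | apply pd_FV | apply pd_PreO | apply pf_p2 | apply pf_p1 | apply DD.pf_lv | apply DD.pf_nd | apply DD.pd_Clo | apply DD.pf_dl | apply DD.pf_prs | apply DD.pd_Fork | apply DD.pd_V | apply pd_maxR | apply pd_WOd | apply pf_pfin | apply pd_Fun1 | apply pf_hh | apply pd_Spr | apply pd_Inj | apply pf_har | apply pd_Le | apply pf_fins | apply pf_card | apply pd_Bij | apply pd_Fini | apply pd_Big | apply pd_Ord | apply pd_Fmem | apply pd_Feq | apply pd_Tr | apply pd_Ind | apply pf_succ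 | apply pf_funs | apply pf_prod | apply pf_lam | apply pd_Fn | apply pf_app | apply pf_ran | apply pf_dom | apply PF.img | apply PF.pow | apply PD.sub | apply PF.adj | apply PF.un | apply PF.sUn | apply PF.op | apply PF.pr | apply PF.sep | exact PF.var _ | exact PF.const _ | apply PD.eq | apply PD.mem | apply PD.not | apply PD.iff | apply PD.or | apply PD.and | apply PD.imp | apply PD.ex | apply PD.all | exact PD.const _ | assumption | refine PF.comp1 (F := _) (by assumption) ?_ | refine PF.comp2 (F := _) (by assumption) ?_ ?_ | refine PF.comp3 (F := _) (by assumption) ?_ ?_ ?_ | refine PD.app1 (R := _) (by assumption) ?_ | refine PD.app2 (R := _) (by assumption) ?_ ?_ | refine PD.app3 (R := _) (by assumption) ?_ ?_ ?_ | refine PD.app4 (R := _) (by assumption) ?_ ?_ ?_ ?_)))] at hy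
          rw [← hy.2]
          exact hz
        · intro hz
          refine ⟨app f x, ?_, hz⟩
          rw [mem_sep (by (repeat' (with_reducible first | apply pf_rmO | apply pf_rmL | apply pf_rmP | apply pf_cls | apply pf_cst | apply pf_sdf | apply pf_sun | apply pf_sit | apply pd_Nul | apply pd_Cau | apply pd_EvB | apply pd_EvS | apply pd_Sq | apply pf_bit | apply pf_sd | apply pf_df | apply pf_it | apply pd_Sm | apply pf_trc | apply pd_Clo | apply pd_Dep | apply pf_rs | apply pf_stems | apply pd_HLe | apply pf_res | apply pf_below | apply pf_mxn | apply pd_NLeV | apply pd_NLe | apply pd_RName | apply pd_FV | apply pd_PreO | apply pf_p2 | apply pf_p1 | apply DD.pf_lv | apply DD.pf_nd | apply DD.pd_Clo | apply DD.pf_dl | apply DD.pf_prs | apply DD.pd_Fork | apply DD.pd_V | apply pd_maxR | apply pd_WOd | apply pf_pfin | apply pd_Fun1 | apply pf_hh | apply pd_Spr | apply pd_Inj | apply pf_har | apply pd_Le | apply pf_fins | apply pf_card | apply pd_Bij | apply pd_Fini | apply pd_Big | apply pd_Ord | apply pd_Fmem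 | apply pd_Feq | apply pd_Tr | apply pd_Ind | apply pf_succ | apply pf_funs | apply pf_prod | apply pf_lam | apply pd_Fn | apply pf_app | apply pf_ran | apply pf_dom | apply PF.img | apply PF.pow | apply PD.sub | apply PF.adj | apply PF.un | apply PF.sUn | apply PF.op | apply PF.pr | apply PF.sep | exact PF.var _ | exact PF.const _ | apply PD.eq | apply PD.mem | apply PD.not | apply PD.iff | apply PD.or | apply PD.and | apply PD.imp | apply PD.ex | apply PD.all | exact PD.const _ | assumption | refine PF.comp1 (F := _) (by assumption) ?_ | refine PF.comp2 (F := _) (by assumption) ?_ ?_ | refine PF.comp3 (F := _) (by assumption) ?_ ?_ ?_ | refine PD.app1 (R := _) (by assumption) ?_ | refine PD.app2 (R := _) (by assumption) ?_ ?_ | refine PD.app3 (R := _) (by assumption) ?_ ?_ ?_ | refine PD.app4 (R := _) (by assumption) ?_ ?_ ?_ ?_)))]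
          exact ⟨hx, rfl⟩
      have hout : ∀ x, ¬ SetStr.mem (app f x) κ → sUn (sep κ (fun y => y = app f x)) = emp := by
        intro x hx
        refine ext (fun z => ⟨fun hz => ?_, fun hz => (not_mem_emp z hz).elim⟩)
        rw [mem_sUn] at hz
        obtain ⟨y, hy, -⟩ := hz
        rw [mem_sep (by (repeat' (with_reducible first | apply pf_rmO | apply pf_rmL | apply pf_rmP | apply pf_cls | apply pf_cst | apply pf_sdf | apply pf_sun | apply pf_sit | apply pd_Nul | apply pd_Cau | apply pd_EvB | apply pd_EvS | apply pd_Sq | apply pf_bit | apply pf_sd | apply pf_df | apply pf_it | apply pd_Sm | apply pf_trc | apply pd_Clo | apply pd_Dep | apply pf_rs | apply pf_stems | apply pd_HLe | apply pf_res | apply pf_below | apply pf_mxn | apply pd_NLeV | apply pd_NLe | apply pd_RName | apply pd_FV | apply pd_PreO | apply pf_p2 | apply pf_p1 | apply DD.pf_lv | apply DD.pf_nd | apply DD.pd_Clo | apply DD.pf_dl | apply DD.pf_prs | apply DD.pd_Fork | apply DD.pd_V | apply pd_maxR | apply pd_WOd | apply pf_pfin | apply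 pd_Fun1 | apply pf_hh | apply pd_Spr | apply pd_Inj | apply pf_har | apply pd_Le | apply pf_fins | apply pf_card | apply pd_Bij | apply pd_Fini | apply pd_Big | apply pd_Ord | apply pd_Fmem | apply pd_Feq | apply pd_Tr | apply pd_Ind | apply pf_succ | apply pf_funs | apply pf_prod | apply pf_lam | apply pd_Fn | apply pf_app | apply pf_ran | apply pf_dom | apply PF.img | apply PF.pow | apply PD.sub | apply PF.adj | apply PF.un | apply PF.sUn | apply PF.op | apply PF.pr | apply PF.sep | exact PF.var _ | exact PF.const _ | apply PD.eq | apply PD.mem | apply PD.not | apply PD.iff | apply PD.or | apply PD.and | apply PD.imp | apply PD.ex | apply PD.all | exact PD.const _ | assumption | refine PF.comp1 (F := _) (by assumption) ?_ | refine PF.comp2 (F := _) (by assumption) ?_ ?_ | refine PF.comp3 (F := _) (by assumption) ?_ ?_ ?_ | refine PD.app1 (R := _) (by assumption) ?_ | refine PD.app2 (R := _) (by assumption) ?_ ?_ | refine PD.app3 (R := _) (by assumption) ?_ ?_ ?_ | refine PD.app4 (R := _) (by assumption) ?_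 ?_ ?_ ?_)))] at hy
        exact (hx (hy.2 ▸ hy.1)).elim
      have hF : Fn (lam (fun x => sUn (sep κ (fun y => y = app f x))) μ) μ := lam_Fn (by (repeat' (with_reducible first | apply pf_rmO | apply pf_rmL | apply pf_rmP | apply pf_cls | apply pf_cst | apply pf_sdf | apply pf_sun | apply pf_sit | apply pd_Nul | apply pd_Cau | apply pd_EvB | apply pd_EvS | apply pd_Sq | apply pf_bit | apply pf_sd | apply pf_df | apply pf_it | apply pd_Sm | apply pf_trc | apply pd_Clo | apply pd_Dep | apply pf_rs | apply pf_stems | apply pd_HLe | apply pf_res | apply pf_below | apply pf_mxn | apply pd_NLeV | apply pd_NLe | apply pd_RName | apply pd_FV | apply pd_PreO | apply pf_p2 | apply pf_p1 | apply DD.pf_lv | apply DD.pf_nd | apply DD.pd_Clo | apply DD.pf_dl | apply DD.pf_prs | apply DD.pd_Fork | apply DD.pd_V | apply pd_maxR | apply pd_WOd | apply pf_pfin | apply pd_Fun1 | apply pf_hh | apply pd_Spr | apply pd_Inj | apply pf_har | apply pd_Le | apply pf_fins | apply pf_card | apply pd_Bij | apply pd_Fini | apply pd_Big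 | apply pd_Ord | apply pd_Fmem | apply pd_Feq | apply pd_Tr | apply pd_Ind | apply pf_succ | apply pf_funs | apply pf_prod | apply pf_lam | apply pd_Fn | apply pf_app | apply pf_ran | apply pf_dom | apply PF.img | apply PF.pow | apply PD.sub | apply PF.adj | apply PF.un | apply PF.sUn | apply PF.op | apply PF.pr | apply PF.sep | exact PF.var _ | exact PF.const _ | apply PD.eq | apply PD.mem | apply PD.not | apply PD.iff | apply PD.or | apply PD.and | apply PD.imp | apply PD.ex | apply PD.all | exact PD.const _ | assumption | refine PF.comp1 (F := _) (by assumption) ?_ | refine PF.comp2 (F := _) (by assumption) ?_ ?_ | refine PF.comp3 (F := _) (by assumption) ?_ ?_ ?_ | refine PD.app1 (R := _) (by assumption) ?_ | refine PD.app2 (R := _) (by assumption) ?_ ?_ | refine PD.app3 (R := _) (by assumption) ?_ ?_ ?_ | refine PD.app4 (R := _) (by assumption) ?_ ?_ ?_ ?_))) μ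
      refine hI μ _ hμ ⟨⟨hF, fun x hx => ?_⟩, fun y hy => ?_⟩
      · rw [app_lam (by (repeat' (with_reducible first | apply pf_rmO | apply pf_rmL | apply pf_rmP | apply pf_cls | apply pf_cst | apply pf_sdf | apply pf_sun | apply pf_sit | apply pd_Nul | apply pd_Cau | apply pd_EvB | apply pd_EvS | apply pd_Sq | apply pf_bit | apply pf_sd | apply pf_df | apply pf_it | apply pd_Sm | apply pf_trc | apply pd_Clo | apply pd_Dep | apply pf_rs | apply pf_stems | apply pd_HLe | apply pf_res | apply pf_below | apply pf_mxn | apply pd_NLeV | apply pd_NLe | apply pd_RName | apply pd_FV | apply pd_PreO | apply pf_p2 | apply pf_p1 | apply DD.pf_lv | apply DD.pf_nd | apply DD.pd_Clo | apply DD.pf_dl | apply DD.pf_prs | apply DD.pd_Fork | apply DD.pd_V | apply pd_maxR | apply pd_WOd | apply pf_pfin | apply pd_Fun1 | apply pf_hh | apply pd_Spr | apply pd_Inj | apply pf_har | apply pd_Le | apply pf_fins | apply pf_card | apply pd_Bij | apply pd_Fini | apply pd_Big | apply pd_Ord | apply pd_Fmem | apply pd_Feq | apply pd_Tr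 | apply pd_Ind | apply pf_succ | apply pf_funs | apply pf_prod | apply pf_lam | apply pd_Fn | apply pf_app | apply pf_ran | apply pf_dom | apply PF.img | apply PF.pow | apply PD.sub | apply PF.adj | apply PF.un | apply PF.sUn | apply PF.op | apply PF.pr | apply PF.sep | exact PF.var _ | exact PF.const _ | apply PD.eq | apply PD.mem | apply PD.not | apply PD.iff | apply PD.or | apply PD.and | apply PD.imp | apply PD.ex | apply PD.all | exact PD.const _ | assumption | refine PF.comp1 (F := _) (by assumption) ?_ | refine PF.comp2 (F := _) (by assumption) ?_ ?_ | refine PF.comp3 (F := _) (by assumption) ?_ ?_ ?_ | refine PD.app1 (R := _) (by assumption) ?_ | refine PD.app2 (R := _) (by assumption) ?_ ?_ | refine PD.app3 (R := _) (by assumption) ?_ ?_ ?_ | refine PD.app4 (R := _) (by assumption) ?_ ?_ ?_ ?_))) hx]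
        by_cases hx' : SetStr.mem (app f x) κ
        · rw [hin x hx']
          exact hx'
        · rw [hout x hx']
          exact emp_mem_of_mem hκ hμ
      · obtain ⟨x, hx, rfl⟩ := hc y hy
        refine ⟨x, ?_⟩
        rw [hF.mem_iff]
        refine ⟨hx, ?_⟩
        rw [app_lam (by (repeat' (with_reducible first | apply pf_rmO | apply pf_rmL | apply pf_rmP | apply pf_cls | apply pf_cst | apply pf_sdf | apply pf_sun | apply pf_sit | apply pd_Nul | apply pd_Cau | apply pd_EvB | apply pd_EvS | apply pd_Sq | apply pf_bit | apply pf_sd | apply pf_df | apply pf_it | apply pd_Sm | apply pf_trc | apply pd_Clo | apply pd_Dep | apply pf_rs | apply pf_stems | apply pd_HLe | apply pf_res | apply pf_below | apply pf_mxn | apply pd_NLeV | apply pd_NLe | apply pd_RName | apply pd_FV | apply pd_PreO | apply pf_p2 | apply pf_p1 | apply DD.pf_lv | apply DD.pf_nd | apply DD.pd_Clo | apply DD.pf_dl | apply DD.pf_prs | apply DD.pd_Fork | apply DD.pd_V | apply pd_maxR | apply pd_WOd | apply pf_pfin | apply pd_Fun1 | apply pf_hh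 | apply pd_Spr | apply pd_Inj | apply pf_har | apply pd_Le | apply pf_fins | apply pf_card | apply pd_Bij | apply pd_Fini | apply pd_Big | apply pd_Ord | apply pd_Fmem | apply pd_Feq | apply pd_Tr | apply pd_Ind | apply pf_succ | apply pf_funs | apply pf_prod | apply pf_lam | apply pd_Fn | apply pf_app | apply pf_ran | apply pf_dom | apply PF.img | apply PF.pow | apply PD.sub | apply PF.adj | apply PF.un | apply PF.sUn | apply PF.op | apply PF.pr | apply PF.sep | exact PF.var _ | exact PF.const _ | apply PD.eq | apply PD.mem | apply PD.not | apply PD.iff | apply PD.or | apply PD.and | apply PD.imp | apply PD.ex | apply PD.all | exact PD.const _ | assumption | refine PF.comp1 (F := _) (by assumption) ?_ | refine PF.comp2 (F := _) (by assumption) ?_ ?_ | refine PF.comp3 (F := _) (by assumption) ?_ ?_ ?_ | refine PD.app1 (R := _) (by assumption) ?_ | refine PD.app2 (R := _) (by assumption) ?_ ?_ | refine PD.app3 (R := _) (by assumption) ?_ ?_ ?_ | refine PD.app4 (R := _) (by assumption) ?_ ?_ ?_ ?_))) hx, hin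 x hy]
  · rintro h μ f hμ ⟨⟨hf, hv⟩, hs⟩
    obtain ⟨y, hy, hn⟩ := h μ f hμ hf
    obtain ⟨x, hx⟩ := hs y hy
    rw [hf.mem_iff] at hx
    exact hn x hx.1 hx.2.symm

theorem isInfCard_iff {κ : M} : IsInfCard κ ↔ Big κ ∧ IsCd κ := by
  unfold IsInfCard Big
  rw [isCard_iff]
  simp only [isOmega_iff]
  constructor
  · rintro ⟨h1, h2⟩
    refine ⟨⟨h1.1, ?_⟩, h1⟩
    rcases h1.1.sub_or_mem Ord.om with h | h
    · rcases h1.1.tri Ord.om with h' | h' | h'
      · exact (h2 om rfl h').elim
      · rw [h']
        exact fun z hz => hz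
      · exact fun z hz => h1.1.trans h' hz
    · exact fun z hz => h1.1.trans h hz
  · rintro ⟨⟨h1, h2⟩, h3⟩
    refine ⟨h3, fun w hw h => ?_⟩
    subst hw
    exact not_mem_self κ (h2 κ h)

end GA.Dp
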