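import Pool.Agent.GA.CohF
import Pool.Agent.GA.CardK

/-!
# The axiom restricted to infinite cardinals fails as well
-/

universe u

namespace GA

open FirstOrder FirstOrder.Language

instance DZ.IsCd {f : ∀ i : ZFM.{u}, (ℕ → i.carrier) → i.carrier} [hf : FZ f] :
    DZ (fun i v => IsCd (f i v)) := by
  refine DZ.app1 (R := fun i x => GA.IsCd x) ?_ hf
  unfold GA.IsCd Ne
  infer_instance

/-- The axiom of the class `K` for the infinite cardinals: for every infinite cardinal `κ` the sentences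
forced by the largest condition of the forcing with index `κ` are exactly the true ones. -/
def CAx (K : FClass.{u}) (M : Type u) [SetStr M] [IsZF M] : Prop :=
  ∀ κ : M, Big κ → IsCd κ → ∀ φ : LST.Sentence,
    M ⊨ φ ↔ Forces (K.L ⟨M⟩ κ) φ (K.o ⟨M⟩ κ) default default

theorem FAx.cax {K : FClass.{u}} {M : Type u} [SetStr M] [IsZF M] (h : FAx K M) : CAx K M :=
  fun κ hκ _ φ => h κ hκ.1 φ

/-- The axiom passes to elementary submodels. -/
theorem CAx.elem {K : FClass.{u}} {S M : Type u} [SetStr S] [IsZF S] [SetStr M] [IsZF M]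
    {j : S → M} (hj : Elem j) (h : CAx K M) : CAx K S := by
  intro α hα hc φ
  have hα' : Big (j α) :=
    (hj.dz (P := fun i v => Big (v 0)) inferInstance (fun _ => α)).2 hα
  have hc' : IsCd (j α) :=
    (hj.dz (P := fun i v => IsCd (v 0)) inferInstance (fun _ => α)).2 hc
  have hL := K.hL
  have ho := K.ho
  have h1 := hj.dz (P := fun i v => Forces (K.L i (v 0)) φ (K.o i (v 0)) default default)
    (DZ.Forces_sentence φ) (fun _ => α)
  exact (hj.equiv φ).trans ((h (j α) hα' hc' φ).trans h1)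

/-- A class of forcings all of whose members indexed by infinite cardinals satisfy the transfer
conditions is refuted, already by the infinite cardinals. -/
theorem not_CAx_of_transfer (K : FClass.{u})
    (h : ∀ (S : Type u) [SetStr S] [IsZF S] (κ : S), Big κ → IsCd κ →
      CovP (K.P ⟨S⟩ κ) (K.L ⟨S⟩ κ) ∧ LowP (K.P ⟨S⟩ κ) (K.L ⟨S⟩ κ) (K.o ⟨S⟩ κ) κ ∧
        UpP (K.P ⟨S⟩ κ) (K.L ⟨S⟩ κ) κ)
    (M : Type u) [SetStr M] [IsZF M] : ¬ CAx K M := by
  intro hM
  obtain ⟨S, _, _, j, hS, hj⟩ := exists_countable_elem M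
  have hA : CAx K S := hM.elem hj
  obtain ⟨φ, hφ⟩ := DZ.Phi.{u}.exists_sentence
  have key : ∀ (κ : S) (hκ : Big κ) (hc : IsCd κ),
      ∃ G, ∃ hG : IsGeneric (K.P ⟨S⟩ κ) (K.L ⟨S⟩ κ) (K.o ⟨S⟩ κ) G,
      ∃ _ : IsZF (Ext hG), (S ⊨ φ ↔ Phi (Ext hG)) := by
    intro κ hκ hc
    have hF := K.forcing ⟨S⟩ κ hκ.1
    obtain ⟨G, hG, -⟩ := exists_generic hF _ hF.top_mem
    have he := ext_equiv hG (hA κ hκ hc)
    have hz : IsZF (Ext hG) := IsZF.of_equiv he
    exact ⟨G, hG, hz, (he φ).trans (hφ ⟨Ext hG⟩)⟩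
  obtain ⟨κa, κb, ha, hb, ca, cb, h1, h2⟩ := exists_two_cd.{u, u} S
  obtain ⟨G1, hG1, _, e1⟩ := key κa ha ca
  obtain ⟨G2, hG2, _, e2⟩ := key κb hb cb
  obtain ⟨a1, a2, a3⟩ := h S κa ha ca
  obtain ⟨b1, b2, b3⟩ := h S κb hb cb
  exact h2 (Ext hG2) (jj hG2) (transfer_jj hG2 b1 b2 b3)
    (e2.1 (e1.2 (h1 (Ext hG1) (jj hG1) (transfer_jj hG1 a1 a2 a3))))

/-- The axiom for Cohen forcing, restricted to infinite cardinals, fails in every model of ZF. -/
theorem not_CAx_coh (M : Type u) [SetStr M] [IsZF M] : ¬ CAx cohClass.{u} M :=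
  not_CAx_of_transfer cohClass (fun _ _ _ κ hκ _ => ⟨covP_coh hκ, lowP_coh κ, upP_coh hκ⟩) M

end GA
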