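import Pool.Agent.GA.CardK

/-!
# `κ × ω` injects into `κ` for limit ordinals `κ`
-/

universe u

namespace GA

variable {M : Type u} [SetStr M] [IsZF M]

/-- `S` is the sequence `l, l + 1, l + 2, ...`. -/
def Sh (l S : M) : Prop :=
  Fn S om ∧ app S emp = l ∧ ∀ n, SetStr.mem n om → app S (succ n) = succ (app S n)

theorem pd_Sh {f g : (ℕ → M) → M} (hf : PF f) (hg : PF g) : PD (fun v => Sh (f v) (g v)) :=
  PD.app2 (R := fun x y => Sh x y) (by unfold Sh; (repeat' (with_reducible first | apply pf_hh | apply pd_Spr | apply pd_Inj | apply pf_har | apply pd_Le | apply pf_fins | apply pf_card | apply pd_Bij | apply pd_Fini | apply pd_Big | apply pd_Ord | apply pd_Tr | apply pd_Ind | apply pf_succ | apply pf_funs | apply pf_prod | apply pf_lam | apply pd_Fn | apply pf_app | apply pf_ran | apply pf_dom | apply PF.img | apply PF.pow | apply PD.sub | apply PF.adj | apply PF.un | apply PF.sUn | apply PF.op | apply PF.pr | apply PF.sep | exact PF.var _ | exact PF.const _ | apply PD.eq | apply PD.mem | apply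 PD.not | apply PD.iff | apply PD.or | apply PD.and | apply PD.imp | apply PD.ex | apply PD.all | exact PD.const _ | assumption | refine PF.comp1 (F := _) (by assumption) ?_ | refine PF.comp2 (F := _) (by assumption) ?_ ?_ | refine PF.comp3 (F := _) (by assumption) ?_ ?_ ?_ | refine PD.app1 (R := _) (by assumption) ?_ | refine PD.app2 (R := _) (by assumption) ?_ ?_ | refine PD.app3 (R := _) (by assumption) ?_ ?_ ?_ | refine PD.app4 (R := _) (by assumption) ?_ ?_ ?_ ?_))) hf hg


/-- `l` is a limit ordinal or zero. -/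
def Lz (l : M) : Prop := Ord l ∧ ∀ x, SetStr.mem x l → SetStr.mem (succ x) l

theorem pd_Lz {f : (ℕ → M) → M} (hf : PF f) : PD (fun v => Lz (f v)) :=
  PD.app1 (R := fun x => Lz x) (by unfold Lz; (repeat' (with_reducible first | apply pd_Sh | apply pf_hh | apply pd_Spr | apply pd_Inj | apply pf_har | apply pd_Le | apply pf_fins | apply pf_card | apply pd_Bij | apply pd_Fini | apply pd_Big | apply pd_Ord | apply pd_Tr | apply pd_Ind | apply pf_succ | apply pf_funs | apply pf_prod | apply pf_lam | apply pd_Fn | apply pf_app | apply pf_ran | apply pf_dom | apply PF.img | apply PF.pow | apply PD.sub | apply PF.adj | apply PF.un | apply PF.sUn | apply PF.op | apply PF.pr | apply PF.sep | exact PF.var _ | exact PF.const _ | apply PD.eq | apply PD.mem | apply PD.not | apply PD.iff | apply PD.or | apply PD.and | apply PD.imp | apply PD.ex | apply PD.all | exact PD.const _ | assumption | refine PF.comp1 (F := _) (by assumption) ?_ | refine PF.comp2 (F := _) (by assumption) ?_ ?_ | refine PF.comp3 (F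 := _) (by assumption) ?_ ?_ ?_ | refine PD.app1 (R := _) (by assumption) ?_ | refine PD.app2 (R := _) (by assumption) ?_ ?_ | refine PD.app3 (R := _) (by assumption) ?_ ?_ ?_ | refine PD.app4 (R := _) (by assumption) ?_ ?_ ?_ ?_))) hf


theorem exists_Sh (l : M) : ∃ S, Sh l S := by
  obtain ⟨F, hF, h2, h3⟩ := om_rec (G := fun x => succ x) (by (repeat' (with_reducible first | apply pd_Lz | apply pd_Sh | apply pf_hh | apply pd_Spr | apply pd_Inj | apply pf_har | apply pd_Le | apply pf_fins | apply pf_card | apply pd_Bij | apply pd_Fini | apply pd_Big | apply pd_Ord | apply pd_Tr | apply pd_Ind | apply pf_succ | apply pf_funs | apply pf_prod | apply pf_lam | apply pd_Fn | apply pf_app | apply pf_ran | apply pf_dom | apply PF.img | apply PF.pow | apply PD.sub | apply PF.adj | apply PF.un | apply PF.sUn | apply PF.op | apply PF.pr | apply PF.sep | exact PF.var _ | exact PF.const _ | apply PD.eq | apply PD.mem | apply PD.not | apply PD.iff | apply PD.or | apply PD.and | apply PD.imp | apply PD.ex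 | apply PD.all | exact PD.const _ | assumption | refine PF.comp1 (F := _) (by assumption) ?_ | refine PF.comp2 (F := _) (by assumption) ?_ ?_ | refine PF.comp3 (F := _) (by assumption) ?_ ?_ ?_ | refine PD.app1 (R := _) (by assumption) ?_ | refine PD.app2 (R := _) (by assumption) ?_ ?_ | refine PD.app3 (R := _) (by assumption) ?_ ?_ ?_ | refine PD.app4 (R := _) (by assumption) ?_ ?_ ?_ ?_))) l
  refine ⟨lam F om, lam_Fn hF om, ?_, fun n hn => ?_⟩
  · rw [app_lam hF emp_mem_om, h2]
  · rw [app_lam hF hn, app_lam hF (succ_mem_om hn), h3 n hn]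

theorem Sh.unique {l S S' : M} (h : Sh l S) (h' : Sh l S') : S = S' := by
  refine h.1.ext h'.1 (om_ind (P := fun n => app S n = app S' n) (by (repeat' (with_reducible first | apply pd_Lz | apply pd_Sh | apply pf_hh | apply pd_Spr | apply pd_Inj | apply pf_har | apply pd_Le | apply pf_fins | apply pf_card | apply pd_Bij | apply pd_Fini | apply pd_Big | apply pd_Ord | apply pd_Tr | apply pd_Ind | apply pf_succ | apply pf_funs | apply pf_prod | apply pf_lam | apply pd_Fn | apply pf_app | apply pf_ran | apply pf_dom | apply PF.img | apply PF.pow | apply PD.sub | apply PF.adj | apply PF.un | apply PF.sUn | apply PF.op | apply PF.pr | apply PF.sep | exact PF.var _ | exact PF.const _ | apply PD.eq | apply PD.mem | apply PD.not | apply PD.iff | apply PD.or | apply PD.and | apply PD.imp | apply PD.ex | apply PD.all | exact PD.const _ | assumption | refine PF.comp1 (F := _) (by assumption) ?_ | refine PF.comp2 (F := _) (by assumption) ?_ ?_ | refine PF.comp3 (F := _) (by assumption) ?_ ?_ ?_ | refine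 PD.app1 (R := _) (by assumption) ?_ | refine PD.app2 (R := _) (by assumption) ?_ ?_ | refine PD.app3 (R := _) (by assumption) ?_ ?_ ?_ | refine PD.app4 (R := _) (by assumption) ?_ ?_ ?_ ?_))) ?_ ?_)
  · rw [h.2.1, h'.2.1]
  · intro n hn ih
    rw [h.2.2 n hn, h'.2.2 n hn, ih]

theorem Sh.ord {l S : M} (h : Sh l S) (hl : Ord l) : ∀ n, SetStr.mem n om → Ord (app S n) := by
  refine om_ind (P := fun n => Ord (app S n)) (by (repeat' (with_reducible first | apply pd_Lz | apply pd_Sh | apply pf_hh | apply pd_Spr | apply pd_Inj | apply pf_har | apply pd_Le | apply pf_fins | apply pf_card | apply pd_Bij | apply pd_Fini | apply pd_Big | apply pd_Ord | apply pd_Tr | apply pd_Ind | apply pf_succ | apply pf_funs | apply pf_prod | apply pf_lam | apply pd_Fn | apply pf_app | apply pf_ran | apply pf_dom | apply PF.img | apply PF.pow | apply PD.sub | apply PF.adj | apply PF.un | apply PF.sUn | apply PF.op | apply PF.pr | apply PF.sep | exact PF.var _ | exact PF.const _ | apply PD.eq | apply PD.mem | apply PD.not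 | apply PD.iff | apply PD.or | apply PD.and | apply PD.imp | apply PD.ex | apply PD.all | exact PD.const _ | assumption | refine PF.comp1 (F := _) (by assumption) ?_ | refine PF.comp2 (F := _) (by assumption) ?_ ?_ | refine PF.comp3 (F := _) (by assumption) ?_ ?_ ?_ | refine PD.app1 (R := _) (by assumption) ?_ | refine PD.app2 (R := _) (by assumption) ?_ ?_ | refine PD.app3 (R := _) (by assumption) ?_ ?_ ?_ | refine PD.app4 (R := _) (by assumption) ?_ ?_ ?_ ?_))) ?_ ?_
  · rw [h.2.1]
    exact hl
  · intro n hn ih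
    rw [h.2.2 n hn]
    exact ih.succ

theorem Sh.sub {l S : M} (h : Sh l S) : ∀ n, SetStr.mem n om → GA.sub l (app S n) := by
  refine om_ind (P := fun n => GA.sub l (app S n)) (by (repeat' (with_reducible first | apply pd_Lz | apply pd_Sh | apply pf_hh | apply pd_Spr | apply pd_Inj | apply pf_har | apply pd_Le | apply pf_fins | apply pf_card | apply pd_Bij | apply pd_Fini | apply pd_Big | apply pd_Ord | apply pd_Tr | apply pd_Ind | apply pf_succ | apply pf_funs | apply pf_prod | apply pf_lam | apply pd_Fn | apply pf_app | apply pf_ran | apply pf_dom | apply PF.img | apply PF.pow | apply PD.sub | apply PF.adj | apply PF.un | apply PF.sUn | apply PF.op | apply PF.pr | apply PF.sep | exact PF.var _ | exact PF.const _ | apply PD.eq | apply PD.mem | apply PD.not | apply PD.iff | apply PD.or | apply PD.and | apply PD.imp | apply PD.ex | apply PD.all | exact PD.const _ | assumption | refine PF.comp1 (F := _) (by assumption) ?_ | refine PF.comp2 (F := _) (by assumption) ?_ ?_ | refine PF.comp3 (F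 := _) (by assumption) ?_ ?_ ?_ | refine PD.app1 (R := _) (by assumption) ?_ | refine PD.app2 (R := _) (by assumption) ?_ ?_ | refine PD.app3 (R := _) (by assumption) ?_ ?_ ?_ | refine PD.app4 (R := _) (by assumption) ?_ ?_ ?_ ?_))) ?_ ?_
  · rw [h.2.1]
    exact fun _ hz => hz
  · intro n hn ih z hz
    rw [h.2.2 n hn]
    exact mem_succ.2 (Or.inl (ih z hz))

theorem Sh.lt {l S : M} (h : Sh l S) (hl : Ord l) : ∀ n, SetStr.mem n om → ∀ m, SetStr.mem m n →
    SetStr.mem (app S m) (app S n) := by
  refine om_ind (P := fun n => ∀ m, SetStr.mem m n → SetStr.mem (app S m) (app S n)) (by (repeat' (with_reducible first | apply pd_Lz | apply pd_Sh | apply pf_hh | apply pd_Spr | apply pd_Inj | apply pf_har | apply pd_Le | apply pf_fins | apply pf_card | apply pd_Bij | apply pd_Fini | apply pd_Big | apply pd_Ord | apply pd_Tr | apply pd_Ind | apply pf_succ | apply pf_funs | apply pf_prod | apply pf_lam | apply pd_Fn | apply pf_app | apply pf_ran | apply pf_dom | apply PF.img | apply PF.pow | apply PD.sub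 | apply PF.adj | apply PF.un | apply PF.sUn | apply PF.op | apply PF.pr | apply PF.sep | exact PF.var _ | exact PF.const _ | apply PD.eq | apply PD.mem | apply PD.not | apply PD.iff | apply PD.or | apply PD.and | apply PD.imp | apply PD.ex | apply PD.all | exact PD.const _ | assumption | refine PF.comp1 (F := _) (by assumption) ?_ | refine PF.comp2 (F := _) (by assumption) ?_ ?_ | refine PF.comp3 (F := _) (by assumption) ?_ ?_ ?_ | refine PD.app1 (R := _) (by assumption) ?_ | refine PD.app2 (R := _) (by assumption) ?_ ?_ | refine PD.app3 (R := _) (by assumption) ?_ ?_ ?_ | refine PD.app4 (R := _) (by assumption) ?_ ?_ ?_ ?_))) ?_ ?_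
  · intro m hm
    exact (not_mem_emp m hm).elim
  · intro n hn ih m hm
    rw [h.2.2 n hn, mem_succ]
    rcases mem_succ.1 hm with hm | rfl
    · exact Or.inl (ih m hm)
    · exact Or.inr rfl

theorem Sh.inj {l S n m : M} (h : Sh l S) (hl : Ord l) (hn : SetStr.mem n om) (hm : SetStr.mem m om)
    (e : app S n = app S m) : n = m := by
  rcases (Ord.of_mem_om hn).tri (Ord.of_mem_om hm) with h1 | h1 | h1
  · have := h.lt hl m hm n h1
    rw [e] at this
    exact (not_mem_self _ this).elim
  · exact h1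
  · have := h.lt hl n hn m h1
    rw [e] at this
    exact (not_mem_self _ this).elim

theorem Sh.mem_lim {l S k : M} (h : Sh l S) (hk : Lz k) (hlk : SetStr.mem l k) :
    ∀ n, SetStr.mem n om → SetStr.mem (app S n) k := by
  refine om_ind (P := fun n => SetStr.mem (app S n) k) (by (repeat' (with_reducible first | apply pd_Lz | apply pd_Sh | apply pf_hh | apply pd_Spr | apply pd_Inj | apply pf_har | apply pd_Le | apply pf_fins | apply pf_card | apply pd_Bij | apply pd_Fini | apply pd_Big | apply pd_Ord | apply pd_Tr | apply pd_Ind | apply pf_succ | apply pf_funs | apply pf_prod | apply pf_lam | apply pd_Fn | apply pf_app | apply pf_ran | apply pf_dom | apply PF.img | apply PF.pow | apply PD.sub | apply PF.adj | apply PF.un | apply PF.sUn | apply PF.op | apply PF.pr | apply PF.sep | exact PF.var _ | exact PF.const _ | apply PD.eq | apply PD.mem | apply PD.not | apply PD.iff | apply PD.or | apply PD.and | apply PD.imp | apply PD.ex | apply PD.all | exact PD.const _ | assumption | refine PF.comp1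 (F := _) (by assumption) ?_ | refine PF.comp2 (F := _) (by assumption) ?_ ?_ | refine PF.comp3 (F := _) (by assumption) ?_ ?_ ?_ | refine PD.app1 (R := _) (by assumption) ?_ | refine PD.app2 (R := _) (by assumption) ?_ ?_ | refine PD.app3 (R := _) (by assumption) ?_ ?_ ?_ | refine PD.app4 (R := _) (by assumption) ?_ ?_ ?_ ?_))) ?_ ?_
  · rw [h.2.1]
    exact hlk
  · intro n hn ih
    rw [h.2.2 n hn]
    exact hk.2 _ ih

theorem Sh.inj2 {l l' S S' n n' : M} (h : Sh l S) (h' : Sh l' S') (hl : Lz l) (hl' : Lz l')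
    (hn : SetStr.mem n om) (hn' : SetStr.mem n' om) (e : app S n = app S' n') : l = l' ∧ S = S' ∧ n = n' := by
  rcases hl.1.tri hl'.1 with h1 | h1 | h1
  · have h2 := h.mem_lim hl' h1 n hn
    have h3 := h'.sub n' hn' _ h2
    rw [e] at h3
    exact (not_mem_self _ h3).elim
  · subst h1
    have := h.unique h'
    subst this
    exact ⟨rfl, rfl, h.inj hl.1 hn hn' e⟩
  · have h2 := h'.mem_lim hl h1 n' hn'
    have h3 := h.sub n hn _ h2
    rw [e] at h3
    exact (not_mem_self _ h3).elim

theorem exists_block : ∀ a : M, Ord a → ∃ l S n, Lz l ∧ Sh l S ∧ SetStr.mem n om ∧ a = app S n := by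
  refine Ord.ind (P := fun a => ∃ l S n, Lz l ∧ Sh l S ∧ SetStr.mem n om ∧ a = app S n) (by (repeat' (with_reducible first | apply pd_Lz | apply pd_Sh | apply pf_hh | apply pd_Spr | apply pd_Inj | apply pf_har | apply pd_Le | apply pf_fins | apply pf_card | apply pd_Bij | apply pd_Fini | apply pd_Big | apply pd_Ord | apply pd_Tr | apply pd_Ind | apply pf_succ | apply pf_funs | apply pf_prod | apply pf_lam | apply pd_Fn | apply pf_app | apply pf_ran | apply pf_dom | apply PF.img | apply PF.pow | apply PD.sub | apply PF.adj | apply PF.un | apply PF.sUn | apply PF.op | apply PF.pr | apply PF.sep | exact PF.var _ | exact PF.const _ | apply PD.eq | apply PD.mem | apply PD.not | apply PD.iff | apply PD.or | apply PD.and | apply PD.imp | apply PD.ex | apply PD.all | exact PD.const _ | assumption | refine PF.comp1 (F := _) (by assumption) ?_ | refine PF.comp2 (F := _) (by assumption) ?_ ?_ | refine PF.comp3 (F := _) (by assumption) ?_ ?_ ?_ | refine PD.app1 (R := _) (by assumption) ?_ | refine PD.app2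 (R := _) (by assumption) ?_ ?_ | refine PD.app3 (R := _) (by assumption) ?_ ?_ ?_ | refine PD.app4 (R := _) (by assumption) ?_ ?_ ?_ ?_))) ?_
  intro a ha ih
  by_cases h : Lz a
  · obtain ⟨S, hS⟩ := exists_Sh a
    exact ⟨a, S, emp, h, hS, emp_mem_om, hS.2.1.symm⟩
  · have : ∃ x, SetStr.mem x a ∧ ¬ SetStr.mem (succ x) a := by
      by_contra hcon
      push Not at hcon
      exact h ⟨ha, hcon⟩
    obtain ⟨x, hx, hx'⟩ := this
    have e : succ x = a := by
      rcases ((ha.mem hx).succ.sub_iff ha).1 (((ha.mem hx).mem_iff_succ_sub ha).1 hx) with h1 | h1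
      · exact (hx' h1).elim
      · exact h1
    obtain ⟨l, S, n, h1, h2, h3, h4⟩ := ih x hx
    refine ⟨l, S, succ n, h1, h2, succ_mem_om h3, ?_⟩
    rw [h2.2.2 n h3, ← h4, e]

/-- `κ × ω` injects into `κ` for limit ordinals `κ`. -/
theorem le_prod_om {κ : M} (hκ : Lz κ) : Le (prod κ om) κ := by
  obtain ⟨f, hf1, hf2, hf3⟩ := le_om_prod (M := M)
  have hg : ∀ w : M, SetStr.mem w (sep (prod (prod κ om) κ) (fun w => ∃ a m l S n, w = op (op a m)
      (app S (app f (op n m))) ∧ Lz l ∧ Sh l S ∧ SetStr.mem n om ∧ a = app S n)) ↔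
      SetStr.mem w (prod (prod κ om) κ) ∧ ∃ a m l S n, w = op (op a m)
      (app S (app f (op n m))) ∧ Lz l ∧ Sh l S ∧ SetStr.mem n om ∧ a = app S n := fun w => mem_sep (by (repeat' (with_reducible first | apply pd_Lz | apply pd_Sh | apply pf_hh | apply pd_Spr | apply pd_Inj | apply pf_har | apply pd_Le | apply pf_fins | apply pf_card | apply pd_Bij | apply pd_Fini | apply pd_Big | apply pd_Ord | apply pd_Tr | apply pd_Ind | apply pf_succ | apply pf_funs | apply pf_prod | apply pf_lam | apply pd_Fn | apply pf_app | apply pf_ran | apply pf_dom | apply PF.img | apply PF.pow | apply PD.sub | apply PF.adj | apply PF.un | apply PF.sUn | apply PF.op | apply PF.pr | apply PF.sep | exact PF.var _ | exact PF.const _ | apply PD.eq | apply PD.mem | apply PD.not | apply PD.iff | apply PD.or | apply PD.and | apply PD.imp | apply PD.ex | apply PD.all | exact PD.const _ | assumption | refine PF.comp1 (F := _) (by assumption) ?_ | refine PF.comp2 (F := _) (by assumption) ?_ ?_ | refine PF.comp3 (F := _) (by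 assumption) ?_ ?_ ?_ | refine PD.app1 (R := _) (by assumption) ?_ | refine PD.app2 (R := _) (by assumption) ?_ ?_ | refine PD.app3 (R := _) (by assumption) ?_ ?_ ?_ | refine PD.app4 (R := _) (by assumption) ?_ ?_ ?_ ?_)))
  generalize sep (prod (prod κ om) κ) (fun w => ∃ a m l S n, w = op (op a m)
      (app S (app f (op n m))) ∧ Lz l ∧ Sh l S ∧ SetStr.mem n om ∧ a = app S n) = g at hg
  have key : ∀ a m, SetStr.mem a κ → SetStr.mem m om → ∃ l S n, Lz l ∧ Sh l S ∧ SetStr.mem n om ∧ a = app S n ∧
      ∀ y, SetStr.mem (op (op a m) y) g ↔ y = app S (app f (op n m)) := by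
    intro a m ha hm
    obtain ⟨l, S, n, h1, h2, h3, h4⟩ := exists_block a (hκ.1.mem ha)
    refine ⟨l, S, n, h1, h2, h3, h4, fun y => ?_⟩
    rw [hg]
    constructor
    · rintro ⟨-, a', m', l', S', n', e, h1', h2', h3', h4'⟩
      rw [op_inj, op_inj] at e
      obtain ⟨⟨rfl, rfl⟩, rfl⟩ := e
      obtain ⟨-, rfl, rfl⟩ := h2.inj2 h2' h1 h1' h3 h3' (h4.symm.trans h4')
      rfl
    · rintro rfl
      refine ⟨op_mem_prod.2 ⟨op_mem_prod.2 ⟨ha, hm⟩, ?_⟩, a, m, l, S, n, rfl, h1, h2, h3, h4⟩
      have hlκ : SetStr.mem l κ := by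
        have h5 := h2.sub n h3
        rw [← h4] at h5
        rcases (h1.1.sub_iff (hκ.1.mem ha)).1 h5 with h6 | h6
        · exact hκ.1.trans ha h6
        · rw [h6]
          exact ha
      exact h2.mem_lim hκ hlκ _ (hf2 _ (op_mem_prod.2 ⟨h3, hm⟩))
  have hgf : Fn g (prod κ om) := by
    refine ⟨fun z hz => ?_, fun x hx => ?_⟩
    · have := ((hg z).1 hz).1
      obtain ⟨x, hx, y, hy, rfl⟩ := mem_prod.1 this
      exact ⟨x, hx, y, rfl⟩
    · obtain ⟨a, ha, m, hm, rfl⟩ := mem_prod.1 hx
      obtain ⟨l, S, n, -, -, -, -, h5⟩ := key a m ha hm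
      exact ⟨⟨_, (h5 _).2 rfl⟩, fun y y' hy hy' => ((h5 y).1 hy).trans ((h5 y').1 hy').symm⟩
  refine ⟨g, hgf, fun x hx => ?_, fun x y hx hy e => ?_⟩
  · have h1 := hgf.app_mem hx
    exact (op_mem_prod.1 ((hg _).1 h1).1).2
  · obtain ⟨a, ha, m, hm, rfl⟩ := mem_prod.1 hx
    obtain ⟨b, hb, k, hk, rfl⟩ := mem_prod.1 hy
    obtain ⟨l, S, n, h1, h2, h3, h4, h5⟩ := key a m ha hm
    obtain ⟨l', S', n', h1', h2', h3', h4', h5'⟩ := key b k hb hk
    have e1 := (h5 _).1 (hgf.app_mem hx)
    have e2 := (h5' _).1 (hgf.app_mem hy)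
    have e3 : app S (app f (op n m)) = app S' (app f (op n' k)) := by
      rw [← e1, ← e2, e]
    obtain ⟨-, rfl, e4⟩ := h2.inj2 h2' h1 h1' (hf2 _ (op_mem_prod.2 ⟨h3, hm⟩))
      (hf2 _ (op_mem_prod.2 ⟨h3', hk⟩)) e3
    have e5 := hf3 _ _ (op_mem_prod.2 ⟨h3, hm⟩) (op_mem_prod.2 ⟨h3', hk⟩) e4
    rw [op_inj] at e5
    rw [h4, h4', e5.1, e5.2]

/-- Infinite cardinals are limit ordinals. -/
theorem IsCd.lz {κ : M} (h : IsCd κ) (hκ : Big κ) : Lz κ := by
  refine ⟨h.1, fun a ha => ?_⟩
  have hao := h.1.mem ha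
  rcases (hao.succ.sub_iff h.1).1 ((hao.mem_iff_succ_sub h.1).1 ha) with h1 | h1
  · exact h1
  · exfalso
    have hoa : GA.sub (om : M) a := by
      intro n hn
      have h2 := hκ.2 n hn
      rw [← h1] at h2
      rcases mem_succ.1 h2 with h3 | h3
      · exact h3
      · exfalso
        have h4 := hκ.2 _ (succ_mem_om (succ_mem_om hn))
        rw [← h1, h3] at h4
        rcases mem_succ.1 h4 with h5 | h5
        · exact not_mem_mem h5 (mem_succ.2 (Or.inl (mem_succ.2 (Or.inr rfl))))
        · refine not_mem_self a ?_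
          rw [← h5]
          rw [h5]
          have : SetStr.mem a (succ (succ a)) := mem_succ.2 (Or.inl (mem_succ.2 (Or.inr rfl)))
          rw [h5] at this
          exact this
    have hg : ∀ w : M, SetStr.mem w (sep (prod a κ) (fun w => ∃ x y, w = op x y ∧
        ((x = emp ∧ y = a) ∨ (SetStr.mem x om ∧ x = succ y) ∨ (¬ SetStr.mem x om ∧ x = y)))) ↔
        SetStr.mem w (prod a κ) ∧ ∃ x y, w = op x y ∧
        ((x = emp ∧ y = a) ∨ (SetStr.mem x om ∧ x = succ y) ∨ (¬ SetStr.mem x om ∧ x = y)) :=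
      fun w => mem_sep (by (repeat' (with_reducible first | apply pd_Lz | apply pd_Sh | apply pf_hh | apply pd_Spr | apply pd_Inj | apply pf_har | apply pd_Le | apply pf_fins | apply pf_card | apply pd_Bij | apply pd_Fini | apply pd_Big | apply pd_Ord | apply pd_Tr | apply pd_Ind | apply pf_succ | apply pf_funs | apply pf_prod | apply pf_lam | apply pd_Fn | apply pf_app | apply pf_ran | apply pf_dom | apply PF.img | apply PF.pow | apply PD.sub | apply PF.adj | apply PF.un | apply PF.sUn | apply PF.op | apply PF.pr | apply PF.sep | exact PF.var _ | exact PF.const _ | apply PD.eq | apply PD.mem | apply PD.not | apply PD.iff | apply PD.or | apply PD.and | apply PD.imp | apply PD.ex | apply PD.all | exact PD.const _ | assumption | refine PF.comp1 (F := _) (by assumption) ?_ | refine PF.comp2 (F := _) (by assumption) ?_ ?_ | refine PF.comp3 (F := _) (by assumption) ?_ ?_ ?_ | refine PD.app1 (R := _) (by assumption) ?_ | refine PD.app2 (R := _) (by assumption) ?_ ?_ | refine PD.app3 (R := _) (by assumption)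 ?_ ?_ ?_ | refine PD.app4 (R := _) (by assumption) ?_ ?_ ?_ ?_)))
    generalize sep (prod a κ) (fun w => ∃ x y, w = op x y ∧
        ((x = emp ∧ y = a) ∨ (SetStr.mem x om ∧ x = succ y) ∨ (¬ SetStr.mem x om ∧ x = y))) = g at hg
    have hg' : ∀ x y, SetStr.mem (op x y) g ↔ (SetStr.mem x a ∧ SetStr.mem y κ) ∧
        ((x = emp ∧ y = a) ∨ (SetStr.mem x om ∧ x = succ y) ∨ (¬ SetStr.mem x om ∧ x = y)) := by
      intro x y
      rw [hg, op_mem_prod]
      constructor
      · rintro ⟨h2, x', y', e, h3⟩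
        rw [op_inj] at e
        obtain ⟨rfl, rfl⟩ := e
        exact ⟨h2, h3⟩
      · rintro ⟨h2, h3⟩
        exact ⟨h2, x, y, rfl, h3⟩
    have he : ∀ y : M, (emp : M) ≠ succ y := fun y e =>
      not_mem_emp y (by rw [e]; exact mem_succ.2 (Or.inr rfl))
    have hgf : Fn g a := by
      refine ⟨fun z hz => ?_, fun x hx => ⟨?_, ?_⟩⟩
      · obtain ⟨x, hx, y, hy, rfl⟩ := mem_prod.1 ((hg z).1 hz).1
        exact ⟨x, hx, y, rfl⟩
      · by_cases hxo : SetStr.mem x om
        · rcases om_cases hxo with rfl | ⟨m, hm, rfl⟩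
          · exact ⟨a, (hg' _ _).2 ⟨⟨hx, ha⟩, Or.inl ⟨rfl, rfl⟩⟩⟩
          · exact ⟨m, (hg' _ _).2 ⟨⟨hx, hκ.2 m hm⟩, Or.inr (Or.inl ⟨hxo, rfl⟩)⟩⟩
        · exact ⟨x, (hg' _ _).2 ⟨⟨hx, h.1.trans ha hx⟩, Or.inr (Or.inr ⟨hxo, rfl⟩)⟩⟩
      · intro y y' hy hy'
        rw [hg'] at hy hy'
        rcases hy.2 with ⟨rfl, h3⟩ | ⟨h3, h4⟩ | ⟨h3, h4⟩
        · rcases hy'.2 with ⟨-, h6⟩ | ⟨h5, h6⟩ | ⟨h5, h6⟩
          · rw [h3, h6]
          · exact (he _ h6).elim
          · exact (h5 emp_mem_om).elim
        · rcases hy'.2 with ⟨h5, h6⟩ | ⟨h5, h6⟩ | ⟨h5, h6⟩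
          · rw [h5] at h4
            exact (he _ h4).elim
          · exact succ_inj (h4.symm.trans h6)
          · exact (h5 h3).elim
        · rcases hy'.2 with ⟨h5, h6⟩ | ⟨h5, h6⟩ | ⟨h5, h6⟩
          · rw [h5] at h3
            exact (h3 emp_mem_om).elim
          · exact (h3 h5).elim
          · rw [← h4, ← h6]
    obtain ⟨y, hy, hy'⟩ := h.2 a g ha hgf
    have hval : ∀ x z, SetStr.mem (op x z) g → SetStr.mem x a ∧ app g x = z := fun x z hxz =>
      ⟨(hgf.mem_iff.1 hxz).1, ((hgf.mem_iff.1 hxz).2).symm⟩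
    by_cases hyo : SetStr.mem y om
    · have h2 : SetStr.mem (op (succ y) y) g := (hg' _ _).2
        ⟨⟨hoa _ (succ_mem_om hyo), hy⟩, Or.inr (Or.inl ⟨succ_mem_om hyo, rfl⟩)⟩
      exact hy' _ (hval _ _ h2).1 (hval _ _ h2).2
    · rw [← h1] at hy
      rcases mem_succ.1 hy with h3 | rfl
      · have h2 : SetStr.mem (op y y) g := (hg' _ _).2
          ⟨⟨h3, h.1.trans ha h3⟩, Or.inr (Or.inr ⟨hyo, rfl⟩)⟩
        exact hy' _ (hval _ _ h2).1 (hval _ _ h2).2
      · have h2 : SetStr.mem (op emp y) g := (hg' _ _).2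
          ⟨⟨hoa _ emp_mem_om, ha⟩, Or.inl ⟨rfl, rfl⟩⟩
        exact hy' _ (hval _ _ h2).1 (hval _ _ h2).2

/-- `κ × ω` injects into `κ` for infinite cardinals `κ`. -/
theorem IsCd.le_prod_om {κ : M} (h : IsCd κ) (hκ : Big κ) : Le (prod κ om) κ :=
  GA.le_prod_om (h.lz hκ)

end GA
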