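import Pool.Agent.GA.RmD

/-!
# Random forcing, part E: coding
-/

universe u

namespace GA

variable {M : Type u} [SetStr M] [IsZF M]

/-- The clopen set `c` approximates the union of all conditions which force the value `ξ` at `x`, up
to `2^-k`. -/
def Cde (I A x ξ k c : M) : Prop :=
  Clo I c ∧ (∃ p, SetStr.mem (op p (op x ξ)) A ∧ EvS I k (sdf (cst c) p)) ∧
    ∀ q, SetStr.mem (op q (op x ξ)) A → EvS I k (sdf q (cst c))

theorem pd_Cde {I A : M} {f g h e : (ℕ → M) → M} (hf : PF f) (hg : PF g) (hh : PF h) (he : PF e) :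
    PD (fun v => Cde I A (f v) (g v) (h v) (e v)) :=
  PD.app4 (R := fun x y z w => Cde I A x y z w) (by unfold Cde; (repeat' (with_reducible first | apply pf_vals | apply pd_maxR | apply pf_rmO | apply pf_rmL | apply pf_rmP | apply pf_cls | apply pf_cst | apply pf_sdf | apply pf_sun | apply pf_sit | apply pd_Nul | apply pd_Cau | apply pd_EvB | apply pd_EvS | apply pd_Sq | apply pd_Fmem | apply pd_Feq | apply pd_WOd | apply pf_pfin | apply pd_Fun1 | apply pf_bit | apply pf_sd | apply pf_df | apply pf_it | apply pd_Sm | apply pf_trc | apply pd_Clo | apply pd_Dep | apply pf_rs | apply pf_hh | apply pd_Spr | apply pd_Inj | apply pf_har | apply pd_Le | apply pf_fins | apply pf_card | apply pd_Bij | apply pd_Fini | apply pd_Big | apply pd_Ord | apply pd_Tr | apply pd_Ind | apply pf_succ | apply pf_funs | apply pf_prod | apply pf_lam | apply pd_Fn | apply pf_app | apply pf_ran | apply pf_dom | apply PF.img | apply PF.pow | apply PD.sub | apply PF.adj | apply PF.un | apply PF.sUn | apply PF.op | apply PF.pr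 | apply PF.sep | exact PF.var _ | exact PF.const _ | apply PD.eq | apply PD.mem | apply PD.not | apply PD.iff | apply PD.or | apply PD.and | apply PD.imp | apply PD.ex | apply PD.all | exact PD.const _ | assumption | refine PF.comp1 (F := _) (by assumption) ?_ | refine PF.comp2 (F := _) (by assumption) ?_ ?_ | refine PF.comp3 (F := _) (by assumption) ?_ ?_ ?_ | refine PD.app1 (R := _) (by assumption) ?_ | refine PD.app2 (R := _) (by assumption) ?_ ?_ | refine PD.app3 (R := _) (by assumption) ?_ ?_ ?_ | refine PD.app4 (R := _) (by assumption) ?_ ?_ ?_ ?_))) hf hg hh he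


private noncomputable def e0_p1 (z : M) : M := sUn (sep (sUn z) (fun x => ∃ y, z = op x y))

private noncomputable def e0_p2 (z : M) : M := sUn (sep (sUn z) (fun y => ∃ x, z = op x y))

private theorem e0_mem (x y : M) : SetStr.mem x (sUn (op x y)) ∧ SetStr.mem y (sUn (op x y)) :=
  ⟨mem_sUn.2 ⟨pr x x, mem_pr.2 (Or.inl rfl), mem_pr.2 (Or.inl rfl)⟩,
    mem_sUn.2 ⟨pr x y, mem_pr.2 (Or.inr rfl), mem_pr.2 (Or.inr rfl)⟩⟩

private theorem e0_p1_op (x y : M) : e0_p1 (op x y) = x := by
  unfold e0_p1
  refine ext fun z => ?_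
  rw [mem_sUn]
  constructor
  · rintro ⟨w, hw, hz⟩
    rw [mem_sep (by (repeat' (with_reducible first | apply pd_Cde | apply pf_vals | apply pd_maxR | apply pf_rmO | apply pf_rmL | apply pf_rmP | apply pf_cls | apply pf_cst | apply pf_sdf | apply pf_sun | apply pf_sit | apply pd_Nul | apply pd_Cau | apply pd_EvB | apply pd_EvS | apply pd_Sq | apply pd_Fmem | apply pd_Feq | apply pd_WOd | apply pf_pfin | apply pd_Fun1 | apply pf_bit | apply pf_sd | apply pf_df | apply pf_it | apply pd_Sm | apply pf_trc | apply pd_Clo | apply pd_Dep | apply pf_rs | apply pf_hh | apply pd_Spr | apply pd_Inj | apply pf_har | apply pd_Le | apply pf_fins | apply pf_card | apply pd_Bij | apply pd_Fini | apply pd_Big | apply pd_Ord | apply pd_Tr | apply pd_Ind | apply pf_succ | apply pf_funs | apply pf_prod | apply pf_lam | apply pd_Fn | apply pf_app | apply pf_ran | apply pf_dom | apply PF.img | apply PF.pow | apply PD.sub | apply PF.adj | apply PF.un | apply PF.sUn | apply PF.op | apply PF.pr | apply PF.sep | exact PF.var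 _ | exact PF.const _ | apply PD.eq | apply PD.mem | apply PD.not | apply PD.iff | apply PD.or | apply PD.and | apply PD.imp | apply PD.ex | apply PD.all | exact PD.const _ | assumption | refine PF.comp1 (F := _) (by assumption) ?_ | refine PF.comp2 (F := _) (by assumption) ?_ ?_ | refine PF.comp3 (F := _) (by assumption) ?_ ?_ ?_ | refine PD.app1 (R := _) (by assumption) ?_ | refine PD.app2 (R := _) (by assumption) ?_ ?_ | refine PD.app3 (R := _) (by assumption) ?_ ?_ ?_ | refine PD.app4 (R := _) (by assumption) ?_ ?_ ?_ ?_)))] at hw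
    obtain ⟨-, y', hy'⟩ := hw
    rw [(op_inj.1 hy').1]
    exact hz
  · intro hz
    exact ⟨x, (mem_sep (by (repeat' (with_reducible first | apply pd_Cde | apply pf_vals | apply pd_maxR | apply pf_rmO | apply pf_rmL | apply pf_rmP | apply pf_cls | apply pf_cst | apply pf_sdf | apply pf_sun | apply pf_sit | apply pd_Nul | apply pd_Cau | apply pd_EvB | apply pd_EvS | apply pd_Sq | apply pd_Fmem | apply pd_Feq | apply pd_WOd | apply pf_pfin | apply pd_Fun1 | apply pf_bit | apply pf_sd | apply pf_df | apply pf_it | apply pd_Sm | apply pf_trc | apply pd_Clo | apply pd_Dep | apply pf_rs | apply pf_hh | apply pd_Spr | apply pd_Inj | apply pf_har | apply pd_Le | apply pf_fins | apply pf_card | apply pd_Bij | apply pd_Fini | apply pd_Big | apply pd_Ord | apply pd_Tr | apply pd_Ind | apply pf_succ | apply pf_funs | apply pf_prod | apply pf_lam | apply pd_Fn | apply pf_app | apply pf_ran | apply pf_dom | apply PF.img | apply PF.pow | apply PD.sub | apply PF.adj | apply PF.un | apply PF.sUn | apply PF.op | apply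 PF.pr | apply PF.sep | exact PF.var _ | exact PF.const _ | apply PD.eq | apply PD.mem | apply PD.not | apply PD.iff | apply PD.or | apply PD.and | apply PD.imp | apply PD.ex | apply PD.all | exact PD.const _ | assumption | refine PF.comp1 (F := _) (by assumption) ?_ | refine PF.comp2 (F := _) (by assumption) ?_ ?_ | refine PF.comp3 (F := _) (by assumption) ?_ ?_ ?_ | refine PD.app1 (R := _) (by assumption) ?_ | refine PD.app2 (R := _) (by assumption) ?_ ?_ | refine PD.app3 (R := _) (by assumption) ?_ ?_ ?_ | refine PD.app4 (R := _) (by assumption) ?_ ?_ ?_ ?_)))).2 ⟨(e0_mem x y).1, y, rfl⟩, hz⟩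

private theorem e0_p2_op (x y : M) : e0_p2 (op x y) = y := by
  unfold e0_p2
  refine ext fun z => ?_
  rw [mem_sUn]
  constructor
  · rintro ⟨w, hw, hz⟩
    rw [mem_sep (by (repeat' (with_reducible first | apply pd_Cde | apply pf_vals | apply pd_maxR | apply pf_rmO | apply pf_rmL | apply pf_rmP | apply pf_cls | apply pf_cst | apply pf_sdf | apply pf_sun | apply pf_sit | apply pd_Nul | apply pd_Cau | apply pd_EvB | apply pd_EvS | apply pd_Sq | apply pd_Fmem | apply pd_Feq | apply pd_WOd | apply pf_pfin | apply pd_Fun1 | apply pf_bit | apply pf_sd | apply pf_df | apply pf_it | apply pd_Sm | apply pf_trc | apply pd_Clo | apply pd_Dep | apply pf_rs | apply pf_hh | apply pd_Spr | apply pd_Inj | apply pf_har | apply pd_Le | apply pf_fins | apply pf_card | apply pd_Bij | apply pd_Fini | apply pd_Big | apply pd_Ord | apply pd_Tr | apply pd_Ind | apply pf_succ | apply pf_funs | apply pf_prod | apply pf_lam | apply pd_Fn | apply pf_app | apply pf_ran | apply pf_dom | apply PF.img | apply PF.pow | apply PD.sub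 | apply PF.adj | apply PF.un | apply PF.sUn | apply PF.op | apply PF.pr | apply PF.sep | exact PF.var _ | exact PF.const _ | apply PD.eq | apply PD.mem | apply PD.not | apply PD.iff | apply PD.or | apply PD.and | apply PD.imp | apply PD.ex | apply PD.all | exact PD.const _ | assumption | refine PF.comp1 (F := _) (by assumption) ?_ | refine PF.comp2 (F := _) (by assumption) ?_ ?_ | refine PF.comp3 (F := _) (by assumption) ?_ ?_ ?_ | refine PD.app1 (R := _) (by assumption) ?_ | refine PD.app2 (R := _) (by assumption) ?_ ?_ | refine PD.app3 (R := _) (by assumption) ?_ ?_ ?_ | refine PD.app4 (R := _) (by assumption) ?_ ?_ ?_ ?_)))] at hw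
    obtain ⟨-, x', hx'⟩ := hw
    rw [(op_inj.1 hx').2]
    exact hz
  · intro hz
    exact ⟨y, (mem_sep (by (repeat' (with_reducible first | apply pd_Cde | apply pf_vals | apply pd_maxR | apply pf_rmO | apply pf_rmL | apply pf_rmP | apply pf_cls | apply pf_cst | apply pf_sdf | apply pf_sun | apply pf_sit | apply pd_Nul | apply pd_Cau | apply pd_EvB | apply pd_EvS | apply pd_Sq | apply pd_Fmem | apply pd_Feq | apply pd_WOd | apply pf_pfin | apply pd_Fun1 | apply pf_bit | apply pf_sd | apply pf_df | apply pf_it | apply pd_Sm | apply pf_trc | apply pd_Clo | apply pd_Dep | apply pf_rs | apply pf_hh | apply pd_Spr | apply pd_Inj | apply pf_har | apply pd_Le | apply pf_fins | apply pf_card | apply pd_Bij | apply pd_Fini | apply pd_Big | apply pd_Ord | apply pd_Tr | apply pd_Ind | apply pf_succ | apply pf_funs | apply pf_prod | apply pf_lam | apply pd_Fn | apply pf_app | apply pf_ran | apply pf_dom | apply PF.img | apply PF.pow | apply PD.sub | apply PF.adj | apply PF.un | apply PF.sUn | apply PF.op | apply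 PF.pr | apply PF.sep | exact PF.var _ | exact PF.const _ | apply PD.eq | apply PD.mem | apply PD.not | apply PD.iff | apply PD.or | apply PD.and | apply PD.imp | apply PD.ex | apply PD.all | exact PD.const _ | assumption | refine PF.comp1 (F := _) (by assumption) ?_ | refine PF.comp2 (F := _) (by assumption) ?_ ?_ | refine PF.comp3 (F := _) (by assumption) ?_ ?_ ?_ | refine PD.app1 (R := _) (by assumption) ?_ | refine PD.app2 (R := _) (by assumption) ?_ ?_ | refine PD.app3 (R := _) (by assumption) ?_ ?_ ?_ | refine PD.app4 (R := _) (by assumption) ?_ ?_ ?_ ?_)))).2 ⟨(e0_mem x y).2, x, rfl⟩, hz⟩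

private theorem e0_pf1 : PF (fun v : ℕ → M => e0_p1 (v 0)) := by
  unfold e0_p1
  (repeat' (with_reducible first | apply pd_Cde | apply pf_vals | apply pd_maxR | apply pf_rmO | apply pf_rmL | apply pf_rmP | apply pf_cls | apply pf_cst | apply pf_sdf | apply pf_sun | apply pf_sit | apply pd_Nul | apply pd_Cau | apply pd_EvB | apply pd_EvS | apply pd_Sq | apply pd_Fmem | apply pd_Feq | apply pd_WOd | apply pf_pfin | apply pd_Fun1 | apply pf_bit | apply pf_sd | apply pf_df | apply pf_it | apply pd_Sm | apply pf_trc | apply pd_Clo | apply pd_Dep | apply pf_rs | apply pf_hh | apply pd_Spr | apply pd_Inj | apply pf_har | apply pd_Le | apply pf_fins | apply pf_card | apply pd_Bij | apply pd_Fini | apply pd_Big | apply pd_Ord | apply pd_Tr | apply pd_Ind | apply pf_succ | apply pf_funs | apply pf_prod | apply pf_lam | apply pd_Fn | apply pf_app | apply pf_ran | apply pf_dom | apply PF.img | apply PF.pow | apply PD.sub | apply PF.adj | apply PF.un | apply PF.sUn | apply PF.op | apply PF.pr | apply PF.sep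 | exact PF.var _ | exact PF.const _ | apply PD.eq | apply PD.mem | apply PD.not | apply PD.iff | apply PD.or | apply PD.and | apply PD.imp | apply PD.ex | apply PD.all | exact PD.const _ | assumption | refine PF.comp1 (F := _) (by assumption) ?_ | refine PF.comp2 (F := _) (by assumption) ?_ ?_ | refine PF.comp3 (F := _) (by assumption) ?_ ?_ ?_ | refine PD.app1 (R := _) (by assumption) ?_ | refine PD.app2 (R := _) (by assumption) ?_ ?_ | refine PD.app3 (R := _) (by assumption) ?_ ?_ ?_ | refine PD.app4 (R := _) (by assumption) ?_ ?_ ?_ ?_))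

private theorem e0_pf2 : PF (fun v : ℕ → M => e0_p2 (v 0)) := by
  unfold e0_p2
  (repeat' (with_reducible first | apply pd_Cde | apply pf_vals | apply pd_maxR | apply pf_rmO | apply pf_rmL | apply pf_rmP | apply pf_cls | apply pf_cst | apply pf_sdf | apply pf_sun | apply pf_sit | apply pd_Nul | apply pd_Cau | apply pd_EvB | apply pd_EvS | apply pd_Sq | apply pd_Fmem | apply pd_Feq | apply pd_WOd | apply pf_pfin | apply pd_Fun1 | apply pf_bit | apply pf_sd | apply pf_df | apply pf_it | apply pd_Sm | apply pf_trc | apply pd_Clo | apply pd_Dep | apply pf_rs | apply pf_hh | apply pd_Spr | apply pd_Inj | apply pf_har | apply pd_Le | apply pf_fins | apply pf_card | apply pd_Bij | apply pd_Fini | apply pd_Big | apply pd_Ord | apply pd_Tr | apply pd_Ind | apply pf_succ | apply pf_funs | apply pf_prod | apply pf_lam | apply pd_Fn | apply pf_app | apply pf_ran | apply pf_dom | apply PF.img | apply PF.pow | apply PD.sub | apply PF.adj | apply PF.un | apply PF.sUn | apply PF.op | apply PF.pr | apply PF.sep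 | exact PF.var _ | exact PF.const _ | apply PD.eq | apply PD.mem | apply PD.not | apply PD.iff | apply PD.or | apply PD.and | apply PD.imp | apply PD.ex | apply PD.all | exact PD.const _ | assumption | refine PF.comp1 (F := _) (by assumption) ?_ | refine PF.comp2 (F := _) (by assumption) ?_ ?_ | refine PF.comp3 (F := _) (by assumption) ?_ ?_ ?_ | refine PD.app1 (R := _) (by assumption) ?_ | refine PD.app2 (R := _) (by assumption) ?_ ?_ | refine PD.app3 (R := _) (by assumption) ?_ ?_ ?_ | refine PD.app4 (R := _) (by assumption) ?_ ?_ ?_ ?_))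

/-- MODULE e0.  Clopen sets are coded by a finite support and a finite set of functions. -/
theorem cd_cls {κ I : M} (hκ : Big κ) (hI : Cd κ I) : Cd κ (cls I) := by
  have hpp1 := e0_pf1 (M := M)
  have hpp2 := e0_pf2 (M := M)
  have htw : Cd κ (tw : M) := by
    refine Cd.of_le (Le.of_sub ?_) (Cd.om hκ)
    intro z hz
    rcases mem_tw.1 hz with rfl | rfl
    · exact emp_mem_om
    · exact succ_mem_om emp_mem_om
  have hW : Cd κ (prod (fins I) (fins (pfin I tw))) :=
    Cd.prod (hI.fins hκ) ((Cd.pfin hI htw hκ).fins hκ) hκ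
  obtain ⟨ch, hch, hchm⟩ := hW.1.choice
  have hmem : ∀ c w, SetStr.mem w (sep (prod (fins I) (fins (pfin I (tw : M))))
      (fun w => Dep I c (e0_p1 w) ∧ e0_p2 w = trc c (e0_p1 w))) ↔
      SetStr.mem w (prod (fins I) (fins (pfin I tw))) ∧ Dep I c (e0_p1 w) ∧ e0_p2 w = trc c (e0_p1 w) := by
    intro c w
    rw [mem_sep (by (repeat' (with_reducible first | apply pd_Cde | apply pf_vals | apply pd_maxR | apply pf_rmO | apply pf_rmL | apply pf_rmP | apply pf_cls | apply pf_cst | apply pf_sdf | apply pf_sun | apply pf_sit | apply pd_Nul | apply pd_Cau | apply pd_EvB | apply pd_EvS | apply pd_Sq | apply pd_Fmem | apply pd_Feq | apply pd_WOd | apply pf_pfin | apply pd_Fun1 | apply pf_bit | apply pf_sd | apply pf_df | apply pf_it | apply pd_Sm | apply pf_trc | apply pd_Clo | apply pd_Dep | apply pf_rs | apply pf_hh | apply pd_Spr | apply pd_Inj | apply pf_har | apply pd_Le | apply pf_fins | apply pf_card | apply pd_Bij | apply pd_Fini | apply pd_Big | apply pd_Ord | apply pd_Tr | apply pd_Ind | apply pf_succ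 | apply pf_funs | apply pf_prod | apply pf_lam | apply pd_Fn | apply pf_app | apply pf_ran | apply pf_dom | apply PF.img | apply PF.pow | apply PD.sub | apply PF.adj | apply PF.un | apply PF.sUn | apply PF.op | apply PF.pr | apply PF.sep | exact PF.var _ | exact PF.const _ | apply PD.eq | apply PD.mem | apply PD.not | apply PD.iff | apply PD.or | apply PD.and | apply PD.imp | apply PD.ex | apply PD.all | exact PD.const _ | assumption | refine PF.comp1 (F := _) (by assumption) ?_ | refine PF.comp2 (F := _) (by assumption) ?_ ?_ | refine PF.comp3 (F := _) (by assumption) ?_ ?_ ?_ | refine PD.app1 (R := _) (by assumption) ?_ | refine PD.app2 (R := _) (by assumption) ?_ ?_ | refine PD.app3 (R := _) (by assumption) ?_ ?_ ?_ | refine PD.app4 (R := _) (by assumption) ?_ ?_ ?_ ?_)))]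
  have hne : ∀ c, SetStr.mem c (cls I) → ∃ w, SetStr.mem w (sep (prod (fins I) (fins (pfin I (tw : M))))
      (fun w => Dep I c (e0_p1 w) ∧ e0_p2 w = trc c (e0_p1 w))) := by
    intro c hc
    obtain ⟨a, ha⟩ := mem_cls.1 hc
    refine ⟨op a (trc c a), (hmem c _).2 ⟨op_mem_prod.2 ⟨mem_fins.2 ⟨ha.1, ha.2.1⟩, ?_⟩, ?_, ?_⟩⟩
    · refine mem_fins.2 ⟨fun u hu => ?_, (fini_funs ha.2.1).sub (trc_sub ha)⟩
      have hu' := mem_funs.1 (trc_sub ha u hu)
      have hsub : GA.sub u (prod a tw) := by
        intro z hz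
        obtain ⟨x, hx, y, rfl⟩ := hu'.1.1 z hz
        rw [(hu'.1.mem_iff.1 hz).2]
        exact op_mem_prod.2 ⟨hx, hu'.2 x hx⟩
      refine mem_pfin.2 ⟨fun z hz => ?_, (ha.2.1.prod Fini.tw).sub hsub, ?_⟩
      · obtain ⟨x, hx, y, hy, rfl⟩ := mem_prod.1 (hsub z hz)
        exact op_mem_prod.2 ⟨ha.1 x hx, hy⟩
      · intro x y z hy hz
        rw [(hu'.1.mem_iff.1 hy).2, (hu'.1.mem_iff.1 hz).2]
    · rw [e0_p1_op]
      exact ha
    · rw [e0_p1_op, e0_p2_op]
  have hsub : ∀ c, GA.sub (sep (prod (fins I) (fins (pfin I (tw : M))))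
      (fun w => Dep I c (e0_p1 w) ∧ e0_p2 w = trc c (e0_p1 w))) (prod (fins I) (fins (pfin I tw))) :=
    fun c w hw => ((hmem c w).1 hw).1
  refine Cd.of_le (Le.of_fun (F := fun c => ch (sep (prod (fins I) (fins (pfin I (tw : M))))
      (fun w => Dep I c (e0_p1 w) ∧ e0_p2 w = trc c (e0_p1 w)))) (by (repeat' (with_reducible first | apply pd_Cde | apply pf_vals | apply pd_maxR | apply pf_rmO | apply pf_rmL | apply pf_rmP | apply pf_cls | apply pf_cst | apply pf_sdf | apply pf_sun | apply pf_sit | apply pd_Nul | apply pd_Cau | apply pd_EvB | apply pd_EvS | apply pd_Sq | apply pd_Fmem | apply pd_Feq | apply pd_WOd | apply pf_pfin | apply pd_Fun1 | apply pf_bit | apply pf_sd | apply pf_df | apply pf_it | apply pd_Sm | apply pf_trc | apply pd_Clo | apply pd_Dep | apply pf_rs | apply pf_hh | apply pd_Spr | apply pd_Inj | apply pf_har | apply pd_Le | apply pf_fins | apply pf_card | apply pd_Bij | apply pd_Fini | apply pd_Big | apply pd_Ord | apply pd_Tr | apply pd_Ind | apply pf_succ | apply pf_funs | apply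 pf_prod | apply pf_lam | apply pd_Fn | apply pf_app | apply pf_ran | apply pf_dom | apply PF.img | apply PF.pow | apply PD.sub | apply PF.adj | apply PF.un | apply PF.sUn | apply PF.op | apply PF.pr | apply PF.sep | exact PF.var _ | exact PF.const _ | apply PD.eq | apply PD.mem | apply PD.not | apply PD.iff | apply PD.or | apply PD.and | apply PD.imp | apply PD.ex | apply PD.all | exact PD.const _ | assumption | refine PF.comp1 (F := _) (by assumption) ?_ | refine PF.comp2 (F := _) (by assumption) ?_ ?_ | refine PF.comp3 (F := _) (by assumption) ?_ ?_ ?_ | refine PD.app1 (R := _) (by assumption) ?_ | refine PD.app2 (R := _) (by assumption) ?_ ?_ | refine PD.app3 (R := _) (by assumption) ?_ ?_ ?_ | refine PD.app4 (R := _) (by assumption) ?_ ?_ ?_ ?_))) ?_ ?_) hW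
  · intro c hc
    exact hsub c _ (hchm _ (hsub c) (hne c hc))
  · intro c d hc hd h
    have h1 := (hmem c _).1 (hchm _ (hsub c) (hne c hc))
    have h2 := (hmem d _).1 (hchm _ (hsub d) (hne d hd))
    have h' : ch (sep (prod (fins I) (fins (pfin I (tw : M))))
      (fun w => Dep I c (e0_p1 w) ∧ e0_p2 w = trc c (e0_p1 w))) =
      ch (sep (prod (fins I) (fins (pfin I (tw : M))))
      (fun w => Dep I d (e0_p1 w) ∧ e0_p2 w = trc d (e0_p1 w))) := h
    rw [← h'] at h2
    have h3 := h1.2.2.symm.trans h2.2.2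
    refine ext fun z => ?_
    constructor
    · intro hz
      have hz' := h1.2.1.2.2.1 z hz
      rw [← rs_mem_trc h2.2.1 hz', ← h3]
      exact (rs_mem_trc h1.2.1 hz').2 hz
    · intro hz
      have hz' := h2.2.1.2.2.1 z hz
      rw [← rs_mem_trc h1.2.1 hz', h3]
      exact (rs_mem_trc h2.2.1 hz').2 hz

/-- MODULE e1 -/
theorem sun_mem {I p0 X Lam A p q x ξ : M} (hA : FName (rmP I) (rmL I) p0 X Lam A)
    (hp : SetStr.mem (op p (op x ξ)) A) (hq : SetStr.mem (op q (op x ξ)) A) : SetStr.mem (op (sun p q) (op x ξ)) A := by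
  refine hA.reg _ _ _ (rm_sun_le (hA.fld _ _ _ hp).1 (hA.fld _ _ _ hq).1) fun r hr => ?_
  have hpP := (op_mem_rmL.1 (hA.fld _ _ _ hp).1).1
  have hqP := (op_mem_rmL.1 (hA.fld _ _ _ hq).1).1
  have hrP := (op_mem_rmL.1 hr).1
  rcases rm_sun_cases hpP hqP hr with h | h
  · obtain ⟨_, h2, h3⟩ := rm_compat hrP hpP h
    exact ⟨_, h2, hA.mono _ _ _ _ hp h3⟩
  · obtain ⟨_, h2, h3⟩ := rm_compat hrP hqP h
    exact ⟨_, h2, hA.mono _ _ _ _ hq h3⟩

private theorem e2_ext {f n d : M} (hf : Fn f n) : Fn (adj f (op n d)) (succ n) ∧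
    (∀ i, SetStr.mem i n → app (adj f (op n d)) i = app f i) ∧ app (adj f (op n d)) n = d := by
  have hn : ∀ y, ¬ SetStr.mem (op n y) f := fun y hy => not_mem_self n (hf.mem_iff.1 hy).1
  have h1 : Fn (adj f (op n d)) (succ n) := by
    constructor
    · intro z hz
      rcases mem_adj.1 hz with hz | rfl
      · obtain ⟨x, hx, y, rfl⟩ := hf.1 z hz
        exact ⟨x, mem_succ.2 (Or.inl hx), y, rfl⟩
      · exact ⟨n, mem_succ.2 (Or.inr rfl), d, rfl⟩
    · intro x hx
      rcases mem_succ.1 hx with hx | rfl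
      · refine ⟨⟨app f x, mem_adj.2 (Or.inl (hf.app_mem hx))⟩, fun y y' hy hy' => ?_⟩
        have hxn : ¬ x = n := by
          rintro rfl
          exact not_mem_self x hx
        rw [mem_adj, op_inj] at hy hy'
        exact (hf.2 x hx).2 y y' (hy.resolve_right (fun h => hxn h.1))
          (hy'.resolve_right (fun h => hxn h.1))
      · refine ⟨⟨d, mem_adj.2 (Or.inr rfl)⟩, fun y y' hy hy' => ?_⟩
        rw [mem_adj, op_inj] at hy hy'
        rw [(hy.resolve_left (hn y)).2, (hy'.resolve_left (hn y')).2]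
  refine ⟨h1, fun i hi => ?_, ?_⟩
  · exact ((h1.mem_iff.1 (mem_adj.2 (Or.inl (hf.app_mem hi)))).2).symm
  · exact ((h1.mem_iff.1 (mem_adj.2 (Or.inr rfl))).2).symm

/-- MODULE e2.  A nearly largest condition which forces the value `ξ` at `x`. -/
theorem exists_near {I p0 X Lam A x ξ k : M} (hA : FName (rmP I) (rmL I) p0 X Lam A)
    (hk : SetStr.mem k (om : M)) (h : ∃ p, SetStr.mem (op p (op x ξ)) A) :
    ∃ p, SetStr.mem (op p (op x ξ)) A ∧ ∀ q, SetStr.mem (op q (op x ξ)) A → EvS I k (sdf q p) := by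
  by_contra hcon
  have hcon' : ∀ p, SetStr.mem (op p (op x ξ)) A → ∃ q, SetStr.mem (op q (op x ξ)) A ∧ ¬ EvS I k (sdf q p) := by
    intro p hp
    by_contra h'
    exact hcon ⟨p, hp, fun q hq => by
      by_contra h''
      exact h' ⟨q, hq, h''⟩⟩
  have hP : ∀ {p : M}, SetStr.mem (op p (op x ξ)) A → SetStr.mem p (rmP I) := fun hp =>
    (op_mem_rmL.1 (hA.fld _ _ _ hp).1).1
  have key : ∀ n, SetStr.mem n om → ∃ p f, SetStr.mem (op p (op x ξ)) A ∧ Fn f n ∧
      (∀ i, SetStr.mem i n → SetStr.mem (app f i) (rmP I) ∧ EvB I (succ k) (app f i) ∧ Nul I (sdf (app f i) p)) ∧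
      ∀ i j, SetStr.mem i n → SetStr.mem j n → ¬ i = j → Nul I (sit (app f i) (app f j)) := by
    refine om_ind (P := fun n => ∃ p f, SetStr.mem (op p (op x ξ)) A ∧ Fn f n ∧
      (∀ i, SetStr.mem i n → SetStr.mem (app f i) (rmP I) ∧ EvB I (succ k) (app f i) ∧ Nul I (sdf (app f i) p)) ∧
      ∀ i j, SetStr.mem i n → SetStr.mem j n → ¬ i = j → Nul I (sit (app f i) (app f j))) (by (repeat' (with_reducible first | apply pd_Cde | apply pf_vals | apply pd_maxR | apply pf_rmO | apply pf_rmL | apply pf_rmP | apply pf_cls | apply pf_cst | apply pf_sdf | apply pf_sun | apply pf_sit | apply pd_Nul | apply pd_Cau | apply pd_EvB | apply pd_EvS | apply pd_Sq | apply pd_Fmem | apply pd_Feq | apply pd_WOd | apply pf_pfin | apply pd_Fun1 | apply pf_bit | apply pf_sd | apply pf_df | apply pf_it | apply pd_Sm | apply pf_trc | apply pd_Clo | apply pd_Dep | apply pf_rs | apply pf_hh | apply pd_Spr | apply pd_Inj | apply pf_har | apply pd_Le | apply pf_fins | apply pf_card | apply pd_Bij | apply pd_Fini | apply pd_Big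 | apply pd_Ord | apply pd_Tr | apply pd_Ind | apply pf_succ | apply pf_funs | apply pf_prod | apply pf_lam | apply pd_Fn | apply pf_app | apply pf_ran | apply pf_dom | apply PF.img | apply PF.pow | apply PD.sub | apply PF.adj | apply PF.un | apply PF.sUn | apply PF.op | apply PF.pr | apply PF.sep | exact PF.var _ | exact PF.const _ | apply PD.eq | apply PD.mem | apply PD.not | apply PD.iff | apply PD.or | apply PD.and | apply PD.imp | apply PD.ex | apply PD.all | exact PD.const _ | assumption | refine PF.comp1 (F := _) (by assumption) ?_ | refine PF.comp2 (F := _) (by assumption) ?_ ?_ | refine PF.comp3 (F := _) (by assumption) ?_ ?_ ?_ | refine PD.app1 (R := _) (by assumption) ?_ | refine PD.app2 (R := _) (by assumption) ?_ ?_ | refine PD.app3 (R := _) (by assumption) ?_ ?_ ?_ | refine PD.app4 (R := _) (by assumption) ?_ ?_ ?_ ?_))) ?_ ?_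
    · obtain ⟨p, hp⟩ := h
      refine ⟨p, emp, hp, ⟨?_, ?_⟩, ?_, ?_⟩
      · intro z hz
        exact (not_mem_emp z hz).elim
      · intro z hz
        exact (not_mem_emp z hz).elim
      · intro z hz
        exact (not_mem_emp z hz).elim
      · intro z _ hz
        exact (not_mem_emp z hz).elim
    · rintro n hn ⟨p, f, hp, hf, h1, h2⟩
      obtain ⟨q, hq, hqk⟩ := hcon' p hp
      have hcp := (mem_rmP.1 (hP hp)).1
      have hcq := (mem_rmP.1 (hP hq)).1
      have hd : Cau I (sdf q p) := hcq.sdf hcp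
      have hdP : SetStr.mem (sdf q p) (rmP I) := mem_rmP.2 ⟨hd, fun h' => hqk (h' k hk)⟩
      have hdB : EvB I (succ k) (sdf q p) := Cau.evB hk hd hqk
      have hfi : ∀ i, SetStr.mem i n → Cau I (app f i) := fun i hi => (mem_rmP.1 (h1 i hi).1).1
      have hdis : ∀ i, SetStr.mem i n → Nul I (sit (sdf q p) (app f i)) ∧ Nul I (sit (app f i) (sdf q p)) := by
        intro i hi
        constructor
        · refine Nul.mono (hd.1.sit (hfi i hi).1) (h1 i hi).2.2 fun m hm z hz => ?_
          rw [app_sit hm, app_sdf hm, mem_it, mem_df] at hz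
          rw [app_sdf hm, mem_df]
          exact ⟨hz.2, hz.1.2⟩
        · refine Nul.mono ((hfi i hi).1.sit hd.1) (h1 i hi).2.2 fun m hm z hz => ?_
          rw [app_sit hm, app_sdf hm, mem_it, mem_df] at hz
          rw [app_sdf hm, mem_df]
          exact ⟨hz.1, hz.2.2⟩
      obtain ⟨e1, e2, e3⟩ := e2_ext (d := sdf q p) hf
      refine ⟨sun p q, adj f (op n (sdf q p)), sun_mem hA hp hq, e1, ?_, ?_⟩
      · intro i hi
        rcases mem_succ.1 hi with hi | rfl
        · rw [e2 i hi]
          refine ⟨(h1 i hi).1, (h1 i hi).2.1, ?_⟩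
          refine Nul.mono ((hfi i hi).1.sdf (hcp.1.sun hcq.1)) (h1 i hi).2.2 fun m hm z hz => ?_
          rw [app_sdf hm, app_sun hm, mem_df, mem_un] at hz
          rw [app_sdf hm, mem_df]
          exact ⟨hz.1, fun h' => hz.2 (Or.inl h')⟩
        · rw [e3]
          refine ⟨hdP, hdB, fun l hl => ⟨emp, emp_mem_om, fun m hm _ => ?_⟩⟩
          have h5 : app (sdf (sdf q p) (sun p q)) m = emp := by
            refine ext fun z => ⟨fun hz => ?_, fun hz => (not_mem_emp z hz).elim⟩
            rw [app_sdf hm, app_sun hm, app_sdf hm, mem_df, mem_df, mem_un] at hz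
            exact (hz.2 (Or.inr hz.1.1)).elim
          rw [h5]
          exact Sm.emp hl
      · intro i j hi hj hij
        rcases mem_succ.1 hi with hi | rfl
        · rcases mem_succ.1 hj with hj | rfl
          · rw [e2 i hi, e2 j hj]
            exact h2 i j hi hj hij
          · rw [e2 i hi, e3]
            exact (hdis i hi).2
        · rcases mem_succ.1 hj with hj | rfl
          · rw [e2 j hj, e3]
            exact (hdis j hj).1
          · exact (hij rfl).elim
  have hsk := succ_mem_om hk
  obtain ⟨n, hn, hnl⟩ := exists_not_le_funs (succ_mem_om hsk)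
  obtain ⟨p, f, hp, hf, h1, h2⟩ := key n hn
  exact hnl (packC hn hsk hf (fun i hi => ⟨(h1 i hi).1, (h1 i hi).2.1⟩)
    (fun i j hi hj hij => h2 i j hi hj hij))

/-- MODULE e3 -/
theorem exists_cde {I p0 X Lam A x ξ k : M} (hA : FName (rmP I) (rmL I) p0 X Lam A)
    (hk : SetStr.mem k (om : M)) (h : ∃ p, SetStr.mem (op p (op x ξ)) A) : ∃ c, Cde I A x ξ k c := by
  have hsk := succ_mem_om hk
  obtain ⟨p, hp, hnear⟩ := exists_near hA hsk h
  have hP : ∀ {p : M}, SetStr.mem (op p (op x ξ)) A → SetStr.mem p (rmP I) := fun hp =>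
    (op_mem_rmL.1 (hA.fld _ _ _ hp).1).1
  have hcp : Cau I p := (mem_rmP.1 (hP hp)).1
  obtain ⟨N, hN, hNN⟩ := hcp.2 (succ k) hsk
  have hcl : Clo I (app p N) := hcp.1.2 N hN
  have hself : GA.sub N N := fun _ h => h
  have h1 : EvS I (succ k) (sdf (cst (app p N)) p) := by
    refine ⟨N, hN, fun n hn hNn => ?_⟩
    rw [app_sdf hn, app_cst hn]
    refine Sm.mono hsk (hNN N n hN hn hself hNn) (hcl.df (hcp.1.2 n hn)) fun z hz => ?_
    rw [mem_df] at hz
    exact mem_sd.2 (Or.inl hz)
  have h2 : EvS I (succ k) (sdf p (cst (app p N))) := by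
    refine ⟨N, hN, fun n hn hNn => ?_⟩
    rw [app_sdf hn, app_cst hn]
    refine Sm.mono hsk (hNN N n hN hn hself hNn) ((hcp.1.2 n hn).df hcl) fun z hz => ?_
    rw [mem_df] at hz
    exact mem_sd.2 (Or.inr hz)
  refine ⟨app p N, hcl, ⟨p, hp, EvS.anti hk hsk (fun z hz => mem_succ.2 (Or.inl hz)) h1⟩,
    fun q hq => ?_⟩
  have hcq : Cau I q := (mem_rmP.1 (hP hq)).1
  refine EvS.un hk (hcq.1.sdf (Sq.cst hcl)) (hnear q hq) h2 fun n hn z hz => ?_
  rw [app_sdf hn, app_cst hn, mem_df] at hz
  rw [mem_un, app_sdf hn, app_sdf hn, mem_df, mem_df, app_cst hn]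
  by_cases h3 : SetStr.mem z (app p n)
  · exact Or.inr ⟨h3, hz.2⟩
  · exact Or.inl ⟨hz.1, h3⟩

/-- MODULE e4.  Names with the same codes force the same. -/
theorem mem_of_cde {I p0 X Lam A p x y ξ : M} (hA : FName (rmP I) (rmL I) p0 X Lam A)
    (hp : SetStr.mem (op p (op x ξ)) A)
    (h : ∀ k, SetStr.mem k om → ∃ c, Cde I A x ξ k c ∧ Cde I A y ξ k c) : SetStr.mem (op p (op y ξ)) A := by
  refine hA.reg p y ξ (hA.fld _ _ _ hp).1 fun r hr => ?_
  have hrA : SetStr.mem (op r (op x ξ)) A := hA.mono _ _ _ _ hp hr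
  have hrP : SetStr.mem r (rmP I) := (op_mem_rmL.1 hr).1
  obtain ⟨hcr, hr0⟩ := mem_rmP.1 hrP
  obtain ⟨k, hk, hkB⟩ := hcr.pos hr0
  have hsk := succ_mem_om hk
  have hssk := succ_mem_om hsk
  obtain ⟨c, hcx, hcy⟩ := h (succ (succ k)) hssk
  obtain ⟨hcl, -, hcx2⟩ := hcx
  obtain ⟨-, ⟨p', hp', hp'c⟩, -⟩ := hcy
  have hp'P : SetStr.mem p' (rmP I) := (op_mem_rmL.1 (hA.fld _ _ _ hp').1).1
  have hcp' : Cau I p' := (mem_rmP.1 hp'P).1
  have h1 : EvS I (succ (succ k)) (sdf r (cst c)) := hcx2 r hrA
  have h2 : EvS I (succ k) (sun (sdf r (cst c)) (sdf (cst c) p')) := by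
    refine EvS.un hsk ((hcr.1.sdf (Sq.cst hcl)).sun ((Sq.cst hcl).sdf hcp'.1)) h1 hp'c
      fun n hn z hz => ?_
    rw [app_sun hn] at hz
    exact hz
  have h3 : ¬ Nul I (sit r p') := by
    intro h4
    apply hkB.not_evS
    refine EvS.un hk hcr.1 (h4 (succ k) hsk) h2 fun n hn z hz => ?_
    rw [mem_un, app_sit hn, app_sun hn, app_sdf hn, app_sdf hn, mem_it, mem_un, mem_df, mem_df,
      app_cst hn]
    by_cases h5 : SetStr.mem z (app p' n)
    · exact Or.inl ⟨hz, h5⟩
    · by_cases h6 : SetStr.mem z c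
      · exact Or.inr (Or.inr ⟨h6, h5⟩)
      · exact Or.inr (Or.inl ⟨hz, h6⟩)
  obtain ⟨_, h6, h7⟩ := rm_compat hrP hp'P h3
  exact ⟨sit r p', h6, hA.mono _ _ _ _ hp' h7⟩

/-- MODULE e5 -/
theorem upP_rm {κ I : M} (hκ : Big κ) (hc : Cd κ (cls I)) : UpP (rmP I) (rmL I) κ := by
  have hpp1 := e0_pf1 (M := M)
  have hpp2 := e0_pf2 (M := M)
  intro p0 ν A hA
  obtain ⟨ch, hch, hchm⟩ := hc.1.choice
  have hpS : ∀ i n t, ∀ c, SetStr.mem c (sep (cls I) (fun c => Cde I A (op i n) (e0_p1 t) (e0_p2 t) c)) ↔
      SetStr.mem c (cls I) ∧ Cde I A (op i n) (e0_p1 t) (e0_p2 t) c := by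
    intro i n t c
    rw [mem_sep (by (repeat' (with_reducible first | apply pd_Cde | apply pf_vals | apply pd_maxR | apply pf_rmO | apply pf_rmL | apply pf_rmP | apply pf_cls | apply pf_cst | apply pf_sdf | apply pf_sun | apply pf_sit | apply pd_Nul | apply pd_Cau | apply pd_EvB | apply pd_EvS | apply pd_Sq | apply pd_Fmem | apply pd_Feq | apply pd_WOd | apply pf_pfin | apply pd_Fun1 | apply pf_bit | apply pf_sd | apply pf_df | apply pf_it | apply pd_Sm | apply pf_trc | apply pd_Clo | apply pd_Dep | apply pf_rs | apply pf_hh | apply pd_Spr | apply pd_Inj | apply pf_har | apply pd_Le | apply pf_fins | apply pf_card | apply pd_Bij | apply pd_Fini | apply pd_Big | apply pd_Ord | apply pd_Tr | apply pd_Ind | apply pf_succ | apply pf_funs | apply pf_prod | apply pf_lam | apply pd_Fn | apply pf_app | apply pf_ran | apply pf_dom | apply PF.img | apply PF.pow | apply PD.sub | apply PF.adj | apply PF.un | apply PF.sUn | apply PF.op | apply PF.pr | apply PF.sep | exact PF.var _ | exact PF.const _ | apply PD.eq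 | apply PD.mem | apply PD.not | apply PD.iff | apply PD.or | apply PD.and | apply PD.imp | apply PD.ex | apply PD.all | exact PD.const _ | assumption | refine PF.comp1 (F := _) (by assumption) ?_ | refine PF.comp2 (F := _) (by assumption) ?_ ?_ | refine PF.comp3 (F := _) (by assumption) ?_ ?_ ?_ | refine PD.app1 (R := _) (by assumption) ?_ | refine PD.app2 (R := _) (by assumption) ?_ ?_ | refine PD.app3 (R := _) (by assumption) ?_ ?_ ?_ | refine PD.app4 (R := _) (by assumption) ?_ ?_ ?_ ?_)))]
  have hpv : ∀ i n t, ∀ z, SetStr.mem z (sep (ch (sep (cls I) (fun c => Cde I A (op i n) (e0_p1 t) (e0_p2 t) c)))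
      (fun _ => ∃ z, SetStr.mem z (sep (cls I) (fun c => Cde I A (op i n) (e0_p1 t) (e0_p2 t) c)))) ↔
      SetStr.mem z (ch (sep (cls I) (fun c => Cde I A (op i n) (e0_p1 t) (e0_p2 t) c))) ∧
        ∃ z, SetStr.mem z (sep (cls I) (fun c => Cde I A (op i n) (e0_p1 t) (e0_p2 t) c)) := by
    intro i n t z
    rw [mem_sep (by (repeat' (with_reducible first | apply pd_Cde | apply pf_vals | apply pd_maxR | apply pf_rmO | apply pf_rmL | apply pf_rmP | apply pf_cls | apply pf_cst | apply pf_sdf | apply pf_sun | apply pf_sit | apply pd_Nul | apply pd_Cau | apply pd_EvB | apply pd_EvS | apply pd_Sq | apply pd_Fmem | apply pd_Feq | apply pd_WOd | apply pf_pfin | apply pd_Fun1 | apply pf_bit | apply pf_sd | apply pf_df | apply pf_it | apply pd_Sm | apply pf_trc | apply pd_Clo | apply pd_Dep | apply pf_rs | apply pf_hh | apply pd_Spr | apply pd_Inj | apply pf_har | apply pd_Le | apply pf_fins | apply pf_card | apply pd_Bij | apply pd_Fini | apply pd_Big | apply pd_Ord | apply pd_Tr | apply pd_Ind | apply pf_succ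 | apply pf_funs | apply pf_prod | apply pf_lam | apply pd_Fn | apply pf_app | apply pf_ran | apply pf_dom | apply PF.img | apply PF.pow | apply PD.sub | apply PF.adj | apply PF.un | apply PF.sUn | apply PF.op | apply PF.pr | apply PF.sep | exact PF.var _ | exact PF.const _ | apply PD.eq | apply PD.mem | apply PD.not | apply PD.iff | apply PD.or | apply PD.and | apply PD.imp | apply PD.ex | apply PD.all | exact PD.const _ | assumption | refine PF.comp1 (F := _) (by assumption) ?_ | refine PF.comp2 (F := _) (by assumption) ?_ ?_ | refine PF.comp3 (F := _) (by assumption) ?_ ?_ ?_ | refine PD.app1 (R := _) (by assumption) ?_ | refine PD.app2 (R := _) (by assumption) ?_ ?_ | refine PD.app3 (R := _) (by assumption) ?_ ?_ ?_ | refine PD.app4 (R := _) (by assumption) ?_ ?_ ?_ ?_)))]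
  -- the value
  have hF : PF (fun v : ℕ → M => sep (ch (sep (cls I) (fun c => Cde I A (op (v 0) (v 1)) (e0_p1 (v 2)) (e0_p2 (v 2)) c)))
      (fun _ => ∃ z, SetStr.mem z (sep (cls I) (fun c => Cde I A (op (v 0) (v 1)) (e0_p1 (v 2)) (e0_p2 (v 2)) c)))) := by
    (repeat' (with_reducible first | apply pd_Cde | apply pf_vals | apply pd_maxR | apply pf_rmO | apply pf_rmL | apply pf_rmP | apply pf_cls | apply pf_cst | apply pf_sdf | apply pf_sun | apply pf_sit | apply pd_Nul | apply pd_Cau | apply pd_EvB | apply pd_EvS | apply pd_Sq | apply pd_Fmem | apply pd_Feq | apply pd_WOd | apply pf_pfin | apply pd_Fun1 | apply pf_bit | apply pf_sd | apply pf_df | apply pf_it | apply pd_Sm | apply pf_trc | apply pd_Clo | apply pd_Dep | apply pf_rs | apply pf_hh | apply pd_Spr | apply pd_Inj | apply pf_har | apply pd_Le | apply pf_fins | apply pf_card | apply pd_Bij | apply pd_Fini | apply pd_Big | apply pd_Ord | apply pd_Tr | apply pd_Ind | apply pf_succ | apply pf_funs | apply pf_prod | apply pf_lam | apply pd_Fn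 | apply pf_app | apply pf_ran | apply pf_dom | apply PF.img | apply PF.pow | apply PD.sub | apply PF.adj | apply PF.un | apply PF.sUn | apply PF.op | apply PF.pr | apply PF.sep | exact PF.var _ | exact PF.const _ | apply PD.eq | apply PD.mem | apply PD.not | apply PD.iff | apply PD.or | apply PD.and | apply PD.imp | apply PD.ex | apply PD.all | exact PD.const _ | assumption | refine PF.comp1 (F := _) (by assumption) ?_ | refine PF.comp2 (F := _) (by assumption) ?_ ?_ | refine PF.comp3 (F := _) (by assumption) ?_ ?_ ?_ | refine PD.app1 (R := _) (by assumption) ?_ | refine PD.app2 (R := _) (by assumption) ?_ ?_ | refine PD.app3 (R := _) (by assumption) ?_ ?_ ?_ | refine PD.app4 (R := _) (by assumption) ?_ ?_ ?_ ?_))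
  have hvS : ∀ i n t, (∃ z, SetStr.mem z (sep (cls I) (fun c => Cde I A (op i n) (e0_p1 t) (e0_p2 t) c))) →
      Cde I A (op i n) (e0_p1 t) (e0_p2 t)
        (sep (ch (sep (cls I) (fun c => Cde I A (op i n) (e0_p1 t) (e0_p2 t) c)))
          (fun _ => ∃ z, SetStr.mem z (sep (cls I) (fun c => Cde I A (op i n) (e0_p1 t) (e0_p2 t) c)))) := by
    intro i n t hne
    have h1 : sep (ch (sep (cls I) (fun c => Cde I A (op i n) (e0_p1 t) (e0_p2 t) c)))
        (fun _ => ∃ z, SetStr.mem z (sep (cls I) (fun c => Cde I A (op i n) (e0_p1 t) (e0_p2 t) c))) =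
        ch (sep (cls I) (fun c => Cde I A (op i n) (e0_p1 t) (e0_p2 t) c)) := by
      refine ext fun z => ?_
      rw [hpv]
      exact ⟨fun h => h.1, fun h => ⟨h, hne⟩⟩
    rw [h1]
    exact ((hpS i n t _).1 (hchm _ (fun z hz => ((hpS i n t z).1 hz).1) hne)).2
  have hvm : ∀ i n t, SetStr.mem (sep (ch (sep (cls I) (fun c => Cde I A (op i n) (e0_p1 t) (e0_p2 t) c)))
        (fun _ => ∃ z, SetStr.mem z (sep (cls I) (fun c => Cde I A (op i n) (e0_p1 t) (e0_p2 t) c)))) (cls I) := by
    intro i n t
    by_cases hne : ∃ z, SetStr.mem z (sep (cls I) (fun c => Cde I A (op i n) (e0_p1 t) (e0_p2 t) c))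
    · exact mem_cls.2 (hvS i n t hne).1
    · have h1 : sep (ch (sep (cls I) (fun c => Cde I A (op i n) (e0_p1 t) (e0_p2 t) c)))
          (fun _ => ∃ z, SetStr.mem z (sep (cls I) (fun c => Cde I A (op i n) (e0_p1 t) (e0_p2 t) c))) = emp := by
        refine ext fun z => ?_
        rw [hpv]
        exact ⟨fun h => (hne h.2).elim, fun h => (not_mem_emp z h).elim⟩
      rw [h1]
      exact mem_cls.2 (Clo.emp I)
  -- abstract the value
  obtain ⟨V, hVF, hVS, hVm, hVe⟩ : ∃ V : M → M → M → M, PF (fun v => V (v 0) (v 1) (v 2)) ∧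
      (∀ i n m k, (∃ c, Cde I A (op i n) m k c) → Cde I A (op i n) m k (V i n (op m k))) ∧
      (∀ i n t, SetStr.mem (V i n t) (cls I)) ∧
      ∀ i n m k, (∃ z, SetStr.mem z (V i n (op m k))) → ∃ c, Cde I A (op i n) m k c := by
    refine ⟨fun i n t => sep (ch (sep (cls I) (fun c => Cde I A (op i n) (e0_p1 t) (e0_p2 t) c)))
        (fun _ => ∃ z, SetStr.mem z (sep (cls I) (fun c => Cde I A (op i n) (e0_p1 t) (e0_p2 t) c))), hF, ?_, hvm, ?_⟩
    · rintro i n m k ⟨c, hc⟩
      have h1 := hvS i n (op m k) ⟨c, (hpS i n (op m k) c).2 ⟨mem_cls.2 hc.1, by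
        rw [e0_p1_op, e0_p2_op]; exact hc⟩⟩
      simpa only [e0_p1_op, e0_p2_op] using h1
    · rintro i n m k ⟨z, hz⟩
      obtain ⟨-, c, hc⟩ := (hpv i n (op m k) z).1 hz
      have h1 := ((hpS i n (op m k) c).1 hc).2
      rw [e0_p1_op, e0_p2_op] at h1
      exact ⟨c, h1⟩
  clear hpS hpv hF hvS hvm
  -- the injection
  have hκ0 : ∃ z, SetStr.mem z κ := ⟨emp, hκ.2 _ emp_mem_om⟩
  have hfne : ∃ z, SetStr.mem z (funs om κ) := by
    obtain ⟨z, hz⟩ := hκ0
    exact ⟨lam (fun _ => z) om, mem_funs.2 ⟨lam_Fn (by (repeat' (with_reducible first | apply pd_Cde | apply pf_vals | apply pd_maxR | apply pf_rmO | apply pf_rmL | apply pf_rmP | apply pf_cls | apply pf_cst | apply pf_sdf | apply pf_sun | apply pf_sit | apply pd_Nul | apply pd_Cau | apply pd_EvB | apply pd_EvS | apply pd_Sq | apply pd_Fmem | apply pd_Feq | apply pd_WOd | apply pf_pfin | apply pd_Fun1 | apply pf_bit | apply pf_sd | apply pf_df | apply pf_it | apply pd_Sm | apply pf_trc | apply pd_Clo | apply pd_Dep | apply pf_rs | apply pf_hh | apply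 pd_Spr | apply pd_Inj | apply pf_har | apply pd_Le | apply pf_fins | apply pf_card | apply pd_Bij | apply pd_Fini | apply pd_Big | apply pd_Ord | apply pd_Tr | apply pd_Ind | apply pf_succ | apply pf_funs | apply pf_prod | apply pf_lam | apply pd_Fn | apply pf_app | apply pf_ran | apply pf_dom | apply PF.img | apply PF.pow | apply PD.sub | apply PF.adj | apply PF.un | apply PF.sUn | apply PF.op | apply PF.pr | apply PF.sep | exact PF.var _ | exact PF.const _ | apply PD.eq | apply PD.mem | apply PD.not | apply PD.iff | apply PD.or | apply PD.and | apply PD.imp | apply PD.ex | apply PD.all | exact PD.const _ | assumption | refine PF.comp1 (F := _) (by assumption) ?_ | refine PF.comp2 (F := _) (by assumption) ?_ ?_ | refine PF.comp3 (F := _) (by assumption) ?_ ?_ ?_ | refine PD.app1 (R := _) (by assumption) ?_ | refine PD.app2 (R := _) (by assumption) ?_ ?_ | refine PD.app3 (R := _) (by assumption) ?_ ?_ ?_ | refine PD.app4 (R := _) (by assumption) ?_ ?_ ?_ ?_))) om, fun x hx => by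
      rw [app_lam (by (repeat' (with_reducible first | apply pd_Cde | apply pf_vals | apply pd_maxR | apply pf_rmO | apply pf_rmL | apply pf_rmP | apply pf_cls | apply pf_cst | apply pf_sdf | apply pf_sun | apply pf_sit | apply pd_Nul | apply pd_Cau | apply pd_EvB | apply pd_EvS | apply pd_Sq | apply pd_Fmem | apply pd_Feq | apply pd_WOd | apply pf_pfin | apply pd_Fun1 | apply pf_bit | apply pf_sd | apply pf_df | apply pf_it | apply pd_Sm | apply pf_trc | apply pd_Clo | apply pd_Dep | apply pf_rs | apply pf_hh | apply pd_Spr | apply pd_Inj | apply pf_har | apply pd_Le | apply pf_fins | apply pf_card | apply pd_Bij | apply pd_Fini | apply pd_Big | apply pd_Ord | apply pd_Tr | apply pd_Ind | apply pf_succ | apply pf_funs | apply pf_prod | apply pf_lam | apply pd_Fn | apply pf_app | apply pf_ran | apply pf_dom | apply PF.img | apply PF.pow | apply PD.sub | apply PF.adj | apply PF.un | apply PF.sUn | apply PF.op | apply PF.pr | apply PF.sep | exact PF.var _ | exact PF.const _ | apply PD.eq | apply PD.mem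 | apply PD.not | apply PD.iff | apply PD.or | apply PD.and | apply PD.imp | apply PD.ex | apply PD.all | exact PD.const _ | assumption | refine PF.comp1 (F := _) (by assumption) ?_ | refine PF.comp2 (F := _) (by assumption) ?_ ?_ | refine PF.comp3 (F := _) (by assumption) ?_ ?_ ?_ | refine PD.app1 (R := _) (by assumption) ?_ | refine PD.app2 (R := _) (by assumption) ?_ ?_ | refine PD.app3 (R := _) (by assumption) ?_ ?_ ?_ | refine PD.app4 (R := _) (by assumption) ?_ ?_ ?_ ?_))) hx]; exact hz⟩⟩
  have hle : Le (funs om (funs (prod om om) (cls I))) (funs om κ) :=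
    ((((hc.2.funs (c := prod om om)).trans (le_funs_prod hfne)).trans
      (le_funs_funs hκ0)).funs (c := om)).trans (le_funs_funs hκ0)
  obtain ⟨g, hg, hgv, hgi⟩ := hle
  have hin : ∀ i n, PF (fun v : ℕ → M => V i n (v 0)) := fun i n =>
    PF.comp3 (F := V) hVF (PF.const i) (PF.const n) (PF.var 0)
  have hVi : ∀ i, PF (fun v : ℕ → M => V i (v 0) (v 1)) := fun i =>
    PF.comp3 (F := V) hVF (PF.const i) (PF.var 0) (PF.var 1)
  have hin2 : ∀ i, PF (fun v : ℕ → M => lam (fun t => V i (v 0) t) (prod om om)) := fun i =>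
    pf_lam (F := fun t v => V i (v 0) t) (by (repeat' (with_reducible first | apply pd_Cde | apply pf_vals | apply pd_maxR | apply pf_rmO | apply pf_rmL | apply pf_rmP | apply pf_cls | apply pf_cst | apply pf_sdf | apply pf_sun | apply pf_sit | apply pd_Nul | apply pd_Cau | apply pd_EvB | apply pd_EvS | apply pd_Sq | apply pd_Fmem | apply pd_Feq | apply pd_WOd | apply pf_pfin | apply pd_Fun1 | apply pf_bit | apply pf_sd | apply pf_df | apply pf_it | apply pd_Sm | apply pf_trc | apply pd_Clo | apply pd_Dep | apply pf_rs | apply pf_hh | apply pd_Spr | apply pd_Inj | apply pf_har | apply pd_Le | apply pf_fins | apply pf_card | apply pd_Bij | apply pd_Fini | apply pd_Big | apply pd_Ord | apply pd_Tr | apply pd_Ind | apply pf_succ | apply pf_funs | apply pf_prod | apply pf_lam | apply pd_Fn | apply pf_app | apply pf_ran | apply pf_dom | apply PF.img | apply PF.pow | apply PD.sub | apply PF.adj | apply PF.un | apply PF.sUn | apply PF.op | apply PF.pr | apply PF.sep | exact PF.var _ | exact PF.const _ |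 apply PD.eq | apply PD.mem | apply PD.not | apply PD.iff | apply PD.or | apply PD.and | apply PD.imp | apply PD.ex | apply PD.all | exact PD.const _ | assumption | refine PF.comp1 (F := _) (by assumption) ?_ | refine PF.comp2 (F := _) (by assumption) ?_ ?_ | refine PF.comp3 (F := _) (by assumption) ?_ ?_ ?_ | refine PD.app1 (R := _) (by assumption) ?_ | refine PD.app2 (R := _) (by assumption) ?_ ?_ | refine PD.app3 (R := _) (by assumption) ?_ ?_ ?_ | refine PD.app4 (R := _) (by assumption) ?_ ?_ ?_ ?_)))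
      (PF.comp3 (F := V) hVF (PF.const i) (PF.var 1) (PF.var 0))
  have hE : ∀ i, SetStr.mem (lam (fun n => lam (fun t => V i n t) (prod om om)) om) (funs om (funs (prod om om) (cls I))) := by
    intro i
    refine mem_funs.2 ⟨lam_Fn (hin2 i) om, fun n hn => ?_⟩
    rw [app_lam (hin2 i) hn]
    refine mem_funs.2 ⟨lam_Fn (hin i n) _, fun t ht => ?_⟩
    rw [app_lam (hin i n) ht]
    exact hVm i n t
  have hD : PF (fun v : ℕ → M => app g (lam (fun n => lam (fun t => V (v 0) n t) (prod om om)) om)) := by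
    refine pf_app (PF.const g) ?_
    refine pf_lam (F := fun n v => lam (fun t => V (v 0) n t) (prod om om)) (by (repeat' (with_reducible first | apply pd_Cde | apply pf_vals | apply pd_maxR | apply pf_rmO | apply pf_rmL | apply pf_rmP | apply pf_cls | apply pf_cst | apply pf_sdf | apply pf_sun | apply pf_sit | apply pd_Nul | apply pd_Cau | apply pd_EvB | apply pd_EvS | apply pd_Sq | apply pd_Fmem | apply pd_Feq | apply pd_WOd | apply pf_pfin | apply pd_Fun1 | apply pf_bit | apply pf_sd | apply pf_df | apply pf_it | apply pd_Sm | apply pf_trc | apply pd_Clo | apply pd_Dep | apply pf_rs | apply pf_hh | apply pd_Spr | apply pd_Inj | apply pf_har | apply pd_Le | apply pf_fins | apply pf_card | apply pd_Bij | apply pd_Fini | apply pd_Big | apply pd_Ord | apply pd_Tr | apply pd_Ind | apply pf_succ | apply pf_funs | apply pf_prod | apply pf_lam | apply pd_Fn | apply pf_app | apply pf_ran | apply pf_dom | apply PF.img | apply PF.pow | apply PD.sub | apply PF.adj | apply PF.un | apply PF.sUn | apply PF.op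 | apply PF.pr | apply PF.sep | exact PF.var _ | exact PF.const _ | apply PD.eq | apply PD.mem | apply PD.not | apply PD.iff | apply PD.or | apply PD.and | apply PD.imp | apply PD.ex | apply PD.all | exact PD.const _ | assumption | refine PF.comp1 (F := _) (by assumption) ?_ | refine PF.comp2 (F := _) (by assumption) ?_ ?_ | refine PF.comp3 (F := _) (by assumption) ?_ ?_ ?_ | refine PD.app1 (R := _) (by assumption) ?_ | refine PD.app2 (R := _) (by assumption) ?_ ?_ | refine PD.app3 (R := _) (by assumption) ?_ ?_ ?_ | refine PD.app4 (R := _) (by assumption) ?_ ?_ ?_ ?_))) ?_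
    refine pf_lam (F := fun t v => V (v 1) (v 0) t) (by (repeat' (with_reducible first | apply pd_Cde | apply pf_vals | apply pd_maxR | apply pf_rmO | apply pf_rmL | apply pf_rmP | apply pf_cls | apply pf_cst | apply pf_sdf | apply pf_sun | apply pf_sit | apply pd_Nul | apply pd_Cau | apply pd_EvB | apply pd_EvS | apply pd_Sq | apply pd_Fmem | apply pd_Feq | apply pd_WOd | apply pf_pfin | apply pd_Fun1 | apply pf_bit | apply pf_sd | apply pf_df | apply pf_it | apply pd_Sm | apply pf_trc | apply pd_Clo | apply pd_Dep | apply pf_rs | apply pf_hh | apply pd_Spr | apply pd_Inj | apply pf_har | apply pd_Le | apply pf_fins | apply pf_card | apply pd_Bij | apply pd_Fini | apply pd_Big | apply pd_Ord | apply pd_Tr | apply pd_Ind | apply pf_succ | apply pf_funs | apply pf_prod | apply pf_lam | apply pd_Fn | apply pf_app | apply pf_ran | apply pf_dom | apply PF.img | apply PF.pow | apply PD.sub | apply PF.adj | apply PF.un | apply PF.sUn | apply PF.op | apply PF.pr | apply PF.sep | exact PF.var _ | exact PF.const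 _ | apply PD.eq | apply PD.mem | apply PD.not | apply PD.iff | apply PD.or | apply PD.and | apply PD.imp | apply PD.ex | apply PD.all | exact PD.const _ | assumption | refine PF.comp1 (F := _) (by assumption) ?_ | refine PF.comp2 (F := _) (by assumption) ?_ ?_ | refine PF.comp3 (F := _) (by assumption) ?_ ?_ ?_ | refine PD.app1 (R := _) (by assumption) ?_ | refine PD.app2 (R := _) (by assumption) ?_ ?_ | refine PD.app3 (R := _) (by assumption) ?_ ?_ ?_ | refine PD.app4 (R := _) (by assumption) ?_ ?_ ?_ ?_))) ?_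
    exact PF.comp3 (F := V) hVF (PF.var 2) (PF.var 1) (PF.var 0)
  refine ⟨lam (fun i => app g (lam (fun n => lam (fun t => V i n t) (prod om om)) om)) ν,
    lam_Fn hD ν, fun i hi => ?_, fun i j hi hj hij => ?_⟩
  · rw [app_lam hD hi]
    exact hgv _ (hE i)
  · rw [app_lam hD hi, app_lam hD hj] at hij
    have h1 := hgi _ _ (hE i) (hE j) hij
    have hVV : ∀ n m k, SetStr.mem n om → SetStr.mem m om → SetStr.mem k om → V i n (op m k) = V j n (op m k) := by
      intro n m k hn hm hk
      have h2 : app (app (lam (fun n => lam (fun t => V i n t) (prod om om)) om) n) (op m k) =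
          app (app (lam (fun n => lam (fun t => V j n t) (prod om om)) om) n) (op m k) := by rw [h1]
      rw [app_lam (hin2 i) hn, app_lam (hin2 j) hn, app_lam (hin i n) (op_mem_prod.2 ⟨hm, hk⟩),
        app_lam (hin j n) (op_mem_prod.2 ⟨hm, hk⟩)] at h2
      exact h2
    intro p n m hp
    obtain ⟨hpL, hin', hm⟩ := hA.fld _ _ _ hp
    have hn : SetStr.mem n om := (op_mem_prod.1 hin').2
    have hcdi : ∀ k, SetStr.mem k om → Cde I A (op i n) m k (V i n (op m k)) := fun k hk =>
      hVS i n m k (exists_cde hA hk ⟨p, hp⟩)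
    have hpP : SetStr.mem p (rmP I) := (op_mem_rmL.1 hpL).1
    obtain ⟨hcp, hp0⟩ := mem_rmP.1 hpP
    obtain ⟨k1, hk1, hkB⟩ := hcp.pos hp0
    have hne : ∃ z, SetStr.mem z (V i n (op m k1)) := by
      by_contra hno
      apply hkB.not_evS
      refine EvS.mono hk1 hcp.1 ((hcdi k1 hk1).2.2 p hp) fun l hl z hz => ?_
      rw [app_sdf hl, app_cst hl, mem_df]
      exact ⟨hz, fun h' => hno ⟨z, h'⟩⟩
    rw [hVV n m k1 hn hm hk1] at hne
    obtain ⟨c, -, ⟨q, hq, -⟩, -⟩ := hVe j n m k1 hne
    have hcdj : ∀ k, SetStr.mem k om → Cde I A (op j n) m k (V j n (op m k)) := fun k hk =>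
      hVS j n m k (exists_cde hA hk ⟨q, hq⟩)
    refine mem_of_cde hA hp fun k hk => ⟨V i n (op m k), hcdi k hk, ?_⟩
    rw [hVV n m k hn hm hk]
    exact hcdj k hk

end GA
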