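import Pool.Agent.GA.RmC

/-!
# Random forcing, part F: the names of the bits, `κ` distinct reals
-/

universe u

namespace GA

variable {M : Type u} [SetStr M] [IsZF M]

/-- The name of the generic point of `2^I`, read along a map `e` from `X` to `I`: `p ⊩ x(e(i)) = m` if
`p` is contained in the set of all `x` with `x(e(i)) = m`, modulo null. -/
noncomputable def rmA (I X e : M) : M :=
  sep (prod (rmP I) (prod X om)) (fun z => ∃ p i m, z = op p (op i m) ∧ SetStr.mem m tw ∧
    Nul I (sdf p (cst (bit I (app e i) m))))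

theorem tw_sub_om {x : M} (h : SetStr.mem x tw) : SetStr.mem x om := by
  rcases mem_tw.1 h with rfl | rfl
  · exact emp_mem_om
  · exact succ_mem_om emp_mem_om

theorem op_mem_rmA {I X e p i m : M} : SetStr.mem (op p (op i m)) (rmA I X e) ↔
    SetStr.mem p (rmP I) ∧ SetStr.mem i X ∧ SetStr.mem m tw ∧ Nul I (sdf p (cst (bit I (app e i) m))) := by
  unfold rmA
  rw [mem_sep (by (repeat' (with_reducible first | apply pf_rmO | apply pf_rmL | apply pf_rmP | apply pf_cls | apply pf_cst | apply pf_sdf | apply pf_sun | apply pf_sit | apply pd_Nul | apply pd_Cau | apply pd_EvB | apply pd_EvS | apply pd_Sq | apply pd_Fmem | apply pd_Feq | apply pd_WOd | apply pf_pfin | apply pd_Fun1 | apply pf_bit | apply pf_sd | apply pf_df | apply pf_it | apply pd_Sm | apply pf_trc | apply pd_Clo | apply pd_Dep | apply pf_rs | apply pf_hh | apply pd_Spr | apply pd_Inj | apply pf_har | apply pd_Le | apply pf_fins | apply pf_card | apply pd_Bij | apply pd_Fini | apply pd_Big | apply pd_Ord | apply pd_Tr | apply pd_Ind | apply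 pf_succ | apply pf_funs | apply pf_prod | apply pf_lam | apply pd_Fn | apply pf_app | apply pf_ran | apply pf_dom | apply PF.img | apply PF.pow | apply PD.sub | apply PF.adj | apply PF.un | apply PF.sUn | apply PF.op | apply PF.pr | apply PF.sep | exact PF.var _ | exact PF.const _ | apply PD.eq | apply PD.mem | apply PD.not | apply PD.iff | apply PD.or | apply PD.and | apply PD.imp | apply PD.ex | apply PD.all | exact PD.const _ | assumption | refine PF.comp1 (F := _) (by assumption) ?_ | refine PF.comp2 (F := _) (by assumption) ?_ ?_ | refine PF.comp3 (F := _) (by assumption) ?_ ?_ ?_ | refine PD.app1 (R := _) (by assumption) ?_ | refine PD.app2 (R := _) (by assumption) ?_ ?_ | refine PD.app3 (R := _) (by assumption) ?_ ?_ ?_ | refine PD.app4 (R := _) (by assumption) ?_ ?_ ?_ ?_))), op_mem_prod, op_mem_prod]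
  constructor
  · rintro ⟨⟨h1, h2, -⟩, p', i', m', h, h3, h4⟩
    simp only [op_inj] at h
    obtain ⟨rfl, rfl, rfl⟩ := h
    exact ⟨h1, h2, h3, h4⟩
  · rintro ⟨h1, h2, h3, h4⟩
    exact ⟨⟨h1, h2, tw_sub_om h3⟩, p, i, m, rfl, h3, h4⟩

theorem rm_sub {I p n x : M} (hp : Sq I p) (hn : SetStr.mem n om) (hx : SetStr.mem x (app p n)) :
    SetStr.mem x (funs I tw) := by
  obtain ⟨a, ha⟩ := hp.2 n hn
  exact ha.2.2.1 x hx

theorem rm_val {I i x : M} (hx : SetStr.mem x (funs I tw)) (hi : SetStr.mem i I) : SetStr.mem (app x i) tw :=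
  (mem_funs.1 hx).2 i hi

theorem rmA_fname {I X e : M} (he : ∀ i, SetStr.mem i X → SetStr.mem (app e i) I) :
    FName (rmP I) (rmL I) (rmO I) X om (rmA I X e) := by
  have hF := isForcing_rm I
  refine ⟨hF.top_mem, ?_, ?_, ?_, ?_, ?_⟩
  · intro p x ξ h
    rw [op_mem_rmA] at h
    exact ⟨hF.le_top p h.1, h.2.1, tw_sub_om h.2.2.1⟩
  · intro p q x ξ h hq
    rw [op_mem_rmA] at h ⊢
    obtain ⟨h1, h2, h3, h4⟩ := h
    obtain ⟨hq1, -, hq2⟩ := op_mem_rmL.1 hq
    refine ⟨hq1, h2, h3, ?_⟩
    have hsq := (mem_rmP.1 hq1).1.1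
    have hsb : Sq I (cst (bit I (app e x) ξ)) := Sq.cst (Clo.bit (he x h2))
    refine Nul.un (hsq.sdf hsb) hq2 h4 (fun n hn z hz => ?_)
    rw [app_sdf hn, mem_df] at hz
    rw [mem_un, app_sdf hn, app_sdf hn, mem_df, mem_df]
    by_cases hzp : SetStr.mem z (app p n)
    · exact Or.inr ⟨hzp, hz.2⟩
    · exact Or.inl ⟨hz.1, hzp⟩
  · intro p x ξ hp h
    have hp' : SetStr.mem p (rmP I) := (hF.fld _ _ hp).1
    rw [op_mem_rmA]
    obtain ⟨r0, hr0, hr0'⟩ := h p (hF.refl p hp')
    rw [op_mem_rmA] at hr0'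
    obtain ⟨-, hx, hξ, -⟩ := hr0'
    refine ⟨hp', hx, hξ, ?_⟩
    by_contra hN
    obtain ⟨hq, hqp⟩ := rm_sdf hp' (Cau.cst (Clo.bit (he x hx))) hN
    obtain ⟨r, hr, hr'⟩ := h _ hqp
    rw [op_mem_rmA] at hr'
    obtain ⟨hr1, -, hr2⟩ := op_mem_rmL.1 hr
    refine (mem_rmP.1 hr1).2 (Nul.un (mem_rmP.1 hr1).1.1 hr2 hr'.2.2.2 (fun n hn z hz => ?_))
    rw [mem_un, app_sdf hn, app_sdf hn, app_sdf hn, mem_df, mem_df, mem_df]
    by_cases hzb : SetStr.mem z (app (cst (bit I (app e x) ξ)) n)
    · exact Or.inl ⟨hz, fun h => h.2 hzb⟩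
    · exact Or.inr ⟨hz, hzb⟩
  · intro p x ξ η h1 h2
    rw [op_mem_rmA] at h1 h2
    by_contra hne
    refine (mem_rmP.1 h1.1).2 (Nul.un (mem_rmP.1 h1.1).1.1 h1.2.2.2 h2.2.2.2 (fun n hn z hz => ?_))
    rw [mem_un, app_sdf hn, app_sdf hn, mem_df, mem_df, app_cst hn, app_cst hn, mem_bit, mem_bit]
    by_cases hzb : app z (app e x) = ξ
    · exact Or.inr ⟨hz, fun h => hne (hzb.symm.trans h.2)⟩
    · exact Or.inl ⟨hz, fun h => hzb h.2⟩
  · intro p x hp hx
    have hp' : SetStr.mem p (rmP I) := (hF.fld _ _ hp).1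
    have h1 : SetStr.mem (succ emp : M) tw := mem_tw.2 (Or.inr rfl)
    have h0 : SetStr.mem (emp : M) tw := mem_tw.2 (Or.inl rfl)
    by_cases hN : Nul I (sdf p (cst (bit I (app e x) (succ emp))))
    · exact ⟨p, succ emp, hF.refl p hp', op_mem_rmA.2 ⟨hp', hx, h1, hN⟩⟩
    · obtain ⟨hq, hqp⟩ := rm_sdf hp' (Cau.cst (Clo.bit (he x hx))) hN
      refine ⟨_, emp, hqp, op_mem_rmA.2 ⟨hq, hx, h0, ?_⟩⟩
      have hsq := (mem_rmP.1 hq).1.1
      have hemp : ∀ n, SetStr.mem n om →
          GA.sub (app (sdf (sdf p (cst (bit I (app e x) (succ emp)))) (cst (bit I (app e x) emp))) n) emp := by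
        intro n hn z hz
        exfalso
        rw [app_sdf hn, app_sdf hn, app_cst hn, app_cst hn, mem_df, mem_df, mem_bit, mem_bit] at hz
        obtain ⟨⟨hz1, hz2⟩, hz3⟩ := hz
        have hzI := rm_sub (mem_rmP.1 hp').1.1 hn hz1
        rcases mem_tw.1 (rm_val hzI (he x hx)) with h | h
        · exact hz3 ⟨hzI, h⟩
        · exact hz2 ⟨hzI, h⟩
      have hsb : Sq I (cst (bit I (app e x) emp)) := Sq.cst (Clo.bit (he x hx))
      refine Nul.mono (t := cst emp) (hsq.sdf hsb) ?_ (fun n hn => ?_)
      · intro k hk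
        refine ⟨emp, emp_mem_om, fun n hn _ => ?_⟩
        rw [app_cst hn]
        exact Sm.emp hk
      · rw [app_cst hn]
        exact hemp n hn

/-- The points whose coordinates `e(b, n)` and `e(c, n)` agree for all `n` in `k`. -/
noncomputable def eqk (I e b c k : M) : M :=
  sep (funs I tw) (fun x => ∀ n, SetStr.mem n k → app x (app e (op b n)) = app x (app e (op c n)))

theorem mem_eqk {I e b c k x : M} : SetStr.mem x (eqk I e b c k) ↔
    SetStr.mem x (funs I tw) ∧ ∀ n, SetStr.mem n k → app x (app e (op b n)) = app x (app e (op c n)) :=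
  mem_sep (by (repeat' (with_reducible first | apply pf_rmO | apply pf_rmL | apply pf_rmP | apply pf_cls | apply pf_cst | apply pf_sdf | apply pf_sun | apply pf_sit | apply pd_Nul | apply pd_Cau | apply pd_EvB | apply pd_EvS | apply pd_Sq | apply pd_Fmem | apply pd_Feq | apply pd_WOd | apply pf_pfin | apply pd_Fun1 | apply pf_bit | apply pf_sd | apply pf_df | apply pf_it | apply pd_Sm | apply pf_trc | apply pd_Clo | apply pd_Dep | apply pf_rs | apply pf_hh | apply pd_Spr | apply pd_Inj | apply pf_har | apply pd_Le | apply pf_fins | apply pf_card | apply pd_Bij | apply pd_Fini | apply pd_Big | apply pd_Ord | apply pd_Tr | apply pd_Ind | apply pf_succ | apply pf_funs | apply pf_prod | apply pf_lam | apply pd_Fn | apply pf_app | apply pf_ran | apply pf_dom | apply PF.img | apply PF.pow | apply PD.sub | apply PF.adj | apply PF.un | apply PF.sUn | apply PF.op | apply PF.pr | apply PF.sep | exact PF.var _ | exact PF.const _ | apply PD.eq | apply PD.mem | apply PD.not | apply PD.iff | apply PD.or | apply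 PD.and | apply PD.imp | apply PD.ex | apply PD.all | exact PD.const _ | assumption | refine PF.comp1 (F := _) (by assumption) ?_ | refine PF.comp2 (F := _) (by assumption) ?_ ?_ | refine PF.comp3 (F := _) (by assumption) ?_ ?_ ?_ | refine PD.app1 (R := _) (by assumption) ?_ | refine PD.app2 (R := _) (by assumption) ?_ ?_ | refine PD.app3 (R := _) (by assumption) ?_ ?_ ?_ | refine PD.app4 (R := _) (by assumption) ?_ ?_ ?_ ?_)))

theorem pf_eqk {I e b c : M} {f : (ℕ → M) → M} (hf : PF f) : PF (fun v => eqk I e b c (f v)) :=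
  PF.comp1 (F := fun x => eqk I e b c x) (by unfold eqk; (repeat' (with_reducible first | apply pf_rmO | apply pf_rmL | apply pf_rmP | apply pf_cls | apply pf_cst | apply pf_sdf | apply pf_sun | apply pf_sit | apply pd_Nul | apply pd_Cau | apply pd_EvB | apply pd_EvS | apply pd_Sq | apply pd_Fmem | apply pd_Feq | apply pd_WOd | apply pf_pfin | apply pd_Fun1 | apply pf_bit | apply pf_sd | apply pf_df | apply pf_it | apply pd_Sm | apply pf_trc | apply pd_Clo | apply pd_Dep | apply pf_rs | apply pf_hh | apply pd_Spr | apply pd_Inj | apply pf_har | apply pd_Le | apply pf_fins | apply pf_card | apply pd_Bij | apply pd_Fini | apply pd_Big | apply pd_Ord | apply pd_Tr | apply pd_Ind | apply pf_succ | apply pf_funs | apply pf_prod | apply pf_lam | apply pd_Fn | apply pf_app | apply pf_ran | apply pf_dom | apply PF.img | apply PF.pow | apply PD.sub | apply PF.adj | apply PF.un | apply PF.sUn | apply PF.op | apply PF.pr | apply PF.sep | exact PF.var _ | exact PF.const _ | apply PD.eq | apply PD.mem | apply PD.not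 | apply PD.iff | apply PD.or | apply PD.and | apply PD.imp | apply PD.ex | apply PD.all | exact PD.const _ | assumption | refine PF.comp1 (F := _) (by assumption) ?_ | refine PF.comp2 (F := _) (by assumption) ?_ ?_ | refine PF.comp3 (F := _) (by assumption) ?_ ?_ ?_ | refine PD.app1 (R := _) (by assumption) ?_ | refine PD.app2 (R := _) (by assumption) ?_ ?_ | refine PD.app3 (R := _) (by assumption) ?_ ?_ ?_ | refine PD.app4 (R := _) (by assumption) ?_ ?_ ?_ ?_))) hf


/-- The points whose coordinates `e(b, n)` and `e(c, n)` differ. -/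
noncomputable def nek (I e b c n : M) : M :=
  sep (funs I tw) (fun x => ¬ app x (app e (op b n)) = app x (app e (op c n)))

theorem mem_nek {I e b c n x : M} : SetStr.mem x (nek I e b c n) ↔
    SetStr.mem x (funs I tw) ∧ ¬ app x (app e (op b n)) = app x (app e (op c n)) := mem_sep (by (repeat' (with_reducible first | apply pf_eqk | apply pf_rmO | apply pf_rmL | apply pf_rmP | apply pf_cls | apply pf_cst | apply pf_sdf | apply pf_sun | apply pf_sit | apply pd_Nul | apply pd_Cau | apply pd_EvB | apply pd_EvS | apply pd_Sq | apply pd_Fmem | apply pd_Feq | apply pd_WOd | apply pf_pfin | apply pd_Fun1 | apply pf_bit | apply pf_sd | apply pf_df | apply pf_it | apply pd_Sm | apply pf_trc | apply pd_Clo | apply pd_Dep | apply pf_rs | apply pf_hh | apply pd_Spr | apply pd_Inj | apply pf_har | apply pd_Le | apply pf_fins | apply pf_card | apply pd_Bij | apply pd_Fini | apply pd_Big | apply pd_Ord | apply pd_Tr | apply pd_Ind | apply pf_succ | apply pf_funs | apply pf_prod | apply pf_lam | apply pd_Fn | apply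 pf_app | apply pf_ran | apply pf_dom | apply PF.img | apply PF.pow | apply PD.sub | apply PF.adj | apply PF.un | apply PF.sUn | apply PF.op | apply PF.pr | apply PF.sep | exact PF.var _ | exact PF.const _ | apply PD.eq | apply PD.mem | apply PD.not | apply PD.iff | apply PD.or | apply PD.and | apply PD.imp | apply PD.ex | apply PD.all | exact PD.const _ | assumption | refine PF.comp1 (F := _) (by assumption) ?_ | refine PF.comp2 (F := _) (by assumption) ?_ ?_ | refine PF.comp3 (F := _) (by assumption) ?_ ?_ ?_ | refine PD.app1 (R := _) (by assumption) ?_ | refine PD.app2 (R := _) (by assumption) ?_ ?_ | refine PD.app3 (R := _) (by assumption) ?_ ?_ ?_ | refine PD.app4 (R := _) (by assumption) ?_ ?_ ?_ ?_)))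

/-- The coordinates `e(b, n)` and `e(c, n)` for `n` in `k`. -/
private noncomputable def cor (e b c k : M) : M := img (fun x => app e x) (prod (pr b c) k)

private theorem mem_cor {e b c k z : M} : SetStr.mem z (cor e b c k) ↔
    ∃ n, SetStr.mem n k ∧ (z = app e (op b n) ∨ z = app e (op c n)) := by
  unfold cor
  rw [mem_img (by (repeat' (with_reducible first | apply pf_eqk | apply pf_rmO | apply pf_rmL | apply pf_rmP | apply pf_cls | apply pf_cst | apply pf_sdf | apply pf_sun | apply pf_sit | apply pd_Nul | apply pd_Cau | apply pd_EvB | apply pd_EvS | apply pd_Sq | apply pd_Fmem | apply pd_Feq | apply pd_WOd | apply pf_pfin | apply pd_Fun1 | apply pf_bit | apply pf_sd | apply pf_df | apply pf_it | apply pd_Sm | apply pf_trc | apply pd_Clo | apply pd_Dep | apply pf_rs | apply pf_hh | apply pd_Spr | apply pd_Inj | apply pf_har | apply pd_Le | apply pf_fins | apply pf_card | apply pd_Bij | apply pd_Fini | apply pd_Big | apply pd_Ord | apply pd_Tr | apply pd_Ind | apply pf_succ | apply pf_funs | apply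 pf_prod | apply pf_lam | apply pd_Fn | apply pf_app | apply pf_ran | apply pf_dom | apply PF.img | apply PF.pow | apply PD.sub | apply PF.adj | apply PF.un | apply PF.sUn | apply PF.op | apply PF.pr | apply PF.sep | exact PF.var _ | exact PF.const _ | apply PD.eq | apply PD.mem | apply PD.not | apply PD.iff | apply PD.or | apply PD.and | apply PD.imp | apply PD.ex | apply PD.all | exact PD.const _ | assumption | refine PF.comp1 (F := _) (by assumption) ?_ | refine PF.comp2 (F := _) (by assumption) ?_ ?_ | refine PF.comp3 (F := _) (by assumption) ?_ ?_ ?_ | refine PD.app1 (R := _) (by assumption) ?_ | refine PD.app2 (R := _) (by assumption) ?_ ?_ | refine PD.app3 (R := _) (by assumption) ?_ ?_ ?_ | refine PD.app4 (R := _) (by assumption) ?_ ?_ ?_ ?_)))]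
  constructor
  · rintro ⟨x, hx, rfl⟩
    obtain ⟨y, hy, n, hn, rfl⟩ := mem_prod.1 hx
    rcases mem_pr.1 hy with rfl | rfl
    · exact ⟨n, hn, Or.inl rfl⟩
    · exact ⟨n, hn, Or.inr rfl⟩
  · rintro ⟨n, hn, rfl | rfl⟩
    · exact ⟨op b n, op_mem_prod.2 ⟨mem_pr.2 (Or.inl rfl), hn⟩, rfl⟩
    · exact ⟨op c n, op_mem_prod.2 ⟨mem_pr.2 (Or.inr rfl), hn⟩, rfl⟩

private theorem dep_eqk {I e κ b c k : M} (he : ∀ x, SetStr.mem x (prod κ om) → SetStr.mem (app e x) I)
    (hb : SetStr.mem b κ) (hc : SetStr.mem c κ) (hk : SetStr.mem k (om : M)) :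
    Dep I (eqk I e b c k) (cor e b c k) := by
  refine ⟨fun z hz => ?_, ((Fini.pr _ _).prod (Fini.of_mem_om hk)).img (by (repeat' (with_reducible first | apply pf_eqk | apply pf_rmO | apply pf_rmL | apply pf_rmP | apply pf_cls | apply pf_cst | apply pf_sdf | apply pf_sun | apply pf_sit | apply pd_Nul | apply pd_Cau | apply pd_EvB | apply pd_EvS | apply pd_Sq | apply pd_Fmem | apply pd_Feq | apply pd_WOd | apply pf_pfin | apply pd_Fun1 | apply pf_bit | apply pf_sd | apply pf_df | apply pf_it | apply pd_Sm | apply pf_trc | apply pd_Clo | apply pd_Dep | apply pf_rs | apply pf_hh | apply pd_Spr | apply pd_Inj | apply pf_har | apply pd_Le | apply pf_fins | apply pf_card | apply pd_Bij | apply pd_Fini | apply pd_Big | apply pd_Ord | apply pd_Tr | apply pd_Ind | apply pf_succ | apply pf_funs | apply pf_prod | apply pf_lam | apply pd_Fn | apply pf_app | apply pf_ran | apply pf_dom | apply PF.img | apply PF.pow | apply PD.sub | apply PF.adj | apply PF.un | apply PF.sUn | apply PF.op | apply PF.pr | apply PF.sep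 | exact PF.var _ | exact PF.const _ | apply PD.eq | apply PD.mem | apply PD.not | apply PD.iff | apply PD.or | apply PD.and | apply PD.imp | apply PD.ex | apply PD.all | exact PD.const _ | assumption | refine PF.comp1 (F := _) (by assumption) ?_ | refine PF.comp2 (F := _) (by assumption) ?_ ?_ | refine PF.comp3 (F := _) (by assumption) ?_ ?_ ?_ | refine PD.app1 (R := _) (by assumption) ?_ | refine PD.app2 (R := _) (by assumption) ?_ ?_ | refine PD.app3 (R := _) (by assumption) ?_ ?_ ?_ | refine PD.app4 (R := _) (by assumption) ?_ ?_ ?_ ?_))),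
    fun x hx => (mem_eqk.1 hx).1, ?_⟩
  · obtain ⟨n, hn, rfl | rfl⟩ := mem_cor.1 hz
    · exact he _ (op_mem_prod.2 ⟨hb, om_trans hk hn⟩)
    · exact he _ (op_mem_prod.2 ⟨hc, om_trans hk hn⟩)
  · intro x y hx hy h
    rw [mem_eqk] at hx ⊢
    refine ⟨hy, fun n hn => ?_⟩
    rw [← h _ (mem_cor.2 ⟨n, hn, Or.inl rfl⟩), ← h _ (mem_cor.2 ⟨n, hn, Or.inr rfl⟩)]
    exact hx.2 n hn

theorem clo_eqk {I e κ b c k : M} (he : ∀ x, SetStr.mem x (prod κ om) → SetStr.mem (app e x) I)
    (hb : SetStr.mem b κ) (hc : SetStr.mem c κ) (hk : SetStr.mem k (om : M)) : Clo I (eqk I e b c k) :=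
  ⟨_, dep_eqk he hb hc hk⟩

theorem clo_nek {I e κ b c n : M} (he : ∀ x, SetStr.mem x (prod κ om) → SetStr.mem (app e x) I)
    (hb : SetStr.mem b κ) (hc : SetStr.mem c κ) (hn : SetStr.mem n (om : M)) : Clo I (nek I e b c n) := by
  refine ⟨pr (app e (op b n)) (app e (op c n)), fun z hz => ?_, Fini.pr _ _,
    fun x hx => (mem_nek.1 hx).1, ?_⟩
  · rcases mem_pr.1 hz with rfl | rfl
    · exact he _ (op_mem_prod.2 ⟨hb, hn⟩)
    · exact he _ (op_mem_prod.2 ⟨hc, hn⟩)
  · intro x y hx hy h
    rw [mem_nek] at hx ⊢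
    refine ⟨hy, ?_⟩
    rw [← h _ (mem_pr.2 (Or.inl rfl)), ← h _ (mem_pr.2 (Or.inr rfl))]
    exact hx.2

/-- The truth value of the formula `Q` of the injection below. -/
private def rfQ (e b c k z t : M) : Prop :=
  ∃ u v, z = op u v ∧ ∃ n, SetStr.mem n k ∧ ((t = app e (op b n) ∧ app u (app e (op b n)) = succ emp) ∨
    (t = app e (op c n) ∧ ((app v n = succ emp ∧ ¬ app u (app e (op b n)) = succ emp) ∨
      (¬ app v n = succ emp ∧ app u (app e (op b n)) = succ emp))))

private noncomputable def rfV (e b c k z t : M) : M := sep (succ emp) (fun _ => rfQ e b c k z t)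

private noncomputable def rfF (e b c k a z : M) : M := lam (fun t => rfV e b c k z t) a

private theorem rfV_pos {e b c k z t : M} (h : rfQ e b c k z t) : rfV e b c k z t = succ emp := by
  refine ext (fun w => ?_)
  unfold rfV
  rw [mem_sep (by unfold rfQ; (repeat' (with_reducible first | apply pf_eqk | apply pf_rmO | apply pf_rmL | apply pf_rmP | apply pf_cls | apply pf_cst | apply pf_sdf | apply pf_sun | apply pf_sit | apply pd_Nul | apply pd_Cau | apply pd_EvB | apply pd_EvS | apply pd_Sq | apply pd_Fmem | apply pd_Feq | apply pd_WOd | apply pf_pfin | apply pd_Fun1 | apply pf_bit | apply pf_sd | apply pf_df | apply pf_it | apply pd_Sm | apply pf_trc | apply pd_Clo | apply pd_Dep | apply pf_rs | apply pf_hh | apply pd_Spr | apply pd_Inj | apply pf_har | apply pd_Le | apply pf_fins | apply pf_card | apply pd_Bij | apply pd_Fini | apply pd_Big | apply pd_Ord | apply pd_Tr | apply pd_Ind | apply pf_succ | apply pf_funs | apply pf_prod | apply pf_lam | apply pd_Fn | apply pf_app | apply pf_ran | apply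 pf_dom | apply PF.img | apply PF.pow | apply PD.sub | apply PF.adj | apply PF.un | apply PF.sUn | apply PF.op | apply PF.pr | apply PF.sep | exact PF.var _ | exact PF.const _ | apply PD.eq | apply PD.mem | apply PD.not | apply PD.iff | apply PD.or | apply PD.and | apply PD.imp | apply PD.ex | apply PD.all | exact PD.const _ | assumption | refine PF.comp1 (F := _) (by assumption) ?_ | refine PF.comp2 (F := _) (by assumption) ?_ ?_ | refine PF.comp3 (F := _) (by assumption) ?_ ?_ ?_ | refine PD.app1 (R := _) (by assumption) ?_ | refine PD.app2 (R := _) (by assumption) ?_ ?_ | refine PD.app3 (R := _) (by assumption) ?_ ?_ ?_ | refine PD.app4 (R := _) (by assumption) ?_ ?_ ?_ ?_)))]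
  exact ⟨fun h => h.1, fun h' => ⟨h', h⟩⟩

private theorem rfV_neg {e b c k z t : M} (h : ¬ rfQ e b c k z t) : rfV e b c k z t = emp := by
  refine ext (fun w => ?_)
  unfold rfV
  rw [mem_sep (by unfold rfQ; (repeat' (with_reducible first | apply pf_eqk | apply pf_rmO | apply pf_rmL | apply pf_rmP | apply pf_cls | apply pf_cst | apply pf_sdf | apply pf_sun | apply pf_sit | apply pd_Nul | apply pd_Cau | apply pd_EvB | apply pd_EvS | apply pd_Sq | apply pd_Fmem | apply pd_Feq | apply pd_WOd | apply pf_pfin | apply pd_Fun1 | apply pf_bit | apply pf_sd | apply pf_df | apply pf_it | apply pd_Sm | apply pf_trc | apply pd_Clo | apply pd_Dep | apply pf_rs | apply pf_hh | apply pd_Spr | apply pd_Inj | apply pf_har | apply pd_Le | apply pf_fins | apply pf_card | apply pd_Bij | apply pd_Fini | apply pd_Big | apply pd_Ord | apply pd_Tr | apply pd_Ind | apply pf_succ | apply pf_funs | apply pf_prod | apply pf_lam | apply pd_Fn | apply pf_app | apply pf_ran | apply pf_dom | apply PF.img | apply PF.pow | apply PD.sub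 | apply PF.adj | apply PF.un | apply PF.sUn | apply PF.op | apply PF.pr | apply PF.sep | exact PF.var _ | exact PF.const _ | apply PD.eq | apply PD.mem | apply PD.not | apply PD.iff | apply PD.or | apply PD.and | apply PD.imp | apply PD.ex | apply PD.all | exact PD.const _ | assumption | refine PF.comp1 (F := _) (by assumption) ?_ | refine PF.comp2 (F := _) (by assumption) ?_ ?_ | refine PF.comp3 (F := _) (by assumption) ?_ ?_ ?_ | refine PD.app1 (R := _) (by assumption) ?_ | refine PD.app2 (R := _) (by assumption) ?_ ?_ | refine PD.app3 (R := _) (by assumption) ?_ ?_ ?_ | refine PD.app4 (R := _) (by assumption) ?_ ?_ ?_ ?_)))]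
  exact ⟨fun h' => (h h'.2).elim, fun h' => (not_mem_emp _ h').elim⟩

private theorem rfV_mem (e b c k z t : M) : SetStr.mem (rfV e b c k z t) tw := by
  by_cases h : rfQ e b c k z t
  · rw [rfV_pos h]
    exact mem_tw.2 (Or.inr rfl)
  · rw [rfV_neg h]
    exact mem_tw.2 (Or.inl rfl)

private theorem rfV_eq {e b c k z z' t : M} (h : rfV e b c k z t = rfV e b c k z' t) :
    rfQ e b c k z t ↔ rfQ e b c k z' t := by
  constructor
  · intro h1
    by_contra h2
    rw [rfV_pos h1, rfV_neg h2] at h
    exact emp_ne_one h.symm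
  · intro h1
    by_contra h2
    rw [rfV_pos h1, rfV_neg h2] at h
    exact emp_ne_one h

private theorem cor_inj {e κ b c k n n' x y : M}
    (hi : ∀ x y, SetStr.mem x (prod κ om) → SetStr.mem y (prod κ om) → app e x = app e y → x = y) (hb : SetStr.mem b κ)
    (hc : SetStr.mem c κ) (hk : SetStr.mem k (om : M)) (hn : SetStr.mem n k) (hn' : SetStr.mem n' k) (hx : x = b ∨ x = c)
    (hy : y = b ∨ y = c) (h : app e (op x n) = app e (op y n')) : x = y ∧ n = n' := by
  have h1 : SetStr.mem (op x n) (prod κ om) := by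
    rcases hx with rfl | rfl
    · exact op_mem_prod.2 ⟨hb, om_trans hk hn⟩
    · exact op_mem_prod.2 ⟨hc, om_trans hk hn⟩
  have h2 : SetStr.mem (op y n') (prod κ om) := by
    rcases hy with rfl | rfl
    · exact op_mem_prod.2 ⟨hb, om_trans hk hn'⟩
    · exact op_mem_prod.2 ⟨hc, om_trans hk hn'⟩
  exact op_inj.1 (hi _ _ h1 h2 h)

private theorem rfQ_b {e κ b c k u v n : M}
    (hi : ∀ x y, SetStr.mem x (prod κ om) → SetStr.mem y (prod κ om) → app e x = app e y → x = y) (hb : SetStr.mem b κ)
    (hc : SetStr.mem c κ) (hk : SetStr.mem k (om : M)) (hbc : b ≠ c) (hn : SetStr.mem n k) :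
    rfQ e b c k (op u v) (app e (op b n)) ↔ app u (app e (op b n)) = succ emp := by
  constructor
  · rintro ⟨u', v', h, n', hn', (⟨h1, h2⟩ | ⟨h1, -⟩)⟩
    · obtain ⟨-, rfl⟩ := cor_inj hi hb hc hk hn hn' (Or.inl rfl) (Or.inl rfl) h1
      rw [op_inj] at h
      obtain ⟨rfl, rfl⟩ := h
      exact h2
    · exact (hbc (cor_inj hi hb hc hk hn hn' (Or.inl rfl) (Or.inr rfl) h1).1).elim
  · intro h
    exact ⟨u, v, rfl, n, hn, Or.inl ⟨rfl, h⟩⟩

private theorem rfQ_c {e κ b c k u v n : M}
    (hi : ∀ x y, SetStr.mem x (prod κ om) → SetStr.mem y (prod κ om) → app e x = app e y → x = y) (hb : SetStr.mem b κ)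
    (hc : SetStr.mem c κ) (hk : SetStr.mem k (om : M)) (hbc : b ≠ c) (hn : SetStr.mem n k) :
    rfQ e b c k (op u v) (app e (op c n)) ↔
      ((app v n = succ emp ∧ ¬ app u (app e (op b n)) = succ emp) ∨
      (¬ app v n = succ emp ∧ app u (app e (op b n)) = succ emp)) := by
  constructor
  · rintro ⟨u', v', h, n', hn', (⟨h1, -⟩ | ⟨h1, h2⟩)⟩
    · exact (hbc (cor_inj hi hb hc hk hn hn' (Or.inr rfl) (Or.inl rfl) h1).1.symm).elim
    · obtain ⟨-, rfl⟩ := cor_inj hi hb hc hk hn hn' (Or.inr rfl) (Or.inr rfl) h1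
      rw [op_inj] at h
      obtain ⟨rfl, rfl⟩ := h
      exact h2
  · intro h
    exact ⟨u, v, rfl, n, hn, Or.inr ⟨rfl, h⟩⟩

private theorem tw_eq_of_iff {x y : M} (hx : SetStr.mem x tw) (hy : SetStr.mem y tw)
    (h : x = succ emp ↔ y = succ emp) : x = y := by
  rcases mem_tw.1 hx with rfl | rfl <;> rcases mem_tw.1 hy with rfl | rfl
  · rfl
  · exact h.2 rfl
  · exact (h.1 rfl).symm
  · rfl

/-- The measure of the set of all `x` with `x(e(b, n)) = x(e(c, n))` for all `n` in `k` is `2^-k`. -/
theorem sm_eqk {I e κ b c k : M} (he : ∀ x, SetStr.mem x (prod κ om) → SetStr.mem (app e x) I)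
    (hi : ∀ x y, SetStr.mem x (prod κ om) → SetStr.mem y (prod κ om) → app e x = app e y → x = y)
    (hb : SetStr.mem b κ) (hc : SetStr.mem c κ) (hbc : b ≠ c) (hk : SetStr.mem k (om : M)) :
    Sm I k (eqk I e b c k) := by
  have hD := dep_eqk he hb hc hk
  refine ⟨_, hD, ?_⟩
  refine Le.of_fun (F := fun z => rfF e b c k (cor e b c k) z) (by
    unfold rfF rfV rfQ
    (repeat' (with_reducible first | apply pf_eqk | apply pf_rmO | apply pf_rmL | apply pf_rmP | apply pf_cls | apply pf_cst | apply pf_sdf | apply pf_sun | apply pf_sit | apply pd_Nul | apply pd_Cau | apply pd_EvB | apply pd_EvS | apply pd_Sq | apply pd_Fmem | apply pd_Feq | apply pd_WOd | apply pf_pfin | apply pd_Fun1 | apply pf_bit | apply pf_sd | apply pf_df | apply pf_it | apply pd_Sm | apply pf_trc | apply pd_Clo | apply pd_Dep | apply pf_rs | apply pf_hh | apply pd_Spr | apply pd_Inj | apply pf_har | apply pd_Le | apply pf_fins | apply pf_card | apply pd_Bij | apply pd_Fini | apply pd_Big | apply pd_Ord | apply pd_Tr | apply pd_Ind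 | apply pf_succ | apply pf_funs | apply pf_prod | apply pf_lam | apply pd_Fn | apply pf_app | apply pf_ran | apply pf_dom | apply PF.img | apply PF.pow | apply PD.sub | apply PF.adj | apply PF.un | apply PF.sUn | apply PF.op | apply PF.pr | apply PF.sep | exact PF.var _ | exact PF.const _ | apply PD.eq | apply PD.mem | apply PD.not | apply PD.iff | apply PD.or | apply PD.and | apply PD.imp | apply PD.ex | apply PD.all | exact PD.const _ | assumption | refine PF.comp1 (F := _) (by assumption) ?_ | refine PF.comp2 (F := _) (by assumption) ?_ ?_ | refine PF.comp3 (F := _) (by assumption) ?_ ?_ ?_ | refine PD.app1 (R := _) (by assumption) ?_ | refine PD.app2 (R := _) (by assumption) ?_ ?_ | refine PD.app3 (R := _) (by assumption) ?_ ?_ ?_ | refine PD.app4 (R := _) (by assumption) ?_ ?_ ?_ ?_))) ?_ ?_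
  · intro z _
    refine mem_funs.2 ⟨lam_Fn (by unfold rfV rfQ; (repeat' (with_reducible first | apply pf_eqk | apply pf_rmO | apply pf_rmL | apply pf_rmP | apply pf_cls | apply pf_cst | apply pf_sdf | apply pf_sun | apply pf_sit | apply pd_Nul | apply pd_Cau | apply pd_EvB | apply pd_EvS | apply pd_Sq | apply pd_Fmem | apply pd_Feq | apply pd_WOd | apply pf_pfin | apply pd_Fun1 | apply pf_bit | apply pf_sd | apply pf_df | apply pf_it | apply pd_Sm | apply pf_trc | apply pd_Clo | apply pd_Dep | apply pf_rs | apply pf_hh | apply pd_Spr | apply pd_Inj | apply pf_har | apply pd_Le | apply pf_fins | apply pf_card | apply pd_Bij | apply pd_Fini | apply pd_Big | apply pd_Ord | apply pd_Tr | apply pd_Ind | apply pf_succ | apply pf_funs | apply pf_prod | apply pf_lam | apply pd_Fn | apply pf_app | apply pf_ran | apply pf_dom | apply PF.img | apply PF.pow | apply PD.sub | apply PF.adj | apply PF.un | apply PF.sUn | apply PF.op | apply PF.pr | apply PF.sep | exact PF.var _ | exact PF.const _ | apply PD.eq |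 apply PD.mem | apply PD.not | apply PD.iff | apply PD.or | apply PD.and | apply PD.imp | apply PD.ex | apply PD.all | exact PD.const _ | assumption | refine PF.comp1 (F := _) (by assumption) ?_ | refine PF.comp2 (F := _) (by assumption) ?_ ?_ | refine PF.comp3 (F := _) (by assumption) ?_ ?_ ?_ | refine PD.app1 (R := _) (by assumption) ?_ | refine PD.app2 (R := _) (by assumption) ?_ ?_ | refine PD.app3 (R := _) (by assumption) ?_ ?_ ?_ | refine PD.app4 (R := _) (by assumption) ?_ ?_ ?_ ?_))) _, fun t ht => ?_⟩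
    show SetStr.mem (app (lam _ _) t) tw
    rw [app_lam (by unfold rfV rfQ; (repeat' (with_reducible first | apply pf_eqk | apply pf_rmO | apply pf_rmL | apply pf_rmP | apply pf_cls | apply pf_cst | apply pf_sdf | apply pf_sun | apply pf_sit | apply pd_Nul | apply pd_Cau | apply pd_EvB | apply pd_EvS | apply pd_Sq | apply pd_Fmem | apply pd_Feq | apply pd_WOd | apply pf_pfin | apply pd_Fun1 | apply pf_bit | apply pf_sd | apply pf_df | apply pf_it | apply pd_Sm | apply pf_trc | apply pd_Clo | apply pd_Dep | apply pf_rs | apply pf_hh | apply pd_Spr | apply pd_Inj | apply pf_har | apply pd_Le | apply pf_fins | apply pf_card | apply pd_Bij | apply pd_Fini | apply pd_Big | apply pd_Ord | apply pd_Tr | apply pd_Ind | apply pf_succ | apply pf_funs | apply pf_prod | apply pf_lam | apply pd_Fn | apply pf_app | apply pf_ran | apply pf_dom | apply PF.img | apply PF.pow | apply PD.sub | apply PF.adj | apply PF.un | apply PF.sUn | apply PF.op | apply PF.pr | apply PF.sep | exact PF.var _ | exact PF.const _ | apply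 PD.eq | apply PD.mem | apply PD.not | apply PD.iff | apply PD.or | apply PD.and | apply PD.imp | apply PD.ex | apply PD.all | exact PD.const _ | assumption | refine PF.comp1 (F := _) (by assumption) ?_ | refine PF.comp2 (F := _) (by assumption) ?_ ?_ | refine PF.comp3 (F := _) (by assumption) ?_ ?_ ?_ | refine PD.app1 (R := _) (by assumption) ?_ | refine PD.app2 (R := _) (by assumption) ?_ ?_ | refine PD.app3 (R := _) (by assumption) ?_ ?_ ?_ | refine PD.app4 (R := _) (by assumption) ?_ ?_ ?_ ?_))) ht]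
    exact rfV_mem _ _ _ _ _ _
  · intro z z' hz hz' h
    obtain ⟨u, hu, v, hv, rfl⟩ := mem_prod.1 hz
    obtain ⟨u', hu', v', hv', rfl⟩ := mem_prod.1 hz'
    have hval : ∀ t, SetStr.mem t (cor e b c k) →
        (rfQ e b c k (op u v) t ↔ rfQ e b c k (op u' v') t) := by
      intro t ht
      apply rfV_eq
      have h1 : app (rfF e b c k (cor e b c k) (op u v)) t = rfV e b c k (op u v) t :=
        app_lam (by unfold rfV rfQ; (repeat' (with_reducible first | apply pf_eqk | apply pf_rmO | apply pf_rmL | apply pf_rmP | apply pf_cls | apply pf_cst | apply pf_sdf | apply pf_sun | apply pf_sit | apply pd_Nul | apply pd_Cau | apply pd_EvB | apply pd_EvS | apply pd_Sq | apply pd_Fmem | apply pd_Feq | apply pd_WOd | apply pf_pfin | apply pd_Fun1 | apply pf_bit | apply pf_sd | apply pf_df | apply pf_it | apply pd_Sm | apply pf_trc | apply pd_Clo | apply pd_Dep | apply pf_rs | apply pf_hh | apply pd_Spr | apply pd_Inj | apply pf_har | apply pd_Le | apply pf_fins | apply pf_card | apply pd_Bij | apply pd_Fini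 | apply pd_Big | apply pd_Ord | apply pd_Tr | apply pd_Ind | apply pf_succ | apply pf_funs | apply pf_prod | apply pf_lam | apply pd_Fn | apply pf_app | apply pf_ran | apply pf_dom | apply PF.img | apply PF.pow | apply PD.sub | apply PF.adj | apply PF.un | apply PF.sUn | apply PF.op | apply PF.pr | apply PF.sep | exact PF.var _ | exact PF.const _ | apply PD.eq | apply PD.mem | apply PD.not | apply PD.iff | apply PD.or | apply PD.and | apply PD.imp | apply PD.ex | apply PD.all | exact PD.const _ | assumption | refine PF.comp1 (F := _) (by assumption) ?_ | refine PF.comp2 (F := _) (by assumption) ?_ ?_ | refine PF.comp3 (F := _) (by assumption) ?_ ?_ ?_ | refine PD.app1 (R := _) (by assumption) ?_ | refine PD.app2 (R := _) (by assumption) ?_ ?_ | refine PD.app3 (R := _) (by assumption) ?_ ?_ ?_ | refine PD.app4 (R := _) (by assumption) ?_ ?_ ?_ ?_))) ht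
      have h2 : app (rfF e b c k (cor e b c k) (op u' v')) t = rfV e b c k (op u' v') t :=
        app_lam (by unfold rfV rfQ; (repeat' (with_reducible first | apply pf_eqk | apply pf_rmO | apply pf_rmL | apply pf_rmP | apply pf_cls | apply pf_cst | apply pf_sdf | apply pf_sun | apply pf_sit | apply pd_Nul | apply pd_Cau | apply pd_EvB | apply pd_EvS | apply pd_Sq | apply pd_Fmem | apply pd_Feq | apply pd_WOd | apply pf_pfin | apply pd_Fun1 | apply pf_bit | apply pf_sd | apply pf_df | apply pf_it | apply pd_Sm | apply pf_trc | apply pd_Clo | apply pd_Dep | apply pf_rs | apply pf_hh | apply pd_Spr | apply pd_Inj | apply pf_har | apply pd_Le | apply pf_fins | apply pf_card | apply pd_Bij | apply pd_Fini | apply pd_Big | apply pd_Ord | apply pd_Tr | apply pd_Ind | apply pf_succ | apply pf_funs | apply pf_prod | apply pf_lam | apply pd_Fn | apply pf_app | apply pf_ran | apply pf_dom | apply PF.img | apply PF.pow | apply PD.sub | apply PF.adj | apply PF.un | apply PF.sUn | apply PF.op | apply PF.pr | apply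 PF.sep | exact PF.var _ | exact PF.const _ | apply PD.eq | apply PD.mem | apply PD.not | apply PD.iff | apply PD.or | apply PD.and | apply PD.imp | apply PD.ex | apply PD.all | exact PD.const _ | assumption | refine PF.comp1 (F := _) (by assumption) ?_ | refine PF.comp2 (F := _) (by assumption) ?_ ?_ | refine PF.comp3 (F := _) (by assumption) ?_ ?_ ?_ | refine PD.app1 (R := _) (by assumption) ?_ | refine PD.app2 (R := _) (by assumption) ?_ ?_ | refine PD.app3 (R := _) (by assumption) ?_ ?_ ?_ | refine PD.app4 (R := _) (by assumption) ?_ ?_ ?_ ?_))) ht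
      rw [← h1, ← h2, h]
    have hbn : ∀ n, SetStr.mem n k → SetStr.mem (app e (op b n)) (cor e b c k) := fun n hn =>
      mem_cor.2 ⟨n, hn, Or.inl rfl⟩
    have hcn : ∀ n, SetStr.mem n k → SetStr.mem (app e (op c n)) (cor e b c k) := fun n hn =>
      mem_cor.2 ⟨n, hn, Or.inr rfl⟩
    have hU : SetStr.mem u (funs (cor e b c k) tw) := trc_sub hD u hu
    have hU' : SetStr.mem u' (funs (cor e b c k) tw) := trc_sub hD u' hu'
    have e1 : ∀ n, SetStr.mem n k → app u (app e (op b n)) = app u' (app e (op b n)) := by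
      intro n hn
      have h1 := hval _ (hbn n hn)
      rw [rfQ_b hi hb hc hk hbc hn, rfQ_b hi hb hc hk hbc hn] at h1
      exact tw_eq_of_iff ((mem_funs.1 hU).2 _ (hbn n hn)) ((mem_funs.1 hU').2 _ (hbn n hn)) h1
    have e2 : ∀ n, SetStr.mem n k → app v n = app v' n := by
      intro n hn
      have h1 := hval _ (hcn n hn)
      rw [rfQ_c hi hb hc hk hbc hn, rfQ_c hi hb hc hk hbc hn, e1 n hn] at h1
      refine tw_eq_of_iff ((mem_funs.1 hv).2 _ hn) ((mem_funs.1 hv').2 _ hn) ?_
      tauto
    have hk1 : ∀ w, SetStr.mem w (trc (eqk I e b c k) (cor e b c k)) → ∀ n, SetStr.mem n k →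
        app w (app e (op c n)) = app w (app e (op b n)) := by
      intro w hw n hn
      obtain ⟨x, hx, rfl⟩ := mem_trc.1 hw
      rw [app_rs (hcn n hn), app_rs (hbn n hn)]
      exact ((mem_eqk.1 hx).2 n hn).symm
    have hvv : v = v' := (mem_funs.1 hv).1.ext (mem_funs.1 hv').1 e2
    have huu : u = u' := by
      refine (mem_funs.1 hU).1.ext (mem_funs.1 hU').1 (fun t ht => ?_)
      obtain ⟨n, hn, rfl | rfl⟩ := mem_cor.1 ht
      · exact e1 n hn
      · rw [hk1 u hu n hn, hk1 u' hu' n hn]
        exact e1 n hn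
    rw [hvv, huu]

/-- The random forcing of `2^I` adds `κ` distinct reals if `κ × ω` injects into `I`. -/
theorem lowP_rm {I κ : M} (hle : Le (prod κ om) I) : LowP (rmP I) (rmL I) (rmO I) κ := by
  obtain ⟨e, -, he, hi⟩ := hle
  have hF := isForcing_rm I
  refine ⟨rmA I (prod κ om) e, rmA_fname he, ?_⟩
  intro b c hb hc hbc p hp
  have hCau := (mem_rmP.1 hp).1
  have hSq := hCau.1
  -- some difference set is not null below `p`
  have key : ∃ n, SetStr.mem n om ∧ ¬ Nul I (sit p (cst (nek I e b c n))) := by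
    by_contra hcon
    push Not at hcon
    have hfull : ∀ k, SetStr.mem k om → Clo I (df (funs I tw) (eqk I e b c k)) :=
      fun k hk => (Clo.full _).df (clo_eqk he hb hc hk)
    have hall : ∀ j, SetStr.mem j om → Nul I (sit p (cst (df (funs I tw) (eqk I e b c j)))) := by
      refine om_ind (P := fun j => Nul I (sit p (cst (df (funs I tw) (eqk I e b c j)))))
        (by (repeat' (with_reducible first | apply pf_eqk | apply pf_rmO | apply pf_rmL | apply pf_rmP | apply pf_cls | apply pf_cst | apply pf_sdf | apply pf_sun | apply pf_sit | apply pd_Nul | apply pd_Cau | apply pd_EvB | apply pd_EvS | apply pd_Sq | apply pd_Fmem | apply pd_Feq | apply pd_WOd | apply pf_pfin | apply pd_Fun1 | apply pf_bit | apply pf_sd | apply pf_df | apply pf_it | apply pd_Sm | apply pf_trc | apply pd_Clo | apply pd_Dep | apply pf_rs | apply pf_hh | apply pd_Spr | apply pd_Inj | apply pf_har | apply pd_Le | apply pf_fins | apply pf_card | apply pd_Bij | apply pd_Fini | apply pd_Big | apply pd_Ord | apply pd_Tr | apply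 pd_Ind | apply pf_succ | apply pf_funs | apply pf_prod | apply pf_lam | apply pd_Fn | apply pf_app | apply pf_ran | apply pf_dom | apply PF.img | apply PF.pow | apply PD.sub | apply PF.adj | apply PF.un | apply PF.sUn | apply PF.op | apply PF.pr | apply PF.sep | exact PF.var _ | exact PF.const _ | apply PD.eq | apply PD.mem | apply PD.not | apply PD.iff | apply PD.or | apply PD.and | apply PD.imp | apply PD.ex | apply PD.all | exact PD.const _ | assumption | refine PF.comp1 (F := _) (by assumption) ?_ | refine PF.comp2 (F := _) (by assumption) ?_ ?_ | refine PF.comp3 (F := _) (by assumption) ?_ ?_ ?_ | refine PD.app1 (R := _) (by assumption) ?_ | refine PD.app2 (R := _) (by assumption) ?_ ?_ | refine PD.app3 (R := _) (by assumption) ?_ ?_ ?_ | refine PD.app4 (R := _) (by assumption) ?_ ?_ ?_ ?_))) ?_ ?_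
      · refine Nul.mono (t := cst emp) (hSq.sit (Sq.cst (hfull emp emp_mem_om))) ?_ (fun n hn => ?_)
        · intro k hk
          refine ⟨emp, emp_mem_om, fun n hn _ => ?_⟩
          rw [app_cst hn]
          exact Sm.emp hk
        · intro z hz
          rw [app_sit hn, mem_it, app_cst hn, mem_df, mem_eqk] at hz
          exact (hz.2.2 ⟨hz.2.1, fun n hn => (not_mem_emp n hn).elim⟩).elim
      · intro j hj ih
        refine Nul.un (hSq.sit (Sq.cst (hfull _ (succ_mem_om hj)))) ih (hcon j hj)
          (fun n hn z hz => ?_)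
        rw [app_sit hn, mem_it, app_cst hn, mem_df, mem_eqk] at hz
        rw [mem_un, app_sit hn, app_sit hn, mem_it, mem_it, app_cst hn, app_cst hn, mem_df, mem_nek,
          mem_eqk]
        by_cases h : app z (app e (op b j)) = app z (app e (op c j))
        · refine Or.inl ⟨hz.1, hz.2.1, fun h' => hz.2.2 ⟨hz.2.1, fun n hn => ?_⟩⟩
          rw [mem_succ] at hn
          rcases hn with hn | rfl
          · exact h'.2 n hn
          · exact h
        · exact Or.inr ⟨hz.1, hz.2.1, h⟩
    obtain ⟨k, hk, hB⟩ := hCau.pos (mem_rmP.1 hp).2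
    have hsk := succ_mem_om hk
    refine hB.not_evS (EvS.un hk hSq (hall _ hsk _ hsk) (t' := cst (eqk I e b c (succ k)))
      ?_ (fun n hn z hz => ?_))
    · refine ⟨emp, emp_mem_om, fun n hn _ => ?_⟩
      rw [app_cst hn]
      exact sm_eqk he hi hb hc hbc hsk
    · rw [mem_un, app_sit hn, mem_it, app_cst hn, app_cst hn, mem_df]
      have hzI := rm_sub hSq hn hz
      by_cases h : SetStr.mem z (eqk I e b c (succ k))
      · exact Or.inr h
      · exact Or.inl ⟨hz, hzI, h⟩
  obtain ⟨n, hn, hN⟩ := key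
  have hbX : SetStr.mem (op b n) (prod κ om) := op_mem_prod.2 ⟨hb, hn⟩
  have hcX : SetStr.mem (op c n) (prod κ om) := op_mem_prod.2 ⟨hc, hn⟩
  have hbI := he _ hbX
  have hcI := he _ hcX
  have h1 : SetStr.mem (succ emp : M) tw := mem_tw.2 (Or.inr rfl)
  have h0 : SetStr.mem (emp : M) tw := mem_tw.2 (Or.inl rfl)
  have hclo : ∀ m m', Clo I (it (bit I (app e (op b n)) m) (bit I (app e (op c n)) m')) :=
    fun m m' => (Clo.bit hbI).it (Clo.bit hcI)
  have hstep : ∃ m m', SetStr.mem m tw ∧ SetStr.mem m' tw ∧ m ≠ m' ∧ ¬ Nul I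
      (sit p (cst (it (bit I (app e (op b n)) m) (bit I (app e (op c n)) m')))) := by
    by_contra hcon
    have hA : Nul I
        (sit p (cst (it (bit I (app e (op b n)) emp) (bit I (app e (op c n)) (succ emp))))) := by
      by_contra h
      exact hcon ⟨emp, succ emp, h0, h1, emp_ne_one, h⟩
    have hB : Nul I
        (sit p (cst (it (bit I (app e (op b n)) (succ emp)) (bit I (app e (op c n)) emp)))) := by
      by_contra h
      exact hcon ⟨succ emp, emp, h1, h0, emp_ne_one.symm, h⟩
    refine hN (Nul.un (hSq.sit (Sq.cst (clo_nek he hb hc hn))) hA hB (fun i hi' z hz => ?_))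
    rw [app_sit hi', mem_it, app_cst hi', mem_nek] at hz
    rw [mem_un, app_sit hi', app_sit hi', mem_it, mem_it, app_cst hi', app_cst hi', mem_it, mem_it,
      mem_bit, mem_bit, mem_bit, mem_bit]
    obtain ⟨hz1, hz2, hz3⟩ := hz
    rcases mem_tw.1 (rm_val hz2 hbI) with e1 | e1 <;> rcases mem_tw.1 (rm_val hz2 hcI) with e2 | e2
    · exact (hz3 (e1.trans e2.symm)).elim
    · exact Or.inl ⟨hz1, ⟨hz2, e1⟩, hz2, e2⟩
    · exact Or.inr ⟨hz1, ⟨hz2, e1⟩, hz2, e2⟩
    · exact (hz3 (e1.trans e2.symm)).elim
  obtain ⟨m, m', hm, hm', hmm, hN'⟩ := hstep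
  have hqC := hCau.sit (Cau.cst (hclo m m'))
  have hq : SetStr.mem (sit p (cst (it (bit I (app e (op b n)) m) (bit I (app e (op c n)) m')))) (rmP I) := mem_rmP.2 ⟨hqC, hN'⟩
  have hnul : ∀ s, Sq I s → (∀ i, SetStr.mem i om → GA.sub (app s i) emp) → Nul I s := by
    intro s hs h
    refine Nul.mono (t := cst emp) hs ?_ (fun i hi => ?_)
    · intro k hk
      refine ⟨emp, emp_mem_om, fun n hn _ => ?_⟩
      rw [app_cst hn]
      exact Sm.emp hk
    · rw [app_cst hi]
      exact h i hi
  refine ⟨_, n, m, m', op_mem_rmL.2 ⟨hq, hp, ?_⟩, hn, hmm, op_mem_rmA.2 ⟨hq, hbX, hm, ?_⟩,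
    op_mem_rmA.2 ⟨hq, hcX, hm', ?_⟩⟩
  · refine hnul _ (hqC.1.sdf hSq) (fun i hi z hz => ?_)
    rw [app_sdf hi, mem_df, app_sit hi, mem_it] at hz
    exact (hz.2 hz.1.1).elim
  · refine hnul _ (hqC.1.sdf (Sq.cst (Clo.bit hbI))) (fun i hi z hz => ?_)
    rw [app_sdf hi, mem_df, app_sit hi, mem_it, app_cst hi, app_cst hi, mem_it] at hz
    exact (hz.2 hz.1.2.1).elim
  · refine hnul _ (hqC.1.sdf (Sq.cst (Clo.bit hcI))) (fun i hi z hz => ?_)
    rw [app_sdf hi, mem_df, app_sit hi, mem_it, app_cst hi, app_cst hi, mem_it] at hz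
    exact (hz.2 hz.1.2.2).elim

end GA
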