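import Pool.Agent.GA.RmC
import Pool.Agent.GA.Crd

/-!
# Random forcing is uniformly definable
-/

universe u

namespace GA

open FirstOrder FirstOrder.Language

section inst

variable {f g h k : ∀ i : ZFM.{u}, (ℕ → i.carrier) → i.carrier}

instance FZ.tw : FZ (fun (i : ZFM.{u}) (_ : ℕ → i.carrier) => (tw : i.carrier)) := by
  unfold GA.tw
  infer_instance

instance FZ.rs [hf : FZ f] [hg : FZ g] : FZ (fun i v => rs (f i v) (g i v)) := by
  refine FZ.app2 (F := fun i x y => GA.rs x y) ?_ hf hg
  unfold GA.rs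
  infer_instance

instance DZ.Dep [hf : FZ f] [hg : FZ g] [hh : FZ h] :
    DZ (fun i v => Dep (f i v) (g i v) (h i v)) := by
  refine DZ.app3 (R := fun i x y z => GA.Dep x y z) ?_ hf hg hh
  unfold GA.Dep
  infer_instance

instance DZ.Clo [hf : FZ f] [hg : FZ g] : DZ (fun i v => Clo (f i v) (g i v)) := by
  refine DZ.app2 (R := fun i x y => GA.Clo x y) ?_ hf hg
  unfold GA.Clo
  infer_instance

instance FZ.trc [hf : FZ f] [hg : FZ g] : FZ (fun i v => trc (f i v) (g i v)) := by
  refine FZ.app2 (F := fun i x y => GA.trc x y) ?_ hf hg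
  unfold GA.trc
  infer_instance

instance DZ.Sm [hf : FZ f] [hg : FZ g] [hh : FZ h] :
    DZ (fun i v => Sm (f i v) (g i v) (h i v)) := by
  refine DZ.app3 (R := fun i x y z => GA.Sm x y z) ?_ hf hg hh
  unfold GA.Sm
  infer_instance

instance FZ.it [hf : FZ f] [hg : FZ g] : FZ (fun i v => it (f i v) (g i v)) := by
  refine FZ.app2 (F := fun i x y => GA.it x y) ?_ hf hg
  unfold GA.it
  infer_instance

instance FZ.df [hf : FZ f] [hg : FZ g] : FZ (fun i v => df (f i v) (g i v)) := by
  refine FZ.app2 (F := fun i x y => GA.df x y) ?_ hf hg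
  unfold GA.df
  infer_instance

instance FZ.sd [hf : FZ f] [hg : FZ g] : FZ (fun i v => sd (f i v) (g i v)) := by
  refine FZ.app2 (F := fun i x y => GA.sd x y) ?_ hf hg
  unfold GA.sd
  infer_instance

instance DZ.Sq [hf : FZ f] [hg : FZ g] : DZ (fun i v => Sq (f i v) (g i v)) := by
  refine DZ.app2 (R := fun i x y => GA.Sq x y) ?_ hf hg
  unfold GA.Sq
  infer_instance

instance DZ.EvS [hf : FZ f] [hg : FZ g] [hh : FZ h] :
    DZ (fun i v => EvS (f i v) (g i v) (h i v)) := by
  refine DZ.app3 (R := fun i x y z => GA.EvS x y z) ?_ hf hg hh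
  unfold GA.EvS
  infer_instance

instance DZ.Cau [hf : FZ f] [hg : FZ g] : DZ (fun i v => Cau (f i v) (g i v)) := by
  refine DZ.app2 (R := fun i x y => GA.Cau x y) ?_ hf hg
  unfold GA.Cau
  infer_instance

instance DZ.Nul [hf : FZ f] [hg : FZ g] : DZ (fun i v => Nul (f i v) (g i v)) := by
  refine DZ.app2 (R := fun i x y => GA.Nul x y) ?_ hf hg
  unfold GA.Nul
  infer_instance

instance FZ.sdf [hf : FZ f] [hg : FZ g] : FZ (fun i v => sdf (f i v) (g i v)) := by
  refine FZ.app2 (F := fun i x y => GA.sdf x y) ?_ hf hg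
  unfold GA.sdf
  infer_instance

instance FZ.cst [hf : FZ f] : FZ (fun i v => cst (f i v)) := by
  refine FZ.app1 (F := fun i x => GA.cst x) ?_ hf
  unfold GA.cst
  infer_instance

instance FZ.cls [hf : FZ f] : FZ (fun i v => cls (f i v)) := by
  refine FZ.app1 (F := fun i x => GA.cls x) ?_ hf
  unfold GA.cls
  infer_instance

instance FZ.rmP [hf : FZ f] : FZ (fun i v => rmP (f i v)) := by
  refine FZ.app1 (F := fun i x => GA.rmP x) ?_ hf
  unfold GA.rmP
  infer_instance

instance FZ.rmL [hf : FZ f] : FZ (fun i v => rmL (f i v)) := by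
  refine FZ.app1 (F := fun i x => GA.rmL x) ?_ hf
  unfold GA.rmL
  infer_instance

instance FZ.rmO [hf : FZ f] : FZ (fun i v => rmO (f i v)) := by
  refine FZ.app1 (F := fun i x => GA.rmO x) ?_ hf
  unfold GA.rmO
  infer_instance

end inst

/-- The class of the measure algebras of `2^κ`. -/
noncomputable def ranClass : FClass.{u} where
  P := fun _ κ => rmP κ
  L := fun _ κ => rmL κ
  o := fun _ κ => rmO κ
  hP := inferInstance
  hL := inferInstance
  ho := inferInstance
  forcing := fun _ κ _ => isForcing_rm κ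

end GA
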