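import Pool.Agent.GA.HecF
import Pool.Agent.GA.Crd
import Pool.Agent.GA.PrK
import Pool.Agent.GA.RmG
import Pool.Agent.GA.RmE
import Pool.Agent.GA.RmF
import Pool.Agent.GA.BridgeR
import Pool.Agent.GA.BridgeH

/-!
# The three classes: the final theorem in the notions of the statement
-/

universe u

namespace GA

open FirstOrder FirstOrder.Language

theorem not_CAx_hec (M : Type u) [SetStr M] [IsZF M] : ¬ CAx hecClass.{u} M :=
  not_CAx_of_transfer hecClass (fun _ _ _ κ hκ _ =>
    ⟨(isHec_hecP hκ.1).covP hκ, (isHec_hecP hκ.1).lowP hκ.1, (isHec_hecP hκ.1).upP hκ⟩) M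

theorem not_CAx_ran (M : Type u) [SetStr M] [IsZF M] : ¬ CAx ranClass.{u} M :=
  not_CAx_of_transfer ranClass (fun _ _ _ κ hκ hc =>
    ⟨covP_rm κ, lowP_rm (hc.le_prod_om hκ), upP_rm hκ (cd_cls hκ (Cd.self hκ))⟩) M

end GA

namespace GA.Dp

open FirstOrder FirstOrder.Language SetStr

section

variable {M : Type u} [SetStr M] [IsZF M]

theorem isCohen_iff {κ P L o : M} : IsCohen κ P L o ↔ P = cohP κ ∧ L = cohL κ ∧ o = emp := by
  unfold IsCohen
  rw [isEmp_iff]
  have h1 : ∀ p : M, (IsFin p ∧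
    (∀ z, mem z p → ∃ w a n i k e e', IsOmega w ∧ mem a κ ∧ mem n w ∧ IsEmp e ∧ IsAdj e' e e ∧
      (i = e ∨ i = e') ∧ IsOp k a n ∧ IsOp z k i) ∧
    ∀ k i j, Rel p k i → Rel p k j → i = j) ↔ SetStr.mem p (cohP κ) := by
    intro p
    rw [mem_cohP, isFin_iff]
    simp only [isOmega_iff, isEmp_iff, isAdj_iff, isOp_iff, rel_iff]
    constructor
    · rintro ⟨h1, h2, h3⟩
      refine ⟨fun z hz => ?_, h1, h3⟩
      obtain ⟨_, a, n, i, _, _, _, rfl, ha, hn, rfl, rfl, hi, rfl, rfl⟩ := h2 z hz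
      exact op_mem_prod.2 ⟨op_mem_prod.2 ⟨ha, hn⟩, mem_tw2.2 hi⟩
    · rintro ⟨h1, h2, h3⟩
      refine ⟨h2, fun z hz => ?_, h3⟩
      obtain ⟨k, hk, i, hi, rfl⟩ := mem_prod.1 (h1 z hz)
      obtain ⟨a, ha, n, hn, rfl⟩ := mem_prod.1 hk
      exact ⟨om, a, n, i, op a n, emp, succ emp, rfl, ha, hn, rfl, rfl, mem_tw2.1 hi, rfl, rfl⟩
  have h0 : ∀ z : M, SetStr.mem z (cohL κ) ↔ ∃ q p, SetStr.mem q (cohP κ) ∧ SetStr.mem p (cohP κ) ∧ z = op q p ∧ GA.sub p q := by
    intro z
    unfold cohL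
    rw [mem_sep (by (repeat' (with_reducible first | apply pf_eqk | apply pd_Cde | apply pf_vals | apply pf_rmO | apply pf_rmL | apply pf_rmP | apply pf_cls | apply pf_cst | apply pf_sdf | apply pf_sun | apply pf_sit | apply pd_Nul | apply pd_Cau | apply pd_EvB | apply pd_EvS | apply pd_Sq | apply pf_bit | apply pf_sd | apply pf_df | apply pf_it | apply pd_Sm | apply pf_trc | apply pd_Clo | apply pd_Dep | apply pf_rs | apply pd_Lz | apply pd_Sh | apply pf_chk | apply pd_Fmem | apply pd_Feq | apply pf_hec | apply pf_hL | apply pd_hLe | apply pf_hP | apply pd_Agree | apply pf_stems | apply pd_HLe | apply pf_res | apply pf_below | apply pf_mxn | apply pd_NLeV | apply pd_NLe | apply pd_RName | apply pd_FV | apply pd_PreO | apply pf_p2 | apply pf_p1 | apply DD.pf_lv | apply DD.pf_nd | apply DD.pd_Clo | apply DD.pf_dl | apply DD.pf_prs | apply DD.pd_Fork | apply DD.pd_V | apply pd_maxR | apply pd_WOd | apply pf_pfin | apply pd_Fun1 | apply pf_hh | apply pd_Spr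 | apply pd_Inj | apply pf_har | apply pd_Le | apply pf_fins | apply pf_card | apply pd_Bij | apply pd_Fini | apply pd_Big | apply pd_Ord | apply pd_Tr | apply pd_Ind | apply pf_succ | apply pf_funs | apply pf_prod | apply pf_lam | apply pd_Fn | apply pf_app | apply pf_ran | apply pf_dom | apply PF.img | apply PF.pow | apply PD.sub | apply PF.adj | apply PF.un | apply PF.sUn | apply PF.op | apply PF.pr | apply PF.sep | exact PF.var _ | exact PF.const _ | apply PD.eq | apply PD.mem | apply PD.not | apply PD.iff | apply PD.or | apply PD.and | apply PD.imp | apply PD.ex | apply PD.all | exact PD.const _ | assumption | refine PF.comp1 (F := _) (by assumption) ?_ | refine PF.comp2 (F := _) (by assumption) ?_ ?_ | refine PF.comp3 (F := _) (by assumption) ?_ ?_ ?_ | refine PD.app1 (R := _) (by assumption) ?_ | refine PD.app2 (R := _) (by assumption) ?_ ?_ | refine PD.app3 (R := _) (by assumption) ?_ ?_ ?_ | refine PD.app4 (R := _) (by assumption) ?_ ?_ ?_ ?_)))]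
    constructor
    · rintro ⟨hz, q, p, rfl, h⟩
      rw [op_mem_prod] at hz
      exact ⟨q, p, hz.1, hz.2, rfl, h⟩
    · rintro ⟨q, p, hq, hp, rfl, h⟩
      exact ⟨op_mem_prod.2 ⟨hq, hp⟩, q, p, rfl, h⟩
  constructor
  · rintro ⟨h2, h3, h4⟩
    have hP : P = cohP κ := ext (fun p => (h2 p).trans (h1 p))
    refine ⟨hP, ?_, h4⟩
    refine ext (fun z => ?_)
    rw [show (SetStr.mem z L ↔ mem z L) from Iff.rfl, h3, h0]
    simp only [isOp_iff]
    subst hP
    exact Iff.rfl
  · rintro ⟨rfl, rfl, rfl⟩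
    refine ⟨fun p => (h1 p).symm, fun z => ?_, rfl⟩
    rw [show (mem z (cohL κ) ↔ SetStr.mem z (cohL κ)) from Iff.rfl, h0]
    simp only [isOp_iff]
    exact Iff.rfl

theorem IsForcing.of_lib' {P L o : M} (h : GA.IsForcing P L o)
    (hL : ∀ z, SetStr.mem z L → ∃ q p, z = op q p) : IsForcing P L o where
  fld z hz := by
    obtain ⟨q, p, rfl⟩ := hL z hz
    exact ⟨q, p, (h.fld q p hz).1, (h.fld q p hz).2, isOp_iff.2 rfl⟩
  refl p hp := rel_iff.2 (h.refl p hp)
  trans r q p h1 h2 := rel_iff.2 (h.trans r q p (rel_iff.1 h1) (rel_iff.1 h2))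
  top_mem := h.top_mem
  le_top p hp := rel_iff.2 (h.le_top p hp)

/-- Every ordinal has its Cohen forcing, uniquely determined. -/
theorem exists_cohen (κ : M) : ∃ P L o, IsForcing P L o ∧ IsCohen κ P L o ∧
    ∀ P' L' o', IsCohen κ P' L' o' → P' = P ∧ L' = L ∧ o' = o := by
  have h : IsCohen κ (cohP κ) (cohL κ) emp := isCohen_iff.2 ⟨rfl, rfl, rfl⟩
  refine ⟨_, _, _, IsForcing.of_lib' (isForcing_coh κ) (fun z hz => ?_), h,
    fun P' L' o' h' => isCohen_iff.1 h'⟩
  unfold cohL at hz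
  rw [mem_sep (by (repeat' (with_reducible first | apply pf_eqk | apply pd_Cde | apply pf_vals | apply pf_rmO | apply pf_rmL | apply pf_rmP | apply pf_cls | apply pf_cst | apply pf_sdf | apply pf_sun | apply pf_sit | apply pd_Nul | apply pd_Cau | apply pd_EvB | apply pd_EvS | apply pd_Sq | apply pf_bit | apply pf_sd | apply pf_df | apply pf_it | apply pd_Sm | apply pf_trc | apply pd_Clo | apply pd_Dep | apply pf_rs | apply pd_Lz | apply pd_Sh | apply pf_chk | apply pd_Fmem | apply pd_Feq | apply pf_hec | apply pf_hL | apply pd_hLe | apply pf_hP | apply pd_Agree | apply pf_stems | apply pd_HLe | apply pf_res | apply pf_below | apply pf_mxn | apply pd_NLeV | apply pd_NLe | apply pd_RName | apply pd_FV | apply pd_PreO | apply pf_p2 | apply pf_p1 | apply DD.pf_lv | apply DD.pf_nd | apply DD.pd_Clo | apply DD.pf_dl | apply DD.pf_prs | apply DD.pd_Fork | apply DD.pd_V | apply pd_maxR | apply pd_WOd | apply pf_pfin | apply pd_Fun1 | apply pf_hh | apply pd_Spr |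 apply pd_Inj | apply pf_har | apply pd_Le | apply pf_fins | apply pf_card | apply pd_Bij | apply pd_Fini | apply pd_Big | apply pd_Ord | apply pd_Tr | apply pd_Ind | apply pf_succ | apply pf_funs | apply pf_prod | apply pf_lam | apply pd_Fn | apply pf_app | apply pf_ran | apply pf_dom | apply PF.img | apply PF.pow | apply PD.sub | apply PF.adj | apply PF.un | apply PF.sUn | apply PF.op | apply PF.pr | apply PF.sep | exact PF.var _ | exact PF.const _ | apply PD.eq | apply PD.mem | apply PD.not | apply PD.iff | apply PD.or | apply PD.and | apply PD.imp | apply PD.ex | apply PD.all | exact PD.const _ | assumption | refine PF.comp1 (F := _) (by assumption) ?_ | refine PF.comp2 (F := _) (by assumption) ?_ ?_ | refine PF.comp3 (F := _) (by assumption) ?_ ?_ ?_ | refine PD.app1 (R := _) (by assumption) ?_ | refine PD.app2 (R := _) (by assumption) ?_ ?_ | refine PD.app3 (R := _) (by assumption) ?_ ?_ ?_ | refine PD.app4 (R := _) (by assumption) ?_ ?_ ?_ ?_)))] at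 hz
  obtain ⟨-, q, p, rfl, -⟩ := hz
  exact ⟨q, p, rfl⟩

/-- Every ordinal has its random forcing, uniquely determined. -/
theorem exists_random (κ : M) : ∃ P L o, IsForcing P L o ∧ IsRandom κ P L o ∧
    ∀ P' L' o', IsRandom κ P' L' o' → P' = P ∧ L' = L ∧ o' = o := by
  refine ⟨rmP κ, rmL κ, rmO κ, IsForcing.of_lib' (isForcing_rm κ) (fun z hz => ?_),
    isRandom_iff.2 ⟨rfl, rfl, rfl⟩, fun P' L' o' h' => isRandom_iff.1 h'⟩
  unfold rmL at hz
  rw [mem_sep (by (repeat' (with_reducible first | apply pf_eqk | apply pd_Cde | apply pf_vals | apply pf_rmO | apply pf_rmL | apply pf_rmP | apply pf_cls | apply pf_cst | apply pf_sdf | apply pf_sun | apply pf_sit | apply pd_Nul | apply pd_Cau | apply pd_EvB | apply pd_EvS | apply pd_Sq | apply pf_bit | apply pf_sd | apply pf_df | apply pf_it | apply pd_Sm | apply pf_trc | apply pd_Clo | apply pd_Dep | apply pf_rs | apply pd_Lz | apply pd_Sh | apply pf_chk | apply pd_Fmem | apply pd_Feq | apply pf_hec | apply pf_hL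 | apply pd_hLe | apply pf_hP | apply pd_Agree | apply pf_stems | apply pd_HLe | apply pf_res | apply pf_below | apply pf_mxn | apply pd_NLeV | apply pd_NLe | apply pd_RName | apply pd_FV | apply pd_PreO | apply pf_p2 | apply pf_p1 | apply DD.pf_lv | apply DD.pf_nd | apply DD.pd_Clo | apply DD.pf_dl | apply DD.pf_prs | apply DD.pd_Fork | apply DD.pd_V | apply pd_maxR | apply pd_WOd | apply pf_pfin | apply pd_Fun1 | apply pf_hh | apply pd_Spr | apply pd_Inj | apply pf_har | apply pd_Le | apply pf_fins | apply pf_card | apply pd_Bij | apply pd_Fini | apply pd_Big | apply pd_Ord | apply pd_Tr | apply pd_Ind | apply pf_succ | apply pf_funs | apply pf_prod | apply pf_lam | apply pd_Fn | apply pf_app | apply pf_ran | apply pf_dom | apply PF.img | apply PF.pow | apply PD.sub | apply PF.adj | apply PF.un | apply PF.sUn | apply PF.op | apply PF.pr | apply PF.sep | exact PF.var _ | exact PF.const _ | apply PD.eq | apply PD.mem | apply PD.not | apply PD.iff | apply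 PD.or | apply PD.and | apply PD.imp | apply PD.ex | apply PD.all | exact PD.const _ | assumption | refine PF.comp1 (F := _) (by assumption) ?_ | refine PF.comp2 (F := _) (by assumption) ?_ ?_ | refine PF.comp3 (F := _) (by assumption) ?_ ?_ ?_ | refine PD.app1 (R := _) (by assumption) ?_ | refine PD.app2 (R := _) (by assumption) ?_ ?_ | refine PD.app3 (R := _) (by assumption) ?_ ?_ ?_ | refine PD.app4 (R := _) (by assumption) ?_ ?_ ?_ ?_)))] at hz
  obtain ⟨-, q, p, rfl, -⟩ := hz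
  exact ⟨q, p, rfl⟩

/-- Every ordinal has its iteration of Hechler forcing, uniquely determined. -/
theorem exists_hechler {κ : M} (hκ : IsOrd κ) : ∃ P L o, IsForcing P L o ∧ IsHechler κ P L o ∧
    ∀ P' L' o', IsHechler κ P' L' o' → P' = P ∧ L' = L ∧ o' = o := by
  have h := isHec_hecP (isOrd_iff.1 hκ)
  refine ⟨hecP κ, hecL κ, emp, IsForcing.of_lib' (h.isForcing (isOrd_iff.1 hκ)) h.rel,
    isHechler_iff.2 ⟨h, rfl⟩, fun P' L' o' h' => ?_⟩
  rw [isHechler_iff] at h'
  obtain ⟨e1, e2⟩ := h'.1.unique h (isOrd_iff.1 hκ)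
  exact ⟨e1, e2, h'.2⟩

end

/-- ZF refutes the axiom for Cohen forcings. -/
theorem cohen_fails (M : Type u) [SetStr M] [IsZF M] :
    ∃ κ : M, IsInfCard κ ∧ ∃ P L o, IsCohen κ P L o ∧ ¬ Absolute L o := by
  by_contra hcon
  push Not at hcon
  refine not_CAx_coh M (fun κ hκ hc φ => ?_)
  exact absolute_iff.1 (hcon κ (isInfCard_iff.2 ⟨hκ, hc⟩) _ _ _ (isCohen_iff.2 ⟨rfl, rfl, rfl⟩)) φ

/-- ZF refutes the axiom for random forcings. -/
theorem random_fails (M : Type u) [SetStr M] [IsZF M] :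
    ∃ κ : M, IsInfCard κ ∧ ∃ P L o, IsRandom κ P L o ∧ ¬ Absolute L o := by
  by_contra hcon
  push Not at hcon
  refine not_CAx_ran M (fun κ hκ hc φ => ?_)
  exact absolute_iff.1 (hcon κ (isInfCard_iff.2 ⟨hκ, hc⟩) _ _ _ (isRandom_iff.2 ⟨rfl, rfl, rfl⟩)) φ

/-- ZF refutes the axiom for iterations of Hechler forcing. -/
theorem hechler_fails (M : Type u) [SetStr M] [IsZF M] :
    ∃ κ : M, IsInfCard κ ∧ ∃ P L o, IsHechler κ P L o ∧ ¬ Absolute L o := by
  by_contra hcon
  push Not at hcon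
  refine not_CAx_hec M (fun κ hκ hc φ => ?_)
  exact absolute_iff.1 (hcon κ (isInfCard_iff.2 ⟨hκ, hc⟩) _ _ _
    (isHechler_iff.2 ⟨isHec_hecP hκ.1, rfl⟩)) φ

/-- THE THEOREM. -/
theorem all_fail (M : Type u) [SetStr M] [IsZF M] :
    (∀ L : M, ∃! R, IsForcedEq L R) ∧
    (∀ κ : M, IsOrd κ →
      (∃ P L o, IsForcing P L o ∧ IsCohen κ P L o ∧
        ∀ P' L' o', IsCohen κ P' L' o' → P' = P ∧ L' = L ∧ o' = o) ∧
      (∃ P L o, IsForcing P L o ∧ IsRandom κ P L o ∧
        ∀ P' L' o', IsRandom κ P' L' o' → P' = P ∧ L' = L ∧ o' = o) ∧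
      (∃ P L o, IsForcing P L o ∧ IsHechler κ P L o ∧
        ∀ P' L' o', IsHechler κ P' L' o' → P' = P ∧ L' = L ∧ o' = o)) ∧
    (∃ κ : M, IsInfCard κ ∧ ∃ P L o, IsCohen κ P L o ∧ ¬ Absolute L o) ∧
    (∃ κ : M, IsInfCard κ ∧ ∃ P L o, IsRandom κ P L o ∧ ¬ Absolute L o) ∧
    (∃ κ : M, IsInfCard κ ∧ ∃ P L o, IsHechler κ P L o ∧ ¬ Absolute L o) :=
  ⟨existsUnique_forcedEq, fun κ hκ => ⟨exists_cohen κ, exists_random κ, exists_hechler hκ⟩,
    cohen_fails M, random_fails M, hechler_fails M⟩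

end GA.Dp
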