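import Pool.Agent.GA.Unif

/-!
# Assembly: from countable models to all models
-/

universe u

namespace GA

open FirstOrder FirstOrder.Language

/-- A class of forcings, indexed by the sets of the model, uniformly definable over ZF: `P α` with the
relation `L α` and the largest element `o α`. -/
structure FClass where
  /-- the set of conditions -/
  P : ∀ i : ZFM.{u}, i.carrier → i.carrier
  /-- the relation -/
  L : ∀ i : ZFM.{u}, i.carrier → i.carrier
  /-- the largest condition -/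
  o : ∀ i : ZFM.{u}, i.carrier → i.carrier
  hP : FZ (fun i v => P i (v 0))
  hL : FZ (fun i v => L i (v 0))
  ho : FZ (fun i v => o i (v 0))
  forcing : ∀ (i : ZFM.{u}) (α : i.carrier), Ord α → IsForcing (P i α) (L i α) (o i α)

/-- The axiom of the class `K`: for every ordinal `α` the sentences forced by the largest condition of
the forcing with index `α` are exactly the true ones. -/
def FAx (K : FClass.{u}) (M : Type u) [SetStr M] [IsZF M] : Prop :=
  ∀ α : M, Ord α → ∀ φ : LST.Sentence,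
    M ⊨ φ ↔ Forces (K.L ⟨M⟩ α) φ (K.o ⟨M⟩ α) default default

/-- The axiom passes to elementary submodels. -/
theorem FAx.elem {K : FClass.{u}} {S M : Type u} [SetStr S] [IsZF S] [SetStr M] [IsZF M]
    {j : S → M} (hj : Elem j) (h : FAx K M) : FAx K S := by
  intro α hα φ
  have hα' : Ord (j α) :=
    (hj.dz (P := fun i v => Ord (v 0)) inferInstance (fun _ => α)).2 hα
  have hL := K.hL
  have ho := K.ho
  have h1 := hj.dz (P := fun i v => Forces (K.L i (v 0)) φ (K.o i (v 0)) default default)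
    (DZ.Forces_sentence φ) (fun _ => α)
  exact (hj.equiv φ).trans ((h (j α) hα' φ).trans h1)

/-- ASSEMBLY.  If some closed uniformly definable statement `Q` holds in the generic extensions of
countable models by one forcing of the class and fails in those by another one, then the axiom of the
class fails in every model of ZF. -/
theorem not_FAx (K : FClass.{u}) {Q : ZFM.{u} → Prop}
    (hQ : DZ (fun (i : ZFM.{u}) (_ : ℕ → i.carrier) => Q i))
    (ha : ∀ (S : Type u) [SetStr S] [IsZF S] [Countable S], ∃ α : S, Ord α ∧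
      ∀ (G : Set S) (hG : IsGeneric (K.P ⟨S⟩ α) (K.L ⟨S⟩ α) (K.o ⟨S⟩ α) G) [IsZF (Ext hG)],
        Q ⟨Ext hG⟩)
    (hb : ∀ (S : Type u) [SetStr S] [IsZF S] [Countable S], ∃ α : S, Ord α ∧
      ∀ (G : Set S) (hG : IsGeneric (K.P ⟨S⟩ α) (K.L ⟨S⟩ α) (K.o ⟨S⟩ α) G) [IsZF (Ext hG)],
        ¬ Q ⟨Ext hG⟩)
    (M : Type u) [SetStr M] [IsZF M] : ¬ FAx K M := by
  intro hM
  obtain ⟨S, _, _, j, hS, hj⟩ := exists_countable_elem M
  have hA : FAx K S := hM.elem hj
  obtain ⟨φ, hφ⟩ := hQ.exists_sentence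
  have key : ∀ (α : S) (hα : Ord α), ∃ G, ∃ hG : IsGeneric (K.P ⟨S⟩ α) (K.L ⟨S⟩ α) (K.o ⟨S⟩ α) G,
      ∃ _ : IsZF (Ext hG), (S ⊨ φ ↔ Q ⟨Ext hG⟩) := by
    intro α hα
    have hF := K.forcing ⟨S⟩ α hα
    obtain ⟨G, hG, -⟩ := exists_generic hF _ hF.top_mem
    have he := ext_equiv hG (hA α hα)
    have hz : IsZF (Ext hG) := IsZF.of_equiv he
    exact ⟨G, hG, hz, (he φ).trans (hφ ⟨Ext hG⟩)⟩
  obtain ⟨α, hα, h1⟩ := ha S
  obtain ⟨β, hβ, h2⟩ := hb S
  obtain ⟨G1, hG1, _, e1⟩ := key α hα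
  obtain ⟨G2, hG2, _, e2⟩ := key β hβ
  exact h2 G2 hG2 (e2.1 (e1.2 (h1 G1 hG1)))

end GA
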