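import Pool.Agent.GA.Pair

/-!
# The hypotheses of the transfer theorem from single functions and from many reals
-/

universe u w

namespace GA

variable {M : Type u} {N : Type w} [SetStr M] [SetStr N] {j : M → N} [IsZF M] [IsZF N]

/-- Injections of `M` are injections of `N`. -/
theorem EndExt.le (h : EndExt j) {a b : M} (hab : Le a b) : Le (j a) (j b) := by
  obtain ⟨f, h1, h2, h3⟩ := hab
  refine ⟨j f, h.fn_iff.2 h1, ?_, ?_⟩
  · rw [h.forall_mem]
    intro x hx
    rw [← h.app, h.mem_iff]
    exact h2 x hx
  · intro x y hx hy hxy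
    obtain ⟨x, hx1, rfl⟩ := h.tr _ _ hx
    obtain ⟨y, hy1, rfl⟩ := h.tr _ _ hy
    rw [← h.app, ← h.app, h.eq_iff] at hxy
    rw [h3 x y hx1 hy1 hxy]

/-- `j (funs om b)` is contained in the set of functions of `N`. -/
theorem EndExt.funs_sub (h : EndExt j) (b : M) : GA.sub (j (funs GA.om b)) (funs GA.om (j b)) := by
  intro z hz
  obtain ⟨f, hf, rfl⟩ := h.tr _ _ hz
  exact h.funs_om_iff.2 hf

theorem EndExt.inj_inj (h : EndExt j) {ν κ : M} (hi : Inj ν κ) : Inj (j ν) (j κ) :=
  (h.le hi).trans (Le.of_sub (h.funs_sub κ))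

/-- If there are `κ` many reals in `N`, then everything that injects into the functions from omega to
`κ` in `M` injects into the reals of `N`. -/
theorem low_of_reals (h : EndExt j) {κ : M} (hκ : Le (j κ) (funs (om : N) om)) :
    ∀ ν, Ord ν → Inj ν κ → Inj (j ν) om :=
  fun _ _ hi => Inj.trans ⟨emp, emp_mem_om⟩ (h.inj_inj hi) hκ

/-- The uncurried function `(x, n) ↦ f x n`. -/
noncomputable def unc (f X l : M) : M :=
  sep (prod (prod X om) l) (fun w => ∃ x n y, w = op (op x n) y ∧ SetStr.mem (op n y) (app f x))

theorem mem_unc {f X l w : M} : SetStr.mem w (unc f X l) ↔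
    SetStr.mem w (prod (prod X om) l) ∧ ∃ x n y, w = op (op x n) y ∧ SetStr.mem (op n y) (app f x) := by
  unfold unc
  exact mem_sep (by (repeat' (with_reducible first | apply pf_hh | apply pd_Spr | apply pd_Inj | apply pf_har | apply pd_Le | apply pf_fins | apply pf_card | apply pd_Bij | apply pd_Fini | apply pd_Big | apply pd_Ord | apply pd_Tr | apply pd_Ind | apply pf_succ | apply pf_funs | apply pf_prod | apply pf_lam | apply pd_Fn | apply pf_app | apply pf_ran | apply pf_dom | apply PF.img | apply PF.pow | apply PD.sub | apply PF.adj | apply PF.un | apply PF.sUn | apply PF.op | apply PF.pr | apply PF.sep | exact PF.var _ | exact PF.const _ | apply PD.eq | apply PD.mem | apply PD.not | apply PD.iff | apply PD.or | apply PD.and | apply PD.imp | apply PD.ex | apply PD.all | exact PD.const _ | assumption | refine PF.comp1 (F := _) (by assumption) ?_ | refine PF.comp2 (F := _) (by assumption) ?_ ?_ | refine PF.comp3 (F := _) (by assumption) ?_ ?_ ?_ | refine PD.app1 (R := _) (by assumption) ?_ | refine PD.app2 (R := _) (by assumption)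 ?_ ?_ | refine PD.app3 (R := _) (by assumption) ?_ ?_ ?_ | refine PD.app4 (R := _) (by assumption) ?_ ?_ ?_ ?_)))

theorem unc_funs {f X l : M} (hv : ∀ x, SetStr.mem x X → SetStr.mem (app f x) (funs om l)) :
    SetStr.mem (unc f X l) (funs (prod X om) l) ∧
      ∀ x n, SetStr.mem x X → SetStr.mem n om → app (unc f X l) (op x n) = app (app f x) n := by
  have key : ∀ x n y, SetStr.mem x X → SetStr.mem n om → (SetStr.mem (op (op x n) y) (unc f X l) ↔ y = app (app f x) n) := by
    intro x n y hx hn
    have h1 := mem_funs.1 (hv x hx)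
    rw [mem_unc, op_mem_prod, op_mem_prod]
    constructor
    · rintro ⟨_, x', n', y', he, hy'⟩
      rw [op_inj, op_inj] at he
      obtain ⟨⟨rfl, rfl⟩, rfl⟩ := he
      exact (h1.1.mem_iff.1 hy').2
    · rintro rfl
      exact ⟨⟨⟨hx, hn⟩, h1.2 n hn⟩, x, n, _, rfl, h1.1.app_mem hn⟩
  have hFn : Fn (unc f X l) (prod X om) := by
    constructor
    · intro z hz
      obtain ⟨h1, x, n, y, rfl, hy⟩ := mem_unc.1 hz
      rw [op_mem_prod] at h1
      exact ⟨_, h1.1, y, rfl⟩
    · intro z hz
      obtain ⟨x, hx, n, hn, rfl⟩ := mem_prod.1 hz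
      refine ⟨⟨_, (key x n _ hx hn).2 rfl⟩, fun y y' hy hy' => ?_⟩
      rw [(key x n y hx hn).1 hy, (key x n y' hx hn).1 hy']
  have hval : ∀ x n, SetStr.mem x X → SetStr.mem n om → app (unc f X l) (op x n) = app (app f x) n := by
    intro x n hx hn
    have := hFn.app_mem (op_mem_prod.2 ⟨hx, hn⟩)
    exact (key x n _ hx hn).1 this
  refine ⟨mem_funs.2 ⟨hFn, ?_⟩, hval⟩
  intro z hz
  obtain ⟨x, hx, n, hn, rfl⟩ := mem_prod.1 hz
  rw [hval x n hx hn]
  exact (mem_funs.1 (hv x hx)).2 n hn

/-- There is a surjection from omega to pairs of natural numbers. -/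
theorem exists_unpair : ∃ P Q : M, Fn P om ∧ Fn Q om ∧
    (∀ k, SetStr.mem k om → SetStr.mem (app P k) om ∧ SetStr.mem (app Q k) om) ∧
      ∀ a b, SetStr.mem a (om : M) → SetStr.mem b om → ∃ k, SetStr.mem k om ∧ app P k = a ∧ app Q k = b := by
  obtain ⟨f, hf1, hf2, hf3⟩ := le_om_prod (M := M)
  -- the first component of the preimage of `k`
  let A : M → M := fun k => sUn (sep om (fun a => ∃ b, SetStr.mem b om ∧ app f (op a b) = k))
  let B : M → M := fun k => sUn (sep om (fun b => ∃ a, SetStr.mem a om ∧ app f (op a b) = k))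
  have hA : PF (fun v : ℕ → M => A (v 0)) := by
    show PF (fun v : ℕ → M => sUn (sep om (fun a => ∃ b, SetStr.mem b om ∧ app f (op a b) = v 0)))
    (repeat' (with_reducible first | apply pf_hh | apply pd_Spr | apply pd_Inj | apply pf_har | apply pd_Le | apply pf_fins | apply pf_card | apply pd_Bij | apply pd_Fini | apply pd_Big | apply pd_Ord | apply pd_Tr | apply pd_Ind | apply pf_succ | apply pf_funs | apply pf_prod | apply pf_lam | apply pd_Fn | apply pf_app | apply pf_ran | apply pf_dom | apply PF.img | apply PF.pow | apply PD.sub | apply PF.adj | apply PF.un | apply PF.sUn | apply PF.op | apply PF.pr | apply PF.sep | exact PF.var _ | exact PF.const _ | apply PD.eq | apply PD.mem | apply PD.not | apply PD.iff | apply PD.or | apply PD.and | apply PD.imp | apply PD.ex | apply PD.all | exact PD.const _ | assumption | refine PF.comp1 (F := _) (by assumption) ?_ | refine PF.comp2 (F := _) (by assumption) ?_ ?_ | refine PF.comp3 (F := _) (by assumption) ?_ ?_ ?_ | refine PD.app1 (R := _) (by assumption) ?_ | refine PD.app2 (R :=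 _) (by assumption) ?_ ?_ | refine PD.app3 (R := _) (by assumption) ?_ ?_ ?_ | refine PD.app4 (R := _) (by assumption) ?_ ?_ ?_ ?_))
  have hB : PF (fun v : ℕ → M => B (v 0)) := by
    show PF (fun v : ℕ → M => sUn (sep om (fun b => ∃ a, SetStr.mem a om ∧ app f (op a b) = v 0)))
    (repeat' (with_reducible first | apply pf_hh | apply pd_Spr | apply pd_Inj | apply pf_har | apply pd_Le | apply pf_fins | apply pf_card | apply pd_Bij | apply pd_Fini | apply pd_Big | apply pd_Ord | apply pd_Tr | apply pd_Ind | apply pf_succ | apply pf_funs | apply pf_prod | apply pf_lam | apply pd_Fn | apply pf_app | apply pf_ran | apply pf_dom | apply PF.img | apply PF.pow | apply PD.sub | apply PF.adj | apply PF.un | apply PF.sUn | apply PF.op | apply PF.pr | apply PF.sep | exact PF.var _ | exact PF.const _ | apply PD.eq | apply PD.mem | apply PD.not | apply PD.iff | apply PD.or | apply PD.and | apply PD.imp | apply PD.ex | apply PD.all | exact PD.const _ | assumption | refine PF.comp1 (F := _) (by assumption) ?_ | refine PF.comp2 (F := _) (by assumption)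 ?_ ?_ | refine PF.comp3 (F := _) (by assumption) ?_ ?_ ?_ | refine PD.app1 (R := _) (by assumption) ?_ | refine PD.app2 (R := _) (by assumption) ?_ ?_ | refine PD.app3 (R := _) (by assumption) ?_ ?_ ?_ | refine PD.app4 (R := _) (by assumption) ?_ ?_ ?_ ?_))
  have hAv : ∀ a b, SetStr.mem a om → SetStr.mem b om → A (app f (op a b)) = a := by
    intro a b ha hb
    refine ext (fun z => ?_)
    show SetStr.mem z (sUn _) ↔ _
    rw [mem_sUn]
    constructor
    · rintro ⟨a', ha', hz⟩
      rw [mem_sep (by (repeat' (with_reducible first | apply pf_hh | apply pd_Spr | apply pd_Inj | apply pf_har | apply pd_Le | apply pf_fins | apply pf_card | apply pd_Bij | apply pd_Fini | apply pd_Big | apply pd_Ord | apply pd_Tr | apply pd_Ind | apply pf_succ | apply pf_funs | apply pf_prod | apply pf_lam | apply pd_Fn | apply pf_app | apply pf_ran | apply pf_dom | apply PF.img | apply PF.pow | apply PD.sub | apply PF.adj | apply PF.un | apply PF.sUn | apply PF.op | apply PF.pr | apply PF.sep | exact PF.var _ | exact PF.const _ | apply PD.eq | apply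 PD.mem | apply PD.not | apply PD.iff | apply PD.or | apply PD.and | apply PD.imp | apply PD.ex | apply PD.all | exact PD.const _ | assumption | refine PF.comp1 (F := _) (by assumption) ?_ | refine PF.comp2 (F := _) (by assumption) ?_ ?_ | refine PF.comp3 (F := _) (by assumption) ?_ ?_ ?_ | refine PD.app1 (R := _) (by assumption) ?_ | refine PD.app2 (R := _) (by assumption) ?_ ?_ | refine PD.app3 (R := _) (by assumption) ?_ ?_ ?_ | refine PD.app4 (R := _) (by assumption) ?_ ?_ ?_ ?_)))] at ha'
      obtain ⟨ha', b', hb', he⟩ := ha'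
      have := hf3 (op a' b') (op a b) (op_mem_prod.2 ⟨ha', hb'⟩) (op_mem_prod.2 ⟨ha, hb⟩) he
      rw [op_inj] at this
      rw [← this.1]
      exact hz
    · intro hz
      refine ⟨a, ?_, hz⟩
      rw [mem_sep (by (repeat' (with_reducible first | apply pf_hh | apply pd_Spr | apply pd_Inj | apply pf_har | apply pd_Le | apply pf_fins | apply pf_card | apply pd_Bij | apply pd_Fini | apply pd_Big | apply pd_Ord | apply pd_Tr | apply pd_Ind | apply pf_succ | apply pf_funs | apply pf_prod | apply pf_lam | apply pd_Fn | apply pf_app | apply pf_ran | apply pf_dom | apply PF.img | apply PF.pow | apply PD.sub | apply PF.adj | apply PF.un | apply PF.sUn | apply PF.op | apply PF.pr | apply PF.sep | exact PF.var _ | exact PF.const _ | apply PD.eq | apply PD.mem | apply PD.not | apply PD.iff | apply PD.or | apply PD.and | apply PD.imp | apply PD.ex | apply PD.all | exact PD.const _ | assumption | refine PF.comp1 (F := _) (by assumption) ?_ | refine PF.comp2 (F := _) (by assumption) ?_ ?_ | refine PF.comp3 (F := _) (by assumption) ?_ ?_ ?_ |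 refine PD.app1 (R := _) (by assumption) ?_ | refine PD.app2 (R := _) (by assumption) ?_ ?_ | refine PD.app3 (R := _) (by assumption) ?_ ?_ ?_ | refine PD.app4 (R := _) (by assumption) ?_ ?_ ?_ ?_)))]
      exact ⟨ha, b, hb, rfl⟩
  have hBv : ∀ a b, SetStr.mem a om → SetStr.mem b om → B (app f (op a b)) = b := by
    intro a b ha hb
    refine ext (fun z => ?_)
    show SetStr.mem z (sUn _) ↔ _
    rw [mem_sUn]
    constructor
    · rintro ⟨b', hb', hz⟩
      rw [mem_sep (by (repeat' (with_reducible first | apply pf_hh | apply pd_Spr | apply pd_Inj | apply pf_har | apply pd_Le | apply pf_fins | apply pf_card | apply pd_Bij | apply pd_Fini | apply pd_Big | apply pd_Ord | apply pd_Tr | apply pd_Ind | apply pf_succ | apply pf_funs | apply pf_prod | apply pf_lam | apply pd_Fn | apply pf_app | apply pf_ran | apply pf_dom | apply PF.img | apply PF.pow | apply PD.sub | apply PF.adj | apply PF.un | apply PF.sUn | apply PF.op | apply PF.pr | apply PF.sep | exact PF.var _ | exact PF.const _ | apply PD.eq | apply PD.mem | apply PD.not | apply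 PD.iff | apply PD.or | apply PD.and | apply PD.imp | apply PD.ex | apply PD.all | exact PD.const _ | assumption | refine PF.comp1 (F := _) (by assumption) ?_ | refine PF.comp2 (F := _) (by assumption) ?_ ?_ | refine PF.comp3 (F := _) (by assumption) ?_ ?_ ?_ | refine PD.app1 (R := _) (by assumption) ?_ | refine PD.app2 (R := _) (by assumption) ?_ ?_ | refine PD.app3 (R := _) (by assumption) ?_ ?_ ?_ | refine PD.app4 (R := _) (by assumption) ?_ ?_ ?_ ?_)))] at hb'
      obtain ⟨hb', a', ha', he⟩ := hb'
      have := hf3 (op a' b') (op a b) (op_mem_prod.2 ⟨ha', hb'⟩) (op_mem_prod.2 ⟨ha, hb⟩) he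
      rw [op_inj] at this
      rw [← this.2]
      exact hz
    · intro hz
      refine ⟨b, ?_, hz⟩
      rw [mem_sep (by (repeat' (with_reducible first | apply pf_hh | apply pd_Spr | apply pd_Inj | apply pf_har | apply pd_Le | apply pf_fins | apply pf_card | apply pd_Bij | apply pd_Fini | apply pd_Big | apply pd_Ord | apply pd_Tr | apply pd_Ind | apply pf_succ | apply pf_funs | apply pf_prod | apply pf_lam | apply pd_Fn | apply pf_app | apply pf_ran | apply pf_dom | apply PF.img | apply PF.pow | apply PD.sub | apply PF.adj | apply PF.un | apply PF.sUn | apply PF.op | apply PF.pr | apply PF.sep | exact PF.var _ | exact PF.const _ | apply PD.eq | apply PD.mem | apply PD.not | apply PD.iff | apply PD.or | apply PD.and | apply PD.imp | apply PD.ex | apply PD.all | exact PD.const _ | assumption | refine PF.comp1 (F := _) (by assumption) ?_ | refine PF.comp2 (F := _) (by assumption) ?_ ?_ | refine PF.comp3 (F := _) (by assumption) ?_ ?_ ?_ | refine PD.app1 (R := _) (by assumption) ?_ | refine PD.app2 (R := _) (by assumption) ?_ ?_ |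 refine PD.app3 (R := _) (by assumption) ?_ ?_ ?_ | refine PD.app4 (R := _) (by assumption) ?_ ?_ ?_ ?_)))]
      exact ⟨hb, a, ha, rfl⟩
  -- correct the values outside the range
  have hcut : ∀ F : M → M, PF (fun v => F (v 0)) →
      ∃ P : M, Fn P om ∧ (∀ k, SetStr.mem k om → SetStr.mem (app P k) om) ∧
        ∀ k, SetStr.mem k om → SetStr.mem (F k) om → app P k = F k := by
    intro F hF
    let C : M → M := fun k => sUn (sep om (fun z => SetStr.mem (F k) om ∧ z = F k))
    have hC : PF (fun v : ℕ → M => C (v 0)) := by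
      show PF (fun v : ℕ → M => sUn (sep om (fun z => SetStr.mem (F (v 0)) om ∧ z = F (v 0))))
      (repeat' (with_reducible first | apply pf_hh | apply pd_Spr | apply pd_Inj | apply pf_har | apply pd_Le | apply pf_fins | apply pf_card | apply pd_Bij | apply pd_Fini | apply pd_Big | apply pd_Ord | apply pd_Tr | apply pd_Ind | apply pf_succ | apply pf_funs | apply pf_prod | apply pf_lam | apply pd_Fn | apply pf_app | apply pf_ran | apply pf_dom | apply PF.img | apply PF.pow | apply PD.sub | apply PF.adj | apply PF.un | apply PF.sUn | apply PF.op | apply PF.pr | apply PF.sep | exact PF.var _ | exact PF.const _ | apply PD.eq | apply PD.mem | apply PD.not | apply PD.iff | apply PD.or | apply PD.and | apply PD.imp | apply PD.ex | apply PD.all | exact PD.const _ | assumption | refine PF.comp1 (F := _) (by assumption) ?_ | refine PF.comp2 (F := _) (by assumption) ?_ ?_ | refine PF.comp3 (F := _) (by assumption) ?_ ?_ ?_ | refine PD.app1 (R := _) (by assumption) ?_ | refine PD.app2 (R := _) (by assumption) ?_ ?_ | refine PD.app3 (R := _)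 (by assumption) ?_ ?_ ?_ | refine PD.app4 (R := _) (by assumption) ?_ ?_ ?_ ?_))
    have hC1 : ∀ k, SetStr.mem (F k) om → C k = F k := by
      intro k hk
      refine ext (fun z => ?_)
      show SetStr.mem z (sUn _) ↔ _
      rw [mem_sUn]
      constructor
      · rintro ⟨y, hy, hz⟩
        rw [mem_sep (by (repeat' (with_reducible first | apply pf_hh | apply pd_Spr | apply pd_Inj | apply pf_har | apply pd_Le | apply pf_fins | apply pf_card | apply pd_Bij | apply pd_Fini | apply pd_Big | apply pd_Ord | apply pd_Tr | apply pd_Ind | apply pf_succ | apply pf_funs | apply pf_prod | apply pf_lam | apply pd_Fn | apply pf_app | apply pf_ran | apply pf_dom | apply PF.img | apply PF.pow | apply PD.sub | apply PF.adj | apply PF.un | apply PF.sUn | apply PF.op | apply PF.pr | apply PF.sep | exact PF.var _ | exact PF.const _ | apply PD.eq | apply PD.mem | apply PD.not | apply PD.iff | apply PD.or | apply PD.and | apply PD.imp | apply PD.ex | apply PD.all | exact PD.const _ | assumption | refine PF.comp1 (F := _) (by assumption) ?_ | refine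 PF.comp2 (F := _) (by assumption) ?_ ?_ | refine PF.comp3 (F := _) (by assumption) ?_ ?_ ?_ | refine PD.app1 (R := _) (by assumption) ?_ | refine PD.app2 (R := _) (by assumption) ?_ ?_ | refine PD.app3 (R := _) (by assumption) ?_ ?_ ?_ | refine PD.app4 (R := _) (by assumption) ?_ ?_ ?_ ?_)))] at hy
        rw [← hy.2.2]
        exact hz
      · intro hz
        refine ⟨F k, ?_, hz⟩
        rw [mem_sep (by (repeat' (with_reducible first | apply pf_hh | apply pd_Spr | apply pd_Inj | apply pf_har | apply pd_Le | apply pf_fins | apply pf_card | apply pd_Bij | apply pd_Fini | apply pd_Big | apply pd_Ord | apply pd_Tr | apply pd_Ind | apply pf_succ | apply pf_funs | apply pf_prod | apply pf_lam | apply pd_Fn | apply pf_app | apply pf_ran | apply pf_dom | apply PF.img | apply PF.pow | apply PD.sub | apply PF.adj | apply PF.un | apply PF.sUn | apply PF.op | apply PF.pr | apply PF.sep | exact PF.var _ | exact PF.const _ | apply PD.eq | apply PD.mem | apply PD.not | apply PD.iff | apply PD.or | apply PD.and | apply PD.imp | apply PD.ex | apply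 PD.all | exact PD.const _ | assumption | refine PF.comp1 (F := _) (by assumption) ?_ | refine PF.comp2 (F := _) (by assumption) ?_ ?_ | refine PF.comp3 (F := _) (by assumption) ?_ ?_ ?_ | refine PD.app1 (R := _) (by assumption) ?_ | refine PD.app2 (R := _) (by assumption) ?_ ?_ | refine PD.app3 (R := _) (by assumption) ?_ ?_ ?_ | refine PD.app4 (R := _) (by assumption) ?_ ?_ ?_ ?_)))]
        exact ⟨hk, hk, rfl⟩
    have hC2 : ∀ k, ¬ SetStr.mem (F k) om → C k = emp := by
      intro k hk
      refine ext (fun z => ?_)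
      show SetStr.mem z (sUn _) ↔ _
      rw [mem_sUn]
      constructor
      · rintro ⟨y, hy, hz⟩
        rw [mem_sep (by (repeat' (with_reducible first | apply pf_hh | apply pd_Spr | apply pd_Inj | apply pf_har | apply pd_Le | apply pf_fins | apply pf_card | apply pd_Bij | apply pd_Fini | apply pd_Big | apply pd_Ord | apply pd_Tr | apply pd_Ind | apply pf_succ | apply pf_funs | apply pf_prod | apply pf_lam | apply pd_Fn | apply pf_app | apply pf_ran | apply pf_dom | apply PF.img | apply PF.pow | apply PD.sub | apply PF.adj | apply PF.un | apply PF.sUn | apply PF.op | apply PF.pr | apply PF.sep | exact PF.var _ | exact PF.const _ | apply PD.eq | apply PD.mem | apply PD.not | apply PD.iff | apply PD.or | apply PD.and | apply PD.imp | apply PD.ex | apply PD.all | exact PD.const _ | assumption | refine PF.comp1 (F := _) (by assumption) ?_ | refine PF.comp2 (F := _) (by assumption) ?_ ?_ | refine PF.comp3 (F := _) (by assumption) ?_ ?_ ?_ | refine PD.app1 (R := _) (by assumption) ?_ | refine PD.app2 (R := _) (by assumption) ?_ ?_ |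 refine PD.app3 (R := _) (by assumption) ?_ ?_ ?_ | refine PD.app4 (R := _) (by assumption) ?_ ?_ ?_ ?_)))] at hy
        exact (hk hy.2.1).elim
      · intro hz
        exact (not_mem_emp z hz).elim
    refine ⟨lam C om, lam_Fn hC _, fun k hk => ?_, fun k hk hFk => ?_⟩
    · rw [app_lam hC hk]
      by_cases h : SetStr.mem (F k) om
      · rw [hC1 k h]
        exact h
      · rw [hC2 k h]
        exact emp_mem_om
    · rw [app_lam hC hk, hC1 k hFk]
  obtain ⟨P, hP1, hP2, hP3⟩ := hcut A hA
  obtain ⟨Q, hQ1, hQ2, hQ3⟩ := hcut B hB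
  refine ⟨P, Q, hP1, hQ1, fun k hk => ⟨hP2 k hk, hQ2 k hk⟩, fun a b ha hb => ?_⟩
  have hk := hf2 _ (op_mem_prod.2 ⟨ha, hb⟩)
  refine ⟨_, hk, ?_, ?_⟩
  · rw [hP3 _ hk (by rw [hAv a b ha hb]; exact ha), hAv a b ha hb]
  · rw [hQ3 _ hk (by rw [hBv a b ha hb]; exact hb), hBv a b ha hb]

/-- The covering property for single functions gives the one for families of sequences. -/
theorem Cov1.cov (h : EndExt j) (hc : Cov1 j) : Cov j := by
  intro X l f hl hf hv
  have hv' : ∀ x, SetStr.mem x (j X) → SetStr.mem (app f x) (funs om (j l)) := by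
    rw [h.forall_mem]
    exact hv
  obtain ⟨hu, hu2⟩ := unc_funs hv'
  have hp : j (prod X (om : M)) = prod (j X) om := by
    refine h.eq_of (fun z hz => ?_) (fun z hz => ?_)
    · obtain ⟨x, hx, n, hn, rfl⟩ := mem_prod.1 hz
      rw [h.op, op_mem_prod, h.mem_iff, ← h.om, h.mem_iff]
      exact ⟨hx, hn⟩
    · obtain ⟨x, hx, n, hn, rfl⟩ := mem_prod.1 hz
      obtain ⟨x, hx1, rfl⟩ := h.tr _ _ hx
      rw [← h.om] at hn
      obtain ⟨n, hn1, rfl⟩ := h.tr _ _ hn
      exact ⟨op x n, op_mem_prod.2 ⟨hx1, hn1⟩, (h.op _ _).symm⟩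
  obtain ⟨E, hE1, hE2, hE3⟩ := hc (prod X om) l (unc f (j X) (j l)) hl (by rw [hp]; exact hu)
  obtain ⟨P, Q, hP, hQ, hPQ, hPQ2⟩ := exists_unpair (M := M)
  let F : M → M := fun x => lam (fun k => app (app E (op x (app P k))) (app Q k)) om
  have hF : PF (fun v : ℕ → M => F (v 0)) := by
    show PF (fun v : ℕ → M => lam (fun k => app (app E (op (v 0) (app P k))) (app Q k)) om)
    (repeat' (with_reducible first | apply pf_hh | apply pd_Spr | apply pd_Inj | apply pf_har | apply pd_Le | apply pf_fins | apply pf_card | apply pd_Bij | apply pd_Fini | apply pd_Big | apply pd_Ord | apply pd_Tr | apply pd_Ind | apply pf_succ | apply pf_funs | apply pf_prod | apply pf_lam | apply pd_Fn | apply pf_app | apply pf_ran | apply pf_dom | apply PF.img | apply PF.pow | apply PD.sub | apply PF.adj | apply PF.un | apply PF.sUn | apply PF.op | apply PF.pr | apply PF.sep | exact PF.var _ | exact PF.const _ | apply PD.eq | apply PD.mem | apply PD.not | apply PD.iff | apply PD.or | apply PD.and | apply PD.imp | apply PD.ex | apply PD.all | exact PD.const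 _ | assumption | refine PF.comp1 (F := _) (by assumption) ?_ | refine PF.comp2 (F := _) (by assumption) ?_ ?_ | refine PF.comp3 (F := _) (by assumption) ?_ ?_ ?_ | refine PD.app1 (R := _) (by assumption) ?_ | refine PD.app2 (R := _) (by assumption) ?_ ?_ | refine PD.app3 (R := _) (by assumption) ?_ ?_ ?_ | refine PD.app4 (R := _) (by assumption) ?_ ?_ ?_ ?_))
  have hFv : ∀ x, SetStr.mem x X → SetStr.mem (F x) (funs om l) := by
    intro x hx
    refine mem_funs.2 ⟨lam_Fn (by (repeat' (with_reducible first | apply pf_hh | apply pd_Spr | apply pd_Inj | apply pf_har | apply pd_Le | apply pf_fins | apply pf_card | apply pd_Bij | apply pd_Fini | apply pd_Big | apply pd_Ord | apply pd_Tr | apply pd_Ind | apply pf_succ | apply pf_funs | apply pf_prod | apply pf_lam | apply pd_Fn | apply pf_app | apply pf_ran | apply pf_dom | apply PF.img | apply PF.pow | apply PD.sub | apply PF.adj | apply PF.un | apply PF.sUn | apply PF.op | apply PF.pr | apply PF.sep | exact PF.var _ | exact PF.const _ | apply PD.eq | apply PD.mem | apply PD.not | apply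 PD.iff | apply PD.or | apply PD.and | apply PD.imp | apply PD.ex | apply PD.all | exact PD.const _ | assumption | refine PF.comp1 (F := _) (by assumption) ?_ | refine PF.comp2 (F := _) (by assumption) ?_ ?_ | refine PF.comp3 (F := _) (by assumption) ?_ ?_ ?_ | refine PD.app1 (R := _) (by assumption) ?_ | refine PD.app2 (R := _) (by assumption) ?_ ?_ | refine PD.app3 (R := _) (by assumption) ?_ ?_ ?_ | refine PD.app4 (R := _) (by assumption) ?_ ?_ ?_ ?_))) _, fun k hk => ?_⟩
    show SetStr.mem (app (lam _ om) k) l
    rw [app_lam (by (repeat' (with_reducible first | apply pf_hh | apply pd_Spr | apply pd_Inj | apply pf_har | apply pd_Le | apply pf_fins | apply pf_card | apply pd_Bij | apply pd_Fini | apply pd_Big | apply pd_Ord | apply pd_Tr | apply pd_Ind | apply pf_succ | apply pf_funs | apply pf_prod | apply pf_lam | apply pd_Fn | apply pf_app | apply pf_ran | apply pf_dom | apply PF.img | apply PF.pow | apply PD.sub | apply PF.adj | apply PF.un | apply PF.sUn | apply PF.op | apply PF.pr | apply PF.sep | exact PF.var _ | exact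 PF.const _ | apply PD.eq | apply PD.mem | apply PD.not | apply PD.iff | apply PD.or | apply PD.and | apply PD.imp | apply PD.ex | apply PD.all | exact PD.const _ | assumption | refine PF.comp1 (F := _) (by assumption) ?_ | refine PF.comp2 (F := _) (by assumption) ?_ ?_ | refine PF.comp3 (F := _) (by assumption) ?_ ?_ ?_ | refine PD.app1 (R := _) (by assumption) ?_ | refine PD.app2 (R := _) (by assumption) ?_ ?_ | refine PD.app3 (R := _) (by assumption) ?_ ?_ ?_ | refine PD.app4 (R := _) (by assumption) ?_ ?_ ?_ ?_))) hk]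
    exact (mem_funs.1 (hE2 _ (op_mem_prod.2 ⟨hx, (hPQ k hk).1⟩))).2 _ (hPQ k hk).2
  refine ⟨lam F X, lam_Fn hF X, fun x hx => ?_, fun x hx => ?_⟩
  · rw [app_lam hF hx]
    exact hFv x hx
  · rw [app_lam hF hx]
    have h1 := mem_funs.1 (hv x hx)
    intro z hz
    rw [h1.1.mem_ran] at hz
    obtain ⟨n', hn', rfl⟩ := hz
    have hn'' := hn'
    rw [← h.om] at hn''
    obtain ⟨n, hn, rfl⟩ := h.tr _ _ hn''
    have h2 := hE3 (op x n) (op_mem_prod.2 ⟨hx, hn⟩)
    rw [h.op, hu2 _ _ ((h.mem_iff _ _).2 hx) hn'] at h2
    rw [← h.ran] at h2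
    obtain ⟨y, hy, hy'⟩ := h.tr _ _ h2
    rw [hy', ← h.ran, h.mem_iff]
    obtain ⟨m, hm, rfl⟩ := (mem_funs.1 (hE2 _ (op_mem_prod.2 ⟨hx, hn⟩))).1.mem_ran.1 hy
    obtain ⟨k, hk, hkP, hkQ⟩ := hPQ2 n m hn hm
    rw [(mem_funs.1 (hFv x hx)).1.mem_ran]
    refine ⟨k, hk, ?_⟩
    show _ = app (lam _ om) k
    rw [app_lam (by (repeat' (with_reducible first | apply pf_hh | apply pd_Spr | apply pd_Inj | apply pf_har | apply pd_Le | apply pf_fins | apply pf_card | apply pd_Bij | apply pd_Fini | apply pd_Big | apply pd_Ord | apply pd_Tr | apply pd_Ind | apply pf_succ | apply pf_funs | apply pf_prod | apply pf_lam | apply pd_Fn | apply pf_app | apply pf_ran | apply pf_dom | apply PF.img | apply PF.pow | apply PD.sub | apply PF.adj | apply PF.un | apply PF.sUn | apply PF.op | apply PF.pr | apply PF.sep | exact PF.var _ | exact PF.const _ | apply PD.eq | apply PD.mem | apply PD.not | apply PD.iff | apply PD.or | apply PD.and | apply PD.imp | apply PD.ex | apply PD.all | exact PD.const _ | assumption | refine PF.comp1 (F := _) (by assumption)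 ?_ | refine PF.comp2 (F := _) (by assumption) ?_ ?_ | refine PF.comp3 (F := _) (by assumption) ?_ ?_ ?_ | refine PD.app1 (R := _) (by assumption) ?_ | refine PD.app2 (R := _) (by assumption) ?_ ?_ | refine PD.app3 (R := _) (by assumption) ?_ ?_ ?_ | refine PD.app4 (R := _) (by assumption) ?_ ?_ ?_ ?_))) hk, hkP, hkQ]

end GA
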