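import Pool.Agent.GA.Chk
import Pool.Agent.GA.Pair2
import Pool.Agent.GA.FName

/-!
# Functions of `M[G]` and function names; the transfer hypotheses for `M[G]`
-/

universe u

namespace GA

variable {M : Type u} [SetStr M] [IsZF M] {P L o : M} {G : Set M}

/-- `M[G]` is an end extension of `M` with the same ordinals. -/
theorem jj_ext (hG : IsGeneric P L o G) [IsZF (Ext hG)] : EndExt (jj hG) where
  mem_iff := fun _ _ => jj_mem hG
  tr := fun _ _ hz => jj_trans hG hz
  ord := fun _ hz => by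
    obtain ⟨x, -, hx⟩ := ord_eq_jj hG hz
    exact ⟨x, hx⟩

/-- Every function of `M[G]` between sets of `M` is given by a function name. -/
theorem exists_fname (hG : IsGeneric P L o G) [IsZF (Ext hG)] {X Lam : M} {f : Ext hG}
    (hf : SetStr.mem f (funs (jj hG X) (jj hG Lam))) :
    ∃ p0 A, p0 ∈ G ∧ FName P L p0 X Lam A ∧
      ∀ x ξ, SetStr.mem x X → (app f (jj hG x) = jj hG ξ ↔ ∃ p, p ∈ G ∧ SetStr.mem (op p (op x ξ)) A) := by
  have hF := hG.forcing
  have hE := jj_ext hG
  rw [mem_funs] at hf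
  obtain ⟨hf1, hf2⟩ := hf
  obtain ⟨τ, rfl⟩ := val_surj hG f
  have hmem : ∀ x ξ, SetStr.mem (op (jj hG x) (jj hG ξ)) (val hG τ) ↔
      ∃ p, p ∈ G ∧ Fmem L p (chk o (op x ξ)) τ := by
    intro x ξ
    rw [← hE.op]
    exact val_mem
  have hval : ∀ x ξ, SetStr.mem x X → (app (val hG τ) (jj hG x) = jj hG ξ ↔
      ∃ p, p ∈ G ∧ Fmem L p (chk o (op x ξ)) τ) := by
    intro x ξ hx
    rw [← hmem, hf1.mem_iff, jj_mem hG]
    exact ⟨fun h => ⟨hx, h.symm⟩, fun h => h.2.symm⟩
  let Bad : M → Prop := fun q =>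
    (∃ x ξ η, SetStr.mem x X ∧ ξ ≠ η ∧ Fmem L q (chk o (op x ξ)) τ ∧ Fmem L q (chk o (op x η)) τ) ∨
      ∃ x, SetStr.mem x X ∧ ∀ r ξ, SetStr.mem (op r q) L → SetStr.mem ξ Lam → ¬ Fmem L r (chk o (op x ξ)) τ
  have hBad : PD (fun v : ℕ → M => Bad (v 0)) := by
    show PD (fun v : ℕ → M =>
      (∃ x ξ η, SetStr.mem x X ∧ ξ ≠ η ∧ Fmem L (v 0) (chk o (op x ξ)) τ ∧
        Fmem L (v 0) (chk o (op x η)) τ) ∨
      ∃ x, SetStr.mem x X ∧ ∀ r ξ, SetStr.mem (op r (v 0)) L → SetStr.mem ξ Lam → ¬ Fmem L r (chk o (op x ξ)) τ)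
    unfold Ne
    (repeat' (with_reducible first | apply pd_WOd | apply pf_pfin | apply pd_Fun1 | apply pf_hh | apply pd_Spr | apply pd_Inj | apply pf_har | apply pd_Le | apply pf_fins | apply pf_card | apply pd_Bij | apply pd_Fini | apply pf_chk | apply pd_Big | apply pd_Ord | apply pd_Fmem | apply pd_Feq | apply pd_Tr | apply pd_Ind | apply pf_succ | apply pf_funs | apply pf_prod | apply pf_lam | apply pd_Fn | apply pf_app | apply pf_ran | apply pf_dom | apply PF.img | apply PF.pow | apply PD.sub | apply PF.adj | apply PF.un | apply PF.sUn | apply PF.op | apply PF.pr | apply PF.sep | exact PF.var _ | exact PF.const _ | apply PD.eq | apply PD.mem | apply PD.not | apply PD.iff | apply PD.or | apply PD.and | apply PD.imp | apply PD.ex | apply PD.all | exact PD.const _ | assumption | refine PF.comp1 (F := _) (by assumption) ?_ | refine PF.comp2 (F := _) (by assumption) ?_ ?_ | refine PF.comp3 (F := _) (by assumption) ?_ ?_ ?_ | refine PD.app1 (R := _) (by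 assumption) ?_ | refine PD.app2 (R := _) (by assumption) ?_ ?_ | refine PD.app3 (R := _) (by assumption) ?_ ?_ ?_ | refine PD.app4 (R := _) (by assumption) ?_ ?_ ?_ ?_))
  have hGBad : ∀ q, q ∈ G → ¬ Bad q := by
    rintro q hq (⟨x, ξ, η, hx, hne, h1, h2⟩ | ⟨x, hx, h⟩)
    · have e1 := (hval x ξ hx).2 ⟨q, hq, h1⟩
      have e2 := (hval x η hx).2 ⟨q, hq, h2⟩
      rw [e1] at e2
      exact hne ((jj_inj hG).1 e2)
    · obtain ⟨ξ, hξ, h1⟩ := jj_trans hG (hf2 (jj hG x) ((jj_mem hG).2 hx))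
      obtain ⟨p, hp, h2⟩ := (hval x ξ hx).1 h1
      obtain ⟨r, hr, h3, h4⟩ := hG.dir p q hp hq
      exact h r ξ h4 hξ (h2.mono hF h3)
  obtain ⟨p0, hp0, hp0'⟩ := hG.meets (fun p => Bad p ∨ ∀ q, SetStr.mem (op q p) L → ¬ Bad q)
    (PD.or hBad (PD.all (PD.imp (by (repeat' (with_reducible first | apply pd_WOd | apply pf_pfin | apply pd_Fun1 | apply pf_hh | apply pd_Spr | apply pd_Inj | apply pf_har | apply pd_Le | apply pf_fins | apply pf_card | apply pd_Bij | apply pd_Fini | apply pf_chk | apply pd_Big | apply pd_Ord | apply pd_Fmem | apply pd_Feq | apply pd_Tr | apply pd_Ind | apply pf_succ | apply pf_funs | apply pf_prod | apply pf_lam | apply pd_Fn | apply pf_app | apply pf_ran | apply pf_dom | apply PF.img | apply PF.pow | apply PD.sub | apply PF.adj | apply PF.un | apply PF.sUn | apply PF.op | apply PF.pr | apply PF.sep | exact PF.var _ | exact PF.const _ | apply PD.eq | apply PD.mem | apply PD.not | apply PD.iff | apply PD.or | apply PD.and | apply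 PD.imp | apply PD.ex | apply PD.all | exact PD.const _ | assumption | refine PF.comp1 (F := _) (by assumption) ?_ | refine PF.comp2 (F := _) (by assumption) ?_ ?_ | refine PF.comp3 (F := _) (by assumption) ?_ ?_ ?_ | refine PD.app1 (R := _) (by assumption) ?_ | refine PD.app2 (R := _) (by assumption) ?_ ?_ | refine PD.app3 (R := _) (by assumption) ?_ ?_ ?_ | refine PD.app4 (R := _) (by assumption) ?_ ?_ ?_ ?_))) (PD.not (PD.app1 (R := Bad) hBad (PF.var 0)))))) (by
      intro p hp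
      by_cases h : ∃ q, SetStr.mem (op q p) L ∧ Bad q
      · obtain ⟨q, hq, h⟩ := h
        exact ⟨q, hq, Or.inl h⟩
      · push Not at h
        exact ⟨p, hF.refl p hp, Or.inr h⟩)
  have hgood : ∀ q, SetStr.mem (op q p0) L → ¬ Bad q := by
    rcases hp0' with h | h
    · exact (hGBad p0 hp0 h).elim
    · exact h
  let A : M := sep (prod P (prod X Lam)) (fun z => ∃ p x ξ, z = op p (op x ξ) ∧ SetStr.mem (op p p0) L ∧
    Fmem L p (chk o (op x ξ)) τ)
  have hA : ∀ p x ξ, SetStr.mem (op p (op x ξ)) A ↔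
      SetStr.mem x X ∧ SetStr.mem ξ Lam ∧ SetStr.mem (op p p0) L ∧ Fmem L p (chk o (op x ξ)) τ := by
    intro p x ξ
    show SetStr.mem (op p (op x ξ)) (sep _ _) ↔ _
    rw [mem_sep (by (repeat' (with_reducible first | apply pd_WOd | apply pf_pfin | apply pd_Fun1 | apply pf_hh | apply pd_Spr | apply pd_Inj | apply pf_har | apply pd_Le | apply pf_fins | apply pf_card | apply pd_Bij | apply pd_Fini | apply pf_chk | apply pd_Big | apply pd_Ord | apply pd_Fmem | apply pd_Feq | apply pd_Tr | apply pd_Ind | apply pf_succ | apply pf_funs | apply pf_prod | apply pf_lam | apply pd_Fn | apply pf_app | apply pf_ran | apply pf_dom | apply PF.img | apply PF.pow | apply PD.sub | apply PF.adj | apply PF.un | apply PF.sUn | apply PF.op | apply PF.pr | apply PF.sep | exact PF.var _ | exact PF.const _ | apply PD.eq | apply PD.mem | apply PD.not | apply PD.iff | apply PD.or | apply PD.and | apply PD.imp | apply PD.ex | apply PD.all | exact PD.const _ | assumption | refine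 PF.comp1 (F := _) (by assumption) ?_ | refine PF.comp2 (F := _) (by assumption) ?_ ?_ | refine PF.comp3 (F := _) (by assumption) ?_ ?_ ?_ | refine PD.app1 (R := _) (by assumption) ?_ | refine PD.app2 (R := _) (by assumption) ?_ ?_ | refine PD.app3 (R := _) (by assumption) ?_ ?_ ?_ | refine PD.app4 (R := _) (by assumption) ?_ ?_ ?_ ?_))), op_mem_prod, op_mem_prod]
    constructor
    · rintro ⟨⟨h1, h2, h3⟩, p', x', ξ', h4, h5, h6⟩
      simp only [op_inj] at h4
      obtain ⟨rfl, rfl, rfl⟩ := h4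
      exact ⟨h2, h3, h5, h6⟩
    · rintro ⟨h1, h2, h3, h4⟩
      exact ⟨⟨(hF.fld _ _ h3).1, h1, h2⟩, p, x, ξ, rfl, h3, h4⟩
  refine ⟨p0, A, hp0, ⟨hG.sub p0 hp0, ?_, ?_, ?_, ?_, ?_⟩, ?_⟩
  · intro p x ξ h
    rw [hA] at h
    exact ⟨h.2.2.1, h.1, h.2.1⟩
  · intro p q x ξ h hq
    rw [hA] at h ⊢
    exact ⟨h.1, h.2.1, hF.trans _ _ _ hq h.2.2.1, h.2.2.2.mono hF hq⟩
  · intro p x ξ hp h
    obtain ⟨r, -, hr⟩ := h p (hF.refl p (hF.fld _ _ hp).1)
    rw [hA] at hr ⊢
    refine ⟨hr.1, hr.2.1, hp, Fmem.dense hF (fun q hq => ?_)⟩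
    obtain ⟨r', h1, h2⟩ := h q hq
    exact ⟨r', h1, ((hA _ _ _).1 h2).2.2.2⟩
  · intro p x ξ η h1 h2
    rw [hA] at h1 h2
    by_contra hne
    exact hgood p h1.2.2.1 (Or.inl ⟨x, ξ, η, h1.1, hne, h1.2.2.2, h2.2.2.2⟩)
  · intro p x hp hx
    by_contra hcon
    refine hgood p hp (Or.inr ⟨x, hx, fun r ξ hr hξ h => hcon ⟨r, ξ, hr, ?_⟩⟩)
    rw [hA]
    exact ⟨hx, hξ, hF.trans _ _ _ hr hp, h⟩
  · intro x ξ hx
    rw [hval x ξ hx]
    constructor
    · rintro ⟨p, hp, h⟩
      obtain ⟨r, hr, h1, h2⟩ := hG.dir p p0 hp hp0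
      refine ⟨r, hr, (hA _ _ _).2 ⟨hx, ?_, h2, h.mono hF h1⟩⟩
      have h3 := (hval x ξ hx).2 ⟨p, hp, h⟩
      have h4 := hf2 (jj hG x) ((jj_mem hG).2 hx)
      rw [h3, jj_mem hG] at h4
      exact h4
    · rintro ⟨p, hp, h⟩
      exact ⟨p, hp, ((hA _ _ _).1 h).2.2.2⟩

/-- Every function name below a condition in `G` gives a function of `M[G]`. -/
theorem exists_fun_of_fname (hG : IsGeneric P L o G) [IsZF (Ext hG)] {X Lam p0 A : M}
    (hA : FName P L p0 X Lam A) (hp0 : p0 ∈ G) :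
    ∃ f : Ext hG, SetStr.mem f (funs (jj hG X) (jj hG Lam)) ∧
      ∀ x ξ, SetStr.mem x X → (app f (jj hG x) = jj hG ξ ↔ ∃ p, p ∈ G ∧ SetStr.mem (op p (op x ξ)) A) := by
  have hF := hG.forcing
  have hE := jj_ext hG
  let B : M := sep (prod (prod X Lam) P) (fun z => ∃ p x ξ, z = op (op x ξ) p ∧ SetStr.mem (op p (op x ξ)) A)
  have hB : ∀ u p, SetStr.mem (op u p) B ↔ ∃ x ξ, u = op x ξ ∧ SetStr.mem (op p (op x ξ)) A := by
    intro u p
    show SetStr.mem (op u p) (sep _ _) ↔ _
    rw [mem_sep (by (repeat' (with_reducible first | apply pd_WOd | apply pf_pfin | apply pd_Fun1 | apply pf_hh | apply pd_Spr | apply pd_Inj | apply pf_har | apply pd_Le | apply pf_fins | apply pf_card | apply pd_Bij | apply pd_Fini | apply pf_chk | apply pd_Big | apply pd_Ord | apply pd_Fmem | apply pd_Feq | apply pd_Tr | apply pd_Ind | apply pf_succ | apply pf_funs | apply pf_prod | apply pf_lam | apply pd_Fn | apply pf_app | apply pf_ran | apply pf_dom | apply PF.img | apply PF.pow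 | apply PD.sub | apply PF.adj | apply PF.un | apply PF.sUn | apply PF.op | apply PF.pr | apply PF.sep | exact PF.var _ | exact PF.const _ | apply PD.eq | apply PD.mem | apply PD.not | apply PD.iff | apply PD.or | apply PD.and | apply PD.imp | apply PD.ex | apply PD.all | exact PD.const _ | assumption | refine PF.comp1 (F := _) (by assumption) ?_ | refine PF.comp2 (F := _) (by assumption) ?_ ?_ | refine PF.comp3 (F := _) (by assumption) ?_ ?_ ?_ | refine PD.app1 (R := _) (by assumption) ?_ | refine PD.app2 (R := _) (by assumption) ?_ ?_ | refine PD.app3 (R := _) (by assumption) ?_ ?_ ?_ | refine PD.app4 (R := _) (by assumption) ?_ ?_ ?_ ?_))), op_mem_prod]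
    constructor
    · rintro ⟨-, p', x', ξ', h4, h5⟩
      simp only [op_inj] at h4
      obtain ⟨rfl, rfl⟩ := h4
      exact ⟨x', ξ', rfl, h5⟩
    · rintro ⟨x, ξ, rfl, h⟩
      obtain ⟨h1, h2, h3⟩ := hA.fld _ _ _ h
      exact ⟨⟨op_mem_prod.2 ⟨h2, h3⟩, (hF.fld _ _ h1).1⟩, p, x, ξ, rfl, h⟩
  have hmem : ∀ y, SetStr.mem y (val hG (nm o B)) ↔
      ∃ x ξ p, y = op (jj hG x) (jj hG ξ) ∧ p ∈ G ∧ SetStr.mem (op p (op x ξ)) A := by
    intro y
    rw [mem_val_nm]
    constructor
    · rintro ⟨u, p, h1, h2, rfl⟩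
      obtain ⟨x, ξ, rfl, h3⟩ := (hB _ _).1 h1
      exact ⟨x, ξ, p, hE.op x ξ, h2, h3⟩
    · rintro ⟨x, ξ, p, rfl, h2, h3⟩
      exact ⟨op x ξ, p, (hB _ _).2 ⟨x, ξ, rfl, h3⟩, h2, (hE.op x ξ).symm⟩
  have hmem' : ∀ x ξ, SetStr.mem (op (jj hG x) (jj hG ξ)) (val hG (nm o B)) ↔
      ∃ p, p ∈ G ∧ SetStr.mem (op p (op x ξ)) A := by
    intro x ξ
    rw [hmem]
    constructor
    · rintro ⟨x', ξ', p, h1, h2, h3⟩
      rw [op_inj, jj_inj hG, jj_inj hG] at h1
      obtain ⟨rfl, rfl⟩ := h1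
      exact ⟨p, h2, h3⟩
    · rintro ⟨p, h2, h3⟩
      exact ⟨x, ξ, p, rfl, h2, h3⟩
  have htot : ∀ x, SetStr.mem x X → ∃ ξ p, p ∈ G ∧ SetStr.mem (op p (op x ξ)) A := by
    intro x hx
    obtain ⟨r, hr, -, ξ, h⟩ := hG.meets_below (D := fun q => ∃ ξ, SetStr.mem (op q (op x ξ)) A) (by (repeat' (with_reducible first | apply pd_WOd | apply pf_pfin | apply pd_Fun1 | apply pf_hh | apply pd_Spr | apply pd_Inj | apply pf_har | apply pd_Le | apply pf_fins | apply pf_card | apply pd_Bij | apply pd_Fini | apply pf_chk | apply pd_Big | apply pd_Ord | apply pd_Fmem | apply pd_Feq | apply pd_Tr | apply pd_Ind | apply pf_succ | apply pf_funs | apply pf_prod | apply pf_lam | apply pd_Fn | apply pf_app | apply pf_ran | apply pf_dom | apply PF.img | apply PF.pow | apply PD.sub | apply PF.adj | apply PF.un | apply PF.sUn | apply PF.op | apply PF.pr | apply PF.sep | exact PF.var _ | exact PF.const _ | apply PD.eq | apply PD.mem | apply PD.not | apply PD.iff | apply PD.or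 | apply PD.and | apply PD.imp | apply PD.ex | apply PD.all | exact PD.const _ | assumption | refine PF.comp1 (F := _) (by assumption) ?_ | refine PF.comp2 (F := _) (by assumption) ?_ ?_ | refine PF.comp3 (F := _) (by assumption) ?_ ?_ ?_ | refine PD.app1 (R := _) (by assumption) ?_ | refine PD.app2 (R := _) (by assumption) ?_ ?_ | refine PD.app3 (R := _) (by assumption) ?_ ?_ ?_ | refine PD.app4 (R := _) (by assumption) ?_ ?_ ?_ ?_))) hp0
      (by
        intro q hq
        obtain ⟨r, ξ, h1, h2⟩ := hA.tot q x hq hx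
        exact ⟨r, h1, ξ, h2⟩)
    exact ⟨ξ, r, hr, h⟩
  have huniq : ∀ x ξ η, (∃ p, p ∈ G ∧ SetStr.mem (op p (op x ξ)) A) → (∃ p, p ∈ G ∧ SetStr.mem (op p (op x η)) A) →
      ξ = η := by
    rintro x ξ η ⟨p, hp, h1⟩ ⟨q, hq, h2⟩
    obtain ⟨r, hr, h3, h4⟩ := hG.dir p q hp hq
    exact hA.uniq r x ξ η (hA.mono _ _ _ _ h1 h3) (hA.mono _ _ _ _ h2 h4)
  have hFn : Fn (val hG (nm o B)) (jj hG X) := by
    constructor
    · intro z hz
      obtain ⟨x, ξ, p, rfl, h2, h3⟩ := (hmem z).1 hz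
      exact ⟨_, (jj_mem hG).2 (hA.fld _ _ _ h3).2.1, _, rfl⟩
    · intro z hz
      obtain ⟨x, hx, rfl⟩ := jj_trans hG hz
      constructor
      · obtain ⟨ξ, p, hp, h⟩ := htot x hx
        exact ⟨jj hG ξ, (hmem' x ξ).2 ⟨p, hp, h⟩⟩
      · intro y y' hy hy'
        obtain ⟨x1, ξ, p, h1, h2, h3⟩ := (hmem _).1 hy
        obtain ⟨x2, η, q, h4, h5, h6⟩ := (hmem _).1 hy'
        rw [op_inj, jj_inj hG] at h1 h4
        obtain ⟨rfl, rfl⟩ := h1
        obtain ⟨rfl, rfl⟩ := h4
        rw [huniq _ ξ η ⟨p, h2, h3⟩ ⟨q, h5, h6⟩]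
  have hval : ∀ x ξ, SetStr.mem x X → (app (val hG (nm o B)) (jj hG x) = jj hG ξ ↔
      ∃ p, p ∈ G ∧ SetStr.mem (op p (op x ξ)) A) := by
    intro x ξ hx
    rw [← hmem', hFn.mem_iff, jj_mem hG]
    exact ⟨fun h => ⟨hx, h.symm⟩, fun h => h.2.symm⟩
  refine ⟨val hG (nm o B), mem_funs.2 ⟨hFn, ?_⟩, hval⟩
  intro z hz
  obtain ⟨x, hx, rfl⟩ := jj_trans hG hz
  obtain ⟨ξ, p, hp, h⟩ := htot x hx
  rw [(hval x ξ hx).2 ⟨p, hp, h⟩, jj_mem hG]
  exact (hA.fld _ _ _ h).2.2

/-- `j (X × omega) = j X × omega`. -/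
theorem EndExt.prod_om {N : Type u} [SetStr N] [IsZF N] {j : M → N} (h : EndExt j) (X : M) :
    j (prod X GA.om) = prod (j X) GA.om := by
  refine h.eq_of (fun z hz => ?_) (fun z hz => ?_)
  · obtain ⟨x, hx, n, hn, rfl⟩ := mem_prod.1 hz
    rw [h.op, op_mem_prod, h.mem_iff, ← h.om, h.mem_iff]
    exact ⟨hx, hn⟩
  · obtain ⟨x, hx, n, hn, rfl⟩ := mem_prod.1 hz
    obtain ⟨x, hx1, rfl⟩ := h.tr _ _ hx
    rw [← h.om] at hn
    obtain ⟨n, hn1, rfl⟩ := h.tr _ _ hn
    exact ⟨GA.op x n, op_mem_prod.2 ⟨hx1, hn1⟩, (h.op _ _).symm⟩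

/-- (Cov) for `M[G]`. -/
theorem cov_of_covP (hG : IsGeneric P L o G) [IsZF (Ext hG)] (h : CovP P L) : Cov (jj hG) := by
  have hE := jj_ext hG
  refine Cov1.cov hE ?_
  intro X l f hl hf
  obtain ⟨p0, A, hp0, hA, hv⟩ := exists_fname hG hf
  obtain ⟨E, hE1, hE2, hE3⟩ := h p0 X l A hl.1 hA
  refine ⟨E, hE1, hE2, fun x hx => ?_⟩
  obtain ⟨ξ, hξ, h1⟩ := jj_trans hG ((mem_funs.1 hf).2 (jj hG x) ((jj_mem hG).2 hx))
  obtain ⟨p, hp, h2⟩ := (hv x ξ hx).1 h1
  rw [h1, ← hE.ran, jj_mem hG]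
  exact hE3 p x ξ h2

/-- (Low) for `M[G]`. -/
theorem low_of_lowP (hG : IsGeneric P L o G) [IsZF (Ext hG)] {κ : M} (h : LowP P L o κ) :
    ∀ ν, Ord ν → Inj ν κ → Inj (jj hG ν) om := by
  have hE := jj_ext hG
  obtain ⟨A, hA, hd⟩ := h
  obtain ⟨f, hf, hv⟩ := exists_fun_of_fname hG hA hG.top_mem
  refine low_of_reals hE ?_
  rw [hE.prod_om, hE.om, mem_funs] at hf
  refine Le.of_fun (F := fun b => lam (fun n => app f (op b n)) om) (by (repeat' (with_reducible first | apply pd_WOd | apply pf_pfin | apply pd_Fun1 | apply pf_hh | apply pd_Spr | apply pd_Inj | apply pf_har | apply pd_Le | apply pf_fins | apply pf_card | apply pd_Bij | apply pd_Fini | apply pf_chk | apply pd_Big | apply pd_Ord | apply pd_Fmem | apply pd_Feq | apply pd_Tr | apply pd_Ind | apply pf_succ | apply pf_funs | apply pf_prod | apply pf_lam | apply pd_Fn | apply pf_app | apply pf_ran | apply pf_dom | apply PF.img | apply PF.pow | apply PD.sub | apply PF.adj | apply PF.un | apply PF.sUn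 | apply PF.op | apply PF.pr | apply PF.sep | exact PF.var _ | exact PF.const _ | apply PD.eq | apply PD.mem | apply PD.not | apply PD.iff | apply PD.or | apply PD.and | apply PD.imp | apply PD.ex | apply PD.all | exact PD.const _ | assumption | refine PF.comp1 (F := _) (by assumption) ?_ | refine PF.comp2 (F := _) (by assumption) ?_ ?_ | refine PF.comp3 (F := _) (by assumption) ?_ ?_ ?_ | refine PD.app1 (R := _) (by assumption) ?_ | refine PD.app2 (R := _) (by assumption) ?_ ?_ | refine PD.app3 (R := _) (by assumption) ?_ ?_ ?_ | refine PD.app4 (R := _) (by assumption) ?_ ?_ ?_ ?_))) ?_ ?_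
  · intro b hb
    refine mem_funs.2 ⟨lam_Fn (by (repeat' (with_reducible first | apply pd_WOd | apply pf_pfin | apply pd_Fun1 | apply pf_hh | apply pd_Spr | apply pd_Inj | apply pf_har | apply pd_Le | apply pf_fins | apply pf_card | apply pd_Bij | apply pd_Fini | apply pf_chk | apply pd_Big | apply pd_Ord | apply pd_Fmem | apply pd_Feq | apply pd_Tr | apply pd_Ind | apply pf_succ | apply pf_funs | apply pf_prod | apply pf_lam | apply pd_Fn | apply pf_app | apply pf_ran | apply pf_dom | apply PF.img | apply PF.pow | apply PD.sub | apply PF.adj | apply PF.un | apply PF.sUn | apply PF.op | apply PF.pr | apply PF.sep | exact PF.var _ | exact PF.const _ | apply PD.eq | apply PD.mem | apply PD.not | apply PD.iff | apply PD.or | apply PD.and | apply PD.imp | apply PD.ex | apply PD.all | exact PD.const _ | assumption | refine PF.comp1 (F := _) (by assumption) ?_ | refine PF.comp2 (F := _) (by assumption) ?_ ?_ | refine PF.comp3 (F := _) (by assumption) ?_ ?_ ?_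 | refine PD.app1 (R := _) (by assumption) ?_ | refine PD.app2 (R := _) (by assumption) ?_ ?_ | refine PD.app3 (R := _) (by assumption) ?_ ?_ ?_ | refine PD.app4 (R := _) (by assumption) ?_ ?_ ?_ ?_))) _, fun n hn => ?_⟩
    rw [app_lam (by (repeat' (with_reducible first | apply pd_WOd | apply pf_pfin | apply pd_Fun1 | apply pf_hh | apply pd_Spr | apply pd_Inj | apply pf_har | apply pd_Le | apply pf_fins | apply pf_card | apply pd_Bij | apply pd_Fini | apply pf_chk | apply pd_Big | apply pd_Ord | apply pd_Fmem | apply pd_Feq | apply pd_Tr | apply pd_Ind | apply pf_succ | apply pf_funs | apply pf_prod | apply pf_lam | apply pd_Fn | apply pf_app | apply pf_ran | apply pf_dom | apply PF.img | apply PF.pow | apply PD.sub | apply PF.adj | apply PF.un | apply PF.sUn | apply PF.op | apply PF.pr | apply PF.sep | exact PF.var _ | exact PF.const _ | apply PD.eq | apply PD.mem | apply PD.not | apply PD.iff | apply PD.or | apply PD.and | apply PD.imp | apply PD.ex |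 apply PD.all | exact PD.const _ | assumption | refine PF.comp1 (F := _) (by assumption) ?_ | refine PF.comp2 (F := _) (by assumption) ?_ ?_ | refine PF.comp3 (F := _) (by assumption) ?_ ?_ ?_ | refine PD.app1 (R := _) (by assumption) ?_ | refine PD.app2 (R := _) (by assumption) ?_ ?_ | refine PD.app3 (R := _) (by assumption) ?_ ?_ ?_ | refine PD.app4 (R := _) (by assumption) ?_ ?_ ?_ ?_))) hn]
    exact hf.2 _ (op_mem_prod.2 ⟨hb, hn⟩)
  · intro b c hb hc he
    obtain ⟨b, hb', rfl⟩ := jj_trans hG hb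
    obtain ⟨c, hc', rfl⟩ := jj_trans hG hc
    by_contra hne
    have hne' : b ≠ c := fun e => hne (by rw [e])
    obtain ⟨r, hr, n, m, m', hn, hm, h1, h2⟩ := hG.meets
      (fun q => ∃ n m m', SetStr.mem n om ∧ m ≠ m' ∧ SetStr.mem (op q (op (op b n) m)) A ∧
        SetStr.mem (op q (op (op c n) m')) A) (by unfold Ne; (repeat' (with_reducible first | apply pd_WOd | apply pf_pfin | apply pd_Fun1 | apply pf_hh | apply pd_Spr | apply pd_Inj | apply pf_har | apply pd_Le | apply pf_fins | apply pf_card | apply pd_Bij | apply pd_Fini | apply pf_chk | apply pd_Big | apply pd_Ord | apply pd_Fmem | apply pd_Feq | apply pd_Tr | apply pd_Ind | apply pf_succ | apply pf_funs | apply pf_prod | apply pf_lam | apply pd_Fn | apply pf_app | apply pf_ran | apply pf_dom | apply PF.img | apply PF.pow | apply PD.sub | apply PF.adj | apply PF.un | apply PF.sUn | apply PF.op | apply PF.pr | apply PF.sep | exact PF.var _ | exact PF.const _ | apply PD.eq | apply PD.mem | apply PD.not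 | apply PD.iff | apply PD.or | apply PD.and | apply PD.imp | apply PD.ex | apply PD.all | exact PD.const _ | assumption | refine PF.comp1 (F := _) (by assumption) ?_ | refine PF.comp2 (F := _) (by assumption) ?_ ?_ | refine PF.comp3 (F := _) (by assumption) ?_ ?_ ?_ | refine PD.app1 (R := _) (by assumption) ?_ | refine PD.app2 (R := _) (by assumption) ?_ ?_ | refine PD.app3 (R := _) (by assumption) ?_ ?_ ?_ | refine PD.app4 (R := _) (by assumption) ?_ ?_ ?_ ?_))) (by
        intro p hp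
        obtain ⟨q, n, m, m', e1, e2, e3, e4, e5⟩ := hd b c hb' hc' hne' p hp
        exact ⟨q, e1, n, m, m', e2, e3, e4, e5⟩)
    have h3 := (hv (op b n) m (op_mem_prod.2 ⟨hb', hn⟩)).2 ⟨r, hr, h1⟩
    have h4 := (hv (op c n) m' (op_mem_prod.2 ⟨hc', hn⟩)).2 ⟨r, hr, h2⟩
    rw [hE.op] at h3 h4
    have hn' : SetStr.mem (jj hG n) (om : Ext hG) := by
      rw [← hE.om]
      exact (jj_mem hG).2 hn
    have h5 : app (lam (fun n => app f (op (jj hG b) n)) om) (jj hG n) =
        app (lam (fun n => app f (op (jj hG c) n)) om) (jj hG n) := by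
      rw [he]
    rw [app_lam (by (repeat' (with_reducible first | apply pd_WOd | apply pf_pfin | apply pd_Fun1 | apply pf_hh | apply pd_Spr | apply pd_Inj | apply pf_har | apply pd_Le | apply pf_fins | apply pf_card | apply pd_Bij | apply pd_Fini | apply pf_chk | apply pd_Big | apply pd_Ord | apply pd_Fmem | apply pd_Feq | apply pd_Tr | apply pd_Ind | apply pf_succ | apply pf_funs | apply pf_prod | apply pf_lam | apply pd_Fn | apply pf_app | apply pf_ran | apply pf_dom | apply PF.img | apply PF.pow | apply PD.sub | apply PF.adj | apply PF.un | apply PF.sUn | apply PF.op | apply PF.pr | apply PF.sep | exact PF.var _ | exact PF.const _ | apply PD.eq | apply PD.mem | apply PD.not | apply PD.iff | apply PD.or | apply PD.and | apply PD.imp | apply PD.ex | apply PD.all | exact PD.const _ | assumption | refine PF.comp1 (F := _) (by assumption) ?_ | refine PF.comp2 (F := _) (by assumption) ?_ ?_ | refine PF.comp3 (F := _) (by assumption) ?_ ?_ ?_ | refine PD.app1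 (R := _) (by assumption) ?_ | refine PD.app2 (R := _) (by assumption) ?_ ?_ | refine PD.app3 (R := _) (by assumption) ?_ ?_ ?_ | refine PD.app4 (R := _) (by assumption) ?_ ?_ ?_ ?_))) hn', app_lam (by (repeat' (with_reducible first | apply pd_WOd | apply pf_pfin | apply pd_Fun1 | apply pf_hh | apply pd_Spr | apply pd_Inj | apply pf_har | apply pd_Le | apply pf_fins | apply pf_card | apply pd_Bij | apply pd_Fini | apply pf_chk | apply pd_Big | apply pd_Ord | apply pd_Fmem | apply pd_Feq | apply pd_Tr | apply pd_Ind | apply pf_succ | apply pf_funs | apply pf_prod | apply pf_lam | apply pd_Fn | apply pf_app | apply pf_ran | apply pf_dom | apply PF.img | apply PF.pow | apply PD.sub | apply PF.adj | apply PF.un | apply PF.sUn | apply PF.op | apply PF.pr | apply PF.sep | exact PF.var _ | exact PF.const _ | apply PD.eq | apply PD.mem | apply PD.not | apply PD.iff | apply PD.or | apply PD.and | apply PD.imp | apply PD.ex | apply PD.all | exact PD.const _ | assumption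 | refine PF.comp1 (F := _) (by assumption) ?_ | refine PF.comp2 (F := _) (by assumption) ?_ ?_ | refine PF.comp3 (F := _) (by assumption) ?_ ?_ ?_ | refine PD.app1 (R := _) (by assumption) ?_ | refine PD.app2 (R := _) (by assumption) ?_ ?_ | refine PD.app3 (R := _) (by assumption) ?_ ?_ ?_ | refine PD.app4 (R := _) (by assumption) ?_ ?_ ?_ ?_))) hn', h3, h4, jj_inj hG] at h5
    exact hm h5

/-- (Up) for `M[G]`. -/
theorem up_of_upP (hG : IsGeneric P L o G) [IsZF (Ext hG)] {κ : M} (h : UpP P L κ) :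
    ∀ ν, Ord ν → Inj (jj hG ν) om → Inj ν κ := by
  have hE := jj_ext hG
  intro ν _ hi
  obtain ⟨g, hg1, hg2, hg3⟩ := hi
  obtain ⟨hu1, hu2⟩ := unc_funs hg2
  have hu1' : SetStr.mem (unc g (jj hG ν) om) (funs (jj hG (prod ν om)) (jj hG om)) := by
    rw [hE.prod_om, hE.om]
    exact hu1
  obtain ⟨p0, A, hp0, hA, hv⟩ := exists_fname hG hu1'
  obtain ⟨D, hD1, hD2, hD3⟩ := h p0 ν A hA
  have key : ∀ i k, SetStr.mem i ν → SetStr.mem k ν → app D i = app D k → ∀ n, SetStr.mem n om →
      app (app g (jj hG i)) (jj hG n) = app (app g (jj hG k)) (jj hG n) := by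
    intro i k hi hk he n hn
    have hn' : SetStr.mem (jj hG n) (om : Ext hG) := by
      rw [← hE.om]
      exact (jj_mem hG).2 hn
    have h1 := hu2 (jj hG i) (jj hG n) ((jj_mem hG).2 hi) hn'
    have h2 := hu2 (jj hG k) (jj hG n) ((jj_mem hG).2 hk) hn'
    rw [← h1, ← h2, ← hE.op, ← hE.op]
    obtain ⟨m, hm, h3⟩ := jj_trans hG ((mem_funs.1 hu1').2 (jj hG (op i n))
      ((jj_mem hG).2 (op_mem_prod.2 ⟨hi, hn⟩)))
    obtain ⟨p, hp, h4⟩ := (hv (op i n) m (op_mem_prod.2 ⟨hi, hn⟩)).1 h3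
    have h5 := hD3 i k hi hk he p n m h4
    rw [h3]
    exact ((hv (op k n) m (op_mem_prod.2 ⟨hk, hn⟩)).2 ⟨p, hp, h5⟩).symm
  refine ⟨D, hD1, hD2, fun i k hi hk he => ?_⟩
  have h1 : app g (jj hG i) = app g (jj hG k) := by
    refine (mem_funs.1 (hg2 _ ((jj_mem hG).2 hi))).1.ext
      (mem_funs.1 (hg2 _ ((jj_mem hG).2 hk))).1 (fun n hn => ?_)
    rw [← hE.om] at hn
    obtain ⟨n, hn', rfl⟩ := jj_trans hG hn
    exact key i k hi hk he n hn'
  exact (jj_inj hG).1 (hg3 _ _ ((jj_mem hG).2 hi) ((jj_mem hG).2 hk) h1)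

/-- The transfer theorem applies to `M[G]` if the forcing satisfies the three internal conditions. -/
theorem transfer_jj (hG : IsGeneric P L o G) [IsZF (Ext hG)] {κ : M} (hc : CovP P L)
    (hl : LowP P L o κ) (hu : UpP P L κ) : Transfer (jj hG) κ where
  ext := jj_ext hG
  cov := cov_of_covP hG hc
  low := low_of_lowP hG hl
  up := up_of_upP hG hu

end GA
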