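import Pool.Agent.GA.Ord

/-!
# Finite sets of a model of ZF
-/

universe u

namespace GA

variable {M : Type u} [SetStr M] [IsZF M]

/-- `a` is finite: it is the range of a function whose domain is a natural number of `M`. -/
def Fini (a : M) : Prop := ∃ n, SetStr.mem n om ∧ ∃ f, Fn f n ∧ ran f = a

theorem pd_Fini {f : (ℕ → M) → M} (hf : PF f) : PD (fun v => Fini (f v)) :=
  PD.app1 (R := fun x => Fini x) (by unfold Fini; (repeat' (with_reducible first | apply pd_Big | apply pd_Ord | apply pd_Tr | apply pd_Ind | apply pf_succ | apply pf_funs | apply pf_prod | apply pf_lam | apply pd_Fn | apply pf_app | apply pf_ran | apply pf_dom | apply PF.img | apply PF.pow | apply PD.sub | apply PF.adj | apply PF.un | apply PF.sUn | apply PF.op | apply PF.pr | apply PF.sep | exact PF.var _ | exact PF.const _ | apply PD.eq | apply PD.mem | apply PD.not | apply PD.iff | apply PD.or | apply PD.and | apply PD.imp | apply PD.ex | apply PD.all | exact PD.const _ | assumption | refine PF.comp1 (F := _) (by assumption) ?_ | refine PF.comp2 (F := _) (by assumption)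 ?_ ?_ | refine PF.comp3 (F := _) (by assumption) ?_ ?_ ?_ | refine PD.app1 (R := _) (by assumption) ?_ | refine PD.app2 (R := _) (by assumption) ?_ ?_ | refine PD.app3 (R := _) (by assumption) ?_ ?_ ?_ | refine PD.app4 (R := _) (by assumption) ?_ ?_ ?_ ?_))) hf


private theorem fa_fn_ext {f a x y : M} (h : Fn f a) (hx : ¬ SetStr.mem x a) :
    Fn (adj f (op x y)) (adj a x) := by
  constructor
  · intro z hz
    rcases mem_adj.1 hz with hz | rfl
    · obtain ⟨u, hu, w, rfl⟩ := h.1 z hz
      exact ⟨u, mem_adj.2 (Or.inl hu), w, rfl⟩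
    · exact ⟨x, mem_adj.2 (Or.inr rfl), y, rfl⟩
  · intro u hu
    rcases mem_adj.1 hu with hu | rfl
    · have hne : u ≠ x := fun he => hx (he ▸ hu)
      refine ⟨⟨app f u, mem_adj.2 (Or.inl (h.app_mem hu))⟩, fun w w' hw hw' => ?_⟩
      rcases mem_adj.1 hw with hw | hw
      · rcases mem_adj.1 hw' with hw' | hw'
        · exact (h.2 u hu).2 w w' hw hw'
        · exact (hne (op_inj.1 hw').1).elim
      · exact (hne (op_inj.1 hw).1).elim
    · refine ⟨⟨y, mem_adj.2 (Or.inr rfl)⟩, fun w w' hw hw' => ?_⟩
      rcases mem_adj.1 hw with hw | hw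
      · exact (hx (h.mem_iff.1 hw).1).elim
      · rcases mem_adj.1 hw' with hw' | hw'
        · exact (hx (h.mem_iff.1 hw').1).elim
        · rw [(op_inj.1 hw).2, (op_inj.1 hw').2]

private theorem fa_ran_ext {f a x y : M} (h : Fn f a) :
    ran (adj f (op x y)) = adj (ran f) y := by
  refine ext (fun z => ?_)
  rw [mem_ran, mem_adj, mem_ran]
  constructor
  · rintro ⟨u, hu⟩
    rcases mem_adj.1 hu with hu | hu
    · exact Or.inl ⟨u, hu⟩
    · exact Or.inr (op_inj.1 hu).2
  · rintro (⟨u, hu⟩ | rfl)
    · exact ⟨u, mem_adj.2 (Or.inl hu)⟩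
    · exact ⟨x, mem_adj.2 (Or.inr rfl)⟩

private theorem fa_fn_emp : Fn (emp : M) emp :=
  ⟨fun z hz => (not_mem_emp z hz).elim, fun x hx => (not_mem_emp x hx).elim⟩

private theorem fa_ran_emp : ran (emp : M) = emp := by
  refine ext (fun z => ?_)
  rw [mem_ran]
  exact ⟨fun ⟨x, hx⟩ => (not_mem_emp _ hx).elim, fun h => (not_mem_emp z h).elim⟩

/-- MODULE fa -/
theorem Fini.emp : Fini (emp : M) :=
  ⟨GA.emp, emp_mem_om, GA.emp, fa_fn_emp, fa_ran_emp⟩

/-- MODULE fa -/
theorem Fini.adj {a : M} (h : Fini a) (y : M) : Fini (adj a y) := by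
  obtain ⟨n, hn, f, hf, rfl⟩ := h
  exact ⟨succ n, succ_mem_om hn, GA.adj f (op n y), fa_fn_ext hf (not_mem_self n),
    fa_ran_ext hf⟩

/-- MODULE fb.  Induction on finite sets. -/
theorem fini_ind {P : M → Prop} (hP : PD (fun v => P (v 0))) (h0 : P GA.emp)
    (hs : ∀ a y, Fini a → P a → P (GA.adj a y)) : ∀ a, Fini a → P a := by
  have key : ∀ n, SetStr.mem n (om : M) → ∀ f, Fn f n → P (ran f) := by
    refine om_ind (P := fun n => ∀ f, Fn f n → P (ran f)) (by (repeat' (with_reducible first | apply pd_Fini | apply pd_Big | apply pd_Ord | apply pd_Tr | apply pd_Ind | apply pf_succ | apply pf_funs | apply pf_prod | apply pf_lam | apply pd_Fn | apply pf_app | apply pf_ran | apply pf_dom | apply PF.img | apply PF.pow | apply PD.sub | apply PF.adj | apply PF.un | apply PF.sUn | apply PF.op | apply PF.pr | apply PF.sep | exact PF.var _ | exact PF.const _ | apply PD.eq | apply PD.mem | apply PD.not | apply PD.iff | apply PD.or | apply PD.and | apply PD.imp | apply PD.ex | apply PD.all | exact PD.const _ | assumption | refine PF.comp1 (F := _) (by assumption)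 ?_ | refine PF.comp2 (F := _) (by assumption) ?_ ?_ | refine PF.comp3 (F := _) (by assumption) ?_ ?_ ?_ | refine PD.app1 (R := _) (by assumption) ?_ | refine PD.app2 (R := _) (by assumption) ?_ ?_ | refine PD.app3 (R := _) (by assumption) ?_ ?_ ?_ | refine PD.app4 (R := _) (by assumption) ?_ ?_ ?_ ?_))) ?_ ?_
    · intro f hf
      have : ran f = GA.emp := by
        refine ext (fun z => ?_)
        rw [hf.mem_ran]
        exact ⟨fun ⟨x, hx, _⟩ => (not_mem_emp _ hx).elim, fun h => (not_mem_emp z h).elim⟩
      rw [this]
      exact h0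
    · intro n hn ih f hf
      have hg : Fn (lam (fun x => app f x) n) n := lam_Fn (by (repeat' (with_reducible first | apply pd_Fini | apply pd_Big | apply pd_Ord | apply pd_Tr | apply pd_Ind | apply pf_succ | apply pf_funs | apply pf_prod | apply pf_lam | apply pd_Fn | apply pf_app | apply pf_ran | apply pf_dom | apply PF.img | apply PF.pow | apply PD.sub | apply PF.adj | apply PF.un | apply PF.sUn | apply PF.op | apply PF.pr | apply PF.sep | exact PF.var _ | exact PF.const _ | apply PD.eq | apply PD.mem | apply PD.not | apply PD.iff | apply PD.or | apply PD.and | apply PD.imp | apply PD.ex | apply PD.all | exact PD.const _ | assumption | refine PF.comp1 (F := _) (by assumption) ?_ | refine PF.comp2 (F := _) (by assumption) ?_ ?_ | refine PF.comp3 (F := _) (by assumption) ?_ ?_ ?_ | refine PD.app1 (R := _) (by assumption) ?_ | refine PD.app2 (R := _) (by assumption) ?_ ?_ | refine PD.app3 (R := _) (by assumption) ?_ ?_ ?_ | refine PD.app4 (R := _) (by assumption) ?_ ?_ ?_ ?_))) n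
      have hr : ran f = GA.adj (ran (lam (fun x => app f x) n)) (app f n) := by
        refine ext (fun z => ?_)
        rw [mem_adj, hf.mem_ran, hg.mem_ran]
        constructor
        · rintro ⟨x, hx, rfl⟩
          rcases mem_succ.1 hx with hx | rfl
          · exact Or.inl ⟨x, hx, (app_lam (by (repeat' (with_reducible first | apply pd_Fini | apply pd_Big | apply pd_Ord | apply pd_Tr | apply pd_Ind | apply pf_succ | apply pf_funs | apply pf_prod | apply pf_lam | apply pd_Fn | apply pf_app | apply pf_ran | apply pf_dom | apply PF.img | apply PF.pow | apply PD.sub | apply PF.adj | apply PF.un | apply PF.sUn | apply PF.op | apply PF.pr | apply PF.sep | exact PF.var _ | exact PF.const _ | apply PD.eq | apply PD.mem | apply PD.not | apply PD.iff | apply PD.or | apply PD.and | apply PD.imp | apply PD.ex | apply PD.all | exact PD.const _ | assumption | refine PF.comp1 (F := _) (by assumption) ?_ | refine PF.comp2 (F := _) (by assumption) ?_ ?_ | refine PF.comp3 (F := _) (by assumption) ?_ ?_ ?_ | refine PD.app1 (R := _) (by assumption) ?_ | refine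 PD.app2 (R := _) (by assumption) ?_ ?_ | refine PD.app3 (R := _) (by assumption) ?_ ?_ ?_ | refine PD.app4 (R := _) (by assumption) ?_ ?_ ?_ ?_))) hx).symm⟩
          · exact Or.inr rfl
        · rintro (⟨x, hx, rfl⟩ | rfl)
          · exact ⟨x, mem_succ.2 (Or.inl hx), app_lam (by (repeat' (with_reducible first | apply pd_Fini | apply pd_Big | apply pd_Ord | apply pd_Tr | apply pd_Ind | apply pf_succ | apply pf_funs | apply pf_prod | apply pf_lam | apply pd_Fn | apply pf_app | apply pf_ran | apply pf_dom | apply PF.img | apply PF.pow | apply PD.sub | apply PF.adj | apply PF.un | apply PF.sUn | apply PF.op | apply PF.pr | apply PF.sep | exact PF.var _ | exact PF.const _ | apply PD.eq | apply PD.mem | apply PD.not | apply PD.iff | apply PD.or | apply PD.and | apply PD.imp | apply PD.ex | apply PD.all | exact PD.const _ | assumption | refine PF.comp1 (F := _) (by assumption) ?_ | refine PF.comp2 (F := _) (by assumption) ?_ ?_ | refine PF.comp3 (F := _) (by assumption) ?_ ?_ ?_ | refine PD.app1 (R := _) (by assumption) ?_ | refine PD.app2 (R := _)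 (by assumption) ?_ ?_ | refine PD.app3 (R := _) (by assumption) ?_ ?_ ?_ | refine PD.app4 (R := _) (by assumption) ?_ ?_ ?_ ?_))) hx⟩
          · exact ⟨n, mem_succ.2 (Or.inr rfl), rfl⟩
      rw [hr]
      exact hs _ _ ⟨n, hn, _, hg, rfl⟩ (ih _ hg)
  rintro a ⟨n, hn, f, hf, rfl⟩
  exact key n hn f hf

/-- MODULE fc -/
theorem Fini.sub {a b : M} (h : Fini a) (hb : GA.sub b a) : Fini b := by
  have key : ∀ a, Fini a → ∀ b : M, GA.sub b a → Fini b := by
    refine fini_ind (P := fun a => ∀ b : M, GA.sub b a → Fini b) (by (repeat' (with_reducible first | apply pd_Fini | apply pd_Big | apply pd_Ord | apply pd_Tr | apply pd_Ind | apply pf_succ | apply pf_funs | apply pf_prod | apply pf_lam | apply pd_Fn | apply pf_app | apply pf_ran | apply pf_dom | apply PF.img | apply PF.pow | apply PD.sub | apply PF.adj | apply PF.un | apply PF.sUn | apply PF.op | apply PF.pr | apply PF.sep | exact PF.var _ | exact PF.const _ | apply PD.eq | apply PD.mem | apply PD.not | apply PD.iff | apply PD.or | apply PD.and | apply PD.imp | apply PD.ex | apply PD.all | exact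 PD.const _ | assumption | refine PF.comp1 (F := _) (by assumption) ?_ | refine PF.comp2 (F := _) (by assumption) ?_ ?_ | refine PF.comp3 (F := _) (by assumption) ?_ ?_ ?_ | refine PD.app1 (R := _) (by assumption) ?_ | refine PD.app2 (R := _) (by assumption) ?_ ?_ | refine PD.app3 (R := _) (by assumption) ?_ ?_ ?_ | refine PD.app4 (R := _) (by assumption) ?_ ?_ ?_ ?_))) ?_ ?_
    · intro b hb
      have : b = GA.emp := ext (fun z =>
        ⟨fun hz => (not_mem_emp z (hb z hz)).elim, fun h => (not_mem_emp z h).elim⟩)
      rw [this]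
      exact Fini.emp
    · intro a y _ ih b hb
      by_cases hy : SetStr.mem y b
      · have h1 : b = GA.adj (sep b (fun z => ¬ z = y)) y := by
          refine ext (fun z => ?_)
          rw [mem_adj, mem_sep (by (repeat' (with_reducible first | apply pd_Fini | apply pd_Big | apply pd_Ord | apply pd_Tr | apply pd_Ind | apply pf_succ | apply pf_funs | apply pf_prod | apply pf_lam | apply pd_Fn | apply pf_app | apply pf_ran | apply pf_dom | apply PF.img | apply PF.pow | apply PD.sub | apply PF.adj | apply PF.un | apply PF.sUn | apply PF.op | apply PF.pr | apply PF.sep | exact PF.var _ | exact PF.const _ | apply PD.eq | apply PD.mem | apply PD.not | apply PD.iff | apply PD.or | apply PD.and | apply PD.imp | apply PD.ex | apply PD.all | exact PD.const _ | assumption | refine PF.comp1 (F := _) (by assumption) ?_ | refine PF.comp2 (F := _) (by assumption) ?_ ?_ | refine PF.comp3 (F := _) (by assumption) ?_ ?_ ?_ | refine PD.app1 (R := _) (by assumption) ?_ | refine PD.app2 (R := _) (by assumption) ?_ ?_ | refine PD.app3 (R := _) (by assumption) ?_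 ?_ ?_ | refine PD.app4 (R := _) (by assumption) ?_ ?_ ?_ ?_)))]
          constructor
          · intro hz
            by_cases he : z = y
            · exact Or.inr he
            · exact Or.inl ⟨hz, he⟩
          · rintro (h | rfl)
            · exact h.1
            · exact hy
        rw [h1]
        refine Fini.adj (ih _ ?_) y
        intro z hz
        rw [mem_sep (by (repeat' (with_reducible first | apply pd_Fini | apply pd_Big | apply pd_Ord | apply pd_Tr | apply pd_Ind | apply pf_succ | apply pf_funs | apply pf_prod | apply pf_lam | apply pd_Fn | apply pf_app | apply pf_ran | apply pf_dom | apply PF.img | apply PF.pow | apply PD.sub | apply PF.adj | apply PF.un | apply PF.sUn | apply PF.op | apply PF.pr | apply PF.sep | exact PF.var _ | exact PF.const _ | apply PD.eq | apply PD.mem | apply PD.not | apply PD.iff | apply PD.or | apply PD.and | apply PD.imp | apply PD.ex | apply PD.all | exact PD.const _ | assumption | refine PF.comp1 (F := _) (by assumption) ?_ | refine PF.comp2 (F := _) (by assumption) ?_ ?_ | refine PF.comp3 (F := _) (by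 assumption) ?_ ?_ ?_ | refine PD.app1 (R := _) (by assumption) ?_ | refine PD.app2 (R := _) (by assumption) ?_ ?_ | refine PD.app3 (R := _) (by assumption) ?_ ?_ ?_ | refine PD.app4 (R := _) (by assumption) ?_ ?_ ?_ ?_)))] at hz
        exact (mem_adj.1 (hb z hz.1)).resolve_right hz.2
      · refine ih b (fun z hz => ?_)
        rcases mem_adj.1 (hb z hz) with h | rfl
        · exact h
        · exact (hy hz).elim
  exact key a h b hb

/-- MODULE fc -/
theorem Fini.un {a b : M} (ha : Fini a) (hb : Fini b) : Fini (un a b) := by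
  refine fini_ind (P := fun b => Fini (GA.un a b)) (by (repeat' (with_reducible first | apply pd_Fini | apply pd_Big | apply pd_Ord | apply pd_Tr | apply pd_Ind | apply pf_succ | apply pf_funs | apply pf_prod | apply pf_lam | apply pd_Fn | apply pf_app | apply pf_ran | apply pf_dom | apply PF.img | apply PF.pow | apply PD.sub | apply PF.adj | apply PF.un | apply PF.sUn | apply PF.op | apply PF.pr | apply PF.sep | exact PF.var _ | exact PF.const _ | apply PD.eq | apply PD.mem | apply PD.not | apply PD.iff | apply PD.or | apply PD.and | apply PD.imp | apply PD.ex | apply PD.all | exact PD.const _ | assumption | refine PF.comp1 (F := _) (by assumption) ?_ | refine PF.comp2 (F := _) (by assumption) ?_ ?_ | refine PF.comp3 (F := _) (by assumption) ?_ ?_ ?_ | refine PD.app1 (R := _) (by assumption) ?_ | refine PD.app2 (R := _) (by assumption) ?_ ?_ | refine PD.app3 (R := _) (by assumption) ?_ ?_ ?_ | refine PD.app4 (R := _) (by assumption) ?_ ?_ ?_ ?_))) ?_ ?_ b hb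
  · have : GA.un a GA.emp = a := ext (fun z => by simp)
    rw [this]
    exact ha
  · intro b y _ ih
    have : GA.un a (GA.adj b y) = GA.adj (GA.un a b) y := ext (fun z => by simp [or_assoc])
    rw [this]
    exact ih.adj y

/-- MODULE fc -/
theorem Fini.pr (x y : M) : Fini (pr x y) := by
  have : GA.pr x y = GA.adj (GA.adj GA.emp x) y := ext (fun z => by simp)
  rw [this]
  exact (Fini.emp.adj x).adj y

/-- MODULE fd -/
theorem Fini.img {a : M} (ha : Fini a) {F : M → M} (hF : PF (fun v => F (v 0))) :
    Fini (img F a) := by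
  refine fini_ind (P := fun a => Fini (GA.img F a)) (by (repeat' (with_reducible first | apply pd_Fini | apply pd_Big | apply pd_Ord | apply pd_Tr | apply pd_Ind | apply pf_succ | apply pf_funs | apply pf_prod | apply pf_lam | apply pd_Fn | apply pf_app | apply pf_ran | apply pf_dom | apply PF.img | apply PF.pow | apply PD.sub | apply PF.adj | apply PF.un | apply PF.sUn | apply PF.op | apply PF.pr | apply PF.sep | exact PF.var _ | exact PF.const _ | apply PD.eq | apply PD.mem | apply PD.not | apply PD.iff | apply PD.or | apply PD.and | apply PD.imp | apply PD.ex | apply PD.all | exact PD.const _ | assumption | refine PF.comp1 (F := _) (by assumption) ?_ | refine PF.comp2 (F := _) (by assumption) ?_ ?_ | refine PF.comp3 (F := _) (by assumption) ?_ ?_ ?_ | refine PD.app1 (R := _) (by assumption) ?_ | refine PD.app2 (R := _) (by assumption) ?_ ?_ | refine PD.app3 (R := _) (by assumption) ?_ ?_ ?_ | refine PD.app4 (R := _) (by assumption) ?_ ?_ ?_ ?_))) ?_ ?_ a ha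
  · have : GA.img F GA.emp = GA.emp := ext (fun z => by
      rw [mem_img hF]
      exact ⟨fun ⟨x, hx, _⟩ => (not_mem_emp _ hx).elim, fun h => (not_mem_emp z h).elim⟩)
    rw [this]
    exact Fini.emp
  · intro b y _ ih
    have : GA.img F (GA.adj b y) = GA.adj (GA.img F b) (F y) := by
      refine ext (fun z => ?_)
      rw [mem_img hF, mem_adj, mem_img hF]
      constructor
      · rintro ⟨x, hx, rfl⟩
        rcases mem_adj.1 hx with hx | rfl
        · exact Or.inl ⟨x, hx, rfl⟩
        · exact Or.inr rfl
      · rintro (⟨x, hx, rfl⟩ | rfl)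
        · exact ⟨x, mem_adj.2 (Or.inl hx), rfl⟩
        · exact ⟨y, mem_adj.2 (Or.inr rfl), rfl⟩
    rw [this]
    exact ih.adj _

/-- MODULE fd -/
theorem Fini.sUn {a : M} (ha : Fini a) (h : ∀ x, SetStr.mem x a → Fini x) : Fini (sUn a) := by
  refine fini_ind (P := fun a => (∀ x, SetStr.mem x a → Fini x) → Fini (GA.sUn a)) (by (repeat' (with_reducible first | apply pd_Fini | apply pd_Big | apply pd_Ord | apply pd_Tr | apply pd_Ind | apply pf_succ | apply pf_funs | apply pf_prod | apply pf_lam | apply pd_Fn | apply pf_app | apply pf_ran | apply pf_dom | apply PF.img | apply PF.pow | apply PD.sub | apply PF.adj | apply PF.un | apply PF.sUn | apply PF.op | apply PF.pr | apply PF.sep | exact PF.var _ | exact PF.const _ | apply PD.eq | apply PD.mem | apply PD.not | apply PD.iff | apply PD.or | apply PD.and | apply PD.imp | apply PD.ex | apply PD.all | exact PD.const _ | assumption | refine PF.comp1 (F := _) (by assumption) ?_ | refine PF.comp2 (F := _) (by assumption) ?_ ?_ | refine PF.comp3 (F := _) (by assumption) ?_ ?_ ?_ | refine PD.app1 (R :=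 _) (by assumption) ?_ | refine PD.app2 (R := _) (by assumption) ?_ ?_ | refine PD.app3 (R := _) (by assumption) ?_ ?_ ?_ | refine PD.app4 (R := _) (by assumption) ?_ ?_ ?_ ?_))) ?_ ?_ a ha h
  · intro _
    have : GA.sUn (GA.emp : M) = GA.emp := ext (fun z => by simp)
    rw [this]
    exact Fini.emp
  · intro b y _ ih hx
    have : GA.sUn (GA.adj b y) = GA.un (GA.sUn b) y := by
      refine ext (fun z => ?_)
      rw [mem_un, mem_sUn, mem_sUn]
      constructor
      · rintro ⟨x, hx, hz⟩
        rcases mem_adj.1 hx with hx | rfl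
        · exact Or.inl ⟨x, hx, hz⟩
        · exact Or.inr hz
      · rintro (⟨x, hx, hz⟩ | hz)
        · exact ⟨x, mem_adj.2 (Or.inl hx), hz⟩
        · exact ⟨y, mem_adj.2 (Or.inr rfl), hz⟩
    rw [this]
    exact (ih (fun x h => hx x (mem_adj.2 (Or.inl h)))).un (hx y (mem_adj.2 (Or.inr rfl)))

/-- MODULE fd -/
theorem Fini.prod {a b : M} (ha : Fini a) (hb : Fini b) : Fini (prod a b) := by
  unfold GA.prod
  refine Fini.sUn (ha.img (by (repeat' (with_reducible first | apply pd_Fini | apply pd_Big | apply pd_Ord | apply pd_Tr | apply pd_Ind | apply pf_succ | apply pf_funs | apply pf_prod | apply pf_lam | apply pd_Fn | apply pf_app | apply pf_ran | apply pf_dom | apply PF.img | apply PF.pow | apply PD.sub | apply PF.adj | apply PF.un | apply PF.sUn | apply PF.op | apply PF.pr | apply PF.sep | exact PF.var _ | exact PF.const _ | apply PD.eq | apply PD.mem | apply PD.not | apply PD.iff | apply PD.or | apply PD.and | apply PD.imp | apply PD.ex | apply PD.all | exact PD.const _ | assumption | refine PF.comp1 (F := _) (by assumption) ?_ | refine PF.comp2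 (F := _) (by assumption) ?_ ?_ | refine PF.comp3 (F := _) (by assumption) ?_ ?_ ?_ | refine PD.app1 (R := _) (by assumption) ?_ | refine PD.app2 (R := _) (by assumption) ?_ ?_ | refine PD.app3 (R := _) (by assumption) ?_ ?_ ?_ | refine PD.app4 (R := _) (by assumption) ?_ ?_ ?_ ?_)))) (fun x hx => ?_)
  obtain ⟨u, _, rfl⟩ := (mem_img (by (repeat' (with_reducible first | apply pd_Fini | apply pd_Big | apply pd_Ord | apply pd_Tr | apply pd_Ind | apply pf_succ | apply pf_funs | apply pf_prod | apply pf_lam | apply pd_Fn | apply pf_app | apply pf_ran | apply pf_dom | apply PF.img | apply PF.pow | apply PD.sub | apply PF.adj | apply PF.un | apply PF.sUn | apply PF.op | apply PF.pr | apply PF.sep | exact PF.var _ | exact PF.const _ | apply PD.eq | apply PD.mem | apply PD.not | apply PD.iff | apply PD.or | apply PD.and | apply PD.imp | apply PD.ex | apply PD.all | exact PD.const _ | assumption | refine PF.comp1 (F := _) (by assumption) ?_ | refine PF.comp2 (F := _) (by assumption) ?_ ?_ | refine PF.comp3 (F := _) (by assumption) ?_ ?_ ?_ | refine PD.app1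 (R := _) (by assumption) ?_ | refine PD.app2 (R := _) (by assumption) ?_ ?_ | refine PD.app3 (R := _) (by assumption) ?_ ?_ ?_ | refine PD.app4 (R := _) (by assumption) ?_ ?_ ?_ ?_)))).1 hx
  exact hb.img (by (repeat' (with_reducible first | apply pd_Fini | apply pd_Big | apply pd_Ord | apply pd_Tr | apply pd_Ind | apply pf_succ | apply pf_funs | apply pf_prod | apply pf_lam | apply pd_Fn | apply pf_app | apply pf_ran | apply pf_dom | apply PF.img | apply PF.pow | apply PD.sub | apply PF.adj | apply PF.un | apply PF.sUn | apply PF.op | apply PF.pr | apply PF.sep | exact PF.var _ | exact PF.const _ | apply PD.eq | apply PD.mem | apply PD.not | apply PD.iff | apply PD.or | apply PD.and | apply PD.imp | apply PD.ex | apply PD.all | exact PD.const _ | assumption | refine PF.comp1 (F := _) (by assumption) ?_ | refine PF.comp2 (F := _) (by assumption) ?_ ?_ | refine PF.comp3 (F := _) (by assumption) ?_ ?_ ?_ | refine PD.app1 (R := _) (by assumption) ?_ | refine PD.app2 (R := _) (by assumption) ?_ ?_ | refine PD.app3 (R := _) (by assumption) ?_ ?_ ?_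 | refine PD.app4 (R := _) (by assumption) ?_ ?_ ?_ ?_)))

/-- MODULE fe -/
theorem Fini.of_mem_om {n : M} (h : SetStr.mem n (om : M)) : Fini n :=
  om_ind (P := fun n => Fini n) (by (repeat' (with_reducible first | apply pd_Fini | apply pd_Big | apply pd_Ord | apply pd_Tr | apply pd_Ind | apply pf_succ | apply pf_funs | apply pf_prod | apply pf_lam | apply pd_Fn | apply pf_app | apply pf_ran | apply pf_dom | apply PF.img | apply PF.pow | apply PD.sub | apply PF.adj | apply PF.un | apply PF.sUn | apply PF.op | apply PF.pr | apply PF.sep | exact PF.var _ | exact PF.const _ | apply PD.eq | apply PD.mem | apply PD.not | apply PD.iff | apply PD.or | apply PD.and | apply PD.imp | apply PD.ex | apply PD.all | exact PD.const _ | assumption | refine PF.comp1 (F := _) (by assumption) ?_ | refine PF.comp2 (F := _) (by assumption) ?_ ?_ | refine PF.comp3 (F := _) (by assumption) ?_ ?_ ?_ | refine PD.app1 (R := _) (by assumption) ?_ | refine PD.app2 (R := _) (by assumption) ?_ ?_ | refine PD.app3 (R := _) (by assumption) ?_ ?_ ?_ | refine PD.app4 (R := _)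 (by assumption) ?_ ?_ ?_ ?_))) Fini.emp (fun n _ ih => ih.adj n) n h

/-- `f` is a bijection from `a` to `b`. -/
def Bij (f a b : M) : Prop :=
  Fn f a ∧ (∀ x, SetStr.mem x a → SetStr.mem (app f x) b) ∧ (∀ y, SetStr.mem y b → ∃ x, SetStr.mem x a ∧ app f x = y) ∧
    ∀ x y, SetStr.mem x a → SetStr.mem y a → app f x = app f y → x = y

theorem pd_Bij {f g h : (ℕ → M) → M} (hf : PF f) (hg : PF g) (hh : PF h) :
    PD (fun v => Bij (f v) (g v) (h v)) :=
  PD.app3 (R := fun x y z => Bij x y z) (by unfold Bij; (repeat' (with_reducible first | apply pd_Fini | apply pd_Big | apply pd_Ord | apply pd_Tr | apply pd_Ind | apply pf_succ | apply pf_funs | apply pf_prod | apply pf_lam | apply pd_Fn | apply pf_app | apply pf_ran | apply pf_dom | apply PF.img | apply PF.pow | apply PD.sub | apply PF.adj | apply PF.un | apply PF.sUn | apply PF.op | apply PF.pr | apply PF.sep | exact PF.var _ | exact PF.const _ | apply PD.eq | apply PD.mem | apply PD.not | apply PD.iff | apply PD.or | apply PD.and | apply PD.imp | apply PD.ex | apply PD.all | exact PD.const _ | assumption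 | refine PF.comp1 (F := _) (by assumption) ?_ | refine PF.comp2 (F := _) (by assumption) ?_ ?_ | refine PF.comp3 (F := _) (by assumption) ?_ ?_ ?_ | refine PD.app1 (R := _) (by assumption) ?_ | refine PD.app2 (R := _) (by assumption) ?_ ?_ | refine PD.app3 (R := _) (by assumption) ?_ ?_ ?_ | refine PD.app4 (R := _) (by assumption) ?_ ?_ ?_ ?_))) hf hg hh


/-- MODULE ff.  Pigeonhole: there is no injection from `succ n` to `n` (induction on `n`). -/
theorem pigeon {n f : M} (hn : SetStr.mem n (om : M)) (hf : Fn f (succ n))
    (hv : ∀ x, SetStr.mem x (succ n) → SetStr.mem (app f x) n) :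
    ∃ x y, SetStr.mem x (succ n) ∧ SetStr.mem y (succ n) ∧ x ≠ y ∧ app f x = app f y := by
  classical
  have key : ∀ n, SetStr.mem n (om : M) → ∀ f, Fn f (succ n) → (∀ x, SetStr.mem x (succ n) → SetStr.mem (app f x) n) →
      ∃ x y, SetStr.mem x (succ n) ∧ SetStr.mem y (succ n) ∧ ¬ x = y ∧ app f x = app f y := by
    refine om_ind (P := fun n => ∀ f, Fn f (succ n) → (∀ x, SetStr.mem x (succ n) → SetStr.mem (app f x) n) →
      ∃ x y, SetStr.mem x (succ n) ∧ SetStr.mem y (succ n) ∧ ¬ x = y ∧ app f x = app f y) (by (repeat' (with_reducible first | apply pd_Bij | apply pd_Fini | apply pd_Big | apply pd_Ord | apply pd_Tr | apply pd_Ind | apply pf_succ | apply pf_funs | apply pf_prod | apply pf_lam | apply pd_Fn | apply pf_app | apply pf_ran | apply pf_dom | apply PF.img | apply PF.pow | apply PD.sub | apply PF.adj | apply PF.un | apply PF.sUn | apply PF.op | apply PF.pr | apply PF.sep | exact PF.var _ | exact PF.const _ | apply PD.eq | apply PD.mem | apply PD.not | apply PD.iff | apply PD.or | apply PD.and | apply PD.imp | apply PD.ex | apply PD.all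 | exact PD.const _ | assumption | refine PF.comp1 (F := _) (by assumption) ?_ | refine PF.comp2 (F := _) (by assumption) ?_ ?_ | refine PF.comp3 (F := _) (by assumption) ?_ ?_ ?_ | refine PD.app1 (R := _) (by assumption) ?_ | refine PD.app2 (R := _) (by assumption) ?_ ?_ | refine PD.app3 (R := _) (by assumption) ?_ ?_ ?_ | refine PD.app4 (R := _) (by assumption) ?_ ?_ ?_ ?_))) ?_ ?_
    · intro f _ hv
      exact (not_mem_emp _ (hv emp (mem_succ.2 (Or.inr rfl)))).elim
    · intro n hn ih f hf hv
      by_contra hcon
      have hinj : ∀ x y, SetStr.mem x (succ (succ n)) → SetStr.mem y (succ (succ n)) → app f x = app f y → x = y := by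
        intro x y hx hy he
        by_contra hne
        exact hcon ⟨x, y, hx, hy, hne, he⟩
      have hlast : SetStr.mem (succ n) (succ (succ n)) := mem_succ.2 (Or.inr rfl)
      have hup : ∀ x, SetStr.mem x (succ n) → SetStr.mem x (succ (succ n)) := fun x hx => mem_succ.2 (Or.inl hx)
      have hne : ∀ x, SetStr.mem x (succ n) → ¬ x = succ n := fun x hx he => not_mem_self _ (he ▸ hx)
      have hG : PF (fun v : ℕ → M => if app f (v 0) = n then app f (succ n) else app f (v 0)) := by
        refine PF.of_unique (R := fun z v => (app f (v 0) = n ∧ z = app f (succ n)) ∨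
          (¬ app f (v 0) = n ∧ z = app f (v 0))) (fun v z => ?_) (by (repeat' (with_reducible first | apply pd_Bij | apply pd_Fini | apply pd_Big | apply pd_Ord | apply pd_Tr | apply pd_Ind | apply pf_succ | apply pf_funs | apply pf_prod | apply pf_lam | apply pd_Fn | apply pf_app | apply pf_ran | apply pf_dom | apply PF.img | apply PF.pow | apply PD.sub | apply PF.adj | apply PF.un | apply PF.sUn | apply PF.op | apply PF.pr | apply PF.sep | exact PF.var _ | exact PF.const _ | apply PD.eq | apply PD.mem | apply PD.not | apply PD.iff | apply PD.or | apply PD.and | apply PD.imp | apply PD.ex | apply PD.all | exact PD.const _ | assumption | refine PF.comp1 (F := _) (by assumption) ?_ | refine PF.comp2 (F := _) (by assumption) ?_ ?_ | refine PF.comp3 (F := _) (by assumption) ?_ ?_ ?_ | refine PD.app1 (R := _) (by assumption) ?_ | refine PD.app2 (R := _) (by assumption) ?_ ?_ | refine PD.app3 (R := _) (by assumption) ?_ ?_ ?_ | refine PD.app4 (R := _) (by assumption) ?_ ?_ ?_ ?_)))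
        by_cases hc : app f (v 0) = n <;> simp [hc]
      obtain ⟨x, y, hx, hy, hxy, he⟩ := ih
        (lam (fun x => if app f x = n then app f (succ n) else app f x) (succ n))
        (lam_Fn hG _) (by
          intro x hx
          rw [app_lam hG hx]
          split_ifs with hc
          · rcases mem_succ.1 (hv _ hlast) with h | h
            · exact h
            · exact (hne x hx (hinj x (succ n) (hup x hx) hlast (hc.trans h.symm))).elim
          · rcases mem_succ.1 (hv _ (hup x hx)) with h | h
            · exact h
            · exact (hc h).elim)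
      rw [app_lam hG hx, app_lam hG hy] at he
      split_ifs at he with h1 h2 h2
      · exact hxy (hinj x y (hup x hx) (hup y hy) (h1.trans h2.symm))
      · exact hne y hy (hinj _ _ hlast (hup y hy) he).symm
      · exact hne x hx (hinj _ _ (hup x hx) hlast he)
      · exact hxy (hinj x y (hup x hx) (hup y hy) he)
  exact key n hn f hf hv

private theorem fg_inv_set {f a b x y : M} (h : Bij f a b) (hx : SetStr.mem x a) (hxy : app f x = y) :
    GA.sUn (sep a (fun x => app f x = y)) = x := by
  have key : ∀ z, SetStr.mem z (sep a (fun x => app f x = y)) ↔ z = x := by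
    intro z
    rw [mem_sep (by (repeat' (with_reducible first | apply pd_Bij | apply pd_Fini | apply pd_Big | apply pd_Ord | apply pd_Tr | apply pd_Ind | apply pf_succ | apply pf_funs | apply pf_prod | apply pf_lam | apply pd_Fn | apply pf_app | apply pf_ran | apply pf_dom | apply PF.img | apply PF.pow | apply PD.sub | apply PF.adj | apply PF.un | apply PF.sUn | apply PF.op | apply PF.pr | apply PF.sep | exact PF.var _ | exact PF.const _ | apply PD.eq | apply PD.mem | apply PD.not | apply PD.iff | apply PD.or | apply PD.and | apply PD.imp | apply PD.ex | apply PD.all | exact PD.const _ | assumption | refine PF.comp1 (F := _) (by assumption) ?_ | refine PF.comp2 (F := _) (by assumption) ?_ ?_ | refine PF.comp3 (F := _) (by assumption) ?_ ?_ ?_ | refine PD.app1 (R := _) (by assumption) ?_ | refine PD.app2 (R := _) (by assumption) ?_ ?_ | refine PD.app3 (R := _) (by assumption) ?_ ?_ ?_ | refine PD.app4 (R := _) (by assumption) ?_ ?_ ?_ ?_)))]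
    constructor
    · rintro ⟨hz, hzy⟩
      exact h.2.2.2 z x hz hx (hzy.trans hxy.symm)
    · rintro rfl
      exact ⟨hx, hxy⟩
  refine ext (fun w => ?_)
  rw [mem_sUn]
  constructor
  · rintro ⟨z, hz, hw⟩
    rw [key] at hz
    rw [← hz]
    exact hw
  · intro hw
    exact ⟨x, (key x).2 rfl, hw⟩

private theorem fg_inv {f a b : M} (h : Bij f a b) : ∃ g, Bij g b a := by
  have hF : PF (fun v : ℕ → M => GA.sUn (sep a (fun x => app f x = v 0))) := by (repeat' (with_reducible first | apply pd_Bij | apply pd_Fini | apply pd_Big | apply pd_Ord | apply pd_Tr | apply pd_Ind | apply pf_succ | apply pf_funs | apply pf_prod | apply pf_lam | apply pd_Fn | apply pf_app | apply pf_ran | apply pf_dom | apply PF.img | apply PF.pow | apply PD.sub | apply PF.adj | apply PF.un | apply PF.sUn | apply PF.op | apply PF.pr | apply PF.sep | exact PF.var _ | exact PF.const _ | apply PD.eq | apply PD.mem | apply PD.not | apply PD.iff | apply PD.or | apply PD.and | apply PD.imp | apply PD.ex | apply PD.all | exact PD.const _ | assumption | refine PF.comp1 (F := _) (by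 assumption) ?_ | refine PF.comp2 (F := _) (by assumption) ?_ ?_ | refine PF.comp3 (F := _) (by assumption) ?_ ?_ ?_ | refine PD.app1 (R := _) (by assumption) ?_ | refine PD.app2 (R := _) (by assumption) ?_ ?_ | refine PD.app3 (R := _) (by assumption) ?_ ?_ ?_ | refine PD.app4 (R := _) (by assumption) ?_ ?_ ?_ ?_))
  refine ⟨lam (fun y => GA.sUn (sep a (fun x => app f x = y))) b, lam_Fn hF b, ?_, ?_, ?_⟩
  · intro y hy
    rw [app_lam (F := fun y => GA.sUn (sep a (fun x => app f x = y))) hF hy]
    obtain ⟨x, hx, hxy⟩ := h.2.2.1 y hy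
    rw [fg_inv_set h hx hxy]
    exact hx
  · intro x hx
    refine ⟨app f x, h.2.1 x hx, ?_⟩
    rw [app_lam (F := fun y => GA.sUn (sep a (fun x => app f x = y))) hF (h.2.1 x hx)]
    exact fg_inv_set h hx rfl
  · intro y z hy hz hyz
    rw [app_lam (F := fun y => GA.sUn (sep a (fun x => app f x = y))) hF hy,
      app_lam (F := fun y => GA.sUn (sep a (fun x => app f x = y))) hF hz] at hyz
    obtain ⟨x, hx, hxy⟩ := h.2.2.1 y hy
    obtain ⟨x', hx', hxz⟩ := h.2.2.1 z hz
    rw [fg_inv_set h hx hxy, fg_inv_set h hx' hxz] at hyz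
    rw [← hxy, ← hxz, hyz]

private theorem fg_comp {f g a b c : M} (h : Bij f a b) (h' : Bij g b c) : ∃ k, Bij k a c := by
  have hF : PF (fun v : ℕ → M => app g (app f (v 0))) := by (repeat' (with_reducible first | apply pd_Bij | apply pd_Fini | apply pd_Big | apply pd_Ord | apply pd_Tr | apply pd_Ind | apply pf_succ | apply pf_funs | apply pf_prod | apply pf_lam | apply pd_Fn | apply pf_app | apply pf_ran | apply pf_dom | apply PF.img | apply PF.pow | apply PD.sub | apply PF.adj | apply PF.un | apply PF.sUn | apply PF.op | apply PF.pr | apply PF.sep | exact PF.var _ | exact PF.const _ | apply PD.eq | apply PD.mem | apply PD.not | apply PD.iff | apply PD.or | apply PD.and | apply PD.imp | apply PD.ex | apply PD.all | exact PD.const _ | assumption | refine PF.comp1 (F := _) (by assumption) ?_ | refine PF.comp2 (F := _) (by assumption) ?_ ?_ | refine PF.comp3 (F := _) (by assumption) ?_ ?_ ?_ | refine PD.app1 (R := _) (by assumption) ?_ | refine PD.app2 (R := _) (by assumption) ?_ ?_ | refine PD.app3 (R := _) (by assumption) ?_ ?_ ?_ | refine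 PD.app4 (R := _) (by assumption) ?_ ?_ ?_ ?_))
  refine ⟨lam (fun x => app g (app f x)) a, lam_Fn hF a, ?_, ?_, ?_⟩
  · intro x hx
    rw [app_lam (F := fun x => app g (app f x)) hF hx]
    exact h'.2.1 _ (h.2.1 x hx)
  · intro z hz
    obtain ⟨y, hy, hyz⟩ := h'.2.2.1 z hz
    obtain ⟨x, hx, hxy⟩ := h.2.2.1 y hy
    refine ⟨x, hx, ?_⟩
    rw [app_lam (F := fun x => app g (app f x)) hF hx, hxy, hyz]
  · intro x y hx hy hxy
    rw [app_lam (F := fun x => app g (app f x)) hF hx,
      app_lam (F := fun x => app g (app f x)) hF hy] at hxy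
    exact h.2.2.2 x y hx hy (h'.2.2.2 _ _ (h.2.1 x hx) (h.2.1 y hy) hxy)

private theorem fg_ext_Fn {f a x y : M} (h : Fn f a) (hx : ¬ SetStr.mem x a) :
    Fn (GA.adj f (op x y)) (GA.adj a x) := by
  constructor
  · intro z hz
    rcases mem_adj.1 hz with hz | rfl
    · obtain ⟨w, hw, t, rfl⟩ := h.1 z hz
      exact ⟨w, mem_adj.2 (Or.inl hw), t, rfl⟩
    · exact ⟨x, mem_adj.2 (Or.inr rfl), y, rfl⟩
  · intro w hw
    rcases mem_adj.1 hw with hw | rfl
    · refine ⟨⟨app f w, mem_adj.2 (Or.inl (h.app_mem hw))⟩, ?_⟩
      have hne : ∀ t, ¬ op w t = op x y := by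
        intro t ht
        rw [op_inj] at ht
        rw [ht.1] at hw
        exact hx hw
      intro t t' ht ht'
      rcases mem_adj.1 ht with ht | ht
      · rcases mem_adj.1 ht' with ht' | ht'
        · exact (h.2 w hw).2 t t' ht ht'
        · exact (hne _ ht').elim
      · exact (hne _ ht).elim
    · refine ⟨⟨y, mem_adj.2 (Or.inr rfl)⟩, ?_⟩
      have hne : ∀ t, SetStr.mem (op w t) (GA.adj f (op w y)) → t = y := by
        intro t ht
        rcases mem_adj.1 ht with ht | ht
        · exact (hx (h.mem_iff.1 ht).1).elim
        · exact (op_inj.1 ht).2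
      intro t t' ht ht'
      rw [hne t ht, hne t' ht']

private theorem fg_ext_new {f a x y : M} (h : Fn f a) (hx : ¬ SetStr.mem x a) :
    app (GA.adj f (op x y)) x = y :=
  (((fg_ext_Fn h hx).mem_iff (x := x) (y := y)).1 (mem_adj.2 (Or.inr rfl))).2.symm

private theorem fg_ext_old {f a x y z : M} (h : Fn f a) (hx : ¬ SetStr.mem x a) (hz : SetStr.mem z a) :
    app (GA.adj f (op x y)) z = app f z :=
  (((fg_ext_Fn (y := y) h hx).mem_iff (x := z) (y := app f z)).1
    (mem_adj.2 (Or.inl (h.app_mem hz)))).2.symm

private theorem fg_ext_Bij {f a b x y : M} (h : Bij f a b) (hx : ¬ SetStr.mem x a) (hy : ¬ SetStr.mem y b) :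
    Bij (GA.adj f (op x y)) (GA.adj a x) (GA.adj b y) := by
  refine ⟨fg_ext_Fn h.1 hx, ?_, ?_, ?_⟩
  · intro z hz
    rcases mem_adj.1 hz with hz | rfl
    · rw [fg_ext_old h.1 hx hz]
      exact mem_adj.2 (Or.inl (h.2.1 z hz))
    · rw [fg_ext_new h.1 hx]
      exact mem_adj.2 (Or.inr rfl)
  · intro w hw
    rcases mem_adj.1 hw with hw | rfl
    · obtain ⟨z, hz, hzw⟩ := h.2.2.1 w hw
      refine ⟨z, mem_adj.2 (Or.inl hz), ?_⟩
      rw [fg_ext_old h.1 hx hz, hzw]
    · exact ⟨x, mem_adj.2 (Or.inr rfl), fg_ext_new h.1 hx⟩
  · intro z w hz hw hzw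
    rcases mem_adj.1 hz with hz' | hz'
    · rcases mem_adj.1 hw with hw' | hw'
      · rw [fg_ext_old h.1 hx hz', fg_ext_old h.1 hx hw'] at hzw
        exact h.2.2.2 z w hz' hw' hzw
      · rw [hw', fg_ext_old h.1 hx hz', fg_ext_new h.1 hx] at hzw
        exact (hy (hzw ▸ h.2.1 z hz')).elim
    · rcases mem_adj.1 hw with hw' | hw'
      · rw [hz', fg_ext_old h.1 hx hw', fg_ext_new h.1 hx] at hzw
        exact (hy (hzw ▸ h.2.1 w hw')).elim
      · rw [hz', hw']

private theorem fg_Bij_emp : Bij (GA.emp : M) GA.emp GA.emp := by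
  refine ⟨⟨?_, ?_⟩, ?_, ?_, ?_⟩
  · intro z hz
    exact (not_mem_emp z hz).elim
  · intro z hz
    exact (not_mem_emp z hz).elim
  · intro z hz
    exact (not_mem_emp z hz).elim
  · intro z hz
    exact (not_mem_emp z hz).elim
  · intro z w hz
    exact (not_mem_emp z hz).elim

private theorem fg_adj_eq {a y : M} (hy : SetStr.mem y a) : GA.adj a y = a := by
  refine ext (fun z => ?_)
  rw [mem_adj]
  constructor
  · rintro (h | rfl)
    · exact h
    · exact hy
  · intro h
    exact Or.inl h

private theorem fg_not_bij {n m f : M} (hn : SetStr.mem n (om : M)) (hm : SetStr.mem m (om : M))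
    (hmn : SetStr.mem m n) (hf : Bij f n m) : False := by
  have hF : PF (fun v : ℕ → M => app f (v 0)) := by (repeat' (with_reducible first | apply pd_Bij | apply pd_Fini | apply pd_Big | apply pd_Ord | apply pd_Tr | apply pd_Ind | apply pf_succ | apply pf_funs | apply pf_prod | apply pf_lam | apply pd_Fn | apply pf_app | apply pf_ran | apply pf_dom | apply PF.img | apply PF.pow | apply PD.sub | apply PF.adj | apply PF.un | apply PF.sUn | apply PF.op | apply PF.pr | apply PF.sep | exact PF.var _ | exact PF.const _ | apply PD.eq | apply PD.mem | apply PD.not | apply PD.iff | apply PD.or | apply PD.and | apply PD.imp | apply PD.ex | apply PD.all | exact PD.const _ | assumption | refine PF.comp1 (F := _) (by assumption) ?_ | refine PF.comp2 (F := _) (by assumption) ?_ ?_ | refine PF.comp3 (F := _) (by assumption) ?_ ?_ ?_ | refine PD.app1 (R := _) (by assumption) ?_ | refine PD.app2 (R := _) (by assumption) ?_ ?_ | refine PD.app3 (R := _) (by assumption) ?_ ?_ ?_ | refine PD.app4 (R := _) (by assumption) ?_ ?_ ?_ ?_))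
  have hsub : ∀ x, SetStr.mem x (succ m) → SetStr.mem x n := by
    intro x hx
    rcases mem_succ.1 hx with hx | rfl
    · exact om_elt_trans hn hmn hx
    · exact hmn
  obtain ⟨x, y, hx, hy, hxy, h⟩ := pigeon (f := lam (fun x => app f x) (succ m)) hm
    (lam_Fn hF _) (by
      intro x hx
      rw [app_lam (F := fun x => app f x) hF hx]
      exact hf.2.1 x (hsub x hx))
  rw [app_lam (F := fun x => app f x) hF hx, app_lam (F := fun x => app f x) hF hy] at h
  exact hxy (hf.2.2.2 x y (hsub x hx) (hsub y hy) h)

/-- MODULE fg.  Natural numbers in bijection are equal. -/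
theorem om_bij_eq {n m f : M} (hn : SetStr.mem n (om : M)) (hm : SetStr.mem m (om : M)) (hf : Bij f n m) :
    n = m := by
  rcases Ord.tri (Ord.of_mem_om hn) (Ord.of_mem_om hm) with h | h | h
  · obtain ⟨g, hg⟩ := fg_inv hf
    exact (fg_not_bij hm hn h hg).elim
  · exact h
  · exact (fg_not_bij hn hm h hf).elim

/-- MODULE fg.  A finite set is in bijection with a natural number. -/
theorem Fini.exists_bij {a : M} (ha : Fini a) : ∃ n, SetStr.mem n (om : M) ∧ ∃ f, Bij f n a := by
  refine fini_ind (P := fun a => ∃ n, SetStr.mem n (om : M) ∧ ∃ f, Bij f n a) (by (repeat' (with_reducible first | apply pd_Bij | apply pd_Fini | apply pd_Big | apply pd_Ord | apply pd_Tr | apply pd_Ind | apply pf_succ | apply pf_funs | apply pf_prod | apply pf_lam | apply pd_Fn | apply pf_app | apply pf_ran | apply pf_dom | apply PF.img | apply PF.pow | apply PD.sub | apply PF.adj | apply PF.un | apply PF.sUn | apply PF.op | apply PF.pr | apply PF.sep | exact PF.var _ | exact PF.const _ | apply PD.eq | apply PD.mem | apply PD.not | apply PD.iff | apply PD.or | apply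 PD.and | apply PD.imp | apply PD.ex | apply PD.all | exact PD.const _ | assumption | refine PF.comp1 (F := _) (by assumption) ?_ | refine PF.comp2 (F := _) (by assumption) ?_ ?_ | refine PF.comp3 (F := _) (by assumption) ?_ ?_ ?_ | refine PD.app1 (R := _) (by assumption) ?_ | refine PD.app2 (R := _) (by assumption) ?_ ?_ | refine PD.app3 (R := _) (by assumption) ?_ ?_ ?_ | refine PD.app4 (R := _) (by assumption) ?_ ?_ ?_ ?_))) ?_ ?_ a ha
  · exact ⟨GA.emp, emp_mem_om, GA.emp, fg_Bij_emp⟩
  · rintro a y - ⟨n, hn, f, hf⟩
    by_cases hy : SetStr.mem y a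
    · rw [fg_adj_eq hy]
      exact ⟨n, hn, f, hf⟩
    · exact ⟨succ n, succ_mem_om hn, _, fg_ext_Bij hf (not_mem_self n) hy⟩

/-- The number of elements of a finite set. -/
noncomputable def card (a : M) : M := GA.sUn (sep om (fun n => ∃ f, Bij f n a))

theorem pf_card {f : (ℕ → M) → M} (hf : PF f) : PF (fun v => card (f v)) :=
  PF.comp1 (F := fun x => card x) (by unfold card; (repeat' (with_reducible first | apply pd_Bij | apply pd_Fini | apply pd_Big | apply pd_Ord | apply pd_Tr | apply pd_Ind | apply pf_succ | apply pf_funs | apply pf_prod | apply pf_lam | apply pd_Fn | apply pf_app | apply pf_ran | apply pf_dom | apply PF.img | apply PF.pow | apply PD.sub | apply PF.adj | apply PF.un | apply PF.sUn | apply PF.op | apply PF.pr | apply PF.sep | exact PF.var _ | exact PF.const _ | apply PD.eq | apply PD.mem | apply PD.not | apply PD.iff | apply PD.or | apply PD.and | apply PD.imp | apply PD.ex | apply PD.all | exact PD.const _ | assumption | refine PF.comp1 (F := _) (by assumption) ?_ | refine PF.comp2 (F := _) (by assumption) ?_ ?_ | refine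 PF.comp3 (F := _) (by assumption) ?_ ?_ ?_ | refine PD.app1 (R := _) (by assumption) ?_ | refine PD.app2 (R := _) (by assumption) ?_ ?_ | refine PD.app3 (R := _) (by assumption) ?_ ?_ ?_ | refine PD.app4 (R := _) (by assumption) ?_ ?_ ?_ ?_))) hf


/-- MODULE fh -/
theorem card_eq_iff {a n : M} (ha : Fini a) : card a = n ↔ SetStr.mem n (om : M) ∧ ∃ f, Bij f n a := by
  obtain ⟨m, hm, g, hg⟩ := ha.exists_bij
  have key : ∀ k, (SetStr.mem k (om : M) ∧ ∃ f, Bij f k a) ↔ k = m := by
    intro k
    constructor
    · rintro ⟨hk, f, hf⟩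
      obtain ⟨g', hg'⟩ := fg_inv hg
      obtain ⟨h, hh⟩ := fg_comp hf hg'
      exact om_bij_eq hk hm hh
    · rintro rfl
      exact ⟨hm, g, hg⟩
  have hc : card a = m := by
    unfold card
    refine ext (fun w => ?_)
    rw [mem_sUn]
    constructor
    · rintro ⟨z, hz, hw⟩
      rw [mem_sep (by (repeat' (with_reducible first | apply pf_card | apply pd_Bij | apply pd_Fini | apply pd_Big | apply pd_Ord | apply pd_Tr | apply pd_Ind | apply pf_succ | apply pf_funs | apply pf_prod | apply pf_lam | apply pd_Fn | apply pf_app | apply pf_ran | apply pf_dom | apply PF.img | apply PF.pow | apply PD.sub | apply PF.adj | apply PF.un | apply PF.sUn | apply PF.op | apply PF.pr | apply PF.sep | exact PF.var _ | exact PF.const _ | apply PD.eq | apply PD.mem | apply PD.not | apply PD.iff | apply PD.or | apply PD.and | apply PD.imp | apply PD.ex | apply PD.all | exact PD.const _ | assumption | refine PF.comp1 (F := _) (by assumption) ?_ | refine PF.comp2 (F := _) (by assumption) ?_ ?_ | refine PF.comp3 (F := _) (by assumption) ?_ ?_ ?_ | refine PD.app1 (R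 := _) (by assumption) ?_ | refine PD.app2 (R := _) (by assumption) ?_ ?_ | refine PD.app3 (R := _) (by assumption) ?_ ?_ ?_ | refine PD.app4 (R := _) (by assumption) ?_ ?_ ?_ ?_))), key] at hz
      rw [← hz]
      exact hw
    · intro hw
      refine ⟨m, ?_, hw⟩
      rw [mem_sep (by (repeat' (with_reducible first | apply pf_card | apply pd_Bij | apply pd_Fini | apply pd_Big | apply pd_Ord | apply pd_Tr | apply pd_Ind | apply pf_succ | apply pf_funs | apply pf_prod | apply pf_lam | apply pd_Fn | apply pf_app | apply pf_ran | apply pf_dom | apply PF.img | apply PF.pow | apply PD.sub | apply PF.adj | apply PF.un | apply PF.sUn | apply PF.op | apply PF.pr | apply PF.sep | exact PF.var _ | exact PF.const _ | apply PD.eq | apply PD.mem | apply PD.not | apply PD.iff | apply PD.or | apply PD.and | apply PD.imp | apply PD.ex | apply PD.all | exact PD.const _ | assumption | refine PF.comp1 (F := _) (by assumption) ?_ | refine PF.comp2 (F := _) (by assumption) ?_ ?_ | refine PF.comp3 (F := _) (by assumption) ?_ ?_ ?_ | refine PD.app1 (R := _) (by assumption)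 ?_ | refine PD.app2 (R := _) (by assumption) ?_ ?_ | refine PD.app3 (R := _) (by assumption) ?_ ?_ ?_ | refine PD.app4 (R := _) (by assumption) ?_ ?_ ?_ ?_))), key]
  rw [hc, key]
  exact eq_comm

/-- MODULE fh -/
theorem card_mem_om {a : M} (ha : Fini a) : SetStr.mem (card a) (om : M) :=
  ((card_eq_iff ha).1 rfl).1

/-- MODULE fh -/
theorem card_emp : card (GA.emp : M) = GA.emp :=
  (card_eq_iff Fini.emp).2 ⟨emp_mem_om, GA.emp, fg_Bij_emp⟩

/-- MODULE fh -/
theorem card_adj {a y : M} (ha : Fini a) (hy : ¬ SetStr.mem y a) : card (GA.adj a y) = succ (card a) := by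
  obtain ⟨f, hf⟩ := ((card_eq_iff ha).1 rfl).2
  exact (card_eq_iff (ha.adj y)).2 ⟨succ_mem_om (card_mem_om ha), _,
    fg_ext_Bij hf (not_mem_self _) hy⟩

/-- MODULE fi -/
theorem card_mono {a b : M} (hb : Fini b) (h : GA.sub a b) : card a = card b ∨ SetStr.mem (card a) (card b) := by
  refine fini_ind (P := fun b => ∀ a, GA.sub a b → card a = card b ∨ SetStr.mem (card a) (card b))
    (by (repeat' (with_reducible first | apply pf_card | apply pd_Bij | apply pd_Fini | apply pd_Big | apply pd_Ord | apply pd_Tr | apply pd_Ind | apply pf_succ | apply pf_funs | apply pf_prod | apply pf_lam | apply pd_Fn | apply pf_app | apply pf_ran | apply pf_dom | apply PF.img | apply PF.pow | apply PD.sub | apply PF.adj | apply PF.un | apply PF.sUn | apply PF.op | apply PF.pr | apply PF.sep | exact PF.var _ | exact PF.const _ | apply PD.eq | apply PD.mem | apply PD.not | apply PD.iff | apply PD.or | apply PD.and | apply PD.imp | apply PD.ex | apply PD.all | exact PD.const _ | assumption | refine PF.comp1 (F := _) (by assumption) ?_ | refine PF.comp2 (F := _) (by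 assumption) ?_ ?_ | refine PF.comp3 (F := _) (by assumption) ?_ ?_ ?_ | refine PD.app1 (R := _) (by assumption) ?_ | refine PD.app2 (R := _) (by assumption) ?_ ?_ | refine PD.app3 (R := _) (by assumption) ?_ ?_ ?_ | refine PD.app4 (R := _) (by assumption) ?_ ?_ ?_ ?_))) ?_ ?_ b hb a h
  · intro a ha
    left
    congr 1
    refine ext (fun z => ⟨fun hz => ha z hz, fun hz => (not_mem_emp z hz).elim⟩)
  · intro b y hb ih a ha
    by_cases hy : SetStr.mem y b
    · rw [fg_adj_eq hy] at ha ⊢
      exact ih a ha
    · rw [card_adj hb hy]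
      by_cases hya : SetStr.mem y a
      · have hP : PD (fun v : ℕ → M => ¬ v 0 = y) := by (repeat' (with_reducible first | apply pf_card | apply pd_Bij | apply pd_Fini | apply pd_Big | apply pd_Ord | apply pd_Tr | apply pd_Ind | apply pf_succ | apply pf_funs | apply pf_prod | apply pf_lam | apply pd_Fn | apply pf_app | apply pf_ran | apply pf_dom | apply PF.img | apply PF.pow | apply PD.sub | apply PF.adj | apply PF.un | apply PF.sUn | apply PF.op | apply PF.pr | apply PF.sep | exact PF.var _ | exact PF.const _ | apply PD.eq | apply PD.mem | apply PD.not | apply PD.iff | apply PD.or | apply PD.and | apply PD.imp | apply PD.ex | apply PD.all | exact PD.const _ | assumption | refine PF.comp1 (F := _) (by assumption) ?_ | refine PF.comp2 (F := _) (by assumption) ?_ ?_ | refine PF.comp3 (F := _) (by assumption) ?_ ?_ ?_ | refine PD.app1 (R := _) (by assumption) ?_ | refine PD.app2 (R := _) (by assumption) ?_ ?_ | refine PD.app3 (R := _) (by assumption) ?_ ?_ ?_ | refine PD.app4 (R := _) (by assumption) ?_ ?_ ?_ ?_))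
        have hsub : GA.sub (sep a (fun z => ¬ z = y)) b := by
          intro z hz
          rw [mem_sep (P := fun z => ¬ z = y) hP] at hz
          rcases mem_adj.1 (ha z hz.1) with h1 | h1
          · exact h1
          · exact (hz.2 h1).elim
        have hy' : ¬ SetStr.mem y (sep a (fun z => ¬ z = y)) := by
          rw [mem_sep (P := fun z => ¬ z = y) hP]
          exact fun h1 => h1.2 rfl
        have hadj : GA.adj (sep a (fun z => ¬ z = y)) y = a := by
          refine ext (fun z => ?_)
          rw [mem_adj, mem_sep (P := fun z => ¬ z = y) hP]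
          constructor
          · rintro (h1 | rfl)
            · exact h1.1
            · exact hya
          · intro h1
            by_cases h2 : z = y
            · exact Or.inr h2
            · exact Or.inl ⟨h1, h2⟩
        have hc := card_adj (hb.sub hsub) hy'
        rw [hadj] at hc
        rw [hc]
        rcases ih _ hsub with h1 | h1
        · rw [h1]
          exact Or.inl rfl
        · exact Or.inr (succ_mem_succ (card_mem_om hb) h1)
      · have hsub : GA.sub a b := by
          intro z hz
          rcases mem_adj.1 (ha z hz) with h1 | h1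
          · exact h1
          · exact (hya (h1 ▸ hz)).elim
        right
        rw [mem_succ]
        rcases ih a hsub with h1 | h1
        · exact Or.inr h1
        · exact Or.inl h1

/-- MODULE fi -/
theorem card_lt {a b : M} (hb : Fini b) (h : GA.sub a b) {y : M} (hy : SetStr.mem y b) (hya : ¬ SetStr.mem y a) :
    SetStr.mem (card a) (card b) := by
  have hsub : GA.sub (GA.adj a y) b := by
    intro z hz
    rcases mem_adj.1 hz with h1 | rfl
    · exact h z h1
    · exact hy
  have h1 := card_mono hb hsub
  rw [card_adj (hb.sub h) hya] at h1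
  have h2 : SetStr.mem (card a) (succ (card a)) := mem_succ.2 (Or.inr rfl)
  rcases h1 with h1 | h1
  · rw [← h1]
    exact h2
  · exact om_elt_trans (card_mem_om hb) h1 h2

/-- MODULE fj.  A definable property of a finite set `q` has a subset of `q` minimal with it. -/
theorem exists_min_sub {P : M → Prop} (hP : PD (fun v => P (v 0))) {q : M} (hq : Fini q)
    (h : P q) : ∃ r, GA.sub r q ∧ P r ∧ ∀ s, GA.sub s r → P s → s = r := by
  obtain ⟨n, -, ⟨r, hr, hPr, hcr⟩, hmin⟩ := Ord.least
    (P := fun n => ∃ r, GA.sub r q ∧ P r ∧ card r = n) (by (repeat' (with_reducible first | apply pf_card | apply pd_Bij | apply pd_Fini | apply pd_Big | apply pd_Ord | apply pd_Tr | apply pd_Ind | apply pf_succ | apply pf_funs | apply pf_prod | apply pf_lam | apply pd_Fn | apply pf_app | apply pf_ran | apply pf_dom | apply PF.img | apply PF.pow | apply PD.sub | apply PF.adj | apply PF.un | apply PF.sUn | apply PF.op | apply PF.pr | apply PF.sep | exact PF.var _ | exact PF.const _ | apply PD.eq | apply PD.mem | apply PD.not | apply PD.iff | apply PD.or | apply PD.and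 | apply PD.imp | apply PD.ex | apply PD.all | exact PD.const _ | assumption | refine PF.comp1 (F := _) (by assumption) ?_ | refine PF.comp2 (F := _) (by assumption) ?_ ?_ | refine PF.comp3 (F := _) (by assumption) ?_ ?_ ?_ | refine PD.app1 (R := _) (by assumption) ?_ | refine PD.app2 (R := _) (by assumption) ?_ ?_ | refine PD.app3 (R := _) (by assumption) ?_ ?_ ?_ | refine PD.app4 (R := _) (by assumption) ?_ ?_ ?_ ?_)))
    ⟨card q, Ord.of_mem_om (card_mem_om hq), q, fun z hz => hz, h, rfl⟩
  refine ⟨r, hr, hPr, fun s hs hPs => ?_⟩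
  by_contra hne
  have hex : ∃ y, SetStr.mem y r ∧ ¬ SetStr.mem y s := by
    by_contra hcon
    apply hne
    refine ext (fun z => ⟨fun hz => hs z hz, fun hz => ?_⟩)
    by_contra hzs
    exact hcon ⟨z, hz, hzs⟩
  obtain ⟨y, hy, hys⟩ := hex
  have hlt := card_lt (hq.sub hr) hs hy hys
  rw [hcr] at hlt
  exact hmin _ hlt ⟨s, fun z hz => hr z (hs z hz), hPs, rfl⟩

/-- The set of finite subsets of `x`. -/
noncomputable def fins (x : M) : M := sep (pow x) (fun a => Fini a)

theorem mem_fins {x a : M} : SetStr.mem a (fins x) ↔ GA.sub a x ∧ Fini a := by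
  unfold fins
  rw [mem_sep (by (repeat' (with_reducible first | apply pf_card | apply pd_Bij | apply pd_Fini | apply pd_Big | apply pd_Ord | apply pd_Tr | apply pd_Ind | apply pf_succ | apply pf_funs | apply pf_prod | apply pf_lam | apply pd_Fn | apply pf_app | apply pf_ran | apply pf_dom | apply PF.img | apply PF.pow | apply PD.sub | apply PF.adj | apply PF.un | apply PF.sUn | apply PF.op | apply PF.pr | apply PF.sep | exact PF.var _ | exact PF.const _ | apply PD.eq | apply PD.mem | apply PD.not | apply PD.iff | apply PD.or | apply PD.and | apply PD.imp | apply PD.ex | apply PD.all | exact PD.const _ | assumption | refine PF.comp1 (F := _) (by assumption) ?_ | refine PF.comp2 (F := _) (by assumption) ?_ ?_ | refine PF.comp3 (F := _) (by assumption) ?_ ?_ ?_ | refine PD.app1 (R := _) (by assumption) ?_ | refine PD.app2 (R := _) (by assumption) ?_ ?_ | refine PD.app3 (R := _) (by assumption) ?_ ?_ ?_ | refine PD.app4 (R := _) (by assumption) ?_ ?_ ?_ ?_))), mem_pow]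

theorem pf_fins {f : (ℕ → M) → M} (hf : PF f) : PF (fun v => fins (f v)) :=
  PF.comp1 (F := fun x => fins x) (by unfold fins; (repeat' (with_reducible first | apply pf_card | apply pd_Bij | apply pd_Fini | apply pd_Big | apply pd_Ord | apply pd_Tr | apply pd_Ind | apply pf_succ | apply pf_funs | apply pf_prod | apply pf_lam | apply pd_Fn | apply pf_app | apply pf_ran | apply pf_dom | apply PF.img | apply PF.pow | apply PD.sub | apply PF.adj | apply PF.un | apply PF.sUn | apply PF.op | apply PF.pr | apply PF.sep | exact PF.var _ | exact PF.const _ | apply PD.eq | apply PD.mem | apply PD.not | apply PD.iff | apply PD.or | apply PD.and | apply PD.imp | apply PD.ex | apply PD.all | exact PD.const _ | assumption | refine PF.comp1 (F := _) (by assumption) ?_ | refine PF.comp2 (F := _) (by assumption) ?_ ?_ | refine PF.comp3 (F := _) (by assumption) ?_ ?_ ?_ | refine PD.app1 (R := _) (by assumption) ?_ | refine PD.app2 (R := _) (by assumption) ?_ ?_ | refine PD.app3 (R := _) (by assumption) ?_ ?_ ?_ | refine PD.app4 (R := _) (by assumption) ?_ ?_ ?_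 ?_))) hf


/-- `R` is a strict linear order on the set `a`. -/
def LinO (R : M → M → Prop) (a : M) : Prop :=
  (∀ x, SetStr.mem x a → ¬ R x x) ∧
    (∀ x y z, SetStr.mem x a → SetStr.mem y a → SetStr.mem z a → R x y → R y z → R x z) ∧
      ∀ x y, SetStr.mem x a → SetStr.mem y a → x = y ∨ R x y ∨ R y x

/-- The position of `y` in the set `a` with respect to `R`. -/
noncomputable def pos (R : M → M → Prop) (a y : M) : M := card (sep a (fun z => R z y))

theorem pf_pos {R : M → M → Prop} (hR : PD (fun v => R (v 0) (v 1))) {f g : (ℕ → M) → M}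
    (hf : PF f) (hg : PF g) : PF (fun v => pos R (f v) (g v)) :=
  PF.comp2 (F := fun x y => pos R x y) (by unfold pos; (repeat' (with_reducible first | apply pf_fins | apply pf_card | apply pd_Bij | apply pd_Fini | apply pd_Big | apply pd_Ord | apply pd_Tr | apply pd_Ind | apply pf_succ | apply pf_funs | apply pf_prod | apply pf_lam | apply pd_Fn | apply pf_app | apply pf_ran | apply pf_dom | apply PF.img | apply PF.pow | apply PD.sub | apply PF.adj | apply PF.un | apply PF.sUn | apply PF.op | apply PF.pr | apply PF.sep | exact PF.var _ | exact PF.const _ | apply PD.eq | apply PD.mem | apply PD.not | apply PD.iff | apply PD.or | apply PD.and | apply PD.imp | apply PD.ex | apply PD.all | exact PD.const _ | assumption | refine PF.comp1 (F := _) (by assumption) ?_ | refine PF.comp2 (F := _) (by assumption) ?_ ?_ | refine PF.comp3 (F := _) (by assumption) ?_ ?_ ?_ | refine PD.app1 (R := _) (by assumption) ?_ | refine PD.app2 (R := _) (by assumption) ?_ ?_ | refine PD.app3 (R := _) (by assumption) ?_ ?_ ?_ | refine PD.app4 (R := _) (by assumption)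 ?_ ?_ ?_ ?_))) hf hg

private theorem fk_lt {R : M → M → Prop} (hR : PD (fun v => R (v 0) (v 1))) {a y z : M}
    (ha : Fini (sep a (fun x => R x z)))
    (hl : LinO R a) (hy : SetStr.mem y a) (hz : SetStr.mem z a) (h : R y z) : SetStr.mem (pos R a y) (pos R a z) := by
  have h1 : PD (fun v : ℕ → M => R (v 0) y) := by (repeat' (with_reducible first | apply pf_fins | apply pf_card | apply pd_Bij | apply pd_Fini | apply pd_Big | apply pd_Ord | apply pd_Tr | apply pd_Ind | apply pf_succ | apply pf_funs | apply pf_prod | apply pf_lam | apply pd_Fn | apply pf_app | apply pf_ran | apply pf_dom | apply PF.img | apply PF.pow | apply PD.sub | apply PF.adj | apply PF.un | apply PF.sUn | apply PF.op | apply PF.pr | apply PF.sep | exact PF.var _ | exact PF.const _ | apply PD.eq | apply PD.mem | apply PD.not | apply PD.iff | apply PD.or | apply PD.and | apply PD.imp | apply PD.ex | apply PD.all | exact PD.const _ | assumption | refine PF.comp1 (F := _) (by assumption) ?_ | refine PF.comp2 (F := _) (by assumption) ?_ ?_ | refine PF.comp3 (F := _) (by assumption)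 ?_ ?_ ?_ | refine PD.app1 (R := _) (by assumption) ?_ | refine PD.app2 (R := _) (by assumption) ?_ ?_ | refine PD.app3 (R := _) (by assumption) ?_ ?_ ?_ | refine PD.app4 (R := _) (by assumption) ?_ ?_ ?_ ?_))
  have h2 : PD (fun v : ℕ → M => R (v 0) z) := by (repeat' (with_reducible first | apply pf_fins | apply pf_card | apply pd_Bij | apply pd_Fini | apply pd_Big | apply pd_Ord | apply pd_Tr | apply pd_Ind | apply pf_succ | apply pf_funs | apply pf_prod | apply pf_lam | apply pd_Fn | apply pf_app | apply pf_ran | apply pf_dom | apply PF.img | apply PF.pow | apply PD.sub | apply PF.adj | apply PF.un | apply PF.sUn | apply PF.op | apply PF.pr | apply PF.sep | exact PF.var _ | exact PF.const _ | apply PD.eq | apply PD.mem | apply PD.not | apply PD.iff | apply PD.or | apply PD.and | apply PD.imp | apply PD.ex | apply PD.all | exact PD.const _ | assumption | refine PF.comp1 (F := _) (by assumption) ?_ | refine PF.comp2 (F := _) (by assumption) ?_ ?_ | refine PF.comp3 (F := _) (by assumption) ?_ ?_ ?_ | refine PD.app1 (R := _) (by assumption) ?_ |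 refine PD.app2 (R := _) (by assumption) ?_ ?_ | refine PD.app3 (R := _) (by assumption) ?_ ?_ ?_ | refine PD.app4 (R := _) (by assumption) ?_ ?_ ?_ ?_))
  unfold pos
  refine card_lt ha ?_ (y := y) ?_ ?_
  · intro x hx
    rw [mem_sep (P := fun x => R x y) h1] at hx
    rw [mem_sep (P := fun x => R x z) h2]
    exact ⟨hx.1, hl.2.1 x y z hx.1 hy hz hx.2 h⟩
  · rw [mem_sep (P := fun x => R x z) h2]
    exact ⟨hy, h⟩
  · rw [mem_sep (P := fun x => R x y) h1]
    exact fun hx => hl.1 y hy hx.2

private theorem fk_inj {R : M → M → Prop} (hR : PD (fun v => R (v 0) (v 1))) {a y z : M}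
    (ha : ∀ y, SetStr.mem y a → Fini (sep a (fun z => R z y)))
    (hl : LinO R a) (hy : SetStr.mem y a) (hz : SetStr.mem z a) (h : pos R a y = pos R a z) : y = z := by
  rcases hl.2.2 y z hy hz with h1 | h1 | h1
  · exact h1
  · have h2 := fk_lt hR (ha z hz) hl hy hz h1
    rw [h] at h2
    exact (not_mem_self _ h2).elim
  · have h2 := fk_lt hR (ha y hy) hl hz hy h1
    rw [h] at h2
    exact (not_mem_self _ h2).elim

/-- MODULE fk.  In a finite linearly ordered set the position determines the element. -/
theorem pos_inj {R : M → M → Prop} (hR : PD (fun v => R (v 0) (v 1))) {a y z : M} (ha : Fini a)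
    (hl : LinO R a) (hy : SetStr.mem y a) (hz : SetStr.mem z a) (h : pos R a y = pos R a z) : y = z := by
  refine fk_inj hR (fun w _ => ha.sub ?_) hl hy hz h
  intro x hx
  have h1 : PD (fun v : ℕ → M => R (v 0) w) := by (repeat' (with_reducible first | apply pf_fins | apply pf_card | apply pd_Bij | apply pd_Fini | apply pd_Big | apply pd_Ord | apply pd_Tr | apply pd_Ind | apply pf_succ | apply pf_funs | apply pf_prod | apply pf_lam | apply pd_Fn | apply pf_app | apply pf_ran | apply pf_dom | apply PF.img | apply PF.pow | apply PD.sub | apply PF.adj | apply PF.un | apply PF.sUn | apply PF.op | apply PF.pr | apply PF.sep | exact PF.var _ | exact PF.const _ | apply PD.eq | apply PD.mem | apply PD.not | apply PD.iff | apply PD.or | apply PD.and | apply PD.imp | apply PD.ex | apply PD.all | exact PD.const _ | assumption | refine PF.comp1 (F := _) (by assumption) ?_ | refine PF.comp2 (F := _) (by assumption) ?_ ?_ | refine PF.comp3 (F := _) (by assumption) ?_ ?_ ?_ | refine PD.app1 (R := _) (by assumption) ?_ | refine PD.app2 (R := _) (by assumption)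 ?_ ?_ | refine PD.app3 (R := _) (by assumption) ?_ ?_ ?_ | refine PD.app4 (R := _) (by assumption) ?_ ?_ ?_ ?_))
  rw [mem_sep (P := fun x => R x w) h1] at hx
  exact hx.1

/-- MODULE fk.  A linear order all of whose initial segments are finite embeds into omega by `pos`. -/
theorem pos_inj' {R : M → M → Prop} (hR : PD (fun v => R (v 0) (v 1))) {a y z : M}
    (ha : ∀ y, SetStr.mem y a → Fini (sep a (fun z => R z y)))
    (hl : LinO R a) (hy : SetStr.mem y a) (hz : SetStr.mem z a) (h : pos R a y = pos R a z) : y = z :=
  fk_inj hR ha hl hy hz h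

end GA
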