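import Pool.Agent.GA.Eqv
import Pool.Agent.GA.Fin

/-!
# The notions of the statement and the notions of the library
-/

universe u

namespace GA.Dp

open FirstOrder FirstOrder.Language SetStr

variable {M : Type u} [SetStr M] [IsZF M]

theorem isPr_iff {z x y : M} : IsPr z x y ↔ z = pr x y := by
  constructor
  · intro h
    exact ext (fun w => by rw [mem_pr]; exact h w)
  · rintro rfl w
    exact mem_pr

theorem isOp_iff {z x y : M} : IsOp z x y ↔ z = op x y := by
  unfold IsOp op
  simp only [isPr_iff]
  constructor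
  · rintro ⟨a, b, rfl, rfl, h⟩
    exact h
  · intro h
    exact ⟨_, _, rfl, rfl, h⟩

theorem rel_iff {r x y : M} : Rel r x y ↔ SetStr.mem (op x y) r := by
  unfold Rel
  simp only [isOp_iff]
  constructor
  · rintro ⟨z, rfl, h⟩
    exact h
  · intro h
    exact ⟨_, rfl, h⟩

theorem isEmp_iff {x : M} : IsEmp x ↔ x = emp := by
  constructor
  · intro h
    exact ext (fun z => ⟨fun hz => (h z hz).elim, fun hz => (not_mem_emp z hz).elim⟩)
  · rintro rfl z
    exact not_mem_emp z

theorem isAdj_iff {s x y : M} : IsAdj s x y ↔ s = adj x y := by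
  constructor
  · intro h
    exact ext (fun z => by rw [mem_adj]; exact h z)
  · rintro rfl z
    exact mem_adj

omit [IsZF M] in
theorem isOrd_iff {x : M} : IsOrd x ↔ Ord x := Iff.rfl

theorem isInd_iff {J : M} : IsInd J ↔ Ind J := by
  unfold IsInd Ind succ
  simp only [isEmp_iff, isAdj_iff]
  constructor
  · rintro ⟨⟨e, rfl, h1⟩, h2⟩
    refine ⟨h1, fun y hy => ?_⟩
    obtain ⟨s, rfl, hs⟩ := h2 y hy
    exact hs
  · rintro ⟨h1, h2⟩
    exact ⟨⟨_, rfl, h1⟩, fun y hy => ⟨_, rfl, h2 y hy⟩⟩

theorem isOmega_iff {w : M} : IsOmega w ↔ w = om := by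
  unfold IsOmega
  simp only [isInd_iff]
  constructor
  · intro h
    exact ext (fun n => (h n).trans mem_om.symm)
  · rintro rfl n
    exact mem_om

theorem isFun_iff {f a b : M} : IsFun f a b ↔ Fn f a ∧ ∀ x, SetStr.mem x a → SetStr.mem (app f x) b := by
  unfold IsFun
  simp only [isOp_iff, rel_iff]
  constructor
  · rintro ⟨h1, h2⟩
    have hF : Fn f a := by
      refine ⟨fun z hz => ?_, fun x hx => ?_⟩
      · obtain ⟨x, y, hx, -, h⟩ := h1 z hz
        exact ⟨x, hx, y, h⟩
      · obtain ⟨y, hy, hy'⟩ := h2 x hx
        exact ⟨⟨y, hy⟩, fun y1 y2 h3 h4 => (hy' y1 h3).trans (hy' y2 h4).symm⟩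
    refine ⟨hF, fun x hx => ?_⟩
    obtain ⟨x', y', -, hy', h⟩ := h1 _ (hF.app_mem hx)
    rw [op_inj] at h
    rw [h.2]
    exact hy'
  · rintro ⟨h1, h2⟩
    refine ⟨fun z hz => ?_, fun x hx => ?_⟩
    · obtain ⟨x, hx, y, rfl⟩ := h1.1 z hz
      have := (h1.mem_iff.1 hz).2
      exact ⟨x, y, hx, this ▸ h2 x hx, rfl⟩
    · exact ⟨app f x, h1.app_mem hx, fun y hy => (h1.mem_iff.1 hy).2⟩

theorem isInj_iff {f a b : M} : IsInj f a b ↔ (Fn f a ∧ ∀ x, SetStr.mem x a → SetStr.mem (app f x) b) ∧
    ∀ x y, SetStr.mem x a → SetStr.mem y a → app f x = app f y → x = y := by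
  unfold IsInj
  rw [isFun_iff]
  refine and_congr_right (fun h => ?_)
  simp only [rel_iff]
  constructor
  · intro h1 x y hx hy hxy
    exact h1 x y _ (h.1.app_mem hx) (hxy ▸ h.1.app_mem hy)
  · intro h1 x y z hx hy
    rw [h.1.mem_iff] at hx hy
    exact h1 x y hx.1 hy.1 (hx.2.symm.trans hy.2)

theorem isFin_iff {a : M} : IsFin a ↔ Fini a := by
  unfold IsFin
  simp only [isOmega_iff, isInj_iff]
  constructor
  · rintro ⟨w, n, f, rfl, hn, ⟨hf, hv⟩, hi⟩
    have h1 : Fini (ran f) := (Fini.of_mem_om hn).sub (fun y hy => by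
      obtain ⟨x, hx, rfl⟩ := (hf.mem_ran).1 hy
      exact hv x hx)
    have h2 : a = img (fun y => sUn (sep a (fun x => SetStr.mem (op x y) f))) (ran f) := by
      have key : ∀ x, SetStr.mem x a → sUn (sep a (fun x' => SetStr.mem (op x' (app f x)) f)) = x := by
        intro x hx
        refine ext (fun z => ?_)
        rw [mem_sUn]
        constructor
        · rintro ⟨x', hx', hz⟩
          rw [mem_sep (by (repeat' (with_reducible first | apply pf_fins | apply pf_card | apply pd_Bij | apply pd_Fini | apply pd_Big | apply pd_Ord | apply pd_Fmem | apply pd_Feq | apply pd_Tr | apply pd_Ind | apply pf_succ | apply pf_funs | apply pf_prod | apply pf_lam | apply pd_Fn | apply pf_app | apply pf_ran | apply pf_dom | apply PF.img | apply PF.pow | apply PD.sub | apply PF.adj | apply PF.un | apply PF.sUn | apply PF.op | apply PF.pr | apply PF.sep | exact PF.var _ | exact PF.const _ | apply PD.eq | apply PD.mem | apply PD.not | apply PD.iff | apply PD.or | apply PD.and | apply PD.imp | apply PD.ex | apply PD.all | exact PD.const _ | assumption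 | refine PF.comp1 (F := _) (by assumption) ?_ | refine PF.comp2 (F := _) (by assumption) ?_ ?_ | refine PF.comp3 (F := _) (by assumption) ?_ ?_ ?_ | refine PD.app1 (R := _) (by assumption) ?_ | refine PD.app2 (R := _) (by assumption) ?_ ?_ | refine PD.app3 (R := _) (by assumption) ?_ ?_ ?_ | refine PD.app4 (R := _) (by assumption) ?_ ?_ ?_ ?_)))] at hx'
          have h3 := (hf.mem_iff.1 hx'.2).2
          rw [hi x x' hx hx'.1 h3]
          exact hz
        · intro hz
          refine ⟨x, ?_, hz⟩
          rw [mem_sep (by (repeat' (with_reducible first | apply pf_fins | apply pf_card | apply pd_Bij | apply pd_Fini | apply pd_Big | apply pd_Ord | apply pd_Fmem | apply pd_Feq | apply pd_Tr | apply pd_Ind | apply pf_succ | apply pf_funs | apply pf_prod | apply pf_lam | apply pd_Fn | apply pf_app | apply pf_ran | apply pf_dom | apply PF.img | apply PF.pow | apply PD.sub | apply PF.adj | apply PF.un | apply PF.sUn | apply PF.op | apply PF.pr | apply PF.sep | exact PF.var _ | exact PF.const _ | apply PD.eq | apply PD.mem | apply PD.not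 | apply PD.iff | apply PD.or | apply PD.and | apply PD.imp | apply PD.ex | apply PD.all | exact PD.const _ | assumption | refine PF.comp1 (F := _) (by assumption) ?_ | refine PF.comp2 (F := _) (by assumption) ?_ ?_ | refine PF.comp3 (F := _) (by assumption) ?_ ?_ ?_ | refine PD.app1 (R := _) (by assumption) ?_ | refine PD.app2 (R := _) (by assumption) ?_ ?_ | refine PD.app3 (R := _) (by assumption) ?_ ?_ ?_ | refine PD.app4 (R := _) (by assumption) ?_ ?_ ?_ ?_)))]
          exact ⟨hx, hf.app_mem hx⟩
      refine ext (fun z => ?_)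
      rw [mem_img (by (repeat' (with_reducible first | apply pf_fins | apply pf_card | apply pd_Bij | apply pd_Fini | apply pd_Big | apply pd_Ord | apply pd_Fmem | apply pd_Feq | apply pd_Tr | apply pd_Ind | apply pf_succ | apply pf_funs | apply pf_prod | apply pf_lam | apply pd_Fn | apply pf_app | apply pf_ran | apply pf_dom | apply PF.img | apply PF.pow | apply PD.sub | apply PF.adj | apply PF.un | apply PF.sUn | apply PF.op | apply PF.pr | apply PF.sep | exact PF.var _ | exact PF.const _ | apply PD.eq | apply PD.mem | apply PD.not | apply PD.iff | apply PD.or | apply PD.and | apply PD.imp | apply PD.ex | apply PD.all | exact PD.const _ | assumption | refine PF.comp1 (F := _) (by assumption) ?_ | refine PF.comp2 (F := _) (by assumption) ?_ ?_ | refine PF.comp3 (F := _) (by assumption) ?_ ?_ ?_ | refine PD.app1 (R := _) (by assumption) ?_ | refine PD.app2 (R := _) (by assumption) ?_ ?_ | refine PD.app3 (R := _) (by assumption) ?_ ?_ ?_ | refine PD.app4 (R := _) (by assumption) ?_ ?_ ?_ ?_)))]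
      constructor
      · intro hz
        exact ⟨app f z, (hf.mem_ran).2 ⟨z, hz, rfl⟩, (key z hz).symm⟩
      · rintro ⟨y, hy, rfl⟩
        obtain ⟨x, hx, rfl⟩ := (hf.mem_ran).1 hy
        rw [key x hx]
        exact hx
    rw [h2]
    exact h1.img (by (repeat' (with_reducible first | apply pf_fins | apply pf_card | apply pd_Bij | apply pd_Fini | apply pd_Big | apply pd_Ord | apply pd_Fmem | apply pd_Feq | apply pd_Tr | apply pd_Ind | apply pf_succ | apply pf_funs | apply pf_prod | apply pf_lam | apply pd_Fn | apply pf_app | apply pf_ran | apply pf_dom | apply PF.img | apply PF.pow | apply PD.sub | apply PF.adj | apply PF.un | apply PF.sUn | apply PF.op | apply PF.pr | apply PF.sep | exact PF.var _ | exact PF.const _ | apply PD.eq | apply PD.mem | apply PD.not | apply PD.iff | apply PD.or | apply PD.and | apply PD.imp | apply PD.ex | apply PD.all | exact PD.const _ | assumption | refine PF.comp1 (F := _) (by assumption) ?_ | refine PF.comp2 (F := _) (by assumption) ?_ ?_ | refine PF.comp3 (F := _) (by assumption) ?_ ?_ ?_ | refine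 PD.app1 (R := _) (by assumption) ?_ | refine PD.app2 (R := _) (by assumption) ?_ ?_ | refine PD.app3 (R := _) (by assumption) ?_ ?_ ?_ | refine PD.app4 (R := _) (by assumption) ?_ ?_ ?_ ?_)))
  · intro h
    obtain ⟨n, hn, f, hf⟩ := h.exists_bij
    obtain ⟨h1, h2, h3, h4⟩ := hf
    have key : ∀ k, SetStr.mem k n → sUn (sep n (fun k' => app f k' = app f k)) = k := by
      intro k hk
      refine ext (fun z => ?_)
      rw [mem_sUn]
      constructor
      · rintro ⟨k', hk', hz⟩
        rw [mem_sep (by (repeat' (with_reducible first | apply pf_fins | apply pf_card | apply pd_Bij | apply pd_Fini | apply pd_Big | apply pd_Ord | apply pd_Fmem | apply pd_Feq | apply pd_Tr | apply pd_Ind | apply pf_succ | apply pf_funs | apply pf_prod | apply pf_lam | apply pd_Fn | apply pf_app | apply pf_ran | apply pf_dom | apply PF.img | apply PF.pow | apply PD.sub | apply PF.adj | apply PF.un | apply PF.sUn | apply PF.op | apply PF.pr | apply PF.sep | exact PF.var _ | exact PF.const _ | apply PD.eq | apply PD.mem | apply PD.not | apply PD.iff | apply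 PD.or | apply PD.and | apply PD.imp | apply PD.ex | apply PD.all | exact PD.const _ | assumption | refine PF.comp1 (F := _) (by assumption) ?_ | refine PF.comp2 (F := _) (by assumption) ?_ ?_ | refine PF.comp3 (F := _) (by assumption) ?_ ?_ ?_ | refine PD.app1 (R := _) (by assumption) ?_ | refine PD.app2 (R := _) (by assumption) ?_ ?_ | refine PD.app3 (R := _) (by assumption) ?_ ?_ ?_ | refine PD.app4 (R := _) (by assumption) ?_ ?_ ?_ ?_)))] at hk'
        rw [← h4 k' k hk'.1 hk hk'.2]
        exact hz
      · intro hz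
        refine ⟨k, ?_, hz⟩
        rw [mem_sep (by (repeat' (with_reducible first | apply pf_fins | apply pf_card | apply pd_Bij | apply pd_Fini | apply pd_Big | apply pd_Ord | apply pd_Fmem | apply pd_Feq | apply pd_Tr | apply pd_Ind | apply pf_succ | apply pf_funs | apply pf_prod | apply pf_lam | apply pd_Fn | apply pf_app | apply pf_ran | apply pf_dom | apply PF.img | apply PF.pow | apply PD.sub | apply PF.adj | apply PF.un | apply PF.sUn | apply PF.op | apply PF.pr | apply PF.sep | exact PF.var _ | exact PF.const _ | apply PD.eq | apply PD.mem | apply PD.not | apply PD.iff | apply PD.or | apply PD.and | apply PD.imp | apply PD.ex | apply PD.all | exact PD.const _ | assumption | refine PF.comp1 (F := _) (by assumption) ?_ | refine PF.comp2 (F := _) (by assumption) ?_ ?_ | refine PF.comp3 (F := _) (by assumption) ?_ ?_ ?_ | refine PD.app1 (R := _) (by assumption) ?_ | refine PD.app2 (R := _) (by assumption) ?_ ?_ | refine PD.app3 (R := _) (by assumption) ?_ ?_ ?_ | refine PD.app4 (R := _) (by assumption) ?_ ?_ ?_ ?_)))]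
        exact ⟨hk, rfl⟩
    refine ⟨om, n, lam (fun x => sUn (sep n (fun k => app f k = x))) a, rfl, hn,
      ⟨lam_Fn (by (repeat' (with_reducible first | apply pf_fins | apply pf_card | apply pd_Bij | apply pd_Fini | apply pd_Big | apply pd_Ord | apply pd_Fmem | apply pd_Feq | apply pd_Tr | apply pd_Ind | apply pf_succ | apply pf_funs | apply pf_prod | apply pf_lam | apply pd_Fn | apply pf_app | apply pf_ran | apply pf_dom | apply PF.img | apply PF.pow | apply PD.sub | apply PF.adj | apply PF.un | apply PF.sUn | apply PF.op | apply PF.pr | apply PF.sep | exact PF.var _ | exact PF.const _ | apply PD.eq | apply PD.mem | apply PD.not | apply PD.iff | apply PD.or | apply PD.and | apply PD.imp | apply PD.ex | apply PD.all | exact PD.const _ | assumption | refine PF.comp1 (F := _) (by assumption) ?_ | refine PF.comp2 (F := _) (by assumption) ?_ ?_ | refine PF.comp3 (F := _) (by assumption) ?_ ?_ ?_ | refine PD.app1 (R := _) (by assumption) ?_ | refine PD.app2 (R := _) (by assumption) ?_ ?_ | refine PD.app3 (R := _) (by assumption) ?_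 ?_ ?_ | refine PD.app4 (R := _) (by assumption) ?_ ?_ ?_ ?_))) a, fun x hx => ?_⟩, fun x y hx hy hxy => ?_⟩
    · rw [app_lam (by (repeat' (with_reducible first | apply pf_fins | apply pf_card | apply pd_Bij | apply pd_Fini | apply pd_Big | apply pd_Ord | apply pd_Fmem | apply pd_Feq | apply pd_Tr | apply pd_Ind | apply pf_succ | apply pf_funs | apply pf_prod | apply pf_lam | apply pd_Fn | apply pf_app | apply pf_ran | apply pf_dom | apply PF.img | apply PF.pow | apply PD.sub | apply PF.adj | apply PF.un | apply PF.sUn | apply PF.op | apply PF.pr | apply PF.sep | exact PF.var _ | exact PF.const _ | apply PD.eq | apply PD.mem | apply PD.not | apply PD.iff | apply PD.or | apply PD.and | apply PD.imp | apply PD.ex | apply PD.all | exact PD.const _ | assumption | refine PF.comp1 (F := _) (by assumption) ?_ | refine PF.comp2 (F := _) (by assumption) ?_ ?_ | refine PF.comp3 (F := _) (by assumption) ?_ ?_ ?_ | refine PD.app1 (R := _) (by assumption) ?_ | refine PD.app2 (R := _) (by assumption) ?_ ?_ | refine PD.app3 (R := _) (by assumption)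 ?_ ?_ ?_ | refine PD.app4 (R := _) (by assumption) ?_ ?_ ?_ ?_))) hx]
      obtain ⟨k, hk, rfl⟩ := h3 x hx
      rw [key k hk]
      exact hk
    · rw [app_lam (by (repeat' (with_reducible first | apply pf_fins | apply pf_card | apply pd_Bij | apply pd_Fini | apply pd_Big | apply pd_Ord | apply pd_Fmem | apply pd_Feq | apply pd_Tr | apply pd_Ind | apply pf_succ | apply pf_funs | apply pf_prod | apply pf_lam | apply pd_Fn | apply pf_app | apply pf_ran | apply pf_dom | apply PF.img | apply PF.pow | apply PD.sub | apply PF.adj | apply PF.un | apply PF.sUn | apply PF.op | apply PF.pr | apply PF.sep | exact PF.var _ | exact PF.const _ | apply PD.eq | apply PD.mem | apply PD.not | apply PD.iff | apply PD.or | apply PD.and | apply PD.imp | apply PD.ex | apply PD.all | exact PD.const _ | assumption | refine PF.comp1 (F := _) (by assumption) ?_ | refine PF.comp2 (F := _) (by assumption) ?_ ?_ | refine PF.comp3 (F := _) (by assumption) ?_ ?_ ?_ | refine PD.app1 (R := _) (by assumption) ?_ | refine PD.app2 (R := _) (by assumption) ?_ ?_ | refine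 PD.app3 (R := _) (by assumption) ?_ ?_ ?_ | refine PD.app4 (R := _) (by assumption) ?_ ?_ ?_ ?_))) hx, app_lam (by (repeat' (with_reducible first | apply pf_fins | apply pf_card | apply pd_Bij | apply pd_Fini | apply pd_Big | apply pd_Ord | apply pd_Fmem | apply pd_Feq | apply pd_Tr | apply pd_Ind | apply pf_succ | apply pf_funs | apply pf_prod | apply pf_lam | apply pd_Fn | apply pf_app | apply pf_ran | apply pf_dom | apply PF.img | apply PF.pow | apply PD.sub | apply PF.adj | apply PF.un | apply PF.sUn | apply PF.op | apply PF.pr | apply PF.sep | exact PF.var _ | exact PF.const _ | apply PD.eq | apply PD.mem | apply PD.not | apply PD.iff | apply PD.or | apply PD.and | apply PD.imp | apply PD.ex | apply PD.all | exact PD.const _ | assumption | refine PF.comp1 (F := _) (by assumption) ?_ | refine PF.comp2 (F := _) (by assumption) ?_ ?_ | refine PF.comp3 (F := _) (by assumption) ?_ ?_ ?_ | refine PD.app1 (R := _) (by assumption) ?_ | refine PD.app2 (R := _) (by assumption) ?_ ?_ | refine PD.app3 (R := _) (by assumption) ?_ ?_ ?_ |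 refine PD.app4 (R := _) (by assumption) ?_ ?_ ?_ ?_))) hy] at hxy
      obtain ⟨k, hk, rfl⟩ := h3 x hx
      obtain ⟨k', hk', rfl⟩ := h3 y hy
      rw [key k hk, key k' hk'] at hxy
      rw [hxy]

theorem IsForcing.lib {P L o : M} (h : IsForcing P L o) : GA.IsForcing P L o where
  fld q p hqp := by
    obtain ⟨q', p', hq, hp, h'⟩ := h.fld _ hqp
    rw [isOp_iff, op_inj] at h'
    rw [h'.1, h'.2]
    exact ⟨hq, hp⟩
  refl p hp := rel_iff.1 (h.refl p hp)
  trans r q p h1 h2 := rel_iff.1 (h.trans r q p (rel_iff.2 h1) (rel_iff.2 h2))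
  top_mem := h.top_mem
  le_top p hp := rel_iff.1 (h.le_top p hp)

theorem eqClause_iff {L : M} {R : M → M → M → Prop} {p x y : M} :
    EqClause L R p x y ↔ Clause L R p x y := by
  unfold EqClause Clause Half
  simp only [rel_iff]

omit [IsZF M] in
theorem definable3_iff {R : M → M → M → Prop} :
    Definable3 R ↔ PD (fun v => R (v 0) (v 1) (v 2)) := by
  constructor
  · rintro ⟨φ, hφ⟩
    refine ⟨φ.relabel (Sum.map id (fun i : Fin 3 => (i : ℕ))), fun v => ?_⟩
    show _ ↔ R (v 0) (v 1) (v 2)
    rw [Formula.realize_relabel, ← hφ]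
    refine iff_of_eq ?_
    congr 1
    funext a
    rcases a with a | i
    · rfl
    · fin_cases i <;> rfl
  · rintro ⟨φ, hφ⟩
    refine ⟨φ.relabel (Sum.map id (fun i : ℕ => if h : i < 3 then ⟨i, h⟩ else 0)), fun p x y => ?_⟩
    rw [Formula.realize_relabel]
    have h1 := hφ (fun i => (![p, x, y] : Fin 3 → M) (if h : i < 3 then ⟨i, h⟩ else 0))
    refine Iff.trans (iff_of_eq ?_) h1
    congr 1
    funext a
    rcases a with a | i
    · rfl
    · rfl

theorem isForcedEq_iff {L : M} {R : M → M → M → Prop} : IsForcedEq L R ↔ R = Feq L := by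
  unfold IsForcedEq
  rw [definable3_iff]
  simp only [eqClause_iff]
  constructor
  · rintro ⟨h1, h2⟩
    funext p x y
    exact propext (Feq.unique h1 h2 p x y)
  · rintro rfl
    exact ⟨pd_Feq (PF.const L) (PF.var 0) (PF.var 1) (PF.var 2), fun p x y => Feq_iff⟩

/-- There is exactly one forcing relation. -/
theorem existsUnique_forcedEq (L : M) : ∃! R, IsForcedEq L R :=
  ⟨Feq L, isForcedEq_iff.2 rfl, fun _ h => isForcedEq_iff.1 h⟩

theorem forcedMem_iff {L p x y : M} : ForcedMem L (Feq L) p x y ↔ Fmem L p x y := by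
  unfold ForcedMem Fmem
  simp only [rel_iff]

theorem forces_iff {L : M} {α : Type} {n : ℕ} (φ : LST.BoundedFormula α n) (p : M) (v : α → M)
    (xs : Fin n → M) : Forces L (Feq L) φ p v xs ↔ GA.Forces L φ p v xs := by
  induction φ generalizing p with
  | falsum => exact Iff.rfl
  | equal t₁ t₂ => exact Iff.rfl
  | rel R ts =>
    cases R
    exact forcedMem_iff
  | imp φ ψ ih1 ih2 =>
    refine forall_congr' (fun q => ?_)
    rw [rel_iff]
    exact imp_congr Iff.rfl (imp_congr (ih1 q xs) (ih2 q xs))
  | all φ ih => exact forall_congr' (fun x => ih p _)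

theorem absolute_iff {L o : M} : Absolute L o ↔
    ∀ φ : LST.Sentence, M ⊨ φ ↔ GA.Forces L φ o default default := by
  unfold Absolute ForcesSentence
  constructor
  · intro h φ
    exact (h _ (isForcedEq_iff.2 rfl) φ).trans (forces_iff _ _ _ _)
  · intro h R hR φ
    rw [isForcedEq_iff] at hR
    subst hR
    exact (h φ).trans (forces_iff _ _ _ _).symm

end GA.Dp
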