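import Pool.Agent.GA.Om

/-!
# The recursion theorem
-/

universe u

namespace GA

variable {M : Type u} [SetStr M] [IsZF M]

/-- `pred` has the induction principle for definable predicates. -/
def HasInd (pred : M → M) : Prop :=
  ∀ P : M → Prop, PD (fun v => P (v 0)) → (∀ x, (∀ y, SetStr.mem y (pred x) → P y) → P x) → ∀ x, P x

/-- `f` is a partial solution of the recursion `F x = G x (F restricted to pred x)`. -/
def Good (pred : M → M) (G : M → M → M) (f : M) : Prop :=
  Fn f (dom f) ∧ ∀ x, SetStr.mem x (dom f) →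
    (∀ y, SetStr.mem y (pred x) → SetStr.mem y (dom f)) ∧ app f x = G x (lam (fun y => app f y) (pred x))

theorem pd_Good {pred : M → M} {G : M → M → M} (hpred : PF (fun v => pred (v 0)))
    (hG : PF (fun v => G (v 0) (v 1))) : PD (fun v => Good pred G (v 0)) := by
  unfold Good
  (repeat' (with_reducible first | apply pd_Tr | apply pd_Ind | apply pf_succ | apply pf_funs | apply pf_prod | apply pf_lam | apply pd_Fn | apply pf_app | apply pf_ran | apply pf_dom | apply PF.img | apply PF.pow | apply PD.sub | apply PF.adj | apply PF.un | apply PF.sUn | apply PF.op | apply PF.pr | apply PF.sep | exact PF.var _ | exact PF.const _ | apply PD.eq | apply PD.mem | apply PD.not | apply PD.iff | apply PD.or | apply PD.and | apply PD.imp | apply PD.ex | apply PD.all | exact PD.const _ | assumption | refine PF.comp1 (F := _) (by assumption) ?_ | refine PF.comp2 (F := _) (by assumption) ?_ ?_ | refine PF.comp3 (F := _) (by assumption) ?_ ?_ ?_ | refine PD.app1 (R := _) (by assumption) ?_ | refine PD.app2 (R := _) (by assumption) ?_ ?_ | refine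 PD.app3 (R := _) (by assumption) ?_ ?_ ?_ | refine PD.app4 (R := _) (by assumption) ?_ ?_ ?_ ?_))

/-- MODULE ra -/
private theorem ra_lam_congr {F F' : M → M} (hF : PF (fun v => F (v 0))) (hF' : PF (fun v => F' (v 0)))
    {a : M} (h : ∀ y, SetStr.mem y a → F y = F' y) : lam F a = lam F' a := by
  refine (lam_Fn hF a).ext (lam_Fn hF' a) (fun y hy => ?_)
  rw [app_lam hF hy, app_lam hF' hy, h y hy]

/-- MODULE ra.  Two partial solutions agree on the common domain (induction with `HasInd`). -/
theorem Good.unique {pred : M → M} {G : M → M → M} (hpred : PF (fun v => pred (v 0)))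
    (hG : PF (fun v => G (v 0) (v 1))) (hind : HasInd pred) {f g x : M} (hf : Good pred G f)
    (hg : Good pred G g) (hxf : SetStr.mem x (dom f)) (hxg : SetStr.mem x (dom g)) : app f x = app g x := by
  have key : ∀ x, SetStr.mem x (dom f) → SetStr.mem x (dom g) → app f x = app g x := by
    refine hind (fun x => SetStr.mem x (dom f) → SetStr.mem x (dom g) → app f x = app g x) (by (repeat' (with_reducible first | apply pd_Tr | apply pd_Ind | apply pf_succ | apply pf_funs | apply pf_prod | apply pf_lam | apply pd_Fn | apply pf_app | apply pf_ran | apply pf_dom | apply PF.img | apply PF.pow | apply PD.sub | apply PF.adj | apply PF.un | apply PF.sUn | apply PF.op | apply PF.pr | apply PF.sep | exact PF.var _ | exact PF.const _ | apply PD.eq | apply PD.mem | apply PD.not | apply PD.iff | apply PD.or | apply PD.and | apply PD.imp | apply PD.ex | apply PD.all | exact PD.const _ | assumption | refine PF.comp1 (F := _) (by assumption) ?_ | refine PF.comp2 (F := _) (by assumption) ?_ ?_ | refine PF.comp3 (F := _) (by assumption) ?_ ?_ ?_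 | refine PD.app1 (R := _) (by assumption) ?_ | refine PD.app2 (R := _) (by assumption) ?_ ?_ | refine PD.app3 (R := _) (by assumption) ?_ ?_ ?_ | refine PD.app4 (R := _) (by assumption) ?_ ?_ ?_ ?_))) ?_
    intro x ih hxf hxg
    obtain ⟨h1, h2⟩ := hf.2 x hxf
    obtain ⟨h3, h4⟩ := hg.2 x hxg
    rw [h2, h4, ra_lam_congr (F := fun y => app f y) (F' := fun y => app g y) (by (repeat' (with_reducible first | apply pd_Tr | apply pd_Ind | apply pf_succ | apply pf_funs | apply pf_prod | apply pf_lam | apply pd_Fn | apply pf_app | apply pf_ran | apply pf_dom | apply PF.img | apply PF.pow | apply PD.sub | apply PF.adj | apply PF.un | apply PF.sUn | apply PF.op | apply PF.pr | apply PF.sep | exact PF.var _ | exact PF.const _ | apply PD.eq | apply PD.mem | apply PD.not | apply PD.iff | apply PD.or | apply PD.and | apply PD.imp | apply PD.ex | apply PD.all | exact PD.const _ | assumption | refine PF.comp1 (F := _) (by assumption) ?_ | refine PF.comp2 (F := _) (by assumption) ?_ ?_ | refine PF.comp3 (F := _) (by assumption) ?_ ?_ ?_ | refine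 PD.app1 (R := _) (by assumption) ?_ | refine PD.app2 (R := _) (by assumption) ?_ ?_ | refine PD.app3 (R := _) (by assumption) ?_ ?_ ?_ | refine PD.app4 (R := _) (by assumption) ?_ ?_ ?_ ?_))) (by (repeat' (with_reducible first | apply pd_Tr | apply pd_Ind | apply pf_succ | apply pf_funs | apply pf_prod | apply pf_lam | apply pd_Fn | apply pf_app | apply pf_ran | apply pf_dom | apply PF.img | apply PF.pow | apply PD.sub | apply PF.adj | apply PF.un | apply PF.sUn | apply PF.op | apply PF.pr | apply PF.sep | exact PF.var _ | exact PF.const _ | apply PD.eq | apply PD.mem | apply PD.not | apply PD.iff | apply PD.or | apply PD.and | apply PD.imp | apply PD.ex | apply PD.all | exact PD.const _ | assumption | refine PF.comp1 (F := _) (by assumption) ?_ | refine PF.comp2 (F := _) (by assumption) ?_ ?_ | refine PF.comp3 (F := _) (by assumption) ?_ ?_ ?_ | refine PD.app1 (R := _) (by assumption) ?_ | refine PD.app2 (R := _) (by assumption) ?_ ?_ | refine PD.app3 (R := _) (by assumption) ?_ ?_ ?_ | refine PD.app4 (R := _) (by assumption) ?_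 ?_ ?_ ?_)))
      (fun y hy => ih y hy (h1 y hy) (h3 y hy))]
  exact key x hxf hxg

/-- MODULE rb -/
private theorem rb_app {f a b : M} (hf : Fn f (dom f)) (h : SetStr.mem (op a b) f) : app f a = b :=
  ((hf.mem_iff.1 h).2).symm

/-- MODULE rb -/
private theorem rb_mem {f a : M} (hf : Fn f (dom f)) (h : SetStr.mem a (dom f)) : SetStr.mem (op a (app f a)) f :=
  hf.app_mem h

/-- MODULE rb.  The union of a set of partial solutions is a partial solution. -/
private theorem rb_union {pred : M → M} {G : M → M → M} (hpred : PF (fun v => pred (v 0)))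
    (hG : PF (fun v => G (v 0) (v 1))) (hind : HasInd pred) {W : M}
    (hW : ∀ h, SetStr.mem h W → Good pred G h) : Good pred G (sUn W) := by
  have hfn : Fn (sUn W) (dom (sUn W)) := by
    constructor
    · intro z hz
      obtain ⟨h, hh, hzh⟩ := mem_sUn.1 hz
      obtain ⟨x, hx, y, rfl⟩ := (hW h hh).1.1 z hzh
      exact ⟨x, mem_dom.2 ⟨y, hz⟩, y, rfl⟩
    · intro x hx
      refine ⟨mem_dom.1 hx, ?_⟩
      intro y y' hy hy'
      obtain ⟨h, hh, hyh⟩ := mem_sUn.1 hy
      obtain ⟨h', hh', hyh'⟩ := mem_sUn.1 hy'
      rw [← rb_app (hW h hh).1 hyh, ← rb_app (hW h' hh').1 hyh']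
      exact Good.unique hpred hG hind (hW h hh) (hW h' hh') (mem_dom.2 ⟨y, hyh⟩)
        (mem_dom.2 ⟨y', hyh'⟩)
  have happ : ∀ h, SetStr.mem h W → ∀ x, SetStr.mem x (dom h) → SetStr.mem x (dom (sUn W)) ∧ app (sUn W) x = app h x := by
    intro h hh x hx
    have h1 : SetStr.mem (op x (app h x)) (sUn W) := mem_sUn.2 ⟨h, hh, rb_mem (hW h hh).1 hx⟩
    exact ⟨mem_dom.2 ⟨_, h1⟩, rb_app hfn h1⟩
  refine ⟨hfn, fun x hx => ?_⟩
  obtain ⟨y, hy⟩ := mem_dom.1 hx
  obtain ⟨h, hh, hyh⟩ := mem_sUn.1 hy
  have hxh : SetStr.mem x (dom h) := mem_dom.2 ⟨y, hyh⟩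
  obtain ⟨h1, h2⟩ := (hW h hh).2 x hxh
  refine ⟨fun y hy => (happ h hh y (h1 y hy)).1, ?_⟩
  rw [(happ h hh x hxh).2, h2]
  rw [ra_lam_congr (F := fun y => app h y) (F' := fun y => app (sUn W) y) (by (repeat' (with_reducible first | apply pd_Tr | apply pd_Ind | apply pf_succ | apply pf_funs | apply pf_prod | apply pf_lam | apply pd_Fn | apply pf_app | apply pf_ran | apply pf_dom | apply PF.img | apply PF.pow | apply PD.sub | apply PF.adj | apply PF.un | apply PF.sUn | apply PF.op | apply PF.pr | apply PF.sep | exact PF.var _ | exact PF.const _ | apply PD.eq | apply PD.mem | apply PD.not | apply PD.iff | apply PD.or | apply PD.and | apply PD.imp | apply PD.ex | apply PD.all | exact PD.const _ | assumption | refine PF.comp1 (F := _) (by assumption) ?_ | refine PF.comp2 (F := _) (by assumption) ?_ ?_ | refine PF.comp3 (F := _) (by assumption) ?_ ?_ ?_ | refine PD.app1 (R := _) (by assumption) ?_ | refine PD.app2 (R := _) (by assumption) ?_ ?_ | refine PD.app3 (R := _) (by assumption) ?_ ?_ ?_ | refine PD.app4 (R := _) (by assumption)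 ?_ ?_ ?_ ?_))) (by (repeat' (with_reducible first | apply pd_Tr | apply pd_Ind | apply pf_succ | apply pf_funs | apply pf_prod | apply pf_lam | apply pd_Fn | apply pf_app | apply pf_ran | apply pf_dom | apply PF.img | apply PF.pow | apply PD.sub | apply PF.adj | apply PF.un | apply PF.sUn | apply PF.op | apply PF.pr | apply PF.sep | exact PF.var _ | exact PF.const _ | apply PD.eq | apply PD.mem | apply PD.not | apply PD.iff | apply PD.or | apply PD.and | apply PD.imp | apply PD.ex | apply PD.all | exact PD.const _ | assumption | refine PF.comp1 (F := _) (by assumption) ?_ | refine PF.comp2 (F := _) (by assumption) ?_ ?_ | refine PF.comp3 (F := _) (by assumption) ?_ ?_ ?_ | refine PD.app1 (R := _) (by assumption) ?_ | refine PD.app2 (R := _) (by assumption) ?_ ?_ | refine PD.app3 (R := _) (by assumption) ?_ ?_ ?_ | refine PD.app4 (R := _) (by assumption) ?_ ?_ ?_ ?_)))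
    (fun y hy => ((happ h hh y (h1 y hy)).2).symm)]

/-- MODULE rb.  The least partial solution with a given element in its domain. -/
private theorem rb_least {pred : M → M} {G : M → M → M} (hpred : PF (fun v => pred (v 0)))
    (hG : PF (fun v => G (v 0) (v 1))) (hind : HasInd pred) {f y : M}
    (hf : Good pred G f) (hy : SetStr.mem y (dom f)) :
    ∃ h, Good pred G h ∧ SetStr.mem y (dom h) ∧ ∀ g, Good pred G g → SetStr.mem y (dom g) → GA.sub h g := by
  have hgd := pd_Good hpred hG
  have hpd : PD (fun v : ℕ → M => ∀ g, Good pred G g → SetStr.mem y (dom g) → SetStr.mem (v 0) g) := by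
    refine PD.all (P := fun g v => Good pred G g → SetStr.mem y (dom g) → SetStr.mem (v 0) g) ?_
    refine PD.imp hgd ?_
    (repeat' (with_reducible first | apply pd_Tr | apply pd_Ind | apply pf_succ | apply pf_funs | apply pf_prod | apply pf_lam | apply pd_Fn | apply pf_app | apply pf_ran | apply pf_dom | apply PF.img | apply PF.pow | apply PD.sub | apply PF.adj | apply PF.un | apply PF.sUn | apply PF.op | apply PF.pr | apply PF.sep | exact PF.var _ | exact PF.const _ | apply PD.eq | apply PD.mem | apply PD.not | apply PD.iff | apply PD.or | apply PD.and | apply PD.imp | apply PD.ex | apply PD.all | exact PD.const _ | assumption | refine PF.comp1 (F := _) (by assumption) ?_ | refine PF.comp2 (F := _) (by assumption) ?_ ?_ | refine PF.comp3 (F := _) (by assumption) ?_ ?_ ?_ | refine PD.app1 (R := _) (by assumption) ?_ | refine PD.app2 (R := _) (by assumption) ?_ ?_ | refine PD.app3 (R := _) (by assumption) ?_ ?_ ?_ | refine PD.app4 (R := _) (by assumption) ?_ ?_ ?_ ?_))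
  have hmem : ∀ z, SetStr.mem z (sep f (fun z => ∀ g, Good pred G g → SetStr.mem y (dom g) → SetStr.mem z g)) ↔
      ∀ g, Good pred G g → SetStr.mem y (dom g) → SetStr.mem z g := by
    intro z
    rw [mem_sep hpd]
    exact ⟨fun h => h.2, fun h => ⟨h f hf hy, h⟩⟩
  generalize sep f (fun z => ∀ g, Good pred G g → SetStr.mem y (dom g) → SetStr.mem z g) = h at hmem
  have hsub : ∀ g, Good pred G g → SetStr.mem y (dom g) → GA.sub h g :=
    fun g hg hyg z hz => (hmem z).1 hz g hg hyg
  have hfn : Fn h (dom h) := by
    constructor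
    · intro z hz
      obtain ⟨x, hx, w, rfl⟩ := hf.1.1 z (hsub f hf hy z hz)
      exact ⟨x, mem_dom.2 ⟨w, hz⟩, w, rfl⟩
    · intro x hx
      refine ⟨mem_dom.1 hx, ?_⟩
      intro w w' hw hw'
      rw [← rb_app hf.1 (hsub f hf hy _ hw), ← rb_app hf.1 (hsub f hf hy _ hw')]
  have hdom : ∀ x, (∀ g, Good pred G g → SetStr.mem y (dom g) → SetStr.mem x (dom g)) →
      SetStr.mem x (dom h) ∧ app h x = app f x := by
    intro x hx
    have h1 : SetStr.mem (op x (app f x)) h := by
      rw [hmem]
      intro g hg hyg
      rw [Good.unique hpred hG hind hf hg (hx f hf hy) (hx g hg hyg)]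
      exact rb_mem hg.1 (hx g hg hyg)
    exact ⟨mem_dom.2 ⟨_, h1⟩, rb_app hfn h1⟩
  have hdom' : ∀ x, SetStr.mem x (dom h) → ∀ g, Good pred G g → SetStr.mem y (dom g) → SetStr.mem x (dom g) := by
    intro x hx g hg hyg
    obtain ⟨w, hw⟩ := mem_dom.1 hx
    exact mem_dom.2 ⟨w, hsub g hg hyg _ hw⟩
  refine ⟨h, ⟨hfn, fun x hx => ?_⟩, (hdom y (fun g _ hyg => hyg)).1, hsub⟩
  have h1 := hdom' x hx
  have h2 : ∀ x', SetStr.mem x' (pred x) → SetStr.mem x' (dom h) ∧ app h x' = app f x' := by
    intro x' hx'
    exact hdom x' (fun g hg hyg => (hg.2 x (h1 g hg hyg)).1 x' hx')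
  refine ⟨fun x' hx' => (h2 x' hx').1, ?_⟩
  rw [(hdom x h1).2, (hf.2 x (h1 f hf hy)).2]
  rw [ra_lam_congr (F := fun y => app f y) (F' := fun y => app h y) (by (repeat' (with_reducible first | apply pd_Tr | apply pd_Ind | apply pf_succ | apply pf_funs | apply pf_prod | apply pf_lam | apply pd_Fn | apply pf_app | apply pf_ran | apply pf_dom | apply PF.img | apply PF.pow | apply PD.sub | apply PF.adj | apply PF.un | apply PF.sUn | apply PF.op | apply PF.pr | apply PF.sep | exact PF.var _ | exact PF.const _ | apply PD.eq | apply PD.mem | apply PD.not | apply PD.iff | apply PD.or | apply PD.and | apply PD.imp | apply PD.ex | apply PD.all | exact PD.const _ | assumption | refine PF.comp1 (F := _) (by assumption) ?_ | refine PF.comp2 (F := _) (by assumption) ?_ ?_ | refine PF.comp3 (F := _) (by assumption) ?_ ?_ ?_ | refine PD.app1 (R := _) (by assumption) ?_ | refine PD.app2 (R := _) (by assumption) ?_ ?_ | refine PD.app3 (R := _) (by assumption) ?_ ?_ ?_ | refine PD.app4 (R := _) (by assumption) ?_ ?_ ?_ ?_))) (by (repeat' (with_reducible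 first | apply pd_Tr | apply pd_Ind | apply pf_succ | apply pf_funs | apply pf_prod | apply pf_lam | apply pd_Fn | apply pf_app | apply pf_ran | apply pf_dom | apply PF.img | apply PF.pow | apply PD.sub | apply PF.adj | apply PF.un | apply PF.sUn | apply PF.op | apply PF.pr | apply PF.sep | exact PF.var _ | exact PF.const _ | apply PD.eq | apply PD.mem | apply PD.not | apply PD.iff | apply PD.or | apply PD.and | apply PD.imp | apply PD.ex | apply PD.all | exact PD.const _ | assumption | refine PF.comp1 (F := _) (by assumption) ?_ | refine PF.comp2 (F := _) (by assumption) ?_ ?_ | refine PF.comp3 (F := _) (by assumption) ?_ ?_ ?_ | refine PD.app1 (R := _) (by assumption) ?_ | refine PD.app2 (R := _) (by assumption) ?_ ?_ | refine PD.app3 (R := _) (by assumption) ?_ ?_ ?_ | refine PD.app4 (R := _) (by assumption) ?_ ?_ ?_ ?_)))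
    (fun y hy => ((h2 y hy).2).symm)]

/-- MODULE rb.  Adding one point. -/
private theorem rb_adj {pred : M → M} {G : M → M → M} {U x : M} (hU : Good pred G U)
    (hx : ¬ SetStr.mem x (dom U)) (hp : ∀ y, SetStr.mem y (pred x) → SetStr.mem y (dom U)) :
    Good pred G (adj U (op x (G x (lam (fun y => app U y) (pred x))))) ∧
      SetStr.mem x (dom (adj U (op x (G x (lam (fun y => app U y) (pred x)))))) := by
  generalize hv : G x (lam (fun y => app U y) (pred x)) = v
  have hfn : Fn (adj U (op x v)) (dom (adj U (op x v))) := by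
    constructor
    · intro z hz
      rcases mem_adj.1 hz with h | rfl
      · obtain ⟨a, ha, b, rfl⟩ := hU.1.1 z h
        exact ⟨a, mem_dom.2 ⟨b, hz⟩, b, rfl⟩
      · exact ⟨x, mem_dom.2 ⟨v, hz⟩, v, rfl⟩
    · intro a ha
      refine ⟨mem_dom.1 ha, ?_⟩
      intro b b' hb hb'
      rcases mem_adj.1 hb with h | h <;> rcases mem_adj.1 hb' with h' | h'
      · rw [← rb_app hU.1 h, ← rb_app hU.1 h']
      · rw [op_inj] at h'
        exact (hx (mem_dom.2 ⟨b, h'.1 ▸ h⟩)).elim
      · rw [op_inj] at h
        exact (hx (mem_dom.2 ⟨b', h.1 ▸ h'⟩)).elim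
      · rw [op_inj] at h h'
        rw [h.2, h'.2]
  have happ : ∀ a, SetStr.mem a (dom U) → SetStr.mem a (dom (adj U (op x v))) ∧ app (adj U (op x v)) a = app U a := by
    intro a ha
    have h1 : SetStr.mem (op a (app U a)) (adj U (op x v)) := mem_adj.2 (Or.inl (rb_mem hU.1 ha))
    exact ⟨mem_dom.2 ⟨_, h1⟩, rb_app hfn h1⟩
  have hxv : SetStr.mem (op x v) (adj U (op x v)) := mem_adj.2 (Or.inr rfl)
  refine ⟨⟨hfn, fun a ha => ?_⟩, mem_dom.2 ⟨v, hxv⟩⟩
  obtain ⟨b, hb⟩ := mem_dom.1 ha
  rcases mem_adj.1 hb with h | h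
  · have haU : SetStr.mem a (dom U) := mem_dom.2 ⟨b, h⟩
    obtain ⟨h1, h2⟩ := hU.2 a haU
    refine ⟨fun y hy => (happ y (h1 y hy)).1, ?_⟩
    rw [(happ a haU).2, h2]
    rw [ra_lam_congr (F := fun y => app U y) (F' := fun y => app (adj U (op x v)) y) (by (repeat' (with_reducible first | apply pd_Tr | apply pd_Ind | apply pf_succ | apply pf_funs | apply pf_prod | apply pf_lam | apply pd_Fn | apply pf_app | apply pf_ran | apply pf_dom | apply PF.img | apply PF.pow | apply PD.sub | apply PF.adj | apply PF.un | apply PF.sUn | apply PF.op | apply PF.pr | apply PF.sep | exact PF.var _ | exact PF.const _ | apply PD.eq | apply PD.mem | apply PD.not | apply PD.iff | apply PD.or | apply PD.and | apply PD.imp | apply PD.ex | apply PD.all | exact PD.const _ | assumption | refine PF.comp1 (F := _) (by assumption) ?_ | refine PF.comp2 (F := _) (by assumption) ?_ ?_ | refine PF.comp3 (F := _) (by assumption) ?_ ?_ ?_ | refine PD.app1 (R := _) (by assumption) ?_ | refine PD.app2 (R := _) (by assumption) ?_ ?_ | refine PD.app3 (R := _) (by assumption)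 ?_ ?_ ?_ | refine PD.app4 (R := _) (by assumption) ?_ ?_ ?_ ?_))) (by (repeat' (with_reducible first | apply pd_Tr | apply pd_Ind | apply pf_succ | apply pf_funs | apply pf_prod | apply pf_lam | apply pd_Fn | apply pf_app | apply pf_ran | apply pf_dom | apply PF.img | apply PF.pow | apply PD.sub | apply PF.adj | apply PF.un | apply PF.sUn | apply PF.op | apply PF.pr | apply PF.sep | exact PF.var _ | exact PF.const _ | apply PD.eq | apply PD.mem | apply PD.not | apply PD.iff | apply PD.or | apply PD.and | apply PD.imp | apply PD.ex | apply PD.all | exact PD.const _ | assumption | refine PF.comp1 (F := _) (by assumption) ?_ | refine PF.comp2 (F := _) (by assumption) ?_ ?_ | refine PF.comp3 (F := _) (by assumption) ?_ ?_ ?_ | refine PD.app1 (R := _) (by assumption) ?_ | refine PD.app2 (R := _) (by assumption) ?_ ?_ | refine PD.app3 (R := _) (by assumption) ?_ ?_ ?_ | refine PD.app4 (R := _) (by assumption) ?_ ?_ ?_ ?_)))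
      (fun y hy => ((happ y (h1 y hy)).2).symm)]
  · rw [op_inj] at h
    obtain ⟨rfl, _⟩ := h
    refine ⟨fun y hy => (happ y (hp y hy)).1, ?_⟩
    rw [rb_app hfn hxv]
    conv_lhs => rw [← hv]
    rw [ra_lam_congr (F := fun y => app U y) (F' := fun y => app (adj U (op a v)) y) (by (repeat' (with_reducible first | apply pd_Tr | apply pd_Ind | apply pf_succ | apply pf_funs | apply pf_prod | apply pf_lam | apply pd_Fn | apply pf_app | apply pf_ran | apply pf_dom | apply PF.img | apply PF.pow | apply PD.sub | apply PF.adj | apply PF.un | apply PF.sUn | apply PF.op | apply PF.pr | apply PF.sep | exact PF.var _ | exact PF.const _ | apply PD.eq | apply PD.mem | apply PD.not | apply PD.iff | apply PD.or | apply PD.and | apply PD.imp | apply PD.ex | apply PD.all | exact PD.const _ | assumption | refine PF.comp1 (F := _) (by assumption) ?_ | refine PF.comp2 (F := _) (by assumption) ?_ ?_ | refine PF.comp3 (F := _) (by assumption) ?_ ?_ ?_ | refine PD.app1 (R := _) (by assumption) ?_ | refine PD.app2 (R := _) (by assumption) ?_ ?_ | refine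 PD.app3 (R := _) (by assumption) ?_ ?_ ?_ | refine PD.app4 (R := _) (by assumption) ?_ ?_ ?_ ?_))) (by (repeat' (with_reducible first | apply pd_Tr | apply pd_Ind | apply pf_succ | apply pf_funs | apply pf_prod | apply pf_lam | apply pd_Fn | apply pf_app | apply pf_ran | apply pf_dom | apply PF.img | apply PF.pow | apply PD.sub | apply PF.adj | apply PF.un | apply PF.sUn | apply PF.op | apply PF.pr | apply PF.sep | exact PF.var _ | exact PF.const _ | apply PD.eq | apply PD.mem | apply PD.not | apply PD.iff | apply PD.or | apply PD.and | apply PD.imp | apply PD.ex | apply PD.all | exact PD.const _ | assumption | refine PF.comp1 (F := _) (by assumption) ?_ | refine PF.comp2 (F := _) (by assumption) ?_ ?_ | refine PF.comp3 (F := _) (by assumption) ?_ ?_ ?_ | refine PD.app1 (R := _) (by assumption) ?_ | refine PD.app2 (R := _) (by assumption) ?_ ?_ | refine PD.app3 (R := _) (by assumption) ?_ ?_ ?_ | refine PD.app4 (R := _) (by assumption) ?_ ?_ ?_ ?_)))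
      (fun y hy => ((happ y (hp y hy)).2).symm)]

/-- MODULE rb.  Every `x` is in the domain of a partial solution.  By induction: for `y ∈ pred x` let
`H y` be the intersection of all good `f` with `y ∈ dom f` (a good function by `Good.unique`); by
`exists_repl` the `H y`, `y ∈ pred x`, form a set; its union `U` is good; add the pair
`(x, G x (lam (app U) (pred x)))` if `x` is not in its domain. -/
theorem Good.exists {pred : M → M} {G : M → M → M} (hpred : PF (fun v => pred (v 0)))
    (hG : PF (fun v => G (v 0) (v 1))) (hind : HasInd pred) (x : M) :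
    ∃ f, Good pred G f ∧ SetStr.mem x (dom f) := by
  have hgd := pd_Good hpred hG
  have hPD : PD (fun v : ℕ → M => ∃ f, Good pred G f ∧ SetStr.mem (v 0) (dom f)) := by
    refine PD.ex (P := fun f v => Good pred G f ∧ SetStr.mem (v 0) (dom f)) ?_
    refine PD.and hgd ?_
    (repeat' (with_reducible first | apply pd_Tr | apply pd_Ind | apply pf_succ | apply pf_funs | apply pf_prod | apply pf_lam | apply pd_Fn | apply pf_app | apply pf_ran | apply pf_dom | apply PF.img | apply PF.pow | apply PD.sub | apply PF.adj | apply PF.un | apply PF.sUn | apply PF.op | apply PF.pr | apply PF.sep | exact PF.var _ | exact PF.const _ | apply PD.eq | apply PD.mem | apply PD.not | apply PD.iff | apply PD.or | apply PD.and | apply PD.imp | apply PD.ex | apply PD.all | exact PD.const _ | assumption | refine PF.comp1 (F := _) (by assumption) ?_ | refine PF.comp2 (F := _) (by assumption) ?_ ?_ | refine PF.comp3 (F := _) (by assumption) ?_ ?_ ?_ | refine PD.app1 (R := _) (by assumption) ?_ | refine PD.app2 (R := _) (by assumption) ?_ ?_ | refine PD.app3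 (R := _) (by assumption) ?_ ?_ ?_ | refine PD.app4 (R := _) (by assumption) ?_ ?_ ?_ ?_))
  refine hind (fun x => ∃ f, Good pred G f ∧ SetStr.mem x (dom f)) hPD ?_ x
  intro x ih
  have hR : PD (fun v : ℕ → M => Good pred G (v 1) ∧ SetStr.mem (v 0) (dom (v 1)) ∧
      ∀ g, Good pred G g → SetStr.mem (v 0) (dom g) → GA.sub (v 1) g) := by
    refine PD.and (PD.app1 hgd (PF.var 1)) (PD.and (by (repeat' (with_reducible first | apply pd_Tr | apply pd_Ind | apply pf_succ | apply pf_funs | apply pf_prod | apply pf_lam | apply pd_Fn | apply pf_app | apply pf_ran | apply pf_dom | apply PF.img | apply PF.pow | apply PD.sub | apply PF.adj | apply PF.un | apply PF.sUn | apply PF.op | apply PF.pr | apply PF.sep | exact PF.var _ | exact PF.const _ | apply PD.eq | apply PD.mem | apply PD.not | apply PD.iff | apply PD.or | apply PD.and | apply PD.imp | apply PD.ex | apply PD.all | exact PD.const _ | assumption | refine PF.comp1 (F := _) (by assumption) ?_ | refine PF.comp2 (F := _) (by assumption) ?_ ?_ | refine PF.comp3 (F := _) (by assumption)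 ?_ ?_ ?_ | refine PD.app1 (R := _) (by assumption) ?_ | refine PD.app2 (R := _) (by assumption) ?_ ?_ | refine PD.app3 (R := _) (by assumption) ?_ ?_ ?_ | refine PD.app4 (R := _) (by assumption) ?_ ?_ ?_ ?_))) ?_)
    refine PD.all (P := fun g v => Good pred G g → SetStr.mem (v 0) (dom g) → GA.sub (v 1) g) ?_
    refine PD.imp hgd ?_
    (repeat' (with_reducible first | apply pd_Tr | apply pd_Ind | apply pf_succ | apply pf_funs | apply pf_prod | apply pf_lam | apply pd_Fn | apply pf_app | apply pf_ran | apply pf_dom | apply PF.img | apply PF.pow | apply PD.sub | apply PF.adj | apply PF.un | apply PF.sUn | apply PF.op | apply PF.pr | apply PF.sep | exact PF.var _ | exact PF.const _ | apply PD.eq | apply PD.mem | apply PD.not | apply PD.iff | apply PD.or | apply PD.and | apply PD.imp | apply PD.ex | apply PD.all | exact PD.const _ | assumption | refine PF.comp1 (F := _) (by assumption) ?_ | refine PF.comp2 (F := _) (by assumption) ?_ ?_ | refine PF.comp3 (F := _) (by assumption) ?_ ?_ ?_ | refine PD.app1 (R := _) (by assumption) ?_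 | refine PD.app2 (R := _) (by assumption) ?_ ?_ | refine PD.app3 (R := _) (by assumption) ?_ ?_ ?_ | refine PD.app4 (R := _) (by assumption) ?_ ?_ ?_ ?_))
  obtain ⟨w, hw⟩ := exists_repl (R := fun y h => Good pred G h ∧ SetStr.mem y (dom h) ∧
      ∀ g, Good pred G g → SetStr.mem y (dom g) → GA.sub h g) hR (pred x) (fun y hy => by
    obtain ⟨f, hf, hyf⟩ := ih y hy
    obtain ⟨h, h1, h2, h3⟩ := rb_least hpred hG hind hf hyf
    refine ⟨h, ⟨h1, h2, h3⟩, ?_⟩
    rintro h' ⟨h1', h2', h3'⟩
    exact ext (fun z => ⟨fun hz => h3' h h1 h2 z hz, fun hz => h3 h' h1' h2' z hz⟩))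
  have hWm : ∀ h, SetStr.mem h (sep w (fun h => Good pred G h)) ↔ SetStr.mem h w ∧ Good pred G h :=
    fun h => mem_sep hgd
  have hU := rb_union hpred hG hind (W := sep w (fun h => Good pred G h))
    (fun h hh => ((hWm h).1 hh).2)
  have hp : ∀ y, SetStr.mem y (pred x) → SetStr.mem y (dom (sUn (sep w (fun h => Good pred G h)))) := by
    intro y hy
    obtain ⟨h, hhw, hh, hyh, _⟩ := hw y hy
    obtain ⟨b, hb⟩ := mem_dom.1 hyh
    exact mem_dom.2 ⟨b, mem_sUn.2 ⟨h, (hWm h).2 ⟨hhw, hh⟩, hb⟩⟩
  by_cases hx : SetStr.mem x (dom (sUn (sep w (fun h => Good pred G h))))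
  · exact ⟨_, hU, hx⟩
  · exact ⟨_, rb_adj hU hx hp⟩

/-- MODULE rc.  The recursion theorem. -/
theorem rec_exists {pred : M → M} {G : M → M → M} (hpred : PF (fun v => pred (v 0)))
    (hG : PF (fun v => G (v 0) (v 1))) (hind : HasInd pred) :
    ∃ F : M → M, PF (fun v => F (v 0)) ∧ ∀ x, F x = G x (lam F (pred x)) := by
  classical
  have hgd := pd_Good hpred hG
  choose f hf hxf using fun x => Good.exists hpred hG hind x
  have hF : PF (fun v : ℕ → M => app (f (v 0)) (v 0)) := by
    refine PF.of_unique (R := fun z v => ∃ g, Good pred G g ∧ SetStr.mem (v 0) (dom g) ∧ z = app g (v 0)) ?_ ?_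
    · intro v z
      constructor
      · rintro rfl
        exact ⟨f (v 0), hf _, hxf _, rfl⟩
      · rintro ⟨g, hg, hvg, rfl⟩
        exact Good.unique hpred hG hind hg (hf _) hvg (hxf _)
    · refine PD.ex (P := fun g v => Good pred G g ∧ SetStr.mem (v 1) (dom g) ∧ v 0 = app g (v 1)) ?_
      refine PD.and hgd ?_
      (repeat' (with_reducible first | apply pd_Tr | apply pd_Ind | apply pf_succ | apply pf_funs | apply pf_prod | apply pf_lam | apply pd_Fn | apply pf_app | apply pf_ran | apply pf_dom | apply PF.img | apply PF.pow | apply PD.sub | apply PF.adj | apply PF.un | apply PF.sUn | apply PF.op | apply PF.pr | apply PF.sep | exact PF.var _ | exact PF.const _ | apply PD.eq | apply PD.mem | apply PD.not | apply PD.iff | apply PD.or | apply PD.and | apply PD.imp | apply PD.ex | apply PD.all | exact PD.const _ | assumption | refine PF.comp1 (F := _) (by assumption) ?_ | refine PF.comp2 (F := _) (by assumption) ?_ ?_ | refine PF.comp3 (F := _) (by assumption) ?_ ?_ ?_ | refine PD.app1 (R := _) (by assumption) ?_ | refine PD.app2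 (R := _) (by assumption) ?_ ?_ | refine PD.app3 (R := _) (by assumption) ?_ ?_ ?_ | refine PD.app4 (R := _) (by assumption) ?_ ?_ ?_ ?_))
  refine ⟨fun x => app (f x) x, hF, fun x => ?_⟩
  obtain ⟨h1, h2⟩ := (hf x).2 x (hxf x)
  show app (f x) x = _
  rw [h2]
  rw [ra_lam_congr (F := fun y => app (f x) y) (F' := fun y => app (f y) y) (by (repeat' (with_reducible first | apply pd_Tr | apply pd_Ind | apply pf_succ | apply pf_funs | apply pf_prod | apply pf_lam | apply pd_Fn | apply pf_app | apply pf_ran | apply pf_dom | apply PF.img | apply PF.pow | apply PD.sub | apply PF.adj | apply PF.un | apply PF.sUn | apply PF.op | apply PF.pr | apply PF.sep | exact PF.var _ | exact PF.const _ | apply PD.eq | apply PD.mem | apply PD.not | apply PD.iff | apply PD.or | apply PD.and | apply PD.imp | apply PD.ex | apply PD.all | exact PD.const _ | assumption | refine PF.comp1 (F := _) (by assumption) ?_ | refine PF.comp2 (F := _) (by assumption) ?_ ?_ | refine PF.comp3 (F := _) (by assumption) ?_ ?_ ?_ | refine PD.app1 (R := _) (by assumption) ?_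 | refine PD.app2 (R := _) (by assumption) ?_ ?_ | refine PD.app3 (R := _) (by assumption) ?_ ?_ ?_ | refine PD.app4 (R := _) (by assumption) ?_ ?_ ?_ ?_))) hF
    (fun y hy => Good.unique hpred hG hind (hf x) (hf y) (h1 y hy) (hxf y))]

/-- Epsilon-recursion. -/
theorem mem_rec {G : M → M → M} (hG : PF (fun v => G (v 0) (v 1))) :
    ∃ F : M → M, PF (fun v => F (v 0)) ∧ ∀ x, F x = G x (lam F x) :=
  rec_exists (pred := fun x => x) (by (repeat' (with_reducible first | apply pd_Tr | apply pd_Ind | apply pf_succ | apply pf_funs | apply pf_prod | apply pf_lam | apply pd_Fn | apply pf_app | apply pf_ran | apply pf_dom | apply PF.img | apply PF.pow | apply PD.sub | apply PF.adj | apply PF.un | apply PF.sUn | apply PF.op | apply PF.pr | apply PF.sep | exact PF.var _ | exact PF.const _ | apply PD.eq | apply PD.mem | apply PD.not | apply PD.iff | apply PD.or | apply PD.and | apply PD.imp | apply PD.ex | apply PD.all | exact PD.const _ | assumption | refine PF.comp1 (F := _) (by assumption) ?_ | refine PF.comp2 (F := _) (by assumption) ?_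 ?_ | refine PF.comp3 (F := _) (by assumption) ?_ ?_ ?_ | refine PD.app1 (R := _) (by assumption) ?_ | refine PD.app2 (R := _) (by assumption) ?_ ?_ | refine PD.app3 (R := _) (by assumption) ?_ ?_ ?_ | refine PD.app4 (R := _) (by assumption) ?_ ?_ ?_ ?_))) hG (fun _ hP h => mem_ind hP h)

end GA
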