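import Pool.Agent.GA.Fin
import Pool.Agent.GA.Rec

/-!
# Injections, Hartogs numbers, sparse families
-/

universe u

namespace GA

variable {M : Type u} [SetStr M] [IsZF M]

/-- There is an injection from `a` to `b`. -/
def Le (a b : M) : Prop :=
  ∃ f, Fn f a ∧ (∀ x, SetStr.mem x a → SetStr.mem (app f x) b) ∧
    ∀ x y, SetStr.mem x a → SetStr.mem y a → app f x = app f y → x = y

theorem pd_Le {f g : (ℕ → M) → M} (hf : PF f) (hg : PF g) : PD (fun v => Le (f v) (g v)) :=
  PD.app2 (R := fun x y => Le x y) (by unfold Le; (repeat' (with_reducible first | apply pf_fins | apply pf_card | apply pd_Bij | apply pd_Fini | apply pd_Big | apply pd_Ord | apply pd_Tr | apply pd_Ind | apply pf_succ | apply pf_funs | apply pf_prod | apply pf_lam | apply pd_Fn | apply pf_app | apply pf_ran | apply pf_dom | apply PF.img | apply PF.pow | apply PD.sub | apply PF.adj | apply PF.un | apply PF.sUn | apply PF.op | apply PF.pr | apply PF.sep | exact PF.var _ | exact PF.const _ | apply PD.eq | apply PD.mem | apply PD.not | apply PD.iff | apply PD.or | apply PD.and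 | apply PD.imp | apply PD.ex | apply PD.all | exact PD.const _ | assumption | refine PF.comp1 (F := _) (by assumption) ?_ | refine PF.comp2 (F := _) (by assumption) ?_ ?_ | refine PF.comp3 (F := _) (by assumption) ?_ ?_ ?_ | refine PD.app1 (R := _) (by assumption) ?_ | refine PD.app2 (R := _) (by assumption) ?_ ?_ | refine PD.app3 (R := _) (by assumption) ?_ ?_ ?_ | refine PD.app4 (R := _) (by assumption) ?_ ?_ ?_ ?_))) hf hg


/-- MODULE ka -/
theorem Le.of_fun {a b : M} {F : M → M} (hF : PF (fun v => F (v 0)))
    (h : ∀ x, SetStr.mem x a → SetStr.mem (F x) b) (hi : ∀ x y, SetStr.mem x a → SetStr.mem y a → F x = F y → x = y) : Le a b := by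
  refine ⟨lam F a, lam_Fn hF a, fun x hx => ?_, fun x y hx hy hxy => ?_⟩
  · rw [app_lam hF hx]
    exact h x hx
  · rw [app_lam hF hx, app_lam hF hy] at hxy
    exact hi x y hx hy hxy

/-- MODULE ka -/
theorem Le.of_sub {a b : M} (h : GA.sub a b) : Le a b :=
  Le.of_fun (F := fun x => x) (by (repeat' (with_reducible first | apply pd_Le | apply pf_fins | apply pf_card | apply pd_Bij | apply pd_Fini | apply pd_Big | apply pd_Ord | apply pd_Tr | apply pd_Ind | apply pf_succ | apply pf_funs | apply pf_prod | apply pf_lam | apply pd_Fn | apply pf_app | apply pf_ran | apply pf_dom | apply PF.img | apply PF.pow | apply PD.sub | apply PF.adj | apply PF.un | apply PF.sUn | apply PF.op | apply PF.pr | apply PF.sep | exact PF.var _ | exact PF.const _ | apply PD.eq | apply PD.mem | apply PD.not | apply PD.iff | apply PD.or | apply PD.and | apply PD.imp | apply PD.ex | apply PD.all | exact PD.const _ | assumption | refine PF.comp1 (F := _) (by assumption) ?_ | refine PF.comp2 (F := _) (by assumption) ?_ ?_ | refine PF.comp3 (F := _) (by assumption)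 ?_ ?_ ?_ | refine PD.app1 (R := _) (by assumption) ?_ | refine PD.app2 (R := _) (by assumption) ?_ ?_ | refine PD.app3 (R := _) (by assumption) ?_ ?_ ?_ | refine PD.app4 (R := _) (by assumption) ?_ ?_ ?_ ?_))) h (fun _ _ _ _ hxy => hxy)

/-- MODULE ka -/
theorem Le.trans {a b c : M} (h : Le a b) (h' : Le b c) : Le a c := by
  obtain ⟨f, _, hf2, hf3⟩ := h
  obtain ⟨g, _, hg2, hg3⟩ := h'
  exact Le.of_fun (F := fun x => app g (app f x)) (by (repeat' (with_reducible first | apply pd_Le | apply pf_fins | apply pf_card | apply pd_Bij | apply pd_Fini | apply pd_Big | apply pd_Ord | apply pd_Tr | apply pd_Ind | apply pf_succ | apply pf_funs | apply pf_prod | apply pf_lam | apply pd_Fn | apply pf_app | apply pf_ran | apply pf_dom | apply PF.img | apply PF.pow | apply PD.sub | apply PF.adj | apply PF.un | apply PF.sUn | apply PF.op | apply PF.pr | apply PF.sep | exact PF.var _ | exact PF.const _ | apply PD.eq | apply PD.mem | apply PD.not | apply PD.iff | apply PD.or | apply PD.and | apply PD.imp | apply PD.ex | apply PD.all | exact PD.const _ |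 assumption | refine PF.comp1 (F := _) (by assumption) ?_ | refine PF.comp2 (F := _) (by assumption) ?_ ?_ | refine PF.comp3 (F := _) (by assumption) ?_ ?_ ?_ | refine PD.app1 (R := _) (by assumption) ?_ | refine PD.app2 (R := _) (by assumption) ?_ ?_ | refine PD.app3 (R := _) (by assumption) ?_ ?_ ?_ | refine PD.app4 (R := _) (by assumption) ?_ ?_ ?_ ?_))) (fun x hx => hg2 _ (hf2 x hx))
    (fun x y hx hy hxy => hf3 x y hx hy (hg3 _ _ (hf2 x hx) (hf2 y hy) hxy))

private def kb_R (z w : M) : Prop :=
  ∃ a b c d, z = op a b ∧ w = op c d ∧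
    (SetStr.mem (un a b) (un c d) ∨ (un a b = un c d ∧ (SetStr.mem a c ∨ (a = c ∧ SetStr.mem b d))))

private theorem kb_pd : PD (fun v : ℕ → M => kb_R (v 0) (v 1)) := by
  unfold kb_R
  (repeat' (with_reducible first | apply pd_Le | apply pf_fins | apply pf_card | apply pd_Bij | apply pd_Fini | apply pd_Big | apply pd_Ord | apply pd_Tr | apply pd_Ind | apply pf_succ | apply pf_funs | apply pf_prod | apply pf_lam | apply pd_Fn | apply pf_app | apply pf_ran | apply pf_dom | apply PF.img | apply PF.pow | apply PD.sub | apply PF.adj | apply PF.un | apply PF.sUn | apply PF.op | apply PF.pr | apply PF.sep | exact PF.var _ | exact PF.const _ | apply PD.eq | apply PD.mem | apply PD.not | apply PD.iff | apply PD.or | apply PD.and | apply PD.imp | apply PD.ex | apply PD.all | exact PD.const _ | assumption | refine PF.comp1 (F := _) (by assumption) ?_ | refine PF.comp2 (F := _) (by assumption) ?_ ?_ | refine PF.comp3 (F := _) (by assumption) ?_ ?_ ?_ | refine PD.app1 (R := _) (by assumption) ?_ | refine PD.app2 (R := _) (by assumption) ?_ ?_ | refine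 PD.app3 (R := _) (by assumption) ?_ ?_ ?_ | refine PD.app4 (R := _) (by assumption) ?_ ?_ ?_ ?_))

private theorem kb_un {a b : M} (ha : SetStr.mem a (om : M)) (hb : SetStr.mem b (om : M)) :
    SetStr.mem (un a b) (om : M) := by
  rcases (Ord.of_mem_om ha).sub_or_mem (Ord.of_mem_om hb) with h | h
  · have h1 : un a b = b := ext (fun z => by
      rw [mem_un]
      exact ⟨fun h2 => h2.elim (fun h3 => h z h3) id, Or.inr⟩)
    rw [h1]
    exact hb
  · have h1 : un a b = a := ext (fun z => by
      rw [mem_un]
      exact ⟨fun h2 => h2.elim id (fun h3 => (Ord.of_mem_om ha).trans h h3), Or.inl⟩)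
    rw [h1]
    exact ha

private theorem kb_op {a b c d : M} : kb_R (op a b) (op c d) ↔
    (SetStr.mem (un a b) (un c d) ∨ (un a b = un c d ∧ (SetStr.mem a c ∨ (a = c ∧ SetStr.mem b d)))) := by
  constructor
  · rintro ⟨a', b', c', d', h1, h2, h3⟩
    rw [op_inj] at h1 h2
    obtain ⟨rfl, rfl⟩ := h1
    obtain ⟨rfl, rfl⟩ := h2
    exact h3
  · intro h
    exact ⟨a, b, c, d, rfl, rfl, h⟩

private theorem kb_tr {x y z : M} (hz : SetStr.mem z (om : M)) (h1 : SetStr.mem x y) (h2 : SetStr.mem y z) : SetStr.mem x z :=
  (Ord.of_mem_om hz).trans h2 h1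

private theorem kb_lin : LinO kb_R (prod om om : M) := by
  refine ⟨?_, ?_, ?_⟩
  · intro x hx h
    obtain ⟨a, ha, b, hb, rfl⟩ := mem_prod.1 hx
    rw [kb_op] at h
    rcases h with h | ⟨_, h | ⟨_, h⟩⟩
    · exact not_mem_self _ h
    · exact not_mem_self _ h
    · exact not_mem_self _ h
  · intro x y z hx hy hz h1 h2
    obtain ⟨a, ha, b, hb, rfl⟩ := mem_prod.1 hx
    obtain ⟨c, hc, d, hd, rfl⟩ := mem_prod.1 hy
    obtain ⟨e, he, f, hf, rfl⟩ := mem_prod.1 hz
    rw [kb_op] at h1 h2 ⊢
    have hef := kb_un he hf
    rcases h1 with h1 | ⟨h1, h1'⟩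
    · rcases h2 with h2 | ⟨h2, h2'⟩
      · exact Or.inl (kb_tr hef h1 h2)
      · rw [h2] at h1
        exact Or.inl h1
    · rcases h2 with h2 | ⟨h2, h2'⟩
      · rw [← h1] at h2
        exact Or.inl h2
      · refine Or.inr ⟨h1.trans h2, ?_⟩
        rcases h1' with h3 | ⟨h3, h3'⟩
        · rcases h2' with h4 | ⟨h4, h4'⟩
          · exact Or.inl (kb_tr he h3 h4)
          · rw [h4] at h3
            exact Or.inl h3
        · rcases h2' with h4 | ⟨h4, h4'⟩
          · rw [← h3] at h4
            exact Or.inl h4
          · exact Or.inr ⟨h3.trans h4, kb_tr hf h3' h4'⟩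
  · intro x y hx hy
    obtain ⟨a, ha, b, hb, rfl⟩ := mem_prod.1 hx
    obtain ⟨c, hc, d, hd, rfl⟩ := mem_prod.1 hy
    rw [kb_op, kb_op]
    rcases (Ord.of_mem_om (kb_un ha hb)).tri (Ord.of_mem_om (kb_un hc hd)) with h | h | h
    · exact Or.inr (Or.inl (Or.inl h))
    · rcases (Ord.of_mem_om ha).tri (Ord.of_mem_om hc) with h2 | h2 | h2
      · exact Or.inr (Or.inl (Or.inr ⟨h, Or.inl h2⟩))
      · rcases (Ord.of_mem_om hb).tri (Ord.of_mem_om hd) with h3 | h3 | h3
        · exact Or.inr (Or.inl (Or.inr ⟨h, Or.inr ⟨h2, h3⟩⟩))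
        · exact Or.inl (by rw [h2, h3])
        · exact Or.inr (Or.inr (Or.inr ⟨h.symm, Or.inr ⟨h2.symm, h3⟩⟩))
      · exact Or.inr (Or.inr (Or.inr ⟨h.symm, Or.inl h2⟩))
    · exact Or.inr (Or.inr (Or.inl h))

private theorem kb_sep (w : M) (_hw : SetStr.mem w (prod om om : M)) :
    Fini (sep (prod om om : M) (fun z => kb_R z w)) := by
  obtain ⟨c, hc, d, hd, rfl⟩ := mem_prod.1 _hw
  have hm := kb_un hc hd
  have hs : Fini (prod (succ (un c d)) (succ (un c d)) : M) :=
    Fini.prod (Fini.of_mem_om (succ_mem_om hm)) (Fini.of_mem_om (succ_mem_om hm))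
  refine hs.sub ?_
  intro z hz
  rw [mem_sep (by
    have h := kb_pd (M := M)
    exact PD.app2 (R := fun x y => kb_R x y) h (PF.var 0) (PF.const _))] at hz
  obtain ⟨hz1, hz2⟩ := hz
  obtain ⟨a, ha, b, hb, rfl⟩ := mem_prod.1 hz1
  rw [kb_op] at hz2
  have h1 : GA.sub (un a b) (un c d) := by
    rcases hz2 with h | ⟨h, _⟩
    · intro x hx
      exact (Ord.of_mem_om hm).trans h hx
    · rw [h]
      exact fun _ h => h
  have h2 : SetStr.mem a (succ (un c d)) := by
    rw [mem_succ, ← (Ord.of_mem_om ha).sub_iff (Ord.of_mem_om hm)]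
    exact fun x hx => h1 x (mem_un.2 (Or.inl hx))
  have h3 : SetStr.mem b (succ (un c d)) := by
    rw [mem_succ, ← (Ord.of_mem_om hb).sub_iff (Ord.of_mem_om hm)]
    exact fun x hx => h1 x (mem_un.2 (Or.inr hx))
  exact op_mem_prod.2 ⟨h2, h3⟩

/-- MODULE kb.  (Order pairs by maximum, then lexicographically; `pos_inj'`.) -/
theorem le_om_prod : Le (prod om om : M) om := by
  refine Le.of_fun (F := fun z => pos kb_R (prod om om) z) (pf_pos kb_pd (PF.const _) (PF.var 0))
    (fun x hx => card_mem_om (kb_sep x hx)) (fun x y hx hy h => ?_)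
  exact pos_inj' kb_pd kb_sep kb_lin hx hy h

/-- MODULE kc -/
theorem Le.funs {a b c : M} (h : Le a b) : Le (funs c a) (funs c b) := by
  obtain ⟨f, _, hf2, hf3⟩ := h
  have hpf : ∀ g : M, PF (fun v : ℕ → M => app f (app g (v 0))) := fun g => by (repeat' (with_reducible first | apply pd_Le | apply pf_fins | apply pf_card | apply pd_Bij | apply pd_Fini | apply pd_Big | apply pd_Ord | apply pd_Tr | apply pd_Ind | apply pf_succ | apply pf_funs | apply pf_prod | apply pf_lam | apply pd_Fn | apply pf_app | apply pf_ran | apply pf_dom | apply PF.img | apply PF.pow | apply PD.sub | apply PF.adj | apply PF.un | apply PF.sUn | apply PF.op | apply PF.pr | apply PF.sep | exact PF.var _ | exact PF.const _ | apply PD.eq | apply PD.mem | apply PD.not | apply PD.iff | apply PD.or | apply PD.and | apply PD.imp | apply PD.ex | apply PD.all | exact PD.const _ | assumption | refine PF.comp1 (F := _) (by assumption) ?_ | refine PF.comp2 (F := _) (by assumption) ?_ ?_ | refine PF.comp3 (F := _) (by assumption) ?_ ?_ ?_ | refine PD.app1 (R := _) (by assumption)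 ?_ | refine PD.app2 (R := _) (by assumption) ?_ ?_ | refine PD.app3 (R := _) (by assumption) ?_ ?_ ?_ | refine PD.app4 (R := _) (by assumption) ?_ ?_ ?_ ?_))
  refine Le.of_fun (F := fun g => lam (fun x => app f (app g x)) c) (by (repeat' (with_reducible first | apply pd_Le | apply pf_fins | apply pf_card | apply pd_Bij | apply pd_Fini | apply pd_Big | apply pd_Ord | apply pd_Tr | apply pd_Ind | apply pf_succ | apply pf_funs | apply pf_prod | apply pf_lam | apply pd_Fn | apply pf_app | apply pf_ran | apply pf_dom | apply PF.img | apply PF.pow | apply PD.sub | apply PF.adj | apply PF.un | apply PF.sUn | apply PF.op | apply PF.pr | apply PF.sep | exact PF.var _ | exact PF.const _ | apply PD.eq | apply PD.mem | apply PD.not | apply PD.iff | apply PD.or | apply PD.and | apply PD.imp | apply PD.ex | apply PD.all | exact PD.const _ | assumption | refine PF.comp1 (F := _) (by assumption) ?_ | refine PF.comp2 (F := _) (by assumption) ?_ ?_ | refine PF.comp3 (F := _) (by assumption) ?_ ?_ ?_ | refine PD.app1 (R := _) (by assumption) ?_ | refine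 PD.app2 (R := _) (by assumption) ?_ ?_ | refine PD.app3 (R := _) (by assumption) ?_ ?_ ?_ | refine PD.app4 (R := _) (by assumption) ?_ ?_ ?_ ?_))) ?_ ?_
  · intro g hg
    rw [mem_funs] at hg ⊢
    refine ⟨lam_Fn (hpf g) c, fun x hx => ?_⟩
    rw [app_lam (hpf g) hx]
    exact hf2 _ (hg.2 x hx)
  · intro g g' hg hg' h
    rw [mem_funs] at hg hg'
    refine hg.1.ext hg'.1 (fun x hx => hf3 _ _ (hg.2 x hx) (hg'.2 x hx) ?_)
    have h1 := app_lam (F := fun x => app f (app g x)) (hpf g) hx
    have h2 := app_lam (F := fun x => app f (app g' x)) (hpf g') hx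
    rw [← h1, ← h2]
    exact congrArg (fun z => app z x) h

private noncomputable def kd_fst (z : M) : M := sUn (sep (sUn z) (fun x => ∃ y, z = op x y))

private noncomputable def kd_snd (z : M) : M := sUn (sep (sUn z) (fun y => ∃ x, z = op x y))

private theorem kd_pf_fst {f : (ℕ → M) → M} (hf : PF f) : PF (fun v => kd_fst (f v)) :=
  PF.comp1 (F := fun x => kd_fst x) (by unfold kd_fst; (repeat' (with_reducible first | apply pd_Le | apply pf_fins | apply pf_card | apply pd_Bij | apply pd_Fini | apply pd_Big | apply pd_Ord | apply pd_Tr | apply pd_Ind | apply pf_succ | apply pf_funs | apply pf_prod | apply pf_lam | apply pd_Fn | apply pf_app | apply pf_ran | apply pf_dom | apply PF.img | apply PF.pow | apply PD.sub | apply PF.adj | apply PF.un | apply PF.sUn | apply PF.op | apply PF.pr | apply PF.sep | exact PF.var _ | exact PF.const _ | apply PD.eq | apply PD.mem | apply PD.not | apply PD.iff | apply PD.or | apply PD.and | apply PD.imp | apply PD.ex | apply PD.all | exact PD.const _ | assumption | refine PF.comp1 (F := _) (by assumption)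 ?_ | refine PF.comp2 (F := _) (by assumption) ?_ ?_ | refine PF.comp3 (F := _) (by assumption) ?_ ?_ ?_ | refine PD.app1 (R := _) (by assumption) ?_ | refine PD.app2 (R := _) (by assumption) ?_ ?_ | refine PD.app3 (R := _) (by assumption) ?_ ?_ ?_ | refine PD.app4 (R := _) (by assumption) ?_ ?_ ?_ ?_))) hf

private theorem kd_pf_snd {f : (ℕ → M) → M} (hf : PF f) : PF (fun v => kd_snd (f v)) :=
  PF.comp1 (F := fun x => kd_snd x) (by unfold kd_snd; (repeat' (with_reducible first | apply pd_Le | apply pf_fins | apply pf_card | apply pd_Bij | apply pd_Fini | apply pd_Big | apply pd_Ord | apply pd_Tr | apply pd_Ind | apply pf_succ | apply pf_funs | apply pf_prod | apply pf_lam | apply pd_Fn | apply pf_app | apply pf_ran | apply pf_dom | apply PF.img | apply PF.pow | apply PD.sub | apply PF.adj | apply PF.un | apply PF.sUn | apply PF.op | apply PF.pr | apply PF.sep | exact PF.var _ | exact PF.const _ | apply PD.eq | apply PD.mem | apply PD.not | apply PD.iff | apply PD.or | apply PD.and | apply PD.imp | apply PD.ex | apply PD.all | exact PD.const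 _ | assumption | refine PF.comp1 (F := _) (by assumption) ?_ | refine PF.comp2 (F := _) (by assumption) ?_ ?_ | refine PF.comp3 (F := _) (by assumption) ?_ ?_ ?_ | refine PD.app1 (R := _) (by assumption) ?_ | refine PD.app2 (R := _) (by assumption) ?_ ?_ | refine PD.app3 (R := _) (by assumption) ?_ ?_ ?_ | refine PD.app4 (R := _) (by assumption) ?_ ?_ ?_ ?_))) hf

private theorem kd_fst_op (a b : M) : kd_fst (op a b) = a := by
  refine ext (fun z => ?_)
  unfold kd_fst
  rw [mem_sUn]
  constructor
  · rintro ⟨x, hx, hz⟩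
    rw [mem_sep (by (repeat' (with_reducible first | apply pd_Le | apply pf_fins | apply pf_card | apply pd_Bij | apply pd_Fini | apply pd_Big | apply pd_Ord | apply pd_Tr | apply pd_Ind | apply pf_succ | apply pf_funs | apply pf_prod | apply pf_lam | apply pd_Fn | apply pf_app | apply pf_ran | apply pf_dom | apply PF.img | apply PF.pow | apply PD.sub | apply PF.adj | apply PF.un | apply PF.sUn | apply PF.op | apply PF.pr | apply PF.sep | exact PF.var _ | exact PF.const _ | apply PD.eq | apply PD.mem | apply PD.not | apply PD.iff | apply PD.or | apply PD.and | apply PD.imp | apply PD.ex | apply PD.all | exact PD.const _ | assumption | refine PF.comp1 (F := _) (by assumption) ?_ | refine PF.comp2 (F := _) (by assumption) ?_ ?_ | refine PF.comp3 (F := _) (by assumption) ?_ ?_ ?_ | refine PD.app1 (R := _) (by assumption) ?_ | refine PD.app2 (R := _) (by assumption) ?_ ?_ | refine PD.app3 (R := _) (by assumption) ?_ ?_ ?_ | refine PD.app4 (R := _) (by assumption) ?_ ?_ ?_ ?_)))] at hx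
    obtain ⟨_, y, hy⟩ := hx
    rw [op_inj] at hy
    rw [hy.1]
    exact hz
  · intro hz
    refine ⟨a, ?_, hz⟩
    rw [mem_sep (by (repeat' (with_reducible first | apply pd_Le | apply pf_fins | apply pf_card | apply pd_Bij | apply pd_Fini | apply pd_Big | apply pd_Ord | apply pd_Tr | apply pd_Ind | apply pf_succ | apply pf_funs | apply pf_prod | apply pf_lam | apply pd_Fn | apply pf_app | apply pf_ran | apply pf_dom | apply PF.img | apply PF.pow | apply PD.sub | apply PF.adj | apply PF.un | apply PF.sUn | apply PF.op | apply PF.pr | apply PF.sep | exact PF.var _ | exact PF.const _ | apply PD.eq | apply PD.mem | apply PD.not | apply PD.iff | apply PD.or | apply PD.and | apply PD.imp | apply PD.ex | apply PD.all | exact PD.const _ | assumption | refine PF.comp1 (F := _) (by assumption) ?_ | refine PF.comp2 (F := _) (by assumption) ?_ ?_ | refine PF.comp3 (F := _) (by assumption) ?_ ?_ ?_ | refine PD.app1 (R := _) (by assumption) ?_ | refine PD.app2 (R := _) (by assumption) ?_ ?_ | refine PD.app3 (R := _) (by assumption) ?_ ?_ ?_ | refine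 PD.app4 (R := _) (by assumption) ?_ ?_ ?_ ?_)))]
    exact ⟨mem_sUn.2 ⟨pr a a, by simp [op], by simp⟩, b, rfl⟩

private theorem kd_snd_op (a b : M) : kd_snd (op a b) = b := by
  refine ext (fun z => ?_)
  unfold kd_snd
  rw [mem_sUn]
  constructor
  · rintro ⟨x, hx, hz⟩
    rw [mem_sep (by (repeat' (with_reducible first | apply pd_Le | apply pf_fins | apply pf_card | apply pd_Bij | apply pd_Fini | apply pd_Big | apply pd_Ord | apply pd_Tr | apply pd_Ind | apply pf_succ | apply pf_funs | apply pf_prod | apply pf_lam | apply pd_Fn | apply pf_app | apply pf_ran | apply pf_dom | apply PF.img | apply PF.pow | apply PD.sub | apply PF.adj | apply PF.un | apply PF.sUn | apply PF.op | apply PF.pr | apply PF.sep | exact PF.var _ | exact PF.const _ | apply PD.eq | apply PD.mem | apply PD.not | apply PD.iff | apply PD.or | apply PD.and | apply PD.imp | apply PD.ex | apply PD.all | exact PD.const _ | assumption | refine PF.comp1 (F := _) (by assumption) ?_ | refine PF.comp2 (F := _) (by assumption) ?_ ?_ | refine PF.comp3 (F := _) (by assumption) ?_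 ?_ ?_ | refine PD.app1 (R := _) (by assumption) ?_ | refine PD.app2 (R := _) (by assumption) ?_ ?_ | refine PD.app3 (R := _) (by assumption) ?_ ?_ ?_ | refine PD.app4 (R := _) (by assumption) ?_ ?_ ?_ ?_)))] at hx
    obtain ⟨_, y, hy⟩ := hx
    rw [op_inj] at hy
    rw [hy.2]
    exact hz
  · intro hz
    refine ⟨b, ?_, hz⟩
    rw [mem_sep (by (repeat' (with_reducible first | apply pd_Le | apply pf_fins | apply pf_card | apply pd_Bij | apply pd_Fini | apply pd_Big | apply pd_Ord | apply pd_Tr | apply pd_Ind | apply pf_succ | apply pf_funs | apply pf_prod | apply pf_lam | apply pd_Fn | apply pf_app | apply pf_ran | apply pf_dom | apply PF.img | apply PF.pow | apply PD.sub | apply PF.adj | apply PF.un | apply PF.sUn | apply PF.op | apply PF.pr | apply PF.sep | exact PF.var _ | exact PF.const _ | apply PD.eq | apply PD.mem | apply PD.not | apply PD.iff | apply PD.or | apply PD.and | apply PD.imp | apply PD.ex | apply PD.all | exact PD.const _ | assumption | refine PF.comp1 (F := _) (by assumption) ?_ | refine PF.comp2 (F := _) (by assumption)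 ?_ ?_ | refine PF.comp3 (F := _) (by assumption) ?_ ?_ ?_ | refine PD.app1 (R := _) (by assumption) ?_ | refine PD.app2 (R := _) (by assumption) ?_ ?_ | refine PD.app3 (R := _) (by assumption) ?_ ?_ ?_ | refine PD.app4 (R := _) (by assumption) ?_ ?_ ?_ ?_)))]
    exact ⟨mem_sUn.2 ⟨pr a b, by simp [op], by simp⟩, a, rfl⟩

private theorem kd_curry {b : M} : Le (funs om (funs om b)) (funs (prod om om) b) := by
  have hF : PF (fun v : ℕ → M =>
      lam (fun z => app (app (v 0) (kd_fst z)) (kd_snd z)) (prod om om)) := by
    refine pf_lam (F := fun z v => app (app (v 0) (kd_fst z)) (kd_snd z)) (PF.const _) ?_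
    exact pf_app (pf_app (PF.var 1) (kd_pf_fst (PF.var 0))) (kd_pf_snd (PF.var 0))
  have hG : ∀ f : M, PF (fun v : ℕ → M => app (app f (kd_fst (v 0))) (kd_snd (v 0))) := by
    intro f
    exact pf_app (pf_app (PF.const _) (kd_pf_fst (PF.var 0))) (kd_pf_snd (PF.var 0))
  refine Le.of_fun (F := fun f => lam (fun z => app (app f (kd_fst z)) (kd_snd z)) (prod om om))
    hF (fun f hf => ?_) (fun f g hf hg h => ?_)
  · rw [mem_funs] at hf ⊢
    refine ⟨lam_Fn (hG f) _, fun z hz => ?_⟩
    rw [app_lam (hG f) hz]
    obtain ⟨i, hi, j, hj, rfl⟩ := mem_prod.1 hz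
    rw [kd_fst_op, kd_snd_op]
    exact (mem_funs.1 (hf.2 i hi)).2 j hj
  · rw [mem_funs] at hf hg
    refine hf.1.ext hg.1 (fun i hi => ?_)
    refine (mem_funs.1 (hf.2 i hi)).1.ext (mem_funs.1 (hg.2 i hi)).1 (fun j hj => ?_)
    have h1 : SetStr.mem (op i j) (prod om om : M) := op_mem_prod.2 ⟨hi, hj⟩
    have h2 := app_lam (F := fun z => app (app f (kd_fst z)) (kd_snd z)) (hG f) h1
    have h3 := app_lam (F := fun z => app (app g (kd_fst z)) (kd_snd z)) (hG g) h1
    have h4 : app (lam (fun z => app (app f (kd_fst z)) (kd_snd z)) (prod om om)) (op i j) =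
        app (lam (fun z => app (app g (kd_fst z)) (kd_snd z)) (prod om om)) (op i j) :=
      congrArg (fun t => app t (op i j)) h
    rw [h2, h3, kd_fst_op, kd_snd_op] at h4
    exact h4

private noncomputable def kd_val (g c z0 f n : M) : M :=
  un (sUn (img (fun x => app f x) (sep c (fun x => app g x = n))))
    (sep z0 (fun _ => ¬ ∃ x, SetStr.mem x c ∧ app g x = n))

private theorem kd_val_pos {g c z0 f n x : M} (hx : SetStr.mem x c) (hn : app g x = n)
    (hi : ∀ x y, SetStr.mem x c → SetStr.mem y c → app g x = app g y → x = y) : kd_val g c z0 f n = app f x := by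
  refine ext (fun z => ?_)
  unfold kd_val
  rw [mem_un, mem_sUn]
  constructor
  · rintro (⟨y, hy, hz⟩ | hz)
    · obtain ⟨t, ht, rfl⟩ := (mem_img (by (repeat' (with_reducible first | apply pd_Le | apply pf_fins | apply pf_card | apply pd_Bij | apply pd_Fini | apply pd_Big | apply pd_Ord | apply pd_Tr | apply pd_Ind | apply pf_succ | apply pf_funs | apply pf_prod | apply pf_lam | apply pd_Fn | apply pf_app | apply pf_ran | apply pf_dom | apply PF.img | apply PF.pow | apply PD.sub | apply PF.adj | apply PF.un | apply PF.sUn | apply PF.op | apply PF.pr | apply PF.sep | exact PF.var _ | exact PF.const _ | apply PD.eq | apply PD.mem | apply PD.not | apply PD.iff | apply PD.or | apply PD.and | apply PD.imp | apply PD.ex | apply PD.all | exact PD.const _ | assumption | refine PF.comp1 (F := _) (by assumption) ?_ | refine PF.comp2 (F := _) (by assumption) ?_ ?_ | refine PF.comp3 (F := _) (by assumption) ?_ ?_ ?_ | refine PD.app1 (R := _) (by assumption) ?_ | refine PD.app2 (R := _) (by assumption) ?_ ?_ | refine PD.app3 (R := _) (by assumption)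 ?_ ?_ ?_ | refine PD.app4 (R := _) (by assumption) ?_ ?_ ?_ ?_)))).1 hy
      rw [mem_sep (by (repeat' (with_reducible first | apply pd_Le | apply pf_fins | apply pf_card | apply pd_Bij | apply pd_Fini | apply pd_Big | apply pd_Ord | apply pd_Tr | apply pd_Ind | apply pf_succ | apply pf_funs | apply pf_prod | apply pf_lam | apply pd_Fn | apply pf_app | apply pf_ran | apply pf_dom | apply PF.img | apply PF.pow | apply PD.sub | apply PF.adj | apply PF.un | apply PF.sUn | apply PF.op | apply PF.pr | apply PF.sep | exact PF.var _ | exact PF.const _ | apply PD.eq | apply PD.mem | apply PD.not | apply PD.iff | apply PD.or | apply PD.and | apply PD.imp | apply PD.ex | apply PD.all | exact PD.const _ | assumption | refine PF.comp1 (F := _) (by assumption) ?_ | refine PF.comp2 (F := _) (by assumption) ?_ ?_ | refine PF.comp3 (F := _) (by assumption) ?_ ?_ ?_ | refine PD.app1 (R := _) (by assumption) ?_ | refine PD.app2 (R := _) (by assumption) ?_ ?_ | refine PD.app3 (R := _) (by assumption) ?_ ?_ ?_ | refine PD.app4 (R := _) (by assumption) ?_ ?_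 ?_ ?_)))] at ht
      have h1 : t = x := hi t x ht.1 hx (ht.2.trans hn.symm)
      rw [h1] at hz
      exact hz
    · rw [mem_sep (by (repeat' (with_reducible first | apply pd_Le | apply pf_fins | apply pf_card | apply pd_Bij | apply pd_Fini | apply pd_Big | apply pd_Ord | apply pd_Tr | apply pd_Ind | apply pf_succ | apply pf_funs | apply pf_prod | apply pf_lam | apply pd_Fn | apply pf_app | apply pf_ran | apply pf_dom | apply PF.img | apply PF.pow | apply PD.sub | apply PF.adj | apply PF.un | apply PF.sUn | apply PF.op | apply PF.pr | apply PF.sep | exact PF.var _ | exact PF.const _ | apply PD.eq | apply PD.mem | apply PD.not | apply PD.iff | apply PD.or | apply PD.and | apply PD.imp | apply PD.ex | apply PD.all | exact PD.const _ | assumption | refine PF.comp1 (F := _) (by assumption) ?_ | refine PF.comp2 (F := _) (by assumption) ?_ ?_ | refine PF.comp3 (F := _) (by assumption) ?_ ?_ ?_ | refine PD.app1 (R := _) (by assumption) ?_ | refine PD.app2 (R := _) (by assumption) ?_ ?_ | refine PD.app3 (R := _) (by assumption) ?_ ?_ ?_ | refine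 PD.app4 (R := _) (by assumption) ?_ ?_ ?_ ?_)))] at hz
      exact absurd ⟨x, hx, hn⟩ hz.2
  · intro hz
    refine Or.inl ⟨app f x, (mem_img (by (repeat' (with_reducible first | apply pd_Le | apply pf_fins | apply pf_card | apply pd_Bij | apply pd_Fini | apply pd_Big | apply pd_Ord | apply pd_Tr | apply pd_Ind | apply pf_succ | apply pf_funs | apply pf_prod | apply pf_lam | apply pd_Fn | apply pf_app | apply pf_ran | apply pf_dom | apply PF.img | apply PF.pow | apply PD.sub | apply PF.adj | apply PF.un | apply PF.sUn | apply PF.op | apply PF.pr | apply PF.sep | exact PF.var _ | exact PF.const _ | apply PD.eq | apply PD.mem | apply PD.not | apply PD.iff | apply PD.or | apply PD.and | apply PD.imp | apply PD.ex | apply PD.all | exact PD.const _ | assumption | refine PF.comp1 (F := _) (by assumption) ?_ | refine PF.comp2 (F := _) (by assumption) ?_ ?_ | refine PF.comp3 (F := _) (by assumption) ?_ ?_ ?_ | refine PD.app1 (R := _) (by assumption) ?_ | refine PD.app2 (R := _) (by assumption) ?_ ?_ | refine PD.app3 (R := _) (by assumption) ?_ ?_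 ?_ | refine PD.app4 (R := _) (by assumption) ?_ ?_ ?_ ?_)))).2 ⟨x, ?_, rfl⟩, hz⟩
    rw [mem_sep (by (repeat' (with_reducible first | apply pd_Le | apply pf_fins | apply pf_card | apply pd_Bij | apply pd_Fini | apply pd_Big | apply pd_Ord | apply pd_Tr | apply pd_Ind | apply pf_succ | apply pf_funs | apply pf_prod | apply pf_lam | apply pd_Fn | apply pf_app | apply pf_ran | apply pf_dom | apply PF.img | apply PF.pow | apply PD.sub | apply PF.adj | apply PF.un | apply PF.sUn | apply PF.op | apply PF.pr | apply PF.sep | exact PF.var _ | exact PF.const _ | apply PD.eq | apply PD.mem | apply PD.not | apply PD.iff | apply PD.or | apply PD.and | apply PD.imp | apply PD.ex | apply PD.all | exact PD.const _ | assumption | refine PF.comp1 (F := _) (by assumption) ?_ | refine PF.comp2 (F := _) (by assumption) ?_ ?_ | refine PF.comp3 (F := _) (by assumption) ?_ ?_ ?_ | refine PD.app1 (R := _) (by assumption) ?_ | refine PD.app2 (R := _) (by assumption) ?_ ?_ | refine PD.app3 (R := _) (by assumption) ?_ ?_ ?_ | refine PD.app4 (R := _) (by assumption)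 ?_ ?_ ?_ ?_)))]
    exact ⟨hx, hn⟩

private theorem kd_val_neg {g c z0 f n : M} (hn : ¬ ∃ x, SetStr.mem x c ∧ app g x = n) :
    kd_val g c z0 f n = z0 := by
  refine ext (fun z => ?_)
  unfold kd_val
  rw [mem_un, mem_sUn]
  constructor
  · rintro (⟨y, hy, hz⟩ | hz)
    · obtain ⟨t, ht, rfl⟩ := (mem_img (by (repeat' (with_reducible first | apply pd_Le | apply pf_fins | apply pf_card | apply pd_Bij | apply pd_Fini | apply pd_Big | apply pd_Ord | apply pd_Tr | apply pd_Ind | apply pf_succ | apply pf_funs | apply pf_prod | apply pf_lam | apply pd_Fn | apply pf_app | apply pf_ran | apply pf_dom | apply PF.img | apply PF.pow | apply PD.sub | apply PF.adj | apply PF.un | apply PF.sUn | apply PF.op | apply PF.pr | apply PF.sep | exact PF.var _ | exact PF.const _ | apply PD.eq | apply PD.mem | apply PD.not | apply PD.iff | apply PD.or | apply PD.and | apply PD.imp | apply PD.ex | apply PD.all | exact PD.const _ | assumption | refine PF.comp1 (F := _) (by assumption) ?_ | refine PF.comp2 (F := _) (by assumption) ?_ ?_ | refine PF.comp3 (F := _)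 (by assumption) ?_ ?_ ?_ | refine PD.app1 (R := _) (by assumption) ?_ | refine PD.app2 (R := _) (by assumption) ?_ ?_ | refine PD.app3 (R := _) (by assumption) ?_ ?_ ?_ | refine PD.app4 (R := _) (by assumption) ?_ ?_ ?_ ?_)))).1 hy
      rw [mem_sep (by (repeat' (with_reducible first | apply pd_Le | apply pf_fins | apply pf_card | apply pd_Bij | apply pd_Fini | apply pd_Big | apply pd_Ord | apply pd_Tr | apply pd_Ind | apply pf_succ | apply pf_funs | apply pf_prod | apply pf_lam | apply pd_Fn | apply pf_app | apply pf_ran | apply pf_dom | apply PF.img | apply PF.pow | apply PD.sub | apply PF.adj | apply PF.un | apply PF.sUn | apply PF.op | apply PF.pr | apply PF.sep | exact PF.var _ | exact PF.const _ | apply PD.eq | apply PD.mem | apply PD.not | apply PD.iff | apply PD.or | apply PD.and | apply PD.imp | apply PD.ex | apply PD.all | exact PD.const _ | assumption | refine PF.comp1 (F := _) (by assumption) ?_ | refine PF.comp2 (F := _) (by assumption) ?_ ?_ | refine PF.comp3 (F := _) (by assumption) ?_ ?_ ?_ | refine PD.app1 (R := _) (by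 assumption) ?_ | refine PD.app2 (R := _) (by assumption) ?_ ?_ | refine PD.app3 (R := _) (by assumption) ?_ ?_ ?_ | refine PD.app4 (R := _) (by assumption) ?_ ?_ ?_ ?_)))] at ht
      exact absurd ⟨t, ht⟩ hn
    · rw [mem_sep (by (repeat' (with_reducible first | apply pd_Le | apply pf_fins | apply pf_card | apply pd_Bij | apply pd_Fini | apply pd_Big | apply pd_Ord | apply pd_Tr | apply pd_Ind | apply pf_succ | apply pf_funs | apply pf_prod | apply pf_lam | apply pd_Fn | apply pf_app | apply pf_ran | apply pf_dom | apply PF.img | apply PF.pow | apply PD.sub | apply PF.adj | apply PF.un | apply PF.sUn | apply PF.op | apply PF.pr | apply PF.sep | exact PF.var _ | exact PF.const _ | apply PD.eq | apply PD.mem | apply PD.not | apply PD.iff | apply PD.or | apply PD.and | apply PD.imp | apply PD.ex | apply PD.all | exact PD.const _ | assumption | refine PF.comp1 (F := _) (by assumption) ?_ | refine PF.comp2 (F := _) (by assumption) ?_ ?_ | refine PF.comp3 (F := _) (by assumption) ?_ ?_ ?_ | refine PD.app1 (R := _) (by assumption) ?_ | refine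 PD.app2 (R := _) (by assumption) ?_ ?_ | refine PD.app3 (R := _) (by assumption) ?_ ?_ ?_ | refine PD.app4 (R := _) (by assumption) ?_ ?_ ?_ ?_)))] at hz
      exact hz.1
  · intro hz
    refine Or.inr ?_
    rw [mem_sep (by (repeat' (with_reducible first | apply pd_Le | apply pf_fins | apply pf_card | apply pd_Bij | apply pd_Fini | apply pd_Big | apply pd_Ord | apply pd_Tr | apply pd_Ind | apply pf_succ | apply pf_funs | apply pf_prod | apply pf_lam | apply pd_Fn | apply pf_app | apply pf_ran | apply pf_dom | apply PF.img | apply PF.pow | apply PD.sub | apply PF.adj | apply PF.un | apply PF.sUn | apply PF.op | apply PF.pr | apply PF.sep | exact PF.var _ | exact PF.const _ | apply PD.eq | apply PD.mem | apply PD.not | apply PD.iff | apply PD.or | apply PD.and | apply PD.imp | apply PD.ex | apply PD.all | exact PD.const _ | assumption | refine PF.comp1 (F := _) (by assumption) ?_ | refine PF.comp2 (F := _) (by assumption) ?_ ?_ | refine PF.comp3 (F := _) (by assumption) ?_ ?_ ?_ | refine PD.app1 (R := _) (by assumption) ?_ | refine PD.app2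 (R := _) (by assumption) ?_ ?_ | refine PD.app3 (R := _) (by assumption) ?_ ?_ ?_ | refine PD.app4 (R := _) (by assumption) ?_ ?_ ?_ ?_)))]
    exact ⟨hz, hn⟩

private theorem kd_pull {b c d : M} (hb : ∃ z, SetStr.mem z b) (h : Le c d) :
    Le (funs c b) (funs d b) := by
  obtain ⟨z0, hz0⟩ := hb
  obtain ⟨g, hg, hgv, hgi⟩ := h
  have hG : ∀ f : M, PF (fun v : ℕ → M => kd_val g c z0 f (v 0)) := by
    intro f
    unfold kd_val
    (repeat' (with_reducible first | apply pd_Le | apply pf_fins | apply pf_card | apply pd_Bij | apply pd_Fini | apply pd_Big | apply pd_Ord | apply pd_Tr | apply pd_Ind | apply pf_succ | apply pf_funs | apply pf_prod | apply pf_lam | apply pd_Fn | apply pf_app | apply pf_ran | apply pf_dom | apply PF.img | apply PF.pow | apply PD.sub | apply PF.adj | apply PF.un | apply PF.sUn | apply PF.op | apply PF.pr | apply PF.sep | exact PF.var _ | exact PF.const _ | apply PD.eq | apply PD.mem | apply PD.not | apply PD.iff | apply PD.or | apply PD.and | apply PD.imp | apply PD.ex | apply PD.all | exact PD.const _ | assumption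 | refine PF.comp1 (F := _) (by assumption) ?_ | refine PF.comp2 (F := _) (by assumption) ?_ ?_ | refine PF.comp3 (F := _) (by assumption) ?_ ?_ ?_ | refine PD.app1 (R := _) (by assumption) ?_ | refine PD.app2 (R := _) (by assumption) ?_ ?_ | refine PD.app3 (R := _) (by assumption) ?_ ?_ ?_ | refine PD.app4 (R := _) (by assumption) ?_ ?_ ?_ ?_))
  have hF : PF (fun v : ℕ → M => lam (fun n => kd_val g c z0 (v 0) n) d) := by
    unfold kd_val
    (repeat' (with_reducible first | apply pd_Le | apply pf_fins | apply pf_card | apply pd_Bij | apply pd_Fini | apply pd_Big | apply pd_Ord | apply pd_Tr | apply pd_Ind | apply pf_succ | apply pf_funs | apply pf_prod | apply pf_lam | apply pd_Fn | apply pf_app | apply pf_ran | apply pf_dom | apply PF.img | apply PF.pow | apply PD.sub | apply PF.adj | apply PF.un | apply PF.sUn | apply PF.op | apply PF.pr | apply PF.sep | exact PF.var _ | exact PF.const _ | apply PD.eq | apply PD.mem | apply PD.not | apply PD.iff | apply PD.or | apply PD.and | apply PD.imp | apply PD.ex | apply PD.all | exact PD.const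 _ | assumption | refine PF.comp1 (F := _) (by assumption) ?_ | refine PF.comp2 (F := _) (by assumption) ?_ ?_ | refine PF.comp3 (F := _) (by assumption) ?_ ?_ ?_ | refine PD.app1 (R := _) (by assumption) ?_ | refine PD.app2 (R := _) (by assumption) ?_ ?_ | refine PD.app3 (R := _) (by assumption) ?_ ?_ ?_ | refine PD.app4 (R := _) (by assumption) ?_ ?_ ?_ ?_))
  refine Le.of_fun (F := fun f => lam (fun n => kd_val g c z0 f n) d) hF (fun f hf => ?_)
    (fun f f' hf hf' h => ?_)
  · rw [mem_funs] at hf ⊢
    refine ⟨lam_Fn (hG f) _, fun n hn => ?_⟩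
    rw [app_lam (hG f) hn]
    by_cases hx : ∃ x, SetStr.mem x c ∧ app g x = n
    · obtain ⟨x, hx, hxn⟩ := hx
      rw [kd_val_pos hx hxn hgi]
      exact hf.2 x hx
    · rw [kd_val_neg hx]
      exact hz0
  · rw [mem_funs] at hf hf'
    refine hf.1.ext hf'.1 (fun x hx => ?_)
    have h4 : app (lam (fun n => kd_val g c z0 f n) d) (app g x) =
        app (lam (fun n => kd_val g c z0 f' n) d) (app g x) :=
      congrArg (fun t => app t (app g x)) h
    rw [app_lam (hG f) (hgv x hx), app_lam (hG f') (hgv x hx), kd_val_pos hx rfl hgi,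
      kd_val_pos hx rfl hgi] at h4
    exact h4

/-- MODULE kd.  Currying and `le_om_prod`. -/
theorem le_funs_funs {b : M} (hb : ∃ z, SetStr.mem z b) : Le (funs om (funs om b)) (funs om b) := by
  exact kd_curry.trans (kd_pull hb le_om_prod)

/-- MODULE kd -/
theorem le_funs_prod {b : M} (hb : ∃ z, SetStr.mem z b) : Le (funs (prod om om) b) (funs om b) := by
  exact kd_pull hb le_om_prod

private noncomputable def ke_fst (z : M) : M := sUn (sep (sUn z) (fun x => ∃ y, z = op x y))

private noncomputable def ke_snd (z : M) : M := sUn (sep (sUn z) (fun y => ∃ x, z = op x y))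

private theorem ke_pf_fst {f : (ℕ → M) → M} (hf : PF f) : PF (fun v => ke_fst (f v)) :=
  PF.comp1 (F := fun x => ke_fst x) (by unfold ke_fst; (repeat' (with_reducible first | apply pd_Le | apply pf_fins | apply pf_card | apply pd_Bij | apply pd_Fini | apply pd_Big | apply pd_Ord | apply pd_Tr | apply pd_Ind | apply pf_succ | apply pf_funs | apply pf_prod | apply pf_lam | apply pd_Fn | apply pf_app | apply pf_ran | apply pf_dom | apply PF.img | apply PF.pow | apply PD.sub | apply PF.adj | apply PF.un | apply PF.sUn | apply PF.op | apply PF.pr | apply PF.sep | exact PF.var _ | exact PF.const _ | apply PD.eq | apply PD.mem | apply PD.not | apply PD.iff | apply PD.or | apply PD.and | apply PD.imp | apply PD.ex | apply PD.all | exact PD.const _ | assumption | refine PF.comp1 (F := _) (by assumption) ?_ | refine PF.comp2 (F := _) (by assumption) ?_ ?_ | refine PF.comp3 (F := _) (by assumption) ?_ ?_ ?_ | refine PD.app1 (R := _) (by assumption) ?_ | refine PD.app2 (R := _) (by assumption) ?_ ?_ | refine PD.app3 (R := _) (by assumption) ?_ ?_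 ?_ | refine PD.app4 (R := _) (by assumption) ?_ ?_ ?_ ?_))) hf

private theorem ke_pf_snd {f : (ℕ → M) → M} (hf : PF f) : PF (fun v => ke_snd (f v)) :=
  PF.comp1 (F := fun x => ke_snd x) (by unfold ke_snd; (repeat' (with_reducible first | apply pd_Le | apply pf_fins | apply pf_card | apply pd_Bij | apply pd_Fini | apply pd_Big | apply pd_Ord | apply pd_Tr | apply pd_Ind | apply pf_succ | apply pf_funs | apply pf_prod | apply pf_lam | apply pd_Fn | apply pf_app | apply pf_ran | apply pf_dom | apply PF.img | apply PF.pow | apply PD.sub | apply PF.adj | apply PF.un | apply PF.sUn | apply PF.op | apply PF.pr | apply PF.sep | exact PF.var _ | exact PF.const _ | apply PD.eq | apply PD.mem | apply PD.not | apply PD.iff | apply PD.or | apply PD.and | apply PD.imp | apply PD.ex | apply PD.all | exact PD.const _ | assumption | refine PF.comp1 (F := _) (by assumption) ?_ | refine PF.comp2 (F := _) (by assumption) ?_ ?_ | refine PF.comp3 (F := _) (by assumption) ?_ ?_ ?_ | refine PD.app1 (R := _) (by assumption) ?_ | refine PD.app2 (R := _) (by assumption)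 ?_ ?_ | refine PD.app3 (R := _) (by assumption) ?_ ?_ ?_ | refine PD.app4 (R := _) (by assumption) ?_ ?_ ?_ ?_))) hf

private theorem ke_fst_op (a b : M) : ke_fst (op a b) = a := by
  refine ext (fun z => ?_)
  unfold ke_fst
  rw [mem_sUn]
  constructor
  · rintro ⟨x, hx, hz⟩
    rw [mem_sep (by (repeat' (with_reducible first | apply pd_Le | apply pf_fins | apply pf_card | apply pd_Bij | apply pd_Fini | apply pd_Big | apply pd_Ord | apply pd_Tr | apply pd_Ind | apply pf_succ | apply pf_funs | apply pf_prod | apply pf_lam | apply pd_Fn | apply pf_app | apply pf_ran | apply pf_dom | apply PF.img | apply PF.pow | apply PD.sub | apply PF.adj | apply PF.un | apply PF.sUn | apply PF.op | apply PF.pr | apply PF.sep | exact PF.var _ | exact PF.const _ | apply PD.eq | apply PD.mem | apply PD.not | apply PD.iff | apply PD.or | apply PD.and | apply PD.imp | apply PD.ex | apply PD.all | exact PD.const _ | assumption | refine PF.comp1 (F := _) (by assumption) ?_ | refine PF.comp2 (F := _) (by assumption) ?_ ?_ | refine PF.comp3 (F := _) (by assumption)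 ?_ ?_ ?_ | refine PD.app1 (R := _) (by assumption) ?_ | refine PD.app2 (R := _) (by assumption) ?_ ?_ | refine PD.app3 (R := _) (by assumption) ?_ ?_ ?_ | refine PD.app4 (R := _) (by assumption) ?_ ?_ ?_ ?_)))] at hx
    obtain ⟨_, y, hy⟩ := hx
    rw [op_inj] at hy
    rw [hy.1]
    exact hz
  · intro hz
    refine ⟨a, ?_, hz⟩
    rw [mem_sep (by (repeat' (with_reducible first | apply pd_Le | apply pf_fins | apply pf_card | apply pd_Bij | apply pd_Fini | apply pd_Big | apply pd_Ord | apply pd_Tr | apply pd_Ind | apply pf_succ | apply pf_funs | apply pf_prod | apply pf_lam | apply pd_Fn | apply pf_app | apply pf_ran | apply pf_dom | apply PF.img | apply PF.pow | apply PD.sub | apply PF.adj | apply PF.un | apply PF.sUn | apply PF.op | apply PF.pr | apply PF.sep | exact PF.var _ | exact PF.const _ | apply PD.eq | apply PD.mem | apply PD.not | apply PD.iff | apply PD.or | apply PD.and | apply PD.imp | apply PD.ex | apply PD.all | exact PD.const _ | assumption | refine PF.comp1 (F := _) (by assumption) ?_ | refine PF.comp2 (F := _) (by assumption)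 ?_ ?_ | refine PF.comp3 (F := _) (by assumption) ?_ ?_ ?_ | refine PD.app1 (R := _) (by assumption) ?_ | refine PD.app2 (R := _) (by assumption) ?_ ?_ | refine PD.app3 (R := _) (by assumption) ?_ ?_ ?_ | refine PD.app4 (R := _) (by assumption) ?_ ?_ ?_ ?_)))]
    exact ⟨mem_sUn.2 ⟨pr a a, by simp [op], by simp⟩, b, rfl⟩

private theorem ke_snd_op (a b : M) : ke_snd (op a b) = b := by
  refine ext (fun z => ?_)
  unfold ke_snd
  rw [mem_sUn]
  constructor
  · rintro ⟨x, hx, hz⟩
    rw [mem_sep (by (repeat' (with_reducible first | apply pd_Le | apply pf_fins | apply pf_card | apply pd_Bij | apply pd_Fini | apply pd_Big | apply pd_Ord | apply pd_Tr | apply pd_Ind | apply pf_succ | apply pf_funs | apply pf_prod | apply pf_lam | apply pd_Fn | apply pf_app | apply pf_ran | apply pf_dom | apply PF.img | apply PF.pow | apply PD.sub | apply PF.adj | apply PF.un | apply PF.sUn | apply PF.op | apply PF.pr | apply PF.sep | exact PF.var _ | exact PF.const _ | apply PD.eq | apply PD.mem | apply PD.not | apply PD.iff | apply PD.or | apply PD.and | apply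 PD.imp | apply PD.ex | apply PD.all | exact PD.const _ | assumption | refine PF.comp1 (F := _) (by assumption) ?_ | refine PF.comp2 (F := _) (by assumption) ?_ ?_ | refine PF.comp3 (F := _) (by assumption) ?_ ?_ ?_ | refine PD.app1 (R := _) (by assumption) ?_ | refine PD.app2 (R := _) (by assumption) ?_ ?_ | refine PD.app3 (R := _) (by assumption) ?_ ?_ ?_ | refine PD.app4 (R := _) (by assumption) ?_ ?_ ?_ ?_)))] at hx
    obtain ⟨_, y, hy⟩ := hx
    rw [op_inj] at hy
    rw [hy.2]
    exact hz
  · intro hz
    refine ⟨b, ?_, hz⟩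
    rw [mem_sep (by (repeat' (with_reducible first | apply pd_Le | apply pf_fins | apply pf_card | apply pd_Bij | apply pd_Fini | apply pd_Big | apply pd_Ord | apply pd_Tr | apply pd_Ind | apply pf_succ | apply pf_funs | apply pf_prod | apply pf_lam | apply pd_Fn | apply pf_app | apply pf_ran | apply pf_dom | apply PF.img | apply PF.pow | apply PD.sub | apply PF.adj | apply PF.un | apply PF.sUn | apply PF.op | apply PF.pr | apply PF.sep | exact PF.var _ | exact PF.const _ | apply PD.eq | apply PD.mem | apply PD.not | apply PD.iff | apply PD.or | apply PD.and | apply PD.imp | apply PD.ex | apply PD.all | exact PD.const _ | assumption | refine PF.comp1 (F := _) (by assumption) ?_ | refine PF.comp2 (F := _) (by assumption) ?_ ?_ | refine PF.comp3 (F := _) (by assumption) ?_ ?_ ?_ | refine PD.app1 (R := _) (by assumption) ?_ | refine PD.app2 (R := _) (by assumption) ?_ ?_ | refine PD.app3 (R := _) (by assumption) ?_ ?_ ?_ | refine PD.app4 (R := _) (by assumption) ?_ ?_ ?_ ?_)))]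
    exact ⟨mem_sUn.2 ⟨pr a b, by simp [op], by simp⟩, a, rfl⟩

private noncomputable def ke_sh (f x n : M) : M :=
  un (sep x (fun _ => n = emp)) (sep (app f (sUn n)) (fun _ => ¬ n = emp))

private theorem ke_sh_emp (f x : M) : ke_sh f x emp = x := by
  refine ext (fun z => ?_)
  unfold ke_sh
  rw [mem_un, mem_sep (by (repeat' (with_reducible first | apply pd_Le | apply pf_fins | apply pf_card | apply pd_Bij | apply pd_Fini | apply pd_Big | apply pd_Ord | apply pd_Tr | apply pd_Ind | apply pf_succ | apply pf_funs | apply pf_prod | apply pf_lam | apply pd_Fn | apply pf_app | apply pf_ran | apply pf_dom | apply PF.img | apply PF.pow | apply PD.sub | apply PF.adj | apply PF.un | apply PF.sUn | apply PF.op | apply PF.pr | apply PF.sep | exact PF.var _ | exact PF.const _ | apply PD.eq | apply PD.mem | apply PD.not | apply PD.iff | apply PD.or | apply PD.and | apply PD.imp | apply PD.ex | apply PD.all | exact PD.const _ | assumption | refine PF.comp1 (F := _) (by assumption) ?_ | refine PF.comp2 (F := _) (by assumption) ?_ ?_ | refine PF.comp3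 (F := _) (by assumption) ?_ ?_ ?_ | refine PD.app1 (R := _) (by assumption) ?_ | refine PD.app2 (R := _) (by assumption) ?_ ?_ | refine PD.app3 (R := _) (by assumption) ?_ ?_ ?_ | refine PD.app4 (R := _) (by assumption) ?_ ?_ ?_ ?_))), mem_sep (by (repeat' (with_reducible first | apply pd_Le | apply pf_fins | apply pf_card | apply pd_Bij | apply pd_Fini | apply pd_Big | apply pd_Ord | apply pd_Tr | apply pd_Ind | apply pf_succ | apply pf_funs | apply pf_prod | apply pf_lam | apply pd_Fn | apply pf_app | apply pf_ran | apply pf_dom | apply PF.img | apply PF.pow | apply PD.sub | apply PF.adj | apply PF.un | apply PF.sUn | apply PF.op | apply PF.pr | apply PF.sep | exact PF.var _ | exact PF.const _ | apply PD.eq | apply PD.mem | apply PD.not | apply PD.iff | apply PD.or | apply PD.and | apply PD.imp | apply PD.ex | apply PD.all | exact PD.const _ | assumption | refine PF.comp1 (F := _) (by assumption) ?_ | refine PF.comp2 (F := _) (by assumption) ?_ ?_ | refine PF.comp3 (F := _) (by assumption) ?_ ?_ ?_ | refine PD.app1 (R := _) (by assumption)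 ?_ | refine PD.app2 (R := _) (by assumption) ?_ ?_ | refine PD.app3 (R := _) (by assumption) ?_ ?_ ?_ | refine PD.app4 (R := _) (by assumption) ?_ ?_ ?_ ?_)))]
  constructor
  · rintro (h | h)
    · exact h.1
    · exact absurd rfl h.2
  · intro h
    exact Or.inl ⟨h, rfl⟩

private theorem ke_sh_succ {f x n : M} (hn : SetStr.mem n (om : M)) : ke_sh f x (succ n) = app f n := by
  have h0 : ¬ succ n = emp := by
    intro h
    have h1 : SetStr.mem n (succ n) := mem_succ.2 (Or.inr rfl)
    rw [h] at h1
    exact not_mem_emp _ h1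
  have h1 : sUn (succ n) = n := by
    refine ext (fun z => ?_)
    rw [mem_sUn]
    constructor
    · rintro ⟨y, hy, hz⟩
      rcases mem_succ.1 hy with hy | hy
      · exact om_elt_trans hn hy hz
      · rw [hy] at hz
        exact hz
    · intro hz
      exact ⟨n, mem_succ.2 (Or.inr rfl), hz⟩
  refine ext (fun z => ?_)
  unfold ke_sh
  rw [mem_un, mem_sep (by (repeat' (with_reducible first | apply pd_Le | apply pf_fins | apply pf_card | apply pd_Bij | apply pd_Fini | apply pd_Big | apply pd_Ord | apply pd_Tr | apply pd_Ind | apply pf_succ | apply pf_funs | apply pf_prod | apply pf_lam | apply pd_Fn | apply pf_app | apply pf_ran | apply pf_dom | apply PF.img | apply PF.pow | apply PD.sub | apply PF.adj | apply PF.un | apply PF.sUn | apply PF.op | apply PF.pr | apply PF.sep | exact PF.var _ | exact PF.const _ | apply PD.eq | apply PD.mem | apply PD.not | apply PD.iff | apply PD.or | apply PD.and | apply PD.imp | apply PD.ex | apply PD.all | exact PD.const _ | assumption | refine PF.comp1 (F := _) (by assumption) ?_ | refine PF.comp2 (F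 := _) (by assumption) ?_ ?_ | refine PF.comp3 (F := _) (by assumption) ?_ ?_ ?_ | refine PD.app1 (R := _) (by assumption) ?_ | refine PD.app2 (R := _) (by assumption) ?_ ?_ | refine PD.app3 (R := _) (by assumption) ?_ ?_ ?_ | refine PD.app4 (R := _) (by assumption) ?_ ?_ ?_ ?_))), mem_sep (by (repeat' (with_reducible first | apply pd_Le | apply pf_fins | apply pf_card | apply pd_Bij | apply pd_Fini | apply pd_Big | apply pd_Ord | apply pd_Tr | apply pd_Ind | apply pf_succ | apply pf_funs | apply pf_prod | apply pf_lam | apply pd_Fn | apply pf_app | apply pf_ran | apply pf_dom | apply PF.img | apply PF.pow | apply PD.sub | apply PF.adj | apply PF.un | apply PF.sUn | apply PF.op | apply PF.pr | apply PF.sep | exact PF.var _ | exact PF.const _ | apply PD.eq | apply PD.mem | apply PD.not | apply PD.iff | apply PD.or | apply PD.and | apply PD.imp | apply PD.ex | apply PD.all | exact PD.const _ | assumption | refine PF.comp1 (F := _) (by assumption) ?_ | refine PF.comp2 (F := _) (by assumption) ?_ ?_ | refine PF.comp3 (F := _) (by assumption)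 ?_ ?_ ?_ | refine PD.app1 (R := _) (by assumption) ?_ | refine PD.app2 (R := _) (by assumption) ?_ ?_ | refine PD.app3 (R := _) (by assumption) ?_ ?_ ?_ | refine PD.app4 (R := _) (by assumption) ?_ ?_ ?_ ?_))), h1]
  constructor
  · rintro (h | h)
    · exact absurd h.2 h0
    · exact h.1
  · intro h
    exact Or.inr ⟨h, h0⟩

/-- MODULE ke.  Shift by one. -/
theorem le_prod_funs {b : M} : Le (prod (funs om b) b) (funs om b) := by
  have hG : ∀ f x : M, PF (fun v : ℕ → M => ke_sh f x (v 0)) := by
    intro f x
    unfold ke_sh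
    (repeat' (with_reducible first | apply pd_Le | apply pf_fins | apply pf_card | apply pd_Bij | apply pd_Fini | apply pd_Big | apply pd_Ord | apply pd_Tr | apply pd_Ind | apply pf_succ | apply pf_funs | apply pf_prod | apply pf_lam | apply pd_Fn | apply pf_app | apply pf_ran | apply pf_dom | apply PF.img | apply PF.pow | apply PD.sub | apply PF.adj | apply PF.un | apply PF.sUn | apply PF.op | apply PF.pr | apply PF.sep | exact PF.var _ | exact PF.const _ | apply PD.eq | apply PD.mem | apply PD.not | apply PD.iff | apply PD.or | apply PD.and | apply PD.imp | apply PD.ex | apply PD.all | exact PD.const _ | assumption | refine PF.comp1 (F := _) (by assumption) ?_ | refine PF.comp2 (F := _) (by assumption) ?_ ?_ | refine PF.comp3 (F := _) (by assumption) ?_ ?_ ?_ | refine PD.app1 (R := _) (by assumption) ?_ | refine PD.app2 (R := _) (by assumption) ?_ ?_ | refine PD.app3 (R := _) (by assumption) ?_ ?_ ?_ | refine PD.app4 (R := _) (by assumption) ?_ ?_ ?_ ?_))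
  have hF : PF (fun v : ℕ → M => lam (fun n => ke_sh (ke_fst (v 0)) (ke_snd (v 0)) n) om) := by
    unfold ke_sh ke_fst ke_snd
    (repeat' (with_reducible first | apply pd_Le | apply pf_fins | apply pf_card | apply pd_Bij | apply pd_Fini | apply pd_Big | apply pd_Ord | apply pd_Tr | apply pd_Ind | apply pf_succ | apply pf_funs | apply pf_prod | apply pf_lam | apply pd_Fn | apply pf_app | apply pf_ran | apply pf_dom | apply PF.img | apply PF.pow | apply PD.sub | apply PF.adj | apply PF.un | apply PF.sUn | apply PF.op | apply PF.pr | apply PF.sep | exact PF.var _ | exact PF.const _ | apply PD.eq | apply PD.mem | apply PD.not | apply PD.iff | apply PD.or | apply PD.and | apply PD.imp | apply PD.ex | apply PD.all | exact PD.const _ | assumption | refine PF.comp1 (F := _) (by assumption) ?_ | refine PF.comp2 (F := _) (by assumption) ?_ ?_ | refine PF.comp3 (F := _) (by assumption) ?_ ?_ ?_ | refine PD.app1 (R := _) (by assumption) ?_ | refine PD.app2 (R := _) (by assumption) ?_ ?_ | refine PD.app3 (R := _) (by assumption) ?_ ?_ ?_ | refine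 PD.app4 (R := _) (by assumption) ?_ ?_ ?_ ?_))
  refine Le.of_fun (F := fun z => lam (fun n => ke_sh (ke_fst z) (ke_snd z) n) om) hF
    (fun z hz => ?_) (fun z w hz hw h => ?_)
  · obtain ⟨f, hf, x, hx, rfl⟩ := mem_prod.1 hz
    rw [ke_fst_op, ke_snd_op, mem_funs]
    rw [mem_funs] at hf
    refine ⟨lam_Fn (hG f x) _, fun n hn => ?_⟩
    rw [app_lam (hG f x) hn]
    rcases om_cases hn with rfl | ⟨m, hm, rfl⟩
    · rw [ke_sh_emp]
      exact hx
    · rw [ke_sh_succ hm]
      exact hf.2 m hm
  · obtain ⟨f, hf, x, hx, rfl⟩ := mem_prod.1 hz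
    obtain ⟨g, hg, y, hy, rfl⟩ := mem_prod.1 hw
    simp only [ke_fst_op, ke_snd_op] at h
    rw [mem_funs] at hf hg
    have h1 : ∀ n, SetStr.mem n (om : M) → ke_sh f x n = ke_sh g y n := by
      intro n hn
      have h2 : app (lam (fun n => ke_sh f x n) om) n = app (lam (fun n => ke_sh g y n) om) n :=
        congrArg (fun t => app t n) h
      rw [app_lam (hG f x) hn, app_lam (hG g y) hn] at h2
      exact h2
    have h3 := h1 emp emp_mem_om
    rw [ke_sh_emp, ke_sh_emp] at h3
    rw [op_inj]
    refine ⟨hf.1.ext hg.1 (fun n hn => ?_), h3⟩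
    have h4 := h1 (succ n) (succ_mem_om hn)
    rw [ke_sh_succ hn, ke_sh_succ hn] at h4
    exact h4

private theorem ke_const {b : M} :
    Le (prod (funs om b) (funs om b)) (prod (funs om (funs om b)) (funs om b)) := by
  have hG : ∀ f : M, PF (fun _ : ℕ → M => f) := fun f => PF.const f
  have hF : PF (fun v : ℕ → M => op (lam (fun _ => ke_fst (v 0)) om) (ke_snd (v 0))) := by
    unfold ke_fst ke_snd
    (repeat' (with_reducible first | apply pd_Le | apply pf_fins | apply pf_card | apply pd_Bij | apply pd_Fini | apply pd_Big | apply pd_Ord | apply pd_Tr | apply pd_Ind | apply pf_succ | apply pf_funs | apply pf_prod | apply pf_lam | apply pd_Fn | apply pf_app | apply pf_ran | apply pf_dom | apply PF.img | apply PF.pow | apply PD.sub | apply PF.adj | apply PF.un | apply PF.sUn | apply PF.op | apply PF.pr | apply PF.sep | exact PF.var _ | exact PF.const _ | apply PD.eq | apply PD.mem | apply PD.not | apply PD.iff | apply PD.or | apply PD.and | apply PD.imp | apply PD.ex | apply PD.all | exact PD.const _ | assumption | refine PF.comp1 (F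 := _) (by assumption) ?_ | refine PF.comp2 (F := _) (by assumption) ?_ ?_ | refine PF.comp3 (F := _) (by assumption) ?_ ?_ ?_ | refine PD.app1 (R := _) (by assumption) ?_ | refine PD.app2 (R := _) (by assumption) ?_ ?_ | refine PD.app3 (R := _) (by assumption) ?_ ?_ ?_ | refine PD.app4 (R := _) (by assumption) ?_ ?_ ?_ ?_))
  refine Le.of_fun (F := fun z => op (lam (fun _ => ke_fst z) om) (ke_snd z)) hF
    (fun z hz => ?_) (fun z w hz hw h => ?_)
  · obtain ⟨f, hf, x, hx, rfl⟩ := mem_prod.1 hz
    rw [ke_fst_op, ke_snd_op, op_mem_prod]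
    refine ⟨mem_funs.2 ⟨lam_Fn (hG f) _, fun n hn => ?_⟩, hx⟩
    rw [app_lam (hG f) hn]
    exact hf
  · obtain ⟨f, hf, x, hx, rfl⟩ := mem_prod.1 hz
    obtain ⟨g, hg, y, hy, rfl⟩ := mem_prod.1 hw
    simp only [ke_fst_op, ke_snd_op, op_inj] at h
    have h2 : app (lam (fun _ => f) om) emp = app (lam (fun _ => g) om) emp :=
      congrArg (fun t => app t emp) h.1
    rw [app_lam (hG f) emp_mem_om, app_lam (hG g) emp_mem_om] at h2
    rw [op_inj]
    exact ⟨h2, h.2⟩

/-- MODULE ke -/
theorem le_prod_funs_funs {b : M} (hb : ∃ z, SetStr.mem z b) :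
    Le (prod (funs om b) (funs om b)) (funs om b) := by
  exact (ke_const.trans le_prod_funs).trans (le_funs_funs hb)

private def kf_R (a r ν : M) : Prop :=
  Ord ν ∧ ∃ f, Fn f ν ∧ (∀ x, SetStr.mem x ν → SetStr.mem (app f x) a) ∧
    (∀ x y, SetStr.mem x ν → SetStr.mem y ν → app f x = app f y → x = y) ∧
    ∀ z, SetStr.mem z r ↔ ∃ x y, SetStr.mem x ν ∧ SetStr.mem y ν ∧ (SetStr.mem x y ∨ x = y) ∧ z = op (app f x) (app f y)

private theorem kf_sub {a r ν μ : M} (h : kf_R a r ν) (h' : kf_R a r μ) : GA.sub ν μ := by
  obtain ⟨hν, f, hf, hfa, hfi, hfr⟩ := h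
  obtain ⟨hμ, g, hg, hga, hgi, hgr⟩ := h'
  have hv : ∀ x y, SetStr.mem y μ → app g y = app f x →
      sUn (sep μ (fun y => app g y = app f x)) = y := by
    intro x y hy hxy
    refine ext (fun z => ?_)
    rw [mem_sUn]
    constructor
    · rintro ⟨w, hw, hz⟩
      rw [mem_sep (by (repeat' (with_reducible first | apply pd_Le | apply pf_fins | apply pf_card | apply pd_Bij | apply pd_Fini | apply pd_Big | apply pd_Ord | apply pd_Tr | apply pd_Ind | apply pf_succ | apply pf_funs | apply pf_prod | apply pf_lam | apply pd_Fn | apply pf_app | apply pf_ran | apply pf_dom | apply PF.img | apply PF.pow | apply PD.sub | apply PF.adj | apply PF.un | apply PF.sUn | apply PF.op | apply PF.pr | apply PF.sep | exact PF.var _ | exact PF.const _ | apply PD.eq | apply PD.mem | apply PD.not | apply PD.iff | apply PD.or | apply PD.and | apply PD.imp | apply PD.ex | apply PD.all | exact PD.const _ | assumption | refine PF.comp1 (F := _) (by assumption) ?_ | refine PF.comp2 (F := _) (by assumption) ?_ ?_ | refine PF.comp3 (F := _) (by assumption) ?_ ?_ ?_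 | refine PD.app1 (R := _) (by assumption) ?_ | refine PD.app2 (R := _) (by assumption) ?_ ?_ | refine PD.app3 (R := _) (by assumption) ?_ ?_ ?_ | refine PD.app4 (R := _) (by assumption) ?_ ?_ ?_ ?_)))] at hw
      have h1 := hgi w y hw.1 hy (hw.2.trans hxy.symm)
      rw [h1] at hz
      exact hz
    · intro hz
      refine ⟨y, ?_, hz⟩
      rw [mem_sep (by (repeat' (with_reducible first | apply pd_Le | apply pf_fins | apply pf_card | apply pd_Bij | apply pd_Fini | apply pd_Big | apply pd_Ord | apply pd_Tr | apply pd_Ind | apply pf_succ | apply pf_funs | apply pf_prod | apply pf_lam | apply pd_Fn | apply pf_app | apply pf_ran | apply pf_dom | apply PF.img | apply PF.pow | apply PD.sub | apply PF.adj | apply PF.un | apply PF.sUn | apply PF.op | apply PF.pr | apply PF.sep | exact PF.var _ | exact PF.const _ | apply PD.eq | apply PD.mem | apply PD.not | apply PD.iff | apply PD.or | apply PD.and | apply PD.imp | apply PD.ex | apply PD.all | exact PD.const _ | assumption | refine PF.comp1 (F := _) (by assumption) ?_ | refine PF.comp2 (F := _)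 (by assumption) ?_ ?_ | refine PF.comp3 (F := _) (by assumption) ?_ ?_ ?_ | refine PD.app1 (R := _) (by assumption) ?_ | refine PD.app2 (R := _) (by assumption) ?_ ?_ | refine PD.app3 (R := _) (by assumption) ?_ ?_ ?_ | refine PD.app4 (R := _) (by assumption) ?_ ?_ ?_ ?_)))]
      exact ⟨hy, hxy⟩
  have hG : PF (fun v : ℕ → M => sUn (sep μ (fun y => app g y = app f (v 0)))) := by (repeat' (with_reducible first | apply pd_Le | apply pf_fins | apply pf_card | apply pd_Bij | apply pd_Fini | apply pd_Big | apply pd_Ord | apply pd_Tr | apply pd_Ind | apply pf_succ | apply pf_funs | apply pf_prod | apply pf_lam | apply pd_Fn | apply pf_app | apply pf_ran | apply pf_dom | apply PF.img | apply PF.pow | apply PD.sub | apply PF.adj | apply PF.un | apply PF.sUn | apply PF.op | apply PF.pr | apply PF.sep | exact PF.var _ | exact PF.const _ | apply PD.eq | apply PD.mem | apply PD.not | apply PD.iff | apply PD.or | apply PD.and | apply PD.imp | apply PD.ex | apply PD.all | exact PD.const _ | assumption | refine PF.comp1 (F := _) (by assumption) ?_ |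 refine PF.comp2 (F := _) (by assumption) ?_ ?_ | refine PF.comp3 (F := _) (by assumption) ?_ ?_ ?_ | refine PD.app1 (R := _) (by assumption) ?_ | refine PD.app2 (R := _) (by assumption) ?_ ?_ | refine PD.app3 (R := _) (by assumption) ?_ ?_ ?_ | refine PD.app4 (R := _) (by assumption) ?_ ?_ ?_ ?_))
  refine incr_sub hν hμ (lam_Fn (F := fun x => sUn (sep μ (fun y => app g y = app f x))) hG ν)
    (fun x hx => ?_) (fun x y hx hyx => ?_)
  · rw [app_lam hG hx]
    have h1 : SetStr.mem (op (app f x) (app f x)) r := (hfr _).2 ⟨x, x, hx, hx, Or.inr rfl, rfl⟩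
    obtain ⟨s, t, hs, ht, _, hst⟩ := (hgr _).1 h1
    rw [op_inj] at hst
    rw [hv x s hs hst.1.symm]
    exact hs
  · have hy : SetStr.mem y ν := hν.trans hx hyx
    rw [app_lam hG hx, app_lam hG hy]
    have h1 : SetStr.mem (op (app f y) (app f x)) r := (hfr _).2 ⟨y, x, hy, hx, Or.inl hyx, rfl⟩
    obtain ⟨s, t, hs, ht, hc, hst⟩ := (hgr _).1 h1
    rw [op_inj] at hst
    rw [hv x t ht hst.2.symm, hv y s hs hst.1.symm]
    rcases hc with hc | hc
    · exact hc
    · exfalso
      rw [hc, ← hst.2] at hst
      have h2 := hfi y x hy hx hst.1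
      rw [h2] at hyx
      exact not_mem_self _ hyx

private theorem kf_uniq {a r ν μ : M} (h : kf_R a r ν) (h' : kf_R a r μ) : ν = μ :=
  ext (fun z => ⟨kf_sub h h' z, kf_sub h' h z⟩)

private theorem kf_pd (a : M) : PD (fun v : ℕ → M => kf_R a (v 0) (v 1)) := by
  unfold kf_R
  (repeat' (with_reducible first | apply pd_Le | apply pf_fins | apply pf_card | apply pd_Bij | apply pd_Fini | apply pd_Big | apply pd_Ord | apply pd_Tr | apply pd_Ind | apply pf_succ | apply pf_funs | apply pf_prod | apply pf_lam | apply pd_Fn | apply pf_app | apply pf_ran | apply pf_dom | apply PF.img | apply PF.pow | apply PD.sub | apply PF.adj | apply PF.un | apply PF.sUn | apply PF.op | apply PF.pr | apply PF.sep | exact PF.var _ | exact PF.const _ | apply PD.eq | apply PD.mem | apply PD.not | apply PD.iff | apply PD.or | apply PD.and | apply PD.imp | apply PD.ex | apply PD.all | exact PD.const _ | assumption | refine PF.comp1 (F := _) (by assumption) ?_ | refine PF.comp2 (F := _) (by assumption) ?_ ?_ | refine PF.comp3 (F := _) (by assumption) ?_ ?_ ?_ | refine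 PD.app1 (R := _) (by assumption) ?_ | refine PD.app2 (R := _) (by assumption) ?_ ?_ | refine PD.app3 (R := _) (by assumption) ?_ ?_ ?_ | refine PD.app4 (R := _) (by assumption) ?_ ?_ ?_ ?_))

/-- MODULE kf.  Hartogs: the ordinals that inject into `a` form a set.  (Map a relation `r ⊆ a × a` to
the ordinal `ν` such that some bijection from `ν` to the field of `r` carries `∈` to `r`; use
`exists_repl` and `incr_sub` for uniqueness.) -/
theorem exists_har (a : M) : ∃ h, ∀ ν, SetStr.mem ν h ↔ Ord ν ∧ Le ν a := by
  have hP : PD (fun v : ℕ → M => ∃ ν, kf_R a (v 0) ν) := by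
    unfold kf_R
    (repeat' (with_reducible first | apply pd_Le | apply pf_fins | apply pf_card | apply pd_Bij | apply pd_Fini | apply pd_Big | apply pd_Ord | apply pd_Tr | apply pd_Ind | apply pf_succ | apply pf_funs | apply pf_prod | apply pf_lam | apply pd_Fn | apply pf_app | apply pf_ran | apply pf_dom | apply PF.img | apply PF.pow | apply PD.sub | apply PF.adj | apply PF.un | apply PF.sUn | apply PF.op | apply PF.pr | apply PF.sep | exact PF.var _ | exact PF.const _ | apply PD.eq | apply PD.mem | apply PD.not | apply PD.iff | apply PD.or | apply PD.and | apply PD.imp | apply PD.ex | apply PD.all | exact PD.const _ | assumption | refine PF.comp1 (F := _) (by assumption) ?_ | refine PF.comp2 (F := _) (by assumption) ?_ ?_ | refine PF.comp3 (F := _) (by assumption) ?_ ?_ ?_ | refine PD.app1 (R := _) (by assumption) ?_ | refine PD.app2 (R := _) (by assumption) ?_ ?_ | refine PD.app3 (R := _) (by assumption) ?_ ?_ ?_ | refine PD.app4 (R := _) (by assumption) ?_ ?_ ?_ ?_))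
  obtain ⟨w, hw⟩ := exists_repl (kf_pd a) (sep (pow (prod a a)) (fun r => ∃ ν, kf_R a r ν))
    (fun r hr => by
      rw [mem_sep hP] at hr
      obtain ⟨_, ν, hν⟩ := hr
      exact ⟨ν, hν, fun μ hμ => kf_uniq hμ hν⟩)
  refine ⟨sep w (fun ν => Ord ν ∧ Le ν a), fun ν => ?_⟩
  rw [mem_sep (by (repeat' (with_reducible first | apply pd_Le | apply pf_fins | apply pf_card | apply pd_Bij | apply pd_Fini | apply pd_Big | apply pd_Ord | apply pd_Tr | apply pd_Ind | apply pf_succ | apply pf_funs | apply pf_prod | apply pf_lam | apply pd_Fn | apply pf_app | apply pf_ran | apply pf_dom | apply PF.img | apply PF.pow | apply PD.sub | apply PF.adj | apply PF.un | apply PF.sUn | apply PF.op | apply PF.pr | apply PF.sep | exact PF.var _ | exact PF.const _ | apply PD.eq | apply PD.mem | apply PD.not | apply PD.iff | apply PD.or | apply PD.and | apply PD.imp | apply PD.ex | apply PD.all | exact PD.const _ | assumption | refine PF.comp1 (F := _) (by assumption) ?_ | refine PF.comp2 (F := _) (by assumption) ?_ ?_ | refine PF.comp3 (F := _) (by assumption) ?_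 ?_ ?_ | refine PD.app1 (R := _) (by assumption) ?_ | refine PD.app2 (R := _) (by assumption) ?_ ?_ | refine PD.app3 (R := _) (by assumption) ?_ ?_ ?_ | refine PD.app4 (R := _) (by assumption) ?_ ?_ ?_ ?_)))]
  refine ⟨fun h => h.2, fun h => ⟨?_, h⟩⟩
  obtain ⟨hν, f, hf, hfa, hfi⟩ := h
  have hR : kf_R a (sep (prod a a) (fun z => ∃ x y, SetStr.mem x ν ∧ SetStr.mem y ν ∧ (SetStr.mem x y ∨ x = y) ∧
      z = op (app f x) (app f y))) ν := by
    refine ⟨hν, f, hf, hfa, hfi, fun z => ?_⟩
    rw [mem_sep (by (repeat' (with_reducible first | apply pd_Le | apply pf_fins | apply pf_card | apply pd_Bij | apply pd_Fini | apply pd_Big | apply pd_Ord | apply pd_Tr | apply pd_Ind | apply pf_succ | apply pf_funs | apply pf_prod | apply pf_lam | apply pd_Fn | apply pf_app | apply pf_ran | apply pf_dom | apply PF.img | apply PF.pow | apply PD.sub | apply PF.adj | apply PF.un | apply PF.sUn | apply PF.op | apply PF.pr | apply PF.sep | exact PF.var _ | exact PF.const _ | apply PD.eq | apply PD.mem | apply PD.not | apply PD.iff | apply PD.or | apply PD.and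 | apply PD.imp | apply PD.ex | apply PD.all | exact PD.const _ | assumption | refine PF.comp1 (F := _) (by assumption) ?_ | refine PF.comp2 (F := _) (by assumption) ?_ ?_ | refine PF.comp3 (F := _) (by assumption) ?_ ?_ ?_ | refine PD.app1 (R := _) (by assumption) ?_ | refine PD.app2 (R := _) (by assumption) ?_ ?_ | refine PD.app3 (R := _) (by assumption) ?_ ?_ ?_ | refine PD.app4 (R := _) (by assumption) ?_ ?_ ?_ ?_)))]
    refine ⟨fun h => h.2, fun h => ⟨?_, h⟩⟩
    obtain ⟨x, y, hx, hy, _, rfl⟩ := h
    exact op_mem_prod.2 ⟨hfa x hx, hfa y hy⟩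
  obtain ⟨μ, hμ, hμR⟩ := hw (sep (prod a a) (fun z => ∃ x y, SetStr.mem x ν ∧ SetStr.mem y ν ∧
      (SetStr.mem x y ∨ x = y) ∧ z = op (app f x) (app f y))) (by
    rw [mem_sep hP, mem_pow]
    refine ⟨fun z hz => ?_, ν, hR⟩
    rw [mem_sep (by (repeat' (with_reducible first | apply pd_Le | apply pf_fins | apply pf_card | apply pd_Bij | apply pd_Fini | apply pd_Big | apply pd_Ord | apply pd_Tr | apply pd_Ind | apply pf_succ | apply pf_funs | apply pf_prod | apply pf_lam | apply pd_Fn | apply pf_app | apply pf_ran | apply pf_dom | apply PF.img | apply PF.pow | apply PD.sub | apply PF.adj | apply PF.un | apply PF.sUn | apply PF.op | apply PF.pr | apply PF.sep | exact PF.var _ | exact PF.const _ | apply PD.eq | apply PD.mem | apply PD.not | apply PD.iff | apply PD.or | apply PD.and | apply PD.imp | apply PD.ex | apply PD.all | exact PD.const _ | assumption | refine PF.comp1 (F := _) (by assumption) ?_ | refine PF.comp2 (F := _) (by assumption) ?_ ?_ | refine PF.comp3 (F := _) (by assumption) ?_ ?_ ?_ | refine PD.app1 (R := _) (by assumption)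 ?_ | refine PD.app2 (R := _) (by assumption) ?_ ?_ | refine PD.app3 (R := _) (by assumption) ?_ ?_ ?_ | refine PD.app4 (R := _) (by assumption) ?_ ?_ ?_ ?_)))] at hz
    exact hz.1)
  rw [kf_uniq hR hμR]
  exact hμ

/-- The Hartogs number of `a`. -/
noncomputable def har (a : M) : M := (exists_har a).choose

theorem mem_har {a ν : M} : SetStr.mem ν (har a) ↔ Ord ν ∧ Le ν a := (exists_har a).choose_spec ν

theorem pf_har {f : (ℕ → M) → M} (hf : PF f) : PF (fun v => har (f v)) := by
  refine PF.of_mem (Q := fun z v => Ord z ∧ Le z (f v)) (fun v z => mem_har) ?_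
  exact PD.and (by (repeat' (with_reducible first | apply pd_Le | apply pf_fins | apply pf_card | apply pd_Bij | apply pd_Fini | apply pd_Big | apply pd_Ord | apply pd_Tr | apply pd_Ind | apply pf_succ | apply pf_funs | apply pf_prod | apply pf_lam | apply pd_Fn | apply pf_app | apply pf_ran | apply pf_dom | apply PF.img | apply PF.pow | apply PD.sub | apply PF.adj | apply PF.un | apply PF.sUn | apply PF.op | apply PF.pr | apply PF.sep | exact PF.var _ | exact PF.const _ | apply PD.eq | apply PD.mem | apply PD.not | apply PD.iff | apply PD.or | apply PD.and | apply PD.imp | apply PD.ex | apply PD.all | exact PD.const _ | assumption | refine PF.comp1 (F := _) (by assumption) ?_ | refine PF.comp2 (F := _) (by assumption) ?_ ?_ | refine PF.comp3 (F := _) (by assumption) ?_ ?_ ?_ | refine PD.app1 (R := _) (by assumption) ?_ | refine PD.app2 (R := _) (by assumption) ?_ ?_ | refine PD.app3 (R := _) (by assumption) ?_ ?_ ?_ | refine PD.app4 (R := _) (by assumption) ?_ ?_ ?_ ?_))) (pd_Le (PF.var _) (hf.weaken 1))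


/-- MODULE kg -/
theorem Ord.har (a : M) : Ord (har a) := by
  refine Ord.of_tr (fun x hx => (mem_har.1 hx).1) (fun x hx y hy => ?_)
  obtain ⟨h1, h2⟩ := mem_har.1 hx
  exact mem_har.2 ⟨h1.mem hy, (Le.of_sub (fun z hz => h1.trans hy hz)).trans h2⟩

/-- MODULE kg -/
theorem not_le_har (a : M) : ¬ Le (GA.har a) a := by
  intro h
  exact not_mem_self _ (mem_har.2 ⟨Ord.har a, h⟩)

/-- MODULE kg -/
theorem mem_har_iff {a ν : M} (h : Ord ν) : SetStr.mem ν (GA.har a) ↔ Le ν a := by
  rw [mem_har]
  exact ⟨fun h1 => h1.2, fun h1 => ⟨h, h1⟩⟩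

/-- `ν` injects into the set of functions from omega to `l`. -/
def Inj (ν l : M) : Prop := Le ν (funs om l)

theorem pd_Inj {f g : (ℕ → M) → M} (hf : PF f) (hg : PF g) : PD (fun v => Inj (f v) (g v)) :=
  PD.app2 (R := fun x y => Inj x y) (by unfold Inj; (repeat' (with_reducible first | apply pf_har | apply pd_Le | apply pf_fins | apply pf_card | apply pd_Bij | apply pd_Fini | apply pd_Big | apply pd_Ord | apply pd_Tr | apply pd_Ind | apply pf_succ | apply pf_funs | apply pf_prod | apply pf_lam | apply pd_Fn | apply pf_app | apply pf_ran | apply pf_dom | apply PF.img | apply PF.pow | apply PD.sub | apply PF.adj | apply PF.un | apply PF.sUn | apply PF.op | apply PF.pr | apply PF.sep | exact PF.var _ | exact PF.const _ | apply PD.eq | apply PD.mem | apply PD.not | apply PD.iff | apply PD.or | apply PD.and | apply PD.imp | apply PD.ex | apply PD.all | exact PD.const _ | assumption | refine PF.comp1 (F := _) (by assumption) ?_ | refine PF.comp2 (F := _) (by assumption) ?_ ?_ | refine PF.comp3 (F := _) (by assumption) ?_ ?_ ?_ | refine PD.app1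 (R := _) (by assumption) ?_ | refine PD.app2 (R := _) (by assumption) ?_ ?_ | refine PD.app3 (R := _) (by assumption) ?_ ?_ ?_ | refine PD.app4 (R := _) (by assumption) ?_ ?_ ?_ ?_))) hf hg


/-- `f` is a sparse family of length `ν` of functions from omega to `l`: no countable subset of `l`
covers the ranges of `l` many members, in the sense of order type. -/
def Sparse (f ν l : M) : Prop :=
  Fn f ν ∧ (∀ i, SetStr.mem i ν → SetStr.mem (app f i) (funs om l)) ∧
    ∀ e g, SetStr.mem e (funs om l) → Fn g l → (∀ x, SetStr.mem x l → SetStr.mem (app g x) ν) →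
      (∀ x y, SetStr.mem x l → SetStr.mem y x → SetStr.mem (app g y) (app g x)) →
        ∃ x, SetStr.mem x l ∧ ¬ GA.sub (ran (app f (app g x))) (ran e)

/-- There is a sparse family of length `ν`. -/
def Spr (ν l : M) : Prop := ∃ f, Sparse f ν l

theorem pd_Spr {f g : (ℕ → M) → M} (hf : PF f) (hg : PF g) : PD (fun v => Spr (f v) (g v)) :=
  PD.app2 (R := fun x y => Spr x y) (by unfold Spr Sparse; (repeat' (with_reducible first | apply pd_Inj | apply pf_har | apply pd_Le | apply pf_fins | apply pf_card | apply pd_Bij | apply pd_Fini | apply pd_Big | apply pd_Ord | apply pd_Tr | apply pd_Ind | apply pf_succ | apply pf_funs | apply pf_prod | apply pf_lam | apply pd_Fn | apply pf_app | apply pf_ran | apply pf_dom | apply PF.img | apply PF.pow | apply PD.sub | apply PF.adj | apply PF.un | apply PF.sUn | apply PF.op | apply PF.pr | apply PF.sep | exact PF.var _ | exact PF.const _ | apply PD.eq | apply PD.mem | apply PD.not | apply PD.iff | apply PD.or | apply PD.and | apply PD.imp | apply PD.ex | apply PD.all | exact PD.const _ | assumption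 | refine PF.comp1 (F := _) (by assumption) ?_ | refine PF.comp2 (F := _) (by assumption) ?_ ?_ | refine PF.comp3 (F := _) (by assumption) ?_ ?_ ?_ | refine PD.app1 (R := _) (by assumption) ?_ | refine PD.app2 (R := _) (by assumption) ?_ ?_ | refine PD.app3 (R := _) (by assumption) ?_ ?_ ?_ | refine PD.app4 (R := _) (by assumption) ?_ ?_ ?_ ?_))) hf hg


/-- MODULE kh -/
theorem Inj.mono {ν μ l : M} (h : Inj ν l) (hμ : GA.sub μ ν) : Inj μ l :=
  (Le.of_sub hμ).trans h

/-- MODULE kh -/
theorem Inj.mono_right {ν l k : M} (h : Inj ν l) (hl : GA.sub l k) : Inj ν k :=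
  Le.trans h (Le.of_sub hl).funs

/-- MODULE kh -/
theorem Inj.self {l : M} : Inj l l := by
  have hpf : ∀ x : M, PF (fun _ : ℕ → M => x) := fun x => by (repeat' (with_reducible first | apply pd_Spr | apply pd_Inj | apply pf_har | apply pd_Le | apply pf_fins | apply pf_card | apply pd_Bij | apply pd_Fini | apply pd_Big | apply pd_Ord | apply pd_Tr | apply pd_Ind | apply pf_succ | apply pf_funs | apply pf_prod | apply pf_lam | apply pd_Fn | apply pf_app | apply pf_ran | apply pf_dom | apply PF.img | apply PF.pow | apply PD.sub | apply PF.adj | apply PF.un | apply PF.sUn | apply PF.op | apply PF.pr | apply PF.sep | exact PF.var _ | exact PF.const _ | apply PD.eq | apply PD.mem | apply PD.not | apply PD.iff | apply PD.or | apply PD.and | apply PD.imp | apply PD.ex | apply PD.all | exact PD.const _ | assumption | refine PF.comp1 (F := _) (by assumption) ?_ | refine PF.comp2 (F := _) (by assumption) ?_ ?_ | refine PF.comp3 (F := _) (by assumption) ?_ ?_ ?_ | refine PD.app1 (R := _) (by assumption) ?_ | refine PD.app2 (R := _) (by assumption)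 ?_ ?_ | refine PD.app3 (R := _) (by assumption) ?_ ?_ ?_ | refine PD.app4 (R := _) (by assumption) ?_ ?_ ?_ ?_))
  refine Le.of_fun (F := fun x => lam (fun _ => x) om) (by (repeat' (with_reducible first | apply pd_Spr | apply pd_Inj | apply pf_har | apply pd_Le | apply pf_fins | apply pf_card | apply pd_Bij | apply pd_Fini | apply pd_Big | apply pd_Ord | apply pd_Tr | apply pd_Ind | apply pf_succ | apply pf_funs | apply pf_prod | apply pf_lam | apply pd_Fn | apply pf_app | apply pf_ran | apply pf_dom | apply PF.img | apply PF.pow | apply PD.sub | apply PF.adj | apply PF.un | apply PF.sUn | apply PF.op | apply PF.pr | apply PF.sep | exact PF.var _ | exact PF.const _ | apply PD.eq | apply PD.mem | apply PD.not | apply PD.iff | apply PD.or | apply PD.and | apply PD.imp | apply PD.ex | apply PD.all | exact PD.const _ | assumption | refine PF.comp1 (F := _) (by assumption) ?_ | refine PF.comp2 (F := _) (by assumption) ?_ ?_ | refine PF.comp3 (F := _) (by assumption) ?_ ?_ ?_ | refine PD.app1 (R := _) (by assumption) ?_ | refine PD.app2 (R :=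 _) (by assumption) ?_ ?_ | refine PD.app3 (R := _) (by assumption) ?_ ?_ ?_ | refine PD.app4 (R := _) (by assumption) ?_ ?_ ?_ ?_))) ?_ ?_
  · intro x hx
    rw [mem_funs]
    refine ⟨lam_Fn (hpf x) om, fun n hn => ?_⟩
    rw [app_lam (hpf x) hn]
    exact hx
  · intro x y _ _ hxy
    have h1 := app_lam (F := fun _ => x) (hpf x) (emp_mem_om (M := M))
    have h2 := app_lam (F := fun _ => y) (hpf y) (emp_mem_om (M := M))
    rw [← h1, ← h2]
    exact congrArg (fun z => app z emp) hxy

/-- MODULE kh.  If `l` injects into the functions from omega to `k` then everything that injects into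
the functions from omega to `l` does so, too. -/
theorem Inj.trans {ν l k : M} (hk : ∃ z, SetStr.mem z k) (h : Inj ν l) (h' : Inj l k) : Inj ν k :=
  Le.trans h (Le.trans (Le.funs h') (le_funs_funs hk))

/-- MODULE ki.  Collapse of the fibres of a function `E` on an ordinal:
`F i = {F j | j ∈ i, E j = E i}` (`mem_rec`). -/
theorem exists_collapse (E ν : M) (hν : Ord ν) :
    ∃ F : M → M, PF (fun v => F (v 0)) ∧ (∀ i, SetStr.mem i ν → Ord (F i)) ∧
      (∀ i, SetStr.mem i ν → ∀ z, SetStr.mem z (F i) ↔ ∃ j, SetStr.mem j i ∧ app E j = app E i ∧ z = F j) ∧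
      (∀ i j, SetStr.mem i ν → SetStr.mem j i → app E j = app E i → SetStr.mem (F j) (F i)) := by
  obtain ⟨F, hF, hrec⟩ := mem_rec
    (G := fun x f : M => img (fun j => app f j) (sep x (fun j => app E j = app E x))) (by (repeat' (with_reducible first | apply pd_Spr | apply pd_Inj | apply pf_har | apply pd_Le | apply pf_fins | apply pf_card | apply pd_Bij | apply pd_Fini | apply pd_Big | apply pd_Ord | apply pd_Tr | apply pd_Ind | apply pf_succ | apply pf_funs | apply pf_prod | apply pf_lam | apply pd_Fn | apply pf_app | apply pf_ran | apply pf_dom | apply PF.img | apply PF.pow | apply PD.sub | apply PF.adj | apply PF.un | apply PF.sUn | apply PF.op | apply PF.pr | apply PF.sep | exact PF.var _ | exact PF.const _ | apply PD.eq | apply PD.mem | apply PD.not | apply PD.iff | apply PD.or | apply PD.and | apply PD.imp | apply PD.ex | apply PD.all | exact PD.const _ | assumption | refine PF.comp1 (F := _) (by assumption) ?_ | refine PF.comp2 (F := _) (by assumption) ?_ ?_ | refine PF.comp3 (F := _) (by assumption) ?_ ?_ ?_ | refine PD.app1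 (R := _) (by assumption) ?_ | refine PD.app2 (R := _) (by assumption) ?_ ?_ | refine PD.app3 (R := _) (by assumption) ?_ ?_ ?_ | refine PD.app4 (R := _) (by assumption) ?_ ?_ ?_ ?_)))
  have hmem : ∀ x z : M, SetStr.mem z (F x) ↔ ∃ j, SetStr.mem j x ∧ app E j = app E x ∧ z = F j := by
    intro x z
    rw [hrec x, mem_img (by (repeat' (with_reducible first | apply pd_Spr | apply pd_Inj | apply pf_har | apply pd_Le | apply pf_fins | apply pf_card | apply pd_Bij | apply pd_Fini | apply pd_Big | apply pd_Ord | apply pd_Tr | apply pd_Ind | apply pf_succ | apply pf_funs | apply pf_prod | apply pf_lam | apply pd_Fn | apply pf_app | apply pf_ran | apply pf_dom | apply PF.img | apply PF.pow | apply PD.sub | apply PF.adj | apply PF.un | apply PF.sUn | apply PF.op | apply PF.pr | apply PF.sep | exact PF.var _ | exact PF.const _ | apply PD.eq | apply PD.mem | apply PD.not | apply PD.iff | apply PD.or | apply PD.and | apply PD.imp | apply PD.ex | apply PD.all | exact PD.const _ | assumption | refine PF.comp1 (F := _) (by assumption) ?_ | refine PF.comp2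 (F := _) (by assumption) ?_ ?_ | refine PF.comp3 (F := _) (by assumption) ?_ ?_ ?_ | refine PD.app1 (R := _) (by assumption) ?_ | refine PD.app2 (R := _) (by assumption) ?_ ?_ | refine PD.app3 (R := _) (by assumption) ?_ ?_ ?_ | refine PD.app4 (R := _) (by assumption) ?_ ?_ ?_ ?_)))]
    constructor
    · rintro ⟨y, hy, rfl⟩
      rw [mem_sep (by (repeat' (with_reducible first | apply pd_Spr | apply pd_Inj | apply pf_har | apply pd_Le | apply pf_fins | apply pf_card | apply pd_Bij | apply pd_Fini | apply pd_Big | apply pd_Ord | apply pd_Tr | apply pd_Ind | apply pf_succ | apply pf_funs | apply pf_prod | apply pf_lam | apply pd_Fn | apply pf_app | apply pf_ran | apply pf_dom | apply PF.img | apply PF.pow | apply PD.sub | apply PF.adj | apply PF.un | apply PF.sUn | apply PF.op | apply PF.pr | apply PF.sep | exact PF.var _ | exact PF.const _ | apply PD.eq | apply PD.mem | apply PD.not | apply PD.iff | apply PD.or | apply PD.and | apply PD.imp | apply PD.ex | apply PD.all | exact PD.const _ | assumption | refine PF.comp1 (F := _) (by assumption)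 ?_ | refine PF.comp2 (F := _) (by assumption) ?_ ?_ | refine PF.comp3 (F := _) (by assumption) ?_ ?_ ?_ | refine PD.app1 (R := _) (by assumption) ?_ | refine PD.app2 (R := _) (by assumption) ?_ ?_ | refine PD.app3 (R := _) (by assumption) ?_ ?_ ?_ | refine PD.app4 (R := _) (by assumption) ?_ ?_ ?_ ?_)))] at hy
      exact ⟨y, hy.1, hy.2, app_lam hF hy.1⟩
    · rintro ⟨j, hj, hE, rfl⟩
      refine ⟨j, ?_, (app_lam hF hj).symm⟩
      rw [mem_sep (by (repeat' (with_reducible first | apply pd_Spr | apply pd_Inj | apply pf_har | apply pd_Le | apply pf_fins | apply pf_card | apply pd_Bij | apply pd_Fini | apply pd_Big | apply pd_Ord | apply pd_Tr | apply pd_Ind | apply pf_succ | apply pf_funs | apply pf_prod | apply pf_lam | apply pd_Fn | apply pf_app | apply pf_ran | apply pf_dom | apply PF.img | apply PF.pow | apply PD.sub | apply PF.adj | apply PF.un | apply PF.sUn | apply PF.op | apply PF.pr | apply PF.sep | exact PF.var _ | exact PF.const _ | apply PD.eq | apply PD.mem | apply PD.not | apply PD.iff | apply PD.or | apply PD.and | apply PD.imp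 | apply PD.ex | apply PD.all | exact PD.const _ | assumption | refine PF.comp1 (F := _) (by assumption) ?_ | refine PF.comp2 (F := _) (by assumption) ?_ ?_ | refine PF.comp3 (F := _) (by assumption) ?_ ?_ ?_ | refine PD.app1 (R := _) (by assumption) ?_ | refine PD.app2 (R := _) (by assumption) ?_ ?_ | refine PD.app3 (R := _) (by assumption) ?_ ?_ ?_ | refine PD.app4 (R := _) (by assumption) ?_ ?_ ?_ ?_)))]
      exact ⟨hj, hE⟩
  have hord : ∀ i : M, Ord i → Ord (F i) := by
    refine Ord.ind (P := fun i => Ord (F i)) (by (repeat' (with_reducible first | apply pd_Spr | apply pd_Inj | apply pf_har | apply pd_Le | apply pf_fins | apply pf_card | apply pd_Bij | apply pd_Fini | apply pd_Big | apply pd_Ord | apply pd_Tr | apply pd_Ind | apply pf_succ | apply pf_funs | apply pf_prod | apply pf_lam | apply pd_Fn | apply pf_app | apply pf_ran | apply pf_dom | apply PF.img | apply PF.pow | apply PD.sub | apply PF.adj | apply PF.un | apply PF.sUn | apply PF.op | apply PF.pr | apply PF.sep | exact PF.var _ | exact PF.const _ | apply PD.eq | apply PD.mem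 | apply PD.not | apply PD.iff | apply PD.or | apply PD.and | apply PD.imp | apply PD.ex | apply PD.all | exact PD.const _ | assumption | refine PF.comp1 (F := _) (by assumption) ?_ | refine PF.comp2 (F := _) (by assumption) ?_ ?_ | refine PF.comp3 (F := _) (by assumption) ?_ ?_ ?_ | refine PD.app1 (R := _) (by assumption) ?_ | refine PD.app2 (R := _) (by assumption) ?_ ?_ | refine PD.app3 (R := _) (by assumption) ?_ ?_ ?_ | refine PD.app4 (R := _) (by assumption) ?_ ?_ ?_ ?_))) ?_
    intro i hi ih
    refine Ord.of_tr ?_ ?_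
    · intro z hz
      obtain ⟨j, hj, -, rfl⟩ := (hmem i z).1 hz
      exact ih j hj
    · intro z hz y hy
      obtain ⟨j, hj, hE, rfl⟩ := (hmem i z).1 hz
      obtain ⟨j', hj', hE', rfl⟩ := (hmem j y).1 hy
      exact (hmem i _).2 ⟨j', hi.trans hj hj', hE'.trans hE, rfl⟩
  exact ⟨F, hF, fun i hi => hord i (hν.mem hi), fun i _ z => hmem i z,
    fun i j _ hj hE => (hmem i (F j)).2 ⟨j, hj, hE, rfl⟩⟩

private theorem kj_the {A m : M} {P : M → Prop} (hP : PD (fun v => P (v 0))) (hm : SetStr.mem m A)
    (hPm : P m) (hu : ∀ k, SetStr.mem k A → P k → k = m) : sUn (sep A P) = m := by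
  refine ext (fun z => ?_)
  rw [mem_sUn]
  constructor
  · rintro ⟨y, hy, hz⟩
    rw [mem_sep hP] at hy
    rw [hu y hy.1 hy.2] at hz
    exact hz
  · intro hz
    exact ⟨m, (mem_sep hP).2 ⟨hm, hPm⟩, hz⟩

/-- MODULE kj.  If all fibres of `E` have order type less than `l` (no strictly increasing map from `l`
into a fibre) and the values of `E` are functions from omega to `l`, then `ν` injects. -/
theorem inj_of_fibres {E ν l : M} (hν : Ord ν) (hl : Big l) (hE : Fn E ν)
    (hv : ∀ i, SetStr.mem i ν → SetStr.mem (app E i) (funs om l))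
    (hf : ∀ e g, Fn g l → (∀ x, SetStr.mem x l → SetStr.mem (app g x) ν ∧ app E (app g x) = e) →
      ∃ x y, SetStr.mem x l ∧ SetStr.mem y x ∧ ¬ SetStr.mem (app g y) (app g x)) : Inj ν l := by
  obtain ⟨F, hF, hord, hmem, hinc⟩ := exists_collapse E ν hν
  have hFl : ∀ i, SetStr.mem i ν → SetStr.mem (F i) l := by
    intro i hi
    rcases Ord.sub_or_mem hl.1 (hord i hi) with hsub | hin
    · exfalso
      have hiO : Ord i := hν.mem hi
      have hex : ∀ x, SetStr.mem x l → ∃ j, SetStr.mem j i ∧ (app E j = app E i ∧ F j = x) ∧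
          ∀ k, SetStr.mem k i → (app E k = app E i ∧ F k = x) → k = j := by
        intro x hx
        obtain ⟨j, hj, hE, hxj⟩ := (hmem i hi x).1 (hsub x hx)
        refine ⟨j, hj, ⟨hE, hxj.symm⟩, ?_⟩
        rintro k hk ⟨hEk, hFk⟩
        rcases Ord.tri (hiO.mem hk) (hiO.mem hj) with h | h | h
        · exfalso
          have h1 := hinc j k (hν.trans hi hj) h (hEk.trans hE.symm)
          rw [hFk, ← hxj] at h1
          exact not_mem_self x h1
        · exact h
        · exfalso
          have h1 := hinc k j (hν.trans hi hk) h (hE.trans hEk.symm)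
          rw [hFk, ← hxj] at h1
          exact not_mem_self x h1
      have hPF : PF (fun v : ℕ → M =>
          sUn (sep i (fun j => app E j = app E i ∧ F j = v 0))) := by (repeat' (with_reducible first | apply pd_Spr | apply pd_Inj | apply pf_har | apply pd_Le | apply pf_fins | apply pf_card | apply pd_Bij | apply pd_Fini | apply pd_Big | apply pd_Ord | apply pd_Tr | apply pd_Ind | apply pf_succ | apply pf_funs | apply pf_prod | apply pf_lam | apply pd_Fn | apply pf_app | apply pf_ran | apply pf_dom | apply PF.img | apply PF.pow | apply PD.sub | apply PF.adj | apply PF.un | apply PF.sUn | apply PF.op | apply PF.pr | apply PF.sep | exact PF.var _ | exact PF.const _ | apply PD.eq | apply PD.mem | apply PD.not | apply PD.iff | apply PD.or | apply PD.and | apply PD.imp | apply PD.ex | apply PD.all | exact PD.const _ | assumption | refine PF.comp1 (F := _) (by assumption) ?_ | refine PF.comp2 (F := _) (by assumption) ?_ ?_ | refine PF.comp3 (F := _) (by assumption) ?_ ?_ ?_ | refine PD.app1 (R := _) (by assumption) ?_ | refine PD.app2 (R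 := _) (by assumption) ?_ ?_ | refine PD.app3 (R := _) (by assumption) ?_ ?_ ?_ | refine PD.app4 (R := _) (by assumption) ?_ ?_ ?_ ?_))
      set J : M → M := fun x => sUn (sep i (fun j => app E j = app E i ∧ F j = x)) with hJ
      have hJF : PF (fun v : ℕ → M => J (v 0)) := hPF
      have hJspec : ∀ x, SetStr.mem x l → SetStr.mem (J x) i ∧ app E (J x) = app E i ∧ F (J x) = x := by
        intro x hx
        obtain ⟨j, hj, hj2, hj3⟩ := hex x hx
        have h1 : J x = j := by
          rw [hJ]
          exact kj_the (P := fun j => app E j = app E i ∧ F j = x) (by (repeat' (with_reducible first | apply pd_Spr | apply pd_Inj | apply pf_har | apply pd_Le | apply pf_fins | apply pf_card | apply pd_Bij | apply pd_Fini | apply pd_Big | apply pd_Ord | apply pd_Tr | apply pd_Ind | apply pf_succ | apply pf_funs | apply pf_prod | apply pf_lam | apply pd_Fn | apply pf_app | apply pf_ran | apply pf_dom | apply PF.img | apply PF.pow | apply PD.sub | apply PF.adj | apply PF.un | apply PF.sUn | apply PF.op | apply PF.pr | apply PF.sep | exact PF.var _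 | exact PF.const _ | apply PD.eq | apply PD.mem | apply PD.not | apply PD.iff | apply PD.or | apply PD.and | apply PD.imp | apply PD.ex | apply PD.all | exact PD.const _ | assumption | refine PF.comp1 (F := _) (by assumption) ?_ | refine PF.comp2 (F := _) (by assumption) ?_ ?_ | refine PF.comp3 (F := _) (by assumption) ?_ ?_ ?_ | refine PD.app1 (R := _) (by assumption) ?_ | refine PD.app2 (R := _) (by assumption) ?_ ?_ | refine PD.app3 (R := _) (by assumption) ?_ ?_ ?_ | refine PD.app4 (R := _) (by assumption) ?_ ?_ ?_ ?_))) hj hj2 hj3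
        rw [h1]
        exact ⟨hj, hj2⟩
      obtain ⟨x, y, hx, hyx, hno⟩ := hf (app E i) (lam J l) (lam_Fn hJF l) (fun x hx => by
        rw [app_lam hJF hx]
        exact ⟨hν.trans hi (hJspec x hx).1, (hJspec x hx).2.1⟩)
      have hy : SetStr.mem y l := hl.1.trans hx hyx
      rw [app_lam hJF hx, app_lam hJF hy] at hno
      obtain ⟨x1, x2, x3⟩ := hJspec x hx
      obtain ⟨y1, y2, y3⟩ := hJspec y hy
      rcases Ord.tri (hiO.mem y1) (hiO.mem x1) with h | h | h
      · exact hno h
      · have h1 : y = x := by rw [← y3, ← x3, h]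
        rw [h1] at hyx
        exact not_mem_self x hyx
      · have h1 := hinc (J y) (J x) (hν.trans hi y1) h (x2.trans y2.symm)
        rw [x3, y3] at h1
        exact not_mem_mem h1 hyx
    · exact hin
  have h1 : Le ν (prod (funs om l) l) := by
    refine Le.of_fun (F := fun i => op (app E i) (F i)) (by (repeat' (with_reducible first | apply pd_Spr | apply pd_Inj | apply pf_har | apply pd_Le | apply pf_fins | apply pf_card | apply pd_Bij | apply pd_Fini | apply pd_Big | apply pd_Ord | apply pd_Tr | apply pd_Ind | apply pf_succ | apply pf_funs | apply pf_prod | apply pf_lam | apply pd_Fn | apply pf_app | apply pf_ran | apply pf_dom | apply PF.img | apply PF.pow | apply PD.sub | apply PF.adj | apply PF.un | apply PF.sUn | apply PF.op | apply PF.pr | apply PF.sep | exact PF.var _ | exact PF.const _ | apply PD.eq | apply PD.mem | apply PD.not | apply PD.iff | apply PD.or | apply PD.and | apply PD.imp | apply PD.ex | apply PD.all | exact PD.const _ | assumption | refine PF.comp1 (F := _) (by assumption) ?_ | refine PF.comp2 (F := _) (by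 assumption) ?_ ?_ | refine PF.comp3 (F := _) (by assumption) ?_ ?_ ?_ | refine PD.app1 (R := _) (by assumption) ?_ | refine PD.app2 (R := _) (by assumption) ?_ ?_ | refine PD.app3 (R := _) (by assumption) ?_ ?_ ?_ | refine PD.app4 (R := _) (by assumption) ?_ ?_ ?_ ?_))) ?_ ?_
    · intro i hi
      exact op_mem_prod.2 ⟨hv i hi, hFl i hi⟩
    · intro i j hi hj hij
      rw [op_inj] at hij
      rcases Ord.tri (hν.mem hi) (hν.mem hj) with h | h | h
      · exfalso
        have h2 := hinc j i hj h hij.1
        rw [hij.2] at h2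
        exact not_mem_self _ h2
      · exact h
      · exfalso
        have h2 := hinc i j hi h hij.1.symm
        rw [hij.2] at h2
        exact not_mem_self _ h2
  exact h1.trans le_prod_funs

/-- MODULE kk.  The order type of a subset of an ordinal. -/
theorem exists_otp {ν J : M} (hν : Ord ν) (hJ : GA.sub J ν) :
    ∃ δ F, Ord δ ∧ Bij F J δ ∧ ∀ i j, SetStr.mem i J → SetStr.mem j J → SetStr.mem j i → SetStr.mem (app F j) (app F i) := by
  obtain ⟨F, hF, hrec⟩ := mem_rec
    (G := fun x f : M => img (fun j => app f j) (sep x (fun j => SetStr.mem j J))) (by (repeat' (with_reducible first | apply pd_Spr | apply pd_Inj | apply pf_har | apply pd_Le | apply pf_fins | apply pf_card | apply pd_Bij | apply pd_Fini | apply pd_Big | apply pd_Ord | apply pd_Tr | apply pd_Ind | apply pf_succ | apply pf_funs | apply pf_prod | apply pf_lam | apply pd_Fn | apply pf_app | apply pf_ran | apply pf_dom | apply PF.img | apply PF.pow | apply PD.sub | apply PF.adj | apply PF.un | apply PF.sUn | apply PF.op | apply PF.pr | apply PF.sep | exact PF.var _ | exact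 PF.const _ | apply PD.eq | apply PD.mem | apply PD.not | apply PD.iff | apply PD.or | apply PD.and | apply PD.imp | apply PD.ex | apply PD.all | exact PD.const _ | assumption | refine PF.comp1 (F := _) (by assumption) ?_ | refine PF.comp2 (F := _) (by assumption) ?_ ?_ | refine PF.comp3 (F := _) (by assumption) ?_ ?_ ?_ | refine PD.app1 (R := _) (by assumption) ?_ | refine PD.app2 (R := _) (by assumption) ?_ ?_ | refine PD.app3 (R := _) (by assumption) ?_ ?_ ?_ | refine PD.app4 (R := _) (by assumption) ?_ ?_ ?_ ?_)))
  have hmem : ∀ x z : M, SetStr.mem z (F x) ↔ ∃ j, SetStr.mem j x ∧ SetStr.mem j J ∧ z = F j := by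
    intro x z
    rw [hrec x, mem_img (by (repeat' (with_reducible first | apply pd_Spr | apply pd_Inj | apply pf_har | apply pd_Le | apply pf_fins | apply pf_card | apply pd_Bij | apply pd_Fini | apply pd_Big | apply pd_Ord | apply pd_Tr | apply pd_Ind | apply pf_succ | apply pf_funs | apply pf_prod | apply pf_lam | apply pd_Fn | apply pf_app | apply pf_ran | apply pf_dom | apply PF.img | apply PF.pow | apply PD.sub | apply PF.adj | apply PF.un | apply PF.sUn | apply PF.op | apply PF.pr | apply PF.sep | exact PF.var _ | exact PF.const _ | apply PD.eq | apply PD.mem | apply PD.not | apply PD.iff | apply PD.or | apply PD.and | apply PD.imp | apply PD.ex | apply PD.all | exact PD.const _ | assumption | refine PF.comp1 (F := _) (by assumption) ?_ | refine PF.comp2 (F := _) (by assumption) ?_ ?_ | refine PF.comp3 (F := _) (by assumption) ?_ ?_ ?_ | refine PD.app1 (R := _) (by assumption) ?_ | refine PD.app2 (R := _) (by assumption) ?_ ?_ | refine PD.app3 (R := _) (by assumption) ?_ ?_ ?_ | refine PD.app4 (R := _) (by assumption) ?_ ?_ ?_ ?_)))]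
    constructor
    · rintro ⟨y, hy, rfl⟩
      rw [mem_sep (by (repeat' (with_reducible first | apply pd_Spr | apply pd_Inj | apply pf_har | apply pd_Le | apply pf_fins | apply pf_card | apply pd_Bij | apply pd_Fini | apply pd_Big | apply pd_Ord | apply pd_Tr | apply pd_Ind | apply pf_succ | apply pf_funs | apply pf_prod | apply pf_lam | apply pd_Fn | apply pf_app | apply pf_ran | apply pf_dom | apply PF.img | apply PF.pow | apply PD.sub | apply PF.adj | apply PF.un | apply PF.sUn | apply PF.op | apply PF.pr | apply PF.sep | exact PF.var _ | exact PF.const _ | apply PD.eq | apply PD.mem | apply PD.not | apply PD.iff | apply PD.or | apply PD.and | apply PD.imp | apply PD.ex | apply PD.all | exact PD.const _ | assumption | refine PF.comp1 (F := _) (by assumption) ?_ | refine PF.comp2 (F := _) (by assumption) ?_ ?_ | refine PF.comp3 (F := _) (by assumption) ?_ ?_ ?_ | refine PD.app1 (R := _) (by assumption) ?_ | refine PD.app2 (R := _) (by assumption) ?_ ?_ | refine PD.app3 (R := _) (by assumption) ?_ ?_ ?_ | refine PD.app4 (R := _) (by assumption)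 ?_ ?_ ?_ ?_)))] at hy
      exact ⟨y, hy.1, hy.2, app_lam hF hy.1⟩
    · rintro ⟨j, hj, hjJ, rfl⟩
      refine ⟨j, ?_, (app_lam hF hj).symm⟩
      rw [mem_sep (by (repeat' (with_reducible first | apply pd_Spr | apply pd_Inj | apply pf_har | apply pd_Le | apply pf_fins | apply pf_card | apply pd_Bij | apply pd_Fini | apply pd_Big | apply pd_Ord | apply pd_Tr | apply pd_Ind | apply pf_succ | apply pf_funs | apply pf_prod | apply pf_lam | apply pd_Fn | apply pf_app | apply pf_ran | apply pf_dom | apply PF.img | apply PF.pow | apply PD.sub | apply PF.adj | apply PF.un | apply PF.sUn | apply PF.op | apply PF.pr | apply PF.sep | exact PF.var _ | exact PF.const _ | apply PD.eq | apply PD.mem | apply PD.not | apply PD.iff | apply PD.or | apply PD.and | apply PD.imp | apply PD.ex | apply PD.all | exact PD.const _ | assumption | refine PF.comp1 (F := _) (by assumption) ?_ | refine PF.comp2 (F := _) (by assumption) ?_ ?_ | refine PF.comp3 (F := _) (by assumption) ?_ ?_ ?_ | refine PD.app1 (R := _) (by assumption) ?_ | refine PD.app2 (R := _) (by assumption)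 ?_ ?_ | refine PD.app3 (R := _) (by assumption) ?_ ?_ ?_ | refine PD.app4 (R := _) (by assumption) ?_ ?_ ?_ ?_)))]
      exact ⟨hj, hjJ⟩
  have hord : ∀ i : M, Ord i → Ord (F i) := by
    refine Ord.ind (P := fun i => Ord (F i)) (by (repeat' (with_reducible first | apply pd_Spr | apply pd_Inj | apply pf_har | apply pd_Le | apply pf_fins | apply pf_card | apply pd_Bij | apply pd_Fini | apply pd_Big | apply pd_Ord | apply pd_Tr | apply pd_Ind | apply pf_succ | apply pf_funs | apply pf_prod | apply pf_lam | apply pd_Fn | apply pf_app | apply pf_ran | apply pf_dom | apply PF.img | apply PF.pow | apply PD.sub | apply PF.adj | apply PF.un | apply PF.sUn | apply PF.op | apply PF.pr | apply PF.sep | exact PF.var _ | exact PF.const _ | apply PD.eq | apply PD.mem | apply PD.not | apply PD.iff | apply PD.or | apply PD.and | apply PD.imp | apply PD.ex | apply PD.all | exact PD.const _ | assumption | refine PF.comp1 (F := _) (by assumption) ?_ | refine PF.comp2 (F := _) (by assumption) ?_ ?_ | refine PF.comp3 (F := _) (by assumption) ?_ ?_ ?_ | refine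 PD.app1 (R := _) (by assumption) ?_ | refine PD.app2 (R := _) (by assumption) ?_ ?_ | refine PD.app3 (R := _) (by assumption) ?_ ?_ ?_ | refine PD.app4 (R := _) (by assumption) ?_ ?_ ?_ ?_))) ?_
    intro i hi ih
    refine Ord.of_tr ?_ ?_
    · intro z hz
      obtain ⟨j, hj, -, rfl⟩ := (hmem i z).1 hz
      exact ih j hj
    · intro z hz y hy
      obtain ⟨j, hj, -, rfl⟩ := (hmem i z).1 hz
      obtain ⟨j', hj', hJ', rfl⟩ := (hmem j y).1 hy
      exact (hmem i _).2 ⟨j', hi.trans hj hj', hJ', rfl⟩
  refine ⟨F ν, lam F J, hord ν hν, ⟨lam_Fn hF J, ?_, ?_, ?_⟩, ?_⟩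
  · intro x hx
    rw [app_lam hF hx]
    exact (hmem ν _).2 ⟨x, hJ x hx, hx, rfl⟩
  · intro y hy
    obtain ⟨j, -, hjJ, rfl⟩ := (hmem ν y).1 hy
    exact ⟨j, hjJ, app_lam hF hjJ⟩
  · intro x y hx hy hxy
    rw [app_lam hF hx, app_lam hF hy] at hxy
    rcases Ord.tri (hν.mem (hJ x hx)) (hν.mem (hJ y hy)) with h | h | h
    · exfalso
      have h1 := (hmem y (F x)).2 ⟨x, h, hx, rfl⟩
      rw [hxy] at h1
      exact not_mem_self _ h1
    · exact h
    · exfalso
      have h1 := (hmem x (F y)).2 ⟨y, h, hy, rfl⟩
      rw [hxy] at h1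
      exact not_mem_self _ h1
  · intro i j hi hj hji
    rw [app_lam hF hi, app_lam hF hj]
    exact (hmem i (F j)).2 ⟨j, hji, hj, rfl⟩

/-- MODULE kl.  The members of an injective family that are covered by a fixed countable set inject
into the functions from omega to omega. -/
theorem le_of_covered {f ν l e : M} (hf : Fn f ν)
    (hv : ∀ i, SetStr.mem i ν → SetStr.mem (app f i) (funs om l))
    (hi : ∀ i j, SetStr.mem i ν → SetStr.mem j ν → app f i = app f j → i = j) (he : SetStr.mem e (funs om l)) :
    Le (sep ν (fun i => GA.sub (ran (app f i)) (ran e))) (funs om om) := by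
  have heF := (mem_funs.1 he).1
  have hS : ∀ i, SetStr.mem i (sep ν (fun i => GA.sub (ran (app f i)) (ran e))) →
      SetStr.mem i ν ∧ GA.sub (ran (app f i)) (ran e) := fun i hi => (mem_sep (by (repeat' (with_reducible first | apply pd_Spr | apply pd_Inj | apply pf_har | apply pd_Le | apply pf_fins | apply pf_card | apply pd_Bij | apply pd_Fini | apply pd_Big | apply pd_Ord | apply pd_Tr | apply pd_Ind | apply pf_succ | apply pf_funs | apply pf_prod | apply pf_lam | apply pd_Fn | apply pf_app | apply pf_ran | apply pf_dom | apply PF.img | apply PF.pow | apply PD.sub | apply PF.adj | apply PF.un | apply PF.sUn | apply PF.op | apply PF.pr | apply PF.sep | exact PF.var _ | exact PF.const _ | apply PD.eq | apply PD.mem | apply PD.not | apply PD.iff | apply PD.or | apply PD.and | apply PD.imp | apply PD.ex | apply PD.all | exact PD.const _ | assumption | refine PF.comp1 (F := _) (by assumption) ?_ | refine PF.comp2 (F := _) (by assumption) ?_ ?_ | refine PF.comp3 (F := _) (by assumption) ?_ ?_ ?_ | refine PD.app1 (R := _) (by assumption) ?_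 | refine PD.app2 (R := _) (by assumption) ?_ ?_ | refine PD.app3 (R := _) (by assumption) ?_ ?_ ?_ | refine PD.app4 (R := _) (by assumption) ?_ ?_ ?_ ?_)))).1 hi
  -- the least index of the value `f i n` in `e`
  have hex : ∀ i, SetStr.mem i (sep ν (fun i => GA.sub (ran (app f i)) (ran e))) → ∀ n, SetStr.mem n (om : M) →
      ∃ m, SetStr.mem m (om : M) ∧ (app e m = app (app f i) n ∧
        ∀ k, SetStr.mem k m → ¬ app e k = app (app f i) n) ∧
        ∀ k, SetStr.mem k (om : M) → (app e k = app (app f i) n ∧
          ∀ k', SetStr.mem k' k → ¬ app e k' = app (app f i) n) → k = m := by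
    intro i hi n hn
    obtain ⟨hiν, hsub⟩ := hS i hi
    have hfi := (mem_funs.1 (hv i hiν)).1
    have h1 : SetStr.mem (app (app f i) n) (ran e) := hsub _ (hfi.mem_ran.2 ⟨n, hn, rfl⟩)
    obtain ⟨m0, hm0, hm0e⟩ := heF.mem_ran.1 h1
    obtain ⟨m, hmO, ⟨hmom, hme⟩, hmin⟩ := Ord.least
      (P := fun m => SetStr.mem m (om : M) ∧ app e m = app (app f i) n) (by (repeat' (with_reducible first | apply pd_Spr | apply pd_Inj | apply pf_har | apply pd_Le | apply pf_fins | apply pf_card | apply pd_Bij | apply pd_Fini | apply pd_Big | apply pd_Ord | apply pd_Tr | apply pd_Ind | apply pf_succ | apply pf_funs | apply pf_prod | apply pf_lam | apply pd_Fn | apply pf_app | apply pf_ran | apply pf_dom | apply PF.img | apply PF.pow | apply PD.sub | apply PF.adj | apply PF.un | apply PF.sUn | apply PF.op | apply PF.pr | apply PF.sep | exact PF.var _ | exact PF.const _ | apply PD.eq | apply PD.mem | apply PD.not | apply PD.iff | apply PD.or | apply PD.and | apply PD.imp | apply PD.ex | apply PD.all | exact PD.const _ | assumption | refine PF.comp1 (F := _)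 (by assumption) ?_ | refine PF.comp2 (F := _) (by assumption) ?_ ?_ | refine PF.comp3 (F := _) (by assumption) ?_ ?_ ?_ | refine PD.app1 (R := _) (by assumption) ?_ | refine PD.app2 (R := _) (by assumption) ?_ ?_ | refine PD.app3 (R := _) (by assumption) ?_ ?_ ?_ | refine PD.app4 (R := _) (by assumption) ?_ ?_ ?_ ?_)))
      ⟨m0, Ord.of_mem_om hm0, hm0, hm0e.symm⟩
    have hmin' : ∀ k, SetStr.mem k m → ¬ app e k = app (app f i) n := fun k hk hke =>
      hmin k hk ⟨om_trans hmom hk, hke⟩
    refine ⟨m, hmom, ⟨hme, hmin'⟩, ?_⟩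
    rintro k hk ⟨hke, hkmin⟩
    rcases Ord.tri (Ord.of_mem_om hk) hmO with h | h | h
    · exact absurd hke (hmin' k h)
    · exact h
    · exact absurd hme (hkmin m h)
  set μ : M → M → M := fun i n => sUn (sep om (fun m => app e m = app (app f i) n ∧
    ∀ k, SetStr.mem k m → ¬ app e k = app (app f i) n)) with hμ
  have hμspec : ∀ i, SetStr.mem i (sep ν (fun i => GA.sub (ran (app f i)) (ran e))) → ∀ n, SetStr.mem n (om : M) →
      SetStr.mem (μ i n) (om : M) ∧ app e (μ i n) = app (app f i) n := by
    intro i hi n hn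
    obtain ⟨m, hm, hm2, hm3⟩ := hex i hi n hn
    have h1 : μ i n = m := by
      rw [hμ]
      exact kj_the (P := fun m => app e m = app (app f i) n ∧
        ∀ k, SetStr.mem k m → ¬ app e k = app (app f i) n) (by (repeat' (with_reducible first | apply pd_Spr | apply pd_Inj | apply pf_har | apply pd_Le | apply pf_fins | apply pf_card | apply pd_Bij | apply pd_Fini | apply pd_Big | apply pd_Ord | apply pd_Tr | apply pd_Ind | apply pf_succ | apply pf_funs | apply pf_prod | apply pf_lam | apply pd_Fn | apply pf_app | apply pf_ran | apply pf_dom | apply PF.img | apply PF.pow | apply PD.sub | apply PF.adj | apply PF.un | apply PF.sUn | apply PF.op | apply PF.pr | apply PF.sep | exact PF.var _ | exact PF.const _ | apply PD.eq | apply PD.mem | apply PD.not | apply PD.iff | apply PD.or | apply PD.and | apply PD.imp | apply PD.ex | apply PD.all | exact PD.const _ | assumption | refine PF.comp1 (F := _) (by assumption) ?_ | refine PF.comp2 (F := _) (by assumption) ?_ ?_ | refine PF.comp3 (F := _) (by assumption) ?_ ?_ ?_ | refine PD.app1 (R := _)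 (by assumption) ?_ | refine PD.app2 (R := _) (by assumption) ?_ ?_ | refine PD.app3 (R := _) (by assumption) ?_ ?_ ?_ | refine PD.app4 (R := _) (by assumption) ?_ ?_ ?_ ?_))) hm hm2 hm3
    rw [h1]
    exact ⟨hm, hm2.1⟩
  have hμF : ∀ i, PF (fun v : ℕ → M => μ i (v 0)) := by
    intro i
    rw [hμ]
    (repeat' (with_reducible first | apply pd_Spr | apply pd_Inj | apply pf_har | apply pd_Le | apply pf_fins | apply pf_card | apply pd_Bij | apply pd_Fini | apply pd_Big | apply pd_Ord | apply pd_Tr | apply pd_Ind | apply pf_succ | apply pf_funs | apply pf_prod | apply pf_lam | apply pd_Fn | apply pf_app | apply pf_ran | apply pf_dom | apply PF.img | apply PF.pow | apply PD.sub | apply PF.adj | apply PF.un | apply PF.sUn | apply PF.op | apply PF.pr | apply PF.sep | exact PF.var _ | exact PF.const _ | apply PD.eq | apply PD.mem | apply PD.not | apply PD.iff | apply PD.or | apply PD.and | apply PD.imp | apply PD.ex | apply PD.all | exact PD.const _ | assumption | refine PF.comp1 (F := _) (by assumption) ?_ | refine PF.comp2 (F := _) (by assumption)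 ?_ ?_ | refine PF.comp3 (F := _) (by assumption) ?_ ?_ ?_ | refine PD.app1 (R := _) (by assumption) ?_ | refine PD.app2 (R := _) (by assumption) ?_ ?_ | refine PD.app3 (R := _) (by assumption) ?_ ?_ ?_ | refine PD.app4 (R := _) (by assumption) ?_ ?_ ?_ ?_))
  refine Le.of_fun (F := fun i => lam (fun n => μ i n) om) (by rw [hμ]; (repeat' (with_reducible first | apply pd_Spr | apply pd_Inj | apply pf_har | apply pd_Le | apply pf_fins | apply pf_card | apply pd_Bij | apply pd_Fini | apply pd_Big | apply pd_Ord | apply pd_Tr | apply pd_Ind | apply pf_succ | apply pf_funs | apply pf_prod | apply pf_lam | apply pd_Fn | apply pf_app | apply pf_ran | apply pf_dom | apply PF.img | apply PF.pow | apply PD.sub | apply PF.adj | apply PF.un | apply PF.sUn | apply PF.op | apply PF.pr | apply PF.sep | exact PF.var _ | exact PF.const _ | apply PD.eq | apply PD.mem | apply PD.not | apply PD.iff | apply PD.or | apply PD.and | apply PD.imp | apply PD.ex | apply PD.all | exact PD.const _ | assumption | refine PF.comp1 (F := _) (by assumption) ?_ | refine PF.comp2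 (F := _) (by assumption) ?_ ?_ | refine PF.comp3 (F := _) (by assumption) ?_ ?_ ?_ | refine PD.app1 (R := _) (by assumption) ?_ | refine PD.app2 (R := _) (by assumption) ?_ ?_ | refine PD.app3 (R := _) (by assumption) ?_ ?_ ?_ | refine PD.app4 (R := _) (by assumption) ?_ ?_ ?_ ?_))) ?_ ?_
  · intro i hi
    rw [mem_funs]
    refine ⟨lam_Fn (hμF i) om, fun n hn => ?_⟩
    rw [app_lam (hμF i) hn]
    exact (hμspec i hi n hn).1
  · intro i j hi' hj' hij
    have hi1 := hS i hi'
    have hj1 := hS j hj'
    refine hi i j hi1.1 hj1.1 ?_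
    refine Fn.ext (mem_funs.1 (hv i hi1.1)).1 (mem_funs.1 (hv j hj1.1)).1 (fun n hn => ?_)
    have h1 := congrArg (fun g => app g n) hij
    rw [app_lam (hμF i) hn, app_lam (hμF j) hn] at h1
    rw [← (hμspec i hi' n hn).2, ← (hμspec j hj' n hn).2, h1]

/-- `hh l`: the Hartogs number of the set of functions from omega to `l`. -/
noncomputable def hh (l : M) : M := GA.har (funs om l)

theorem pf_hh {f : (ℕ → M) → M} (hf : PF f) : PF (fun v => hh (f v)) :=
  PF.comp1 (F := fun x => hh x) (by unfold hh; (repeat' (with_reducible first | apply pd_Spr | apply pd_Inj | apply pf_har | apply pd_Le | apply pf_fins | apply pf_card | apply pd_Bij | apply pd_Fini | apply pd_Big | apply pd_Ord | apply pd_Tr | apply pd_Ind | apply pf_succ | apply pf_funs | apply pf_prod | apply pf_lam | apply pd_Fn | apply pf_app | apply pf_ran | apply pf_dom | apply PF.img | apply PF.pow | apply PD.sub | apply PF.adj | apply PF.un | apply PF.sUn | apply PF.op | apply PF.pr | apply PF.sep | exact PF.var _ | exact PF.const _ | apply PD.eq | apply PD.mem | apply PD.not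 | apply PD.iff | apply PD.or | apply PD.and | apply PD.imp | apply PD.ex | apply PD.all | exact PD.const _ | assumption | refine PF.comp1 (F := _) (by assumption) ?_ | refine PF.comp2 (F := _) (by assumption) ?_ ?_ | refine PF.comp3 (F := _) (by assumption) ?_ ?_ ?_ | refine PD.app1 (R := _) (by assumption) ?_ | refine PD.app2 (R := _) (by assumption) ?_ ?_ | refine PD.app3 (R := _) (by assumption) ?_ ?_ ?_ | refine PD.app4 (R := _) (by assumption) ?_ ?_ ?_ ?_))) hf


theorem mem_hh {l ν : M} (h : Ord ν) : SetStr.mem ν (hh l) ↔ Inj ν l := mem_har_iff h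

/-- MODULE km -/
theorem Big.hh {l : M} (h : Big l) : Big (hh l) := by
  have h1 : Ord (GA.hh l) := Ord.har _
  refine ⟨h1, fun n hn => ?_⟩
  exact h1.trans ((mem_hh h.1).mpr Inj.self) (h.2 n hn)

/-- MODULE km -/
theorem mem_hh_self {l : M} (h : Ord l) : SetStr.mem l (GA.hh l) := (mem_hh h).mpr Inj.self

/-- MODULE km -/
theorem not_inj_hh (l : M) : ¬ Inj (GA.hh l) l := not_le_har _

/-- MODULE km.  If `l < hh k` then everything that injects into `l^om` injects into `k^om`. -/
theorem inj_of_mem_hh {ν l k : M} (hk : Big k) (hl : SetStr.mem l (GA.hh k)) (h : Inj ν l) : Inj ν k := by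
  have h1 : Ord (GA.hh k) := Ord.har _
  exact Inj.trans ⟨emp, hk.2 _ emp_mem_om⟩ h ((mem_hh (h1.mem hl)).mp hl)

/-- MODULE kn.  A closure ordinal of `hh` above omega (`om_rec` with `hh`, union of the values). -/
theorem exists_closed : ∃ κ : M, Big κ ∧ SetStr.mem (GA.hh om) κ ∧
    ∀ l, Big l → SetStr.mem l κ → SetStr.mem (GA.hh l) κ := by
  obtain ⟨F, hF, hF0, hFs⟩ := om_rec (M := M) (G := fun x => GA.hh x) (by (repeat' (with_reducible first | apply pf_hh | apply pd_Spr | apply pd_Inj | apply pf_har | apply pd_Le | apply pf_fins | apply pf_card | apply pd_Bij | apply pd_Fini | apply pd_Big | apply pd_Ord | apply pd_Tr | apply pd_Ind | apply pf_succ | apply pf_funs | apply pf_prod | apply pf_lam | apply pd_Fn | apply pf_app | apply pf_ran | apply pf_dom | apply PF.img | apply PF.pow | apply PD.sub | apply PF.adj | apply PF.un | apply PF.sUn | apply PF.op | apply PF.pr | apply PF.sep | exact PF.var _ | exact PF.const _ | apply PD.eq | apply PD.mem | apply PD.not | apply PD.iff | apply PD.or | apply PD.and | apply PD.imp | apply PD.ex |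 apply PD.all | exact PD.const _ | assumption | refine PF.comp1 (F := _) (by assumption) ?_ | refine PF.comp2 (F := _) (by assumption) ?_ ?_ | refine PF.comp3 (F := _) (by assumption) ?_ ?_ ?_ | refine PD.app1 (R := _) (by assumption) ?_ | refine PD.app2 (R := _) (by assumption) ?_ ?_ | refine PD.app3 (R := _) (by assumption) ?_ ?_ ?_ | refine PD.app4 (R := _) (by assumption) ?_ ?_ ?_ ?_))) (GA.hh om)
  have hbig : ∀ n, SetStr.mem n (om : M) → Big (F n) := by
    refine om_ind (P := fun n => Big (F n)) (by (repeat' (with_reducible first | apply pf_hh | apply pd_Spr | apply pd_Inj | apply pf_har | apply pd_Le | apply pf_fins | apply pf_card | apply pd_Bij | apply pd_Fini | apply pd_Big | apply pd_Ord | apply pd_Tr | apply pd_Ind | apply pf_succ | apply pf_funs | apply pf_prod | apply pf_lam | apply pd_Fn | apply pf_app | apply pf_ran | apply pf_dom | apply PF.img | apply PF.pow | apply PD.sub | apply PF.adj | apply PF.un | apply PF.sUn | apply PF.op | apply PF.pr | apply PF.sep | exact PF.var _ | exact PF.const _ | apply PD.eq | apply PD.mem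 | apply PD.not | apply PD.iff | apply PD.or | apply PD.and | apply PD.imp | apply PD.ex | apply PD.all | exact PD.const _ | assumption | refine PF.comp1 (F := _) (by assumption) ?_ | refine PF.comp2 (F := _) (by assumption) ?_ ?_ | refine PF.comp3 (F := _) (by assumption) ?_ ?_ ?_ | refine PD.app1 (R := _) (by assumption) ?_ | refine PD.app2 (R := _) (by assumption) ?_ ?_ | refine PD.app3 (R := _) (by assumption) ?_ ?_ ?_ | refine PD.app4 (R := _) (by assumption) ?_ ?_ ?_ ?_))) ?_ ?_
    · rw [hF0]
      exact Big.om.hh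
    · intro n hn ih
      rw [hFs n hn]
      exact ih.hh
  have hstep : ∀ n, SetStr.mem n (om : M) → SetStr.mem (F n) (F (succ n)) := by
    intro n hn
    rw [hFs n hn]
    exact mem_hh_self (hbig n hn).1
  have hκ : ∀ z : M, SetStr.mem z (sUn (img F om)) ↔ ∃ n, SetStr.mem n (om : M) ∧ SetStr.mem z (F n) := by
    intro z
    rw [mem_sUn]
    constructor
    · rintro ⟨y, hy, hz⟩
      obtain ⟨n, hn, rfl⟩ := (mem_img hF).1 hy
      exact ⟨n, hn, hz⟩
    · rintro ⟨n, hn, hz⟩
      exact ⟨F n, (mem_img hF).2 ⟨n, hn, rfl⟩, hz⟩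
  have h0 : SetStr.mem (emp : M) om := emp_mem_om
  refine ⟨sUn (img F om), ⟨?_, ?_⟩, ?_, ?_⟩
  · apply Ord.sUn
    intro x hx
    obtain ⟨n, hn, rfl⟩ := (mem_img hF).1 hx
    exact (hbig n hn).1
  · intro z hz
    exact (hκ z).2 ⟨emp, h0, (hbig emp h0).2 z hz⟩
  · refine (hκ _).2 ⟨succ emp, succ_mem_om h0, ?_⟩
    have := hstep emp h0
    rwa [hF0] at this
  · intro l hl hlκ
    obtain ⟨n, hn, hln⟩ := (hκ l).1 hlκ
    have hsub : GA.sub l (F n) := fun z hz => (hbig n hn).1.trans hln hz
    have hhl : GA.sub (GA.hh l) (F (succ n)) := by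
      intro z hz
      rw [hFs n hn]
      have hzO : Ord z := (hl.hh).1.mem hz
      exact (mem_hh hzO).2 (((mem_hh hzO).1 hz).mono_right hsub)
    have hsn := succ_mem_om hn
    rcases (Ord.sub_iff hl.hh.1 (hbig _ hsn).1).1 hhl with h | h
    · exact (hκ _).2 ⟨succ n, hsn, h⟩
    · refine (hκ _).2 ⟨succ (succ n), succ_mem_om hsn, ?_⟩
      rw [h]
      exact hstep _ hsn

end GA
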