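import Pool.Agent.GA.Om

/-!
# Ordinals of a model of ZF
-/

universe u

namespace GA

variable {M : Type u} [SetStr M]

/-- `x` is an ordinal: a transitive set of transitive sets. -/
def Ord (x : M) : Prop :=
  (∀ y, SetStr.mem y x → ∀ z, SetStr.mem z y → SetStr.mem z x) ∧
    ∀ y, SetStr.mem y x → ∀ z, SetStr.mem z y → ∀ w, SetStr.mem w z → SetStr.mem w y

theorem pd_Ord {f : (ℕ → M) → M} (hf : PF f) : PD (fun v => Ord (f v)) :=
  PD.app1 (R := fun x => Ord x) (by unfold Ord; (repeat' (with_reducible first | apply pd_Tr | apply pd_Ind | apply pf_succ | apply pf_funs | apply pf_prod | apply pf_lam | apply pd_Fn | apply pf_app | apply pf_ran | apply pf_dom | apply PF.img | apply PF.pow | apply PD.sub | apply PF.adj | apply PF.un | apply PF.sUn | apply PF.op | apply PF.pr | apply PF.sep | exact PF.var _ | exact PF.const _ | apply PD.eq | apply PD.mem | apply PD.not | apply PD.iff | apply PD.or | apply PD.and | apply PD.imp | apply PD.ex | apply PD.all | exact PD.const _ | assumption | refine PF.comp1 (F :=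 _) (by assumption) ?_ | refine PF.comp2 (F := _) (by assumption) ?_ ?_ | refine PF.comp3 (F := _) (by assumption) ?_ ?_ ?_ | refine PD.app1 (R := _) (by assumption) ?_ | refine PD.app2 (R := _) (by assumption) ?_ ?_ | refine PD.app3 (R := _) (by assumption) ?_ ?_ ?_ | refine PD.app4 (R := _) (by assumption) ?_ ?_ ?_ ?_))) hf


theorem Ord.trans {x y z : M} (h : Ord x) (hy : SetStr.mem y x) (hz : SetStr.mem z y) : SetStr.mem z x := h.1 y hy z hz

theorem Ord.mem {x y : M} (h : Ord x) (hy : SetStr.mem y x) : Ord y :=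
  ⟨h.2 y hy, fun z hz => h.2 z (h.1 y hy z hz)⟩

variable [IsZF M]

/-- MODULE pa -/
theorem Ord.emp : Ord (emp : M) :=
  ⟨fun y hy => (not_mem_emp y hy).elim, fun y hy => (not_mem_emp y hy).elim⟩

/-- MODULE pa -/
theorem Ord.succ {x : M} (h : Ord x) : Ord (succ x) := by
  constructor
  · intro y hy z hz
    rw [mem_succ] at hy ⊢
    rcases hy with hy | rfl
    · exact Or.inl (h.1 y hy z hz)
    · exact Or.inl hz
  · intro y hy
    rw [mem_succ] at hy
    rcases hy with hy | rfl
    · exact h.2 y hy
    · exact h.1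

/-- MODULE pa -/
theorem Ord.om : Ord (om : M) :=
  ⟨fun _ hy _ hz => om_trans hy hz, fun _ hy _ hz _ hw => om_elt_trans hy hz hw⟩

/-- MODULE pa -/
theorem Ord.of_mem_om {n : M} (h : SetStr.mem n (GA.om : M)) : Ord n := Ord.om.mem h

/-- MODULE pb.  Ordinals are linearly ordered. -/
theorem Ord.tri {x y : M} (hx : Ord x) (hy : Ord y) : SetStr.mem x y ∨ x = y ∨ SetStr.mem y x := by
  have h1 : ∀ x : M, Ord x → ∀ y : M, Ord y → SetStr.mem x y ∨ x = y ∨ SetStr.mem y x := by
    refine mem_ind (P := fun x => Ord x → ∀ y : M, Ord y → SetStr.mem x y ∨ x = y ∨ SetStr.mem y x) (by (repeat' (with_reducible first | apply pd_Ord | apply pd_Tr | apply pd_Ind | apply pf_succ | apply pf_funs | apply pf_prod | apply pf_lam | apply pd_Fn | apply pf_app | apply pf_ran | apply pf_dom | apply PF.img | apply PF.pow | apply PD.sub | apply PF.adj | apply PF.un | apply PF.sUn | apply PF.op | apply PF.pr | apply PF.sep | exact PF.var _ | exact PF.const _ | apply PD.eq | apply PD.mem | apply PD.not | apply PD.iff | apply PD.or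 | apply PD.and | apply PD.imp | apply PD.ex | apply PD.all | exact PD.const _ | assumption | refine PF.comp1 (F := _) (by assumption) ?_ | refine PF.comp2 (F := _) (by assumption) ?_ ?_ | refine PF.comp3 (F := _) (by assumption) ?_ ?_ ?_ | refine PD.app1 (R := _) (by assumption) ?_ | refine PD.app2 (R := _) (by assumption) ?_ ?_ | refine PD.app3 (R := _) (by assumption) ?_ ?_ ?_ | refine PD.app4 (R := _) (by assumption) ?_ ?_ ?_ ?_))) ?_
    intro x ihx hx
    refine mem_ind (P := fun y => Ord y → SetStr.mem x y ∨ x = y ∨ SetStr.mem y x) (by (repeat' (with_reducible first | apply pd_Ord | apply pd_Tr | apply pd_Ind | apply pf_succ | apply pf_funs | apply pf_prod | apply pf_lam | apply pd_Fn | apply pf_app | apply pf_ran | apply pf_dom | apply PF.img | apply PF.pow | apply PD.sub | apply PF.adj | apply PF.un | apply PF.sUn | apply PF.op | apply PF.pr | apply PF.sep | exact PF.var _ | exact PF.const _ | apply PD.eq | apply PD.mem | apply PD.not | apply PD.iff | apply PD.or | apply PD.and | apply PD.imp | apply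 PD.ex | apply PD.all | exact PD.const _ | assumption | refine PF.comp1 (F := _) (by assumption) ?_ | refine PF.comp2 (F := _) (by assumption) ?_ ?_ | refine PF.comp3 (F := _) (by assumption) ?_ ?_ ?_ | refine PD.app1 (R := _) (by assumption) ?_ | refine PD.app2 (R := _) (by assumption) ?_ ?_ | refine PD.app3 (R := _) (by assumption) ?_ ?_ ?_ | refine PD.app4 (R := _) (by assumption) ?_ ?_ ?_ ?_))) ?_
    intro y ihy hy
    by_contra hcon
    push Not at hcon
    obtain ⟨h1, h2, h3⟩ := hcon
    refine h2 (ext (fun z => ⟨fun hz => ?_, fun hz => ?_⟩))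
    · rcases ihx z hz (hx.mem hz) y hy with h | h | h
      · exact h
      · exact (h3 (h ▸ hz)).elim
      · exact (h3 (hx.trans hz h)).elim
    · rcases ihy z hz (hy.mem hz) with h | h | h
      · exact (h1 (hy.trans hz h)).elim
      · exact (h1 (h ▸ hz)).elim
      · exact h
  exact h1 x hx y hy

/-- MODULE pb -/
theorem Ord.sub_iff {x y : M} (hx : Ord x) (hy : Ord y) : GA.sub x y ↔ SetStr.mem x y ∨ x = y := by
  constructor
  · intro h
    rcases hx.tri hy with h1 | h1 | h1
    · exact Or.inl h1
    · exact Or.inr h1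
    · exact (not_mem_self y (h y h1)).elim
  · rintro (h | rfl)
    · exact fun z hz => hy.trans h hz
    · exact fun z hz => hz

/-- MODULE pb -/
theorem Ord.sub_or_mem {x y : M} (hx : Ord x) (hy : Ord y) : GA.sub x y ∨ SetStr.mem y x := by
  rcases hx.tri hy with h1 | h1 | h1
  · exact Or.inl ((hx.sub_iff hy).2 (Or.inl h1))
  · exact Or.inl ((hx.sub_iff hy).2 (Or.inr h1))
  · exact Or.inr h1

/-- MODULE pb -/
theorem Ord.mem_iff_succ_sub {x y : M} (hx : Ord x) (hy : Ord y) : SetStr.mem x y ↔ GA.sub (GA.succ x) y := by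
  constructor
  · intro h z hz
    rcases mem_succ.1 hz with hz | rfl
    · exact hy.trans h hz
    · exact h
  · intro h
    exact h x (mem_succ.2 (Or.inr rfl))

/-- MODULE pc.  Least ordinal with a definable property. -/
theorem Ord.least {P : M → Prop} (hP : PD (fun v => P (v 0))) (h : ∃ x, Ord x ∧ P x) :
    ∃ x, Ord x ∧ P x ∧ ∀ y, SetStr.mem y x → ¬ P y := by
  obtain ⟨x, hx, hPx⟩ := h
  obtain ⟨y, hy, hmin⟩ := IsZF.foundation (sep (GA.succ x) P)
    ⟨x, (mem_sep hP).2 ⟨mem_succ.2 (Or.inr rfl), hPx⟩⟩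
  rw [mem_sep hP] at hy
  refine ⟨y, hx.succ.mem hy.1, hy.2, fun z hz hPz => ?_⟩
  exact hmin z hz ((mem_sep hP).2 ⟨hx.succ.trans hy.1 hz, hPz⟩)

/-- MODULE pc.  Induction on ordinals. -/
theorem Ord.ind {P : M → Prop} (hP : PD (fun v => P (v 0)))
    (h : ∀ x, Ord x → (∀ y, SetStr.mem y x → P y) → P x) : ∀ x, Ord x → P x := by
  refine mem_ind (P := fun x => Ord x → P x) (PD.imp (pd_Ord (PF.var _)) hP) ?_
  intro x ih hx
  exact h x hx (fun y hy => ih y hy (hx.mem hy))

/-- MODULE pd -/
theorem Ord.sUn {a : M} (h : ∀ x, SetStr.mem x a → Ord x) : Ord (sUn a) := by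
  constructor
  · intro y hy z hz
    obtain ⟨w, hw, hyw⟩ := mem_sUn.1 hy
    exact mem_sUn.2 ⟨w, hw, (h w hw).trans hyw hz⟩
  · intro y hy
    obtain ⟨w, hw, hyw⟩ := mem_sUn.1 hy
    exact (h w hw).2 y hyw

/-- MODULE pd.  A transitive set of ordinals is an ordinal. -/
theorem Ord.of_tr {a : M} (h : ∀ x, SetStr.mem x a → Ord x) (ht : ∀ x, SetStr.mem x a → ∀ y, SetStr.mem y x → SetStr.mem y a) :
    Ord a :=
  ⟨ht, fun y hy => (h y hy).1⟩

/-- MODULE pd.  There is no set of all ordinals. -/
theorem not_all_ord (a : M) : ∃ x, Ord x ∧ ¬ SetStr.mem x a := by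
  by_contra hcon
  push Not at hcon
  have hm : ∀ x, SetStr.mem x (sep a (fun x => Ord x)) ↔ Ord x := by
    intro x
    rw [mem_sep (by (repeat' (with_reducible first | apply pd_Ord | apply pd_Tr | apply pd_Ind | apply pf_succ | apply pf_funs | apply pf_prod | apply pf_lam | apply pd_Fn | apply pf_app | apply pf_ran | apply pf_dom | apply PF.img | apply PF.pow | apply PD.sub | apply PF.adj | apply PF.un | apply PF.sUn | apply PF.op | apply PF.pr | apply PF.sep | exact PF.var _ | exact PF.const _ | apply PD.eq | apply PD.mem | apply PD.not | apply PD.iff | apply PD.or | apply PD.and | apply PD.imp | apply PD.ex | apply PD.all | exact PD.const _ | assumption | refine PF.comp1 (F := _) (by assumption) ?_ | refine PF.comp2 (F := _) (by assumption) ?_ ?_ | refine PF.comp3 (F := _) (by assumption) ?_ ?_ ?_ | refine PD.app1 (R := _) (by assumption) ?_ | refine PD.app2 (R := _) (by assumption) ?_ ?_ | refine PD.app3 (R := _) (by assumption) ?_ ?_ ?_ | refine PD.app4 (R := _) (by assumption) ?_ ?_ ?_ ?_)))]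
    exact ⟨fun h => h.2, fun h => ⟨hcon x h, h⟩⟩
  have h1 : Ord (sep a (fun x => Ord x)) :=
    Ord.of_tr (fun x hx => (hm x).1 hx) (fun x hx y hy => (hm y).2 (((hm x).1 hx).mem hy))
  exact not_mem_self _ ((hm _).2 h1)

/-- MODULE pd -/
theorem Ord.zero_or_pos {x : M} (h : Ord x) : x = GA.emp ∨ SetStr.mem GA.emp x := by
  rcases Ord.emp.tri h with h1 | h1 | h1
  · exact Or.inr h1
  · exact Or.inl h1.symm
  · exact (not_mem_emp _ h1).elim

/-- MODULE pe.  A strictly increasing map of ordinals satisfies `xi ≤ g xi`, so `lam ≤ nu`. -/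
theorem incr_sub {g a b : M} (ha : Ord a) (hb : Ord b) (hg : Fn g a)
    (hv : ∀ x, SetStr.mem x a → SetStr.mem (app g x) b)
    (hm : ∀ x y, SetStr.mem x a → SetStr.mem y x → SetStr.mem (app g y) (app g x)) : GA.sub a b := by
  have key : ∀ x, Ord x → (SetStr.mem x a → GA.sub x (app g x)) := by
    refine Ord.ind (P := fun x => SetStr.mem x a → GA.sub x (app g x)) (by (repeat' (with_reducible first | apply pd_Ord | apply pd_Tr | apply pd_Ind | apply pf_succ | apply pf_funs | apply pf_prod | apply pf_lam | apply pd_Fn | apply pf_app | apply pf_ran | apply pf_dom | apply PF.img | apply PF.pow | apply PD.sub | apply PF.adj | apply PF.un | apply PF.sUn | apply PF.op | apply PF.pr | apply PF.sep | exact PF.var _ | exact PF.const _ | apply PD.eq | apply PD.mem | apply PD.not | apply PD.iff | apply PD.or | apply PD.and | apply PD.imp | apply PD.ex | apply PD.all | exact PD.const _ | assumption | refine PF.comp1 (F := _) (by assumption) ?_ | refine PF.comp2 (F := _) (by assumption) ?_ ?_ | refine PF.comp3 (F :=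 _) (by assumption) ?_ ?_ ?_ | refine PD.app1 (R := _) (by assumption) ?_ | refine PD.app2 (R := _) (by assumption) ?_ ?_ | refine PD.app3 (R := _) (by assumption) ?_ ?_ ?_ | refine PD.app4 (R := _) (by assumption) ?_ ?_ ?_ ?_))) ?_
    intro x hx ih hxa y hy
    have hya : SetStr.mem y a := ha.trans hxa hy
    have h1 : Ord (app g x) := hb.mem (hv x hxa)
    have h2 : SetStr.mem (app g y) (app g x) := hm x y hxa hy
    rcases ((hx.mem hy).sub_iff (h1.mem h2)).1 (ih y hy hya) with h | h
    · exact h1.trans h2 h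
    · rw [h]
      exact h2
  intro x hx
  rcases ((ha.mem hx).sub_iff (hb.mem (hv x hx))).1 (key x (ha.mem hx) hx) with h | h
  · exact hb.trans (hv x hx) h
  · rw [h]
    exact hv x hx

/-- `om ⊆ x`, for ordinals: `x` is infinite. -/
def Big (x : M) : Prop := Ord x ∧ GA.sub om x

theorem pd_Big {f : (ℕ → M) → M} (hf : PF f) : PD (fun v => Big (f v)) :=
  PD.app1 (R := fun x => Big x) (by unfold Big; (repeat' (with_reducible first | apply pd_Ord | apply pd_Tr | apply pd_Ind | apply pf_succ | apply pf_funs | apply pf_prod | apply pf_lam | apply pd_Fn | apply pf_app | apply pf_ran | apply pf_dom | apply PF.img | apply PF.pow | apply PD.sub | apply PF.adj | apply PF.un | apply PF.sUn | apply PF.op | apply PF.pr | apply PF.sep | exact PF.var _ | exact PF.const _ | apply PD.eq | apply PD.mem | apply PD.not | apply PD.iff | apply PD.or | apply PD.and | apply PD.imp | apply PD.ex | apply PD.all | exact PD.const _ | assumption | refine PF.comp1 (F := _) (by assumption) ?_ | refine PF.comp2 (F := _) (by assumption)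 ?_ ?_ | refine PF.comp3 (F := _) (by assumption) ?_ ?_ ?_ | refine PD.app1 (R := _) (by assumption) ?_ | refine PD.app2 (R := _) (by assumption) ?_ ?_ | refine PD.app3 (R := _) (by assumption) ?_ ?_ ?_ | refine PD.app4 (R := _) (by assumption) ?_ ?_ ?_ ?_))) hf


theorem Big.om : Big (om : M) := ⟨Ord.om, fun _ h => h⟩

end GA
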