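import Pool.Agent.GA.Gen
import Pool.Agent.GA.Rec
import Pool.Agent.GA.Ord

/-!
# Check names, the embedding of `M` into `M[G]`, its ordinals, names of subsets of `M`
-/

universe u

namespace GA

variable {M : Type u} [SetStr M] [IsZF M]

theorem exists_chk (o : M) : ∃ F : M → M, PF (fun v => F (v 0)) ∧
    ∀ x z, SetStr.mem z (F x) ↔ ∃ y, SetStr.mem y x ∧ z = op (F y) o := by
  obtain ⟨F, hF, h⟩ := mem_rec (M := M) (G := fun _ f => img (fun z => op z o) (ran f)) (by (repeat' (with_reducible first | apply pd_Big | apply pd_Ord | apply pd_Fmem | apply pd_Feq | apply pd_Tr | apply pd_Ind | apply pf_succ | apply pf_funs | apply pf_prod | apply pf_lam | apply pd_Fn | apply pf_app | apply pf_ran | apply pf_dom | apply PF.img | apply PF.pow | apply PD.sub | apply PF.adj | apply PF.un | apply PF.sUn | apply PF.op | apply PF.pr | apply PF.sep | exact PF.var _ | exact PF.const _ | apply PD.eq | apply PD.mem | apply PD.not | apply PD.iff | apply PD.or | apply PD.and | apply PD.imp |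 apply PD.ex | apply PD.all | exact PD.const _ | assumption | refine PF.comp1 (F := _) (by assumption) ?_ | refine PF.comp2 (F := _) (by assumption) ?_ ?_ | refine PF.comp3 (F := _) (by assumption) ?_ ?_ ?_ | refine PD.app1 (R := _) (by assumption) ?_ | refine PD.app2 (R := _) (by assumption) ?_ ?_ | refine PD.app3 (R := _) (by assumption) ?_ ?_ ?_ | refine PD.app4 (R := _) (by assumption) ?_ ?_ ?_ ?_)))
  refine ⟨F, hF, fun x z => ?_⟩
  rw [h x, mem_img (by (repeat' (with_reducible first | apply pd_Big | apply pd_Ord | apply pd_Fmem | apply pd_Feq | apply pd_Tr | apply pd_Ind | apply pf_succ | apply pf_funs | apply pf_prod | apply pf_lam | apply pd_Fn | apply pf_app | apply pf_ran | apply pf_dom | apply PF.img | apply PF.pow | apply PD.sub | apply PF.adj | apply PF.un | apply PF.sUn | apply PF.op | apply PF.pr | apply PF.sep | exact PF.var _ | exact PF.const _ | apply PD.eq | apply PD.mem | apply PD.not | apply PD.iff | apply PD.or | apply PD.and | apply PD.imp | apply PD.ex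 | apply PD.all | exact PD.const _ | assumption | refine PF.comp1 (F := _) (by assumption) ?_ | refine PF.comp2 (F := _) (by assumption) ?_ ?_ | refine PF.comp3 (F := _) (by assumption) ?_ ?_ ?_ | refine PD.app1 (R := _) (by assumption) ?_ | refine PD.app2 (R := _) (by assumption) ?_ ?_ | refine PD.app3 (R := _) (by assumption) ?_ ?_ ?_ | refine PD.app4 (R := _) (by assumption) ?_ ?_ ?_ ?_)))]
  constructor
  · rintro ⟨w, hw, rfl⟩
    rw [mem_ran] at hw
    obtain ⟨y, hy⟩ := hw
    rw [mem_lam hF] at hy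
    obtain ⟨y', hy', h'⟩ := hy
    rw [op_inj] at h'
    exact ⟨y', hy', by rw [h'.2]⟩
  · rintro ⟨y, hy, rfl⟩
    refine ⟨F y, ?_, rfl⟩
    rw [mem_ran]
    exact ⟨y, (mem_lam hF).2 ⟨y, hy, rfl⟩⟩

/-- The check name of `x`: `{(check y, o) | y ∈ x}`. -/
noncomputable def chk (o x : M) : M := (exists_chk o).choose x

theorem mem_chk {o x z : M} : SetStr.mem z (chk o x) ↔ ∃ y, SetStr.mem y x ∧ z = op (chk o y) o :=
  (exists_chk o).choose_spec.2 x z

theorem pf_chk {o : M} {f : (ℕ → M) → M} (hf : PF f) : PF (fun v => chk o (f v)) :=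
  PF.comp1 (exists_chk o).choose_spec.1 hf


theorem op_mem_chk {o x a b : M} : SetStr.mem (op a b) (chk o x) ↔ b = o ∧ ∃ y, SetStr.mem y x ∧ a = chk o y := by
  rw [mem_chk]
  constructor
  · rintro ⟨y, hy, h⟩
    rw [op_inj] at h
    exact ⟨h.2, y, hy, h.1⟩
  · rintro ⟨rfl, y, hy, rfl⟩
    exact ⟨y, hy, rfl⟩

section laws

variable {P L o : M}

theorem Feq_chk (hF : IsForcing P L o) : ∀ x y p, SetStr.mem p P → Feq L p (chk o x) (chk o y) → x = y := by
  refine mem_ind (P := fun x => ∀ y p, SetStr.mem p P → Feq L p (chk o x) (chk o y) → x = y) (by (repeat' (with_reducible first | apply pf_chk | apply pd_Big | apply pd_Ord | apply pd_Fmem | apply pd_Feq | apply pd_Tr | apply pd_Ind | apply pf_succ | apply pf_funs | apply pf_prod | apply pf_lam | apply pd_Fn | apply pf_app | apply pf_ran | apply pf_dom | apply PF.img | apply PF.pow | apply PD.sub | apply PF.adj | apply PF.un | apply PF.sUn | apply PF.op | apply PF.pr | apply PF.sep | exact PF.var _ | exact PF.const _ | apply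 PD.eq | apply PD.mem | apply PD.not | apply PD.iff | apply PD.or | apply PD.and | apply PD.imp | apply PD.ex | apply PD.all | exact PD.const _ | assumption | refine PF.comp1 (F := _) (by assumption) ?_ | refine PF.comp2 (F := _) (by assumption) ?_ ?_ | refine PF.comp3 (F := _) (by assumption) ?_ ?_ ?_ | refine PD.app1 (R := _) (by assumption) ?_ | refine PD.app2 (R := _) (by assumption) ?_ ?_ | refine PD.app3 (R := _) (by assumption) ?_ ?_ ?_ | refine PD.app4 (R := _) (by assumption) ?_ ?_ ?_ ?_))) ?_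
  intro x ih y p hp h
  obtain ⟨h1, h2⟩ := h.clause
  refine ext (fun z => ⟨fun hz => ?_, fun hz => ?_⟩)
  · obtain ⟨r, w, s, e1, e2, e3, e4⟩ := h1 (chk o z) o p (op_mem_chk.2 ⟨rfl, z, hz, rfl⟩)
      (hF.refl p hp) (hF.le_top p hp)
    obtain ⟨-, w', hw', rfl⟩ := op_mem_chk.1 e2
    rw [ih z hz w' r (hF.fld _ _ e1).1 e4]
    exact hw'
  · obtain ⟨r, w, s, e1, e2, e3, e4⟩ := h2 (chk o z) o p (op_mem_chk.2 ⟨rfl, z, hz, rfl⟩)
      (hF.refl p hp) (hF.le_top p hp)
    obtain ⟨-, w', hw', rfl⟩ := op_mem_chk.1 e2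
    rw [← ih w' hw' z r (hF.fld _ _ e1).1 e4]
    exact hw'

theorem Feq_chk_iff (hF : IsForcing P L o) {x y p : M} (hp : SetStr.mem p P) :
    Feq L p (chk o x) (chk o y) ↔ x = y :=
  ⟨Feq_chk hF x y p hp, fun h => by rw [h]; exact Feq.refl hF _ _⟩

theorem Fmem_chk_iff (hF : IsForcing P L o) {x y p : M} (hp : SetStr.mem p P) :
    Fmem L p (chk o x) (chk o y) ↔ SetStr.mem x y := by
  constructor
  · intro h
    obtain ⟨r, w, s, e1, e2, e3, e4⟩ := h.exists hF hp
    obtain ⟨-, w', hw', rfl⟩ := op_mem_chk.1 e2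
    rw [Feq_chk hF _ _ r (hF.fld _ _ e1).1 e4]
    exact hw'
  · intro h
    exact Fmem.of_mem hF (op_mem_chk.2 ⟨rfl, x, h, rfl⟩) (hF.le_top p hp)

/-- Some ordinal is not forced to be one of the elements of the name `τ`. -/
theorem exists_ord_not_forced (hF : IsForcing P L o) (τ : M) :
    ∃ β, Ord β ∧ ∀ w s q, SetStr.mem (op w s) τ → SetStr.mem q P → ¬ Feq L q (chk o β) w := by
  obtain ⟨W, hW⟩ := exists_repl (M := M)
    (R := fun u β => (∃ w q, SetStr.mem q P ∧ u = op w q ∧ Feq L q (chk o β) w) ∨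
      ((∀ β' w q, SetStr.mem q P → u = op w q → ¬ Feq L q (chk o β') w) ∧ β = emp)) (by (repeat' (with_reducible first | apply pf_chk | apply pd_Big | apply pd_Ord | apply pd_Fmem | apply pd_Feq | apply pd_Tr | apply pd_Ind | apply pf_succ | apply pf_funs | apply pf_prod | apply pf_lam | apply pd_Fn | apply pf_app | apply pf_ran | apply pf_dom | apply PF.img | apply PF.pow | apply PD.sub | apply PF.adj | apply PF.un | apply PF.sUn | apply PF.op | apply PF.pr | apply PF.sep | exact PF.var _ | exact PF.const _ | apply PD.eq | apply PD.mem | apply PD.not | apply PD.iff | apply PD.or | apply PD.and | apply PD.imp | apply PD.ex | apply PD.all | exact PD.const _ | assumption | refine PF.comp1 (F := _) (by assumption) ?_ | refine PF.comp2 (F := _) (by assumption) ?_ ?_ | refine PF.comp3 (F := _) (by assumption) ?_ ?_ ?_ | refine PD.app1 (R := _) (by assumption) ?_ | refine PD.app2 (R := _) (by assumption) ?_ ?_ | refine PD.app3 (R := _) (by assumption) ?_ ?_ ?_ | refine PD.app4 (R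 := _) (by assumption) ?_ ?_ ?_ ?_)))
    (prod (dom τ) P) (by
      intro u _
      by_cases h : ∃ β w q, SetStr.mem q P ∧ u = op w q ∧ Feq L q (chk o β) w
      · obtain ⟨β, w, q, hq, rfl, h⟩ := h
        refine ⟨β, Or.inl ⟨w, q, hq, rfl, h⟩, ?_⟩
        rintro β' (⟨w', q', hq', h1, h2⟩ | ⟨h1, h2⟩)
        · rw [op_inj] at h1
          obtain ⟨rfl, rfl⟩ := h1
          exact Feq_chk hF β' β _ hq (h2.trans hF h.symm)
        · exact (h1 β w q hq rfl h).elim
      · push Not at h
        refine ⟨emp, Or.inr ⟨h, rfl⟩, ?_⟩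
        rintro β' (⟨w', q', hq', h1, h2⟩ | ⟨h1, h2⟩)
        · exact (h β' w' q' hq' h1 h2).elim
        · exact h2)
  obtain ⟨β, hβ, hβ'⟩ := not_all_ord W
  refine ⟨β, hβ, fun w s q hw hq h => hβ' ?_⟩
  obtain ⟨γ, hγ, hγ'⟩ := hW (op w q) (op_mem_prod.2 ⟨mem_dom.2 ⟨s, hw⟩, hq⟩)
  rcases hγ' with ⟨w', q', hq', h1, h2⟩ | ⟨h1, h2⟩
  · rw [op_inj] at h1
    obtain ⟨rfl, rfl⟩ := h1
    rw [Feq_chk hF β γ _ hq (h.trans hF h2.symm)]
    exact hγ
  · exact (h1 β w q hq rfl h).elim

end laws

section emb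

variable {P L o : M} {G : Set M}

/-- The embedding of `M` into `M[G]`. -/
noncomputable def jj (hG : IsGeneric P L o G) (x : M) : Ext hG := val hG (chk o x)

theorem jj_mem (hG : IsGeneric P L o G) {x y : M} : SetStr.mem (jj hG x) (jj hG y) ↔ SetStr.mem x y := by
  unfold jj
  rw [val_mem]
  constructor
  · rintro ⟨p, hp, h⟩
    exact (Fmem_chk_iff hG.forcing (hG.sub p hp)).1 h
  · intro h
    exact ⟨o, hG.top_mem, (Fmem_chk_iff hG.forcing hG.forcing.top_mem).2 h⟩

theorem jj_inj (hG : IsGeneric P L o G) {x y : M} : jj hG x = jj hG y ↔ x = y := by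
  constructor
  · intro h
    obtain ⟨p, hp, h⟩ := val_eq.1 h
    exact (Feq_chk_iff hG.forcing (hG.sub p hp)).1 h
  · intro h
    rw [h]

/-- The image of `M` is transitive. -/
theorem jj_trans (hG : IsGeneric P L o G) {y : Ext hG} {v : M} (h : SetStr.mem y (jj hG v)) :
    ∃ u, SetStr.mem u v ∧ y = jj hG u := by
  obtain ⟨τ, rfl⟩ := val_surj hG y
  obtain ⟨p, hp, h⟩ := val_mem.1 h
  obtain ⟨r, hr, -, w, hw, h'⟩ := hG.meets_below (D := fun q => ∃ w, SetStr.mem w v ∧ Feq L q τ (chk o w))
    (by (repeat' (with_reducible first | apply pf_chk | apply pd_Big | apply pd_Ord | apply pd_Fmem | apply pd_Feq | apply pd_Tr | apply pd_Ind | apply pf_succ | apply pf_funs | apply pf_prod | apply pf_lam | apply pd_Fn | apply pf_app | apply pf_ran | apply pf_dom | apply PF.img | apply PF.pow | apply PD.sub | apply PF.adj | apply PF.un | apply PF.sUn | apply PF.op | apply PF.pr | apply PF.sep | exact PF.var _ | exact PF.const _ | apply PD.eq | apply PD.mem | apply PD.not | apply PD.iff |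 apply PD.or | apply PD.and | apply PD.imp | apply PD.ex | apply PD.all | exact PD.const _ | assumption | refine PF.comp1 (F := _) (by assumption) ?_ | refine PF.comp2 (F := _) (by assumption) ?_ ?_ | refine PF.comp3 (F := _) (by assumption) ?_ ?_ ?_ | refine PD.app1 (R := _) (by assumption) ?_ | refine PD.app2 (R := _) (by assumption) ?_ ?_ | refine PD.app3 (R := _) (by assumption) ?_ ?_ ?_ | refine PD.app4 (R := _) (by assumption) ?_ ?_ ?_ ?_))) hp (by
      intro q hq
      obtain ⟨r, w, s, e1, e2, e3, e4⟩ := h q hq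
      obtain ⟨-, w', hw', rfl⟩ := op_mem_chk.1 e2
      exact ⟨r, e1, w', hw', e4⟩)
  exact ⟨w, hw, val_eq.2 ⟨r, hr, h'⟩⟩

theorem mem_jj_iff (hG : IsGeneric P L o G) {y : Ext hG} {v : M} :
    SetStr.mem y (jj hG v) ↔ ∃ u, SetStr.mem u v ∧ y = jj hG u := by
  refine ⟨jj_trans hG, ?_⟩
  rintro ⟨u, hu, rfl⟩
  exact (jj_mem hG).2 hu

theorem jj_Ord (hG : IsGeneric P L o G) {x : M} : Ord (jj hG x) ↔ Ord x := by
  constructor
  · rintro ⟨h1, h2⟩
    refine ⟨fun y hy z hz => ?_, fun y hy z hz w hw => ?_⟩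
    · exact (jj_mem hG).1 (h1 _ ((jj_mem hG).2 hy) _ ((jj_mem hG).2 hz))
    · exact (jj_mem hG).1 (h2 _ ((jj_mem hG).2 hy) _ ((jj_mem hG).2 hz) _ ((jj_mem hG).2 hw))
  · rintro ⟨h1, h2⟩
    refine ⟨fun y hy z hz => ?_, fun y hy z hz w hw => ?_⟩
    · obtain ⟨y', hy', rfl⟩ := jj_trans hG hy
      obtain ⟨z', hz', rfl⟩ := jj_trans hG hz
      exact (jj_mem hG).2 (h1 _ hy' _ hz')
    · obtain ⟨y', hy', rfl⟩ := jj_trans hG hy
      obtain ⟨z', hz', rfl⟩ := jj_trans hG hz
      obtain ⟨w', hw', rfl⟩ := jj_trans hG hw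
      exact (jj_mem hG).2 (h2 _ hy' _ hz' _ hw')

/-- `M` and `M[G]` have the same ordinals. -/
theorem ord_eq_jj (hG : IsGeneric P L o G) [IsZF (Ext hG)] {α : Ext hG} (hα : Ord α) :
    ∃ x, Ord x ∧ α = jj hG x := by
  by_contra hcon
  have hne : ∀ x, α ≠ jj hG x := by
    rintro x rfl
    exact hcon ⟨x, (jj_Ord hG).1 hα, rfl⟩
  obtain ⟨τ, rfl⟩ := val_surj hG α
  obtain ⟨β, hβ, h⟩ := exists_ord_not_forced hG.forcing τ
  rcases hα.tri ((jj_Ord hG).2 hβ) with h1 | h1 | h1
  · obtain ⟨u, -, hu⟩ := jj_trans hG h1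
    exact hne u hu
  · exact hne β h1
  · obtain ⟨p, hp, h1⟩ := val_mem.1 h1
    obtain ⟨q, w, s, e1, e2, e3, e4⟩ := h1.exists hG.forcing (hG.sub p hp)
    exact h w s q e2 (hG.forcing.fld _ _ e1).1 e4

/-- The name `{(check x, p) | (x, p) ∈ A}`. -/
noncomputable def nm (o A : M) : M :=
  sep (prod (img (fun x => chk o x) (dom A)) (ran A)) (fun z => ∃ x p, SetStr.mem (op x p) A ∧ z = op (chk o x) p)

theorem mem_nm {o A z : M} : SetStr.mem z (nm o A) ↔ ∃ x p, SetStr.mem (op x p) A ∧ z = op (chk o x) p := by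
  unfold nm
  rw [mem_sep (by (repeat' (with_reducible first | apply pf_chk | apply pd_Big | apply pd_Ord | apply pd_Fmem | apply pd_Feq | apply pd_Tr | apply pd_Ind | apply pf_succ | apply pf_funs | apply pf_prod | apply pf_lam | apply pd_Fn | apply pf_app | apply pf_ran | apply pf_dom | apply PF.img | apply PF.pow | apply PD.sub | apply PF.adj | apply PF.un | apply PF.sUn | apply PF.op | apply PF.pr | apply PF.sep | exact PF.var _ | exact PF.const _ | apply PD.eq | apply PD.mem | apply PD.not | apply PD.iff | apply PD.or | apply PD.and | apply PD.imp | apply PD.ex | apply PD.all | exact PD.const _ | assumption | refine PF.comp1 (F := _) (by assumption) ?_ | refine PF.comp2 (F := _) (by assumption) ?_ ?_ | refine PF.comp3 (F := _) (by assumption) ?_ ?_ ?_ | refine PD.app1 (R := _) (by assumption) ?_ | refine PD.app2 (R := _) (by assumption) ?_ ?_ | refine PD.app3 (R := _) (by assumption) ?_ ?_ ?_ | refine PD.app4 (R := _) (by assumption) ?_ ?_ ?_ ?_)))]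
  refine ⟨fun h => h.2, fun h => ⟨?_, h⟩⟩
  obtain ⟨x, p, hA, rfl⟩ := h
  rw [op_mem_prod, mem_img (by (repeat' (with_reducible first | apply pf_chk | apply pd_Big | apply pd_Ord | apply pd_Fmem | apply pd_Feq | apply pd_Tr | apply pd_Ind | apply pf_succ | apply pf_funs | apply pf_prod | apply pf_lam | apply pd_Fn | apply pf_app | apply pf_ran | apply pf_dom | apply PF.img | apply PF.pow | apply PD.sub | apply PF.adj | apply PF.un | apply PF.sUn | apply PF.op | apply PF.pr | apply PF.sep | exact PF.var _ | exact PF.const _ | apply PD.eq | apply PD.mem | apply PD.not | apply PD.iff | apply PD.or | apply PD.and | apply PD.imp | apply PD.ex | apply PD.all | exact PD.const _ | assumption | refine PF.comp1 (F := _) (by assumption) ?_ | refine PF.comp2 (F := _) (by assumption) ?_ ?_ | refine PF.comp3 (F := _) (by assumption) ?_ ?_ ?_ | refine PD.app1 (R := _) (by assumption) ?_ | refine PD.app2 (R := _) (by assumption) ?_ ?_ | refine PD.app3 (R := _) (by assumption) ?_ ?_ ?_ | refine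 PD.app4 (R := _) (by assumption) ?_ ?_ ?_ ?_))), mem_ran]
  exact ⟨⟨x, mem_dom.2 ⟨p, hA⟩, rfl⟩, x, hA⟩

/-- The value of the name `nm o A`: all `x` with `(x, p) ∈ A` for some `p` in `G`. -/
theorem mem_val_nm (hG : IsGeneric P L o G) {A : M} {y : Ext hG} :
    SetStr.mem y (val hG (nm o A)) ↔ ∃ x p, SetStr.mem (op x p) A ∧ p ∈ G ∧ y = jj hG x := by
  constructor
  · intro h
    obtain ⟨τ, rfl⟩ := val_surj hG y
    obtain ⟨p, hp, h⟩ := val_mem.1 h
    obtain ⟨r, hr, -, x, s, h1, h2, h3⟩ := hG.meets_below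
      (D := fun q => ∃ x s, SetStr.mem (op x s) A ∧ SetStr.mem (op q s) L ∧ Feq L q τ (chk o x))
      (by (repeat' (with_reducible first | apply pf_chk | apply pd_Big | apply pd_Ord | apply pd_Fmem | apply pd_Feq | apply pd_Tr | apply pd_Ind | apply pf_succ | apply pf_funs | apply pf_prod | apply pf_lam | apply pd_Fn | apply pf_app | apply pf_ran | apply pf_dom | apply PF.img | apply PF.pow | apply PD.sub | apply PF.adj | apply PF.un | apply PF.sUn | apply PF.op | apply PF.pr | apply PF.sep | exact PF.var _ | exact PF.const _ | apply PD.eq | apply PD.mem | apply PD.not | apply PD.iff | apply PD.or | apply PD.and | apply PD.imp | apply PD.ex | apply PD.all | exact PD.const _ | assumption | refine PF.comp1 (F := _) (by assumption) ?_ | refine PF.comp2 (F := _) (by assumption) ?_ ?_ | refine PF.comp3 (F := _) (by assumption) ?_ ?_ ?_ | refine PD.app1 (R := _) (by assumption) ?_ | refine PD.app2 (R := _) (by assumption) ?_ ?_ | refine PD.app3 (R := _) (by assumption) ?_ ?_ ?_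 | refine PD.app4 (R := _) (by assumption) ?_ ?_ ?_ ?_))) hp (by
        intro q hq
        obtain ⟨r, w, s, e1, e2, e3, e4⟩ := h q hq
        obtain ⟨x, s', h1, h2⟩ := mem_nm.1 e2
        rw [op_inj] at h2
        obtain ⟨rfl, rfl⟩ := h2
        exact ⟨r, e1, x, _, h1, e3, e4⟩)
    exact ⟨x, s, h1, hG.up _ _ hr h2, val_eq.2 ⟨r, hr, h3⟩⟩
  · rintro ⟨x, p, h1, h2, rfl⟩
    refine val_mem.2 ⟨p, h2, Fmem.of_mem hG.forcing (mem_nm.2 ⟨x, p, h1, rfl⟩) ?_⟩
    exact hG.forcing.refl p (hG.sub p h2)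

/-- A set `g` of `M[G]` with `jj p ∈ g ↔ p ∈ G`. -/
theorem exists_gen (hG : IsGeneric P L o G) :
    ∃ g : Ext hG, ∀ y, SetStr.mem y g ↔ ∃ p, p ∈ G ∧ y = jj hG p := by
  refine ⟨val hG (nm o (lam (fun p => p) P)), fun y => ?_⟩
  rw [mem_val_nm]
  constructor
  · rintro ⟨x, p, h1, h2, rfl⟩
    rw [mem_lam (by (repeat' (with_reducible first | apply pf_chk | apply pd_Big | apply pd_Ord | apply pd_Fmem | apply pd_Feq | apply pd_Tr | apply pd_Ind | apply pf_succ | apply pf_funs | apply pf_prod | apply pf_lam | apply pd_Fn | apply pf_app | apply pf_ran | apply pf_dom | apply PF.img | apply PF.pow | apply PD.sub | apply PF.adj | apply PF.un | apply PF.sUn | apply PF.op | apply PF.pr | apply PF.sep | exact PF.var _ | exact PF.const _ | apply PD.eq | apply PD.mem | apply PD.not | apply PD.iff | apply PD.or | apply PD.and | apply PD.imp | apply PD.ex | apply PD.all | exact PD.const _ | assumption | refine PF.comp1 (F := _) (by assumption) ?_ | refine PF.comp2 (F := _) (by assumption)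 ?_ ?_ | refine PF.comp3 (F := _) (by assumption) ?_ ?_ ?_ | refine PD.app1 (R := _) (by assumption) ?_ | refine PD.app2 (R := _) (by assumption) ?_ ?_ | refine PD.app3 (R := _) (by assumption) ?_ ?_ ?_ | refine PD.app4 (R := _) (by assumption) ?_ ?_ ?_ ?_)))] at h1
    obtain ⟨x', hx', h1⟩ := h1
    rw [op_inj] at h1
    obtain ⟨rfl, rfl⟩ := h1
    exact ⟨_, h2, rfl⟩
  · rintro ⟨p, hp, rfl⟩
    exact ⟨p, p, (mem_lam (by (repeat' (with_reducible first | apply pf_chk | apply pd_Big | apply pd_Ord | apply pd_Fmem | apply pd_Feq | apply pd_Tr | apply pd_Ind | apply pf_succ | apply pf_funs | apply pf_prod | apply pf_lam | apply pd_Fn | apply pf_app | apply pf_ran | apply pf_dom | apply PF.img | apply PF.pow | apply PD.sub | apply PF.adj | apply PF.un | apply PF.sUn | apply PF.op | apply PF.pr | apply PF.sep | exact PF.var _ | exact PF.const _ | apply PD.eq | apply PD.mem | apply PD.not | apply PD.iff | apply PD.or | apply PD.and | apply PD.imp | apply PD.ex | apply PD.all | exact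 PD.const _ | assumption | refine PF.comp1 (F := _) (by assumption) ?_ | refine PF.comp2 (F := _) (by assumption) ?_ ?_ | refine PF.comp3 (F := _) (by assumption) ?_ ?_ ?_ | refine PD.app1 (R := _) (by assumption) ?_ | refine PD.app2 (R := _) (by assumption) ?_ ?_ | refine PD.app3 (R := _) (by assumption) ?_ ?_ ?_ | refine PD.app4 (R := _) (by assumption) ?_ ?_ ?_ ?_)))).2 ⟨p, hG.sub p hp, rfl⟩, hp, rfl⟩

end emb

end GA
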