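import Pool.Agent.GA.FName
import Pool.Agent.GA.Fc

/-!
# The Cohen poset: finite partial functions from `κ × ω` to `2`, and `κ` distinct reals
-/

universe u

namespace GA

variable {M : Type u} [SetStr M] [IsZF M]

/-- The set `{0, 1}`. -/
noncomputable def tw2 : M := pr emp (succ emp)

theorem mem_tw2 {x : M} : SetStr.mem x tw2 ↔ x = emp ∨ x = succ emp := mem_pr

theorem tw2_sub_om {x : M} (h : SetStr.mem x tw2) : SetStr.mem x om := by
  rcases mem_tw2.1 h with rfl | rfl
  · exact emp_mem_om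
  · exact succ_mem_om emp_mem_om

theorem emp_ne_succ (x : M) : (emp : M) ≠ succ x := by
  intro h
  have : SetStr.mem x (emp : M) := by
    rw [h]
    simp
  exact not_mem_emp x this

/-- The conditions of Cohen forcing. -/
noncomputable def cohP (κ : M) : M := pfin (prod κ om) tw2

/-- The order of Cohen forcing: reverse inclusion. -/
noncomputable def cohL (κ : M) : M :=
  sep (prod (cohP κ) (cohP κ)) (fun z => ∃ q p, z = op q p ∧ GA.sub p q)

theorem mem_cohP {κ p : M} : SetStr.mem p (cohP κ) ↔ GA.sub p (prod (prod κ om) tw2) ∧ Fini p ∧ Fun1 p := mem_pfin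

theorem op_mem_cohL {κ q p : M} : SetStr.mem (op q p) (cohL κ) ↔ SetStr.mem q (cohP κ) ∧ SetStr.mem p (cohP κ) ∧ GA.sub p q := by
  unfold cohL
  rw [mem_sep (by (repeat' (with_reducible first | apply pd_Fmem | apply pd_Feq | apply pd_WOd | apply pf_pfin | apply pd_Fun1 | apply pf_hh | apply pd_Spr | apply pd_Inj | apply pf_har | apply pd_Le | apply pf_fins | apply pf_card | apply pd_Bij | apply pd_Fini | apply pd_Big | apply pd_Ord | apply pd_Tr | apply pd_Ind | apply pf_succ | apply pf_funs | apply pf_prod | apply pf_lam | apply pd_Fn | apply pf_app | apply pf_ran | apply pf_dom | apply PF.img | apply PF.pow | apply PD.sub | apply PF.adj | apply PF.un | apply PF.sUn | apply PF.op | apply PF.pr | apply PF.sep | exact PF.var _ | exact PF.const _ | apply PD.eq | apply PD.mem | apply PD.not | apply PD.iff | apply PD.or | apply PD.and | apply PD.imp | apply PD.ex | apply PD.all | exact PD.const _ | assumption | refine PF.comp1 (F := _) (by assumption) ?_ | refine PF.comp2 (F := _) (by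 assumption) ?_ ?_ | refine PF.comp3 (F := _) (by assumption) ?_ ?_ ?_ | refine PD.app1 (R := _) (by assumption) ?_ | refine PD.app2 (R := _) (by assumption) ?_ ?_ | refine PD.app3 (R := _) (by assumption) ?_ ?_ ?_ | refine PD.app4 (R := _) (by assumption) ?_ ?_ ?_ ?_))), op_mem_prod]
  constructor
  · rintro ⟨⟨h1, h2⟩, q', p', h, h'⟩
    rw [op_inj] at h
    obtain ⟨rfl, rfl⟩ := h
    exact ⟨h1, h2, h'⟩
  · rintro ⟨h1, h2, h3⟩
    exact ⟨⟨h1, h2⟩, q, p, rfl, h3⟩

theorem emp_mem_cohP (κ : M) : SetStr.mem emp (cohP κ) :=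
  mem_cohP.2 ⟨fun z hz => (not_mem_emp z hz).elim, Fini.emp,
    fun x y z h _ => (not_mem_emp _ h).elim⟩

theorem isForcing_coh (κ : M) : IsForcing (cohP κ) (cohL κ) emp where
  fld := fun q p h => ⟨(op_mem_cohL.1 h).1, (op_mem_cohL.1 h).2.1⟩
  refl := fun p hp => op_mem_cohL.2 ⟨hp, hp, fun _ h => h⟩
  trans := fun r q p h1 h2 => by
    rw [op_mem_cohL] at *
    exact ⟨h1.1, h2.2.1, fun z hz => h1.2.2 z (h2.2.2 z hz)⟩
  top_mem := emp_mem_cohP κ
  le_top := fun p hp => op_mem_cohL.2 ⟨hp, emp_mem_cohP κ, fun z hz => (not_mem_emp z hz).elim⟩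

/-- The union of two compatible conditions is a condition. -/
theorem un_mem_cohP {κ p q : M} (hp : SetStr.mem p (cohP κ)) (hq : SetStr.mem q (cohP κ)) (h : Fun1 (un p q)) :
    SetStr.mem (un p q) (cohP κ) := by
  rw [mem_cohP] at *
  refine ⟨fun z hz => ?_, hp.2.1.un hq.2.1, h⟩
  rw [mem_un] at hz
  rcases hz with hz | hz
  · exact hp.1 z hz
  · exact hq.1 z hz

theorem coh_compat {κ p q : M} (hp : SetStr.mem p (cohP κ)) (hq : SetStr.mem q (cohP κ)) (h : Fun1 (un p q)) :
    ∃ r, SetStr.mem (op r p) (cohL κ) ∧ SetStr.mem (op r q) (cohL κ) :=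
  ⟨un p q, op_mem_cohL.2 ⟨un_mem_cohP hp hq h, hp, fun z hz => by rw [mem_un]; exact Or.inl hz⟩,
    op_mem_cohL.2 ⟨un_mem_cohP hp hq h, hq, fun z hz => by rw [mem_un]; exact Or.inr hz⟩⟩

/-- Extension of a condition by a value at a new point. -/
theorem adj_mem_cohP {κ p x e : M} (hp : SetStr.mem p (cohP κ)) (hx : SetStr.mem x (prod κ om)) (he : SetStr.mem e tw2)
    (h : ¬ SetStr.mem x (dom p)) : SetStr.mem (adj p (op x e)) (cohP κ) := by
  rw [mem_cohP] at *
  refine ⟨fun z hz => ?_, hp.2.1.adj _, ?_⟩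
  · rw [mem_adj] at hz
    rcases hz with hz | rfl
    · exact hp.1 z hz
    · exact op_mem_prod.2 ⟨hx, he⟩
  · intro a b c h1 h2
    rw [mem_adj, op_inj] at h1 h2
    rcases h1 with h1 | ⟨rfl, rfl⟩
    · rcases h2 with h2 | ⟨rfl, rfl⟩
      · exact hp.2.2 a b c h1 h2
      · exact (h (mem_dom.2 ⟨b, h1⟩)).elim
    · rcases h2 with h2 | ⟨-, rfl⟩
      · exact (h (mem_dom.2 ⟨c, h2⟩)).elim
      · rfl

theorem adj_le_coh {κ p x e : M} (hp : SetStr.mem p (cohP κ)) (hx : SetStr.mem x (prod κ om)) (he : SetStr.mem e tw2)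
    (h : ¬ SetStr.mem x (dom p)) : SetStr.mem (op (adj p (op x e)) p) (cohL κ) :=
  op_mem_cohL.2 ⟨adj_mem_cohP hp hx he h, hp, fun z hz => by rw [mem_adj]; exact Or.inl hz⟩

/-- A finite set does not contain all natural numbers. -/
theorem exists_om_bound {a : M} (ha : Fini a) :
    ∃ k, SetStr.mem k om ∧ ∀ n, SetStr.mem n a → SetStr.mem n om → SetStr.mem n k := by
  refine fini_ind (P := fun a => ∃ k, SetStr.mem k om ∧ ∀ n, SetStr.mem n a → SetStr.mem n om → SetStr.mem n k) (by (repeat' (with_reducible first | apply pd_Fmem | apply pd_Feq | apply pd_WOd | apply pf_pfin | apply pd_Fun1 | apply pf_hh | apply pd_Spr | apply pd_Inj | apply pf_har | apply pd_Le | apply pf_fins | apply pf_card | apply pd_Bij | apply pd_Fini | apply pd_Big | apply pd_Ord | apply pd_Tr | apply pd_Ind | apply pf_succ | apply pf_funs | apply pf_prod | apply pf_lam | apply pd_Fn | apply pf_app | apply pf_ran | apply pf_dom | apply PF.img | apply PF.pow | apply PD.sub | apply PF.adj | apply PF.un | apply PF.sUn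 | apply PF.op | apply PF.pr | apply PF.sep | exact PF.var _ | exact PF.const _ | apply PD.eq | apply PD.mem | apply PD.not | apply PD.iff | apply PD.or | apply PD.and | apply PD.imp | apply PD.ex | apply PD.all | exact PD.const _ | assumption | refine PF.comp1 (F := _) (by assumption) ?_ | refine PF.comp2 (F := _) (by assumption) ?_ ?_ | refine PF.comp3 (F := _) (by assumption) ?_ ?_ ?_ | refine PD.app1 (R := _) (by assumption) ?_ | refine PD.app2 (R := _) (by assumption) ?_ ?_ | refine PD.app3 (R := _) (by assumption) ?_ ?_ ?_ | refine PD.app4 (R := _) (by assumption) ?_ ?_ ?_ ?_))) ?_ ?_ a ha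
  · exact ⟨emp, emp_mem_om, fun n hn => (not_mem_emp n hn).elim⟩
  · rintro a y - ⟨k, hk, h⟩
    by_cases hy : SetStr.mem y om
    · rcases (Ord.of_mem_om hk).tri (Ord.of_mem_om hy) with h1 | h1 | h1
      · refine ⟨succ y, succ_mem_om hy, fun n hn hn' => ?_⟩
        rw [mem_adj] at hn
        rw [mem_succ]
        rcases hn with hn | rfl
        · exact Or.inl ((Ord.of_mem_om hy).trans h1 (h n hn hn'))
        · exact Or.inr rfl
      · refine ⟨succ k, succ_mem_om hk, fun n hn hn' => ?_⟩
        rw [mem_adj] at hn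
        rw [mem_succ]
        rcases hn with hn | rfl
        · exact Or.inl (h n hn hn')
        · exact Or.inr h1.symm
      · refine ⟨k, hk, fun n hn hn' => ?_⟩
        rw [mem_adj] at hn
        rcases hn with hn | rfl
        · exact h n hn hn'
        · exact h1
    · refine ⟨k, hk, fun n hn hn' => ?_⟩
      rw [mem_adj] at hn
      rcases hn with hn | rfl
      · exact h n hn hn'
      · exact (hy hn').elim

theorem exists_om_not_mem {a : M} (ha : Fini a) : ∃ n, SetStr.mem n om ∧ ¬ SetStr.mem n a := by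
  obtain ⟨k, hk, h⟩ := exists_om_bound ha
  exact ⟨k, hk, fun hka => not_mem_self k (h k hka hk)⟩

/-- The name of the generic function from `κ × ω` to `2`. -/
noncomputable def cohA (κ : M) : M :=
  sep (prod (cohP κ) (prod (prod κ om) om)) (fun z => ∃ p w, z = op p w ∧ SetStr.mem w p)

theorem op_mem_cohA {κ p w : M} : SetStr.mem (op p w) (cohA κ) ↔ SetStr.mem p (cohP κ) ∧ SetStr.mem w p := by
  unfold cohA
  rw [mem_sep (by (repeat' (with_reducible first | apply pd_Fmem | apply pd_Feq | apply pd_WOd | apply pf_pfin | apply pd_Fun1 | apply pf_hh | apply pd_Spr | apply pd_Inj | apply pf_har | apply pd_Le | apply pf_fins | apply pf_card | apply pd_Bij | apply pd_Fini | apply pd_Big | apply pd_Ord | apply pd_Tr | apply pd_Ind | apply pf_succ | apply pf_funs | apply pf_prod | apply pf_lam | apply pd_Fn | apply pf_app | apply pf_ran | apply pf_dom | apply PF.img | apply PF.pow | apply PD.sub | apply PF.adj | apply PF.un | apply PF.sUn | apply PF.op | apply PF.pr | apply PF.sep | exact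 PF.var _ | exact PF.const _ | apply PD.eq | apply PD.mem | apply PD.not | apply PD.iff | apply PD.or | apply PD.and | apply PD.imp | apply PD.ex | apply PD.all | exact PD.const _ | assumption | refine PF.comp1 (F := _) (by assumption) ?_ | refine PF.comp2 (F := _) (by assumption) ?_ ?_ | refine PF.comp3 (F := _) (by assumption) ?_ ?_ ?_ | refine PD.app1 (R := _) (by assumption) ?_ | refine PD.app2 (R := _) (by assumption) ?_ ?_ | refine PD.app3 (R := _) (by assumption) ?_ ?_ ?_ | refine PD.app4 (R := _) (by assumption) ?_ ?_ ?_ ?_))), op_mem_prod]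
  constructor
  · rintro ⟨⟨h1, h2⟩, p', w', h, h'⟩
    rw [op_inj] at h
    obtain ⟨rfl, rfl⟩ := h
    exact ⟨h1, h'⟩
  · rintro ⟨h1, h2⟩
    refine ⟨⟨h1, ?_⟩, p, w, rfl, h2⟩
    obtain ⟨x, hx, y, hy, rfl⟩ := mem_prod.1 ((mem_cohP.1 h1).1 w h2)
    exact op_mem_prod.2 ⟨hx, tw2_sub_om hy⟩

theorem cohA_fname (κ : M) : FName (cohP κ) (cohL κ) emp (prod κ om) om (cohA κ) := by
  have hF := isForcing_coh κ
  have hin : ∀ p x ξ, SetStr.mem p (cohP κ) → SetStr.mem (op x ξ) p → SetStr.mem x (prod κ om) ∧ SetStr.mem ξ tw2 := by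
    intro p x ξ hp h
    exact op_mem_prod.1 ((mem_cohP.1 hp).1 _ h)
  refine ⟨hF.top_mem, ?_, ?_, ?_, ?_, ?_⟩
  · intro p x ξ h
    rw [op_mem_cohA] at h
    have := hin p x ξ h.1 h.2
    exact ⟨hF.le_top p h.1, this.1, tw2_sub_om this.2⟩
  · intro p q x ξ h hq
    rw [op_mem_cohA] at h ⊢
    rw [op_mem_cohL] at hq
    exact ⟨hq.1, hq.2.2 _ h.2⟩
  · intro p x ξ hp h
    have hp' : SetStr.mem p (cohP κ) := (hF.fld _ _ hp).1
    rw [op_mem_cohA]
    refine ⟨hp', ?_⟩
    obtain ⟨r, hr, hr'⟩ := h p (hF.refl p hp')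
    rw [op_mem_cohA] at hr'
    obtain ⟨hx, hξ⟩ := hin r x ξ hr'.1 hr'.2
    by_cases hd : SetStr.mem x (dom p)
    · obtain ⟨η, hη⟩ := mem_dom.1 hd
      have h1 : SetStr.mem (op x η) r := (op_mem_cohL.1 hr).2.2 _ hη
      have h2 := (mem_cohP.1 hr'.1).2.2 x ξ η hr'.2 h1
      rw [h2]
      exact hη
    · exfalso
      have hcontra : ∀ e, SetStr.mem e tw2 → ξ = e := by
        intro e he
        obtain ⟨r', h1, h2⟩ := h _ (adj_le_coh hp' hx he hd)
        rw [op_mem_cohA] at h2
        have h3 : SetStr.mem (op x e) r' := (op_mem_cohL.1 h1).2.2 _ (by rw [mem_adj]; exact Or.inr rfl)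
        exact (mem_cohP.1 h2.1).2.2 x ξ e h2.2 h3
      have e1 := hcontra emp (mem_tw2.2 (Or.inl rfl))
      have e2 := hcontra (succ emp) (mem_tw2.2 (Or.inr rfl))
      exact emp_ne_succ emp (e1.symm.trans e2)
  · intro p x ξ η h1 h2
    rw [op_mem_cohA] at h1 h2
    exact (mem_cohP.1 h1.1).2.2 x ξ η h1.2 h2.2
  · intro p x hp hx
    have hp' : SetStr.mem p (cohP κ) := (hF.fld _ _ hp).1
    by_cases hd : SetStr.mem x (dom p)
    · obtain ⟨η, hη⟩ := mem_dom.1 hd
      exact ⟨p, η, hF.refl p hp', op_mem_cohA.2 ⟨hp', hη⟩⟩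
    · have he : SetStr.mem (emp : M) tw2 := mem_tw2.2 (Or.inl rfl)
      refine ⟨_, emp, adj_le_coh hp' hx he hd, op_mem_cohA.2 ⟨adj_mem_cohP hp' hx he hd, ?_⟩⟩
      rw [mem_adj]
      exact Or.inr rfl

/-- The Cohen poset adds `κ` distinct reals. -/
theorem lowP_coh (κ : M) : LowP (cohP κ) (cohL κ) emp κ := by
  have hF := isForcing_coh κ
  refine ⟨cohA κ, cohA_fname κ, ?_⟩
  intro b c hb hc hbc p hp
  -- a natural number `n` such that neither `(b, n)` nor `(c, n)` is in the domain of `p`
  have hfin : Fini (ran (dom p)) := by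
    have h1 : Fini (img (fun w => sUn (sep (ran (dom p)) (fun n => ∃ a y, w = op (op a n) y))) p) :=
      (mem_cohP.1 hp).2.1.img (by (repeat' (with_reducible first | apply pd_Fmem | apply pd_Feq | apply pd_WOd | apply pf_pfin | apply pd_Fun1 | apply pf_hh | apply pd_Spr | apply pd_Inj | apply pf_har | apply pd_Le | apply pf_fins | apply pf_card | apply pd_Bij | apply pd_Fini | apply pd_Big | apply pd_Ord | apply pd_Tr | apply pd_Ind | apply pf_succ | apply pf_funs | apply pf_prod | apply pf_lam | apply pd_Fn | apply pf_app | apply pf_ran | apply pf_dom | apply PF.img | apply PF.pow | apply PD.sub | apply PF.adj | apply PF.un | apply PF.sUn | apply PF.op | apply PF.pr | apply PF.sep | exact PF.var _ | exact PF.const _ | apply PD.eq | apply PD.mem | apply PD.not | apply PD.iff | apply PD.or | apply PD.and | apply PD.imp | apply PD.ex | apply PD.all | exact PD.const _ | assumption | refine PF.comp1 (F := _) (by assumption) ?_ | refine PF.comp2 (F := _) (by assumption) ?_ ?_ | refine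 PF.comp3 (F := _) (by assumption) ?_ ?_ ?_ | refine PD.app1 (R := _) (by assumption) ?_ | refine PD.app2 (R := _) (by assumption) ?_ ?_ | refine PD.app3 (R := _) (by assumption) ?_ ?_ ?_ | refine PD.app4 (R := _) (by assumption) ?_ ?_ ?_ ?_)))
    refine h1.sub (fun n hn => ?_)
    obtain ⟨a, ha⟩ := mem_ran.1 hn
    obtain ⟨y, hy⟩ := mem_dom.1 ha
    rw [mem_img (by (repeat' (with_reducible first | apply pd_Fmem | apply pd_Feq | apply pd_WOd | apply pf_pfin | apply pd_Fun1 | apply pf_hh | apply pd_Spr | apply pd_Inj | apply pf_har | apply pd_Le | apply pf_fins | apply pf_card | apply pd_Bij | apply pd_Fini | apply pd_Big | apply pd_Ord | apply pd_Tr | apply pd_Ind | apply pf_succ | apply pf_funs | apply pf_prod | apply pf_lam | apply pd_Fn | apply pf_app | apply pf_ran | apply pf_dom | apply PF.img | apply PF.pow | apply PD.sub | apply PF.adj | apply PF.un | apply PF.sUn | apply PF.op | apply PF.pr | apply PF.sep | exact PF.var _ | exact PF.const _ | apply PD.eq | apply PD.mem | apply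 PD.not | apply PD.iff | apply PD.or | apply PD.and | apply PD.imp | apply PD.ex | apply PD.all | exact PD.const _ | assumption | refine PF.comp1 (F := _) (by assumption) ?_ | refine PF.comp2 (F := _) (by assumption) ?_ ?_ | refine PF.comp3 (F := _) (by assumption) ?_ ?_ ?_ | refine PD.app1 (R := _) (by assumption) ?_ | refine PD.app2 (R := _) (by assumption) ?_ ?_ | refine PD.app3 (R := _) (by assumption) ?_ ?_ ?_ | refine PD.app4 (R := _) (by assumption) ?_ ?_ ?_ ?_)))]
    refine ⟨_, hy, ?_⟩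
    refine ext (fun z => ?_)
    rw [mem_sUn]
    constructor
    · intro hz
      refine ⟨n, ?_, hz⟩
      rw [mem_sep (by (repeat' (with_reducible first | apply pd_Fmem | apply pd_Feq | apply pd_WOd | apply pf_pfin | apply pd_Fun1 | apply pf_hh | apply pd_Spr | apply pd_Inj | apply pf_har | apply pd_Le | apply pf_fins | apply pf_card | apply pd_Bij | apply pd_Fini | apply pd_Big | apply pd_Ord | apply pd_Tr | apply pd_Ind | apply pf_succ | apply pf_funs | apply pf_prod | apply pf_lam | apply pd_Fn | apply pf_app | apply pf_ran | apply pf_dom | apply PF.img | apply PF.pow | apply PD.sub | apply PF.adj | apply PF.un | apply PF.sUn | apply PF.op | apply PF.pr | apply PF.sep | exact PF.var _ | exact PF.const _ | apply PD.eq | apply PD.mem | apply PD.not | apply PD.iff | apply PD.or | apply PD.and | apply PD.imp | apply PD.ex | apply PD.all | exact PD.const _ | assumption | refine PF.comp1 (F := _) (by assumption) ?_ | refine PF.comp2 (F := _) (by assumption) ?_ ?_ | refine PF.comp3 (F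 := _) (by assumption) ?_ ?_ ?_ | refine PD.app1 (R := _) (by assumption) ?_ | refine PD.app2 (R := _) (by assumption) ?_ ?_ | refine PD.app3 (R := _) (by assumption) ?_ ?_ ?_ | refine PD.app4 (R := _) (by assumption) ?_ ?_ ?_ ?_)))]
      exact ⟨hn, a, y, rfl⟩
    · rintro ⟨n', hn', hz⟩
      rw [mem_sep (by (repeat' (with_reducible first | apply pd_Fmem | apply pd_Feq | apply pd_WOd | apply pf_pfin | apply pd_Fun1 | apply pf_hh | apply pd_Spr | apply pd_Inj | apply pf_har | apply pd_Le | apply pf_fins | apply pf_card | apply pd_Bij | apply pd_Fini | apply pd_Big | apply pd_Ord | apply pd_Tr | apply pd_Ind | apply pf_succ | apply pf_funs | apply pf_prod | apply pf_lam | apply pd_Fn | apply pf_app | apply pf_ran | apply pf_dom | apply PF.img | apply PF.pow | apply PD.sub | apply PF.adj | apply PF.un | apply PF.sUn | apply PF.op | apply PF.pr | apply PF.sep | exact PF.var _ | exact PF.const _ | apply PD.eq | apply PD.mem | apply PD.not | apply PD.iff | apply PD.or | apply PD.and | apply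 PD.imp | apply PD.ex | apply PD.all | exact PD.const _ | assumption | refine PF.comp1 (F := _) (by assumption) ?_ | refine PF.comp2 (F := _) (by assumption) ?_ ?_ | refine PF.comp3 (F := _) (by assumption) ?_ ?_ ?_ | refine PD.app1 (R := _) (by assumption) ?_ | refine PD.app2 (R := _) (by assumption) ?_ ?_ | refine PD.app3 (R := _) (by assumption) ?_ ?_ ?_ | refine PD.app4 (R := _) (by assumption) ?_ ?_ ?_ ?_)))] at hn'
      obtain ⟨-, a', y', h'⟩ := hn'
      simp only [op_inj] at h'
      rw [h'.1.2]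
      exact hz
  obtain ⟨n, hn, hn'⟩ := exists_om_not_mem hfin
  have hb' : ¬ SetStr.mem (op b n) (dom p) := fun h => hn' (mem_ran.2 ⟨b, h⟩)
  have hc' : ¬ SetStr.mem (op c n) (dom p) := fun h => hn' (mem_ran.2 ⟨c, h⟩)
  have he : SetStr.mem (emp : M) tw2 := mem_tw2.2 (Or.inl rfl)
  have he' : SetStr.mem (succ emp : M) tw2 := mem_tw2.2 (Or.inr rfl)
  have h1 := adj_mem_cohP hp (op_mem_prod.2 ⟨hb, hn⟩) he hb'
  have h2 := adj_le_coh hp (op_mem_prod.2 ⟨hb, hn⟩) he hb'
  have hc2 : ¬ SetStr.mem (op c n) (dom (adj p (op (op b n) emp))) := by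
    intro h
    obtain ⟨y, hy⟩ := mem_dom.1 h
    rw [mem_adj] at hy
    rcases hy with hy | hy
    · exact hc' (mem_dom.2 ⟨y, hy⟩)
    · rw [op_inj, op_inj] at hy
      exact hbc hy.1.1.symm
  have h3 := adj_mem_cohP h1 (op_mem_prod.2 ⟨hc, hn⟩) he' hc2
  have h4 := adj_le_coh h1 (op_mem_prod.2 ⟨hc, hn⟩) he' hc2
  refine ⟨_, n, emp, succ emp, hF.trans _ _ _ h4 h2, hn, emp_ne_succ emp,
    op_mem_cohA.2 ⟨h3, ?_⟩, op_mem_cohA.2 ⟨h3, ?_⟩⟩
  · rw [mem_adj, mem_adj]
    exact Or.inl (Or.inr rfl)
  · rw [mem_adj]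
    exact Or.inr rfl

end GA
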