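import Pool.Agent.GA.Wod

/-!
# Forcings with finite types: the decision tree of a function name

`T` assigns to every condition of the forcing `P` a finite partial function from `K` to `Y` (its type),
and two conditions are compatible if the union of their types is a function.
-/

universe u

namespace GA

variable {M : Type u} [SetStr M] [IsZF M]

/-- A forcing with finite types.  `Ys` is an increasing sequence of finite sets with union `Y`. -/
structure Typed (P L K Y T Ys : M) : Prop where
  fn : Fn T P
  val : ∀ p, SetStr.mem p P → SetStr.mem (app T p) (pfin K Y)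
  comp : ∀ p q, SetStr.mem p P → SetStr.mem q P → Fun1 (un (app T p) (app T q)) →
    ∃ r, SetStr.mem (op r p) L ∧ SetStr.mem (op r q) L
  ys : Fn Ys om
  fin : ∀ j, SetStr.mem j om → Fini (app Ys j)
  incr : ∀ i j, SetStr.mem j om → SetStr.mem i j → GA.sub (app Ys i) (app Ys j)
  cover : ∀ y, SetStr.mem y Y ↔ ∃ j, SetStr.mem j om ∧ SetStr.mem y (app Ys j)

/-- MODULE da -/
theorem emp_mem_pfin (K Y : M) : SetStr.mem emp (pfin K Y) := by
  refine mem_pfin.2 ⟨fun z hz => (not_mem_emp z hz).elim, Fini.emp, ?_⟩
  intro x y z h _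
  exact (not_mem_emp _ h).elim

/-- MODULE da -/
theorem sub_mem_pfin {K Y q r : M} (hq : SetStr.mem q (pfin K Y)) (h : GA.sub r q) : SetStr.mem r (pfin K Y) := by
  obtain ⟨h1, h2, h3⟩ := mem_pfin.1 hq
  exact mem_pfin.2 ⟨fun z hz => h1 z (h z hz), h2.sub h,
    fun x y z hy hz => h3 x y z (h _ hy) (h _ hz)⟩

/-- MODULE da -/
theorem adj_mem_pfin {K Y r b y : M} (hr : SetStr.mem r (pfin K Y)) (hb : SetStr.mem b K) (hy : SetStr.mem y Y)
    (h : ∀ z, ¬ SetStr.mem (op b z) r) : SetStr.mem (adj r (op b y)) (pfin K Y) := by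
  obtain ⟨h1, h2, h3⟩ := mem_pfin.1 hr
  refine mem_pfin.2 ⟨?_, h2.adj _, ?_⟩
  · intro z hz
    rcases mem_adj.1 hz with hz | rfl
    · exact h1 z hz
    · exact op_mem_prod.2 ⟨hb, hy⟩
  · intro a u v hu hv
    rcases mem_adj.1 hu with e1 | e1
    · rcases mem_adj.1 hv with e2 | e2
      · exact h3 a u v e1 e2
      · rw [(op_inj.1 e2).1] at e1
        exact (h u e1).elim
    · rcases mem_adj.1 hv with e2 | e2
      · rw [(op_inj.1 e1).1] at e2
        exact (h v e2).elim
      · rw [(op_inj.1 e1).2, (op_inj.1 e2).2]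

/-- MODULE da.  Two finite functions whose union is not a function disagree somewhere. -/
theorem exists_disagree {K Y q r : M} (hq : SetStr.mem q (pfin K Y)) (hr : SetStr.mem r (pfin K Y))
    (h : ¬ Fun1 (un q r)) : ∃ b y z, SetStr.mem (op b y) q ∧ SetStr.mem (op b z) r ∧ y ≠ z := by
  by_contra hcon
  apply h
  intro x y z hy hz
  by_contra hyz
  rcases mem_un.1 hy with h1 | h1
  · rcases mem_un.1 hz with h2 | h2
    · exact hyz ((mem_pfin.1 hq).2.2 x y z h1 h2)
    · exact hcon ⟨x, y, z, h1, h2, hyz⟩
  · rcases mem_un.1 hz with h2 | h2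
    · exact hcon ⟨x, z, y, h2, h1, fun h => hyz h.symm⟩
    · exact hyz ((mem_pfin.1 hr).2.2 x y z h1 h2)

/-- MODULE db.  A finite subset of `Y` is contained in some `app Ys j`, `j` as large as desired. -/
theorem Typed.exists_bound {P L K Y T Ys : M} (h : Typed P L K Y T Ys) {Z k : M} (hZ : Fini Z)
    (hs : GA.sub Z Y) (hk : SetStr.mem k om) : ∃ j, SetStr.mem j om ∧ GA.sub Z (app Ys j) ∧ GA.sub k j := by
  refine fini_ind (P := fun Z => GA.sub Z Y → ∃ j, SetStr.mem j om ∧ GA.sub Z (app Ys j) ∧ GA.sub k j)
    (by (repeat' (with_reducible first | apply pd_maxR | apply pd_WOd | apply pf_pfin | apply pd_Fun1 | apply pf_hh | apply pd_Spr | apply pd_Inj | apply pf_har | apply pd_Le | apply pf_fins | apply pf_card | apply pd_Bij | apply pd_Fini | apply pd_Big | apply pd_Ord | apply pd_Tr | apply pd_Ind | apply pf_succ | apply pf_funs | apply pf_prod | apply pf_lam | apply pd_Fn | apply pf_app | apply pf_ran | apply pf_dom | apply PF.img | apply PF.pow | apply PD.sub | apply PF.adj | apply PF.un | apply PF.sUn | apply PF.op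 | apply PF.pr | apply PF.sep | exact PF.var _ | exact PF.const _ | apply PD.eq | apply PD.mem | apply PD.not | apply PD.iff | apply PD.or | apply PD.and | apply PD.imp | apply PD.ex | apply PD.all | exact PD.const _ | assumption | refine PF.comp1 (F := _) (by assumption) ?_ | refine PF.comp2 (F := _) (by assumption) ?_ ?_ | refine PF.comp3 (F := _) (by assumption) ?_ ?_ ?_ | refine PD.app1 (R := _) (by assumption) ?_ | refine PD.app2 (R := _) (by assumption) ?_ ?_ | refine PD.app3 (R := _) (by assumption) ?_ ?_ ?_ | refine PD.app4 (R := _) (by assumption) ?_ ?_ ?_ ?_))) ?_ ?_ Z hZ hs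
  · intro _
    exact ⟨k, hk, fun z hz => (not_mem_emp z hz).elim, fun z hz => hz⟩
  · intro a y _ ih hs
    obtain ⟨j, hj, h1, h2⟩ := ih (fun z hz => hs z (mem_adj.2 (Or.inl hz)))
    obtain ⟨i, hi, h3⟩ := (h.cover y).1 (hs y (mem_adj.2 (Or.inr rfl)))
    rcases (Ord.of_mem_om hi).sub_or_mem (Ord.of_mem_om hj) with h4 | h4
    · have h5 : GA.sub (app Ys i) (app Ys j) := by
        rcases ((Ord.of_mem_om hi).sub_iff (Ord.of_mem_om hj)).1 h4 with h6 | rfl
        · exact h.incr i j hj h6
        · exact fun z hz => hz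
      refine ⟨j, hj, ?_, h2⟩
      intro z hz
      rcases mem_adj.1 hz with hz | rfl
      · exact h1 z hz
      · exact h5 _ h3
    · refine ⟨i, hi, ?_, ?_⟩
      · intro z hz
        rcases mem_adj.1 hz with hz | rfl
        · exact h.incr j i hi h4 z (h1 z hz)
        · exact h3
      · intro z hz
        exact (Ord.of_mem_om hi).trans h4 (h2 z hz)

/-- The data of the decision tree of a function name `A` on `X × Lam` (`x` a point of `X`). -/
structure DD (M : Type u) [SetStr M] [IsZF M] where
  /-- the set `K` of coordinates -/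
  K : M
  /-- the set `Y` of values of types -/
  Y : M
  /-- the type function -/
  T : M
  /-- the finite pieces of `Y` -/
  Ys : M
  /-- a choice function for sets of pairs of types -/
  C : M
  /-- the values of the function name -/
  Lam : M
  /-- the function name -/
  A : M

namespace DD

variable (D : DD M)

/-- `q` is the type of a condition which forces the value at `x` to be `ξ`. -/
def V (x q ξ : M) : Prop := ∃ p, SetStr.mem (op p (op x ξ)) D.A ∧ app D.T p = q

theorem pd_V {x q ξ : (ℕ → M) → M} (hx : PF x) (hq : PF q) (hξ : PF ξ) :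
    PD (fun v => D.V (x v) (q v) (ξ v)) :=
  PD.app3 (R := fun x q ξ => D.V x q ξ) (by unfold V; (repeat' (with_reducible first | apply pd_maxR | apply pd_WOd | apply pf_pfin | apply pd_Fun1 | apply pf_hh | apply pd_Spr | apply pd_Inj | apply pf_har | apply pd_Le | apply pf_fins | apply pf_card | apply pd_Bij | apply pd_Fini | apply pd_Big | apply pd_Ord | apply pd_Tr | apply pd_Ind | apply pf_succ | apply pf_funs | apply pf_prod | apply pf_lam | apply pd_Fn | apply pf_app | apply pf_ran | apply pf_dom | apply PF.img | apply PF.pow | apply PD.sub | apply PF.adj | apply PF.un | apply PF.sUn | apply PF.op | apply PF.pr | apply PF.sep | exact PF.var _ | exact PF.const _ | apply PD.eq | apply PD.mem | apply PD.not | apply PD.iff | apply PD.or | apply PD.and | apply PD.imp | apply PD.ex | apply PD.all | exact PD.const _ | assumption | refine PF.comp1 (F := _) (by assumption) ?_ | refine PF.comp2 (F := _) (by assumption) ?_ ?_ | refine PF.comp3 (F := _) (by assumption) ?_ ?_ ?_ | refine PD.app1 (R := _) (by assumption) ?_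 | refine PD.app2 (R := _) (by assumption) ?_ ?_ | refine PD.app3 (R := _) (by assumption) ?_ ?_ ?_ | refine PD.app4 (R := _) (by assumption) ?_ ?_ ?_ ?_))) hx hq hξ


/-- Two types above `r` decide differently. -/
def Fork (x r : M) : Prop :=
  ∃ q q' ξ ξ', GA.sub r q ∧ GA.sub r q' ∧ D.V x q ξ ∧ D.V x q' ξ' ∧ ξ ≠ ξ'

theorem pd_Fork {x r : (ℕ → M) → M} (hx : PF x) (hr : PF r) :
    PD (fun v => D.Fork (x v) (r v)) :=
  PD.app2 (R := fun x r => D.Fork x r) (by unfold Fork; (repeat' (with_reducible first | apply DD.pd_V | apply pd_maxR | apply pd_WOd | apply pf_pfin | apply pd_Fun1 | apply pf_hh | apply pd_Spr | apply pd_Inj | apply pf_har | apply pd_Le | apply pf_fins | apply pf_card | apply pd_Bij | apply pd_Fini | apply pd_Big | apply pd_Ord | apply pd_Tr | apply pd_Ind | apply pf_succ | apply pf_funs | apply pf_prod | apply pf_lam | apply pd_Fn | apply pf_app | apply pf_ran | apply pf_dom | apply PF.img | apply PF.pow | apply PD.sub | apply PF.adj | apply PF.un | apply PF.sUn | apply PF.op | apply PF.pr | apply PF.sep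 | exact PF.var _ | exact PF.const _ | apply PD.eq | apply PD.mem | apply PD.not | apply PD.iff | apply PD.or | apply PD.and | apply PD.imp | apply PD.ex | apply PD.all | exact PD.const _ | assumption | refine PF.comp1 (F := _) (by assumption) ?_ | refine PF.comp2 (F := _) (by assumption) ?_ ?_ | refine PF.comp3 (F := _) (by assumption) ?_ ?_ ?_ | refine PD.app1 (R := _) (by assumption) ?_ | refine PD.app2 (R := _) (by assumption) ?_ ?_ | refine PD.app3 (R := _) (by assumption) ?_ ?_ ?_ | refine PD.app4 (R := _) (by assumption) ?_ ?_ ?_ ?_))) hx hr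


/-- The pairs of types above `r` which decide differently. -/
noncomputable def prs (x r : M) : M :=
  sep (prod (pfin D.K D.Y) (pfin D.K D.Y)) (fun z => ∃ q q' ξ ξ', z = op q q' ∧ GA.sub r q ∧ GA.sub r q' ∧
    D.V x q ξ ∧ D.V x q' ξ' ∧ ξ ≠ ξ')

theorem pf_prs {x r : (ℕ → M) → M} (hx : PF x) (hr : PF r) :
    PF (fun v => D.prs (x v) (r v)) :=
  PF.comp2 (F := fun x r => D.prs x r) (by unfold prs; (repeat' (with_reducible first | apply DD.pd_Fork | apply DD.pd_V | apply pd_maxR | apply pd_WOd | apply pf_pfin | apply pd_Fun1 | apply pf_hh | apply pd_Spr | apply pd_Inj | apply pf_har | apply pd_Le | apply pf_fins | apply pf_card | apply pd_Bij | apply pd_Fini | apply pd_Big | apply pd_Ord | apply pd_Tr | apply pd_Ind | apply pf_succ | apply pf_funs | apply pf_prod | apply pf_lam | apply pd_Fn | apply pf_app | apply pf_ran | apply pf_dom | apply PF.img | apply PF.pow | apply PD.sub | apply PF.adj | apply PF.un | apply PF.sUn | apply PF.op | apply PF.pr | apply PF.sep | exact PF.var _ | exact PF.const _ | apply PD.eq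 | apply PD.mem | apply PD.not | apply PD.iff | apply PD.or | apply PD.and | apply PD.imp | apply PD.ex | apply PD.all | exact PD.const _ | assumption | refine PF.comp1 (F := _) (by assumption) ?_ | refine PF.comp2 (F := _) (by assumption) ?_ ?_ | refine PF.comp3 (F := _) (by assumption) ?_ ?_ ?_ | refine PD.app1 (R := _) (by assumption) ?_ | refine PD.app2 (R := _) (by assumption) ?_ ?_ | refine PD.app3 (R := _) (by assumption) ?_ ?_ ?_ | refine PD.app4 (R := _) (by assumption) ?_ ?_ ?_ ?_))) hx hr


/-- The coordinates outside of `r` used by the chosen pair. -/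
noncomputable def dl (x r : M) : M :=
  sep D.K (fun b => (∀ y, ¬ SetStr.mem (op b y) r) ∧
    ∃ q q', app D.C (D.prs x r) = op q q' ∧ ∃ y, SetStr.mem (op b y) q ∨ SetStr.mem (op b y) q')

theorem pf_dl {x r : (ℕ → M) → M} (hx : PF x) (hr : PF r) :
    PF (fun v => D.dl (x v) (r v)) :=
  PF.comp2 (F := fun x r => D.dl x r) (by unfold dl; (repeat' (with_reducible first | apply DD.pf_prs | apply DD.pd_Fork | apply DD.pd_V | apply pd_maxR | apply pd_WOd | apply pf_pfin | apply pd_Fun1 | apply pf_hh | apply pd_Spr | apply pd_Inj | apply pf_har | apply pd_Le | apply pf_fins | apply pf_card | apply pd_Bij | apply pd_Fini | apply pd_Big | apply pd_Ord | apply pd_Tr | apply pd_Ind | apply pf_succ | apply pf_funs | apply pf_prod | apply pf_lam | apply pd_Fn | apply pf_app | apply pf_ran | apply pf_dom | apply PF.img | apply PF.pow | apply PD.sub | apply PF.adj | apply PF.un | apply PF.sUn | apply PF.op | apply PF.pr | apply PF.sep | exact PF.var _ | exact PF.const _ | apply PD.eq | apply PD.mem | apply PD.not | apply PD.iff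 | apply PD.or | apply PD.and | apply PD.imp | apply PD.ex | apply PD.all | exact PD.const _ | assumption | refine PF.comp1 (F := _) (by assumption) ?_ | refine PF.comp2 (F := _) (by assumption) ?_ ?_ | refine PF.comp3 (F := _) (by assumption) ?_ ?_ ?_ | refine PD.app1 (R := _) (by assumption) ?_ | refine PD.app2 (R := _) (by assumption) ?_ ?_ | refine PD.app3 (R := _) (by assumption) ?_ ?_ ?_ | refine PD.app4 (R := _) (by assumption) ?_ ?_ ?_ ?_))) hx hr


/-- `Z` is closed under the steps of the decision tree. -/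
def Clo (x Z : M) : Prop :=
  SetStr.mem emp Z ∧ ∀ r b y, SetStr.mem r Z → SetStr.mem r (pfin D.K D.Y) → D.Fork x r → SetStr.mem b (D.dl x r) → SetStr.mem y D.Y →
    SetStr.mem (adj r (op b y)) Z

theorem pd_Clo {x Z : (ℕ → M) → M} (hx : PF x) (hZ : PF Z) :
    PD (fun v => D.Clo (x v) (Z v)) :=
  PD.app2 (R := fun x Z => D.Clo x Z) (by unfold Clo; (repeat' (with_reducible first | apply DD.pf_dl | apply DD.pf_prs | apply DD.pd_Fork | apply DD.pd_V | apply pd_maxR | apply pd_WOd | apply pf_pfin | apply pd_Fun1 | apply pf_hh | apply pd_Spr | apply pd_Inj | apply pf_har | apply pd_Le | apply pf_fins | apply pf_card | apply pd_Bij | apply pd_Fini | apply pd_Big | apply pd_Ord | apply pd_Tr | apply pd_Ind | apply pf_succ | apply pf_funs | apply pf_prod | apply pf_lam | apply pd_Fn | apply pf_app | apply pf_ran | apply pf_dom | apply PF.img | apply PF.pow | apply PD.sub | apply PF.adj | apply PF.un | apply PF.sUn | apply PF.op | apply PF.pr | apply PF.sep | exact PF.var _ | exact PF.const _ | apply PD.eq | apply PD.mem |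 apply PD.not | apply PD.iff | apply PD.or | apply PD.and | apply PD.imp | apply PD.ex | apply PD.all | exact PD.const _ | assumption | refine PF.comp1 (F := _) (by assumption) ?_ | refine PF.comp2 (F := _) (by assumption) ?_ ?_ | refine PF.comp3 (F := _) (by assumption) ?_ ?_ ?_ | refine PD.app1 (R := _) (by assumption) ?_ | refine PD.app2 (R := _) (by assumption) ?_ ?_ | refine PD.app3 (R := _) (by assumption) ?_ ?_ ?_ | refine PD.app4 (R := _) (by assumption) ?_ ?_ ?_ ?_))) hx hZ


/-- The nodes of the decision tree. -/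
noncomputable def nd (x : M) : M := sep (pfin D.K D.Y) (fun r => ∀ Z, D.Clo x Z → SetStr.mem r Z)

theorem pf_nd {x : (ℕ → M) → M} (hx : PF x) : PF (fun v => D.nd (x v)) :=
  PF.comp1 (F := fun x => D.nd x) (by unfold nd; (repeat' (with_reducible first | apply DD.pd_Clo | apply DD.pf_dl | apply DD.pf_prs | apply DD.pd_Fork | apply DD.pd_V | apply pd_maxR | apply pd_WOd | apply pf_pfin | apply pd_Fun1 | apply pf_hh | apply pd_Spr | apply pd_Inj | apply pf_har | apply pd_Le | apply pf_fins | apply pf_card | apply pd_Bij | apply pd_Fini | apply pd_Big | apply pd_Ord | apply pd_Tr | apply pd_Ind | apply pf_succ | apply pf_funs | apply pf_prod | apply pf_lam | apply pd_Fn | apply pf_app | apply pf_ran | apply pf_dom | apply PF.img | apply PF.pow | apply PD.sub | apply PF.adj | apply PF.un | apply PF.sUn | apply PF.op | apply PF.pr | apply PF.sep | exact PF.var _ | exact PF.const _ | apply PD.eq | apply PD.mem | apply PD.not | apply PD.iff | apply PD.or | apply PD.and | apply PD.imp | apply PD.ex | apply PD.all | exact PD.const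 _ | assumption | refine PF.comp1 (F := _) (by assumption) ?_ | refine PF.comp2 (F := _) (by assumption) ?_ ?_ | refine PF.comp3 (F := _) (by assumption) ?_ ?_ ?_ | refine PD.app1 (R := _) (by assumption) ?_ | refine PD.app2 (R := _) (by assumption) ?_ ?_ | refine PD.app3 (R := _) (by assumption) ?_ ?_ ?_ | refine PD.app4 (R := _) (by assumption) ?_ ?_ ?_ ?_))) hx


/-- The leaves of size at most `j` with values in `app Ys j`, together with the decision. -/
noncomputable def lv (x j : M) : M :=
  sep (prod (pfin D.K D.Y) D.Lam) (fun z => ∃ r ξ, z = op r ξ ∧ SetStr.mem r (D.nd x) ∧ GA.sub (card r) j ∧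
    GA.sub (ran r) (app D.Ys j) ∧ (∃ q, GA.sub r q ∧ D.V x q ξ) ∧ ∀ q η, GA.sub r q → D.V x q η → η = ξ)

theorem pf_lv {x j : (ℕ → M) → M} (hx : PF x) (hj : PF j) :
    PF (fun v => D.lv (x v) (j v)) :=
  PF.comp2 (F := fun x j => D.lv x j) (by unfold lv; (repeat' (with_reducible first | apply DD.pf_nd | apply DD.pd_Clo | apply DD.pf_dl | apply DD.pf_prs | apply DD.pd_Fork | apply DD.pd_V | apply pd_maxR | apply pd_WOd | apply pf_pfin | apply pd_Fun1 | apply pf_hh | apply pd_Spr | apply pd_Inj | apply pf_har | apply pd_Le | apply pf_fins | apply pf_card | apply pd_Bij | apply pd_Fini | apply pd_Big | apply pd_Ord | apply pd_Tr | apply pd_Ind | apply pf_succ | apply pf_funs | apply pf_prod | apply pf_lam | apply pd_Fn | apply pf_app | apply pf_ran | apply pf_dom | apply PF.img | apply PF.pow | apply PD.sub | apply PF.adj | apply PF.un | apply PF.sUn | apply PF.op | apply PF.pr | apply PF.sep | exact PF.var _ | exact PF.const _ | apply PD.eq | apply PD.mem | apply PD.not | apply PD.iff | apply PD.or | apply PD.and |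 apply PD.imp | apply PD.ex | apply PD.all | exact PD.const _ | assumption | refine PF.comp1 (F := _) (by assumption) ?_ | refine PF.comp2 (F := _) (by assumption) ?_ ?_ | refine PF.comp3 (F := _) (by assumption) ?_ ?_ ?_ | refine PD.app1 (R := _) (by assumption) ?_ | refine PD.app2 (R := _) (by assumption) ?_ ?_ | refine PD.app3 (R := _) (by assumption) ?_ ?_ ?_ | refine PD.app4 (R := _) (by assumption) ?_ ?_ ?_ ?_))) hx hj


/-- The hypotheses of the decision tree. -/
structure Ok (P L p0 X : M) : Prop where
  typed : Typed P L D.K D.Y D.T D.Ys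
  name : FName P L p0 X D.Lam D.A
  le_mem : ∀ q p, SetStr.mem (op q p) L → SetStr.mem q P ∧ SetStr.mem p P
  trans : ∀ r q p, SetStr.mem (op r q) L → SetStr.mem (op q p) L → SetStr.mem (op r p) L
  choice : ∀ s, GA.sub s (prod (pfin D.K D.Y) (pfin D.K D.Y)) → (∃ z, SetStr.mem z s) → SetStr.mem (app D.C s) s

variable {D} {P L p0 X : M}

/-- MODULE dc.  The types of the conditions of the name are in `pfin K Y`. -/
theorem Ok.val (h : D.Ok P L p0 X) {x q ξ : M} (hq : D.V x q ξ) :
    SetStr.mem q (pfin D.K D.Y) ∧ SetStr.mem x X ∧ SetStr.mem ξ D.Lam := by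
  obtain ⟨p, hp, rfl⟩ := hq
  obtain ⟨h1, h2, h3⟩ := h.name.fld p x ξ hp
  exact ⟨h.typed.val p (h.le_mem _ _ h1).1, h2, h3⟩

/-- MODULE dc.  Types which decide differently disagree: a common extension of the two conditions
would force both values. -/
theorem Ok.conflict (h : D.Ok P L p0 X) {x q q' ξ ξ' : M} (hq : D.V x q ξ) (hq' : D.V x q' ξ')
    (hne : ξ ≠ ξ') : ¬ Fun1 (un q q') := by
  intro hF
  obtain ⟨p, hp, rfl⟩ := hq
  obtain ⟨p', hp', rfl⟩ := hq'
  have h1 := (h.le_mem _ _ (h.name.fld p x ξ hp).1).1
  have h2 := (h.le_mem _ _ (h.name.fld p' x ξ' hp').1).1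
  obtain ⟨r, h3, h4⟩ := h.typed.comp p p' h1 h2 hF
  exact hne (h.name.uniq r x ξ ξ' (h.name.mono p r x ξ hp h3) (h.name.mono p' r x ξ' hp' h4))

private theorem dd_dom {f : M} (hf : Fini f) : Fini (dom f) := by
  refine fini_ind (P := fun f => Fini (dom f)) (by (repeat' (with_reducible first | apply DD.pf_lv | apply DD.pf_nd | apply DD.pd_Clo | apply DD.pf_dl | apply DD.pf_prs | apply DD.pd_Fork | apply DD.pd_V | apply pd_maxR | apply pd_WOd | apply pf_pfin | apply pd_Fun1 | apply pf_hh | apply pd_Spr | apply pd_Inj | apply pf_har | apply pd_Le | apply pf_fins | apply pf_card | apply pd_Bij | apply pd_Fini | apply pd_Big | apply pd_Ord | apply pd_Tr | apply pd_Ind | apply pf_succ | apply pf_funs | apply pf_prod | apply pf_lam | apply pd_Fn | apply pf_app | apply pf_ran | apply pf_dom | apply PF.img | apply PF.pow | apply PD.sub | apply PF.adj | apply PF.un | apply PF.sUn | apply PF.op | apply PF.pr | apply PF.sep | exact PF.var _ | exact PF.const _ | apply PD.eq | apply PD.mem | apply PD.not | apply PD.iff | apply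 PD.or | apply PD.and | apply PD.imp | apply PD.ex | apply PD.all | exact PD.const _ | assumption | refine PF.comp1 (F := _) (by assumption) ?_ | refine PF.comp2 (F := _) (by assumption) ?_ ?_ | refine PF.comp3 (F := _) (by assumption) ?_ ?_ ?_ | refine PD.app1 (R := _) (by assumption) ?_ | refine PD.app2 (R := _) (by assumption) ?_ ?_ | refine PD.app3 (R := _) (by assumption) ?_ ?_ ?_ | refine PD.app4 (R := _) (by assumption) ?_ ?_ ?_ ?_))) ?_ ?_ f hf
  · refine Fini.sub Fini.emp ?_
    intro z hz
    obtain ⟨y, hy⟩ := mem_dom.1 hz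
    exact (not_mem_emp _ hy).elim
  · intro a y _ ih
    by_cases hy : ∃ u v, y = op u v
    · obtain ⟨u, v, rfl⟩ := hy
      refine Fini.sub (ih.adj u) ?_
      intro z hz
      obtain ⟨w, hw⟩ := mem_dom.1 hz
      rcases mem_adj.1 hw with hw | hw
      · exact mem_adj.2 (Or.inl (mem_dom.2 ⟨w, hw⟩))
      · exact mem_adj.2 (Or.inr (op_inj.1 hw).1)
    · refine Fini.sub ih ?_
      intro z hz
      obtain ⟨w, hw⟩ := mem_dom.1 hz
      rcases mem_adj.1 hw with hw | hw
      · exact mem_dom.2 ⟨w, hw⟩
      · exact (hy ⟨z, w, hw.symm⟩).elim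

private theorem dd_pair (h : D.Ok P L p0 X) {x r : M} (hr : D.Fork x r) :
    ∃ q q' ξ ξ', app D.C (D.prs x r) = op q q' ∧ GA.sub r q ∧ GA.sub r q' ∧ D.V x q ξ ∧ D.V x q' ξ' ∧
      ξ ≠ ξ' := by
  have hP : PD (fun v : ℕ → M => (fun z => ∃ q q' ξ ξ', z = op q q' ∧ GA.sub r q ∧ GA.sub r q' ∧
    D.V x q ξ ∧ D.V x q' ξ' ∧ ξ ≠ ξ') (v 0)) := by (repeat' (with_reducible first | apply DD.pf_lv | apply DD.pf_nd | apply DD.pd_Clo | apply DD.pf_dl | apply DD.pf_prs | apply DD.pd_Fork | apply DD.pd_V | apply pd_maxR | apply pd_WOd | apply pf_pfin | apply pd_Fun1 | apply pf_hh | apply pd_Spr | apply pd_Inj | apply pf_har | apply pd_Le | apply pf_fins | apply pf_card | apply pd_Bij | apply pd_Fini | apply pd_Big | apply pd_Ord | apply pd_Tr | apply pd_Ind | apply pf_succ | apply pf_funs | apply pf_prod | apply pf_lam | apply pd_Fn | apply pf_app | apply pf_ran | apply pf_dom | apply PF.img | apply PF.pow | apply PD.sub | apply PF.adj | apply PF.un | apply PF.sUn | apply PF.op | apply PF.pr | apply PF.sep | exact PF.var _ | exact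 PF.const _ | apply PD.eq | apply PD.mem | apply PD.not | apply PD.iff | apply PD.or | apply PD.and | apply PD.imp | apply PD.ex | apply PD.all | exact PD.const _ | assumption | refine PF.comp1 (F := _) (by assumption) ?_ | refine PF.comp2 (F := _) (by assumption) ?_ ?_ | refine PF.comp3 (F := _) (by assumption) ?_ ?_ ?_ | refine PD.app1 (R := _) (by assumption) ?_ | refine PD.app2 (R := _) (by assumption) ?_ ?_ | refine PD.app3 (R := _) (by assumption) ?_ ?_ ?_ | refine PD.app4 (R := _) (by assumption) ?_ ?_ ?_ ?_))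
  have h1 : GA.sub (D.prs x r) (prod (pfin D.K D.Y) (pfin D.K D.Y)) := by
    intro z hz
    unfold prs at hz
    rw [mem_sep hP] at hz
    exact hz.1
  have h2 : ∃ z, SetStr.mem z (D.prs x r) := by
    obtain ⟨q, q', ξ, ξ', a1, a2, a3, a4, a5⟩ := hr
    refine ⟨op q q', ?_⟩
    unfold prs
    rw [mem_sep hP]
    exact ⟨op_mem_prod.2 ⟨(h.val a3).1, (h.val a4).1⟩, q, q', ξ, ξ', rfl, a1, a2, a3, a4, a5⟩
  have h3 := h.choice _ h1 h2
  unfold prs at h3
  rw [mem_sep hP] at h3
  exact h3.2

/-- MODULE dd -/
theorem Ok.dl_fini (h : D.Ok P L p0 X) {x r : M} (hr : D.Fork x r) : Fini (D.dl x r) := by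
  obtain ⟨q1, q2, ξ1, ξ2, he, -, -, h1, h2, -⟩ := dd_pair h hr
  have hP : PD (fun v : ℕ → M => (fun b => (∀ y, ¬ SetStr.mem (op b y) r) ∧
    ∃ q q', app D.C (D.prs x r) = op q q' ∧ ∃ y, SetStr.mem (op b y) q ∨ SetStr.mem (op b y) q') (v 0)) := by (repeat' (with_reducible first | apply DD.pf_lv | apply DD.pf_nd | apply DD.pd_Clo | apply DD.pf_dl | apply DD.pf_prs | apply DD.pd_Fork | apply DD.pd_V | apply pd_maxR | apply pd_WOd | apply pf_pfin | apply pd_Fun1 | apply pf_hh | apply pd_Spr | apply pd_Inj | apply pf_har | apply pd_Le | apply pf_fins | apply pf_card | apply pd_Bij | apply pd_Fini | apply pd_Big | apply pd_Ord | apply pd_Tr | apply pd_Ind | apply pf_succ | apply pf_funs | apply pf_prod | apply pf_lam | apply pd_Fn | apply pf_app | apply pf_ran | apply pf_dom | apply PF.img | apply PF.pow | apply PD.sub | apply PF.adj | apply PF.un | apply PF.sUn | apply PF.op | apply PF.pr | apply PF.sep | exact PF.var _ | exact PF.const _ | apply PD.eq | apply PD.mem | apply PD.not | apply PD.iff | apply PD.or | apply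 PD.and | apply PD.imp | apply PD.ex | apply PD.all | exact PD.const _ | assumption | refine PF.comp1 (F := _) (by assumption) ?_ | refine PF.comp2 (F := _) (by assumption) ?_ ?_ | refine PF.comp3 (F := _) (by assumption) ?_ ?_ ?_ | refine PD.app1 (R := _) (by assumption) ?_ | refine PD.app2 (R := _) (by assumption) ?_ ?_ | refine PD.app3 (R := _) (by assumption) ?_ ?_ ?_ | refine PD.app4 (R := _) (by assumption) ?_ ?_ ?_ ?_))
  refine Fini.sub ((dd_dom (mem_pfin.1 (h.val h1).1).2.1).un (dd_dom (mem_pfin.1 (h.val h2).1).2.1)) ?_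
  intro b hb
  unfold dl at hb
  rw [mem_sep hP] at hb
  obtain ⟨-, -, q, q', h3, y, h4⟩ := hb
  rw [he] at h3
  obtain ⟨rfl, rfl⟩ := op_inj.1 h3
  rw [mem_un, mem_dom, mem_dom]
  rcases h4 with h4 | h4
  · exact Or.inl ⟨y, h4⟩
  · exact Or.inr ⟨y, h4⟩

/-- MODULE dd.  Above a fork every deciding type has one of the coordinates of `dl`. -/
theorem Ok.fork_step (h : D.Ok P L p0 X) {x r q ξ : M} (hr : D.Fork x r) (hrq : GA.sub r q)
    (hq : D.V x q ξ) : ∃ b y, SetStr.mem b (D.dl x r) ∧ SetStr.mem y D.Y ∧ SetStr.mem (op b y) q ∧ ¬ SetStr.mem (op b y) r := by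
  obtain ⟨q1, q2, ξ1, ξ2, he, hr1, hr2, h1, h2, hne⟩ := dd_pair h hr
  have hP : PD (fun v : ℕ → M => (fun b => (∀ y, ¬ SetStr.mem (op b y) r) ∧
    ∃ q q', app D.C (D.prs x r) = op q q' ∧ ∃ y, SetStr.mem (op b y) q ∨ SetStr.mem (op b y) q') (v 0)) := by (repeat' (with_reducible first | apply DD.pf_lv | apply DD.pf_nd | apply DD.pd_Clo | apply DD.pf_dl | apply DD.pf_prs | apply DD.pd_Fork | apply DD.pd_V | apply pd_maxR | apply pd_WOd | apply pf_pfin | apply pd_Fun1 | apply pf_hh | apply pd_Spr | apply pd_Inj | apply pf_har | apply pd_Le | apply pf_fins | apply pf_card | apply pd_Bij | apply pd_Fini | apply pd_Big | apply pd_Ord | apply pd_Tr | apply pd_Ind | apply pf_succ | apply pf_funs | apply pf_prod | apply pf_lam | apply pd_Fn | apply pf_app | apply pf_ran | apply pf_dom | apply PF.img | apply PF.pow | apply PD.sub | apply PF.adj | apply PF.un | apply PF.sUn | apply PF.op | apply PF.pr | apply PF.sep | exact PF.var _ | exact PF.const _ | apply PD.eq | apply PD.mem | apply PD.not | apply PD.iff | apply PD.or |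 apply PD.and | apply PD.imp | apply PD.ex | apply PD.all | exact PD.const _ | assumption | refine PF.comp1 (F := _) (by assumption) ?_ | refine PF.comp2 (F := _) (by assumption) ?_ ?_ | refine PF.comp3 (F := _) (by assumption) ?_ ?_ ?_ | refine PD.app1 (R := _) (by assumption) ?_ | refine PD.app2 (R := _) (by assumption) ?_ ?_ | refine PD.app3 (R := _) (by assumption) ?_ ?_ ?_ | refine PD.app4 (R := _) (by assumption) ?_ ?_ ?_ ?_))
  have key : ∀ q' ξ', D.V x q' ξ' → ξ ≠ ξ' → GA.sub r q' → (∀ b y, SetStr.mem (op b y) q' →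
      ∃ q q'', app D.C (D.prs x r) = op q q'' ∧ ∃ y, SetStr.mem (op b y) q ∨ SetStr.mem (op b y) q'') →
      ∃ b y, SetStr.mem b (D.dl x r) ∧ SetStr.mem y D.Y ∧ SetStr.mem (op b y) q ∧ ¬ SetStr.mem (op b y) r := by
    intro q' ξ' hq' hne' hrq' hin
    obtain ⟨b, y, z, a1, a2, a3⟩ := exists_disagree (h.val hq).1 (h.val hq').1
      (h.conflict hq hq' hne')
    obtain ⟨hb, hy⟩ := op_mem_prod.1 ((mem_pfin.1 (h.val hq).1).1 _ a1)
    have hno : ∀ w, ¬ SetStr.mem (op b w) r := by
      intro w hw
      have e1 := (mem_pfin.1 (h.val hq).1).2.2 b w y (hrq _ hw) a1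
      have e2 := (mem_pfin.1 (h.val hq').1).2.2 b w z (hrq' _ hw) a2
      exact a3 (e1.symm.trans e2)
    refine ⟨b, y, ?_, hy, a1, hno y⟩
    unfold dl
    rw [mem_sep hP]
    exact ⟨hb, hno, hin b z a2⟩
  by_cases h3 : ξ = ξ1
  · refine key q2 ξ2 h2 (fun h4 => hne (h3.symm.trans h4)) hr2 ?_
    intro b y hy
    exact ⟨q1, q2, he, y, Or.inr hy⟩
  · refine key q1 ξ1 h1 h3 hr1 ?_
    intro b y hy
    exact ⟨q1, q2, he, y, Or.inl hy⟩

private theorem de_mem_nd {x r : M} :
    SetStr.mem r (D.nd x) ↔ SetStr.mem r (pfin D.K D.Y) ∧ ∀ Z, D.Clo x Z → SetStr.mem r Z := by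
  unfold nd
  rw [mem_sep (by (repeat' (with_reducible first | apply DD.pf_lv | apply DD.pf_nd | apply DD.pd_Clo | apply DD.pf_dl | apply DD.pf_prs | apply DD.pd_Fork | apply DD.pd_V | apply pd_maxR | apply pd_WOd | apply pf_pfin | apply pd_Fun1 | apply pf_hh | apply pd_Spr | apply pd_Inj | apply pf_har | apply pd_Le | apply pf_fins | apply pf_card | apply pd_Bij | apply pd_Fini | apply pd_Big | apply pd_Ord | apply pd_Tr | apply pd_Ind | apply pf_succ | apply pf_funs | apply pf_prod | apply pf_lam | apply pd_Fn | apply pf_app | apply pf_ran | apply pf_dom | apply PF.img | apply PF.pow | apply PD.sub | apply PF.adj | apply PF.un | apply PF.sUn | apply PF.op | apply PF.pr | apply PF.sep | exact PF.var _ | exact PF.const _ | apply PD.eq | apply PD.mem | apply PD.not | apply PD.iff | apply PD.or | apply PD.and | apply PD.imp | apply PD.ex | apply PD.all | exact PD.const _ | assumption | refine PF.comp1 (F := _) (by assumption) ?_ | refine PF.comp2 (F := _) (by assumption) ?_ ?_ | refine PF.comp3 (F := _) (by assumption)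 ?_ ?_ ?_ | refine PD.app1 (R := _) (by assumption) ?_ | refine PD.app2 (R := _) (by assumption) ?_ ?_ | refine PD.app3 (R := _) (by assumption) ?_ ?_ ?_ | refine PD.app4 (R := _) (by assumption) ?_ ?_ ?_ ?_)))]

private theorem de_mem_dl {x r b : M} : SetStr.mem b (D.dl x r) ↔ SetStr.mem b D.K ∧ (∀ y, ¬ SetStr.mem (op b y) r) ∧
    ∃ q q', app D.C (D.prs x r) = op q q' ∧ ∃ y, SetStr.mem (op b y) q ∨ SetStr.mem (op b y) q' := by
  unfold dl
  rw [mem_sep (by (repeat' (with_reducible first | apply DD.pf_lv | apply DD.pf_nd | apply DD.pd_Clo | apply DD.pf_dl | apply DD.pf_prs | apply DD.pd_Fork | apply DD.pd_V | apply pd_maxR | apply pd_WOd | apply pf_pfin | apply pd_Fun1 | apply pf_hh | apply pd_Spr | apply pd_Inj | apply pf_har | apply pd_Le | apply pf_fins | apply pf_card | apply pd_Bij | apply pd_Fini | apply pd_Big | apply pd_Ord | apply pd_Tr | apply pd_Ind | apply pf_succ | apply pf_funs | apply pf_prod | apply pf_lam | apply pd_Fn | apply pf_app | apply pf_ran | apply pf_dom | apply PF.img | apply PF.pow | apply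 PD.sub | apply PF.adj | apply PF.un | apply PF.sUn | apply PF.op | apply PF.pr | apply PF.sep | exact PF.var _ | exact PF.const _ | apply PD.eq | apply PD.mem | apply PD.not | apply PD.iff | apply PD.or | apply PD.and | apply PD.imp | apply PD.ex | apply PD.all | exact PD.const _ | assumption | refine PF.comp1 (F := _) (by assumption) ?_ | refine PF.comp2 (F := _) (by assumption) ?_ ?_ | refine PF.comp3 (F := _) (by assumption) ?_ ?_ ?_ | refine PD.app1 (R := _) (by assumption) ?_ | refine PD.app2 (R := _) (by assumption) ?_ ?_ | refine PD.app3 (R := _) (by assumption) ?_ ?_ ?_ | refine PD.app4 (R := _) (by assumption) ?_ ?_ ?_ ?_)))]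

/-- MODULE de -/
theorem emp_mem_nd (D : DD M) (x : M) : SetStr.mem emp (D.nd x) :=
  de_mem_nd.2 ⟨emp_mem_pfin _ _, fun _ hZ => hZ.1⟩

/-- MODULE de -/
theorem step_mem_nd {x r b y : M} (hr : SetStr.mem r (D.nd x)) (hf : D.Fork x r) (hb : SetStr.mem b (D.dl x r))
    (hy : SetStr.mem y D.Y) : SetStr.mem (adj r (op b y)) (D.nd x) := by
  rw [de_mem_nd] at hr ⊢
  have hb' := de_mem_dl.1 hb
  exact ⟨adj_mem_pfin hr.1 hb'.1 hy hb'.2.1, fun Z hZ => hZ.2 r b y (hr.2 Z hZ) hr.1 hf hb hy⟩

/-- MODULE de.  Inversion: remove `r` from `nd x`. -/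
theorem nd_cases {x r : M} (hr : SetStr.mem r (D.nd x)) : r = emp ∨ ∃ r' b y, SetStr.mem r' (D.nd x) ∧ D.Fork x r' ∧
    SetStr.mem b (D.dl x r') ∧ SetStr.mem y D.Y ∧ r = adj r' (op b y) := by
  have hm : ∀ r, SetStr.mem r (sep (D.nd x) (fun r => r = emp ∨ ∃ r' b y, SetStr.mem r' (D.nd x) ∧ D.Fork x r' ∧
      SetStr.mem b (D.dl x r') ∧ SetStr.mem y D.Y ∧ r = adj r' (op b y))) ↔ SetStr.mem r (D.nd x) ∧ (r = emp ∨
      ∃ r' b y, SetStr.mem r' (D.nd x) ∧ D.Fork x r' ∧
      SetStr.mem b (D.dl x r') ∧ SetStr.mem y D.Y ∧ r = adj r' (op b y)) := by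
    intro r
    rw [mem_sep (by (repeat' (with_reducible first | apply DD.pf_lv | apply DD.pf_nd | apply DD.pd_Clo | apply DD.pf_dl | apply DD.pf_prs | apply DD.pd_Fork | apply DD.pd_V | apply pd_maxR | apply pd_WOd | apply pf_pfin | apply pd_Fun1 | apply pf_hh | apply pd_Spr | apply pd_Inj | apply pf_har | apply pd_Le | apply pf_fins | apply pf_card | apply pd_Bij | apply pd_Fini | apply pd_Big | apply pd_Ord | apply pd_Tr | apply pd_Ind | apply pf_succ | apply pf_funs | apply pf_prod | apply pf_lam | apply pd_Fn | apply pf_app | apply pf_ran | apply pf_dom | apply PF.img | apply PF.pow | apply PD.sub | apply PF.adj | apply PF.un | apply PF.sUn | apply PF.op | apply PF.pr | apply PF.sep | exact PF.var _ | exact PF.const _ | apply PD.eq | apply PD.mem | apply PD.not | apply PD.iff | apply PD.or | apply PD.and | apply PD.imp | apply PD.ex | apply PD.all | exact PD.const _ | assumption | refine PF.comp1 (F := _) (by assumption) ?_ | refine PF.comp2 (F := _) (by assumption) ?_ ?_ | refine PF.comp3 (F := _) (by assumption)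 ?_ ?_ ?_ | refine PD.app1 (R := _) (by assumption) ?_ | refine PD.app2 (R := _) (by assumption) ?_ ?_ | refine PD.app3 (R := _) (by assumption) ?_ ?_ ?_ | refine PD.app4 (R := _) (by assumption) ?_ ?_ ?_ ?_)))]
  have hC : D.Clo x (sep (D.nd x) (fun r => r = emp ∨ ∃ r' b y, SetStr.mem r' (D.nd x) ∧ D.Fork x r' ∧
      SetStr.mem b (D.dl x r') ∧ SetStr.mem y D.Y ∧ r = adj r' (op b y))) := by
    constructor
    · exact (hm _).2 ⟨emp_mem_nd D x, Or.inl rfl⟩
    · intro r b y hr _ hf hb hy
      have hr' := ((hm _).1 hr).1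
      exact (hm _).2 ⟨step_mem_nd hr' hf hb hy, Or.inr ⟨r, b, y, hr', hf, hb, hy, rfl⟩⟩
  exact ((hm _).1 ((de_mem_nd.1 hr).2 _ hC)).2

/-- MODULE df.  There are finitely many nodes of bounded size with values in a finite set
(induction on `k`; the nodes of size at most `succ k` are `emp` or `adj r (op b y)` with `r` a fork of
size at most `k`, `b ∈ dl x r`, `y ∈ Z`; `op b y` is not in `r`, `card_adj`). -/
theorem Ok.nd_fini (h : D.Ok P L p0 X) {x Z : M} (hZ : Fini Z) :
    ∀ k, SetStr.mem k om → Fini (sep (D.nd x) (fun r => GA.sub (card r) k ∧ GA.sub (ran r) Z)) := by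
  have hS : ∀ k r, SetStr.mem r (sep (D.nd x) (fun r => GA.sub (card r) k ∧ GA.sub (ran r) Z)) ↔
      SetStr.mem r (D.nd x) ∧ GA.sub (card r) k ∧ GA.sub (ran r) Z := fun k r => mem_sep (by (repeat' (with_reducible first | apply DD.pf_lv | apply DD.pf_nd | apply DD.pd_Clo | apply DD.pf_dl | apply DD.pf_prs | apply DD.pd_Fork | apply DD.pd_V | apply pd_maxR | apply pd_WOd | apply pf_pfin | apply pd_Fun1 | apply pf_hh | apply pd_Spr | apply pd_Inj | apply pf_har | apply pd_Le | apply pf_fins | apply pf_card | apply pd_Bij | apply pd_Fini | apply pd_Big | apply pd_Ord | apply pd_Tr | apply pd_Ind | apply pf_succ | apply pf_funs | apply pf_prod | apply pf_lam | apply pd_Fn | apply pf_app | apply pf_ran | apply pf_dom | apply PF.img | apply PF.pow | apply PD.sub | apply PF.adj | apply PF.un | apply PF.sUn | apply PF.op | apply PF.pr | apply PF.sep | exact PF.var _ | exact PF.const _ | apply PD.eq | apply PD.mem | apply PD.not | apply PD.iff | apply PD.or | apply PD.and | apply PD.imp | apply PD.ex | apply PD.all | exact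 PD.const _ | assumption | refine PF.comp1 (F := _) (by assumption) ?_ | refine PF.comp2 (F := _) (by assumption) ?_ ?_ | refine PF.comp3 (F := _) (by assumption) ?_ ?_ ?_ | refine PD.app1 (R := _) (by assumption) ?_ | refine PD.app2 (R := _) (by assumption) ?_ ?_ | refine PD.app3 (R := _) (by assumption) ?_ ?_ ?_ | refine PD.app4 (R := _) (by assumption) ?_ ?_ ?_ ?_)))
  have hnf : ∀ r, SetStr.mem r (D.nd x) → Fini r := by
    intro r hr
    unfold nd at hr
    rw [mem_sep (by (repeat' (with_reducible first | apply DD.pf_lv | apply DD.pf_nd | apply DD.pd_Clo | apply DD.pf_dl | apply DD.pf_prs | apply DD.pd_Fork | apply DD.pd_V | apply pd_maxR | apply pd_WOd | apply pf_pfin | apply pd_Fun1 | apply pf_hh | apply pd_Spr | apply pd_Inj | apply pf_har | apply pd_Le | apply pf_fins | apply pf_card | apply pd_Bij | apply pd_Fini | apply pd_Big | apply pd_Ord | apply pd_Tr | apply pd_Ind | apply pf_succ | apply pf_funs | apply pf_prod | apply pf_lam | apply pd_Fn | apply pf_app | apply pf_ran | apply pf_dom | apply PF.img |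 apply PF.pow | apply PD.sub | apply PF.adj | apply PF.un | apply PF.sUn | apply PF.op | apply PF.pr | apply PF.sep | exact PF.var _ | exact PF.const _ | apply PD.eq | apply PD.mem | apply PD.not | apply PD.iff | apply PD.or | apply PD.and | apply PD.imp | apply PD.ex | apply PD.all | exact PD.const _ | assumption | refine PF.comp1 (F := _) (by assumption) ?_ | refine PF.comp2 (F := _) (by assumption) ?_ ?_ | refine PF.comp3 (F := _) (by assumption) ?_ ?_ ?_ | refine PD.app1 (R := _) (by assumption) ?_ | refine PD.app2 (R := _) (by assumption) ?_ ?_ | refine PD.app3 (R := _) (by assumption) ?_ ?_ ?_ | refine PD.app4 (R := _) (by assumption) ?_ ?_ ?_ ?_)))] at hr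
    exact (mem_pfin.1 hr.1).2.1
  have hdl : ∀ r b y, SetStr.mem b (D.dl x r) → ¬ SetStr.mem (op b y) r := by
    intro r b y hb
    unfold dl at hb
    rw [mem_sep (by (repeat' (with_reducible first | apply DD.pf_lv | apply DD.pf_nd | apply DD.pd_Clo | apply DD.pf_dl | apply DD.pf_prs | apply DD.pd_Fork | apply DD.pd_V | apply pd_maxR | apply pd_WOd | apply pf_pfin | apply pd_Fun1 | apply pf_hh | apply pd_Spr | apply pd_Inj | apply pf_har | apply pd_Le | apply pf_fins | apply pf_card | apply pd_Bij | apply pd_Fini | apply pd_Big | apply pd_Ord | apply pd_Tr | apply pd_Ind | apply pf_succ | apply pf_funs | apply pf_prod | apply pf_lam | apply pd_Fn | apply pf_app | apply pf_ran | apply pf_dom | apply PF.img | apply PF.pow | apply PD.sub | apply PF.adj | apply PF.un | apply PF.sUn | apply PF.op | apply PF.pr | apply PF.sep | exact PF.var _ | exact PF.const _ | apply PD.eq | apply PD.mem | apply PD.not | apply PD.iff | apply PD.or | apply PD.and | apply PD.imp | apply PD.ex | apply PD.all | exact PD.const _ | assumption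 | refine PF.comp1 (F := _) (by assumption) ?_ | refine PF.comp2 (F := _) (by assumption) ?_ ?_ | refine PF.comp3 (F := _) (by assumption) ?_ ?_ ?_ | refine PD.app1 (R := _) (by assumption) ?_ | refine PD.app2 (R := _) (by assumption) ?_ ?_ | refine PD.app3 (R := _) (by assumption) ?_ ?_ ?_ | refine PD.app4 (R := _) (by assumption) ?_ ?_ ?_ ?_)))] at hb
    exact hb.2.1 y
  refine om_ind (P := fun k => Fini (sep (D.nd x) (fun r => GA.sub (card r) k ∧ GA.sub (ran r) Z))) (by (repeat' (with_reducible first | apply DD.pf_lv | apply DD.pf_nd | apply DD.pd_Clo | apply DD.pf_dl | apply DD.pf_prs | apply DD.pd_Fork | apply DD.pd_V | apply pd_maxR | apply pd_WOd | apply pf_pfin | apply pd_Fun1 | apply pf_hh | apply pd_Spr | apply pd_Inj | apply pf_har | apply pd_Le | apply pf_fins | apply pf_card | apply pd_Bij | apply pd_Fini | apply pd_Big | apply pd_Ord | apply pd_Tr | apply pd_Ind | apply pf_succ | apply pf_funs | apply pf_prod | apply pf_lam | apply pd_Fn | apply pf_app | apply pf_ran | apply pf_dom | apply PF.img | apply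 PF.pow | apply PD.sub | apply PF.adj | apply PF.un | apply PF.sUn | apply PF.op | apply PF.pr | apply PF.sep | exact PF.var _ | exact PF.const _ | apply PD.eq | apply PD.mem | apply PD.not | apply PD.iff | apply PD.or | apply PD.and | apply PD.imp | apply PD.ex | apply PD.all | exact PD.const _ | assumption | refine PF.comp1 (F := _) (by assumption) ?_ | refine PF.comp2 (F := _) (by assumption) ?_ ?_ | refine PF.comp3 (F := _) (by assumption) ?_ ?_ ?_ | refine PD.app1 (R := _) (by assumption) ?_ | refine PD.app2 (R := _) (by assumption) ?_ ?_ | refine PD.app3 (R := _) (by assumption) ?_ ?_ ?_ | refine PD.app4 (R := _) (by assumption) ?_ ?_ ?_ ?_)))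
    ?_ ?_
  · refine Fini.sub (Fini.pr emp emp) (fun r hr => ?_)
    rw [hS] at hr
    rw [mem_pr]
    left
    rcases nd_cases hr.1 with h1 | ⟨r', b, y, hr', hf, hb, hy, rfl⟩
    · exact h1
    · exfalso
      have h2 := card_adj (hnf r' hr') (hdl r' b y hb)
      have h3 := hr.2.1 (card r') (by rw [h2]; simp)
      exact not_mem_emp _ h3
  · intro k hk ih
    have hfin : Fini (adj (sUn (img (fun r => img (fun z => adj r z) (prod (D.dl x r) Z))
        (sep (sep (D.nd x) (fun r => GA.sub (card r) k ∧ GA.sub (ran r) Z)) (fun r => D.Fork x r)))) emp) := by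
      refine Fini.adj (Fini.sUn (Fini.img (ih.sub (fun z hz => ?_)) (by (repeat' (with_reducible first | apply DD.pf_lv | apply DD.pf_nd | apply DD.pd_Clo | apply DD.pf_dl | apply DD.pf_prs | apply DD.pd_Fork | apply DD.pd_V | apply pd_maxR | apply pd_WOd | apply pf_pfin | apply pd_Fun1 | apply pf_hh | apply pd_Spr | apply pd_Inj | apply pf_har | apply pd_Le | apply pf_fins | apply pf_card | apply pd_Bij | apply pd_Fini | apply pd_Big | apply pd_Ord | apply pd_Tr | apply pd_Ind | apply pf_succ | apply pf_funs | apply pf_prod | apply pf_lam | apply pd_Fn | apply pf_app | apply pf_ran | apply pf_dom | apply PF.img | apply PF.pow | apply PD.sub | apply PF.adj | apply PF.un | apply PF.sUn | apply PF.op | apply PF.pr | apply PF.sep | exact PF.var _ | exact PF.const _ | apply PD.eq | apply PD.mem | apply PD.not | apply PD.iff | apply PD.or | apply PD.and | apply PD.imp | apply PD.ex | apply PD.all | exact PD.const _ | assumption | refine PF.comp1 (F := _) (by assumption) ?_ | refine PF.comp2 (F := _) (by assumption) ?_ ?_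 | refine PF.comp3 (F := _) (by assumption) ?_ ?_ ?_ | refine PD.app1 (R := _) (by assumption) ?_ | refine PD.app2 (R := _) (by assumption) ?_ ?_ | refine PD.app3 (R := _) (by assumption) ?_ ?_ ?_ | refine PD.app4 (R := _) (by assumption) ?_ ?_ ?_ ?_)))) ?_) emp
      · rw [mem_sep (by (repeat' (with_reducible first | apply DD.pf_lv | apply DD.pf_nd | apply DD.pd_Clo | apply DD.pf_dl | apply DD.pf_prs | apply DD.pd_Fork | apply DD.pd_V | apply pd_maxR | apply pd_WOd | apply pf_pfin | apply pd_Fun1 | apply pf_hh | apply pd_Spr | apply pd_Inj | apply pf_har | apply pd_Le | apply pf_fins | apply pf_card | apply pd_Bij | apply pd_Fini | apply pd_Big | apply pd_Ord | apply pd_Tr | apply pd_Ind | apply pf_succ | apply pf_funs | apply pf_prod | apply pf_lam | apply pd_Fn | apply pf_app | apply pf_ran | apply pf_dom | apply PF.img | apply PF.pow | apply PD.sub | apply PF.adj | apply PF.un | apply PF.sUn | apply PF.op | apply PF.pr | apply PF.sep | exact PF.var _ | exact PF.const _ | apply PD.eq | apply PD.mem | apply PD.not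 | apply PD.iff | apply PD.or | apply PD.and | apply PD.imp | apply PD.ex | apply PD.all | exact PD.const _ | assumption | refine PF.comp1 (F := _) (by assumption) ?_ | refine PF.comp2 (F := _) (by assumption) ?_ ?_ | refine PF.comp3 (F := _) (by assumption) ?_ ?_ ?_ | refine PD.app1 (R := _) (by assumption) ?_ | refine PD.app2 (R := _) (by assumption) ?_ ?_ | refine PD.app3 (R := _) (by assumption) ?_ ?_ ?_ | refine PD.app4 (R := _) (by assumption) ?_ ?_ ?_ ?_)))] at hz
        exact hz.1
      · intro w hw
        obtain ⟨r, hr, rfl⟩ := (mem_img (by (repeat' (with_reducible first | apply DD.pf_lv | apply DD.pf_nd | apply DD.pd_Clo | apply DD.pf_dl | apply DD.pf_prs | apply DD.pd_Fork | apply DD.pd_V | apply pd_maxR | apply pd_WOd | apply pf_pfin | apply pd_Fun1 | apply pf_hh | apply pd_Spr | apply pd_Inj | apply pf_har | apply pd_Le | apply pf_fins | apply pf_card | apply pd_Bij | apply pd_Fini | apply pd_Big | apply pd_Ord | apply pd_Tr | apply pd_Ind | apply pf_succ | apply pf_funs | apply pf_prod | apply pf_lam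 | apply pd_Fn | apply pf_app | apply pf_ran | apply pf_dom | apply PF.img | apply PF.pow | apply PD.sub | apply PF.adj | apply PF.un | apply PF.sUn | apply PF.op | apply PF.pr | apply PF.sep | exact PF.var _ | exact PF.const _ | apply PD.eq | apply PD.mem | apply PD.not | apply PD.iff | apply PD.or | apply PD.and | apply PD.imp | apply PD.ex | apply PD.all | exact PD.const _ | assumption | refine PF.comp1 (F := _) (by assumption) ?_ | refine PF.comp2 (F := _) (by assumption) ?_ ?_ | refine PF.comp3 (F := _) (by assumption) ?_ ?_ ?_ | refine PD.app1 (R := _) (by assumption) ?_ | refine PD.app2 (R := _) (by assumption) ?_ ?_ | refine PD.app3 (R := _) (by assumption) ?_ ?_ ?_ | refine PD.app4 (R := _) (by assumption) ?_ ?_ ?_ ?_)))).1 hw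
        rw [mem_sep (by (repeat' (with_reducible first | apply DD.pf_lv | apply DD.pf_nd | apply DD.pd_Clo | apply DD.pf_dl | apply DD.pf_prs | apply DD.pd_Fork | apply DD.pd_V | apply pd_maxR | apply pd_WOd | apply pf_pfin | apply pd_Fun1 | apply pf_hh | apply pd_Spr | apply pd_Inj | apply pf_har | apply pd_Le | apply pf_fins | apply pf_card | apply pd_Bij | apply pd_Fini | apply pd_Big | apply pd_Ord | apply pd_Tr | apply pd_Ind | apply pf_succ | apply pf_funs | apply pf_prod | apply pf_lam | apply pd_Fn | apply pf_app | apply pf_ran | apply pf_dom | apply PF.img | apply PF.pow | apply PD.sub | apply PF.adj | apply PF.un | apply PF.sUn | apply PF.op | apply PF.pr | apply PF.sep | exact PF.var _ | exact PF.const _ | apply PD.eq | apply PD.mem | apply PD.not | apply PD.iff | apply PD.or | apply PD.and | apply PD.imp | apply PD.ex | apply PD.all | exact PD.const _ | assumption | refine PF.comp1 (F := _) (by assumption) ?_ | refine PF.comp2 (F := _) (by assumption) ?_ ?_ | refine PF.comp3 (F := _) (by assumption) ?_ ?_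 ?_ | refine PD.app1 (R := _) (by assumption) ?_ | refine PD.app2 (R := _) (by assumption) ?_ ?_ | refine PD.app3 (R := _) (by assumption) ?_ ?_ ?_ | refine PD.app4 (R := _) (by assumption) ?_ ?_ ?_ ?_)))] at hr
        exact Fini.img (Fini.prod (h.dl_fini hr.2) hZ) (by (repeat' (with_reducible first | apply DD.pf_lv | apply DD.pf_nd | apply DD.pd_Clo | apply DD.pf_dl | apply DD.pf_prs | apply DD.pd_Fork | apply DD.pd_V | apply pd_maxR | apply pd_WOd | apply pf_pfin | apply pd_Fun1 | apply pf_hh | apply pd_Spr | apply pd_Inj | apply pf_har | apply pd_Le | apply pf_fins | apply pf_card | apply pd_Bij | apply pd_Fini | apply pd_Big | apply pd_Ord | apply pd_Tr | apply pd_Ind | apply pf_succ | apply pf_funs | apply pf_prod | apply pf_lam | apply pd_Fn | apply pf_app | apply pf_ran | apply pf_dom | apply PF.img | apply PF.pow | apply PD.sub | apply PF.adj | apply PF.un | apply PF.sUn | apply PF.op | apply PF.pr | apply PF.sep | exact PF.var _ | exact PF.const _ | apply PD.eq | apply PD.mem | apply PD.not | apply PD.iff |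 apply PD.or | apply PD.and | apply PD.imp | apply PD.ex | apply PD.all | exact PD.const _ | assumption | refine PF.comp1 (F := _) (by assumption) ?_ | refine PF.comp2 (F := _) (by assumption) ?_ ?_ | refine PF.comp3 (F := _) (by assumption) ?_ ?_ ?_ | refine PD.app1 (R := _) (by assumption) ?_ | refine PD.app2 (R := _) (by assumption) ?_ ?_ | refine PD.app3 (R := _) (by assumption) ?_ ?_ ?_ | refine PD.app4 (R := _) (by assumption) ?_ ?_ ?_ ?_)))
    refine hfin.sub (fun r hr => ?_)
    rw [hS] at hr
    rw [mem_adj]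
    rcases nd_cases hr.1 with h1 | ⟨r', b, y, hr', hf, hb, hy, rfl⟩
    · right
      exact h1
    · left
      have h2 := card_adj (hnf r' hr') (hdl r' b y hb)
      have h3 := hr.2.1
      rw [h2] at h3
      have hc : SetStr.mem (card r') om := card_mem_om (hnf r' hr')
      have h4 : GA.sub (card r') k := by
        have h5 := h3 (card r') (by simp)
        rw [mem_succ] at h5
        rcases h5 with h5 | h5
        · exact fun z hz => om_elt_trans hk h5 hz
        · rw [h5]
          exact fun z hz => hz
      have h6 : GA.sub (ran r') Z := by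
        intro z hz
        apply hr.2.2
        rw [mem_ran] at hz ⊢
        obtain ⟨a, ha⟩ := hz
        exact ⟨a, by rw [mem_adj]; exact Or.inl ha⟩
      have h7 : SetStr.mem y Z := by
        apply hr.2.2
        rw [mem_ran]
        exact ⟨b, by simp⟩
      rw [mem_sUn]
      refine ⟨img (fun z => adj r' z) (prod (D.dl x r') Z), ?_, ?_⟩
      · rw [mem_img (by (repeat' (with_reducible first | apply DD.pf_lv | apply DD.pf_nd | apply DD.pd_Clo | apply DD.pf_dl | apply DD.pf_prs | apply DD.pd_Fork | apply DD.pd_V | apply pd_maxR | apply pd_WOd | apply pf_pfin | apply pd_Fun1 | apply pf_hh | apply pd_Spr | apply pd_Inj | apply pf_har | apply pd_Le | apply pf_fins | apply pf_card | apply pd_Bij | apply pd_Fini | apply pd_Big | apply pd_Ord | apply pd_Tr | apply pd_Ind | apply pf_succ | apply pf_funs | apply pf_prod | apply pf_lam | apply pd_Fn | apply pf_app | apply pf_ran | apply pf_dom | apply PF.img | apply PF.pow | apply PD.sub | apply PF.adj | apply PF.un | apply PF.sUn | apply PF.op | apply PF.pr | apply PF.sep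 | exact PF.var _ | exact PF.const _ | apply PD.eq | apply PD.mem | apply PD.not | apply PD.iff | apply PD.or | apply PD.and | apply PD.imp | apply PD.ex | apply PD.all | exact PD.const _ | assumption | refine PF.comp1 (F := _) (by assumption) ?_ | refine PF.comp2 (F := _) (by assumption) ?_ ?_ | refine PF.comp3 (F := _) (by assumption) ?_ ?_ ?_ | refine PD.app1 (R := _) (by assumption) ?_ | refine PD.app2 (R := _) (by assumption) ?_ ?_ | refine PD.app3 (R := _) (by assumption) ?_ ?_ ?_ | refine PD.app4 (R := _) (by assumption) ?_ ?_ ?_ ?_)))]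
        refine ⟨r', ?_, rfl⟩
        rw [mem_sep (by (repeat' (with_reducible first | apply DD.pf_lv | apply DD.pf_nd | apply DD.pd_Clo | apply DD.pf_dl | apply DD.pf_prs | apply DD.pd_Fork | apply DD.pd_V | apply pd_maxR | apply pd_WOd | apply pf_pfin | apply pd_Fun1 | apply pf_hh | apply pd_Spr | apply pd_Inj | apply pf_har | apply pd_Le | apply pf_fins | apply pf_card | apply pd_Bij | apply pd_Fini | apply pd_Big | apply pd_Ord | apply pd_Tr | apply pd_Ind | apply pf_succ | apply pf_funs | apply pf_prod | apply pf_lam | apply pd_Fn | apply pf_app | apply pf_ran | apply pf_dom | apply PF.img | apply PF.pow | apply PD.sub | apply PF.adj | apply PF.un | apply PF.sUn | apply PF.op | apply PF.pr | apply PF.sep | exact PF.var _ | exact PF.const _ | apply PD.eq | apply PD.mem | apply PD.not | apply PD.iff | apply PD.or | apply PD.and | apply PD.imp | apply PD.ex | apply PD.all | exact PD.const _ | assumption | refine PF.comp1 (F := _) (by assumption) ?_ | refine PF.comp2 (F := _) (by assumption) ?_ ?_ | refine PF.comp3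 (F := _) (by assumption) ?_ ?_ ?_ | refine PD.app1 (R := _) (by assumption) ?_ | refine PD.app2 (R := _) (by assumption) ?_ ?_ | refine PD.app3 (R := _) (by assumption) ?_ ?_ ?_ | refine PD.app4 (R := _) (by assumption) ?_ ?_ ?_ ?_))), hS]
        exact ⟨⟨hr', h4, h6⟩, hf⟩
      · rw [mem_img (by (repeat' (with_reducible first | apply DD.pf_lv | apply DD.pf_nd | apply DD.pd_Clo | apply DD.pf_dl | apply DD.pf_prs | apply DD.pd_Fork | apply DD.pd_V | apply pd_maxR | apply pd_WOd | apply pf_pfin | apply pd_Fun1 | apply pf_hh | apply pd_Spr | apply pd_Inj | apply pf_har | apply pd_Le | apply pf_fins | apply pf_card | apply pd_Bij | apply pd_Fini | apply pd_Big | apply pd_Ord | apply pd_Tr | apply pd_Ind | apply pf_succ | apply pf_funs | apply pf_prod | apply pf_lam | apply pd_Fn | apply pf_app | apply pf_ran | apply pf_dom | apply PF.img | apply PF.pow | apply PD.sub | apply PF.adj | apply PF.un | apply PF.sUn | apply PF.op | apply PF.pr | apply PF.sep | exact PF.var _ | exact PF.const _ | apply PD.eq | apply PD.mem | apply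 PD.not | apply PD.iff | apply PD.or | apply PD.and | apply PD.imp | apply PD.ex | apply PD.all | exact PD.const _ | assumption | refine PF.comp1 (F := _) (by assumption) ?_ | refine PF.comp2 (F := _) (by assumption) ?_ ?_ | refine PF.comp3 (F := _) (by assumption) ?_ ?_ ?_ | refine PD.app1 (R := _) (by assumption) ?_ | refine PD.app2 (R := _) (by assumption) ?_ ?_ | refine PD.app3 (R := _) (by assumption) ?_ ?_ ?_ | refine PD.app4 (R := _) (by assumption) ?_ ?_ ?_ ?_)))]
        exact ⟨op b y, op_mem_prod.2 ⟨hb, h7⟩, rfl⟩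

/-- MODULE dg.  Every deciding type extends a node which is not a fork.  (`exists_min_sub` for the
complement in `q` of a node contained in `q`; `fork_step`.) -/
theorem Ok.leaf (h : D.Ok P L p0 X) {x q ξ : M} (hq : D.V x q ξ) :
    ∃ r, SetStr.mem r (D.nd x) ∧ GA.sub r q ∧ ¬ D.Fork x r := by
  have hqf : Fini q := (mem_pfin.1 (h.val hq).1).2.1
  let Q : M → Prop := fun s => ∃ r, SetStr.mem r (D.nd x) ∧ GA.sub r q ∧ ∀ z, SetStr.mem z s ↔ SetStr.mem z q ∧ ¬ SetStr.mem z r
  have hQ : PD (fun v : ℕ → M => Q (v 0)) := by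
    show PD (fun v : ℕ → M => ∃ r, SetStr.mem r (D.nd x) ∧ GA.sub r q ∧ ∀ z, SetStr.mem z (v 0) ↔ SetStr.mem z q ∧ ¬ SetStr.mem z r)
    (repeat' (with_reducible first | apply DD.pf_lv | apply DD.pf_nd | apply DD.pd_Clo | apply DD.pf_dl | apply DD.pf_prs | apply DD.pd_Fork | apply DD.pd_V | apply pd_maxR | apply pd_WOd | apply pf_pfin | apply pd_Fun1 | apply pf_hh | apply pd_Spr | apply pd_Inj | apply pf_har | apply pd_Le | apply pf_fins | apply pf_card | apply pd_Bij | apply pd_Fini | apply pd_Big | apply pd_Ord | apply pd_Tr | apply pd_Ind | apply pf_succ | apply pf_funs | apply pf_prod | apply pf_lam | apply pd_Fn | apply pf_app | apply pf_ran | apply pf_dom | apply PF.img | apply PF.pow | apply PD.sub | apply PF.adj | apply PF.un | apply PF.sUn | apply PF.op | apply PF.pr | apply PF.sep | exact PF.var _ | exact PF.const _ | apply PD.eq | apply PD.mem | apply PD.not | apply PD.iff | apply PD.or | apply PD.and | apply PD.imp | apply PD.ex | apply PD.all | exact PD.const _ | assumption | refine PF.comp1 (F := _) (by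 assumption) ?_ | refine PF.comp2 (F := _) (by assumption) ?_ ?_ | refine PF.comp3 (F := _) (by assumption) ?_ ?_ ?_ | refine PD.app1 (R := _) (by assumption) ?_ | refine PD.app2 (R := _) (by assumption) ?_ ?_ | refine PD.app3 (R := _) (by assumption) ?_ ?_ ?_ | refine PD.app4 (R := _) (by assumption) ?_ ?_ ?_ ?_))
  obtain ⟨s, hs, ⟨r, hr, hrq, hr2⟩, hmin⟩ := exists_min_sub hQ hqf
    ⟨emp, emp_mem_nd D x, fun z hz => (not_mem_emp z hz).elim,
      fun z => ⟨fun hz => ⟨hz, not_mem_emp z⟩, fun hz => hz.1⟩⟩
  refine ⟨r, hr, hrq, fun hf => ?_⟩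
  obtain ⟨b, y, hb, hy, hbq, hbr⟩ := h.fork_step hf hrq hq
  have hT : ∀ z, SetStr.mem z (sep s (fun z => ¬ z = op b y)) ↔ SetStr.mem z s ∧ ¬ z = op b y :=
    fun z => mem_sep (by (repeat' (with_reducible first | apply DD.pf_lv | apply DD.pf_nd | apply DD.pd_Clo | apply DD.pf_dl | apply DD.pf_prs | apply DD.pd_Fork | apply DD.pd_V | apply pd_maxR | apply pd_WOd | apply pf_pfin | apply pd_Fun1 | apply pf_hh | apply pd_Spr | apply pd_Inj | apply pf_har | apply pd_Le | apply pf_fins | apply pf_card | apply pd_Bij | apply pd_Fini | apply pd_Big | apply pd_Ord | apply pd_Tr | apply pd_Ind | apply pf_succ | apply pf_funs | apply pf_prod | apply pf_lam | apply pd_Fn | apply pf_app | apply pf_ran | apply pf_dom | apply PF.img | apply PF.pow | apply PD.sub | apply PF.adj | apply PF.un | apply PF.sUn | apply PF.op | apply PF.pr | apply PF.sep | exact PF.var _ | exact PF.const _ | apply PD.eq | apply PD.mem | apply PD.not | apply PD.iff | apply PD.or | apply PD.and | apply PD.imp | apply PD.ex | apply PD.all | exact PD.const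 _ | assumption | refine PF.comp1 (F := _) (by assumption) ?_ | refine PF.comp2 (F := _) (by assumption) ?_ ?_ | refine PF.comp3 (F := _) (by assumption) ?_ ?_ ?_ | refine PD.app1 (R := _) (by assumption) ?_ | refine PD.app2 (R := _) (by assumption) ?_ ?_ | refine PD.app3 (R := _) (by assumption) ?_ ?_ ?_ | refine PD.app4 (R := _) (by assumption) ?_ ?_ ?_ ?_)))
  have h1 := hmin (sep s (fun z => ¬ z = op b y)) (fun z hz => ((hT z).1 hz).1)
    ⟨adj r (op b y), step_mem_nd hr hf hb hy, fun z hz => by
      rw [mem_adj] at hz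
      rcases hz with hz | rfl
      · exact hrq z hz
      · exact hbq, fun z => by
      rw [hT, hr2, mem_adj]
      tauto⟩
  have h2 : SetStr.mem (op b y) s := (hr2 _).2 ⟨hbq, hbr⟩
  rw [← h1, hT] at h2
  exact h2.2 rfl

private theorem dh_mem_lv {x j z : M} : SetStr.mem z (D.lv x j) ↔ SetStr.mem z (prod (pfin D.K D.Y) D.Lam) ∧
    ∃ r ξ, z = op r ξ ∧ SetStr.mem r (D.nd x) ∧ GA.sub (card r) j ∧
    GA.sub (ran r) (app D.Ys j) ∧ (∃ q, GA.sub r q ∧ D.V x q ξ) ∧ ∀ q η, GA.sub r q → D.V x q η → η = ξ := by
  unfold lv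
  rw [mem_sep (by (repeat' (with_reducible first | apply DD.pf_lv | apply DD.pf_nd | apply DD.pd_Clo | apply DD.pf_dl | apply DD.pf_prs | apply DD.pd_Fork | apply DD.pd_V | apply pd_maxR | apply pd_WOd | apply pf_pfin | apply pd_Fun1 | apply pf_hh | apply pd_Spr | apply pd_Inj | apply pf_har | apply pd_Le | apply pf_fins | apply pf_card | apply pd_Bij | apply pd_Fini | apply pd_Big | apply pd_Ord | apply pd_Tr | apply pd_Ind | apply pf_succ | apply pf_funs | apply pf_prod | apply pf_lam | apply pd_Fn | apply pf_app | apply pf_ran | apply pf_dom | apply PF.img | apply PF.pow | apply PD.sub | apply PF.adj | apply PF.un | apply PF.sUn | apply PF.op | apply PF.pr | apply PF.sep | exact PF.var _ | exact PF.const _ | apply PD.eq | apply PD.mem | apply PD.not | apply PD.iff | apply PD.or | apply PD.and | apply PD.imp | apply PD.ex | apply PD.all | exact PD.const _ | assumption | refine PF.comp1 (F := _) (by assumption) ?_ | refine PF.comp2 (F := _) (by assumption) ?_ ?_ | refine PF.comp3 (F := _) (by assumption) ?_ ?_ ?_ |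 refine PD.app1 (R := _) (by assumption) ?_ | refine PD.app2 (R := _) (by assumption) ?_ ?_ | refine PD.app3 (R := _) (by assumption) ?_ ?_ ?_ | refine PD.app4 (R := _) (by assumption) ?_ ?_ ?_ ?_)))]

/-- MODULE dh -/
theorem Ok.lv_fini (h : D.Ok P L p0 X) {x j : M} (hj : SetStr.mem j om) : Fini (D.lv x j) := by
  have h1 := h.nd_fini (x := x) (h.typed.fin j hj) j hj
  have hF : PF (fun v : ℕ → M => GA.sUn (sep (D.lv x j) (fun z => ∃ ξ, z = op (v 0) ξ))) := by (repeat' (with_reducible first | apply DD.pf_lv | apply DD.pf_nd | apply DD.pd_Clo | apply DD.pf_dl | apply DD.pf_prs | apply DD.pd_Fork | apply DD.pd_V | apply pd_maxR | apply pd_WOd | apply pf_pfin | apply pd_Fun1 | apply pf_hh | apply pd_Spr | apply pd_Inj | apply pf_har | apply pd_Le | apply pf_fins | apply pf_card | apply pd_Bij | apply pd_Fini | apply pd_Big | apply pd_Ord | apply pd_Tr | apply pd_Ind | apply pf_succ | apply pf_funs | apply pf_prod | apply pf_lam | apply pd_Fn | apply pf_app | apply pf_ran | apply pf_dom | apply PF.img | apply PF.pow | apply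 PD.sub | apply PF.adj | apply PF.un | apply PF.sUn | apply PF.op | apply PF.pr | apply PF.sep | exact PF.var _ | exact PF.const _ | apply PD.eq | apply PD.mem | apply PD.not | apply PD.iff | apply PD.or | apply PD.and | apply PD.imp | apply PD.ex | apply PD.all | exact PD.const _ | assumption | refine PF.comp1 (F := _) (by assumption) ?_ | refine PF.comp2 (F := _) (by assumption) ?_ ?_ | refine PF.comp3 (F := _) (by assumption) ?_ ?_ ?_ | refine PD.app1 (R := _) (by assumption) ?_ | refine PD.app2 (R := _) (by assumption) ?_ ?_ | refine PD.app3 (R := _) (by assumption) ?_ ?_ ?_ | refine PD.app4 (R := _) (by assumption) ?_ ?_ ?_ ?_))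
  refine (h1.img (F := fun r => GA.sUn (sep (D.lv x j) (fun z => ∃ ξ, z = op r ξ))) hF).sub ?_
  intro z hz
  obtain ⟨-, r, ξ, rfl, h2, h3, h4, ⟨q, hrq, hq⟩, -⟩ := dh_mem_lv.1 hz
  rw [mem_img (F := fun r => GA.sUn (sep (D.lv x j) (fun z => ∃ ξ, z = op r ξ))) hF]
  refine ⟨r, ?_, ?_⟩
  · rw [mem_sep (by (repeat' (with_reducible first | apply DD.pf_lv | apply DD.pf_nd | apply DD.pd_Clo | apply DD.pf_dl | apply DD.pf_prs | apply DD.pd_Fork | apply DD.pd_V | apply pd_maxR | apply pd_WOd | apply pf_pfin | apply pd_Fun1 | apply pf_hh | apply pd_Spr | apply pd_Inj | apply pf_har | apply pd_Le | apply pf_fins | apply pf_card | apply pd_Bij | apply pd_Fini | apply pd_Big | apply pd_Ord | apply pd_Tr | apply pd_Ind | apply pf_succ | apply pf_funs | apply pf_prod | apply pf_lam | apply pd_Fn | apply pf_app | apply pf_ran | apply pf_dom | apply PF.img | apply PF.pow | apply PD.sub | apply PF.adj | apply PF.un | apply PF.sUn | apply PF.op | apply PF.pr | apply PF.sep | exact PF.var _ | exact PF.const _ | apply PD.eq | apply PD.mem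 | apply PD.not | apply PD.iff | apply PD.or | apply PD.and | apply PD.imp | apply PD.ex | apply PD.all | exact PD.const _ | assumption | refine PF.comp1 (F := _) (by assumption) ?_ | refine PF.comp2 (F := _) (by assumption) ?_ ?_ | refine PF.comp3 (F := _) (by assumption) ?_ ?_ ?_ | refine PD.app1 (R := _) (by assumption) ?_ | refine PD.app2 (R := _) (by assumption) ?_ ?_ | refine PD.app3 (R := _) (by assumption) ?_ ?_ ?_ | refine PD.app4 (R := _) (by assumption) ?_ ?_ ?_ ?_)))]
    exact ⟨h2, h3, h4⟩
  · have hm : ∀ w, SetStr.mem w (sep (D.lv x j) (fun z => ∃ η, z = op r η)) ↔ w = op r ξ := by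
      intro w
      rw [mem_sep (by (repeat' (with_reducible first | apply DD.pf_lv | apply DD.pf_nd | apply DD.pd_Clo | apply DD.pf_dl | apply DD.pf_prs | apply DD.pd_Fork | apply DD.pd_V | apply pd_maxR | apply pd_WOd | apply pf_pfin | apply pd_Fun1 | apply pf_hh | apply pd_Spr | apply pd_Inj | apply pf_har | apply pd_Le | apply pf_fins | apply pf_card | apply pd_Bij | apply pd_Fini | apply pd_Big | apply pd_Ord | apply pd_Tr | apply pd_Ind | apply pf_succ | apply pf_funs | apply pf_prod | apply pf_lam | apply pd_Fn | apply pf_app | apply pf_ran | apply pf_dom | apply PF.img | apply PF.pow | apply PD.sub | apply PF.adj | apply PF.un | apply PF.sUn | apply PF.op | apply PF.pr | apply PF.sep | exact PF.var _ | exact PF.const _ | apply PD.eq | apply PD.mem | apply PD.not | apply PD.iff | apply PD.or | apply PD.and | apply PD.imp | apply PD.ex | apply PD.all | exact PD.const _ | assumption | refine PF.comp1 (F := _) (by assumption) ?_ | refine PF.comp2 (F := _) (by assumption) ?_ ?_ | refine PF.comp3 (F := _) (by assumption)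 ?_ ?_ ?_ | refine PD.app1 (R := _) (by assumption) ?_ | refine PD.app2 (R := _) (by assumption) ?_ ?_ | refine PD.app3 (R := _) (by assumption) ?_ ?_ ?_ | refine PD.app4 (R := _) (by assumption) ?_ ?_ ?_ ?_)))]
      constructor
      · rintro ⟨hw, η, rfl⟩
        obtain ⟨-, r', ξ', h5, -, -, -, -, h6⟩ := dh_mem_lv.1 hw
        rw [op_inj] at h5
        obtain ⟨rfl, rfl⟩ := h5
        rw [h6 q ξ hrq hq]
      · rintro rfl
        exact ⟨hz, ξ, rfl⟩
    refine ext (fun w => ?_)
    rw [mem_sUn]
    simp only [hm, exists_eq_left]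

private theorem di_ran_fini {K Y r : M} (hr : SetStr.mem r (pfin K Y)) : Fini (ran r) := by
  obtain ⟨h1, h2, -⟩ := mem_pfin.1 hr
  have h3 : Fini (GA.sUn (GA.sUn r)) := by
    have hop : ∀ z, SetStr.mem z r → ∃ x y, z = op x y := by
      intro z hz
      obtain ⟨x, -, y, -, rfl⟩ := mem_prod.1 (h1 z hz)
      exact ⟨x, y, rfl⟩
    refine (h2.sUn ?_).sUn ?_
    · intro z hz
      obtain ⟨x, y, rfl⟩ := hop z hz
      exact Fini.pr _ _
    · intro w hw
      obtain ⟨z, hz, hwz⟩ := mem_sUn.1 hw
      obtain ⟨x, y, rfl⟩ := hop z hz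
      unfold op at hwz
      rcases mem_pr.1 hwz with rfl | rfl
      · exact Fini.pr _ _
      · exact Fini.pr _ _
  refine h3.sub ?_
  intro y hy
  obtain ⟨x, hx⟩ := mem_ran.1 hy
  exact (op_mem_sUn_sUn hx).2

/-- MODULE di -/
theorem Ok.exists_lv (h : D.Ok P L p0 X) {p x ξ : M} (hp : SetStr.mem (op p (op x ξ)) D.A) :
    ∃ j r, SetStr.mem j om ∧ SetStr.mem (op r ξ) (D.lv x j) ∧ GA.sub r (app D.T p) := by
  have hq : D.V x (app D.T p) ξ := ⟨p, hp, rfl⟩
  obtain ⟨r, hr, hrq, hf⟩ := h.leaf hq
  have hrp := (de_mem_nd.1 hr).1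
  obtain ⟨h1, h2, -⟩ := mem_pfin.1 hrp
  have hs : GA.sub (ran r) D.Y := by
    intro y hy
    obtain ⟨x, hx⟩ := mem_ran.1 hy
    exact (op_mem_prod.1 (h1 _ hx)).2
  obtain ⟨j, hj, hj1, hj2⟩ := h.typed.exists_bound (di_ran_fini hrp) hs (card_mem_om h2)
  refine ⟨j, r, hj, dh_mem_lv.2 ⟨op_mem_prod.2 ⟨hrp, (h.val hq).2.2⟩, r, ξ, rfl, hr, hj2, hj1,
    ⟨_, hrq, hq⟩, ?_⟩, hrq⟩
  intro q η hrq' hq'
  by_contra hne
  exact hf ⟨app D.T p, q, ξ, η, hrq, hrq', hq, hq', fun e => hne e.symm⟩

/-- MODULE di -/
theorem Ok.lv_eq (h : D.Ok P L p0 X) {p x ξ j r η : M} (hp : SetStr.mem (op p (op x ξ)) D.A)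
    (hr : SetStr.mem (op r η) (D.lv x j)) (hs : GA.sub r (app D.T p)) : η = ξ := by
  obtain ⟨-, r', η', h1, -, -, -, -, h2⟩ := dh_mem_lv.1 hr
  rw [op_inj] at h1
  obtain ⟨rfl, rfl⟩ := h1
  exact (h2 _ ξ hs ⟨p, hp, rfl⟩).symm

/-- MODULE dj.  The leaves determine the name. -/
theorem Ok.name_iff (h : D.Ok P L p0 X) {p x ξ : M} (hx : SetStr.mem x X) (hp : SetStr.mem (op p p0) L) :
    SetStr.mem (op p (op x ξ)) D.A ↔ ∀ q j r η, SetStr.mem (op q p) L → SetStr.mem j om → SetStr.mem (op r η) (D.lv x j) →
      GA.sub r (app D.T q) → η = ξ := by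
  constructor
  · intro hA q j r η hq hj hr hs
    exact h.lv_eq (h.name.mono p q x ξ hA hq) hr hs
  · intro hall
    refine h.name.reg p x ξ hp (fun q hq => ?_)
    obtain ⟨q', ξ', hq', hA⟩ := h.name.tot q x (h.trans _ _ _ hq hp) hx
    obtain ⟨j, r, hj, hr, hs⟩ := h.exists_lv hA
    have he := hall q' j r ξ' (h.trans _ _ _ hq' hq) hj hr hs
    rw [he] at hA
    exact ⟨q', hq', hA⟩

end DD

/-- The first component of a pair. -/
noncomputable def p1 (z : M) : M := sUn (sep (sUn z) (fun x => ∃ y, z = op x y))

/-- The second component of a pair. -/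
noncomputable def p2 (z : M) : M := sUn (sep (sUn z) (fun y => ∃ x, z = op x y))

theorem pf_p1 {z : (ℕ → M) → M} (hz : PF z) : PF (fun v => p1 (z v)) :=
  PF.comp1 (F := fun z => p1 z) (by unfold p1; (repeat' (with_reducible first | apply DD.pf_lv | apply DD.pf_nd | apply DD.pd_Clo | apply DD.pf_dl | apply DD.pf_prs | apply DD.pd_Fork | apply DD.pd_V | apply pd_maxR | apply pd_WOd | apply pf_pfin | apply pd_Fun1 | apply pf_hh | apply pd_Spr | apply pd_Inj | apply pf_har | apply pd_Le | apply pf_fins | apply pf_card | apply pd_Bij | apply pd_Fini | apply pd_Big | apply pd_Ord | apply pd_Tr | apply pd_Ind | apply pf_succ | apply pf_funs | apply pf_prod | apply pf_lam | apply pd_Fn | apply pf_app | apply pf_ran | apply pf_dom | apply PF.img | apply PF.pow | apply PD.sub | apply PF.adj | apply PF.un | apply PF.sUn | apply PF.op | apply PF.pr | apply PF.sep | exact PF.var _ | exact PF.const _ | apply PD.eq | apply PD.mem | apply PD.not | apply PD.iff | apply PD.or | apply PD.and | apply PD.imp | apply PD.ex | apply PD.all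 | exact PD.const _ | assumption | refine PF.comp1 (F := _) (by assumption) ?_ | refine PF.comp2 (F := _) (by assumption) ?_ ?_ | refine PF.comp3 (F := _) (by assumption) ?_ ?_ ?_ | refine PD.app1 (R := _) (by assumption) ?_ | refine PD.app2 (R := _) (by assumption) ?_ ?_ | refine PD.app3 (R := _) (by assumption) ?_ ?_ ?_ | refine PD.app4 (R := _) (by assumption) ?_ ?_ ?_ ?_))) hz


theorem pf_p2 {z : (ℕ → M) → M} (hz : PF z) : PF (fun v => p2 (z v)) :=
  PF.comp1 (F := fun z => p2 z) (by unfold p2; (repeat' (with_reducible first | apply pf_p1 | apply DD.pf_lv | apply DD.pf_nd | apply DD.pd_Clo | apply DD.pf_dl | apply DD.pf_prs | apply DD.pd_Fork | apply DD.pd_V | apply pd_maxR | apply pd_WOd | apply pf_pfin | apply pd_Fun1 | apply pf_hh | apply pd_Spr | apply pd_Inj | apply pf_har | apply pd_Le | apply pf_fins | apply pf_card | apply pd_Bij | apply pd_Fini | apply pd_Big | apply pd_Ord | apply pd_Tr | apply pd_Ind | apply pf_succ | apply pf_funs | apply pf_prod | apply pf_lam | apply pd_Fn | apply pf_app | apply pf_ran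 | apply pf_dom | apply PF.img | apply PF.pow | apply PD.sub | apply PF.adj | apply PF.un | apply PF.sUn | apply PF.op | apply PF.pr | apply PF.sep | exact PF.var _ | exact PF.const _ | apply PD.eq | apply PD.mem | apply PD.not | apply PD.iff | apply PD.or | apply PD.and | apply PD.imp | apply PD.ex | apply PD.all | exact PD.const _ | assumption | refine PF.comp1 (F := _) (by assumption) ?_ | refine PF.comp2 (F := _) (by assumption) ?_ ?_ | refine PF.comp3 (F := _) (by assumption) ?_ ?_ ?_ | refine PD.app1 (R := _) (by assumption) ?_ | refine PD.app2 (R := _) (by assumption) ?_ ?_ | refine PD.app3 (R := _) (by assumption) ?_ ?_ ?_ | refine PD.app4 (R := _) (by assumption) ?_ ?_ ?_ ?_))) hz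


/-- MODULE dk -/
theorem p1_op (x y : M) : p1 (op x y) = x := by
  have hm : ∀ w, SetStr.mem w (sep (GA.sUn (op x y)) (fun w => ∃ z, op x y = op w z)) ↔ w = x := by
    intro w
    rw [mem_sep (by (repeat' (with_reducible first | apply pf_p2 | apply pf_p1 | apply DD.pf_lv | apply DD.pf_nd | apply DD.pd_Clo | apply DD.pf_dl | apply DD.pf_prs | apply DD.pd_Fork | apply DD.pd_V | apply pd_maxR | apply pd_WOd | apply pf_pfin | apply pd_Fun1 | apply pf_hh | apply pd_Spr | apply pd_Inj | apply pf_har | apply pd_Le | apply pf_fins | apply pf_card | apply pd_Bij | apply pd_Fini | apply pd_Big | apply pd_Ord | apply pd_Tr | apply pd_Ind | apply pf_succ | apply pf_funs | apply pf_prod | apply pf_lam | apply pd_Fn | apply pf_app | apply pf_ran | apply pf_dom | apply PF.img | apply PF.pow | apply PD.sub | apply PF.adj | apply PF.un | apply PF.sUn | apply PF.op | apply PF.pr | apply PF.sep | exact PF.var _ | exact PF.const _ | apply PD.eq | apply PD.mem | apply PD.not | apply PD.iff | apply PD.or | apply PD.and | apply PD.imp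 | apply PD.ex | apply PD.all | exact PD.const _ | assumption | refine PF.comp1 (F := _) (by assumption) ?_ | refine PF.comp2 (F := _) (by assumption) ?_ ?_ | refine PF.comp3 (F := _) (by assumption) ?_ ?_ ?_ | refine PD.app1 (R := _) (by assumption) ?_ | refine PD.app2 (R := _) (by assumption) ?_ ?_ | refine PD.app3 (R := _) (by assumption) ?_ ?_ ?_ | refine PD.app4 (R := _) (by assumption) ?_ ?_ ?_ ?_)))]
    constructor
    · rintro ⟨-, z, hz⟩
      exact (op_inj.1 hz).1.symm
    · rintro rfl
      refine ⟨mem_sUn.2 ⟨pr w w, ?_, mem_pr.2 (Or.inl rfl)⟩, y, rfl⟩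
      unfold op
      exact mem_pr.2 (Or.inl rfl)
  refine ext (fun w => ?_)
  unfold p1
  rw [mem_sUn]
  simp only [hm, exists_eq_left]

/-- MODULE dk -/
theorem p2_op (x y : M) : p2 (op x y) = y := by
  have hm : ∀ w, SetStr.mem w (sep (GA.sUn (op x y)) (fun w => ∃ z, op x y = op z w)) ↔ w = y := by
    intro w
    rw [mem_sep (by (repeat' (with_reducible first | apply pf_p2 | apply pf_p1 | apply DD.pf_lv | apply DD.pf_nd | apply DD.pd_Clo | apply DD.pf_dl | apply DD.pf_prs | apply DD.pd_Fork | apply DD.pd_V | apply pd_maxR | apply pd_WOd | apply pf_pfin | apply pd_Fun1 | apply pf_hh | apply pd_Spr | apply pd_Inj | apply pf_har | apply pd_Le | apply pf_fins | apply pf_card | apply pd_Bij | apply pd_Fini | apply pd_Big | apply pd_Ord | apply pd_Tr | apply pd_Ind | apply pf_succ | apply pf_funs | apply pf_prod | apply pf_lam | apply pd_Fn | apply pf_app | apply pf_ran | apply pf_dom | apply PF.img | apply PF.pow | apply PD.sub | apply PF.adj | apply PF.un | apply PF.sUn | apply PF.op | apply PF.pr | apply PF.sep | exact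 PF.var _ | exact PF.const _ | apply PD.eq | apply PD.mem | apply PD.not | apply PD.iff | apply PD.or | apply PD.and | apply PD.imp | apply PD.ex | apply PD.all | exact PD.const _ | assumption | refine PF.comp1 (F := _) (by assumption) ?_ | refine PF.comp2 (F := _) (by assumption) ?_ ?_ | refine PF.comp3 (F := _) (by assumption) ?_ ?_ ?_ | refine PD.app1 (R := _) (by assumption) ?_ | refine PD.app2 (R := _) (by assumption) ?_ ?_ | refine PD.app3 (R := _) (by assumption) ?_ ?_ ?_ | refine PD.app4 (R := _) (by assumption) ?_ ?_ ?_ ?_)))]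
    constructor
    · rintro ⟨-, z, hz⟩
      exact (op_inj.1 hz).2.symm
    · rintro rfl
      refine ⟨mem_sUn.2 ⟨pr x w, ?_, mem_pr.2 (Or.inr rfl)⟩, x, rfl⟩
      unfold op
      exact mem_pr.2 (Or.inr rfl)
  refine ext (fun w => ?_)
  unfold p2
  rw [mem_sUn]
  simp only [hm, exists_eq_left]

/-- MODULE dk.  A choice function as a set of the model. -/
theorem exists_choice_set {a : M} (h : WOd a) :
    ∃ C, ∀ s, GA.sub s a → (∃ z, SetStr.mem z s) → SetStr.mem (app C s) s := by
  obtain ⟨c, hc, h1⟩ := h.choice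
  refine ⟨lam c (pow a), fun s hs hne => ?_⟩
  rw [app_lam hc (mem_pow.2 hs)]
  exact h1 s hs hne

/-- MODULE dl.  Covering for forcings with finite types.  (`DD.Ok` with the choice function of
`exists_choice_set`; `cover_seq` for `S x j = {ξ ∈ l : ∃ r, op r ξ ∈ lv x j}`; if `l = emp` then
`X = emp` by `FName.tot`.) -/
theorem Typed.covP {P L K Y T Ys : M} (h : Typed P L K Y T Ys)
    (hm : ∀ q p, SetStr.mem (op q p) L → SetStr.mem q P ∧ SetStr.mem p P)
    (ht : ∀ r q p, SetStr.mem (op r q) L → SetStr.mem (op q p) L → SetStr.mem (op r p) L) (hr : ∀ p, SetStr.mem p P → SetStr.mem (op p p) L)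
    (hw : WOd (pfin K Y)) : CovP P L := by
  intro p0 X l A hl hA
  obtain ⟨C, hC⟩ := exists_choice_set (hw.prod hw)
  let D : DD M := ⟨K, Y, T, Ys, C, l, A⟩
  have hOk : D.Ok P L p0 X := ⟨h, hA, hm, ht, hC⟩
  rcases hl.zero_or_pos with h0 | h0
  · have hX : ∀ x, ¬ SetStr.mem x X := by
      intro x hx
      obtain ⟨q, ξ, -, h2⟩ := hA.tot p0 x (hr p0 hA.top) hx
      have h3 := (hA.fld _ _ _ h2).2.2
      rw [h0] at h3
      exact not_mem_emp _ h3
    exact ⟨lam (fun _ => emp) X, lam_Fn (by (repeat' (with_reducible first | apply pf_p2 | apply pf_p1 | apply DD.pf_lv | apply DD.pf_nd | apply DD.pd_Clo | apply DD.pf_dl | apply DD.pf_prs | apply DD.pd_Fork | apply DD.pd_V | apply pd_maxR | apply pd_WOd | apply pf_pfin | apply pd_Fun1 | apply pf_hh | apply pd_Spr | apply pd_Inj | apply pf_har | apply pd_Le | apply pf_fins | apply pf_card | apply pd_Bij | apply pd_Fini | apply pd_Big | apply pd_Ord | apply pd_Tr | apply pd_Ind | apply pf_succ | apply pf_funs | apply pf_prod | apply pf_lam | apply pd_Fn | apply pf_app | apply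 pf_ran | apply pf_dom | apply PF.img | apply PF.pow | apply PD.sub | apply PF.adj | apply PF.un | apply PF.sUn | apply PF.op | apply PF.pr | apply PF.sep | exact PF.var _ | exact PF.const _ | apply PD.eq | apply PD.mem | apply PD.not | apply PD.iff | apply PD.or | apply PD.and | apply PD.imp | apply PD.ex | apply PD.all | exact PD.const _ | assumption | refine PF.comp1 (F := _) (by assumption) ?_ | refine PF.comp2 (F := _) (by assumption) ?_ ?_ | refine PF.comp3 (F := _) (by assumption) ?_ ?_ ?_ | refine PD.app1 (R := _) (by assumption) ?_ | refine PD.app2 (R := _) (by assumption) ?_ ?_ | refine PD.app3 (R := _) (by assumption) ?_ ?_ ?_ | refine PD.app4 (R := _) (by assumption) ?_ ?_ ?_ ?_))) X, fun x hx => (hX x hx).elim,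
      fun p x ξ hp => (hX x (hA.fld _ _ _ hp).2.1).elim⟩
  · have hlv : ∀ x j z, SetStr.mem z (D.lv x j) → SetStr.mem z (prod (pfin K Y) l) := by
      intro x j z hz
      unfold DD.lv at hz
      rw [mem_sep (by (repeat' (with_reducible first | apply pf_p2 | apply pf_p1 | apply DD.pf_lv | apply DD.pf_nd | apply DD.pd_Clo | apply DD.pf_dl | apply DD.pf_prs | apply DD.pd_Fork | apply DD.pd_V | apply pd_maxR | apply pd_WOd | apply pf_pfin | apply pd_Fun1 | apply pf_hh | apply pd_Spr | apply pd_Inj | apply pf_har | apply pd_Le | apply pf_fins | apply pf_card | apply pd_Bij | apply pd_Fini | apply pd_Big | apply pd_Ord | apply pd_Tr | apply pd_Ind | apply pf_succ | apply pf_funs | apply pf_prod | apply pf_lam | apply pd_Fn | apply pf_app | apply pf_ran | apply pf_dom | apply PF.img | apply PF.pow | apply PD.sub | apply PF.adj | apply PF.un | apply PF.sUn | apply PF.op | apply PF.pr | apply PF.sep | exact PF.var _ | exact PF.const _ | apply PD.eq | apply PD.mem | apply PD.not | apply PD.iff | apply PD.or | apply PD.and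 | apply PD.imp | apply PD.ex | apply PD.all | exact PD.const _ | assumption | refine PF.comp1 (F := _) (by assumption) ?_ | refine PF.comp2 (F := _) (by assumption) ?_ ?_ | refine PF.comp3 (F := _) (by assumption) ?_ ?_ ?_ | refine PD.app1 (R := _) (by assumption) ?_ | refine PD.app2 (R := _) (by assumption) ?_ ?_ | refine PD.app3 (R := _) (by assumption) ?_ ?_ ?_ | refine PD.app4 (R := _) (by assumption) ?_ ?_ ?_ ?_)))] at hz
      exact hz.1
    have hv : ∀ x, SetStr.mem x X →
        SetStr.mem (app (lam (fun x => lam (fun j => ran (D.lv x j)) om) X) x) (funs om (fins l)) := by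
      intro x hx
      rw [app_lam (by (repeat' (with_reducible first | apply pf_p2 | apply pf_p1 | apply DD.pf_lv | apply DD.pf_nd | apply DD.pd_Clo | apply DD.pf_dl | apply DD.pf_prs | apply DD.pd_Fork | apply DD.pd_V | apply pd_maxR | apply pd_WOd | apply pf_pfin | apply pd_Fun1 | apply pf_hh | apply pd_Spr | apply pd_Inj | apply pf_har | apply pd_Le | apply pf_fins | apply pf_card | apply pd_Bij | apply pd_Fini | apply pd_Big | apply pd_Ord | apply pd_Tr | apply pd_Ind | apply pf_succ | apply pf_funs | apply pf_prod | apply pf_lam | apply pd_Fn | apply pf_app | apply pf_ran | apply pf_dom | apply PF.img | apply PF.pow | apply PD.sub | apply PF.adj | apply PF.un | apply PF.sUn | apply PF.op | apply PF.pr | apply PF.sep | exact PF.var _ | exact PF.const _ | apply PD.eq | apply PD.mem | apply PD.not | apply PD.iff | apply PD.or | apply PD.and | apply PD.imp | apply PD.ex | apply PD.all | exact PD.const _ | assumption | refine PF.comp1 (F := _) (by assumption) ?_ | refine PF.comp2 (F := _) (by assumption) ?_ ?_ | refine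 PF.comp3 (F := _) (by assumption) ?_ ?_ ?_ | refine PD.app1 (R := _) (by assumption) ?_ | refine PD.app2 (R := _) (by assumption) ?_ ?_ | refine PD.app3 (R := _) (by assumption) ?_ ?_ ?_ | refine PD.app4 (R := _) (by assumption) ?_ ?_ ?_ ?_))) hx]
      refine mem_funs.2 ⟨lam_Fn (by (repeat' (with_reducible first | apply pf_p2 | apply pf_p1 | apply DD.pf_lv | apply DD.pf_nd | apply DD.pd_Clo | apply DD.pf_dl | apply DD.pf_prs | apply DD.pd_Fork | apply DD.pd_V | apply pd_maxR | apply pd_WOd | apply pf_pfin | apply pd_Fun1 | apply pf_hh | apply pd_Spr | apply pd_Inj | apply pf_har | apply pd_Le | apply pf_fins | apply pf_card | apply pd_Bij | apply pd_Fini | apply pd_Big | apply pd_Ord | apply pd_Tr | apply pd_Ind | apply pf_succ | apply pf_funs | apply pf_prod | apply pf_lam | apply pd_Fn | apply pf_app | apply pf_ran | apply pf_dom | apply PF.img | apply PF.pow | apply PD.sub | apply PF.adj | apply PF.un | apply PF.sUn | apply PF.op | apply PF.pr | apply PF.sep | exact PF.var _ | exact PF.const _ | apply PD.eq | apply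 PD.mem | apply PD.not | apply PD.iff | apply PD.or | apply PD.and | apply PD.imp | apply PD.ex | apply PD.all | exact PD.const _ | assumption | refine PF.comp1 (F := _) (by assumption) ?_ | refine PF.comp2 (F := _) (by assumption) ?_ ?_ | refine PF.comp3 (F := _) (by assumption) ?_ ?_ ?_ | refine PD.app1 (R := _) (by assumption) ?_ | refine PD.app2 (R := _) (by assumption) ?_ ?_ | refine PD.app3 (R := _) (by assumption) ?_ ?_ ?_ | refine PD.app4 (R := _) (by assumption) ?_ ?_ ?_ ?_))) _, fun j hj => ?_⟩
      rw [app_lam (by (repeat' (with_reducible first | apply pf_p2 | apply pf_p1 | apply DD.pf_lv | apply DD.pf_nd | apply DD.pd_Clo | apply DD.pf_dl | apply DD.pf_prs | apply DD.pd_Fork | apply DD.pd_V | apply pd_maxR | apply pd_WOd | apply pf_pfin | apply pd_Fun1 | apply pf_hh | apply pd_Spr | apply pd_Inj | apply pf_har | apply pd_Le | apply pf_fins | apply pf_card | apply pd_Bij | apply pd_Fini | apply pd_Big | apply pd_Ord | apply pd_Tr | apply pd_Ind | apply pf_succ | apply pf_funs | apply pf_prod | apply pf_lam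 | apply pd_Fn | apply pf_app | apply pf_ran | apply pf_dom | apply PF.img | apply PF.pow | apply PD.sub | apply PF.adj | apply PF.un | apply PF.sUn | apply PF.op | apply PF.pr | apply PF.sep | exact PF.var _ | exact PF.const _ | apply PD.eq | apply PD.mem | apply PD.not | apply PD.iff | apply PD.or | apply PD.and | apply PD.imp | apply PD.ex | apply PD.all | exact PD.const _ | assumption | refine PF.comp1 (F := _) (by assumption) ?_ | refine PF.comp2 (F := _) (by assumption) ?_ ?_ | refine PF.comp3 (F := _) (by assumption) ?_ ?_ ?_ | refine PD.app1 (R := _) (by assumption) ?_ | refine PD.app2 (R := _) (by assumption) ?_ ?_ | refine PD.app3 (R := _) (by assumption) ?_ ?_ ?_ | refine PD.app4 (R := _) (by assumption) ?_ ?_ ?_ ?_))) hj, mem_fins]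
      constructor
      · intro ξ hξ
        obtain ⟨r, hr'⟩ := mem_ran.1 hξ
        exact (op_mem_prod.1 (hlv _ _ _ hr')).2
      · refine ((hOk.lv_fini (x := x) hj).img (F := fun z => p2 z) (by (repeat' (with_reducible first | apply pf_p2 | apply pf_p1 | apply DD.pf_lv | apply DD.pf_nd | apply DD.pd_Clo | apply DD.pf_dl | apply DD.pf_prs | apply DD.pd_Fork | apply DD.pd_V | apply pd_maxR | apply pd_WOd | apply pf_pfin | apply pd_Fun1 | apply pf_hh | apply pd_Spr | apply pd_Inj | apply pf_har | apply pd_Le | apply pf_fins | apply pf_card | apply pd_Bij | apply pd_Fini | apply pd_Big | apply pd_Ord | apply pd_Tr | apply pd_Ind | apply pf_succ | apply pf_funs | apply pf_prod | apply pf_lam | apply pd_Fn | apply pf_app | apply pf_ran | apply pf_dom | apply PF.img | apply PF.pow | apply PD.sub | apply PF.adj | apply PF.un | apply PF.sUn | apply PF.op | apply PF.pr | apply PF.sep | exact PF.var _ | exact PF.const _ | apply PD.eq | apply PD.mem | apply PD.not | apply PD.iff | apply PD.or | apply PD.and | apply PD.imp | apply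 PD.ex | apply PD.all | exact PD.const _ | assumption | refine PF.comp1 (F := _) (by assumption) ?_ | refine PF.comp2 (F := _) (by assumption) ?_ ?_ | refine PF.comp3 (F := _) (by assumption) ?_ ?_ ?_ | refine PD.app1 (R := _) (by assumption) ?_ | refine PD.app2 (R := _) (by assumption) ?_ ?_ | refine PD.app3 (R := _) (by assumption) ?_ ?_ ?_ | refine PD.app4 (R := _) (by assumption) ?_ ?_ ?_ ?_)))).sub (fun ξ hξ => ?_)
        obtain ⟨r, hr'⟩ := mem_ran.1 hξ
        rw [mem_img (by (repeat' (with_reducible first | apply pf_p2 | apply pf_p1 | apply DD.pf_lv | apply DD.pf_nd | apply DD.pd_Clo | apply DD.pf_dl | apply DD.pf_prs | apply DD.pd_Fork | apply DD.pd_V | apply pd_maxR | apply pd_WOd | apply pf_pfin | apply pd_Fun1 | apply pf_hh | apply pd_Spr | apply pd_Inj | apply pf_har | apply pd_Le | apply pf_fins | apply pf_card | apply pd_Bij | apply pd_Fini | apply pd_Big | apply pd_Ord | apply pd_Tr | apply pd_Ind | apply pf_succ | apply pf_funs | apply pf_prod | apply pf_lam | apply pd_Fn | apply pf_app | apply pf_ran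 | apply pf_dom | apply PF.img | apply PF.pow | apply PD.sub | apply PF.adj | apply PF.un | apply PF.sUn | apply PF.op | apply PF.pr | apply PF.sep | exact PF.var _ | exact PF.const _ | apply PD.eq | apply PD.mem | apply PD.not | apply PD.iff | apply PD.or | apply PD.and | apply PD.imp | apply PD.ex | apply PD.all | exact PD.const _ | assumption | refine PF.comp1 (F := _) (by assumption) ?_ | refine PF.comp2 (F := _) (by assumption) ?_ ?_ | refine PF.comp3 (F := _) (by assumption) ?_ ?_ ?_ | refine PD.app1 (R := _) (by assumption) ?_ | refine PD.app2 (R := _) (by assumption) ?_ ?_ | refine PD.app3 (R := _) (by assumption) ?_ ?_ ?_ | refine PD.app4 (R := _) (by assumption) ?_ ?_ ?_ ?_)))]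
        exact ⟨_, hr', (p2_op r ξ).symm⟩
    obtain ⟨E, hE1, hE2, hE3⟩ := cover_seq hl h0
      (lam_Fn (F := fun x => lam (fun j => ran (D.lv x j)) om) (by (repeat' (with_reducible first | apply pf_p2 | apply pf_p1 | apply DD.pf_lv | apply DD.pf_nd | apply DD.pd_Clo | apply DD.pf_dl | apply DD.pf_prs | apply DD.pd_Fork | apply DD.pd_V | apply pd_maxR | apply pd_WOd | apply pf_pfin | apply pd_Fun1 | apply pf_hh | apply pd_Spr | apply pd_Inj | apply pf_har | apply pd_Le | apply pf_fins | apply pf_card | apply pd_Bij | apply pd_Fini | apply pd_Big | apply pd_Ord | apply pd_Tr | apply pd_Ind | apply pf_succ | apply pf_funs | apply pf_prod | apply pf_lam | apply pd_Fn | apply pf_app | apply pf_ran | apply pf_dom | apply PF.img | apply PF.pow | apply PD.sub | apply PF.adj | apply PF.un | apply PF.sUn | apply PF.op | apply PF.pr | apply PF.sep | exact PF.var _ | exact PF.const _ | apply PD.eq | apply PD.mem | apply PD.not | apply PD.iff | apply PD.or | apply PD.and | apply PD.imp | apply PD.ex | apply PD.all | exact PD.const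 _ | assumption | refine PF.comp1 (F := _) (by assumption) ?_ | refine PF.comp2 (F := _) (by assumption) ?_ ?_ | refine PF.comp3 (F := _) (by assumption) ?_ ?_ ?_ | refine PD.app1 (R := _) (by assumption) ?_ | refine PD.app2 (R := _) (by assumption) ?_ ?_ | refine PD.app3 (R := _) (by assumption) ?_ ?_ ?_ | refine PD.app4 (R := _) (by assumption) ?_ ?_ ?_ ?_))) X) hv
    refine ⟨E, hE1, hE2, fun p x ξ hp => ?_⟩
    have hx : SetStr.mem x X := (hA.fld _ _ _ hp).2.1
    obtain ⟨j, r, hj, h2, -⟩ := hOk.exists_lv hp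
    refine hE3 x j ξ hx hj ?_
    rw [app_lam (by (repeat' (with_reducible first | apply pf_p2 | apply pf_p1 | apply DD.pf_lv | apply DD.pf_nd | apply DD.pd_Clo | apply DD.pf_dl | apply DD.pf_prs | apply DD.pd_Fork | apply DD.pd_V | apply pd_maxR | apply pd_WOd | apply pf_pfin | apply pd_Fun1 | apply pf_hh | apply pd_Spr | apply pd_Inj | apply pf_har | apply pd_Le | apply pf_fins | apply pf_card | apply pd_Bij | apply pd_Fini | apply pd_Big | apply pd_Ord | apply pd_Tr | apply pd_Ind | apply pf_succ | apply pf_funs | apply pf_prod | apply pf_lam | apply pd_Fn | apply pf_app | apply pf_ran | apply pf_dom | apply PF.img | apply PF.pow | apply PD.sub | apply PF.adj | apply PF.un | apply PF.sUn | apply PF.op | apply PF.pr | apply PF.sep | exact PF.var _ | exact PF.const _ | apply PD.eq | apply PD.mem | apply PD.not | apply PD.iff | apply PD.or | apply PD.and | apply PD.imp | apply PD.ex | apply PD.all | exact PD.const _ | assumption | refine PF.comp1 (F := _) (by assumption) ?_ | refine PF.comp2 (F := _) (by assumption)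 ?_ ?_ | refine PF.comp3 (F := _) (by assumption) ?_ ?_ ?_ | refine PD.app1 (R := _) (by assumption) ?_ | refine PD.app2 (R := _) (by assumption) ?_ ?_ | refine PD.app3 (R := _) (by assumption) ?_ ?_ ?_ | refine PD.app4 (R := _) (by assumption) ?_ ?_ ?_ ?_))) hx, app_lam (by (repeat' (with_reducible first | apply pf_p2 | apply pf_p1 | apply DD.pf_lv | apply DD.pf_nd | apply DD.pd_Clo | apply DD.pf_dl | apply DD.pf_prs | apply DD.pd_Fork | apply DD.pd_V | apply pd_maxR | apply pd_WOd | apply pf_pfin | apply pd_Fun1 | apply pf_hh | apply pd_Spr | apply pd_Inj | apply pf_har | apply pd_Le | apply pf_fins | apply pf_card | apply pd_Bij | apply pd_Fini | apply pd_Big | apply pd_Ord | apply pd_Tr | apply pd_Ind | apply pf_succ | apply pf_funs | apply pf_prod | apply pf_lam | apply pd_Fn | apply pf_app | apply pf_ran | apply pf_dom | apply PF.img | apply PF.pow | apply PD.sub | apply PF.adj | apply PF.un | apply PF.sUn | apply PF.op | apply PF.pr | apply PF.sep | exact PF.var _ | exact PF.const _ | apply PD.eq | apply PD.mem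 | apply PD.not | apply PD.iff | apply PD.or | apply PD.and | apply PD.imp | apply PD.ex | apply PD.all | exact PD.const _ | assumption | refine PF.comp1 (F := _) (by assumption) ?_ | refine PF.comp2 (F := _) (by assumption) ?_ ?_ | refine PF.comp3 (F := _) (by assumption) ?_ ?_ ?_ | refine PD.app1 (R := _) (by assumption) ?_ | refine PD.app2 (R := _) (by assumption) ?_ ?_ | refine PD.app3 (R := _) (by assumption) ?_ ?_ ?_ | refine PD.app4 (R := _) (by assumption) ?_ ?_ ?_ ?_))) hj]
    exact mem_ran.2 ⟨r, h2⟩

/-- MODULE dm.  Coding of names of reals for forcings with finite types.  (`D i` = the code, by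
`Cd.seq` with `a = prod (pfin K Y) om`, of the double sequence `(n, j) ↦ lv (op i n) j`;
`DD.Ok.name_iff`.) -/
theorem Typed.upP {P L K Y T Ys κ : M} (h : Typed P L K Y T Ys)
    (hm : ∀ q p, SetStr.mem (op q p) L → SetStr.mem q P ∧ SetStr.mem p P)
    (ht : ∀ r q p, SetStr.mem (op r q) L → SetStr.mem (op q p) L → SetStr.mem (op r p) L) (hr : ∀ p, SetStr.mem p P → SetStr.mem (op p p) L)
    (hκ : Big κ) (hw : Cd κ (pfin K Y)) : UpP P L κ := by
  intro p0 ν A hA
  obtain ⟨C, hC⟩ := exists_choice_set (hw.1.prod hw.1)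
  let D : DD M := ⟨K, Y, T, Ys, C, om, A⟩
  have hOk : D.Ok P L p0 (prod ν om) := ⟨h, hA, hm, ht, hC⟩
  obtain ⟨c, hc1, hc2, hc3⟩ := (hw.prod (Cd.om hκ) hκ).seq hκ
  have hlv : ∀ x j z, SetStr.mem z (D.lv x j) → SetStr.mem z (prod (pfin K Y) om) := by
    intro x j z hz
    unfold DD.lv at hz
    rw [mem_sep (by (repeat' (with_reducible first | apply pf_p2 | apply pf_p1 | apply DD.pf_lv | apply DD.pf_nd | apply DD.pd_Clo | apply DD.pf_dl | apply DD.pf_prs | apply DD.pd_Fork | apply DD.pd_V | apply pd_maxR | apply pd_WOd | apply pf_pfin | apply pd_Fun1 | apply pf_hh | apply pd_Spr | apply pd_Inj | apply pf_har | apply pd_Le | apply pf_fins | apply pf_card | apply pd_Bij | apply pd_Fini | apply pd_Big | apply pd_Ord | apply pd_Tr | apply pd_Ind | apply pf_succ | apply pf_funs | apply pf_prod | apply pf_lam | apply pd_Fn | apply pf_app | apply pf_ran | apply pf_dom | apply PF.img | apply PF.pow | apply PD.sub | apply PF.adj | apply PF.un | apply PF.sUn | apply PF.op | apply PF.pr | apply PF.sep | exact PF.var _ | exact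 PF.const _ | apply PD.eq | apply PD.mem | apply PD.not | apply PD.iff | apply PD.or | apply PD.and | apply PD.imp | apply PD.ex | apply PD.all | exact PD.const _ | assumption | refine PF.comp1 (F := _) (by assumption) ?_ | refine PF.comp2 (F := _) (by assumption) ?_ ?_ | refine PF.comp3 (F := _) (by assumption) ?_ ?_ ?_ | refine PD.app1 (R := _) (by assumption) ?_ | refine PD.app2 (R := _) (by assumption) ?_ ?_ | refine PD.app3 (R := _) (by assumption) ?_ ?_ ?_ | refine PD.app4 (R := _) (by assumption) ?_ ?_ ?_ ?_)))] at hz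
    exact hz.1
  have hu : ∀ i, SetStr.mem (lam (fun z => D.lv (op i (p1 z)) (p2 z)) (prod om om)) (funs (prod om om) (fins (prod (pfin K Y) om))) := by
    intro i
    refine mem_funs.2 ⟨lam_Fn (by (repeat' (with_reducible first | apply pf_p2 | apply pf_p1 | apply DD.pf_lv | apply DD.pf_nd | apply DD.pd_Clo | apply DD.pf_dl | apply DD.pf_prs | apply DD.pd_Fork | apply DD.pd_V | apply pd_maxR | apply pd_WOd | apply pf_pfin | apply pd_Fun1 | apply pf_hh | apply pd_Spr | apply pd_Inj | apply pf_har | apply pd_Le | apply pf_fins | apply pf_card | apply pd_Bij | apply pd_Fini | apply pd_Big | apply pd_Ord | apply pd_Tr | apply pd_Ind | apply pf_succ | apply pf_funs | apply pf_prod | apply pf_lam | apply pd_Fn | apply pf_app | apply pf_ran | apply pf_dom | apply PF.img | apply PF.pow | apply PD.sub | apply PF.adj | apply PF.un | apply PF.sUn | apply PF.op | apply PF.pr | apply PF.sep | exact PF.var _ | exact PF.const _ | apply PD.eq | apply PD.mem | apply PD.not | apply PD.iff | apply PD.or | apply PD.and | apply PD.imp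 | apply PD.ex | apply PD.all | exact PD.const _ | assumption | refine PF.comp1 (F := _) (by assumption) ?_ | refine PF.comp2 (F := _) (by assumption) ?_ ?_ | refine PF.comp3 (F := _) (by assumption) ?_ ?_ ?_ | refine PD.app1 (R := _) (by assumption) ?_ | refine PD.app2 (R := _) (by assumption) ?_ ?_ | refine PD.app3 (R := _) (by assumption) ?_ ?_ ?_ | refine PD.app4 (R := _) (by assumption) ?_ ?_ ?_ ?_))) _, fun z hz => ?_⟩
    rw [app_lam (by (repeat' (with_reducible first | apply pf_p2 | apply pf_p1 | apply DD.pf_lv | apply DD.pf_nd | apply DD.pd_Clo | apply DD.pf_dl | apply DD.pf_prs | apply DD.pd_Fork | apply DD.pd_V | apply pd_maxR | apply pd_WOd | apply pf_pfin | apply pd_Fun1 | apply pf_hh | apply pd_Spr | apply pd_Inj | apply pf_har | apply pd_Le | apply pf_fins | apply pf_card | apply pd_Bij | apply pd_Fini | apply pd_Big | apply pd_Ord | apply pd_Tr | apply pd_Ind | apply pf_succ | apply pf_funs | apply pf_prod | apply pf_lam | apply pd_Fn | apply pf_app | apply pf_ran | apply pf_dom | apply PF.img | apply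 PF.pow | apply PD.sub | apply PF.adj | apply PF.un | apply PF.sUn | apply PF.op | apply PF.pr | apply PF.sep | exact PF.var _ | exact PF.const _ | apply PD.eq | apply PD.mem | apply PD.not | apply PD.iff | apply PD.or | apply PD.and | apply PD.imp | apply PD.ex | apply PD.all | exact PD.const _ | assumption | refine PF.comp1 (F := _) (by assumption) ?_ | refine PF.comp2 (F := _) (by assumption) ?_ ?_ | refine PF.comp3 (F := _) (by assumption) ?_ ?_ ?_ | refine PD.app1 (R := _) (by assumption) ?_ | refine PD.app2 (R := _) (by assumption) ?_ ?_ | refine PD.app3 (R := _) (by assumption) ?_ ?_ ?_ | refine PD.app4 (R := _) (by assumption) ?_ ?_ ?_ ?_))) hz]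
    obtain ⟨n, hn, j, hj, rfl⟩ := mem_prod.1 hz
    rw [p1_op, p2_op, mem_fins]
    exact ⟨fun w hw' => hlv _ _ w hw', hOk.lv_fini hj⟩
  refine ⟨lam (fun i => app c (lam (fun z => D.lv (op i (p1 z)) (p2 z)) (prod om om))) ν,
    lam_Fn (by (repeat' (with_reducible first | apply pf_p2 | apply pf_p1 | apply DD.pf_lv | apply DD.pf_nd | apply DD.pd_Clo | apply DD.pf_dl | apply DD.pf_prs | apply DD.pd_Fork | apply DD.pd_V | apply pd_maxR | apply pd_WOd | apply pf_pfin | apply pd_Fun1 | apply pf_hh | apply pd_Spr | apply pd_Inj | apply pf_har | apply pd_Le | apply pf_fins | apply pf_card | apply pd_Bij | apply pd_Fini | apply pd_Big | apply pd_Ord | apply pd_Tr | apply pd_Ind | apply pf_succ | apply pf_funs | apply pf_prod | apply pf_lam | apply pd_Fn | apply pf_app | apply pf_ran | apply pf_dom | apply PF.img | apply PF.pow | apply PD.sub | apply PF.adj | apply PF.un | apply PF.sUn | apply PF.op | apply PF.pr | apply PF.sep | exact PF.var _ | exact PF.const _ | apply PD.eq | apply PD.mem | apply PD.not | apply PD.iff | apply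 PD.or | apply PD.and | apply PD.imp | apply PD.ex | apply PD.all | exact PD.const _ | assumption | refine PF.comp1 (F := _) (by assumption) ?_ | refine PF.comp2 (F := _) (by assumption) ?_ ?_ | refine PF.comp3 (F := _) (by assumption) ?_ ?_ ?_ | refine PD.app1 (R := _) (by assumption) ?_ | refine PD.app2 (R := _) (by assumption) ?_ ?_ | refine PD.app3 (R := _) (by assumption) ?_ ?_ ?_ | refine PD.app4 (R := _) (by assumption) ?_ ?_ ?_ ?_))) ν, fun i hi => ?_, ?_⟩
  · rw [app_lam (by (repeat' (with_reducible first | apply pf_p2 | apply pf_p1 | apply DD.pf_lv | apply DD.pf_nd | apply DD.pd_Clo | apply DD.pf_dl | apply DD.pf_prs | apply DD.pd_Fork | apply DD.pd_V | apply pd_maxR | apply pd_WOd | apply pf_pfin | apply pd_Fun1 | apply pf_hh | apply pd_Spr | apply pd_Inj | apply pf_har | apply pd_Le | apply pf_fins | apply pf_card | apply pd_Bij | apply pd_Fini | apply pd_Big | apply pd_Ord | apply pd_Tr | apply pd_Ind | apply pf_succ | apply pf_funs | apply pf_prod | apply pf_lam | apply pd_Fn | apply pf_app | apply pf_ran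 | apply pf_dom | apply PF.img | apply PF.pow | apply PD.sub | apply PF.adj | apply PF.un | apply PF.sUn | apply PF.op | apply PF.pr | apply PF.sep | exact PF.var _ | exact PF.const _ | apply PD.eq | apply PD.mem | apply PD.not | apply PD.iff | apply PD.or | apply PD.and | apply PD.imp | apply PD.ex | apply PD.all | exact PD.const _ | assumption | refine PF.comp1 (F := _) (by assumption) ?_ | refine PF.comp2 (F := _) (by assumption) ?_ ?_ | refine PF.comp3 (F := _) (by assumption) ?_ ?_ ?_ | refine PD.app1 (R := _) (by assumption) ?_ | refine PD.app2 (R := _) (by assumption) ?_ ?_ | refine PD.app3 (R := _) (by assumption) ?_ ?_ ?_ | refine PD.app4 (R := _) (by assumption) ?_ ?_ ?_ ?_))) hi]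
    exact hc2 _ (hu i)
  · intro i k hi hk he p n m hp
    rw [app_lam (by (repeat' (with_reducible first | apply pf_p2 | apply pf_p1 | apply DD.pf_lv | apply DD.pf_nd | apply DD.pd_Clo | apply DD.pf_dl | apply DD.pf_prs | apply DD.pd_Fork | apply DD.pd_V | apply pd_maxR | apply pd_WOd | apply pf_pfin | apply pd_Fun1 | apply pf_hh | apply pd_Spr | apply pd_Inj | apply pf_har | apply pd_Le | apply pf_fins | apply pf_card | apply pd_Bij | apply pd_Fini | apply pd_Big | apply pd_Ord | apply pd_Tr | apply pd_Ind | apply pf_succ | apply pf_funs | apply pf_prod | apply pf_lam | apply pd_Fn | apply pf_app | apply pf_ran | apply pf_dom | apply PF.img | apply PF.pow | apply PD.sub | apply PF.adj | apply PF.un | apply PF.sUn | apply PF.op | apply PF.pr | apply PF.sep | exact PF.var _ | exact PF.const _ | apply PD.eq | apply PD.mem | apply PD.not | apply PD.iff | apply PD.or | apply PD.and | apply PD.imp | apply PD.ex | apply PD.all | exact PD.const _ | assumption | refine PF.comp1 (F := _) (by assumption) ?_ | refine PF.comp2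 (F := _) (by assumption) ?_ ?_ | refine PF.comp3 (F := _) (by assumption) ?_ ?_ ?_ | refine PD.app1 (R := _) (by assumption) ?_ | refine PD.app2 (R := _) (by assumption) ?_ ?_ | refine PD.app3 (R := _) (by assumption) ?_ ?_ ?_ | refine PD.app4 (R := _) (by assumption) ?_ ?_ ?_ ?_))) hi, app_lam (by (repeat' (with_reducible first | apply pf_p2 | apply pf_p1 | apply DD.pf_lv | apply DD.pf_nd | apply DD.pd_Clo | apply DD.pf_dl | apply DD.pf_prs | apply DD.pd_Fork | apply DD.pd_V | apply pd_maxR | apply pd_WOd | apply pf_pfin | apply pd_Fun1 | apply pf_hh | apply pd_Spr | apply pd_Inj | apply pf_har | apply pd_Le | apply pf_fins | apply pf_card | apply pd_Bij | apply pd_Fini | apply pd_Big | apply pd_Ord | apply pd_Tr | apply pd_Ind | apply pf_succ | apply pf_funs | apply pf_prod | apply pf_lam | apply pd_Fn | apply pf_app | apply pf_ran | apply pf_dom | apply PF.img | apply PF.pow | apply PD.sub | apply PF.adj | apply PF.un | apply PF.sUn | apply PF.op | apply PF.pr | apply PF.sep | exact PF.var _ | exact PF.const _ |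 apply PD.eq | apply PD.mem | apply PD.not | apply PD.iff | apply PD.or | apply PD.and | apply PD.imp | apply PD.ex | apply PD.all | exact PD.const _ | assumption | refine PF.comp1 (F := _) (by assumption) ?_ | refine PF.comp2 (F := _) (by assumption) ?_ ?_ | refine PF.comp3 (F := _) (by assumption) ?_ ?_ ?_ | refine PD.app1 (R := _) (by assumption) ?_ | refine PD.app2 (R := _) (by assumption) ?_ ?_ | refine PD.app3 (R := _) (by assumption) ?_ ?_ ?_ | refine PD.app4 (R := _) (by assumption) ?_ ?_ ?_ ?_))) hk] at he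
    have he' := hc3 _ _ (hu i) (hu k) he
    have hx := (hA.fld _ _ _ hp).2.1
    have hn : SetStr.mem n om := (op_mem_prod.1 hx).2
    have hpp : SetStr.mem (op p p0) L := (hA.fld _ _ _ hp).1
    have hlve : ∀ j, SetStr.mem j om → D.lv (op i n) j = D.lv (op k n) j := by
      intro j hj
      have h1 : app (lam (fun z => D.lv (op i (p1 z)) (p2 z)) (prod om om)) (op n j) =
          app (lam (fun z => D.lv (op k (p1 z)) (p2 z)) (prod om om)) (op n j) := by
        rw [he']
      have hz := op_mem_prod.2 ⟨hn, hj⟩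
      rw [app_lam (by (repeat' (with_reducible first | apply pf_p2 | apply pf_p1 | apply DD.pf_lv | apply DD.pf_nd | apply DD.pd_Clo | apply DD.pf_dl | apply DD.pf_prs | apply DD.pd_Fork | apply DD.pd_V | apply pd_maxR | apply pd_WOd | apply pf_pfin | apply pd_Fun1 | apply pf_hh | apply pd_Spr | apply pd_Inj | apply pf_har | apply pd_Le | apply pf_fins | apply pf_card | apply pd_Bij | apply pd_Fini | apply pd_Big | apply pd_Ord | apply pd_Tr | apply pd_Ind | apply pf_succ | apply pf_funs | apply pf_prod | apply pf_lam | apply pd_Fn | apply pf_app | apply pf_ran | apply pf_dom | apply PF.img | apply PF.pow | apply PD.sub | apply PF.adj | apply PF.un | apply PF.sUn | apply PF.op | apply PF.pr | apply PF.sep | exact PF.var _ | exact PF.const _ | apply PD.eq | apply PD.mem | apply PD.not | apply PD.iff | apply PD.or | apply PD.and | apply PD.imp | apply PD.ex | apply PD.all | exact PD.const _ | assumption | refine PF.comp1 (F := _) (by assumption) ?_ | refine PF.comp2 (F := _) (by assumption) ?_ ?_ | refine PF.comp3 (F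 := _) (by assumption) ?_ ?_ ?_ | refine PD.app1 (R := _) (by assumption) ?_ | refine PD.app2 (R := _) (by assumption) ?_ ?_ | refine PD.app3 (R := _) (by assumption) ?_ ?_ ?_ | refine PD.app4 (R := _) (by assumption) ?_ ?_ ?_ ?_))) hz, app_lam (by (repeat' (with_reducible first | apply pf_p2 | apply pf_p1 | apply DD.pf_lv | apply DD.pf_nd | apply DD.pd_Clo | apply DD.pf_dl | apply DD.pf_prs | apply DD.pd_Fork | apply DD.pd_V | apply pd_maxR | apply pd_WOd | apply pf_pfin | apply pd_Fun1 | apply pf_hh | apply pd_Spr | apply pd_Inj | apply pf_har | apply pd_Le | apply pf_fins | apply pf_card | apply pd_Bij | apply pd_Fini | apply pd_Big | apply pd_Ord | apply pd_Tr | apply pd_Ind | apply pf_succ | apply pf_funs | apply pf_prod | apply pf_lam | apply pd_Fn | apply pf_app | apply pf_ran | apply pf_dom | apply PF.img | apply PF.pow | apply PD.sub | apply PF.adj | apply PF.un | apply PF.sUn | apply PF.op | apply PF.pr | apply PF.sep | exact PF.var _ | exact PF.const _ | apply PD.eq | apply PD.mem | apply PD.not | apply PD.iff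 | apply PD.or | apply PD.and | apply PD.imp | apply PD.ex | apply PD.all | exact PD.const _ | assumption | refine PF.comp1 (F := _) (by assumption) ?_ | refine PF.comp2 (F := _) (by assumption) ?_ ?_ | refine PF.comp3 (F := _) (by assumption) ?_ ?_ ?_ | refine PD.app1 (R := _) (by assumption) ?_ | refine PD.app2 (R := _) (by assumption) ?_ ?_ | refine PD.app3 (R := _) (by assumption) ?_ ?_ ?_ | refine PD.app4 (R := _) (by assumption) ?_ ?_ ?_ ?_))) hz, p1_op, p2_op] at h1
      exact h1
    refine (hOk.name_iff (op_mem_prod.2 ⟨hk, hn⟩) hpp).2 ?_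
    intro q j r η hq hj hr' hs
    rw [← hlve j hj] at hr'
    exact (hOk.name_iff hx hpp).1 hp q j r η hq hj hr' hs

end GA
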