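import Pool.Agent.GA.Coh0
import Pool.Agent.GA.Dt
import Pool.Agent.GA.Brg

/-!
# The Cohen poset is a forcing with finite types; transfer for Cohen extensions
-/

universe u

namespace GA

variable {M : Type u} [SetStr M] [IsZF M]

theorem typed_coh (κ : M) : Typed (cohP κ) (cohL κ) (prod κ om) tw2
    (lam (fun p => p) (cohP κ)) (lam (fun _ => tw2) om) where
  fn := lam_Fn (by (repeat' (with_reducible first | apply pf_chk | apply pf_p2 | apply pf_p1 | apply DD.pf_lv | apply DD.pf_nd | apply DD.pd_Clo | apply DD.pf_dl | apply DD.pf_prs | apply DD.pd_Fork | apply DD.pd_V | apply pd_maxR | apply pd_Fmem | apply pd_Feq | apply pd_WOd | apply pf_pfin | apply pd_Fun1 | apply pf_hh | apply pd_Spr | apply pd_Inj | apply pf_har | apply pd_Le | apply pf_fins | apply pf_card | apply pd_Bij | apply pd_Fini | apply pd_Big | apply pd_Ord | apply pd_Tr | apply pd_Ind | apply pf_succ | apply pf_funs | apply pf_prod | apply pf_lam | apply pd_Fn | apply pf_app | apply pf_ran | apply pf_dom | apply PF.img | apply PF.pow | apply PD.sub | apply PF.adj | apply PF.un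 | apply PF.sUn | apply PF.op | apply PF.pr | apply PF.sep | exact PF.var _ | exact PF.const _ | apply PD.eq | apply PD.mem | apply PD.not | apply PD.iff | apply PD.or | apply PD.and | apply PD.imp | apply PD.ex | apply PD.all | exact PD.const _ | assumption | refine PF.comp1 (F := _) (by assumption) ?_ | refine PF.comp2 (F := _) (by assumption) ?_ ?_ | refine PF.comp3 (F := _) (by assumption) ?_ ?_ ?_ | refine PD.app1 (R := _) (by assumption) ?_ | refine PD.app2 (R := _) (by assumption) ?_ ?_ | refine PD.app3 (R := _) (by assumption) ?_ ?_ ?_ | refine PD.app4 (R := _) (by assumption) ?_ ?_ ?_ ?_))) _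
  val := fun p hp => by
    rw [app_lam (by (repeat' (with_reducible first | apply pf_chk | apply pf_p2 | apply pf_p1 | apply DD.pf_lv | apply DD.pf_nd | apply DD.pd_Clo | apply DD.pf_dl | apply DD.pf_prs | apply DD.pd_Fork | apply DD.pd_V | apply pd_maxR | apply pd_Fmem | apply pd_Feq | apply pd_WOd | apply pf_pfin | apply pd_Fun1 | apply pf_hh | apply pd_Spr | apply pd_Inj | apply pf_har | apply pd_Le | apply pf_fins | apply pf_card | apply pd_Bij | apply pd_Fini | apply pd_Big | apply pd_Ord | apply pd_Tr | apply pd_Ind | apply pf_succ | apply pf_funs | apply pf_prod | apply pf_lam | apply pd_Fn | apply pf_app | apply pf_ran | apply pf_dom | apply PF.img | apply PF.pow | apply PD.sub | apply PF.adj | apply PF.un | apply PF.sUn | apply PF.op | apply PF.pr | apply PF.sep | exact PF.var _ | exact PF.const _ | apply PD.eq | apply PD.mem | apply PD.not | apply PD.iff | apply PD.or | apply PD.and | apply PD.imp | apply PD.ex | apply PD.all | exact PD.const _ | assumption | refine PF.comp1 (F := _) (by assumption) ?_ | refine PF.comp2 (F := _) (by assumption)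 ?_ ?_ | refine PF.comp3 (F := _) (by assumption) ?_ ?_ ?_ | refine PD.app1 (R := _) (by assumption) ?_ | refine PD.app2 (R := _) (by assumption) ?_ ?_ | refine PD.app3 (R := _) (by assumption) ?_ ?_ ?_ | refine PD.app4 (R := _) (by assumption) ?_ ?_ ?_ ?_))) hp]
    exact hp
  comp := fun p q hp hq h => by
    rw [app_lam (by (repeat' (with_reducible first | apply pf_chk | apply pf_p2 | apply pf_p1 | apply DD.pf_lv | apply DD.pf_nd | apply DD.pd_Clo | apply DD.pf_dl | apply DD.pf_prs | apply DD.pd_Fork | apply DD.pd_V | apply pd_maxR | apply pd_Fmem | apply pd_Feq | apply pd_WOd | apply pf_pfin | apply pd_Fun1 | apply pf_hh | apply pd_Spr | apply pd_Inj | apply pf_har | apply pd_Le | apply pf_fins | apply pf_card | apply pd_Bij | apply pd_Fini | apply pd_Big | apply pd_Ord | apply pd_Tr | apply pd_Ind | apply pf_succ | apply pf_funs | apply pf_prod | apply pf_lam | apply pd_Fn | apply pf_app | apply pf_ran | apply pf_dom | apply PF.img | apply PF.pow | apply PD.sub | apply PF.adj | apply PF.un | apply PF.sUn | apply PF.op | apply PF.pr | apply PF.sep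 | exact PF.var _ | exact PF.const _ | apply PD.eq | apply PD.mem | apply PD.not | apply PD.iff | apply PD.or | apply PD.and | apply PD.imp | apply PD.ex | apply PD.all | exact PD.const _ | assumption | refine PF.comp1 (F := _) (by assumption) ?_ | refine PF.comp2 (F := _) (by assumption) ?_ ?_ | refine PF.comp3 (F := _) (by assumption) ?_ ?_ ?_ | refine PD.app1 (R := _) (by assumption) ?_ | refine PD.app2 (R := _) (by assumption) ?_ ?_ | refine PD.app3 (R := _) (by assumption) ?_ ?_ ?_ | refine PD.app4 (R := _) (by assumption) ?_ ?_ ?_ ?_))) hp, app_lam (by (repeat' (with_reducible first | apply pf_chk | apply pf_p2 | apply pf_p1 | apply DD.pf_lv | apply DD.pf_nd | apply DD.pd_Clo | apply DD.pf_dl | apply DD.pf_prs | apply DD.pd_Fork | apply DD.pd_V | apply pd_maxR | apply pd_Fmem | apply pd_Feq | apply pd_WOd | apply pf_pfin | apply pd_Fun1 | apply pf_hh | apply pd_Spr | apply pd_Inj | apply pf_har | apply pd_Le | apply pf_fins | apply pf_card | apply pd_Bij | apply pd_Fini | apply pd_Big | apply pd_Ord | apply pd_Tr | apply pd_Ind | apply pf_succ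 | apply pf_funs | apply pf_prod | apply pf_lam | apply pd_Fn | apply pf_app | apply pf_ran | apply pf_dom | apply PF.img | apply PF.pow | apply PD.sub | apply PF.adj | apply PF.un | apply PF.sUn | apply PF.op | apply PF.pr | apply PF.sep | exact PF.var _ | exact PF.const _ | apply PD.eq | apply PD.mem | apply PD.not | apply PD.iff | apply PD.or | apply PD.and | apply PD.imp | apply PD.ex | apply PD.all | exact PD.const _ | assumption | refine PF.comp1 (F := _) (by assumption) ?_ | refine PF.comp2 (F := _) (by assumption) ?_ ?_ | refine PF.comp3 (F := _) (by assumption) ?_ ?_ ?_ | refine PD.app1 (R := _) (by assumption) ?_ | refine PD.app2 (R := _) (by assumption) ?_ ?_ | refine PD.app3 (R := _) (by assumption) ?_ ?_ ?_ | refine PD.app4 (R := _) (by assumption) ?_ ?_ ?_ ?_))) hq] at h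
    exact coh_compat hp hq h
  ys := lam_Fn (by (repeat' (with_reducible first | apply pf_chk | apply pf_p2 | apply pf_p1 | apply DD.pf_lv | apply DD.pf_nd | apply DD.pd_Clo | apply DD.pf_dl | apply DD.pf_prs | apply DD.pd_Fork | apply DD.pd_V | apply pd_maxR | apply pd_Fmem | apply pd_Feq | apply pd_WOd | apply pf_pfin | apply pd_Fun1 | apply pf_hh | apply pd_Spr | apply pd_Inj | apply pf_har | apply pd_Le | apply pf_fins | apply pf_card | apply pd_Bij | apply pd_Fini | apply pd_Big | apply pd_Ord | apply pd_Tr | apply pd_Ind | apply pf_succ | apply pf_funs | apply pf_prod | apply pf_lam | apply pd_Fn | apply pf_app | apply pf_ran | apply pf_dom | apply PF.img | apply PF.pow | apply PD.sub | apply PF.adj | apply PF.un | apply PF.sUn | apply PF.op | apply PF.pr | apply PF.sep | exact PF.var _ | exact PF.const _ | apply PD.eq | apply PD.mem | apply PD.not | apply PD.iff | apply PD.or | apply PD.and | apply PD.imp | apply PD.ex | apply PD.all | exact PD.const _ | assumption | refine PF.comp1 (F := _) (by assumption) ?_ | refine PF.comp2 (F := _) (by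 assumption) ?_ ?_ | refine PF.comp3 (F := _) (by assumption) ?_ ?_ ?_ | refine PD.app1 (R := _) (by assumption) ?_ | refine PD.app2 (R := _) (by assumption) ?_ ?_ | refine PD.app3 (R := _) (by assumption) ?_ ?_ ?_ | refine PD.app4 (R := _) (by assumption) ?_ ?_ ?_ ?_))) _
  fin := fun j hj => by
    rw [app_lam (by (repeat' (with_reducible first | apply pf_chk | apply pf_p2 | apply pf_p1 | apply DD.pf_lv | apply DD.pf_nd | apply DD.pd_Clo | apply DD.pf_dl | apply DD.pf_prs | apply DD.pd_Fork | apply DD.pd_V | apply pd_maxR | apply pd_Fmem | apply pd_Feq | apply pd_WOd | apply pf_pfin | apply pd_Fun1 | apply pf_hh | apply pd_Spr | apply pd_Inj | apply pf_har | apply pd_Le | apply pf_fins | apply pf_card | apply pd_Bij | apply pd_Fini | apply pd_Big | apply pd_Ord | apply pd_Tr | apply pd_Ind | apply pf_succ | apply pf_funs | apply pf_prod | apply pf_lam | apply pd_Fn | apply pf_app | apply pf_ran | apply pf_dom | apply PF.img | apply PF.pow | apply PD.sub | apply PF.adj | apply PF.un | apply PF.sUn | apply PF.op | apply PF.pr | apply PF.sep | exact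 PF.var _ | exact PF.const _ | apply PD.eq | apply PD.mem | apply PD.not | apply PD.iff | apply PD.or | apply PD.and | apply PD.imp | apply PD.ex | apply PD.all | exact PD.const _ | assumption | refine PF.comp1 (F := _) (by assumption) ?_ | refine PF.comp2 (F := _) (by assumption) ?_ ?_ | refine PF.comp3 (F := _) (by assumption) ?_ ?_ ?_ | refine PD.app1 (R := _) (by assumption) ?_ | refine PD.app2 (R := _) (by assumption) ?_ ?_ | refine PD.app3 (R := _) (by assumption) ?_ ?_ ?_ | refine PD.app4 (R := _) (by assumption) ?_ ?_ ?_ ?_))) hj]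
    exact Fini.pr _ _
  incr := fun i j hj hi => by
    rw [app_lam (by (repeat' (with_reducible first | apply pf_chk | apply pf_p2 | apply pf_p1 | apply DD.pf_lv | apply DD.pf_nd | apply DD.pd_Clo | apply DD.pf_dl | apply DD.pf_prs | apply DD.pd_Fork | apply DD.pd_V | apply pd_maxR | apply pd_Fmem | apply pd_Feq | apply pd_WOd | apply pf_pfin | apply pd_Fun1 | apply pf_hh | apply pd_Spr | apply pd_Inj | apply pf_har | apply pd_Le | apply pf_fins | apply pf_card | apply pd_Bij | apply pd_Fini | apply pd_Big | apply pd_Ord | apply pd_Tr | apply pd_Ind | apply pf_succ | apply pf_funs | apply pf_prod | apply pf_lam | apply pd_Fn | apply pf_app | apply pf_ran | apply pf_dom | apply PF.img | apply PF.pow | apply PD.sub | apply PF.adj | apply PF.un | apply PF.sUn | apply PF.op | apply PF.pr | apply PF.sep | exact PF.var _ | exact PF.const _ | apply PD.eq | apply PD.mem | apply PD.not | apply PD.iff | apply PD.or | apply PD.and | apply PD.imp | apply PD.ex | apply PD.all | exact PD.const _ | assumption | refine PF.comp1 (F := _) (by assumption) ?_ | refine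 PF.comp2 (F := _) (by assumption) ?_ ?_ | refine PF.comp3 (F := _) (by assumption) ?_ ?_ ?_ | refine PD.app1 (R := _) (by assumption) ?_ | refine PD.app2 (R := _) (by assumption) ?_ ?_ | refine PD.app3 (R := _) (by assumption) ?_ ?_ ?_ | refine PD.app4 (R := _) (by assumption) ?_ ?_ ?_ ?_))) hj, app_lam (by (repeat' (with_reducible first | apply pf_chk | apply pf_p2 | apply pf_p1 | apply DD.pf_lv | apply DD.pf_nd | apply DD.pd_Clo | apply DD.pf_dl | apply DD.pf_prs | apply DD.pd_Fork | apply DD.pd_V | apply pd_maxR | apply pd_Fmem | apply pd_Feq | apply pd_WOd | apply pf_pfin | apply pd_Fun1 | apply pf_hh | apply pd_Spr | apply pd_Inj | apply pf_har | apply pd_Le | apply pf_fins | apply pf_card | apply pd_Bij | apply pd_Fini | apply pd_Big | apply pd_Ord | apply pd_Tr | apply pd_Ind | apply pf_succ | apply pf_funs | apply pf_prod | apply pf_lam | apply pd_Fn | apply pf_app | apply pf_ran | apply pf_dom | apply PF.img | apply PF.pow | apply PD.sub | apply PF.adj | apply PF.un | apply PF.sUn | apply PF.op | apply PF.pr | apply PF.sep | exact PF.var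 _ | exact PF.const _ | apply PD.eq | apply PD.mem | apply PD.not | apply PD.iff | apply PD.or | apply PD.and | apply PD.imp | apply PD.ex | apply PD.all | exact PD.const _ | assumption | refine PF.comp1 (F := _) (by assumption) ?_ | refine PF.comp2 (F := _) (by assumption) ?_ ?_ | refine PF.comp3 (F := _) (by assumption) ?_ ?_ ?_ | refine PD.app1 (R := _) (by assumption) ?_ | refine PD.app2 (R := _) (by assumption) ?_ ?_ | refine PD.app3 (R := _) (by assumption) ?_ ?_ ?_ | refine PD.app4 (R := _) (by assumption) ?_ ?_ ?_ ?_))) (om_trans hj hi)]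
    exact fun _ h => h
  cover := fun y => by
    constructor
    · intro hy
      refine ⟨emp, emp_mem_om, ?_⟩
      rw [app_lam (by (repeat' (with_reducible first | apply pf_chk | apply pf_p2 | apply pf_p1 | apply DD.pf_lv | apply DD.pf_nd | apply DD.pd_Clo | apply DD.pf_dl | apply DD.pf_prs | apply DD.pd_Fork | apply DD.pd_V | apply pd_maxR | apply pd_Fmem | apply pd_Feq | apply pd_WOd | apply pf_pfin | apply pd_Fun1 | apply pf_hh | apply pd_Spr | apply pd_Inj | apply pf_har | apply pd_Le | apply pf_fins | apply pf_card | apply pd_Bij | apply pd_Fini | apply pd_Big | apply pd_Ord | apply pd_Tr | apply pd_Ind | apply pf_succ | apply pf_funs | apply pf_prod | apply pf_lam | apply pd_Fn | apply pf_app | apply pf_ran | apply pf_dom | apply PF.img | apply PF.pow | apply PD.sub | apply PF.adj | apply PF.un | apply PF.sUn | apply PF.op | apply PF.pr | apply PF.sep | exact PF.var _ | exact PF.const _ | apply PD.eq | apply PD.mem | apply PD.not | apply PD.iff | apply PD.or | apply PD.and | apply PD.imp | apply PD.ex | apply PD.all | exact PD.const _ |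 assumption | refine PF.comp1 (F := _) (by assumption) ?_ | refine PF.comp2 (F := _) (by assumption) ?_ ?_ | refine PF.comp3 (F := _) (by assumption) ?_ ?_ ?_ | refine PD.app1 (R := _) (by assumption) ?_ | refine PD.app2 (R := _) (by assumption) ?_ ?_ | refine PD.app3 (R := _) (by assumption) ?_ ?_ ?_ | refine PD.app4 (R := _) (by assumption) ?_ ?_ ?_ ?_))) emp_mem_om]
      exact hy
    · rintro ⟨j, hj, hy⟩
      rw [app_lam (by (repeat' (with_reducible first | apply pf_chk | apply pf_p2 | apply pf_p1 | apply DD.pf_lv | apply DD.pf_nd | apply DD.pd_Clo | apply DD.pf_dl | apply DD.pf_prs | apply DD.pd_Fork | apply DD.pd_V | apply pd_maxR | apply pd_Fmem | apply pd_Feq | apply pd_WOd | apply pf_pfin | apply pd_Fun1 | apply pf_hh | apply pd_Spr | apply pd_Inj | apply pf_har | apply pd_Le | apply pf_fins | apply pf_card | apply pd_Bij | apply pd_Fini | apply pd_Big | apply pd_Ord | apply pd_Tr | apply pd_Ind | apply pf_succ | apply pf_funs | apply pf_prod | apply pf_lam | apply pd_Fn | apply pf_app | apply pf_ran | apply pf_dom | apply PF.img | apply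 PF.pow | apply PD.sub | apply PF.adj | apply PF.un | apply PF.sUn | apply PF.op | apply PF.pr | apply PF.sep | exact PF.var _ | exact PF.const _ | apply PD.eq | apply PD.mem | apply PD.not | apply PD.iff | apply PD.or | apply PD.and | apply PD.imp | apply PD.ex | apply PD.all | exact PD.const _ | assumption | refine PF.comp1 (F := _) (by assumption) ?_ | refine PF.comp2 (F := _) (by assumption) ?_ ?_ | refine PF.comp3 (F := _) (by assumption) ?_ ?_ ?_ | refine PD.app1 (R := _) (by assumption) ?_ | refine PD.app2 (R := _) (by assumption) ?_ ?_ | refine PD.app3 (R := _) (by assumption) ?_ ?_ ?_ | refine PD.app4 (R := _) (by assumption) ?_ ?_ ?_ ?_))) hj] at hy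
      exact hy

theorem cd_coh {κ : M} (hκ : Big κ) : Cd κ (pfin (prod κ om) tw2) :=
  Cd.pfin ((Cd.self hκ).prod (Cd.om hκ) hκ)
    (Cd.of_le (Le.of_sub (fun _ h => tw2_sub_om h)) (Cd.om hκ)) hκ

theorem covP_coh {κ : M} (hκ : Big κ) : CovP (cohP κ) (cohL κ) :=
  (typed_coh κ).covP (isForcing_coh κ).fld (isForcing_coh κ).trans (isForcing_coh κ).refl
    (cd_coh hκ).1

theorem upP_coh {κ : M} (hκ : Big κ) : UpP (cohP κ) (cohL κ) κ :=
  (typed_coh κ).upP (isForcing_coh κ).fld (isForcing_coh κ).trans (isForcing_coh κ).refl
    hκ (cd_coh hκ)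

/-- The transfer theorem applies to Cohen extensions. -/
theorem transfer_coh {κ : M} (hκ : Big κ) {G : Set M} (hG : IsGeneric (cohP κ) (cohL κ) emp G)
    [IsZF (Ext hG)] : Transfer (jj hG) κ :=
  transfer_jj hG (covP_coh hκ) (lowP_coh κ) (upP_coh hκ)

end GA
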