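import Pool.Agent.GA.Coh1
import Pool.Agent.GA.Asm

/-!
# The axiom for Cohen forcing fails in every model of ZF
-/

universe u

namespace GA

open FirstOrder FirstOrder.Language

section inst

variable {f g h : ∀ i : ZFM.{u}, (ℕ → i.carrier) → i.carrier}

instance DZ.Fun1 [hf : FZ f] : DZ (fun i v => Fun1 (f i v)) := by
  refine DZ.app1 (R := fun i x => GA.Fun1 x) ?_ hf
  unfold GA.Fun1
  infer_instance

instance FZ.pfin [hf : FZ f] [hg : FZ g] : FZ (fun i v => pfin (f i v) (g i v)) := by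
  refine FZ.app2 (F := fun i x y => GA.pfin x y) ?_ hf hg
  unfold GA.pfin
  infer_instance

instance FZ.tw2 : FZ (fun (i : ZFM.{u}) (_ : ℕ → i.carrier) => (tw2 : i.carrier)) := by
  unfold GA.tw2
  infer_instance

instance FZ.cohP [hf : FZ f] : FZ (fun i v => cohP (f i v)) := by
  unfold GA.cohP
  infer_instance

instance FZ.cohL [hf : FZ f] : FZ (fun i v => cohL (f i v)) := by
  refine FZ.app1 (F := fun i x => GA.cohL x) ?_ hf
  unfold GA.cohL
  infer_instance

instance DZ.SprEta [hf : FZ f] : DZ (fun i v => SprEta (f i v)) := by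
  refine DZ.app1 (R := fun i x => GA.SprEta x) ?_ hf
  unfold GA.SprEta
  infer_instance

/-- `Phi` is a sentence. -/
theorem DZ.Phi : DZ (fun (i : ZFM.{u}) (_ : ℕ → i.carrier) => Phi i.carrier) := by
  unfold GA.Phi
  infer_instance

end inst

/-- A class of forcings all of whose members with infinite index satisfy the transfer conditions. -/
theorem not_FAx_of_transfer (K : FClass.{u})
    (h : ∀ (S : Type u) [SetStr S] [IsZF S] (κ : S), Big κ →
      CovP (K.P ⟨S⟩ κ) (K.L ⟨S⟩ κ) ∧ LowP (K.P ⟨S⟩ κ) (K.L ⟨S⟩ κ) (K.o ⟨S⟩ κ) κ ∧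
        UpP (K.P ⟨S⟩ κ) (K.L ⟨S⟩ κ) κ)
    (M : Type u) [SetStr M] [IsZF M] : ¬ FAx K M := by
  refine not_FAx K (Q := fun i => Phi i.carrier) DZ.Phi ?_ ?_ M
  · intro S _ _ _
    obtain ⟨κa, κb, ha, hb, h1, h2⟩ := exists_two.{u, u} S
    refine ⟨κa, ha.1, fun G hG _ => ?_⟩
    obtain ⟨c1, c2, c3⟩ := h S κa ha
    exact h1 (Ext hG) (jj hG) (transfer_jj hG c1 c2 c3)
  · intro S _ _ _
    obtain ⟨κa, κb, ha, hb, h1, h2⟩ := exists_two.{u, u} S
    refine ⟨κb, hb.1, fun G hG _ => ?_⟩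
    obtain ⟨c1, c2, c3⟩ := h S κb hb
    exact h2 (Ext hG) (jj hG) (transfer_jj hG c1 c2 c3)

/-- The class of Cohen forcings. -/
noncomputable def cohClass : FClass.{u} where
  P := fun _ κ => cohP κ
  L := fun _ κ => cohL κ
  o := fun _ _ => emp
  hP := inferInstance
  hL := inferInstance
  ho := inferInstance
  forcing := fun _ κ _ => isForcing_coh κ

/-- The axiom for Cohen forcing fails in every model of ZF. -/
theorem not_FAx_coh (M : Type u) [SetStr M] [IsZF M] : ¬ FAx cohClass.{u} M :=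
  not_FAx_of_transfer cohClass (fun _ _ _ κ hκ => ⟨covP_coh hκ, lowP_coh κ, upP_coh hκ⟩) M

end GA
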