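import Mathlib

/-!
# Models of ZF and forcing over them: all notions used in the statements

* `SetStr M`: `M` is a type with a binary relation `mem` (`mem x y`: `x` is an element of `y`).
* `LST`: the first-order language with one binary relation symbol (the language of set theory).
* `IsZF M`: `M` is a model of the Zermelo-Fraenkel axioms (without the axiom of choice).  The model is
  arbitrary: it need not be well-founded or countable.
* `IsForcing P L o`: the elements `P`, `L`, `o` of `M` are a forcing notion: `P` is a set, `L` is the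
  order (a set of ordered pairs), `o` the largest element.
* `IsForcedEq L R`: `R p x y` is the relation `p ⊩ x = y`.
* `Forces L R φ p v xs`: the condition `p` forces the formula `φ`.
* `IsCohen κ P L o`: the forcing of finite partial functions from `κ × ω` to `2`.
* `IsHechler κ P L o`: the finite support iteration of Hechler forcing of length `κ`.
* `IsRandom κ P L o`: the measure algebra of the space `2^κ`.
* `Absolute L o`: a sentence is true in `M` if and only if the largest condition forces it.
-/

universe u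

namespace GA

open FirstOrder FirstOrder.Language

/-! ## The language of set theory and its structures -/

/-- The relation symbols of the language of set theory: one binary symbol. -/
inductive MemRel : ℕ → Type
  | mem : MemRel 2

/-- The language of set theory: no function symbols, one binary relation symbol. -/
abbrev LST : FirstOrder.Language.{0, 0} := ⟨fun _ => Empty, MemRel⟩

/-- A structure for the language of set theory: a type with a binary relation. -/
class SetStr (M : Type u) where
  /-- `mem x y`: `x` is an element of `y` -/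
  mem : M → M → Prop

open SetStr in
/-- The first-order structure given by the binary relation. -/
instance instStr (M : Type u) [SetStr M] : LST.Structure M where
  funMap := fun {_} f _ => Empty.elim f
  RelMap := fun {_} r v => match r, v with
    | .mem, v => mem (v 0) (v 1)

/-! ## Models of ZF -/

open SetStr in
/-- `M` is a model of Zermelo-Fraenkel set theory (without choice).  Separation and replacement are
schemes: one axiom for every first-order formula with parameters. -/
class IsZF (M : Type u) [SetStr M] : Prop where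
  extensionality : ∀ x y : M, (∀ z, mem z x ↔ mem z y) → x = y
  foundation : ∀ x : M, (∃ y, mem y x) → ∃ y, mem y x ∧ ∀ z, mem z y → ¬ mem z x
  pairing : ∀ x y : M, ∃ z, mem x z ∧ mem y z
  union : ∀ x : M, ∃ u, ∀ y z, mem z y → mem y x → mem z u
  power : ∀ x : M, ∃ p, ∀ y, (∀ z, mem z y → mem z x) → mem y p
  infinity : ∃ x : M, (∃ e, (∀ z, ¬ mem z e) ∧ mem e x) ∧
    ∀ y, mem y x → ∃ s, mem s x ∧ ∀ z, mem z s ↔ mem z y ∨ z = y
  separation : ∀ (n : ℕ) (φ : LST.Formula (Fin (n + 1))) (a : Fin n → M) (x : M),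
    ∃ y, ∀ z, mem z y ↔ mem z x ∧ φ.Realize (Fin.cons z a : Fin (n + 1) → M)
  replacement : ∀ (n : ℕ) (φ : LST.Formula (Fin (n + 2))) (a : Fin n → M) (x : M),
    (∀ y, mem y x → ∃! z, φ.Realize (Fin.cons y (Fin.cons z a : Fin (n + 1) → M) : Fin (n + 2) → M)) →
    ∃ w, ∀ y, mem y x →
      ∃ z, mem z w ∧ φ.Realize (Fin.cons y (Fin.cons z a : Fin (n + 1) → M) : Fin (n + 2) → M)

end GA

namespace GA.Dp

open FirstOrder FirstOrder.Language SetStr

/-! ## Pairs, relations, ordinals, finite sets inside `M` -/

variable {M : Type u} [SetStr M]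

/-- `z = {x, y}` -/
def IsPr (z x y : M) : Prop := ∀ w, mem w z ↔ w = x ∨ w = y

/-- `z` is the ordered pair `(x, y) = {{x}, {x, y}}` -/
def IsOp (z x y : M) : Prop := ∃ a b, IsPr a x x ∧ IsPr b x y ∧ IsPr z a b

/-- the ordered pair `(x, y)` is an element of `r` -/
def Rel (r x y : M) : Prop := ∃ z, IsOp z x y ∧ mem z r

/-- `x` is a subset of `y` -/
def Sub (x y : M) : Prop := ∀ z, mem z x → mem z y

/-- `x` is the empty set -/
def IsEmp (x : M) : Prop := ∀ z, ¬ mem z x

/-- `s = x ∪ {y}` -/
def IsAdj (s x y : M) : Prop := ∀ z, mem z s ↔ mem z x ∨ z = y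

/-- `x` is an ordinal: a transitive set all of whose elements are transitive (the model satisfies
foundation) -/
def IsOrd (x : M) : Prop := (∀ y, mem y x → Sub y x) ∧ ∀ y, mem y x → ∀ z, mem z y → Sub z y

/-- `J` contains the empty set and is closed under `y ↦ y ∪ {y}` -/
def IsInd (J : M) : Prop :=
  (∃ e, IsEmp e ∧ mem e J) ∧ ∀ y, mem y J → ∃ s, IsAdj s y y ∧ mem s J

/-- `w = ω`: the elements of `w` are those of all inductive sets -/
def IsOmega (w : M) : Prop := ∀ n, mem n w ↔ ∀ J, IsInd J → mem n J

/-- `f` is a function from `a` to `b` -/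
def IsFun (f a b : M) : Prop :=
  (∀ z, mem z f → ∃ x y, mem x a ∧ mem y b ∧ IsOp z x y) ∧ ∀ x, mem x a → ∃! y, Rel f x y

/-- `f` is an injective function from `a` to `b` -/
def IsInj (f a b : M) : Prop := IsFun f a b ∧ ∀ x x' y, Rel f x y → Rel f x' y → x = x'

/-- `a` is finite: there is an injective function from `a` to a natural number of the model -/
def IsFin (a : M) : Prop := ∃ w n f, IsOmega w ∧ mem n w ∧ IsInj f a n

/-! ## Forcing notions -/

/-- `(P, L, o)` is a forcing notion: `L` is a reflexive and transitive relation on the set `P`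
(`Rel L q p` means `q ≤ p`), `o` is its largest element. -/
structure IsForcing (P L o : M) : Prop where
  fld : ∀ z, mem z L → ∃ q p, mem q P ∧ mem p P ∧ IsOp z q p
  refl : ∀ p, mem p P → Rel L p p
  trans : ∀ r q p, Rel L r q → Rel L q p → Rel L r p
  top_mem : mem o P
  le_top : ∀ p, mem p P → Rel L p o

/-! ## The forcing relation

Every element `x` of `M` is a name; `Rel x z s` means that the name `z` is put into `x` by the
condition `s`.  The usual recursive definition of `p ⊩ x = y` is: for every `(z, s) ∈ x` and every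
`q ≤ p, s` there are `r ≤ q` and `(w, s') ∈ y` with `r ≤ s'` and `r ⊩ z = w`; and the same with `x` and
`y` exchanged. -/

/-- the clause in the recursive definition of `p ⊩ x = y`; `R r z w` stands for `r ⊩ z = w` -/
def EqClause (L : M) (R : M → M → M → Prop) (p x y : M) : Prop :=
  (∀ z s q, Rel x z s → Rel L q p → Rel L q s →
    ∃ r w s', Rel L r q ∧ Rel y w s' ∧ Rel L r s' ∧ R r z w) ∧
  (∀ w s q, Rel y w s → Rel L q p → Rel L q s →
    ∃ r z s', Rel L r q ∧ Rel x z s' ∧ Rel L r s' ∧ R r z w)

/-- The ternary relation `R` on `M` is definable by a first-order formula with parameters. -/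
def Definable3 (R : M → M → M → Prop) : Prop :=
  ∃ φ : LST.Formula (M ⊕ Fin 3), ∀ p x y, φ.Realize (Sum.elim id ![p, x, y]) ↔ R p x y

/-- `R` is the relation `p ⊩ x = y`: it is definable and satisfies the recursion equation.  (It is part
of the results that there is exactly one such relation.) -/
def IsForcedEq (L : M) (R : M → M → M → Prop) : Prop :=
  Definable3 R ∧ ∀ p x y, R p x y ↔ EqClause L R p x y

/-- `p ⊩ x ∈ y`, where `R` is the relation `p ⊩ x = y`: for every `q ≤ p` there are `r ≤ q` and
`(w, s) ∈ y` with `r ≤ s` and `r ⊩ x = w`. -/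
def ForcedMem (L : M) (R : M → M → M → Prop) (p x y : M) : Prop :=
  ∀ q, Rel L q p → ∃ r w s, Rel L r q ∧ Rel y w s ∧ Rel L r s ∧ R r x w

/-- atomic formulas `x ∈ y` -/
def ForcedRel (L : M) (R : M → M → M → Prop) (p : M) : {l : ℕ} → LST.Relations l → (Fin l → M) → Prop
  | _, .mem, v => ForcedMem L R p (v 0) (v 1)

/-- `p ⊩ φ` for an arbitrary formula `φ`, where `R` is the relation `p ⊩ x = y`: a condition forces an
implication if every stronger condition which forces the premise forces the conclusion, it forces a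
universal statement if it forces all instances (for all names), and no condition forces falsity. -/
def Forces (L : M) (R : M → M → M → Prop) {α : Type} :
    {n : ℕ} → LST.BoundedFormula α n → M → (α → M) → (Fin n → M) → Prop
  | _, .falsum, _, _, _ => False
  | _, .equal t₁ t₂, p, v, xs => R p (t₁.realize (Sum.elim v xs)) (t₂.realize (Sum.elim v xs))
  | _, .rel S ts, p, v, xs => ForcedRel L R p S (fun i => (ts i).realize (Sum.elim v xs))
  | _, .imp φ ψ, p, v, xs => ∀ q, Rel L q p → Forces L R φ q v xs → Forces L R ψ q v xs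
  | _, .all φ, p, v, xs => ∀ x, Forces L R φ p v (Fin.snoc xs x)

/-- `o ⊩ φ`, for a sentence `φ` -/
def ForcesSentence (L : M) (R : M → M → M → Prop) (o : M) (φ : LST.Sentence) : Prop :=
  Forces L R φ o default default

/-- The sentences true in `M` are exactly the sentences forced by the largest condition. -/
def Absolute (L : M) (o : M) : Prop :=
  ∀ R, IsForcedEq L R → ∀ φ : LST.Sentence, M ⊨ φ ↔ ForcesSentence L R o φ

/-! ## Cohen forcing -/

/-- `P` is the set of finite partial functions from `κ × ω` to `2 = {0, 1}`, `L` the reverse inclusion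
on `P` and `o` the empty function. -/
def IsCohen (κ P L o : M) : Prop :=
  (∀ p, mem p P ↔ IsFin p ∧
    (∀ z, mem z p → ∃ w a n i k e e', IsOmega w ∧ mem a κ ∧ mem n w ∧ IsEmp e ∧ IsAdj e' e e ∧
      (i = e ∨ i = e') ∧ IsOp k a n ∧ IsOp z k i) ∧
    ∀ k i j, Rel p k i → Rel p k j → i = j) ∧
  (∀ z, mem z L ↔ ∃ q p, mem q P ∧ mem p P ∧ IsOp z q p ∧ Sub p q) ∧
  IsEmp o

/-! ## Finite support iterations of Hechler forcing

A condition of the iteration of length `κ` is a finite function `p` on a subset of `κ`; for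
`c ∈ dom p` the value `p(c) = (s, τ)` consists of a finite sequence `s` of natural numbers and a name
`τ` of a function from `ω` to `ω` over the iteration of length `c`.  The iteration of length `c` is the
set of all conditions `q` with `dom q ⊆ c`, with the same order.  `p ≤ q` if and only if for every
`c ∈ dom q`, `q(c) = (s', τ')`, also `c ∈ dom p`, and `p(c) = (s, τ)` where `s` extends `s'`, the
restriction `p|c` forces `τ' ≤ τ` everywhere, and it forces `τ'(n) ≤ s(n)` for every new `n ∈ dom s`.
(Hechler forcing: conditions `(s, f)`, with `(s, f) ≤ (s', f')` iff `s` extends `s'`, `f ≥ f'`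
everywhere, and `s(n) ≥ f'(n)` at the new places.) -/

/-- `q` is a condition in `P` whose domain is contained in `c`: an element of the iteration of
length `c` -/
def Below (P c q : M) : Prop := mem q P ∧ ∀ z, mem z q → ∃ b y, mem b c ∧ IsOp z b y

/-- `r` is the restriction `p|c` -/
def IsRes (r p c : M) : Prop := ∀ z, mem z r ↔ mem z p ∧ ∃ b y, mem b c ∧ IsOp z b y

/-- `u ⊩ τ(n) = m` over the forcing notion `(Q, L)`: below every `v ≤ u` there is a `w ≤ v` which is
below some `w'` with `((n, m), w') ∈ τ` -/
def ForcedVal (Q : M → Prop) (L τ u n m : M) : Prop :=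
  ∀ v, Q v → Rel L v u →
    ∃ w w' k, Q w ∧ Q w' ∧ Rel L w v ∧ Rel L w w' ∧ IsOp k n m ∧ Rel τ k w'

/-- `τ` is a name of a function from `ω` to `ω` over the forcing notion `(Q, L)`: a set of pairs
`((n, m), u)` with `n, m ∈ ω` and `u ∈ Q` such that no condition forces two values at `n`, and below
every condition there is one which forces a value at `n` -/
def IsRealName (Q : M → Prop) (L τ : M) : Prop :=
  (∀ z, mem z τ → ∃ w n m k u, IsOmega w ∧ mem n w ∧ mem m w ∧ IsOp k n m ∧ Q u ∧ IsOp z k u) ∧
  (∀ u n m m', Q u → ForcedVal Q L τ u n m → ForcedVal Q L τ u n m' → m = m') ∧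
  ∀ w u n, IsOmega w → Q u → mem n w → ∃ v m, Q v ∧ Rel L v u ∧ mem m w ∧ ForcedVal Q L τ v n m

/-- `u ⊩ τ ≤ τ'` everywhere -/
def ForcedLe (Q : M → Prop) (L u τ τ' : M) : Prop :=
  ∀ v n m m', Q v → Rel L v u → ForcedVal Q L τ v n m → ForcedVal Q L τ' v n m' → Sub m m'

/-- `u ⊩ τ(n) ≤ k` -/
def ForcedValLe (Q : M → Prop) (L u τ n k : M) : Prop :=
  ∀ v m, Q v → Rel L v u → ForcedVal Q L τ v n m → Sub m k

/-- `s` is a finite sequence of natural numbers -/
def IsFinSeq (s : M) : Prop := ∃ w n, IsOmega w ∧ mem n w ∧ IsFun s n w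

/-- the condition for `p ≤ q` -/
def HechlerLe (P L p q : M) : Prop :=
  ∀ c a' s' τ', IsOp a' s' τ' → Rel q c a' → ∃ a s τ, IsOp a s τ ∧ Rel p c a ∧ Sub s' s ∧
    ∀ r, IsRes r p c → ForcedLe (Below P c) L r τ' τ ∧
      ∀ n k, Rel s n k → ¬ Rel s' n k → ForcedValLe (Below P c) L r τ' n k

/-- `(P, L, o)` is the finite support iteration of Hechler forcing of length `κ`.  (It is part of the
results that for every ordinal `κ` there is exactly one such `(P, L, o)`.) -/
def IsHechler (κ P L o : M) : Prop :=
  (∀ p, mem p P ↔ IsFin p ∧ (∀ c y y', Rel p c y → Rel p c y' → y = y') ∧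
    ∀ z, mem z p → ∃ c a s τ, IsOp z c a ∧ IsOp a s τ ∧ mem c κ ∧ IsFinSeq s ∧
      IsRealName (Below P c) L τ) ∧
  (∀ z, mem z L → ∃ p q, IsOp z p q) ∧
  (∀ p q, Rel L p q ↔ mem p P ∧ mem q P ∧ HechlerLe P L p q) ∧
  IsEmp o

/-- `κ` is a cardinal: an ordinal which is not a surjective image of a smaller ordinal -/
def IsCard (κ : M) : Prop :=
  IsOrd κ ∧ ∀ μ f, mem μ κ → ¬ (IsFun f μ κ ∧ ∀ y, mem y κ → ∃ x, Rel f x y)

/-- `κ` is an infinite cardinal: a cardinal which is not an element of `ω` -/
def IsInfCard (κ : M) : Prop := IsCard κ ∧ ∀ w, IsOmega w → ¬ mem κ w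

/-! ## Random forcing

The measure algebra `ℝ_κ` of the space `2^κ` with the product of the fair coin-flipping measures, `κ`
an index set, is presented as the metric completion of the algebra of clopen subsets of `2^κ`, without
its least element `0`: a condition is a sequence `s(0), s(1), …` of clopen sets which is a Cauchy
sequence for the distance `μ(c Δ d)` and with `lim μ(s(n)) > 0`; `s ≤ t` if `lim μ(s(n) \ t(n)) = 0`.
(The measure algebra of `2^κ` is complete, and the clopen sets are dense in it.) -/

/-- `t = 2 = {0, 1}` -/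
def IsTwo (t : M) : Prop := ∃ e e', IsEmp e ∧ IsAdj e' e e ∧ IsPr t e e'

/-- `x ∈ 2^a`: `x` is a function from `a` to `2` -/
def IsBits (x a : M) : Prop := ∃ t, IsTwo t ∧ IsFun x a t

/-- `c` is a subset of `2^κ`, `a` is a finite subset of `κ`, and whether `x ∈ 2^κ` is an element of `c`
depends only on the restriction of `x` to `a` -/
def DependsOn (κ c a : M) : Prop :=
  Sub a κ ∧ IsFin a ∧ (∀ x, mem x c → IsBits x κ) ∧
    ∀ x y, mem x c → IsBits y κ → (∀ i v, mem i a → (Rel x i v ↔ Rel y i v)) → mem y c

/-- `c` is a clopen subset of `2^κ` -/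
def IsClopen (κ c : M) : Prop := ∃ a, DependsOn κ c a

/-- `μ(c) ≤ 2^(-k)`, for a clopen set `c`: for a finite set `a ⊆ κ` on which `c` depends there is an
injective function from the set of all pairs `(u, t)`, where `u ∈ 2^a` is the restriction of an element
of `c` and `t ∈ 2^k`, to the set `2^a` -/
def MeasureLe (κ k c : M) : Prop :=
  ∃ a A B f, DependsOn κ c a ∧
    (∀ z, mem z A ↔ ∃ x u t, mem x c ∧ IsRes u x a ∧ IsBits t k ∧ IsOp z u t) ∧
    (∀ z, mem z B ↔ IsBits z a) ∧ IsInj f A B

/-- `s` is a sequence `s(0), s(1), …` of clopen sets -/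
def IsClopenSeq (κ s : M) : Prop :=
  ∃ w C, IsOmega w ∧ (∀ c, mem c C ↔ IsClopen κ c) ∧ IsFun s w C

/-- `lim μ(s(n)) = 0`: for every `k` there is an `N` such that `μ(s(n)) ≤ 2^(-k)` for all `n ≥ N` -/
def IsNull (κ s : M) : Prop :=
  ∀ w k, IsOmega w → mem k w → ∃ N, mem N w ∧
    ∀ n c, mem n w → Sub N n → Rel s n c → MeasureLe κ k c

/-- `e = c \ d` -/
def IsDiff (e c d : M) : Prop := ∀ x, mem x e ↔ mem x c ∧ ¬ mem x d

/-- `e = c Δ d` -/
def IsSymDiff (e c d : M) : Prop :=
  ∀ x, mem x e ↔ (mem x c ∧ ¬ mem x d) ∨ (mem x d ∧ ¬ mem x c)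

/-- `s` is a Cauchy sequence of clopen sets: for every `k` there is an `N` such that
`μ(s(m) Δ s(n)) ≤ 2^(-k)` for all `m, n ≥ N` -/
def IsCauchy (κ s : M) : Prop :=
  IsClopenSeq κ s ∧ ∀ w k, IsOmega w → mem k w → ∃ N, mem N w ∧
    ∀ m n c d e, mem m w → mem n w → Sub N m → Sub N n → Rel s m c → Rel s n d →
      IsSymDiff e c d → MeasureLe κ k e

/-- `lim μ(s(n) \ t(n)) = 0` -/
def NullDiff (κ s t : M) : Prop :=
  ∀ w k, IsOmega w → mem k w → ∃ N, mem N w ∧
    ∀ n c d e, mem n w → Sub N n → Rel s n c → Rel t n d → IsDiff e c d → MeasureLe κ k e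

/-- `(P, L, o)` is the measure algebra of `2^κ` without `0`: `P` is the set of Cauchy sequences of
clopen sets whose measures do not converge to `0`, `L` is the set of all pairs `(s, t)` with
`lim μ(s(n) \ t(n)) = 0`, and `o` is the constant sequence `2^κ`. -/
def IsRandom (κ P L o : M) : Prop :=
  (∀ s, mem s P ↔ IsCauchy κ s ∧ ¬ IsNull κ s) ∧
  (∀ z, mem z L ↔ ∃ s t, mem s P ∧ mem t P ∧ IsOp z s t ∧ NullDiff κ s t) ∧
  ∀ z, mem z o ↔ ∃ w n c, IsOmega w ∧ mem n w ∧ (∀ x, mem x c ↔ IsBits x κ) ∧ IsOp z n c

end GA.Dp
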