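import Pool.Agent.GA.Gen

/-!
# Uniform definability and elementary equivalence
-/

universe u

namespace GA

open FirstOrder FirstOrder.Language

/-- The family `P` of predicates of environments is given by one formula in all structures. -/
def UD (P : ∀ (M : Type u) [SetStr M], (ℕ → M) → Prop) : Prop :=
  ∃ φ : LST.Formula ℕ, ∀ (M : Type u) [SetStr M] (v : ℕ → M), φ.Realize v ↔ P M v

namespace UD

variable {P Q : ∀ (M : Type u) [SetStr M], (ℕ → M) → Prop}

theorem of_iff (hP : UD P) (h : ∀ (M : Type u) [SetStr M] (v : ℕ → M), P M v ↔ Q M v) : UD Q := by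
  obtain ⟨φ, hφ⟩ := hP
  exact ⟨φ, fun M _ v => (hφ M v).trans (h M v)⟩

theorem not (hP : UD P) : UD (fun M _ v => ¬ P M v) := by
  obtain ⟨φ, hφ⟩ := hP
  exact ⟨φ.not, fun M _ v => by rw [Formula.realize_not, hφ]⟩

theorem and (hP : UD P) (hQ : UD Q) : UD (fun M _ v => P M v ∧ Q M v) := by
  obtain ⟨φ, hφ⟩ := hP
  obtain ⟨ψ, hψ⟩ := hQ
  exact ⟨φ ⊓ ψ, fun M _ v => by rw [Formula.realize_inf, hφ, hψ]⟩

theorem or (hP : UD P) (hQ : UD Q) : UD (fun M _ v => P M v ∨ Q M v) := by
  obtain ⟨φ, hφ⟩ := hP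
  obtain ⟨ψ, hψ⟩ := hQ
  exact ⟨φ ⊔ ψ, fun M _ v => by rw [Formula.realize_sup, hφ, hψ]⟩

theorem imp (hP : UD P) (hQ : UD Q) : UD (fun M _ v => P M v → Q M v) := by
  obtain ⟨φ, hφ⟩ := hP
  obtain ⟨ψ, hψ⟩ := hQ
  exact ⟨φ.imp ψ, fun M _ v => by rw [Formula.realize_imp, hφ, hψ]⟩

theorem iff (hP : UD P) (hQ : UD Q) : UD (fun M _ v => (P M v ↔ Q M v)) := by
  obtain ⟨φ, hφ⟩ := hP
  obtain ⟨ψ, hψ⟩ := hQ
  exact ⟨φ.iff ψ, fun M _ v => by rw [Formula.realize_iff, hφ, hψ]⟩

theorem all {P : ∀ (M : Type u) [SetStr M], M → (ℕ → M) → Prop}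
    (hP : UD (fun M _ v => P M (v 0) (fun i => v (i + 1)))) : UD (fun M _ v => ∀ x, P M x v) := by
  obtain ⟨φ, hφ⟩ := hP
  let g : ℕ → ℕ ⊕ Unit := fun i => match i with
    | 0 => Sum.inr ()
    | i + 1 => Sum.inl i
  refine ⟨(φ.relabel g).iAlls Unit, fun M _ v => ?_⟩
  rw [Formula.realize_iAlls]
  have key : ∀ x : Unit → M, (Sum.elim v x ∘ g : ℕ → M) = cons (x ()) v := by
    intro x
    funext i
    cases i <;> rfl
  constructor
  · intro h x
    have := h (fun _ => x)
    rw [Formula.realize_relabel, key, hφ] at this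
    exact this
  · intro h x
    rw [Formula.realize_relabel, key, hφ]
    exact h (x ())

theorem ex {P : ∀ (M : Type u) [SetStr M], M → (ℕ → M) → Prop}
    (hP : UD (fun M _ v => P M (v 0) (fun i => v (i + 1)))) : UD (fun M _ v => ∃ x, P M x v) := by
  obtain ⟨φ, hφ⟩ := (UD.all (P := fun M _ x v => ¬ P M x v) hP.not).not
  exact ⟨φ, fun M _ v => by rw [hφ]; push Not; rfl⟩

theorem mem (i j : ℕ) : UD (fun _ _ v => SetStr.mem (v i) (v j)) := by
  refine ⟨Relations.formula₂ memSym (Term.var i) (Term.var j), fun _ _ v => ?_⟩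
  rw [Formula.realize_rel₂]
  rfl

theorem eq (i j : ℕ) : UD (fun _ _ v => v i = v j) := by
  refine ⟨(Term.var i).equal (Term.var j), fun _ _ v => ?_⟩
  rw [Formula.realize_equal]
  rfl

theorem form {β : Type} (φ : LST.Formula β) (σ : β → ℕ) :
    UD (fun _ _ v => φ.Realize (fun b => v (σ b))) :=
  ⟨φ.relabel σ, fun _ _ v => by rw [Formula.realize_relabel]; rfl⟩

theorem form2 {β : Type} (φ : LST.Formula β) (σ : β → ℕ) :
    UD (fun _ _ v => φ.Realize (fun b => cons (v 0) (cons (v 1) (fun i => v (i + 2))) (σ b))) :=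
  (form φ σ).of_iff (fun M _ v => by
    have : cons (v 0) (cons (v 1) (fun i => v (i + 2))) = v := by
      funext i
      rcases i with _ | _ | i <;> rfl
    rw [this])

theorem form3 {β : Type} (φ : LST.Formula β) (σ : β → ℕ) :
    UD (fun _ _ v => φ.Realize
      (fun b => cons (v 0) (cons (v 1) (cons (v 2) (fun i => v (i + 3)))) (σ b))) :=
  (form φ σ).of_iff (fun M _ v => by
    have : cons (v 0) (cons (v 1) (cons (v 2) (fun i => v (i + 3)))) = v := by
      funext i
      rcases i with _ | _ | _ | i <;> rfl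
    rw [this])

/-- Elementarily equivalent structures satisfy the same uniformly definable closed statements. -/
theorem transfer (hP : UD P) {M N : Type u} [SetStr M] [SetStr N]
    (h : ∀ φ : LST.Sentence, M ⊨ φ ↔ N ⊨ φ) (hM : ∀ v, P M v) : ∀ v, P N v := by
  classical
  obtain ⟨φ, hφ⟩ := hP
  let F := φ.freeVarFinset
  let ψ : LST.Formula F := φ.restrictFreeVar id
  have hψ : ∀ (K : Type u) [SetStr K] (v : ℕ → K), ψ.Realize (fun i : F => v i) ↔ P K v := by
    intro K _ v
    rw [← hφ]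
    exact BoundedFormula.realize_restrictFreeVar (v' := v) (fun a => rfl)
  let σ : LST.Sentence := (ψ.relabel (Sum.inr : F → Empty ⊕ F)).iAlls F
  have hσ : ∀ (K : Type u) [SetStr K], K ⊨ σ ↔ ∀ w : F → K, ψ.Realize w := by
    intro K _
    show Formula.Realize _ _ ↔ _
    rw [Formula.realize_iAlls]
    refine forall_congr' (fun w => ?_)
    rw [Formula.realize_relabel]
    rfl
  intro v
  rw [← hψ]
  refine (hσ N).1 ((h σ).1 ((hσ M).2 (fun w => ?_))) _
  by_cases hM' : Nonempty M
  · obtain ⟨x0⟩ := hM'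
    have h1 := (hψ M (fun i => if hi : i ∈ F then w ⟨i, hi⟩ else x0)).2 (hM _)
    have h2 : (fun i : F => (if hi : i.1 ∈ F then w ⟨i.1, hi⟩ else x0)) = w := by
      funext i
      simp
    rw [h2] at h1
    exact h1
  · exfalso
    have h3 : ¬ N ⊨ (∃' ⊤ : LST.Sentence) := by
      rw [← h]
      intro h4
      obtain ⟨x, -⟩ := BoundedFormula.realize_ex.1 h4
      exact hM' ⟨x⟩
    exact h3 (BoundedFormula.realize_ex.2 ⟨v 0, BoundedFormula.realize_top.2 trivial⟩)

end UD

/-- A structure elementarily equivalent to a model of ZF is a model of ZF. -/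
theorem IsZF.of_equiv {M N : Type u} [SetStr M] [SetStr N] [IsZF M]
    (h : ∀ φ : LST.Sentence, M ⊨ φ ↔ N ⊨ φ) : IsZF N where
  extensionality x y := by
    have h1 : UD.{u} (fun M _ v => (∀ z, SetStr.mem z (v 0) ↔ SetStr.mem z (v 1)) → v 0 = v 1) :=
      UD.imp (UD.all (UD.iff (UD.mem 0 1) (UD.mem 0 2))) (UD.eq 0 1)
    exact h1.transfer h (fun v => IsZF.extensionality (v 0) (v 1)) (cons x (cons y (fun _ => x)))
  foundation x := by
    have h1 : UD.{u} (fun M _ v => (∃ y, SetStr.mem y (v 0)) →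
        ∃ y, SetStr.mem y (v 0) ∧ ∀ z, SetStr.mem z y → ¬ SetStr.mem z (v 0)) :=
      UD.imp (UD.ex (UD.mem 0 1)) (UD.ex (UD.and (UD.mem 0 1) (UD.all (UD.imp (UD.mem 0 1)
        (UD.not (UD.mem 0 2))))))
    exact h1.transfer h (fun v => IsZF.foundation (v 0)) (fun _ => x)
  pairing x y := by
    have h1 : UD.{u} (fun M _ v => ∃ z, SetStr.mem (v 0) z ∧ SetStr.mem (v 1) z) :=
      UD.ex (UD.and (UD.mem 1 0) (UD.mem 2 0))
    exact h1.transfer h (fun v => IsZF.pairing (v 0) (v 1)) (cons x (cons y (fun _ => x)))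
  union x := by
    have h1 : UD.{u} (fun M _ v => ∃ u, ∀ y z, SetStr.mem z y → SetStr.mem y (v 0) → SetStr.mem z u) :=
      UD.ex (UD.all (UD.all (UD.imp (UD.mem 0 1) (UD.imp (UD.mem 1 3) (UD.mem 0 2)))))
    exact h1.transfer h (fun v => IsZF.union (v 0)) (fun _ => x)
  power x := by
    have h1 : UD.{u} (fun M _ v => ∃ p, ∀ y, (∀ z, SetStr.mem z y → SetStr.mem z (v 0)) → SetStr.mem y p) :=
      UD.ex (UD.all (UD.imp (UD.all (UD.imp (UD.mem 0 1) (UD.mem 0 3))) (UD.mem 0 1)))
    exact h1.transfer h (fun v => IsZF.power (v 0)) (fun _ => x)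
  infinity := by
    have h1 : UD.{u} (fun M _ v => ∃ x : M, (∃ e, (∀ z, ¬ SetStr.mem z e) ∧ SetStr.mem e x) ∧
        ∀ y, SetStr.mem y x → ∃ s, SetStr.mem s x ∧ ∀ z, SetStr.mem z s ↔ SetStr.mem z y ∨ z = y) :=
      UD.ex (UD.and (UD.ex (UD.and (UD.all (UD.not (UD.mem 0 1))) (UD.mem 0 1)))
        (UD.all (UD.imp (UD.mem 0 1) (UD.ex (UD.and (UD.mem 0 2) (UD.all (UD.iff (UD.mem 0 1)
          (UD.or (UD.mem 0 2) (UD.eq 0 2)))))))))
    have hne : Nonempty N := by
      by_contra hN
      have h3 : ¬ N ⊨ (∃' ⊤ : LST.Sentence) := by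
        intro h4
        obtain ⟨x, -⟩ := BoundedFormula.realize_ex.1 h4
        exact hN ⟨x⟩
      exact h3 ((h _).1 (BoundedFormula.realize_ex.2 ⟨Classical.arbitrary M,
        BoundedFormula.realize_top.2 trivial⟩))
    obtain ⟨x0⟩ := hne
    exact h1.transfer h (fun v => IsZF.infinity) (fun _ => x0)
  separation n φ a x := by
    have h1 : UD.{u} (fun M _ v => ∃ y, ∀ z, SetStr.mem z y ↔ SetStr.mem z (v 0) ∧
        φ.Realize (fun i => cons z (cons y v) (Fin.cases (motive := fun _ => ℕ) 0 (fun i => i + 3) i))) :=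
      UD.ex (UD.all (UD.iff (UD.mem 0 1) (UD.and (UD.mem 0 2)
        (UD.form2 φ (fun i => Fin.cases (motive := fun _ => ℕ) 0 (fun i => i + 3) i)))))
    have h2 := h1.transfer h (fun v => by
      obtain ⟨y, hy⟩ := IsZF.separation n φ (fun i => v (i + 1)) (v 0)
      refine ⟨y, fun z => (hy z).trans (and_congr Iff.rfl (iff_of_eq ?_))⟩
      congr 1
      funext i
      refine Fin.cases ?_ (fun i => ?_) i
      · rfl
      · rfl) (cons x (fun i => if hi : i < n then a ⟨i, hi⟩ else x))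
    obtain ⟨y, hy⟩ := h2
    refine ⟨y, fun z => (hy z).trans (and_congr Iff.rfl (iff_of_eq ?_))⟩
    congr 1
    funext i
    refine Fin.cases ?_ (fun i => ?_) i
    · rfl
    · simp [cons]
  replacement n φ a x hx := by
    have h1 : UD.{u} (fun M _ v => (∀ y, SetStr.mem y (v 0) → ∃ z,
        φ.Realize (fun i => cons z (cons y v)
          (Fin.cases (motive := fun _ => ℕ) 1 (fun i => Fin.cases (motive := fun _ => ℕ) 0 (fun i => i + 3) i) i)) ∧
        ∀ z', φ.Realize (fun i => cons z' (cons z (cons y v))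
          (Fin.cases (motive := fun _ => ℕ) 2 (fun i => Fin.cases (motive := fun _ => ℕ) 0 (fun i => i + 4) i) i)) →
          z' = z) →
        ∃ w, ∀ y, SetStr.mem y (v 0) → ∃ z, SetStr.mem z w ∧
          φ.Realize (fun i => cons z (cons y (cons w v))
            (Fin.cases (motive := fun _ => ℕ) 1 (fun i => Fin.cases (motive := fun _ => ℕ) 0 (fun i => i + 4) i) i))) :=
      UD.imp (UD.all (UD.imp (UD.mem 0 1) (UD.ex (UD.and (UD.form2 φ _)
        (UD.all (UD.imp (UD.form3 φ _) (UD.eq 0 1)))))))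
        (UD.ex (UD.all (UD.imp (UD.mem 0 2) (UD.ex (UD.and (UD.mem 0 2) (UD.form3 φ _))))))
    have e1 : ∀ {K : Type u} [SetStr K] (a : Fin n → K) (y z x : K) (v : ℕ → K)
        (_ : ∀ i : Fin n, v (i + 1) = a i),
        (fun i => cons z (cons y v)
          (Fin.cases (motive := fun _ => ℕ) 1 (fun i => Fin.cases (motive := fun _ => ℕ) 0 (fun i => i + 3) i) i))
        = (Fin.cons y (Fin.cons z a : Fin (n + 1) → K) : Fin (n + 2) → K) := by
      intro K _ a y z x v hv
      funext i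
      refine Fin.cases ?_ (fun i => ?_) i
      · rfl
      · refine Fin.cases ?_ (fun i => ?_) i
        · rfl
        · exact hv i
    have e2 : ∀ {K : Type u} [SetStr K] (a : Fin n → K) (y z z' x : K) (v : ℕ → K)
        (_ : ∀ i : Fin n, v (i + 1) = a i),
        (fun i => cons z' (cons z (cons y v))
          (Fin.cases (motive := fun _ => ℕ) 2 (fun i => Fin.cases (motive := fun _ => ℕ) 0 (fun i => i + 4) i) i))
        = (Fin.cons y (Fin.cons z' a : Fin (n + 1) → K) : Fin (n + 2) → K) := by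
      intro K _ a y z z' x v hv
      funext i
      refine Fin.cases ?_ (fun i => ?_) i
      · rfl
      · refine Fin.cases ?_ (fun i => ?_) i
        · rfl
        · exact hv i
    have e3 : ∀ {K : Type u} [SetStr K] (a : Fin n → K) (y z w x : K) (v : ℕ → K)
        (_ : ∀ i : Fin n, v (i + 1) = a i),
        (fun i => cons z (cons y (cons w v))
          (Fin.cases (motive := fun _ => ℕ) 1 (fun i => Fin.cases (motive := fun _ => ℕ) 0 (fun i => i + 4) i) i))
        = (Fin.cons y (Fin.cons z a : Fin (n + 1) → K) : Fin (n + 2) → K) := by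
      intro K _ a y z w x v hv
      funext i
      refine Fin.cases ?_ (fun i => ?_) i
      · rfl
      · refine Fin.cases ?_ (fun i => ?_) i
        · rfl
        · exact hv i
    have h2 := h1.transfer h (fun v => by
      intro hv
      obtain ⟨w, hw⟩ := IsZF.replacement n φ (fun i => v (i + 1)) (v 0) (fun y hy => by
        obtain ⟨z, hz, hz'⟩ := hv y hy
        rw [e1 (fun i => v (i + 1)) y z (v 0) v (fun i => rfl)] at hz
        refine ⟨z, hz, fun z' h' => hz' z' ?_⟩
        rw [e2 (fun i => v (i + 1)) y z z' (v 0) v (fun i => rfl)]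
        exact h')
      refine ⟨w, fun y hy => ?_⟩
      obtain ⟨z, hz, hz'⟩ := hw y hy
      refine ⟨z, hz, ?_⟩
      rw [e3 (fun i => v (i + 1)) y z w (v 0) v (fun i => rfl)]
      exact hz') (cons x (fun i => if hi : i < n then a ⟨i, hi⟩ else x)) (fun y hy => by
        obtain ⟨z, hz, hz'⟩ := hx y hy
        refine ⟨z, ?_, fun z' h' => hz' z' ?_⟩
        · rw [e1 a y z x _ (fun i => by simp [cons])]
          exact hz
        · rw [e2 a y z z' x _ (fun i => by simp [cons])] at h'
          exact h')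
    obtain ⟨w, hw⟩ := h2
    refine ⟨w, fun y hy => ?_⟩
    obtain ⟨z, hz, hz'⟩ := hw y hy
    refine ⟨z, hz, ?_⟩
    rw [e3 a y z w x _ (fun i => by simp [cons])] at hz'
    exact hz'

section

variable {M : Type u} [SetStr M] [IsZF M] {P L o : M} {G : Set M}

/-- If `M` satisfies exactly the sentences forced by the largest condition, then the generic
extension is elementarily equivalent to `M`. -/
theorem ext_equiv (hG : IsGeneric P L o G)
    (hA : ∀ φ : LST.Sentence, M ⊨ φ ↔ Forces L φ o default default) (φ : LST.Sentence) :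
    M ⊨ φ ↔ (Ext hG) ⊨ φ := by
  have key : ∀ φ : LST.Sentence, M ⊨ φ → (Ext hG) ⊨ φ := by
    intro φ h
    have h1 := (truth hG φ (default : Empty → M) (default : Fin 0 → M)).2
      ⟨o, hG.top_mem, (hA φ).1 h⟩
    have e1 : (fun a => val hG ((default : Empty → M) a)) = default := Subsingleton.elim _ _
    have e2 : (fun i => val hG ((default : Fin 0 → M) i)) = default := Subsingleton.elim _ _
    rw [e1, e2] at h1
    exact h1
  refine ⟨key φ, fun h => ?_⟩
  by_contra hcon
  have h1 : M ⊨ (φ.not : LST.Sentence) := hcon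
  have h2 : (Ext hG) ⊨ (φ.not : LST.Sentence) := key _ h1
  exact h2 h

end

end GA
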