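import Pool.Agent.GA.ZF

/-!
# Functions as sets in a model of ZF
-/

universe u

namespace GA

variable {M : Type u} [SetStr M] [IsZF M]

omit [IsZF M] in
theorem PF.of_unique {g : (ℕ → M) → M} {R : M → (ℕ → M) → Prop} (h : ∀ v z, z = g v ↔ R z v)
    (hR : PD (fun v => R (v 0) (fun i => v (i + 1)))) : PF g :=
  hR.of_iff (fun _ => (h _ _).symm)

theorem op_mem_sUn_sUn {f x y : M} (h : SetStr.mem (op x y) f) : SetStr.mem x (sUn (sUn f)) ∧ SetStr.mem y (sUn (sUn f)) := by
  simp only [mem_sUn]
  refine ⟨⟨pr x y, ⟨op x y, h, ?_⟩, ?_⟩, ⟨pr x y, ⟨op x y, h, ?_⟩, ?_⟩⟩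
  · simp [op]
  · simp
  · simp [op]
  · simp

/-- The domain of a relation. -/
noncomputable def dom (f : M) : M := sep (sUn (sUn f)) (fun x => ∃ y, SetStr.mem (op x y) f)

@[simp] theorem mem_dom {f x : M} : SetStr.mem x (dom f) ↔ ∃ y, SetStr.mem (op x y) f := by
  unfold dom
  rw [mem_sep (by (repeat' (with_reducible first | apply PF.img | apply PF.pow | apply PD.sub | apply PF.adj | apply PF.un | apply PF.sUn | apply PF.op | apply PF.pr | apply PF.sep | exact PF.var _ | exact PF.const _ | apply PD.eq | apply PD.mem | apply PD.not | apply PD.iff | apply PD.or | apply PD.and | apply PD.imp | apply PD.ex | apply PD.all | exact PD.const _ | assumption | refine PF.comp1 (F := _) (by assumption) ?_ | refine PF.comp2 (F := _) (by assumption) ?_ ?_ | refine PF.comp3 (F := _) (by assumption) ?_ ?_ ?_ | refine PD.app1 (R := _) (by assumption) ?_ | refine PD.app2 (R := _) (by assumption) ?_ ?_ | refine PD.app3 (R := _) (by assumption) ?_ ?_ ?_ | refine PD.app4 (R := _) (by assumption) ?_ ?_ ?_ ?_)))]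
  exact ⟨fun h => h.2, fun ⟨y, hy⟩ => ⟨(op_mem_sUn_sUn hy).1, y, hy⟩⟩

theorem pf_dom {f : (ℕ → M) → M} (hf : PF f) : PF (fun v => dom (f v)) := by
  refine PF.of_mem (Q := fun z v => ∃ y, SetStr.mem (op z y) (f v)) (fun v z => mem_dom) ?_
  apply PD.ex
  exact PD.mem (PF.op (PF.var _) (PF.var _)) (hf.weaken 2)


/-- The range of a relation. -/
noncomputable def ran (f : M) : M := sep (sUn (sUn f)) (fun y => ∃ x, SetStr.mem (op x y) f)

@[simp] theorem mem_ran {f y : M} : SetStr.mem y (ran f) ↔ ∃ x, SetStr.mem (op x y) f := by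
  unfold ran
  rw [mem_sep (by (repeat' (with_reducible first | apply pf_dom | apply PF.img | apply PF.pow | apply PD.sub | apply PF.adj | apply PF.un | apply PF.sUn | apply PF.op | apply PF.pr | apply PF.sep | exact PF.var _ | exact PF.const _ | apply PD.eq | apply PD.mem | apply PD.not | apply PD.iff | apply PD.or | apply PD.and | apply PD.imp | apply PD.ex | apply PD.all | exact PD.const _ | assumption | refine PF.comp1 (F := _) (by assumption) ?_ | refine PF.comp2 (F := _) (by assumption) ?_ ?_ | refine PF.comp3 (F := _) (by assumption) ?_ ?_ ?_ | refine PD.app1 (R := _) (by assumption) ?_ | refine PD.app2 (R := _) (by assumption) ?_ ?_ | refine PD.app3 (R := _) (by assumption) ?_ ?_ ?_ | refine PD.app4 (R := _) (by assumption) ?_ ?_ ?_ ?_)))]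
  exact ⟨fun h => h.2, fun ⟨x, hx⟩ => ⟨(op_mem_sUn_sUn hx).2, x, hx⟩⟩

theorem pf_ran {f : (ℕ → M) → M} (hf : PF f) : PF (fun v => ran (f v)) := by
  refine PF.of_mem (Q := fun z v => ∃ y, SetStr.mem (op y z) (f v)) (fun v z => mem_ran) ?_
  apply PD.ex
  exact PD.mem (PF.op (PF.var _) (PF.var _)) (hf.weaken 2)


/-- The value of the function `f` at `x`. -/
noncomputable def app (f x : M) : M := sUn (sep (sUn (sUn f)) (fun y => SetStr.mem (op x y) f))

theorem mem_app {f x z : M} : SetStr.mem z (app f x) ↔ ∃ y, SetStr.mem (op x y) f ∧ SetStr.mem z y := by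
  unfold app
  simp only [mem_sUn]
  constructor
  · rintro ⟨y, hy, hz⟩
    rw [mem_sep (by (repeat' (with_reducible first | apply pf_ran | apply pf_dom | apply PF.img | apply PF.pow | apply PD.sub | apply PF.adj | apply PF.un | apply PF.sUn | apply PF.op | apply PF.pr | apply PF.sep | exact PF.var _ | exact PF.const _ | apply PD.eq | apply PD.mem | apply PD.not | apply PD.iff | apply PD.or | apply PD.and | apply PD.imp | apply PD.ex | apply PD.all | exact PD.const _ | assumption | refine PF.comp1 (F := _) (by assumption) ?_ | refine PF.comp2 (F := _) (by assumption) ?_ ?_ | refine PF.comp3 (F := _) (by assumption) ?_ ?_ ?_ | refine PD.app1 (R := _) (by assumption) ?_ | refine PD.app2 (R := _) (by assumption) ?_ ?_ | refine PD.app3 (R := _) (by assumption) ?_ ?_ ?_ | refine PD.app4 (R := _) (by assumption) ?_ ?_ ?_ ?_)))] at hy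
    exact ⟨y, hy.2, hz⟩
  · rintro ⟨y, hy, hz⟩
    refine ⟨y, ?_, hz⟩
    rw [mem_sep (by (repeat' (with_reducible first | apply pf_ran | apply pf_dom | apply PF.img | apply PF.pow | apply PD.sub | apply PF.adj | apply PF.un | apply PF.sUn | apply PF.op | apply PF.pr | apply PF.sep | exact PF.var _ | exact PF.const _ | apply PD.eq | apply PD.mem | apply PD.not | apply PD.iff | apply PD.or | apply PD.and | apply PD.imp | apply PD.ex | apply PD.all | exact PD.const _ | assumption | refine PF.comp1 (F := _) (by assumption) ?_ | refine PF.comp2 (F := _) (by assumption) ?_ ?_ | refine PF.comp3 (F := _) (by assumption) ?_ ?_ ?_ | refine PD.app1 (R := _) (by assumption) ?_ | refine PD.app2 (R := _) (by assumption) ?_ ?_ | refine PD.app3 (R := _) (by assumption) ?_ ?_ ?_ | refine PD.app4 (R := _) (by assumption) ?_ ?_ ?_ ?_)))]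
    exact ⟨(op_mem_sUn_sUn hy).2, hy⟩

theorem pf_app {f g : (ℕ → M) → M} (hf : PF f) (hg : PF g) : PF (fun v => app (f v) (g v)) := by
  refine PF.of_mem (Q := fun z v => ∃ y, SetStr.mem (op (g v) y) (f v) ∧ SetStr.mem z y) (fun v z => mem_app) ?_
  apply PD.ex
  exact PD.and (PD.mem (PF.op (hg.weaken 2) (PF.var _)) (hf.weaken 2))
    (PD.mem (PF.var _) (PF.var _))


/-- `f` is a function with domain `a`. -/
def Fn (f a : M) : Prop :=
  (∀ z, SetStr.mem z f → ∃ x, SetStr.mem x a ∧ ∃ y, z = op x y) ∧
    ∀ x, SetStr.mem x a → (∃ y, SetStr.mem (op x y) f) ∧ ∀ y y', SetStr.mem (op x y) f → SetStr.mem (op x y') f → y = y'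

theorem pd_Fn {f g : (ℕ → M) → M} (hf : PF f) (hg : PF g) : PD (fun v => Fn (f v) (g v)) :=
  PD.app2 (R := fun f a => GA.Fn f a) (by unfold GA.Fn; (repeat' (with_reducible first | apply pf_app | apply pf_ran | apply pf_dom | apply PF.img | apply PF.pow | apply PD.sub | apply PF.adj | apply PF.un | apply PF.sUn | apply PF.op | apply PF.pr | apply PF.sep | exact PF.var _ | exact PF.const _ | apply PD.eq | apply PD.mem | apply PD.not | apply PD.iff | apply PD.or | apply PD.and | apply PD.imp | apply PD.ex | apply PD.all | exact PD.const _ | assumption | refine PF.comp1 (F := _) (by assumption) ?_ | refine PF.comp2 (F := _) (by assumption) ?_ ?_ | refine PF.comp3 (F := _) (by assumption) ?_ ?_ ?_ | refine PD.app1 (R := _) (by assumption) ?_ | refine PD.app2 (R := _) (by assumption) ?_ ?_ | refine PD.app3 (R := _) (by assumption) ?_ ?_ ?_ | refine PD.app4 (R := _) (by assumption) ?_ ?_ ?_ ?_))) hf hg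


theorem Fn.mem_iff {f a x y : M} (h : Fn f a) : SetStr.mem (op x y) f ↔ SetStr.mem x a ∧ y = app f x := by
  have key : ∀ x y, SetStr.mem (op x y) f → SetStr.mem x a := by
    intro x y hxy
    obtain ⟨x', hx', y', h'⟩ := h.1 _ hxy
    rw [op_inj] at h'
    rw [h'.1]
    exact hx'
  have key2 : ∀ x y, SetStr.mem (op x y) f → y = app f x := by
    intro x y hxy
    have hx := key x y hxy
    refine ext (fun z => ?_)
    rw [mem_app]
    constructor
    · intro hz
      exact ⟨y, hxy, hz⟩
    · rintro ⟨y', hy', hz⟩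
      rw [(h.2 x hx).2 y y' hxy hy']
      exact hz
  constructor
  · intro hxy
    exact ⟨key x y hxy, key2 x y hxy⟩
  · rintro ⟨hx, rfl⟩
    obtain ⟨y, hy⟩ := (h.2 x hx).1
    rw [← key2 x y hy]
    exact hy

theorem Fn.app_mem {f a x : M} (h : Fn f a) (hx : SetStr.mem x a) : SetStr.mem (op x (app f x)) f :=
  h.mem_iff.2 ⟨hx, rfl⟩

theorem Fn.dom_eq {f a : M} (h : Fn f a) : dom f = a := by
  refine ext (fun x => ?_)
  rw [mem_dom]
  constructor
  · rintro ⟨y, hy⟩
    exact (h.mem_iff.1 hy).1
  · intro hx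
    exact ⟨_, h.app_mem hx⟩

theorem Fn.mem_ran {f a y : M} (h : Fn f a) : SetStr.mem y (ran f) ↔ ∃ x, SetStr.mem x a ∧ y = app f x := by
  simp only [GA.mem_ran, h.mem_iff]

theorem Fn.ext {f g a : M} (hf : Fn f a) (hg : Fn g a) (h : ∀ x, SetStr.mem x a → app f x = app g x) :
    f = g := by
  refine GA.ext (fun z => ?_)
  constructor
  · intro hz
    obtain ⟨x, hx, y, rfl⟩ := hf.1 z hz
    rw [hf.mem_iff] at hz
    rw [hg.mem_iff, ← h x hx]
    exact hz
  · intro hz
    obtain ⟨x, hx, y, rfl⟩ := hg.1 z hz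
    rw [hg.mem_iff] at hz
    rw [hf.mem_iff, h x hx]
    exact hz

/-- The function `x ↦ F x` on the set `a`, for definable `F`. -/
noncomputable def lam (F : M → M) (a : M) : M := img (fun x => op x (F x)) a

theorem mem_lam {F : M → M} (hF : PF (fun v => F (v 0))) {a z : M} :
    SetStr.mem z (lam F a) ↔ ∃ x, SetStr.mem x a ∧ z = op x (F x) :=
  mem_img (F := fun x => op x (F x)) (PF.op (PF.var 0) hF)

theorem pf_lam {f : (ℕ → M) → M} {F : M → (ℕ → M) → M} (hf : PF f)
    (hF : PF (fun v => F (v 0) (fun i => v (i + 1)))) :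
    PF (fun v => lam (fun z => F z v) (f v)) :=
  PF.img (F := fun x v => op x (F x v)) hf (PF.op (PF.var 0) hF)


theorem lam_Fn {F : M → M} (hF : PF (fun v => F (v 0))) (a : M) : Fn (lam F a) a := by
  constructor
  · intro z hz
    obtain ⟨x, hx, rfl⟩ := (mem_lam hF).1 hz
    exact ⟨x, hx, _, rfl⟩
  · intro x hx
    refine ⟨⟨F x, (mem_lam hF).2 ⟨x, hx, rfl⟩⟩, ?_⟩
    intro y y' hy hy'
    obtain ⟨x1, hx1, h1⟩ := (mem_lam hF).1 hy
    obtain ⟨x2, hx2, h2⟩ := (mem_lam hF).1 hy'
    rw [op_inj] at h1 h2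
    rw [h1.2, h2.2, ← h1.1, ← h2.1]

theorem app_lam {F : M → M} (hF : PF (fun v => F (v 0))) {a x : M} (hx : SetStr.mem x a) :
    app (lam F a) x = F x := by
  have h1 : SetStr.mem (op x (F x)) (lam F a) := (mem_lam hF).2 ⟨x, hx, rfl⟩
  exact (((lam_Fn hF a).mem_iff.1 h1).2).symm

/-- Every function is given by its values. -/
theorem Fn.eq_lam {f a : M} (h : Fn f a) : f = lam (fun x => app f x) a :=
  h.ext (lam_Fn (by (repeat' (with_reducible first | apply pf_lam | apply pd_Fn | apply pf_app | apply pf_ran | apply pf_dom | apply PF.img | apply PF.pow | apply PD.sub | apply PF.adj | apply PF.un | apply PF.sUn | apply PF.op | apply PF.pr | apply PF.sep | exact PF.var _ | exact PF.const _ | apply PD.eq | apply PD.mem | apply PD.not | apply PD.iff | apply PD.or | apply PD.and | apply PD.imp | apply PD.ex | apply PD.all | exact PD.const _ | assumption | refine PF.comp1 (F := _) (by assumption) ?_ | refine PF.comp2 (F := _) (by assumption) ?_ ?_ | refine PF.comp3 (F := _) (by assumption) ?_ ?_ ?_ | refine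 PD.app1 (R := _) (by assumption) ?_ | refine PD.app2 (R := _) (by assumption) ?_ ?_ | refine PD.app3 (R := _) (by assumption) ?_ ?_ ?_ | refine PD.app4 (R := _) (by assumption) ?_ ?_ ?_ ?_))) a) (fun x hx => (app_lam (by (repeat' (with_reducible first | apply pf_lam | apply pd_Fn | apply pf_app | apply pf_ran | apply pf_dom | apply PF.img | apply PF.pow | apply PD.sub | apply PF.adj | apply PF.un | apply PF.sUn | apply PF.op | apply PF.pr | apply PF.sep | exact PF.var _ | exact PF.const _ | apply PD.eq | apply PD.mem | apply PD.not | apply PD.iff | apply PD.or | apply PD.and | apply PD.imp | apply PD.ex | apply PD.all | exact PD.const _ | assumption | refine PF.comp1 (F := _) (by assumption) ?_ | refine PF.comp2 (F := _) (by assumption) ?_ ?_ | refine PF.comp3 (F := _) (by assumption) ?_ ?_ ?_ | refine PD.app1 (R := _) (by assumption) ?_ | refine PD.app2 (R := _) (by assumption) ?_ ?_ | refine PD.app3 (R := _) (by assumption) ?_ ?_ ?_ | refine PD.app4 (R := _) (by assumption) ?_ ?_ ?_ ?_))) hx).symm)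

/-- The cartesian product. -/
noncomputable def prod (a b : M) : M := sUn (img (fun x => img (fun y => op x y) b) a)

@[simp] theorem mem_prod {a b z : M} : SetStr.mem z (prod a b) ↔ ∃ x, SetStr.mem x a ∧ ∃ y, SetStr.mem y b ∧ z = op x y := by
  unfold prod
  rw [mem_sUn]
  constructor
  · rintro ⟨w, hw, hz⟩
    obtain ⟨x, hx, rfl⟩ := (mem_img (by (repeat' (with_reducible first | apply pf_lam | apply pd_Fn | apply pf_app | apply pf_ran | apply pf_dom | apply PF.img | apply PF.pow | apply PD.sub | apply PF.adj | apply PF.un | apply PF.sUn | apply PF.op | apply PF.pr | apply PF.sep | exact PF.var _ | exact PF.const _ | apply PD.eq | apply PD.mem | apply PD.not | apply PD.iff | apply PD.or | apply PD.and | apply PD.imp | apply PD.ex | apply PD.all | exact PD.const _ | assumption | refine PF.comp1 (F := _) (by assumption) ?_ | refine PF.comp2 (F := _) (by assumption) ?_ ?_ | refine PF.comp3 (F := _) (by assumption) ?_ ?_ ?_ | refine PD.app1 (R := _) (by assumption) ?_ | refine PD.app2 (R := _) (by assumption)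 ?_ ?_ | refine PD.app3 (R := _) (by assumption) ?_ ?_ ?_ | refine PD.app4 (R := _) (by assumption) ?_ ?_ ?_ ?_)))).1 hw
    obtain ⟨y, hy, rfl⟩ := (mem_img (by (repeat' (with_reducible first | apply pf_lam | apply pd_Fn | apply pf_app | apply pf_ran | apply pf_dom | apply PF.img | apply PF.pow | apply PD.sub | apply PF.adj | apply PF.un | apply PF.sUn | apply PF.op | apply PF.pr | apply PF.sep | exact PF.var _ | exact PF.const _ | apply PD.eq | apply PD.mem | apply PD.not | apply PD.iff | apply PD.or | apply PD.and | apply PD.imp | apply PD.ex | apply PD.all | exact PD.const _ | assumption | refine PF.comp1 (F := _) (by assumption) ?_ | refine PF.comp2 (F := _) (by assumption) ?_ ?_ | refine PF.comp3 (F := _) (by assumption) ?_ ?_ ?_ | refine PD.app1 (R := _) (by assumption) ?_ | refine PD.app2 (R := _) (by assumption) ?_ ?_ | refine PD.app3 (R := _) (by assumption) ?_ ?_ ?_ | refine PD.app4 (R := _) (by assumption) ?_ ?_ ?_ ?_)))).1 hz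
    exact ⟨x, hx, y, hy, rfl⟩
  · rintro ⟨x, hx, y, hy, rfl⟩
    exact ⟨_, (mem_img (by (repeat' (with_reducible first | apply pf_lam | apply pd_Fn | apply pf_app | apply pf_ran | apply pf_dom | apply PF.img | apply PF.pow | apply PD.sub | apply PF.adj | apply PF.un | apply PF.sUn | apply PF.op | apply PF.pr | apply PF.sep | exact PF.var _ | exact PF.const _ | apply PD.eq | apply PD.mem | apply PD.not | apply PD.iff | apply PD.or | apply PD.and | apply PD.imp | apply PD.ex | apply PD.all | exact PD.const _ | assumption | refine PF.comp1 (F := _) (by assumption) ?_ | refine PF.comp2 (F := _) (by assumption) ?_ ?_ | refine PF.comp3 (F := _) (by assumption) ?_ ?_ ?_ | refine PD.app1 (R := _) (by assumption) ?_ | refine PD.app2 (R := _) (by assumption) ?_ ?_ | refine PD.app3 (R := _) (by assumption) ?_ ?_ ?_ | refine PD.app4 (R := _) (by assumption) ?_ ?_ ?_ ?_)))).2 ⟨x, hx, rfl⟩, (mem_img (by (repeat' (with_reducible first | apply pf_lam | apply pd_Fn | apply pf_app | apply pf_ran | apply pf_dom | apply PF.img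 | apply PF.pow | apply PD.sub | apply PF.adj | apply PF.un | apply PF.sUn | apply PF.op | apply PF.pr | apply PF.sep | exact PF.var _ | exact PF.const _ | apply PD.eq | apply PD.mem | apply PD.not | apply PD.iff | apply PD.or | apply PD.and | apply PD.imp | apply PD.ex | apply PD.all | exact PD.const _ | assumption | refine PF.comp1 (F := _) (by assumption) ?_ | refine PF.comp2 (F := _) (by assumption) ?_ ?_ | refine PF.comp3 (F := _) (by assumption) ?_ ?_ ?_ | refine PD.app1 (R := _) (by assumption) ?_ | refine PD.app2 (R := _) (by assumption) ?_ ?_ | refine PD.app3 (R := _) (by assumption) ?_ ?_ ?_ | refine PD.app4 (R := _) (by assumption) ?_ ?_ ?_ ?_)))).2 ⟨y, hy, rfl⟩⟩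

theorem op_mem_prod {a b x y : M} : SetStr.mem (op x y) (prod a b) ↔ SetStr.mem x a ∧ SetStr.mem y b := by
  rw [mem_prod]
  constructor
  · rintro ⟨x', hx', y', hy', h⟩
    rw [op_inj] at h
    rw [h.1, h.2]
    exact ⟨hx', hy'⟩
  · rintro ⟨hx, hy⟩
    exact ⟨x, hx, y, hy, rfl⟩

theorem pf_prod {f g : (ℕ → M) → M} (hf : PF f) (hg : PF g) : PF (fun v => prod (f v) (g v)) := by
  refine PF.of_mem (Q := fun z v => ∃ x, SetStr.mem x (f v) ∧ ∃ y, SetStr.mem y (g v) ∧ z = op x y)
    (fun v z => mem_prod) ?_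
  apply PD.ex
  refine PD.and (PD.mem (PF.var _) (hf.weaken 2)) ?_
  apply PD.ex
  exact PD.and (PD.mem (PF.var _) (hg.weaken 3)) (by (repeat' (with_reducible first | apply pf_lam | apply pd_Fn | apply pf_app | apply pf_ran | apply pf_dom | apply PF.img | apply PF.pow | apply PD.sub | apply PF.adj | apply PF.un | apply PF.sUn | apply PF.op | apply PF.pr | apply PF.sep | exact PF.var _ | exact PF.const _ | apply PD.eq | apply PD.mem | apply PD.not | apply PD.iff | apply PD.or | apply PD.and | apply PD.imp | apply PD.ex | apply PD.all | exact PD.const _ | assumption | refine PF.comp1 (F := _) (by assumption) ?_ | refine PF.comp2 (F := _) (by assumption) ?_ ?_ | refine PF.comp3 (F := _) (by assumption) ?_ ?_ ?_ | refine PD.app1 (R := _) (by assumption) ?_ | refine PD.app2 (R := _) (by assumption) ?_ ?_ | refine PD.app3 (R := _) (by assumption) ?_ ?_ ?_ | refine PD.app4 (R := _) (by assumption) ?_ ?_ ?_ ?_)))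


/-- The set of all functions from `a` to `b`. -/
noncomputable def funs (a b : M) : M := sep (pow (prod a b)) (fun f => Fn f a)

theorem mem_funs {a b f : M} : SetStr.mem f (funs a b) ↔ Fn f a ∧ ∀ x, SetStr.mem x a → SetStr.mem (app f x) b := by
  unfold funs
  rw [mem_sep (by (repeat' (with_reducible first | apply pf_prod | apply pf_lam | apply pd_Fn | apply pf_app | apply pf_ran | apply pf_dom | apply PF.img | apply PF.pow | apply PD.sub | apply PF.adj | apply PF.un | apply PF.sUn | apply PF.op | apply PF.pr | apply PF.sep | exact PF.var _ | exact PF.const _ | apply PD.eq | apply PD.mem | apply PD.not | apply PD.iff | apply PD.or | apply PD.and | apply PD.imp | apply PD.ex | apply PD.all | exact PD.const _ | assumption | refine PF.comp1 (F := _) (by assumption) ?_ | refine PF.comp2 (F := _) (by assumption) ?_ ?_ | refine PF.comp3 (F := _) (by assumption) ?_ ?_ ?_ | refine PD.app1 (R := _) (by assumption) ?_ | refine PD.app2 (R := _) (by assumption) ?_ ?_ | refine PD.app3 (R := _) (by assumption) ?_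 ?_ ?_ | refine PD.app4 (R := _) (by assumption) ?_ ?_ ?_ ?_))), mem_pow]
  constructor
  · rintro ⟨h1, h2⟩
    refine ⟨h2, fun x hx => ?_⟩
    exact (op_mem_prod.1 (h1 _ (h2.app_mem hx))).2
  · rintro ⟨h1, h2⟩
    refine ⟨fun z hz => ?_, h1⟩
    obtain ⟨x, hx, y, rfl⟩ := h1.1 z hz
    rw [op_mem_prod]
    refine ⟨hx, ?_⟩
    rw [(h1.mem_iff.1 hz).2]
    exact h2 x hx

theorem pf_funs {f g : (ℕ → M) → M} (hf : PF f) (hg : PF g) : PF (fun v => funs (f v) (g v)) := by
  refine PF.of_mem (Q := fun z v => GA.Fn z (f v) ∧ ∀ x, SetStr.mem x (f v) → SetStr.mem (GA.app z x) (g v))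
    (fun v z => mem_funs) ?_
  refine PD.and (pd_Fn (PF.var _) (hf.weaken 1)) ?_
  apply PD.all
  exact PD.imp (PD.mem (PF.var _) (hf.weaken 2))
    (PD.mem (pf_app (PF.var _) (PF.var _)) (hg.weaken 2))


end GA
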