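import Pool.Agent.GA.Fc

/-!
# Generic filters and generic extensions of countable models
-/

universe u

namespace GA

open FirstOrder FirstOrder.Language

variable {M : Type u} [SetStr M] [IsZF M]

/-- `G` is a filter on `P` which meets every dense subset of `P` definable with parameters. -/
structure IsGeneric (P L o : M) (G : Set M) : Prop where
  forcing : IsForcing P L o
  sub : ∀ p, p ∈ G → SetStr.mem p P
  up : ∀ p q, p ∈ G → SetStr.mem (op p q) L → q ∈ G
  dir : ∀ p q, p ∈ G → q ∈ G → ∃ r, r ∈ G ∧ SetStr.mem (op r p) L ∧ SetStr.mem (op r q) L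
  meets : ∀ D : M → Prop, PD (fun v => D (v 0)) → (∀ p, SetStr.mem p P → ∃ q, SetStr.mem (op q p) L ∧ D q) →
    ∃ p, p ∈ G ∧ D p

instance instCountableFunctions (l : ℕ) : Countable (LST.Functions l) :=
  inferInstanceAs (Countable Empty)

instance instCountableRelations (l : ℕ) : Countable (LST.Relations l) := by
  refine ⟨⟨fun _ => 0, ?_⟩⟩
  rintro ⟨⟩ ⟨⟩ _
  rfl

/-- Countably many unary predicates are definable in a countable structure. -/
theorem countable_defs [Countable M] : {D : M → Prop | PD (fun v => D (v 0))}.Countable := by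
  have hc : Countable (LST.Formula (M ⊕ ℕ)) := inferInstance
  have : {D : M → Prop | PD (fun v => D (v 0))} ⊆
      Set.range (fun φ : LST.Formula (M ⊕ ℕ) => fun x : M => φ.Realize (Sum.elim id (fun _ => x))) := by
    rintro D ⟨φ, hφ⟩
    refine ⟨φ, ?_⟩
    funext x
    exact propext (hφ (fun _ => x))
  exact (Set.countable_range _).mono this

/-- In a countable model every condition is in a generic filter. -/
theorem exists_generic [Countable M] {P L o : M} (hF : IsForcing P L o) (p0 : M) (hp0 : SetStr.mem p0 P) :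
    ∃ G, IsGeneric P L o G ∧ p0 ∈ G := by
  classical
  obtain ⟨D, hD⟩ := (countable_defs (M := M)).exists_eq_range ⟨fun _ => True, PD.const _⟩
  have hD' : ∀ n, PD (fun v : ℕ → M => D n (v 0)) := fun n => by
    have : D n ∈ {D : M → Prop | PD (fun v => D (v 0))} := by rw [hD]; exact ⟨n, rfl⟩
    exact this
  have step : ∀ (n : ℕ) (p : {p // SetStr.mem p P}), ∃ q : {p // SetStr.mem p P}, SetStr.mem (op q.1 p.1) L ∧
      ((∀ p, SetStr.mem p P → ∃ q, SetStr.mem (op q p) L ∧ D n q) → D n q.1) := by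
    intro n p
    by_cases h : ∀ p, SetStr.mem p P → ∃ q, SetStr.mem (op q p) L ∧ D n q
    · obtain ⟨q, hq, hq'⟩ := h p.1 p.2
      exact ⟨⟨q, (hF.fld _ _ hq).1⟩, hq, fun _ => hq'⟩
    · exact ⟨p, hF.refl _ p.2, fun h' => (h h').elim⟩
  choose f hf1 hf2 using step
  let s : ℕ → {p // SetStr.mem p P} := fun n => Nat.rec ⟨p0, hp0⟩ (fun n p => f n p) n
  have hs : ∀ n, SetStr.mem (op (s (n + 1)).1 (s n).1) L := fun n => hf1 n (s n)
  have hs' : ∀ n m, n ≤ m → SetStr.mem (op (s m).1 (s n).1) L := by
    intro n m h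
    induction m, h using Nat.le_induction with
    | base => exact hF.refl _ (s n).2
    | succ m _ ih => exact hF.trans _ _ _ (hs m) ih
  refine ⟨{p | ∃ n, SetStr.mem (op (s n).1 p) L}, ⟨hF, ?_, ?_, ?_, ?_⟩, 0, hF.refl _ hp0⟩
  · rintro p ⟨n, hn⟩
    exact (hF.fld _ _ hn).2
  · rintro p q ⟨n, hn⟩ hpq
    exact ⟨n, hF.trans _ _ _ hn hpq⟩
  · rintro p q ⟨n, hn⟩ ⟨m, hm⟩
    refine ⟨(s (max n m)).1, ⟨max n m, hF.refl _ (s _).2⟩, ?_, ?_⟩
    · exact hF.trans _ _ _ (hs' _ _ (le_max_left _ _)) hn
    · exact hF.trans _ _ _ (hs' _ _ (le_max_right _ _)) hm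
  · intro E hE hE'
    have : E ∈ {D : M → Prop | PD (fun v => D (v 0))} := hE
    rw [hD] at this
    obtain ⟨n, rfl⟩ := this
    exact ⟨(s (n + 1)).1, ⟨n + 1, hF.refl _ (s (n + 1)).2⟩, hf2 n (s n) hE'⟩

section ext

variable {P L o : M} {G : Set M}

/-- A generic filter meets every definable set which is dense below one of its elements. -/
theorem IsGeneric.meets_below (hG : IsGeneric P L o G) {D : M → Prop}
    (hD : PD (fun v => D (v 0))) {p : M} (hp : p ∈ G)
    (h : ∀ q, SetStr.mem (op q p) L → ∃ r, SetStr.mem (op r q) L ∧ D r) : ∃ r, r ∈ G ∧ SetStr.mem (op r p) L ∧ D r := by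
  have hF := hG.forcing
  obtain ⟨q, hq, hq'⟩ := hG.meets (fun q => (SetStr.mem (op q p) L ∧ D q) ∨ ∀ r, SetStr.mem (op r q) L → ¬ SetStr.mem (op r p) L)
    (PD.or (PD.and (by (repeat' (with_reducible first | apply pd_Fmem | apply pd_Feq | apply pd_Tr | apply pd_Ind | apply pf_succ | apply pf_funs | apply pf_prod | apply pf_lam | apply pd_Fn | apply pf_app | apply pf_ran | apply pf_dom | apply PF.img | apply PF.pow | apply PD.sub | apply PF.adj | apply PF.un | apply PF.sUn | apply PF.op | apply PF.pr | apply PF.sep | exact PF.var _ | exact PF.const _ | apply PD.eq | apply PD.mem | apply PD.not | apply PD.iff | apply PD.or | apply PD.and | apply PD.imp | apply PD.ex | apply PD.all | exact PD.const _ | assumption | refine PF.comp1 (F := _) (by assumption) ?_ | refine PF.comp2 (F := _) (by assumption) ?_ ?_ | refine PF.comp3 (F := _) (by assumption) ?_ ?_ ?_ | refine PD.app1 (R := _) (by assumption) ?_ | refine PD.app2 (R := _) (by assumption) ?_ ?_ | refine PD.app3 (R := _) (by assumption) ?_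 ?_ ?_ | refine PD.app4 (R := _) (by assumption) ?_ ?_ ?_ ?_))) hD) (by (repeat' (with_reducible first | apply pd_Fmem | apply pd_Feq | apply pd_Tr | apply pd_Ind | apply pf_succ | apply pf_funs | apply pf_prod | apply pf_lam | apply pd_Fn | apply pf_app | apply pf_ran | apply pf_dom | apply PF.img | apply PF.pow | apply PD.sub | apply PF.adj | apply PF.un | apply PF.sUn | apply PF.op | apply PF.pr | apply PF.sep | exact PF.var _ | exact PF.const _ | apply PD.eq | apply PD.mem | apply PD.not | apply PD.iff | apply PD.or | apply PD.and | apply PD.imp | apply PD.ex | apply PD.all | exact PD.const _ | assumption | refine PF.comp1 (F := _) (by assumption) ?_ | refine PF.comp2 (F := _) (by assumption) ?_ ?_ | refine PF.comp3 (F := _) (by assumption) ?_ ?_ ?_ | refine PD.app1 (R := _) (by assumption) ?_ | refine PD.app2 (R := _) (by assumption) ?_ ?_ | refine PD.app3 (R := _) (by assumption) ?_ ?_ ?_ | refine PD.app4 (R := _) (by assumption) ?_ ?_ ?_ ?_)))) (by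
      intro q hq
      by_cases h' : ∃ r, SetStr.mem (op r q) L ∧ SetStr.mem (op r p) L
      · obtain ⟨r, h1, h2⟩ := h'
        obtain ⟨r', h3, h4⟩ := h r h2
        exact ⟨r', hF.trans _ _ _ h3 h1, Or.inl ⟨hF.trans _ _ _ h3 h2, h4⟩⟩
      · push Not at h'
        exact ⟨q, hF.refl _ hq, Or.inr h'⟩)
  rcases hq' with hq' | hq'
  · exact ⟨q, hq, hq'.1, hq'.2⟩
  · obtain ⟨r, -, h1, h2⟩ := hG.dir q p hq hp
    exact (hq' r h1 h2).elim

theorem IsGeneric.nonempty (hG : IsGeneric P L o G) : ∃ p, p ∈ G := by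
  obtain ⟨p, hp, -⟩ := hG.meets (fun _ => True) (PD.const _)
    (fun p hp => ⟨p, hG.forcing.refl _ hp, trivial⟩)
  exact ⟨p, hp⟩

theorem IsGeneric.top_mem (hG : IsGeneric P L o G) : o ∈ G := by
  obtain ⟨p, hp⟩ := hG.nonempty
  exact hG.up p o hp (hG.forcing.le_top p (hG.sub p hp))

/-- Two names are identified if some condition in `G` forces them to be equal. -/
def IsGeneric.setoid (hG : IsGeneric P L o G) : Setoid M where
  r x y := ∃ p, p ∈ G ∧ Feq L p x y
  iseqv := {
    refl := fun x => ⟨o, hG.top_mem, Feq.refl hG.forcing _ _⟩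
    symm := fun ⟨p, hp, h⟩ => ⟨p, hp, h.symm⟩
    trans := fun ⟨p, hp, h⟩ ⟨q, hq, h'⟩ => by
      obtain ⟨r, hr, h1, h2⟩ := hG.dir p q hp hq
      exact ⟨r, hr, (h.mono hG.forcing h1).trans hG.forcing (h'.mono hG.forcing h2)⟩ }

/-- The generic extension `M[G]`. -/
def Ext (hG : IsGeneric P L o G) : Type u := Quotient hG.setoid

/-- The value of a name. -/
def val (hG : IsGeneric P L o G) (x : M) : Ext hG := Quotient.mk hG.setoid x

theorem val_surj (hG : IsGeneric P L o G) (x : Ext hG) : ∃ y, val hG y = x := Quotient.exists_rep x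

theorem val_eq {hG : IsGeneric P L o G} {x y : M} :
    val hG x = val hG y ↔ ∃ p, p ∈ G ∧ Feq L p x y :=
  ⟨fun h => Quotient.exact h, fun h => Quotient.sound (s := hG.setoid) h⟩

theorem Fmem_congr (hG : IsGeneric P L o G) {x y x' y' : M} (h1 : ∃ p, p ∈ G ∧ Feq L p x x')
    (h2 : ∃ p, p ∈ G ∧ Feq L p y y') (h : ∃ p, p ∈ G ∧ Fmem L p x y) :
    ∃ p, p ∈ G ∧ Fmem L p x' y' := by
  have hF := hG.forcing
  obtain ⟨p1, hp1, h1⟩ := h1
  obtain ⟨p2, hp2, h2⟩ := h2
  obtain ⟨p3, hp3, h3⟩ := h
  obtain ⟨q, hq, hq1, hq2⟩ := hG.dir _ _ hp1 hp2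
  obtain ⟨r, hr, hr1, hr2⟩ := hG.dir _ _ hq hp3
  exact ⟨r, hr, ((h3.mono hF hr2).subst_left hF (h1.mono hF (hF.trans _ _ _ hr1 hq1))).subst_right
    hF (h2.mono hF (hF.trans _ _ _ hr1 hq2))⟩

instance instSetStrExt (hG : IsGeneric P L o G) : SetStr (Ext hG) where
  mem := Quotient.lift₂ (fun x y => ∃ p, p ∈ G ∧ Fmem L p x y) (by
    intro x y x' y' h1 h2
    refine propext ⟨fun h => Fmem_congr hG h1 h2 h, fun h => ?_⟩
    exact Fmem_congr hG (hG.setoid.symm h1) (hG.setoid.symm h2) h)

theorem val_mem {hG : IsGeneric P L o G} {x y : M} :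
    SetStr.mem (val hG x) (val hG y) ↔ ∃ p, p ∈ G ∧ Fmem L p x y := Iff.rfl

theorem realize_term (hG : IsGeneric P L o G) {α : Type} {n : ℕ} (t : LST.Term (α ⊕ Fin n))
    (v : α → M) (xs : Fin n → M) :
    t.realize (Sum.elim (fun a => val hG (v a)) (fun i => val hG (xs i))) =
      val hG (t.realize (Sum.elim v xs)) := by
  cases t with
  | var a => cases a <;> rfl
  | func f ts => exact Empty.elim f

/-- THE TRUTH LEMMA. -/
theorem truth (hG : IsGeneric P L o G) {α : Type} {n : ℕ} (φ : LST.BoundedFormula α n)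
    (v : α → M) (xs : Fin n → M) :
    φ.Realize (fun a => val hG (v a)) (fun i => val hG (xs i)) ↔
      ∃ p, p ∈ G ∧ Forces L φ p v xs := by
  have hF := hG.forcing
  induction φ with
  | falsum => exact ⟨fun h => h.elim, fun ⟨p, _, h⟩ => h.elim⟩
  | equal t₁ t₂ =>
    show t₁.realize _ = t₂.realize _ ↔ _
    rw [realize_term, realize_term, val_eq]
    rfl
  | rel R ts =>
    cases R
    show SetStr.mem ((ts 0).realize _) ((ts 1).realize _) ↔ _
    rw [realize_term, realize_term, val_mem]
    rfl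
  | @imp n φ ψ ih1 ih2 =>
    rw [BoundedFormula.realize_imp]
    have i1 := ih1 xs
    have i2 := ih2 xs
    constructor
    · intro h
      obtain ⟨p, hp, hp'⟩ := hG.meets
        (fun p => Forces L φ p v xs ∨ Forces L φ.not p v xs)
        (PD.or (pd_Forces φ (PF.const L) (PF.var 0) (fun a => PF.const _) (fun i => PF.const _))
          (pd_Forces φ.not (PF.const L) (PF.var 0) (fun a => PF.const _) (fun i => PF.const _)))
        (by
          intro p hp
          by_cases h' : Forces L φ p v xs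
          · exact ⟨p, hF.refl _ hp, Or.inl h'⟩
          · obtain ⟨q, hq, hq'⟩ := Forces.exists_not hF φ hp v xs h'
            exact ⟨q, hq, Or.inr hq'⟩)
      rcases hp' with hp' | hp'
      · obtain ⟨q, hq, hq'⟩ := i2.1 (h (i1.2 ⟨p, hp, hp'⟩))
        refine ⟨q, hq, fun r hr _ => Forces.mono hF ψ hr v xs hq'⟩
      · exact ⟨p, hp, fun q hq hq' => ((Forces.not_iff φ v xs).1 hp' q hq hq').elim⟩
    · rintro ⟨p, hp, h⟩ h'
      obtain ⟨q, hq, h'⟩ := i1.1 h'
      obtain ⟨r, hr, h1, h2⟩ := hG.dir _ _ hp hq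
      exact i2.2 ⟨r, hr, h r h1 (Forces.mono hF φ h2 v xs h')⟩
  | @all n φ ih =>
    rw [BoundedFormula.realize_all]
    have key : ∀ x : M, (Fin.snoc (fun i => val hG (xs i)) (val hG x) : Fin (n + 1) → Ext hG) =
        fun i => val hG ((Fin.snoc xs x : Fin (n + 1) → M) i) := by
      intro x
      funext i
      refine Fin.lastCases ?_ (fun i => ?_) i
      · simp only [Fin.snoc_last]
      · simp only [Fin.snoc_castSucc]
    constructor
    · intro h
      obtain ⟨p, hp, hp'⟩ := hG.meets
        (fun p => Forces L φ.all p v xs ∨ ∃ x, Forces L φ.not p v (Fin.snoc xs x))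
        (by
          refine PD.or (pd_Forces φ.all (PF.const L) (PF.var 0) (fun a => PF.const _)
            (fun i => PF.const _)) ?_
          refine PD.ex (P := fun x e => Forces L φ.not (e 0) v (Fin.snoc xs x)) ?_
          have h1 := pd_Forces (L := fun _ => L) (p := fun e : ℕ → M => e 1) (v := fun a _ => v a)
            (xs := Fin.snoc (α := fun _ => (ℕ → M) → M) (fun i _ => xs i) (fun e => e 0))
            φ.not (PF.const L) (PF.var 1) (fun a => PF.const _) (by
              intro i
              refine Fin.lastCases ?_ (fun i => ?_) i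
              · simp only [Fin.snoc_last]
                exact PF.var 0
              · simp only [Fin.snoc_castSucc]
                exact PF.const _)
          refine h1.of_iff (fun e => ?_)
          have e1 : (fun i => (Fin.snoc (α := fun _ => (ℕ → M) → M) (fun i _ => xs i)
              (fun e => e 0) : Fin (n + 1) → (ℕ → M) → M) i e) = Fin.snoc xs (e 0) := by
            funext i
            refine Fin.lastCases ?_ (fun i => ?_) i
            · simp only [Fin.snoc_last]
            · simp only [Fin.snoc_castSucc]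
          rw [e1])
        (by
          intro p hp
          by_cases h' : Forces L φ.all p v xs
          · exact ⟨p, hF.refl _ hp, Or.inl h'⟩
          · have h2 : ∃ x, ¬ Forces L φ p v (Fin.snoc xs x) := by
              by_contra hcon
              push Not at hcon
              exact h' hcon
            obtain ⟨x, hx⟩ := h2
            obtain ⟨q, hq, hq'⟩ := Forces.exists_not hF φ hp v _ hx
            exact ⟨q, hq, Or.inr ⟨x, hq'⟩⟩)
      rcases hp' with hp' | ⟨x, hp'⟩
      · exact ⟨p, hp, hp'⟩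
      · have h3 := h (val hG x)
        rw [key] at h3
        replace h3 := (ih _).1 h3
        obtain ⟨q, hq, hq'⟩ := h3
        obtain ⟨r, hr, h1, h2⟩ := hG.dir _ _ hp hq
        exact ((Forces.not_iff φ v _).1 hp' r h1 (Forces.mono hF φ h2 v _ hq')).elim
    · rintro ⟨p, hp, h⟩ x
      obtain ⟨x, rfl⟩ := val_surj hG x
      rw [key]
      exact (ih _).2 ⟨p, hp, h x⟩

end ext

end GA
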