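import Pool.Agent.GA.HecX
import Pool.Agent.GA.CohF

/-!
# The axiom for the finite support iterations of Hechler forcing fails in every model of ZF
-/

universe u

namespace GA

open FirstOrder FirstOrder.Language

section inst

variable {f g h k l m : ∀ i : ZFM.{u}, (ℕ → i.carrier) → i.carrier}

instance FZ.p1 [hf : FZ f] : FZ (fun i v => p1 (f i v)) := by
  refine FZ.app1 (F := fun i x => GA.p1 x) ?_ hf
  unfold GA.p1
  infer_instance

instance FZ.p2 [hf : FZ f] : FZ (fun i v => p2 (f i v)) := by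
  refine FZ.app1 (F := fun i x => GA.p2 x) ?_ hf
  unfold GA.p2
  infer_instance

instance FZ.fseq : FZ (fun (i : ZFM.{u}) (_ : ℕ → i.carrier) => (fseq : i.carrier)) := by
  unfold GA.fseq
  infer_instance

instance FZ.below [hf : FZ f] [hg : FZ g] : FZ (fun i v => below (f i v) (g i v)) := by
  refine FZ.app2 (F := fun i x y => GA.below x y) ?_ hf hg
  unfold GA.below
  infer_instance

instance FZ.res [hf : FZ f] [hg : FZ g] : FZ (fun i v => res (f i v) (g i v)) := by
  refine FZ.app2 (F := fun i x y => GA.res x y) ?_ hf hg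
  unfold GA.res
  infer_instance

instance DZ.FV [hf : FZ f] [hg : FZ g] [hh : FZ h] [hk : FZ k] [hl : FZ l] [hm : FZ m] :
    DZ (fun i v => FV (f i v) (g i v) (h i v) (k i v) (l i v) (m i v)) := by
  have h0 : DZ (fun (i : ZFM.{u}) (v : ℕ → i.carrier) => FVp (v 0) (v 1) (v 2)) := by
    unfold GA.FVp GA.FV
    infer_instance
  have h1 := DZ.app3 (R := fun i a b c => FVp a b c) h0 (FZ.op (hf := hf) (hg := hg))
    (FZ.op (hf := hh) (hg := hk)) (FZ.op (hf := hl) (hg := hm))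
  refine h1.of_iff (fun i v => ?_)
  simp only [FVp, p1_op, p2_op]

instance DZ.RName [hf : FZ f] [hg : FZ g] [hh : FZ h] :
    DZ (fun i v => RName (f i v) (g i v) (h i v)) := by
  refine DZ.app3 (R := fun i x y z => GA.RName x y z) ?_ hf hg hh
  unfold GA.RName
  infer_instance

instance DZ.NLe [hf : FZ f] [hg : FZ g] [hh : FZ h] [hk : FZ k] [hl : FZ l] :
    DZ (fun i v => NLe (f i v) (g i v) (h i v) (k i v) (l i v)) := by
  have h0 : DZ (fun (i : ZFM.{u}) (v : ℕ → i.carrier) => NLeP (v 0) (v 1) (v 2) (v 3)) := by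
    unfold GA.NLeP GA.NLe
    infer_instance
  have h1 := DZ.app4 (R := fun i a b c d => NLeP a b c d) h0 (FZ.op (hf := hf) (hg := hg)) hh hk hl
  refine h1.of_iff (fun i v => ?_)
  simp only [NLeP, p1_op, p2_op]

instance DZ.NLeV [hf : FZ f] [hg : FZ g] [hh : FZ h] [hk : FZ k] [hl : FZ l] [hm : FZ m] :
    DZ (fun i v => NLeV (f i v) (g i v) (h i v) (k i v) (l i v) (m i v)) := by
  have h0 : DZ (fun (i : ZFM.{u}) (v : ℕ → i.carrier) => NLeVP (v 0) (v 1) (v 2) (v 3)) := by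
    unfold GA.NLeVP GA.NLeV
    infer_instance
  have h1 := DZ.app4 (R := fun i a b c d => NLeVP a b c d) h0 (FZ.op (hf := hf) (hg := hg))
    (FZ.op (hf := hh) (hg := hk)) hl hm
  refine h1.of_iff (fun i v => ?_)
  simp only [NLeVP, p1_op, p2_op]

instance DZ.HLe [hf : FZ f] [hg : FZ g] [hh : FZ h] [hk : FZ k] :
    DZ (fun i v => HLe (f i v) (g i v) (h i v) (k i v)) := by
  refine DZ.app4 (R := fun i x y z w => GA.HLe x y z w) ?_ hf hg hh hk
  unfold GA.HLe
  infer_instance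

instance DZ.IsHec [hf : FZ f] [hg : FZ g] [hh : FZ h] :
    DZ (fun i v => IsHec (f i v) (g i v) (h i v)) := by
  refine DZ.app3 (R := fun i x y z => GA.IsHec x y z) ?_ hf hg hh
  have h1 : DZ (fun (i : ZFM.{u}) (v : ℕ → i.carrier) =>
      (∀ p, SetStr.mem p (v 1) ↔ GA.Fini p ∧ GA.Fun1 p ∧ ∀ z, SetStr.mem z p → ∃ c s τ, z = op c (op s τ) ∧ SetStr.mem c (v 0) ∧
        SetStr.mem s GA.fseq ∧ GA.RName (GA.below (v 1) c) (v 2) τ) ∧
      (∀ z, SetStr.mem z (v 2) → ∃ p q, z = op p q) ∧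
      ∀ p q, SetStr.mem (op p q) (v 2) ↔ SetStr.mem p (v 1) ∧ SetStr.mem q (v 1) ∧ GA.HLe (v 1) (v 2) p q) := by
    infer_instance
  exact h1.of_iff (fun i v => ⟨fun ⟨a, b, c⟩ => ⟨a, b, c⟩, fun ⟨a, b, c⟩ => ⟨a, b, c⟩⟩)

end inst

section

variable {M : Type u} [SetStr M] [IsZF M]

open Classical in
/-- The conditions of the iteration of length `κ`. -/
noncomputable def hecP (κ : M) : M := if Ord κ then p1 (hec κ) else emp

open Classical in
/-- The order of the iteration of length `κ`. -/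
noncomputable def hecL (κ : M) : M := if Ord κ then p2 (hec κ) else emp

theorem isHec_hecP {κ : M} (hκ : Ord κ) : IsHec κ (hecP κ) (hecL κ) := by
  unfold hecP hecL
  rw [if_pos hκ, if_pos hκ]
  exact isHec_hec hκ

theorem eq_hecP {κ z : M} : z = hecP κ ↔ (Ord κ ∧ ∃ L, IsHec κ z L) ∨ (¬ Ord κ ∧ z = emp) := by
  by_cases hκ : Ord κ
  · constructor
    · rintro rfl
      exact Or.inl ⟨hκ, _, isHec_hecP hκ⟩
    · rintro (⟨-, L, h⟩ | ⟨h, -⟩)
      · exact (h.unique (isHec_hecP hκ) hκ).1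
      · exact (h hκ).elim
  · have e : hecP κ = emp := by
      unfold hecP
      rw [if_neg hκ]
    rw [e]
    exact ⟨fun h => Or.inr ⟨hκ, h⟩, fun h => h.elim (fun h => (hκ h.1).elim) (fun h => h.2)⟩

theorem eq_hecL {κ z : M} : z = hecL κ ↔ (Ord κ ∧ ∃ P, IsHec κ P z) ∨ (¬ Ord κ ∧ z = emp) := by
  by_cases hκ : Ord κ
  · constructor
    · rintro rfl
      exact Or.inl ⟨hκ, _, isHec_hecP hκ⟩
    · rintro (⟨-, P, h⟩ | ⟨h, -⟩)
      · exact (h.unique (isHec_hecP hκ) hκ).2
      · exact (h hκ).elim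
  · have e : hecL κ = emp := by
      unfold hecL
      rw [if_neg hκ]
    rw [e]
    exact ⟨fun h => Or.inr ⟨hκ, h⟩, fun h => h.elim (fun h => (hκ h.1).elim) (fun h => h.2)⟩

theorem IsHec.isForcing {κ P L : M} (h : IsHec κ P L) (hκ : Ord κ) : IsForcing P L emp where
  fld := fun q p hpq => ⟨((h.le q p).1 hpq).1, ((h.le q p).1 hpq).2.1⟩
  refl := fun p hp => h.refl hp
  trans := fun r q p h1 h2 => h.trans hκ h1 h2
  top_mem := h.emp_mem
  le_top := fun p hp => h.le_emp hp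

end

instance FZ.hecP : FZ (fun (i : ZFM.{u}) (v : ℕ → i.carrier) => hecP (v 0)) :=
  FZ.of_unique (R := fun i z v => (Ord (v 0) ∧ ∃ L, IsHec (v 0) z L) ∨ (¬ Ord (v 0) ∧ z = GA.emp))
    (fun i v z => eq_hecP) inferInstance

instance FZ.hecL : FZ (fun (i : ZFM.{u}) (v : ℕ → i.carrier) => hecL (v 0)) :=
  FZ.of_unique (R := fun i z v => (Ord (v 0) ∧ ∃ P, IsHec (v 0) P z) ∨ (¬ Ord (v 0) ∧ z = GA.emp))
    (fun i v z => eq_hecL) inferInstance

/-- The class of the finite support iterations of Hechler forcing. -/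
noncomputable def hecClass : FClass.{u} where
  P := fun _ κ => hecP κ
  L := fun _ κ => hecL κ
  o := fun _ _ => emp
  hP := inferInstance
  hL := inferInstance
  ho := inferInstance
  forcing := fun _ _ hκ => (isHec_hecP hκ).isForcing hκ

/-- The axiom for Hechler iterations fails in every model of ZF. -/
theorem not_FAx_hec (M : Type u) [SetStr M] [IsZF M] : ¬ FAx hecClass.{u} M :=
  not_FAx_of_transfer hecClass (fun _ _ _ κ hκ =>
    ⟨(isHec_hecP hκ.1).covP hκ, (isHec_hecP hκ.1).lowP hκ.1, (isHec_hecP hκ.1).upP hκ⟩) M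

end GA
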