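import Pool.Agent.GA.Hec

/-!
# The finite support iteration of Hechler forcing exists and is unique
-/

universe u

namespace GA

variable {M : Type u} [SetStr M] [IsZF M]

/-- The relations `L` and `L'` agree on `Q`. -/
def Agree (Q L L' : M) : Prop := ∀ p q, SetStr.mem p Q → SetStr.mem q Q → (SetStr.mem (op p q) L ↔ SetStr.mem (op p q) L')

theorem pd_Agree {f g h : (ℕ → M) → M} (hf : PF f) (hg : PF g) (hh : PF h) :
    PD (fun v => Agree (f v) (g v) (h v)) :=
  PD.app3 (R := fun x y z => Agree x y z) (by unfold Agree; (repeat' (with_reducible first | apply pf_stems | apply pd_HLe | apply pf_res | apply pf_below | apply pf_mxn | apply pd_NLeV | apply pd_NLe | apply pd_RName | apply pd_FV | apply pd_PreO | apply pf_p2 | apply pf_p1 | apply DD.pf_lv | apply DD.pf_nd | apply DD.pd_Clo | apply DD.pf_dl | apply DD.pf_prs | apply DD.pd_Fork | apply DD.pd_V | apply pd_maxR | apply pd_WOd | apply pf_pfin | apply pd_Fun1 | apply pf_hh | apply pd_Spr | apply pd_Inj | apply pf_har | apply pd_Le |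 apply pf_fins | apply pf_card | apply pd_Bij | apply pd_Fini | apply pd_Big | apply pd_Ord | apply pd_Tr | apply pd_Ind | apply pf_succ | apply pf_funs | apply pf_prod | apply pf_lam | apply pd_Fn | apply pf_app | apply pf_ran | apply pf_dom | apply PF.img | apply PF.pow | apply PD.sub | apply PF.adj | apply PF.un | apply PF.sUn | apply PF.op | apply PF.pr | apply PF.sep | exact PF.var _ | exact PF.const _ | apply PD.eq | apply PD.mem | apply PD.not | apply PD.iff | apply PD.or | apply PD.and | apply PD.imp | apply PD.ex | apply PD.all | exact PD.const _ | assumption | refine PF.comp1 (F := _) (by assumption) ?_ | refine PF.comp2 (F := _) (by assumption) ?_ ?_ | refine PF.comp3 (F := _) (by assumption) ?_ ?_ ?_ | refine PD.app1 (R := _) (by assumption) ?_ | refine PD.app2 (R := _) (by assumption) ?_ ?_ | refine PD.app3 (R := _) (by assumption) ?_ ?_ ?_ | refine PD.app4 (R := _) (by assumption) ?_ ?_ ?_ ?_))) hf hg hh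


section

variable {Q L L' : M}

/-- MODULE xa -/
theorem FV.congr (h : Agree Q L L') {τ u n m : M} (hu : SetStr.mem u Q) :
    FV Q L τ u n m ↔ FV Q L' τ u n m := by
  constructor
  · intro hf v hv hvu
    obtain ⟨w, w', hw, hw', h1, h2, h3⟩ := hf v hv ((h v u hv hu).2 hvu)
    exact ⟨w, w', hw, hw', (h w v hw hv).1 h1, (h w w' hw hw').1 h2, h3⟩
  · intro hf v hv hvu
    obtain ⟨w, w', hw, hw', h1, h2, h3⟩ := hf v hv ((h v u hv hu).1 hvu)
    exact ⟨w, w', hw, hw', (h w v hw hv).2 h1, (h w w' hw hw').2 h2, h3⟩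

/-- MODULE xa -/
theorem RName.congr (h : Agree Q L L') {τ : M} : RName Q L τ ↔ RName Q L' τ := by
  constructor
  · intro hτ
    refine ⟨hτ.1, fun u n m m' hu h1 h2 =>
      hτ.2.1 u n m m' hu ((FV.congr h hu).2 h1) ((FV.congr h hu).2 h2), fun u n hu hn => ?_⟩
    obtain ⟨v, m, hv, hvu, hm, h1⟩ := hτ.2.2 u n hu hn
    exact ⟨v, m, hv, (h v u hv hu).1 hvu, hm, (FV.congr h hv).1 h1⟩
  · intro hτ
    refine ⟨hτ.1, fun u n m m' hu h1 h2 =>
      hτ.2.1 u n m m' hu ((FV.congr h hu).1 h1) ((FV.congr h hu).1 h2), fun u n hu hn => ?_⟩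
    obtain ⟨v, m, hv, hvu, hm, h1⟩ := hτ.2.2 u n hu hn
    exact ⟨v, m, hv, (h v u hv hu).2 hvu, hm, (FV.congr h hv).2 h1⟩

/-- MODULE xa -/
theorem NLe.congr (h : Agree Q L L') {u τ τ' : M} (hu : SetStr.mem u Q) :
    NLe Q L u τ τ' ↔ NLe Q L' u τ τ' := by
  constructor
  · intro hn v n m m' hv hvu h1 h2
    exact hn v n m m' hv ((h v u hv hu).2 hvu) ((FV.congr h hv).2 h1) ((FV.congr h hv).2 h2)
  · intro hn v n m m' hv hvu h1 h2
    exact hn v n m m' hv ((h v u hv hu).1 hvu) ((FV.congr h hv).1 h1) ((FV.congr h hv).1 h2)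

/-- MODULE xa -/
theorem NLeV.congr (h : Agree Q L L') {u τ n k : M} (hu : SetStr.mem u Q) :
    NLeV Q L u τ n k ↔ NLeV Q L' u τ n k := by
  constructor
  · intro hn v m hv hvu h1
    exact hn v m hv ((h v u hv hu).2 hvu) ((FV.congr h hv).2 h1)
  · intro hn v m hv hvu h1
    exact hn v m hv ((h v u hv hu).1 hvu) ((FV.congr h hv).1 h1)

end

private theorem xb_symm {Q L L' : M} (h : Agree Q L L') : Agree Q L' L :=
  fun p q hp hq => (h p q hp hq).symm

private theorem xb_sub {κ P L P' L' c : M} (h : IsHec κ P L) (h' : IsHec κ P' L')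
    (ih : ∀ b, SetStr.mem b c → below P b = below P' b ∧ Agree (below P b) L L') :
    GA.sub (below P c) (below P' c) := by
  intro p hp
  rw [mem_below] at hp ⊢
  obtain ⟨hp, hpc⟩ := hp
  refine ⟨?_, hpc⟩
  rw [h.cond] at hp
  rw [h'.cond]
  refine ⟨hp.1, hp.2.1, fun z hz => ?_⟩
  obtain ⟨b, s, τ, rfl, hb, hs, hτ⟩ := hp.2.2 z hz
  obtain ⟨b', y, hb', e⟩ := hpc _ hz
  rw [op_inj] at e
  obtain ⟨rfl, -⟩ := e
  refine ⟨b, s, τ, rfl, hb, hs, ?_⟩
  rw [← (ih b hb').1]
  exact (RName.congr (ih b hb').2).1 hτ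

private theorem xb_le {κ P L P' L' c : M} (h : IsHec κ P L) (h' : IsHec κ P' L')
    (ih : ∀ b, SetStr.mem b c → below P b = below P' b ∧ Agree (below P b) L L') {p q : M}
    (hp : SetStr.mem p (below P c)) (hq : SetStr.mem q (below P c)) (hp' : SetStr.mem p P') (hq' : SetStr.mem q P')
    (hpq : SetStr.mem (op p q) L) : SetStr.mem (op p q) L' := by
  rw [h.le] at hpq
  rw [h'.le]
  refine ⟨hp', hq', fun b s' τ' hb => ?_⟩
  obtain ⟨s, τ, h1, h2, h3, h4⟩ := hpq.2.2 b s' τ' hb
  obtain ⟨b', y, hb', e⟩ := (mem_below.1 hq).2 _ hb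
  rw [op_inj] at e
  obtain ⟨rfl, -⟩ := e
  have hr := h.res_mem (mem_below.1 hp).1 b
  refine ⟨s, τ, h1, h2, ?_, fun n k hn hn' => ?_⟩
  · rw [← (ih b hb').1]
    exact (NLe.congr (ih b hb').2 hr).1 h3
  · rw [← (ih b hb').1]
    exact (NLeV.congr (ih b hb').2 hr).1 (h4 n k hn hn')

/-- MODULE xb.  Uniqueness.  (Induction on `c`, `c ⊆ κ`: `below P c = below P' c` and `L`, `L'` agree
on this set.) -/
theorem IsHec.unique {κ P L P' L' : M} (h : IsHec κ P L) (h' : IsHec κ P' L') (hκ : Ord κ) :
    P = P' ∧ L = L' := by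
  have key : ∀ c, Ord c → GA.sub c κ → below P c = below P' c ∧ Agree (below P c) L L' := by
    refine Ord.ind (P := fun c => GA.sub c κ → below P c = below P' c ∧ Agree (below P c) L L')
      (by (repeat' (with_reducible first | apply pd_Agree | apply pf_stems | apply pd_HLe | apply pf_res | apply pf_below | apply pf_mxn | apply pd_NLeV | apply pd_NLe | apply pd_RName | apply pd_FV | apply pd_PreO | apply pf_p2 | apply pf_p1 | apply DD.pf_lv | apply DD.pf_nd | apply DD.pd_Clo | apply DD.pf_dl | apply DD.pf_prs | apply DD.pd_Fork | apply DD.pd_V | apply pd_maxR | apply pd_WOd | apply pf_pfin | apply pd_Fun1 | apply pf_hh | apply pd_Spr | apply pd_Inj | apply pf_har | apply pd_Le | apply pf_fins | apply pf_card | apply pd_Bij | apply pd_Fini | apply pd_Big | apply pd_Ord | apply pd_Tr | apply pd_Ind | apply pf_succ | apply pf_funs | apply pf_prod | apply pf_lam | apply pd_Fn | apply pf_app | apply pf_ran | apply pf_dom | apply PF.img | apply PF.pow | apply PD.sub | apply PF.adj | apply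 PF.un | apply PF.sUn | apply PF.op | apply PF.pr | apply PF.sep | exact PF.var _ | exact PF.const _ | apply PD.eq | apply PD.mem | apply PD.not | apply PD.iff | apply PD.or | apply PD.and | apply PD.imp | apply PD.ex | apply PD.all | exact PD.const _ | assumption | refine PF.comp1 (F := _) (by assumption) ?_ | refine PF.comp2 (F := _) (by assumption) ?_ ?_ | refine PF.comp3 (F := _) (by assumption) ?_ ?_ ?_ | refine PD.app1 (R := _) (by assumption) ?_ | refine PD.app2 (R := _) (by assumption) ?_ ?_ | refine PD.app3 (R := _) (by assumption) ?_ ?_ ?_ | refine PD.app4 (R := _) (by assumption) ?_ ?_ ?_ ?_))) ?_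
    intro c hc ih hcκ
    have ih' : ∀ b, SetStr.mem b c → below P b = below P' b ∧ Agree (below P b) L L' := fun b hb =>
      ih b hb (fun x hx => hcκ _ (hc.trans hb hx))
    have ih'' : ∀ b, SetStr.mem b c → below P' b = below P b ∧ Agree (below P' b) L' L := fun b hb =>
      ⟨(ih' b hb).1.symm, by rw [← (ih' b hb).1]; exact xb_symm (ih' b hb).2⟩
    have e : below P c = below P' c :=
      ext (fun z => ⟨fun hz => xb_sub h h' ih' z hz, fun hz => xb_sub h' h ih'' z hz⟩)
    refine ⟨e, fun p q hp hq => ⟨fun hpq => ?_, fun hpq => ?_⟩⟩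
    · exact xb_le h h' ih' hp hq (mem_below.1 (e ▸ hp)).1 (mem_below.1 (e ▸ hq)).1 hpq
    · exact xb_le h' h ih'' (e ▸ hp) (e ▸ hq) (mem_below.1 hp).1 (mem_below.1 hq).1 hpq
  obtain ⟨e, hA⟩ := key κ hκ (fun _ hx => hx)
  rw [h.below_self] at e hA
  rw [h'.below_self] at e
  subst e
  refine ⟨rfl, ext (fun z => ⟨fun hz => ?_, fun hz => ?_⟩)⟩
  · obtain ⟨p, q, rfl⟩ := h.rel z hz
    have := (h.le p q).1 hz
    exact (hA p q this.1 this.2.1).1 hz
  · obtain ⟨p, q, rfl⟩ := h'.rel z hz
    have := (h'.le p q).1 hz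
    exact (hA p q this.1 this.2.1).2 hz

/-- The conditions of length `c`; `g b` is the pair (conditions, order) of length `b ∈ c`. -/
noncomputable def hP (g c : M) : M :=
  sep (pfin c (sUn (img (fun b => prod fseq (pow (prod (prod om om) (p1 (app g b))))) c)))
    (fun p => ∀ z, SetStr.mem z p → ∃ b s τ, z = op b (op s τ) ∧ RName (p1 (app g b)) (p2 (app g b)) τ)

theorem pf_fseq : PF (fun _ : ℕ → M => fseq) := PF.const _

theorem pf_hP {f g : (ℕ → M) → M} (hf : PF f) (hg : PF g) : PF (fun v => hP (f v) (g v)) :=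
  PF.comp2 (F := fun x y => hP x y) (by unfold hP; (repeat' (with_reducible first | apply pd_Agree | apply pf_stems | apply pd_HLe | apply pf_res | apply pf_below | apply pf_mxn | apply pd_NLeV | apply pd_NLe | apply pd_RName | apply pd_FV | apply pd_PreO | apply pf_p2 | apply pf_p1 | apply DD.pf_lv | apply DD.pf_nd | apply DD.pd_Clo | apply DD.pf_dl | apply DD.pf_prs | apply DD.pd_Fork | apply DD.pd_V | apply pd_maxR | apply pd_WOd | apply pf_pfin | apply pd_Fun1 | apply pf_hh | apply pd_Spr | apply pd_Inj | apply pf_har | apply pd_Le | apply pf_fins | apply pf_card | apply pd_Bij | apply pd_Fini | apply pd_Big | apply pd_Ord | apply pd_Tr | apply pd_Ind | apply pf_succ | apply pf_funs | apply pf_prod | apply pf_lam | apply pd_Fn | apply pf_app | apply pf_ran | apply pf_dom | apply PF.img | apply PF.pow | apply PD.sub | apply PF.adj | apply PF.un | apply PF.sUn | apply PF.op | apply PF.pr | apply PF.sep | exact PF.var _ | exact PF.const _ | apply PD.eq | apply PD.mem | apply PD.not | apply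 PD.iff | apply PD.or | apply PD.and | apply PD.imp | apply PD.ex | apply PD.all | exact PD.const _ | assumption | refine PF.comp1 (F := _) (by assumption) ?_ | refine PF.comp2 (F := _) (by assumption) ?_ ?_ | refine PF.comp3 (F := _) (by assumption) ?_ ?_ ?_ | refine PD.app1 (R := _) (by assumption) ?_ | refine PD.app2 (R := _) (by assumption) ?_ ?_ | refine PD.app3 (R := _) (by assumption) ?_ ?_ ?_ | refine PD.app4 (R := _) (by assumption) ?_ ?_ ?_ ?_))) hf hg


/-- The clause for the order. -/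
def hLe (g p q : M) : Prop :=
  ∀ c s' τ', SetStr.mem (op c (op s' τ')) q → ∃ s τ, SetStr.mem (op c (op s τ)) p ∧ GA.sub s' s ∧
    NLe (p1 (app g c)) (p2 (app g c)) (res p c) τ' τ ∧
      ∀ n k, SetStr.mem (op n k) s → ¬ SetStr.mem (op n k) s' →
        NLeV (p1 (app g c)) (p2 (app g c)) (res p c) τ' n k

theorem pd_hLe {f g h : (ℕ → M) → M} (hf : PF f) (hg : PF g) (hh : PF h) :
    PD (fun v => hLe (f v) (g v) (h v)) :=
  PD.app3 (R := fun x y z => hLe x y z) (by unfold hLe; (repeat' (with_reducible first | apply pf_hP | apply pd_Agree | apply pf_stems | apply pd_HLe | apply pf_res | apply pf_below | apply pf_mxn | apply pd_NLeV | apply pd_NLe | apply pd_RName | apply pd_FV | apply pd_PreO | apply pf_p2 | apply pf_p1 | apply DD.pf_lv | apply DD.pf_nd | apply DD.pd_Clo | apply DD.pf_dl | apply DD.pf_prs | apply DD.pd_Fork | apply DD.pd_V | apply pd_maxR | apply pd_WOd | apply pf_pfin | apply pd_Fun1 | apply pf_hh | apply pd_Spr | apply pd_Inj | apply pf_har | apply pd_Le | apply pf_fins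 | apply pf_card | apply pd_Bij | apply pd_Fini | apply pd_Big | apply pd_Ord | apply pd_Tr | apply pd_Ind | apply pf_succ | apply pf_funs | apply pf_prod | apply pf_lam | apply pd_Fn | apply pf_app | apply pf_ran | apply pf_dom | apply PF.img | apply PF.pow | apply PD.sub | apply PF.adj | apply PF.un | apply PF.sUn | apply PF.op | apply PF.pr | apply PF.sep | exact PF.var _ | exact PF.const _ | apply PD.eq | apply PD.mem | apply PD.not | apply PD.iff | apply PD.or | apply PD.and | apply PD.imp | apply PD.ex | apply PD.all | exact PD.const _ | assumption | refine PF.comp1 (F := _) (by assumption) ?_ | refine PF.comp2 (F := _) (by assumption) ?_ ?_ | refine PF.comp3 (F := _) (by assumption) ?_ ?_ ?_ | refine PD.app1 (R := _) (by assumption) ?_ | refine PD.app2 (R := _) (by assumption) ?_ ?_ | refine PD.app3 (R := _) (by assumption) ?_ ?_ ?_ | refine PD.app4 (R := _) (by assumption) ?_ ?_ ?_ ?_))) hf hg hh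


/-- The order of the conditions of length `c`. -/
noncomputable def hL (g c : M) : M :=
  sep (prod (hP g c) (hP g c)) (fun z => ∃ p q, z = op p q ∧ hLe g p q)

theorem pf_hL {f g : (ℕ → M) → M} (hf : PF f) (hg : PF g) : PF (fun v => hL (f v) (g v)) :=
  PF.comp2 (F := fun x y => hL x y) (by unfold hL; (repeat' (with_reducible first | apply pd_hLe | apply pf_hP | apply pd_Agree | apply pf_stems | apply pd_HLe | apply pf_res | apply pf_below | apply pf_mxn | apply pd_NLeV | apply pd_NLe | apply pd_RName | apply pd_FV | apply pd_PreO | apply pf_p2 | apply pf_p1 | apply DD.pf_lv | apply DD.pf_nd | apply DD.pd_Clo | apply DD.pf_dl | apply DD.pf_prs | apply DD.pd_Fork | apply DD.pd_V | apply pd_maxR | apply pd_WOd | apply pf_pfin | apply pd_Fun1 | apply pf_hh | apply pd_Spr | apply pd_Inj | apply pf_har | apply pd_Le | apply pf_fins | apply pf_card | apply pd_Bij | apply pd_Fini | apply pd_Big | apply pd_Ord | apply pd_Tr | apply pd_Ind | apply pf_succ | apply pf_funs | apply pf_prod | apply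 pf_lam | apply pd_Fn | apply pf_app | apply pf_ran | apply pf_dom | apply PF.img | apply PF.pow | apply PD.sub | apply PF.adj | apply PF.un | apply PF.sUn | apply PF.op | apply PF.pr | apply PF.sep | exact PF.var _ | exact PF.const _ | apply PD.eq | apply PD.mem | apply PD.not | apply PD.iff | apply PD.or | apply PD.and | apply PD.imp | apply PD.ex | apply PD.all | exact PD.const _ | assumption | refine PF.comp1 (F := _) (by assumption) ?_ | refine PF.comp2 (F := _) (by assumption) ?_ ?_ | refine PF.comp3 (F := _) (by assumption) ?_ ?_ ?_ | refine PD.app1 (R := _) (by assumption) ?_ | refine PD.app2 (R := _) (by assumption) ?_ ?_ | refine PD.app3 (R := _) (by assumption) ?_ ?_ ?_ | refine PD.app4 (R := _) (by assumption) ?_ ?_ ?_ ?_))) hf hg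


/-- The family of the iterations, by epsilon-recursion. -/
theorem exists_hec : ∃ F : M → M, PF (fun v => F (v 0)) ∧
    ∀ c, F c = op (hP (lam F c) c) (hL (lam F c) c) :=
  mem_rec (G := fun c g => op (hP g c) (hL g c)) (by (repeat' (with_reducible first | apply pf_hL | apply pd_hLe | apply pf_hP | apply pd_Agree | apply pf_stems | apply pd_HLe | apply pf_res | apply pf_below | apply pf_mxn | apply pd_NLeV | apply pd_NLe | apply pd_RName | apply pd_FV | apply pd_PreO | apply pf_p2 | apply pf_p1 | apply DD.pf_lv | apply DD.pf_nd | apply DD.pd_Clo | apply DD.pf_dl | apply DD.pf_prs | apply DD.pd_Fork | apply DD.pd_V | apply pd_maxR | apply pd_WOd | apply pf_pfin | apply pd_Fun1 | apply pf_hh | apply pd_Spr | apply pd_Inj | apply pf_har | apply pd_Le | apply pf_fins | apply pf_card | apply pd_Bij | apply pd_Fini | apply pd_Big | apply pd_Ord | apply pd_Tr | apply pd_Ind | apply pf_succ | apply pf_funs | apply pf_prod | apply pf_lam | apply pd_Fn | apply pf_app | apply pf_ran | apply pf_dom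 | apply PF.img | apply PF.pow | apply PD.sub | apply PF.adj | apply PF.un | apply PF.sUn | apply PF.op | apply PF.pr | apply PF.sep | exact PF.var _ | exact PF.const _ | apply PD.eq | apply PD.mem | apply PD.not | apply PD.iff | apply PD.or | apply PD.and | apply PD.imp | apply PD.ex | apply PD.all | exact PD.const _ | assumption | refine PF.comp1 (F := _) (by assumption) ?_ | refine PF.comp2 (F := _) (by assumption) ?_ ?_ | refine PF.comp3 (F := _) (by assumption) ?_ ?_ ?_ | refine PD.app1 (R := _) (by assumption) ?_ | refine PD.app2 (R := _) (by assumption) ?_ ?_ | refine PD.app3 (R := _) (by assumption) ?_ ?_ ?_ | refine PD.app4 (R := _) (by assumption) ?_ ?_ ?_ ?_)))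

/-- The family of the iterations. -/
noncomputable def hec : M → M := exists_hec.choose

theorem pf_hec {f : (ℕ → M) → M} (hf : PF f) : PF (fun v => hec (f v)) :=
  PF.comp1 (F := hec) exists_hec.choose_spec.1 hf


theorem hec_eq (c : M) : hec c = op (hP (lam hec c) c) (hL (lam hec c) c) :=
  exists_hec.choose_spec.2 c

private theorem xc_hec1 (c : M) : p1 (hec c) = hP (lam hec c) c := by
  rw [hec_eq, p1_op]

private theorem xc_hec2 (c : M) : p2 (hec c) = hL (lam hec c) c := by
  rw [hec_eq, p2_op]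

private theorem xc_app {c b : M} (hb : SetStr.mem b c) : app (lam hec c) b = hec b :=
  app_lam (by (repeat' (with_reducible first | apply pf_hec | apply pf_hL | apply pd_hLe | apply pf_hP | apply pd_Agree | apply pf_stems | apply pd_HLe | apply pf_res | apply pf_below | apply pf_mxn | apply pd_NLeV | apply pd_NLe | apply pd_RName | apply pd_FV | apply pd_PreO | apply pf_p2 | apply pf_p1 | apply DD.pf_lv | apply DD.pf_nd | apply DD.pd_Clo | apply DD.pf_dl | apply DD.pf_prs | apply DD.pd_Fork | apply DD.pd_V | apply pd_maxR | apply pd_WOd | apply pf_pfin | apply pd_Fun1 | apply pf_hh | apply pd_Spr | apply pd_Inj | apply pf_har | apply pd_Le | apply pf_fins | apply pf_card | apply pd_Bij | apply pd_Fini | apply pd_Big | apply pd_Ord | apply pd_Tr | apply pd_Ind | apply pf_succ | apply pf_funs | apply pf_prod | apply pf_lam | apply pd_Fn | apply pf_app | apply pf_ran | apply pf_dom | apply PF.img | apply PF.pow | apply PD.sub | apply PF.adj | apply PF.un | apply PF.sUn | apply PF.op | apply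 PF.pr | apply PF.sep | exact PF.var _ | exact PF.const _ | apply PD.eq | apply PD.mem | apply PD.not | apply PD.iff | apply PD.or | apply PD.and | apply PD.imp | apply PD.ex | apply PD.all | exact PD.const _ | assumption | refine PF.comp1 (F := _) (by assumption) ?_ | refine PF.comp2 (F := _) (by assumption) ?_ ?_ | refine PF.comp3 (F := _) (by assumption) ?_ ?_ ?_ | refine PD.app1 (R := _) (by assumption) ?_ | refine PD.app2 (R := _) (by assumption) ?_ ?_ | refine PD.app3 (R := _) (by assumption) ?_ ?_ ?_ | refine PD.app4 (R := _) (by assumption) ?_ ?_ ?_ ?_))) hb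

/-- MODULE xc -/
theorem mem_hec1 {c p : M} : SetStr.mem p (p1 (hec c)) ↔ Fini p ∧ Fun1 p ∧ ∀ z, SetStr.mem z p →
    ∃ b s τ, z = op b (op s τ) ∧ SetStr.mem b c ∧ SetStr.mem s fseq ∧ RName (p1 (hec b)) (p2 (hec b)) τ := by
  rw [xc_hec1]
  unfold hP
  rw [mem_sep (by (repeat' (with_reducible first | apply pf_hec | apply pf_hL | apply pd_hLe | apply pf_hP | apply pd_Agree | apply pf_stems | apply pd_HLe | apply pf_res | apply pf_below | apply pf_mxn | apply pd_NLeV | apply pd_NLe | apply pd_RName | apply pd_FV | apply pd_PreO | apply pf_p2 | apply pf_p1 | apply DD.pf_lv | apply DD.pf_nd | apply DD.pd_Clo | apply DD.pf_dl | apply DD.pf_prs | apply DD.pd_Fork | apply DD.pd_V | apply pd_maxR | apply pd_WOd | apply pf_pfin | apply pd_Fun1 | apply pf_hh | apply pd_Spr | apply pd_Inj | apply pf_har | apply pd_Le | apply pf_fins | apply pf_card | apply pd_Bij | apply pd_Fini | apply pd_Big | apply pd_Ord | apply pd_Tr | apply pd_Ind | apply pf_succ | apply pf_funs | apply pf_prod | apply pf_lam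 | apply pd_Fn | apply pf_app | apply pf_ran | apply pf_dom | apply PF.img | apply PF.pow | apply PD.sub | apply PF.adj | apply PF.un | apply PF.sUn | apply PF.op | apply PF.pr | apply PF.sep | exact PF.var _ | exact PF.const _ | apply PD.eq | apply PD.mem | apply PD.not | apply PD.iff | apply PD.or | apply PD.and | apply PD.imp | apply PD.ex | apply PD.all | exact PD.const _ | assumption | refine PF.comp1 (F := _) (by assumption) ?_ | refine PF.comp2 (F := _) (by assumption) ?_ ?_ | refine PF.comp3 (F := _) (by assumption) ?_ ?_ ?_ | refine PD.app1 (R := _) (by assumption) ?_ | refine PD.app2 (R := _) (by assumption) ?_ ?_ | refine PD.app3 (R := _) (by assumption) ?_ ?_ ?_ | refine PD.app4 (R := _) (by assumption) ?_ ?_ ?_ ?_))), mem_pfin]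
  constructor
  · rintro ⟨⟨h1, h2, h3⟩, h4⟩
    refine ⟨h2, h3, fun z hz => ?_⟩
    obtain ⟨b, s, τ, rfl, hτ⟩ := h4 z hz
    obtain ⟨hb, hy⟩ := op_mem_prod.1 (h1 _ hz)
    rw [mem_sUn] at hy
    obtain ⟨y, hy, hy'⟩ := hy
    rw [mem_img (by (repeat' (with_reducible first | apply pf_hec | apply pf_hL | apply pd_hLe | apply pf_hP | apply pd_Agree | apply pf_stems | apply pd_HLe | apply pf_res | apply pf_below | apply pf_mxn | apply pd_NLeV | apply pd_NLe | apply pd_RName | apply pd_FV | apply pd_PreO | apply pf_p2 | apply pf_p1 | apply DD.pf_lv | apply DD.pf_nd | apply DD.pd_Clo | apply DD.pf_dl | apply DD.pf_prs | apply DD.pd_Fork | apply DD.pd_V | apply pd_maxR | apply pd_WOd | apply pf_pfin | apply pd_Fun1 | apply pf_hh | apply pd_Spr | apply pd_Inj | apply pf_har | apply pd_Le | apply pf_fins | apply pf_card | apply pd_Bij | apply pd_Fini | apply pd_Big | apply pd_Ord | apply pd_Tr | apply pd_Ind | apply pf_succ | apply pf_funs | apply pf_prod | apply pf_lam | apply pd_Fn | apply pf_app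 | apply pf_ran | apply pf_dom | apply PF.img | apply PF.pow | apply PD.sub | apply PF.adj | apply PF.un | apply PF.sUn | apply PF.op | apply PF.pr | apply PF.sep | exact PF.var _ | exact PF.const _ | apply PD.eq | apply PD.mem | apply PD.not | apply PD.iff | apply PD.or | apply PD.and | apply PD.imp | apply PD.ex | apply PD.all | exact PD.const _ | assumption | refine PF.comp1 (F := _) (by assumption) ?_ | refine PF.comp2 (F := _) (by assumption) ?_ ?_ | refine PF.comp3 (F := _) (by assumption) ?_ ?_ ?_ | refine PD.app1 (R := _) (by assumption) ?_ | refine PD.app2 (R := _) (by assumption) ?_ ?_ | refine PD.app3 (R := _) (by assumption) ?_ ?_ ?_ | refine PD.app4 (R := _) (by assumption) ?_ ?_ ?_ ?_)))] at hy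
    obtain ⟨b', hb', rfl⟩ := hy
    rw [xc_app hb] at hτ
    exact ⟨b, s, τ, rfl, hb, (op_mem_prod.1 hy').1, hτ⟩
  · rintro ⟨h1, h2, h3⟩
    refine ⟨⟨fun z hz => ?_, h1, h2⟩, fun z hz => ?_⟩
    · obtain ⟨b, s, τ, rfl, hb, hs, hτ⟩ := h3 z hz
      rw [op_mem_prod, mem_sUn]
      refine ⟨hb, _, (mem_img (by (repeat' (with_reducible first | apply pf_hec | apply pf_hL | apply pd_hLe | apply pf_hP | apply pd_Agree | apply pf_stems | apply pd_HLe | apply pf_res | apply pf_below | apply pf_mxn | apply pd_NLeV | apply pd_NLe | apply pd_RName | apply pd_FV | apply pd_PreO | apply pf_p2 | apply pf_p1 | apply DD.pf_lv | apply DD.pf_nd | apply DD.pd_Clo | apply DD.pf_dl | apply DD.pf_prs | apply DD.pd_Fork | apply DD.pd_V | apply pd_maxR | apply pd_WOd | apply pf_pfin | apply pd_Fun1 | apply pf_hh | apply pd_Spr | apply pd_Inj | apply pf_har | apply pd_Le | apply pf_fins | apply pf_card | apply pd_Bij | apply pd_Fini | apply pd_Big | apply pd_Ord | apply pd_Tr | apply pd_Ind | apply pf_succ | apply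 pf_funs | apply pf_prod | apply pf_lam | apply pd_Fn | apply pf_app | apply pf_ran | apply pf_dom | apply PF.img | apply PF.pow | apply PD.sub | apply PF.adj | apply PF.un | apply PF.sUn | apply PF.op | apply PF.pr | apply PF.sep | exact PF.var _ | exact PF.const _ | apply PD.eq | apply PD.mem | apply PD.not | apply PD.iff | apply PD.or | apply PD.and | apply PD.imp | apply PD.ex | apply PD.all | exact PD.const _ | assumption | refine PF.comp1 (F := _) (by assumption) ?_ | refine PF.comp2 (F := _) (by assumption) ?_ ?_ | refine PF.comp3 (F := _) (by assumption) ?_ ?_ ?_ | refine PD.app1 (R := _) (by assumption) ?_ | refine PD.app2 (R := _) (by assumption) ?_ ?_ | refine PD.app3 (R := _) (by assumption) ?_ ?_ ?_ | refine PD.app4 (R := _) (by assumption) ?_ ?_ ?_ ?_)))).2 ⟨b, hb, rfl⟩, ?_⟩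
      rw [op_mem_prod, mem_pow, xc_app hb]
      exact ⟨hs, hτ.1⟩
    · obtain ⟨b, s, τ, rfl, hb, hs, hτ⟩ := h3 z hz
      refine ⟨b, s, τ, rfl, ?_⟩
      rw [xc_app hb]
      exact hτ

/-- MODULE xc -/
theorem mem_hec2 {c p q : M} : SetStr.mem (op p q) (p2 (hec c)) ↔ SetStr.mem p (p1 (hec c)) ∧ SetStr.mem q (p1 (hec c)) ∧
    ∀ b s' τ', SetStr.mem (op b (op s' τ')) q → ∃ s τ, SetStr.mem (op b (op s τ)) p ∧ GA.sub s' s ∧
      NLe (p1 (hec b)) (p2 (hec b)) (res p b) τ' τ ∧
        ∀ n k, SetStr.mem (op n k) s → ¬ SetStr.mem (op n k) s' →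
          NLeV (p1 (hec b)) (p2 (hec b)) (res p b) τ' n k := by
  have hb : ∀ b y, SetStr.mem q (p1 (hec c)) → SetStr.mem (op b y) q → app (lam hec c) b = hec b := by
    intro b y hq hb
    obtain ⟨b', s, τ, e, hb', -⟩ := (mem_hec1.1 hq).2.2 _ hb
    rw [op_inj] at e
    obtain ⟨rfl, -⟩ := e
    exact xc_app hb'
  rw [xc_hec2, xc_hec1]
  unfold hL
  rw [mem_sep (by (repeat' (with_reducible first | apply pf_hec | apply pf_hL | apply pd_hLe | apply pf_hP | apply pd_Agree | apply pf_stems | apply pd_HLe | apply pf_res | apply pf_below | apply pf_mxn | apply pd_NLeV | apply pd_NLe | apply pd_RName | apply pd_FV | apply pd_PreO | apply pf_p2 | apply pf_p1 | apply DD.pf_lv | apply DD.pf_nd | apply DD.pd_Clo | apply DD.pf_dl | apply DD.pf_prs | apply DD.pd_Fork | apply DD.pd_V | apply pd_maxR | apply pd_WOd | apply pf_pfin | apply pd_Fun1 | apply pf_hh | apply pd_Spr | apply pd_Inj | apply pf_har | apply pd_Le | apply pf_fins | apply pf_card | apply pd_Bij | apply pd_Fini | apply pd_Big | apply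 pd_Ord | apply pd_Tr | apply pd_Ind | apply pf_succ | apply pf_funs | apply pf_prod | apply pf_lam | apply pd_Fn | apply pf_app | apply pf_ran | apply pf_dom | apply PF.img | apply PF.pow | apply PD.sub | apply PF.adj | apply PF.un | apply PF.sUn | apply PF.op | apply PF.pr | apply PF.sep | exact PF.var _ | exact PF.const _ | apply PD.eq | apply PD.mem | apply PD.not | apply PD.iff | apply PD.or | apply PD.and | apply PD.imp | apply PD.ex | apply PD.all | exact PD.const _ | assumption | refine PF.comp1 (F := _) (by assumption) ?_ | refine PF.comp2 (F := _) (by assumption) ?_ ?_ | refine PF.comp3 (F := _) (by assumption) ?_ ?_ ?_ | refine PD.app1 (R := _) (by assumption) ?_ | refine PD.app2 (R := _) (by assumption) ?_ ?_ | refine PD.app3 (R := _) (by assumption) ?_ ?_ ?_ | refine PD.app4 (R := _) (by assumption) ?_ ?_ ?_ ?_))), op_mem_prod, ← xc_hec1]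
  constructor
  · rintro ⟨⟨h1, h2⟩, p', q', e, h3⟩
    rw [op_inj] at e
    obtain ⟨rfl, rfl⟩ := e
    refine ⟨h1, h2, fun b s' τ' hb' => ?_⟩
    have := h3 b s' τ' hb'
    rw [hb b _ h2 hb'] at this
    exact this
  · rintro ⟨h1, h2, h3⟩
    refine ⟨⟨h1, h2⟩, p, q, rfl, fun b s' τ' hb' => ?_⟩
    rw [hb b _ h2 hb']
    exact h3 b s' τ' hb'

/-- MODULE xc -/
theorem hec2_rel {c z : M} (hz : SetStr.mem z (p2 (hec c))) : ∃ p q, z = op p q := by
  rw [xc_hec2] at hz
  unfold hL at hz
  rw [mem_sep (by (repeat' (with_reducible first | apply pf_hec | apply pf_hL | apply pd_hLe | apply pf_hP | apply pd_Agree | apply pf_stems | apply pd_HLe | apply pf_res | apply pf_below | apply pf_mxn | apply pd_NLeV | apply pd_NLe | apply pd_RName | apply pd_FV | apply pd_PreO | apply pf_p2 | apply pf_p1 | apply DD.pf_lv | apply DD.pf_nd | apply DD.pd_Clo | apply DD.pf_dl | apply DD.pf_prs | apply DD.pd_Fork | apply DD.pd_V | apply pd_maxR | apply pd_WOd | apply pf_pfin | apply pd_Fun1 | apply pf_hh | apply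 pd_Spr | apply pd_Inj | apply pf_har | apply pd_Le | apply pf_fins | apply pf_card | apply pd_Bij | apply pd_Fini | apply pd_Big | apply pd_Ord | apply pd_Tr | apply pd_Ind | apply pf_succ | apply pf_funs | apply pf_prod | apply pf_lam | apply pd_Fn | apply pf_app | apply pf_ran | apply pf_dom | apply PF.img | apply PF.pow | apply PD.sub | apply PF.adj | apply PF.un | apply PF.sUn | apply PF.op | apply PF.pr | apply PF.sep | exact PF.var _ | exact PF.const _ | apply PD.eq | apply PD.mem | apply PD.not | apply PD.iff | apply PD.or | apply PD.and | apply PD.imp | apply PD.ex | apply PD.all | exact PD.const _ | assumption | refine PF.comp1 (F := _) (by assumption) ?_ | refine PF.comp2 (F := _) (by assumption) ?_ ?_ | refine PF.comp3 (F := _) (by assumption) ?_ ?_ ?_ | refine PD.app1 (R := _) (by assumption) ?_ | refine PD.app2 (R := _) (by assumption) ?_ ?_ | refine PD.app3 (R := _) (by assumption) ?_ ?_ ?_ | refine PD.app4 (R := _) (by assumption) ?_ ?_ ?_ ?_)))] at hz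
  obtain ⟨-, p, q, h, -⟩ := hz
  exact ⟨p, q, h⟩

/-- MODULE xd -/
theorem hec1_eq_below {c b : M} (hb : GA.sub b c) : p1 (hec b) = below (p1 (hec c)) b := by
  refine ext (fun p => ?_)
  rw [mem_below, mem_hec1, mem_hec1]
  constructor
  · rintro ⟨h1, h2, h3⟩
    refine ⟨⟨h1, h2, fun z hz => ?_⟩, fun z hz => ?_⟩
    · obtain ⟨b', s, τ, e, hb', h⟩ := h3 z hz
      exact ⟨b', s, τ, e, hb _ hb', h⟩
    · obtain ⟨b', s, τ, e, hb', h⟩ := h3 z hz
      exact ⟨b', _, hb', e⟩
  · rintro ⟨⟨h1, h2, h3⟩, h4⟩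
    refine ⟨h1, h2, fun z hz => ?_⟩
    obtain ⟨b', s, τ, e, hb', h⟩ := h3 z hz
    obtain ⟨b'', y, hb'', e'⟩ := h4 z hz
    rw [e, op_inj] at e'
    obtain ⟨rfl, -⟩ := e'
    exact ⟨b', s, τ, e, hb'', h⟩

/-- MODULE xd -/
theorem hec2_agree {c b : M} (hb : GA.sub b c) :
    Agree (p1 (hec b)) (p2 (hec b)) (p2 (hec c)) := by
  intro p q hp hq
  have h : ∀ x, SetStr.mem x (p1 (hec b)) → SetStr.mem x (p1 (hec c)) := by
    intro x hx
    rw [hec1_eq_below hb, mem_below] at hx
    exact hx.1
  rw [mem_hec2, mem_hec2]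
  exact ⟨fun h' => ⟨h p hp, h q hq, h'.2.2⟩, fun h' => ⟨hp, hq, h'.2.2⟩⟩

private theorem xe_res {κ p c : M} (hp : SetStr.mem p (p1 (hec κ))) : SetStr.mem (res p c) (p1 (hec c)) := by
  rw [mem_hec1] at hp ⊢
  have hs : GA.sub (res p c) p := fun z hz => (mem_res.1 hz).1
  refine ⟨hp.1.sub hs, fun x y z h1 h2 => hp.2.1 x y z (hs _ h1) (hs _ h2), fun z hz => ?_⟩
  obtain ⟨b, s, τ, e, hb, h⟩ := hp.2.2 z (hs _ hz)
  obtain ⟨-, b', y, hb', e'⟩ := mem_res.1 hz
  rw [e, op_inj] at e'
  obtain ⟨rfl, -⟩ := e'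
  exact ⟨b, s, τ, e, hb', h⟩

/-- MODULE xe -/
theorem isHec_hec {κ : M} (hκ : Ord κ) : IsHec κ (p1 (hec κ)) (p2 (hec κ)) := by
  have hs : ∀ c, SetStr.mem c κ → GA.sub c κ := fun c hc x hx => hκ.trans hc hx
  refine ⟨fun p => ?_, fun z hz => hec2_rel hz, fun p q => ?_⟩
  · rw [mem_hec1]
    constructor
    · rintro ⟨h1, h2, h3⟩
      refine ⟨h1, h2, fun z hz => ?_⟩
      obtain ⟨c, s, τ, e, hc, hs', hτ⟩ := h3 z hz
      refine ⟨c, s, τ, e, hc, hs', ?_⟩
      rw [← hec1_eq_below (hs c hc)]
      exact (RName.congr (hec2_agree (hs c hc))).1 hτ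
    · rintro ⟨h1, h2, h3⟩
      refine ⟨h1, h2, fun z hz => ?_⟩
      obtain ⟨c, s, τ, e, hc, hs', hτ⟩ := h3 z hz
      refine ⟨c, s, τ, e, hc, hs', ?_⟩
      rw [← hec1_eq_below (hs c hc)] at hτ
      exact (RName.congr (hec2_agree (hs c hc))).2 hτ
  · rw [mem_hec2]
    constructor
    · rintro ⟨h1, h2, h3⟩
      refine ⟨h1, h2, fun c s' τ' hc => ?_⟩
      have hcκ : SetStr.mem c κ := by
        obtain ⟨c', s, τ, e, hc', -⟩ := (mem_hec1.1 h2).2.2 _ hc
        rw [op_inj] at e
        obtain ⟨rfl, -⟩ := e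
        exact hc'
      obtain ⟨s, τ, e1, e2, e3, e4⟩ := h3 c s' τ' hc
      have hr := xe_res (c := c) h1
      refine ⟨s, τ, e1, e2, ?_, fun n k hn hn' => ?_⟩
      · rw [← hec1_eq_below (hs c hcκ)]
        exact (NLe.congr (hec2_agree (hs c hcκ)) hr).1 e3
      · rw [← hec1_eq_below (hs c hcκ)]
        exact (NLeV.congr (hec2_agree (hs c hcκ)) hr).1 (e4 n k hn hn')
    · rintro ⟨h1, h2, h3⟩
      refine ⟨h1, h2, fun c s' τ' hc => ?_⟩
      have hcκ : SetStr.mem c κ := by
        obtain ⟨c', s, τ, e, hc', -⟩ := (mem_hec1.1 h2).2.2 _ hc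
        rw [op_inj] at e
        obtain ⟨rfl, -⟩ := e
        exact hc'
      obtain ⟨s, τ, e1, e2, e3, e4⟩ := h3 c s' τ' hc
      have hr := xe_res (c := c) h1
      rw [← hec1_eq_below (hs c hcκ)] at e3
      refine ⟨s, τ, e1, e2, (NLe.congr (hec2_agree (hs c hcκ)) hr).2 e3, fun n k hn hn' => ?_⟩
      have := e4 n k hn hn'
      rw [← hec1_eq_below (hs c hcκ)] at this
      exact (NLeV.congr (hec2_agree (hs c hcκ)) hr).2 this

end GA
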