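import Pool.Agent.GA.Dt

/-!
# Nice names of reals over a forcing `(Q, L)`

`op v u ∈ L` means `v ≤ u`.
-/

universe u

namespace GA

variable {M : Type u} [SetStr M] [IsZF M]

/-- `L` is reflexive and transitive on `Q`. -/
def PreO (Q L : M) : Prop :=
  (∀ p, SetStr.mem p Q → SetStr.mem (op p p) L) ∧
    ∀ p q r, SetStr.mem p Q → SetStr.mem q Q → SetStr.mem r Q → SetStr.mem (op p q) L → SetStr.mem (op q r) L → SetStr.mem (op p r) L

theorem pd_PreO {f g : (ℕ → M) → M} (hf : PF f) (hg : PF g) : PD (fun v => PreO (f v) (g v)) :=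
  PD.app2 (R := fun x y => PreO x y) (by unfold PreO; (repeat' (with_reducible first | apply pf_p2 | apply pf_p1 | apply DD.pf_lv | apply DD.pf_nd | apply DD.pd_Clo | apply DD.pf_dl | apply DD.pf_prs | apply DD.pd_Fork | apply DD.pd_V | apply pd_maxR | apply pd_WOd | apply pf_pfin | apply pd_Fun1 | apply pf_hh | apply pd_Spr | apply pd_Inj | apply pf_har | apply pd_Le | apply pf_fins | apply pf_card | apply pd_Bij | apply pd_Fini | apply pd_Big | apply pd_Ord | apply pd_Tr | apply pd_Ind | apply pf_succ | apply pf_funs | apply pf_prod | apply pf_lam | apply pd_Fn | apply pf_app | apply pf_ran | apply pf_dom | apply PF.img | apply PF.pow | apply PD.sub | apply PF.adj | apply PF.un | apply PF.sUn | apply PF.op | apply PF.pr | apply PF.sep | exact PF.var _ | exact PF.const _ | apply PD.eq | apply PD.mem | apply PD.not | apply PD.iff | apply PD.or | apply PD.and | apply PD.imp | apply PD.ex | apply PD.all | exact PD.const _ | assumption | refine PF.comp1 (F := _) (by assumption) ?_ | refine PF.comp2 (F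 := _) (by assumption) ?_ ?_ | refine PF.comp3 (F := _) (by assumption) ?_ ?_ ?_ | refine PD.app1 (R := _) (by assumption) ?_ | refine PD.app2 (R := _) (by assumption) ?_ ?_ | refine PD.app3 (R := _) (by assumption) ?_ ?_ ?_ | refine PD.app4 (R := _) (by assumption) ?_ ?_ ?_ ?_))) hf hg


/-- `u ⊩ τ(n) = m`: densely many conditions below `u` lie below some `w'` with `op (op n m) w' ∈ τ`. -/
def FV (Q L τ u n m : M) : Prop :=
  ∀ v, SetStr.mem v Q → SetStr.mem (op v u) L →
    ∃ w w', SetStr.mem w Q ∧ SetStr.mem w' Q ∧ SetStr.mem (op w v) L ∧ SetStr.mem (op w w') L ∧ SetStr.mem (op (op n m) w') τ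

theorem pd_FV' {Q L : M} {τ u n m : (ℕ → M) → M} (hτ : PF τ) (hu : PF u) (hn : PF n) (hm : PF m) :
    PD (fun v => FV Q L (τ v) (u v) (n v) (m v)) :=
  PD.app4 (R := fun τ u n m => FV Q L τ u n m) (by unfold FV; (repeat' (with_reducible first | apply pd_PreO | apply pf_p2 | apply pf_p1 | apply DD.pf_lv | apply DD.pf_nd | apply DD.pd_Clo | apply DD.pf_dl | apply DD.pf_prs | apply DD.pd_Fork | apply DD.pd_V | apply pd_maxR | apply pd_WOd | apply pf_pfin | apply pd_Fun1 | apply pf_hh | apply pd_Spr | apply pd_Inj | apply pf_har | apply pd_Le | apply pf_fins | apply pf_card | apply pd_Bij | apply pd_Fini | apply pd_Big | apply pd_Ord | apply pd_Tr | apply pd_Ind | apply pf_succ | apply pf_funs | apply pf_prod | apply pf_lam | apply pd_Fn | apply pf_app | apply pf_ran | apply pf_dom | apply PF.img | apply PF.pow | apply PD.sub | apply PF.adj | apply PF.un | apply PF.sUn | apply PF.op | apply PF.pr | apply PF.sep | exact PF.var _ | exact PF.const _ | apply PD.eq | apply PD.mem | apply PD.not | apply PD.iff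 | apply PD.or | apply PD.and | apply PD.imp | apply PD.ex | apply PD.all | exact PD.const _ | assumption | refine PF.comp1 (F := _) (by assumption) ?_ | refine PF.comp2 (F := _) (by assumption) ?_ ?_ | refine PF.comp3 (F := _) (by assumption) ?_ ?_ ?_ | refine PD.app1 (R := _) (by assumption) ?_ | refine PD.app2 (R := _) (by assumption) ?_ ?_ | refine PD.app3 (R := _) (by assumption) ?_ ?_ ?_ | refine PD.app4 (R := _) (by assumption) ?_ ?_ ?_ ?_))) hτ hu hn hm

/-- `FV` with the six arguments in three pairs. -/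
def FVp (a b c : M) : Prop := FV (p1 a) (p2 a) (p1 b) (p2 b) (p1 c) (p2 c)

theorem pd_FV {Q L τ u n m : (ℕ → M) → M} (hQ : PF Q) (hL : PF L) (hτ : PF τ) (hu : PF u)
    (hn : PF n) (hm : PF m) :
    PD (fun v => FV (Q v) (L v) (τ v) (u v) (n v) (m v)) := by
  have h : PD (fun v : ℕ → M => FVp (v 0) (v 1) (v 2)) := by
    unfold FVp FV
    (repeat' (with_reducible first | apply pd_PreO | apply pf_p2 | apply pf_p1 | apply DD.pf_lv | apply DD.pf_nd | apply DD.pd_Clo | apply DD.pf_dl | apply DD.pf_prs | apply DD.pd_Fork | apply DD.pd_V | apply pd_maxR | apply pd_WOd | apply pf_pfin | apply pd_Fun1 | apply pf_hh | apply pd_Spr | apply pd_Inj | apply pf_har | apply pd_Le | apply pf_fins | apply pf_card | apply pd_Bij | apply pd_Fini | apply pd_Big | apply pd_Ord | apply pd_Tr | apply pd_Ind | apply pf_succ | apply pf_funs | apply pf_prod | apply pf_lam | apply pd_Fn | apply pf_app | apply pf_ran | apply pf_dom | apply PF.img | apply PF.pow | apply PD.sub | apply PF.adj | apply PF.un | apply PF.sUn | apply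 PF.op | apply PF.pr | apply PF.sep | exact PF.var _ | exact PF.const _ | apply PD.eq | apply PD.mem | apply PD.not | apply PD.iff | apply PD.or | apply PD.and | apply PD.imp | apply PD.ex | apply PD.all | exact PD.const _ | assumption | refine PF.comp1 (F := _) (by assumption) ?_ | refine PF.comp2 (F := _) (by assumption) ?_ ?_ | refine PF.comp3 (F := _) (by assumption) ?_ ?_ ?_ | refine PD.app1 (R := _) (by assumption) ?_ | refine PD.app2 (R := _) (by assumption) ?_ ?_ | refine PD.app3 (R := _) (by assumption) ?_ ?_ ?_ | refine PD.app4 (R := _) (by assumption) ?_ ?_ ?_ ?_))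
  have := PD.app3 (R := fun a b c => FVp a b c) h (hQ.op hL) (hτ.op hu) (hn.op hm)
  simpa only [FVp, p1_op, p2_op] using this


/-- `τ` is a nice name of a function from omega to omega over `(Q, L)`: a subset of `(ω × ω) × Q`
such that no condition forces two values at `n`, and densely many conditions force a value at `n`. -/
def RName (Q L τ : M) : Prop :=
  GA.sub τ (prod (prod om om) Q) ∧
    (∀ u n m m', SetStr.mem u Q → FV Q L τ u n m → FV Q L τ u n m' → m = m') ∧
      ∀ u n, SetStr.mem u Q → SetStr.mem n om → ∃ v m, SetStr.mem v Q ∧ SetStr.mem (op v u) L ∧ SetStr.mem m om ∧ FV Q L τ v n m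

theorem pd_RName {Q L τ : (ℕ → M) → M} (hQ : PF Q) (hL : PF L) (hτ : PF τ) :
    PD (fun v => RName (Q v) (L v) (τ v)) :=
  PD.app3 (R := fun Q L τ => RName Q L τ) (by unfold RName; (repeat' (with_reducible first | apply pd_FV | apply pd_PreO | apply pf_p2 | apply pf_p1 | apply DD.pf_lv | apply DD.pf_nd | apply DD.pd_Clo | apply DD.pf_dl | apply DD.pf_prs | apply DD.pd_Fork | apply DD.pd_V | apply pd_maxR | apply pd_WOd | apply pf_pfin | apply pd_Fun1 | apply pf_hh | apply pd_Spr | apply pd_Inj | apply pf_har | apply pd_Le | apply pf_fins | apply pf_card | apply pd_Bij | apply pd_Fini | apply pd_Big | apply pd_Ord | apply pd_Tr | apply pd_Ind | apply pf_succ | apply pf_funs | apply pf_prod | apply pf_lam | apply pd_Fn | apply pf_app | apply pf_ran | apply pf_dom | apply PF.img | apply PF.pow | apply PD.sub | apply PF.adj | apply PF.un | apply PF.sUn | apply PF.op | apply PF.pr | apply PF.sep | exact PF.var _ | exact PF.const _ | apply PD.eq | apply PD.mem | apply PD.not | apply PD.iff | apply PD.or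 | apply PD.and | apply PD.imp | apply PD.ex | apply PD.all | exact PD.const _ | assumption | refine PF.comp1 (F := _) (by assumption) ?_ | refine PF.comp2 (F := _) (by assumption) ?_ ?_ | refine PF.comp3 (F := _) (by assumption) ?_ ?_ ?_ | refine PD.app1 (R := _) (by assumption) ?_ | refine PD.app2 (R := _) (by assumption) ?_ ?_ | refine PD.app3 (R := _) (by assumption) ?_ ?_ ?_ | refine PD.app4 (R := _) (by assumption) ?_ ?_ ?_ ?_))) hQ hL hτ


/-- `u ⊩ τ ≤ τ'` (everywhere). -/
def NLe (Q L u τ τ' : M) : Prop :=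
  ∀ v n m m', SetStr.mem v Q → SetStr.mem (op v u) L → FV Q L τ v n m → FV Q L τ' v n m' → GA.sub m m'

/-- `u ⊩ τ(n) ≤ k`. -/
def NLeV (Q L u τ n k : M) : Prop :=
  ∀ v m, SetStr.mem v Q → SetStr.mem (op v u) L → FV Q L τ v n m → GA.sub m k

/-- Auxiliary form of `NLe`. -/
def NLeP (a u τ τ' : M) : Prop := NLe (p1 a) (p2 a) u τ τ'

theorem pd_NLe {Q L u τ τ' : (ℕ → M) → M} (hQ : PF Q) (hL : PF L) (hu : PF u) (hτ : PF τ)
    (hτ' : PF τ') : PD (fun v => NLe (Q v) (L v) (u v) (τ v) (τ' v)) := by
  have h : PD (fun v : ℕ → M => NLeP (v 0) (v 1) (v 2) (v 3)) := by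
    unfold NLeP NLe
    (repeat' (with_reducible first | apply pd_RName | apply pd_FV | apply pd_PreO | apply pf_p2 | apply pf_p1 | apply DD.pf_lv | apply DD.pf_nd | apply DD.pd_Clo | apply DD.pf_dl | apply DD.pf_prs | apply DD.pd_Fork | apply DD.pd_V | apply pd_maxR | apply pd_WOd | apply pf_pfin | apply pd_Fun1 | apply pf_hh | apply pd_Spr | apply pd_Inj | apply pf_har | apply pd_Le | apply pf_fins | apply pf_card | apply pd_Bij | apply pd_Fini | apply pd_Big | apply pd_Ord | apply pd_Tr | apply pd_Ind | apply pf_succ | apply pf_funs | apply pf_prod | apply pf_lam | apply pd_Fn | apply pf_app | apply pf_ran | apply pf_dom | apply PF.img | apply PF.pow | apply PD.sub | apply PF.adj | apply PF.un | apply PF.sUn | apply PF.op | apply PF.pr | apply PF.sep | exact PF.var _ | exact PF.const _ | apply PD.eq | apply PD.mem | apply PD.not | apply PD.iff | apply PD.or | apply PD.and | apply PD.imp | apply PD.ex | apply PD.all | exact PD.const _ | assumption | refine PF.comp1 (F := _) (by assumption) ?_ | refine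 PF.comp2 (F := _) (by assumption) ?_ ?_ | refine PF.comp3 (F := _) (by assumption) ?_ ?_ ?_ | refine PD.app1 (R := _) (by assumption) ?_ | refine PD.app2 (R := _) (by assumption) ?_ ?_ | refine PD.app3 (R := _) (by assumption) ?_ ?_ ?_ | refine PD.app4 (R := _) (by assumption) ?_ ?_ ?_ ?_))
  have := PD.app4 (R := fun a b c d => NLeP a b c d) h (hQ.op hL) hu hτ hτ'
  simpa only [NLeP, p1_op, p2_op] using this


/-- Auxiliary form of `NLeV`. -/
def NLeVP (a b n k : M) : Prop := NLeV (p1 a) (p2 a) (p1 b) (p2 b) n k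

theorem pd_NLeV {Q L u τ n k : (ℕ → M) → M} (hQ : PF Q) (hL : PF L) (hu : PF u) (hτ : PF τ)
    (hn : PF n) (hk : PF k) : PD (fun v => NLeV (Q v) (L v) (u v) (τ v) (n v) (k v)) := by
  have h : PD (fun v : ℕ → M => NLeVP (v 0) (v 1) (v 2) (v 3)) := by
    unfold NLeVP NLeV
    (repeat' (with_reducible first | apply pd_NLe | apply pd_RName | apply pd_FV | apply pd_PreO | apply pf_p2 | apply pf_p1 | apply DD.pf_lv | apply DD.pf_nd | apply DD.pd_Clo | apply DD.pf_dl | apply DD.pf_prs | apply DD.pd_Fork | apply DD.pd_V | apply pd_maxR | apply pd_WOd | apply pf_pfin | apply pd_Fun1 | apply pf_hh | apply pd_Spr | apply pd_Inj | apply pf_har | apply pd_Le | apply pf_fins | apply pf_card | apply pd_Bij | apply pd_Fini | apply pd_Big | apply pd_Ord | apply pd_Tr | apply pd_Ind | apply pf_succ | apply pf_funs | apply pf_prod | apply pf_lam | apply pd_Fn | apply pf_app | apply pf_ran | apply pf_dom | apply PF.img | apply PF.pow | apply PD.sub | apply PF.adj | apply PF.un | apply PF.sUn | apply PF.op | apply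 PF.pr | apply PF.sep | exact PF.var _ | exact PF.const _ | apply PD.eq | apply PD.mem | apply PD.not | apply PD.iff | apply PD.or | apply PD.and | apply PD.imp | apply PD.ex | apply PD.all | exact PD.const _ | assumption | refine PF.comp1 (F := _) (by assumption) ?_ | refine PF.comp2 (F := _) (by assumption) ?_ ?_ | refine PF.comp3 (F := _) (by assumption) ?_ ?_ ?_ | refine PD.app1 (R := _) (by assumption) ?_ | refine PD.app2 (R := _) (by assumption) ?_ ?_ | refine PD.app3 (R := _) (by assumption) ?_ ?_ ?_ | refine PD.app4 (R := _) (by assumption) ?_ ?_ ?_ ?_))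
  have := PD.app4 (R := fun a b c d => NLeVP a b c d) h (hQ.op hL) (hu.op hτ) hn hk
  simpa only [NLeVP, p1_op, p2_op] using this


section

variable {Q L : M}

/-- MODULE na -/
theorem FV.mono (hQ : PreO Q L) {τ u v n m : M} (hu : SetStr.mem u Q) (hv : SetStr.mem v Q) (h : SetStr.mem (op v u) L)
    (hf : FV Q L τ u n m) : FV Q L τ v n m := by
  intro w hw hwv
  exact hf w hw (hQ.2 w v u hw hv hu hwv h)

/-- MODULE na -/
theorem FV.dense (hQ : PreO Q L) {τ u n m : M} (hu : SetStr.mem u Q)
    (h : ∀ v, SetStr.mem v Q → SetStr.mem (op v u) L → ∃ w, SetStr.mem w Q ∧ SetStr.mem (op w v) L ∧ FV Q L τ w n m) :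
    FV Q L τ u n m := by
  intro v hv hvu
  obtain ⟨w, hw, hwv, hf⟩ := h v hv hvu
  obtain ⟨w1, w', hw1, hw', h1, h2, h3⟩ := hf w hw (hQ.1 w hw)
  exact ⟨w1, w', hw1, hw', hQ.2 w1 w v hw1 hw hv h1 hwv, h2, h3⟩

/-- MODULE na -/
theorem FV.mem_om (hQ : PreO Q L) {τ u n m : M} (hτ : GA.sub τ (prod (prod om om) Q)) (hu : SetStr.mem u Q)
    (hf : FV Q L τ u n m) : SetStr.mem n om ∧ SetStr.mem m om := by
  obtain ⟨w, w', -, -, -, -, h⟩ := hf u hu (hQ.1 u hu)
  have := op_mem_prod.1 (hτ _ h)
  exact op_mem_prod.1 this.1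

/-- MODULE na.  An element of the name. -/
theorem FV.of_mem (hQ : PreO Q L) {τ u w n m : M} (hu : SetStr.mem u Q) (hw : SetStr.mem w Q) (h : SetStr.mem (op u w) L)
    (hf : SetStr.mem (op (op n m) w) τ) : FV Q L τ u n m := by
  intro v hv hvu
  exact ⟨v, w, hv, hw, hQ.1 v hv, hQ.2 v u w hv hu hw hvu h, hf⟩

/-- The name of the constant function with value `0`; `o` is the largest condition. -/
noncomputable def zname (o : M) : M := img (fun n => op (op n emp) o) om

/-- MODULE nb -/
theorem zname_RName (hQ : PreO Q L) {o : M} (ho : SetStr.mem o Q) (ht : ∀ p, SetStr.mem p Q → SetStr.mem (op p o) L) :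
    RName Q L (zname o) := by
  have hm : ∀ n m w : M, SetStr.mem (op (op n m) w) (zname o) ↔ SetStr.mem n om ∧ m = emp ∧ w = o := by
    intro n m w
    unfold zname
    rw [mem_img (by (repeat' (with_reducible first | apply pd_NLeV | apply pd_NLe | apply pd_RName | apply pd_FV | apply pd_PreO | apply pf_p2 | apply pf_p1 | apply DD.pf_lv | apply DD.pf_nd | apply DD.pd_Clo | apply DD.pf_dl | apply DD.pf_prs | apply DD.pd_Fork | apply DD.pd_V | apply pd_maxR | apply pd_WOd | apply pf_pfin | apply pd_Fun1 | apply pf_hh | apply pd_Spr | apply pd_Inj | apply pf_har | apply pd_Le | apply pf_fins | apply pf_card | apply pd_Bij | apply pd_Fini | apply pd_Big | apply pd_Ord | apply pd_Tr | apply pd_Ind | apply pf_succ | apply pf_funs | apply pf_prod | apply pf_lam | apply pd_Fn | apply pf_app | apply pf_ran | apply pf_dom | apply PF.img | apply PF.pow | apply PD.sub | apply PF.adj | apply PF.un | apply PF.sUn | apply PF.op | apply PF.pr | apply PF.sep | exact PF.var _ | exact PF.const _ | apply PD.eq | apply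 PD.mem | apply PD.not | apply PD.iff | apply PD.or | apply PD.and | apply PD.imp | apply PD.ex | apply PD.all | exact PD.const _ | assumption | refine PF.comp1 (F := _) (by assumption) ?_ | refine PF.comp2 (F := _) (by assumption) ?_ ?_ | refine PF.comp3 (F := _) (by assumption) ?_ ?_ ?_ | refine PD.app1 (R := _) (by assumption) ?_ | refine PD.app2 (R := _) (by assumption) ?_ ?_ | refine PD.app3 (R := _) (by assumption) ?_ ?_ ?_ | refine PD.app4 (R := _) (by assumption) ?_ ?_ ?_ ?_)))]
    constructor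
    · rintro ⟨k, hk, h⟩
      simp only [op_inj] at h
      obtain ⟨⟨rfl, rfl⟩, rfl⟩ := h
      exact ⟨hk, rfl, rfl⟩
    · rintro ⟨hn, rfl, rfl⟩
      exact ⟨n, hn, rfl⟩
  have hv : ∀ u n m : M, SetStr.mem u Q → FV Q L (zname o) u n m → m = emp := by
    intro u n m hu hf
    obtain ⟨w, w', -, -, -, -, h⟩ := hf u hu (hQ.1 u hu)
    exact ((hm _ _ _).1 h).2.1
  refine ⟨fun z hz => ?_, fun u n m m' hu h h' => ?_, fun u n hu hn => ?_⟩
  · unfold zname at hz
    rw [mem_img (by (repeat' (with_reducible first | apply pd_NLeV | apply pd_NLe | apply pd_RName | apply pd_FV | apply pd_PreO | apply pf_p2 | apply pf_p1 | apply DD.pf_lv | apply DD.pf_nd | apply DD.pd_Clo | apply DD.pf_dl | apply DD.pf_prs | apply DD.pd_Fork | apply DD.pd_V | apply pd_maxR | apply pd_WOd | apply pf_pfin | apply pd_Fun1 | apply pf_hh | apply pd_Spr | apply pd_Inj | apply pf_har | apply pd_Le | apply pf_fins | apply pf_card | apply pd_Bij | apply pd_Fini | apply pd_Big | apply pd_Ord | apply pd_Tr | apply pd_Ind | apply pf_succ |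 apply pf_funs | apply pf_prod | apply pf_lam | apply pd_Fn | apply pf_app | apply pf_ran | apply pf_dom | apply PF.img | apply PF.pow | apply PD.sub | apply PF.adj | apply PF.un | apply PF.sUn | apply PF.op | apply PF.pr | apply PF.sep | exact PF.var _ | exact PF.const _ | apply PD.eq | apply PD.mem | apply PD.not | apply PD.iff | apply PD.or | apply PD.and | apply PD.imp | apply PD.ex | apply PD.all | exact PD.const _ | assumption | refine PF.comp1 (F := _) (by assumption) ?_ | refine PF.comp2 (F := _) (by assumption) ?_ ?_ | refine PF.comp3 (F := _) (by assumption) ?_ ?_ ?_ | refine PD.app1 (R := _) (by assumption) ?_ | refine PD.app2 (R := _) (by assumption) ?_ ?_ | refine PD.app3 (R := _) (by assumption) ?_ ?_ ?_ | refine PD.app4 (R := _) (by assumption) ?_ ?_ ?_ ?_)))] at hz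
    obtain ⟨k, hk, rfl⟩ := hz
    exact op_mem_prod.2 ⟨op_mem_prod.2 ⟨hk, emp_mem_om⟩, ho⟩
  · rw [hv u n m hu h, hv u n m' hu h']
  · refine ⟨u, emp, hu, hQ.1 u hu, emp_mem_om, ?_⟩
    exact FV.of_mem hQ hu ho (ht u hu) ((hm _ _ _).2 ⟨hn, rfl, rfl⟩)

/-- The name of the pointwise maximum. -/
noncomputable def mxn (Q L τ τ' : M) : M :=
  sep (prod (prod om om) Q) (fun z => ∃ n m m' u, z = op (op n (un m m')) u ∧ FV Q L τ u n m ∧
    FV Q L τ' u n m')

theorem pf_mxn {Q L τ τ' : (ℕ → M) → M} (hQ : PF Q) (hL : PF L) (hτ : PF τ) (hτ' : PF τ') :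
    PF (fun v => mxn (Q v) (L v) (τ v) (τ' v)) := by
  unfold mxn
  refine PF.of_mem (Q := fun z v => SetStr.mem z (prod (prod om om) (Q v)) ∧ ∃ n m m' u,
    z = op (op n (un m m')) u ∧ FV (Q v) (L v) (τ v) u n m ∧ FV (Q v) (L v) (τ' v) u n m')
    (fun v z => mem_sep (by (repeat' (with_reducible first | apply pd_NLeV | apply pd_NLe | apply pd_RName | apply pd_FV | apply pd_PreO | apply pf_p2 | apply pf_p1 | apply DD.pf_lv | apply DD.pf_nd | apply DD.pd_Clo | apply DD.pf_dl | apply DD.pf_prs | apply DD.pd_Fork | apply DD.pd_V | apply pd_maxR | apply pd_WOd | apply pf_pfin | apply pd_Fun1 | apply pf_hh | apply pd_Spr | apply pd_Inj | apply pf_har | apply pd_Le | apply pf_fins | apply pf_card | apply pd_Bij | apply pd_Fini | apply pd_Big | apply pd_Ord | apply pd_Tr | apply pd_Ind | apply pf_succ | apply pf_funs | apply pf_prod | apply pf_lam | apply pd_Fn | apply pf_app | apply pf_ran | apply pf_dom | apply PF.img | apply PF.pow | apply PD.sub | apply PF.adj | apply PF.un | apply PF.sUn | apply PF.op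 | apply PF.pr | apply PF.sep | exact PF.var _ | exact PF.const _ | apply PD.eq | apply PD.mem | apply PD.not | apply PD.iff | apply PD.or | apply PD.and | apply PD.imp | apply PD.ex | apply PD.all | exact PD.const _ | assumption | refine PF.comp1 (F := _) (by assumption) ?_ | refine PF.comp2 (F := _) (by assumption) ?_ ?_ | refine PF.comp3 (F := _) (by assumption) ?_ ?_ ?_ | refine PD.app1 (R := _) (by assumption) ?_ | refine PD.app2 (R := _) (by assumption) ?_ ?_ | refine PD.app3 (R := _) (by assumption) ?_ ?_ ?_ | refine PD.app4 (R := _) (by assumption) ?_ ?_ ?_ ?_)))) ?_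
  refine PD.and (PD.mem (PF.var _) (pf_prod (by (repeat' (with_reducible first | apply pd_NLeV | apply pd_NLe | apply pd_RName | apply pd_FV | apply pd_PreO | apply pf_p2 | apply pf_p1 | apply DD.pf_lv | apply DD.pf_nd | apply DD.pd_Clo | apply DD.pf_dl | apply DD.pf_prs | apply DD.pd_Fork | apply DD.pd_V | apply pd_maxR | apply pd_WOd | apply pf_pfin | apply pd_Fun1 | apply pf_hh | apply pd_Spr | apply pd_Inj | apply pf_har | apply pd_Le | apply pf_fins | apply pf_card | apply pd_Bij | apply pd_Fini | apply pd_Big | apply pd_Ord | apply pd_Tr | apply pd_Ind | apply pf_succ | apply pf_funs | apply pf_prod | apply pf_lam | apply pd_Fn | apply pf_app | apply pf_ran | apply pf_dom | apply PF.img | apply PF.pow | apply PD.sub | apply PF.adj | apply PF.un | apply PF.sUn | apply PF.op | apply PF.pr | apply PF.sep | exact PF.var _ | exact PF.const _ | apply PD.eq | apply PD.mem | apply PD.not | apply PD.iff | apply PD.or | apply PD.and | apply PD.imp | apply PD.ex | apply PD.all | exact PD.const _ | assumption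 | refine PF.comp1 (F := _) (by assumption) ?_ | refine PF.comp2 (F := _) (by assumption) ?_ ?_ | refine PF.comp3 (F := _) (by assumption) ?_ ?_ ?_ | refine PD.app1 (R := _) (by assumption) ?_ | refine PD.app2 (R := _) (by assumption) ?_ ?_ | refine PD.app3 (R := _) (by assumption) ?_ ?_ ?_ | refine PD.app4 (R := _) (by assumption) ?_ ?_ ?_ ?_))) (hQ.weaken 1))) ?_
  refine PD.ex (PD.ex (PD.ex (PD.ex (PD.and (by (repeat' (with_reducible first | apply pd_NLeV | apply pd_NLe | apply pd_RName | apply pd_FV | apply pd_PreO | apply pf_p2 | apply pf_p1 | apply DD.pf_lv | apply DD.pf_nd | apply DD.pd_Clo | apply DD.pf_dl | apply DD.pf_prs | apply DD.pd_Fork | apply DD.pd_V | apply pd_maxR | apply pd_WOd | apply pf_pfin | apply pd_Fun1 | apply pf_hh | apply pd_Spr | apply pd_Inj | apply pf_har | apply pd_Le | apply pf_fins | apply pf_card | apply pd_Bij | apply pd_Fini | apply pd_Big | apply pd_Ord | apply pd_Tr | apply pd_Ind | apply pf_succ | apply pf_funs | apply pf_prod | apply pf_lam | apply pd_Fn | apply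 pf_app | apply pf_ran | apply pf_dom | apply PF.img | apply PF.pow | apply PD.sub | apply PF.adj | apply PF.un | apply PF.sUn | apply PF.op | apply PF.pr | apply PF.sep | exact PF.var _ | exact PF.const _ | apply PD.eq | apply PD.mem | apply PD.not | apply PD.iff | apply PD.or | apply PD.and | apply PD.imp | apply PD.ex | apply PD.all | exact PD.const _ | assumption | refine PF.comp1 (F := _) (by assumption) ?_ | refine PF.comp2 (F := _) (by assumption) ?_ ?_ | refine PF.comp3 (F := _) (by assumption) ?_ ?_ ?_ | refine PD.app1 (R := _) (by assumption) ?_ | refine PD.app2 (R := _) (by assumption) ?_ ?_ | refine PD.app3 (R := _) (by assumption) ?_ ?_ ?_ | refine PD.app4 (R := _) (by assumption) ?_ ?_ ?_ ?_))) (PD.and ?_ ?_)))))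
  · exact pd_FV (hQ.weaken 5) (hL.weaken 5) (hτ.weaken 5) (by (repeat' (with_reducible first | apply pd_NLeV | apply pd_NLe | apply pd_RName | apply pd_FV | apply pd_PreO | apply pf_p2 | apply pf_p1 | apply DD.pf_lv | apply DD.pf_nd | apply DD.pd_Clo | apply DD.pf_dl | apply DD.pf_prs | apply DD.pd_Fork | apply DD.pd_V | apply pd_maxR | apply pd_WOd | apply pf_pfin | apply pd_Fun1 | apply pf_hh | apply pd_Spr | apply pd_Inj | apply pf_har | apply pd_Le | apply pf_fins | apply pf_card | apply pd_Bij | apply pd_Fini | apply pd_Big | apply pd_Ord | apply pd_Tr | apply pd_Ind | apply pf_succ | apply pf_funs | apply pf_prod | apply pf_lam | apply pd_Fn | apply pf_app | apply pf_ran | apply pf_dom | apply PF.img | apply PF.pow | apply PD.sub | apply PF.adj | apply PF.un | apply PF.sUn | apply PF.op | apply PF.pr | apply PF.sep | exact PF.var _ | exact PF.const _ | apply PD.eq | apply PD.mem | apply PD.not | apply PD.iff | apply PD.or | apply PD.and | apply PD.imp | apply PD.ex | apply PD.all | exact PD.const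 _ | assumption | refine PF.comp1 (F := _) (by assumption) ?_ | refine PF.comp2 (F := _) (by assumption) ?_ ?_ | refine PF.comp3 (F := _) (by assumption) ?_ ?_ ?_ | refine PD.app1 (R := _) (by assumption) ?_ | refine PD.app2 (R := _) (by assumption) ?_ ?_ | refine PD.app3 (R := _) (by assumption) ?_ ?_ ?_ | refine PD.app4 (R := _) (by assumption) ?_ ?_ ?_ ?_))) (by (repeat' (with_reducible first | apply pd_NLeV | apply pd_NLe | apply pd_RName | apply pd_FV | apply pd_PreO | apply pf_p2 | apply pf_p1 | apply DD.pf_lv | apply DD.pf_nd | apply DD.pd_Clo | apply DD.pf_dl | apply DD.pf_prs | apply DD.pd_Fork | apply DD.pd_V | apply pd_maxR | apply pd_WOd | apply pf_pfin | apply pd_Fun1 | apply pf_hh | apply pd_Spr | apply pd_Inj | apply pf_har | apply pd_Le | apply pf_fins | apply pf_card | apply pd_Bij | apply pd_Fini | apply pd_Big | apply pd_Ord | apply pd_Tr | apply pd_Ind | apply pf_succ | apply pf_funs | apply pf_prod | apply pf_lam | apply pd_Fn | apply pf_app | apply pf_ran | apply pf_dom | apply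 PF.img | apply PF.pow | apply PD.sub | apply PF.adj | apply PF.un | apply PF.sUn | apply PF.op | apply PF.pr | apply PF.sep | exact PF.var _ | exact PF.const _ | apply PD.eq | apply PD.mem | apply PD.not | apply PD.iff | apply PD.or | apply PD.and | apply PD.imp | apply PD.ex | apply PD.all | exact PD.const _ | assumption | refine PF.comp1 (F := _) (by assumption) ?_ | refine PF.comp2 (F := _) (by assumption) ?_ ?_ | refine PF.comp3 (F := _) (by assumption) ?_ ?_ ?_ | refine PD.app1 (R := _) (by assumption) ?_ | refine PD.app2 (R := _) (by assumption) ?_ ?_ | refine PD.app3 (R := _) (by assumption) ?_ ?_ ?_ | refine PD.app4 (R := _) (by assumption) ?_ ?_ ?_ ?_))) (by (repeat' (with_reducible first | apply pd_NLeV | apply pd_NLe | apply pd_RName | apply pd_FV | apply pd_PreO | apply pf_p2 | apply pf_p1 | apply DD.pf_lv | apply DD.pf_nd | apply DD.pd_Clo | apply DD.pf_dl | apply DD.pf_prs | apply DD.pd_Fork | apply DD.pd_V | apply pd_maxR | apply pd_WOd | apply pf_pfin | apply pd_Fun1 | apply pf_hh |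 apply pd_Spr | apply pd_Inj | apply pf_har | apply pd_Le | apply pf_fins | apply pf_card | apply pd_Bij | apply pd_Fini | apply pd_Big | apply pd_Ord | apply pd_Tr | apply pd_Ind | apply pf_succ | apply pf_funs | apply pf_prod | apply pf_lam | apply pd_Fn | apply pf_app | apply pf_ran | apply pf_dom | apply PF.img | apply PF.pow | apply PD.sub | apply PF.adj | apply PF.un | apply PF.sUn | apply PF.op | apply PF.pr | apply PF.sep | exact PF.var _ | exact PF.const _ | apply PD.eq | apply PD.mem | apply PD.not | apply PD.iff | apply PD.or | apply PD.and | apply PD.imp | apply PD.ex | apply PD.all | exact PD.const _ | assumption | refine PF.comp1 (F := _) (by assumption) ?_ | refine PF.comp2 (F := _) (by assumption) ?_ ?_ | refine PF.comp3 (F := _) (by assumption) ?_ ?_ ?_ | refine PD.app1 (R := _) (by assumption) ?_ | refine PD.app2 (R := _) (by assumption) ?_ ?_ | refine PD.app3 (R := _) (by assumption) ?_ ?_ ?_ | refine PD.app4 (R := _) (by assumption) ?_ ?_ ?_ ?_)))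
  · exact pd_FV (hQ.weaken 5) (hL.weaken 5) (hτ'.weaken 5) (by (repeat' (with_reducible first | apply pd_NLeV | apply pd_NLe | apply pd_RName | apply pd_FV | apply pd_PreO | apply pf_p2 | apply pf_p1 | apply DD.pf_lv | apply DD.pf_nd | apply DD.pd_Clo | apply DD.pf_dl | apply DD.pf_prs | apply DD.pd_Fork | apply DD.pd_V | apply pd_maxR | apply pd_WOd | apply pf_pfin | apply pd_Fun1 | apply pf_hh | apply pd_Spr | apply pd_Inj | apply pf_har | apply pd_Le | apply pf_fins | apply pf_card | apply pd_Bij | apply pd_Fini | apply pd_Big | apply pd_Ord | apply pd_Tr | apply pd_Ind | apply pf_succ | apply pf_funs | apply pf_prod | apply pf_lam | apply pd_Fn | apply pf_app | apply pf_ran | apply pf_dom | apply PF.img | apply PF.pow | apply PD.sub | apply PF.adj | apply PF.un | apply PF.sUn | apply PF.op | apply PF.pr | apply PF.sep | exact PF.var _ | exact PF.const _ | apply PD.eq | apply PD.mem | apply PD.not | apply PD.iff | apply PD.or | apply PD.and | apply PD.imp | apply PD.ex | apply PD.all | exact PD.const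 _ | assumption | refine PF.comp1 (F := _) (by assumption) ?_ | refine PF.comp2 (F := _) (by assumption) ?_ ?_ | refine PF.comp3 (F := _) (by assumption) ?_ ?_ ?_ | refine PD.app1 (R := _) (by assumption) ?_ | refine PD.app2 (R := _) (by assumption) ?_ ?_ | refine PD.app3 (R := _) (by assumption) ?_ ?_ ?_ | refine PD.app4 (R := _) (by assumption) ?_ ?_ ?_ ?_))) (by (repeat' (with_reducible first | apply pd_NLeV | apply pd_NLe | apply pd_RName | apply pd_FV | apply pd_PreO | apply pf_p2 | apply pf_p1 | apply DD.pf_lv | apply DD.pf_nd | apply DD.pd_Clo | apply DD.pf_dl | apply DD.pf_prs | apply DD.pd_Fork | apply DD.pd_V | apply pd_maxR | apply pd_WOd | apply pf_pfin | apply pd_Fun1 | apply pf_hh | apply pd_Spr | apply pd_Inj | apply pf_har | apply pd_Le | apply pf_fins | apply pf_card | apply pd_Bij | apply pd_Fini | apply pd_Big | apply pd_Ord | apply pd_Tr | apply pd_Ind | apply pf_succ | apply pf_funs | apply pf_prod | apply pf_lam | apply pd_Fn | apply pf_app | apply pf_ran | apply pf_dom | apply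 PF.img | apply PF.pow | apply PD.sub | apply PF.adj | apply PF.un | apply PF.sUn | apply PF.op | apply PF.pr | apply PF.sep | exact PF.var _ | exact PF.const _ | apply PD.eq | apply PD.mem | apply PD.not | apply PD.iff | apply PD.or | apply PD.and | apply PD.imp | apply PD.ex | apply PD.all | exact PD.const _ | assumption | refine PF.comp1 (F := _) (by assumption) ?_ | refine PF.comp2 (F := _) (by assumption) ?_ ?_ | refine PF.comp3 (F := _) (by assumption) ?_ ?_ ?_ | refine PD.app1 (R := _) (by assumption) ?_ | refine PD.app2 (R := _) (by assumption) ?_ ?_ | refine PD.app3 (R := _) (by assumption) ?_ ?_ ?_ | refine PD.app4 (R := _) (by assumption) ?_ ?_ ?_ ?_))) (by (repeat' (with_reducible first | apply pd_NLeV | apply pd_NLe | apply pd_RName | apply pd_FV | apply pd_PreO | apply pf_p2 | apply pf_p1 | apply DD.pf_lv | apply DD.pf_nd | apply DD.pd_Clo | apply DD.pf_dl | apply DD.pf_prs | apply DD.pd_Fork | apply DD.pd_V | apply pd_maxR | apply pd_WOd | apply pf_pfin | apply pd_Fun1 | apply pf_hh |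 apply pd_Spr | apply pd_Inj | apply pf_har | apply pd_Le | apply pf_fins | apply pf_card | apply pd_Bij | apply pd_Fini | apply pd_Big | apply pd_Ord | apply pd_Tr | apply pd_Ind | apply pf_succ | apply pf_funs | apply pf_prod | apply pf_lam | apply pd_Fn | apply pf_app | apply pf_ran | apply pf_dom | apply PF.img | apply PF.pow | apply PD.sub | apply PF.adj | apply PF.un | apply PF.sUn | apply PF.op | apply PF.pr | apply PF.sep | exact PF.var _ | exact PF.const _ | apply PD.eq | apply PD.mem | apply PD.not | apply PD.iff | apply PD.or | apply PD.and | apply PD.imp | apply PD.ex | apply PD.all | exact PD.const _ | assumption | refine PF.comp1 (F := _) (by assumption) ?_ | refine PF.comp2 (F := _) (by assumption) ?_ ?_ | refine PF.comp3 (F := _) (by assumption) ?_ ?_ ?_ | refine PD.app1 (R := _) (by assumption) ?_ | refine PD.app2 (R := _) (by assumption) ?_ ?_ | refine PD.app3 (R := _) (by assumption) ?_ ?_ ?_ | refine PD.app4 (R := _) (by assumption) ?_ ?_ ?_ ?_)))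


private theorem nc_un {m m' : M} (hm : SetStr.mem m om) (hm' : SetStr.mem m' om) : SetStr.mem (un m m') om := by
  rcases (Ord.of_mem_om hm).tri (Ord.of_mem_om hm') with h | rfl | h
  · have : un m m' = m' := by
      refine ext (fun z => ?_)
      rw [mem_un]
      exact ⟨fun hz => hz.elim (fun hz => om_elt_trans hm' h hz) id, Or.inr⟩
    rw [this]
    exact hm'
  · have : un m m = m := by
      refine ext (fun z => ?_)
      rw [mem_un, or_self]
    rw [this]
    exact hm
  · have : un m m' = m := by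
      refine ext (fun z => ?_)
      rw [mem_un]
      exact ⟨fun hz => hz.elim id (fun hz => om_elt_trans hm h hz), Or.inl⟩
    rw [this]
    exact hm

/-- MODULE nc -/
theorem FV.mxn (hQ : PreO Q L) {τ τ' u n m m' : M} (hτ : RName Q L τ) (hτ' : RName Q L τ')
    (hu : SetStr.mem u Q) (h : FV Q L τ u n m) (h' : FV Q L τ' u n m') :
    FV Q L (GA.mxn Q L τ τ') u n (un m m') := by
  have h1 := FV.mem_om hQ hτ.1 hu h
  have h2 := FV.mem_om hQ hτ'.1 hu h'
  refine FV.of_mem hQ hu hu (hQ.1 u hu) ?_
  unfold GA.mxn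
  rw [mem_sep (by (repeat' (with_reducible first | apply pf_mxn | apply pd_NLeV | apply pd_NLe | apply pd_RName | apply pd_FV | apply pd_PreO | apply pf_p2 | apply pf_p1 | apply DD.pf_lv | apply DD.pf_nd | apply DD.pd_Clo | apply DD.pf_dl | apply DD.pf_prs | apply DD.pd_Fork | apply DD.pd_V | apply pd_maxR | apply pd_WOd | apply pf_pfin | apply pd_Fun1 | apply pf_hh | apply pd_Spr | apply pd_Inj | apply pf_har | apply pd_Le | apply pf_fins | apply pf_card | apply pd_Bij | apply pd_Fini | apply pd_Big | apply pd_Ord | apply pd_Tr | apply pd_Ind | apply pf_succ | apply pf_funs | apply pf_prod | apply pf_lam | apply pd_Fn | apply pf_app | apply pf_ran | apply pf_dom | apply PF.img | apply PF.pow | apply PD.sub | apply PF.adj | apply PF.un | apply PF.sUn | apply PF.op | apply PF.pr | apply PF.sep | exact PF.var _ | exact PF.const _ | apply PD.eq | apply PD.mem | apply PD.not | apply PD.iff | apply PD.or | apply PD.and | apply PD.imp | apply PD.ex | apply PD.all | exact PD.const _ | assumption | refine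 PF.comp1 (F := _) (by assumption) ?_ | refine PF.comp2 (F := _) (by assumption) ?_ ?_ | refine PF.comp3 (F := _) (by assumption) ?_ ?_ ?_ | refine PD.app1 (R := _) (by assumption) ?_ | refine PD.app2 (R := _) (by assumption) ?_ ?_ | refine PD.app3 (R := _) (by assumption) ?_ ?_ ?_ | refine PD.app4 (R := _) (by assumption) ?_ ?_ ?_ ?_)))]
  exact ⟨op_mem_prod.2 ⟨op_mem_prod.2 ⟨h1.1, nc_un h1.2 h2.2⟩, hu⟩, n, m, m', u, rfl, h, h'⟩

/-- MODULE nc.  (`FV.mem_om` first; the condition `w'` of the element of `mxn`.) -/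
theorem FV.of_mxn (hQ : PreO Q L) {τ τ' u n k : M} (hu : SetStr.mem u Q)
    (h : FV Q L (GA.mxn Q L τ τ') u n k) :
    ∃ w m m', SetStr.mem w Q ∧ SetStr.mem (op w u) L ∧ k = un m m' ∧ FV Q L τ w n m ∧ FV Q L τ' w n m' := by
  obtain ⟨w, w', hw, hw', hwu, hww, h1⟩ := h u hu (hQ.1 u hu)
  unfold GA.mxn at h1
  rw [mem_sep (by (repeat' (with_reducible first | apply pf_mxn | apply pd_NLeV | apply pd_NLe | apply pd_RName | apply pd_FV | apply pd_PreO | apply pf_p2 | apply pf_p1 | apply DD.pf_lv | apply DD.pf_nd | apply DD.pd_Clo | apply DD.pf_dl | apply DD.pf_prs | apply DD.pd_Fork | apply DD.pd_V | apply pd_maxR | apply pd_WOd | apply pf_pfin | apply pd_Fun1 | apply pf_hh | apply pd_Spr | apply pd_Inj | apply pf_har | apply pd_Le | apply pf_fins | apply pf_card | apply pd_Bij | apply pd_Fini | apply pd_Big | apply pd_Ord | apply pd_Tr | apply pd_Ind | apply pf_succ | apply pf_funs | apply pf_prod | apply pf_lam | apply pd_Fn | apply pf_app | apply pf_ran | apply pf_dom | apply PF.img | apply PF.pow |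 apply PD.sub | apply PF.adj | apply PF.un | apply PF.sUn | apply PF.op | apply PF.pr | apply PF.sep | exact PF.var _ | exact PF.const _ | apply PD.eq | apply PD.mem | apply PD.not | apply PD.iff | apply PD.or | apply PD.and | apply PD.imp | apply PD.ex | apply PD.all | exact PD.const _ | assumption | refine PF.comp1 (F := _) (by assumption) ?_ | refine PF.comp2 (F := _) (by assumption) ?_ ?_ | refine PF.comp3 (F := _) (by assumption) ?_ ?_ ?_ | refine PD.app1 (R := _) (by assumption) ?_ | refine PD.app2 (R := _) (by assumption) ?_ ?_ | refine PD.app3 (R := _) (by assumption) ?_ ?_ ?_ | refine PD.app4 (R := _) (by assumption) ?_ ?_ ?_ ?_)))] at h1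
  obtain ⟨-, n1, m, m', u1, h2, h3, h4⟩ := h1
  simp only [op_inj] at h2
  obtain ⟨⟨rfl, rfl⟩, rfl⟩ := h2
  exact ⟨w, m, m', hw, hwu, rfl, FV.mono hQ hw' hw hww h3, FV.mono hQ hw' hw hww h4⟩

/-- MODULE nd -/
theorem mxn_RName (hQ : PreO Q L) {τ τ' : M} (hτ : RName Q L τ) (hτ' : RName Q L τ') :
    RName Q L (GA.mxn Q L τ τ') := by
  refine ⟨fun z hz => ?_, fun u n k k' hu h h' => ?_, fun u n hu hn => ?_⟩
  · unfold GA.mxn at hz
    rw [mem_sep (by (repeat' (with_reducible first | apply pf_mxn | apply pd_NLeV | apply pd_NLe | apply pd_RName | apply pd_FV | apply pd_PreO | apply pf_p2 | apply pf_p1 | apply DD.pf_lv | apply DD.pf_nd | apply DD.pd_Clo | apply DD.pf_dl | apply DD.pf_prs | apply DD.pd_Fork | apply DD.pd_V | apply pd_maxR | apply pd_WOd | apply pf_pfin | apply pd_Fun1 | apply pf_hh | apply pd_Spr | apply pd_Inj | apply pf_har | apply pd_Le | apply pf_fins | apply pf_card | apply pd_Bij | apply pd_Fini | apply pd_Big | apply pd_Ord | apply pd_Tr | apply pd_Ind | apply pf_succ | apply pf_funs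 | apply pf_prod | apply pf_lam | apply pd_Fn | apply pf_app | apply pf_ran | apply pf_dom | apply PF.img | apply PF.pow | apply PD.sub | apply PF.adj | apply PF.un | apply PF.sUn | apply PF.op | apply PF.pr | apply PF.sep | exact PF.var _ | exact PF.const _ | apply PD.eq | apply PD.mem | apply PD.not | apply PD.iff | apply PD.or | apply PD.and | apply PD.imp | apply PD.ex | apply PD.all | exact PD.const _ | assumption | refine PF.comp1 (F := _) (by assumption) ?_ | refine PF.comp2 (F := _) (by assumption) ?_ ?_ | refine PF.comp3 (F := _) (by assumption) ?_ ?_ ?_ | refine PD.app1 (R := _) (by assumption) ?_ | refine PD.app2 (R := _) (by assumption) ?_ ?_ | refine PD.app3 (R := _) (by assumption) ?_ ?_ ?_ | refine PD.app4 (R := _) (by assumption) ?_ ?_ ?_ ?_)))] at hz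
    exact hz.1
  · obtain ⟨w, m, m', hw, hwu, rfl, h1, h2⟩ := FV.of_mxn hQ hu h
    obtain ⟨w', m1, m1', hw', hww, rfl, h3, h4⟩ := FV.of_mxn hQ hw (FV.mono hQ hu hw hwu h')
    rw [hτ.2.1 w' n m m1 hw' (FV.mono hQ hw hw' hww h1) h3,
      hτ'.2.1 w' n m' m1' hw' (FV.mono hQ hw hw' hww h2) h4]
  · obtain ⟨v, m, hv, hvu, hm, h1⟩ := hτ.2.2 u n hu hn
    obtain ⟨w, m', hw, hwv, hm', h2⟩ := hτ'.2.2 v n hv hn
    refine ⟨w, un m m', hw, hQ.2 w v u hw hv hu hwv hvu, nc_un hm hm', ?_⟩
    exact FV.mxn hQ hτ hτ' hw (FV.mono hQ hv hw hwv h1) h2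

/-- MODULE nd -/
theorem NLe_mxn_left (hQ : PreO Q L) {τ τ' u : M} (hτ : RName Q L τ) (hτ' : RName Q L τ')
    (hu : SetStr.mem u Q) : NLe Q L u τ (GA.mxn Q L τ τ') := by
  intro v n m k hv hvu h1 h2
  obtain ⟨w, m1, m2, hw, hwv, rfl, h3, h4⟩ := FV.of_mxn hQ hv h2
  rw [hτ.2.1 w n m m1 hw (FV.mono hQ hv hw hwv h1) h3]
  exact fun z hz => mem_un.2 (Or.inl hz)

/-- MODULE nd -/
theorem NLe_mxn_right (hQ : PreO Q L) {τ τ' u : M} (hτ : RName Q L τ) (hτ' : RName Q L τ')
    (hu : SetStr.mem u Q) : NLe Q L u τ' (GA.mxn Q L τ τ') := by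
  intro v n m k hv hvu h1 h2
  obtain ⟨w, m1, m2, hw, hwv, rfl, h3, h4⟩ := FV.of_mxn hQ hv h2
  rw [hτ'.2.1 w n m m2 hw (FV.mono hQ hv hw hwv h1) h4]
  exact fun z hz => mem_un.2 (Or.inr hz)

/-- MODULE ne -/
theorem NLe.refl {τ u : M} (hτ : RName Q L τ) : NLe Q L u τ τ := by
  intro v n m m' hv hvu h1 h2
  rw [hτ.2.1 v n m m' hv h1 h2]
  exact fun z hz => hz

/-- MODULE ne -/
theorem NLe.mono (hQ : PreO Q L) {τ τ' u v : M} (hu : SetStr.mem u Q) (hv : SetStr.mem v Q) (h : SetStr.mem (op v u) L)
    (hn : NLe Q L u τ τ') : NLe Q L v τ τ' := by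
  intro w n m m' hw hwv h1 h2
  exact hn w n m m' hw (hQ.2 w v u hw hv hu hwv h) h1 h2

/-- MODULE ne.  Extend `v` so that `τ'` is decided at `n`. -/
theorem NLe.trans (hQ : PreO Q L) {τ τ' τ'' u : M} (hu : SetStr.mem u Q) (hτ : RName Q L τ)
    (hτ' : RName Q L τ') (h : NLe Q L u τ τ') (h' : NLe Q L u τ' τ'') : NLe Q L u τ τ'' := by
  intro v n m m' hv hvu h1 h2
  have hn := (FV.mem_om hQ hτ.1 hv h1).1
  obtain ⟨w, k, hw, hwv, hk, h3⟩ := hτ'.2.2 v n hv hn
  have hwu := hQ.2 w v u hw hv hu hwv hvu
  have e1 := h w n m k hw hwu (FV.mono hQ hv hw hwv h1) h3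
  have e2 := h' w n k m' hw hwu h3 (FV.mono hQ hv hw hwv h2)
  exact fun z hz => e2 z (e1 z hz)

/-- MODULE ne -/
theorem NLeV.mono (hQ : PreO Q L) {τ u v n k : M} (hu : SetStr.mem u Q) (hv : SetStr.mem v Q) (h : SetStr.mem (op v u) L)
    (hn : NLeV Q L u τ n k) : NLeV Q L v τ n k := by
  intro w m hw hwv h1
  exact hn w m hw (hQ.2 w v u hw hv hu hwv h) h1

/-- MODULE ne -/
theorem NLe.trans_val (hQ : PreO Q L) {τ τ' u n k : M} (hu : SetStr.mem u Q) (hτ : RName Q L τ)
    (hτ' : RName Q L τ') (h : NLe Q L u τ τ') (h' : NLeV Q L u τ' n k) : NLeV Q L u τ n k := by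
  intro v m hv hvu h1
  have hn := (FV.mem_om hQ hτ.1 hv h1).1
  obtain ⟨w, k', hw, hwv, hk, h3⟩ := hτ'.2.2 v n hv hn
  have hwu := hQ.2 w v u hw hv hu hwv hvu
  have e1 := h w n m k' hw hwu (FV.mono hQ hv hw hwv h1) h3
  have e2 := h' w k' hw hwu h3
  exact fun z hz => e2 z (e1 z hz)

/-- MODULE ne.  If `u` forces `τ(n) = m` and `m ⊆ k` then `u` forces `τ(n) ≤ k`. -/
theorem NLeV.of_FV (hQ : PreO Q L) {τ u n m k : M} (hu : SetStr.mem u Q) (hτ : RName Q L τ)
    (h : FV Q L τ u n m) (hk : GA.sub m k) : NLeV Q L u τ n k := by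
  intro v m' hv hvu h1
  rw [hτ.2.1 v n m' m hv h1 (FV.mono hQ hu hv hvu h)]
  exact hk

end

end GA
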