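import Pool.Agent.GA.Display

/-!
# Definability in structures with one binary relation

`SetStr M`: a type with a binary relation `∈`.  `LST` is the first-order language with one binary
relation symbol.  `PD P`: the predicate `P` of environments `ℕ → M` is definable in `M` with
parameters.  `UD P`: the family `P` of predicates is defined by ONE formula in all structures.
-/

universe u

namespace GA

open FirstOrder FirstOrder.Language

/-- The membership symbol. -/
def memSym : LST.Relations 2 := MemRel.mem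


/-- Put a value in front of an environment. -/
def cons {M : Type u} (x : M) (v : ℕ → M) : ℕ → M
  | 0 => x
  | i + 1 => v i

@[simp] theorem cons_zero {M : Type u} (x : M) (v : ℕ → M) : cons x v 0 = x := rfl

@[simp] theorem cons_succ {M : Type u} (x : M) (v : ℕ → M) (i : ℕ) : cons x v (i + 1) = v i := rfl

theorem cons_eta {M : Type u} (v : ℕ → M) : cons (v 0) (fun i => v (i + 1)) = v := by
  funext i
  cases i <;> rfl

section PDsec

variable {M : Type u} [SetStr M]

/-- The predicate `P` of environments is definable with parameters in `M`. -/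
def PD (P : (ℕ → M) → Prop) : Prop :=
  ∃ φ : LST.Formula (M ⊕ ℕ), ∀ v : ℕ → M, φ.Realize (Sum.elim id v) ↔ P v

/-- The function `f` of environments is definable with parameters in `M`. -/
def PF (f : (ℕ → M) → M) : Prop := PD (fun v : ℕ → M => v 0 = f (fun i => v (i + 1)))

theorem PD.of_iff {P Q : (ℕ → M) → Prop} (hP : PD P) (h : ∀ v, P v ↔ Q v) : PD Q := by
  obtain ⟨φ, hφ⟩ := hP
  exact ⟨φ, fun v => (hφ v).trans (h v)⟩

theorem PD.not {P : (ℕ → M) → Prop} (hP : PD P) : PD (fun v => ¬ P v) := by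
  obtain ⟨φ, hφ⟩ := hP
  exact ⟨φ.not, fun v => by rw [Formula.realize_not, hφ]⟩

theorem PD.and {P Q : (ℕ → M) → Prop} (hP : PD P) (hQ : PD Q) : PD (fun v => P v ∧ Q v) := by
  obtain ⟨φ, hφ⟩ := hP
  obtain ⟨ψ, hψ⟩ := hQ
  exact ⟨φ ⊓ ψ, fun v => by rw [Formula.realize_inf, hφ, hψ]⟩

theorem PD.or {P Q : (ℕ → M) → Prop} (hP : PD P) (hQ : PD Q) : PD (fun v => P v ∨ Q v) := by
  obtain ⟨φ, hφ⟩ := hP
  obtain ⟨ψ, hψ⟩ := hQ
  exact ⟨φ ⊔ ψ, fun v => by rw [Formula.realize_sup, hφ, hψ]⟩

theorem PD.imp {P Q : (ℕ → M) → Prop} (hP : PD P) (hQ : PD Q) : PD (fun v => P v → Q v) := by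
  obtain ⟨φ, hφ⟩ := hP
  obtain ⟨ψ, hψ⟩ := hQ
  exact ⟨φ.imp ψ, fun v => by rw [Formula.realize_imp, hφ, hψ]⟩

theorem PD.iff {P Q : (ℕ → M) → Prop} (hP : PD P) (hQ : PD Q) : PD (fun v => (P v ↔ Q v)) := by
  obtain ⟨φ, hφ⟩ := hP
  obtain ⟨ψ, hψ⟩ := hQ
  exact ⟨φ.iff ψ, fun v => by rw [Formula.realize_iff, hφ, hψ]⟩

theorem PD.true : PD (fun _ : ℕ → M => True) :=
  ⟨⊤, fun v => by simp⟩

theorem PD.false : PD (fun _ : ℕ → M => False) :=
  ⟨⊥, fun v => by simp⟩

theorem PD.const (p : Prop) : PD (fun _ : ℕ → M => p) := by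
  by_cases hp : p
  · exact PD.true.of_iff (fun _ => by simp [hp])
  · exact PD.false.of_iff (fun _ => by simp [hp])

/-- Renaming of variables. -/
theorem PD.subst {P : (ℕ → M) → Prop} (hP : PD P) (σ : ℕ → M ⊕ ℕ) :
    PD (fun v => P (fun i => Sum.elim id v (σ i))) := by
  obtain ⟨φ, hφ⟩ := hP
  refine ⟨φ.relabel (Sum.elim Sum.inl σ), fun v => ?_⟩
  rw [Formula.realize_relabel]
  show _ ↔ P (fun i => Sum.elim id v (σ i))
  rw [← hφ]
  have : (Sum.elim id v ∘ Sum.elim Sum.inl σ : M ⊕ ℕ → M)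
      = Sum.elim id (fun i => Sum.elim id v (σ i)) := by
    funext a
    rcases a with a | a <;> rfl
  rw [this]

theorem PD.all {P : M → (ℕ → M) → Prop} (hP : PD (fun v => P (v 0) (fun i => v (i + 1)))) :
    PD (fun v => ∀ x, P x v) := by
  obtain ⟨φ, hφ⟩ := hP
  let g : M ⊕ ℕ → (M ⊕ ℕ) ⊕ Unit := Sum.elim (fun a => Sum.inl (Sum.inl a))
    (fun i => match i with
      | 0 => Sum.inr ()
      | i + 1 => Sum.inl (Sum.inr i))
  refine ⟨(φ.relabel g).iAlls Unit, fun v => ?_⟩
  rw [Formula.realize_iAlls]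
  have key : ∀ x : Unit → M, (Sum.elim (Sum.elim id v) x ∘ g : M ⊕ ℕ → M)
      = Sum.elim id (cons (x ()) v) := by
    intro x
    funext a
    rcases a with a | i
    · rfl
    · cases i <;> rfl
  constructor
  · intro h x
    have := h (fun _ => x)
    rw [Formula.realize_relabel, key, hφ] at this
    exact this
  · intro h x
    rw [Formula.realize_relabel, key, hφ]
    exact h (x ())

theorem PD.ex {P : M → (ℕ → M) → Prop} (hP : PD (fun v => P (v 0) (fun i => v (i + 1)))) :
    PD (fun v => ∃ x, P x v) := by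
  have h1 : PD (fun v : ℕ → M => ¬ ∀ x, ¬ P x v) := by
    apply PD.not
    apply PD.all
    exact PD.not hP
  exact h1.of_iff (fun v => by push Not; rfl)

theorem PF.const (a : M) : PF (fun _ => a) := by
  refine ⟨(Term.var (Sum.inr 0)).equal (Term.var (Sum.inl a)), fun v => ?_⟩
  rw [Formula.realize_equal]
  rfl

theorem PF.var (i : ℕ) : PF (fun v : ℕ → M => v i) := by
  refine ⟨(Term.var (Sum.inr 0)).equal (Term.var (Sum.inr (i + 1))), fun v => ?_⟩
  rw [Formula.realize_equal]
  rfl

theorem PD.mem_var (i j : ℕ) : PD (fun v : ℕ → M => SetStr.mem (v i) (v j)) := by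
  refine ⟨Relations.formula₂ memSym (Term.var (Sum.inr i))
    (Term.var (Sum.inr j)), fun v => ?_⟩
  rw [Formula.realize_rel₂]
  rfl

theorem PD.eq_var (i j : ℕ) : PD (fun v : ℕ → M => v i = v j) := by
  refine ⟨(Term.var (Sum.inr i)).equal (Term.var (Sum.inr j)), fun v => ?_⟩
  rw [Formula.realize_equal]
  rfl

/-- Shift the variables of a definable function. -/
theorem PF.shift {f : (ℕ → M) → M} (hf : PF f) : PD (fun v : ℕ → M => v 0 = f (fun i => v (i + 1))) := hf

/-- Substitution of one definable function: the value is put in front of the environment. -/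
theorem PD.comp1 {P : M → (ℕ → M) → Prop} (hP : PD (fun v => P (v 0) (fun i => v (i + 1))))
    {f : (ℕ → M) → M} (hf : PF f) : PD (fun v => P (f v) v) := by
  have h : PD (fun v => ∃ x, x = f v ∧ P x v) := PD.ex (hf.and hP)
  exact h.of_iff (fun v => by simp)

/-- Weakening: forget the first `k` variables. -/
theorem PD.weaken {P : (ℕ → M) → Prop} (hP : PD P) (k : ℕ) : PD (fun v => P (fun i => v (i + k))) :=
  hP.subst (fun i => Sum.inr (i + k))

theorem PF.weaken {f : (ℕ → M) → M} (hf : PF f) (k : ℕ) : PF (fun v => f (fun i => v (i + k))) := by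
  have := PD.subst hf (fun i => match i with
    | 0 => Sum.inr 0
    | i + 1 => Sum.inr (i + k + 1))
  exact this

theorem PD.app1 {R : M → Prop} (hR : PD (fun v => R (v 0))) {f : (ℕ → M) → M} (hf : PF f) :
    PD (fun v => R (f v)) :=
  PD.comp1 (P := fun x _ => R x) hR hf

theorem PD.app2 {R : M → M → Prop} (hR : PD (fun v => R (v 0) (v 1))) {f g : (ℕ → M) → M}
    (hf : PF f) (hg : PF g) : PD (fun v => R (f v) (g v)) := by
  refine PD.comp1 (P := fun x v => R x (g v)) ?_ hf
  have h2 : PD (fun v : ℕ → M => R (v 1) (v 0)) := by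
    have := hR.subst (fun i => match i with
      | 0 => Sum.inr 1
      | 1 => Sum.inr 0
      | i + 2 => Sum.inr (i + 2))
    exact this
  exact PD.comp1 (P := fun y v => R (v 0) y) h2 (hg.weaken 1)

theorem PD.app3 {R : M → M → M → Prop} (hR : PD (fun v => R (v 0) (v 1) (v 2)))
    {f g h : (ℕ → M) → M} (hf : PF f) (hg : PF g) (hh : PF h) :
    PD (fun v => R (f v) (g v) (h v)) := by
  have h3 : PD (fun v : ℕ → M => R (v 2) (v 1) (v 0)) := by
    have := hR.subst (fun i => match i with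
      | 0 => Sum.inr 2
      | 1 => Sum.inr 1
      | 2 => Sum.inr 0
      | i + 3 => Sum.inr (i + 3))
    exact this
  have h4 : PD (fun v : ℕ → M => R (v 1) (v 0) (h (fun i => v (i + 2)))) :=
    PD.comp1 (P := fun y v => R (v 1) (v 0) y) h3 (hh.weaken 2)
  have h5 : PD (fun v : ℕ → M => R (v 0) (g (fun i => v (i + 1))) (h (fun i => v (i + 1)))) :=
    PD.comp1 (P := fun y v => R (v 0) y (h (fun i => v (i + 1)))) h4 (hg.weaken 1)
  exact PD.comp1 (P := fun y v => R y (g v) (h v)) h5 hf

theorem PD.app4 {R : M → M → M → M → Prop} (hR : PD (fun v => R (v 0) (v 1) (v 2) (v 3)))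
    {f g h k : (ℕ → M) → M} (hf : PF f) (hg : PF g) (hh : PF h) (hk : PF k) :
    PD (fun v => R (f v) (g v) (h v) (k v)) := by
  have h3 : PD (fun v : ℕ → M => R (v 3) (v 2) (v 1) (v 0)) := by
    have := hR.subst (fun i => match i with
      | 0 => Sum.inr 3
      | 1 => Sum.inr 2
      | 2 => Sum.inr 1
      | 3 => Sum.inr 0
      | i + 4 => Sum.inr (i + 4))
    exact this
  have h4 : PD (fun v : ℕ → M => R (v 2) (v 1) (v 0) (k (fun i => v (i + 3)))) :=
    PD.comp1 (P := fun y v => R (v 2) (v 1) (v 0) y) h3 (hk.weaken 3)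
  have h5 : PD (fun v : ℕ → M => R (v 1) (v 0) (h (fun i => v (i + 2))) (k (fun i => v (i + 2)))) :=
    PD.comp1 (P := fun y v => R (v 1) (v 0) y (k (fun i => v (i + 2)))) h4 (hh.weaken 2)
  have h6 : PD (fun v : ℕ → M => R (v 0) (g (fun i => v (i + 1))) (h (fun i => v (i + 1)))
      (k (fun i => v (i + 1)))) :=
    PD.comp1 (P := fun y v => R (v 0) y (h (fun i => v (i + 1))) (k (fun i => v (i + 1)))) h5
      (hg.weaken 1)
  exact PD.comp1 (P := fun y v => R y (g v) (h v) (k v)) h6 hf

theorem PD.mem {f g : (ℕ → M) → M} (hf : PF f) (hg : PF g) : PD (fun v => SetStr.mem (f v) (g v)) :=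
  PD.app2 (R := fun x y => SetStr.mem x y) (PD.mem_var 0 1) hf hg

theorem PD.eq {f g : (ℕ → M) → M} (hf : PF f) (hg : PF g) : PD (fun v => f v = g v) :=
  PD.app2 (R := fun x y => x = y) (PD.eq_var 0 1) hf hg

/-- A unary definable function applied to a definable function. -/
theorem PF.app1 {F : M → M} (hF : PD (fun v => v 0 = F (v 1))) {f : (ℕ → M) → M} (hf : PF f) :
    PF (fun v => F (f v)) :=
  PD.app2 (R := fun x y => x = F y) hF (PF.var 0) (hf.weaken 1)

theorem PF.app2 {F : M → M → M} (hF : PD (fun v => v 0 = F (v 1) (v 2))) {f g : (ℕ → M) → M}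
    (hf : PF f) (hg : PF g) : PF (fun v => F (f v) (g v)) :=
  PD.app3 (R := fun x y z => x = F y z) hF (PF.var 0) (hf.weaken 1) (hg.weaken 1)

theorem PF.app3 {F : M → M → M → M} (hF : PD (fun v => v 0 = F (v 1) (v 2) (v 3)))
    {f g h : (ℕ → M) → M}
    (hf : PF f) (hg : PF g) (hh : PF h) : PF (fun v => F (f v) (g v) (h v)) :=
  PD.app4 (R := fun x y z w => x = F y z w) hF (PF.var 0) (hf.weaken 1) (hg.weaken 1) (hh.weaken 1)

/-- Composition with a unary function known to be definable. -/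
theorem PF.comp1 {F : M → M} (hF : PF (fun v => F (v 0))) {f : (ℕ → M) → M} (hf : PF f) :
    PF (fun v => F (f v)) := PF.app1 (F := F) hF hf

/-- Composition with a binary function known to be definable. -/
theorem PF.comp2 {F : M → M → M} (hF : PF (fun v => F (v 0) (v 1))) {f g : (ℕ → M) → M}
    (hf : PF f) (hg : PF g) : PF (fun v => F (f v) (g v)) := PF.app2 (F := F) hF hf hg

/-- Composition with a ternary function known to be definable. -/
theorem PF.comp3 {F : M → M → M → M} (hF : PF (fun v => F (v 0) (v 1) (v 2)))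
    {f g h : (ℕ → M) → M}
    (hf : PF f) (hg : PF g) (hh : PF h) : PF (fun v => F (f v) (g v) (h v)) :=
  PF.app3 (F := F) hF hf hg hh

end PDsec





end GA
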