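import Pool.Agent.GA.Fun

/-!
# omega, recursion on omega, transitive closure, epsilon-induction
-/

universe u

namespace GA

variable {M : Type u} [SetStr M] [IsZF M]

/-- `x ∪ {x}`. -/
noncomputable def succ (x : M) : M := adj x x

@[simp] theorem mem_succ {x z : M} : SetStr.mem z (succ x) ↔ SetStr.mem z x ∨ z = x := by
  unfold succ
  simp

theorem pf_succ {f : (ℕ → M) → M} (hf : PF f) : PF (fun v => succ (f v)) := hf.adj hf


/-- `x` is an inductive set. -/
def Ind (x : M) : Prop := SetStr.mem emp x ∧ ∀ y, SetStr.mem y x → SetStr.mem (succ y) x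

theorem pd_Ind {f : (ℕ → M) → M} (hf : PF f) : PD (fun v => Ind (f v)) :=
  PD.app1 (R := fun x => Ind x) (by unfold Ind; (repeat' (with_reducible first | apply pf_succ | apply pf_funs | apply pf_prod | apply pf_lam | apply pd_Fn | apply pf_app | apply pf_ran | apply pf_dom | apply PF.img | apply PF.pow | apply PD.sub | apply PF.adj | apply PF.un | apply PF.sUn | apply PF.op | apply PF.pr | apply PF.sep | exact PF.var _ | exact PF.const _ | apply PD.eq | apply PD.mem | apply PD.not | apply PD.iff | apply PD.or | apply PD.and | apply PD.imp | apply PD.ex | apply PD.all | exact PD.const _ | assumption | refine PF.comp1 (F := _) (by assumption) ?_ | refine PF.comp2 (F := _) (by assumption) ?_ ?_ | refine PF.comp3 (F := _) (by assumption) ?_ ?_ ?_ | refine PD.app1 (R := _) (by assumption) ?_ | refine PD.app2 (R := _) (by assumption) ?_ ?_ | refine PD.app3 (R := _) (by assumption) ?_ ?_ ?_ | refine PD.app4 (R := _) (by assumption) ?_ ?_ ?_ ?_))) hf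


theorem exists_om : ∃ w : M, ∀ n, SetStr.mem n w ↔ ∀ J, Ind J → SetStr.mem n J := by
  obtain ⟨x, ⟨e, he, hex⟩, hx⟩ := IsZF.infinity (M := M)
  have hI : Ind x := by
    constructor
    · have : (emp : M) = e := ext (fun z => ⟨fun h => (not_mem_emp z h).elim, fun h => (he z h).elim⟩)
      rw [this]
      exact hex
    · intro y hy
      obtain ⟨s, hs, h⟩ := hx y hy
      have : succ y = s := ext (fun z => by rw [mem_succ, h])
      rw [this]
      exact hs
  refine ⟨sep x (fun n => ∀ J, Ind J → SetStr.mem n J), fun n => ?_⟩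
  rw [mem_sep (by (repeat' (with_reducible first | apply pd_Ind | apply pf_succ | apply pf_funs | apply pf_prod | apply pf_lam | apply pd_Fn | apply pf_app | apply pf_ran | apply pf_dom | apply PF.img | apply PF.pow | apply PD.sub | apply PF.adj | apply PF.un | apply PF.sUn | apply PF.op | apply PF.pr | apply PF.sep | exact PF.var _ | exact PF.const _ | apply PD.eq | apply PD.mem | apply PD.not | apply PD.iff | apply PD.or | apply PD.and | apply PD.imp | apply PD.ex | apply PD.all | exact PD.const _ | assumption | refine PF.comp1 (F := _) (by assumption) ?_ | refine PF.comp2 (F := _) (by assumption) ?_ ?_ | refine PF.comp3 (F := _) (by assumption) ?_ ?_ ?_ | refine PD.app1 (R := _) (by assumption) ?_ | refine PD.app2 (R := _) (by assumption) ?_ ?_ | refine PD.app3 (R := _) (by assumption) ?_ ?_ ?_ | refine PD.app4 (R := _) (by assumption) ?_ ?_ ?_ ?_)))]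
  exact ⟨fun h => h.2, fun h => ⟨h x hI, h⟩⟩

/-- The set of natural numbers of `M`. -/
noncomputable def om : M := (exists_om (M := M)).choose

theorem mem_om {n : M} : SetStr.mem n om ↔ ∀ J, Ind J → SetStr.mem n J := (exists_om (M := M)).choose_spec n

@[simp] theorem emp_mem_om : SetStr.mem (emp : M) om := mem_om.2 (fun _ h => h.1)

theorem succ_mem_om {n : M} (h : SetStr.mem n om) : SetStr.mem (succ n) om :=
  mem_om.2 (fun J hJ => hJ.2 n (mem_om.1 h J hJ))

/-- Induction on omega for definable predicates. -/
theorem om_ind {P : M → Prop} (hP : PD (fun v => P (v 0))) (h0 : P emp)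
    (hs : ∀ n, SetStr.mem n om → P n → P (succ n)) : ∀ n, SetStr.mem n om → P n := by
  have hI : Ind (sep om P) := by
    constructor
    · rw [mem_sep hP]
      exact ⟨emp_mem_om, h0⟩
    · intro y hy
      rw [mem_sep hP] at hy ⊢
      exact ⟨succ_mem_om hy.1, hs y hy.1 hy.2⟩
  intro n hn
  exact ((mem_sep hP).1 (mem_om.1 hn _ hI)).2

/-- MODULE oa -/
theorem not_mem_self (x : M) : ¬ SetStr.mem x x := by
  intro h
  obtain ⟨y, hy, hz⟩ := IsZF.foundation (pr x x) ⟨x, by simp⟩
  have hyx : y = x := by simpa using hy
  subst hyx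
  exact hz y h (by simp)

/-- MODULE oa -/
theorem not_mem_mem {x y : M} (h : SetStr.mem x y) : ¬ SetStr.mem y x := by
  intro h'
  obtain ⟨w, hw, hz⟩ := IsZF.foundation (pr x y) ⟨x, by simp⟩
  rcases mem_pr.mp hw with rfl | rfl
  · exact hz y h' (by simp)
  · exact hz x h (by simp)

/-- MODULE oa -/
theorem succ_inj {x y : M} (h : succ x = succ y) : x = y := by
  have hx : SetStr.mem x (succ y) := by
    rw [← h]
    simp
  have hy : SetStr.mem y (succ x) := by
    rw [h]
    simp
  rw [mem_succ] at hx hy
  rcases hx with hx | hx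
  · rcases hy with hy | hy
    · exact (not_mem_mem hx hy).elim
    · exact hy.symm
  · exact hx

/-- MODULE ob -/
theorem om_trans {n m : M} (hn : SetStr.mem n om) (hm : SetStr.mem m n) : SetStr.mem m om := by
  refine om_ind (P := fun n => ∀ m, SetStr.mem m n → SetStr.mem m om) (by (repeat' (with_reducible first | apply pd_Ind | apply pf_succ | apply pf_funs | apply pf_prod | apply pf_lam | apply pd_Fn | apply pf_app | apply pf_ran | apply pf_dom | apply PF.img | apply PF.pow | apply PD.sub | apply PF.adj | apply PF.un | apply PF.sUn | apply PF.op | apply PF.pr | apply PF.sep | exact PF.var _ | exact PF.const _ | apply PD.eq | apply PD.mem | apply PD.not | apply PD.iff | apply PD.or | apply PD.and | apply PD.imp | apply PD.ex | apply PD.all | exact PD.const _ | assumption | refine PF.comp1 (F := _) (by assumption) ?_ | refine PF.comp2 (F := _) (by assumption) ?_ ?_ | refine PF.comp3 (F := _) (by assumption) ?_ ?_ ?_ | refine PD.app1 (R := _) (by assumption) ?_ | refine PD.app2 (R := _) (by assumption) ?_ ?_ | refine PD.app3 (R := _)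 (by assumption) ?_ ?_ ?_ | refine PD.app4 (R := _) (by assumption) ?_ ?_ ?_ ?_))) ?_ ?_ n hn m hm
  · intro m hm
    exact (not_mem_emp m hm).elim
  · intro n hn ih m hm
    rw [mem_succ] at hm
    rcases hm with hm | rfl
    · exact ih m hm
    · exact hn

/-- MODULE ob -/
theorem om_elt_trans {n m k : M} (hn : SetStr.mem n om) (hm : SetStr.mem m n) (hk : SetStr.mem k m) : SetStr.mem k n := by
  refine om_ind (P := fun n => ∀ m, SetStr.mem m n → ∀ k, SetStr.mem k m → SetStr.mem k n) (by (repeat' (with_reducible first | apply pd_Ind | apply pf_succ | apply pf_funs | apply pf_prod | apply pf_lam | apply pd_Fn | apply pf_app | apply pf_ran | apply pf_dom | apply PF.img | apply PF.pow | apply PD.sub | apply PF.adj | apply PF.un | apply PF.sUn | apply PF.op | apply PF.pr | apply PF.sep | exact PF.var _ | exact PF.const _ | apply PD.eq | apply PD.mem | apply PD.not | apply PD.iff | apply PD.or | apply PD.and | apply PD.imp | apply PD.ex | apply PD.all | exact PD.const _ | assumption | refine PF.comp1 (F := _) (by assumption) ?_ | refine PF.comp2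 (F := _) (by assumption) ?_ ?_ | refine PF.comp3 (F := _) (by assumption) ?_ ?_ ?_ | refine PD.app1 (R := _) (by assumption) ?_ | refine PD.app2 (R := _) (by assumption) ?_ ?_ | refine PD.app3 (R := _) (by assumption) ?_ ?_ ?_ | refine PD.app4 (R := _) (by assumption) ?_ ?_ ?_ ?_))) ?_ ?_ n hn m hm k hk
  · intro m hm
    exact (not_mem_emp m hm).elim
  · intro n _ ih m hm k hk
    rw [mem_succ] at hm ⊢
    rcases hm with hm | rfl
    · exact Or.inl (ih m hm k hk)
    · exact Or.inl hk

/-- MODULE ob -/
theorem om_cases {n : M} (hn : SetStr.mem n om) : n = emp ∨ ∃ m, SetStr.mem m om ∧ n = succ m := by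
  refine om_ind (P := fun n => n = emp ∨ ∃ m, SetStr.mem m om ∧ n = succ m) (by (repeat' (with_reducible first | apply pd_Ind | apply pf_succ | apply pf_funs | apply pf_prod | apply pf_lam | apply pd_Fn | apply pf_app | apply pf_ran | apply pf_dom | apply PF.img | apply PF.pow | apply PD.sub | apply PF.adj | apply PF.un | apply PF.sUn | apply PF.op | apply PF.pr | apply PF.sep | exact PF.var _ | exact PF.const _ | apply PD.eq | apply PD.mem | apply PD.not | apply PD.iff | apply PD.or | apply PD.and | apply PD.imp | apply PD.ex | apply PD.all | exact PD.const _ | assumption | refine PF.comp1 (F := _) (by assumption) ?_ | refine PF.comp2 (F := _) (by assumption) ?_ ?_ | refine PF.comp3 (F := _) (by assumption) ?_ ?_ ?_ | refine PD.app1 (R := _) (by assumption) ?_ | refine PD.app2 (R := _) (by assumption) ?_ ?_ | refine PD.app3 (R := _) (by assumption) ?_ ?_ ?_ | refine PD.app4 (R := _) (by assumption) ?_ ?_ ?_ ?_))) ?_ ?_ n hn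
  · exact Or.inl rfl
  · intro n hn _
    exact Or.inr ⟨n, hn, rfl⟩

/-- MODULE ob -/
theorem succ_mem_succ {n m : M} (hn : SetStr.mem n om) (hm : SetStr.mem m n) : SetStr.mem (succ m) (succ n) := by
  refine om_ind (P := fun n => ∀ m, SetStr.mem m n → SetStr.mem (succ m) (succ n)) (by (repeat' (with_reducible first | apply pd_Ind | apply pf_succ | apply pf_funs | apply pf_prod | apply pf_lam | apply pd_Fn | apply pf_app | apply pf_ran | apply pf_dom | apply PF.img | apply PF.pow | apply PD.sub | apply PF.adj | apply PF.un | apply PF.sUn | apply PF.op | apply PF.pr | apply PF.sep | exact PF.var _ | exact PF.const _ | apply PD.eq | apply PD.mem | apply PD.not | apply PD.iff | apply PD.or | apply PD.and | apply PD.imp | apply PD.ex | apply PD.all | exact PD.const _ | assumption | refine PF.comp1 (F := _) (by assumption) ?_ | refine PF.comp2 (F := _) (by assumption) ?_ ?_ | refine PF.comp3 (F := _) (by assumption) ?_ ?_ ?_ | refine PD.app1 (R := _) (by assumption) ?_ | refine PD.app2 (R := _) (by assumption) ?_ ?_ | refine PD.app3 (R :=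 _) (by assumption) ?_ ?_ ?_ | refine PD.app4 (R := _) (by assumption) ?_ ?_ ?_ ?_))) ?_ ?_ n hn m hm
  · intro m hm
    exact (not_mem_emp m hm).elim
  · intro n _ ih m hm
    rw [mem_succ] at hm
    rcases hm with hm | rfl
    · exact mem_succ.2 (Or.inl (ih m hm))
    · exact mem_succ.2 (Or.inr rfl)

/-- MODULE oc -/
private theorem oc_adj {f a x y : M} (hf : Fn f a) (hx : ¬ SetStr.mem x a) :
    Fn (adj f (op x y)) (adj a x) ∧ (∀ z, SetStr.mem z a → app (adj f (op x y)) z = app f z) ∧
      app (adj f (op x y)) x = y := by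
  have hfn : Fn (adj f (op x y)) (adj a x) := by
    constructor
    · intro z hz
      rcases mem_adj.1 hz with h | rfl
      · obtain ⟨a', ha, b, rfl⟩ := hf.1 z h
        exact ⟨a', mem_adj.2 (Or.inl ha), b, rfl⟩
      · exact ⟨x, mem_adj.2 (Or.inr rfl), y, rfl⟩
    · intro z hz
      constructor
      · rcases mem_adj.1 hz with h | rfl
        · exact ⟨_, mem_adj.2 (Or.inl (hf.app_mem h))⟩
        · exact ⟨y, mem_adj.2 (Or.inr rfl)⟩
      · intro b b' hb hb'
        rcases mem_adj.1 hb with h | h <;> rcases mem_adj.1 hb' with h' | h'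
        · rw [(hf.mem_iff.1 h).2, (hf.mem_iff.1 h').2]
        · rw [op_inj] at h'
          exact (hx (h'.1 ▸ (hf.mem_iff.1 h).1)).elim
        · rw [op_inj] at h
          exact (hx (h.1 ▸ (hf.mem_iff.1 h').1)).elim
        · rw [op_inj] at h h'
          rw [h.2, h'.2]
  refine ⟨hfn, fun z hz => ?_, ?_⟩
  · exact ((hfn.mem_iff.1 (mem_adj.2 (Or.inl (hf.app_mem hz)))).2).symm
  · exact ((hfn.mem_iff.1 (mem_adj.2 (Or.inr rfl))).2).symm

/-- MODULE oc -/
private def oc_att (G : M → M) (a n s : M) : Prop :=
  Fn s (succ n) ∧ app s emp = a ∧ ∀ k, SetStr.mem k n → app s (succ k) = G (app s k)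

private theorem oc_pd {G : M → M} (hG : PF (fun v => G (v 0))) (a : M) :
    PD (fun v => oc_att G a (v 0) (v 1)) := by
  unfold oc_att
  (repeat' (with_reducible first | apply pd_Ind | apply pf_succ | apply pf_funs | apply pf_prod | apply pf_lam | apply pd_Fn | apply pf_app | apply pf_ran | apply pf_dom | apply PF.img | apply PF.pow | apply PD.sub | apply PF.adj | apply PF.un | apply PF.sUn | apply PF.op | apply PF.pr | apply PF.sep | exact PF.var _ | exact PF.const _ | apply PD.eq | apply PD.mem | apply PD.not | apply PD.iff | apply PD.or | apply PD.and | apply PD.imp | apply PD.ex | apply PD.all | exact PD.const _ | assumption | refine PF.comp1 (F := _) (by assumption) ?_ | refine PF.comp2 (F := _) (by assumption) ?_ ?_ | refine PF.comp3 (F := _) (by assumption) ?_ ?_ ?_ | refine PD.app1 (R := _) (by assumption) ?_ | refine PD.app2 (R := _) (by assumption) ?_ ?_ | refine PD.app3 (R := _) (by assumption) ?_ ?_ ?_ | refine PD.app4 (R := _) (by assumption) ?_ ?_ ?_ ?_))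

private theorem oc_unique {G : M → M} (a : M) {n s n' s' : M}
    (hs : oc_att G a n s) (hs' : oc_att G a n' s') (k : M) (hk : SetStr.mem k om)
    (hkn : SetStr.mem k (succ n)) (hkn' : SetStr.mem k (succ n')) (hn : SetStr.mem n om) (hn' : SetStr.mem n' om) :
    app s k = app s' k := by
  have key : ∀ k, SetStr.mem k om → SetStr.mem k (succ n) → SetStr.mem k (succ n') → app s k = app s' k := by
    refine om_ind (P := fun k => SetStr.mem k (succ n) → SetStr.mem k (succ n') → app s k = app s' k) (by (repeat' (with_reducible first | apply pd_Ind | apply pf_succ | apply pf_funs | apply pf_prod | apply pf_lam | apply pd_Fn | apply pf_app | apply pf_ran | apply pf_dom | apply PF.img | apply PF.pow | apply PD.sub | apply PF.adj | apply PF.un | apply PF.sUn | apply PF.op | apply PF.pr | apply PF.sep | exact PF.var _ | exact PF.const _ | apply PD.eq | apply PD.mem | apply PD.not | apply PD.iff | apply PD.or | apply PD.and | apply PD.imp | apply PD.ex | apply PD.all | exact PD.const _ | assumption | refine PF.comp1 (F := _) (by assumption)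 ?_ | refine PF.comp2 (F := _) (by assumption) ?_ ?_ | refine PF.comp3 (F := _) (by assumption) ?_ ?_ ?_ | refine PD.app1 (R := _) (by assumption) ?_ | refine PD.app2 (R := _) (by assumption) ?_ ?_ | refine PD.app3 (R := _) (by assumption) ?_ ?_ ?_ | refine PD.app4 (R := _) (by assumption) ?_ ?_ ?_ ?_))) ?_ ?_
    · intro _ _
      rw [hs.2.1, hs'.2.1]
    · intro k hk ih h h'
      have aux : ∀ m : M, SetStr.mem m om → SetStr.mem (succ k) (succ m) → SetStr.mem k m ∧ SetStr.mem k (succ m) := by
        intro m hm h
        have hkm : SetStr.mem k m := by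
          rcases mem_succ.1 h with h | h
          · exact om_elt_trans hm h (mem_succ.2 (Or.inr rfl))
          · rw [← h]
            exact mem_succ.2 (Or.inr rfl)
        exact ⟨hkm, mem_succ.2 (Or.inl hkm)⟩
      obtain ⟨h1, h2⟩ := aux n hn h
      obtain ⟨h3, h4⟩ := aux n' hn' h'
      rw [hs.2.2 k h1, hs'.2.2 k h3, ih h2 h4]
  exact key k hk hkn hkn'

private theorem oc_ex {G : M → M} (hG : PF (fun v => G (v 0))) (a : M) :
    ∀ n, SetStr.mem n om → ∃ s, oc_att G a n s := by
  refine om_ind (P := fun n => ∃ s, oc_att G a n s) ?_ ?_ ?_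
  · refine PD.ex (P := fun s v => oc_att G a (v 0) s) ?_
    exact PD.app2 (oc_pd hG a) (PF.var 1) (PF.var 0)
  · refine ⟨lam (fun _ => a) (succ emp), lam_Fn (by (repeat' (with_reducible first | apply pd_Ind | apply pf_succ | apply pf_funs | apply pf_prod | apply pf_lam | apply pd_Fn | apply pf_app | apply pf_ran | apply pf_dom | apply PF.img | apply PF.pow | apply PD.sub | apply PF.adj | apply PF.un | apply PF.sUn | apply PF.op | apply PF.pr | apply PF.sep | exact PF.var _ | exact PF.const _ | apply PD.eq | apply PD.mem | apply PD.not | apply PD.iff | apply PD.or | apply PD.and | apply PD.imp | apply PD.ex | apply PD.all | exact PD.const _ | assumption | refine PF.comp1 (F := _) (by assumption) ?_ | refine PF.comp2 (F := _) (by assumption) ?_ ?_ | refine PF.comp3 (F := _) (by assumption) ?_ ?_ ?_ | refine PD.app1 (R := _) (by assumption) ?_ | refine PD.app2 (R := _) (by assumption) ?_ ?_ | refine PD.app3 (R := _) (by assumption) ?_ ?_ ?_ | refine PD.app4 (R := _) (by assumption) ?_ ?_ ?_ ?_))) _, ?_, ?_⟩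
    · exact app_lam (F := fun _ => a) (by (repeat' (with_reducible first | apply pd_Ind | apply pf_succ | apply pf_funs | apply pf_prod | apply pf_lam | apply pd_Fn | apply pf_app | apply pf_ran | apply pf_dom | apply PF.img | apply PF.pow | apply PD.sub | apply PF.adj | apply PF.un | apply PF.sUn | apply PF.op | apply PF.pr | apply PF.sep | exact PF.var _ | exact PF.const _ | apply PD.eq | apply PD.mem | apply PD.not | apply PD.iff | apply PD.or | apply PD.and | apply PD.imp | apply PD.ex | apply PD.all | exact PD.const _ | assumption | refine PF.comp1 (F := _) (by assumption) ?_ | refine PF.comp2 (F := _) (by assumption) ?_ ?_ | refine PF.comp3 (F := _) (by assumption) ?_ ?_ ?_ | refine PD.app1 (R := _) (by assumption) ?_ | refine PD.app2 (R := _) (by assumption) ?_ ?_ | refine PD.app3 (R := _) (by assumption) ?_ ?_ ?_ | refine PD.app4 (R := _) (by assumption) ?_ ?_ ?_ ?_))) (mem_succ.2 (Or.inr rfl))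
    · intro k hk
      exact (not_mem_emp k hk).elim
  · rintro n hn ⟨s, hs⟩
    have hnot : ¬ SetStr.mem (succ n) (succ n) := not_mem_self _
    obtain ⟨h1, h2, h3⟩ := oc_adj (y := G (app s n)) hs.1 hnot
    refine ⟨adj s (op (succ n) (G (app s n))), h1, ?_, ?_⟩
    · rw [h2]
      · exact hs.2.1
      · rcases om_cases hn with rfl | ⟨m, hm, rfl⟩
        · exact mem_succ.2 (Or.inr rfl)
        · exact om_ind (P := fun m => SetStr.mem emp (succ m)) (by (repeat' (with_reducible first | apply pd_Ind | apply pf_succ | apply pf_funs | apply pf_prod | apply pf_lam | apply pd_Fn | apply pf_app | apply pf_ran | apply pf_dom | apply PF.img | apply PF.pow | apply PD.sub | apply PF.adj | apply PF.un | apply PF.sUn | apply PF.op | apply PF.pr | apply PF.sep | exact PF.var _ | exact PF.const _ | apply PD.eq | apply PD.mem | apply PD.not | apply PD.iff | apply PD.or | apply PD.and | apply PD.imp | apply PD.ex | apply PD.all | exact PD.const _ | assumption | refine PF.comp1 (F := _) (by assumption) ?_ | refine PF.comp2 (F := _) (by assumption) ?_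 ?_ | refine PF.comp3 (F := _) (by assumption) ?_ ?_ ?_ | refine PD.app1 (R := _) (by assumption) ?_ | refine PD.app2 (R := _) (by assumption) ?_ ?_ | refine PD.app3 (R := _) (by assumption) ?_ ?_ ?_ | refine PD.app4 (R := _) (by assumption) ?_ ?_ ?_ ?_))) (mem_succ.2 (Or.inr rfl))
            (fun m _ h => mem_succ.2 (Or.inl h)) _ hn
    · intro k hk
      rcases mem_succ.1 hk with hk | rfl
      · rw [h2 (succ k) (succ_mem_succ hn hk), h2 k (mem_succ.2 (Or.inl hk)), hs.2.2 k hk]
      · rw [h3, h2 k (mem_succ.2 (Or.inr rfl))]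

/-- MODULE oc.  Recursion on omega: `F 0 = a`, `F (n+1) = G (F n)`.  (Take `F n := y` iff there is a
function `s` with domain `succ n`, `s 0 = a`, `s (succ k) = G (s k)` for `k ∈ n`, `s n = y`.) -/
theorem om_rec {G : M → M} (hG : PF (fun v => G (v 0))) (a : M) :
    ∃ F : M → M, PF (fun v => F (v 0)) ∧ F emp = a ∧ ∀ n, SetStr.mem n om → F (succ n) = G (F n) := by
  classical
  choose s hs using oc_ex hG a
  have hself : ∀ n : M, SetStr.mem n (succ n) := fun n => mem_succ.2 (Or.inr rfl)
  let F : M → M := fun n => if h : SetStr.mem n om then app (s n h) n else emp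
  have hFval : ∀ n (h : SetStr.mem n om), F n = app (s n h) n := fun n h => dif_pos h
  refine ⟨F, ?_, ?_, ?_⟩
  · refine PF.of_unique (R := fun z v => (SetStr.mem (v 0) om ∧ ∃ t, oc_att G a (v 0) t ∧ z = app t (v 0)) ∨
      (¬ SetStr.mem (v 0) om ∧ z = emp)) ?_ ?_
    · intro v z
      by_cases h : SetStr.mem (v 0) om
      · rw [hFval _ h]
        constructor
        · rintro rfl
          exact Or.inl ⟨h, _, hs _ h, rfl⟩
        · rintro (⟨_, t, ht, rfl⟩ | ⟨h', _⟩)
          · exact oc_unique a ht (hs _ h) _ h (hself _) (hself _) h h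
          · exact (h' h).elim
      · have : F (v 0) = emp := dif_neg h
        rw [this]
        constructor
        · rintro rfl
          exact Or.inr ⟨h, rfl⟩
        · rintro (⟨h', _⟩ | ⟨_, rfl⟩)
          · exact (h h').elim
          · rfl
    · refine PD.or (PD.and (by (repeat' (with_reducible first | apply pd_Ind | apply pf_succ | apply pf_funs | apply pf_prod | apply pf_lam | apply pd_Fn | apply pf_app | apply pf_ran | apply pf_dom | apply PF.img | apply PF.pow | apply PD.sub | apply PF.adj | apply PF.un | apply PF.sUn | apply PF.op | apply PF.pr | apply PF.sep | exact PF.var _ | exact PF.const _ | apply PD.eq | apply PD.mem | apply PD.not | apply PD.iff | apply PD.or | apply PD.and | apply PD.imp | apply PD.ex | apply PD.all | exact PD.const _ | assumption | refine PF.comp1 (F := _) (by assumption) ?_ | refine PF.comp2 (F := _) (by assumption) ?_ ?_ | refine PF.comp3 (F := _) (by assumption) ?_ ?_ ?_ | refine PD.app1 (R := _) (by assumption) ?_ | refine PD.app2 (R := _) (by assumption) ?_ ?_ | refine PD.app3 (R := _) (by assumption)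 ?_ ?_ ?_ | refine PD.app4 (R := _) (by assumption) ?_ ?_ ?_ ?_))) ?_) (by (repeat' (with_reducible first | apply pd_Ind | apply pf_succ | apply pf_funs | apply pf_prod | apply pf_lam | apply pd_Fn | apply pf_app | apply pf_ran | apply pf_dom | apply PF.img | apply PF.pow | apply PD.sub | apply PF.adj | apply PF.un | apply PF.sUn | apply PF.op | apply PF.pr | apply PF.sep | exact PF.var _ | exact PF.const _ | apply PD.eq | apply PD.mem | apply PD.not | apply PD.iff | apply PD.or | apply PD.and | apply PD.imp | apply PD.ex | apply PD.all | exact PD.const _ | assumption | refine PF.comp1 (F := _) (by assumption) ?_ | refine PF.comp2 (F := _) (by assumption) ?_ ?_ | refine PF.comp3 (F := _) (by assumption) ?_ ?_ ?_ | refine PD.app1 (R := _) (by assumption) ?_ | refine PD.app2 (R := _) (by assumption) ?_ ?_ | refine PD.app3 (R := _) (by assumption) ?_ ?_ ?_ | refine PD.app4 (R := _) (by assumption) ?_ ?_ ?_ ?_)))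
      refine PD.ex (P := fun t v => oc_att G a (v 1) t ∧ v 0 = app t (v 1)) ?_
      refine PD.and ?_ (by (repeat' (with_reducible first | apply pd_Ind | apply pf_succ | apply pf_funs | apply pf_prod | apply pf_lam | apply pd_Fn | apply pf_app | apply pf_ran | apply pf_dom | apply PF.img | apply PF.pow | apply PD.sub | apply PF.adj | apply PF.un | apply PF.sUn | apply PF.op | apply PF.pr | apply PF.sep | exact PF.var _ | exact PF.const _ | apply PD.eq | apply PD.mem | apply PD.not | apply PD.iff | apply PD.or | apply PD.and | apply PD.imp | apply PD.ex | apply PD.all | exact PD.const _ | assumption | refine PF.comp1 (F := _) (by assumption) ?_ | refine PF.comp2 (F := _) (by assumption) ?_ ?_ | refine PF.comp3 (F := _) (by assumption) ?_ ?_ ?_ | refine PD.app1 (R := _) (by assumption) ?_ | refine PD.app2 (R := _) (by assumption) ?_ ?_ | refine PD.app3 (R := _) (by assumption) ?_ ?_ ?_ | refine PD.app4 (R := _) (by assumption) ?_ ?_ ?_ ?_)))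
      exact PD.app2 (oc_pd hG a) (PF.var 2) (PF.var 0)
  · rw [hFval _ emp_mem_om]
    exact (hs _ _).2.1
  · intro n hn
    rw [hFval _ (succ_mem_om hn), hFval _ hn, (hs _ (succ_mem_om hn)).2.2 n (hself n)]
    rw [oc_unique a (hs _ (succ_mem_om hn)) (hs _ hn) n hn (mem_succ.2 (Or.inl (hself n)))
      (hself n) (succ_mem_om hn) hn]

/-- `x` is transitive. -/
def Tr (x : M) : Prop := ∀ y, SetStr.mem y x → GA.sub y x

omit [IsZF M] in
theorem pd_Tr {f : (ℕ → M) → M} (hf : PF f) : PD (fun v => Tr (f v)) :=
  PD.app1 (R := fun x => Tr x) (by unfold Tr; unfold sub; (repeat' (with_reducible first | apply pd_Ind | apply pf_succ | apply pf_funs | apply pf_prod | apply pf_lam | apply pd_Fn | apply pf_app | apply pf_ran | apply pf_dom | apply PF.img | apply PF.pow | apply PD.sub | apply PF.adj | apply PF.un | apply PF.sUn | apply PF.op | apply PF.pr | apply PF.sep | exact PF.var _ | exact PF.const _ | apply PD.eq | apply PD.mem | apply PD.not | apply PD.iff | apply PD.or | apply PD.and | apply PD.imp | apply PD.ex | apply PD.all | exact PD.const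 _ | assumption | refine PF.comp1 (F := _) (by assumption) ?_ | refine PF.comp2 (F := _) (by assumption) ?_ ?_ | refine PF.comp3 (F := _) (by assumption) ?_ ?_ ?_ | refine PD.app1 (R := _) (by assumption) ?_ | refine PD.app2 (R := _) (by assumption) ?_ ?_ | refine PD.app3 (R := _) (by assumption) ?_ ?_ ?_ | refine PD.app4 (R := _) (by assumption) ?_ ?_ ?_ ?_))) hf


/-- MODULE od.  Every set is contained in a transitive set (`om_rec` with `G = sUn`). -/
theorem exists_tr (x : M) : ∃ t, Tr t ∧ GA.sub x t := by
  obtain ⟨F, hF, h0, hs⟩ := om_rec (G := fun y : M => sUn y) (by (repeat' (with_reducible first | apply pd_Tr | apply pd_Ind | apply pf_succ | apply pf_funs | apply pf_prod | apply pf_lam | apply pd_Fn | apply pf_app | apply pf_ran | apply pf_dom | apply PF.img | apply PF.pow | apply PD.sub | apply PF.adj | apply PF.un | apply PF.sUn | apply PF.op | apply PF.pr | apply PF.sep | exact PF.var _ | exact PF.const _ | apply PD.eq | apply PD.mem | apply PD.not | apply PD.iff | apply PD.or | apply PD.and | apply PD.imp | apply PD.ex | apply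 PD.all | exact PD.const _ | assumption | refine PF.comp1 (F := _) (by assumption) ?_ | refine PF.comp2 (F := _) (by assumption) ?_ ?_ | refine PF.comp3 (F := _) (by assumption) ?_ ?_ ?_ | refine PD.app1 (R := _) (by assumption) ?_ | refine PD.app2 (R := _) (by assumption) ?_ ?_ | refine PD.app3 (R := _) (by assumption) ?_ ?_ ?_ | refine PD.app4 (R := _) (by assumption) ?_ ?_ ?_ ?_))) x
  refine ⟨sUn (img F om), ?_, ?_⟩
  · intro y hy z hz
    rw [mem_sUn] at hy ⊢
    obtain ⟨w, hw, hyw⟩ := hy
    obtain ⟨n, hn, rfl⟩ := (mem_img hF).1 hw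
    refine ⟨F (succ n), (mem_img hF).2 ⟨succ n, succ_mem_om hn, rfl⟩, ?_⟩
    rw [hs n hn, mem_sUn]
    exact ⟨y, hyw, hz⟩
  · intro z hz
    rw [mem_sUn]
    exact ⟨F emp, (mem_img hF).2 ⟨emp, emp_mem_om, rfl⟩, by rw [h0]; exact hz⟩

/-- MODULE od.  Epsilon-induction for definable predicates. -/
theorem mem_ind {P : M → Prop} (hP : PD (fun v => P (v 0)))
    (h : ∀ x, (∀ y, SetStr.mem y x → P y) → P x) : ∀ x, P x := by
  intro x
  by_contra hx
  obtain ⟨t, ht, hxt⟩ := exists_tr (pr x x)
  have hn : PD (fun v : ℕ → M => ¬ P (v 0)) := hP.not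
  obtain ⟨y, hy, hmin⟩ := IsZF.foundation (sep t (fun z => ¬ P z))
    ⟨x, (mem_sep hn).2 ⟨hxt x (mem_pr.2 (Or.inl rfl)), hx⟩⟩
  rw [mem_sep hn] at hy
  refine hy.2 (h y fun z hz => ?_)
  by_contra hz'
  exact hmin z hz ((mem_sep hn).2 ⟨ht y hy.1 z hz, hz'⟩)

end GA
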