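import Pool.Agent.GA.Card

/-!
# End extensions of models of ZF with the same ordinals: absoluteness
-/

universe u w

namespace GA

/-- `j : M → N` is the inclusion of `M` in `N` as a transitive class containing all ordinals. -/
structure EndExt {M : Type u} {N : Type w} [SetStr M] [SetStr N] (j : M → N) : Prop where
  mem_iff : ∀ x y : M, SetStr.mem (j x) (j y) ↔ SetStr.mem x y
  tr : ∀ (x : M) (z : N), SetStr.mem z (j x) → ∃ y, SetStr.mem y x ∧ z = j y
  ord : ∀ z : N, Ord z → ∃ x : M, z = j x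

variable {M : Type u} {N : Type w} [SetStr M] [SetStr N] {j : M → N}

namespace EndExt

theorem forall_mem (h : EndExt j) {P : N → Prop} {x : M} :
    (∀ z, SetStr.mem z (j x) → P z) ↔ ∀ y, SetStr.mem y x → P (j y) := by
  constructor
  · intro h1 y hy
    exact h1 _ ((h.mem_iff y x).2 hy)
  · intro h1 z hz
    obtain ⟨y, hy, rfl⟩ := h.tr x z hz
    exact h1 y hy

theorem exists_mem (h : EndExt j) {P : N → Prop} {x : M} :
    (∃ z, SetStr.mem z (j x) ∧ P z) ↔ ∃ y, SetStr.mem y x ∧ P (j y) := by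
  constructor
  · rintro ⟨z, hz, h1⟩
    obtain ⟨y, hy, rfl⟩ := h.tr x z hz
    exact ⟨y, hy, h1⟩
  · rintro ⟨y, hy, h1⟩
    exact ⟨_, (h.mem_iff y x).2 hy, h1⟩

theorem ord_iff (h : EndExt j) {x : M} : Ord (j x) ↔ Ord x := by
  unfold Ord
  simp only [h.forall_mem, h.mem_iff]

variable [IsZF M] [IsZF N]

omit [IsZF M] [IsZF N] in
theorem sub_iff (h : EndExt j) {x y : M} : GA.sub (j x) (j y) ↔ GA.sub x y := by
  unfold sub
  rw [h.forall_mem]
  simp only [h.mem_iff]

omit [IsZF N] in
theorem inj (h : EndExt j) {x y : M} (hxy : j x = j y) : x = y := by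
  refine ext (fun z => ?_)
  rw [← h.mem_iff z x, ← h.mem_iff z y, hxy]

omit [IsZF N] in
theorem eq_iff (h : EndExt j) {x y : M} : j x = j y ↔ x = y :=
  ⟨h.inj, fun e => by rw [e]⟩

omit [IsZF M] in
/-- To compute `j x` it is enough to know its elements. -/
theorem eq_of (h : EndExt j) {x : M} {z : N} (h1 : ∀ y, SetStr.mem y x → SetStr.mem (j y) z)
    (h2 : ∀ u, SetStr.mem u z → ∃ y, SetStr.mem y x ∧ u = j y) : j x = z := by
  refine ext (fun u => ?_)
  constructor
  · intro hu
    obtain ⟨y, hy, rfl⟩ := h.tr x u hu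
    exact h1 y hy
  · intro hu
    obtain ⟨y, hy, rfl⟩ := h2 u hu
    exact (h.mem_iff y x).2 hy

theorem emp (h : EndExt j) : j emp = emp := by
  refine h.eq_of (fun y hy => (not_mem_emp y hy).elim) (fun u hu => (not_mem_emp u hu).elim)

theorem pr (h : EndExt j) (x y : M) : j (pr x y) = pr (j x) (j y) := by
  refine h.eq_of (fun z hz => ?_) (fun u hu => ?_)
  · rw [mem_pr] at hz ⊢
    rcases hz with rfl | rfl
    · exact Or.inl rfl
    · exact Or.inr rfl
  · rw [mem_pr] at hu
    rcases hu with rfl | rfl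
    · exact ⟨x, by simp, rfl⟩
    · exact ⟨y, by simp, rfl⟩

theorem op (h : EndExt j) (x y : M) : j (op x y) = op (j x) (j y) := by
  unfold GA.op
  rw [h.pr, h.pr, h.pr]

theorem sUn (h : EndExt j) (x : M) : j (sUn x) = sUn (j x) := by
  refine h.eq_of (fun z hz => ?_) (fun u hu => ?_)
  · rw [mem_sUn] at hz ⊢
    obtain ⟨y, hy, hz⟩ := hz
    exact ⟨j y, (h.mem_iff _ _).2 hy, (h.mem_iff _ _).2 hz⟩
  · rw [mem_sUn] at hu
    obtain ⟨y', hy', hu⟩ := hu
    obtain ⟨y, hy, rfl⟩ := h.tr x y' hy'
    obtain ⟨z, hz, rfl⟩ := h.tr y u hu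
    exact ⟨z, by rw [mem_sUn]; exact ⟨y, hy, hz⟩, rfl⟩

theorem un (h : EndExt j) (x y : M) : j (un x y) = un (j x) (j y) := by
  unfold GA.un
  rw [h.sUn, h.pr]

theorem adj (h : EndExt j) (x y : M) : j (adj x y) = adj (j x) (j y) := by
  unfold GA.adj
  rw [h.un, h.pr]

theorem succ (h : EndExt j) (x : M) : j (succ x) = succ (j x) := h.adj x x

theorem op_mem_iff (h : EndExt j) {x y f : M} : SetStr.mem (GA.op (j x) (j y)) (j f) ↔ SetStr.mem (GA.op x y) f := by
  rw [← h.op, h.mem_iff]

/-- If a pair is in `j f` then its components come from `M`. -/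
theorem of_op_mem (h : EndExt j) {f : M} {x y : N} (hxy : SetStr.mem (GA.op x y) (j f)) :
    ∃ a b, x = j a ∧ y = j b ∧ SetStr.mem (GA.op a b) f := by
  obtain ⟨p, hp, hp'⟩ := h.tr f _ hxy
  have h1 : SetStr.mem (GA.pr x x) (j p) := by
    rw [← hp']
    simp [GA.op]
  have h2 : SetStr.mem (GA.pr x y) (j p) := by
    rw [← hp']
    simp [GA.op]
  obtain ⟨q, hq, hq'⟩ := h.tr p _ h1
  obtain ⟨r, hr, hr'⟩ := h.tr p _ h2
  have h3 : SetStr.mem x (j q) := by
    rw [← hq']
    simp
  have h4 : SetStr.mem y (j r) := by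
    rw [← hr']
    simp
  obtain ⟨a, ha, rfl⟩ := h.tr q _ h3
  obtain ⟨b, hb, rfl⟩ := h.tr r _ h4
  exact ⟨a, b, rfl, rfl, h.op_mem_iff.1 hxy⟩

theorem dom (h : EndExt j) (f : M) : j (dom f) = dom (j f) := by
  refine h.eq_of (fun z hz => ?_) (fun u hu => ?_)
  · rw [mem_dom] at hz ⊢
    obtain ⟨y, hy⟩ := hz
    exact ⟨j y, h.op_mem_iff.2 hy⟩
  · rw [mem_dom] at hu
    obtain ⟨y, hy⟩ := hu
    obtain ⟨a, b, rfl, rfl, hab⟩ := h.of_op_mem hy
    exact ⟨a, mem_dom.2 ⟨b, hab⟩, rfl⟩

theorem ran (h : EndExt j) (f : M) : j (ran f) = ran (j f) := by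
  refine h.eq_of (fun z hz => ?_) (fun u hu => ?_)
  · rw [mem_ran] at hz ⊢
    obtain ⟨y, hy⟩ := hz
    exact ⟨j y, h.op_mem_iff.2 hy⟩
  · rw [mem_ran] at hu
    obtain ⟨y, hy⟩ := hu
    obtain ⟨a, b, rfl, rfl, hab⟩ := h.of_op_mem hy
    exact ⟨b, mem_ran.2 ⟨a, hab⟩, rfl⟩

theorem app (h : EndExt j) (f x : M) : j (app f x) = app (j f) (j x) := by
  refine h.eq_of (fun z hz => ?_) (fun u hu => ?_)
  · rw [mem_app] at hz ⊢
    obtain ⟨y, hy, hz⟩ := hz
    exact ⟨j y, h.op_mem_iff.2 hy, (h.mem_iff _ _).2 hz⟩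
  · rw [mem_app] at hu
    obtain ⟨y, hy, hu⟩ := hu
    obtain ⟨a, b, ha, rfl, hab⟩ := h.of_op_mem hy
    obtain ⟨z, hz, rfl⟩ := h.tr b u hu
    have := h.inj ha
    subst this
    exact ⟨z, mem_app.2 ⟨b, hab, hz⟩, rfl⟩

theorem fn_iff (h : EndExt j) {f a : M} : Fn (j f) (j a) ↔ Fn f a := by
  unfold Fn
  constructor
  · rintro ⟨h1, h2⟩
    constructor
    · intro z hz
      obtain ⟨x, hx, y, hxy⟩ := h1 (j z) ((h.mem_iff _ _).2 hz)
      have : SetStr.mem (GA.op x y) (j f) := by
        rw [← hxy]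
        exact (h.mem_iff _ _).2 hz
      obtain ⟨a', b', rfl, rfl, _⟩ := h.of_op_mem this
      refine ⟨a', (h.mem_iff _ _).1 hx, b', ?_⟩
      rw [← h.op] at hxy
      exact h.inj hxy
    · intro x hx
      obtain ⟨⟨y, hy⟩, h3⟩ := h2 (j x) ((h.mem_iff _ _).2 hx)
      obtain ⟨a', b', ha', rfl, hab⟩ := h.of_op_mem hy
      have := h.inj ha'
      subst this
      refine ⟨⟨b', hab⟩, fun y y' hy hy' => ?_⟩
      exact h.inj (h3 (j y) (j y') (h.op_mem_iff.2 hy) (h.op_mem_iff.2 hy'))
  · rintro ⟨h1, h2⟩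
    constructor
    · intro z hz
      obtain ⟨z', hz', rfl⟩ := h.tr f z hz
      obtain ⟨x, hx, y, rfl⟩ := h1 z' hz'
      exact ⟨j x, (h.mem_iff _ _).2 hx, j y, h.op x y⟩
    · intro x hx
      obtain ⟨x1, hx1, rfl⟩ := h.tr a x hx
      obtain ⟨⟨y, hy⟩, h3⟩ := h2 x1 hx1
      refine ⟨⟨j y, h.op_mem_iff.2 hy⟩, fun y y' hy hy' => ?_⟩
      obtain ⟨a1, b1, ha1, rfl, hab1⟩ := h.of_op_mem hy
      obtain ⟨a2, b2, ha2, rfl, hab2⟩ := h.of_op_mem hy'
      have e1 := h.inj ha1
      have e2 := h.inj ha2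
      subst e1
      subst e2
      rw [h3 b1 b2 hab1 hab2]

theorem funs_iff (h : EndExt j) {f a b : M} : SetStr.mem (j f) (funs (j a) (j b)) ↔ SetStr.mem f (funs a b) := by
  rw [mem_funs, mem_funs, h.fn_iff, h.forall_mem]
  simp only [← h.app, h.mem_iff]

theorem ind_iff (h : EndExt j) {x : M} : Ind (j x) ↔ Ind x := by
  unfold Ind
  rw [← h.emp, h.mem_iff, h.forall_mem]
  simp only [← h.succ, h.mem_iff]

theorem om (h : EndExt j) : j om = om := by
  have h1 : Ind (GA.om : M) := ⟨emp_mem_om, fun y hy => succ_mem_om hy⟩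
  have h2 : Ind (j (GA.om : M)) := h.ind_iff.2 h1
  refine ext (fun z => ?_)
  constructor
  · intro hz
    obtain ⟨n, hn, rfl⟩ := h.tr _ z hz
    -- induction in `N` on the elements of `om`, transported
    have key : ∀ n, SetStr.mem n (GA.om : M) → SetStr.mem (j n) (GA.om : N) := by
      by_contra hcon
      push Not at hcon
      obtain ⟨n0, hn0, hn1⟩ := hcon
      -- the set of bad elements in `N`
      let B : N := sep (j (GA.om : M)) (fun z => ¬ SetStr.mem z GA.om)
      have hB : ∀ z, SetStr.mem z B ↔ SetStr.mem z (j (GA.om : M)) ∧ ¬ SetStr.mem z GA.om := fun z => mem_sep (by (repeat' (with_reducible first | apply pf_hh | apply pd_Spr | apply pd_Inj | apply pf_har | apply pd_Le | apply pf_fins | apply pf_card | apply pd_Bij | apply pd_Fini | apply pd_Big | apply pd_Ord | apply pd_Tr | apply pd_Ind | apply pf_succ | apply pf_funs | apply pf_prod | apply pf_lam | apply pd_Fn | apply pf_app | apply pf_ran | apply pf_dom | apply PF.img | apply PF.pow | apply PD.sub | apply PF.adj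 | apply PF.un | apply PF.sUn | apply PF.op | apply PF.pr | apply PF.sep | exact PF.var _ | exact PF.const _ | apply PD.eq | apply PD.mem | apply PD.not | apply PD.iff | apply PD.or | apply PD.and | apply PD.imp | apply PD.ex | apply PD.all | exact PD.const _ | assumption | refine PF.comp1 (F := _) (by assumption) ?_ | refine PF.comp2 (F := _) (by assumption) ?_ ?_ | refine PF.comp3 (F := _) (by assumption) ?_ ?_ ?_ | refine PD.app1 (R := _) (by assumption) ?_ | refine PD.app2 (R := _) (by assumption) ?_ ?_ | refine PD.app3 (R := _) (by assumption) ?_ ?_ ?_ | refine PD.app4 (R := _) (by assumption) ?_ ?_ ?_ ?_)))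
      obtain ⟨y, hy, hmin⟩ := IsZF.foundation B ⟨j n0, (hB _).2 ⟨(h.mem_iff _ _).2 hn0, hn1⟩⟩
      rw [hB] at hy
      obtain ⟨y0, hy0, rfl⟩ := h.tr _ _ hy.1
      rcases om_cases hy0 with rfl | ⟨m, hm, rfl⟩
      · apply hy.2
        rw [h.emp]
        exact emp_mem_om
      · apply hy.2
        rw [h.succ]
        apply succ_mem_om
        by_contra hm'
        refine hmin (j m) ?_ ((hB _).2 ⟨(h.mem_iff _ _).2 hm, hm'⟩)
        rw [h.mem_iff]
        simp
    exact key n hn
  · intro hz
    exact mem_om.1 hz _ h2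

theorem big_iff (h : EndExt j) {x : M} : Big (j x) ↔ Big x := by
  unfold Big
  rw [h.ord_iff, ← h.om, h.sub_iff]

/-- A function from `om` to `l` in `M` is one in `N`. -/
theorem funs_om_iff (h : EndExt j) {f b : M} : SetStr.mem (j f) (funs (GA.om : N) (j b)) ↔ SetStr.mem f (funs GA.om b) := by
  rw [← h.om, h.funs_iff]

end EndExt

/-! ## The transfer theorem -/

/-- The covering property for single functions into ordinals. -/
def Cov1 (j : M → N) [IsZF M] [IsZF N] : Prop :=
  ∀ (X l : M) (f : N), Big l → SetStr.mem f (funs (j X) (j l)) →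
    ∃ E : M, Fn E X ∧ (∀ x, SetStr.mem x X → SetStr.mem (app E x) (funs om l)) ∧
      ∀ x, SetStr.mem x X → SetStr.mem (app f (j x)) (ran (j (app E x)))

/-- The covering property for families of countable sequences of ordinals. -/
def Cov (j : M → N) [IsZF M] [IsZF N] : Prop :=
  ∀ (X l : M) (f : N), Big l → Fn f (j X) → (∀ x, SetStr.mem x X → SetStr.mem (app f (j x)) (funs om (j l))) →
    ∃ E : M, Fn E X ∧ (∀ x, SetStr.mem x X → SetStr.mem (app E x) (funs om l)) ∧
      ∀ x, SetStr.mem x X → GA.sub (ran (app f (j x))) (ran (j (app E x)))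

variable [IsZF M] [IsZF N]

omit [IsZF M] in
theorem Bij.bwd_fn {f a b : N} (h : Bij f a b) : ∃ g, Bij g b a ∧ (∀ x, SetStr.mem x a → app g (app f x) = x) ∧
    ∀ y, SetStr.mem y b → app f (app g y) = y := by
  have hS : ∀ y x, SetStr.mem x (sep a (fun x => app f x = y)) ↔ SetStr.mem x a ∧ app f x = y :=
    fun y x => mem_sep (by (repeat' (with_reducible first | apply pf_hh | apply pd_Spr | apply pd_Inj | apply pf_har | apply pd_Le | apply pf_fins | apply pf_card | apply pd_Bij | apply pd_Fini | apply pd_Big | apply pd_Ord | apply pd_Tr | apply pd_Ind | apply pf_succ | apply pf_funs | apply pf_prod | apply pf_lam | apply pd_Fn | apply pf_app | apply pf_ran | apply pf_dom | apply PF.img | apply PF.pow | apply PD.sub | apply PF.adj | apply PF.un | apply PF.sUn | apply PF.op | apply PF.pr | apply PF.sep | exact PF.var _ | exact PF.const _ | apply PD.eq | apply PD.mem | apply PD.not | apply PD.iff | apply PD.or | apply PD.and | apply PD.imp | apply PD.ex | apply PD.all | exact PD.const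 _ | assumption | refine PF.comp1 (F := _) (by assumption) ?_ | refine PF.comp2 (F := _) (by assumption) ?_ ?_ | refine PF.comp3 (F := _) (by assumption) ?_ ?_ ?_ | refine PD.app1 (R := _) (by assumption) ?_ | refine PD.app2 (R := _) (by assumption) ?_ ?_ | refine PD.app3 (R := _) (by assumption) ?_ ?_ ?_ | refine PD.app4 (R := _) (by assumption) ?_ ?_ ?_ ?_)))
  have key : ∀ x, SetStr.mem x a → GA.sUn (sep a (fun z => app f z = app f x)) = x := by
    intro x hx
    refine GA.ext (fun z => ?_)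
    rw [mem_sUn]
    constructor
    · rintro ⟨x', hx', hz⟩
      rw [hS] at hx'
      have := h.2.2.2 x' x hx'.1 hx hx'.2
      rw [← this]
      exact hz
    · intro hz
      exact ⟨x, (hS _ _).2 ⟨hx, rfl⟩, hz⟩
  let g : N := lam (fun y => GA.sUn (sep a (fun z => app f z = y))) b
  have hg : Fn g b := lam_Fn (by (repeat' (with_reducible first | apply pf_hh | apply pd_Spr | apply pd_Inj | apply pf_har | apply pd_Le | apply pf_fins | apply pf_card | apply pd_Bij | apply pd_Fini | apply pd_Big | apply pd_Ord | apply pd_Tr | apply pd_Ind | apply pf_succ | apply pf_funs | apply pf_prod | apply pf_lam | apply pd_Fn | apply pf_app | apply pf_ran | apply pf_dom | apply PF.img | apply PF.pow | apply PD.sub | apply PF.adj | apply PF.un | apply PF.sUn | apply PF.op | apply PF.pr | apply PF.sep | exact PF.var _ | exact PF.const _ | apply PD.eq | apply PD.mem | apply PD.not | apply PD.iff | apply PD.or | apply PD.and | apply PD.imp | apply PD.ex | apply PD.all | exact PD.const _ | assumption |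 refine PF.comp1 (F := _) (by assumption) ?_ | refine PF.comp2 (F := _) (by assumption) ?_ ?_ | refine PF.comp3 (F := _) (by assumption) ?_ ?_ ?_ | refine PD.app1 (R := _) (by assumption) ?_ | refine PD.app2 (R := _) (by assumption) ?_ ?_ | refine PD.app3 (R := _) (by assumption) ?_ ?_ ?_ | refine PD.app4 (R := _) (by assumption) ?_ ?_ ?_ ?_))) b
  have hgv : ∀ y, SetStr.mem y b → app g y = GA.sUn (sep a (fun z => app f z = y)) :=
    fun y hy => app_lam (F := fun y => GA.sUn (sep a (fun z => app f z = y))) (by (repeat' (with_reducible first | apply pf_hh | apply pd_Spr | apply pd_Inj | apply pf_har | apply pd_Le | apply pf_fins | apply pf_card | apply pd_Bij | apply pd_Fini | apply pd_Big | apply pd_Ord | apply pd_Tr | apply pd_Ind | apply pf_succ | apply pf_funs | apply pf_prod | apply pf_lam | apply pd_Fn | apply pf_app | apply pf_ran | apply pf_dom | apply PF.img | apply PF.pow | apply PD.sub | apply PF.adj | apply PF.un | apply PF.sUn | apply PF.op | apply PF.pr | apply PF.sep |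 exact PF.var _ | exact PF.const _ | apply PD.eq | apply PD.mem | apply PD.not | apply PD.iff | apply PD.or | apply PD.and | apply PD.imp | apply PD.ex | apply PD.all | exact PD.const _ | assumption | refine PF.comp1 (F := _) (by assumption) ?_ | refine PF.comp2 (F := _) (by assumption) ?_ ?_ | refine PF.comp3 (F := _) (by assumption) ?_ ?_ ?_ | refine PD.app1 (R := _) (by assumption) ?_ | refine PD.app2 (R := _) (by assumption) ?_ ?_ | refine PD.app3 (R := _) (by assumption) ?_ ?_ ?_ | refine PD.app4 (R := _) (by assumption) ?_ ?_ ?_ ?_))) hy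
  have h1 : ∀ x, SetStr.mem x a → app g (app f x) = x := by
    intro x hx
    rw [hgv _ (h.2.1 x hx)]
    exact key x hx
  have h2 : ∀ y, SetStr.mem y b → app f (app g y) = y := by
    intro y hy
    obtain ⟨x, hx, rfl⟩ := h.2.2.1 y hy
    rw [h1 x hx]
  refine ⟨g, ⟨hg, ?_, ?_, ?_⟩, h1, h2⟩
  · intro y hy
    obtain ⟨x, hx, rfl⟩ := h.2.2.1 y hy
    rw [h1 x hx]
    exact hx
  · intro x hx
    exact ⟨app f x, h.2.1 x hx, h1 x hx⟩
  · intro y y' hy hy' he
    rw [← h2 y hy, he, h2 y' hy']

/-- (F2): a sparse family in `N` gives an injection in `M`. -/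
theorem inj_of_spr (h : EndExt j) (hc : Cov j) {ν l : M} (hν : Ord ν) (hl : Big l)
    (hs : Spr (j ν) (j l)) : Inj ν l := by
  obtain ⟨f, hf1, hf2, hf3⟩ := hs
  obtain ⟨E, hE, hEv, hEr⟩ := hc ν l f hl hf1 (fun x hx => hf2 _ ((h.mem_iff _ _).2 hx))
  refine inj_of_fibres hν hl hE hEv (fun e g hg hge => ?_)
  by_contra hcon
  push Not at hcon
  have h0 : SetStr.mem (emp : M) l := hl.2 _ emp_mem_om
  have he : SetStr.mem e (funs om l) := by
    rw [← (hge _ h0).2]
    exact hEv _ (hge _ h0).1
  obtain ⟨x, hx, hx2⟩ := hf3 (j e) (j g) (h.funs_om_iff.2 he) (h.fn_iff.2 hg) (by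
    rw [h.forall_mem]
    intro x hx
    rw [← h.app, h.mem_iff]
    exact (hge x hx).1) (by
    intro x y hx hy
    obtain ⟨x, hx1, rfl⟩ := h.tr _ _ hx
    obtain ⟨y, hy1, rfl⟩ := h.tr _ _ hy
    rw [← h.app, ← h.app, h.mem_iff]
    exact hcon x y hx1 hy1)
  obtain ⟨x, hx1, rfl⟩ := h.tr _ _ hx
  apply hx2
  have := hEr (app g x) (hge x hx1).1
  rw [(hge x hx1).2, h.app] at this
  exact this

/-- (F3): an injective family in `M` is sparse in `N` if `l` is at least `hh om`. -/
theorem spr_of_inj (h : EndExt j) (hc : Cov j) {ν l : M} (hν : Ord ν) (hl : Big l)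
    (hη : GA.sub (hh om) l) (hi : Inj ν l) : Spr (j ν) (j l) := by
  obtain ⟨f, hf1, hf2, hf3⟩ := hi
  refine ⟨j f, h.fn_iff.2 hf1, ?_, ?_⟩
  · rw [h.forall_mem]
    intro x hx
    rw [← h.app, h.funs_om_iff]
    exact hf2 x hx
  intro e g he hg hgv hgi
  by_contra hcon
  push Not at hcon
  -- cover `e`
  have h1 : (GA.pr emp emp : M) = GA.pr emp emp := rfl
  let X : M := GA.pr emp emp
  obtain ⟨E, hE, hEv, hEr⟩ := hc X l (lam (fun _ => e) (j X)) hl (lam_Fn (by (repeat' (with_reducible first | apply pf_hh | apply pd_Spr | apply pd_Inj | apply pf_har | apply pd_Le | apply pf_fins | apply pf_card | apply pd_Bij | apply pd_Fini | apply pd_Big | apply pd_Ord | apply pd_Tr | apply pd_Ind | apply pf_succ | apply pf_funs | apply pf_prod | apply pf_lam | apply pd_Fn | apply pf_app | apply pf_ran | apply pf_dom | apply PF.img | apply PF.pow | apply PD.sub | apply PF.adj | apply PF.un | apply PF.sUn | apply PF.op | apply PF.pr | apply PF.sep | exact PF.var _ | exact PF.const _ | apply PD.eq |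 apply PD.mem | apply PD.not | apply PD.iff | apply PD.or | apply PD.and | apply PD.imp | apply PD.ex | apply PD.all | exact PD.const _ | assumption | refine PF.comp1 (F := _) (by assumption) ?_ | refine PF.comp2 (F := _) (by assumption) ?_ ?_ | refine PF.comp3 (F := _) (by assumption) ?_ ?_ ?_ | refine PD.app1 (R := _) (by assumption) ?_ | refine PD.app2 (R := _) (by assumption) ?_ ?_ | refine PD.app3 (R := _) (by assumption) ?_ ?_ ?_ | refine PD.app4 (R := _) (by assumption) ?_ ?_ ?_ ?_))) _) (by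
    intro x hx
    rw [app_lam (by (repeat' (with_reducible first | apply pf_hh | apply pd_Spr | apply pd_Inj | apply pf_har | apply pd_Le | apply pf_fins | apply pf_card | apply pd_Bij | apply pd_Fini | apply pd_Big | apply pd_Ord | apply pd_Tr | apply pd_Ind | apply pf_succ | apply pf_funs | apply pf_prod | apply pf_lam | apply pd_Fn | apply pf_app | apply pf_ran | apply pf_dom | apply PF.img | apply PF.pow | apply PD.sub | apply PF.adj | apply PF.un | apply PF.sUn | apply PF.op | apply PF.pr | apply PF.sep | exact PF.var _ | exact PF.const _ | apply PD.eq | apply PD.mem | apply PD.not | apply PD.iff | apply PD.or | apply PD.and | apply PD.imp | apply PD.ex | apply PD.all | exact PD.const _ | assumption | refine PF.comp1 (F := _) (by assumption) ?_ | refine PF.comp2 (F := _) (by assumption) ?_ ?_ | refine PF.comp3 (F := _) (by assumption) ?_ ?_ ?_ | refine PD.app1 (R := _) (by assumption) ?_ | refine PD.app2 (R := _) (by assumption) ?_ ?_ | refine PD.app3 (R := _) (by assumption) ?_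 ?_ ?_ | refine PD.app4 (R := _) (by assumption) ?_ ?_ ?_ ?_))) ((h.mem_iff _ _).2 hx)]
    exact he)
  have hX : SetStr.mem (emp : M) X := by simp [X]
  have hE0 := hEv emp hX
  have hr0 := hEr emp hX
  rw [app_lam (by (repeat' (with_reducible first | apply pf_hh | apply pd_Spr | apply pd_Inj | apply pf_har | apply pd_Le | apply pf_fins | apply pf_card | apply pd_Bij | apply pd_Fini | apply pd_Big | apply pd_Ord | apply pd_Tr | apply pd_Ind | apply pf_succ | apply pf_funs | apply pf_prod | apply pf_lam | apply pd_Fn | apply pf_app | apply pf_ran | apply pf_dom | apply PF.img | apply PF.pow | apply PD.sub | apply PF.adj | apply PF.un | apply PF.sUn | apply PF.op | apply PF.pr | apply PF.sep | exact PF.var _ | exact PF.const _ | apply PD.eq | apply PD.mem | apply PD.not | apply PD.iff | apply PD.or | apply PD.and | apply PD.imp | apply PD.ex | apply PD.all | exact PD.const _ | assumption | refine PF.comp1 (F := _) (by assumption) ?_ | refine PF.comp2 (F := _) (by assumption) ?_ ?_ | refine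 PF.comp3 (F := _) (by assumption) ?_ ?_ ?_ | refine PD.app1 (R := _) (by assumption) ?_ | refine PD.app2 (R := _) (by assumption) ?_ ?_ | refine PD.app3 (R := _) (by assumption) ?_ ?_ ?_ | refine PD.app4 (R := _) (by assumption) ?_ ?_ ?_ ?_))) ((h.mem_iff _ _).2 hX)] at hr0
  set E0 := app E emp with hE0d
  let J : M := sep ν (fun i => GA.sub (ran (app f i)) (ran E0))
  have hJ : ∀ i, SetStr.mem i J ↔ SetStr.mem i ν ∧ GA.sub (ran (app f i)) (ran E0) := fun i => mem_sep (by (repeat' (with_reducible first | apply pf_hh | apply pd_Spr | apply pd_Inj | apply pf_har | apply pd_Le | apply pf_fins | apply pf_card | apply pd_Bij | apply pd_Fini | apply pd_Big | apply pd_Ord | apply pd_Tr | apply pd_Ind | apply pf_succ | apply pf_funs | apply pf_prod | apply pf_lam | apply pd_Fn | apply pf_app | apply pf_ran | apply pf_dom | apply PF.img | apply PF.pow | apply PD.sub | apply PF.adj | apply PF.un | apply PF.sUn | apply PF.op | apply PF.pr | apply PF.sep | exact PF.var _ | exact PF.const _ | apply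 PD.eq | apply PD.mem | apply PD.not | apply PD.iff | apply PD.or | apply PD.and | apply PD.imp | apply PD.ex | apply PD.all | exact PD.const _ | assumption | refine PF.comp1 (F := _) (by assumption) ?_ | refine PF.comp2 (F := _) (by assumption) ?_ ?_ | refine PF.comp3 (F := _) (by assumption) ?_ ?_ ?_ | refine PD.app1 (R := _) (by assumption) ?_ | refine PD.app2 (R := _) (by assumption) ?_ ?_ | refine PD.app3 (R := _) (by assumption) ?_ ?_ ?_ | refine PD.app4 (R := _) (by assumption) ?_ ?_ ?_ ?_)))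
  have hJν : GA.sub J ν := fun i hi => ((hJ i).1 hi).1
  have hJle : Le J (funs om om) := le_of_covered hf1 hf2 hf3 hE0
  obtain ⟨δ, F, hδ, hF, hFi⟩ := exists_otp hν hJν
  have hδl : SetStr.mem δ l := by
    apply hη
    rw [mem_hh hδ]
    obtain ⟨G, hG, _, _⟩ := hF.bwd_fn
    exact Le.trans ⟨G, hG.1, hG.2.1, hG.2.2.2⟩ hJle
  -- `g` maps `j l` into `j J`
  have hgJ : ∀ x, SetStr.mem x (j l) → SetStr.mem (app g x) (j J) := by
    intro x hx
    obtain ⟨i, hi, hi'⟩ := h.tr _ _ (hgv x hx)
    rw [hi', h.mem_iff, hJ]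
    refine ⟨hi, ?_⟩
    have h2 := hcon x hx
    rw [hi', ← h.app] at h2
    intro z hz
    rw [← h.mem_iff] at hz
    rw [h.ran] at hz
    have h3 := hr0 _ (h2 _ hz)
    rw [← h.ran, h.mem_iff] at h3
    exact h3
  have hcomp : Fn (lam (fun x => app (j F) (app g x)) (j l)) (j l) := lam_Fn (by (repeat' (with_reducible first | apply pf_hh | apply pd_Spr | apply pd_Inj | apply pf_har | apply pd_Le | apply pf_fins | apply pf_card | apply pd_Bij | apply pd_Fini | apply pd_Big | apply pd_Ord | apply pd_Tr | apply pd_Ind | apply pf_succ | apply pf_funs | apply pf_prod | apply pf_lam | apply pd_Fn | apply pf_app | apply pf_ran | apply pf_dom | apply PF.img | apply PF.pow | apply PD.sub | apply PF.adj | apply PF.un | apply PF.sUn | apply PF.op | apply PF.pr | apply PF.sep | exact PF.var _ | exact PF.const _ | apply PD.eq | apply PD.mem | apply PD.not | apply PD.iff | apply PD.or | apply PD.and | apply PD.imp | apply PD.ex | apply PD.all | exact PD.const _ | assumption | refine PF.comp1 (F :=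 _) (by assumption) ?_ | refine PF.comp2 (F := _) (by assumption) ?_ ?_ | refine PF.comp3 (F := _) (by assumption) ?_ ?_ ?_ | refine PD.app1 (R := _) (by assumption) ?_ | refine PD.app2 (R := _) (by assumption) ?_ ?_ | refine PD.app3 (R := _) (by assumption) ?_ ?_ ?_ | refine PD.app4 (R := _) (by assumption) ?_ ?_ ?_ ?_))) _
  have hsub : GA.sub (j l) (j δ) := by
    refine incr_sub (h.ord_iff.2 hl.1) (h.ord_iff.2 hδ) hcomp ?_ ?_
    · intro x hx
      rw [app_lam (by (repeat' (with_reducible first | apply pf_hh | apply pd_Spr | apply pd_Inj | apply pf_har | apply pd_Le | apply pf_fins | apply pf_card | apply pd_Bij | apply pd_Fini | apply pd_Big | apply pd_Ord | apply pd_Tr | apply pd_Ind | apply pf_succ | apply pf_funs | apply pf_prod | apply pf_lam | apply pd_Fn | apply pf_app | apply pf_ran | apply pf_dom | apply PF.img | apply PF.pow | apply PD.sub | apply PF.adj | apply PF.un | apply PF.sUn | apply PF.op | apply PF.pr | apply PF.sep | exact PF.var _ | exact PF.const _ | apply PD.eq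 | apply PD.mem | apply PD.not | apply PD.iff | apply PD.or | apply PD.and | apply PD.imp | apply PD.ex | apply PD.all | exact PD.const _ | assumption | refine PF.comp1 (F := _) (by assumption) ?_ | refine PF.comp2 (F := _) (by assumption) ?_ ?_ | refine PF.comp3 (F := _) (by assumption) ?_ ?_ ?_ | refine PD.app1 (R := _) (by assumption) ?_ | refine PD.app2 (R := _) (by assumption) ?_ ?_ | refine PD.app3 (R := _) (by assumption) ?_ ?_ ?_ | refine PD.app4 (R := _) (by assumption) ?_ ?_ ?_ ?_))) hx]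
      obtain ⟨i, hi, hi'⟩ := h.tr _ _ (hgJ x hx)
      rw [hi', ← h.app, h.mem_iff]
      exact hF.2.1 i hi
    · intro x y hx hy
      have hy' : SetStr.mem y (j l) := (h.ord_iff.2 hl.1).trans hx hy
      rw [app_lam (by (repeat' (with_reducible first | apply pf_hh | apply pd_Spr | apply pd_Inj | apply pf_har | apply pd_Le | apply pf_fins | apply pf_card | apply pd_Bij | apply pd_Fini | apply pd_Big | apply pd_Ord | apply pd_Tr | apply pd_Ind | apply pf_succ | apply pf_funs | apply pf_prod | apply pf_lam | apply pd_Fn | apply pf_app | apply pf_ran | apply pf_dom | apply PF.img | apply PF.pow | apply PD.sub | apply PF.adj | apply PF.un | apply PF.sUn | apply PF.op | apply PF.pr | apply PF.sep | exact PF.var _ | exact PF.const _ | apply PD.eq | apply PD.mem | apply PD.not | apply PD.iff | apply PD.or | apply PD.and | apply PD.imp | apply PD.ex | apply PD.all | exact PD.const _ | assumption | refine PF.comp1 (F := _) (by assumption) ?_ | refine PF.comp2 (F := _) (by assumption) ?_ ?_ |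 refine PF.comp3 (F := _) (by assumption) ?_ ?_ ?_ | refine PD.app1 (R := _) (by assumption) ?_ | refine PD.app2 (R := _) (by assumption) ?_ ?_ | refine PD.app3 (R := _) (by assumption) ?_ ?_ ?_ | refine PD.app4 (R := _) (by assumption) ?_ ?_ ?_ ?_))) hx, app_lam (by (repeat' (with_reducible first | apply pf_hh | apply pd_Spr | apply pd_Inj | apply pf_har | apply pd_Le | apply pf_fins | apply pf_card | apply pd_Bij | apply pd_Fini | apply pd_Big | apply pd_Ord | apply pd_Tr | apply pd_Ind | apply pf_succ | apply pf_funs | apply pf_prod | apply pf_lam | apply pd_Fn | apply pf_app | apply pf_ran | apply pf_dom | apply PF.img | apply PF.pow | apply PD.sub | apply PF.adj | apply PF.un | apply PF.sUn | apply PF.op | apply PF.pr | apply PF.sep | exact PF.var _ | exact PF.const _ | apply PD.eq | apply PD.mem | apply PD.not | apply PD.iff | apply PD.or | apply PD.and | apply PD.imp | apply PD.ex | apply PD.all | exact PD.const _ | assumption | refine PF.comp1 (F := _) (by assumption) ?_ | refine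 PF.comp2 (F := _) (by assumption) ?_ ?_ | refine PF.comp3 (F := _) (by assumption) ?_ ?_ ?_ | refine PD.app1 (R := _) (by assumption) ?_ | refine PD.app2 (R := _) (by assumption) ?_ ?_ | refine PD.app3 (R := _) (by assumption) ?_ ?_ ?_ | refine PD.app4 (R := _) (by assumption) ?_ ?_ ?_ ?_))) hy']
      have h4 := hgi x y hx hy
      obtain ⟨i, hi, hi'⟩ := h.tr _ _ (hgJ x hx)
      obtain ⟨k, hk, hk'⟩ := h.tr _ _ (hgJ y hy')
      rw [hi', hk'] at h4 ⊢
      rw [← h.app, ← h.app, h.mem_iff]
      rw [h.mem_iff] at h4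
      exact hFi i k hi hk h4
  rw [h.sub_iff] at hsub
  exact not_mem_self δ (hsub δ hδl)

/-- The extension `N` of `M` behaves like an extension with `κ` many new reals. -/
structure Transfer (j : M → N) (κ : M) : Prop where
  ext : EndExt j
  cov : Cov j
  low : ∀ ν, Ord ν → Inj ν κ → Inj (j ν) om
  up : ∀ ν, Ord ν → Inj (j ν) om → Inj ν κ

/-- `χ` and `hh om` have the same sparse spectrum. -/
def SprEta (χ : M) : Prop := ∀ ν, Ord ν → (Spr ν χ ↔ Inj ν om)

theorem pd_SprEta {f : (ℕ → M) → M} (hf : PF f) : PD (fun v => SprEta (f v)) :=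
  PD.app1 (R := fun x => SprEta x) (by unfold SprEta; (repeat' (with_reducible first | apply pf_hh | apply pd_Spr | apply pd_Inj | apply pf_har | apply pd_Le | apply pf_fins | apply pf_card | apply pd_Bij | apply pd_Fini | apply pd_Big | apply pd_Ord | apply pd_Tr | apply pd_Ind | apply pf_succ | apply pf_funs | apply pf_prod | apply pf_lam | apply pd_Fn | apply pf_app | apply pf_ran | apply pf_dom | apply PF.img | apply PF.pow | apply PD.sub | apply PF.adj | apply PF.un | apply PF.sUn | apply PF.op | apply PF.pr | apply PF.sep | exact PF.var _ | exact PF.const _ | apply PD.eq | apply PD.mem | apply PD.not | apply PD.iff | apply PD.or | apply PD.and | apply PD.imp | apply PD.ex | apply PD.all | exact PD.const _ | assumption | refine PF.comp1 (F := _) (by assumption) ?_ | refine PF.comp2 (F := _) (by assumption) ?_ ?_ | refine PF.comp3 (F := _) (by assumption) ?_ ?_ ?_ | refine PD.app1 (R := _) (by assumption) ?_ | refine PD.app2 (R := _) (by assumption) ?_ ?_ | refine PD.app3 (R := _)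 (by assumption) ?_ ?_ ?_ | refine PD.app4 (R := _) (by assumption) ?_ ?_ ?_ ?_))) hf

/-- The sentence. -/
def Phi (M : Type u) [SetStr M] [IsZF M] : Prop :=
  ∀ χ : M, Big χ → SprEta χ → (∀ l, SetStr.mem l χ → Big l → ¬ SprEta l) →
    ∃ l, SetStr.mem l χ ∧ Big l ∧ ∀ ν, Ord ν → (Spr ν l ↔ SetStr.mem ν χ)

/-- `κ` is a left end point above `hh om`. -/
structure LeftEnd (κ : M) : Prop where
  big : Big κ
  eta : SetStr.mem (hh om) κ
  closed : ∀ l, Big l → SetStr.mem l κ → GA.sub (hh l) κ

theorem Transfer.sprEta {κ : M} (h : Transfer j κ) (hκ : LeftEnd κ) : SprEta (j κ) := by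
  intro ν hν
  obtain ⟨ν, rfl⟩ := h.ext.ord _ hν
  rw [h.ext.ord_iff] at hν
  constructor
  · intro hs
    exact h.low ν hν (inj_of_spr h.ext h.cov hν hκ.big hs)
  · intro hi
    refine spr_of_inj h.ext h.cov hν hκ.big (fun z hz => hκ.big.1.trans hκ.eta hz) (h.up ν hν hi)

theorem Transfer.not_sprEta {κ : M} (h : Transfer j κ) (hκ : LeftEnd κ) {l : N} (hl : SetStr.mem l (j κ))
    (hb : Big l) : ¬ SprEta l := by
  intro hs
  obtain ⟨l, hl1, rfl⟩ := h.ext.tr _ _ hl
  rw [h.ext.big_iff] at hb
  have h1 : Inj (j κ) (GA.om : N) := h.low κ hκ.big.1 Inj.self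
  have h2 := (hs (j κ) (h.ext.ord_iff.2 hκ.big.1)).2 h1
  have h3 := inj_of_spr h.ext h.cov hκ.big.1 hb h2
  rw [← mem_hh hκ.big.1] at h3
  exact not_mem_self _ (hκ.closed l hb hl1 _ h3)

theorem Transfer.unique {κ : M} (h : Transfer j κ) (hκ : LeftEnd κ) {χ : N} (hb : Big χ)
    (hs : SprEta χ) (hm : ∀ l, SetStr.mem l χ → Big l → ¬ SprEta l) : χ = j κ := by
  have hbκ : Big (j κ) := h.ext.big_iff.2 hκ.big
  rcases hb.1.tri hbκ.1 with h1 | h1 | h1
  · exact (h.not_sprEta hκ h1 hb hs).elim
  · exact h1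
  · exact (hm _ h1 hbκ (h.sprEta hκ)).elim

theorem Transfer.phi_iff {κ : M} (h : Transfer j κ) (hκ : LeftEnd κ) :
    Phi N ↔ ∃ l, SetStr.mem l κ ∧ Big l ∧ ∀ ν, Ord ν → (Spr (j ν) (j l) ↔ SetStr.mem ν κ) := by
  constructor
  · intro hP
    obtain ⟨l, hl, hb, hl2⟩ := hP (j κ) (h.ext.big_iff.2 hκ.big) (h.sprEta hκ)
      (fun l hl hb => h.not_sprEta hκ hl hb)
    obtain ⟨l, hl1, rfl⟩ := h.ext.tr _ _ hl
    refine ⟨l, hl1, h.ext.big_iff.1 hb, fun ν hν => ?_⟩
    rw [hl2 (j ν) (h.ext.ord_iff.2 hν), h.ext.mem_iff]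
  · rintro ⟨l, hl, hb, hl2⟩ χ hχ hs hm
    have := h.unique hκ hχ hs hm
    subst this
    refine ⟨j l, (h.ext.mem_iff _ _).2 hl, h.ext.big_iff.2 hb, fun ν hν => ?_⟩
    obtain ⟨ν, rfl⟩ := h.ext.ord _ hν
    rw [h.ext.mem_iff]
    exact hl2 ν (h.ext.ord_iff.1 hν)

/-- The first value: `hh (hh om)`. -/
theorem leftEnd_hh : LeftEnd (hh (hh (om : M))) := by
  have hb : Big (hh (om : M)) := Big.om.hh
  refine ⟨hb.hh, mem_hh_self hb.1, fun l hl hlk ν hν => ?_⟩
  have ho : Ord ν := hl.hh.1.mem hν
  rw [mem_hh ho] at hν ⊢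
  exact inj_of_mem_hh hb hlk hν

/-- Theorem B, first half. -/
theorem Transfer.phi {j : M → N} (h : Transfer j (hh (hh (om : M)))) : Phi N := by
  have hb : Big (hh (om : M)) := Big.om.hh
  rw [h.phi_iff leftEnd_hh]
  refine ⟨hh om, mem_hh_self hb.1, hb, fun ν hν => ?_⟩
  rw [mem_hh hν]
  exact ⟨fun hs => inj_of_spr h.ext h.cov hν hb hs,
    fun hi => spr_of_inj h.ext h.cov hν hb (fun _ hz => hz) hi⟩

/-- Theorem B, second half. -/
theorem Transfer.not_phi {κ : M} (hκ : Big κ) (hη : SetStr.mem (hh om) κ)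
    (hcl : ∀ l, Big l → SetStr.mem l κ → SetStr.mem (hh l) κ) (h : Transfer j κ) : ¬ Phi N := by
  have hL : LeftEnd κ := ⟨hκ, hη, fun l hl hlk ν hν => hκ.1.trans (hcl l hl hlk) hν⟩
  rw [h.phi_iff hL]
  rintro ⟨l, hl, hb, hl2⟩
  have h1 := hcl l hb hl
  have h2 := (hl2 (hh l) hb.hh.1).2 h1
  exact not_inj_hh l (inj_of_spr h.ext h.cov hb.hh.1 hb h2)

/-- THEOREM B: in every model of ZF there are two infinite ordinals such that all extensions of the
first kind satisfy `Phi` and all extensions of the second kind do not. -/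
theorem exists_two (M : Type u) [SetStr M] [IsZF M] : ∃ κa κb : M, Big κa ∧ Big κb ∧
    (∀ (N : Type w) [SetStr N] [IsZF N] (j : M → N), Transfer j κa → Phi N) ∧
    ∀ (N : Type w) [SetStr N] [IsZF N] (j : M → N), Transfer j κb → ¬ Phi N := by
  obtain ⟨κb, hb, hη, hcl⟩ := exists_closed (M := M)
  exact ⟨hh (hh om), κb, Big.om.hh.hh, hb, fun N _ _ j h => h.phi,
    fun N _ _ j h => Transfer.not_phi hb hη hcl h⟩

end GA
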