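import Pool.Agent.GA.Card

/-!
# Random forcing, part A: counting in finite sets by injections

`Le a b`: there is an injection from `a` to `b`.
-/

universe u

namespace GA

variable {M : Type u} [SetStr M] [IsZF M]

/-- The set `{0, 1}`. -/
noncomputable def tw : M := pr emp (succ emp)

theorem mem_tw {x : M} : SetStr.mem x tw ↔ x = emp ∨ x = succ emp := mem_pr

theorem emp_ne_one : (emp : M) ≠ succ emp := by
  intro h
  have h1 : SetStr.mem (emp : M) (succ emp) := by simp
  rw [← h] at h1
  simp at h1

theorem Fini.tw : Fini (tw : M) := Fini.pr _ _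

/-- MODULE a1 -/
theorem Le.refl (a : M) : Le a a := by
  exact Le.of_fun (F := fun x => x) (PF.var 0) (fun x hx => hx) (fun x y _ _ h => h)

private noncomputable def a1_fst (z : M) : M := sUn (sep (sUn z) (fun x => ∃ y, z = op x y))

private noncomputable def a1_snd (z : M) : M := sUn (sep (sUn z) (fun y => ∃ x, z = op x y))

private theorem a1_fst_op (a b : M) : a1_fst (op a b) = a := by
  refine ext (fun z => ?_)
  unfold a1_fst
  rw [mem_sUn]
  constructor
  · rintro ⟨x, hx, hz⟩
    rw [mem_sep (by (repeat' (with_reducible first | apply pf_hh | apply pd_Spr | apply pd_Inj | apply pf_har | apply pd_Le | apply pf_fins | apply pf_card | apply pd_Bij | apply pd_Fini | apply pd_Big | apply pd_Ord | apply pd_Tr | apply pd_Ind | apply pf_succ | apply pf_funs | apply pf_prod | apply pf_lam | apply pd_Fn | apply pf_app | apply pf_ran | apply pf_dom | apply PF.img | apply PF.pow | apply PD.sub | apply PF.adj | apply PF.un | apply PF.sUn | apply PF.op | apply PF.pr | apply PF.sep | exact PF.var _ | exact PF.const _ | apply PD.eq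 | apply PD.mem | apply PD.not | apply PD.iff | apply PD.or | apply PD.and | apply PD.imp | apply PD.ex | apply PD.all | exact PD.const _ | assumption | refine PF.comp1 (F := _) (by assumption) ?_ | refine PF.comp2 (F := _) (by assumption) ?_ ?_ | refine PF.comp3 (F := _) (by assumption) ?_ ?_ ?_ | refine PD.app1 (R := _) (by assumption) ?_ | refine PD.app2 (R := _) (by assumption) ?_ ?_ | refine PD.app3 (R := _) (by assumption) ?_ ?_ ?_ | refine PD.app4 (R := _) (by assumption) ?_ ?_ ?_ ?_)))] at hx
    obtain ⟨_, y, hy⟩ := hx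
    rw [op_inj] at hy
    rw [hy.1]
    exact hz
  · intro hz
    refine ⟨a, ?_, hz⟩
    rw [mem_sep (by (repeat' (with_reducible first | apply pf_hh | apply pd_Spr | apply pd_Inj | apply pf_har | apply pd_Le | apply pf_fins | apply pf_card | apply pd_Bij | apply pd_Fini | apply pd_Big | apply pd_Ord | apply pd_Tr | apply pd_Ind | apply pf_succ | apply pf_funs | apply pf_prod | apply pf_lam | apply pd_Fn | apply pf_app | apply pf_ran | apply pf_dom | apply PF.img | apply PF.pow | apply PD.sub | apply PF.adj | apply PF.un | apply PF.sUn | apply PF.op | apply PF.pr | apply PF.sep | exact PF.var _ | exact PF.const _ | apply PD.eq | apply PD.mem | apply PD.not | apply PD.iff | apply PD.or | apply PD.and | apply PD.imp | apply PD.ex | apply PD.all | exact PD.const _ | assumption | refine PF.comp1 (F := _) (by assumption) ?_ | refine PF.comp2 (F := _) (by assumption) ?_ ?_ | refine PF.comp3 (F := _) (by assumption) ?_ ?_ ?_ | refine PD.app1 (R := _) (by assumption) ?_ | refine PD.app2 (R := _) (by assumption) ?_ ?_ | refine PD.app3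 (R := _) (by assumption) ?_ ?_ ?_ | refine PD.app4 (R := _) (by assumption) ?_ ?_ ?_ ?_)))]
    exact ⟨mem_sUn.2 ⟨pr a a, by simp [op], by simp⟩, b, rfl⟩

private theorem a1_snd_op (a b : M) : a1_snd (op a b) = b := by
  refine ext (fun z => ?_)
  unfold a1_snd
  rw [mem_sUn]
  constructor
  · rintro ⟨x, hx, hz⟩
    rw [mem_sep (by (repeat' (with_reducible first | apply pf_hh | apply pd_Spr | apply pd_Inj | apply pf_har | apply pd_Le | apply pf_fins | apply pf_card | apply pd_Bij | apply pd_Fini | apply pd_Big | apply pd_Ord | apply pd_Tr | apply pd_Ind | apply pf_succ | apply pf_funs | apply pf_prod | apply pf_lam | apply pd_Fn | apply pf_app | apply pf_ran | apply pf_dom | apply PF.img | apply PF.pow | apply PD.sub | apply PF.adj | apply PF.un | apply PF.sUn | apply PF.op | apply PF.pr | apply PF.sep | exact PF.var _ | exact PF.const _ | apply PD.eq | apply PD.mem | apply PD.not | apply PD.iff | apply PD.or | apply PD.and | apply PD.imp | apply PD.ex | apply PD.all | exact PD.const _ | assumption | refine PF.comp1 (F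 := _) (by assumption) ?_ | refine PF.comp2 (F := _) (by assumption) ?_ ?_ | refine PF.comp3 (F := _) (by assumption) ?_ ?_ ?_ | refine PD.app1 (R := _) (by assumption) ?_ | refine PD.app2 (R := _) (by assumption) ?_ ?_ | refine PD.app3 (R := _) (by assumption) ?_ ?_ ?_ | refine PD.app4 (R := _) (by assumption) ?_ ?_ ?_ ?_)))] at hx
    obtain ⟨_, y, hy⟩ := hx
    rw [op_inj] at hy
    rw [hy.2]
    exact hz
  · intro hz
    refine ⟨b, ?_, hz⟩
    rw [mem_sep (by (repeat' (with_reducible first | apply pf_hh | apply pd_Spr | apply pd_Inj | apply pf_har | apply pd_Le | apply pf_fins | apply pf_card | apply pd_Bij | apply pd_Fini | apply pd_Big | apply pd_Ord | apply pd_Tr | apply pd_Ind | apply pf_succ | apply pf_funs | apply pf_prod | apply pf_lam | apply pd_Fn | apply pf_app | apply pf_ran | apply pf_dom | apply PF.img | apply PF.pow | apply PD.sub | apply PF.adj | apply PF.un | apply PF.sUn | apply PF.op | apply PF.pr | apply PF.sep | exact PF.var _ | exact PF.const _ | apply PD.eq | apply PD.mem | apply PD.not | apply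 PD.iff | apply PD.or | apply PD.and | apply PD.imp | apply PD.ex | apply PD.all | exact PD.const _ | assumption | refine PF.comp1 (F := _) (by assumption) ?_ | refine PF.comp2 (F := _) (by assumption) ?_ ?_ | refine PF.comp3 (F := _) (by assumption) ?_ ?_ ?_ | refine PD.app1 (R := _) (by assumption) ?_ | refine PD.app2 (R := _) (by assumption) ?_ ?_ | refine PD.app3 (R := _) (by assumption) ?_ ?_ ?_ | refine PD.app4 (R := _) (by assumption) ?_ ?_ ?_ ?_)))]
    exact ⟨mem_sUn.2 ⟨pr a b, by simp [op], by simp⟩, a, rfl⟩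

/-- MODULE a1.  Products of injections. -/
theorem Le.prod {a b c d : M} (h : Le a b) (h' : Le c d) : Le (prod a c) (prod b d) := by
  obtain ⟨f, hf, hfv, hfi⟩ := h
  obtain ⟨g, hg, hgv, hgi⟩ := h'
  refine Le.of_fun (F := fun z => op (app f (a1_fst z)) (app g (a1_snd z)))
    (by unfold a1_fst a1_snd; (repeat' (with_reducible first | apply pf_hh | apply pd_Spr | apply pd_Inj | apply pf_har | apply pd_Le | apply pf_fins | apply pf_card | apply pd_Bij | apply pd_Fini | apply pd_Big | apply pd_Ord | apply pd_Tr | apply pd_Ind | apply pf_succ | apply pf_funs | apply pf_prod | apply pf_lam | apply pd_Fn | apply pf_app | apply pf_ran | apply pf_dom | apply PF.img | apply PF.pow | apply PD.sub | apply PF.adj | apply PF.un | apply PF.sUn | apply PF.op | apply PF.pr | apply PF.sep | exact PF.var _ | exact PF.const _ | apply PD.eq | apply PD.mem | apply PD.not | apply PD.iff | apply PD.or | apply PD.and | apply PD.imp | apply PD.ex | apply PD.all | exact PD.const _ | assumption | refine PF.comp1 (F := _) (by assumption) ?_ | refine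 PF.comp2 (F := _) (by assumption) ?_ ?_ | refine PF.comp3 (F := _) (by assumption) ?_ ?_ ?_ | refine PD.app1 (R := _) (by assumption) ?_ | refine PD.app2 (R := _) (by assumption) ?_ ?_ | refine PD.app3 (R := _) (by assumption) ?_ ?_ ?_ | refine PD.app4 (R := _) (by assumption) ?_ ?_ ?_ ?_))) (fun z hz => ?_) (fun z w hz hw hzw => ?_)
  · obtain ⟨x, hx, y, hy, rfl⟩ := mem_prod.1 hz
    rw [a1_fst_op, a1_snd_op]
    exact op_mem_prod.2 ⟨hfv x hx, hgv y hy⟩
  · obtain ⟨x, hx, y, hy, rfl⟩ := mem_prod.1 hz
    obtain ⟨x', hx', y', hy', rfl⟩ := mem_prod.1 hw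
    simp only [a1_fst_op, a1_snd_op, op_inj] at hzw
    rw [hfi x x' hx hx' hzw.1, hgi y y' hy hy' hzw.2]

/-- MODULE a1 -/
theorem le_swap (a b : M) : Le (prod a b) (prod b a) := by
  refine Le.of_fun (F := fun z => op (a1_snd z) (a1_fst z))
    (by unfold a1_fst a1_snd; (repeat' (with_reducible first | apply pf_hh | apply pd_Spr | apply pd_Inj | apply pf_har | apply pd_Le | apply pf_fins | apply pf_card | apply pd_Bij | apply pd_Fini | apply pd_Big | apply pd_Ord | apply pd_Tr | apply pd_Ind | apply pf_succ | apply pf_funs | apply pf_prod | apply pf_lam | apply pd_Fn | apply pf_app | apply pf_ran | apply pf_dom | apply PF.img | apply PF.pow | apply PD.sub | apply PF.adj | apply PF.un | apply PF.sUn | apply PF.op | apply PF.pr | apply PF.sep | exact PF.var _ | exact PF.const _ | apply PD.eq | apply PD.mem | apply PD.not | apply PD.iff | apply PD.or | apply PD.and | apply PD.imp | apply PD.ex | apply PD.all | exact PD.const _ | assumption | refine PF.comp1 (F := _) (by assumption) ?_ | refine PF.comp2 (F := _) (by assumption)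 ?_ ?_ | refine PF.comp3 (F := _) (by assumption) ?_ ?_ ?_ | refine PD.app1 (R := _) (by assumption) ?_ | refine PD.app2 (R := _) (by assumption) ?_ ?_ | refine PD.app3 (R := _) (by assumption) ?_ ?_ ?_ | refine PD.app4 (R := _) (by assumption) ?_ ?_ ?_ ?_))) (fun z hz => ?_) (fun z w hz hw hzw => ?_)
  · obtain ⟨x, hx, y, hy, rfl⟩ := mem_prod.1 hz
    rw [a1_fst_op, a1_snd_op]
    exact op_mem_prod.2 ⟨hy, hx⟩
  · obtain ⟨x, hx, y, hy, rfl⟩ := mem_prod.1 hz
    obtain ⟨x', hx', y', hy', rfl⟩ := mem_prod.1 hw
    simp only [a1_fst_op, a1_snd_op, op_inj] at hzw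
    rw [hzw.1, hzw.2]

/-- MODULE a1 -/
theorem le_assoc (a b c : M) : Le (prod (prod a b) c) (prod a (prod b c)) := by
  refine Le.of_fun (F := fun z => op (a1_fst (a1_fst z)) (op (a1_snd (a1_fst z)) (a1_snd z)))
    (by unfold a1_fst a1_snd; (repeat' (with_reducible first | apply pf_hh | apply pd_Spr | apply pd_Inj | apply pf_har | apply pd_Le | apply pf_fins | apply pf_card | apply pd_Bij | apply pd_Fini | apply pd_Big | apply pd_Ord | apply pd_Tr | apply pd_Ind | apply pf_succ | apply pf_funs | apply pf_prod | apply pf_lam | apply pd_Fn | apply pf_app | apply pf_ran | apply pf_dom | apply PF.img | apply PF.pow | apply PD.sub | apply PF.adj | apply PF.un | apply PF.sUn | apply PF.op | apply PF.pr | apply PF.sep | exact PF.var _ | exact PF.const _ | apply PD.eq | apply PD.mem | apply PD.not | apply PD.iff | apply PD.or | apply PD.and | apply PD.imp | apply PD.ex | apply PD.all | exact PD.const _ | assumption | refine PF.comp1 (F := _) (by assumption) ?_ | refine PF.comp2 (F := _) (by assumption) ?_ ?_ | refine PF.comp3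 (F := _) (by assumption) ?_ ?_ ?_ | refine PD.app1 (R := _) (by assumption) ?_ | refine PD.app2 (R := _) (by assumption) ?_ ?_ | refine PD.app3 (R := _) (by assumption) ?_ ?_ ?_ | refine PD.app4 (R := _) (by assumption) ?_ ?_ ?_ ?_))) (fun z hz => ?_) (fun z w hz hw hzw => ?_)
  · obtain ⟨t, ht, y, hy, rfl⟩ := mem_prod.1 hz
    obtain ⟨x, hx, x', hx', rfl⟩ := mem_prod.1 ht
    simp only [a1_fst_op, a1_snd_op]
    exact op_mem_prod.2 ⟨hx, op_mem_prod.2 ⟨hx', hy⟩⟩
  · obtain ⟨t, ht, y, hy, rfl⟩ := mem_prod.1 hz
    obtain ⟨x, hx, x', hx', rfl⟩ := mem_prod.1 ht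
    obtain ⟨s, hs, u, hu, rfl⟩ := mem_prod.1 hw
    obtain ⟨v, hv, v', hv', rfl⟩ := mem_prod.1 hs
    simp only [a1_fst_op, a1_snd_op, op_inj] at hzw
    rw [hzw.1, hzw.2.1, hzw.2.2]

/-- MODULE a1 -/
theorem le_assoc' (a b c : M) : Le (prod a (prod b c)) (prod (prod a b) c) := by
  refine Le.of_fun (F := fun z => op (op (a1_fst z) (a1_fst (a1_snd z))) (a1_snd (a1_snd z)))
    (by unfold a1_fst a1_snd; (repeat' (with_reducible first | apply pf_hh | apply pd_Spr | apply pd_Inj | apply pf_har | apply pd_Le | apply pf_fins | apply pf_card | apply pd_Bij | apply pd_Fini | apply pd_Big | apply pd_Ord | apply pd_Tr | apply pd_Ind | apply pf_succ | apply pf_funs | apply pf_prod | apply pf_lam | apply pd_Fn | apply pf_app | apply pf_ran | apply pf_dom | apply PF.img | apply PF.pow | apply PD.sub | apply PF.adj | apply PF.un | apply PF.sUn | apply PF.op | apply PF.pr | apply PF.sep | exact PF.var _ | exact PF.const _ | apply PD.eq | apply PD.mem | apply PD.not | apply PD.iff | apply PD.or | apply PD.and | apply PD.imp | apply PD.ex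 | apply PD.all | exact PD.const _ | assumption | refine PF.comp1 (F := _) (by assumption) ?_ | refine PF.comp2 (F := _) (by assumption) ?_ ?_ | refine PF.comp3 (F := _) (by assumption) ?_ ?_ ?_ | refine PD.app1 (R := _) (by assumption) ?_ | refine PD.app2 (R := _) (by assumption) ?_ ?_ | refine PD.app3 (R := _) (by assumption) ?_ ?_ ?_ | refine PD.app4 (R := _) (by assumption) ?_ ?_ ?_ ?_))) (fun z hz => ?_) (fun z w hz hw hzw => ?_)
  · obtain ⟨x, hx, t, ht, rfl⟩ := mem_prod.1 hz
    obtain ⟨y, hy, y', hy', rfl⟩ := mem_prod.1 ht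
    simp only [a1_fst_op, a1_snd_op]
    exact op_mem_prod.2 ⟨op_mem_prod.2 ⟨hx, hy⟩, hy'⟩
  · obtain ⟨x, hx, t, ht, rfl⟩ := mem_prod.1 hz
    obtain ⟨y, hy, y', hy', rfl⟩ := mem_prod.1 ht
    obtain ⟨u, hu, s, hs, rfl⟩ := mem_prod.1 hw
    obtain ⟨v, hv, v', hv', rfl⟩ := mem_prod.1 hs
    simp only [a1_fst_op, a1_snd_op, op_inj] at hzw
    rw [hzw.1.1, hzw.1.2, hzw.2]

/-- MODULE a1.  `(a × b) × c` and `(a × c) × b`. -/
theorem le_rot (a b c : M) : Le (prod (prod a b) c) (prod (prod a c) b) := by
  refine Le.of_fun (F := fun z => op (op (a1_fst (a1_fst z)) (a1_snd z)) (a1_snd (a1_fst z)))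
    (by unfold a1_fst a1_snd; (repeat' (with_reducible first | apply pf_hh | apply pd_Spr | apply pd_Inj | apply pf_har | apply pd_Le | apply pf_fins | apply pf_card | apply pd_Bij | apply pd_Fini | apply pd_Big | apply pd_Ord | apply pd_Tr | apply pd_Ind | apply pf_succ | apply pf_funs | apply pf_prod | apply pf_lam | apply pd_Fn | apply pf_app | apply pf_ran | apply pf_dom | apply PF.img | apply PF.pow | apply PD.sub | apply PF.adj | apply PF.un | apply PF.sUn | apply PF.op | apply PF.pr | apply PF.sep | exact PF.var _ | exact PF.const _ | apply PD.eq | apply PD.mem | apply PD.not | apply PD.iff | apply PD.or | apply PD.and | apply PD.imp | apply PD.ex | apply PD.all | exact PD.const _ | assumption | refine PF.comp1 (F := _) (by assumption) ?_ | refine PF.comp2 (F := _) (by assumption) ?_ ?_ | refine PF.comp3 (F := _) (by assumption) ?_ ?_ ?_ | refine PD.app1 (R := _) (by assumption) ?_ | refine PD.app2 (R := _) (by assumption) ?_ ?_ | refine PD.app3 (R := _) (by assumption) ?_ ?_ ?_ | refine PD.app4 (R := _) (by assumption)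 ?_ ?_ ?_ ?_))) (fun z hz => ?_) (fun z w hz hw hzw => ?_)
  · obtain ⟨t, ht, y, hy, rfl⟩ := mem_prod.1 hz
    obtain ⟨x, hx, x', hx', rfl⟩ := mem_prod.1 ht
    simp only [a1_fst_op, a1_snd_op]
    exact op_mem_prod.2 ⟨op_mem_prod.2 ⟨hx, hy⟩, hx'⟩
  · obtain ⟨t, ht, y, hy, rfl⟩ := mem_prod.1 hz
    obtain ⟨x, hx, x', hx', rfl⟩ := mem_prod.1 ht
    obtain ⟨s, hs, u, hu, rfl⟩ := mem_prod.1 hw
    obtain ⟨v, hv, v', hv', rfl⟩ := mem_prod.1 hs
    simp only [a1_fst_op, a1_snd_op, op_inj] at hzw
    rw [hzw.1.1, hzw.1.2, hzw.2]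

private theorem a2_inv {f a : M} (hi : ∀ x y, SetStr.mem x a → SetStr.mem y a → app f x = app f y → x = y)
    {x : M} (hx : SetStr.mem x a) : sUn (sep a (fun z => app f z = app f x)) = x := by
  refine ext (fun z => ?_)
  rw [mem_sUn]
  constructor
  · rintro ⟨w, hw, hz⟩
    rw [mem_sep (by (repeat' (with_reducible first | apply pf_hh | apply pd_Spr | apply pd_Inj | apply pf_har | apply pd_Le | apply pf_fins | apply pf_card | apply pd_Bij | apply pd_Fini | apply pd_Big | apply pd_Ord | apply pd_Tr | apply pd_Ind | apply pf_succ | apply pf_funs | apply pf_prod | apply pf_lam | apply pd_Fn | apply pf_app | apply pf_ran | apply pf_dom | apply PF.img | apply PF.pow | apply PD.sub | apply PF.adj | apply PF.un | apply PF.sUn | apply PF.op | apply PF.pr | apply PF.sep | exact PF.var _ | exact PF.const _ | apply PD.eq | apply PD.mem | apply PD.not | apply PD.iff | apply PD.or | apply PD.and | apply PD.imp | apply PD.ex | apply PD.all | exact PD.const _ | assumption | refine PF.comp1 (F := _) (by assumption) ?_ | refine PF.comp2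 (F := _) (by assumption) ?_ ?_ | refine PF.comp3 (F := _) (by assumption) ?_ ?_ ?_ | refine PD.app1 (R := _) (by assumption) ?_ | refine PD.app2 (R := _) (by assumption) ?_ ?_ | refine PD.app3 (R := _) (by assumption) ?_ ?_ ?_ | refine PD.app4 (R := _) (by assumption) ?_ ?_ ?_ ?_)))] at hw
    rw [hi w x hw.1 hx hw.2] at hz
    exact hz
  · intro hz
    refine ⟨x, ?_, hz⟩
    rw [mem_sep (by (repeat' (with_reducible first | apply pf_hh | apply pd_Spr | apply pd_Inj | apply pf_har | apply pd_Le | apply pf_fins | apply pf_card | apply pd_Bij | apply pd_Fini | apply pd_Big | apply pd_Ord | apply pd_Tr | apply pd_Ind | apply pf_succ | apply pf_funs | apply pf_prod | apply pf_lam | apply pd_Fn | apply pf_app | apply pf_ran | apply pf_dom | apply PF.img | apply PF.pow | apply PD.sub | apply PF.adj | apply PF.un | apply PF.sUn | apply PF.op | apply PF.pr | apply PF.sep | exact PF.var _ | exact PF.const _ | apply PD.eq | apply PD.mem | apply PD.not | apply PD.iff | apply PD.or | apply PD.and | apply PD.imp | apply PD.ex | apply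 PD.all | exact PD.const _ | assumption | refine PF.comp1 (F := _) (by assumption) ?_ | refine PF.comp2 (F := _) (by assumption) ?_ ?_ | refine PF.comp3 (F := _) (by assumption) ?_ ?_ ?_ | refine PD.app1 (R := _) (by assumption) ?_ | refine PD.app2 (R := _) (by assumption) ?_ ?_ | refine PD.app3 (R := _) (by assumption) ?_ ?_ ?_ | refine PD.app4 (R := _) (by assumption) ?_ ?_ ?_ ?_)))]
    exact ⟨hx, rfl⟩

/-- MODULE a2.  A set which injects into a finite set is finite (the image of a subset of `b` under
the inverse relation). -/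
theorem Fini.of_le {a b : M} (h : Le a b) (hb : Fini b) : Fini a := by
  obtain ⟨f, hf, hfv, hfi⟩ := h
  have hI : PF (fun v : ℕ → M => GA.sUn (sep a (fun z => app f z = v 0))) := by (repeat' (with_reducible first | apply pf_hh | apply pd_Spr | apply pd_Inj | apply pf_har | apply pd_Le | apply pf_fins | apply pf_card | apply pd_Bij | apply pd_Fini | apply pd_Big | apply pd_Ord | apply pd_Tr | apply pd_Ind | apply pf_succ | apply pf_funs | apply pf_prod | apply pf_lam | apply pd_Fn | apply pf_app | apply pf_ran | apply pf_dom | apply PF.img | apply PF.pow | apply PD.sub | apply PF.adj | apply PF.un | apply PF.sUn | apply PF.op | apply PF.pr | apply PF.sep | exact PF.var _ | exact PF.const _ | apply PD.eq | apply PD.mem | apply PD.not | apply PD.iff | apply PD.or | apply PD.and | apply PD.imp | apply PD.ex | apply PD.all | exact PD.const _ | assumption | refine PF.comp1 (F := _) (by assumption) ?_ | refine PF.comp2 (F := _) (by assumption) ?_ ?_ | refine PF.comp3 (F := _) (by assumption) ?_ ?_ ?_ | refine PD.app1 (R := _)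 (by assumption) ?_ | refine PD.app2 (R := _) (by assumption) ?_ ?_ | refine PD.app3 (R := _) (by assumption) ?_ ?_ ?_ | refine PD.app4 (R := _) (by assumption) ?_ ?_ ?_ ?_))
  have h1 : Fini (GA.img (fun y => GA.sUn (sep a (fun z => app f z = y)))
      (sep b (fun y => ∃ x, SetStr.mem x a ∧ app f x = y))) := by
    refine Fini.img (F := fun y => GA.sUn (sep a (fun z => app f z = y))) (hb.sub ?_) hI
    intro y hy
    rw [mem_sep (by (repeat' (with_reducible first | apply pf_hh | apply pd_Spr | apply pd_Inj | apply pf_har | apply pd_Le | apply pf_fins | apply pf_card | apply pd_Bij | apply pd_Fini | apply pd_Big | apply pd_Ord | apply pd_Tr | apply pd_Ind | apply pf_succ | apply pf_funs | apply pf_prod | apply pf_lam | apply pd_Fn | apply pf_app | apply pf_ran | apply pf_dom | apply PF.img | apply PF.pow | apply PD.sub | apply PF.adj | apply PF.un | apply PF.sUn | apply PF.op | apply PF.pr | apply PF.sep | exact PF.var _ | exact PF.const _ | apply PD.eq | apply PD.mem | apply PD.not | apply PD.iff | apply PD.or | apply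 PD.and | apply PD.imp | apply PD.ex | apply PD.all | exact PD.const _ | assumption | refine PF.comp1 (F := _) (by assumption) ?_ | refine PF.comp2 (F := _) (by assumption) ?_ ?_ | refine PF.comp3 (F := _) (by assumption) ?_ ?_ ?_ | refine PD.app1 (R := _) (by assumption) ?_ | refine PD.app2 (R := _) (by assumption) ?_ ?_ | refine PD.app3 (R := _) (by assumption) ?_ ?_ ?_ | refine PD.app4 (R := _) (by assumption) ?_ ?_ ?_ ?_)))] at hy
    exact hy.1
  refine h1.sub ?_
  intro x hx
  rw [mem_img (F := fun y => GA.sUn (sep a (fun z => app f z = y))) hI]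
  refine ⟨app f x, ?_, (a2_inv hfi hx).symm⟩
  rw [mem_sep (by (repeat' (with_reducible first | apply pf_hh | apply pd_Spr | apply pd_Inj | apply pf_har | apply pd_Le | apply pf_fins | apply pf_card | apply pd_Bij | apply pd_Fini | apply pd_Big | apply pd_Ord | apply pd_Tr | apply pd_Ind | apply pf_succ | apply pf_funs | apply pf_prod | apply pf_lam | apply pd_Fn | apply pf_app | apply pf_ran | apply pf_dom | apply PF.img | apply PF.pow | apply PD.sub | apply PF.adj | apply PF.un | apply PF.sUn | apply PF.op | apply PF.pr | apply PF.sep | exact PF.var _ | exact PF.const _ | apply PD.eq | apply PD.mem | apply PD.not | apply PD.iff | apply PD.or | apply PD.and | apply PD.imp | apply PD.ex | apply PD.all | exact PD.const _ | assumption | refine PF.comp1 (F := _) (by assumption) ?_ | refine PF.comp2 (F := _) (by assumption) ?_ ?_ | refine PF.comp3 (F := _) (by assumption) ?_ ?_ ?_ | refine PD.app1 (R := _) (by assumption) ?_ | refine PD.app2 (R := _) (by assumption) ?_ ?_ | refine PD.app3 (R := _) (by assumption) ?_ ?_ ?_ |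 refine PD.app4 (R := _) (by assumption) ?_ ?_ ?_ ?_)))]
  exact ⟨hfv x hx, x, hx, rfl⟩

private theorem a2_bij {f n a : M} (h : Bij f n a) : Le n a ∧ Le a n := by
  obtain ⟨hf, hfv, hfs, hfi⟩ := h
  refine ⟨⟨f, hf, hfv, hfi⟩, ?_⟩
  have hI : PF (fun v : ℕ → M => sUn (sep n (fun z => app f z = v 0))) := by (repeat' (with_reducible first | apply pf_hh | apply pd_Spr | apply pd_Inj | apply pf_har | apply pd_Le | apply pf_fins | apply pf_card | apply pd_Bij | apply pd_Fini | apply pd_Big | apply pd_Ord | apply pd_Tr | apply pd_Ind | apply pf_succ | apply pf_funs | apply pf_prod | apply pf_lam | apply pd_Fn | apply pf_app | apply pf_ran | apply pf_dom | apply PF.img | apply PF.pow | apply PD.sub | apply PF.adj | apply PF.un | apply PF.sUn | apply PF.op | apply PF.pr | apply PF.sep | exact PF.var _ | exact PF.const _ | apply PD.eq | apply PD.mem | apply PD.not | apply PD.iff | apply PD.or | apply PD.and | apply PD.imp | apply PD.ex | apply PD.all | exact PD.const _ | assumption | refine PF.comp1 (F := _) (by assumption) ?_ |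 refine PF.comp2 (F := _) (by assumption) ?_ ?_ | refine PF.comp3 (F := _) (by assumption) ?_ ?_ ?_ | refine PD.app1 (R := _) (by assumption) ?_ | refine PD.app2 (R := _) (by assumption) ?_ ?_ | refine PD.app3 (R := _) (by assumption) ?_ ?_ ?_ | refine PD.app4 (R := _) (by assumption) ?_ ?_ ?_ ?_))
  refine Le.of_fun (F := fun y => sUn (sep n (fun z => app f z = y))) hI (fun y hy => ?_)
    (fun y z hy hz hyz => ?_)
  · obtain ⟨x, hx, rfl⟩ := hfs y hy
    rw [a2_inv hfi hx]
    exact hx
  · obtain ⟨x, hx, rfl⟩ := hfs y hy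
    obtain ⟨w, hw, rfl⟩ := hfs z hz
    rw [a2_inv hfi hx, a2_inv hfi hw] at hyz
    rw [hyz]

/-- MODULE a2.  Finite sets are comparable (`Fini.exists_bij` and the linear order of omega). -/
theorem le_total {a b : M} (ha : Fini a) (hb : Fini b) : Le a b ∨ Le b a := by
  obtain ⟨n, hn, f, hf⟩ := ha.exists_bij
  obtain ⟨m, hm, g, hg⟩ := hb.exists_bij
  obtain ⟨h1, h2⟩ := a2_bij hf
  obtain ⟨h3, h4⟩ := a2_bij hg
  rcases (Ord.of_mem_om hn).sub_or_mem (Ord.of_mem_om hm) with h | h
  · exact Or.inl ((h2.trans (Le.of_sub h)).trans h3)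
  · refine Or.inr ((h4.trans (Le.of_sub ?_)).trans h1)
    intro x hx
    exact (Ord.of_mem_om hn).trans h hx

private noncomputable def a3_fst (z : M) : M :=
  GA.sUn (sep (GA.sUn z) (fun x => ∃ y, z = op x y))

private noncomputable def a3_snd (z : M) : M :=
  GA.sUn (sep (GA.sUn z) (fun y => ∃ x, z = op x y))

private theorem a3_sing {s x : M} (h : ∀ z, SetStr.mem z s ↔ z = x) : GA.sUn s = x := by
  refine ext (fun w => ?_)
  rw [mem_sUn]
  constructor
  · rintro ⟨z, hz, hw⟩
    rw [h] at hz
    rw [← hz]
    exact hw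
  · intro hw
    exact ⟨x, (h x).2 rfl, hw⟩

private theorem a3_fst_op (x y : M) : a3_fst (op x y) = x := by
  unfold a3_fst
  refine a3_sing (fun z => ?_)
  rw [mem_sep (by (repeat' (with_reducible first | apply pf_hh | apply pd_Spr | apply pd_Inj | apply pf_har | apply pd_Le | apply pf_fins | apply pf_card | apply pd_Bij | apply pd_Fini | apply pd_Big | apply pd_Ord | apply pd_Tr | apply pd_Ind | apply pf_succ | apply pf_funs | apply pf_prod | apply pf_lam | apply pd_Fn | apply pf_app | apply pf_ran | apply pf_dom | apply PF.img | apply PF.pow | apply PD.sub | apply PF.adj | apply PF.un | apply PF.sUn | apply PF.op | apply PF.pr | apply PF.sep | exact PF.var _ | exact PF.const _ | apply PD.eq | apply PD.mem | apply PD.not | apply PD.iff | apply PD.or | apply PD.and | apply PD.imp | apply PD.ex | apply PD.all | exact PD.const _ | assumption | refine PF.comp1 (F := _) (by assumption) ?_ | refine PF.comp2 (F := _) (by assumption) ?_ ?_ | refine PF.comp3 (F := _) (by assumption) ?_ ?_ ?_ | refine PD.app1 (R := _) (by assumption)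 ?_ | refine PD.app2 (R := _) (by assumption) ?_ ?_ | refine PD.app3 (R := _) (by assumption) ?_ ?_ ?_ | refine PD.app4 (R := _) (by assumption) ?_ ?_ ?_ ?_)))]
  constructor
  · rintro ⟨-, w, hw⟩
    exact (op_inj.1 hw).1.symm
  · rintro rfl
    refine ⟨mem_sUn.2 ⟨pr z z, ?_, ?_⟩, y, rfl⟩
    · simp [op]
    · simp

private theorem a3_snd_op (x y : M) : a3_snd (op x y) = y := by
  unfold a3_snd
  refine a3_sing (fun z => ?_)
  rw [mem_sep (by (repeat' (with_reducible first | apply pf_hh | apply pd_Spr | apply pd_Inj | apply pf_har | apply pd_Le | apply pf_fins | apply pf_card | apply pd_Bij | apply pd_Fini | apply pd_Big | apply pd_Ord | apply pd_Tr | apply pd_Ind | apply pf_succ | apply pf_funs | apply pf_prod | apply pf_lam | apply pd_Fn | apply pf_app | apply pf_ran | apply pf_dom | apply PF.img | apply PF.pow | apply PD.sub | apply PF.adj | apply PF.un | apply PF.sUn | apply PF.op | apply PF.pr | apply PF.sep | exact PF.var _ | exact PF.const _ | apply PD.eq | apply PD.mem | apply PD.not | apply PD.iff | apply PD.or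 | apply PD.and | apply PD.imp | apply PD.ex | apply PD.all | exact PD.const _ | assumption | refine PF.comp1 (F := _) (by assumption) ?_ | refine PF.comp2 (F := _) (by assumption) ?_ ?_ | refine PF.comp3 (F := _) (by assumption) ?_ ?_ ?_ | refine PD.app1 (R := _) (by assumption) ?_ | refine PD.app2 (R := _) (by assumption) ?_ ?_ | refine PD.app3 (R := _) (by assumption) ?_ ?_ ?_ | refine PD.app4 (R := _) (by assumption) ?_ ?_ ?_ ?_)))]
  constructor
  · rintro ⟨-, w, hw⟩
    exact (op_inj.1 hw).2.symm
  · rintro rfl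
    refine ⟨mem_sUn.2 ⟨pr x z, ?_, ?_⟩, x, rfl⟩
    · simp [op]
    · simp

private theorem a3_pf_fst {f : (ℕ → M) → M} (hf : PF f) : PF (fun v => a3_fst (f v)) :=
  PF.comp1 (F := fun x => a3_fst x) (by unfold a3_fst; (repeat' (with_reducible first | apply pf_hh | apply pd_Spr | apply pd_Inj | apply pf_har | apply pd_Le | apply pf_fins | apply pf_card | apply pd_Bij | apply pd_Fini | apply pd_Big | apply pd_Ord | apply pd_Tr | apply pd_Ind | apply pf_succ | apply pf_funs | apply pf_prod | apply pf_lam | apply pd_Fn | apply pf_app | apply pf_ran | apply pf_dom | apply PF.img | apply PF.pow | apply PD.sub | apply PF.adj | apply PF.un | apply PF.sUn | apply PF.op | apply PF.pr | apply PF.sep | exact PF.var _ | exact PF.const _ | apply PD.eq | apply PD.mem | apply PD.not | apply PD.iff | apply PD.or | apply PD.and | apply PD.imp | apply PD.ex | apply PD.all | exact PD.const _ | assumption | refine PF.comp1 (F := _) (by assumption) ?_ | refine PF.comp2 (F := _) (by assumption) ?_ ?_ | refine PF.comp3 (F := _) (by assumption)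 ?_ ?_ ?_ | refine PD.app1 (R := _) (by assumption) ?_ | refine PD.app2 (R := _) (by assumption) ?_ ?_ | refine PD.app3 (R := _) (by assumption) ?_ ?_ ?_ | refine PD.app4 (R := _) (by assumption) ?_ ?_ ?_ ?_))) hf

private theorem a3_pf_snd {f : (ℕ → M) → M} (hf : PF f) : PF (fun v => a3_snd (f v)) :=
  PF.comp1 (F := fun x => a3_snd x) (by unfold a3_snd; (repeat' (with_reducible first | apply pf_hh | apply pd_Spr | apply pd_Inj | apply pf_har | apply pd_Le | apply pf_fins | apply pf_card | apply pd_Bij | apply pd_Fini | apply pd_Big | apply pd_Ord | apply pd_Tr | apply pd_Ind | apply pf_succ | apply pf_funs | apply pf_prod | apply pf_lam | apply pd_Fn | apply pf_app | apply pf_ran | apply pf_dom | apply PF.img | apply PF.pow | apply PD.sub | apply PF.adj | apply PF.un | apply PF.sUn | apply PF.op | apply PF.pr | apply PF.sep | exact PF.var _ | exact PF.const _ | apply PD.eq | apply PD.mem | apply PD.not | apply PD.iff | apply PD.or | apply PD.and | apply PD.imp | apply PD.ex | apply PD.all | exact PD.const _ | assumption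 | refine PF.comp1 (F := _) (by assumption) ?_ | refine PF.comp2 (F := _) (by assumption) ?_ ?_ | refine PF.comp3 (F := _) (by assumption) ?_ ?_ ?_ | refine PD.app1 (R := _) (by assumption) ?_ | refine PD.app2 (R := _) (by assumption) ?_ ?_ | refine PD.app3 (R := _) (by assumption) ?_ ?_ ?_ | refine PD.app4 (R := _) (by assumption) ?_ ?_ ?_ ?_))) hf

private theorem a3_card {a b : M} (ha : Fini a) (hb : Fini b) (h : Le a b) :
    card a = card b ∨ SetStr.mem (card a) (card b) := by
  obtain ⟨f, hf1, hf2, hf3⟩ := h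
  obtain ⟨g, hg⟩ := ((card_eq_iff ha).1 rfl).2
  have hpf : PF (fun v : ℕ → M => app f (v 0)) := by (repeat' (with_reducible first | apply pf_hh | apply pd_Spr | apply pd_Inj | apply pf_har | apply pd_Le | apply pf_fins | apply pf_card | apply pd_Bij | apply pd_Fini | apply pd_Big | apply pd_Ord | apply pd_Tr | apply pd_Ind | apply pf_succ | apply pf_funs | apply pf_prod | apply pf_lam | apply pd_Fn | apply pf_app | apply pf_ran | apply pf_dom | apply PF.img | apply PF.pow | apply PD.sub | apply PF.adj | apply PF.un | apply PF.sUn | apply PF.op | apply PF.pr | apply PF.sep | exact PF.var _ | exact PF.const _ | apply PD.eq | apply PD.mem | apply PD.not | apply PD.iff | apply PD.or | apply PD.and | apply PD.imp | apply PD.ex | apply PD.all | exact PD.const _ | assumption | refine PF.comp1 (F := _) (by assumption) ?_ | refine PF.comp2 (F := _) (by assumption) ?_ ?_ | refine PF.comp3 (F := _) (by assumption) ?_ ?_ ?_ | refine PD.app1 (R := _) (by assumption) ?_ | refine PD.app2 (R := _) (by assumption) ?_ ?_ | refine PD.app3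 (R := _) (by assumption) ?_ ?_ ?_ | refine PD.app4 (R := _) (by assumption) ?_ ?_ ?_ ?_))
  have hmem : ∀ z, SetStr.mem z (img (fun x => app f x) a) ↔ ∃ x, SetStr.mem x a ∧ z = app f x := fun z =>
    mem_img hpf
  have hsub : GA.sub (img (fun x => app f x) a) b := by
    intro z hz
    obtain ⟨x, hx, rfl⟩ := (hmem z).1 hz
    exact hf2 x hx
  have hF : PF (fun v : ℕ → M => app f (app g (v 0))) := by (repeat' (with_reducible first | apply pf_hh | apply pd_Spr | apply pd_Inj | apply pf_har | apply pd_Le | apply pf_fins | apply pf_card | apply pd_Bij | apply pd_Fini | apply pd_Big | apply pd_Ord | apply pd_Tr | apply pd_Ind | apply pf_succ | apply pf_funs | apply pf_prod | apply pf_lam | apply pd_Fn | apply pf_app | apply pf_ran | apply pf_dom | apply PF.img | apply PF.pow | apply PD.sub | apply PF.adj | apply PF.un | apply PF.sUn | apply PF.op | apply PF.pr | apply PF.sep | exact PF.var _ | exact PF.const _ | apply PD.eq | apply PD.mem | apply PD.not | apply PD.iff | apply PD.or | apply PD.and | apply PD.imp | apply PD.ex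 | apply PD.all | exact PD.const _ | assumption | refine PF.comp1 (F := _) (by assumption) ?_ | refine PF.comp2 (F := _) (by assumption) ?_ ?_ | refine PF.comp3 (F := _) (by assumption) ?_ ?_ ?_ | refine PD.app1 (R := _) (by assumption) ?_ | refine PD.app2 (R := _) (by assumption) ?_ ?_ | refine PD.app3 (R := _) (by assumption) ?_ ?_ ?_ | refine PD.app4 (R := _) (by assumption) ?_ ?_ ?_ ?_))
  have hbij : Bij (lam (fun x => app f (app g x)) (card a)) (card a)
      (img (fun x => app f x) a) := by
    refine ⟨lam_Fn hF _, fun x hx => ?_, fun z hz => ?_, fun x y hx hy hxy => ?_⟩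
    · rw [app_lam hF hx, hmem]
      exact ⟨_, hg.2.1 x hx, rfl⟩
    · obtain ⟨w, hw, rfl⟩ := (hmem z).1 hz
      obtain ⟨x, hx, rfl⟩ := hg.2.2.1 w hw
      exact ⟨x, hx, app_lam hF hx⟩
    · rw [app_lam hF hx, app_lam hF hy] at hxy
      exact hg.2.2.2 x y hx hy (hf3 _ _ (hg.2.1 x hx) (hg.2.1 y hy) hxy)
  have hc : card (img (fun x => app f x) a) = card a :=
    (card_eq_iff (hb.sub hsub)).2 ⟨card_mem_om ha, _, hbij⟩
  rw [← hc]
  exact card_mono hb hsub

/-- MODULE a3.  A finite set does not inject into a proper subset. -/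
theorem not_le_of_sub {a b y : M} (hb : Fini b) (hab : GA.sub a b) (hy : SetStr.mem y b) (hya : ¬ SetStr.mem y a) :
    ¬ Le b a := by
  intro h
  have h1 := card_lt hb hab hy hya
  rcases a3_card hb (hb.sub hab) h with h2 | h2
  · rw [h2] at h1
    exact not_mem_self _ h1
  · exact not_mem_mem h1 h2

/-- MODULE a3.  An injection which is not onto. -/
theorem not_le_of_miss {a b f y : M} (ha : Fini a) (hb : Fini b) (hf : Fn f a)
    (hv : ∀ x, SetStr.mem x a → SetStr.mem (app f x) b) (hi : ∀ x z, SetStr.mem x a → SetStr.mem z a → app f x = app f z → x = z)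
    (hy : SetStr.mem y b) (hya : ∀ x, SetStr.mem x a → app f x ≠ y) : ¬ Le b a := by
  rintro ⟨g, hg1, hg2, hg3⟩
  have hP : PD (fun v : ℕ → M => ¬ v 0 = y) := by (repeat' (with_reducible first | apply pf_hh | apply pd_Spr | apply pd_Inj | apply pf_har | apply pd_Le | apply pf_fins | apply pf_card | apply pd_Bij | apply pd_Fini | apply pd_Big | apply pd_Ord | apply pd_Tr | apply pd_Ind | apply pf_succ | apply pf_funs | apply pf_prod | apply pf_lam | apply pd_Fn | apply pf_app | apply pf_ran | apply pf_dom | apply PF.img | apply PF.pow | apply PD.sub | apply PF.adj | apply PF.un | apply PF.sUn | apply PF.op | apply PF.pr | apply PF.sep | exact PF.var _ | exact PF.const _ | apply PD.eq | apply PD.mem | apply PD.not | apply PD.iff | apply PD.or | apply PD.and | apply PD.imp | apply PD.ex | apply PD.all | exact PD.const _ | assumption | refine PF.comp1 (F := _) (by assumption) ?_ | refine PF.comp2 (F := _) (by assumption) ?_ ?_ | refine PF.comp3 (F := _) (by assumption) ?_ ?_ ?_ | refine PD.app1 (R := _) (by assumption) ?_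 | refine PD.app2 (R := _) (by assumption) ?_ ?_ | refine PD.app3 (R := _) (by assumption) ?_ ?_ ?_ | refine PD.app4 (R := _) (by assumption) ?_ ?_ ?_ ?_))
  have hmem : ∀ z, SetStr.mem z (sep b (fun z => ¬ z = y)) ↔ SetStr.mem z b ∧ ¬ z = y := fun z =>
    mem_sep (P := fun z => ¬ z = y) hP
  refine not_le_of_sub (a := sep b (fun z => ¬ z = y)) hb (fun z hz => ((hmem z).1 hz).1) hy
    (fun h => ((hmem y).1 h).2 rfl) ?_
  refine Le.of_fun (F := fun x => app f (app g x)) (by (repeat' (with_reducible first | apply pf_hh | apply pd_Spr | apply pd_Inj | apply pf_har | apply pd_Le | apply pf_fins | apply pf_card | apply pd_Bij | apply pd_Fini | apply pd_Big | apply pd_Ord | apply pd_Tr | apply pd_Ind | apply pf_succ | apply pf_funs | apply pf_prod | apply pf_lam | apply pd_Fn | apply pf_app | apply pf_ran | apply pf_dom | apply PF.img | apply PF.pow | apply PD.sub | apply PF.adj | apply PF.un | apply PF.sUn | apply PF.op | apply PF.pr | apply PF.sep | exact PF.var _ | exact PF.const _ | apply PD.eq | apply PD.mem | apply PD.not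 | apply PD.iff | apply PD.or | apply PD.and | apply PD.imp | apply PD.ex | apply PD.all | exact PD.const _ | assumption | refine PF.comp1 (F := _) (by assumption) ?_ | refine PF.comp2 (F := _) (by assumption) ?_ ?_ | refine PF.comp3 (F := _) (by assumption) ?_ ?_ ?_ | refine PD.app1 (R := _) (by assumption) ?_ | refine PD.app2 (R := _) (by assumption) ?_ ?_ | refine PD.app3 (R := _) (by assumption) ?_ ?_ ?_ | refine PD.app4 (R := _) (by assumption) ?_ ?_ ?_ ?_))) ?_ ?_
  · intro x hx
    rw [hmem]
    exact ⟨hv _ (hg2 x hx), hya _ (hg2 x hx)⟩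
  · intro x z hx hz hxz
    exact hg3 x z hx hz (hi _ _ (hg2 x hx) (hg2 z hz) hxz)

/-- MODULE a4.  Cancellation of a nonempty finite factor.  (If not `Le a b` there is an injection of
`b` into `a` which is not onto; its product with `c` is not onto.) -/
theorem le_cancel {a b c : M} (ha : Fini a) (hb : Fini b) (hc : Fini c) (hne : ∃ z, SetStr.mem z c)
    (h : Le (prod a c) (prod b c)) : Le a b := by
  obtain ⟨z0, hz0⟩ := hne
  rcases le_total ha hb with h1 | ⟨g, hg1, hg2, hg3⟩
  · exact h1
  · by_cases hon : ∀ x, SetStr.mem x a → ∃ y, SetStr.mem y b ∧ app g y = x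
    · have hval : ∀ x, SetStr.mem x a → SetStr.mem (GA.sUn (sep b (fun y => app g y = x))) b ∧
          app g (GA.sUn (sep b (fun y => app g y = x))) = x := by
        intro x hx
        obtain ⟨y, hy, hyx⟩ := hon x hx
        have h2 : GA.sUn (sep b (fun y => app g y = x)) = y := by
          refine a3_sing (fun z => ?_)
          rw [mem_sep (by (repeat' (with_reducible first | apply pf_hh | apply pd_Spr | apply pd_Inj | apply pf_har | apply pd_Le | apply pf_fins | apply pf_card | apply pd_Bij | apply pd_Fini | apply pd_Big | apply pd_Ord | apply pd_Tr | apply pd_Ind | apply pf_succ | apply pf_funs | apply pf_prod | apply pf_lam | apply pd_Fn | apply pf_app | apply pf_ran | apply pf_dom | apply PF.img | apply PF.pow | apply PD.sub | apply PF.adj | apply PF.un | apply PF.sUn | apply PF.op | apply PF.pr | apply PF.sep | exact PF.var _ | exact PF.const _ | apply PD.eq | apply PD.mem | apply PD.not | apply PD.iff | apply PD.or | apply PD.and | apply PD.imp | apply PD.ex | apply PD.all | exact PD.const _ | assumption | refine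 PF.comp1 (F := _) (by assumption) ?_ | refine PF.comp2 (F := _) (by assumption) ?_ ?_ | refine PF.comp3 (F := _) (by assumption) ?_ ?_ ?_ | refine PD.app1 (R := _) (by assumption) ?_ | refine PD.app2 (R := _) (by assumption) ?_ ?_ | refine PD.app3 (R := _) (by assumption) ?_ ?_ ?_ | refine PD.app4 (R := _) (by assumption) ?_ ?_ ?_ ?_)))]
          constructor
          · rintro ⟨hz, hzx⟩
            exact hg3 z y hz hy (hzx.trans hyx.symm)
          · rintro rfl
            exact ⟨hy, hyx⟩
        rw [h2]
        exact ⟨hy, hyx⟩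
      refine Le.of_fun (F := fun x => GA.sUn (sep b (fun y => app g y = x))) (by (repeat' (with_reducible first | apply pf_hh | apply pd_Spr | apply pd_Inj | apply pf_har | apply pd_Le | apply pf_fins | apply pf_card | apply pd_Bij | apply pd_Fini | apply pd_Big | apply pd_Ord | apply pd_Tr | apply pd_Ind | apply pf_succ | apply pf_funs | apply pf_prod | apply pf_lam | apply pd_Fn | apply pf_app | apply pf_ran | apply pf_dom | apply PF.img | apply PF.pow | apply PD.sub | apply PF.adj | apply PF.un | apply PF.sUn | apply PF.op | apply PF.pr | apply PF.sep | exact PF.var _ | exact PF.const _ | apply PD.eq | apply PD.mem | apply PD.not | apply PD.iff | apply PD.or | apply PD.and | apply PD.imp | apply PD.ex | apply PD.all | exact PD.const _ | assumption | refine PF.comp1 (F := _) (by assumption) ?_ | refine PF.comp2 (F := _) (by assumption) ?_ ?_ | refine PF.comp3 (F := _) (by assumption) ?_ ?_ ?_ | refine PD.app1 (R := _) (by assumption) ?_ | refine PD.app2 (R := _) (by assumption) ?_ ?_ | refine PD.app3 (R := _) (by assumption)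 ?_ ?_ ?_ | refine PD.app4 (R := _) (by assumption) ?_ ?_ ?_ ?_)))
        (fun x hx => (hval x hx).1) ?_
      intro x z hx hz hxz
      have h2 := (hval x hx).2
      rw [hxz] at h2
      exact h2.symm.trans (hval z hz).2
    · push Not at hon
      obtain ⟨x, hx, hmiss⟩ := hon
      have hF : PF (fun v : ℕ → M => op (app g (a3_fst (v 0))) (a3_snd (v 0))) :=
        PF.op (pf_app (PF.const _) (a3_pf_fst (PF.var 0))) (a3_pf_snd (PF.var 0))
      exfalso
      refine not_le_of_miss (f := lam (fun z => op (app g (a3_fst z)) (a3_snd z)) (GA.prod b c))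
        (y := op x z0) (hb.prod hc) (ha.prod hc) (lam_Fn hF _) ?_ ?_
        (op_mem_prod.2 ⟨hx, hz0⟩) ?_ h
      · intro z hz
        rw [app_lam hF hz]
        obtain ⟨y, hy, w, hw, rfl⟩ := mem_prod.1 hz
        rw [a3_fst_op, a3_snd_op, op_mem_prod]
        exact ⟨hg2 y hy, hw⟩
      · intro z z' hz hz' hzz
        rw [app_lam hF hz, app_lam hF hz'] at hzz
        obtain ⟨y, hy, w, hw, rfl⟩ := mem_prod.1 hz
        obtain ⟨y', hy', w', hw', rfl⟩ := mem_prod.1 hz'
        rw [a3_fst_op, a3_snd_op, a3_fst_op, a3_snd_op, op_inj] at hzz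
        rw [hg3 y y' hy hy' hzz.1, hzz.2]
      · intro z hz hzz
        rw [app_lam hF hz] at hzz
        obtain ⟨y, hy, w, hw, rfl⟩ := mem_prod.1 hz
        rw [a3_fst_op, a3_snd_op, op_inj] at hzz
        exact hmiss y hy hzz.1

private noncomputable def a5_F (v g x : M) : M :=
  GA.sUn (sep (GA.pr (op x emp) (op (app g x) (succ emp)))
    (fun z => (SetStr.mem x v ∧ z = op x emp) ∨ (¬ SetStr.mem x v ∧ z = op (app g x) (succ emp))))

private theorem a5_in {v g x : M} (h : SetStr.mem x v) : a5_F v g x = op x emp := by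
  unfold a5_F
  refine a3_sing (fun z => ?_)
  rw [mem_sep (by (repeat' (with_reducible first | apply pf_hh | apply pd_Spr | apply pd_Inj | apply pf_har | apply pd_Le | apply pf_fins | apply pf_card | apply pd_Bij | apply pd_Fini | apply pd_Big | apply pd_Ord | apply pd_Tr | apply pd_Ind | apply pf_succ | apply pf_funs | apply pf_prod | apply pf_lam | apply pd_Fn | apply pf_app | apply pf_ran | apply pf_dom | apply PF.img | apply PF.pow | apply PD.sub | apply PF.adj | apply PF.un | apply PF.sUn | apply PF.op | apply PF.pr | apply PF.sep | exact PF.var _ | exact PF.const _ | apply PD.eq | apply PD.mem | apply PD.not | apply PD.iff | apply PD.or | apply PD.and | apply PD.imp | apply PD.ex | apply PD.all | exact PD.const _ | assumption | refine PF.comp1 (F := _) (by assumption) ?_ | refine PF.comp2 (F := _) (by assumption) ?_ ?_ | refine PF.comp3 (F := _) (by assumption) ?_ ?_ ?_ | refine PD.app1 (R := _) (by assumption) ?_ | refine PD.app2 (R := _) (by assumption) ?_ ?_ | refine PD.app3 (R := _) (by assumption) ?_ ?_ ?_ |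 refine PD.app4 (R := _) (by assumption) ?_ ?_ ?_ ?_))), mem_pr]
  constructor
  · rintro ⟨-, ⟨-, h1⟩ | ⟨h1, -⟩⟩
    · exact h1
    · exact (h1 h).elim
  · intro h1
    exact ⟨Or.inl h1, Or.inl ⟨h, h1⟩⟩

private theorem a5_out {v g x : M} (h : ¬ SetStr.mem x v) : a5_F v g x = op (app g x) (succ emp) := by
  unfold a5_F
  refine a3_sing (fun z => ?_)
  rw [mem_sep (by (repeat' (with_reducible first | apply pf_hh | apply pd_Spr | apply pd_Inj | apply pf_har | apply pd_Le | apply pf_fins | apply pf_card | apply pd_Bij | apply pd_Fini | apply pd_Big | apply pd_Ord | apply pd_Tr | apply pd_Ind | apply pf_succ | apply pf_funs | apply pf_prod | apply pf_lam | apply pd_Fn | apply pf_app | apply pf_ran | apply pf_dom | apply PF.img | apply PF.pow | apply PD.sub | apply PF.adj | apply PF.un | apply PF.sUn | apply PF.op | apply PF.pr | apply PF.sep | exact PF.var _ | exact PF.const _ | apply PD.eq | apply PD.mem | apply PD.not | apply PD.iff | apply PD.or | apply PD.and | apply PD.imp | apply PD.ex | apply PD.all | exact PD.const _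 | assumption | refine PF.comp1 (F := _) (by assumption) ?_ | refine PF.comp2 (F := _) (by assumption) ?_ ?_ | refine PF.comp3 (F := _) (by assumption) ?_ ?_ ?_ | refine PD.app1 (R := _) (by assumption) ?_ | refine PD.app2 (R := _) (by assumption) ?_ ?_ | refine PD.app3 (R := _) (by assumption) ?_ ?_ ?_ | refine PD.app4 (R := _) (by assumption) ?_ ?_ ?_ ?_))), mem_pr]
  constructor
  · rintro ⟨-, ⟨h1, -⟩ | ⟨-, h1⟩⟩
    · exact (h h1).elim
    · exact h1
  · intro h1
    exact ⟨Or.inr h1, Or.inr ⟨h, h1⟩⟩

private theorem a5_main {u v t : M} (h : Le u v) (h' : Le (GA.prod v tw) t) : Le (un u v) t := by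
  obtain ⟨g, hg1, hg2, hg3⟩ := h
  refine Le.trans (Le.of_fun (F := fun x => a5_F v g x) (by unfold a5_F; (repeat' (with_reducible first | apply pf_hh | apply pd_Spr | apply pd_Inj | apply pf_har | apply pd_Le | apply pf_fins | apply pf_card | apply pd_Bij | apply pd_Fini | apply pd_Big | apply pd_Ord | apply pd_Tr | apply pd_Ind | apply pf_succ | apply pf_funs | apply pf_prod | apply pf_lam | apply pd_Fn | apply pf_app | apply pf_ran | apply pf_dom | apply PF.img | apply PF.pow | apply PD.sub | apply PF.adj | apply PF.un | apply PF.sUn | apply PF.op | apply PF.pr | apply PF.sep | exact PF.var _ | exact PF.const _ | apply PD.eq | apply PD.mem | apply PD.not | apply PD.iff | apply PD.or | apply PD.and | apply PD.imp | apply PD.ex | apply PD.all | exact PD.const _ | assumption | refine PF.comp1 (F := _) (by assumption) ?_ | refine PF.comp2 (F := _) (by assumption) ?_ ?_ | refine PF.comp3 (F := _) (by assumption) ?_ ?_ ?_ | refine PD.app1 (R := _) (by assumption) ?_ | refine PD.app2 (R := _) (by assumption) ?_ ?_ | refine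 PD.app3 (R := _) (by assumption) ?_ ?_ ?_ | refine PD.app4 (R := _) (by assumption) ?_ ?_ ?_ ?_))) ?_ ?_) h'
  · intro x hx
    by_cases hxv : SetStr.mem x v
    · simp only [a5_in hxv]
      exact op_mem_prod.2 ⟨hxv, mem_tw.2 (Or.inl rfl)⟩
    · simp only [a5_out hxv]
      rcases mem_un.1 hx with h1 | h1
      · exact op_mem_prod.2 ⟨hg2 x h1, mem_tw.2 (Or.inr rfl)⟩
      · exact (hxv h1).elim
  · intro x y hx hy hxy
    by_cases hxv : SetStr.mem x v
    · by_cases hyv : SetStr.mem y v
      · simp only [a5_in hxv, a5_in hyv, op_inj] at hxy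
        exact hxy.1
      · simp only [a5_in hxv, a5_out hyv, op_inj] at hxy
        exact (emp_ne_one hxy.2).elim
    · by_cases hyv : SetStr.mem y v
      · simp only [a5_out hxv, a5_in hyv, op_inj] at hxy
        exact (emp_ne_one hxy.2.symm).elim
      · simp only [a5_out hxv, a5_out hyv, op_inj] at hxy
        have hxu : SetStr.mem x u := (mem_un.1 hx).resolve_right hxv
        have hyu : SetStr.mem y u := (mem_un.1 hy).resolve_right hyv
        exact hg3 x y hxu hyu hxy.1

/-- MODULE a5.  If `u × 2` and `v × 2` inject into `t` then the union of `u` and `v` does. -/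
theorem le_un_of_double {u v t : M} (hu : Fini u) (hv : Fini v) (h : Le (prod u tw) t)
    (h' : Le (prod v tw) t) : Le (un u v) t := by
  rcases le_total hu hv with h1 | h1
  · exact a5_main h1 h'
  · have h2 : un u v = un v u := ext (fun z => by rw [mem_un, mem_un, or_comm])
    rw [h2]
    exact a5_main h1 h

private theorem a6_ext_Fn {f a x y : M} (h : Fn f a) (hx : ¬ SetStr.mem x a) :
    Fn (GA.adj f (op x y)) (GA.adj a x) := by
  constructor
  · intro z hz
    rcases mem_adj.1 hz with hz | hz
    · obtain ⟨w, hw, t, rfl⟩ := h.1 z hz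
      exact ⟨w, mem_adj.2 (Or.inl hw), t, rfl⟩
    · exact ⟨x, mem_adj.2 (Or.inr rfl), y, hz⟩
  · intro w hw
    rcases mem_adj.1 hw with hw' | hw'
    · refine ⟨⟨app f w, mem_adj.2 (Or.inl (h.app_mem hw'))⟩, ?_⟩
      have hne : ∀ t, ¬ op w t = op x y := by
        intro t ht
        rw [op_inj] at ht
        rw [ht.1] at hw'
        exact hx hw'
      intro t t' ht ht'
      rcases mem_adj.1 ht with ht | ht
      · rcases mem_adj.1 ht' with ht' | ht'
        · exact (h.2 w hw').2 t t' ht ht'
        · exact (hne _ ht').elim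
      · exact (hne _ ht).elim
    · rw [hw']
      refine ⟨⟨y, mem_adj.2 (Or.inr rfl)⟩, ?_⟩
      have hne : ∀ t, SetStr.mem (op x t) (GA.adj f (op x y)) → t = y := by
        intro t ht
        rcases mem_adj.1 ht with ht | ht
        · exact (hx (h.mem_iff.1 ht).1).elim
        · exact (op_inj.1 ht).2
      intro t t' ht ht'
      rw [hne t ht, hne t' ht']

private theorem a6_ext_new {f a x y : M} (h : Fn f a) (hx : ¬ SetStr.mem x a) :
    app (GA.adj f (op x y)) x = y :=
  (((a6_ext_Fn h hx).mem_iff (x := x) (y := y)).1 (mem_adj.2 (Or.inr rfl))).2.symm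

private theorem a6_ext_old {f a x y z : M} (h : Fn f a) (hx : ¬ SetStr.mem x a) (hz : SetStr.mem z a) :
    app (GA.adj f (op x y)) z = app f z :=
  (((a6_ext_Fn (y := y) h hx).mem_iff (x := z) (y := app f z)).1
    (mem_adj.2 (Or.inl (h.app_mem hz)))).2.symm

private theorem a6_fn_emp : Fn (GA.emp : M) GA.emp :=
  ⟨fun z hz => (not_mem_emp z hz).elim, fun z hz => (not_mem_emp z hz).elim⟩

/-- MODULE a6.  Finite choice. -/
theorem fchoice {n : M} (hn : SetStr.mem n (om : M)) {R : M → M → Prop}
    (hR : PD (fun v => R (v 0) (v 1))) (h : ∀ i, SetStr.mem i n → ∃ y, R i y) :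
    ∃ f, Fn f n ∧ ∀ i, SetStr.mem i n → R i (app f i) := by
  refine om_ind (P := fun n => (∀ i, SetStr.mem i n → ∃ y, R i y) →
    ∃ f, Fn f n ∧ ∀ i, SetStr.mem i n → R i (app f i)) (by (repeat' (with_reducible first | apply pf_hh | apply pd_Spr | apply pd_Inj | apply pf_har | apply pd_Le | apply pf_fins | apply pf_card | apply pd_Bij | apply pd_Fini | apply pd_Big | apply pd_Ord | apply pd_Tr | apply pd_Ind | apply pf_succ | apply pf_funs | apply pf_prod | apply pf_lam | apply pd_Fn | apply pf_app | apply pf_ran | apply pf_dom | apply PF.img | apply PF.pow | apply PD.sub | apply PF.adj | apply PF.un | apply PF.sUn | apply PF.op | apply PF.pr | apply PF.sep | exact PF.var _ | exact PF.const _ | apply PD.eq | apply PD.mem | apply PD.not | apply PD.iff | apply PD.or | apply PD.and | apply PD.imp | apply PD.ex | apply PD.all | exact PD.const _ | assumption | refine PF.comp1 (F := _) (by assumption) ?_ | refine PF.comp2 (F := _) (by assumption) ?_ ?_ | refine PF.comp3 (F := _) (by assumption) ?_ ?_ ?_ | refine PD.app1 (R :=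 _) (by assumption) ?_ | refine PD.app2 (R := _) (by assumption) ?_ ?_ | refine PD.app3 (R := _) (by assumption) ?_ ?_ ?_ | refine PD.app4 (R := _) (by assumption) ?_ ?_ ?_ ?_))) ?_ ?_ n hn h
  · intro _
    exact ⟨GA.emp, a6_fn_emp, fun i hi => (not_mem_emp i hi).elim⟩
  · intro n hn ih h
    obtain ⟨f, hf, hfR⟩ := ih (fun i hi => h i (mem_succ.2 (Or.inl hi)))
    obtain ⟨y, hy⟩ := h n (mem_succ.2 (Or.inr rfl))
    refine ⟨GA.adj f (op n y), a6_ext_Fn hf (not_mem_self n), fun i hi => ?_⟩
    rcases mem_succ.1 hi with hi | hi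
    · rw [a6_ext_old hf (not_mem_self n) hi]
      exact hfR i hi
    · rw [hi, a6_ext_new hf (not_mem_self n)]
      exact hy

/-- MODULE a6.  A set which is not finite contains sequences of distinct elements of every finite
length. -/
theorem le_of_not_fini {F : M} (hF : ¬ Fini F) {n : M} (hn : SetStr.mem n (om : M)) : Le n F := by
  refine om_ind (P := fun n => Le n F) (by (repeat' (with_reducible first | apply pf_hh | apply pd_Spr | apply pd_Inj | apply pf_har | apply pd_Le | apply pf_fins | apply pf_card | apply pd_Bij | apply pd_Fini | apply pd_Big | apply pd_Ord | apply pd_Tr | apply pd_Ind | apply pf_succ | apply pf_funs | apply pf_prod | apply pf_lam | apply pd_Fn | apply pf_app | apply pf_ran | apply pf_dom | apply PF.img | apply PF.pow | apply PD.sub | apply PF.adj | apply PF.un | apply PF.sUn | apply PF.op | apply PF.pr | apply PF.sep | exact PF.var _ | exact PF.const _ | apply PD.eq | apply PD.mem | apply PD.not | apply PD.iff | apply PD.or | apply PD.and | apply PD.imp | apply PD.ex | apply PD.all | exact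 PD.const _ | assumption | refine PF.comp1 (F := _) (by assumption) ?_ | refine PF.comp2 (F := _) (by assumption) ?_ ?_ | refine PF.comp3 (F := _) (by assumption) ?_ ?_ ?_ | refine PD.app1 (R := _) (by assumption) ?_ | refine PD.app2 (R := _) (by assumption) ?_ ?_ | refine PD.app3 (R := _) (by assumption) ?_ ?_ ?_ | refine PD.app4 (R := _) (by assumption) ?_ ?_ ?_ ?_))) ?_ ?_ n hn
  · exact ⟨GA.emp, a6_fn_emp, fun x hx => (not_mem_emp x hx).elim,
      fun x y hx => (not_mem_emp x hx).elim⟩
  · rintro n hn ⟨f, hf, hf2, hf3⟩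
    have hfin : Fini (ran f) := ⟨n, hn, f, hf, rfl⟩
    obtain ⟨y, hy, hyr⟩ : ∃ y, SetStr.mem y F ∧ ¬ SetStr.mem y (ran f) := by
      by_contra hcon
      push Not at hcon
      exact hF (hfin.sub hcon)
    have hne : ∀ x, SetStr.mem x n → app f x ≠ y := fun x hx h =>
      hyr (hf.mem_ran.2 ⟨x, hx, h.symm⟩)
    refine ⟨GA.adj f (op n y), a6_ext_Fn hf (not_mem_self n), fun x hx => ?_,
      fun x z hx hz hxz => ?_⟩
    · rcases mem_succ.1 hx with hx | hx
      · rw [a6_ext_old hf (not_mem_self n) hx]
        exact hf2 x hx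
      · rw [hx, a6_ext_new hf (not_mem_self n)]
        exact hy
    · rcases mem_succ.1 hx with hx | hx
      · rcases mem_succ.1 hz with hz | hz
        · rw [a6_ext_old hf (not_mem_self n) hx, a6_ext_old hf (not_mem_self n) hz] at hxz
          exact hf3 x z hx hz hxz
        · rw [hz, a6_ext_old hf (not_mem_self n) hx, a6_ext_new hf (not_mem_self n)] at hxz
          exact (hne x hx hxz).elim
      · rcases mem_succ.1 hz with hz | hz
        · rw [hx, a6_ext_old hf (not_mem_self n) hz, a6_ext_new hf (not_mem_self n)] at hxz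
          exact (hne z hz hxz.symm).elim
        · rw [hx, hz]

/-- MODULE a7.  Functions into `2` on a set with one more element. -/
theorem funs_adj_le {a y : M} (hy : ¬ SetStr.mem y a) :
    Le (funs (adj a y) tw) (prod (funs a (tw : M)) tw) := by
  have hpf : ∀ f : M, PF (fun v : ℕ → M => app f (v 0)) := fun f => by (repeat' (with_reducible first | apply pf_hh | apply pd_Spr | apply pd_Inj | apply pf_har | apply pd_Le | apply pf_fins | apply pf_card | apply pd_Bij | apply pd_Fini | apply pd_Big | apply pd_Ord | apply pd_Tr | apply pd_Ind | apply pf_succ | apply pf_funs | apply pf_prod | apply pf_lam | apply pd_Fn | apply pf_app | apply pf_ran | apply pf_dom | apply PF.img | apply PF.pow | apply PD.sub | apply PF.adj | apply PF.un | apply PF.sUn | apply PF.op | apply PF.pr | apply PF.sep | exact PF.var _ | exact PF.const _ | apply PD.eq | apply PD.mem | apply PD.not | apply PD.iff | apply PD.or | apply PD.and | apply PD.imp | apply PD.ex | apply PD.all | exact PD.const _ | assumption | refine PF.comp1 (F := _) (by assumption)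 ?_ | refine PF.comp2 (F := _) (by assumption) ?_ ?_ | refine PF.comp3 (F := _) (by assumption) ?_ ?_ ?_ | refine PD.app1 (R := _) (by assumption) ?_ | refine PD.app2 (R := _) (by assumption) ?_ ?_ | refine PD.app3 (R := _) (by assumption) ?_ ?_ ?_ | refine PD.app4 (R := _) (by assumption) ?_ ?_ ?_ ?_))
  refine Le.of_fun (F := fun f => op (lam (fun x => app f x) a) (app f y)) ?_ ?_ ?_
  · refine PF.op (pf_lam (F := fun x v => app (v 0) x) (PF.const _) ?_) ?_
    · exact pf_app (PF.var 1) (PF.var 0)
    · exact pf_app (PF.var 0) (PF.const _)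
  · intro f hf
    rw [mem_funs] at hf
    rw [op_mem_prod, mem_funs]
    refine ⟨⟨lam_Fn (hpf f) a, fun x hx => ?_⟩, hf.2 y (mem_adj.2 (Or.inr rfl))⟩
    rw [app_lam (hpf f) hx]
    exact hf.2 x (mem_adj.2 (Or.inl hx))
  · intro f g hf hg hfg
    rw [mem_funs] at hf hg
    simp only [op_inj] at hfg
    refine hf.1.ext hg.1 (fun x hx => ?_)
    rcases mem_adj.1 hx with hx | hx
    · rw [← app_lam (hpf f) hx, ← app_lam (hpf g) hx, hfg.1]
    · rw [hx]
      exact hfg.2

/-- MODULE a7 -/
theorem le_funs_adj {a y : M} (hy : ¬ SetStr.mem y a) :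
    Le (prod (funs a (tw : M)) tw) (funs (adj a y) tw) := by
  refine Le.of_fun (F := fun z => GA.adj (a3_fst z) (op y (a3_snd z))) ?_ ?_ ?_
  · exact PF.adj (a3_pf_fst (PF.var 0)) (PF.op (PF.const _) (a3_pf_snd (PF.var 0)))
  · intro z hz
    obtain ⟨f, hf, b, hb, rfl⟩ := mem_prod.1 hz
    rw [mem_funs] at hf
    simp only [a3_fst_op, a3_snd_op]
    rw [mem_funs]
    refine ⟨a6_ext_Fn hf.1 hy, fun x hx => ?_⟩
    rcases mem_adj.1 hx with hx | hx
    · rw [a6_ext_old hf.1 hy hx]
      exact hf.2 x hx
    · rw [hx, a6_ext_new hf.1 hy]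
      exact hb
  · intro z z' hz hz' hzz
    obtain ⟨f, hf, b, hb, rfl⟩ := mem_prod.1 hz
    obtain ⟨f', hf', b', hb', rfl⟩ := mem_prod.1 hz'
    rw [mem_funs] at hf hf'
    simp only [a3_fst_op, a3_snd_op] at hzz
    have h1 : b = b' := by
      rw [← a6_ext_new (y := b) hf.1 hy, hzz, a6_ext_new hf'.1 hy]
    have h2 : f = f' := by
      refine hf.1.ext hf'.1 (fun x hx => ?_)
      rw [← a6_ext_old (y := b) hf.1 hy hx, hzz, a6_ext_old hf'.1 hy hx]
    rw [h1, h2]

/-- MODULE a7 -/
theorem fini_funs {a : M} (ha : Fini a) : Fini (funs a (tw : M)) := by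
  have hpd : PD (fun v : ℕ → M => Fini (funs (v 0) (tw : M))) :=
    pd_Fini (pf_funs (PF.var 0) (PF.const _))
  refine fini_ind (P := fun a => Fini (funs a (tw : M))) hpd ?_ ?_ a ha
  · refine (Fini.pr (emp : M) emp).sub (fun f hf => ?_)
    rw [mem_funs] at hf
    rw [mem_pr]
    left
    refine ext (fun z => ⟨fun hz => ?_, fun hz => (not_mem_emp z hz).elim⟩)
    obtain ⟨x, hx, -⟩ := hf.1.1 z hz
    exact (not_mem_emp x hx).elim
  · intro a y _ ih
    by_cases hy : SetStr.mem y a
    · have h1 : GA.adj a y = a := ext (fun z => by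
        rw [mem_adj]
        exact ⟨fun h => h.elim id (fun h => by rw [h]; exact hy), Or.inl⟩)
      rw [h1]
      exact ih
    · exact Fini.of_le (funs_adj_le hy) (ih.prod Fini.tw)

/-- MODULE a7.  The empty function. -/
theorem exists_mem_funs (a : M) : ∃ z, SetStr.mem z (funs a (tw : M)) := by
  have hpf : PF (fun _ : ℕ → M => (emp : M)) := PF.const _
  refine ⟨lam (fun _ => emp) a, ?_⟩
  rw [mem_funs]
  refine ⟨lam_Fn hpf a, fun x hx => ?_⟩
  rw [app_lam hpf hx]
  exact mem_tw.2 (Or.inl rfl)

/-- MODULE a8.  Functions on a disjoint union. -/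
theorem funs_un_le {a b : M} (h : ∀ i, SetStr.mem i a → ¬ SetStr.mem i b) :
    Le (funs (un a b) tw) (prod (funs a (tw : M)) (funs b tw)) := by
  have hpf : ∀ f : M, PF (fun v : ℕ → M => app f (v 0)) := fun f => by (repeat' (with_reducible first | apply pf_hh | apply pd_Spr | apply pd_Inj | apply pf_har | apply pd_Le | apply pf_fins | apply pf_card | apply pd_Bij | apply pd_Fini | apply pd_Big | apply pd_Ord | apply pd_Tr | apply pd_Ind | apply pf_succ | apply pf_funs | apply pf_prod | apply pf_lam | apply pd_Fn | apply pf_app | apply pf_ran | apply pf_dom | apply PF.img | apply PF.pow | apply PD.sub | apply PF.adj | apply PF.un | apply PF.sUn | apply PF.op | apply PF.pr | apply PF.sep | exact PF.var _ | exact PF.const _ | apply PD.eq | apply PD.mem | apply PD.not | apply PD.iff | apply PD.or | apply PD.and | apply PD.imp | apply PD.ex | apply PD.all | exact PD.const _ | assumption | refine PF.comp1 (F := _) (by assumption) ?_ | refine PF.comp2 (F := _) (by assumption) ?_ ?_ | refine PF.comp3 (F := _) (by assumption) ?_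 ?_ ?_ | refine PD.app1 (R := _) (by assumption) ?_ | refine PD.app2 (R := _) (by assumption) ?_ ?_ | refine PD.app3 (R := _) (by assumption) ?_ ?_ ?_ | refine PD.app4 (R := _) (by assumption) ?_ ?_ ?_ ?_))
  refine Le.of_fun (F := fun f => op (lam (fun x => app f x) a) (lam (fun x => app f x) b))
    ?_ ?_ ?_
  · exact PF.op (pf_lam (F := fun x v => app (v 0) x) (PF.const _) (pf_app (PF.var 1) (PF.var 0)))
      (pf_lam (F := fun x v => app (v 0) x) (PF.const _) (pf_app (PF.var 1) (PF.var 0)))
  · intro f hf
    rw [mem_funs] at hf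
    rw [op_mem_prod, mem_funs, mem_funs]
    refine ⟨⟨lam_Fn (hpf f) a, fun x hx => ?_⟩, ⟨lam_Fn (hpf f) b, fun x hx => ?_⟩⟩
    · rw [app_lam (hpf f) hx]
      exact hf.2 x (mem_un.2 (Or.inl hx))
    · rw [app_lam (hpf f) hx]
      exact hf.2 x (mem_un.2 (Or.inr hx))
  · intro f g hf hg hfg
    rw [mem_funs] at hf hg
    simp only [op_inj] at hfg
    refine hf.1.ext hg.1 (fun x hx => ?_)
    rcases mem_un.1 hx with hx | hx
    · rw [← app_lam (hpf f) hx, ← app_lam (hpf g) hx, hfg.1]
    · rw [← app_lam (hpf f) hx, ← app_lam (hpf g) hx, hfg.2]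

private theorem a8_Fn {a b f g : M} (h : ∀ i, SetStr.mem i a → ¬ SetStr.mem i b) (hf : Fn f a) (hg : Fn g b) :
    Fn (un f g) (un a b) := by
  constructor
  · intro z hz
    rcases mem_un.1 hz with hz | hz
    · obtain ⟨x, hx, y, rfl⟩ := hf.1 z hz
      exact ⟨x, mem_un.2 (Or.inl hx), y, rfl⟩
    · obtain ⟨x, hx, y, rfl⟩ := hg.1 z hz
      exact ⟨x, mem_un.2 (Or.inr hx), y, rfl⟩
  · intro x hx
    have hex : ∃ y, SetStr.mem (op x y) (un f g) := by
      rcases mem_un.1 hx with hx | hx
      · exact ⟨_, mem_un.2 (Or.inl (hf.app_mem hx))⟩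
      · exact ⟨_, mem_un.2 (Or.inr (hg.app_mem hx))⟩
    refine ⟨hex, fun y y' hy hy' => ?_⟩
    rcases mem_un.1 hy with hy | hy
    · have hxa := (hf.mem_iff.1 hy).1
      rcases mem_un.1 hy' with hy' | hy'
      · exact (hf.2 x hxa).2 y y' hy hy'
      · exact (h x hxa (hg.mem_iff.1 hy').1).elim
    · have hxb := (hg.mem_iff.1 hy).1
      rcases mem_un.1 hy' with hy' | hy'
      · exact (h x (hf.mem_iff.1 hy').1 hxb).elim
      · exact (hg.2 x hxb).2 y y' hy hy'

private theorem a8_left {a b f g x : M} (h : ∀ i, SetStr.mem i a → ¬ SetStr.mem i b) (hf : Fn f a)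
    (hg : Fn g b) (hx : SetStr.mem x a) : app (un f g) x = app f x :=
  (((a8_Fn h hf hg).mem_iff (x := x) (y := app f x)).1
    (mem_un.2 (Or.inl (hf.app_mem hx)))).2.symm

private theorem a8_right {a b f g x : M} (h : ∀ i, SetStr.mem i a → ¬ SetStr.mem i b) (hf : Fn f a)
    (hg : Fn g b) (hx : SetStr.mem x b) : app (un f g) x = app g x :=
  (((a8_Fn h hf hg).mem_iff (x := x) (y := app g x)).1
    (mem_un.2 (Or.inr (hg.app_mem hx)))).2.symm

/-- MODULE a8 -/
theorem le_funs_un {a b : M} (h : ∀ i, SetStr.mem i a → ¬ SetStr.mem i b) :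
    Le (prod (funs a (tw : M)) (funs b tw)) (funs (un a b) tw) := by
  refine Le.of_fun (F := fun z => un (a3_fst z) (a3_snd z)) ?_ ?_ ?_
  · exact PF.un (a3_pf_fst (PF.var 0)) (a3_pf_snd (PF.var 0))
  · intro z hz
    obtain ⟨f, hf, g, hg, rfl⟩ := mem_prod.1 hz
    rw [mem_funs] at hf hg
    simp only [a3_fst_op, a3_snd_op]
    rw [mem_funs]
    refine ⟨a8_Fn h hf.1 hg.1, fun x hx => ?_⟩
    rcases mem_un.1 hx with hx | hx
    · rw [a8_left h hf.1 hg.1 hx]
      exact hf.2 x hx
    · rw [a8_right h hf.1 hg.1 hx]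
      exact hg.2 x hx
  · intro z z' hz hz' hzz
    obtain ⟨f, hf, g, hg, rfl⟩ := mem_prod.1 hz
    obtain ⟨f', hf', g', hg', rfl⟩ := mem_prod.1 hz'
    rw [mem_funs] at hf hf' hg hg'
    simp only [a3_fst_op, a3_snd_op] at hzz
    have h1 : f = f' := hf.1.ext hf'.1 (fun x hx => by
      rw [← a8_left h hf.1 hg.1 hx, hzz, a8_left h hf'.1 hg'.1 hx])
    have h2 : g = g' := hg.1.ext hg'.1 (fun x hx => by
      rw [← a8_right h hf.1 hg.1 hx, hzz, a8_right h hf'.1 hg'.1 hx])
    rw [h1, h2]

/-- MODULE a9.  For every `k` there is a natural number which does not inject into `2^k`. -/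
theorem exists_not_le_funs {k : M} (hk : SetStr.mem k (om : M)) :
    ∃ n, SetStr.mem n (om : M) ∧ ¬ Le n (funs k tw) := by
  have hfin := fini_funs (Fini.of_mem_om hk)
  have hc := card_mem_om hfin
  refine ⟨succ (card (funs k tw)), succ_mem_om hc, fun h => ?_⟩
  have h1 := a3_card (Fini.of_mem_om (succ_mem_om hc)) hfin h
  have hid : PF (fun v : ℕ → M => v 0) := PF.var 0
  have h2 : card (succ (card (funs k tw)) : M) = succ (card (funs k tw)) := by
    refine (card_eq_iff (Fini.of_mem_om (succ_mem_om hc))).2 ⟨succ_mem_om hc,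
      lam (fun x => x) (succ (card (funs k tw))), lam_Fn hid _, fun x hx => ?_, fun y hy => ?_,
      fun x y hx hy hxy => ?_⟩
    · rw [app_lam hid hx]
      exact hx
    · exact ⟨y, hy, app_lam hid hy⟩
    · rw [app_lam hid hx, app_lam hid hy] at hxy
      exact hxy
  rw [h2] at h1
  have h3 : SetStr.mem (card (funs k tw)) (succ (card (funs k (tw : M)))) := mem_succ.2 (Or.inr rfl)
  rcases h1 with h1 | h1
  · rw [h1] at h3
    exact not_mem_self _ h3
  · exact not_mem_mem h1 h3

end GA
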