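import Pool.Agent.GA.RmA

/-!
# Random forcing, part B: clopen subsets of `2^I` and their measure

`I` is a set of `M`.  A clopen set is a set `c` of functions from `I` to `2` which depends only on
finitely many coordinates.  `Sm I k c` says that the measure of `c` is at most `2^-k`.
-/

universe u

namespace GA

variable {M : Type u} [SetStr M] [IsZF M]

/-- The restriction of the function `x` to `a`. -/
noncomputable def rs (x a : M) : M := lam (fun i => app x i) a

theorem pf_rs {f g : (ℕ → M) → M} (hf : PF f) (hg : PF g) : PF (fun v => rs (f v) (g v)) :=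
  PF.comp2 (F := fun x y => rs x y) (by unfold rs; (repeat' (with_reducible first | apply pf_hh | apply pd_Spr | apply pd_Inj | apply pf_har | apply pd_Le | apply pf_fins | apply pf_card | apply pd_Bij | apply pd_Fini | apply pd_Big | apply pd_Ord | apply pd_Tr | apply pd_Ind | apply pf_succ | apply pf_funs | apply pf_prod | apply pf_lam | apply pd_Fn | apply pf_app | apply pf_ran | apply pf_dom | apply PF.img | apply PF.pow | apply PD.sub | apply PF.adj | apply PF.un | apply PF.sUn | apply PF.op | apply PF.pr | apply PF.sep | exact PF.var _ | exact PF.const _ | apply PD.eq | apply PD.mem | apply PD.not | apply PD.iff | apply PD.or | apply PD.and | apply PD.imp | apply PD.ex | apply PD.all | exact PD.const _ | assumption | refine PF.comp1 (F := _) (by assumption) ?_ | refine PF.comp2 (F := _) (by assumption) ?_ ?_ | refine PF.comp3 (F := _) (by assumption) ?_ ?_ ?_ | refine PD.app1 (R := _) (by assumption) ?_ | refine PD.app2 (R := _) (by assumption) ?_ ?_ | refine PD.app3 (R := _) (by assumption) ?_ ?_ ?_ | refine PD.app4 (R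 := _) (by assumption) ?_ ?_ ?_ ?_))) hf hg


/-- `c` is a set of functions from `I` to `2` which depends only on the coordinates in the finite
set `a`. -/
def Dep (I c a : M) : Prop :=
  GA.sub a I ∧ Fini a ∧ GA.sub c (funs I tw) ∧
    ∀ x y, SetStr.mem x c → SetStr.mem y (funs I tw) → (∀ i, SetStr.mem i a → app x i = app y i) → SetStr.mem y c

theorem pd_Dep {f g h : (ℕ → M) → M} (hf : PF f) (hg : PF g) (hh : PF h) :
    PD (fun v => Dep (f v) (g v) (h v)) :=
  PD.app3 (R := fun x y z => Dep x y z) (by unfold Dep; (repeat' (with_reducible first | apply pf_rs | apply pf_hh | apply pd_Spr | apply pd_Inj | apply pf_har | apply pd_Le | apply pf_fins | apply pf_card | apply pd_Bij | apply pd_Fini | apply pd_Big | apply pd_Ord | apply pd_Tr | apply pd_Ind | apply pf_succ | apply pf_funs | apply pf_prod | apply pf_lam | apply pd_Fn | apply pf_app | apply pf_ran | apply pf_dom | apply PF.img | apply PF.pow | apply PD.sub | apply PF.adj | apply PF.un | apply PF.sUn | apply PF.op | apply PF.pr | apply PF.sep | exact PF.var _ | exact PF.const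 _ | apply PD.eq | apply PD.mem | apply PD.not | apply PD.iff | apply PD.or | apply PD.and | apply PD.imp | apply PD.ex | apply PD.all | exact PD.const _ | assumption | refine PF.comp1 (F := _) (by assumption) ?_ | refine PF.comp2 (F := _) (by assumption) ?_ ?_ | refine PF.comp3 (F := _) (by assumption) ?_ ?_ ?_ | refine PD.app1 (R := _) (by assumption) ?_ | refine PD.app2 (R := _) (by assumption) ?_ ?_ | refine PD.app3 (R := _) (by assumption) ?_ ?_ ?_ | refine PD.app4 (R := _) (by assumption) ?_ ?_ ?_ ?_))) hf hg hh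


/-- `c` is a clopen subset of `2^I`. -/
def Clo (I c : M) : Prop := ∃ a, Dep I c a

theorem pd_Clo {f g : (ℕ → M) → M} (hf : PF f) (hg : PF g) : PD (fun v => Clo (f v) (g v)) :=
  PD.app2 (R := fun x y => Clo x y) (by unfold Clo; (repeat' (with_reducible first | apply pd_Dep | apply pf_rs | apply pf_hh | apply pd_Spr | apply pd_Inj | apply pf_har | apply pd_Le | apply pf_fins | apply pf_card | apply pd_Bij | apply pd_Fini | apply pd_Big | apply pd_Ord | apply pd_Tr | apply pd_Ind | apply pf_succ | apply pf_funs | apply pf_prod | apply pf_lam | apply pd_Fn | apply pf_app | apply pf_ran | apply pf_dom | apply PF.img | apply PF.pow | apply PD.sub | apply PF.adj | apply PF.un | apply PF.sUn | apply PF.op | apply PF.pr | apply PF.sep | exact PF.var _ | exact PF.const _ | apply PD.eq | apply PD.mem | apply PD.not | apply PD.iff | apply PD.or | apply PD.and | apply PD.imp | apply PD.ex | apply PD.all | exact PD.const _ | assumption | refine PF.comp1 (F := _) (by assumption) ?_ | refine PF.comp2 (F := _) (by assumption) ?_ ?_ | refine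 PF.comp3 (F := _) (by assumption) ?_ ?_ ?_ | refine PD.app1 (R := _) (by assumption) ?_ | refine PD.app2 (R := _) (by assumption) ?_ ?_ | refine PD.app3 (R := _) (by assumption) ?_ ?_ ?_ | refine PD.app4 (R := _) (by assumption) ?_ ?_ ?_ ?_))) hf hg


/-- The set of restrictions to `a` of the elements of `c`. -/
noncomputable def trc (c a : M) : M := img (fun x => rs x a) c

theorem mem_trc {c a u : M} : SetStr.mem u (trc c a) ↔ ∃ x, SetStr.mem x c ∧ u = rs x a := mem_img (by (repeat' (with_reducible first | apply pd_Clo | apply pd_Dep | apply pf_rs | apply pf_hh | apply pd_Spr | apply pd_Inj | apply pf_har | apply pd_Le | apply pf_fins | apply pf_card | apply pd_Bij | apply pd_Fini | apply pd_Big | apply pd_Ord | apply pd_Tr | apply pd_Ind | apply pf_succ | apply pf_funs | apply pf_prod | apply pf_lam | apply pd_Fn | apply pf_app | apply pf_ran | apply pf_dom | apply PF.img | apply PF.pow | apply PD.sub | apply PF.adj | apply PF.un | apply PF.sUn | apply PF.op | apply PF.pr | apply PF.sep | exact PF.var _ | exact PF.const _ |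 apply PD.eq | apply PD.mem | apply PD.not | apply PD.iff | apply PD.or | apply PD.and | apply PD.imp | apply PD.ex | apply PD.all | exact PD.const _ | assumption | refine PF.comp1 (F := _) (by assumption) ?_ | refine PF.comp2 (F := _) (by assumption) ?_ ?_ | refine PF.comp3 (F := _) (by assumption) ?_ ?_ ?_ | refine PD.app1 (R := _) (by assumption) ?_ | refine PD.app2 (R := _) (by assumption) ?_ ?_ | refine PD.app3 (R := _) (by assumption) ?_ ?_ ?_ | refine PD.app4 (R := _) (by assumption) ?_ ?_ ?_ ?_)))

theorem pf_trc {f g : (ℕ → M) → M} (hf : PF f) (hg : PF g) : PF (fun v => trc (f v) (g v)) :=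
  PF.comp2 (F := fun x y => trc x y) (by unfold trc; (repeat' (with_reducible first | apply pd_Clo | apply pd_Dep | apply pf_rs | apply pf_hh | apply pd_Spr | apply pd_Inj | apply pf_har | apply pd_Le | apply pf_fins | apply pf_card | apply pd_Bij | apply pd_Fini | apply pd_Big | apply pd_Ord | apply pd_Tr | apply pd_Ind | apply pf_succ | apply pf_funs | apply pf_prod | apply pf_lam | apply pd_Fn | apply pf_app | apply pf_ran | apply pf_dom | apply PF.img | apply PF.pow | apply PD.sub | apply PF.adj | apply PF.un | apply PF.sUn | apply PF.op | apply PF.pr | apply PF.sep | exact PF.var _ | exact PF.const _ | apply PD.eq | apply PD.mem | apply PD.not | apply PD.iff | apply PD.or | apply PD.and | apply PD.imp | apply PD.ex | apply PD.all | exact PD.const _ | assumption | refine PF.comp1 (F := _) (by assumption) ?_ | refine PF.comp2 (F := _) (by assumption) ?_ ?_ | refine PF.comp3 (F := _) (by assumption) ?_ ?_ ?_ | refine PD.app1 (R := _) (by assumption) ?_ | refine PD.app2 (R := _) (by assumption) ?_ ?_ | refine PD.app3 (R := _)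 (by assumption) ?_ ?_ ?_ | refine PD.app4 (R := _) (by assumption) ?_ ?_ ?_ ?_))) hf hg


/-- The measure of the clopen set `c` is at most `2^-k`: for a finite set `a` of coordinates on which
`c` depends there is an injection from `(c|a) × 2^k` to `2^a`. -/
def Sm (I k c : M) : Prop := ∃ a, Dep I c a ∧ Le (prod (trc c a) (funs k tw)) (funs a tw)

theorem pd_Sm {f g h : (ℕ → M) → M} (hf : PF f) (hg : PF g) (hh : PF h) :
    PD (fun v => Sm (f v) (g v) (h v)) :=
  PD.app3 (R := fun x y z => Sm x y z) (by unfold Sm; (repeat' (with_reducible first | apply pf_trc | apply pd_Clo | apply pd_Dep | apply pf_rs | apply pf_hh | apply pd_Spr | apply pd_Inj | apply pf_har | apply pd_Le | apply pf_fins | apply pf_card | apply pd_Bij | apply pd_Fini | apply pd_Big | apply pd_Ord | apply pd_Tr | apply pd_Ind | apply pf_succ | apply pf_funs | apply pf_prod | apply pf_lam | apply pd_Fn | apply pf_app | apply pf_ran | apply pf_dom | apply PF.img | apply PF.pow | apply PD.sub | apply PF.adj | apply PF.un | apply PF.sUn | apply PF.op | apply PF.pr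 | apply PF.sep | exact PF.var _ | exact PF.const _ | apply PD.eq | apply PD.mem | apply PD.not | apply PD.iff | apply PD.or | apply PD.and | apply PD.imp | apply PD.ex | apply PD.all | exact PD.const _ | assumption | refine PF.comp1 (F := _) (by assumption) ?_ | refine PF.comp2 (F := _) (by assumption) ?_ ?_ | refine PF.comp3 (F := _) (by assumption) ?_ ?_ ?_ | refine PD.app1 (R := _) (by assumption) ?_ | refine PD.app2 (R := _) (by assumption) ?_ ?_ | refine PD.app3 (R := _) (by assumption) ?_ ?_ ?_ | refine PD.app4 (R := _) (by assumption) ?_ ?_ ?_ ?_))) hf hg hh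


/-- Intersection. -/
noncomputable def it (c d : M) : M := sep c (fun x => SetStr.mem x d)

@[simp] theorem mem_it {c d x : M} : SetStr.mem x (it c d) ↔ SetStr.mem x c ∧ SetStr.mem x d := mem_sep (by (repeat' (with_reducible first | apply pd_Sm | apply pf_trc | apply pd_Clo | apply pd_Dep | apply pf_rs | apply pf_hh | apply pd_Spr | apply pd_Inj | apply pf_har | apply pd_Le | apply pf_fins | apply pf_card | apply pd_Bij | apply pd_Fini | apply pd_Big | apply pd_Ord | apply pd_Tr | apply pd_Ind | apply pf_succ | apply pf_funs | apply pf_prod | apply pf_lam | apply pd_Fn | apply pf_app | apply pf_ran | apply pf_dom | apply PF.img | apply PF.pow | apply PD.sub | apply PF.adj | apply PF.un | apply PF.sUn | apply PF.op | apply PF.pr | apply PF.sep | exact PF.var _ | exact PF.const _ | apply PD.eq | apply PD.mem | apply PD.not | apply PD.iff | apply PD.or | apply PD.and | apply PD.imp | apply PD.ex | apply PD.all | exact PD.const _ | assumption | refine PF.comp1 (F := _) (by assumption) ?_ | refine PF.comp2 (F := _) (by assumption)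 ?_ ?_ | refine PF.comp3 (F := _) (by assumption) ?_ ?_ ?_ | refine PD.app1 (R := _) (by assumption) ?_ | refine PD.app2 (R := _) (by assumption) ?_ ?_ | refine PD.app3 (R := _) (by assumption) ?_ ?_ ?_ | refine PD.app4 (R := _) (by assumption) ?_ ?_ ?_ ?_)))

theorem pf_it {f g : (ℕ → M) → M} (hf : PF f) (hg : PF g) : PF (fun v => it (f v) (g v)) :=
  PF.comp2 (F := fun x y => it x y) (by unfold it; (repeat' (with_reducible first | apply pd_Sm | apply pf_trc | apply pd_Clo | apply pd_Dep | apply pf_rs | apply pf_hh | apply pd_Spr | apply pd_Inj | apply pf_har | apply pd_Le | apply pf_fins | apply pf_card | apply pd_Bij | apply pd_Fini | apply pd_Big | apply pd_Ord | apply pd_Tr | apply pd_Ind | apply pf_succ | apply pf_funs | apply pf_prod | apply pf_lam | apply pd_Fn | apply pf_app | apply pf_ran | apply pf_dom | apply PF.img | apply PF.pow | apply PD.sub | apply PF.adj | apply PF.un | apply PF.sUn | apply PF.op | apply PF.pr | apply PF.sep | exact PF.var _ | exact PF.const _ | apply PD.eq | apply PD.mem | apply PD.not | apply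 PD.iff | apply PD.or | apply PD.and | apply PD.imp | apply PD.ex | apply PD.all | exact PD.const _ | assumption | refine PF.comp1 (F := _) (by assumption) ?_ | refine PF.comp2 (F := _) (by assumption) ?_ ?_ | refine PF.comp3 (F := _) (by assumption) ?_ ?_ ?_ | refine PD.app1 (R := _) (by assumption) ?_ | refine PD.app2 (R := _) (by assumption) ?_ ?_ | refine PD.app3 (R := _) (by assumption) ?_ ?_ ?_ | refine PD.app4 (R := _) (by assumption) ?_ ?_ ?_ ?_))) hf hg


/-- Difference. -/
noncomputable def df (c d : M) : M := sep c (fun x => ¬ SetStr.mem x d)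

@[simp] theorem mem_df {c d x : M} : SetStr.mem x (df c d) ↔ SetStr.mem x c ∧ ¬ SetStr.mem x d := mem_sep (by (repeat' (with_reducible first | apply pf_it | apply pd_Sm | apply pf_trc | apply pd_Clo | apply pd_Dep | apply pf_rs | apply pf_hh | apply pd_Spr | apply pd_Inj | apply pf_har | apply pd_Le | apply pf_fins | apply pf_card | apply pd_Bij | apply pd_Fini | apply pd_Big | apply pd_Ord | apply pd_Tr | apply pd_Ind | apply pf_succ | apply pf_funs | apply pf_prod | apply pf_lam | apply pd_Fn | apply pf_app | apply pf_ran | apply pf_dom | apply PF.img | apply PF.pow | apply PD.sub | apply PF.adj | apply PF.un | apply PF.sUn | apply PF.op | apply PF.pr | apply PF.sep | exact PF.var _ | exact PF.const _ | apply PD.eq | apply PD.mem | apply PD.not | apply PD.iff | apply PD.or | apply PD.and | apply PD.imp | apply PD.ex | apply PD.all | exact PD.const _ | assumption | refine PF.comp1 (F := _) (by assumption) ?_ | refine PF.comp2 (F := _) (by assumption) ?_ ?_ | refine PF.comp3 (F := _) (by assumption) ?_ ?_ ?_ | refine PD.app1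 (R := _) (by assumption) ?_ | refine PD.app2 (R := _) (by assumption) ?_ ?_ | refine PD.app3 (R := _) (by assumption) ?_ ?_ ?_ | refine PD.app4 (R := _) (by assumption) ?_ ?_ ?_ ?_)))

theorem pf_df {f g : (ℕ → M) → M} (hf : PF f) (hg : PF g) : PF (fun v => df (f v) (g v)) :=
  PF.comp2 (F := fun x y => df x y) (by unfold df; (repeat' (with_reducible first | apply pf_it | apply pd_Sm | apply pf_trc | apply pd_Clo | apply pd_Dep | apply pf_rs | apply pf_hh | apply pd_Spr | apply pd_Inj | apply pf_har | apply pd_Le | apply pf_fins | apply pf_card | apply pd_Bij | apply pd_Fini | apply pd_Big | apply pd_Ord | apply pd_Tr | apply pd_Ind | apply pf_succ | apply pf_funs | apply pf_prod | apply pf_lam | apply pd_Fn | apply pf_app | apply pf_ran | apply pf_dom | apply PF.img | apply PF.pow | apply PD.sub | apply PF.adj | apply PF.un | apply PF.sUn | apply PF.op | apply PF.pr | apply PF.sep | exact PF.var _ | exact PF.const _ | apply PD.eq | apply PD.mem | apply PD.not | apply PD.iff | apply PD.or | apply PD.and | apply PD.imp | apply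 PD.ex | apply PD.all | exact PD.const _ | assumption | refine PF.comp1 (F := _) (by assumption) ?_ | refine PF.comp2 (F := _) (by assumption) ?_ ?_ | refine PF.comp3 (F := _) (by assumption) ?_ ?_ ?_ | refine PD.app1 (R := _) (by assumption) ?_ | refine PD.app2 (R := _) (by assumption) ?_ ?_ | refine PD.app3 (R := _) (by assumption) ?_ ?_ ?_ | refine PD.app4 (R := _) (by assumption) ?_ ?_ ?_ ?_))) hf hg


/-- Symmetric difference. -/
noncomputable def sd (c d : M) : M := un (df c d) (df d c)

theorem mem_sd {c d x : M} : SetStr.mem x (sd c d) ↔ (SetStr.mem x c ∧ ¬ SetStr.mem x d) ∨ (SetStr.mem x d ∧ ¬ SetStr.mem x c) := by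
  unfold sd
  simp

theorem pf_sd {f g : (ℕ → M) → M} (hf : PF f) (hg : PF g) : PF (fun v => sd (f v) (g v)) :=
  PF.comp2 (F := fun x y => sd x y) (by unfold sd; (repeat' (with_reducible first | apply pf_df | apply pf_it | apply pd_Sm | apply pf_trc | apply pd_Clo | apply pd_Dep | apply pf_rs | apply pf_hh | apply pd_Spr | apply pd_Inj | apply pf_har | apply pd_Le | apply pf_fins | apply pf_card | apply pd_Bij | apply pd_Fini | apply pd_Big | apply pd_Ord | apply pd_Tr | apply pd_Ind | apply pf_succ | apply pf_funs | apply pf_prod | apply pf_lam | apply pd_Fn | apply pf_app | apply pf_ran | apply pf_dom | apply PF.img | apply PF.pow | apply PD.sub | apply PF.adj | apply PF.un | apply PF.sUn | apply PF.op | apply PF.pr | apply PF.sep | exact PF.var _ | exact PF.const _ | apply PD.eq | apply PD.mem | apply PD.not | apply PD.iff | apply PD.or | apply PD.and | apply PD.imp | apply PD.ex | apply PD.all | exact PD.const _ | assumption | refine PF.comp1 (F := _) (by assumption) ?_ | refine PF.comp2 (F := _) (by assumption) ?_ ?_ | refine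 PF.comp3 (F := _) (by assumption) ?_ ?_ ?_ | refine PD.app1 (R := _) (by assumption) ?_ | refine PD.app2 (R := _) (by assumption) ?_ ?_ | refine PD.app3 (R := _) (by assumption) ?_ ?_ ?_ | refine PD.app4 (R := _) (by assumption) ?_ ?_ ?_ ?_))) hf hg


/-- The clopen set of all `x` with `x(i) = m`. -/
noncomputable def bit (I i m : M) : M := sep (funs I tw) (fun x => app x i = m)

theorem mem_bit {I i m x : M} : SetStr.mem x (bit I i m) ↔ SetStr.mem x (funs I tw) ∧ app x i = m := mem_sep (by (repeat' (with_reducible first | apply pf_sd | apply pf_df | apply pf_it | apply pd_Sm | apply pf_trc | apply pd_Clo | apply pd_Dep | apply pf_rs | apply pf_hh | apply pd_Spr | apply pd_Inj | apply pf_har | apply pd_Le | apply pf_fins | apply pf_card | apply pd_Bij | apply pd_Fini | apply pd_Big | apply pd_Ord | apply pd_Tr | apply pd_Ind | apply pf_succ | apply pf_funs | apply pf_prod | apply pf_lam | apply pd_Fn | apply pf_app | apply pf_ran | apply pf_dom | apply PF.img | apply PF.pow | apply PD.sub | apply PF.adj | apply PF.un | apply PF.sUn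 | apply PF.op | apply PF.pr | apply PF.sep | exact PF.var _ | exact PF.const _ | apply PD.eq | apply PD.mem | apply PD.not | apply PD.iff | apply PD.or | apply PD.and | apply PD.imp | apply PD.ex | apply PD.all | exact PD.const _ | assumption | refine PF.comp1 (F := _) (by assumption) ?_ | refine PF.comp2 (F := _) (by assumption) ?_ ?_ | refine PF.comp3 (F := _) (by assumption) ?_ ?_ ?_ | refine PD.app1 (R := _) (by assumption) ?_ | refine PD.app2 (R := _) (by assumption) ?_ ?_ | refine PD.app3 (R := _) (by assumption) ?_ ?_ ?_ | refine PD.app4 (R := _) (by assumption) ?_ ?_ ?_ ?_)))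

theorem pf_bit {f g h : (ℕ → M) → M} (hf : PF f) (hg : PF g) (hh : PF h) :
    PF (fun v => bit (f v) (g v) (h v)) :=
  PF.comp3 (F := fun x y z => bit x y z) (by unfold bit; (repeat' (with_reducible first | apply pf_sd | apply pf_df | apply pf_it | apply pd_Sm | apply pf_trc | apply pd_Clo | apply pd_Dep | apply pf_rs | apply pf_hh | apply pd_Spr | apply pd_Inj | apply pf_har | apply pd_Le | apply pf_fins | apply pf_card | apply pd_Bij | apply pd_Fini | apply pd_Big | apply pd_Ord | apply pd_Tr | apply pd_Ind | apply pf_succ | apply pf_funs | apply pf_prod | apply pf_lam | apply pd_Fn | apply pf_app | apply pf_ran | apply pf_dom | apply PF.img | apply PF.pow | apply PD.sub | apply PF.adj | apply PF.un | apply PF.sUn | apply PF.op | apply PF.pr | apply PF.sep | exact PF.var _ | exact PF.const _ | apply PD.eq | apply PD.mem | apply PD.not | apply PD.iff | apply PD.or | apply PD.and | apply PD.imp | apply PD.ex | apply PD.all | exact PD.const _ | assumption | refine PF.comp1 (F := _) (by assumption) ?_ | refine PF.comp2 (F := _)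 (by assumption) ?_ ?_ | refine PF.comp3 (F := _) (by assumption) ?_ ?_ ?_ | refine PD.app1 (R := _) (by assumption) ?_ | refine PD.app2 (R := _) (by assumption) ?_ ?_ | refine PD.app3 (R := _) (by assumption) ?_ ?_ ?_ | refine PD.app4 (R := _) (by assumption) ?_ ?_ ?_ ?_))) hf hg hh


/-- MODULE b1 -/
theorem rs_mem {I x a : M} (hx : SetStr.mem x (funs I tw)) (ha : GA.sub a I) : SetStr.mem (rs x a) (funs a tw) := by
  obtain ⟨h1, h2⟩ := mem_funs.1 hx
  have hF : PF (fun v : ℕ → M => app x (v 0)) := by (repeat' (with_reducible first | apply pf_bit | apply pf_sd | apply pf_df | apply pf_it | apply pd_Sm | apply pf_trc | apply pd_Clo | apply pd_Dep | apply pf_rs | apply pf_hh | apply pd_Spr | apply pd_Inj | apply pf_har | apply pd_Le | apply pf_fins | apply pf_card | apply pd_Bij | apply pd_Fini | apply pd_Big | apply pd_Ord | apply pd_Tr | apply pd_Ind | apply pf_succ | apply pf_funs | apply pf_prod | apply pf_lam | apply pd_Fn | apply pf_app | apply pf_ran | apply pf_dom | apply PF.img | apply PF.pow | apply PD.sub | apply PF.adj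 | apply PF.un | apply PF.sUn | apply PF.op | apply PF.pr | apply PF.sep | exact PF.var _ | exact PF.const _ | apply PD.eq | apply PD.mem | apply PD.not | apply PD.iff | apply PD.or | apply PD.and | apply PD.imp | apply PD.ex | apply PD.all | exact PD.const _ | assumption | refine PF.comp1 (F := _) (by assumption) ?_ | refine PF.comp2 (F := _) (by assumption) ?_ ?_ | refine PF.comp3 (F := _) (by assumption) ?_ ?_ ?_ | refine PD.app1 (R := _) (by assumption) ?_ | refine PD.app2 (R := _) (by assumption) ?_ ?_ | refine PD.app3 (R := _) (by assumption) ?_ ?_ ?_ | refine PD.app4 (R := _) (by assumption) ?_ ?_ ?_ ?_))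
  refine mem_funs.2 ⟨lam_Fn hF a, fun i hi => ?_⟩
  unfold rs
  rw [app_lam hF hi]
  exact h2 i (ha i hi)

/-- MODULE b1 -/
theorem app_rs {x a i : M} (hi : SetStr.mem i a) : app (rs x a) i = app x i := by
  have hF : PF (fun v : ℕ → M => app x (v 0)) := by (repeat' (with_reducible first | apply pf_bit | apply pf_sd | apply pf_df | apply pf_it | apply pd_Sm | apply pf_trc | apply pd_Clo | apply pd_Dep | apply pf_rs | apply pf_hh | apply pd_Spr | apply pd_Inj | apply pf_har | apply pd_Le | apply pf_fins | apply pf_card | apply pd_Bij | apply pd_Fini | apply pd_Big | apply pd_Ord | apply pd_Tr | apply pd_Ind | apply pf_succ | apply pf_funs | apply pf_prod | apply pf_lam | apply pd_Fn | apply pf_app | apply pf_ran | apply pf_dom | apply PF.img | apply PF.pow | apply PD.sub | apply PF.adj | apply PF.un | apply PF.sUn | apply PF.op | apply PF.pr | apply PF.sep | exact PF.var _ | exact PF.const _ | apply PD.eq | apply PD.mem | apply PD.not | apply PD.iff | apply PD.or | apply PD.and | apply PD.imp | apply PD.ex | apply PD.all | exact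 PD.const _ | assumption | refine PF.comp1 (F := _) (by assumption) ?_ | refine PF.comp2 (F := _) (by assumption) ?_ ?_ | refine PF.comp3 (F := _) (by assumption) ?_ ?_ ?_ | refine PD.app1 (R := _) (by assumption) ?_ | refine PD.app2 (R := _) (by assumption) ?_ ?_ | refine PD.app3 (R := _) (by assumption) ?_ ?_ ?_ | refine PD.app4 (R := _) (by assumption) ?_ ?_ ?_ ?_))
  unfold rs
  rw [app_lam hF hi]

/-- MODULE b1 -/
theorem rs_eq_iff {x y a : M} : rs x a = rs y a ↔ ∀ i, SetStr.mem i a → app x i = app y i := by
  constructor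
  · intro h i hi
    have h1 := app_rs (x := x) hi
    rw [h, app_rs hi] at h1
    exact h1.symm
  · intro h
    have hx : PF (fun v : ℕ → M => app x (v 0)) := by (repeat' (with_reducible first | apply pf_bit | apply pf_sd | apply pf_df | apply pf_it | apply pd_Sm | apply pf_trc | apply pd_Clo | apply pd_Dep | apply pf_rs | apply pf_hh | apply pd_Spr | apply pd_Inj | apply pf_har | apply pd_Le | apply pf_fins | apply pf_card | apply pd_Bij | apply pd_Fini | apply pd_Big | apply pd_Ord | apply pd_Tr | apply pd_Ind | apply pf_succ | apply pf_funs | apply pf_prod | apply pf_lam | apply pd_Fn | apply pf_app | apply pf_ran | apply pf_dom | apply PF.img | apply PF.pow | apply PD.sub | apply PF.adj | apply PF.un | apply PF.sUn | apply PF.op | apply PF.pr | apply PF.sep | exact PF.var _ | exact PF.const _ | apply PD.eq | apply PD.mem | apply PD.not | apply PD.iff | apply PD.or | apply PD.and | apply PD.imp | apply PD.ex | apply PD.all | exact PD.const _ | assumption | refine PF.comp1 (F := _) (by assumption) ?_ | refine PF.comp2 (F :=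 _) (by assumption) ?_ ?_ | refine PF.comp3 (F := _) (by assumption) ?_ ?_ ?_ | refine PD.app1 (R := _) (by assumption) ?_ | refine PD.app2 (R := _) (by assumption) ?_ ?_ | refine PD.app3 (R := _) (by assumption) ?_ ?_ ?_ | refine PD.app4 (R := _) (by assumption) ?_ ?_ ?_ ?_))
    have hy : PF (fun v : ℕ → M => app y (v 0)) := by (repeat' (with_reducible first | apply pf_bit | apply pf_sd | apply pf_df | apply pf_it | apply pd_Sm | apply pf_trc | apply pd_Clo | apply pd_Dep | apply pf_rs | apply pf_hh | apply pd_Spr | apply pd_Inj | apply pf_har | apply pd_Le | apply pf_fins | apply pf_card | apply pd_Bij | apply pd_Fini | apply pd_Big | apply pd_Ord | apply pd_Tr | apply pd_Ind | apply pf_succ | apply pf_funs | apply pf_prod | apply pf_lam | apply pd_Fn | apply pf_app | apply pf_ran | apply pf_dom | apply PF.img | apply PF.pow | apply PD.sub | apply PF.adj | apply PF.un | apply PF.sUn | apply PF.op | apply PF.pr | apply PF.sep | exact PF.var _ | exact PF.const _ | apply PD.eq | apply PD.mem | apply PD.not | apply PD.iff | apply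 PD.or | apply PD.and | apply PD.imp | apply PD.ex | apply PD.all | exact PD.const _ | assumption | refine PF.comp1 (F := _) (by assumption) ?_ | refine PF.comp2 (F := _) (by assumption) ?_ ?_ | refine PF.comp3 (F := _) (by assumption) ?_ ?_ ?_ | refine PD.app1 (R := _) (by assumption) ?_ | refine PD.app2 (R := _) (by assumption) ?_ ?_ | refine PD.app3 (R := _) (by assumption) ?_ ?_ ?_ | refine PD.app4 (R := _) (by assumption) ?_ ?_ ?_ ?_))
    refine (lam_Fn hx a).ext (lam_Fn hy a) (fun i hi => ?_)
    rw [app_lam hx hi, app_rs (x := y) hi]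
    exact h i hi

/-- MODULE b1.  Extension by zero. -/
theorem exists_ext {I a u : M} (ha : GA.sub a I) (hu : SetStr.mem u (funs a tw)) :
    ∃ x, SetStr.mem x (funs I tw) ∧ rs x a = u := by
  obtain ⟨h1, h2⟩ := mem_funs.1 hu
  have hF : PF (fun v : ℕ → M => sep (app u (v 0)) (fun _ => SetStr.mem (v 0) a)) := by (repeat' (with_reducible first | apply pf_bit | apply pf_sd | apply pf_df | apply pf_it | apply pd_Sm | apply pf_trc | apply pd_Clo | apply pd_Dep | apply pf_rs | apply pf_hh | apply pd_Spr | apply pd_Inj | apply pf_har | apply pd_Le | apply pf_fins | apply pf_card | apply pd_Bij | apply pd_Fini | apply pd_Big | apply pd_Ord | apply pd_Tr | apply pd_Ind | apply pf_succ | apply pf_funs | apply pf_prod | apply pf_lam | apply pd_Fn | apply pf_app | apply pf_ran | apply pf_dom | apply PF.img | apply PF.pow | apply PD.sub | apply PF.adj | apply PF.un | apply PF.sUn | apply PF.op | apply PF.pr | apply PF.sep | exact PF.var _ | exact PF.const _ | apply PD.eq | apply PD.mem | apply PD.not | apply PD.iff | apply PD.or | apply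 PD.and | apply PD.imp | apply PD.ex | apply PD.all | exact PD.const _ | assumption | refine PF.comp1 (F := _) (by assumption) ?_ | refine PF.comp2 (F := _) (by assumption) ?_ ?_ | refine PF.comp3 (F := _) (by assumption) ?_ ?_ ?_ | refine PD.app1 (R := _) (by assumption) ?_ | refine PD.app2 (R := _) (by assumption) ?_ ?_ | refine PD.app3 (R := _) (by assumption) ?_ ?_ ?_ | refine PD.app4 (R := _) (by assumption) ?_ ?_ ?_ ?_))
  have hval : ∀ i, SetStr.mem i a → sep (app u i) (fun _ => SetStr.mem i a) = app u i := by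
    intro i hi
    refine ext (fun z => ?_)
    rw [mem_sep (by (repeat' (with_reducible first | apply pf_bit | apply pf_sd | apply pf_df | apply pf_it | apply pd_Sm | apply pf_trc | apply pd_Clo | apply pd_Dep | apply pf_rs | apply pf_hh | apply pd_Spr | apply pd_Inj | apply pf_har | apply pd_Le | apply pf_fins | apply pf_card | apply pd_Bij | apply pd_Fini | apply pd_Big | apply pd_Ord | apply pd_Tr | apply pd_Ind | apply pf_succ | apply pf_funs | apply pf_prod | apply pf_lam | apply pd_Fn | apply pf_app | apply pf_ran | apply pf_dom | apply PF.img | apply PF.pow | apply PD.sub | apply PF.adj | apply PF.un | apply PF.sUn | apply PF.op | apply PF.pr | apply PF.sep | exact PF.var _ | exact PF.const _ | apply PD.eq | apply PD.mem | apply PD.not | apply PD.iff | apply PD.or | apply PD.and | apply PD.imp | apply PD.ex | apply PD.all | exact PD.const _ | assumption | refine PF.comp1 (F := _) (by assumption) ?_ | refine PF.comp2 (F := _) (by assumption) ?_ ?_ | refine PF.comp3 (F := _) (by assumption) ?_ ?_ ?_ | refine PD.app1 (R :=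 _) (by assumption) ?_ | refine PD.app2 (R := _) (by assumption) ?_ ?_ | refine PD.app3 (R := _) (by assumption) ?_ ?_ ?_ | refine PD.app4 (R := _) (by assumption) ?_ ?_ ?_ ?_)))]
    exact ⟨fun h => h.1, fun h => ⟨h, hi⟩⟩
  refine ⟨lam (fun i => sep (app u i) (fun _ => SetStr.mem i a)) I,
    mem_funs.2 ⟨lam_Fn (F := fun i => sep (app u i) (fun _ => SetStr.mem i a)) hF I, fun i hi => ?_⟩, ?_⟩
  · rw [app_lam (F := fun i => sep (app u i) (fun _ => SetStr.mem i a)) hF hi]
    by_cases hia : SetStr.mem i a
    · rw [hval i hia]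
      exact h2 i hia
    · have h3 : sep (app u i) (fun _ => SetStr.mem i a) = emp := by
        refine ext (fun z => ?_)
        rw [mem_sep (by (repeat' (with_reducible first | apply pf_bit | apply pf_sd | apply pf_df | apply pf_it | apply pd_Sm | apply pf_trc | apply pd_Clo | apply pd_Dep | apply pf_rs | apply pf_hh | apply pd_Spr | apply pd_Inj | apply pf_har | apply pd_Le | apply pf_fins | apply pf_card | apply pd_Bij | apply pd_Fini | apply pd_Big | apply pd_Ord | apply pd_Tr | apply pd_Ind | apply pf_succ | apply pf_funs | apply pf_prod | apply pf_lam | apply pd_Fn | apply pf_app | apply pf_ran | apply pf_dom | apply PF.img | apply PF.pow | apply PD.sub | apply PF.adj | apply PF.un | apply PF.sUn | apply PF.op | apply PF.pr | apply PF.sep | exact PF.var _ | exact PF.const _ | apply PD.eq | apply PD.mem | apply PD.not | apply PD.iff | apply PD.or | apply PD.and | apply PD.imp | apply PD.ex | apply PD.all | exact PD.const _ | assumption | refine PF.comp1 (F := _) (by assumption) ?_ | refine PF.comp2 (F := _) (by assumption)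 ?_ ?_ | refine PF.comp3 (F := _) (by assumption) ?_ ?_ ?_ | refine PD.app1 (R := _) (by assumption) ?_ | refine PD.app2 (R := _) (by assumption) ?_ ?_ | refine PD.app3 (R := _) (by assumption) ?_ ?_ ?_ | refine PD.app4 (R := _) (by assumption) ?_ ?_ ?_ ?_)))]
        exact ⟨fun h => absurd h.2 hia, fun h => absurd h (not_mem_emp z)⟩
      rw [h3]
      exact mem_tw.2 (Or.inl rfl)
  · have hF2 : PF (fun v : ℕ → M =>
        app (lam (fun i => sep (app u i) (fun _ => SetStr.mem i a)) I) (v 0)) := by (repeat' (with_reducible first | apply pf_bit | apply pf_sd | apply pf_df | apply pf_it | apply pd_Sm | apply pf_trc | apply pd_Clo | apply pd_Dep | apply pf_rs | apply pf_hh | apply pd_Spr | apply pd_Inj | apply pf_har | apply pd_Le | apply pf_fins | apply pf_card | apply pd_Bij | apply pd_Fini | apply pd_Big | apply pd_Ord | apply pd_Tr | apply pd_Ind | apply pf_succ | apply pf_funs | apply pf_prod | apply pf_lam | apply pd_Fn | apply pf_app | apply pf_ran | apply pf_dom | apply PF.img | apply PF.pow | apply PD.sub | apply PF.adj |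 apply PF.un | apply PF.sUn | apply PF.op | apply PF.pr | apply PF.sep | exact PF.var _ | exact PF.const _ | apply PD.eq | apply PD.mem | apply PD.not | apply PD.iff | apply PD.or | apply PD.and | apply PD.imp | apply PD.ex | apply PD.all | exact PD.const _ | assumption | refine PF.comp1 (F := _) (by assumption) ?_ | refine PF.comp2 (F := _) (by assumption) ?_ ?_ | refine PF.comp3 (F := _) (by assumption) ?_ ?_ ?_ | refine PD.app1 (R := _) (by assumption) ?_ | refine PD.app2 (R := _) (by assumption) ?_ ?_ | refine PD.app3 (R := _) (by assumption) ?_ ?_ ?_ | refine PD.app4 (R := _) (by assumption) ?_ ?_ ?_ ?_))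
    refine (lam_Fn hF2 a).ext h1 (fun i hi => ?_)
    have h3 := app_rs (x := lam (fun i => sep (app u i) (fun _ => SetStr.mem i a)) I) hi
    unfold rs at h3
    rw [h3, app_lam (F := fun i => sep (app u i) (fun _ => SetStr.mem i a)) hF (ha i hi), hval i hi]

/-- MODULE b1 -/
theorem rs_mem_trc {I c a x : M} (h : Dep I c a) (hx : SetStr.mem x (funs I tw)) :
    SetStr.mem (rs x a) (trc c a) ↔ SetStr.mem x c := by
  rw [mem_trc]
  constructor
  · rintro ⟨y, hy, hxy⟩
    exact h.2.2.2 y x hy hx (rs_eq_iff.1 hxy.symm)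
  · intro hc
    exact ⟨x, hc, rfl⟩

/-- MODULE b1 -/
theorem trc_sub {I c a : M} (h : Dep I c a) : GA.sub (trc c a) (funs a tw) := by
  intro u hu
  obtain ⟨x, hx, rfl⟩ := mem_trc.1 hu
  exact rs_mem (h.2.2.1 x hx) h.1

/-- MODULE b2 -/
theorem Dep.mono {I c a b : M} (h : Dep I c a) (hab : GA.sub a b) (hb : GA.sub b I) (hf : Fini b) :
    Dep I c b := by
  exact ⟨hb, hf, h.2.2.1, fun x y hx hy hxy => h.2.2.2 x y hx hy (fun i hi => hxy i (hab i hi))⟩

/-- MODULE b2 -/
theorem Dep.emp {I a : M} (ha : GA.sub a I) (hf : Fini a) : Dep I emp a := by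
  exact ⟨ha, hf, fun z hz => absurd hz (not_mem_emp z), fun x y hx => absurd hx (not_mem_emp x)⟩

/-- MODULE b2 -/
theorem Dep.full {I a : M} (ha : GA.sub a I) (hf : Fini a) : Dep I (funs I tw) a := by
  exact ⟨ha, hf, fun z hz => hz, fun x y _ hy _ => hy⟩

/-- MODULE b2 -/
theorem Dep.un {I c d a : M} (h : Dep I c a) (h' : Dep I d a) : Dep I (un c d) a := by
  refine ⟨h.1, h.2.1, fun z hz => ?_, fun x y hx hy hxy => ?_⟩
  · rcases mem_un.1 hz with h1 | h1
    · exact h.2.2.1 z h1
    · exact h'.2.2.1 z h1
  · rcases mem_un.1 hx with h1 | h1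
    · exact mem_un.2 (Or.inl (h.2.2.2 x y h1 hy hxy))
    · exact mem_un.2 (Or.inr (h'.2.2.2 x y h1 hy hxy))

/-- MODULE b2 -/
theorem Dep.it {I c d a : M} (h : Dep I c a) (h' : Dep I d a) : Dep I (it c d) a := by
  refine ⟨h.1, h.2.1, fun z hz => h.2.2.1 z (mem_it.1 hz).1, fun x y hx hy hxy => ?_⟩
  obtain ⟨h1, h2⟩ := mem_it.1 hx
  exact mem_it.2 ⟨h.2.2.2 x y h1 hy hxy, h'.2.2.2 x y h2 hy hxy⟩

/-- MODULE b2 -/
theorem Dep.df {I c d a : M} (h : Dep I c a) (h' : Dep I d a) : Dep I (df c d) a := by
  refine ⟨h.1, h.2.1, fun z hz => h.2.2.1 z (mem_df.1 hz).1, fun x y hx hy hxy => ?_⟩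
  obtain ⟨h1, h2⟩ := mem_df.1 hx
  refine mem_df.2 ⟨h.2.2.2 x y h1 hy hxy, fun h3 => h2 ?_⟩
  exact h'.2.2.2 y x h3 (h.2.2.1 x h1) (fun i hi => (hxy i hi).symm)

/-- MODULE b2 -/
theorem Dep.bit {I i m : M} (hi : SetStr.mem i I) : Dep I (bit I i m) (pr i i) := by
  refine ⟨fun z hz => ?_, Fini.pr i i, fun z hz => (mem_bit.1 hz).1, fun x y hx hy hxy => ?_⟩
  · rcases mem_pr.1 hz with h1 | h1
    · rw [h1]
      exact hi
    · rw [h1]
      exact hi
  · refine mem_bit.2 ⟨hy, ?_⟩
    rw [← hxy i (mem_pr.2 (Or.inl rfl))]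
    exact (mem_bit.1 hx).2

/-- MODULE b2.  Two clopen sets have a common finite support. -/
theorem Clo.common {I c d : M} (h : Clo I c) (h' : Clo I d) : ∃ a, Dep I c a ∧ Dep I d a := by
  obtain ⟨a, ha⟩ := h
  obtain ⟨b, hb⟩ := h'
  have h1 : GA.sub (GA.un a b) I := by
    intro z hz
    rcases mem_un.1 hz with h2 | h2
    · exact ha.1 z h2
    · exact hb.1 z h2
  have h2 := Fini.un ha.2.1 hb.2.1
  exact ⟨GA.un a b, ha.mono (fun z hz => mem_un.2 (Or.inl hz)) h1 h2,
    hb.mono (fun z hz => mem_un.2 (Or.inr hz)) h1 h2⟩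

/-- MODULE b3 -/
theorem Clo.emp (I : M) : Clo I emp := by
  exact ⟨GA.emp, Dep.emp (fun z hz => absurd hz (not_mem_emp z)) Fini.emp⟩

/-- MODULE b3 -/
theorem Clo.full (I : M) : Clo I (funs I tw) := by
  exact ⟨GA.emp, Dep.full (fun z hz => absurd hz (not_mem_emp z)) Fini.emp⟩

/-- MODULE b3 -/
theorem Clo.un {I c d : M} (h : Clo I c) (h' : Clo I d) : Clo I (un c d) := by
  obtain ⟨a, h1, h2⟩ := Clo.common h h'
  exact ⟨a, h1.un h2⟩

/-- MODULE b3 -/
theorem Clo.it {I c d : M} (h : Clo I c) (h' : Clo I d) : Clo I (it c d) := by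
  obtain ⟨a, h1, h2⟩ := Clo.common h h'
  exact ⟨a, h1.it h2⟩

/-- MODULE b3 -/
theorem Clo.df {I c d : M} (h : Clo I c) (h' : Clo I d) : Clo I (df c d) := by
  obtain ⟨a, h1, h2⟩ := Clo.common h h'
  exact ⟨a, h1.df h2⟩

/-- MODULE b3 -/
theorem Clo.sd {I c d : M} (h : Clo I c) (h' : Clo I d) : Clo I (sd c d) := by
  exact (Clo.df h h').un (Clo.df h' h)

/-- MODULE b3 -/
theorem Clo.bit {I i m : M} (hi : SetStr.mem i I) : Clo I (bit I i m) := by
  exact ⟨_, Dep.bit hi⟩

private theorem b3_ind (I : M) : ∀ n, SetStr.mem n (om : M) → ∀ f : M, Fn f n →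
    (∀ i, SetStr.mem i n → Clo I (app f i)) → Clo I (sUn (ran f)) := by
  refine om_ind (P := fun n => ∀ f : M, Fn f n →
    (∀ i, SetStr.mem i n → Clo I (app f i)) → Clo I (sUn (ran f))) (by (repeat' (with_reducible first | apply pf_bit | apply pf_sd | apply pf_df | apply pf_it | apply pd_Sm | apply pf_trc | apply pd_Clo | apply pd_Dep | apply pf_rs | apply pf_hh | apply pd_Spr | apply pd_Inj | apply pf_har | apply pd_Le | apply pf_fins | apply pf_card | apply pd_Bij | apply pd_Fini | apply pd_Big | apply pd_Ord | apply pd_Tr | apply pd_Ind | apply pf_succ | apply pf_funs | apply pf_prod | apply pf_lam | apply pd_Fn | apply pf_app | apply pf_ran | apply pf_dom | apply PF.img | apply PF.pow | apply PD.sub | apply PF.adj | apply PF.un | apply PF.sUn | apply PF.op | apply PF.pr | apply PF.sep | exact PF.var _ | exact PF.const _ | apply PD.eq | apply PD.mem | apply PD.not | apply PD.iff | apply PD.or | apply PD.and | apply PD.imp | apply PD.ex | apply PD.all | exact PD.const _ | assumption | refine PF.comp1 (F := _) (by assumption)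 ?_ | refine PF.comp2 (F := _) (by assumption) ?_ ?_ | refine PF.comp3 (F := _) (by assumption) ?_ ?_ ?_ | refine PD.app1 (R := _) (by assumption) ?_ | refine PD.app2 (R := _) (by assumption) ?_ ?_ | refine PD.app3 (R := _) (by assumption) ?_ ?_ ?_ | refine PD.app4 (R := _) (by assumption) ?_ ?_ ?_ ?_))) ?_ ?_
  · intro f hf _
    have h1 : sUn (ran f) = emp := by
      refine ext (fun z => ?_)
      rw [mem_sUn]
      constructor
      · rintro ⟨y, hy, hz⟩
        obtain ⟨x, hx, _⟩ := hf.mem_ran.1 hy
        exact absurd hx (not_mem_emp x)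
      · intro h
        exact absurd h (not_mem_emp z)
    rw [h1]
    exact Clo.emp I
  · intro n hn ih f hf h
    have hG : PF (fun v : ℕ → M => app f (v 0)) := by (repeat' (with_reducible first | apply pf_bit | apply pf_sd | apply pf_df | apply pf_it | apply pd_Sm | apply pf_trc | apply pd_Clo | apply pd_Dep | apply pf_rs | apply pf_hh | apply pd_Spr | apply pd_Inj | apply pf_har | apply pd_Le | apply pf_fins | apply pf_card | apply pd_Bij | apply pd_Fini | apply pd_Big | apply pd_Ord | apply pd_Tr | apply pd_Ind | apply pf_succ | apply pf_funs | apply pf_prod | apply pf_lam | apply pd_Fn | apply pf_app | apply pf_ran | apply pf_dom | apply PF.img | apply PF.pow | apply PD.sub | apply PF.adj | apply PF.un | apply PF.sUn | apply PF.op | apply PF.pr | apply PF.sep | exact PF.var _ | exact PF.const _ | apply PD.eq | apply PD.mem | apply PD.not | apply PD.iff | apply PD.or | apply PD.and | apply PD.imp | apply PD.ex | apply PD.all | exact PD.const _ | assumption | refine PF.comp1 (F := _) (by assumption) ?_ | refine PF.comp2 (F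 := _) (by assumption) ?_ ?_ | refine PF.comp3 (F := _) (by assumption) ?_ ?_ ?_ | refine PD.app1 (R := _) (by assumption) ?_ | refine PD.app2 (R := _) (by assumption) ?_ ?_ | refine PD.app3 (R := _) (by assumption) ?_ ?_ ?_ | refine PD.app4 (R := _) (by assumption) ?_ ?_ ?_ ?_))
    have h2 := ih (lam (fun i => app f i) n) (lam_Fn hG n) (fun i hi => by
      rw [app_lam hG hi]
      exact h i (mem_succ.2 (Or.inl hi)))
    have h3 : sUn (ran f) = un (sUn (ran (lam (fun i => app f i) n))) (app f n) := by
      refine ext (fun z => ?_)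
      rw [mem_un, mem_sUn, mem_sUn]
      constructor
      · rintro ⟨y, hy, hz⟩
        obtain ⟨x, hx, hxy⟩ := hf.mem_ran.1 hy
        rw [hxy] at hz
        rcases mem_succ.1 hx with h4 | h4
        · refine Or.inl ⟨app f x, (lam_Fn hG n).mem_ran.2 ⟨x, h4, ?_⟩, hz⟩
          rw [app_lam hG h4]
        · rw [h4] at hz
          exact Or.inr hz
      · rintro (⟨y, hy, hz⟩ | hz)
        · obtain ⟨x, hx, hxy⟩ := (lam_Fn hG n).mem_ran.1 hy
          rw [app_lam hG hx] at hxy
          rw [hxy] at hz
          exact ⟨app f x, hf.mem_ran.2 ⟨x, mem_succ.2 (Or.inl hx), rfl⟩, hz⟩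
        · exact ⟨app f n, hf.mem_ran.2 ⟨n, mem_succ.2 (Or.inr rfl), rfl⟩, hz⟩
    rw [h3]
    exact h2.un (h n (mem_succ.2 (Or.inr rfl)))

/-- MODULE b3.  The union of finitely many clopen sets (induction on `n`). -/
theorem Clo.sUn {I n f : M} (hn : SetStr.mem n (om : M)) (hf : Fn f n)
    (h : ∀ i, SetStr.mem i n → Clo I (app f i)) : Clo I (sUn (ran f)) := by
  exact b3_ind I n hn f hf h

private theorem b4_rs_rs {x a b : M} (hab : GA.sub a b) : rs (rs x b) a = rs x a :=
  rs_eq_iff.2 (fun i hi => app_rs (hab i hi))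

private theorem b4_un {u w a b : M} (hu : Fn u a) (hw : Fn w (df b a)) (hab : GA.sub a b) :
    Fn (un u w) b ∧ (∀ i, SetStr.mem i a → app (un u w) i = app u i) ∧
      ∀ i, SetStr.mem i (df b a) → app (un u w) i = app w i := by
  have h1 : ∀ i y, SetStr.mem (op i y) u → SetStr.mem i a := fun i y h => (hu.mem_iff.1 h).1
  have h2 : ∀ i y, SetStr.mem (op i y) w → SetStr.mem i (df b a) := fun i y h => (hw.mem_iff.1 h).1
  have hF : Fn (un u w) b := by
    constructor
    · intro z hz
      rw [mem_un] at hz
      rcases hz with hz | hz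
      · obtain ⟨i, hi, y, rfl⟩ := hu.1 z hz
        exact ⟨i, hab i hi, y, rfl⟩
      · obtain ⟨i, hi, y, rfl⟩ := hw.1 z hz
        exact ⟨i, (mem_df.1 hi).1, y, rfl⟩
    · intro i hi
      by_cases hia : SetStr.mem i a
      · refine ⟨?_, fun y y' hy hy' => ?_⟩
        · obtain ⟨y, hy⟩ := (hu.2 i hia).1
          exact ⟨y, mem_un.2 (Or.inl hy)⟩
        · have key : ∀ y, SetStr.mem (op i y) (un u w) → SetStr.mem (op i y) u := by
            intro y hy
            rcases mem_un.1 hy with h | h
            · exact h
            · exact ((mem_df.1 (h2 i y h)).2 hia).elim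
          exact (hu.2 i hia).2 y y' (key y hy) (key y' hy')
      · have hid : SetStr.mem i (df b a) := mem_df.2 ⟨hi, hia⟩
        refine ⟨?_, fun y y' hy hy' => ?_⟩
        · obtain ⟨y, hy⟩ := (hw.2 i hid).1
          exact ⟨y, mem_un.2 (Or.inr hy)⟩
        · have key : ∀ y, SetStr.mem (op i y) (un u w) → SetStr.mem (op i y) w := by
            intro y hy
            rcases mem_un.1 hy with h | h
            · exact (hia (h1 i y h)).elim
            · exact h
          exact (hw.2 i hid).2 y y' (key y hy) (key y' hy')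
  refine ⟨hF, fun i hi => ?_, fun i hi => ?_⟩
  · exact ((hF.mem_iff.1 (mem_un.2 (Or.inl (hu.app_mem hi)))).2).symm
  · exact ((hF.mem_iff.1 (mem_un.2 (Or.inr (hw.app_mem hi)))).2).symm

private theorem b4_sUn (u w : M) : sUn (sUn (op u w)) = un u w := by
  refine ext (fun z => ?_)
  rw [mem_un, mem_sUn]
  constructor
  · rintro ⟨y, hy, hz⟩
    obtain ⟨v, hv, hy⟩ := mem_sUn.1 hy
    unfold op at hv
    rw [mem_pr] at hv
    rcases hv with rfl | rfl
    · rw [mem_pr] at hy
      rcases hy with rfl | rfl
      · exact Or.inl hz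
      · exact Or.inl hz
    · rw [mem_pr] at hy
      rcases hy with rfl | rfl
      · exact Or.inl hz
      · exact Or.inr hz
  · rintro (hz | hz)
    · refine ⟨u, mem_sUn.2 ⟨pr u w, ?_, by simp⟩, hz⟩
      unfold op
      simp
    · refine ⟨w, mem_sUn.2 ⟨pr u w, ?_, by simp⟩, hz⟩
      unfold op
      simp

/-- MODULE b4.  The number of restrictions to a larger support: `c|b` and `(c|a) × 2^(b \ a)`. -/
theorem trc_le {I c a b : M} (h : Dep I c a) (hab : GA.sub a b) (hb : GA.sub b I) (hf : Fini b) :
    Le (trc c b) (prod (trc c a) (funs (df b a) tw)) := by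
  have hdb : GA.sub (df b a) b := fun i hi => (mem_df.1 hi).1
  refine Le.of_fun (F := fun u => op (rs u a) (rs u (df b a))) (by (repeat' (with_reducible first | apply pf_bit | apply pf_sd | apply pf_df | apply pf_it | apply pd_Sm | apply pf_trc | apply pd_Clo | apply pd_Dep | apply pf_rs | apply pf_hh | apply pd_Spr | apply pd_Inj | apply pf_har | apply pd_Le | apply pf_fins | apply pf_card | apply pd_Bij | apply pd_Fini | apply pd_Big | apply pd_Ord | apply pd_Tr | apply pd_Ind | apply pf_succ | apply pf_funs | apply pf_prod | apply pf_lam | apply pd_Fn | apply pf_app | apply pf_ran | apply pf_dom | apply PF.img | apply PF.pow | apply PD.sub | apply PF.adj | apply PF.un | apply PF.sUn | apply PF.op | apply PF.pr | apply PF.sep | exact PF.var _ | exact PF.const _ | apply PD.eq | apply PD.mem | apply PD.not | apply PD.iff | apply PD.or | apply PD.and | apply PD.imp | apply PD.ex | apply PD.all | exact PD.const _ | assumption | refine PF.comp1 (F := _) (by assumption) ?_ | refine PF.comp2 (F := _) (by assumption) ?_ ?_ | refine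 PF.comp3 (F := _) (by assumption) ?_ ?_ ?_ | refine PD.app1 (R := _) (by assumption) ?_ | refine PD.app2 (R := _) (by assumption) ?_ ?_ | refine PD.app3 (R := _) (by assumption) ?_ ?_ ?_ | refine PD.app4 (R := _) (by assumption) ?_ ?_ ?_ ?_))) ?_ ?_
  · intro u hu
    obtain ⟨x, hx, rfl⟩ := mem_trc.1 hu
    rw [b4_rs_rs hab, b4_rs_rs hdb, op_mem_prod]
    exact ⟨mem_trc.2 ⟨x, hx, rfl⟩, rs_mem (h.2.2.1 x hx) (fun i hi => hb i (hdb i hi))⟩
  · intro u v hu hv he
    obtain ⟨x, hx, rfl⟩ := mem_trc.1 hu
    obtain ⟨y, hy, rfl⟩ := mem_trc.1 hv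
    rw [b4_rs_rs hab, b4_rs_rs hdb, b4_rs_rs hab, b4_rs_rs hdb, op_inj, rs_eq_iff, rs_eq_iff] at he
    rw [rs_eq_iff]
    intro i hi
    by_cases hia : SetStr.mem i a
    · exact he.1 i hia
    · exact he.2 i (mem_df.2 ⟨hi, hia⟩)

/-- MODULE b4 -/
theorem le_trc {I c a b : M} (h : Dep I c a) (hab : GA.sub a b) (hb : GA.sub b I) (hf : Fini b) :
    Le (prod (trc c a) (funs (df b a) tw)) (trc c b) := by
  have hsub := trc_sub h
  refine Le.of_fun (F := fun z => sUn (sUn z)) (by (repeat' (with_reducible first | apply pf_bit | apply pf_sd | apply pf_df | apply pf_it | apply pd_Sm | apply pf_trc | apply pd_Clo | apply pd_Dep | apply pf_rs | apply pf_hh | apply pd_Spr | apply pd_Inj | apply pf_har | apply pd_Le | apply pf_fins | apply pf_card | apply pd_Bij | apply pd_Fini | apply pd_Big | apply pd_Ord | apply pd_Tr | apply pd_Ind | apply pf_succ | apply pf_funs | apply pf_prod | apply pf_lam | apply pd_Fn | apply pf_app | apply pf_ran | apply pf_dom | apply PF.img | apply PF.pow | apply PD.sub | apply PF.adj | apply PF.un | apply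 PF.sUn | apply PF.op | apply PF.pr | apply PF.sep | exact PF.var _ | exact PF.const _ | apply PD.eq | apply PD.mem | apply PD.not | apply PD.iff | apply PD.or | apply PD.and | apply PD.imp | apply PD.ex | apply PD.all | exact PD.const _ | assumption | refine PF.comp1 (F := _) (by assumption) ?_ | refine PF.comp2 (F := _) (by assumption) ?_ ?_ | refine PF.comp3 (F := _) (by assumption) ?_ ?_ ?_ | refine PD.app1 (R := _) (by assumption) ?_ | refine PD.app2 (R := _) (by assumption) ?_ ?_ | refine PD.app3 (R := _) (by assumption) ?_ ?_ ?_ | refine PD.app4 (R := _) (by assumption) ?_ ?_ ?_ ?_))) ?_ ?_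
  · intro z hz
    obtain ⟨u, hu, w, hw, rfl⟩ := mem_prod.1 hz
    rw [b4_sUn]
    have hu' := mem_funs.1 (hsub u hu)
    have hw' := mem_funs.1 hw
    obtain ⟨h1, h2, h3⟩ := b4_un hu'.1 hw'.1 hab
    have hm : SetStr.mem (un u w) (funs b tw) := by
      refine mem_funs.2 ⟨h1, fun i hi => ?_⟩
      by_cases hia : SetStr.mem i a
      · rw [h2 i hia]
        exact hu'.2 i hia
      · have hid : SetStr.mem i (df b a) := mem_df.2 ⟨hi, hia⟩
        rw [h3 i hid]
        exact hw'.2 i hid
    obtain ⟨y, hy, hye⟩ := exists_ext hb hm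
    obtain ⟨x, hx, hxe⟩ := mem_trc.1 hu
    refine mem_trc.2 ⟨y, ?_, hye.symm⟩
    refine h.2.2.2 x y hx hy (fun i hi => ?_)
    rw [← app_rs (x := x) hi, ← hxe, ← h2 i hi, ← hye, app_rs (hab i hi)]
  · intro z z' hz hz' he
    obtain ⟨u, hu, w, hw, rfl⟩ := mem_prod.1 hz
    obtain ⟨u', hu', w', hw', rfl⟩ := mem_prod.1 hz'
    rw [b4_sUn, b4_sUn] at he
    have e1 := mem_funs.1 (hsub u hu)
    have e2 := mem_funs.1 hw
    have e3 := mem_funs.1 (hsub u' hu')
    have e4 := mem_funs.1 hw'
    obtain ⟨h1, h2, h3⟩ := b4_un e1.1 e2.1 hab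
    obtain ⟨h1', h2', h3'⟩ := b4_un e3.1 e4.1 hab
    rw [op_inj]
    constructor
    · exact e1.1.ext e3.1 (fun i hi => by rw [← h2 i hi, ← h2' i hi, he])
    · exact e2.1.ext e4.1 (fun i hi => by rw [← h3 i hi, ← h3' i hi, he])

/-- MODULE b5.  The measure does not depend on the support. -/
theorem sm_iff {I c a k : M} (hk : SetStr.mem k (om : M)) (h : Dep I c a) :
    Sm I k c ↔ Le (prod (trc c a) (funs k tw)) (funs a tw) := by
  constructor
  swap
  · exact fun h' => ⟨a, h, h'⟩
  rintro ⟨b, hb, hle⟩
  have heI : GA.sub (un a b) I := by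
    intro i hi
    rcases mem_un.1 hi with h' | h'
    · exact h.1 i h'
    · exact hb.1 i h'
  have hef : Fini (un a b) := h.2.1.un hb.2.1
  have hae : GA.sub a (un a b) := fun i hi => mem_un.2 (Or.inl hi)
  have hbe : GA.sub b (un a b) := fun i hi => mem_un.2 (Or.inr hi)
  have split : ∀ d e : M, GA.sub d e → un d (df e d) = e := by
    intro d e hde
    refine ext (fun i => ?_)
    rw [mem_un, mem_df]
    constructor
    · rintro (h' | h')
      · exact hde i h'
      · exact h'.1
    · intro h'
      by_cases hd : SetStr.mem i d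
      · exact Or.inl hd
      · exact Or.inr ⟨h', hd⟩
  have hdisj : ∀ d e i : M, SetStr.mem i d → ¬ SetStr.mem i (df e d) := fun d e i hi h' => (mem_df.1 h').2 hi
  -- on the union of the supports
  have h1 : Le (prod (trc c (un a b)) (funs k tw)) (funs (un a b) tw) := by
    have e1 : Le (prod (trc c (un a b)) (funs k tw))
        (prod (prod (trc c b) (funs (df (un a b) b) tw)) (funs k tw)) :=
      (trc_le hb hbe heI hef).prod (Le.refl _)
    have e2 := le_rot (trc c b) (funs (df (un a b) b) (tw : M)) (funs k tw)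
    have e3 : Le (prod (prod (trc c b) (funs k tw)) (funs (df (un a b) b) tw))
        (prod (funs b (tw : M)) (funs (df (un a b) b) tw)) := hle.prod (Le.refl _)
    have e4 := le_funs_un (a := b) (b := df (un a b) b) (hdisj b (un a b))
    rw [split b (un a b) hbe] at e4
    exact ((e1.trans e2).trans e3).trans e4
  have h2 : Le (prod (prod (trc c a) (funs k tw)) (funs (df (un a b) a) tw))
      (prod (funs a (tw : M)) (funs (df (un a b) a) tw)) := by
    have e1 := le_rot (trc c a) (funs k (tw : M)) (funs (df (un a b) a) tw)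
    have e2 : Le (prod (prod (trc c a) (funs (df (un a b) a) tw)) (funs k tw))
        (prod (trc c (un a b)) (funs k tw)) := (le_trc h hae heI hef).prod (Le.refl _)
    have e4 := funs_un_le (a := a) (b := df (un a b) a) (hdisj a (un a b))
    rw [split a (un a b) hae] at e4
    exact ((e1.trans e2).trans h1).trans e4
  have hfa : Fini (funs a (tw : M)) := fini_funs h.2.1
  have hfk : Fini (funs k (tw : M)) := fini_funs (Fini.of_mem_om hk)
  have hfd : Fini (funs (df (un a b) a) (tw : M)) :=
    fini_funs (hef.sub (fun i hi => (mem_df.1 hi).1))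
  exact le_cancel ((hfa.sub (trc_sub h)).prod hfk) hfa hfd (exists_mem_funs _) h2

/-- MODULE b6 -/
theorem Sm.clo {I c k : M} (h : Sm I k c) : Clo I c := by
  obtain ⟨a, ha, -⟩ := h
  exact ⟨a, ha⟩

/-- MODULE b6 -/
theorem Sm.mono {I c d k : M} (hk : SetStr.mem k (om : M)) (h : Sm I k d) (hc : Clo I c)
    (hcd : GA.sub c d) : Sm I k c := by
  obtain ⟨a, ha, ha'⟩ := Clo.common hc h.clo
  rw [sm_iff hk ha'] at h
  rw [sm_iff hk ha]
  refine Le.trans (Le.prod (Le.of_sub (fun u hu => ?_)) (Le.refl _)) h
  obtain ⟨x, hx, rfl⟩ := mem_trc.1 hu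
  exact mem_trc.2 ⟨x, hcd x hx, rfl⟩

/-- MODULE b6 -/
theorem Sm.anti {I c k l : M} (hk : SetStr.mem k (om : M)) (hl : SetStr.mem l (om : M)) (hkl : GA.sub k l)
    (h : Sm I l c) : Sm I k c := by
  obtain ⟨a, ha⟩ := h.clo
  rw [sm_iff hl ha] at h
  rw [sm_iff hk ha]
  refine Le.trans (Le.prod (Le.refl _) ?_) h
  obtain ⟨w, hw⟩ := exists_mem_funs (df l k)
  have e1 : Le (funs k (tw : M)) (prod (funs k tw) (funs (df l k) tw)) :=
    Le.of_fun (F := fun u => op u w) (by (repeat' (with_reducible first | apply pf_bit | apply pf_sd | apply pf_df | apply pf_it | apply pd_Sm | apply pf_trc | apply pd_Clo | apply pd_Dep | apply pf_rs | apply pf_hh | apply pd_Spr | apply pd_Inj | apply pf_har | apply pd_Le | apply pf_fins | apply pf_card | apply pd_Bij | apply pd_Fini | apply pd_Big | apply pd_Ord | apply pd_Tr | apply pd_Ind | apply pf_succ | apply pf_funs | apply pf_prod | apply pf_lam | apply pd_Fn | apply pf_app | apply pf_ran | apply pf_dom | apply PF.img | apply PF.pow | apply PD.sub | apply PF.adj | apply PF.un | apply PF.sUn |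 apply PF.op | apply PF.pr | apply PF.sep | exact PF.var _ | exact PF.const _ | apply PD.eq | apply PD.mem | apply PD.not | apply PD.iff | apply PD.or | apply PD.and | apply PD.imp | apply PD.ex | apply PD.all | exact PD.const _ | assumption | refine PF.comp1 (F := _) (by assumption) ?_ | refine PF.comp2 (F := _) (by assumption) ?_ ?_ | refine PF.comp3 (F := _) (by assumption) ?_ ?_ ?_ | refine PD.app1 (R := _) (by assumption) ?_ | refine PD.app2 (R := _) (by assumption) ?_ ?_ | refine PD.app3 (R := _) (by assumption) ?_ ?_ ?_ | refine PD.app4 (R := _) (by assumption) ?_ ?_ ?_ ?_))) (fun u hu => op_mem_prod.2 ⟨hu, hw⟩)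
      (fun u v _ _ he => (op_inj.1 he).1)
  have e2 := le_funs_un (a := k) (b := df l k) (fun i hi h' => (mem_df.1 h').2 hi)
  have e3 : un k (df l k) = l := by
    refine ext (fun i => ?_)
    rw [mem_un, mem_df]
    constructor
    · rintro (h' | h')
      · exact hkl i h'
      · exact h'.1
    · intro h'
      by_cases hd : SetStr.mem i k
      · exact Or.inl hd
      · exact Or.inr ⟨h', hd⟩
  rw [e3] at e2
  exact e1.trans e2

/-- MODULE b6 -/
theorem Sm.un {I c d k : M} (hk : SetStr.mem k (om : M)) (h : Sm I (succ k) c) (h' : Sm I (succ k) d) :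
    Sm I k (un c d) := by
  obtain ⟨a, hc, hd⟩ := Clo.common h.clo h'.clo
  have hsk := succ_mem_om hk
  rw [sm_iff hsk hc] at h
  rw [sm_iff hsk hd] at h'
  rw [sm_iff hk (hc.un hd)]
  have hfa : Fini (funs a (tw : M)) := fini_funs hc.2.1
  have hfk : Fini (funs k (tw : M)) := fini_funs (Fini.of_mem_om hk)
  have hdbl : ∀ t : M, Le (prod (prod t (funs k tw)) tw) (prod t (funs (succ k) tw)) := by
    intro t
    refine (le_assoc t (funs k tw) tw).trans (Le.prod (Le.refl _) ?_)
    exact le_funs_adj (not_mem_self k)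
  have h1 := (hdbl (trc c a)).trans h
  have h2 := (hdbl (trc d a)).trans h'
  have h3 := le_un_of_double ((hfa.sub (trc_sub hc)).prod hfk) ((hfa.sub (trc_sub hd)).prod hfk) h1 h2
  refine Le.trans (Le.of_sub (fun z hz => ?_)) h3
  obtain ⟨u, hu, w, hw, rfl⟩ := mem_prod.1 hz
  obtain ⟨x, hx, rfl⟩ := mem_trc.1 hu
  rw [mem_un, op_mem_prod, op_mem_prod]
  rcases mem_un.1 hx with hx | hx
  · exact Or.inl ⟨mem_trc.2 ⟨x, hx, rfl⟩, hw⟩
  · exact Or.inr ⟨mem_trc.2 ⟨x, hx, rfl⟩, hw⟩

/-- MODULE b6 -/
theorem Sm.emp {I k : M} (hk : SetStr.mem k (om : M)) : Sm I k emp := by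
  have hD : Dep I GA.emp GA.emp := Dep.emp (fun z hz => (not_mem_emp z hz).elim) Fini.emp
  rw [sm_iff hk hD]
  have key : ∀ z, ¬ SetStr.mem z (prod (trc GA.emp (GA.emp : M)) (funs k tw)) := by
    intro z hz
    obtain ⟨u, hu, w, hw, rfl⟩ := mem_prod.1 hz
    obtain ⟨x, hx, -⟩ := mem_trc.1 hu
    exact not_mem_emp x hx
  exact Le.of_fun (F := fun z => z) (by (repeat' (with_reducible first | apply pf_bit | apply pf_sd | apply pf_df | apply pf_it | apply pd_Sm | apply pf_trc | apply pd_Clo | apply pd_Dep | apply pf_rs | apply pf_hh | apply pd_Spr | apply pd_Inj | apply pf_har | apply pd_Le | apply pf_fins | apply pf_card | apply pd_Bij | apply pd_Fini | apply pd_Big | apply pd_Ord | apply pd_Tr | apply pd_Ind | apply pf_succ | apply pf_funs | apply pf_prod | apply pf_lam | apply pd_Fn | apply pf_app | apply pf_ran | apply pf_dom | apply PF.img | apply PF.pow | apply PD.sub | apply PF.adj | apply PF.un | apply PF.sUn | apply PF.op | apply PF.pr | apply PF.sep | exact PF.var _ | exact PF.const _ | apply PD.eq | apply PD.mem | apply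 PD.not | apply PD.iff | apply PD.or | apply PD.and | apply PD.imp | apply PD.ex | apply PD.all | exact PD.const _ | assumption | refine PF.comp1 (F := _) (by assumption) ?_ | refine PF.comp2 (F := _) (by assumption) ?_ ?_ | refine PF.comp3 (F := _) (by assumption) ?_ ?_ ?_ | refine PD.app1 (R := _) (by assumption) ?_ | refine PD.app2 (R := _) (by assumption) ?_ ?_ | refine PD.app3 (R := _) (by assumption) ?_ ?_ ?_ | refine PD.app4 (R := _) (by assumption) ?_ ?_ ?_ ?_))) (fun z hz => (key z hz).elim)
    (fun z _ hz => (key z hz).elim)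

/-- MODULE b6 -/
theorem not_sm_full {I : M} : ¬ Sm I (succ emp) (funs I tw) := by
  intro h
  have hD : Dep I (funs I tw) GA.emp := Dep.full (fun z hz => (not_mem_emp z hz).elim) Fini.emp
  have h1 : SetStr.mem (succ GA.emp : M) om := succ_mem_om emp_mem_om
  rw [sm_iff h1 hD] at h
  have hfe : Fini (funs (GA.emp : M) tw) := fini_funs Fini.emp
  have hf1 : Fini (funs (succ (GA.emp : M)) tw) := fini_funs (Fini.of_mem_om h1)
  have hsub : Le (funs (GA.emp : M) tw) (trc (funs I tw) GA.emp) := by
    refine Le.of_sub (fun u hu => ?_)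
    obtain ⟨x, hx, hxe⟩ := exists_ext (I := I) (a := GA.emp) (u := u)
      (fun z hz => (not_mem_emp z hz).elim) hu
    exact mem_trc.2 ⟨x, hx, hxe.symm⟩
  have e1 : Le (prod (funs (succ (GA.emp : M)) tw) (funs (GA.emp : M) tw)) (funs (GA.emp : M) tw) :=
    ((le_swap _ _).trans (Le.prod hsub (Le.refl _))).trans h
  have e2 : Le (funs (GA.emp : M) tw) (prod (pr (GA.emp : M) GA.emp) (funs (GA.emp : M) tw)) :=
    Le.of_fun (F := fun u => op GA.emp u) (by (repeat' (with_reducible first | apply pf_bit | apply pf_sd | apply pf_df | apply pf_it | apply pd_Sm | apply pf_trc | apply pd_Clo | apply pd_Dep | apply pf_rs | apply pf_hh | apply pd_Spr | apply pd_Inj | apply pf_har | apply pd_Le | apply pf_fins | apply pf_card | apply pd_Bij | apply pd_Fini | apply pd_Big | apply pd_Ord | apply pd_Tr | apply pd_Ind | apply pf_succ | apply pf_funs | apply pf_prod | apply pf_lam | apply pd_Fn | apply pf_app | apply pf_ran | apply pf_dom | apply PF.img | apply PF.pow | apply PD.sub | apply PF.adj | apply PF.un | apply PF.sUn | apply PF.op |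 apply PF.pr | apply PF.sep | exact PF.var _ | exact PF.const _ | apply PD.eq | apply PD.mem | apply PD.not | apply PD.iff | apply PD.or | apply PD.and | apply PD.imp | apply PD.ex | apply PD.all | exact PD.const _ | assumption | refine PF.comp1 (F := _) (by assumption) ?_ | refine PF.comp2 (F := _) (by assumption) ?_ ?_ | refine PF.comp3 (F := _) (by assumption) ?_ ?_ ?_ | refine PD.app1 (R := _) (by assumption) ?_ | refine PD.app2 (R := _) (by assumption) ?_ ?_ | refine PD.app3 (R := _) (by assumption) ?_ ?_ ?_ | refine PD.app4 (R := _) (by assumption) ?_ ?_ ?_ ?_))) (fun u hu => op_mem_prod.2 ⟨by simp, hu⟩)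
      (fun u v _ _ he => (op_inj.1 he).2)
  obtain ⟨f, hf1', hf2, hf3⟩ := le_cancel hf1 (Fini.pr _ _) hfe (exists_mem_funs _) (e1.trans e2)
  have hm : ∀ y : M, SetStr.mem y tw → SetStr.mem (lam (fun _ => y) (succ GA.emp)) (funs (succ (GA.emp : M)) tw) := by
    intro y hy
    refine mem_funs.2 ⟨lam_Fn (by (repeat' (with_reducible first | apply pf_bit | apply pf_sd | apply pf_df | apply pf_it | apply pd_Sm | apply pf_trc | apply pd_Clo | apply pd_Dep | apply pf_rs | apply pf_hh | apply pd_Spr | apply pd_Inj | apply pf_har | apply pd_Le | apply pf_fins | apply pf_card | apply pd_Bij | apply pd_Fini | apply pd_Big | apply pd_Ord | apply pd_Tr | apply pd_Ind | apply pf_succ | apply pf_funs | apply pf_prod | apply pf_lam | apply pd_Fn | apply pf_app | apply pf_ran | apply pf_dom | apply PF.img | apply PF.pow | apply PD.sub | apply PF.adj | apply PF.un | apply PF.sUn | apply PF.op | apply PF.pr | apply PF.sep | exact PF.var _ | exact PF.const _ | apply PD.eq | apply PD.mem | apply PD.not | apply PD.iff | apply PD.or | apply PD.and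 | apply PD.imp | apply PD.ex | apply PD.all | exact PD.const _ | assumption | refine PF.comp1 (F := _) (by assumption) ?_ | refine PF.comp2 (F := _) (by assumption) ?_ ?_ | refine PF.comp3 (F := _) (by assumption) ?_ ?_ ?_ | refine PD.app1 (R := _) (by assumption) ?_ | refine PD.app2 (R := _) (by assumption) ?_ ?_ | refine PD.app3 (R := _) (by assumption) ?_ ?_ ?_ | refine PD.app4 (R := _) (by assumption) ?_ ?_ ?_ ?_))) _, fun i hi => ?_⟩
    rw [app_lam (by (repeat' (with_reducible first | apply pf_bit | apply pf_sd | apply pf_df | apply pf_it | apply pd_Sm | apply pf_trc | apply pd_Clo | apply pd_Dep | apply pf_rs | apply pf_hh | apply pd_Spr | apply pd_Inj | apply pf_har | apply pd_Le | apply pf_fins | apply pf_card | apply pd_Bij | apply pd_Fini | apply pd_Big | apply pd_Ord | apply pd_Tr | apply pd_Ind | apply pf_succ | apply pf_funs | apply pf_prod | apply pf_lam | apply pd_Fn | apply pf_app | apply pf_ran | apply pf_dom | apply PF.img | apply PF.pow | apply PD.sub | apply PF.adj | apply PF.un | apply PF.sUn | apply PF.op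 | apply PF.pr | apply PF.sep | exact PF.var _ | exact PF.const _ | apply PD.eq | apply PD.mem | apply PD.not | apply PD.iff | apply PD.or | apply PD.and | apply PD.imp | apply PD.ex | apply PD.all | exact PD.const _ | assumption | refine PF.comp1 (F := _) (by assumption) ?_ | refine PF.comp2 (F := _) (by assumption) ?_ ?_ | refine PF.comp3 (F := _) (by assumption) ?_ ?_ ?_ | refine PD.app1 (R := _) (by assumption) ?_ | refine PD.app2 (R := _) (by assumption) ?_ ?_ | refine PD.app3 (R := _) (by assumption) ?_ ?_ ?_ | refine PD.app4 (R := _) (by assumption) ?_ ?_ ?_ ?_))) hi]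
    exact hy
  have ha := hm GA.emp (mem_tw.2 (Or.inl rfl))
  have hb := hm (succ GA.emp) (mem_tw.2 (Or.inr rfl))
  have h4 : ∀ z : M, SetStr.mem z (pr (GA.emp : M) GA.emp) → z = GA.emp := by
    intro z hz
    rw [mem_pr] at hz
    rcases hz with hz | hz <;> exact hz
  have h5 := hf3 _ _ ha hb ((h4 _ (hf2 _ ha)).trans (h4 _ (hf2 _ hb)).symm)
  have h6 : app (lam (fun _ => (GA.emp : M)) (succ GA.emp)) GA.emp =
      app (lam (fun _ => (succ GA.emp : M)) (succ GA.emp)) GA.emp := by rw [h5]
  rw [app_lam (by (repeat' (with_reducible first | apply pf_bit | apply pf_sd | apply pf_df | apply pf_it | apply pd_Sm | apply pf_trc | apply pd_Clo | apply pd_Dep | apply pf_rs | apply pf_hh | apply pd_Spr | apply pd_Inj | apply pf_har | apply pd_Le | apply pf_fins | apply pf_card | apply pd_Bij | apply pd_Fini | apply pd_Big | apply pd_Ord | apply pd_Tr | apply pd_Ind | apply pf_succ | apply pf_funs | apply pf_prod | apply pf_lam | apply pd_Fn | apply pf_app | apply pf_ran | apply pf_dom | apply PF.img | apply PF.pow | apply PD.sub | apply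 PF.adj | apply PF.un | apply PF.sUn | apply PF.op | apply PF.pr | apply PF.sep | exact PF.var _ | exact PF.const _ | apply PD.eq | apply PD.mem | apply PD.not | apply PD.iff | apply PD.or | apply PD.and | apply PD.imp | apply PD.ex | apply PD.all | exact PD.const _ | assumption | refine PF.comp1 (F := _) (by assumption) ?_ | refine PF.comp2 (F := _) (by assumption) ?_ ?_ | refine PF.comp3 (F := _) (by assumption) ?_ ?_ ?_ | refine PD.app1 (R := _) (by assumption) ?_ | refine PD.app2 (R := _) (by assumption) ?_ ?_ | refine PD.app3 (R := _) (by assumption) ?_ ?_ ?_ | refine PD.app4 (R := _) (by assumption) ?_ ?_ ?_ ?_))) (by simp), app_lam (by (repeat' (with_reducible first | apply pf_bit | apply pf_sd | apply pf_df | apply pf_it | apply pd_Sm | apply pf_trc | apply pd_Clo | apply pd_Dep | apply pf_rs | apply pf_hh | apply pd_Spr | apply pd_Inj | apply pf_har | apply pd_Le | apply pf_fins | apply pf_card | apply pd_Bij | apply pd_Fini | apply pd_Big | apply pd_Ord | apply pd_Tr | apply pd_Ind | apply pf_succ | apply pf_funs | apply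 pf_prod | apply pf_lam | apply pd_Fn | apply pf_app | apply pf_ran | apply pf_dom | apply PF.img | apply PF.pow | apply PD.sub | apply PF.adj | apply PF.un | apply PF.sUn | apply PF.op | apply PF.pr | apply PF.sep | exact PF.var _ | exact PF.const _ | apply PD.eq | apply PD.mem | apply PD.not | apply PD.iff | apply PD.or | apply PD.and | apply PD.imp | apply PD.ex | apply PD.all | exact PD.const _ | assumption | refine PF.comp1 (F := _) (by assumption) ?_ | refine PF.comp2 (F := _) (by assumption) ?_ ?_ | refine PF.comp3 (F := _) (by assumption) ?_ ?_ ?_ | refine PD.app1 (R := _) (by assumption) ?_ | refine PD.app2 (R := _) (by assumption) ?_ ?_ | refine PD.app3 (R := _) (by assumption) ?_ ?_ ?_ | refine PD.app4 (R := _) (by assumption) ?_ ?_ ?_ ?_))) (by simp)] at h6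
  exact emp_ne_one h6

private theorem b7_adj {a u i m : M} (hu : SetStr.mem u (funs a tw)) (hi : ¬ SetStr.mem i a) (hm : SetStr.mem m (tw : M)) :
    SetStr.mem (adj u (op i m)) (funs (adj a i) tw) ∧ app (adj u (op i m)) i = m ∧
      ∀ z, SetStr.mem z a → app (adj u (op i m)) z = app u z := by
  have hu1 := mem_funs.1 hu
  have hF : Fn (adj u (op i m)) (adj a i) := by
    constructor
    · intro z hz
      rw [mem_adj] at hz
      rcases hz with hz | rfl
      · obtain ⟨x, hx, y, rfl⟩ := hu1.1.1 z hz
        exact ⟨x, by rw [mem_adj]; exact Or.inl hx, y, rfl⟩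
      · exact ⟨i, by simp, m, rfl⟩
    · intro x hx
      rw [mem_adj] at hx
      have key : ∀ y, SetStr.mem (op x y) (adj u (op i m)) → (SetStr.mem x a ∧ y = app u x) ∨ (x = i ∧ y = m) := by
        intro y hy
        rw [mem_adj] at hy
        rcases hy with hy | hy
        · exact Or.inl (hu1.1.mem_iff.1 hy)
        · rw [op_inj] at hy
          exact Or.inr hy
      refine ⟨?_, fun y y' hy hy' => ?_⟩
      · rcases hx with hx | rfl
        · exact ⟨app u x, by rw [mem_adj]; exact Or.inl (hu1.1.app_mem hx)⟩
        · exact ⟨m, by simp⟩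
      · rcases key y hy with ⟨h1, h2⟩ | ⟨h1, h2⟩
        · rcases key y' hy' with ⟨h3, h4⟩ | ⟨h3, h4⟩
          · rw [h2, h4]
          · exact (hi (h3 ▸ h1)).elim
        · rcases key y' hy' with ⟨h3, h4⟩ | ⟨h3, h4⟩
          · exact (hi (h1 ▸ h3)).elim
          · rw [h2, h4]
  have h1 : app (adj u (op i m)) i = m := ((hF.mem_iff.1 (by simp : SetStr.mem (op i m) (adj u (op i m)))).2).symm
  have h2 : ∀ z, SetStr.mem z a → app (adj u (op i m)) z = app u z := by
    intro z hz
    have : SetStr.mem (op z (app u z)) (adj u (op i m)) := by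
      rw [mem_adj]
      exact Or.inl (hu1.1.app_mem hz)
    exact ((hF.mem_iff.1 this).2).symm
  refine ⟨mem_funs.2 ⟨hF, fun z hz => ?_⟩, h1, h2⟩
  rw [mem_adj] at hz
  rcases hz with hz | rfl
  · rw [h2 z hz]
    exact hu1.2 z hz
  · rw [h1]
    exact hm

/-- MODULE b7.  A bit is independent of the other coordinates. -/
theorem not_sm_bit {I c a k i m : M} (hk : SetStr.mem k (om : M)) (h : Dep I c a) (hi : SetStr.mem i I)
    (hia : ¬ SetStr.mem i a) (hm : SetStr.mem m (tw : M)) (hc : ¬ Sm I k c) :
    ¬ Sm I (succ k) (it c (bit I i m)) := by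
  intro hS
  apply hc
  rw [sm_iff hk h]
  have ha' : GA.sub (adj a i) I := by
    intro z hz
    rw [mem_adj] at hz
    rcases hz with hz | rfl
    · exact h.1 z hz
    · exact hi
  have hfa : Fini (adj a i) := Fini.adj h.2.1 i
  have hD1 : Dep I c (adj a i) := h.mono (fun z hz => by rw [mem_adj]; exact Or.inl hz) ha' hfa
  have hD2 : Dep I (bit I i m) (adj a i) := (Dep.bit (m := m) hi).mono (fun z hz => by
    rw [mem_pr] at hz
    rw [mem_adj]
    right
    tauto) ha' hfa
  have hD := hD1.it hD2
  have hk' : SetStr.mem (succ k) (om : M) := succ_mem_om hk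
  rw [sm_iff hk' hD] at hS
  have hfin1 : Fini (trc c a) := (fini_funs h.2.1).sub (trc_sub h)
  -- the restrictions of `c` to `a` inject into those of `c` and the bit
  have h1 : Le (trc c a) (trc (it c (bit I i m)) (adj a i)) := by
    refine Le.of_fun (F := fun u => adj u (op i m)) (by (repeat' (with_reducible first | apply pf_bit | apply pf_sd | apply pf_df | apply pf_it | apply pd_Sm | apply pf_trc | apply pd_Clo | apply pd_Dep | apply pf_rs | apply pf_hh | apply pd_Spr | apply pd_Inj | apply pf_har | apply pd_Le | apply pf_fins | apply pf_card | apply pd_Bij | apply pd_Fini | apply pd_Big | apply pd_Ord | apply pd_Tr | apply pd_Ind | apply pf_succ | apply pf_funs | apply pf_prod | apply pf_lam | apply pd_Fn | apply pf_app | apply pf_ran | apply pf_dom | apply PF.img | apply PF.pow | apply PD.sub | apply PF.adj | apply PF.un | apply PF.sUn | apply PF.op | apply PF.pr | apply PF.sep | exact PF.var _ | exact PF.const _ | apply PD.eq | apply PD.mem | apply PD.not | apply PD.iff | apply PD.or | apply PD.and | apply PD.imp | apply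 PD.ex | apply PD.all | exact PD.const _ | assumption | refine PF.comp1 (F := _) (by assumption) ?_ | refine PF.comp2 (F := _) (by assumption) ?_ ?_ | refine PF.comp3 (F := _) (by assumption) ?_ ?_ ?_ | refine PD.app1 (R := _) (by assumption) ?_ | refine PD.app2 (R := _) (by assumption) ?_ ?_ | refine PD.app3 (R := _) (by assumption) ?_ ?_ ?_ | refine PD.app4 (R := _) (by assumption) ?_ ?_ ?_ ?_))) (fun u hu => ?_) (fun u w hu hw he => ?_)
    · obtain ⟨x, hx, rfl⟩ := mem_trc.1 hu
      have hu' := trc_sub h _ hu
      obtain ⟨hA, hA1, hA2⟩ := b7_adj hu' hia hm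
      obtain ⟨y, hy, hy2⟩ := exists_ext ha' hA
      rw [mem_trc]
      refine ⟨y, ?_, hy2.symm⟩
      have hya : ∀ z, SetStr.mem z (adj a i) → app y z = app (adj (rs x a) (op i m)) z := by
        intro z hz
        rw [← hy2, app_rs hz]
      rw [mem_it, mem_bit]
      refine ⟨?_, hy, ?_⟩
      · refine h.2.2.2 x y hx hy (fun z hz => ?_)
        rw [hya z (by rw [mem_adj]; exact Or.inl hz), hA2 z hz, app_rs hz]
      · rw [hya i (by simp), hA1]
    · have hu' := trc_sub h _ hu
      have hw' := trc_sub h _ hw
      have key : ∀ u w : M, SetStr.mem u (funs a tw) → adj u (op i m) = adj w (op i m) → GA.sub u w := by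
        intro u w hu he z hz
        have h2 : SetStr.mem z (adj w (op i m)) := by
          rw [← he, mem_adj]
          exact Or.inl hz
        rw [mem_adj] at h2
        rcases h2 with h2 | rfl
        · exact h2
        · exact (hia ((mem_funs.1 hu).1.mem_iff.1 hz).1).elim
      exact ext (fun z => ⟨key u w hu' he z, key w u hw' he.symm z⟩)
  have hkk : ¬ SetStr.mem k k := not_mem_self k
  have h2 : Le (prod (prod (trc c a) (funs k tw)) tw) (prod (trc c a) (funs (succ k) tw)) :=
    (le_assoc _ _ _).trans (Le.prod (Le.refl _) (le_funs_adj hkk))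
  have h3 : Le (prod (trc c a) (funs (succ k) tw)) (prod (funs a tw) tw) :=
    ((Le.prod h1 (Le.refl _)).trans hS).trans (funs_adj_le hia)
  refine le_cancel (Fini.prod hfin1 (fini_funs (Fini.of_mem_om hk))) (fini_funs h.2.1) Fini.tw
    ⟨emp, mem_tw.2 (Or.inl rfl)⟩ (h2.trans h3)

/-- MODULE b8.  The union of `n` sets of small measure (induction on `n`). -/
theorem sm_union {I n : M} (hn : SetStr.mem n (om : M)) {t : M} (ht : SetStr.mem t (om : M)) :
    ∃ l, SetStr.mem l (om : M) ∧ ∀ f, Fn f n → (∀ i, SetStr.mem i n → Sm I l (app f i)) →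
      Sm I t (sUn (ran f)) := by
  have key : ∀ n, SetStr.mem n (om : M) → ∀ t, SetStr.mem t (om : M) → ∃ l, SetStr.mem l (om : M) ∧ ∀ f, Fn f n →
      (∀ i, SetStr.mem i n → Sm I l (app f i)) → Sm I t (sUn (ran f)) := by
    refine om_ind (P := fun n => ∀ t, SetStr.mem t (om : M) → ∃ l, SetStr.mem l (om : M) ∧ ∀ f, Fn f n →
      (∀ i, SetStr.mem i n → Sm I l (app f i)) → Sm I t (sUn (ran f))) (by (repeat' (with_reducible first | apply pf_bit | apply pf_sd | apply pf_df | apply pf_it | apply pd_Sm | apply pf_trc | apply pd_Clo | apply pd_Dep | apply pf_rs | apply pf_hh | apply pd_Spr | apply pd_Inj | apply pf_har | apply pd_Le | apply pf_fins | apply pf_card | apply pd_Bij | apply pd_Fini | apply pd_Big | apply pd_Ord | apply pd_Tr | apply pd_Ind | apply pf_succ | apply pf_funs | apply pf_prod | apply pf_lam | apply pd_Fn | apply pf_app | apply pf_ran | apply pf_dom | apply PF.img | apply PF.pow | apply PD.sub | apply PF.adj | apply PF.un | apply PF.sUn | apply PF.op | apply PF.pr | apply PF.sep | exact PF.var _ | exact PF.const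 _ | apply PD.eq | apply PD.mem | apply PD.not | apply PD.iff | apply PD.or | apply PD.and | apply PD.imp | apply PD.ex | apply PD.all | exact PD.const _ | assumption | refine PF.comp1 (F := _) (by assumption) ?_ | refine PF.comp2 (F := _) (by assumption) ?_ ?_ | refine PF.comp3 (F := _) (by assumption) ?_ ?_ ?_ | refine PD.app1 (R := _) (by assumption) ?_ | refine PD.app2 (R := _) (by assumption) ?_ ?_ | refine PD.app3 (R := _) (by assumption) ?_ ?_ ?_ | refine PD.app4 (R := _) (by assumption) ?_ ?_ ?_ ?_))) ?_ ?_
    · intro t ht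
      refine ⟨t, ht, fun f hf _ => ?_⟩
      have : sUn (ran f) = emp := by
        refine ext (fun z => ⟨fun hz => ?_, fun hz => (not_mem_emp z hz).elim⟩)
        obtain ⟨y, hy, _⟩ := mem_sUn.1 hz
        obtain ⟨x, hx, _⟩ := hf.mem_ran.1 hy
        exact (not_mem_emp x hx).elim
      rw [this]
      exact Sm.emp ht
    · intro n hn ih t ht
      obtain ⟨l, hl, hl2⟩ := ih (succ t) (succ_mem_om ht)
      have hst : SetStr.mem (succ t) (om : M) := succ_mem_om ht
      obtain ⟨k, hk, hlk, htk⟩ : ∃ k, SetStr.mem k (om : M) ∧ GA.sub l k ∧ GA.sub (succ t) k := by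
        rcases (Ord.of_mem_om hl).sub_or_mem (Ord.of_mem_om hst) with h1 | h1
        · exact ⟨succ t, hst, h1, fun z hz => hz⟩
        · exact ⟨l, hl, fun z hz => hz, fun z hz => om_elt_trans hl h1 hz⟩
      refine ⟨k, hk, fun f hf hs => ?_⟩
      have hr : ∀ i, SetStr.mem i n → app (rs f n) i = app f i := fun i hi => app_rs hi
      have hFn : Fn (rs f n) n := lam_Fn (by (repeat' (with_reducible first | apply pf_bit | apply pf_sd | apply pf_df | apply pf_it | apply pd_Sm | apply pf_trc | apply pd_Clo | apply pd_Dep | apply pf_rs | apply pf_hh | apply pd_Spr | apply pd_Inj | apply pf_har | apply pd_Le | apply pf_fins | apply pf_card | apply pd_Bij | apply pd_Fini | apply pd_Big | apply pd_Ord | apply pd_Tr | apply pd_Ind | apply pf_succ | apply pf_funs | apply pf_prod | apply pf_lam | apply pd_Fn | apply pf_app | apply pf_ran | apply pf_dom | apply PF.img | apply PF.pow | apply PD.sub | apply PF.adj | apply PF.un | apply PF.sUn | apply PF.op | apply PF.pr | apply PF.sep | exact PF.var _ | exact PF.const _ | apply PD.eq | apply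 PD.mem | apply PD.not | apply PD.iff | apply PD.or | apply PD.and | apply PD.imp | apply PD.ex | apply PD.all | exact PD.const _ | assumption | refine PF.comp1 (F := _) (by assumption) ?_ | refine PF.comp2 (F := _) (by assumption) ?_ ?_ | refine PF.comp3 (F := _) (by assumption) ?_ ?_ ?_ | refine PD.app1 (R := _) (by assumption) ?_ | refine PD.app2 (R := _) (by assumption) ?_ ?_ | refine PD.app3 (R := _) (by assumption) ?_ ?_ ?_ | refine PD.app4 (R := _) (by assumption) ?_ ?_ ?_ ?_))) n
      have h1 : Sm I (succ t) (sUn (ran (rs f n))) := by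
        refine hl2 (rs f n) hFn (fun i hi => ?_)
        rw [hr i hi]
        exact (hs i (by rw [mem_succ]; exact Or.inl hi)).anti hl hk hlk
      have h2 : Sm I (succ t) (app f n) := (hs n (by simp)).anti hst hk htk
      have h3 : sUn (ran f) = un (sUn (ran (rs f n))) (app f n) := by
        refine ext (fun z => ?_)
        rw [mem_un, mem_sUn, mem_sUn]
        constructor
        · rintro ⟨y, hy, hz⟩
          obtain ⟨i, hi, rfl⟩ := hf.mem_ran.1 hy
          rw [mem_succ] at hi
          rcases hi with hi | rfl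
          · left
            refine ⟨app f i, hFn.mem_ran.2 ⟨i, hi, (hr i hi).symm⟩, hz⟩
          · right
            exact hz
        · rintro (⟨y, hy, hz⟩ | hz)
          · obtain ⟨i, hi, rfl⟩ := hFn.mem_ran.1 hy
            rw [hr i hi] at hz
            exact ⟨app f i, hf.mem_ran.2 ⟨i, by rw [mem_succ]; exact Or.inl hi, rfl⟩, hz⟩
          · exact ⟨app f n, hf.mem_ran.2 ⟨n, by simp, rfl⟩, hz⟩
      rw [h3]
      exact h1.un ht h2
  exact key n hn t ht

/-- MODULE b9.  Disjoint clopen sets of measure more than `2^-k`: there are at most `2^k`. -/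
theorem pack {I n f k : M} (hn : SetStr.mem n (om : M)) (hk : SetStr.mem k (om : M)) (hf : Fn f n)
    (hc : ∀ i, SetStr.mem i n → Clo I (app f i) ∧ ¬ Sm I k (app f i))
    (hd : ∀ i j x, SetStr.mem i n → SetStr.mem j n → SetStr.mem x (app f i) → SetStr.mem x (app f j) → i = j) :
    Le n (funs k tw) := by
  -- supports
  obtain ⟨s, hs, hs2⟩ := fchoice hn (R := fun i a => Dep I (app f i) a) (by (repeat' (with_reducible first | apply pf_bit | apply pf_sd | apply pf_df | apply pf_it | apply pd_Sm | apply pf_trc | apply pd_Clo | apply pd_Dep | apply pf_rs | apply pf_hh | apply pd_Spr | apply pd_Inj | apply pf_har | apply pd_Le | apply pf_fins | apply pf_card | apply pd_Bij | apply pd_Fini | apply pd_Big | apply pd_Ord | apply pd_Tr | apply pd_Ind | apply pf_succ | apply pf_funs | apply pf_prod | apply pf_lam | apply pd_Fn | apply pf_app | apply pf_ran | apply pf_dom | apply PF.img | apply PF.pow | apply PD.sub | apply PF.adj | apply PF.un | apply PF.sUn | apply PF.op | apply PF.pr | apply PF.sep | exact PF.var _ | exact PF.const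 _ | apply PD.eq | apply PD.mem | apply PD.not | apply PD.iff | apply PD.or | apply PD.and | apply PD.imp | apply PD.ex | apply PD.all | exact PD.const _ | assumption | refine PF.comp1 (F := _) (by assumption) ?_ | refine PF.comp2 (F := _) (by assumption) ?_ ?_ | refine PF.comp3 (F := _) (by assumption) ?_ ?_ ?_ | refine PD.app1 (R := _) (by assumption) ?_ | refine PD.app2 (R := _) (by assumption) ?_ ?_ | refine PD.app3 (R := _) (by assumption) ?_ ?_ ?_ | refine PD.app4 (R := _) (by assumption) ?_ ?_ ?_ ?_)))
    (fun i hi => (hc i hi).1)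
  have hnf : Fini n := Fini.of_mem_om hn
  have hrs : ran s = img (fun i => app s i) n := by
    refine ext (fun z => ?_)
    rw [hs.mem_ran, mem_img (by (repeat' (with_reducible first | apply pf_bit | apply pf_sd | apply pf_df | apply pf_it | apply pd_Sm | apply pf_trc | apply pd_Clo | apply pd_Dep | apply pf_rs | apply pf_hh | apply pd_Spr | apply pd_Inj | apply pf_har | apply pd_Le | apply pf_fins | apply pf_card | apply pd_Bij | apply pd_Fini | apply pd_Big | apply pd_Ord | apply pd_Tr | apply pd_Ind | apply pf_succ | apply pf_funs | apply pf_prod | apply pf_lam | apply pd_Fn | apply pf_app | apply pf_ran | apply pf_dom | apply PF.img | apply PF.pow | apply PD.sub | apply PF.adj | apply PF.un | apply PF.sUn | apply PF.op | apply PF.pr | apply PF.sep | exact PF.var _ | exact PF.const _ | apply PD.eq | apply PD.mem | apply PD.not | apply PD.iff | apply PD.or | apply PD.and | apply PD.imp | apply PD.ex | apply PD.all | exact PD.const _ | assumption | refine PF.comp1 (F := _) (by assumption) ?_ | refine PF.comp2 (F := _) (by assumption)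 ?_ ?_ | refine PF.comp3 (F := _) (by assumption) ?_ ?_ ?_ | refine PD.app1 (R := _) (by assumption) ?_ | refine PD.app2 (R := _) (by assumption) ?_ ?_ | refine PD.app3 (R := _) (by assumption) ?_ ?_ ?_ | refine PD.app4 (R := _) (by assumption) ?_ ?_ ?_ ?_)))]
  let e : M := sUn (ran s)
  have hef : Fini e := by
    refine Fini.sUn (by rw [hrs]; exact hnf.img (by (repeat' (with_reducible first | apply pf_bit | apply pf_sd | apply pf_df | apply pf_it | apply pd_Sm | apply pf_trc | apply pd_Clo | apply pd_Dep | apply pf_rs | apply pf_hh | apply pd_Spr | apply pd_Inj | apply pf_har | apply pd_Le | apply pf_fins | apply pf_card | apply pd_Bij | apply pd_Fini | apply pd_Big | apply pd_Ord | apply pd_Tr | apply pd_Ind | apply pf_succ | apply pf_funs | apply pf_prod | apply pf_lam | apply pd_Fn | apply pf_app | apply pf_ran | apply pf_dom | apply PF.img | apply PF.pow | apply PD.sub | apply PF.adj | apply PF.un | apply PF.sUn | apply PF.op | apply PF.pr | apply PF.sep | exact PF.var _ | exact PF.const _ | apply PD.eq | apply PD.mem |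 apply PD.not | apply PD.iff | apply PD.or | apply PD.and | apply PD.imp | apply PD.ex | apply PD.all | exact PD.const _ | assumption | refine PF.comp1 (F := _) (by assumption) ?_ | refine PF.comp2 (F := _) (by assumption) ?_ ?_ | refine PF.comp3 (F := _) (by assumption) ?_ ?_ ?_ | refine PD.app1 (R := _) (by assumption) ?_ | refine PD.app2 (R := _) (by assumption) ?_ ?_ | refine PD.app3 (R := _) (by assumption) ?_ ?_ ?_ | refine PD.app4 (R := _) (by assumption) ?_ ?_ ?_ ?_)))) (fun a ha => ?_)
    obtain ⟨i, hi, rfl⟩ := hs.mem_ran.1 ha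
    exact (hs2 i hi).2.1
  have heI : GA.sub e I := by
    intro z hz
    obtain ⟨a, ha, hz⟩ := mem_sUn.1 hz
    obtain ⟨i, hi, rfl⟩ := hs.mem_ran.1 ha
    exact (hs2 i hi).1 z hz
  have hD : ∀ i, SetStr.mem i n → Dep I (app f i) e := fun i hi =>
    (hs2 i hi).mono (fun z hz => mem_sUn.2 ⟨app s i, hs.mem_ran.2 ⟨i, hi, rfl⟩, hz⟩) heI hef
  have hkf : Fini (funs k (tw : M)) := fini_funs (Fini.of_mem_om hk)
  have heF : Fini (funs e (tw : M)) := fini_funs hef
  have hle : ∀ i, SetStr.mem i n → ∃ g, Fn g (funs e tw) ∧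
      (∀ x, SetStr.mem x (funs e tw) → SetStr.mem (app g x) (prod (trc (app f i) e) (funs k tw))) ∧
      ∀ x y, SetStr.mem x (funs e tw) → SetStr.mem y (funs e tw) → app g x = app g y → x = y := by
    intro i hi
    have h1 := (hc i hi).2
    rw [sm_iff hk (hD i hi)] at h1
    have hft : Fini (trc (app f i) e) := heF.sub (trc_sub (hD i hi))
    rcases le_total (Fini.prod hft hkf) heF with h2 | h2
    · exact (h1 h2).elim
    · exact h2
  obtain ⟨g, hg, hg2⟩ := fchoice hn (R := fun i g => Fn g (funs e tw) ∧
      (∀ x, SetStr.mem x (funs e tw) → SetStr.mem (app g x) (prod (trc (app f i) e) (funs k tw))) ∧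
      ∀ x y, SetStr.mem x (funs e tw) → SetStr.mem y (funs e tw) → app g x = app g y → x = y) (by (repeat' (with_reducible first | apply pf_bit | apply pf_sd | apply pf_df | apply pf_it | apply pd_Sm | apply pf_trc | apply pd_Clo | apply pd_Dep | apply pf_rs | apply pf_hh | apply pd_Spr | apply pd_Inj | apply pf_har | apply pd_Le | apply pf_fins | apply pf_card | apply pd_Bij | apply pd_Fini | apply pd_Big | apply pd_Ord | apply pd_Tr | apply pd_Ind | apply pf_succ | apply pf_funs | apply pf_prod | apply pf_lam | apply pd_Fn | apply pf_app | apply pf_ran | apply pf_dom | apply PF.img | apply PF.pow | apply PD.sub | apply PF.adj | apply PF.un | apply PF.sUn | apply PF.op | apply PF.pr | apply PF.sep | exact PF.var _ | exact PF.const _ | apply PD.eq | apply PD.mem | apply PD.not | apply PD.iff | apply PD.or | apply PD.and | apply PD.imp | apply PD.ex | apply PD.all | exact PD.const _ | assumption | refine PF.comp1 (F := _) (by assumption) ?_ | refine PF.comp2 (F := _) (by assumption) ?_ ?_ | refine PF.comp3 (F := _) (by assumption)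 ?_ ?_ ?_ | refine PD.app1 (R := _) (by assumption) ?_ | refine PD.app2 (R := _) (by assumption) ?_ ?_ | refine PD.app3 (R := _) (by assumption) ?_ ?_ ?_ | refine PD.app4 (R := _) (by assumption) ?_ ?_ ?_ ?_))) hle
  have hinj : Le (prod n (funs e tw)) (prod (funs e (tw : M)) (funs k tw)) := by
    -- the map `(i, y) ↦ g_i(y)`
    let H : M := sep (prod (prod n (funs e tw)) (prod (funs e tw) (funs k tw)))
      (fun w => ∃ i y, w = op (op i y) (app (app g i) y))
    have hH : ∀ w, SetStr.mem w H ↔ SetStr.mem w (prod (prod n (funs e tw)) (prod (funs e tw) (funs k tw))) ∧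
      ∃ i y, w = op (op i y) (app (app g i) y) := fun w => mem_sep (by (repeat' (with_reducible first | apply pf_bit | apply pf_sd | apply pf_df | apply pf_it | apply pd_Sm | apply pf_trc | apply pd_Clo | apply pd_Dep | apply pf_rs | apply pf_hh | apply pd_Spr | apply pd_Inj | apply pf_har | apply pd_Le | apply pf_fins | apply pf_card | apply pd_Bij | apply pd_Fini | apply pd_Big | apply pd_Ord | apply pd_Tr | apply pd_Ind | apply pf_succ | apply pf_funs | apply pf_prod | apply pf_lam | apply pd_Fn | apply pf_app | apply pf_ran | apply pf_dom | apply PF.img | apply PF.pow | apply PD.sub | apply PF.adj | apply PF.un | apply PF.sUn | apply PF.op | apply PF.pr | apply PF.sep | exact PF.var _ | exact PF.const _ | apply PD.eq | apply PD.mem | apply PD.not | apply PD.iff | apply PD.or | apply PD.and | apply PD.imp | apply PD.ex | apply PD.all | exact PD.const _ | assumption | refine PF.comp1 (F := _) (by assumption) ?_ | refine PF.comp2 (F := _) (by assumption) ?_ ?_ | refine PF.comp3 (F := _) (by assumption) ?_ ?_ ?_ | refine PD.app1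 (R := _) (by assumption) ?_ | refine PD.app2 (R := _) (by assumption) ?_ ?_ | refine PD.app3 (R := _) (by assumption) ?_ ?_ ?_ | refine PD.app4 (R := _) (by assumption) ?_ ?_ ?_ ?_)))
    have hval : ∀ i y, SetStr.mem i n → SetStr.mem y (funs e tw) →
        SetStr.mem (app (app g i) y) (prod (funs e (tw : M)) (funs k tw)) := by
      intro i y hi hy
      obtain ⟨u, hu, v, hv, huv⟩ := mem_prod.1 ((hg2 i hi).2.1 y hy)
      rw [huv, op_mem_prod]
      exact ⟨trc_sub (hD i hi) _ hu, hv⟩
    have hHF : Fn H (prod n (funs e tw)) := by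
      constructor
      · intro z hz
        obtain ⟨h1, i, y, rfl⟩ := (hH z).1 hz
        rw [op_mem_prod] at h1
        exact ⟨_, h1.1, _, rfl⟩
      · intro z hz
        obtain ⟨i, hi, y, hy, rfl⟩ := mem_prod.1 hz
        refine ⟨⟨app (app g i) y, (hH _).2 ⟨op_mem_prod.2 ⟨hz, hval i y hi hy⟩, i, y, rfl⟩⟩, ?_⟩
        intro w w' hw hw'
        obtain ⟨-, i1, y1, h1⟩ := (hH _).1 hw
        obtain ⟨-, i2, y2, h2⟩ := (hH _).1 hw'
        rw [op_inj, op_inj] at h1 h2
        obtain ⟨⟨rfl, rfl⟩, rfl⟩ := h1
        obtain ⟨⟨rfl, rfl⟩, rfl⟩ := h2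
        rfl
    have hHv : ∀ i y, SetStr.mem i n → SetStr.mem y (funs e tw) → app H (op i y) = app (app g i) y := by
      intro i y hi hy
      have hz : SetStr.mem (op i y) (prod n (funs e tw)) := op_mem_prod.2 ⟨hi, hy⟩
      have h1 : SetStr.mem (op (op i y) (app (app g i) y)) H :=
        (hH _).2 ⟨op_mem_prod.2 ⟨hz, hval i y hi hy⟩, i, y, rfl⟩
      exact ((hHF.mem_iff.1 h1).2).symm
    refine ⟨H, hHF, ?_, ?_⟩
    · intro z hz
      obtain ⟨i, hi, y, hy, rfl⟩ := mem_prod.1 hz
      rw [hHv i y hi hy]
      exact hval i y hi hy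
    · intro z z' hz hz' he
      obtain ⟨i, hi, y, hy, rfl⟩ := mem_prod.1 hz
      obtain ⟨i', hi', y', hy', rfl⟩ := mem_prod.1 hz'
      rw [hHv i y hi hy, hHv i' y' hi' hy'] at he
      obtain ⟨u, hu, v, hv, huv⟩ := mem_prod.1 ((hg2 i hi).2.1 y hy)
      obtain ⟨u', hu', v', hv', huv'⟩ := mem_prod.1 ((hg2 i' hi').2.1 y' hy')
      have he2 := he
      rw [huv, huv', op_inj] at he2
      obtain ⟨x, hx, hxu⟩ := mem_trc.1 hu
      obtain ⟨x', hx', hxu'⟩ := mem_trc.1 hu'
      have h3 : rs x' e = rs x e := by rw [← hxu', ← hxu, he2.1]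
      have h4 : SetStr.mem x' (app f i) := by
        refine (hD i hi).2.2.2 x x' hx ((hD i' hi').2.2.1 _ hx') (fun z hz => ?_)
        exact (rs_eq_iff.1 h3 z hz).symm
      have hii : i = i' := hd i i' x' hi hi' h4 hx'
      subst hii
      rw [(hg2 i hi).2.2 y y' hy hy' he]
  exact le_cancel hnf hkf heF (exists_mem_funs e) (hinj.trans (le_swap _ _))

end GA
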