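import Pool.Agent.GA.FName

/-!
# Sets that inject into ordinals; coding of finite sets

`WOd a`: `a` injects into an ordinal.  `Cd κ a`: moreover `a` injects into the functions from omega
to `κ`.
-/

universe u

namespace GA

variable {M : Type u} [SetStr M] [IsZF M]

/-- MODULE wa -/
theorem WOd.of_le {a b : M} (h : Le a b) (hb : WOd b) : WOd a := by
  obtain ⟨μ, hμ, h'⟩ := hb
  exact ⟨μ, hμ, h.trans h'⟩

/-- MODULE wa -/
theorem WOd.of_sub {a b : M} (h : GA.sub a b) (hb : WOd b) : WOd a := by
  exact WOd.of_le (Le.of_sub h) hb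

/-- MODULE wa -/
theorem WOd.of_ord {a : M} (h : Ord a) : WOd a := by
  exact ⟨a, h, Le.of_sub (fun _ h' => h')⟩

private theorem wb_uni {a z : M} {P : M → Prop} (hP : PD (fun v => P (v 0))) (hz : SetStr.mem z a) (hPz : P z)
    (hu : ∀ w, SetStr.mem w a → P w → w = z) : sUn (sep a P) = z := by
  refine ext (fun y => ?_)
  rw [mem_sUn]
  constructor
  · rintro ⟨w, hw, hy⟩
    rw [mem_sep hP] at hw
    rw [← hu w hw.1 hw.2]
    exact hy
  · intro hy
    exact ⟨z, (mem_sep hP).2 ⟨hz, hPz⟩, hy⟩

/-- MODULE wb.  A definable choice function for the nonempty subsets of `a`.  (`f` an injection of `a`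
into the ordinal `μ`; `c s` = `sUn` of the set of all `z ∈ s` with `app f z` least: a singleton.) -/
theorem WOd.choice {a : M} (h : WOd a) :
    ∃ c : M → M, PF (fun v => c (v 0)) ∧ ∀ s, GA.sub s a → (∃ z, SetStr.mem z s) → SetStr.mem (c s) s := by
  obtain ⟨μ, hμ, f, hf, hv, hi⟩ := h
  refine ⟨fun s => sUn (sep s (fun z => ∀ w, SetStr.mem w s → ¬ SetStr.mem (app f w) (app f z))), by (repeat' (with_reducible first | apply pd_WOd | apply pf_pfin | apply pd_Fun1 | apply pf_hh | apply pd_Spr | apply pd_Inj | apply pf_har | apply pd_Le | apply pf_fins | apply pf_card | apply pd_Bij | apply pd_Fini | apply pd_Big | apply pd_Ord | apply pd_Tr | apply pd_Ind | apply pf_succ | apply pf_funs | apply pf_prod | apply pf_lam | apply pd_Fn | apply pf_app | apply pf_ran | apply pf_dom | apply PF.img | apply PF.pow | apply PD.sub | apply PF.adj | apply PF.un | apply PF.sUn | apply PF.op | apply PF.pr | apply PF.sep | exact PF.var _ | exact PF.const _ | apply PD.eq | apply PD.mem | apply PD.not | apply PD.iff | apply PD.or |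 apply PD.and | apply PD.imp | apply PD.ex | apply PD.all | exact PD.const _ | assumption | refine PF.comp1 (F := _) (by assumption) ?_ | refine PF.comp2 (F := _) (by assumption) ?_ ?_ | refine PF.comp3 (F := _) (by assumption) ?_ ?_ ?_ | refine PD.app1 (R := _) (by assumption) ?_ | refine PD.app2 (R := _) (by assumption) ?_ ?_ | refine PD.app3 (R := _) (by assumption) ?_ ?_ ?_ | refine PD.app4 (R := _) (by assumption) ?_ ?_ ?_ ?_)), ?_⟩
  intro s hs hne
  have hP : ∀ s : M, PD (fun v => (fun z => ∀ w, SetStr.mem w s → ¬ SetStr.mem (app f w) (app f z)) (v 0)) := fun s => by (repeat' (with_reducible first | apply pd_WOd | apply pf_pfin | apply pd_Fun1 | apply pf_hh | apply pd_Spr | apply pd_Inj | apply pf_har | apply pd_Le | apply pf_fins | apply pf_card | apply pd_Bij | apply pd_Fini | apply pd_Big | apply pd_Ord | apply pd_Tr | apply pd_Ind | apply pf_succ | apply pf_funs | apply pf_prod | apply pf_lam | apply pd_Fn | apply pf_app | apply pf_ran | apply pf_dom | apply PF.img | apply PF.pow | apply PD.sub | apply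 PF.adj | apply PF.un | apply PF.sUn | apply PF.op | apply PF.pr | apply PF.sep | exact PF.var _ | exact PF.const _ | apply PD.eq | apply PD.mem | apply PD.not | apply PD.iff | apply PD.or | apply PD.and | apply PD.imp | apply PD.ex | apply PD.all | exact PD.const _ | assumption | refine PF.comp1 (F := _) (by assumption) ?_ | refine PF.comp2 (F := _) (by assumption) ?_ ?_ | refine PF.comp3 (F := _) (by assumption) ?_ ?_ ?_ | refine PD.app1 (R := _) (by assumption) ?_ | refine PD.app2 (R := _) (by assumption) ?_ ?_ | refine PD.app3 (R := _) (by assumption) ?_ ?_ ?_ | refine PD.app4 (R := _) (by assumption) ?_ ?_ ?_ ?_))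
  obtain ⟨x, hx, ⟨z, hz, rfl⟩, hl⟩ := Ord.least (P := fun x => ∃ z, SetStr.mem z s ∧ app f z = x) (by (repeat' (with_reducible first | apply pd_WOd | apply pf_pfin | apply pd_Fun1 | apply pf_hh | apply pd_Spr | apply pd_Inj | apply pf_har | apply pd_Le | apply pf_fins | apply pf_card | apply pd_Bij | apply pd_Fini | apply pd_Big | apply pd_Ord | apply pd_Tr | apply pd_Ind | apply pf_succ | apply pf_funs | apply pf_prod | apply pf_lam | apply pd_Fn | apply pf_app | apply pf_ran | apply pf_dom | apply PF.img | apply PF.pow | apply PD.sub | apply PF.adj | apply PF.un | apply PF.sUn | apply PF.op | apply PF.pr | apply PF.sep | exact PF.var _ | exact PF.const _ | apply PD.eq | apply PD.mem | apply PD.not | apply PD.iff | apply PD.or | apply PD.and | apply PD.imp | apply PD.ex | apply PD.all | exact PD.const _ | assumption | refine PF.comp1 (F := _) (by assumption) ?_ | refine PF.comp2 (F := _) (by assumption) ?_ ?_ | refine PF.comp3 (F := _) (by assumption) ?_ ?_ ?_ | refine PD.app1 (R := _) (by assumption) ?_ | refine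 PD.app2 (R := _) (by assumption) ?_ ?_ | refine PD.app3 (R := _) (by assumption) ?_ ?_ ?_ | refine PD.app4 (R := _) (by assumption) ?_ ?_ ?_ ?_))) (by
    obtain ⟨z, hz⟩ := hne
    exact ⟨app f z, hμ.mem (hv z (hs z hz)), z, hz, rfl⟩)
  have h1 : sUn (sep s (fun z => ∀ w, SetStr.mem w s → ¬ SetStr.mem (app f w) (app f z))) = z := by
    apply wb_uni (hP s) hz
    · intro w hw hwz
      exact hl _ hwz ⟨w, hw, rfl⟩
    · intro w hw hw'
      apply hi w z (hs w hw) (hs z hz)
      rcases Ord.tri (hμ.mem (hv w (hs w hw))) (hμ.mem (hv z (hs z hz))) with h2 | h2 | h2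
      · exact absurd ⟨w, hw, rfl⟩ (hl _ h2)
      · exact h2
      · exact absurd h2 (hw' z hz)
  show SetStr.mem (sUn (sep s (fun z => ∀ w, SetStr.mem w s → ¬ SetStr.mem (app f w) (app f z)))) s
  rw [h1]
  exact hz

/-- MODULE wc.  `a` is equinumerous with an ordinal (`exists_otp` for the image). -/
theorem WOd.equiv {a : M} (h : WOd a) : ∃ δ, Ord δ ∧ Le a δ ∧ Le δ a := by
  obtain ⟨μ, hμ, f, hf, hv, hi⟩ := h
  have hJ : GA.sub (ran f) μ := by
    intro y hy
    obtain ⟨x, hx, rfl⟩ := hf.mem_ran.1 hy
    exact hv x hx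
  obtain ⟨δ, F, hδ, hF, -⟩ := exists_otp hμ hJ
  have hr : ∀ x, SetStr.mem x a → SetStr.mem (app f x) (ran f) := fun x hx => hf.mem_ran.2 ⟨x, hx, rfl⟩
  have hinj : ∀ x y, SetStr.mem x a → SetStr.mem y a → app F (app f x) = app F (app f y) → x = y := by
    intro x y hx hy h1
    exact hi x y hx hy (hF.2.2.2 _ _ (hr x hx) (hr y hy) h1)
  refine ⟨δ, hδ, ?_, ?_⟩
  · exact Le.of_fun (F := fun x => app F (app f x)) (by (repeat' (with_reducible first | apply pd_WOd | apply pf_pfin | apply pd_Fun1 | apply pf_hh | apply pd_Spr | apply pd_Inj | apply pf_har | apply pd_Le | apply pf_fins | apply pf_card | apply pd_Bij | apply pd_Fini | apply pd_Big | apply pd_Ord | apply pd_Tr | apply pd_Ind | apply pf_succ | apply pf_funs | apply pf_prod | apply pf_lam | apply pd_Fn | apply pf_app | apply pf_ran | apply pf_dom | apply PF.img | apply PF.pow | apply PD.sub | apply PF.adj | apply PF.un | apply PF.sUn | apply PF.op | apply PF.pr | apply PF.sep | exact PF.var _ | exact PF.const _ | apply PD.eq | apply PD.mem | apply PD.not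 | apply PD.iff | apply PD.or | apply PD.and | apply PD.imp | apply PD.ex | apply PD.all | exact PD.const _ | assumption | refine PF.comp1 (F := _) (by assumption) ?_ | refine PF.comp2 (F := _) (by assumption) ?_ ?_ | refine PF.comp3 (F := _) (by assumption) ?_ ?_ ?_ | refine PD.app1 (R := _) (by assumption) ?_ | refine PD.app2 (R := _) (by assumption) ?_ ?_ | refine PD.app3 (R := _) (by assumption) ?_ ?_ ?_ | refine PD.app4 (R := _) (by assumption) ?_ ?_ ?_ ?_))) (fun x hx => hF.2.1 _ (hr x hx)) hinj
  · have hex : ∀ y, SetStr.mem y δ → ∃ z, SetStr.mem z a ∧ app F (app f z) = y ∧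
        sUn (sep a (fun z => app F (app f z) = y)) = z := by
      intro y hy
      obtain ⟨x, hx, hxy⟩ := hF.2.2.1 y hy
      obtain ⟨z, hz, rfl⟩ := hf.mem_ran.1 hx
      refine ⟨z, hz, hxy, wb_uni (by (repeat' (with_reducible first | apply pd_WOd | apply pf_pfin | apply pd_Fun1 | apply pf_hh | apply pd_Spr | apply pd_Inj | apply pf_har | apply pd_Le | apply pf_fins | apply pf_card | apply pd_Bij | apply pd_Fini | apply pd_Big | apply pd_Ord | apply pd_Tr | apply pd_Ind | apply pf_succ | apply pf_funs | apply pf_prod | apply pf_lam | apply pd_Fn | apply pf_app | apply pf_ran | apply pf_dom | apply PF.img | apply PF.pow | apply PD.sub | apply PF.adj | apply PF.un | apply PF.sUn | apply PF.op | apply PF.pr | apply PF.sep | exact PF.var _ | exact PF.const _ | apply PD.eq | apply PD.mem | apply PD.not | apply PD.iff | apply PD.or | apply PD.and | apply PD.imp | apply PD.ex | apply PD.all | exact PD.const _ | assumption | refine PF.comp1 (F := _) (by assumption) ?_ | refine PF.comp2 (F := _) (by assumption) ?_ ?_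 | refine PF.comp3 (F := _) (by assumption) ?_ ?_ ?_ | refine PD.app1 (R := _) (by assumption) ?_ | refine PD.app2 (R := _) (by assumption) ?_ ?_ | refine PD.app3 (R := _) (by assumption) ?_ ?_ ?_ | refine PD.app4 (R := _) (by assumption) ?_ ?_ ?_ ?_))) hz hxy ?_⟩
      intro w hw hw'
      exact hinj w z hw hz (hw'.trans hxy.symm)
    refine Le.of_fun (F := fun y => sUn (sep a (fun z => app F (app f z) = y))) (by (repeat' (with_reducible first | apply pd_WOd | apply pf_pfin | apply pd_Fun1 | apply pf_hh | apply pd_Spr | apply pd_Inj | apply pf_har | apply pd_Le | apply pf_fins | apply pf_card | apply pd_Bij | apply pd_Fini | apply pd_Big | apply pd_Ord | apply pd_Tr | apply pd_Ind | apply pf_succ | apply pf_funs | apply pf_prod | apply pf_lam | apply pd_Fn | apply pf_app | apply pf_ran | apply pf_dom | apply PF.img | apply PF.pow | apply PD.sub | apply PF.adj | apply PF.un | apply PF.sUn | apply PF.op | apply PF.pr | apply PF.sep | exact PF.var _ | exact PF.const _ | apply PD.eq | apply PD.mem | apply PD.not |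 apply PD.iff | apply PD.or | apply PD.and | apply PD.imp | apply PD.ex | apply PD.all | exact PD.const _ | assumption | refine PF.comp1 (F := _) (by assumption) ?_ | refine PF.comp2 (F := _) (by assumption) ?_ ?_ | refine PF.comp3 (F := _) (by assumption) ?_ ?_ ?_ | refine PD.app1 (R := _) (by assumption) ?_ | refine PD.app2 (R := _) (by assumption) ?_ ?_ | refine PD.app3 (R := _) (by assumption) ?_ ?_ ?_ | refine PD.app4 (R := _) (by assumption) ?_ ?_ ?_ ?_))) ?_ ?_
    · intro y hy
      obtain ⟨z, hz, -, h1⟩ := hex y hy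
      show SetStr.mem (sUn (sep a (fun z => app F (app f z) = y))) a
      rw [h1]
      exact hz
    · intro y y' hy hy' h1
      obtain ⟨z, hz, h2, h3⟩ := hex y hy
      obtain ⟨z', hz', h2', h3'⟩ := hex y' hy'
      have h4 : z = z' := by rw [← h3, ← h3']; exact h1
      rw [← h2, ← h2', h4]

/-- MODULE wd.  A definable strict linear order in which every nonempty subset has a least element
gives an injection into an ordinal.  (`rec_exists` for `pred x = sep a (fun y => R y x)`,
`x ∈ a`, and `pred x = emp` otherwise: `F x = {F y : y ∈ pred x}`; `F x` is an ordinal (by induction,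
`Ord.of_tr`) and `R y x` implies `F y ∈ F x`, so `F` is injective on `a`; the values form a set of
ordinals, which is a subset of the ordinal `succ (sUn (img F a))`.) -/
theorem WOd.of_order {R : M → M → Prop} (hR : PD (fun v => R (v 0) (v 1))) {a : M} (hl : LinO R a)
    (hw : ∀ s, GA.sub s a → (∃ z, SetStr.mem z s) → ∃ z, SetStr.mem z s ∧ ∀ w, SetStr.mem w s → ¬ R w z) : WOd a := by
  have hpr : PF (fun v : ℕ → M => sep a (fun y => SetStr.mem (v 0) a ∧ R y (v 0))) := by (repeat' (with_reducible first | apply pd_WOd | apply pf_pfin | apply pd_Fun1 | apply pf_hh | apply pd_Spr | apply pd_Inj | apply pf_har | apply pd_Le | apply pf_fins | apply pf_card | apply pd_Bij | apply pd_Fini | apply pd_Big | apply pd_Ord | apply pd_Tr | apply pd_Ind | apply pf_succ | apply pf_funs | apply pf_prod | apply pf_lam | apply pd_Fn | apply pf_app | apply pf_ran | apply pf_dom | apply PF.img | apply PF.pow | apply PD.sub | apply PF.adj | apply PF.un | apply PF.sUn | apply PF.op | apply PF.pr | apply PF.sep | exact PF.var _ | exact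 PF.const _ | apply PD.eq | apply PD.mem | apply PD.not | apply PD.iff | apply PD.or | apply PD.and | apply PD.imp | apply PD.ex | apply PD.all | exact PD.const _ | assumption | refine PF.comp1 (F := _) (by assumption) ?_ | refine PF.comp2 (F := _) (by assumption) ?_ ?_ | refine PF.comp3 (F := _) (by assumption) ?_ ?_ ?_ | refine PD.app1 (R := _) (by assumption) ?_ | refine PD.app2 (R := _) (by assumption) ?_ ?_ | refine PD.app3 (R := _) (by assumption) ?_ ?_ ?_ | refine PD.app4 (R := _) (by assumption) ?_ ?_ ?_ ?_))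
  have hmem : ∀ x y : M, SetStr.mem y (sep a (fun y => SetStr.mem x a ∧ R y x)) ↔ SetStr.mem y a ∧ SetStr.mem x a ∧ R y x := by
    intro x y
    rw [mem_sep (by (repeat' (with_reducible first | apply pd_WOd | apply pf_pfin | apply pd_Fun1 | apply pf_hh | apply pd_Spr | apply pd_Inj | apply pf_har | apply pd_Le | apply pf_fins | apply pf_card | apply pd_Bij | apply pd_Fini | apply pd_Big | apply pd_Ord | apply pd_Tr | apply pd_Ind | apply pf_succ | apply pf_funs | apply pf_prod | apply pf_lam | apply pd_Fn | apply pf_app | apply pf_ran | apply pf_dom | apply PF.img | apply PF.pow | apply PD.sub | apply PF.adj | apply PF.un | apply PF.sUn | apply PF.op | apply PF.pr | apply PF.sep | exact PF.var _ | exact PF.const _ | apply PD.eq | apply PD.mem | apply PD.not | apply PD.iff | apply PD.or | apply PD.and | apply PD.imp | apply PD.ex | apply PD.all | exact PD.const _ | assumption | refine PF.comp1 (F := _) (by assumption) ?_ | refine PF.comp2 (F := _) (by assumption) ?_ ?_ | refine PF.comp3 (F := _) (by assumption)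 ?_ ?_ ?_ | refine PD.app1 (R := _) (by assumption) ?_ | refine PD.app2 (R := _) (by assumption) ?_ ?_ | refine PD.app3 (R := _) (by assumption) ?_ ?_ ?_ | refine PD.app4 (R := _) (by assumption) ?_ ?_ ?_ ?_)))]
  have hind : HasInd (fun x : M => sep a (fun y => SetStr.mem x a ∧ R y x)) := by
    intro P hP hstep
    have h1 : ∀ x, SetStr.mem x a → P x := by
      by_contra hcon
      push Not at hcon
      obtain ⟨x, hx, hPx⟩ := hcon
      have hPn : PD (fun v : ℕ → M => ¬ P (v 0)) := by (repeat' (with_reducible first | apply pd_WOd | apply pf_pfin | apply pd_Fun1 | apply pf_hh | apply pd_Spr | apply pd_Inj | apply pf_har | apply pd_Le | apply pf_fins | apply pf_card | apply pd_Bij | apply pd_Fini | apply pd_Big | apply pd_Ord | apply pd_Tr | apply pd_Ind | apply pf_succ | apply pf_funs | apply pf_prod | apply pf_lam | apply pd_Fn | apply pf_app | apply pf_ran | apply pf_dom | apply PF.img | apply PF.pow | apply PD.sub | apply PF.adj | apply PF.un | apply PF.sUn | apply PF.op | apply PF.pr | apply PF.sep | exact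 PF.var _ | exact PF.const _ | apply PD.eq | apply PD.mem | apply PD.not | apply PD.iff | apply PD.or | apply PD.and | apply PD.imp | apply PD.ex | apply PD.all | exact PD.const _ | assumption | refine PF.comp1 (F := _) (by assumption) ?_ | refine PF.comp2 (F := _) (by assumption) ?_ ?_ | refine PF.comp3 (F := _) (by assumption) ?_ ?_ ?_ | refine PD.app1 (R := _) (by assumption) ?_ | refine PD.app2 (R := _) (by assumption) ?_ ?_ | refine PD.app3 (R := _) (by assumption) ?_ ?_ ?_ | refine PD.app4 (R := _) (by assumption) ?_ ?_ ?_ ?_))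
      obtain ⟨z, hz, hmin⟩ := hw (sep a (fun x => ¬ P x)) (fun z hz =>
        ((mem_sep (P := fun x => ¬ P x) hPn).1 hz).1)
        ⟨x, (mem_sep (P := fun x => ¬ P x) hPn).2 ⟨hx, hPx⟩⟩
      have hz' := (mem_sep (P := fun x => ¬ P x) hPn).1 hz
      apply hz'.2
      apply hstep
      intro y hy
      rw [hmem] at hy
      by_contra hPy
      exact hmin y ((mem_sep (P := fun x => ¬ P x) hPn).2 ⟨hy.1, hPy⟩) hy.2.2
    intro x
    by_cases hx : SetStr.mem x a
    · exact h1 x hx
    · apply hstep
      intro y hy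
      rw [hmem] at hy
      exact (hx hy.2.1).elim
  obtain ⟨F, hF, hFx⟩ := rec_exists (pred := fun x : M => sep a (fun y => SetStr.mem x a ∧ R y x))
    (G := fun _ f => ran f) hpr (by (repeat' (with_reducible first | apply pd_WOd | apply pf_pfin | apply pd_Fun1 | apply pf_hh | apply pd_Spr | apply pd_Inj | apply pf_har | apply pd_Le | apply pf_fins | apply pf_card | apply pd_Bij | apply pd_Fini | apply pd_Big | apply pd_Ord | apply pd_Tr | apply pd_Ind | apply pf_succ | apply pf_funs | apply pf_prod | apply pf_lam | apply pd_Fn | apply pf_app | apply pf_ran | apply pf_dom | apply PF.img | apply PF.pow | apply PD.sub | apply PF.adj | apply PF.un | apply PF.sUn | apply PF.op | apply PF.pr | apply PF.sep | exact PF.var _ | exact PF.const _ | apply PD.eq | apply PD.mem | apply PD.not | apply PD.iff | apply PD.or | apply PD.and | apply PD.imp | apply PD.ex | apply PD.all | exact PD.const _ | assumption | refine PF.comp1 (F := _) (by assumption) ?_ | refine PF.comp2 (F := _) (by assumption) ?_ ?_ | refine PF.comp3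 (F := _) (by assumption) ?_ ?_ ?_ | refine PD.app1 (R := _) (by assumption) ?_ | refine PD.app2 (R := _) (by assumption) ?_ ?_ | refine PD.app3 (R := _) (by assumption) ?_ ?_ ?_ | refine PD.app4 (R := _) (by assumption) ?_ ?_ ?_ ?_))) hind
  have hF1 : ∀ x z, SetStr.mem z (F x) ↔ ∃ y, SetStr.mem y a ∧ SetStr.mem x a ∧ R y x ∧ z = F y := by
    intro x z
    rw [hFx x, (lam_Fn hF _).mem_ran]
    constructor
    · rintro ⟨y, hy, rfl⟩
      rw [app_lam hF hy]
      rw [hmem] at hy
      exact ⟨y, hy.1, hy.2.1, hy.2.2, rfl⟩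
    · rintro ⟨y, hy, hx, hyx, rfl⟩
      have hy' : SetStr.mem y (sep a (fun y => SetStr.mem x a ∧ R y x)) := (hmem x y).2 ⟨hy, hx, hyx⟩
      exact ⟨y, hy', (app_lam hF hy').symm⟩
  have hord : ∀ x, Ord (F x) := by
    refine hind (fun x => Ord (F x)) (by (repeat' (with_reducible first | apply pd_WOd | apply pf_pfin | apply pd_Fun1 | apply pf_hh | apply pd_Spr | apply pd_Inj | apply pf_har | apply pd_Le | apply pf_fins | apply pf_card | apply pd_Bij | apply pd_Fini | apply pd_Big | apply pd_Ord | apply pd_Tr | apply pd_Ind | apply pf_succ | apply pf_funs | apply pf_prod | apply pf_lam | apply pd_Fn | apply pf_app | apply pf_ran | apply pf_dom | apply PF.img | apply PF.pow | apply PD.sub | apply PF.adj | apply PF.un | apply PF.sUn | apply PF.op | apply PF.pr | apply PF.sep | exact PF.var _ | exact PF.const _ | apply PD.eq | apply PD.mem | apply PD.not | apply PD.iff | apply PD.or | apply PD.and | apply PD.imp | apply PD.ex | apply PD.all | exact PD.const _ | assumption | refine PF.comp1 (F := _) (by assumption)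 ?_ | refine PF.comp2 (F := _) (by assumption) ?_ ?_ | refine PF.comp3 (F := _) (by assumption) ?_ ?_ ?_ | refine PD.app1 (R := _) (by assumption) ?_ | refine PD.app2 (R := _) (by assumption) ?_ ?_ | refine PD.app3 (R := _) (by assumption) ?_ ?_ ?_ | refine PD.app4 (R := _) (by assumption) ?_ ?_ ?_ ?_))) ?_
    intro x hx
    refine Ord.of_tr ?_ ?_
    · intro z hz
      obtain ⟨y, hy, hxa, hyx, rfl⟩ := (hF1 x z).1 hz
      exact hx y ((hmem x y).2 ⟨hy, hxa, hyx⟩)
    · intro z hz w hwz
      obtain ⟨y, hy, hxa, hyx, rfl⟩ := (hF1 x z).1 hz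
      obtain ⟨y', hy', -, hyy, rfl⟩ := (hF1 y w).1 hwz
      exact (hF1 x _).2 ⟨y', hy', hxa, hl.2.1 y' y x hy' hy hxa hyy hyx, rfl⟩
  have hlt : ∀ x y, SetStr.mem x a → SetStr.mem y a → R x y → SetStr.mem (F x) (F y) := fun x y hx hy h =>
    (hF1 y _).2 ⟨x, hx, hy, h, rfl⟩
  have hβ : Ord (GA.sUn (img F a)) := by
    refine Ord.sUn fun z hz => ?_
    obtain ⟨y, -, rfl⟩ := (mem_img hF).1 hz
    exact hord y
  refine ⟨GA.succ (GA.sUn (img F a)), hβ.succ, Le.of_fun hF ?_ ?_⟩
  · intro x hx
    have h1 : GA.sub (F x) (GA.sUn (img F a)) := fun z hz =>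
      mem_sUn.2 ⟨F x, (mem_img hF).2 ⟨x, hx, rfl⟩, hz⟩
    rw [mem_succ]
    exact (Ord.sub_iff (hord x) hβ).1 h1
  · intro x y hx hy hxy
    rcases hl.2.2 x y hx hy with h | h | h
    · exact h
    · have h1 := hlt x y hx hy h
      rw [hxy] at h1
      exact (not_mem_self _ h1).elim
    · have h1 := hlt y x hy hx h
      rw [hxy] at h1
      exact (not_mem_self _ h1).elim

private def we_lex (z w : M) : Prop :=
  ∃ a b c d, z = op a b ∧ w = op c d ∧ (SetStr.mem a c ∨ (a = c ∧ SetStr.mem b d))

private theorem we_iff {a b c d : M} : we_lex (op a b) (op c d) ↔ SetStr.mem a c ∨ (a = c ∧ SetStr.mem b d) := by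
  constructor
  · rintro ⟨a', b', c', d', h1, h2, h3⟩
    rw [op_inj] at h1 h2
    rw [h1.1, h1.2, h2.1, h2.2]
    exact h3
  · intro h
    exact ⟨a, b, c, d, rfl, rfl, h⟩

private theorem we_pd : PD (fun v : ℕ → M => we_lex (v 0) (v 1)) := by
  unfold we_lex
  (repeat' (with_reducible first | apply pd_WOd | apply pf_pfin | apply pd_Fun1 | apply pf_hh | apply pd_Spr | apply pd_Inj | apply pf_har | apply pd_Le | apply pf_fins | apply pf_card | apply pd_Bij | apply pd_Fini | apply pd_Big | apply pd_Ord | apply pd_Tr | apply pd_Ind | apply pf_succ | apply pf_funs | apply pf_prod | apply pf_lam | apply pd_Fn | apply pf_app | apply pf_ran | apply pf_dom | apply PF.img | apply PF.pow | apply PD.sub | apply PF.adj | apply PF.un | apply PF.sUn | apply PF.op | apply PF.pr | apply PF.sep | exact PF.var _ | exact PF.const _ | apply PD.eq | apply PD.mem | apply PD.not | apply PD.iff | apply PD.or | apply PD.and | apply PD.imp | apply PD.ex | apply PD.all | exact PD.const _ | assumption | refine PF.comp1 (F := _) (by assumption)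 ?_ | refine PF.comp2 (F := _) (by assumption) ?_ ?_ | refine PF.comp3 (F := _) (by assumption) ?_ ?_ ?_ | refine PD.app1 (R := _) (by assumption) ?_ | refine PD.app2 (R := _) (by assumption) ?_ ?_ | refine PD.app3 (R := _) (by assumption) ?_ ?_ ?_ | refine PD.app4 (R := _) (by assumption) ?_ ?_ ?_ ?_))

/-- MODULE we.  Lexicographic order of the product of two ordinals, `WOd.of_order`. -/
theorem WOd.prod_ord {μ ν : M} (hμ : Ord μ) (hν : Ord ν) : WOd (prod μ ν) := by
  refine WOd.of_order (R := we_lex) we_pd ⟨?_, ?_, ?_⟩ ?_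
  · intro x hx h
    obtain ⟨a, -, b, -, rfl⟩ := mem_prod.1 hx
    rcases we_iff.1 h with h | h
    · exact not_mem_self _ h
    · exact not_mem_self _ h.2
  · intro x y z hx hy hz hxy hyz
    obtain ⟨a, -, b, -, rfl⟩ := mem_prod.1 hx
    obtain ⟨c, -, d, -, rfl⟩ := mem_prod.1 hy
    obtain ⟨e, he, f, hf, rfl⟩ := mem_prod.1 hz
    rw [we_iff] at hxy hyz ⊢
    rcases hxy with h1 | ⟨rfl, h1⟩
    · rcases hyz with h2 | ⟨rfl, h2⟩
      · exact Or.inl ((hμ.mem he).trans h2 h1)
      · exact Or.inl h1
    · rcases hyz with h2 | ⟨rfl, h2⟩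
      · exact Or.inl h2
      · exact Or.inr ⟨rfl, (hν.mem hf).trans h2 h1⟩
  · intro x y hx hy
    obtain ⟨a, ha, b, hb, rfl⟩ := mem_prod.1 hx
    obtain ⟨c, hc, d, hd, rfl⟩ := mem_prod.1 hy
    rw [we_iff, we_iff]
    rcases Ord.tri (hμ.mem ha) (hμ.mem hc) with h | rfl | h
    · exact Or.inr (Or.inl (Or.inl h))
    · rcases Ord.tri (hν.mem hb) (hν.mem hd) with h | rfl | h
      · exact Or.inr (Or.inl (Or.inr ⟨rfl, h⟩))
      · exact Or.inl rfl
      · exact Or.inr (Or.inr (Or.inr ⟨rfl, h⟩))
    · exact Or.inr (Or.inr (Or.inl h))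
  · rintro s hs ⟨z, hz⟩
    obtain ⟨x, hx, y, hy, rfl⟩ := mem_prod.1 (hs z hz)
    obtain ⟨x0, hx0, ⟨y1, hy1⟩, hmin⟩ := Ord.least (P := fun x => ∃ y, SetStr.mem (op x y) s) (by (repeat' (with_reducible first | apply pd_WOd | apply pf_pfin | apply pd_Fun1 | apply pf_hh | apply pd_Spr | apply pd_Inj | apply pf_har | apply pd_Le | apply pf_fins | apply pf_card | apply pd_Bij | apply pd_Fini | apply pd_Big | apply pd_Ord | apply pd_Tr | apply pd_Ind | apply pf_succ | apply pf_funs | apply pf_prod | apply pf_lam | apply pd_Fn | apply pf_app | apply pf_ran | apply pf_dom | apply PF.img | apply PF.pow | apply PD.sub | apply PF.adj | apply PF.un | apply PF.sUn | apply PF.op | apply PF.pr | apply PF.sep | exact PF.var _ | exact PF.const _ | apply PD.eq | apply PD.mem | apply PD.not | apply PD.iff | apply PD.or | apply PD.and | apply PD.imp | apply PD.ex | apply PD.all | exact PD.const _ | assumption | refine PF.comp1 (F := _) (by assumption) ?_ | refine PF.comp2 (F := _) (by assumption) ?_ ?_ | refine PF.comp3 (F := _)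 (by assumption) ?_ ?_ ?_ | refine PD.app1 (R := _) (by assumption) ?_ | refine PD.app2 (R := _) (by assumption) ?_ ?_ | refine PD.app3 (R := _) (by assumption) ?_ ?_ ?_ | refine PD.app4 (R := _) (by assumption) ?_ ?_ ?_ ?_)))
      ⟨x, hμ.mem hx, y, hz⟩
    have hy1' : SetStr.mem y1 ν := (op_mem_prod.1 (hs _ hy1)).2
    obtain ⟨y0, -, hy0, hmin'⟩ := Ord.least (P := fun y => SetStr.mem (op x0 y) s) (by (repeat' (with_reducible first | apply pd_WOd | apply pf_pfin | apply pd_Fun1 | apply pf_hh | apply pd_Spr | apply pd_Inj | apply pf_har | apply pd_Le | apply pf_fins | apply pf_card | apply pd_Bij | apply pd_Fini | apply pd_Big | apply pd_Ord | apply pd_Tr | apply pd_Ind | apply pf_succ | apply pf_funs | apply pf_prod | apply pf_lam | apply pd_Fn | apply pf_app | apply pf_ran | apply pf_dom | apply PF.img | apply PF.pow | apply PD.sub | apply PF.adj | apply PF.un | apply PF.sUn | apply PF.op | apply PF.pr | apply PF.sep | exact PF.var _ | exact PF.const _ | apply PD.eq | apply PD.mem | apply PD.not | apply PD.iff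 | apply PD.or | apply PD.and | apply PD.imp | apply PD.ex | apply PD.all | exact PD.const _ | assumption | refine PF.comp1 (F := _) (by assumption) ?_ | refine PF.comp2 (F := _) (by assumption) ?_ ?_ | refine PF.comp3 (F := _) (by assumption) ?_ ?_ ?_ | refine PD.app1 (R := _) (by assumption) ?_ | refine PD.app2 (R := _) (by assumption) ?_ ?_ | refine PD.app3 (R := _) (by assumption) ?_ ?_ ?_ | refine PD.app4 (R := _) (by assumption) ?_ ?_ ?_ ?_)))
      ⟨y1, hν.mem hy1', hy1⟩
    refine ⟨op x0 y0, hy0, fun w hw h => ?_⟩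
    obtain ⟨c, -, d, -, rfl⟩ := mem_prod.1 (hs w hw)
    rcases we_iff.1 h with h1 | ⟨h1, h2⟩
    · exact hmin c h1 ⟨d, hw⟩
    · rw [h1] at hw
      exact hmin' d h2 hw

private noncomputable def wf_fst (z : M) : M :=
  GA.sUn (sep (GA.sUn z) (fun x => ∃ y, z = op x y))

private noncomputable def wf_snd (z : M) : M :=
  GA.sUn (sep (GA.sUn z) (fun y => ∃ x, z = op x y))

private theorem wf_sing {s x : M} (h : ∀ z, SetStr.mem z s ↔ z = x) : GA.sUn s = x := by
  refine ext (fun w => ?_)
  rw [mem_sUn]
  constructor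
  · rintro ⟨z, hz, hw⟩
    rw [h] at hz
    rw [← hz]
    exact hw
  · intro hw
    exact ⟨x, (h x).2 rfl, hw⟩

private theorem wf_fst_op (x y : M) : wf_fst (op x y) = x := by
  unfold wf_fst
  refine wf_sing (fun z => ?_)
  rw [mem_sep (by (repeat' (with_reducible first | apply pd_WOd | apply pf_pfin | apply pd_Fun1 | apply pf_hh | apply pd_Spr | apply pd_Inj | apply pf_har | apply pd_Le | apply pf_fins | apply pf_card | apply pd_Bij | apply pd_Fini | apply pd_Big | apply pd_Ord | apply pd_Tr | apply pd_Ind | apply pf_succ | apply pf_funs | apply pf_prod | apply pf_lam | apply pd_Fn | apply pf_app | apply pf_ran | apply pf_dom | apply PF.img | apply PF.pow | apply PD.sub | apply PF.adj | apply PF.un | apply PF.sUn | apply PF.op | apply PF.pr | apply PF.sep | exact PF.var _ | exact PF.const _ | apply PD.eq | apply PD.mem | apply PD.not | apply PD.iff | apply PD.or | apply PD.and | apply PD.imp | apply PD.ex | apply PD.all | exact PD.const _ | assumption | refine PF.comp1 (F := _) (by assumption) ?_ | refine PF.comp2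 (F := _) (by assumption) ?_ ?_ | refine PF.comp3 (F := _) (by assumption) ?_ ?_ ?_ | refine PD.app1 (R := _) (by assumption) ?_ | refine PD.app2 (R := _) (by assumption) ?_ ?_ | refine PD.app3 (R := _) (by assumption) ?_ ?_ ?_ | refine PD.app4 (R := _) (by assumption) ?_ ?_ ?_ ?_)))]
  constructor
  · rintro ⟨-, w, hw⟩
    exact (op_inj.1 hw).1.symm
  · rintro rfl
    refine ⟨mem_sUn.2 ⟨pr z z, ?_, ?_⟩, y, rfl⟩
    · simp [op]
    · simp

private theorem wf_snd_op (x y : M) : wf_snd (op x y) = y := by
  unfold wf_snd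
  refine wf_sing (fun z => ?_)
  rw [mem_sep (by (repeat' (with_reducible first | apply pd_WOd | apply pf_pfin | apply pd_Fun1 | apply pf_hh | apply pd_Spr | apply pd_Inj | apply pf_har | apply pd_Le | apply pf_fins | apply pf_card | apply pd_Bij | apply pd_Fini | apply pd_Big | apply pd_Ord | apply pd_Tr | apply pd_Ind | apply pf_succ | apply pf_funs | apply pf_prod | apply pf_lam | apply pd_Fn | apply pf_app | apply pf_ran | apply pf_dom | apply PF.img | apply PF.pow | apply PD.sub | apply PF.adj | apply PF.un | apply PF.sUn | apply PF.op | apply PF.pr | apply PF.sep | exact PF.var _ | exact PF.const _ | apply PD.eq | apply PD.mem | apply PD.not | apply PD.iff | apply PD.or | apply PD.and | apply PD.imp | apply PD.ex | apply PD.all | exact PD.const _ | assumption | refine PF.comp1 (F := _) (by assumption) ?_ | refine PF.comp2 (F := _) (by assumption) ?_ ?_ | refine PF.comp3 (F := _) (by assumption) ?_ ?_ ?_ | refine PD.app1 (R := _) (by assumption) ?_ | refine PD.app2 (R := _) (by assumption) ?_ ?_ | refine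 PD.app3 (R := _) (by assumption) ?_ ?_ ?_ | refine PD.app4 (R := _) (by assumption) ?_ ?_ ?_ ?_)))]
  constructor
  · rintro ⟨-, w, hw⟩
    exact (op_inj.1 hw).2.symm
  · rintro rfl
    refine ⟨mem_sUn.2 ⟨pr x z, ?_, ?_⟩, x, rfl⟩
    · simp [op]
    · simp

private theorem wf_pf_fst {f : (ℕ → M) → M} (hf : PF f) : PF (fun v => wf_fst (f v)) :=
  PF.comp1 (F := fun x => wf_fst x) (by unfold wf_fst; (repeat' (with_reducible first | apply pd_WOd | apply pf_pfin | apply pd_Fun1 | apply pf_hh | apply pd_Spr | apply pd_Inj | apply pf_har | apply pd_Le | apply pf_fins | apply pf_card | apply pd_Bij | apply pd_Fini | apply pd_Big | apply pd_Ord | apply pd_Tr | apply pd_Ind | apply pf_succ | apply pf_funs | apply pf_prod | apply pf_lam | apply pd_Fn | apply pf_app | apply pf_ran | apply pf_dom | apply PF.img | apply PF.pow | apply PD.sub | apply PF.adj | apply PF.un | apply PF.sUn | apply PF.op | apply PF.pr | apply PF.sep | exact PF.var _ | exact PF.const _ | apply PD.eq | apply PD.mem | apply PD.not | apply PD.iff |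 apply PD.or | apply PD.and | apply PD.imp | apply PD.ex | apply PD.all | exact PD.const _ | assumption | refine PF.comp1 (F := _) (by assumption) ?_ | refine PF.comp2 (F := _) (by assumption) ?_ ?_ | refine PF.comp3 (F := _) (by assumption) ?_ ?_ ?_ | refine PD.app1 (R := _) (by assumption) ?_ | refine PD.app2 (R := _) (by assumption) ?_ ?_ | refine PD.app3 (R := _) (by assumption) ?_ ?_ ?_ | refine PD.app4 (R := _) (by assumption) ?_ ?_ ?_ ?_))) hf

private theorem wf_pf_snd {f : (ℕ → M) → M} (hf : PF f) : PF (fun v => wf_snd (f v)) :=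
  PF.comp1 (F := fun x => wf_snd x) (by unfold wf_snd; (repeat' (with_reducible first | apply pd_WOd | apply pf_pfin | apply pd_Fun1 | apply pf_hh | apply pd_Spr | apply pd_Inj | apply pf_har | apply pd_Le | apply pf_fins | apply pf_card | apply pd_Bij | apply pd_Fini | apply pd_Big | apply pd_Ord | apply pd_Tr | apply pd_Ind | apply pf_succ | apply pf_funs | apply pf_prod | apply pf_lam | apply pd_Fn | apply pf_app | apply pf_ran | apply pf_dom | apply PF.img | apply PF.pow | apply PD.sub | apply PF.adj | apply PF.un | apply PF.sUn | apply PF.op | apply PF.pr | apply PF.sep | exact PF.var _ | exact PF.const _ | apply PD.eq | apply PD.mem | apply PD.not | apply PD.iff | apply PD.or | apply PD.and | apply PD.imp | apply PD.ex | apply PD.all | exact PD.const _ | assumption | refine PF.comp1 (F := _) (by assumption) ?_ | refine PF.comp2 (F := _) (by assumption) ?_ ?_ | refine PF.comp3 (F := _) (by assumption) ?_ ?_ ?_ | refine PD.app1 (R := _) (by assumption) ?_ | refine PD.app2 (R := _) (by assumption) ?_ ?_ | refine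 PD.app3 (R := _) (by assumption) ?_ ?_ ?_ | refine PD.app4 (R := _) (by assumption) ?_ ?_ ?_ ?_))) hf

private theorem wf_prod {a b c d : M} (h : Le a b) (h' : Le c d) :
    Le (GA.prod a c) (GA.prod b d) := by
  obtain ⟨f, -, hf2, hf3⟩ := h
  obtain ⟨g, -, hg2, hg3⟩ := h'
  refine Le.of_fun (F := fun z => op (app f (wf_fst z)) (app g (wf_snd z))) ?_ ?_ ?_
  · exact PF.op (pf_app (PF.const _) (wf_pf_fst (PF.var 0)))
      (pf_app (PF.const _) (wf_pf_snd (PF.var 0)))
  · intro z hz
    obtain ⟨x, hx, y, hy, rfl⟩ := mem_prod.1 hz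
    rw [wf_fst_op, wf_snd_op, op_mem_prod]
    exact ⟨hf2 x hx, hg2 y hy⟩
  · intro z w hz hw h
    obtain ⟨x, hx, y, hy, rfl⟩ := mem_prod.1 hz
    obtain ⟨x', hx', y', hy', rfl⟩ := mem_prod.1 hw
    rw [wf_fst_op, wf_snd_op, wf_fst_op, wf_snd_op, op_inj] at h
    rw [hf3 x x' hx hx' h.1, hg3 y y' hy hy' h.2]

/-- MODULE wf -/
theorem WOd.prod {a b : M} (ha : WOd a) (hb : WOd b) : WOd (prod a b) := by
  obtain ⟨μ, hμ, h1⟩ := ha
  obtain ⟨ν, hν, h2⟩ := hb
  exact WOd.of_le (wf_prod h1 h2) (WOd.prod_ord hμ hν)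

/-- The order of finite sets of ordinals by the largest element of the symmetric difference. -/
def maxR (x y : M) : Prop :=
  ∃ z, SetStr.mem z y ∧ ¬ SetStr.mem z x ∧ ∀ w, SetStr.mem z w → (SetStr.mem w x ↔ SetStr.mem w y)

theorem pd_maxR {f g : (ℕ → M) → M} (hf : PF f) (hg : PF g) : PD (fun v => maxR (f v) (g v)) :=
  PD.app2 (R := fun x y => maxR x y) (by unfold maxR; (repeat' (with_reducible first | apply pd_WOd | apply pf_pfin | apply pd_Fun1 | apply pf_hh | apply pd_Spr | apply pd_Inj | apply pf_har | apply pd_Le | apply pf_fins | apply pf_card | apply pd_Bij | apply pd_Fini | apply pd_Big | apply pd_Ord | apply pd_Tr | apply pd_Ind | apply pf_succ | apply pf_funs | apply pf_prod | apply pf_lam | apply pd_Fn | apply pf_app | apply pf_ran | apply pf_dom | apply PF.img | apply PF.pow | apply PD.sub | apply PF.adj | apply PF.un | apply PF.sUn | apply PF.op | apply PF.pr | apply PF.sep | exact PF.var _ | exact PF.const _ | apply PD.eq | apply PD.mem | apply PD.not | apply PD.iff | apply PD.or | apply PD.and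 | apply PD.imp | apply PD.ex | apply PD.all | exact PD.const _ | assumption | refine PF.comp1 (F := _) (by assumption) ?_ | refine PF.comp2 (F := _) (by assumption) ?_ ?_ | refine PF.comp3 (F := _) (by assumption) ?_ ?_ ?_ | refine PD.app1 (R := _) (by assumption) ?_ | refine PD.app2 (R := _) (by assumption) ?_ ?_ | refine PD.app3 (R := _) (by assumption) ?_ ?_ ?_ | refine PD.app4 (R := _) (by assumption) ?_ ?_ ?_ ?_))) hf hg


/-- MODULE wg.  A nonempty finite set of ordinals has a largest element. -/
theorem fini_max {a : M} (ha : Fini a) (ho : ∀ x, SetStr.mem x a → Ord x) (hne : ∃ z, SetStr.mem z a) :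
    ∃ z, SetStr.mem z a ∧ ∀ w, SetStr.mem w a → w = z ∨ SetStr.mem w z := by
  refine fini_ind (P := fun a => (∀ x, SetStr.mem x a → Ord x) → (∃ z, SetStr.mem z a) →
    ∃ z, SetStr.mem z a ∧ ∀ w, SetStr.mem w a → w = z ∨ SetStr.mem w z) (by (repeat' (with_reducible first | apply pd_maxR | apply pd_WOd | apply pf_pfin | apply pd_Fun1 | apply pf_hh | apply pd_Spr | apply pd_Inj | apply pf_har | apply pd_Le | apply pf_fins | apply pf_card | apply pd_Bij | apply pd_Fini | apply pd_Big | apply pd_Ord | apply pd_Tr | apply pd_Ind | apply pf_succ | apply pf_funs | apply pf_prod | apply pf_lam | apply pd_Fn | apply pf_app | apply pf_ran | apply pf_dom | apply PF.img | apply PF.pow | apply PD.sub | apply PF.adj | apply PF.un | apply PF.sUn | apply PF.op | apply PF.pr | apply PF.sep | exact PF.var _ | exact PF.const _ | apply PD.eq | apply PD.mem | apply PD.not | apply PD.iff | apply PD.or | apply PD.and | apply PD.imp | apply PD.ex | apply PD.all | exact PD.const _ | assumption | refine PF.comp1 (F := _) (by assumption)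 ?_ | refine PF.comp2 (F := _) (by assumption) ?_ ?_ | refine PF.comp3 (F := _) (by assumption) ?_ ?_ ?_ | refine PD.app1 (R := _) (by assumption) ?_ | refine PD.app2 (R := _) (by assumption) ?_ ?_ | refine PD.app3 (R := _) (by assumption) ?_ ?_ ?_ | refine PD.app4 (R := _) (by assumption) ?_ ?_ ?_ ?_))) ?_ ?_ a ha ho hne
  · rintro - ⟨z, hz⟩
    exact (not_mem_emp z hz).elim
  · intro a y _ ih ho _
    have hoy : Ord y := ho y (mem_adj.2 (Or.inr rfl))
    have hoa : ∀ x, SetStr.mem x a → Ord x := fun x hx => ho x (mem_adj.2 (Or.inl hx))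
    by_cases hne : ∃ z, SetStr.mem z a
    · obtain ⟨z, hz, hmax⟩ := ih hoa hne
      rcases Ord.tri hoy (hoa z hz) with h | h | h
      · refine ⟨z, mem_adj.2 (Or.inl hz), fun w hw => ?_⟩
        rcases mem_adj.1 hw with hw | hw
        · exact hmax w hw
        · rw [hw]
          exact Or.inr h
      · refine ⟨z, mem_adj.2 (Or.inl hz), fun w hw => ?_⟩
        rcases mem_adj.1 hw with hw | hw
        · exact hmax w hw
        · rw [hw]
          exact Or.inl h
      · refine ⟨y, mem_adj.2 (Or.inr rfl), fun w hw => ?_⟩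
        rcases mem_adj.1 hw with hw | hw
        · rcases hmax w hw with h1 | h1
          · rw [h1]
            exact Or.inr h
          · exact Or.inr (hoy.trans h h1)
        · exact Or.inl hw
    · refine ⟨y, mem_adj.2 (Or.inr rfl), fun w hw => ?_⟩
      rcases mem_adj.1 hw with hw | hw
      · exact (hne ⟨w, hw⟩).elim
      · exact Or.inl hw

/-- MODULE wh.  The order `maxR` is linear on the finite subsets of an ordinal.  (Apply `fini_max` to
the symmetric difference of two different finite sets; `z ∈ w` for elements of an ordinal is the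
order.) -/
theorem maxR_lin {μ : M} (hμ : Ord μ) : LinO maxR (fins μ) := by
  refine ⟨?_, ?_, ?_⟩
  · rintro x - ⟨z, h1, h2, -⟩
    exact h2 h1
  · rintro x y w hx hy hw ⟨z1, h1, h2, h3⟩ ⟨z2, k1, k2, k3⟩
    rw [mem_fins] at hx hy hw
    have ho1 : Ord z1 := hμ.mem (hy.1 z1 h1)
    have ho2 : Ord z2 := hμ.mem (hw.1 z2 k1)
    have hcomb : ∀ t, SetStr.mem z1 t → SetStr.mem z2 t → (SetStr.mem t x ↔ SetStr.mem t w) := fun t ht1 ht2 =>
      (h3 t ht1).trans (k3 t ht2)
    rcases Ord.tri ho1 ho2 with h | h | h
    · refine ⟨z2, k1, fun h4 => k2 ((h3 z2 h).1 h4), fun t ht => ?_⟩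
      constructor
      · intro htx
        exact (hcomb t ((hμ.mem (hx.1 t htx)).trans ht h) ht).1 htx
      · intro htw
        exact (hcomb t ((hμ.mem (hw.1 t htw)).trans ht h) ht).2 htw
    · rw [h] at h1
      exact (k2 h1).elim
    · refine ⟨z1, (k3 z1 h).1 h1, h2, fun t ht => ?_⟩
      constructor
      · intro htx
        exact (hcomb t ht ((hμ.mem (hx.1 t htx)).trans ht h)).1 htx
      · intro htw
        exact (hcomb t ht ((hμ.mem (hw.1 t htw)).trans ht h)).2 htw
  · intro x y hx hy
    rw [mem_fins] at hx hy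
    have hmem : ∀ z, SetStr.mem z (sep (un x y) (fun z => ¬ (SetStr.mem z x ↔ SetStr.mem z y))) ↔
        SetStr.mem z (un x y) ∧ ¬ (SetStr.mem z x ↔ SetStr.mem z y) := fun z => by
      rw [mem_sep (by (repeat' (with_reducible first | apply pd_maxR | apply pd_WOd | apply pf_pfin | apply pd_Fun1 | apply pf_hh | apply pd_Spr | apply pd_Inj | apply pf_har | apply pd_Le | apply pf_fins | apply pf_card | apply pd_Bij | apply pd_Fini | apply pd_Big | apply pd_Ord | apply pd_Tr | apply pd_Ind | apply pf_succ | apply pf_funs | apply pf_prod | apply pf_lam | apply pd_Fn | apply pf_app | apply pf_ran | apply pf_dom | apply PF.img | apply PF.pow | apply PD.sub | apply PF.adj | apply PF.un | apply PF.sUn | apply PF.op | apply PF.pr | apply PF.sep | exact PF.var _ | exact PF.const _ | apply PD.eq | apply PD.mem | apply PD.not | apply PD.iff | apply PD.or | apply PD.and | apply PD.imp | apply PD.ex | apply PD.all | exact PD.const _ | assumption | refine PF.comp1 (F := _) (by assumption) ?_ | refine PF.comp2 (F := _) (by assumption)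 ?_ ?_ | refine PF.comp3 (F := _) (by assumption) ?_ ?_ ?_ | refine PD.app1 (R := _) (by assumption) ?_ | refine PD.app2 (R := _) (by assumption) ?_ ?_ | refine PD.app3 (R := _) (by assumption) ?_ ?_ ?_ | refine PD.app4 (R := _) (by assumption) ?_ ?_ ?_ ?_)))]
    by_cases hne : ∃ z, SetStr.mem z (sep (un x y) (fun z => ¬ (SetStr.mem z x ↔ SetStr.mem z y)))
    · obtain ⟨z, hz, hmax⟩ := fini_max
        ((hx.2.un hy.2).sub (fun z hz => ((hmem z).1 hz).1))
        (fun z hz => by
          rcases mem_un.1 ((hmem z).1 hz).1 with h | h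
          · exact hμ.mem (hx.1 z h)
          · exact hμ.mem (hy.1 z h)) hne
      rw [hmem] at hz
      have hag : ∀ w, SetStr.mem z w → (SetStr.mem w x ↔ SetStr.mem w y) := by
        intro w hw
        by_contra hcon
        have hwu : SetStr.mem w (un x y) := by
          rw [mem_un]
          by_contra h
          push Not at h
          exact hcon ⟨fun h' => (h.1 h').elim, fun h' => (h.2 h').elim⟩
        rcases hmax w ((hmem w).2 ⟨hwu, hcon⟩) with h | h
        · rw [h] at hw
          exact not_mem_self _ hw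
        · exact not_mem_mem h hw
      by_cases hzx : SetStr.mem z x
      · have hzy : ¬ SetStr.mem z y := fun h => hz.2 ⟨fun _ => h, fun _ => hzx⟩
        exact Or.inr (Or.inr ⟨z, hzx, hzy, fun w hw => (hag w hw).symm⟩)
      · have hzy : SetStr.mem z y := by
          rcases mem_un.1 hz.1 with h | h
          · exact (hzx h).elim
          · exact h
        exact Or.inr (Or.inl ⟨z, hzy, hzx, hag⟩)
    · refine Or.inl (ext (fun z => ?_))
      by_contra hcon
      apply hne
      refine ⟨z, (hmem z).2 ⟨?_, hcon⟩⟩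
      rw [mem_un]
      by_contra h
      push Not at h
      exact hcon ⟨fun h' => (h.1 h').elim, fun h' => (h.2 h').elim⟩

/-- MODULE wi.  Every nonempty set of finite subsets of `μ` has a `maxR`-least element.  (By `Ord.ind`
on `β`: for all `s ⊆ fins β` nonempty.  Let `γ` be the least ordinal such that some `x ∈ s` is a
subset of `γ`.  If `γ = emp` then `emp ∈ s` is least.  Otherwise such `x` are nonempty and have the
largest element `δ`, `γ = succ δ`, and the least element of
`{x minus {δ} : x ∈ s, x ⊆ γ} ⊆ fins δ` together with `δ` is the least element of `s`.) -/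
theorem maxR_least {μ : M} (hμ : Ord μ) {s : M} (hs : GA.sub s (fins μ)) (hne : ∃ z, SetStr.mem z s) :
    ∃ z, SetStr.mem z s ∧ ∀ w, SetStr.mem w s → ¬ maxR w z := by
  refine Ord.ind (P := fun μ => ∀ s, GA.sub s (fins μ) → (∃ z, SetStr.mem z s) →
    ∃ z, SetStr.mem z s ∧ ∀ w, SetStr.mem w s → ¬ maxR w z) (by (repeat' (with_reducible first | apply pd_maxR | apply pd_WOd | apply pf_pfin | apply pd_Fun1 | apply pf_hh | apply pd_Spr | apply pd_Inj | apply pf_har | apply pd_Le | apply pf_fins | apply pf_card | apply pd_Bij | apply pd_Fini | apply pd_Big | apply pd_Ord | apply pd_Tr | apply pd_Ind | apply pf_succ | apply pf_funs | apply pf_prod | apply pf_lam | apply pd_Fn | apply pf_app | apply pf_ran | apply pf_dom | apply PF.img | apply PF.pow | apply PD.sub | apply PF.adj | apply PF.un | apply PF.sUn | apply PF.op | apply PF.pr | apply PF.sep | exact PF.var _ | exact PF.const _ | apply PD.eq | apply PD.mem | apply PD.not | apply PD.iff | apply PD.or | apply PD.and | apply PD.imp | apply PD.ex | apply PD.all |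 exact PD.const _ | assumption | refine PF.comp1 (F := _) (by assumption) ?_ | refine PF.comp2 (F := _) (by assumption) ?_ ?_ | refine PF.comp3 (F := _) (by assumption) ?_ ?_ ?_ | refine PD.app1 (R := _) (by assumption) ?_ | refine PD.app2 (R := _) (by assumption) ?_ ?_ | refine PD.app3 (R := _) (by assumption) ?_ ?_ ?_ | refine PD.app4 (R := _) (by assumption) ?_ ?_ ?_ ?_))) ?_ μ hμ s hs hne
  intro β hβ ih s hs hne
  by_cases hemp : SetStr.mem (emp : M) s
  · exact ⟨emp, hemp, fun w _ ⟨z, hz, _⟩ => not_mem_emp z hz⟩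
  have hfin : ∀ x, SetStr.mem x s → Fini x := fun x hx => (mem_fins.1 (hs x hx)).2
  have hord : ∀ x, SetStr.mem x s → ∀ t, SetStr.mem t x → SetStr.mem t β := fun x hx t ht => (mem_fins.1 (hs x hx)).1 t ht
  have hmx : ∀ x, SetStr.mem x s → ∃ z, SetStr.mem z x ∧ ∀ w, SetStr.mem w x → w = z ∨ SetStr.mem w z := by
    intro x hx
    refine fini_max (hfin x hx) (fun t ht => hβ.mem (hord x hx t ht)) ?_
    by_contra hcon
    apply hemp
    have : x = emp := ext (fun z => ⟨fun h => (hcon ⟨z, h⟩).elim, fun h => (not_mem_emp z h).elim⟩)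
    rw [← this]
    exact hx
  obtain ⟨x1, hx1⟩ := hne
  obtain ⟨z1, hz1, hm1⟩ := hmx x1 hx1
  obtain ⟨δ, hδ, ⟨x2, hx2, hδ2, hm2⟩, hmin⟩ := Ord.least
    (P := fun δ => ∃ x, SetStr.mem x s ∧ SetStr.mem δ x ∧ ∀ w, SetStr.mem w x → w = δ ∨ SetStr.mem w δ) (by (repeat' (with_reducible first | apply pd_maxR | apply pd_WOd | apply pf_pfin | apply pd_Fun1 | apply pf_hh | apply pd_Spr | apply pd_Inj | apply pf_har | apply pd_Le | apply pf_fins | apply pf_card | apply pd_Bij | apply pd_Fini | apply pd_Big | apply pd_Ord | apply pd_Tr | apply pd_Ind | apply pf_succ | apply pf_funs | apply pf_prod | apply pf_lam | apply pd_Fn | apply pf_app | apply pf_ran | apply pf_dom | apply PF.img | apply PF.pow | apply PD.sub | apply PF.adj | apply PF.un | apply PF.sUn | apply PF.op | apply PF.pr | apply PF.sep | exact PF.var _ | exact PF.const _ | apply PD.eq | apply PD.mem | apply PD.not | apply PD.iff | apply PD.or | apply PD.and | apply PD.imp | apply PD.ex | apply PD.all | exact PD.const _ | assumption | refine PF.comp1 (F :=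 _) (by assumption) ?_ | refine PF.comp2 (F := _) (by assumption) ?_ ?_ | refine PF.comp3 (F := _) (by assumption) ?_ ?_ ?_ | refine PD.app1 (R := _) (by assumption) ?_ | refine PD.app2 (R := _) (by assumption) ?_ ?_ | refine PD.app3 (R := _) (by assumption) ?_ ?_ ?_ | refine PD.app4 (R := _) (by assumption) ?_ ?_ ?_ ?_)))
    ⟨z1, hβ.mem (hord x1 hx1 z1 hz1), x1, hx1, hz1, hm1⟩
  have hδβ : SetStr.mem δ β := hord x2 hx2 δ hδ2
  have hs' : ∀ y, SetStr.mem y (sep (fins δ) (fun y => ∃ x, SetStr.mem x s ∧ SetStr.mem δ x ∧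
      (∀ w, SetStr.mem w x → w = δ ∨ SetStr.mem w δ) ∧ ∀ w, SetStr.mem w y ↔ SetStr.mem w x ∧ ¬ w = δ)) ↔
      SetStr.mem y (fins δ) ∧ ∃ x, SetStr.mem x s ∧ SetStr.mem δ x ∧
      (∀ w, SetStr.mem w x → w = δ ∨ SetStr.mem w δ) ∧ ∀ w, SetStr.mem w y ↔ SetStr.mem w x ∧ ¬ w = δ := fun y => by
    rw [mem_sep (by (repeat' (with_reducible first | apply pd_maxR | apply pd_WOd | apply pf_pfin | apply pd_Fun1 | apply pf_hh | apply pd_Spr | apply pd_Inj | apply pf_har | apply pd_Le | apply pf_fins | apply pf_card | apply pd_Bij | apply pd_Fini | apply pd_Big | apply pd_Ord | apply pd_Tr | apply pd_Ind | apply pf_succ | apply pf_funs | apply pf_prod | apply pf_lam | apply pd_Fn | apply pf_app | apply pf_ran | apply pf_dom | apply PF.img | apply PF.pow | apply PD.sub | apply PF.adj | apply PF.un | apply PF.sUn | apply PF.op | apply PF.pr | apply PF.sep | exact PF.var _ | exact PF.const _ | apply PD.eq | apply PD.mem | apply PD.not | apply PD.iff | apply PD.or | apply PD.and | apply PD.imp | apply PD.ex | apply PD.all |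 exact PD.const _ | assumption | refine PF.comp1 (F := _) (by assumption) ?_ | refine PF.comp2 (F := _) (by assumption) ?_ ?_ | refine PF.comp3 (F := _) (by assumption) ?_ ?_ ?_ | refine PD.app1 (R := _) (by assumption) ?_ | refine PD.app2 (R := _) (by assumption) ?_ ?_ | refine PD.app3 (R := _) (by assumption) ?_ ?_ ?_ | refine PD.app4 (R := _) (by assumption) ?_ ?_ ?_ ?_)))]
  have hin : ∀ x, SetStr.mem x s → SetStr.mem δ x → (∀ w, SetStr.mem w x → w = δ ∨ SetStr.mem w δ) →
      SetStr.mem (sep x (fun w => ¬ w = δ)) (sep (fins δ) (fun y => ∃ x, SetStr.mem x s ∧ SetStr.mem δ x ∧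
      (∀ w, SetStr.mem w x → w = δ ∨ SetStr.mem w δ) ∧ ∀ w, SetStr.mem w y ↔ SetStr.mem w x ∧ ¬ w = δ)) := by
    intro x hx hδx hmxx
    have hm : ∀ w, SetStr.mem w (sep x (fun w => ¬ w = δ)) ↔ SetStr.mem w x ∧ ¬ w = δ := fun w => by
      rw [mem_sep (by (repeat' (with_reducible first | apply pd_maxR | apply pd_WOd | apply pf_pfin | apply pd_Fun1 | apply pf_hh | apply pd_Spr | apply pd_Inj | apply pf_har | apply pd_Le | apply pf_fins | apply pf_card | apply pd_Bij | apply pd_Fini | apply pd_Big | apply pd_Ord | apply pd_Tr | apply pd_Ind | apply pf_succ | apply pf_funs | apply pf_prod | apply pf_lam | apply pd_Fn | apply pf_app | apply pf_ran | apply pf_dom | apply PF.img | apply PF.pow | apply PD.sub | apply PF.adj | apply PF.un | apply PF.sUn | apply PF.op | apply PF.pr | apply PF.sep | exact PF.var _ | exact PF.const _ | apply PD.eq | apply PD.mem | apply PD.not | apply PD.iff | apply PD.or | apply PD.and | apply PD.imp | apply PD.ex | apply PD.all | exact PD.const _ | assumption | refine PF.comp1 (F := _)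 (by assumption) ?_ | refine PF.comp2 (F := _) (by assumption) ?_ ?_ | refine PF.comp3 (F := _) (by assumption) ?_ ?_ ?_ | refine PD.app1 (R := _) (by assumption) ?_ | refine PD.app2 (R := _) (by assumption) ?_ ?_ | refine PD.app3 (R := _) (by assumption) ?_ ?_ ?_ | refine PD.app4 (R := _) (by assumption) ?_ ?_ ?_ ?_)))]
    rw [hs', mem_fins]
    refine ⟨⟨fun w hw => ?_, (hfin x hx).sub fun w hw => ((hm w).1 hw).1⟩, x, hx, hδx, hmxx, hm⟩
    rw [hm] at hw
    rcases hmxx w hw.1 with h | h
    · exact (hw.2 h).elim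
    · exact h
  obtain ⟨y, hy, hymin⟩ := ih δ hδβ _ (fun z hz => ((hs' z).1 hz).1) ⟨_, hin x2 hx2 hδ2 hm2⟩
  rw [hs'] at hy
  obtain ⟨-, x0, hx0, hδ0, hm0, hy0⟩ := hy
  refine ⟨x0, hx0, ?_⟩
  rintro w hw ⟨z, hz, hzw, hag⟩
  rcases hm0 z hz with h | h
  · rw [h] at hzw hag
    obtain ⟨m, hmw, hmm⟩ := hmx w hw
    rcases Ord.tri (hβ.mem (hord w hw m hmw)) hδ with h1 | h1 | h1
    · exact hmin m h1 ⟨w, hw, hmw, hmm⟩
    · rw [h1] at hmw
      exact hzw hmw
    · rcases hm0 m ((hag m h1).1 hmw) with h2 | h2
      · rw [h2] at h1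
        exact not_mem_self _ h1
      · exact not_mem_mem h1 h2
  · have hδw : SetStr.mem δ w := (hag δ h).2 hδ0
    have hmw : ∀ t, SetStr.mem t w → t = δ ∨ SetStr.mem t δ := by
      intro t ht
      have hot : Ord t := hβ.mem (hord w hw t ht)
      rcases Ord.tri hot hδ with h1 | h1 | h1
      · exact Or.inr h1
      · exact Or.inl h1
      · exact hm0 t ((hag t (hot.trans h1 h)).1 ht)
    have hm : ∀ t, SetStr.mem t (sep w (fun w => ¬ w = δ)) ↔ SetStr.mem t w ∧ ¬ t = δ := fun t => by
      rw [mem_sep (by (repeat' (with_reducible first | apply pd_maxR | apply pd_WOd | apply pf_pfin | apply pd_Fun1 | apply pf_hh | apply pd_Spr | apply pd_Inj | apply pf_har | apply pd_Le | apply pf_fins | apply pf_card | apply pd_Bij | apply pd_Fini | apply pd_Big | apply pd_Ord | apply pd_Tr | apply pd_Ind | apply pf_succ | apply pf_funs | apply pf_prod | apply pf_lam | apply pd_Fn | apply pf_app | apply pf_ran | apply pf_dom | apply PF.img | apply PF.pow | apply PD.sub | apply PF.adj | apply PF.un | apply PF.sUn | apply PF.op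 | apply PF.pr | apply PF.sep | exact PF.var _ | exact PF.const _ | apply PD.eq | apply PD.mem | apply PD.not | apply PD.iff | apply PD.or | apply PD.and | apply PD.imp | apply PD.ex | apply PD.all | exact PD.const _ | assumption | refine PF.comp1 (F := _) (by assumption) ?_ | refine PF.comp2 (F := _) (by assumption) ?_ ?_ | refine PF.comp3 (F := _) (by assumption) ?_ ?_ ?_ | refine PD.app1 (R := _) (by assumption) ?_ | refine PD.app2 (R := _) (by assumption) ?_ ?_ | refine PD.app3 (R := _) (by assumption) ?_ ?_ ?_ | refine PD.app4 (R := _) (by assumption) ?_ ?_ ?_ ?_)))]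
    refine hymin _ (hin w hw hδw hmw) ⟨z, ?_, ?_, ?_⟩
    · rw [hy0]
      refine ⟨hz, fun h1 => ?_⟩
      rw [h1] at h
      exact not_mem_self _ h
    · rw [hm]
      exact fun h1 => hzw h1.1
    · intro t ht
      rw [hm, hy0, hag t ht]

/-- MODULE wj -/
theorem Le.fins {a b : M} (h : Le a b) : Le (fins a) (fins b) := by
  obtain ⟨f, -, hf2, hf3⟩ := h
  have hpf : PF (fun v : ℕ → M => app f (v 0)) := by (repeat' (with_reducible first | apply pd_maxR | apply pd_WOd | apply pf_pfin | apply pd_Fun1 | apply pf_hh | apply pd_Spr | apply pd_Inj | apply pf_har | apply pd_Le | apply pf_fins | apply pf_card | apply pd_Bij | apply pd_Fini | apply pd_Big | apply pd_Ord | apply pd_Tr | apply pd_Ind | apply pf_succ | apply pf_funs | apply pf_prod | apply pf_lam | apply pd_Fn | apply pf_app | apply pf_ran | apply pf_dom | apply PF.img | apply PF.pow | apply PD.sub | apply PF.adj | apply PF.un | apply PF.sUn | apply PF.op | apply PF.pr | apply PF.sep | exact PF.var _ | exact PF.const _ | apply PD.eq | apply PD.mem | apply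 PD.not | apply PD.iff | apply PD.or | apply PD.and | apply PD.imp | apply PD.ex | apply PD.all | exact PD.const _ | assumption | refine PF.comp1 (F := _) (by assumption) ?_ | refine PF.comp2 (F := _) (by assumption) ?_ ?_ | refine PF.comp3 (F := _) (by assumption) ?_ ?_ ?_ | refine PD.app1 (R := _) (by assumption) ?_ | refine PD.app2 (R := _) (by assumption) ?_ ?_ | refine PD.app3 (R := _) (by assumption) ?_ ?_ ?_ | refine PD.app4 (R := _) (by assumption) ?_ ?_ ?_ ?_))
  have hmem : ∀ s z, SetStr.mem z (img (fun x => app f x) s) ↔ ∃ x, SetStr.mem x s ∧ z = app f x := fun s z =>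
    mem_img hpf
  have key : ∀ s t, GA.sub s a → GA.sub t a → img (fun x => app f x) s = img (fun x => app f x) t →
      GA.sub s t := by
    intro s t hs ht hst z hz
    have h1 : SetStr.mem (app f z) (img (fun x => app f x) t) := by
      rw [← hst, hmem]
      exact ⟨z, hz, rfl⟩
    rw [hmem] at h1
    obtain ⟨w, hw, hwz⟩ := h1
    rw [hf3 z w (hs z hz) (ht w hw) hwz]
    exact hw
  refine Le.of_fun (F := fun s => img (fun x => app f x) s) ?_ ?_ ?_
  · exact PF.img (F := fun x _ => app f x) (PF.var 0) (pf_app (PF.const _) (PF.var 0))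
  · intro s hs
    rw [mem_fins] at hs ⊢
    refine ⟨fun z hz => ?_, hs.2.img hpf⟩
    rw [hmem] at hz
    obtain ⟨x, hx, rfl⟩ := hz
    exact hf2 x (hs.1 x hx)
  · intro s t hs ht hst
    rw [mem_fins] at hs ht
    exact ext (fun z => ⟨fun hz => key s t hs.1 ht.1 hst z hz,
      fun hz => key t s ht.1 hs.1 hst.symm z hz⟩)

/-- MODULE wj -/
theorem WOd.fins {a : M} (ha : WOd a) : WOd (fins a) := by
  obtain ⟨μ, hμ, h1⟩ := ha
  refine WOd.of_le (Le.fins h1) (WOd.of_order (R := maxR) (by (repeat' (with_reducible first | apply pd_maxR | apply pd_WOd | apply pf_pfin | apply pd_Fun1 | apply pf_hh | apply pd_Spr | apply pd_Inj | apply pf_har | apply pd_Le | apply pf_fins | apply pf_card | apply pd_Bij | apply pd_Fini | apply pd_Big | apply pd_Ord | apply pd_Tr | apply pd_Ind | apply pf_succ | apply pf_funs | apply pf_prod | apply pf_lam | apply pd_Fn | apply pf_app | apply pf_ran | apply pf_dom | apply PF.img | apply PF.pow | apply PD.sub | apply PF.adj | apply PF.un | apply PF.sUn | apply PF.op | apply PF.pr | apply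 PF.sep | exact PF.var _ | exact PF.const _ | apply PD.eq | apply PD.mem | apply PD.not | apply PD.iff | apply PD.or | apply PD.and | apply PD.imp | apply PD.ex | apply PD.all | exact PD.const _ | assumption | refine PF.comp1 (F := _) (by assumption) ?_ | refine PF.comp2 (F := _) (by assumption) ?_ ?_ | refine PF.comp3 (F := _) (by assumption) ?_ ?_ ?_ | refine PD.app1 (R := _) (by assumption) ?_ | refine PD.app2 (R := _) (by assumption) ?_ ?_ | refine PD.app3 (R := _) (by assumption) ?_ ?_ ?_ | refine PD.app4 (R := _) (by assumption) ?_ ?_ ?_ ?_))) (maxR_lin hμ) ?_)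
  intro s hs hne
  exact maxR_least hμ hs hne

private theorem wk_pf_pos {f g : (ℕ → M) → M} (hf : PF f) (hg : PF g) :
    PF (fun v => pos (fun x y => SetStr.mem x y) (f v) (g v)) :=
  pf_pos (PD.mem (PF.var 0) (PF.var 1)) hf hg

private noncomputable def wk_el (δ s n : M) : M :=
  GA.sUn (sep (GA.succ δ) (fun ξ => (SetStr.mem ξ s ∧ pos (fun x y => SetStr.mem x y) s ξ = n) ∨
    (ξ = δ ∧ ¬ ∃ η, SetStr.mem η s ∧ pos (fun x y => SetStr.mem x y) s η = n)))

private theorem wk_pd (δ s n : M) : PD (fun v : ℕ → M =>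
    (SetStr.mem (v 0) s ∧ pos (fun x y => SetStr.mem x y) s (v 0) = n) ∨
    (v 0 = δ ∧ ¬ ∃ η, SetStr.mem η s ∧ pos (fun x y => SetStr.mem x y) s η = n)) := by
  refine PD.or (PD.and (by (repeat' (with_reducible first | apply pd_maxR | apply pd_WOd | apply pf_pfin | apply pd_Fun1 | apply pf_hh | apply pd_Spr | apply pd_Inj | apply pf_har | apply pd_Le | apply pf_fins | apply pf_card | apply pd_Bij | apply pd_Fini | apply pd_Big | apply pd_Ord | apply pd_Tr | apply pd_Ind | apply pf_succ | apply pf_funs | apply pf_prod | apply pf_lam | apply pd_Fn | apply pf_app | apply pf_ran | apply pf_dom | apply PF.img | apply PF.pow | apply PD.sub | apply PF.adj | apply PF.un | apply PF.sUn | apply PF.op | apply PF.pr | apply PF.sep | exact PF.var _ | exact PF.const _ | apply PD.eq | apply PD.mem | apply PD.not | apply PD.iff | apply PD.or | apply PD.and | apply PD.imp | apply PD.ex | apply PD.all | exact PD.const _ | assumption | refine PF.comp1 (F := _) (by assumption) ?_ | refine PF.comp2 (F := _) (by assumption) ?_ ?_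 | refine PF.comp3 (F := _) (by assumption) ?_ ?_ ?_ | refine PD.app1 (R := _) (by assumption) ?_ | refine PD.app2 (R := _) (by assumption) ?_ ?_ | refine PD.app3 (R := _) (by assumption) ?_ ?_ ?_ | refine PD.app4 (R := _) (by assumption) ?_ ?_ ?_ ?_))) (PD.eq (wk_pf_pos ?_ ?_) ?_)) (PD.and (by (repeat' (with_reducible first | apply pd_maxR | apply pd_WOd | apply pf_pfin | apply pd_Fun1 | apply pf_hh | apply pd_Spr | apply pd_Inj | apply pf_har | apply pd_Le | apply pf_fins | apply pf_card | apply pd_Bij | apply pd_Fini | apply pd_Big | apply pd_Ord | apply pd_Tr | apply pd_Ind | apply pf_succ | apply pf_funs | apply pf_prod | apply pf_lam | apply pd_Fn | apply pf_app | apply pf_ran | apply pf_dom | apply PF.img | apply PF.pow | apply PD.sub | apply PF.adj | apply PF.un | apply PF.sUn | apply PF.op | apply PF.pr | apply PF.sep | exact PF.var _ | exact PF.const _ | apply PD.eq | apply PD.mem | apply PD.not | apply PD.iff | apply PD.or | apply PD.and | apply PD.imp | apply PD.ex | apply PD.all | exact PD.const _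 | assumption | refine PF.comp1 (F := _) (by assumption) ?_ | refine PF.comp2 (F := _) (by assumption) ?_ ?_ | refine PF.comp3 (F := _) (by assumption) ?_ ?_ ?_ | refine PD.app1 (R := _) (by assumption) ?_ | refine PD.app2 (R := _) (by assumption) ?_ ?_ | refine PD.app3 (R := _) (by assumption) ?_ ?_ ?_ | refine PD.app4 (R := _) (by assumption) ?_ ?_ ?_ ?_))) (PD.const _)) <;> (repeat' (with_reducible first | apply pd_maxR | apply pd_WOd | apply pf_pfin | apply pd_Fun1 | apply pf_hh | apply pd_Spr | apply pd_Inj | apply pf_har | apply pd_Le | apply pf_fins | apply pf_card | apply pd_Bij | apply pd_Fini | apply pd_Big | apply pd_Ord | apply pd_Tr | apply pd_Ind | apply pf_succ | apply pf_funs | apply pf_prod | apply pf_lam | apply pd_Fn | apply pf_app | apply pf_ran | apply pf_dom | apply PF.img | apply PF.pow | apply PD.sub | apply PF.adj | apply PF.un | apply PF.sUn | apply PF.op | apply PF.pr | apply PF.sep | exact PF.var _ | exact PF.const _ | apply PD.eq | apply PD.mem | apply PD.not | apply PD.iff | apply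 PD.or | apply PD.and | apply PD.imp | apply PD.ex | apply PD.all | exact PD.const _ | assumption | refine PF.comp1 (F := _) (by assumption) ?_ | refine PF.comp2 (F := _) (by assumption) ?_ ?_ | refine PF.comp3 (F := _) (by assumption) ?_ ?_ ?_ | refine PD.app1 (R := _) (by assumption) ?_ | refine PD.app2 (R := _) (by assumption) ?_ ?_ | refine PD.app3 (R := _) (by assumption) ?_ ?_ ?_ | refine PD.app4 (R := _) (by assumption) ?_ ?_ ?_ ?_))

private theorem wk_pf_el {δ : M} {f g : (ℕ → M) → M} (hf : PF f) (hg : PF g) :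
    PF (fun v => wk_el δ (f v) (g v)) := by
  refine PF.comp2 (F := fun s n => wk_el δ s n) ?_ hf hg
  unfold wk_el
  refine PF.sUn (PF.sep (PF.const _) ?_)
  refine PD.or (PD.and (by (repeat' (with_reducible first | apply pd_maxR | apply pd_WOd | apply pf_pfin | apply pd_Fun1 | apply pf_hh | apply pd_Spr | apply pd_Inj | apply pf_har | apply pd_Le | apply pf_fins | apply pf_card | apply pd_Bij | apply pd_Fini | apply pd_Big | apply pd_Ord | apply pd_Tr | apply pd_Ind | apply pf_succ | apply pf_funs | apply pf_prod | apply pf_lam | apply pd_Fn | apply pf_app | apply pf_ran | apply pf_dom | apply PF.img | apply PF.pow | apply PD.sub | apply PF.adj | apply PF.un | apply PF.sUn | apply PF.op | apply PF.pr | apply PF.sep | exact PF.var _ | exact PF.const _ | apply PD.eq | apply PD.mem | apply PD.not | apply PD.iff | apply PD.or | apply PD.and | apply PD.imp | apply PD.ex | apply PD.all | exact PD.const _ | assumption | refine PF.comp1 (F := _) (by assumption) ?_ | refine PF.comp2 (F := _) (by assumption) ?_ ?_ | refine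 PF.comp3 (F := _) (by assumption) ?_ ?_ ?_ | refine PD.app1 (R := _) (by assumption) ?_ | refine PD.app2 (R := _) (by assumption) ?_ ?_ | refine PD.app3 (R := _) (by assumption) ?_ ?_ ?_ | refine PD.app4 (R := _) (by assumption) ?_ ?_ ?_ ?_))) (PD.eq (wk_pf_pos ?_ ?_) ?_)) (PD.and (by (repeat' (with_reducible first | apply pd_maxR | apply pd_WOd | apply pf_pfin | apply pd_Fun1 | apply pf_hh | apply pd_Spr | apply pd_Inj | apply pf_har | apply pd_Le | apply pf_fins | apply pf_card | apply pd_Bij | apply pd_Fini | apply pd_Big | apply pd_Ord | apply pd_Tr | apply pd_Ind | apply pf_succ | apply pf_funs | apply pf_prod | apply pf_lam | apply pd_Fn | apply pf_app | apply pf_ran | apply pf_dom | apply PF.img | apply PF.pow | apply PD.sub | apply PF.adj | apply PF.un | apply PF.sUn | apply PF.op | apply PF.pr | apply PF.sep | exact PF.var _ | exact PF.const _ | apply PD.eq | apply PD.mem | apply PD.not | apply PD.iff | apply PD.or | apply PD.and | apply PD.imp | apply PD.ex | apply PD.all | exact PD.const _ | assumption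 | refine PF.comp1 (F := _) (by assumption) ?_ | refine PF.comp2 (F := _) (by assumption) ?_ ?_ | refine PF.comp3 (F := _) (by assumption) ?_ ?_ ?_ | refine PD.app1 (R := _) (by assumption) ?_ | refine PD.app2 (R := _) (by assumption) ?_ ?_ | refine PD.app3 (R := _) (by assumption) ?_ ?_ ?_ | refine PD.app4 (R := _) (by assumption) ?_ ?_ ?_ ?_))) (PD.not (PD.ex
    (PD.and (by (repeat' (with_reducible first | apply pd_maxR | apply pd_WOd | apply pf_pfin | apply pd_Fun1 | apply pf_hh | apply pd_Spr | apply pd_Inj | apply pf_har | apply pd_Le | apply pf_fins | apply pf_card | apply pd_Bij | apply pd_Fini | apply pd_Big | apply pd_Ord | apply pd_Tr | apply pd_Ind | apply pf_succ | apply pf_funs | apply pf_prod | apply pf_lam | apply pd_Fn | apply pf_app | apply pf_ran | apply pf_dom | apply PF.img | apply PF.pow | apply PD.sub | apply PF.adj | apply PF.un | apply PF.sUn | apply PF.op | apply PF.pr | apply PF.sep | exact PF.var _ | exact PF.const _ | apply PD.eq | apply PD.mem | apply PD.not | apply PD.iff | apply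 PD.or | apply PD.and | apply PD.imp | apply PD.ex | apply PD.all | exact PD.const _ | assumption | refine PF.comp1 (F := _) (by assumption) ?_ | refine PF.comp2 (F := _) (by assumption) ?_ ?_ | refine PF.comp3 (F := _) (by assumption) ?_ ?_ ?_ | refine PD.app1 (R := _) (by assumption) ?_ | refine PD.app2 (R := _) (by assumption) ?_ ?_ | refine PD.app3 (R := _) (by assumption) ?_ ?_ ?_ | refine PD.app4 (R := _) (by assumption) ?_ ?_ ?_ ?_))) (PD.eq (wk_pf_pos ?_ ?_) ?_))))) <;> (repeat' (with_reducible first | apply pd_maxR | apply pd_WOd | apply pf_pfin | apply pd_Fun1 | apply pf_hh | apply pd_Spr | apply pd_Inj | apply pf_har | apply pd_Le | apply pf_fins | apply pf_card | apply pd_Bij | apply pd_Fini | apply pd_Big | apply pd_Ord | apply pd_Tr | apply pd_Ind | apply pf_succ | apply pf_funs | apply pf_prod | apply pf_lam | apply pd_Fn | apply pf_app | apply pf_ran | apply pf_dom | apply PF.img | apply PF.pow | apply PD.sub | apply PF.adj | apply PF.un | apply PF.sUn | apply PF.op | apply PF.pr | apply PF.sep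 | exact PF.var _ | exact PF.const _ | apply PD.eq | apply PD.mem | apply PD.not | apply PD.iff | apply PD.or | apply PD.and | apply PD.imp | apply PD.ex | apply PD.all | exact PD.const _ | assumption | refine PF.comp1 (F := _) (by assumption) ?_ | refine PF.comp2 (F := _) (by assumption) ?_ ?_ | refine PF.comp3 (F := _) (by assumption) ?_ ?_ ?_ | refine PD.app1 (R := _) (by assumption) ?_ | refine PD.app2 (R := _) (by assumption) ?_ ?_ | refine PD.app3 (R := _) (by assumption) ?_ ?_ ?_ | refine PD.app4 (R := _) (by assumption) ?_ ?_ ?_ ?_))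

private theorem wk_lin {δ s : M} (hδ : Ord δ) (hs : GA.sub s δ) :
    LinO (fun x y : M => SetStr.mem x y) s :=
  ⟨fun x _ => not_mem_self x, fun _ _ z _ _ hz h1 h2 => (hδ.mem (hs z hz)).trans h2 h1,
    fun x y hx hy => by
      rcases Ord.tri (hδ.mem (hs x hx)) (hδ.mem (hs y hy)) with h | h | h
      · exact Or.inr (Or.inl h)
      · exact Or.inl h
      · exact Or.inr (Or.inr h)⟩

private theorem wk_val {δ s ξ : M} (hδ : Ord δ) (hs : SetStr.mem s (fins δ)) (hξ : SetStr.mem ξ s) :
    wk_el δ s (pos (fun x y => SetStr.mem x y) s ξ) = ξ := by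
  rw [mem_fins] at hs
  unfold wk_el
  refine wf_sing (fun z => ?_)
  rw [mem_sep (wk_pd δ s _)]
  constructor
  · rintro ⟨-, ⟨hz, h1⟩ | ⟨-, h1⟩⟩
    · exact pos_inj (PD.mem (PF.var 0) (PF.var 1)) hs.2 (wk_lin hδ hs.1) hz hξ h1
    · exact (h1 ⟨ξ, hξ, rfl⟩).elim
  · rintro rfl
    exact ⟨mem_succ.2 (Or.inl (hs.1 z hξ)), Or.inl ⟨hξ, rfl⟩⟩

private theorem wk_alt {δ s n : M} (hδ : Ord δ) (hs : SetStr.mem s (fins δ)) :
    wk_el δ s n = δ ∨ SetStr.mem (wk_el δ s n) s := by
  by_cases h : ∃ η, SetStr.mem η s ∧ pos (fun x y => SetStr.mem x y) s η = n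
  · obtain ⟨η, hη, rfl⟩ := h
    rw [wk_val hδ hs hη]
    exact Or.inr hη
  · left
    unfold wk_el
    refine wf_sing (fun z => ?_)
    rw [mem_sep (wk_pd δ s _)]
    constructor
    · rintro ⟨-, ⟨hz, h1⟩ | ⟨h1, -⟩⟩
      · exact (h ⟨z, hz, h1⟩).elim
      · exact h1
    · rintro rfl
      exact ⟨mem_succ.2 (Or.inr rfl), Or.inr ⟨rfl, h⟩⟩

/-- MODULE wk.  Finite sets of ordinals below `δ` are coded by their increasing enumeration, padded by
`δ` (use `pos`, `pos_inj`). -/
theorem le_fins_ord {δ : M} (hδ : Ord δ) : Le (fins δ) (funs om (succ δ)) := by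
  have hF1 : ∀ s : M, PF (fun v : ℕ → M => wk_el δ s (v 0)) := fun s =>
    wk_pf_el (PF.const _) (PF.var 0)
  have hposm : ∀ s ξ, SetStr.mem s (fins δ) → SetStr.mem (pos (fun x y => SetStr.mem x y) s ξ) (GA.om : M) := by
    intro s ξ hs
    unfold pos
    refine card_mem_om ((mem_fins.1 hs).2.sub fun z hz => ?_)
    rw [mem_sep (by (repeat' (with_reducible first | apply pd_maxR | apply pd_WOd | apply pf_pfin | apply pd_Fun1 | apply pf_hh | apply pd_Spr | apply pd_Inj | apply pf_har | apply pd_Le | apply pf_fins | apply pf_card | apply pd_Bij | apply pd_Fini | apply pd_Big | apply pd_Ord | apply pd_Tr | apply pd_Ind | apply pf_succ | apply pf_funs | apply pf_prod | apply pf_lam | apply pd_Fn | apply pf_app | apply pf_ran | apply pf_dom | apply PF.img | apply PF.pow | apply PD.sub | apply PF.adj | apply PF.un | apply PF.sUn | apply PF.op | apply PF.pr | apply PF.sep | exact PF.var _ | exact PF.const _ | apply PD.eq | apply PD.mem | apply PD.not | apply PD.iff | apply PD.or | apply PD.and | apply PD.imp | apply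 PD.ex | apply PD.all | exact PD.const _ | assumption | refine PF.comp1 (F := _) (by assumption) ?_ | refine PF.comp2 (F := _) (by assumption) ?_ ?_ | refine PF.comp3 (F := _) (by assumption) ?_ ?_ ?_ | refine PD.app1 (R := _) (by assumption) ?_ | refine PD.app2 (R := _) (by assumption) ?_ ?_ | refine PD.app3 (R := _) (by assumption) ?_ ?_ ?_ | refine PD.app4 (R := _) (by assumption) ?_ ?_ ?_ ?_)))] at hz
    exact hz.1
  have key : ∀ s t, SetStr.mem s (fins δ) → SetStr.mem t (fins δ) →
      lam (fun n => wk_el δ s n) GA.om = lam (fun n => wk_el δ t n) GA.om → GA.sub s t := by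
    intro s t hs ht hst ξ hξ
    have hn := hposm s ξ hs
    have h1 : wk_el δ t (pos (fun x y => SetStr.mem x y) s ξ) = ξ := by
      have h2 := app_lam (hF1 s) hn
      rw [hst, app_lam (hF1 t) hn, wk_val hδ hs hξ] at h2
      exact h2
    rcases wk_alt (n := pos (fun x y => SetStr.mem x y) s ξ) hδ ht with h2 | h2
    · rw [h1] at h2
      have h3 := (mem_fins.1 hs).1 ξ hξ
      rw [h2] at h3
      exact (not_mem_self _ h3).elim
    · rw [h1] at h2
      exact h2
  refine Le.of_fun (F := fun s => lam (fun n => wk_el δ s n) GA.om) ?_ ?_ ?_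
  · exact pf_lam (F := fun n v => wk_el δ (v 0) n) (PF.const _) (wk_pf_el (PF.var 1) (PF.var 0))
  · intro s hs
    rw [mem_funs]
    refine ⟨lam_Fn (hF1 s) _, fun n hn => ?_⟩
    rw [app_lam (hF1 s) hn, mem_succ]
    rcases wk_alt (n := n) hδ hs with h | h
    · exact Or.inr h
    · exact Or.inl ((mem_fins.1 hs).1 _ h)
  · intro s t hs ht hst
    exact ext (fun z => ⟨fun hz => key s t hs ht hst z hz, fun hz => key t s ht hs hst.symm z hz⟩)

private theorem wl_const {a κ z : M} (hz : SetStr.mem z κ) : ∃ g, SetStr.mem g (funs a κ) := by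
  refine ⟨lam (fun _ => z) a, ?_⟩
  rw [mem_funs]
  refine ⟨lam_Fn (by (repeat' (with_reducible first | apply pd_maxR | apply pd_WOd | apply pf_pfin | apply pd_Fun1 | apply pf_hh | apply pd_Spr | apply pd_Inj | apply pf_har | apply pd_Le | apply pf_fins | apply pf_card | apply pd_Bij | apply pd_Fini | apply pd_Big | apply pd_Ord | apply pd_Tr | apply pd_Ind | apply pf_succ | apply pf_funs | apply pf_prod | apply pf_lam | apply pd_Fn | apply pf_app | apply pf_ran | apply pf_dom | apply PF.img | apply PF.pow | apply PD.sub | apply PF.adj | apply PF.un | apply PF.sUn | apply PF.op | apply PF.pr | apply PF.sep | exact PF.var _ | exact PF.const _ | apply PD.eq | apply PD.mem | apply PD.not | apply PD.iff | apply PD.or | apply PD.and | apply PD.imp | apply PD.ex | apply PD.all | exact PD.const _ | assumption | refine PF.comp1 (F := _) (by assumption) ?_ | refine PF.comp2 (F := _) (by assumption) ?_ ?_ | refine PF.comp3 (F := _) (by assumption) ?_ ?_ ?_ | refine PD.app1 (R := _) (by assumption) ?_ | refine PD.app2 (R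 := _) (by assumption) ?_ ?_ | refine PD.app3 (R := _) (by assumption) ?_ ?_ ?_ | refine PD.app4 (R := _) (by assumption) ?_ ?_ ?_ ?_))) a, fun x hx => ?_⟩
  rw [app_lam (F := fun _ => z) (by (repeat' (with_reducible first | apply pd_maxR | apply pd_WOd | apply pf_pfin | apply pd_Fun1 | apply pf_hh | apply pd_Spr | apply pd_Inj | apply pf_har | apply pd_Le | apply pf_fins | apply pf_card | apply pd_Bij | apply pd_Fini | apply pd_Big | apply pd_Ord | apply pd_Tr | apply pd_Ind | apply pf_succ | apply pf_funs | apply pf_prod | apply pf_lam | apply pd_Fn | apply pf_app | apply pf_ran | apply pf_dom | apply PF.img | apply PF.pow | apply PD.sub | apply PF.adj | apply PF.un | apply PF.sUn | apply PF.op | apply PF.pr | apply PF.sep | exact PF.var _ | exact PF.const _ | apply PD.eq | apply PD.mem | apply PD.not | apply PD.iff | apply PD.or | apply PD.and | apply PD.imp | apply PD.ex | apply PD.all | exact PD.const _ | assumption | refine PF.comp1 (F := _) (by assumption) ?_ | refine PF.comp2 (F := _) (by assumption) ?_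 ?_ | refine PF.comp3 (F := _) (by assumption) ?_ ?_ ?_ | refine PD.app1 (R := _) (by assumption) ?_ | refine PD.app2 (R := _) (by assumption) ?_ ?_ | refine PD.app3 (R := _) (by assumption) ?_ ?_ ?_ | refine PD.app4 (R := _) (by assumption) ?_ ?_ ?_ ?_))) hx]
  exact hz

/-- MODULE wl -/
theorem le_succ_funs {δ κ : M} (hκ : Big κ) (h : Le δ (funs om κ)) : Le (succ δ) (funs om κ) := by
  have h0 : SetStr.mem (emp : M) κ := hκ.2 _ emp_mem_om
  have h1 : SetStr.mem (succ emp : M) κ := hκ.2 _ (succ_mem_om emp_mem_om)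
  obtain ⟨g, hg⟩ := wl_const (a := om) h0
  obtain ⟨f, hf, hv, hi⟩ := h
  have hE : ∀ (c x : M), x ≠ δ → sep c (fun _ => x = δ) = emp := by
    intro c x hx
    refine ext (fun z => ?_)
    rw [mem_sep (PD.const _)]
    constructor
    · exact fun h => absurd h.2 hx
    · exact fun h => absurd h (not_mem_emp z)
  have hF : ∀ c : M, sep c (fun _ => δ = δ) = c := by
    intro c
    refine ext (fun z => ?_)
    rw [mem_sep (PD.const _)]
    exact ⟨fun h => h.1, fun h => ⟨h, rfl⟩⟩
  have hU : ∀ c : M, un c emp = c := by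
    intro c
    refine ext (fun z => ?_)
    rw [mem_un]
    constructor
    · rintro (h | h)
      · exact h
      · exact absurd h (not_mem_emp z)
    · exact Or.inl
  have hU' : ∀ c : M, un emp c = c := by
    intro c
    refine ext (fun z => ?_)
    rw [mem_un]
    constructor
    · rintro (h | h)
      · exact absurd h (not_mem_emp z)
      · exact h
    · exact Or.inr
  have hδ : app f δ = emp := by
    refine ext (fun z => ?_)
    rw [mem_app]
    constructor
    · rintro ⟨y, hy, -⟩
      exact absurd (hf.mem_iff.1 hy).1 (not_mem_self δ)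
    · exact fun h => absurd h (not_mem_emp z)
  refine Le.trans ?_ (le_prod_funs (b := κ))
  refine Le.of_fun (F := fun x => op (un (app f x) (sep g (fun _ => x = δ))) (sep (succ emp) (fun _ => x = δ)))
    (by (repeat' (with_reducible first | apply pd_maxR | apply pd_WOd | apply pf_pfin | apply pd_Fun1 | apply pf_hh | apply pd_Spr | apply pd_Inj | apply pf_har | apply pd_Le | apply pf_fins | apply pf_card | apply pd_Bij | apply pd_Fini | apply pd_Big | apply pd_Ord | apply pd_Tr | apply pd_Ind | apply pf_succ | apply pf_funs | apply pf_prod | apply pf_lam | apply pd_Fn | apply pf_app | apply pf_ran | apply pf_dom | apply PF.img | apply PF.pow | apply PD.sub | apply PF.adj | apply PF.un | apply PF.sUn | apply PF.op | apply PF.pr | apply PF.sep | exact PF.var _ | exact PF.const _ | apply PD.eq | apply PD.mem | apply PD.not | apply PD.iff | apply PD.or | apply PD.and | apply PD.imp | apply PD.ex | apply PD.all | exact PD.const _ | assumption | refine PF.comp1 (F := _) (by assumption) ?_ | refine PF.comp2 (F := _)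 (by assumption) ?_ ?_ | refine PF.comp3 (F := _) (by assumption) ?_ ?_ ?_ | refine PD.app1 (R := _) (by assumption) ?_ | refine PD.app2 (R := _) (by assumption) ?_ ?_ | refine PD.app3 (R := _) (by assumption) ?_ ?_ ?_ | refine PD.app4 (R := _) (by assumption) ?_ ?_ ?_ ?_))) ?_ ?_
  · intro x hx
    show SetStr.mem (op (un (app f x) (sep g (fun _ => x = δ))) (sep (succ emp) (fun _ => x = δ))) (prod (funs om κ) κ)
    rw [op_mem_prod]
    rcases mem_succ.1 hx with h2 | h2
    · have h3 : x ≠ δ := fun h4 => not_mem_self δ (h4 ▸ h2)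
      rw [hE _ _ h3, hE _ _ h3, hU]
      exact ⟨hv x h2, h0⟩
    · rw [h2, hF, hF, hδ, hU']
      exact ⟨hg, h1⟩
  · intro x y hx hy hxy
    have hxy' := op_inj.1 hxy
    have hne : (succ emp : M) ≠ emp := by
      intro h4
      have h5 : SetStr.mem (emp : M) (succ emp) := mem_succ.2 (Or.inr rfl)
      rw [h4] at h5
      exact not_mem_emp _ h5
    rcases mem_succ.1 hx with h2 | h2
    · have h3 : x ≠ δ := fun h4 => not_mem_self δ (h4 ▸ h2)
      rcases mem_succ.1 hy with h2' | h2'
      · have h3' : y ≠ δ := fun h4 => not_mem_self δ (h4 ▸ h2')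
        rw [hE _ _ h3, hE _ _ h3', hU, hU] at hxy'
        exact hi x y h2 h2' hxy'.1
      · rw [h2', hE _ _ h3, hE _ _ h3, hF, hF] at hxy'
        exact absurd hxy'.2.symm hne
    · rcases mem_succ.1 hy with h2' | h2'
      · have h3' : y ≠ δ := fun h4 => not_mem_self δ (h4 ▸ h2')
        rw [h2, hE _ _ h3', hE _ _ h3', hF, hF] at hxy'
        exact absurd hxy'.2 hne
      · rw [h2, h2']

/-- The first coordinate of a pair. -/
private noncomputable def wm_fst (p : M) : M := sUn (sep (sUn p) (fun x => ∃ y, p = op x y))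

/-- The second coordinate of a pair. -/
private noncomputable def wm_snd (p : M) : M := sUn (sep (sUn p) (fun y => ∃ x, p = op x y))

private theorem wm_pf_fst : PF (fun v : ℕ → M => wm_fst (v 0)) := by
  unfold wm_fst
  (repeat' (with_reducible first | apply pd_maxR | apply pd_WOd | apply pf_pfin | apply pd_Fun1 | apply pf_hh | apply pd_Spr | apply pd_Inj | apply pf_har | apply pd_Le | apply pf_fins | apply pf_card | apply pd_Bij | apply pd_Fini | apply pd_Big | apply pd_Ord | apply pd_Tr | apply pd_Ind | apply pf_succ | apply pf_funs | apply pf_prod | apply pf_lam | apply pd_Fn | apply pf_app | apply pf_ran | apply pf_dom | apply PF.img | apply PF.pow | apply PD.sub | apply PF.adj | apply PF.un | apply PF.sUn | apply PF.op | apply PF.pr | apply PF.sep | exact PF.var _ | exact PF.const _ | apply PD.eq | apply PD.mem | apply PD.not | apply PD.iff | apply PD.or | apply PD.and | apply PD.imp | apply PD.ex | apply PD.all | exact PD.const _ | assumption | refine PF.comp1 (F := _) (by assumption) ?_ | refine PF.comp2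 (F := _) (by assumption) ?_ ?_ | refine PF.comp3 (F := _) (by assumption) ?_ ?_ ?_ | refine PD.app1 (R := _) (by assumption) ?_ | refine PD.app2 (R := _) (by assumption) ?_ ?_ | refine PD.app3 (R := _) (by assumption) ?_ ?_ ?_ | refine PD.app4 (R := _) (by assumption) ?_ ?_ ?_ ?_))

private theorem wm_pf_snd : PF (fun v : ℕ → M => wm_snd (v 0)) := by
  unfold wm_snd
  (repeat' (with_reducible first | apply pd_maxR | apply pd_WOd | apply pf_pfin | apply pd_Fun1 | apply pf_hh | apply pd_Spr | apply pd_Inj | apply pf_har | apply pd_Le | apply pf_fins | apply pf_card | apply pd_Bij | apply pd_Fini | apply pd_Big | apply pd_Ord | apply pd_Tr | apply pd_Ind | apply pf_succ | apply pf_funs | apply pf_prod | apply pf_lam | apply pd_Fn | apply pf_app | apply pf_ran | apply pf_dom | apply PF.img | apply PF.pow | apply PD.sub | apply PF.adj | apply PF.un | apply PF.sUn | apply PF.op | apply PF.pr | apply PF.sep | exact PF.var _ | exact PF.const _ | apply PD.eq | apply PD.mem | apply PD.not | apply PD.iff | apply PD.or |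 apply PD.and | apply PD.imp | apply PD.ex | apply PD.all | exact PD.const _ | assumption | refine PF.comp1 (F := _) (by assumption) ?_ | refine PF.comp2 (F := _) (by assumption) ?_ ?_ | refine PF.comp3 (F := _) (by assumption) ?_ ?_ ?_ | refine PD.app1 (R := _) (by assumption) ?_ | refine PD.app2 (R := _) (by assumption) ?_ ?_ | refine PD.app3 (R := _) (by assumption) ?_ ?_ ?_ | refine PD.app4 (R := _) (by assumption) ?_ ?_ ?_ ?_))

private theorem wm_mem (x y : M) : SetStr.mem x (sUn (op x y)) ∧ SetStr.mem y (sUn (op x y)) := by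
  rw [mem_sUn, mem_sUn]
  unfold op
  exact ⟨⟨pr x x, mem_pr.2 (Or.inl rfl), mem_pr.2 (Or.inl rfl)⟩,
    ⟨pr x y, mem_pr.2 (Or.inr rfl), mem_pr.2 (Or.inr rfl)⟩⟩

private theorem wm_fst_op (x y : M) : wm_fst (op x y) = x := by
  unfold wm_fst
  apply wb_uni (by (repeat' (with_reducible first | apply pd_maxR | apply pd_WOd | apply pf_pfin | apply pd_Fun1 | apply pf_hh | apply pd_Spr | apply pd_Inj | apply pf_har | apply pd_Le | apply pf_fins | apply pf_card | apply pd_Bij | apply pd_Fini | apply pd_Big | apply pd_Ord | apply pd_Tr | apply pd_Ind | apply pf_succ | apply pf_funs | apply pf_prod | apply pf_lam | apply pd_Fn | apply pf_app | apply pf_ran | apply pf_dom | apply PF.img | apply PF.pow | apply PD.sub | apply PF.adj | apply PF.un | apply PF.sUn | apply PF.op | apply PF.pr | apply PF.sep | exact PF.var _ | exact PF.const _ | apply PD.eq | apply PD.mem | apply PD.not | apply PD.iff | apply PD.or | apply PD.and | apply PD.imp | apply PD.ex | apply PD.all | exact PD.const _ | assumption | refine PF.comp1 (F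 := _) (by assumption) ?_ | refine PF.comp2 (F := _) (by assumption) ?_ ?_ | refine PF.comp3 (F := _) (by assumption) ?_ ?_ ?_ | refine PD.app1 (R := _) (by assumption) ?_ | refine PD.app2 (R := _) (by assumption) ?_ ?_ | refine PD.app3 (R := _) (by assumption) ?_ ?_ ?_ | refine PD.app4 (R := _) (by assumption) ?_ ?_ ?_ ?_))) (wm_mem x y).1 ⟨y, rfl⟩
  rintro w - ⟨y', h⟩
  exact (op_inj.1 h).1.symm

private theorem wm_snd_op (x y : M) : wm_snd (op x y) = y := by
  unfold wm_snd
  apply wb_uni (by (repeat' (with_reducible first | apply pd_maxR | apply pd_WOd | apply pf_pfin | apply pd_Fun1 | apply pf_hh | apply pd_Spr | apply pd_Inj | apply pf_har | apply pd_Le | apply pf_fins | apply pf_card | apply pd_Bij | apply pd_Fini | apply pd_Big | apply pd_Ord | apply pd_Tr | apply pd_Ind | apply pf_succ | apply pf_funs | apply pf_prod | apply pf_lam | apply pd_Fn | apply pf_app | apply pf_ran | apply pf_dom | apply PF.img | apply PF.pow | apply PD.sub | apply PF.adj | apply PF.un | apply PF.sUn | apply PF.op | apply PF.pr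 | apply PF.sep | exact PF.var _ | exact PF.const _ | apply PD.eq | apply PD.mem | apply PD.not | apply PD.iff | apply PD.or | apply PD.and | apply PD.imp | apply PD.ex | apply PD.all | exact PD.const _ | assumption | refine PF.comp1 (F := _) (by assumption) ?_ | refine PF.comp2 (F := _) (by assumption) ?_ ?_ | refine PF.comp3 (F := _) (by assumption) ?_ ?_ ?_ | refine PD.app1 (R := _) (by assumption) ?_ | refine PD.app2 (R := _) (by assumption) ?_ ?_ | refine PD.app3 (R := _) (by assumption) ?_ ?_ ?_ | refine PD.app4 (R := _) (by assumption) ?_ ?_ ?_ ?_))) (wm_mem x y).2 ⟨x, rfl⟩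
  rintro w - ⟨y', h⟩
  exact (op_inj.1 h).2.symm

/-- MODULE wm -/
theorem Cd.of_le {κ a b : M} (h : Le a b) (hb : Cd κ b) : Cd κ a := by
  exact ⟨hb.1.of_le h, h.trans hb.2⟩

/-- MODULE wm -/
theorem Cd.self {κ : M} (hκ : Big κ) : Cd κ κ := by
  exact ⟨WOd.of_ord hκ.1, Inj.self⟩

/-- MODULE wm -/
theorem Cd.om {κ : M} (hκ : Big κ) : Cd κ om := by
  exact Cd.of_le (Le.of_sub hκ.2) (Cd.self hκ)

/-- MODULE wm -/
theorem Cd.prod {κ a b : M} (ha : Cd κ a) (hb : Cd κ b) (hκ : Big κ) : Cd κ (prod a b) := by
  refine ⟨WOd.prod ha.1 hb.1, ?_⟩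
  refine Le.trans ?_ (le_prod_funs_funs (b := κ) ⟨_, hκ.2 _ emp_mem_om⟩)
  obtain ⟨f, hf, hv, hi⟩ := ha.2
  obtain ⟨g, hg, hv', hi'⟩ := hb.2
  have hp := wm_pf_fst (M := M)
  have hq := wm_pf_snd (M := M)
  refine Le.of_fun (F := fun p => op (app f (wm_fst p)) (app g (wm_snd p))) (by (repeat' (with_reducible first | apply pd_maxR | apply pd_WOd | apply pf_pfin | apply pd_Fun1 | apply pf_hh | apply pd_Spr | apply pd_Inj | apply pf_har | apply pd_Le | apply pf_fins | apply pf_card | apply pd_Bij | apply pd_Fini | apply pd_Big | apply pd_Ord | apply pd_Tr | apply pd_Ind | apply pf_succ | apply pf_funs | apply pf_prod | apply pf_lam | apply pd_Fn | apply pf_app | apply pf_ran | apply pf_dom | apply PF.img | apply PF.pow | apply PD.sub | apply PF.adj | apply PF.un | apply PF.sUn | apply PF.op | apply PF.pr | apply PF.sep | exact PF.var _ | exact PF.const _ | apply PD.eq | apply PD.mem | apply PD.not | apply PD.iff | apply PD.or | apply PD.and | apply PD.imp | apply PD.ex | apply PD.all | exact PD.const _ | assumption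 | refine PF.comp1 (F := _) (by assumption) ?_ | refine PF.comp2 (F := _) (by assumption) ?_ ?_ | refine PF.comp3 (F := _) (by assumption) ?_ ?_ ?_ | refine PD.app1 (R := _) (by assumption) ?_ | refine PD.app2 (R := _) (by assumption) ?_ ?_ | refine PD.app3 (R := _) (by assumption) ?_ ?_ ?_ | refine PD.app4 (R := _) (by assumption) ?_ ?_ ?_ ?_))) ?_ ?_
  · intro p hp
    obtain ⟨x, hx, y, hy, rfl⟩ := mem_prod.1 hp
    show SetStr.mem (op (app f (wm_fst (op x y))) (app g (wm_snd (op x y)))) (GA.prod (funs GA.om κ) (funs GA.om κ))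
    rw [wm_fst_op, wm_snd_op, op_mem_prod]
    exact ⟨hv x hx, hv' y hy⟩
  · intro p p' hp hp' h1
    obtain ⟨x, hx, y, hy, rfl⟩ := mem_prod.1 hp
    obtain ⟨x', hx', y', hy', rfl⟩ := mem_prod.1 hp'
    have h2 : op (app f (wm_fst (op x y))) (app g (wm_snd (op x y)))
        = op (app f (wm_fst (op x' y'))) (app g (wm_snd (op x' y'))) := h1
    rw [wm_fst_op, wm_snd_op, wm_fst_op, wm_snd_op, op_inj] at h2
    rw [hi x x' hx hx' h2.1, hi' y y' hy hy' h2.2]

/-- MODULE wn.  `WOd.equiv`, `Le.fins`, `le_fins_ord`, `le_succ_funs`, `Le.funs`, `le_funs_funs`. -/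
theorem Cd.fins {κ a : M} (ha : Cd κ a) (hκ : Big κ) : Cd κ (fins a) := by
  have hne : ∃ z : M, SetStr.mem z κ := ⟨_, hκ.2 _ emp_mem_om⟩
  refine ⟨WOd.fins ha.1, ?_⟩
  obtain ⟨δ, hδ, h1, h2⟩ := WOd.equiv ha.1
  exact ((Le.fins h1).trans (le_fins_ord hδ)).trans
    ((Le.funs (le_succ_funs hκ (h2.trans ha.2))).trans (le_funs_funs hne))

/-- MODULE wo.  Double sequences of finite subsets of `a` are coded. -/
theorem Cd.seq {κ a : M} (ha : Cd κ a) (hκ : Big κ) :
    Le (funs (GA.prod GA.om GA.om) (GA.fins a)) (funs GA.om κ) := by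
  have hz : SetStr.mem (emp : M) κ := hκ.2 _ emp_mem_om
  exact (Le.funs (Cd.fins ha hκ).2).trans
    ((le_funs_prod (wl_const (a := GA.om) hz)).trans (le_funs_funs ⟨_, hz⟩))

/-- MODULE wp -/
theorem Cd.pfin {κ K Y : M} (hK : Cd κ K) (hY : Cd κ Y) (hκ : Big κ) : Cd κ (pfin K Y) := by
  refine Cd.of_le (Le.of_sub ?_) (Cd.fins (Cd.prod hK hY hκ) hκ)
  intro f hf
  rw [mem_pfin] at hf
  exact mem_fins.2 ⟨hf.1, hf.2.1⟩

private def wq_R (z w : M) : Prop :=
  ∃ n ξ m η, z = op n ξ ∧ w = op m η ∧ (SetStr.mem n m ∨ (n = m ∧ SetStr.mem ξ η))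

private theorem wq_pd : PD (fun v : ℕ → M => wq_R (v 0) (v 1)) := by
  unfold wq_R
  (repeat' (with_reducible first | apply pd_maxR | apply pd_WOd | apply pf_pfin | apply pd_Fun1 | apply pf_hh | apply pd_Spr | apply pd_Inj | apply pf_har | apply pd_Le | apply pf_fins | apply pf_card | apply pd_Bij | apply pd_Fini | apply pd_Big | apply pd_Ord | apply pd_Tr | apply pd_Ind | apply pf_succ | apply pf_funs | apply pf_prod | apply pf_lam | apply pd_Fn | apply pf_app | apply pf_ran | apply pf_dom | apply PF.img | apply PF.pow | apply PD.sub | apply PF.adj | apply PF.un | apply PF.sUn | apply PF.op | apply PF.pr | apply PF.sep | exact PF.var _ | exact PF.const _ | apply PD.eq | apply PD.mem | apply PD.not | apply PD.iff | apply PD.or | apply PD.and | apply PD.imp | apply PD.ex | apply PD.all | exact PD.const _ | assumption | refine PF.comp1 (F := _) (by assumption) ?_ | refine PF.comp2 (F := _) (by assumption) ?_ ?_ | refine PF.comp3 (F := _) (by assumption) ?_ ?_ ?_ | refine PD.app1 (R := _) (by assumption) ?_ | refine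 PD.app2 (R := _) (by assumption) ?_ ?_ | refine PD.app3 (R := _) (by assumption) ?_ ?_ ?_ | refine PD.app4 (R := _) (by assumption) ?_ ?_ ?_ ?_))

private theorem wq_iff {n ξ m η : M} : wq_R (op n ξ) (op m η) ↔ SetStr.mem n m ∨ (n = m ∧ SetStr.mem ξ η) := by
  constructor
  · rintro ⟨a, b, c, e, h1, h2, h3⟩
    obtain ⟨rfl, rfl⟩ := op_inj.1 h1
    obtain ⟨rfl, rfl⟩ := op_inj.1 h2
    exact h3
  · intro h
    exact ⟨n, ξ, m, η, rfl, rfl, h⟩

private noncomputable def wq_A (l S x : M) : M :=
  sep (prod om l) (fun z => ∃ n ξ, z = op n ξ ∧ SetStr.mem ξ (app (app S x) n))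

private theorem wq_pf {f g h : (ℕ → M) → M} (hf : PF f) (hg : PF g) (hh : PF h) :
    PF (fun v => wq_A (f v) (g v) (h v)) :=
  PF.comp3 (F := fun x y z => wq_A x y z) (by unfold wq_A; (repeat' (with_reducible first | apply pd_maxR | apply pd_WOd | apply pf_pfin | apply pd_Fun1 | apply pf_hh | apply pd_Spr | apply pd_Inj | apply pf_har | apply pd_Le | apply pf_fins | apply pf_card | apply pd_Bij | apply pd_Fini | apply pd_Big | apply pd_Ord | apply pd_Tr | apply pd_Ind | apply pf_succ | apply pf_funs | apply pf_prod | apply pf_lam | apply pd_Fn | apply pf_app | apply pf_ran | apply pf_dom | apply PF.img | apply PF.pow | apply PD.sub | apply PF.adj | apply PF.un | apply PF.sUn | apply PF.op | apply PF.pr | apply PF.sep | exact PF.var _ | exact PF.const _ | apply PD.eq | apply PD.mem | apply PD.not | apply PD.iff | apply PD.or | apply PD.and | apply PD.imp | apply PD.ex | apply PD.all | exact PD.const _ | assumption | refine PF.comp1 (F := _) (by assumption) ?_ | refine PF.comp2 (F := _) (by assumption) ?_ ?_ |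 refine PF.comp3 (F := _) (by assumption) ?_ ?_ ?_ | refine PD.app1 (R := _) (by assumption) ?_ | refine PD.app2 (R := _) (by assumption) ?_ ?_ | refine PD.app3 (R := _) (by assumption) ?_ ?_ ?_ | refine PD.app4 (R := _) (by assumption) ?_ ?_ ?_ ?_))) hf hg hh

/-- MODULE wq.  A family of sequences of finite subsets of the nonempty ordinal `l` is covered by a
family of sequences in `l`.  (Order the pairs `op n ξ`, `ξ ∈ app s n`, lexicographically; all initial
segments are finite, so `pos` is injective (`pos_inj'`); `E x m` is the `ξ` of the pair of position `m`,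
or `emp`.) -/
theorem cover_seq {X l S : M} (hl : Ord l) (h0 : SetStr.mem emp l) (hS : Fn S X)
    (hv : ∀ x, SetStr.mem x X → SetStr.mem (app S x) (funs om (fins l))) :
    ∃ E, Fn E X ∧ (∀ x, SetStr.mem x X → SetStr.mem (app E x) (funs om l)) ∧
      ∀ x n ξ, SetStr.mem x X → SetStr.mem n om → SetStr.mem ξ (app (app S x) n) → SetStr.mem ξ (ran (app E x)) := by
  have hA0 : ∀ x : M, PD (fun v : ℕ → M => (fun z => ∃ n ξ, z = op n ξ ∧ SetStr.mem ξ (app (app S x) n)) (v 0)) :=
    fun x => by (repeat' (with_reducible first | apply pd_maxR | apply pd_WOd | apply pf_pfin | apply pd_Fun1 | apply pf_hh | apply pd_Spr | apply pd_Inj | apply pf_har | apply pd_Le | apply pf_fins | apply pf_card | apply pd_Bij | apply pd_Fini | apply pd_Big | apply pd_Ord | apply pd_Tr | apply pd_Ind | apply pf_succ | apply pf_funs | apply pf_prod | apply pf_lam | apply pd_Fn | apply pf_app | apply pf_ran | apply pf_dom | apply PF.img | apply PF.pow | apply PD.sub | apply PF.adj | apply PF.un | apply PF.sUn | apply PF.op | apply PF.pr |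 apply PF.sep | exact PF.var _ | exact PF.const _ | apply PD.eq | apply PD.mem | apply PD.not | apply PD.iff | apply PD.or | apply PD.and | apply PD.imp | apply PD.ex | apply PD.all | exact PD.const _ | assumption | refine PF.comp1 (F := _) (by assumption) ?_ | refine PF.comp2 (F := _) (by assumption) ?_ ?_ | refine PF.comp3 (F := _) (by assumption) ?_ ?_ ?_ | refine PD.app1 (R := _) (by assumption) ?_ | refine PD.app2 (R := _) (by assumption) ?_ ?_ | refine PD.app3 (R := _) (by assumption) ?_ ?_ ?_ | refine PD.app4 (R := _) (by assumption) ?_ ?_ ?_ ?_))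
  have hmA : ∀ x n ξ : M, SetStr.mem x X → (SetStr.mem (op n ξ) (wq_A l S x) ↔ SetStr.mem n om ∧ SetStr.mem ξ (app (app S x) n)) := by
    intro x n ξ hx
    unfold wq_A
    rw [mem_sep (hA0 x), op_mem_prod]
    constructor
    · rintro ⟨⟨h1, -⟩, n', ξ', h2, h3⟩
      obtain ⟨rfl, rfl⟩ := op_inj.1 h2
      exact ⟨h1, h3⟩
    · rintro ⟨h1, h2⟩
      have h3 := (mem_funs.1 (hv x hx)).2 n h1
      exact ⟨⟨h1, (mem_fins.1 h3).1 ξ h2⟩, n, ξ, rfl, h2⟩
  have hAl : ∀ x z : M, SetStr.mem x X → SetStr.mem z (wq_A l S x) → ∃ n ξ, z = op n ξ ∧ SetStr.mem n om ∧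
      SetStr.mem ξ (app (app S x) n) ∧ SetStr.mem ξ l := by
    intro x z hx hz
    have hz' := hz
    unfold wq_A at hz
    rw [mem_sep (hA0 x)] at hz
    obtain ⟨h1, n, ξ, rfl, h2⟩ := hz
    exact ⟨n, ξ, rfl, ((hmA x n ξ hx).1 hz').1, h2, (op_mem_prod.1 h1).2⟩
  have hfin : ∀ x : M, SetStr.mem x X → ∀ y, SetStr.mem y (wq_A l S x) → Fini (sep (wq_A l S x) (fun z => wq_R z y)) := by
    intro x hx y hy
    obtain ⟨n, ξ, rfl, hn, hξ, -⟩ := hAl x y hx hy
    have hp : PD (fun v : ℕ → M => (fun z => wq_R z (op n ξ)) (v 0)) := PD.app2 (R := fun x y => wq_R x y) wq_pd (PF.var 0) (PF.const _)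
    refine Fini.sub (a := prod (succ n) (GA.sUn (img (fun m => app (app S x) m) (succ n)))) ?_ ?_
    · refine Fini.prod (Fini.of_mem_om (succ_mem_om hn)) (Fini.sUn (Fini.img (Fini.of_mem_om (succ_mem_om hn)) (by (repeat' (with_reducible first | apply pd_maxR | apply pd_WOd | apply pf_pfin | apply pd_Fun1 | apply pf_hh | apply pd_Spr | apply pd_Inj | apply pf_har | apply pd_Le | apply pf_fins | apply pf_card | apply pd_Bij | apply pd_Fini | apply pd_Big | apply pd_Ord | apply pd_Tr | apply pd_Ind | apply pf_succ | apply pf_funs | apply pf_prod | apply pf_lam | apply pd_Fn | apply pf_app | apply pf_ran | apply pf_dom | apply PF.img | apply PF.pow | apply PD.sub | apply PF.adj | apply PF.un | apply PF.sUn | apply PF.op | apply PF.pr | apply PF.sep | exact PF.var _ | exact PF.const _ | apply PD.eq | apply PD.mem | apply PD.not | apply PD.iff | apply PD.or | apply PD.and | apply PD.imp | apply PD.ex | apply PD.all | exact PD.const _ | assumption | refine PF.comp1 (F := _) (by assumption) ?_ | refine PF.comp2 (F :=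 _) (by assumption) ?_ ?_ | refine PF.comp3 (F := _) (by assumption) ?_ ?_ ?_ | refine PD.app1 (R := _) (by assumption) ?_ | refine PD.app2 (R := _) (by assumption) ?_ ?_ | refine PD.app3 (R := _) (by assumption) ?_ ?_ ?_ | refine PD.app4 (R := _) (by assumption) ?_ ?_ ?_ ?_)))) ?_)
      intro w hw
      obtain ⟨m, hm, rfl⟩ := (mem_img (by (repeat' (with_reducible first | apply pd_maxR | apply pd_WOd | apply pf_pfin | apply pd_Fun1 | apply pf_hh | apply pd_Spr | apply pd_Inj | apply pf_har | apply pd_Le | apply pf_fins | apply pf_card | apply pd_Bij | apply pd_Fini | apply pd_Big | apply pd_Ord | apply pd_Tr | apply pd_Ind | apply pf_succ | apply pf_funs | apply pf_prod | apply pf_lam | apply pd_Fn | apply pf_app | apply pf_ran | apply pf_dom | apply PF.img | apply PF.pow | apply PD.sub | apply PF.adj | apply PF.un | apply PF.sUn | apply PF.op | apply PF.pr | apply PF.sep | exact PF.var _ | exact PF.const _ | apply PD.eq | apply PD.mem | apply PD.not | apply PD.iff | apply PD.or | apply PD.and | apply PD.imp |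 apply PD.ex | apply PD.all | exact PD.const _ | assumption | refine PF.comp1 (F := _) (by assumption) ?_ | refine PF.comp2 (F := _) (by assumption) ?_ ?_ | refine PF.comp3 (F := _) (by assumption) ?_ ?_ ?_ | refine PD.app1 (R := _) (by assumption) ?_ | refine PD.app2 (R := _) (by assumption) ?_ ?_ | refine PD.app3 (R := _) (by assumption) ?_ ?_ ?_ | refine PD.app4 (R := _) (by assumption) ?_ ?_ ?_ ?_)))).1 hw
      have hm' : SetStr.mem m om := by
        rcases mem_succ.1 hm with h | rfl
        · exact om_trans hn h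
        · exact hn
      exact (mem_fins.1 ((mem_funs.1 (hv x hx)).2 m hm')).2
    · intro z hz
      rw [mem_sep hp] at hz
      obtain ⟨hz1, hz2⟩ := hz
      obtain ⟨m, η, rfl, hm, hη, -⟩ := hAl x z hx hz1
      have hmn : SetStr.mem m (succ n) := by
        obtain ⟨a, b, c, e, h1, h2, h3⟩ := hz2
        obtain ⟨rfl, rfl⟩ := op_inj.1 h1
        obtain ⟨rfl, rfl⟩ := op_inj.1 h2
        rw [mem_succ]
        rcases h3 with h3 | h3
        · exact Or.inl h3
        · exact Or.inr h3.1
      refine op_mem_prod.2 ⟨hmn, mem_sUn.2 ⟨app (app S x) m, (mem_img (by (repeat' (with_reducible first | apply pd_maxR | apply pd_WOd | apply pf_pfin | apply pd_Fun1 | apply pf_hh | apply pd_Spr | apply pd_Inj | apply pf_har | apply pd_Le | apply pf_fins | apply pf_card | apply pd_Bij | apply pd_Fini | apply pd_Big | apply pd_Ord | apply pd_Tr | apply pd_Ind | apply pf_succ | apply pf_funs | apply pf_prod | apply pf_lam | apply pd_Fn | apply pf_app | apply pf_ran | apply pf_dom | apply PF.img | apply PF.pow | apply PD.sub | apply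 PF.adj | apply PF.un | apply PF.sUn | apply PF.op | apply PF.pr | apply PF.sep | exact PF.var _ | exact PF.const _ | apply PD.eq | apply PD.mem | apply PD.not | apply PD.iff | apply PD.or | apply PD.and | apply PD.imp | apply PD.ex | apply PD.all | exact PD.const _ | assumption | refine PF.comp1 (F := _) (by assumption) ?_ | refine PF.comp2 (F := _) (by assumption) ?_ ?_ | refine PF.comp3 (F := _) (by assumption) ?_ ?_ ?_ | refine PD.app1 (R := _) (by assumption) ?_ | refine PD.app2 (R := _) (by assumption) ?_ ?_ | refine PD.app3 (R := _) (by assumption) ?_ ?_ ?_ | refine PD.app4 (R := _) (by assumption) ?_ ?_ ?_ ?_)))).2 ⟨m, hmn, rfl⟩, hη⟩⟩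
  have hlin : ∀ x : M, SetStr.mem x X → LinO wq_R (wq_A l S x) := by
    intro x hx
    refine ⟨?_, ?_, ?_⟩
    · intro z _ hz
      obtain ⟨a, b, c, e, h1, h2, h3⟩ := hz
      obtain ⟨rfl, rfl⟩ := op_inj.1 (h1.symm.trans h2)
      rcases h3 with h3 | h3
      · exact not_mem_self _ h3
      · exact not_mem_self _ h3.2
    · intro z1 z2 z3 hz1 hz2 hz3 h12 h23
      obtain ⟨n1, x1, rfl, hn1, -, hl1⟩ := hAl x z1 hx hz1
      obtain ⟨n2, x2, rfl, hn2, -, hl2⟩ := hAl x z2 hx hz2
      obtain ⟨n3, x3, rfl, hn3, -, hl3⟩ := hAl x z3 hx hz3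
      rw [wq_iff] at h12 h23 ⊢
      rcases h12 with h12 | ⟨rfl, h12⟩
      · rcases h23 with h23 | ⟨rfl, h23⟩
        · exact Or.inl (om_elt_trans hn3 h23 h12)
        · exact Or.inl h12
      · rcases h23 with h23 | ⟨rfl, h23⟩
        · exact Or.inl h23
        · exact Or.inr ⟨rfl, (hl.mem hl3).trans h23 h12⟩
    · intro z1 z2 hz1 hz2
      obtain ⟨n1, x1, rfl, hn1, -, hl1⟩ := hAl x z1 hx hz1
      obtain ⟨n2, x2, rfl, hn2, -, hl2⟩ := hAl x z2 hx hz2
      rw [wq_iff, wq_iff]
      rcases (Ord.of_mem_om hn1).tri (Ord.of_mem_om hn2) with h | rfl | h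
      · exact Or.inr (Or.inl (Or.inl h))
      · rcases (hl.mem hl1).tri (hl.mem hl2) with h' | rfl | h'
        · exact Or.inr (Or.inl (Or.inr ⟨rfl, h'⟩))
        · exact Or.inl rfl
        · exact Or.inr (Or.inr (Or.inr ⟨rfl, h'⟩))
      · exact Or.inr (Or.inr (Or.inl h))
  have hpA : PF (fun v : ℕ → M => wq_A l S (v 0)) := wq_pf (PF.const l) (PF.const S) (PF.var 0)
  have hpos : PF (fun v : ℕ → M => pos wq_R (v 0) (v 1)) := pf_pos wq_pd (PF.var 0) (PF.var 1)
  have hP : ∀ x m : M, PD (fun v : ℕ → M => (fun ξ => ∃ n, SetStr.mem n om ∧ SetStr.mem ξ (app (app S x) n) ∧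
      pos wq_R (wq_A l S x) (op n ξ) = m) (v 0)) := fun x m => by
    have h2 : PF (fun v : ℕ → M => pos wq_R (wq_A l S x) (v 0)) :=
      pf_pos wq_pd (PF.const _) (PF.var 0)
    (repeat' (with_reducible first | apply pd_maxR | apply pd_WOd | apply pf_pfin | apply pd_Fun1 | apply pf_hh | apply pd_Spr | apply pd_Inj | apply pf_har | apply pd_Le | apply pf_fins | apply pf_card | apply pd_Bij | apply pd_Fini | apply pd_Big | apply pd_Ord | apply pd_Tr | apply pd_Ind | apply pf_succ | apply pf_funs | apply pf_prod | apply pf_lam | apply pd_Fn | apply pf_app | apply pf_ran | apply pf_dom | apply PF.img | apply PF.pow | apply PD.sub | apply PF.adj | apply PF.un | apply PF.sUn | apply PF.op | apply PF.pr | apply PF.sep | exact PF.var _ | exact PF.const _ | apply PD.eq | apply PD.mem | apply PD.not | apply PD.iff | apply PD.or | apply PD.and | apply PD.imp | apply PD.ex | apply PD.all | exact PD.const _ | assumption | refine PF.comp1 (F := _) (by assumption) ?_ | refine PF.comp2 (F := _) (by assumption) ?_ ?_ | refine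 PF.comp3 (F := _) (by assumption) ?_ ?_ ?_ | refine PD.app1 (R := _) (by assumption) ?_ | refine PD.app2 (R := _) (by assumption) ?_ ?_ | refine PD.app3 (R := _) (by assumption) ?_ ?_ ?_ | refine PD.app4 (R := _) (by assumption) ?_ ?_ ?_ ?_))
  have hV : ∀ x : M, PF (fun v : ℕ → M => (fun m => GA.sUn (sep l (fun ξ => ∃ n, SetStr.mem n om ∧
      SetStr.mem ξ (app (app S x) n) ∧ pos wq_R (wq_A l S x) (op n ξ) = m))) (v 0)) := fun x => by
    have h2 : PF (fun v : ℕ → M => pos wq_R (wq_A l S x) (v 0)) :=
      pf_pos wq_pd (PF.const _) (PF.var 0)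
    (repeat' (with_reducible first | apply pd_maxR | apply pd_WOd | apply pf_pfin | apply pd_Fun1 | apply pf_hh | apply pd_Spr | apply pd_Inj | apply pf_har | apply pd_Le | apply pf_fins | apply pf_card | apply pd_Bij | apply pd_Fini | apply pd_Big | apply pd_Ord | apply pd_Tr | apply pd_Ind | apply pf_succ | apply pf_funs | apply pf_prod | apply pf_lam | apply pd_Fn | apply pf_app | apply pf_ran | apply pf_dom | apply PF.img | apply PF.pow | apply PD.sub | apply PF.adj | apply PF.un | apply PF.sUn | apply PF.op | apply PF.pr | apply PF.sep | exact PF.var _ | exact PF.const _ | apply PD.eq | apply PD.mem | apply PD.not | apply PD.iff | apply PD.or | apply PD.and | apply PD.imp | apply PD.ex | apply PD.all | exact PD.const _ | assumption | refine PF.comp1 (F := _) (by assumption) ?_ | refine PF.comp2 (F := _) (by assumption) ?_ ?_ | refine PF.comp3 (F := _) (by assumption) ?_ ?_ ?_ | refine PD.app1 (R := _) (by assumption) ?_ | refine PD.app2 (R := _) (by assumption) ?_ ?_ | refine PD.app3 (R := _) (by assumption)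 ?_ ?_ ?_ | refine PD.app4 (R := _) (by assumption) ?_ ?_ ?_ ?_))
  have hW : PF (fun v : ℕ → M => (fun x => lam (fun m => GA.sUn (sep l (fun ξ => ∃ n, SetStr.mem n om ∧
      SetStr.mem ξ (app (app S x) n) ∧ pos wq_R (wq_A l S x) (op n ξ) = m))) om) (v 0)) := by
    have h1 : PF (fun v : ℕ → M => wq_A l S (v 1)) := wq_pf (PF.const l) (PF.const S) (PF.var 1)
    (repeat' (with_reducible first | apply pd_maxR | apply pd_WOd | apply pf_pfin | apply pd_Fun1 | apply pf_hh | apply pd_Spr | apply pd_Inj | apply pf_har | apply pd_Le | apply pf_fins | apply pf_card | apply pd_Bij | apply pd_Fini | apply pd_Big | apply pd_Ord | apply pd_Tr | apply pd_Ind | apply pf_succ | apply pf_funs | apply pf_prod | apply pf_lam | apply pd_Fn | apply pf_app | apply pf_ran | apply pf_dom | apply PF.img | apply PF.pow | apply PD.sub | apply PF.adj | apply PF.un | apply PF.sUn | apply PF.op | apply PF.pr | apply PF.sep | exact PF.var _ | exact PF.const _ | apply PD.eq | apply PD.mem | apply PD.not | apply PD.iff | apply PD.or | apply PD.and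 | apply PD.imp | apply PD.ex | apply PD.all | exact PD.const _ | assumption | refine PF.comp1 (F := _) (by assumption) ?_ | refine PF.comp2 (F := _) (by assumption) ?_ ?_ | refine PF.comp3 (F := _) (by assumption) ?_ ?_ ?_ | refine PD.app1 (R := _) (by assumption) ?_ | refine PD.app2 (R := _) (by assumption) ?_ ?_ | refine PD.app3 (R := _) (by assumption) ?_ ?_ ?_ | refine PD.app4 (R := _) (by assumption) ?_ ?_ ?_ ?_))
  -- the value
  have hval : ∀ x n ξ : M, SetStr.mem x X → SetStr.mem n om → SetStr.mem ξ (app (app S x) n) →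
      GA.sUn (sep l (fun ξ' => ∃ n', SetStr.mem n' om ∧ SetStr.mem ξ' (app (app S x) n') ∧
        pos wq_R (wq_A l S x) (op n' ξ') = pos wq_R (wq_A l S x) (op n ξ))) = ξ := by
    intro x n ξ hx hn hξ
    have hz := (hmA x n ξ hx).2 ⟨hn, hξ⟩
    refine ext (fun z => ?_)
    rw [mem_sUn]
    constructor
    · rintro ⟨η, hη, hzη⟩
      rw [mem_sep (hP x _)] at hη
      obtain ⟨-, n', hn', hη', he⟩ := hη
      have hz' := (hmA x n' η hx).2 ⟨hn', hη'⟩
      have h1 := pos_inj' wq_pd (hfin x hx) (hlin x hx) hz' hz he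
      obtain ⟨-, rfl⟩ := op_inj.1 h1
      exact hzη
    · intro hzξ
      have h3 := (mem_funs.1 (hv x hx)).2 n hn
      exact ⟨ξ, (mem_sep (hP x _)).2 ⟨(mem_fins.1 h3).1 ξ hξ, n, hn, hξ, rfl⟩, hzξ⟩
  have hvl : ∀ x m : M, SetStr.mem x X → SetStr.mem m om → SetStr.mem (GA.sUn (sep l (fun ξ => ∃ n, SetStr.mem n om ∧
      SetStr.mem ξ (app (app S x) n) ∧ pos wq_R (wq_A l S x) (op n ξ) = m))) l := by
    intro x m hx _
    by_cases he : ∃ n ξ, SetStr.mem n om ∧ SetStr.mem ξ (app (app S x) n) ∧ pos wq_R (wq_A l S x) (op n ξ) = m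
    · obtain ⟨n, ξ, hn, hξ, rfl⟩ := he
      rw [hval x n ξ hx hn hξ]
      exact (mem_fins.1 ((mem_funs.1 (hv x hx)).2 n hn)).1 ξ hξ
    · have h1 : GA.sUn (sep l (fun ξ => ∃ n, SetStr.mem n om ∧
          SetStr.mem ξ (app (app S x) n) ∧ pos wq_R (wq_A l S x) (op n ξ) = m)) = emp := by
        refine ext (fun z => ?_)
        rw [mem_sUn]
        constructor
        · rintro ⟨η, hη, -⟩
          rw [mem_sep (hP x _)] at hη
          obtain ⟨-, n', h2, h3, h4⟩ := hη
          exact (he ⟨n', η, h2, h3, h4⟩).elim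
        · intro h
          exact (not_mem_emp z h).elim
      rw [h1]
      exact h0
  refine ⟨lam (fun x => lam (fun m => GA.sUn (sep l (fun ξ => ∃ n, SetStr.mem n om ∧
      SetStr.mem ξ (app (app S x) n) ∧ pos wq_R (wq_A l S x) (op n ξ) = m))) om) X, lam_Fn hW X, ?_, ?_⟩
  · intro x hx
    rw [app_lam hW hx]
    refine mem_funs.2 ⟨lam_Fn (hV x) om, fun m hm => ?_⟩
    rw [app_lam (hV x) hm]
    exact hvl x m hx hm
  · intro x n ξ hx hn hξ
    rw [app_lam hW hx]
    have hz := (hmA x n ξ hx).2 ⟨hn, hξ⟩
    have hm : SetStr.mem (pos wq_R (wq_A l S x) (op n ξ)) om := card_mem_om (hfin x hx _ hz)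
    rw [(lam_Fn (hV x) om).mem_ran]
    refine ⟨pos wq_R (wq_A l S x) (op n ξ), hm, ?_⟩
    rw [app_lam (hV x) hm]
    exact (hval x n ξ hx hn hξ).symm

end GA
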