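import Pool.Agent.GA.RmC
import Pool.Agent.GA.Wod

/-!
# Random forcing, part D: covering
-/

universe u

namespace GA

variable {M : Type u} [SetStr M] [IsZF M]

/-- The possible values at `x` which are forced by a condition of measure more than `2^-k`. -/
noncomputable def vals (I Lam A x k : M) : M :=
  sep Lam (fun ξ => ∃ p, SetStr.mem (op p (op x ξ)) A ∧ EvB I k p)

theorem mem_vals {I Lam A x k ξ : M} :
    SetStr.mem ξ (vals I Lam A x k) ↔ SetStr.mem ξ Lam ∧ ∃ p, SetStr.mem (op p (op x ξ)) A ∧ EvB I k p :=
  mem_sep (by (repeat' (with_reducible first | apply pd_maxR | apply pf_rmO | apply pf_rmL | apply pf_rmP | apply pf_cls | apply pf_cst | apply pf_sdf | apply pf_sun | apply pf_sit | apply pd_Nul | apply pd_Cau | apply pd_EvB | apply pd_EvS | apply pd_Sq | apply pd_Fmem | apply pd_Feq | apply pd_WOd | apply pf_pfin | apply pd_Fun1 | apply pf_bit | apply pf_sd | apply pf_df | apply pf_it | apply pd_Sm | apply pf_trc | apply pd_Clo | apply pd_Dep | apply pf_rs | apply pf_hh | apply pd_Spr | apply pd_Inj | apply pf_har | apply pd_Le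 | apply pf_fins | apply pf_card | apply pd_Bij | apply pd_Fini | apply pd_Big | apply pd_Ord | apply pd_Tr | apply pd_Ind | apply pf_succ | apply pf_funs | apply pf_prod | apply pf_lam | apply pd_Fn | apply pf_app | apply pf_ran | apply pf_dom | apply PF.img | apply PF.pow | apply PD.sub | apply PF.adj | apply PF.un | apply PF.sUn | apply PF.op | apply PF.pr | apply PF.sep | exact PF.var _ | exact PF.const _ | apply PD.eq | apply PD.mem | apply PD.not | apply PD.iff | apply PD.or | apply PD.and | apply PD.imp | apply PD.ex | apply PD.all | exact PD.const _ | assumption | refine PF.comp1 (F := _) (by assumption) ?_ | refine PF.comp2 (F := _) (by assumption) ?_ ?_ | refine PF.comp3 (F := _) (by assumption) ?_ ?_ ?_ | refine PD.app1 (R := _) (by assumption) ?_ | refine PD.app2 (R := _) (by assumption) ?_ ?_ | refine PD.app3 (R := _) (by assumption) ?_ ?_ ?_ | refine PD.app4 (R := _) (by assumption) ?_ ?_ ?_ ?_)))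

theorem pf_vals {I Lam A : M} {f g : (ℕ → M) → M} (hf : PF f) (hg : PF g) :
    PF (fun v => vals I Lam A (f v) (g v)) :=
  PF.comp2 (F := fun x k => vals I Lam A x k) (by unfold vals; (repeat' (with_reducible first | apply pd_maxR | apply pf_rmO | apply pf_rmL | apply pf_rmP | apply pf_cls | apply pf_cst | apply pf_sdf | apply pf_sun | apply pf_sit | apply pd_Nul | apply pd_Cau | apply pd_EvB | apply pd_EvS | apply pd_Sq | apply pd_Fmem | apply pd_Feq | apply pd_WOd | apply pf_pfin | apply pd_Fun1 | apply pf_bit | apply pf_sd | apply pf_df | apply pf_it | apply pd_Sm | apply pf_trc | apply pd_Clo | apply pd_Dep | apply pf_rs | apply pf_hh | apply pd_Spr | apply pd_Inj | apply pf_har | apply pd_Le | apply pf_fins | apply pf_card | apply pd_Bij | apply pd_Fini | apply pd_Big | apply pd_Ord | apply pd_Tr | apply pd_Ind | apply pf_succ | apply pf_funs | apply pf_prod | apply pf_lam | apply pd_Fn | apply pf_app | apply pf_ran | apply pf_dom | apply PF.img | apply PF.pow | apply PD.sub | apply PF.adj | apply PF.un | apply PF.sUn | apply PF.op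 | apply PF.pr | apply PF.sep | exact PF.var _ | exact PF.const _ | apply PD.eq | apply PD.mem | apply PD.not | apply PD.iff | apply PD.or | apply PD.and | apply PD.imp | apply PD.ex | apply PD.all | exact PD.const _ | assumption | refine PF.comp1 (F := _) (by assumption) ?_ | refine PF.comp2 (F := _) (by assumption) ?_ ?_ | refine PF.comp3 (F := _) (by assumption) ?_ ?_ ?_ | refine PD.app1 (R := _) (by assumption) ?_ | refine PD.app2 (R := _) (by assumption) ?_ ?_ | refine PD.app3 (R := _) (by assumption) ?_ ?_ ?_ | refine PD.app4 (R := _) (by assumption) ?_ ?_ ?_ ?_))) hf hg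


/-- MODULE d1.  Two conditions which force different values are almost disjoint. -/
theorem nul_of_ne {I p0 X Lam A p q x ξ η : M} (hA : FName (rmP I) (rmL I) p0 X Lam A)
    (hp : SetStr.mem (op p (op x ξ)) A) (hq : SetStr.mem (op q (op x η)) A) (h : ξ ≠ η) : Nul I (sit p q) := by
  by_contra hN
  have hF := isForcing_rm I
  have hp' : SetStr.mem p (rmP I) := (hF.fld _ _ (hA.fld _ _ _ hp).1).1
  have hq' : SetStr.mem q (rmP I) := (hF.fld _ _ (hA.fld _ _ _ hq).1).1
  obtain ⟨-, h2, h3⟩ := rm_compat hp' hq' hN
  exact h (hA.uniq _ _ _ _ (hA.mono _ _ _ _ hp h2) (hA.mono _ _ _ _ hq h3))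

/-- MODULE d1.  A common bound for finitely many conditions which are monotone. -/
theorem exists_common {n : M} (hn : SetStr.mem n (om : M)) {R : M → M → Prop}
    (hR : PD (fun v => R (v 0) (v 1))) (h : ∀ i, SetStr.mem i n → ∃ N, SetStr.mem N om ∧ R i N)
    (hm : ∀ i N N', SetStr.mem i n → SetStr.mem N om → SetStr.mem N' om → GA.sub N N' → R i N → R i N') :
    ∃ N, SetStr.mem N om ∧ ∀ i, SetStr.mem i n → R i N := by
  refine om_ind (P := fun j => GA.sub j n → ∃ N, SetStr.mem N om ∧ ∀ i, SetStr.mem i j → R i N) (by (repeat' (with_reducible first | apply pf_vals | apply pd_maxR | apply pf_rmO | apply pf_rmL | apply pf_rmP | apply pf_cls | apply pf_cst | apply pf_sdf | apply pf_sun | apply pf_sit | apply pd_Nul | apply pd_Cau | apply pd_EvB | apply pd_EvS | apply pd_Sq | apply pd_Fmem | apply pd_Feq | apply pd_WOd | apply pf_pfin | apply pd_Fun1 | apply pf_bit | apply pf_sd | apply pf_df | apply pf_it | apply pd_Sm | apply pf_trc | apply pd_Clo | apply pd_Dep | apply pf_rs | apply pf_hh | apply pd_Spr | apply pd_Inj | apply pf_har |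 apply pd_Le | apply pf_fins | apply pf_card | apply pd_Bij | apply pd_Fini | apply pd_Big | apply pd_Ord | apply pd_Tr | apply pd_Ind | apply pf_succ | apply pf_funs | apply pf_prod | apply pf_lam | apply pd_Fn | apply pf_app | apply pf_ran | apply pf_dom | apply PF.img | apply PF.pow | apply PD.sub | apply PF.adj | apply PF.un | apply PF.sUn | apply PF.op | apply PF.pr | apply PF.sep | exact PF.var _ | exact PF.const _ | apply PD.eq | apply PD.mem | apply PD.not | apply PD.iff | apply PD.or | apply PD.and | apply PD.imp | apply PD.ex | apply PD.all | exact PD.const _ | assumption | refine PF.comp1 (F := _) (by assumption) ?_ | refine PF.comp2 (F := _) (by assumption) ?_ ?_ | refine PF.comp3 (F := _) (by assumption) ?_ ?_ ?_ | refine PD.app1 (R := _) (by assumption) ?_ | refine PD.app2 (R := _) (by assumption) ?_ ?_ | refine PD.app3 (R := _) (by assumption) ?_ ?_ ?_ | refine PD.app4 (R := _) (by assumption) ?_ ?_ ?_ ?_))) ?_ ?_ n hn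
    (fun _ h => h)
  · intro _
    exact ⟨emp, emp_mem_om, fun i hi => (not_mem_emp i hi).elim⟩
  · intro j hj ih hjn
    obtain ⟨N1, hN1, h1⟩ := ih (fun z hz => hjn z (mem_succ.2 (Or.inl hz)))
    obtain ⟨N2, hN2, h2⟩ := h j (hjn j (mem_succ.2 (Or.inr rfl)))
    obtain ⟨N, hN, hN1', hN2'⟩ : ∃ N, SetStr.mem N om ∧ GA.sub N1 N ∧ GA.sub N2 N := by
      rcases (Ord.of_mem_om hN1).sub_or_mem (Ord.of_mem_om hN2) with h | h
      · exact ⟨N2, hN2, h, fun z hz => hz⟩
      · exact ⟨N1, hN1, fun z hz => hz, fun z hz => (Ord.of_mem_om hN1).trans h hz⟩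
    refine ⟨N, hN, fun i hi => ?_⟩
    have hin := hjn i hi
    rw [mem_succ] at hi
    rcases hi with hi | rfl
    · exact hm i N1 N hin hN1 hN hN1' (h1 i hi)
    · exact hm _ N2 N hin hN2 hN hN2' h2

/-- MODULE d2.  Pairwise almost disjoint conditions of measure more than `2^-k`: there are at most
`2^(k+1)`. -/
theorem packC {I n f k : M} (hn : SetStr.mem n (om : M)) (hk : SetStr.mem k (om : M)) (hf : Fn f n)
    (hc : ∀ i, SetStr.mem i n → SetStr.mem (app f i) (rmP I) ∧ EvB I k (app f i))
    (hd : ∀ i j, SetStr.mem i n → SetStr.mem j n → i ≠ j → Nul I (sit (app f i) (app f j))) :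
    Le n (funs (succ k) tw) := by
  have hsk := succ_mem_om hk
  obtain ⟨l, hl, hun⟩ := sm_union (I := I) hn hsk
  obtain ⟨N1, hN1, h1⟩ := exists_common hn
    (R := fun i N => ∀ m, SetStr.mem m om → GA.sub N m → ¬ Sm I k (app (app f i) m)) (by (repeat' (with_reducible first | apply pf_vals | apply pd_maxR | apply pf_rmO | apply pf_rmL | apply pf_rmP | apply pf_cls | apply pf_cst | apply pf_sdf | apply pf_sun | apply pf_sit | apply pd_Nul | apply pd_Cau | apply pd_EvB | apply pd_EvS | apply pd_Sq | apply pd_Fmem | apply pd_Feq | apply pd_WOd | apply pf_pfin | apply pd_Fun1 | apply pf_bit | apply pf_sd | apply pf_df | apply pf_it | apply pd_Sm | apply pf_trc | apply pd_Clo | apply pd_Dep | apply pf_rs | apply pf_hh | apply pd_Spr | apply pd_Inj | apply pf_har | apply pd_Le | apply pf_fins | apply pf_card | apply pd_Bij | apply pd_Fini | apply pd_Big | apply pd_Ord | apply pd_Tr | apply pd_Ind | apply pf_succ | apply pf_funs | apply pf_prod | apply pf_lam | apply pd_Fn | apply pf_app | apply pf_ran | apply pf_dom | apply PF.img | apply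 PF.pow | apply PD.sub | apply PF.adj | apply PF.un | apply PF.sUn | apply PF.op | apply PF.pr | apply PF.sep | exact PF.var _ | exact PF.const _ | apply PD.eq | apply PD.mem | apply PD.not | apply PD.iff | apply PD.or | apply PD.and | apply PD.imp | apply PD.ex | apply PD.all | exact PD.const _ | assumption | refine PF.comp1 (F := _) (by assumption) ?_ | refine PF.comp2 (F := _) (by assumption) ?_ ?_ | refine PF.comp3 (F := _) (by assumption) ?_ ?_ ?_ | refine PD.app1 (R := _) (by assumption) ?_ | refine PD.app2 (R := _) (by assumption) ?_ ?_ | refine PD.app3 (R := _) (by assumption) ?_ ?_ ?_ | refine PD.app4 (R := _) (by assumption) ?_ ?_ ?_ ?_)))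
    (fun i hi => (hc i hi).2) (fun i N N' _ _ _ hNN h m hm hN => h m hm (fun z hz => hN z (hNN z hz)))
  obtain ⟨N2, hN2, h2⟩ := exists_common hn
    (R := fun i N => ∀ j, SetStr.mem j n → ¬ i = j → ∀ m, SetStr.mem m om → GA.sub N m →
      Sm I l (it (app (app f i) m) (app (app f j) m))) (by (repeat' (with_reducible first | apply pf_vals | apply pd_maxR | apply pf_rmO | apply pf_rmL | apply pf_rmP | apply pf_cls | apply pf_cst | apply pf_sdf | apply pf_sun | apply pf_sit | apply pd_Nul | apply pd_Cau | apply pd_EvB | apply pd_EvS | apply pd_Sq | apply pd_Fmem | apply pd_Feq | apply pd_WOd | apply pf_pfin | apply pd_Fun1 | apply pf_bit | apply pf_sd | apply pf_df | apply pf_it | apply pd_Sm | apply pf_trc | apply pd_Clo | apply pd_Dep | apply pf_rs | apply pf_hh | apply pd_Spr | apply pd_Inj | apply pf_har | apply pd_Le | apply pf_fins | apply pf_card | apply pd_Bij | apply pd_Fini | apply pd_Big | apply pd_Ord | apply pd_Tr | apply pd_Ind | apply pf_succ | apply pf_funs | apply pf_prod | apply pf_lam | apply pd_Fn | apply pf_app | apply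 pf_ran | apply pf_dom | apply PF.img | apply PF.pow | apply PD.sub | apply PF.adj | apply PF.un | apply PF.sUn | apply PF.op | apply PF.pr | apply PF.sep | exact PF.var _ | exact PF.const _ | apply PD.eq | apply PD.mem | apply PD.not | apply PD.iff | apply PD.or | apply PD.and | apply PD.imp | apply PD.ex | apply PD.all | exact PD.const _ | assumption | refine PF.comp1 (F := _) (by assumption) ?_ | refine PF.comp2 (F := _) (by assumption) ?_ ?_ | refine PF.comp3 (F := _) (by assumption) ?_ ?_ ?_ | refine PD.app1 (R := _) (by assumption) ?_ | refine PD.app2 (R := _) (by assumption) ?_ ?_ | refine PD.app3 (R := _) (by assumption) ?_ ?_ ?_ | refine PD.app4 (R := _) (by assumption) ?_ ?_ ?_ ?_))) (by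
        intro i hi
        obtain ⟨N, hN, h⟩ := exists_common hn
          (R := fun j N => ¬ i = j → ∀ m, SetStr.mem m om → GA.sub N m →
            Sm I l (it (app (app f i) m) (app (app f j) m))) (by (repeat' (with_reducible first | apply pf_vals | apply pd_maxR | apply pf_rmO | apply pf_rmL | apply pf_rmP | apply pf_cls | apply pf_cst | apply pf_sdf | apply pf_sun | apply pf_sit | apply pd_Nul | apply pd_Cau | apply pd_EvB | apply pd_EvS | apply pd_Sq | apply pd_Fmem | apply pd_Feq | apply pd_WOd | apply pf_pfin | apply pd_Fun1 | apply pf_bit | apply pf_sd | apply pf_df | apply pf_it | apply pd_Sm | apply pf_trc | apply pd_Clo | apply pd_Dep | apply pf_rs | apply pf_hh | apply pd_Spr | apply pd_Inj | apply pf_har | apply pd_Le | apply pf_fins | apply pf_card | apply pd_Bij | apply pd_Fini | apply pd_Big | apply pd_Ord | apply pd_Tr | apply pd_Ind | apply pf_succ | apply pf_funs | apply pf_prod | apply pf_lam | apply pd_Fn | apply pf_app | apply pf_ran | apply pf_dom | apply PF.img | apply PF.pow | apply PD.sub | apply PF.adj | apply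 PF.un | apply PF.sUn | apply PF.op | apply PF.pr | apply PF.sep | exact PF.var _ | exact PF.const _ | apply PD.eq | apply PD.mem | apply PD.not | apply PD.iff | apply PD.or | apply PD.and | apply PD.imp | apply PD.ex | apply PD.all | exact PD.const _ | assumption | refine PF.comp1 (F := _) (by assumption) ?_ | refine PF.comp2 (F := _) (by assumption) ?_ ?_ | refine PF.comp3 (F := _) (by assumption) ?_ ?_ ?_ | refine PD.app1 (R := _) (by assumption) ?_ | refine PD.app2 (R := _) (by assumption) ?_ ?_ | refine PD.app3 (R := _) (by assumption) ?_ ?_ ?_ | refine PD.app4 (R := _) (by assumption) ?_ ?_ ?_ ?_))) (by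
              intro j hj
              by_cases hij : i = j
              · exact ⟨emp, emp_mem_om, fun h => (h hij).elim⟩
              · obtain ⟨N, hN, h⟩ := hd i j hi hj hij l hl
                refine ⟨N, hN, fun _ m hm hNm => ?_⟩
                have h' := h m hm hNm
                rw [app_sit hm] at h'
                exact h')
          (fun j N N' _ _ _ hNN h hij m hm hN => h hij m hm (fun z hz => hN z (hNN z hz)))
        exact ⟨N, hN, fun j hj => h j hj⟩)
    (fun i N N' _ _ _ hNN h j hj hij m hm hN => h j hj hij m hm (fun z hz => hN z (hNN z hz)))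
  obtain ⟨N, hN, hN1', hN2'⟩ : ∃ N, SetStr.mem N om ∧ GA.sub N1 N ∧ GA.sub N2 N := by
    rcases (Ord.of_mem_om hN1).sub_or_mem (Ord.of_mem_om hN2) with h | h
    · exact ⟨N2, hN2, h, fun z hz => hz⟩
    · exact ⟨N1, hN1, fun z hz => hz, fun z hz => (Ord.of_mem_om hN1).trans h hz⟩
  have hbig : ∀ i, SetStr.mem i n → ¬ Sm I k (app (app f i) N) := fun i hi => h1 i hi N hN hN1'
  have hsml : ∀ i j, SetStr.mem i n → SetStr.mem j n → ¬ i = j →
      Sm I l (it (app (app f i) N) (app (app f j) N)) := fun i j hi hj hij => h2 i hi j hj hij N hN hN2'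
  have hclo : ∀ i, SetStr.mem i n → Clo I (app (app f i) N) := fun i hi => (mem_rmP.1 (hc i hi).1).1.1.2 N hN
  -- the intersections with the other sets
  let g : M → M → M := fun i j => sep (it (app (app f i) N) (app (app f j) N)) (fun _ => ¬ i = j)
  have hg : ∀ i j x, SetStr.mem x (g i j) ↔ (SetStr.mem x (app (app f i) N) ∧ SetStr.mem x (app (app f j) N)) ∧ ¬ i = j := by
    intro i j x
    show SetStr.mem x (sep _ _) ↔ _
    rw [mem_sep (by (repeat' (with_reducible first | apply pf_vals | apply pd_maxR | apply pf_rmO | apply pf_rmL | apply pf_rmP | apply pf_cls | apply pf_cst | apply pf_sdf | apply pf_sun | apply pf_sit | apply pd_Nul | apply pd_Cau | apply pd_EvB | apply pd_EvS | apply pd_Sq | apply pd_Fmem | apply pd_Feq | apply pd_WOd | apply pf_pfin | apply pd_Fun1 | apply pf_bit | apply pf_sd | apply pf_df | apply pf_it | apply pd_Sm | apply pf_trc | apply pd_Clo | apply pd_Dep | apply pf_rs | apply pf_hh | apply pd_Spr | apply pd_Inj | apply pf_har | apply pd_Le | apply pf_fins | apply pf_card | apply pd_Bij | apply pd_Fini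 | apply pd_Big | apply pd_Ord | apply pd_Tr | apply pd_Ind | apply pf_succ | apply pf_funs | apply pf_prod | apply pf_lam | apply pd_Fn | apply pf_app | apply pf_ran | apply pf_dom | apply PF.img | apply PF.pow | apply PD.sub | apply PF.adj | apply PF.un | apply PF.sUn | apply PF.op | apply PF.pr | apply PF.sep | exact PF.var _ | exact PF.const _ | apply PD.eq | apply PD.mem | apply PD.not | apply PD.iff | apply PD.or | apply PD.and | apply PD.imp | apply PD.ex | apply PD.all | exact PD.const _ | assumption | refine PF.comp1 (F := _) (by assumption) ?_ | refine PF.comp2 (F := _) (by assumption) ?_ ?_ | refine PF.comp3 (F := _) (by assumption) ?_ ?_ ?_ | refine PD.app1 (R := _) (by assumption) ?_ | refine PD.app2 (R := _) (by assumption) ?_ ?_ | refine PD.app3 (R := _) (by assumption) ?_ ?_ ?_ | refine PD.app4 (R := _) (by assumption) ?_ ?_ ?_ ?_))), mem_it]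
  have hpg : PF (fun v : ℕ → M => g (v 0) (v 1)) := by
    show PF (fun v : ℕ → M => sep (it (app (app f (v 0)) N) (app (app f (v 1)) N))
      (fun _ => ¬ v 0 = v 1))
    (repeat' (with_reducible first | apply pf_vals | apply pd_maxR | apply pf_rmO | apply pf_rmL | apply pf_rmP | apply pf_cls | apply pf_cst | apply pf_sdf | apply pf_sun | apply pf_sit | apply pd_Nul | apply pd_Cau | apply pd_EvB | apply pd_EvS | apply pd_Sq | apply pd_Fmem | apply pd_Feq | apply pd_WOd | apply pf_pfin | apply pd_Fun1 | apply pf_bit | apply pf_sd | apply pf_df | apply pf_it | apply pd_Sm | apply pf_trc | apply pd_Clo | apply pd_Dep | apply pf_rs | apply pf_hh | apply pd_Spr | apply pd_Inj | apply pf_har | apply pd_Le | apply pf_fins | apply pf_card | apply pd_Bij | apply pd_Fini | apply pd_Big | apply pd_Ord | apply pd_Tr | apply pd_Ind | apply pf_succ | apply pf_funs | apply pf_prod | apply pf_lam | apply pd_Fn | apply pf_app | apply pf_ran | apply pf_dom | apply PF.img | apply PF.pow | apply PD.sub | apply PF.adj | apply PF.un | apply PF.sUn | apply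 PF.op | apply PF.pr | apply PF.sep | exact PF.var _ | exact PF.const _ | apply PD.eq | apply PD.mem | apply PD.not | apply PD.iff | apply PD.or | apply PD.and | apply PD.imp | apply PD.ex | apply PD.all | exact PD.const _ | assumption | refine PF.comp1 (F := _) (by assumption) ?_ | refine PF.comp2 (F := _) (by assumption) ?_ ?_ | refine PF.comp3 (F := _) (by assumption) ?_ ?_ ?_ | refine PD.app1 (R := _) (by assumption) ?_ | refine PD.app2 (R := _) (by assumption) ?_ ?_ | refine PD.app3 (R := _) (by assumption) ?_ ?_ ?_ | refine PD.app4 (R := _) (by assumption) ?_ ?_ ?_ ?_))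
  have hpgi : ∀ i, PF (fun v : ℕ → M => g i (v 0)) := by
    intro i
    show PF (fun v : ℕ → M => sep (it (app (app f i) N) (app (app f (v 0)) N)) (fun _ => ¬ i = v 0))
    (repeat' (with_reducible first | apply pf_vals | apply pd_maxR | apply pf_rmO | apply pf_rmL | apply pf_rmP | apply pf_cls | apply pf_cst | apply pf_sdf | apply pf_sun | apply pf_sit | apply pd_Nul | apply pd_Cau | apply pd_EvB | apply pd_EvS | apply pd_Sq | apply pd_Fmem | apply pd_Feq | apply pd_WOd | apply pf_pfin | apply pd_Fun1 | apply pf_bit | apply pf_sd | apply pf_df | apply pf_it | apply pd_Sm | apply pf_trc | apply pd_Clo | apply pd_Dep | apply pf_rs | apply pf_hh | apply pd_Spr | apply pd_Inj | apply pf_har | apply pd_Le | apply pf_fins | apply pf_card | apply pd_Bij | apply pd_Fini | apply pd_Big | apply pd_Ord | apply pd_Tr | apply pd_Ind | apply pf_succ | apply pf_funs | apply pf_prod | apply pf_lam | apply pd_Fn | apply pf_app | apply pf_ran | apply pf_dom | apply PF.img | apply PF.pow | apply PD.sub | apply PF.adj | apply PF.un | apply PF.sUn | apply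 PF.op | apply PF.pr | apply PF.sep | exact PF.var _ | exact PF.const _ | apply PD.eq | apply PD.mem | apply PD.not | apply PD.iff | apply PD.or | apply PD.and | apply PD.imp | apply PD.ex | apply PD.all | exact PD.const _ | assumption | refine PF.comp1 (F := _) (by assumption) ?_ | refine PF.comp2 (F := _) (by assumption) ?_ ?_ | refine PF.comp3 (F := _) (by assumption) ?_ ?_ ?_ | refine PD.app1 (R := _) (by assumption) ?_ | refine PD.app2 (R := _) (by assumption) ?_ ?_ | refine PD.app3 (R := _) (by assumption) ?_ ?_ ?_ | refine PD.app4 (R := _) (by assumption) ?_ ?_ ?_ ?_))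
  have hgs : ∀ i j, SetStr.mem i n → SetStr.mem j n → Sm I l (g i j) := by
    intro i j hi hj
    by_cases hij : i = j
    · have : g i j = emp := by
        refine ext (fun x => ?_)
        rw [hg]
        exact ⟨fun h => (h.2 hij).elim, fun h => (not_mem_emp _ h).elim⟩
      rw [this]
      exact Sm.emp hl
    · have : g i j = it (app (app f i) N) (app (app f j) N) := by
        refine ext (fun x => ?_)
        rw [hg, mem_it]
        exact ⟨fun h => h.1, fun h => ⟨h, hij⟩⟩
      rw [this]
      exact hsml i j hi hj hij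
  have hU : ∀ i, SetStr.mem i n → Sm I (succ k) (sUn (ran (lam (g i) n))) := by
    intro i hi
    refine hun _ (lam_Fn (hpgi i) n) (fun j hj => ?_)
    rw [app_lam (hpgi i) hj]
    exact hgs i j hi hj
  have hmemU : ∀ i x, SetStr.mem x (sUn (ran (lam (g i) n))) ↔ ∃ j, SetStr.mem j n ∧ SetStr.mem x (g i j) := by
    intro i x
    rw [mem_sUn]
    constructor
    · rintro ⟨y, hy, hx⟩
      obtain ⟨j, hj, rfl⟩ := (lam_Fn (hpgi i) n).mem_ran.1 hy
      rw [app_lam (hpgi i) hj] at hx
      exact ⟨j, hj, hx⟩
    · rintro ⟨j, hj, hx⟩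
      refine ⟨g i j, (lam_Fn (hpgi i) n).mem_ran.2 ⟨j, hj, ?_⟩, hx⟩
      rw [app_lam (hpgi i) hj]
  have hpc : PF (fun v : ℕ → M => df (app (app f (v 0)) N)
      (sUn (ran (lam (g (v 0)) n)))) := by
    show PF (fun v : ℕ → M => df (app (app f (v 0)) N)
      (sUn (ran (lam (fun j => sep (it (app (app f (v 0)) N) (app (app f j) N))
        (fun _ => ¬ v 0 = j)) n))))
    (repeat' (with_reducible first | apply pf_vals | apply pd_maxR | apply pf_rmO | apply pf_rmL | apply pf_rmP | apply pf_cls | apply pf_cst | apply pf_sdf | apply pf_sun | apply pf_sit | apply pd_Nul | apply pd_Cau | apply pd_EvB | apply pd_EvS | apply pd_Sq | apply pd_Fmem | apply pd_Feq | apply pd_WOd | apply pf_pfin | apply pd_Fun1 | apply pf_bit | apply pf_sd | apply pf_df | apply pf_it | apply pd_Sm | apply pf_trc | apply pd_Clo | apply pd_Dep | apply pf_rs | apply pf_hh | apply pd_Spr | apply pd_Inj | apply pf_har | apply pd_Le | apply pf_fins | apply pf_card | apply pd_Bij | apply pd_Fini | apply pd_Big | apply pd_Ord | apply pd_Tr | apply pd_Ind | apply pf_succ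 | apply pf_funs | apply pf_prod | apply pf_lam | apply pd_Fn | apply pf_app | apply pf_ran | apply pf_dom | apply PF.img | apply PF.pow | apply PD.sub | apply PF.adj | apply PF.un | apply PF.sUn | apply PF.op | apply PF.pr | apply PF.sep | exact PF.var _ | exact PF.const _ | apply PD.eq | apply PD.mem | apply PD.not | apply PD.iff | apply PD.or | apply PD.and | apply PD.imp | apply PD.ex | apply PD.all | exact PD.const _ | assumption | refine PF.comp1 (F := _) (by assumption) ?_ | refine PF.comp2 (F := _) (by assumption) ?_ ?_ | refine PF.comp3 (F := _) (by assumption) ?_ ?_ ?_ | refine PD.app1 (R := _) (by assumption) ?_ | refine PD.app2 (R := _) (by assumption) ?_ ?_ | refine PD.app3 (R := _) (by assumption) ?_ ?_ ?_ | refine PD.app4 (R := _) (by assumption) ?_ ?_ ?_ ?_))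
  have happ : ∀ i, SetStr.mem i n → app (lam (fun i => df (app (app f i) N)
      (sUn (ran (lam (g i) n)))) n) i = df (app (app f i) N) (sUn (ran (lam (g i) n))) :=
    fun i hi => app_lam (F := fun i => df (app (app f i) N) (sUn (ran (lam (g i) n)))) hpc hi
  refine pack (I := I) hn hsk (f := lam (fun i => df (app (app f i) N)
      (sUn (ran (lam (g i) n)))) n) (lam_Fn hpc n) ?_ ?_
  · intro i hi
    rw [happ i hi]
    have hclo' := (hclo i hi).df (hU i hi).clo
    refine ⟨hclo', fun hs => hbig i hi ?_⟩
    refine Sm.mono hk (Sm.un hk hs (hU i hi)) (hclo i hi) (fun x hx => ?_)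
    rw [mem_un, mem_df]
    by_cases h : SetStr.mem x (sUn (ran (lam (g i) n)))
    · exact Or.inr h
    · exact Or.inl ⟨hx, h⟩
  · intro i j x hi hj hx hx'
    rw [happ i hi, mem_df] at hx
    rw [happ j hj, mem_df] at hx'
    by_contra hij
    exact hx.2 ((hmemU i x).2 ⟨j, hj, (hg i j x).2 ⟨⟨hx.1, hx'.1⟩, hij⟩⟩)

/-- MODULE d3 -/
theorem fini_vals {I p0 X Lam A x k : M} (hk : SetStr.mem k (om : M))
    (hA : FName (rmP I) (rmL I) p0 X Lam A) : Fini (vals I Lam A x k) := by
  by_contra hfin
  obtain ⟨n, hn, hnle⟩ := exists_not_le_funs (succ_mem_om hk)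
  obtain ⟨h, hh1, hh2, hh3⟩ := le_of_not_fini hfin hn
  obtain ⟨f, hf, hf2⟩ := fchoice hn (R := fun i p => SetStr.mem (op p (op x (app h i))) A ∧ EvB I k p) (by (repeat' (with_reducible first | apply pf_vals | apply pd_maxR | apply pf_rmO | apply pf_rmL | apply pf_rmP | apply pf_cls | apply pf_cst | apply pf_sdf | apply pf_sun | apply pf_sit | apply pd_Nul | apply pd_Cau | apply pd_EvB | apply pd_EvS | apply pd_Sq | apply pd_Fmem | apply pd_Feq | apply pd_WOd | apply pf_pfin | apply pd_Fun1 | apply pf_bit | apply pf_sd | apply pf_df | apply pf_it | apply pd_Sm | apply pf_trc | apply pd_Clo | apply pd_Dep | apply pf_rs | apply pf_hh | apply pd_Spr | apply pd_Inj | apply pf_har | apply pd_Le | apply pf_fins | apply pf_card | apply pd_Bij | apply pd_Fini | apply pd_Big | apply pd_Ord | apply pd_Tr | apply pd_Ind | apply pf_succ | apply pf_funs | apply pf_prod | apply pf_lam | apply pd_Fn | apply pf_app | apply pf_ran | apply pf_dom | apply PF.img | apply PF.pow | apply PD.sub | apply PF.adj | apply PF.un | apply PF.sUn | apply PF.op | apply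 PF.pr | apply PF.sep | exact PF.var _ | exact PF.const _ | apply PD.eq | apply PD.mem | apply PD.not | apply PD.iff | apply PD.or | apply PD.and | apply PD.imp | apply PD.ex | apply PD.all | exact PD.const _ | assumption | refine PF.comp1 (F := _) (by assumption) ?_ | refine PF.comp2 (F := _) (by assumption) ?_ ?_ | refine PF.comp3 (F := _) (by assumption) ?_ ?_ ?_ | refine PD.app1 (R := _) (by assumption) ?_ | refine PD.app2 (R := _) (by assumption) ?_ ?_ | refine PD.app3 (R := _) (by assumption) ?_ ?_ ?_ | refine PD.app4 (R := _) (by assumption) ?_ ?_ ?_ ?_)))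
    (fun i hi => (mem_vals.1 (hh2 i hi)).2)
  have hF := isForcing_rm I
  refine hnle (packC (I := I) hn hk hf (fun i hi => ⟨?_, (hf2 i hi).2⟩) (fun i j hi hj hij => ?_))
  · exact (hF.fld _ _ (hA.fld _ _ _ (hf2 i hi).1).1).1
  · exact nul_of_ne hA (hf2 i hi).1 (hf2 j hj).1 (fun h => hij (hh3 i j hi hj h))

/-- MODULE d4 -/
theorem covP_rm (I : M) : CovP (rmP I) (rmL I) := by
  intro p0 X l A hl hA
  have hF := isForcing_rm I
  rcases hl.zero_or_pos with h0 | h0
  · have hX : ∀ x, ¬ SetStr.mem x X := by
      intro x hx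
      obtain ⟨q, ξ, -, h2⟩ := hA.tot p0 x (hF.refl p0 hA.top) hx
      have h3 := (hA.fld _ _ _ h2).2.2
      rw [h0] at h3
      exact not_mem_emp _ h3
    exact ⟨lam (fun _ => emp) X, lam_Fn (by (repeat' (with_reducible first | apply pf_vals | apply pd_maxR | apply pf_rmO | apply pf_rmL | apply pf_rmP | apply pf_cls | apply pf_cst | apply pf_sdf | apply pf_sun | apply pf_sit | apply pd_Nul | apply pd_Cau | apply pd_EvB | apply pd_EvS | apply pd_Sq | apply pd_Fmem | apply pd_Feq | apply pd_WOd | apply pf_pfin | apply pd_Fun1 | apply pf_bit | apply pf_sd | apply pf_df | apply pf_it | apply pd_Sm | apply pf_trc | apply pd_Clo | apply pd_Dep | apply pf_rs | apply pf_hh | apply pd_Spr | apply pd_Inj | apply pf_har | apply pd_Le | apply pf_fins | apply pf_card | apply pd_Bij | apply pd_Fini | apply pd_Big | apply pd_Ord | apply pd_Tr | apply pd_Ind | apply pf_succ | apply pf_funs | apply pf_prod | apply pf_lam | apply pd_Fn | apply pf_app | apply pf_ran | apply pf_dom | apply PF.img | apply PF.pow | apply PD.sub | apply PF.adj | apply PF.un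 | apply PF.sUn | apply PF.op | apply PF.pr | apply PF.sep | exact PF.var _ | exact PF.const _ | apply PD.eq | apply PD.mem | apply PD.not | apply PD.iff | apply PD.or | apply PD.and | apply PD.imp | apply PD.ex | apply PD.all | exact PD.const _ | assumption | refine PF.comp1 (F := _) (by assumption) ?_ | refine PF.comp2 (F := _) (by assumption) ?_ ?_ | refine PF.comp3 (F := _) (by assumption) ?_ ?_ ?_ | refine PD.app1 (R := _) (by assumption) ?_ | refine PD.app2 (R := _) (by assumption) ?_ ?_ | refine PD.app3 (R := _) (by assumption) ?_ ?_ ?_ | refine PD.app4 (R := _) (by assumption) ?_ ?_ ?_ ?_))) X, fun x hx => (hX x hx).elim,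
      fun p x ξ hp => (hX x (hA.fld _ _ _ hp).2.1).elim⟩
  · have hv : ∀ x, SetStr.mem x X →
        SetStr.mem (app (lam (fun x => lam (fun k => vals I l A x k) om) X) x) (funs om (fins l)) := by
      intro x hx
      rw [app_lam (by (repeat' (with_reducible first | apply pf_vals | apply pd_maxR | apply pf_rmO | apply pf_rmL | apply pf_rmP | apply pf_cls | apply pf_cst | apply pf_sdf | apply pf_sun | apply pf_sit | apply pd_Nul | apply pd_Cau | apply pd_EvB | apply pd_EvS | apply pd_Sq | apply pd_Fmem | apply pd_Feq | apply pd_WOd | apply pf_pfin | apply pd_Fun1 | apply pf_bit | apply pf_sd | apply pf_df | apply pf_it | apply pd_Sm | apply pf_trc | apply pd_Clo | apply pd_Dep | apply pf_rs | apply pf_hh | apply pd_Spr | apply pd_Inj | apply pf_har | apply pd_Le | apply pf_fins | apply pf_card | apply pd_Bij | apply pd_Fini | apply pd_Big | apply pd_Ord | apply pd_Tr | apply pd_Ind | apply pf_succ | apply pf_funs | apply pf_prod | apply pf_lam | apply pd_Fn | apply pf_app | apply pf_ran | apply pf_dom | apply PF.img | apply PF.pow |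 apply PD.sub | apply PF.adj | apply PF.un | apply PF.sUn | apply PF.op | apply PF.pr | apply PF.sep | exact PF.var _ | exact PF.const _ | apply PD.eq | apply PD.mem | apply PD.not | apply PD.iff | apply PD.or | apply PD.and | apply PD.imp | apply PD.ex | apply PD.all | exact PD.const _ | assumption | refine PF.comp1 (F := _) (by assumption) ?_ | refine PF.comp2 (F := _) (by assumption) ?_ ?_ | refine PF.comp3 (F := _) (by assumption) ?_ ?_ ?_ | refine PD.app1 (R := _) (by assumption) ?_ | refine PD.app2 (R := _) (by assumption) ?_ ?_ | refine PD.app3 (R := _) (by assumption) ?_ ?_ ?_ | refine PD.app4 (R := _) (by assumption) ?_ ?_ ?_ ?_))) hx]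
      refine mem_funs.2 ⟨lam_Fn (by (repeat' (with_reducible first | apply pf_vals | apply pd_maxR | apply pf_rmO | apply pf_rmL | apply pf_rmP | apply pf_cls | apply pf_cst | apply pf_sdf | apply pf_sun | apply pf_sit | apply pd_Nul | apply pd_Cau | apply pd_EvB | apply pd_EvS | apply pd_Sq | apply pd_Fmem | apply pd_Feq | apply pd_WOd | apply pf_pfin | apply pd_Fun1 | apply pf_bit | apply pf_sd | apply pf_df | apply pf_it | apply pd_Sm | apply pf_trc | apply pd_Clo | apply pd_Dep | apply pf_rs | apply pf_hh | apply pd_Spr | apply pd_Inj | apply pf_har | apply pd_Le | apply pf_fins | apply pf_card | apply pd_Bij | apply pd_Fini | apply pd_Big | apply pd_Ord | apply pd_Tr | apply pd_Ind | apply pf_succ | apply pf_funs | apply pf_prod | apply pf_lam | apply pd_Fn | apply pf_app | apply pf_ran | apply pf_dom | apply PF.img | apply PF.pow | apply PD.sub | apply PF.adj | apply PF.un | apply PF.sUn | apply PF.op | apply PF.pr | apply PF.sep | exact PF.var _ | exact PF.const _ | apply PD.eq | apply PD.mem | apply PD.not | apply PD.iff | apply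 PD.or | apply PD.and | apply PD.imp | apply PD.ex | apply PD.all | exact PD.const _ | assumption | refine PF.comp1 (F := _) (by assumption) ?_ | refine PF.comp2 (F := _) (by assumption) ?_ ?_ | refine PF.comp3 (F := _) (by assumption) ?_ ?_ ?_ | refine PD.app1 (R := _) (by assumption) ?_ | refine PD.app2 (R := _) (by assumption) ?_ ?_ | refine PD.app3 (R := _) (by assumption) ?_ ?_ ?_ | refine PD.app4 (R := _) (by assumption) ?_ ?_ ?_ ?_))) _, fun k hk => ?_⟩
      rw [app_lam (by (repeat' (with_reducible first | apply pf_vals | apply pd_maxR | apply pf_rmO | apply pf_rmL | apply pf_rmP | apply pf_cls | apply pf_cst | apply pf_sdf | apply pf_sun | apply pf_sit | apply pd_Nul | apply pd_Cau | apply pd_EvB | apply pd_EvS | apply pd_Sq | apply pd_Fmem | apply pd_Feq | apply pd_WOd | apply pf_pfin | apply pd_Fun1 | apply pf_bit | apply pf_sd | apply pf_df | apply pf_it | apply pd_Sm | apply pf_trc | apply pd_Clo | apply pd_Dep | apply pf_rs | apply pf_hh | apply pd_Spr | apply pd_Inj | apply pf_har | apply pd_Le | apply pf_fins | apply pf_card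 | apply pd_Bij | apply pd_Fini | apply pd_Big | apply pd_Ord | apply pd_Tr | apply pd_Ind | apply pf_succ | apply pf_funs | apply pf_prod | apply pf_lam | apply pd_Fn | apply pf_app | apply pf_ran | apply pf_dom | apply PF.img | apply PF.pow | apply PD.sub | apply PF.adj | apply PF.un | apply PF.sUn | apply PF.op | apply PF.pr | apply PF.sep | exact PF.var _ | exact PF.const _ | apply PD.eq | apply PD.mem | apply PD.not | apply PD.iff | apply PD.or | apply PD.and | apply PD.imp | apply PD.ex | apply PD.all | exact PD.const _ | assumption | refine PF.comp1 (F := _) (by assumption) ?_ | refine PF.comp2 (F := _) (by assumption) ?_ ?_ | refine PF.comp3 (F := _) (by assumption) ?_ ?_ ?_ | refine PD.app1 (R := _) (by assumption) ?_ | refine PD.app2 (R := _) (by assumption) ?_ ?_ | refine PD.app3 (R := _) (by assumption) ?_ ?_ ?_ | refine PD.app4 (R := _) (by assumption) ?_ ?_ ?_ ?_))) hk, mem_fins]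
      exact ⟨fun ξ hξ => (mem_vals.1 hξ).1, fini_vals hk hA⟩
    obtain ⟨E, hE1, hE2, hE3⟩ := cover_seq hl h0
      (lam_Fn (F := fun x => lam (fun k => vals I l A x k) om) (by (repeat' (with_reducible first | apply pf_vals | apply pd_maxR | apply pf_rmO | apply pf_rmL | apply pf_rmP | apply pf_cls | apply pf_cst | apply pf_sdf | apply pf_sun | apply pf_sit | apply pd_Nul | apply pd_Cau | apply pd_EvB | apply pd_EvS | apply pd_Sq | apply pd_Fmem | apply pd_Feq | apply pd_WOd | apply pf_pfin | apply pd_Fun1 | apply pf_bit | apply pf_sd | apply pf_df | apply pf_it | apply pd_Sm | apply pf_trc | apply pd_Clo | apply pd_Dep | apply pf_rs | apply pf_hh | apply pd_Spr | apply pd_Inj | apply pf_har | apply pd_Le | apply pf_fins | apply pf_card | apply pd_Bij | apply pd_Fini | apply pd_Big | apply pd_Ord | apply pd_Tr | apply pd_Ind | apply pf_succ | apply pf_funs | apply pf_prod | apply pf_lam | apply pd_Fn | apply pf_app | apply pf_ran | apply pf_dom | apply PF.img | apply PF.pow | apply PD.sub | apply PF.adj | apply PF.un | apply PF.sUn |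 apply PF.op | apply PF.pr | apply PF.sep | exact PF.var _ | exact PF.const _ | apply PD.eq | apply PD.mem | apply PD.not | apply PD.iff | apply PD.or | apply PD.and | apply PD.imp | apply PD.ex | apply PD.all | exact PD.const _ | assumption | refine PF.comp1 (F := _) (by assumption) ?_ | refine PF.comp2 (F := _) (by assumption) ?_ ?_ | refine PF.comp3 (F := _) (by assumption) ?_ ?_ ?_ | refine PD.app1 (R := _) (by assumption) ?_ | refine PD.app2 (R := _) (by assumption) ?_ ?_ | refine PD.app3 (R := _) (by assumption) ?_ ?_ ?_ | refine PD.app4 (R := _) (by assumption) ?_ ?_ ?_ ?_))) X) hv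
    refine ⟨E, hE1, hE2, fun p x ξ hp => ?_⟩
    have hx : SetStr.mem x X := (hA.fld _ _ _ hp).2.1
    have hp' : SetStr.mem p (rmP I) := (hF.fld _ _ (hA.fld _ _ _ hp).1).1
    obtain ⟨k, hk, hB⟩ := (mem_rmP.1 hp').1.pos (mem_rmP.1 hp').2
    refine hE3 x k ξ hx hk ?_
    rw [app_lam (by (repeat' (with_reducible first | apply pf_vals | apply pd_maxR | apply pf_rmO | apply pf_rmL | apply pf_rmP | apply pf_cls | apply pf_cst | apply pf_sdf | apply pf_sun | apply pf_sit | apply pd_Nul | apply pd_Cau | apply pd_EvB | apply pd_EvS | apply pd_Sq | apply pd_Fmem | apply pd_Feq | apply pd_WOd | apply pf_pfin | apply pd_Fun1 | apply pf_bit | apply pf_sd | apply pf_df | apply pf_it | apply pd_Sm | apply pf_trc | apply pd_Clo | apply pd_Dep | apply pf_rs | apply pf_hh | apply pd_Spr | apply pd_Inj | apply pf_har | apply pd_Le | apply pf_fins | apply pf_card | apply pd_Bij | apply pd_Fini | apply pd_Big | apply pd_Ord | apply pd_Tr | apply pd_Ind | apply pf_succ | apply pf_funs | apply pf_prod | apply pf_lam | apply pd_Fn | apply pf_app | apply pf_ran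 | apply pf_dom | apply PF.img | apply PF.pow | apply PD.sub | apply PF.adj | apply PF.un | apply PF.sUn | apply PF.op | apply PF.pr | apply PF.sep | exact PF.var _ | exact PF.const _ | apply PD.eq | apply PD.mem | apply PD.not | apply PD.iff | apply PD.or | apply PD.and | apply PD.imp | apply PD.ex | apply PD.all | exact PD.const _ | assumption | refine PF.comp1 (F := _) (by assumption) ?_ | refine PF.comp2 (F := _) (by assumption) ?_ ?_ | refine PF.comp3 (F := _) (by assumption) ?_ ?_ ?_ | refine PD.app1 (R := _) (by assumption) ?_ | refine PD.app2 (R := _) (by assumption) ?_ ?_ | refine PD.app3 (R := _) (by assumption) ?_ ?_ ?_ | refine PD.app4 (R := _) (by assumption) ?_ ?_ ?_ ?_))) hx, app_lam (by (repeat' (with_reducible first | apply pf_vals | apply pd_maxR | apply pf_rmO | apply pf_rmL | apply pf_rmP | apply pf_cls | apply pf_cst | apply pf_sdf | apply pf_sun | apply pf_sit | apply pd_Nul | apply pd_Cau | apply pd_EvB | apply pd_EvS | apply pd_Sq | apply pd_Fmem | apply pd_Feq | apply pd_WOd | apply pf_pfin | apply pd_Fun1 | apply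 pf_bit | apply pf_sd | apply pf_df | apply pf_it | apply pd_Sm | apply pf_trc | apply pd_Clo | apply pd_Dep | apply pf_rs | apply pf_hh | apply pd_Spr | apply pd_Inj | apply pf_har | apply pd_Le | apply pf_fins | apply pf_card | apply pd_Bij | apply pd_Fini | apply pd_Big | apply pd_Ord | apply pd_Tr | apply pd_Ind | apply pf_succ | apply pf_funs | apply pf_prod | apply pf_lam | apply pd_Fn | apply pf_app | apply pf_ran | apply pf_dom | apply PF.img | apply PF.pow | apply PD.sub | apply PF.adj | apply PF.un | apply PF.sUn | apply PF.op | apply PF.pr | apply PF.sep | exact PF.var _ | exact PF.const _ | apply PD.eq | apply PD.mem | apply PD.not | apply PD.iff | apply PD.or | apply PD.and | apply PD.imp | apply PD.ex | apply PD.all | exact PD.const _ | assumption | refine PF.comp1 (F := _) (by assumption) ?_ | refine PF.comp2 (F := _) (by assumption) ?_ ?_ | refine PF.comp3 (F := _) (by assumption) ?_ ?_ ?_ | refine PD.app1 (R := _) (by assumption) ?_ | refine PD.app2 (R := _) (by assumption) ?_ ?_ | refine PD.app3 (R := _) (by assumption)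 ?_ ?_ ?_ | refine PD.app4 (R := _) (by assumption) ?_ ?_ ?_ ?_))) hk]
    exact mem_vals.2 ⟨(hA.fld _ _ _ hp).2.2, p, hp, hB⟩

end GA
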