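import Pool.Agent.GA.Eqv
import Pool.Agent.GA.Card

/-!
# Uniform definability over all models of ZF

`DZ P`: the family `P` of predicates of environments, one for every model of ZF (in the universe `u`),
is given by ONE formula of the language of set theory.  `FZ f`: the same for functions.
Both are classes; their rules are instances, so that side goals are closed by `infer_instance`.
-/

universe u

namespace GA

open FirstOrder FirstOrder.Language

/-- Models of ZF, bundled. -/
structure ZFM : Type (u + 1) where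
  /-- the underlying type -/
  carrier : Type u
  /-- the membership relation -/
  [str : SetStr carrier]
  /-- the axioms hold -/
  [zf : IsZF carrier]

attribute [instance] ZFM.str ZFM.zf

/-- The family `P` of predicates is given by one formula in all models of ZF. -/
class DZ (P : ∀ i : ZFM.{u}, (ℕ → i.carrier) → Prop) : Prop where
  out : ∃ φ : LST.Formula ℕ, ∀ (i : ZFM.{u}) (v : ℕ → i.carrier), φ.Realize v ↔ P i v

/-- The family `f` of functions is given by one formula in all models of ZF. -/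
class FZ (f : ∀ i : ZFM.{u}, (ℕ → i.carrier) → i.carrier) : Prop where
  out : DZ (fun (i : ZFM.{u}) (v : ℕ → i.carrier) => v 0 = f i (fun k => v (k + 1)))

theorem DZ.of_iff {P Q : ∀ i : ZFM.{u}, (ℕ → i.carrier) → Prop} (hP : DZ P)
    (h : ∀ i v, P i v ↔ Q i v) : DZ Q := by
  obtain ⟨φ, hφ⟩ := hP
  exact ⟨φ, fun i v => (hφ i v).trans (h i v)⟩

instance DZ.not {P : ∀ i : ZFM.{u}, (ℕ → i.carrier) → Prop} [hP : DZ P] :
    DZ (fun i v => ¬ P i v) := by
  obtain ⟨φ, hφ⟩ := hP
  exact ⟨φ.not, fun i v => by rw [Formula.realize_not, hφ]⟩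

instance DZ.and {P Q : ∀ i : ZFM.{u}, (ℕ → i.carrier) → Prop} [hP : DZ P] [hQ : DZ Q] :
    DZ (fun i v => P i v ∧ Q i v) := by
  obtain ⟨φ, hφ⟩ := hP
  obtain ⟨ψ, hψ⟩ := hQ
  exact ⟨φ ⊓ ψ, fun i v => by rw [Formula.realize_inf, hφ, hψ]⟩

instance DZ.or {P Q : ∀ i : ZFM.{u}, (ℕ → i.carrier) → Prop} [hP : DZ P] [hQ : DZ Q] :
    DZ (fun i v => P i v ∨ Q i v) := by
  obtain ⟨φ, hφ⟩ := hP
  obtain ⟨ψ, hψ⟩ := hQ
  exact ⟨φ ⊔ ψ, fun i v => by rw [Formula.realize_sup, hφ, hψ]⟩

instance DZ.imp {P Q : ∀ i : ZFM.{u}, (ℕ → i.carrier) → Prop} [hP : DZ P] [hQ : DZ Q] :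
    DZ (fun i v => P i v → Q i v) := by
  obtain ⟨φ, hφ⟩ := hP
  obtain ⟨ψ, hψ⟩ := hQ
  exact ⟨φ.imp ψ, fun i v => by rw [Formula.realize_imp, hφ, hψ]⟩

instance DZ.iff {P Q : ∀ i : ZFM.{u}, (ℕ → i.carrier) → Prop} [hP : DZ P] [hQ : DZ Q] :
    DZ (fun i v => (P i v ↔ Q i v)) := by
  obtain ⟨φ, hφ⟩ := hP
  obtain ⟨ψ, hψ⟩ := hQ
  exact ⟨φ.iff ψ, fun i v => by rw [Formula.realize_iff, hφ, hψ]⟩

theorem DZ.true : DZ (fun (i : ZFM.{u}) (_ : ℕ → i.carrier) => True) :=
  ⟨⊤, fun _ _ => by simp⟩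

theorem DZ.false : DZ (fun (i : ZFM.{u}) (_ : ℕ → i.carrier) => False) :=
  ⟨⊥, fun _ _ => by simp⟩

instance DZ.const (p : Prop) : DZ (fun (i : ZFM.{u}) (_ : ℕ → i.carrier) => p) := by
  by_cases hp : p
  · exact DZ.true.of_iff (fun _ _ => by simp [hp])
  · exact DZ.false.of_iff (fun _ _ => by simp [hp])

/-- Renaming of variables. -/
theorem DZ.subst {P : ∀ i : ZFM.{u}, (ℕ → i.carrier) → Prop} (hP : DZ P) (σ : ℕ → ℕ) :
    DZ (fun i v => P i (fun k => v (σ k))) := by
  obtain ⟨φ, hφ⟩ := hP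
  refine ⟨φ.relabel σ, fun i v => ?_⟩
  rw [Formula.realize_relabel]
  exact hφ i _

instance DZ.all {P : ∀ i : ZFM.{u}, i.carrier → (ℕ → i.carrier) → Prop}
    [hP : DZ (fun i v => P i (v 0) (fun k => v (k + 1)))] : DZ (fun i v => ∀ x, P i x v) := by
  obtain ⟨φ, hφ⟩ := hP
  let g : ℕ → ℕ ⊕ Unit := fun k => match k with
      | 0 => Sum.inr ()
      | k + 1 => Sum.inl k
  refine ⟨(φ.relabel g).iAlls Unit, fun i v => ?_⟩
  rw [Formula.realize_iAlls]
  have key : ∀ x : Unit → i.carrier, (Sum.elim v x ∘ g : ℕ → i.carrier) = cons (x ()) v := by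
    intro x
    funext k
    cases k <;> rfl
  constructor
  · intro h x
    have := h (fun _ => x)
    rw [Formula.realize_relabel, key, hφ] at this
    exact this
  · intro h x
    rw [Formula.realize_relabel, key, hφ]
    exact h (x ())

instance DZ.ex {P : ∀ i : ZFM.{u}, i.carrier → (ℕ → i.carrier) → Prop}
    [hP : DZ (fun i v => P i (v 0) (fun k => v (k + 1)))] : DZ (fun i v => ∃ x, P i x v) := by
  have h1 : DZ (fun (i : ZFM.{u}) (v : ℕ → i.carrier) => ¬ ∀ x, ¬ P i x v) := by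
    infer_instance
  exact h1.of_iff (fun i v => by push Not; rfl)

instance FZ.var (j : ℕ) : FZ (fun (i : ZFM.{u}) (v : ℕ → i.carrier) => v j) := by
  refine ⟨⟨(Term.var 0).equal (Term.var (j + 1)), fun i v => ?_⟩⟩
  rw [Formula.realize_equal]
  rfl

theorem DZ.mem_var (j k : ℕ) : DZ (fun (i : ZFM.{u}) (v : ℕ → i.carrier) => SetStr.mem (v j) (v k)) := by
  refine ⟨Relations.formula₂ memSym (Term.var j) (Term.var k), fun i v => ?_⟩
  rw [Formula.realize_rel₂]
  rfl

theorem DZ.eq_var (j k : ℕ) : DZ (fun (i : ZFM.{u}) (v : ℕ → i.carrier) => v j = v k) := by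
  refine ⟨(Term.var j).equal (Term.var k), fun i v => ?_⟩
  rw [Formula.realize_equal]
  rfl

/-- Substitution of one function: the value is put in front of the environment. -/
theorem DZ.comp1 {P : ∀ i : ZFM.{u}, i.carrier → (ℕ → i.carrier) → Prop}
    (hP : DZ (fun i v => P i (v 0) (fun k => v (k + 1))))
    {f : ∀ i : ZFM.{u}, (ℕ → i.carrier) → i.carrier} (hf : FZ f) : DZ (fun i v => P i (f i v) v) := by
  have h0 := hf.out
  have h : DZ (fun (i : ZFM.{u}) (v : ℕ → i.carrier) => ∃ x, x = f i v ∧ P i x v) := DZ.ex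
  exact h.of_iff (fun i v => by simp)

/-- Weakening: forget the first `k` variables. -/
theorem DZ.weaken {P : ∀ i : ZFM.{u}, (ℕ → i.carrier) → Prop} (hP : DZ P) (k : ℕ) :
    DZ (fun i v => P i (fun j => v (j + k))) :=
  hP.subst (fun j => j + k)

theorem FZ.weaken {f : ∀ i : ZFM.{u}, (ℕ → i.carrier) → i.carrier} (hf : FZ f) (k : ℕ) :
    FZ (fun i v => f i (fun j => v (j + k))) := by
  have := DZ.subst hf.out (fun i => match i with
    | 0 => 0
    | i + 1 => i + k + 1)
  exact ⟨this⟩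

section app

variable {f g h k : ∀ i : ZFM.{u}, (ℕ → i.carrier) → i.carrier}

theorem DZ.app1 {R : ∀ i : ZFM.{u}, i.carrier → Prop} (hR : DZ (fun i v => R i (v 0)))
    (hf : FZ f) : DZ (fun i v => R i (f i v)) :=
  DZ.comp1 (P := fun i x _ => R i x) hR hf

theorem DZ.app2 {R : ∀ i : ZFM.{u}, i.carrier → i.carrier → Prop}
    (hR : DZ (fun i v => R i (v 0) (v 1))) (hf : FZ f) (hg : FZ g) :
    DZ (fun i v => R i (f i v) (g i v)) := by
  refine DZ.comp1 (P := fun i x v => R i x (g i v)) ?_ hf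
  have h2 : DZ (fun (i : ZFM.{u}) (v : ℕ → i.carrier) => R i (v 1) (v 0)) := by
    have := hR.subst (fun i => match i with
      | 0 => 1
      | 1 => 0
      | i + 2 => i + 2)
    exact this
  exact DZ.comp1 (P := fun i y v => R i (v 0) y) h2 (hg.weaken 1)

theorem DZ.app3 {R : ∀ i : ZFM.{u}, i.carrier → i.carrier → i.carrier → Prop}
    (hR : DZ (fun i v => R i (v 0) (v 1) (v 2))) (hf : FZ f) (hg : FZ g) (hh : FZ h) :
    DZ (fun i v => R i (f i v) (g i v) (h i v)) := by
  have h3 : DZ (fun (i : ZFM.{u}) (v : ℕ → i.carrier) => R i (v 2) (v 1) (v 0)) := by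
    have := hR.subst (fun i => match i with
      | 0 => 2
      | 1 => 1
      | 2 => 0
      | i + 3 => i + 3)
    exact this
  have h4 : DZ (fun (i : ZFM.{u}) (v : ℕ → i.carrier) =>
      R i (v 1) (v 0) (h i (fun k => v (k + 2)))) :=
    DZ.comp1 (P := fun i y v => R i (v 1) (v 0) y) h3 (hh.weaken 2)
  have h5 : DZ (fun (i : ZFM.{u}) (v : ℕ → i.carrier) => R i (v 0) (g i (fun k => v (k + 1)))
      (h i (fun k => v (k + 1)))) :=
    DZ.comp1 (P := fun i y v => R i (v 0) y (h i (fun k => v (k + 1)))) h4 (hg.weaken 1)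
  exact DZ.comp1 (P := fun i y v => R i y (g i v) (h i v)) h5 hf

theorem DZ.app4 {R : ∀ i : ZFM.{u}, i.carrier → i.carrier → i.carrier → i.carrier → Prop}
    (hR : DZ (fun i v => R i (v 0) (v 1) (v 2) (v 3))) (hf : FZ f) (hg : FZ g) (hh : FZ h)
    (hk : FZ k) : DZ (fun i v => R i (f i v) (g i v) (h i v) (k i v)) := by
  have h3 : DZ (fun (i : ZFM.{u}) (v : ℕ → i.carrier) => R i (v 3) (v 2) (v 1) (v 0)) := by
    have := hR.subst (fun i => match i with
      | 0 => 3
      | 1 => 2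
      | 2 => 1
      | 3 => 0
      | i + 4 => i + 4)
    exact this
  have h4 : DZ (fun (i : ZFM.{u}) (v : ℕ → i.carrier) =>
      R i (v 2) (v 1) (v 0) (k i (fun j => v (j + 3)))) :=
    DZ.comp1 (P := fun i y v => R i (v 2) (v 1) (v 0) y) h3 (hk.weaken 3)
  have h5 : DZ (fun (i : ZFM.{u}) (v : ℕ → i.carrier) =>
      R i (v 1) (v 0) (h i (fun j => v (j + 2))) (k i (fun j => v (j + 2)))) :=
    DZ.comp1 (P := fun i y v => R i (v 1) (v 0) y (k i (fun j => v (j + 2)))) h4 (hh.weaken 2)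
  have h6 : DZ (fun (i : ZFM.{u}) (v : ℕ → i.carrier) => R i (v 0) (g i (fun j => v (j + 1)))
      (h i (fun j => v (j + 1))) (k i (fun j => v (j + 1)))) :=
    DZ.comp1 (P := fun i y v => R i (v 0) y (h i (fun j => v (j + 1))) (k i (fun j => v (j + 1))))
      h5 (hg.weaken 1)
  exact DZ.comp1 (P := fun i y v => R i y (g i v) (h i v) (k i v)) h6 hf

instance DZ.mem [hf : FZ f] [hg : FZ g] : DZ (fun i v => SetStr.mem (f i v) (g i v)) :=
  DZ.app2 (R := fun _ x y => SetStr.mem x y) (DZ.mem_var 0 1) hf hg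

instance DZ.eq [hf : FZ f] [hg : FZ g] : DZ (fun i v => f i v = g i v) :=
  DZ.app2 (R := fun _ x y => x = y) (DZ.eq_var 0 1) hf hg

theorem FZ.app1 {F : ∀ i : ZFM.{u}, i.carrier → i.carrier} (hF : FZ (fun i v => F i (v 0)))
    (hf : FZ f) : FZ (fun i v => F i (f i v)) :=
  ⟨DZ.app2 (R := fun i x y => x = F i y) hF.out (FZ.var 0) (hf.weaken 1)⟩

theorem FZ.app2 {F : ∀ i : ZFM.{u}, i.carrier → i.carrier → i.carrier}
    (hF : FZ (fun i v => F i (v 0) (v 1))) (hf : FZ f) (hg : FZ g) :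
    FZ (fun i v => F i (f i v) (g i v)) :=
  ⟨DZ.app3 (R := fun i x y z => x = F i y z) hF.out (FZ.var 0) (hf.weaken 1) (hg.weaken 1)⟩

theorem FZ.app3 {F : ∀ i : ZFM.{u}, i.carrier → i.carrier → i.carrier → i.carrier}
    (hF : FZ (fun i v => F i (v 0) (v 1) (v 2))) (hf : FZ f) (hg : FZ g) (hh : FZ h) :
    FZ (fun i v => F i (f i v) (g i v) (h i v)) :=
  ⟨DZ.app4 (R := fun i x y z w => x = F i y z w) hF.out (FZ.var 0) (hf.weaken 1) (hg.weaken 1)
    (hh.weaken 1)⟩

end app

/-- A formula with its variables renamed. -/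
theorem DZ.form {β : Type} (φ : LST.Formula β) (σ : β → ℕ) :
    DZ (fun (i : ZFM.{u}) (v : ℕ → i.carrier) => φ.Realize (fun j => v (σ j))) :=
  ⟨φ.relabel σ, fun i v => by rw [Formula.realize_relabel]; rfl⟩

/-- A sentence. -/
theorem DZ.sentence (φ : LST.Sentence) :
    DZ (fun (i : ZFM.{u}) (_ : ℕ → i.carrier) => i.carrier ⊨ φ) := by
  refine (DZ.form φ (fun e : Empty => (e.elim : ℕ))).of_iff (fun i v => ?_)
  unfold Sentence.Realize
  have h1 : (fun j : Empty => v (j.elim : ℕ)) = (default : Empty → i.carrier) :=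
    Subsingleton.elim _ _
  rw [h1]

/-- A closed uniformly definable statement is expressed by one sentence. -/
theorem DZ.exists_sentence {P : ZFM.{u} → Prop}
    (hP : DZ (fun (i : ZFM.{u}) (_ : ℕ → i.carrier) => P i)) :
    ∃ φ : LST.Sentence, ∀ i : ZFM.{u}, i.carrier ⊨ φ ↔ P i := by
  obtain ⟨φ, hφ⟩ := hP
  refine ⟨(φ.relabel (fun _ : ℕ => (Sum.inr () : Empty ⊕ Unit))).iAlls Unit, fun i => ?_⟩
  unfold Sentence.Realize
  rw [Formula.realize_iAlls]
  constructor
  · intro h
    obtain ⟨x⟩ := (inferInstance : Nonempty i.carrier)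
    have := h (fun _ => x)
    rw [Formula.realize_relabel, hφ] at this
    exact this
  · intro h x
    rw [Formula.realize_relabel, hφ]
    exact h

/-- Uniformly definable predicates are definable in each model. -/
theorem DZ.pd {P : ∀ i : ZFM.{u}, (ℕ → i.carrier) → Prop} (hP : DZ P) (i : ZFM.{u}) :
    PD (P i) := by
  obtain ⟨φ, hφ⟩ := hP
  refine ⟨φ.relabel Sum.inr, fun v => ?_⟩
  rw [Formula.realize_relabel]
  exact hφ i v

theorem FZ.pf {f : ∀ i : ZFM.{u}, (ℕ → i.carrier) → i.carrier} (hf : FZ f) (i : ZFM.{u}) :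
    PF (f i) :=
  hf.out.pd i

/-- Uniformly definable predicates of one variable, with parameters. -/
theorem DZ.pd1 {P : ∀ i : ZFM.{u}, i.carrier → (ℕ → i.carrier) → Prop}
    (hP : DZ (fun i v => P i (v 0) (fun k => v (k + 1)))) (i : ZFM.{u}) (v : ℕ → i.carrier) :
    PD (fun w : ℕ → i.carrier => P i (w 0) v) := by
  have := (hP.pd i).subst (fun k => match k with
    | 0 => Sum.inr 0
    | k + 1 => Sum.inl (v k))
  exact this

theorem FZ.pf1 {F : ∀ i : ZFM.{u}, i.carrier → (ℕ → i.carrier) → i.carrier}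
    (hF : FZ (fun i v => F i (v 0) (fun k => v (k + 1)))) (i : ZFM.{u}) (v : ℕ → i.carrier) :
    PF (fun w : ℕ → i.carrier => F i (w 0) v) := by
  have := PD.subst (hF.pf i) (fun k => match k with
    | 0 => Sum.inr 0
    | 1 => Sum.inr 1
    | k + 2 => Sum.inl (v k))
  exact this

/-- A function given by a uniformly definable graph. -/
theorem FZ.of_unique {g : ∀ i : ZFM.{u}, (ℕ → i.carrier) → i.carrier}
    {R : ∀ i : ZFM.{u}, i.carrier → (ℕ → i.carrier) → Prop}
    (h : ∀ i v z, z = g i v ↔ R i z v) (hR : DZ (fun i v => R i (v 0) (fun k => v (k + 1)))) :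
    FZ g :=
  ⟨hR.of_iff (fun _ _ => (h _ _ _).symm)⟩

/-- A set-valued function whose membership relation is uniformly definable is so. -/
theorem FZ.of_mem {g : ∀ i : ZFM.{u}, (ℕ → i.carrier) → i.carrier}
    {Q : ∀ i : ZFM.{u}, i.carrier → (ℕ → i.carrier) → Prop}
    (h : ∀ i v z, SetStr.mem z (g i v) ↔ Q i z v)
    (hQ : DZ (fun i v => Q i (v 0) (fun k => v (k + 1)))) : FZ g := by
  have h0 : DZ (fun (i : ZFM.{u}) (v : ℕ → i.carrier) => Q i (v 0) (fun k => v (k + 2))) := by
    have := hQ.subst (fun k => match k with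
      | 0 => 0
      | k + 1 => k + 2)
    exact this
  have h1 : DZ (fun (i : ZFM.{u}) (v : ℕ → i.carrier) =>
      ∀ z, SetStr.mem z (v 0) ↔ Q i z (fun k => v (k + 1))) :=
    DZ.all (P := fun i z v => (SetStr.mem z (v 0) ↔ Q i z (fun k => v (k + 1)))) (hP := DZ.iff (hQ := h0))
  exact ⟨h1.of_iff (fun i v => ⟨fun hv => ext (fun z => (hv z).trans (h i _ z).symm),
    fun hv z => by rw [hv, h]⟩)⟩

section lib

variable {f g h : ∀ i : ZFM.{u}, (ℕ → i.carrier) → i.carrier}

instance FZ.sep {P : ∀ i : ZFM.{u}, i.carrier → (ℕ → i.carrier) → Prop} [hf : FZ f]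
    [hP : DZ (fun i v => P i (v 0) (fun k => v (k + 1)))] :
    FZ (fun i v => sep (f i v) (fun z => P i z v)) := by
  have hf1 := hf.weaken 1
  refine FZ.of_mem (Q := fun i z v => SetStr.mem z (f i v) ∧ P i z v)
    (fun i v z => mem_sep (hP.pd1 i v)) ?_
  infer_instance

instance FZ.emp : FZ (fun (i : ZFM.{u}) (_ : ℕ → i.carrier) => (emp : i.carrier)) := by
  refine FZ.of_mem (Q := fun i z v => False) (fun i v z => ?_) ?_
  · simp
  · infer_instance

instance FZ.pr [hf : FZ f] [hg : FZ g] : FZ (fun i v => pr (f i v) (g i v)) := by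
  have hf1 := hf.weaken 1
  have hg1 := hg.weaken 1
  refine FZ.of_mem (Q := fun i z v => z = f i v ∨ z = g i v) (fun i v z => mem_pr) ?_
  infer_instance

instance FZ.op [hf : FZ f] [hg : FZ g] : FZ (fun i v => op (f i v) (g i v)) := by
  unfold GA.op
  infer_instance

instance FZ.sUn [hf : FZ f] : FZ (fun i v => sUn (f i v)) := by
  refine FZ.app1 (F := fun i x => GA.sUn x) ?_ hf
  refine FZ.of_mem (Q := fun i z v => ∃ y, SetStr.mem y (v 0) ∧ SetStr.mem z y) (fun i v z => mem_sUn) ?_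
  infer_instance

instance FZ.un [hf : FZ f] [hg : FZ g] : FZ (fun i v => un (f i v) (g i v)) := by
  unfold GA.un
  infer_instance

instance FZ.adj [hf : FZ f] [hg : FZ g] : FZ (fun i v => adj (f i v) (g i v)) := by
  unfold GA.adj
  infer_instance

instance DZ.sub [hf : FZ f] [hg : FZ g] : DZ (fun i v => GA.sub (f i v) (g i v)) :=
  DZ.app2 (R := fun i x y => GA.sub x y) (by unfold GA.sub; infer_instance) hf hg

instance FZ.pow [hf : FZ f] : FZ (fun i v => pow (f i v)) := by
  refine FZ.app1 (F := fun i x => GA.pow x) ?_ hf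
  refine FZ.of_mem (Q := fun i z v => GA.sub z (v 0)) (fun i v z => mem_pow) ?_
  infer_instance

instance FZ.img {F : ∀ i : ZFM.{u}, i.carrier → (ℕ → i.carrier) → i.carrier} [hf : FZ f]
    [hF : FZ (fun i v => F i (v 0) (fun k => v (k + 1)))] :
    FZ (fun i v => img (fun z => F i z v) (f i v)) := by
  refine FZ.of_mem (Q := fun i z v => ∃ y, SetStr.mem y (f i v) ∧ z = F i y v)
    (fun i v z => mem_img (hF.pf1 i v)) ?_
  have hf2 := hf.weaken 2
  have hF2 : DZ (fun (i : ZFM.{u}) (v : ℕ → i.carrier) => v 1 = F i (v 0) (fun k => v (k + 2))) := by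
    have := hF.out.subst (fun k => match k with
      | 0 => 1
      | 1 => 0
      | k + 2 => k + 2)
    exact this
  infer_instance

instance FZ.dom [hf : FZ f] : FZ (fun i v => dom (f i v)) := by
  refine FZ.app1 (F := fun i x => GA.dom x) ?_ hf
  unfold GA.dom
  infer_instance

instance FZ.ran [hf : FZ f] : FZ (fun i v => ran (f i v)) := by
  refine FZ.app1 (F := fun i x => GA.ran x) ?_ hf
  unfold GA.ran
  infer_instance

instance FZ.app [hf : FZ f] [hg : FZ g] : FZ (fun i v => app (f i v) (g i v)) := by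
  refine FZ.app2 (F := fun i x y => GA.app x y) ?_ hf hg
  unfold GA.app
  infer_instance

instance DZ.Fn [hf : FZ f] [hg : FZ g] : DZ (fun i v => Fn (f i v) (g i v)) := by
  refine DZ.app2 (R := fun i x y => GA.Fn x y) ?_ hf hg
  unfold GA.Fn
  infer_instance

instance FZ.lam {F : ∀ i : ZFM.{u}, i.carrier → (ℕ → i.carrier) → i.carrier} [hf : FZ f]
    [hF : FZ (fun i v => F i (v 0) (fun k => v (k + 1)))] :
    FZ (fun i v => lam (fun z => F i z v) (f i v)) := by
  unfold GA.lam
  infer_instance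

instance FZ.prod [hf : FZ f] [hg : FZ g] : FZ (fun i v => prod (f i v) (g i v)) := by
  refine FZ.app2 (F := fun i x y => GA.prod x y) ?_ hf hg
  unfold GA.prod
  infer_instance

instance FZ.funs [hf : FZ f] [hg : FZ g] : FZ (fun i v => funs (f i v) (g i v)) := by
  refine FZ.app2 (F := fun i x y => GA.funs x y) ?_ hf hg
  unfold GA.funs
  infer_instance

instance FZ.succ [hf : FZ f] : FZ (fun i v => succ (f i v)) := by
  unfold GA.succ
  infer_instance

instance DZ.Ind [hf : FZ f] : DZ (fun i v => Ind (f i v)) := by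
  refine DZ.app1 (R := fun i x => GA.Ind x) ?_ hf
  unfold GA.Ind
  infer_instance

instance FZ.om : FZ (fun (i : ZFM.{u}) (_ : ℕ → i.carrier) => (om : i.carrier)) := by
  refine FZ.of_mem (Q := fun i z v => ∀ J, GA.Ind J → SetStr.mem z J) (fun i v z => mem_om) ?_
  infer_instance

instance DZ.Tr [hf : FZ f] : DZ (fun i v => Tr (f i v)) := by
  refine DZ.app1 (R := fun i x => GA.Tr x) ?_ hf
  unfold GA.Tr
  infer_instance

instance DZ.Ord [hf : FZ f] : DZ (fun i v => Ord (f i v)) := by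
  refine DZ.app1 (R := fun i x => GA.Ord x) ?_ hf
  unfold GA.Ord
  infer_instance

instance DZ.Big [hf : FZ f] : DZ (fun i v => Big (f i v)) := by
  unfold GA.Big
  infer_instance

instance DZ.Fini [hf : FZ f] : DZ (fun i v => Fini (f i v)) := by
  refine DZ.app1 (R := fun i x => GA.Fini x) ?_ hf
  unfold GA.Fini
  infer_instance

instance DZ.Bij [hf : FZ f] [hg : FZ g] [hh : FZ h] :
    DZ (fun i v => Bij (f i v) (g i v) (h i v)) := by
  refine DZ.app3 (R := fun i x y z => GA.Bij x y z) ?_ hf hg hh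
  unfold GA.Bij
  infer_instance

instance FZ.card [hf : FZ f] : FZ (fun i v => card (f i v)) := by
  refine FZ.app1 (F := fun i x => GA.card x) ?_ hf
  unfold GA.card
  infer_instance

instance FZ.fins [hf : FZ f] : FZ (fun i v => fins (f i v)) := by
  unfold GA.fins
  infer_instance

instance DZ.Le [hf : FZ f] [hg : FZ g] : DZ (fun i v => Le (f i v) (g i v)) := by
  refine DZ.app2 (R := fun i x y => GA.Le x y) ?_ hf hg
  unfold GA.Le
  infer_instance

instance FZ.har [hf : FZ f] : FZ (fun i v => har (f i v)) := by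
  refine FZ.app1 (F := fun i x => GA.har x) ?_ hf
  refine FZ.of_mem (Q := fun i z v => GA.Ord z ∧ GA.Le z (v 0)) (fun i v z => mem_har) ?_
  infer_instance

instance DZ.Inj [hf : FZ f] [hg : FZ g] : DZ (fun i v => Inj (f i v) (g i v)) := by
  unfold GA.Inj
  infer_instance

instance DZ.Sparse [hf : FZ f] [hg : FZ g] [hh : FZ h] :
    DZ (fun i v => Sparse (f i v) (g i v) (h i v)) := by
  refine DZ.app3 (R := fun i x y z => GA.Sparse x y z) ?_ hf hg hh
  unfold GA.Sparse
  infer_instance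

instance DZ.Spr [hf : FZ f] [hg : FZ g] : DZ (fun i v => Spr (f i v) (g i v)) := by
  refine DZ.app2 (R := fun i x y => GA.Spr x y) ?_ hf hg
  unfold GA.Spr
  infer_instance

instance FZ.hh [hf : FZ f] : FZ (fun i v => hh (f i v)) := by
  unfold GA.hh
  infer_instance

/-! ### Forcing -/

instance DZ.IsForcing [hf : FZ f] [hg : FZ g] [hh : FZ h] :
    DZ (fun i v => IsForcing (f i v) (g i v) (h i v)) := by
  refine DZ.app3 (R := fun i x y z => GA.IsForcing x y z) ?_ hf hg hh
  have h1 : DZ (fun (i : ZFM.{u}) (v : ℕ → i.carrier) =>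
      (∀ q p, SetStr.mem (op q p) (v 1) → SetStr.mem q (v 0) ∧ SetStr.mem p (v 0)) ∧ (∀ p, SetStr.mem p (v 0) → SetStr.mem (op p p) (v 1)) ∧
      (∀ r q p, SetStr.mem (op r q) (v 1) → SetStr.mem (op q p) (v 1) → SetStr.mem (op r p) (v 1)) ∧ SetStr.mem (v 2) (v 0) ∧
      ∀ p, SetStr.mem p (v 0) → SetStr.mem (op p (v 2)) (v 1)) := by
    infer_instance
  exact h1.of_iff (fun i v => ⟨fun ⟨a, b, c, d, e⟩ => ⟨a, b, c, d, e⟩,
    fun ⟨a, b, c, d, e⟩ => ⟨a, b, c, d, e⟩⟩)

variable {L p x y : ∀ i : ZFM.{u}, (ℕ → i.carrier) → i.carrier}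

instance DZ.Feq [hL : FZ L] [hp : FZ p] [hx : FZ x] [hy : FZ y] :
    DZ (fun i v => Feq (L i v) (p i v) (x i v) (y i v)) := by
  refine DZ.app4 (R := fun i L p x y => GA.Feq L p x y) ?_ hL hp hx hy
  unfold GA.Feq GA.Clause GA.Half
  infer_instance

instance DZ.Fmem [hL : FZ L] [hp : FZ p] [hx : FZ x] [hy : FZ y] :
    DZ (fun i v => Fmem (L i v) (p i v) (x i v) (y i v)) := by
  refine DZ.app4 (R := fun i L p x y => GA.Fmem L p x y) ?_ hL hp hx hy
  unfold GA.Fmem
  infer_instance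

/-- The values of a term. -/
theorem FZ.term {α : Type} {n : ℕ} (t : LST.Term (α ⊕ Fin n))
    {v : α → ∀ i : ZFM.{u}, (ℕ → i.carrier) → i.carrier}
    {xs : Fin n → ∀ i : ZFM.{u}, (ℕ → i.carrier) → i.carrier} (hv : ∀ a, FZ (v a))
    (hxs : ∀ j, FZ (xs j)) :
    FZ (fun i e => t.realize (Sum.elim (fun a => v a i e) (fun j => xs j i e))) := by
  cases t with
  | var a =>
    cases a with
    | inl a => exact hv a
    | inr j => exact hxs j
  | func f ts => exact Empty.elim f

/-- Forcing is uniformly definable. -/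
theorem DZ.Forces {α : Type} {n : ℕ} (φ : LST.BoundedFormula α n)
    {L p : ∀ i : ZFM.{u}, (ℕ → i.carrier) → i.carrier}
    {v : α → ∀ i : ZFM.{u}, (ℕ → i.carrier) → i.carrier}
    {xs : Fin n → ∀ i : ZFM.{u}, (ℕ → i.carrier) → i.carrier} (hL : FZ L) (hp : FZ p)
    (hv : ∀ a, FZ (v a)) (hxs : ∀ j, FZ (xs j)) :
    DZ (fun i e => Forces (L i e) φ (p i e) (fun a => v a i e) (fun j => xs j i e)) := by
  induction φ generalizing L p v with
  | falsum => exact DZ.false
  | equal t₁ t₂ =>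
    have h1 := FZ.term t₁ hv hxs
    have h2 := FZ.term t₂ hv hxs
    exact DZ.Feq
  | rel R ts =>
    cases R
    have h1 := FZ.term (ts 0) hv hxs
    have h2 := FZ.term (ts 1) hv hxs
    exact DZ.Fmem (x := fun i e => (ts 0).realize (Sum.elim (fun a => v a i e) (fun j => xs j i e)))
      (y := fun i e => (ts 1).realize (Sum.elim (fun a => v a i e) (fun j => xs j i e)))
  | imp φ ψ ih1 ih2 =>
    have hp1 := hp.weaken 1
    have hL1 := hL.weaken 1
    have i1 := ih1 hL1 (FZ.var 0) (fun a => (hv a).weaken 1) (fun i => (hxs i).weaken 1)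
    have i2 := ih2 hL1 (FZ.var 0) (fun a => (hv a).weaken 1) (fun i => (hxs i).weaken 1)
    exact DZ.all (P := fun i q e => SetStr.mem (op q (p i e)) (L i e) → GA.Forces (L i e) φ q (fun a => v a i e)
      (fun j => xs j i e) → GA.Forces (L i e) ψ q (fun a => v a i e) (fun j => xs j i e))
      (hP := DZ.imp (hQ := DZ.imp (hP := i1) (hQ := i2)))
  | all φ ih =>
    have h := ih (L := fun i e => L i (fun k => e (k + 1))) (p := fun i e => p i (fun k => e (k + 1)))
      (v := fun a i e => v a i (fun k => e (k + 1)))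
      (xs := Fin.snoc (α := fun _ => ∀ i : ZFM.{u}, (ℕ → i.carrier) → i.carrier)
        (fun j i e => xs j i (fun k => e (k + 1))) (fun i e => e 0)) (hL.weaken 1) (hp.weaken 1)
      (fun a => (hv a).weaken 1) (by
        intro j
        refine Fin.lastCases ?_ (fun j => ?_) j
        · simp only [Fin.snoc_last]
          exact FZ.var 0
        · simp only [Fin.snoc_castSucc]
          exact (hxs j).weaken 1)
    refine DZ.all (P := fun i x e => GA.Forces (L i e) φ (p i e) (fun a => v a i e)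
      (Fin.snoc (fun j => xs j i e) x)) (hP := ?_)
    refine h.of_iff (fun i e => ?_)
    have e1 : (fun j => (Fin.snoc (α := fun _ => ∀ i : ZFM.{u}, (ℕ → i.carrier) → i.carrier)
        (fun j i e => xs j i (fun k => e (k + 1))) (fun i e => e 0) :
          Fin _ → ∀ i : ZFM.{u}, (ℕ → i.carrier) → i.carrier) j i e) =
        Fin.snoc (fun j => xs j i (fun k => e (k + 1))) (e 0) := by
      funext j
      refine Fin.lastCases ?_ (fun j => ?_) j
      · simp only [Fin.snoc_last]
      · simp only [Fin.snoc_castSucc]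
    rw [e1]

/-- Forcing of a sentence is uniformly definable. -/
theorem DZ.Forces_sentence (φ : LST.Sentence) [hL : FZ L] [hp : FZ p] :
    DZ (fun i e => GA.Forces (L i e) φ (p i e) default default) := by
  have h := DZ.Forces (L := L) (p := p) (v := fun (a : Empty) => a.elim)
    (xs := fun (j : Fin 0) => j.elim0) φ hL hp (fun a => a.elim) (fun j => j.elim0)
  refine h.of_iff (fun i e => ?_)
  have e1 : (fun a : Empty => (a.elim : ∀ i : ZFM.{u}, (ℕ → i.carrier) → i.carrier) i e) = default :=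
    Subsingleton.elim _ _
  have e2 : (fun j : Fin 0 => (j.elim0 : ∀ i : ZFM.{u}, (ℕ → i.carrier) → i.carrier) i e) =
    default := Subsingleton.elim _ _
  rw [e1, e2]

end lib

/-! ### Elementary maps and countable elementary submodels -/

/-- The map `j` is elementary. -/
def Elem {S M : Type u} [SetStr S] [SetStr M] (j : S → M) : Prop :=
  ∀ (φ : LST.Formula ℕ) (v : ℕ → S), φ.Realize (fun k => j (v k)) ↔ φ.Realize v

section elem

variable {S M : Type u} [SetStr S] [SetStr M] {j : S → M}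

theorem Elem.dz [IsZF S] [IsZF M] (hj : Elem j) {P : ∀ i : ZFM.{u}, (ℕ → i.carrier) → Prop}
    (hP : DZ P) (v : ℕ → S) : P ⟨M⟩ (fun k => j (v k)) ↔ P ⟨S⟩ v := by
  obtain ⟨φ, hφ⟩ := hP
  exact (hφ ⟨M⟩ _).symm.trans ((hj φ v).trans (hφ ⟨S⟩ v))

theorem Elem.fz [IsZF S] [IsZF M] (hj : Elem j)
    {f : ∀ i : ZFM.{u}, (ℕ → i.carrier) → i.carrier} (hf : FZ f) (v : ℕ → S) :
    f ⟨M⟩ (fun k => j (v k)) = j (f ⟨S⟩ v) := by
  have h := hj.dz hf.out (cons (f ⟨S⟩ v) v)
  exact (h.2 rfl).symm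

theorem Elem.equiv [Nonempty S] (hj : Elem j) (φ : LST.Sentence) : S ⊨ φ ↔ M ⊨ φ := by
  obtain ⟨x⟩ := (inferInstance : Nonempty S)
  have h := hj (φ.relabel (fun e : Empty => (e.elim : ℕ))) (fun _ => x)
  rw [Formula.realize_relabel, Formula.realize_relabel] at h
  unfold Sentence.Realize
  have h1 : ((fun _ => j x) ∘ (fun e : Empty => (e.elim : ℕ)) : Empty → M) = default :=
    Subsingleton.elim _ _
  have h2 : ((fun _ => x) ∘ (fun e : Empty => (e.elim : ℕ)) : Empty → S) = default :=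
    Subsingleton.elim _ _
  rw [h1, h2] at h
  exact h.symm

end elem

/-- A countable elementary submodel. -/
theorem exists_countable_elem (M : Type u) [SetStr M] [IsZF M] :
    ∃ (S : Type u) (_ : SetStr S) (_ : IsZF S) (j : S → M), Countable S ∧ Elem j := by
  by_cases hc : Countable M
  · exact ⟨M, inferInstance, inferInstance, id, hc, fun φ v => Iff.rfl⟩
  have hL : LST.card ≤ Cardinal.aleph0 := by
    have h1 : Countable LST.Symbols := by
      unfold Language.Symbols
      infer_instance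
    exact Cardinal.mk_le_aleph0
  have hM : Cardinal.aleph0 ≤ Cardinal.mk M := by
    have : ¬ Cardinal.mk M ≤ Cardinal.aleph0 := fun h => hc (Cardinal.mk_le_aleph0_iff.1 h)
    exact (not_le.1 this).le
  obtain ⟨S, -, hS⟩ := exists_elementarySubstructure_card_eq LST (∅ : Set M) Cardinal.aleph0.{u}
    le_rfl (by simp) (by simpa using hL) (by simpa using hM)
  have hS' : Countable S := by
    rw [← Cardinal.mk_le_aleph0_iff]
    simpa using hS.le
  let st : SetStr S := ⟨fun x y => SetStr.mem (x : M) (y : M)⟩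
  have hst : (S.inducedStructure : LST.Structure S) = @instStr S st := by
    refine Structure.ext ?_ ?_
    · funext n f
      exact Empty.elim f
    · funext n r v
      cases r
      rfl
  have he : @Elem S M st _ (fun x => (x : M)) := by
    intro φ v
    have h : φ.Realize (fun k => (v k : M)) ↔
        @Formula.Realize LST S (S.inducedStructure) ℕ φ v :=
      @ElementaryEmbedding.map_formula LST S M S.inducedStructure _ S.subtype ℕ φ v
    rw [hst] at h
    exact h
  obtain ⟨x⟩ : Nonempty S := by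
    have : Cardinal.mk S ≠ 0 := by
      intro h0
      rw [h0] at hS
      simp only [Cardinal.lift_zero, Cardinal.lift_aleph0] at hS
      exact Cardinal.aleph0_ne_zero hS.symm
    exact Cardinal.mk_ne_zero_iff.1 this
  have hne : Nonempty S := ⟨x⟩
  have hz : @IsZF S st := IsZF.of_equiv (M := M) (fun φ => (Elem.equiv he φ).symm)
  exact ⟨S, st, hz, _, hS', he⟩

end GA
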