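import Pool.Agent.GA.Lang

/-!
# Models of ZF and the basic set operations
-/

universe u

namespace GA

open FirstOrder FirstOrder.Language

section

variable {M : Type u} [SetStr M]

/-- A definable predicate is given by a formula with finitely many parameters. -/
theorem PD.finite_params {P : (ℕ → M) → Prop} (hP : PD P) (x0 : M) (k : ℕ) :
    ∃ (n : ℕ) (φ : LST.Formula (Fin (n + k))) (a : Fin n → M), ∀ v : Fin k → M,
      φ.Realize (Fin.append a v) ↔ P (fun i => if h : i < k then v ⟨i, h⟩ else x0) := by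
  classical
  obtain ⟨φ, hφ⟩ := hP
  let F := φ.freeVarFinset
  let e : F ≃ Fin (Fintype.card F) := Fintype.equivFin F
  let n := Fintype.card F
  let g : F → Fin (n + k) := fun b => match b.1 with
    | .inl _ => Fin.castAdd k (e b)
    | .inr i => if h : i < k then Fin.natAdd n ⟨i, h⟩ else Fin.castAdd k (e b)
  let a : Fin n → M := fun j => match (e.symm j).1 with
    | .inl m => m
    | .inr _ => x0
  refine ⟨n, φ.restrictFreeVar g, a, fun v => ?_⟩
  rw [← hφ]
  apply BoundedFormula.realize_restrictFreeVar (v' := Sum.elim id (fun i => if h : i < k then v ⟨i, h⟩ else x0))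
  rintro ⟨b, hb⟩
  rcases b with m | i
  · have : g ⟨Sum.inl m, hb⟩ = Fin.castAdd k (e ⟨Sum.inl m, hb⟩) := rfl
    rw [this, Fin.append_left]
    simp [a]
  · by_cases h : i < k
    · have : g ⟨Sum.inr i, hb⟩ = Fin.natAdd n ⟨i, h⟩ := by simp [g, h]
      rw [this, Fin.append_right]
      simp [h]
    · have : g ⟨Sum.inr i, hb⟩ = Fin.castAdd k (e ⟨Sum.inr i, hb⟩) := by simp [g, h]
      rw [this, Fin.append_left]
      simp [a, h]

/-- Separation for definable predicates. -/
theorem exists_sep [IsZF M] {P : M → Prop} (hP : PD (fun v => P (v 0))) (x : M) :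
    ∃ y, ∀ z, SetStr.mem z y ↔ SetStr.mem z x ∧ P z := by
  obtain ⟨n, φ, a, h⟩ := hP.finite_params x 1
  let π : Fin (n + 1) → Fin (n + 1) := Fin.addCases (fun i => i.succ) (fun _ => 0)
  obtain ⟨y, hy⟩ := IsZF.separation n (φ.relabel π) a x
  refine ⟨y, fun z => ?_⟩
  rw [hy, Formula.realize_relabel]
  have : ((Fin.cons z a : Fin (n + 1) → M) ∘ π) = Fin.append a (fun _ => z) := by
    funext i
    refine Fin.addCases (fun i => ?_) (fun i => ?_) i
    · simp [π]
    · simp [π]
  rw [this, h]
  simp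

/-- Replacement (collection form) for definable functional relations. -/
theorem exists_repl [IsZF M] {R : M → M → Prop} (hR : PD (fun v => R (v 0) (v 1))) (x : M)
    (hx : ∀ y, SetStr.mem y x → ∃! z, R y z) :
    ∃ w, ∀ y, SetStr.mem y x → ∃ z, SetStr.mem z w ∧ R y z := by
  obtain ⟨n, φ, a, h⟩ := hR.finite_params x 2
  let π : Fin (n + 2) → Fin (n + 2) := Fin.addCases (fun i => i.succ.succ) ![0, 1]
  have key : ∀ y z, (φ.relabel π).Realize
      (Fin.cons y (Fin.cons z a : Fin (n + 1) → M) : Fin (n + 2) → M) ↔ R y z := by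
    intro y z
    rw [Formula.realize_relabel]
    have : ((Fin.cons y (Fin.cons z a : Fin (n + 1) → M) : Fin (n + 2) → M) ∘ π)
        = Fin.append a ![y, z] := by
      funext i
      refine Fin.addCases (fun i => ?_) (fun i => ?_) i
      · simp [π]
      · fin_cases i
        · simp [π]
        · simp only [Function.comp, π, Fin.addCases_right, Fin.append_right]
          rfl
    rw [this, h]
    simp
  obtain ⟨w, hw⟩ := IsZF.replacement n (φ.relabel π) a x (fun y hy => by
    obtain ⟨z, hz, hz'⟩ := hx y hy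
    exact ⟨z, (key y z).2 hz, fun z' h' => hz' z' ((key y z').1 h')⟩)
  refine ⟨w, fun y hy => ?_⟩
  obtain ⟨z, hz, hz'⟩ := hw y hy
  exact ⟨z, hz, (key y z).1 hz'⟩

variable [IsZF M]

theorem ext {x y : M} (h : ∀ z, SetStr.mem z x ↔ SetStr.mem z y) : x = y := IsZF.extensionality x y h

/-- A set-valued function whose membership relation is definable is definable. -/
theorem PF.of_mem {g : (ℕ → M) → M} {Q : M → (ℕ → M) → Prop} (h : ∀ v z, SetStr.mem z (g v) ↔ Q z v)
    (hQ : PD (fun v => Q (v 0) (fun i => v (i + 1)))) : PF g := by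
  have h1 : PD (fun v : ℕ → M => ∀ z, SetStr.mem z (v 0) ↔ Q z (fun i => v (i + 1))) := by
    apply PD.all
    refine PD.iff (PD.mem (PF.var _) (PF.var _)) ?_
    exact hQ.subst (fun i => match i with
      | 0 => Sum.inr 0
      | i + 1 => Sum.inr (i + 2))
  refine h1.of_iff (fun v => ⟨fun hv => ext (fun z => (hv z).trans (h _ z).symm), fun hv z => ?_⟩)
  rw [hv, h]

instance instNonempty : Nonempty M := ⟨(IsZF.infinity (M := M)).choose⟩

open Classical in
/-- `{z ∈ x | P z}`, for definable `P`. -/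
noncomputable def sep (x : M) (P : M → Prop) : M :=
  if h : ∃ y, ∀ z, SetStr.mem z y ↔ SetStr.mem z x ∧ P z then h.choose else x

theorem mem_sep {x : M} {P : M → Prop} (hP : PD (fun v => P (v 0))) {z : M} :
    SetStr.mem z (sep x P) ↔ SetStr.mem z x ∧ P z := by
  have h := exists_sep hP x
  unfold sep
  rw [dif_pos h]
  exact h.choose_spec z

theorem PF.sep {f : (ℕ → M) → M} {P : M → (ℕ → M) → Prop} (hf : PF f)
    (hP : PD (fun v => P (v 0) (fun i => v (i + 1)))) : PF (fun v => sep (f v) (fun z => P z v)) := by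
  refine PF.of_mem (Q := fun z v => SetStr.mem z (f v) ∧ P z v) (fun v z => mem_sep ?_) ?_
  · have := hP.subst (fun i => match i with
      | 0 => Sum.inr 0
      | i + 1 => Sum.inl (v i))
    exact this
  · exact PD.and (PD.mem (PF.var _) (hf.weaken 1)) hP


/-- The empty set. -/
noncomputable def emp : M := sep (Classical.arbitrary M) (fun _ => False)

@[simp] theorem not_mem_emp (z : M) : ¬ SetStr.mem z (emp : M) := by
  unfold emp
  rw [mem_sep (PD.const _)]
  simp

theorem exists_pair (x y : M) : ∃ z, ∀ w, SetStr.mem w z ↔ w = x ∨ w = y := by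
  obtain ⟨z, hx, hy⟩ := IsZF.pairing x y
  refine ⟨sep z (fun w => w = x ∨ w = y), fun w => ?_⟩
  rw [mem_sep (by (repeat' (with_reducible first | apply PF.sep | exact PF.var _ | exact PF.const _ | apply PD.eq | apply PD.mem | apply PD.not | apply PD.iff | apply PD.or | apply PD.and | apply PD.imp | apply PD.ex | apply PD.all | exact PD.const _ | assumption | refine PF.comp1 (F := _) (by assumption) ?_ | refine PF.comp2 (F := _) (by assumption) ?_ ?_ | refine PF.comp3 (F := _) (by assumption) ?_ ?_ ?_ | refine PD.app1 (R := _) (by assumption) ?_ | refine PD.app2 (R := _) (by assumption) ?_ ?_ | refine PD.app3 (R := _) (by assumption) ?_ ?_ ?_ | refine PD.app4 (R := _) (by assumption) ?_ ?_ ?_ ?_)))]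
  constructor
  · exact fun h => h.2
  · rintro (rfl | rfl)
    · exact ⟨hx, Or.inl rfl⟩
    · exact ⟨hy, Or.inr rfl⟩

/-- The unordered pair. -/
noncomputable def pr (x y : M) : M := (exists_pair x y).choose

@[simp] theorem mem_pr {x y w : M} : SetStr.mem w (pr x y) ↔ w = x ∨ w = y := (exists_pair x y).choose_spec w

theorem PF.pr {f g : (ℕ → M) → M} (hf : PF f) (hg : PF g) : PF (fun v => pr (f v) (g v)) := by
  refine PF.of_mem (Q := fun z v => z = f v ∨ z = g v) (fun v z => mem_pr) ?_
  exact PD.or (PD.eq (PF.var _) (hf.weaken 1)) (PD.eq (PF.var _) (hg.weaken 1))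


/-- The ordered pair (Kuratowski). -/
noncomputable def op (x y : M) : M := pr (pr x x) (pr x y)

theorem pr_eq_pr {a b c d : M} : pr a b = pr c d ↔ (a = c ∧ b = d) ∨ (a = d ∧ b = c) := by
  constructor
  · intro h
    have h1 : ∀ w, SetStr.mem w (pr a b) ↔ SetStr.mem w (pr c d) := fun w => by rw [h]
    simp only [mem_pr] at h1
    have ha := (h1 a).1 (Or.inl rfl)
    have hb := (h1 b).1 (Or.inr rfl)
    have hc := (h1 c).2 (Or.inl rfl)
    have hd := (h1 d).2 (Or.inr rfl)
    rcases ha with rfl | rfl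
    · rcases hb with rfl | rfl
      · rcases hd with rfl | rfl <;> simp
      · simp
    · rcases hb with rfl | rfl
      · simp
      · rcases hc with rfl | rfl <;> simp
  · rintro (⟨rfl, rfl⟩ | ⟨rfl, rfl⟩)
    · rfl
    · exact ext (fun z => by simp [or_comm])

@[simp] theorem op_inj {a b c d : M} : op a b = op c d ↔ a = c ∧ b = d := by
  unfold op
  constructor
  · intro h
    rw [pr_eq_pr] at h
    simp only [pr_eq_pr] at h
    rcases h with ⟨⟨⟨h1, h2⟩ | ⟨h1, h2⟩, h3 | h3⟩⟩ | ⟨h1, h2⟩
    · exact h3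
    · obtain ⟨h3, h4⟩ := h3
      subst h1
      subst h3
      exact ⟨rfl, h4⟩
    · exact h3
    · obtain ⟨h3, h4⟩ := h3
      subst h1
      subst h3
      exact ⟨rfl, h4⟩
    · rcases h1 with ⟨h1, h1'⟩ | ⟨h1, h1'⟩ <;> rcases h2 with ⟨h2, h2'⟩ | ⟨h2, h2'⟩ <;>
        subst h1 <;> simp_all
  · rintro ⟨rfl, rfl⟩
    rfl

theorem PF.op {f g : (ℕ → M) → M} (hf : PF f) (hg : PF g) : PF (fun v => op (f v) (g v)) :=
  (hf.pr hf).pr (hf.pr hg)


theorem exists_sUn (x : M) : ∃ u, ∀ z, SetStr.mem z u ↔ ∃ y, SetStr.mem y x ∧ SetStr.mem z y := by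
  obtain ⟨u, hu⟩ := IsZF.union x
  refine ⟨sep u (fun z => ∃ y, SetStr.mem y x ∧ SetStr.mem z y), fun z => ?_⟩
  rw [mem_sep (by (repeat' (with_reducible first | apply PF.op | apply PF.pr | apply PF.sep | exact PF.var _ | exact PF.const _ | apply PD.eq | apply PD.mem | apply PD.not | apply PD.iff | apply PD.or | apply PD.and | apply PD.imp | apply PD.ex | apply PD.all | exact PD.const _ | assumption | refine PF.comp1 (F := _) (by assumption) ?_ | refine PF.comp2 (F := _) (by assumption) ?_ ?_ | refine PF.comp3 (F := _) (by assumption) ?_ ?_ ?_ | refine PD.app1 (R := _) (by assumption) ?_ | refine PD.app2 (R := _) (by assumption) ?_ ?_ | refine PD.app3 (R := _) (by assumption) ?_ ?_ ?_ | refine PD.app4 (R := _) (by assumption) ?_ ?_ ?_ ?_)))]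
  constructor
  · exact fun h => h.2
  · rintro ⟨y, hy, hz⟩
    exact ⟨hu y z hz hy, y, hy, hz⟩

/-- The union of the elements of `x`. -/
noncomputable def sUn (x : M) : M := (exists_sUn x).choose

@[simp] theorem mem_sUn {x z : M} : SetStr.mem z (sUn x) ↔ ∃ y, SetStr.mem y x ∧ SetStr.mem z y := (exists_sUn x).choose_spec z

theorem PF.sUn {f : (ℕ → M) → M} (hf : PF f) : PF (fun v => sUn (f v)) := by
  refine PF.of_mem (Q := fun z v => ∃ y, SetStr.mem y (f v) ∧ SetStr.mem z y) (fun v z => mem_sUn) ?_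
  apply PD.ex
  exact PD.and (PD.mem (PF.var _) (hf.weaken 2)) (PD.mem (PF.var _) (PF.var _))


/-- The union of two sets. -/
noncomputable def un (x y : M) : M := sUn (pr x y)

@[simp] theorem mem_un {x y z : M} : SetStr.mem z (un x y) ↔ SetStr.mem z x ∨ SetStr.mem z y := by
  unfold un
  simp

theorem PF.un {f g : (ℕ → M) → M} (hf : PF f) (hg : PF g) : PF (fun v => un (f v) (g v)) :=
  (hf.pr hg).sUn


/-- `x ∪ {y}`. -/
noncomputable def adj (x y : M) : M := un x (pr y y)

@[simp] theorem mem_adj {x y z : M} : SetStr.mem z (adj x y) ↔ SetStr.mem z x ∨ z = y := by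
  unfold adj
  simp

theorem PF.adj {f g : (ℕ → M) → M} (hf : PF f) (hg : PF g) : PF (fun v => adj (f v) (g v)) :=
  hf.un (hg.pr hg)


/-- `x ⊆ y`. -/
def sub (x y : M) : Prop := ∀ z, SetStr.mem z x → SetStr.mem z y


omit [IsZF M] in
theorem PD.sub {f g : (ℕ → M) → M} (hf : PF f) (hg : PF g) : PD (fun v => GA.sub (f v) (g v)) := by
  unfold GA.sub
  apply PD.all
  exact PD.imp (PD.mem (PF.var _) (hf.weaken 1)) (PD.mem (PF.var _) (hg.weaken 1))


theorem exists_pow (x : M) : ∃ p, ∀ y, SetStr.mem y p ↔ GA.sub y x := by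
  obtain ⟨p, hp⟩ := IsZF.power x
  refine ⟨sep p (fun y => GA.sub y x), fun z => ?_⟩
  rw [mem_sep (by (repeat' (with_reducible first | apply PD.sub | apply PF.adj | apply PF.un | apply PF.sUn | apply PF.op | apply PF.pr | apply PF.sep | exact PF.var _ | exact PF.const _ | apply PD.eq | apply PD.mem | apply PD.not | apply PD.iff | apply PD.or | apply PD.and | apply PD.imp | apply PD.ex | apply PD.all | exact PD.const _ | assumption | refine PF.comp1 (F := _) (by assumption) ?_ | refine PF.comp2 (F := _) (by assumption) ?_ ?_ | refine PF.comp3 (F := _) (by assumption) ?_ ?_ ?_ | refine PD.app1 (R := _) (by assumption) ?_ | refine PD.app2 (R := _) (by assumption) ?_ ?_ | refine PD.app3 (R := _) (by assumption) ?_ ?_ ?_ | refine PD.app4 (R := _) (by assumption) ?_ ?_ ?_ ?_)))]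
  exact ⟨fun h => h.2, fun h => ⟨hp z h, h⟩⟩

/-- The power set. -/
noncomputable def pow (x : M) : M := (exists_pow x).choose

@[simp] theorem mem_pow {x y : M} : SetStr.mem y (pow x) ↔ GA.sub y x := (exists_pow x).choose_spec y

theorem PF.pow {f : (ℕ → M) → M} (hf : PF f) : PF (fun v => pow (f v)) := by
  refine PF.of_mem (Q := fun z v => GA.sub z (f v)) (fun v z => mem_pow) ?_
  exact PD.sub (PF.var _) (hf.weaken 1)


/-- Replacement for definable functions. -/
theorem exists_img {F : M → M} (hF : PF (fun v => F (v 0))) (x : M) :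
    ∃ w, ∀ z, SetStr.mem z w ↔ ∃ y, SetStr.mem y x ∧ z = F y := by
  have h1 : PD (fun v : ℕ → M => v 1 = F (v 0)) := by
    have := PD.subst hF (fun i => match i with
      | 0 => Sum.inr 1
      | 1 => Sum.inr 0
      | i + 2 => Sum.inr (i + 2))
    exact this
  obtain ⟨w, hw⟩ := exists_repl (R := fun y z => z = F y) h1 x
    (fun y _ => ⟨F y, rfl, fun z hz => hz⟩)
  refine ⟨GA.sep w (fun z => ∃ y, SetStr.mem y x ∧ z = F y), fun z => ?_⟩
  rw [mem_sep]
  · constructor
    · exact fun h => h.2
    · rintro ⟨y, hy, rfl⟩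
      obtain ⟨z, hz, rfl⟩ := hw y hy
      exact ⟨hz, y, hy, rfl⟩
  · apply PD.ex
    exact PD.and (by (repeat' (with_reducible first | apply PF.pow | apply PD.sub | apply PF.adj | apply PF.un | apply PF.sUn | apply PF.op | apply PF.pr | apply PF.sep | exact PF.var _ | exact PF.const _ | apply PD.eq | apply PD.mem | apply PD.not | apply PD.iff | apply PD.or | apply PD.and | apply PD.imp | apply PD.ex | apply PD.all | exact PD.const _ | assumption | refine PF.comp1 (F := _) (by assumption) ?_ | refine PF.comp2 (F := _) (by assumption) ?_ ?_ | refine PF.comp3 (F := _) (by assumption) ?_ ?_ ?_ | refine PD.app1 (R := _) (by assumption) ?_ | refine PD.app2 (R := _) (by assumption) ?_ ?_ | refine PD.app3 (R := _) (by assumption) ?_ ?_ ?_ | refine PD.app4 (R := _) (by assumption) ?_ ?_ ?_ ?_))) h1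

open Classical in
/-- The image `{F y | y ∈ x}` of a set under a definable function. -/
noncomputable def img (F : M → M) (x : M) : M :=
  if h : ∃ w, ∀ z, SetStr.mem z w ↔ ∃ y, SetStr.mem y x ∧ z = F y then h.choose else x

theorem mem_img {F : M → M} (hF : PF (fun v => F (v 0))) {x z : M} :
    SetStr.mem z (img F x) ↔ ∃ y, SetStr.mem y x ∧ z = F y := by
  have h := exists_img hF x
  unfold img
  rw [dif_pos h]
  exact h.choose_spec z

theorem PF.img {f : (ℕ → M) → M} {F : M → (ℕ → M) → M} (hf : PF f)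
    (hF : PF (fun v => F (v 0) (fun i => v (i + 1)))) :
    PF (fun v => img (fun z => F z v) (f v)) := by
  refine PF.of_mem (Q := fun z v => ∃ y, SetStr.mem y (f v) ∧ z = F y v) (fun v z => mem_img ?_) ?_
  · have := PD.subst hF (fun i => match i with
      | 0 => Sum.inr 0
      | 1 => Sum.inr 1
      | i + 2 => Sum.inl (v i))
    exact this
  · apply PD.ex
    refine PD.and (PD.mem (PF.var _) (hf.weaken 2)) ?_
    have := PD.subst hF (fun i => match i with
      | 0 => Sum.inr 1
      | 1 => Sum.inr 0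
      | i + 2 => Sum.inr (i + 2))
    exact this


end

end GA
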